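import Pool.Agent.LCA.Chk2

set_option maxRecDepth 100000

namespace LCA.CapJ

open LCA

def S50 : SD where
  vs := [
    ⟨nat_lit 0, nat_lit 0, nat_lit 22, (.ofNat (nat_lit 8)), (.negSucc (nat_lit 281476991)), (.ofNat (nat_lit 1242820751026505006585542824192)), (.negSucc (nat_lit 1572863)), (.negSucc (nat_lit 4830399496904316589561085951)), (.negSucc (nat_lit 281477007)), (.negSucc (nat_lit 281476975)), (.negSucc (nat_lit 3071085292119545357742)), (.ofNat (nat_lit 3071085292119545357743)), (.negSucc (nat_lit 3071085292119545357742)), (.ofNat (nat_lit 3071085292119545357743)), (.ofNat (nat_lit 0))⟩,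
    ⟨nat_lit 2, nat_lit 0, nat_lit 1, (.ofNat (nat_lit 8)), (.negSucc (nat_lit 554499903)), (.ofNat (nat_lit 2081297400481353932272618431808)), (.negSucc (nat_lit 5242879)), (.ofNat (nat_lit 6440532662539088786081447936)), (.negSucc (nat_lit 554499919)), (.negSucc (nat_lit 554499887)), (.negSucc (nat_lit 3071085292119545357742)), (.ofNat (nat_lit 3071085292119545357743)), (.negSucc (nat_lit 3071085292119545357742)), (.ofNat (nat_lit 3071085292119545357743)), (.ofNat (nat_lit 0))⟩,
    ⟨nat_lit 0, nat_lit 1, nat_lit 2, (.ofNat (nat_lit 8)), (.negSucc (nat_lit 415711231)), (.ofNat (nat_lit 2507529249773357697717534319104)), (.negSucc (nat_lit 4456447)), (.ofNat (nat_lit 8855732410991247080861990912)), (.negSucc (nat_lit 415711247)), (.negSucc (nat_lit 415711215)), (.ofNat (nat_lit 3071085292119545357743)), (.negSucc (nat_lit 3071085292119545357742)), (.negSucc (nat_lit 3071085292119545357742)), (.ofNat (nat_lit 3071085292119545357743)), (.ofNat (nat_lit 0))⟩,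
    ⟨nat_lit 0, nat_lit 2, nat_lit 3, (.ofNat (nat_lit 8)), (.negSucc (nat_lit 270614527)), (.ofNat (nat_lit 2061924896183934492330524140032)), (.negSucc (nat_lit 3407871)), (.ofNat (nat_lit 5635466079721702687821266944)), (.negSucc (nat_lit 270614543)), (.negSucc (nat_lit 270614511)), (.negSucc (nat_lit 3071085292119545357742)), (.ofNat (nat_lit 3071085292119545357743)), (.negSucc (nat_lit 3071085292119545357742)), (.ofNat (nat_lit 3071085292119545357743)), (.ofNat (nat_lit 0))⟩,
    ⟨nat_lit 1, nat_lit 3, nat_lit 4, (.ofNat (nat_lit 8)), (.ofNat (nat_lit 137936704)), (.ofNat (nat_lit 3316620575856454639516307529408)), (.ofNat (nat_lit 262144)), (.ofNat (nat_lit 16906398239165108063463800832)), (.ofNat (nat_lit 137936688)), (.ofNat (nat_lit 137936720)), (.ofNat (nat_lit 3071085292119545357743)), (.negSucc (nat_lit 3071085292119545357742)), (.negSucc (nat_lit 3071085292119545357742)), (.ofNat (nat_lit 3071085292119545357743)), (.ofNat (nat_lit 0))⟩,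
    ⟨nat_lit 0, nat_lit 5, nat_lit 4, (.ofNat (nat_lit 8)), (.negSucc (nat_lit 29442239)), (.ofNat (nat_lit 3830655588985355663255433092800)), (.negSucc (nat_lit 1048575)), (.ofNat (nat_lit 20931731153252038554764705792)), (.negSucc (nat_lit 29442255)), (.negSucc (nat_lit 29442223)), (.ofNat (nat_lit 3071085292119545357743)), (.negSucc (nat_lit 3071085292119545357742)), (.negSucc (nat_lit 3071085292119545357742)), (.ofNat (nat_lit 3071085292119545357743)), (.ofNat (nat_lit 0))⟩,
    ⟨nat_lit 2, nat_lit 6, nat_lit 5, (.ofNat (nat_lit 8)), (.negSucc (nat_lit 506314751)), (.ofNat (nat_lit 2366139431166054264210590032384)), (.negSucc (nat_lit 5242879)), (.ofNat (nat_lit 8050665828173860982601809920)), (.negSucc (nat_lit 506314767)), (.negSucc (nat_lit 506314735)), (.negSucc (nat_lit 3071085292119545357742)), (.ofNat (nat_lit 3071085292119545357743)), (.negSucc (nat_lit 3071085292119545357742)), (.ofNat (nat_lit 3071085292119545357743)), (.ofNat (nat_lit 0))⟩,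
    ⟨nat_lit 0, nat_lit 7, nat_lit 8, (.ofNat (nat_lit 8)), (.negSucc (nat_lit 281821183)), (.ofNat (nat_lit 2398643994447306227927844839936)), (.negSucc (nat_lit 3407871)), (.ofNat (nat_lit 7245599245356474884341628928)), (.negSucc (nat_lit 281821199)), (.negSucc (nat_lit 281821167)), (.ofNat (nat_lit 3071085292119545357743)), (.negSucc (nat_lit 3071085292119545357742)), (.negSucc (nat_lit 3071085292119545357742)), (.ofNat (nat_lit 3071085292119545357743)), (.ofNat (nat_lit 0))⟩,
    ⟨nat_lit 0, nat_lit 8, nat_lit 9, (.ofNat (nat_lit 8)), (.ofNat (nat_lit 226279168)), (.ofNat (nat_lit 838224476499342405578660614400)), (.ofNat (nat_lit 262144)), (.negSucc (nat_lit 4025332914086930491300904959)), (.ofNat (nat_lit 226279152)), (.ofNat (nat_lit 226279184)), (.negSucc (nat_lit 3071085292119545357742)), (.ofNat (nat_lit 3071085292119545357743)), (.negSucc (nat_lit 3071085292119545357742)), (.ofNat (nat_lit 3071085292119545357743)), (.ofNat (nat_lit 0))⟩,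
    ⟨nat_lit 1, nat_lit 9, nat_lit 10, (.ofNat (nat_lit 8)), (.ofNat (nat_lit 561036864)), (.ofNat (nat_lit 1866293913108768366104203054528)), (.ofNat (nat_lit 3407872)), (.ofNat (nat_lit 5635466079721702687821266944)), (.ofNat (nat_lit 561036848)), (.ofNat (nat_lit 561036880)), (.ofNat (nat_lit 3071085292119545357743)), (.negSucc (nat_lit 3071085292119545357742)), (.negSucc (nat_lit 3071085292119545357742)), (.ofNat (nat_lit 3071085292119545357743)), (.ofNat (nat_lit 0))⟩,
    ⟨nat_lit 0, nat_lit 11, nat_lit 10, (.ofNat (nat_lit 8)), (.ofNat (nat_lit 245481216)), (.ofNat (nat_lit 2835392222526820794932187236992)), (.ofNat (nat_lit 524288)), (.ofNat (nat_lit 14491198490712949768683257856)), (.ofNat (nat_lit 245481200)), (.ofNat (nat_lit 245481232)), (.ofNat (nat_lit 3071085292119545357743)), (.negSucc (nat_lit 3071085292119545357742)), (.negSucc (nat_lit 3071085292119545357742)), (.ofNat (nat_lit 3071085292119545357743)), (.ofNat (nat_lit 0))⟩,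
    ⟨nat_lit 0, nat_lit 21, nat_lit 11, (.ofNat (nat_lit 8)), (.ofNat (nat_lit 41860992)), (.ofNat (nat_lit 2210057147422333534410397442560)), (.ofNat (nat_lit 0)), (.ofNat (nat_lit 12881065325078177572162895872)), (.ofNat (nat_lit 41860976)), (.ofNat (nat_lit 41861008)), (.negSucc (nat_lit 3071085292119545357742)), (.ofNat (nat_lit 3071085292119545357743)), (.negSucc (nat_lit 3071085292119545357742)), (.ofNat (nat_lit 3071085292119545357743)), (.ofNat (nat_lit 0))⟩,
    ⟨nat_lit 1, nat_lit 13, nat_lit 12, (.ofNat (nat_lit 8)), (.ofNat (nat_lit 238337792)), (.ofNat (nat_lit 1632422267349776400210523371904)), (.ofNat (nat_lit 262144)), (.negSucc (nat_lit 805066582817386098260180991)), (.ofNat (nat_lit 238337776)), (.ofNat (nat_lit 238337808)), (.ofNat (nat_lit 3071085292119545357743)), (.negSucc (nat_lit 3071085292119545357742)), (.negSucc (nat_lit 3071085292119545357742)), (.ofNat (nat_lit 3071085292119545357743)), (.ofNat (nat_lit 0))⟩,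
    ⟨nat_lit 0, nat_lit 14, nat_lit 13, (.ofNat (nat_lit 8)), (.ofNat (nat_lit 114147136)), (.ofNat (nat_lit 1251022170289498431810665522496)), (.ofNat (nat_lit 0)), (.negSucc (nat_lit 1610133165634772196520361983)), (.ofNat (nat_lit 114147120)), (.ofNat (nat_lit 114147152)), (.negSucc (nat_lit 3071085292119545357742)), (.ofNat (nat_lit 3071085292119545357743)), (.negSucc (nat_lit 3071085292119545357742)), (.ofNat (nat_lit 3071085292119545357743)), (.ofNat (nat_lit 0))⟩,
    ⟨nat_lit 0, nat_lit 15, nat_lit 14, (.ofNat (nat_lit 8)), (.negSucc (nat_lit 290603007)), (.ofNat (nat_lit 2494044384511166480571676287488)), (.negSucc (nat_lit 3407871)), (.ofNat (nat_lit 8855732410991247080861990912)), (.negSucc (nat_lit 290603023)), (.negSucc (nat_lit 290602991)), (.ofNat (nat_lit 3071085292119545357743)), (.negSucc (nat_lit 3071085292119545357742)), (.negSucc (nat_lit 3071085292119545357742)), (.ofNat (nat_lit 3071085292119545357743)), (.ofNat (nat_lit 0))⟩,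
    ⟨nat_lit 0, nat_lit 6, nat_lit 15, (.ofNat (nat_lit 8)), (.negSucc (nat_lit 419282943)), (.ofNat (nat_lit 2098857325670682079588209943040)), (.negSucc (nat_lit 4456447)), (.ofNat (nat_lit 5635466079721702687821266944)), (.negSucc (nat_lit 419282959)), (.negSucc (nat_lit 419282927)), (.negSucc (nat_lit 3071085292119545357742)), (.ofNat (nat_lit 3071085292119545357743)), (.negSucc (nat_lit 3071085292119545357742)), (.ofNat (nat_lit 3071085292119545357743)), (.ofNat (nat_lit 0))⟩,
    ⟨nat_lit 0, nat_lit 23, nat_lit 16, (.ofNat (nat_lit 8)), (.negSucc (nat_lit 86048767)), (.ofNat (nat_lit 528324551874992235681437984896)), (.negSucc (nat_lit 1310719)), (.negSucc (nat_lit 7245599245356474884341628927)), (.negSucc (nat_lit 86048783)), (.negSucc (nat_lit 86048751)), (.negSucc (nat_lit 3071085292119545357742)), (.ofNat (nat_lit 3071085292119545357743)), (.negSucc (nat_lit 3071085292119545357742)), (.ofNat (nat_lit 3071085292119545357743)), (.ofNat (nat_lit 0))⟩,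
    ⟨nat_lit 1, nat_lit 16, nat_lit 17, (.ofNat (nat_lit 8)), (.ofNat (nat_lit 430751360)), (.ofNat (nat_lit 2115461823941290667864826176000)), (.ofNat (nat_lit 2883584)), (.ofNat (nat_lit 5635466079721702687821266944)), (.ofNat (nat_lit 430751344)), (.ofNat (nat_lit 430751376)), (.ofNat (nat_lit 3071085292119545357743)), (.negSucc (nat_lit 3071085292119545357742)), (.negSucc (nat_lit 3071085292119545357742)), (.ofNat (nat_lit 3071085292119545357743)), (.ofNat (nat_lit 0))⟩,
    ⟨nat_lit 0, nat_lit 18, nat_lit 17, (.ofNat (nat_lit 8)), (.ofNat (nat_lit 111066944)), (.ofNat (nat_lit 3097239932038716927740408209088)), (.ofNat (nat_lit 0)), (.ofNat (nat_lit 14491198490712949768683257856)), (.ofNat (nat_lit 111066928)), (.ofNat (nat_lit 111066960)), (.ofNat (nat_lit 3071085292119545357743)), (.negSucc (nat_lit 3071085292119545357742)), (.negSucc (nat_lit 3071085292119545357742)), (.ofNat (nat_lit 3071085292119545357743)), (.ofNat (nat_lit 0))⟩,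
    ⟨nat_lit 0, nat_lit 19, nat_lit 18, (.ofNat (nat_lit 8)), (.negSucc (nat_lit 272908287)), (.ofNat (nat_lit 1918019244505326727266516787712)), (.negSucc (nat_lit 3407871)), (.ofNat (nat_lit 4025332914086930491300904960)), (.negSucc (nat_lit 272908303)), (.negSucc (nat_lit 272908271)), (.negSucc (nat_lit 3071085292119545357742)), (.ofNat (nat_lit 3071085292119545357743)), (.negSucc (nat_lit 3071085292119545357742)), (.ofNat (nat_lit 3071085292119545357743)), (.ofNat (nat_lit 0))⟩,
    ⟨nat_lit 2, nat_lit 19, nat_lit 20, (.ofNat (nat_lit 8)), (.negSucc (nat_lit 418004991)), (.ofNat (nat_lit 2363623598094749932653526966784)), (.negSucc (nat_lit 4456447)), (.ofNat (nat_lit 7245599245356474884341628928)), (.negSucc (nat_lit 418005007)), (.negSucc (nat_lit 418004975)), (.negSucc (nat_lit 3071085292119545357742)), (.ofNat (nat_lit 3071085292119545357743)), (.negSucc (nat_lit 3071085292119545357742)), (.ofNat (nat_lit 3071085292119545357743)), (.ofNat (nat_lit 0))⟩,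
    ⟨nat_lit 0, nat_lit 20, nat_lit 21, (.ofNat (nat_lit 8)), (.negSucc (nat_lit 213073983)), (.ofNat (nat_lit 2992984202662782819317520561728)), (.negSucc (nat_lit 1310719)), (.ofNat (nat_lit 16906398239165108063463800832)), (.negSucc (nat_lit 213073999)), (.negSucc (nat_lit 213073967)), (.ofNat (nat_lit 3071085292119545357743)), (.negSucc (nat_lit 3071085292119545357742)), (.negSucc (nat_lit 3071085292119545357742)), (.ofNat (nat_lit 3071085292119545357743)), (.ofNat (nat_lit 0))⟩,
    ⟨nat_lit 0, nat_lit 22, nat_lit 12, (.ofNat (nat_lit 8)), (.ofNat (nat_lit 41860992)), (.ofNat (nat_lit 2235819278072489889554723234304)), (.ofNat (nat_lit 0)), (.ofNat (nat_lit 0)), (.ofNat (nat_lit 41860976)), (.ofNat (nat_lit 41861008)), (.ofNat (nat_lit 3071085292119545357743)), (.negSucc (nat_lit 3071085292119545357742)), (.negSucc (nat_lit 3071085292119545357742)), (.ofNat (nat_lit 3071085292119545357743)), (.ofNat (nat_lit 0))⟩,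
    ⟨nat_lit 2, nat_lit 23, nat_lit 7, (.ofNat (nat_lit 8)), (.negSucc (nat_lit 488439615)), (.ofNat (nat_lit 1764101166851303809558107120960)), (.negSucc (nat_lit 4718591)), (.ofNat (nat_lit 3220266331269544393040723968)), (.negSucc (nat_lit 488439631)), (.negSucc (nat_lit 488439599)), (.negSucc (nat_lit 3071085292119545357742)), (.ofNat (nat_lit 3071085292119545357743)), (.negSucc (nat_lit 3071085292119545357742)), (.ofNat (nat_lit 3071085292119545357743)), (.ofNat (nat_lit 0))⟩]
  es := [
    ⟨nat_lit 1, nat_lit 0, (.negSucc (nat_lit 554499903)), (.negSucc (nat_lit 281476991)), (.negSucc (nat_lit 554499887)), (.negSucc (nat_lit 281477007)), (.negSucc (nat_lit 3071085292119545357742)), (.ofNat (nat_lit 0)), (.negSucc (nat_lit 9660798993808633179122171903))⟩,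
    ⟨nat_lit 1, nat_lit 2, (.negSucc (nat_lit 554499903)), (.negSucc (nat_lit 415711231)), (.negSucc (nat_lit 554499887)), (.negSucc (nat_lit 415711247)), (.ofNat (nat_lit 3071085292119545357743)), (.ofNat (nat_lit 0)), (.ofNat (nat_lit 22541864318886810751285067776))⟩,
    ⟨nat_lit 2, nat_lit 3, (.negSucc (nat_lit 415711231)), (.negSucc (nat_lit 270614527)), (.negSucc (nat_lit 415711215)), (.negSucc (nat_lit 270614543)), (.negSucc (nat_lit 3071085292119545357742)), (.ofNat (nat_lit 0)), (.negSucc (nat_lit 4830399496904316589561085951))⟩,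
    ⟨nat_lit 3, nat_lit 4, (.negSucc (nat_lit 270614527)), (.ofNat (nat_lit 137936704)), (.negSucc (nat_lit 270614511)), (.ofNat (nat_lit 137936688)), (.ofNat (nat_lit 3071085292119545357743)), (.ofNat (nat_lit 0)), (.ofNat (nat_lit 16101331656347721965203619840))⟩,
    ⟨nat_lit 5, nat_lit 4, (.negSucc (nat_lit 29442239)), (.ofNat (nat_lit 137936704)), (.negSucc (nat_lit 29442223)), (.ofNat (nat_lit 137936688)), (.negSucc (nat_lit 3071085292119545357742)), (.ofNat (nat_lit 0)), (.ofNat (nat_lit 17711464821982494161723981824))⟩,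
    ⟨nat_lit 6, nat_lit 5, (.negSucc (nat_lit 506314751)), (.negSucc (nat_lit 29442239)), (.negSucc (nat_lit 506314735)), (.negSucc (nat_lit 29442255)), (.ofNat (nat_lit 3071085292119545357743)), (.ofNat (nat_lit 0)), (.ofNat (nat_lit 24151997484521582947805429760))⟩,
    ⟨nat_lit 6, nat_lit 15, (.negSucc (nat_lit 506314751)), (.negSucc (nat_lit 419282943)), (.negSucc (nat_lit 506314735)), (.negSucc (nat_lit 419282959)), (.negSucc (nat_lit 3071085292119545357742)), (.ofNat (nat_lit 0)), (.negSucc (nat_lit 8050665828173860982601809919))⟩,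
    ⟨nat_lit 23, nat_lit 7, (.negSucc (nat_lit 488439615)), (.negSucc (nat_lit 281821183)), (.negSucc (nat_lit 488439599)), (.negSucc (nat_lit 281821199)), (.ofNat (nat_lit 3071085292119545357743)), (.ofNat (nat_lit 0)), (.ofNat (nat_lit 17711464821982494161723981824))⟩,
    ⟨nat_lit 7, nat_lit 8, (.negSucc (nat_lit 281821183)), (.ofNat (nat_lit 226279168)), (.negSucc (nat_lit 281821167)), (.ofNat (nat_lit 226279152)), (.negSucc (nat_lit 3071085292119545357742)), (.ofNat (nat_lit 0)), (.negSucc (nat_lit 3220266331269544393040723967))⟩,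
    ⟨nat_lit 8, nat_lit 9, (.ofNat (nat_lit 226279168)), (.ofNat (nat_lit 561036864)), (.ofNat (nat_lit 226279184)), (.ofNat (nat_lit 561036848)), (.ofNat (nat_lit 3071085292119545357743)), (.ofNat (nat_lit 0)), (.negSucc (nat_lit 4830399496904316589561085951))⟩,
    ⟨nat_lit 10, nat_lit 9, (.ofNat (nat_lit 245481216)), (.ofNat (nat_lit 561036864)), (.ofNat (nat_lit 245481232)), (.ofNat (nat_lit 561036848)), (.negSucc (nat_lit 3071085292119545357742)), (.ofNat (nat_lit 0)), (.ofNat (nat_lit 16101331656347721965203619840))⟩,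
    ⟨nat_lit 11, nat_lit 10, (.ofNat (nat_lit 41860992)), (.ofNat (nat_lit 245481216)), (.ofNat (nat_lit 41861008)), (.ofNat (nat_lit 245481200)), (.ofNat (nat_lit 3071085292119545357743)), (.ofNat (nat_lit 0)), (.ofNat (nat_lit 12881065325078177572162895872))⟩,
    ⟨nat_lit 22, nat_lit 12, (.ofNat (nat_lit 41860992)), (.ofNat (nat_lit 238337792)), (.ofNat (nat_lit 41861008)), (.ofNat (nat_lit 238337776)), (.negSucc (nat_lit 3071085292119545357742)), (.ofNat (nat_lit 0)), (.ofNat (nat_lit 0))⟩,
    ⟨nat_lit 13, nat_lit 12, (.ofNat (nat_lit 114147136)), (.ofNat (nat_lit 238337792)), (.ofNat (nat_lit 114147152)), (.ofNat (nat_lit 238337776)), (.ofNat (nat_lit 3071085292119545357743)), (.ofNat (nat_lit 0)), (.negSucc (nat_lit 1610133165634772196520361983))⟩,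
    ⟨nat_lit 14, nat_lit 13, (.negSucc (nat_lit 290603007)), (.ofNat (nat_lit 114147136)), (.negSucc (nat_lit 290602991)), (.ofNat (nat_lit 114147120)), (.negSucc (nat_lit 3071085292119545357742)), (.ofNat (nat_lit 0)), (.negSucc (nat_lit 1610133165634772196520361983))⟩,
    ⟨nat_lit 15, nat_lit 14, (.negSucc (nat_lit 419282943)), (.negSucc (nat_lit 290603007)), (.negSucc (nat_lit 419282927)), (.negSucc (nat_lit 290603023)), (.ofNat (nat_lit 3071085292119545357743)), (.ofNat (nat_lit 0)), (.ofNat (nat_lit 19321597987617266358244343808))⟩,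
    ⟨nat_lit 16, nat_lit 17, (.negSucc (nat_lit 86048767)), (.ofNat (nat_lit 430751360)), (.negSucc (nat_lit 86048751)), (.ofNat (nat_lit 430751344)), (.ofNat (nat_lit 3071085292119545357743)), (.ofNat (nat_lit 0)), (.negSucc (nat_lit 3220266331269544393040723967))⟩,
    ⟨nat_lit 18, nat_lit 17, (.ofNat (nat_lit 111066944)), (.ofNat (nat_lit 430751360)), (.ofNat (nat_lit 111066960)), (.ofNat (nat_lit 430751344)), (.negSucc (nat_lit 3071085292119545357742)), (.ofNat (nat_lit 0)), (.ofNat (nat_lit 14491198490712949768683257856))⟩,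
    ⟨nat_lit 19, nat_lit 18, (.negSucc (nat_lit 272908287)), (.ofNat (nat_lit 111066944)), (.negSucc (nat_lit 272908271)), (.ofNat (nat_lit 111066928)), (.ofNat (nat_lit 3071085292119545357743)), (.ofNat (nat_lit 0)), (.ofNat (nat_lit 14491198490712949768683257856))⟩,
    ⟨nat_lit 20, nat_lit 19, (.negSucc (nat_lit 418004991)), (.negSucc (nat_lit 272908287)), (.negSucc (nat_lit 418004975)), (.negSucc (nat_lit 272908303)), (.negSucc (nat_lit 3071085292119545357742)), (.ofNat (nat_lit 0)), (.negSucc (nat_lit 6440532662539088786081447935))⟩,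
    ⟨nat_lit 20, nat_lit 21, (.negSucc (nat_lit 418004991)), (.negSucc (nat_lit 213073983)), (.negSucc (nat_lit 418004975)), (.negSucc (nat_lit 213073999)), (.ofNat (nat_lit 3071085292119545357743)), (.ofNat (nat_lit 0)), (.ofNat (nat_lit 20931731153252038554764705792))⟩,
    ⟨nat_lit 21, nat_lit 11, (.negSucc (nat_lit 213073983)), (.ofNat (nat_lit 41860992)), (.negSucc (nat_lit 213073967)), (.ofNat (nat_lit 41860976)), (.negSucc (nat_lit 3071085292119545357742)), (.ofNat (nat_lit 0)), (.ofNat (nat_lit 12881065325078177572162895872))⟩,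
    ⟨nat_lit 0, nat_lit 22, (.negSucc (nat_lit 281476991)), (.ofNat (nat_lit 41860992)), (.negSucc (nat_lit 281476975)), (.ofNat (nat_lit 41860976)), (.ofNat (nat_lit 3071085292119545357743)), (.ofNat (nat_lit 0)), (.ofNat (nat_lit 0))⟩,
    ⟨nat_lit 23, nat_lit 16, (.negSucc (nat_lit 488439615)), (.negSucc (nat_lit 86048767)), (.negSucc (nat_lit 488439599)), (.negSucc (nat_lit 86048783)), (.negSucc (nat_lit 3071085292119545357742)), (.ofNat (nat_lit 0)), (.negSucc (nat_lit 11270932159443405375642533887))⟩]

theorem ok50 : stOK 23 23 S50 = true := by decide +kernel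

def S51 : SD where
  vs := [
    ⟨nat_lit 0, nat_lit 0, nat_lit 22, (.ofNat (nat_lit 8)), (.negSucc (nat_lit 287768447)), (.ofNat (nat_lit 1223499153038887740227298480384)), (.negSucc (nat_lit 1572863)), (.negSucc (nat_lit 4830399496904316589561085951)), (.negSucc (nat_lit 287768463)), (.negSucc (nat_lit 287768431)), (.negSucc (nat_lit 3071085292119545357742)), (.ofNat (nat_lit 3071085292119545357743)), (.negSucc (nat_lit 3071085292119545357742)), (.ofNat (nat_lit 3071085292119545357743)), (.ofNat (nat_lit 0))⟩,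
    ⟨nat_lit 2, nat_lit 0, nat_lit 1, (.ofNat (nat_lit 8)), (.negSucc (nat_lit 575471423)), (.ofNat (nat_lit 2107059531131510287416944223552)), (.negSucc (nat_lit 5242879)), (.ofNat (nat_lit 6440532662539088786081447936)), (.negSucc (nat_lit 575471439)), (.negSucc (nat_lit 575471407)), (.negSucc (nat_lit 3071085292119545357742)), (.ofNat (nat_lit 3071085292119545357743)), (.negSucc (nat_lit 3071085292119545357742)), (.ofNat (nat_lit 3071085292119545357743)), (.ofNat (nat_lit 0))⟩,
    ⟨nat_lit 0, nat_lit 1, nat_lit 2, (.ofNat (nat_lit 8)), (.negSucc (nat_lit 433537023)), (.ofNat (nat_lit 2542952179417322686040982282752)), (.negSucc (nat_lit 4456447)), (.ofNat (nat_lit 8855732410991247080861990912)), (.negSucc (nat_lit 433537039)), (.negSucc (nat_lit 433537007)), (.ofNat (nat_lit 3071085292119545357743)), (.negSucc (nat_lit 3071085292119545357742)), (.negSucc (nat_lit 3071085292119545357742)), (.ofNat (nat_lit 3071085292119545357743)), (.ofNat (nat_lit 0))⟩,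
    ⟨nat_lit 0, nat_lit 2, nat_lit 3, (.ofNat (nat_lit 8)), (.negSucc (nat_lit 284246015)), (.ofNat (nat_lit 2084466760502821303081809207808)), (.negSucc (nat_lit 3407871)), (.ofNat (nat_lit 5635466079721702687821266944)), (.negSucc (nat_lit 284246031)), (.negSucc (nat_lit 284245999)), (.negSucc (nat_lit 3071085292119545357742)), (.ofNat (nat_lit 3071085292119545357743)), (.negSucc (nat_lit 3071085292119545357742)), (.ofNat (nat_lit 3071085292119545357743)), (.ofNat (nat_lit 0))⟩,
    ⟨nat_lit 1, nat_lit 3, nat_lit 4, (.ofNat (nat_lit 8)), (.ofNat (nat_lit 138985280)), (.ofNat (nat_lit 3384246168813115071770162732736)), (.ofNat (nat_lit 262144)), (.ofNat (nat_lit 16906398239165108063463800832)), (.ofNat (nat_lit 138985264)), (.ofNat (nat_lit 138985296)), (.ofNat (nat_lit 3071085292119545357743)), (.negSucc (nat_lit 3071085292119545357742)), (.negSucc (nat_lit 3071085292119545357742)), (.ofNat (nat_lit 3071085292119545357743)), (.ofNat (nat_lit 0))⟩,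
    ⟨nat_lit 0, nat_lit 5, nat_lit 4, (.ofNat (nat_lit 8)), (.negSucc (nat_lit 33636543)), (.ofNat (nat_lit 3914382513598363817474491915968)), (.negSucc (nat_lit 1048575)), (.ofNat (nat_lit 20931731153252038554764705792)), (.negSucc (nat_lit 33636559)), (.negSucc (nat_lit 33636527)), (.ofNat (nat_lit 3071085292119545357743)), (.negSucc (nat_lit 3071085292119545357742)), (.negSucc (nat_lit 3071085292119545357742)), (.ofNat (nat_lit 3071085292119545357743)), (.ofNat (nat_lit 0))⟩,
    ⟨nat_lit 2, nat_lit 6, nat_lit 5, (.ofNat (nat_lit 8)), (.negSucc (nat_lit 527286271)), (.ofNat (nat_lit 2398342094478749708140997272064)), (.negSucc (nat_lit 5242879)), (.ofNat (nat_lit 8050665828173860982601809920)), (.negSucc (nat_lit 527286287)), (.negSucc (nat_lit 527286255)), (.negSucc (nat_lit 3071085292119545357742)), (.ofNat (nat_lit 3071085292119545357743)), (.negSucc (nat_lit 3071085292119545357742)), (.ofNat (nat_lit 3071085292119545357743)), (.ofNat (nat_lit 0))⟩,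
    ⟨nat_lit 0, nat_lit 7, nat_lit 8, (.ofNat (nat_lit 8)), (.negSucc (nat_lit 295452671)), (.ofNat (nat_lit 2427626391428732127465211355648)), (.negSucc (nat_lit 3407871)), (.ofNat (nat_lit 7245599245356474884341628928)), (.negSucc (nat_lit 295452687)), (.negSucc (nat_lit 295452655)), (.ofNat (nat_lit 3071085292119545357743)), (.negSucc (nat_lit 3071085292119545357742)), (.negSucc (nat_lit 3071085292119545357742)), (.ofNat (nat_lit 3071085292119545357743)), (.ofNat (nat_lit 0))⟩,
    ⟨nat_lit 0, nat_lit 8, nat_lit 9, (.ofNat (nat_lit 8)), (.ofNat (nat_lit 227327744)), (.ofNat (nat_lit 822123144842994683613456994560)), (.ofNat (nat_lit 262144)), (.negSucc (nat_lit 4025332914086930491300904959)), (.ofNat (nat_lit 227327728)), (.ofNat (nat_lit 227327760)), (.negSucc (nat_lit 3071085292119545357742)), (.ofNat (nat_lit 3071085292119545357743)), (.negSucc (nat_lit 3071085292119545357742)), (.ofNat (nat_lit 3071085292119545357743)), (.ofNat (nat_lit 0))⟩,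
    ⟨nat_lit 1, nat_lit 9, nat_lit 10, (.ofNat (nat_lit 8)), (.ofNat (nat_lit 574668352)), (.ofNat (nat_lit 1888835777427655176855488122304)), (.ofNat (nat_lit 3407872)), (.ofNat (nat_lit 5635466079721702687821266944)), (.ofNat (nat_lit 574668336)), (.ofNat (nat_lit 574668368)), (.ofNat (nat_lit 3071085292119545357743)), (.negSucc (nat_lit 3071085292119545357742)), (.negSucc (nat_lit 3071085292119545357742)), (.ofNat (nat_lit 3071085292119545357743)), (.ofNat (nat_lit 0))⟩,
    ⟨nat_lit 0, nat_lit 11, nat_lit 10, (.ofNat (nat_lit 8)), (.ofNat (nat_lit 247578368)), (.ofNat (nat_lit 2893357016489672594006920268416)), (.ofNat (nat_lit 524288)), (.ofNat (nat_lit 14491198490712949768683257856)), (.ofNat (nat_lit 247578352)), (.ofNat (nat_lit 247578384)), (.ofNat (nat_lit 3071085292119545357743)), (.negSucc (nat_lit 3071085292119545357742)), (.negSucc (nat_lit 3071085292119545357742)), (.ofNat (nat_lit 3071085292119545357743)), (.ofNat (nat_lit 0))⟩,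
    ⟨nat_lit 0, nat_lit 21, nat_lit 11, (.ofNat (nat_lit 8)), (.ofNat (nat_lit 41860992)), (.ofNat (nat_lit 2261581408722646244699049026048)), (.ofNat (nat_lit 0)), (.ofNat (nat_lit 12881065325078177572162895872)), (.ofNat (nat_lit 41860976)), (.ofNat (nat_lit 41861008)), (.negSucc (nat_lit 3071085292119545357742)), (.ofNat (nat_lit 3071085292119545357743)), (.negSucc (nat_lit 3071085292119545357742)), (.ofNat (nat_lit 3071085292119545357743)), (.ofNat (nat_lit 0))⟩,
    ⟨nat_lit 1, nat_lit 13, nat_lit 12, (.ofNat (nat_lit 8)), (.ofNat (nat_lit 239386368)), (.ofNat (nat_lit 1629202001018506855817482647936)), (.ofNat (nat_lit 262144)), (.negSucc (nat_lit 805066582817386098260180991)), (.ofNat (nat_lit 239386352)), (.ofNat (nat_lit 239386384)), (.ofNat (nat_lit 3071085292119545357743)), (.negSucc (nat_lit 3071085292119545357742)), (.negSucc (nat_lit 3071085292119545357742)), (.ofNat (nat_lit 3071085292119545357743)), (.ofNat (nat_lit 0))⟩,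
    ⟨nat_lit 0, nat_lit 14, nat_lit 13, (.ofNat (nat_lit 8)), (.ofNat (nat_lit 114147136)), (.ofNat (nat_lit 1244581637626959343024584074560)), (.ofNat (nat_lit 0)), (.negSucc (nat_lit 1610133165634772196520361983)), (.ofNat (nat_lit 114147120)), (.ofNat (nat_lit 114147152)), (.negSucc (nat_lit 3071085292119545357742)), (.ofNat (nat_lit 3071085292119545357743)), (.negSucc (nat_lit 3071085292119545357742)), (.ofNat (nat_lit 3071085292119545357743)), (.ofNat (nat_lit 0))⟩,
    ⟨nat_lit 0, nat_lit 15, nat_lit 14, (.ofNat (nat_lit 8)), (.negSucc (nat_lit 304234495)), (.ofNat (nat_lit 2529467314155131468895124251136)), (.negSucc (nat_lit 3407871)), (.ofNat (nat_lit 8855732410991247080861990912)), (.negSucc (nat_lit 304234511)), (.negSucc (nat_lit 304234479)), (.ofNat (nat_lit 3071085292119545357743)), (.negSucc (nat_lit 3071085292119545357742)), (.negSucc (nat_lit 3071085292119545357742)), (.ofNat (nat_lit 3071085292119545357743)), (.ofNat (nat_lit 0))⟩,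
    ⟨nat_lit 0, nat_lit 6, nat_lit 15, (.ofNat (nat_lit 8)), (.negSucc (nat_lit 437108735)), (.ofNat (nat_lit 2121399189989568890339495010816)), (.negSucc (nat_lit 4456447)), (.ofNat (nat_lit 5635466079721702687821266944)), (.negSucc (nat_lit 437108751)), (.negSucc (nat_lit 437108719)), (.negSucc (nat_lit 3071085292119545357742)), (.ofNat (nat_lit 3071085292119545357743)), (.negSucc (nat_lit 3071085292119545357742)), (.ofNat (nat_lit 3071085292119545357743)), (.ofNat (nat_lit 0))⟩,
    ⟨nat_lit 0, nat_lit 23, nat_lit 16, (.ofNat (nat_lit 8)), (.negSucc (nat_lit 91291647)), (.ofNat (nat_lit 499342154893566336144071469184)), (.negSucc (nat_lit 1310719)), (.negSucc (nat_lit 7245599245356474884341628927)), (.negSucc (nat_lit 91291663)), (.negSucc (nat_lit 91291631)), (.negSucc (nat_lit 3071085292119545357742)), (.ofNat (nat_lit 3071085292119545357743)), (.negSucc (nat_lit 3071085292119545357742)), (.ofNat (nat_lit 3071085292119545357743)), (.ofNat (nat_lit 0))⟩,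
    ⟨nat_lit 1, nat_lit 16, nat_lit 17, (.ofNat (nat_lit 8)), (.ofNat (nat_lit 442285696)), (.ofNat (nat_lit 2138003688260177478616111243776)), (.ofNat (nat_lit 2883584)), (.ofNat (nat_lit 5635466079721702687821266944)), (.ofNat (nat_lit 442285680)), (.ofNat (nat_lit 442285712)), (.ofNat (nat_lit 3071085292119545357743)), (.negSucc (nat_lit 3071085292119545357742)), (.negSucc (nat_lit 3071085292119545357742)), (.ofNat (nat_lit 3071085292119545357743)), (.ofNat (nat_lit 0))⟩,
    ⟨nat_lit 0, nat_lit 18, nat_lit 17, (.ofNat (nat_lit 8)), (.ofNat (nat_lit 111066944)), (.ofNat (nat_lit 3155204726001568726815141240512)), (.ofNat (nat_lit 0)), (.ofNat (nat_lit 14491198490712949768683257856)), (.ofNat (nat_lit 111066928)), (.ofNat (nat_lit 111066960)), (.ofNat (nat_lit 3071085292119545357743)), (.negSucc (nat_lit 3071085292119545357742)), (.negSucc (nat_lit 3071085292119545357742)), (.ofNat (nat_lit 3071085292119545357743)), (.ofNat (nat_lit 0))⟩,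
    ⟨nat_lit 0, nat_lit 19, nat_lit 18, (.ofNat (nat_lit 8)), (.negSucc (nat_lit 286539775)), (.ofNat (nat_lit 1934120576161674449231720407552)), (.negSucc (nat_lit 3407871)), (.ofNat (nat_lit 4025332914086930491300904960)), (.negSucc (nat_lit 286539791)), (.negSucc (nat_lit 286539759)), (.negSucc (nat_lit 3071085292119545357742)), (.ofNat (nat_lit 3071085292119545357743)), (.negSucc (nat_lit 3071085292119545357742)), (.ofNat (nat_lit 3071085292119545357743)), (.ofNat (nat_lit 0))⟩,
    ⟨nat_lit 2, nat_lit 19, nat_lit 20, (.ofNat (nat_lit 8)), (.negSucc (nat_lit 435830783)), (.ofNat (nat_lit 2392605995076175832190893482496)), (.negSucc (nat_lit 4456447)), (.ofNat (nat_lit 7245599245356474884341628928)), (.negSucc (nat_lit 435830799)), (.negSucc (nat_lit 435830767)), (.negSucc (nat_lit 3071085292119545357742)), (.ofNat (nat_lit 3071085292119545357743)), (.negSucc (nat_lit 3071085292119545357742)), (.ofNat (nat_lit 3071085292119545357743)), (.ofNat (nat_lit 0))⟩,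
    ⟨nat_lit 0, nat_lit 20, nat_lit 21, (.ofNat (nat_lit 8)), (.negSucc (nat_lit 218316863)), (.ofNat (nat_lit 3060609795619443251571375765056)), (.negSucc (nat_lit 1310719)), (.ofNat (nat_lit 16906398239165108063463800832)), (.negSucc (nat_lit 218316879)), (.negSucc (nat_lit 218316847)), (.ofNat (nat_lit 3071085292119545357743)), (.negSucc (nat_lit 3071085292119545357742)), (.negSucc (nat_lit 3071085292119545357742)), (.ofNat (nat_lit 3071085292119545357743)), (.ofNat (nat_lit 0))⟩,
    ⟨nat_lit 0, nat_lit 22, nat_lit 12, (.ofNat (nat_lit 8)), (.ofNat (nat_lit 41860992)), (.ofNat (nat_lit 2235819278072489889554723234304)), (.ofNat (nat_lit 0)), (.ofNat (nat_lit 0)), (.ofNat (nat_lit 41860976)), (.ofNat (nat_lit 41861008)), (.ofNat (nat_lit 3071085292119545357743)), (.negSucc (nat_lit 3071085292119545357742)), (.negSucc (nat_lit 3071085292119545357742)), (.ofNat (nat_lit 3071085292119545357743)), (.ofNat (nat_lit 0))⟩,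
    ⟨nat_lit 2, nat_lit 23, nat_lit 7, (.ofNat (nat_lit 8)), (.negSucc (nat_lit 507313983)), (.ofNat (nat_lit 1776982232176381987130270016832)), (.negSucc (nat_lit 4718591)), (.ofNat (nat_lit 3220266331269544393040723968)), (.negSucc (nat_lit 507313999)), (.negSucc (nat_lit 507313967)), (.negSucc (nat_lit 3071085292119545357742)), (.ofNat (nat_lit 3071085292119545357743)), (.negSucc (nat_lit 3071085292119545357742)), (.ofNat (nat_lit 3071085292119545357743)), (.ofNat (nat_lit 0))⟩]
  es := [
    ⟨nat_lit 1, nat_lit 0, (.negSucc (nat_lit 575471423)), (.negSucc (nat_lit 287768447)), (.negSucc (nat_lit 575471407)), (.negSucc (nat_lit 287768463)), (.negSucc (nat_lit 3071085292119545357742)), (.ofNat (nat_lit 0)), (.negSucc (nat_lit 9660798993808633179122171903))⟩,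
    ⟨nat_lit 1, nat_lit 2, (.negSucc (nat_lit 575471423)), (.negSucc (nat_lit 433537023)), (.negSucc (nat_lit 575471407)), (.negSucc (nat_lit 433537039)), (.ofNat (nat_lit 3071085292119545357743)), (.ofNat (nat_lit 0)), (.ofNat (nat_lit 22541864318886810751285067776))⟩,
    ⟨nat_lit 2, nat_lit 3, (.negSucc (nat_lit 433537023)), (.negSucc (nat_lit 284246015)), (.negSucc (nat_lit 433537007)), (.negSucc (nat_lit 284246031)), (.negSucc (nat_lit 3071085292119545357742)), (.ofNat (nat_lit 0)), (.negSucc (nat_lit 4830399496904316589561085951))⟩,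
    ⟨nat_lit 3, nat_lit 4, (.negSucc (nat_lit 284246015)), (.ofNat (nat_lit 138985280)), (.negSucc (nat_lit 284245999)), (.ofNat (nat_lit 138985264)), (.ofNat (nat_lit 3071085292119545357743)), (.ofNat (nat_lit 0)), (.ofNat (nat_lit 16101331656347721965203619840))⟩,
    ⟨nat_lit 5, nat_lit 4, (.negSucc (nat_lit 33636543)), (.ofNat (nat_lit 138985280)), (.negSucc (nat_lit 33636527)), (.ofNat (nat_lit 138985264)), (.negSucc (nat_lit 3071085292119545357742)), (.ofNat (nat_lit 0)), (.ofNat (nat_lit 17711464821982494161723981824))⟩,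
    ⟨nat_lit 6, nat_lit 5, (.negSucc (nat_lit 527286271)), (.negSucc (nat_lit 33636543)), (.negSucc (nat_lit 527286255)), (.negSucc (nat_lit 33636559)), (.ofNat (nat_lit 3071085292119545357743)), (.ofNat (nat_lit 0)), (.ofNat (nat_lit 24151997484521582947805429760))⟩,
    ⟨nat_lit 6, nat_lit 15, (.negSucc (nat_lit 527286271)), (.negSucc (nat_lit 437108735)), (.negSucc (nat_lit 527286255)), (.negSucc (nat_lit 437108751)), (.negSucc (nat_lit 3071085292119545357742)), (.ofNat (nat_lit 0)), (.negSucc (nat_lit 8050665828173860982601809919))⟩,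
    ⟨nat_lit 23, nat_lit 7, (.negSucc (nat_lit 507313983)), (.negSucc (nat_lit 295452671)), (.negSucc (nat_lit 507313967)), (.negSucc (nat_lit 295452687)), (.ofNat (nat_lit 3071085292119545357743)), (.ofNat (nat_lit 0)), (.ofNat (nat_lit 17711464821982494161723981824))⟩,
    ⟨nat_lit 7, nat_lit 8, (.negSucc (nat_lit 295452671)), (.ofNat (nat_lit 227327744)), (.negSucc (nat_lit 295452655)), (.ofNat (nat_lit 227327728)), (.negSucc (nat_lit 3071085292119545357742)), (.ofNat (nat_lit 0)), (.negSucc (nat_lit 3220266331269544393040723967))⟩,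
    ⟨nat_lit 8, nat_lit 9, (.ofNat (nat_lit 227327744)), (.ofNat (nat_lit 574668352)), (.ofNat (nat_lit 227327760)), (.ofNat (nat_lit 574668336)), (.ofNat (nat_lit 3071085292119545357743)), (.ofNat (nat_lit 0)), (.negSucc (nat_lit 4830399496904316589561085951))⟩,
    ⟨nat_lit 10, nat_lit 9, (.ofNat (nat_lit 247578368)), (.ofNat (nat_lit 574668352)), (.ofNat (nat_lit 247578384)), (.ofNat (nat_lit 574668336)), (.negSucc (nat_lit 3071085292119545357742)), (.ofNat (nat_lit 0)), (.ofNat (nat_lit 16101331656347721965203619840))⟩,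
    ⟨nat_lit 11, nat_lit 10, (.ofNat (nat_lit 41860992)), (.ofNat (nat_lit 247578368)), (.ofNat (nat_lit 41861008)), (.ofNat (nat_lit 247578352)), (.ofNat (nat_lit 3071085292119545357743)), (.ofNat (nat_lit 0)), (.ofNat (nat_lit 12881065325078177572162895872))⟩,
    ⟨nat_lit 22, nat_lit 12, (.ofNat (nat_lit 41860992)), (.ofNat (nat_lit 239386368)), (.ofNat (nat_lit 41861008)), (.ofNat (nat_lit 239386352)), (.negSucc (nat_lit 3071085292119545357742)), (.ofNat (nat_lit 0)), (.ofNat (nat_lit 0))⟩,
    ⟨nat_lit 13, nat_lit 12, (.ofNat (nat_lit 114147136)), (.ofNat (nat_lit 239386368)), (.ofNat (nat_lit 114147152)), (.ofNat (nat_lit 239386352)), (.ofNat (nat_lit 3071085292119545357743)), (.ofNat (nat_lit 0)), (.negSucc (nat_lit 1610133165634772196520361983))⟩,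
    ⟨nat_lit 14, nat_lit 13, (.negSucc (nat_lit 304234495)), (.ofNat (nat_lit 114147136)), (.negSucc (nat_lit 304234479)), (.ofNat (nat_lit 114147120)), (.negSucc (nat_lit 3071085292119545357742)), (.ofNat (nat_lit 0)), (.negSucc (nat_lit 1610133165634772196520361983))⟩,
    ⟨nat_lit 15, nat_lit 14, (.negSucc (nat_lit 437108735)), (.negSucc (nat_lit 304234495)), (.negSucc (nat_lit 437108719)), (.negSucc (nat_lit 304234511)), (.ofNat (nat_lit 3071085292119545357743)), (.ofNat (nat_lit 0)), (.ofNat (nat_lit 19321597987617266358244343808))⟩,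
    ⟨nat_lit 16, nat_lit 17, (.negSucc (nat_lit 91291647)), (.ofNat (nat_lit 442285696)), (.negSucc (nat_lit 91291631)), (.ofNat (nat_lit 442285680)), (.ofNat (nat_lit 3071085292119545357743)), (.ofNat (nat_lit 0)), (.negSucc (nat_lit 3220266331269544393040723967))⟩,
    ⟨nat_lit 18, nat_lit 17, (.ofNat (nat_lit 111066944)), (.ofNat (nat_lit 442285696)), (.ofNat (nat_lit 111066960)), (.ofNat (nat_lit 442285680)), (.negSucc (nat_lit 3071085292119545357742)), (.ofNat (nat_lit 0)), (.ofNat (nat_lit 14491198490712949768683257856))⟩,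
    ⟨nat_lit 19, nat_lit 18, (.negSucc (nat_lit 286539775)), (.ofNat (nat_lit 111066944)), (.negSucc (nat_lit 286539759)), (.ofNat (nat_lit 111066928)), (.ofNat (nat_lit 3071085292119545357743)), (.ofNat (nat_lit 0)), (.ofNat (nat_lit 14491198490712949768683257856))⟩,
    ⟨nat_lit 20, nat_lit 19, (.negSucc (nat_lit 435830783)), (.negSucc (nat_lit 286539775)), (.negSucc (nat_lit 435830767)), (.negSucc (nat_lit 286539791)), (.negSucc (nat_lit 3071085292119545357742)), (.ofNat (nat_lit 0)), (.negSucc (nat_lit 6440532662539088786081447935))⟩,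
    ⟨nat_lit 20, nat_lit 21, (.negSucc (nat_lit 435830783)), (.negSucc (nat_lit 218316863)), (.negSucc (nat_lit 435830767)), (.negSucc (nat_lit 218316879)), (.ofNat (nat_lit 3071085292119545357743)), (.ofNat (nat_lit 0)), (.ofNat (nat_lit 20931731153252038554764705792))⟩,
    ⟨nat_lit 21, nat_lit 11, (.negSucc (nat_lit 218316863)), (.ofNat (nat_lit 41860992)), (.negSucc (nat_lit 218316847)), (.ofNat (nat_lit 41860976)), (.negSucc (nat_lit 3071085292119545357742)), (.ofNat (nat_lit 0)), (.ofNat (nat_lit 12881065325078177572162895872))⟩,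
    ⟨nat_lit 0, nat_lit 22, (.negSucc (nat_lit 287768447)), (.ofNat (nat_lit 41860992)), (.negSucc (nat_lit 287768431)), (.ofNat (nat_lit 41860976)), (.ofNat (nat_lit 3071085292119545357743)), (.ofNat (nat_lit 0)), (.ofNat (nat_lit 0))⟩,
    ⟨nat_lit 23, nat_lit 16, (.negSucc (nat_lit 507313983)), (.negSucc (nat_lit 91291647)), (.negSucc (nat_lit 507313967)), (.negSucc (nat_lit 91291663)), (.negSucc (nat_lit 3071085292119545357742)), (.ofNat (nat_lit 0)), (.negSucc (nat_lit 11270932159443405375642533887))⟩]

theorem ok51 : stOK 23 23 S51 = true := by decide +kernel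

def S52 : SD where
  vs := [
    ⟨nat_lit 0, nat_lit 0, nat_lit 22, (.ofNat (nat_lit 8)), (.negSucc (nat_lit 286719871)), (.ofNat (nat_lit 1231549818867061601209900290304)), (.negSucc (nat_lit 524287)), (.ofNat (nat_lit 3220266331269544393040723968)), (.negSucc (nat_lit 286719887)), (.negSucc (nat_lit 286719855)), (.negSucc (nat_lit 3071085292119545357742)), (.ofNat (nat_lit 3071085292119545357743)), (.negSucc (nat_lit 3071085292119545357742)), (.ofNat (nat_lit 3071085292119545357743)), (.ofNat (nat_lit 0))⟩,
    ⟨nat_lit 2, nat_lit 0, nat_lit 1, (.ofNat (nat_lit 8)), (.negSucc (nat_lit 572587839)), (.ofNat (nat_lit 2109474730879962445711724766528)), (.negSucc (nat_lit 2359295)), (.ofNat (nat_lit 8855732410991247080861990912)), (.negSucc (nat_lit 572587855)), (.negSucc (nat_lit 572587823)), (.negSucc (nat_lit 3071085292119545357742)), (.ofNat (nat_lit 3071085292119545357743)), (.negSucc (nat_lit 3071085292119545357742)), (.ofNat (nat_lit 3071085292119545357743)), (.ofNat (nat_lit 0))⟩,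
    ⟨nat_lit 0, nat_lit 1, nat_lit 2, (.ofNat (nat_lit 8)), (.negSucc (nat_lit 430653439)), (.ofNat (nat_lit 2545367379165774844335762825728)), (.negSucc (nat_lit 1572863)), (.ofNat (nat_lit 11270932159443405375642533888)), (.negSucc (nat_lit 430653455)), (.negSucc (nat_lit 430653423)), (.ofNat (nat_lit 3071085292119545357743)), (.negSucc (nat_lit 3071085292119545357742)), (.negSucc (nat_lit 3071085292119545357742)), (.ofNat (nat_lit 3071085292119545357743)), (.ofNat (nat_lit 0))⟩,
    ⟨nat_lit 0, nat_lit 2, nat_lit 3, (.ofNat (nat_lit 8)), (.negSucc (nat_lit 281362431)), (.ofNat (nat_lit 2086881960251273461376589750784)), (.negSucc (nat_lit 524287)), (.ofNat (nat_lit 8050665828173860982601809920)), (.negSucc (nat_lit 281362447)), (.negSucc (nat_lit 281362415)), (.negSucc (nat_lit 3071085292119545357742)), (.ofNat (nat_lit 3071085292119545357743)), (.negSucc (nat_lit 3071085292119545357742)), (.ofNat (nat_lit 3071085292119545357743)), (.ofNat (nat_lit 0))⟩,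
    ⟨nat_lit 1, nat_lit 3, nat_lit 4, (.ofNat (nat_lit 8)), (.ofNat (nat_lit 143966016)), (.ofNat (nat_lit 3393101901224106318851024723648)), (.ofNat (nat_lit 5242880)), (.ofNat (nat_lit 25762130650156355144325791744)), (.ofNat (nat_lit 143966000)), (.ofNat (nat_lit 143966032)), (.ofNat (nat_lit 3071085292119545357743)), (.negSucc (nat_lit 3071085292119545357742)), (.negSucc (nat_lit 3071085292119545357742)), (.ofNat (nat_lit 3071085292119545357743)), (.ofNat (nat_lit 0))⟩,
    ⟨nat_lit 0, nat_lit 5, nat_lit 4, (.ofNat (nat_lit 8)), (.negSucc (nat_lit 28655807)), (.ofNat (nat_lit 3923238246009355064555353906880)), (.ofNat (nat_lit 3932160)), (.ofNat (nat_lit 29787463564243285635626696704)), (.negSucc (nat_lit 28655823)), (.negSucc (nat_lit 28655791)), (.ofNat (nat_lit 3071085292119545357743)), (.negSucc (nat_lit 3071085292119545357742)), (.negSucc (nat_lit 3071085292119545357742)), (.ofNat (nat_lit 3071085292119545357743)), (.ofNat (nat_lit 0))⟩,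
    ⟨nat_lit 2, nat_lit 6, nat_lit 5, (.ofNat (nat_lit 8)), (.negSucc (nat_lit 524402687)), (.ofNat (nat_lit 2400757294227201866435777815040)), (.negSucc (nat_lit 2359295)), (.ofNat (nat_lit 10465865576626019277382352896)), (.negSucc (nat_lit 524402703)), (.negSucc (nat_lit 524402671)), (.negSucc (nat_lit 3071085292119545357742)), (.ofNat (nat_lit 3071085292119545357743)), (.negSucc (nat_lit 3071085292119545357742)), (.ofNat (nat_lit 3071085292119545357743)), (.ofNat (nat_lit 0))⟩,
    ⟨nat_lit 0, nat_lit 7, nat_lit 8, (.ofNat (nat_lit 8)), (.negSucc (nat_lit 292569087)), (.ofNat (nat_lit 2430041591177184285759991898624)), (.negSucc (nat_lit 524287)), (.ofNat (nat_lit 9660798993808633179122171904)), (.negSucc (nat_lit 292569103)), (.negSucc (nat_lit 292569071)), (.ofNat (nat_lit 3071085292119545357743)), (.negSucc (nat_lit 3071085292119545357742)), (.negSucc (nat_lit 3071085292119545357742)), (.ofNat (nat_lit 3071085292119545357743)), (.ofNat (nat_lit 0))⟩,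
    ⟨nat_lit 0, nat_lit 8, nat_lit 9, (.ofNat (nat_lit 8)), (.ofNat (nat_lit 228376320)), (.ofNat (nat_lit 830173810671168544596058804480)), (.ofNat (nat_lit 1310720)), (.ofNat (nat_lit 4025332914086930491300904960)), (.ofNat (nat_lit 228376304)), (.ofNat (nat_lit 228376336)), (.negSucc (nat_lit 3071085292119545357742)), (.ofNat (nat_lit 3071085292119545357743)), (.negSucc (nat_lit 3071085292119545357742)), (.ofNat (nat_lit 3071085292119545357743)), (.ofNat (nat_lit 0))⟩,
    ⟨nat_lit 1, nat_lit 9, nat_lit 10, (.ofNat (nat_lit 8)), (.ofNat (nat_lit 577814080)), (.ofNat (nat_lit 1903326975918368126624171380160)), (.ofNat (nat_lit 6553600)), (.ofNat (nat_lit 20126664570434652456504524800)), (.ofNat (nat_lit 577814064)), (.ofNat (nat_lit 577814096)), (.ofNat (nat_lit 3071085292119545357743)), (.negSucc (nat_lit 3071085292119545357742)), (.negSucc (nat_lit 3071085292119545357742)), (.ofNat (nat_lit 3071085292119545357743)), (.ofNat (nat_lit 0))⟩,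
    ⟨nat_lit 0, nat_lit 11, nat_lit 10, (.ofNat (nat_lit 8)), (.ofNat (nat_lit 252559104)), (.ofNat (nat_lit 2902212748900663841087782259328)), (.ofNat (nat_lit 5505024)), (.ofNat (nat_lit 23346930901704196849545248768)), (.ofNat (nat_lit 252559088)), (.ofNat (nat_lit 252559120)), (.ofNat (nat_lit 3071085292119545357743)), (.negSucc (nat_lit 3071085292119545357742)), (.negSucc (nat_lit 3071085292119545357742)), (.ofNat (nat_lit 3071085292119545357743)), (.ofNat (nat_lit 0))⟩,
    ⟨nat_lit 0, nat_lit 21, nat_lit 11, (.ofNat (nat_lit 8)), (.ofNat (nat_lit 46841728)), (.ofNat (nat_lit 2270437141133637491779911016960)), (.ofNat (nat_lit 4980736)), (.ofNat (nat_lit 21736797736069424653024886784)), (.ofNat (nat_lit 46841712)), (.ofNat (nat_lit 46841744)), (.negSucc (nat_lit 3071085292119545357742)), (.ofNat (nat_lit 3071085292119545357743)), (.negSucc (nat_lit 3071085292119545357742)), (.ofNat (nat_lit 3071085292119545357743)), (.ofNat (nat_lit 0))⟩,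
    ⟨nat_lit 1, nat_lit 13, nat_lit 12, (.ofNat (nat_lit 8)), (.ofNat (nat_lit 240434944)), (.ofNat (nat_lit 1637252666846680716800084457856)), (.ofNat (nat_lit 1310720)), (.ofNat (nat_lit 7245599245356474884341628928)), (.ofNat (nat_lit 240434928)), (.ofNat (nat_lit 240434960)), (.ofNat (nat_lit 3071085292119545357743)), (.negSucc (nat_lit 3071085292119545357742)), (.negSucc (nat_lit 3071085292119545357742)), (.ofNat (nat_lit 3071085292119545357743)), (.ofNat (nat_lit 0))⟩,
    ⟨nat_lit 0, nat_lit 14, nat_lit 13, (.ofNat (nat_lit 8)), (.ofNat (nat_lit 115195712)), (.ofNat (nat_lit 1252632303455133204007185884480)), (.ofNat (nat_lit 1048576)), (.ofNat (nat_lit 6440532662539088786081447936)), (.ofNat (nat_lit 115195696)), (.ofNat (nat_lit 115195728)), (.negSucc (nat_lit 3071085292119545357742)), (.ofNat (nat_lit 3071085292119545357743)), (.negSucc (nat_lit 3071085292119545357742)), (.ofNat (nat_lit 3071085292119545357743)), (.ofNat (nat_lit 0))⟩,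
    ⟨nat_lit 0, nat_lit 15, nat_lit 14, (.ofNat (nat_lit 8)), (.negSucc (nat_lit 301350911)), (.ofNat (nat_lit 2531882513903583627189904794112)), (.negSucc (nat_lit 524287)), (.ofNat (nat_lit 11270932159443405375642533888)), (.negSucc (nat_lit 301350927)), (.negSucc (nat_lit 301350895)), (.ofNat (nat_lit 3071085292119545357743)), (.negSucc (nat_lit 3071085292119545357742)), (.negSucc (nat_lit 3071085292119545357742)), (.ofNat (nat_lit 3071085292119545357743)), (.ofNat (nat_lit 0))⟩,
    ⟨nat_lit 0, nat_lit 6, nat_lit 15, (.ofNat (nat_lit 8)), (.negSucc (nat_lit 434225151)), (.ofNat (nat_lit 2123814389738021048634275553792)), (.negSucc (nat_lit 1572863)), (.ofNat (nat_lit 8050665828173860982601809920)), (.negSucc (nat_lit 434225167)), (.negSucc (nat_lit 434225135)), (.negSucc (nat_lit 3071085292119545357742)), (.ofNat (nat_lit 3071085292119545357743)), (.negSucc (nat_lit 3071085292119545357742)), (.ofNat (nat_lit 3071085292119545357743)), (.ofNat (nat_lit 0))⟩,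
    ⟨nat_lit 0, nat_lit 23, nat_lit 16, (.ofNat (nat_lit 8)), (.negSucc (nat_lit 90243071)), (.ofNat (nat_lit 507392820721740197126673279104)), (.negSucc (nat_lit 262143)), (.ofNat (nat_lit 805066582817386098260180992)), (.negSucc (nat_lit 90243087)), (.negSucc (nat_lit 90243055)), (.negSucc (nat_lit 3071085292119545357742)), (.ofNat (nat_lit 3071085292119545357743)), (.negSucc (nat_lit 3071085292119545357742)), (.ofNat (nat_lit 3071085292119545357743)), (.ofNat (nat_lit 0))⟩,
    ⟨nat_lit 1, nat_lit 16, nat_lit 17, (.ofNat (nat_lit 8)), (.ofNat (nat_lit 445431424)), (.ofNat (nat_lit 2152494886750890428384794501632)), (.ofNat (nat_lit 6029312)), (.ofNat (nat_lit 20126664570434652456504524800)), (.ofNat (nat_lit 445431408)), (.ofNat (nat_lit 445431440)), (.ofNat (nat_lit 3071085292119545357743)), (.negSucc (nat_lit 3071085292119545357742)), (.negSucc (nat_lit 3071085292119545357742)), (.ofNat (nat_lit 3071085292119545357743)), (.ofNat (nat_lit 0))⟩,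
    ⟨nat_lit 0, nat_lit 18, nat_lit 17, (.ofNat (nat_lit 8)), (.ofNat (nat_lit 116047680)), (.ofNat (nat_lit 3164060458412559973896003231424)), (.ofNat (nat_lit 4980736)), (.ofNat (nat_lit 23346930901704196849545248768)), (.ofNat (nat_lit 116047664)), (.ofNat (nat_lit 116047696)), (.ofNat (nat_lit 3071085292119545357743)), (.negSucc (nat_lit 3071085292119545357742)), (.negSucc (nat_lit 3071085292119545357742)), (.ofNat (nat_lit 3071085292119545357743)), (.ofNat (nat_lit 0))⟩,
    ⟨nat_lit 0, nat_lit 19, nat_lit 18, (.ofNat (nat_lit 8)), (.negSucc (nat_lit 283656191)), (.ofNat (nat_lit 1936535775910126607526500950528)), (.negSucc (nat_lit 524287)), (.ofNat (nat_lit 6440532662539088786081447936)), (.negSucc (nat_lit 283656207)), (.negSucc (nat_lit 283656175)), (.negSucc (nat_lit 3071085292119545357742)), (.ofNat (nat_lit 3071085292119545357743)), (.negSucc (nat_lit 3071085292119545357742)), (.ofNat (nat_lit 3071085292119545357743)), (.ofNat (nat_lit 0))⟩,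
    ⟨nat_lit 2, nat_lit 19, nat_lit 20, (.ofNat (nat_lit 8)), (.negSucc (nat_lit 432947199)), (.ofNat (nat_lit 2395021194824627990485674025472)), (.negSucc (nat_lit 1572863)), (.ofNat (nat_lit 9660798993808633179122171904)), (.negSucc (nat_lit 432947215)), (.negSucc (nat_lit 432947183)), (.negSucc (nat_lit 3071085292119545357742)), (.ofNat (nat_lit 3071085292119545357743)), (.negSucc (nat_lit 3071085292119545357742)), (.ofNat (nat_lit 3071085292119545357743)), (.ofNat (nat_lit 0))⟩,
    ⟨nat_lit 0, nat_lit 20, nat_lit 21, (.ofNat (nat_lit 8)), (.negSucc (nat_lit 213336127)), (.ofNat (nat_lit 3069465528030434498652237755968)), (.ofNat (nat_lit 3670016)), (.ofNat (nat_lit 25762130650156355144325791744)), (.negSucc (nat_lit 213336143)), (.negSucc (nat_lit 213336111)), (.ofNat (nat_lit 3071085292119545357743)), (.negSucc (nat_lit 3071085292119545357742)), (.negSucc (nat_lit 3071085292119545357742)), (.ofNat (nat_lit 3071085292119545357743)), (.ofNat (nat_lit 0))⟩,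
    ⟨nat_lit 0, nat_lit 22, nat_lit 12, (.ofNat (nat_lit 8)), (.ofNat (nat_lit 42909568)), (.ofNat (nat_lit 2243869943900663750537325044224)), (.ofNat (nat_lit 1048576)), (.ofNat (nat_lit 8050665828173860982601809920)), (.ofNat (nat_lit 42909552)), (.ofNat (nat_lit 42909584)), (.ofNat (nat_lit 3071085292119545357743)), (.negSucc (nat_lit 3071085292119545357742)), (.negSucc (nat_lit 3071085292119545357742)), (.ofNat (nat_lit 3071085292119545357743)), (.ofNat (nat_lit 0))⟩,
    ⟨nat_lit 2, nat_lit 23, nat_lit 7, (.ofNat (nat_lit 8)), (.negSucc (nat_lit 504430399)), (.ofNat (nat_lit 1779397431924834145425050559808)), (.negSucc (nat_lit 1835007)), (.ofNat (nat_lit 5635466079721702687821266944)), (.negSucc (nat_lit 504430415)), (.negSucc (nat_lit 504430383)), (.negSucc (nat_lit 3071085292119545357742)), (.ofNat (nat_lit 3071085292119545357743)), (.negSucc (nat_lit 3071085292119545357742)), (.ofNat (nat_lit 3071085292119545357743)), (.ofNat (nat_lit 0))⟩]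
  es := [
    ⟨nat_lit 1, nat_lit 0, (.negSucc (nat_lit 572587839)), (.negSucc (nat_lit 286719871)), (.negSucc (nat_lit 572587823)), (.negSucc (nat_lit 286719887)), (.negSucc (nat_lit 3071085292119545357742)), (.ofNat (nat_lit 0)), (.ofNat (nat_lit 1610133165634772196520361984))⟩,
    ⟨nat_lit 1, nat_lit 2, (.negSucc (nat_lit 572587839)), (.negSucc (nat_lit 430653439)), (.negSucc (nat_lit 572587823)), (.negSucc (nat_lit 430653455)), (.ofNat (nat_lit 3071085292119545357743)), (.ofNat (nat_lit 0)), (.ofNat (nat_lit 16101331656347721965203619840))⟩,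
    ⟨nat_lit 2, nat_lit 3, (.negSucc (nat_lit 430653439)), (.negSucc (nat_lit 281362431)), (.negSucc (nat_lit 430653423)), (.negSucc (nat_lit 281362447)), (.negSucc (nat_lit 3071085292119545357742)), (.ofNat (nat_lit 0)), (.ofNat (nat_lit 6440532662539088786081447936))⟩,
    ⟨nat_lit 3, nat_lit 4, (.negSucc (nat_lit 281362431)), (.ofNat (nat_lit 143966016)), (.negSucc (nat_lit 281362415)), (.ofNat (nat_lit 143966000)), (.ofNat (nat_lit 3071085292119545357743)), (.ofNat (nat_lit 0)), (.ofNat (nat_lit 9660798993808633179122171904))⟩,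
    ⟨nat_lit 5, nat_lit 4, (.negSucc (nat_lit 28655807)), (.ofNat (nat_lit 143966016)), (.negSucc (nat_lit 28655791)), (.ofNat (nat_lit 143966000)), (.negSucc (nat_lit 3071085292119545357742)), (.ofNat (nat_lit 0)), (.ofNat (nat_lit 41863462306504077109529411584))⟩,
    ⟨nat_lit 6, nat_lit 5, (.negSucc (nat_lit 524402687)), (.negSucc (nat_lit 28655807)), (.negSucc (nat_lit 524402671)), (.negSucc (nat_lit 28655823)), (.ofNat (nat_lit 3071085292119545357743)), (.ofNat (nat_lit 0)), (.ofNat (nat_lit 17711464821982494161723981824))⟩,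
    ⟨nat_lit 6, nat_lit 15, (.negSucc (nat_lit 524402687)), (.negSucc (nat_lit 434225151)), (.negSucc (nat_lit 524402671)), (.negSucc (nat_lit 434225167)), (.negSucc (nat_lit 3071085292119545357742)), (.ofNat (nat_lit 0)), (.ofNat (nat_lit 3220266331269544393040723968))⟩,
    ⟨nat_lit 23, nat_lit 7, (.negSucc (nat_lit 504430399)), (.negSucc (nat_lit 292569087)), (.negSucc (nat_lit 504430383)), (.negSucc (nat_lit 292569103)), (.ofNat (nat_lit 3071085292119545357743)), (.ofNat (nat_lit 0)), (.ofNat (nat_lit 11270932159443405375642533888))⟩,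
    ⟨nat_lit 7, nat_lit 8, (.negSucc (nat_lit 292569087)), (.ofNat (nat_lit 228376320)), (.negSucc (nat_lit 292569071)), (.ofNat (nat_lit 228376304)), (.negSucc (nat_lit 3071085292119545357742)), (.ofNat (nat_lit 0)), (.ofNat (nat_lit 8050665828173860982601809920))⟩,
    ⟨nat_lit 8, nat_lit 9, (.ofNat (nat_lit 228376320)), (.ofNat (nat_lit 577814080)), (.ofNat (nat_lit 228376336)), (.ofNat (nat_lit 577814064)), (.ofNat (nat_lit 3071085292119545357743)), (.ofNat (nat_lit 0)), (.ofNat (nat_lit 0))⟩,
    ⟨nat_lit 10, nat_lit 9, (.ofNat (nat_lit 252559104)), (.ofNat (nat_lit 577814080)), (.ofNat (nat_lit 252559120)), (.ofNat (nat_lit 577814064)), (.negSucc (nat_lit 3071085292119545357742)), (.ofNat (nat_lit 0)), (.ofNat (nat_lit 40253329140869304913009049600))⟩,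
    ⟨nat_lit 11, nat_lit 10, (.ofNat (nat_lit 46841728)), (.ofNat (nat_lit 252559104)), (.ofNat (nat_lit 46841744)), (.ofNat (nat_lit 252559088)), (.ofNat (nat_lit 3071085292119545357743)), (.ofNat (nat_lit 0)), (.ofNat (nat_lit 6440532662539088786081447936))⟩,
    ⟨nat_lit 22, nat_lit 12, (.ofNat (nat_lit 42909568)), (.ofNat (nat_lit 240434944)), (.ofNat (nat_lit 42909584)), (.ofNat (nat_lit 240434928)), (.negSucc (nat_lit 3071085292119545357742)), (.ofNat (nat_lit 0)), (.ofNat (nat_lit 11270932159443405375642533888))⟩,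
    ⟨nat_lit 13, nat_lit 12, (.ofNat (nat_lit 115195712)), (.ofNat (nat_lit 240434944)), (.ofNat (nat_lit 115195728)), (.ofNat (nat_lit 240434928)), (.ofNat (nat_lit 3071085292119545357743)), (.ofNat (nat_lit 0)), (.ofNat (nat_lit 3220266331269544393040723968))⟩,
    ⟨nat_lit 14, nat_lit 13, (.negSucc (nat_lit 301350911)), (.ofNat (nat_lit 115195712)), (.negSucc (nat_lit 301350895)), (.ofNat (nat_lit 115195696)), (.negSucc (nat_lit 3071085292119545357742)), (.ofNat (nat_lit 0)), (.ofNat (nat_lit 9660798993808633179122171904))⟩,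
    ⟨nat_lit 15, nat_lit 14, (.negSucc (nat_lit 434225151)), (.negSucc (nat_lit 301350911)), (.negSucc (nat_lit 434225135)), (.negSucc (nat_lit 301350927)), (.ofNat (nat_lit 3071085292119545357743)), (.ofNat (nat_lit 0)), (.ofNat (nat_lit 12881065325078177572162895872))⟩,
    ⟨nat_lit 16, nat_lit 17, (.negSucc (nat_lit 90243071)), (.ofNat (nat_lit 445431424)), (.negSucc (nat_lit 90243055)), (.ofNat (nat_lit 445431408)), (.ofNat (nat_lit 3071085292119545357743)), (.ofNat (nat_lit 0)), (.ofNat (nat_lit 1610133165634772196520361984))⟩,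
    ⟨nat_lit 18, nat_lit 17, (.ofNat (nat_lit 116047680)), (.ofNat (nat_lit 445431424)), (.ofNat (nat_lit 116047696)), (.ofNat (nat_lit 445431408)), (.negSucc (nat_lit 3071085292119545357742)), (.ofNat (nat_lit 0)), (.ofNat (nat_lit 38643195975234532716488687616))⟩,
    ⟨nat_lit 19, nat_lit 18, (.negSucc (nat_lit 283656191)), (.ofNat (nat_lit 116047680)), (.negSucc (nat_lit 283656175)), (.ofNat (nat_lit 116047664)), (.ofNat (nat_lit 3071085292119545357743)), (.ofNat (nat_lit 0)), (.ofNat (nat_lit 8050665828173860982601809920))⟩,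
    ⟨nat_lit 20, nat_lit 19, (.negSucc (nat_lit 432947199)), (.negSucc (nat_lit 283656191)), (.negSucc (nat_lit 432947183)), (.negSucc (nat_lit 283656207)), (.negSucc (nat_lit 3071085292119545357742)), (.ofNat (nat_lit 0)), (.ofNat (nat_lit 4830399496904316589561085952))⟩,
    ⟨nat_lit 20, nat_lit 21, (.negSucc (nat_lit 432947199)), (.negSucc (nat_lit 213336127)), (.negSucc (nat_lit 432947183)), (.negSucc (nat_lit 213336143)), (.ofNat (nat_lit 3071085292119545357743)), (.ofNat (nat_lit 0)), (.ofNat (nat_lit 14491198490712949768683257856))⟩,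
    ⟨nat_lit 21, nat_lit 11, (.negSucc (nat_lit 213336127)), (.ofNat (nat_lit 46841728)), (.negSucc (nat_lit 213336111)), (.ofNat (nat_lit 46841712)), (.negSucc (nat_lit 3071085292119545357742)), (.ofNat (nat_lit 0)), (.ofNat (nat_lit 37033062809599760519968325632))⟩,
    ⟨nat_lit 0, nat_lit 22, (.negSucc (nat_lit 286719871)), (.ofNat (nat_lit 42909568)), (.negSucc (nat_lit 286719855)), (.ofNat (nat_lit 42909552)), (.ofNat (nat_lit 3071085292119545357743)), (.ofNat (nat_lit 0)), (.ofNat (nat_lit 4830399496904316589561085952))⟩,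
    ⟨nat_lit 23, nat_lit 16, (.negSucc (nat_lit 504430399)), (.negSucc (nat_lit 90243071)), (.negSucc (nat_lit 504430383)), (.negSucc (nat_lit 90243087)), (.negSucc (nat_lit 3071085292119545357742)), (.ofNat (nat_lit 0)), (.ofNat (nat_lit 0))⟩]

theorem ok52 : stOK 23 23 S52 = true := by decide +kernel

def S53 : SD where
  vs := [
    ⟨nat_lit 0, nat_lit 0, nat_lit 22, (.ofNat (nat_lit 8)), (.negSucc (nat_lit 306380671)), (.ofNat (nat_lit 1293539945744000330775934226688)), (.negSucc (nat_lit 19660799)), (.ofNat (nat_lit 61990126876938729566033936384)), (.negSucc (nat_lit 306380687)), (.negSucc (nat_lit 306380655)), (.negSucc (nat_lit 3071085292119545357742)), (.ofNat (nat_lit 3071085292119545357743)), (.negSucc (nat_lit 3071085292119545357742)), (.ofNat (nat_lit 3071085292119545357743)), (.ofNat (nat_lit 0))⟩,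
    ⟨nat_lit 2, nat_lit 0, nat_lit 1, (.ofNat (nat_lit 8)), (.negSucc (nat_lit 593821503)), (.ofNat (nat_lit 2176295257253805491867319788864)), (.negSucc (nat_lit 21233663)), (.ofNat (nat_lit 66820526373843046155595022336)), (.negSucc (nat_lit 593821519)), (.negSucc (nat_lit 593821487)), (.negSucc (nat_lit 3071085292119545357742)), (.ofNat (nat_lit 3071085292119545357743)), (.negSucc (nat_lit 3071085292119545357742)), (.ofNat (nat_lit 3071085292119545357743)), (.ofNat (nat_lit 0))⟩,
    ⟨nat_lit 0, nat_lit 1, nat_lit 2, (.ofNat (nat_lit 8)), (.negSucc (nat_lit 451100671)), (.ofNat (nat_lit 2614603105288070048786138391040)), (.negSucc (nat_lit 20447231)), (.ofNat (nat_lit 69235726122295204450375565312)), (.negSucc (nat_lit 451100687)), (.negSucc (nat_lit 451100655)), (.ofNat (nat_lit 3071085292119545357743)), (.negSucc (nat_lit 3071085292119545357742)), (.negSucc (nat_lit 3071085292119545357742)), (.ofNat (nat_lit 3071085292119545357743)), (.ofNat (nat_lit 0))⟩,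
    ⟨nat_lit 0, nat_lit 2, nat_lit 3, (.ofNat (nat_lit 8)), (.negSucc (nat_lit 300761087)), (.ofNat (nat_lit 2152897420042299121433924592128)), (.negSucc (nat_lit 19398655)), (.ofNat (nat_lit 66015459791025660057334841344)), (.negSucc (nat_lit 300761103)), (.negSucc (nat_lit 300761071)), (.negSucc (nat_lit 3071085292119545357742)), (.ofNat (nat_lit 3071085292119545357743)), (.negSucc (nat_lit 3071085292119545357742)), (.ofNat (nat_lit 3071085292119545357743)), (.ofNat (nat_lit 0))⟩,
    ⟨nat_lit 1, nat_lit 3, nat_lit 4, (.ofNat (nat_lit 8)), (.ofNat (nat_lit 126402368)), (.ofNat (nat_lit 3464752827094853681596180831936)), (.negSucc (nat_lit 17563647)), (.ofNat (nat_lit 71650925870747362745156108288)), (.ofNat (nat_lit 126402352)), (.ofNat (nat_lit 126402384)), (.ofNat (nat_lit 3071085292119545357743)), (.negSucc (nat_lit 3071085292119545357742)), (.negSucc (nat_lit 3071085292119545357742)), (.ofNat (nat_lit 3071085292119545357743)), (.ofNat (nat_lit 0))⟩,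
    ⟨nat_lit 0, nat_lit 5, nat_lit 4, (.ofNat (nat_lit 8)), (.negSucc (nat_lit 47530175)), (.ofNat (nat_lit 3998914504794189357791810920128)), (.negSucc (nat_lit 18874367)), (.ofNat (nat_lit 75676258784834293236457013248)), (.negSucc (nat_lit 47530191)), (.negSucc (nat_lit 47530159)), (.ofNat (nat_lit 3071085292119545357743)), (.negSucc (nat_lit 3071085292119545357742)), (.negSucc (nat_lit 3071085292119545357742)), (.ofNat (nat_lit 3071085292119545357743)), (.ofNat (nat_lit 0))⟩,
    ⟨nat_lit 2, nat_lit 6, nat_lit 5, (.ofNat (nat_lit 8)), (.negSucc (nat_lit 545636351)), (.ofNat (nat_lit 2469187953766679684787893199360)), (.negSucc (nat_lit 21233663)), (.ofNat (nat_lit 68430659539477818352115384320)), (.negSucc (nat_lit 545636367)), (.negSucc (nat_lit 545636335)), (.negSucc (nat_lit 3071085292119545357742)), (.ofNat (nat_lit 3071085292119545357743)), (.negSucc (nat_lit 3071085292119545357742)), (.ofNat (nat_lit 3071085292119545357743)), (.ofNat (nat_lit 0))⟩,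
    ⟨nat_lit 0, nat_lit 7, nat_lit 8, (.ofNat (nat_lit 8)), (.negSucc (nat_lit 311967743)), (.ofNat (nat_lit 2497667184133844718013847101952)), (.negSucc (nat_lit 19398655)), (.ofNat (nat_lit 67625592956660432253855203328)), (.negSucc (nat_lit 311967759)), (.negSucc (nat_lit 311967727)), (.ofNat (nat_lit 3071085292119545357743)), (.negSucc (nat_lit 3071085292119545357742)), (.negSucc (nat_lit 3071085292119545357742)), (.ofNat (nat_lit 3071085292119545357743)), (.ofNat (nat_lit 0))⟩,
    ⟨nat_lit 0, nat_lit 8, nat_lit 9, (.ofNat (nat_lit 8)), (.ofNat (nat_lit 229687040)), (.ofNat (nat_lit 834199143585255475087359709440)), (.ofNat (nat_lit 1310720)), (.ofNat (nat_lit 4025332914086930491300904960)), (.ofNat (nat_lit 229687024)), (.ofNat (nat_lit 229687056)), (.negSucc (nat_lit 3071085292119545357742)), (.ofNat (nat_lit 3071085292119545357743)), (.negSucc (nat_lit 3071085292119545357742)), (.ofNat (nat_lit 3071085292119545357743)), (.ofNat (nat_lit 0))⟩,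
    ⟨nat_lit 1, nat_lit 9, nat_lit 10, (.ofNat (nat_lit 8)), (.ofNat (nat_lit 580435520)), (.ofNat (nat_lit 1911377641746541987606773190080)), (.ofNat (nat_lit 2621440)), (.ofNat (nat_lit 8050665828173860982601809920)), (.ofNat (nat_lit 580435504)), (.ofNat (nat_lit 580435536)), (.ofNat (nat_lit 3071085292119545357743)), (.negSucc (nat_lit 3071085292119545357742)), (.negSucc (nat_lit 3071085292119545357742)), (.ofNat (nat_lit 3071085292119545357743)), (.ofNat (nat_lit 0))⟩,
    ⟨nat_lit 0, nat_lit 11, nat_lit 10, (.ofNat (nat_lit 8)), (.ofNat (nat_lit 254394112)), (.ofNat (nat_lit 2912678614477289860365164612224)), (.ofNat (nat_lit 1835008)), (.ofNat (nat_lit 10465865576626019277382352896)), (.ofNat (nat_lit 254394096)), (.ofNat (nat_lit 254394128)), (.ofNat (nat_lit 3071085292119545357743)), (.negSucc (nat_lit 3071085292119545357742)), (.negSucc (nat_lit 3071085292119545357742)), (.ofNat (nat_lit 3071085292119545357743)), (.ofNat (nat_lit 0))⟩,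
    ⟨nat_lit 0, nat_lit 21, nat_lit 11, (.ofNat (nat_lit 8)), (.ofNat (nat_lit 48152448)), (.ofNat (nat_lit 2279292873544628738860773007872)), (.ofNat (nat_lit 1310720)), (.ofNat (nat_lit 8855732410991247080861990912)), (.ofNat (nat_lit 48152432)), (.ofNat (nat_lit 48152464)), (.negSucc (nat_lit 3071085292119545357742)), (.ofNat (nat_lit 3071085292119545357743)), (.negSucc (nat_lit 3071085292119545357742)), (.ofNat (nat_lit 3071085292119545357743)), (.ofNat (nat_lit 0))⟩,
    ⟨nat_lit 1, nat_lit 13, nat_lit 12, (.ofNat (nat_lit 8)), (.ofNat (nat_lit 241745664)), (.ofNat (nat_lit 1644498266092037191684426086784)), (.ofNat (nat_lit 1310720)), (.ofNat (nat_lit 7245599245356474884341628928)), (.ofNat (nat_lit 241745648)), (.ofNat (nat_lit 241745680)), (.ofNat (nat_lit 3071085292119545357743)), (.negSucc (nat_lit 3071085292119545357742)), (.negSucc (nat_lit 3071085292119545357742)), (.ofNat (nat_lit 3071085292119545357743)), (.ofNat (nat_lit 0))⟩,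
    ⟨nat_lit 0, nat_lit 14, nat_lit 13, (.ofNat (nat_lit 8)), (.ofNat (nat_lit 116244288)), (.ofNat (nat_lit 1259072836117672292793267332416)), (.ofNat (nat_lit 1048576)), (.ofNat (nat_lit 6440532662539088786081447936)), (.ofNat (nat_lit 116244272)), (.ofNat (nat_lit 116244304)), (.negSucc (nat_lit 3071085292119545357742)), (.ofNat (nat_lit 3071085292119545357743)), (.negSucc (nat_lit 3071085292119545357742)), (.ofNat (nat_lit 3071085292119545357743)), (.ofNat (nat_lit 0))⟩,
    ⟨nat_lit 0, nat_lit 15, nat_lit 14, (.ofNat (nat_lit 8)), (.negSucc (nat_lit 320749567)), (.ofNat (nat_lit 2601118240025878831640280359424)), (.negSucc (nat_lit 19398655)), (.ofNat (nat_lit 69235726122295204450375565312)), (.negSucc (nat_lit 320749583)), (.negSucc (nat_lit 320749551)), (.ofNat (nat_lit 3071085292119545357743)), (.negSucc (nat_lit 3071085292119545357742)), (.negSucc (nat_lit 3071085292119545357742)), (.ofNat (nat_lit 3071085292119545357743)), (.ofNat (nat_lit 0))⟩,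
    ⟨nat_lit 0, nat_lit 6, nat_lit 15, (.ofNat (nat_lit 8)), (.negSucc (nat_lit 454672383)), (.ofNat (nat_lit 2189829849529046708691610395136)), (.negSucc (nat_lit 20447231)), (.ofNat (nat_lit 66015459791025660057334841344)), (.negSucc (nat_lit 454672399)), (.negSucc (nat_lit 454672367)), (.negSucc (nat_lit 3071085292119545357742)), (.ofNat (nat_lit 3071085292119545357743)), (.negSucc (nat_lit 3071085292119545357742)), (.ofNat (nat_lit 3071085292119545357743)), (.ofNat (nat_lit 0))⟩,
    ⟨nat_lit 0, nat_lit 23, nat_lit 16, (.ofNat (nat_lit 8)), (.negSucc (nat_lit 90505215)), (.ofNat (nat_lit 508197887304557583224933460096)), (.negSucc (nat_lit 262143)), (.ofNat (nat_lit 805066582817386098260180992)), (.negSucc (nat_lit 90505231)), (.negSucc (nat_lit 90505199)), (.negSucc (nat_lit 3071085292119545357742)), (.ofNat (nat_lit 3071085292119545357743)), (.negSucc (nat_lit 3071085292119545357742)), (.ofNat (nat_lit 3071085292119545357743)), (.ofNat (nat_lit 0))⟩,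
    ⟨nat_lit 1, nat_lit 16, nat_lit 17, (.ofNat (nat_lit 8)), (.ofNat (nat_lit 447528576)), (.ofNat (nat_lit 2160545552579064289367396311552)), (.ofNat (nat_lit 2097152)), (.ofNat (nat_lit 8050665828173860982601809920)), (.ofNat (nat_lit 447528560)), (.ofNat (nat_lit 447528592)), (.ofNat (nat_lit 3071085292119545357743)), (.negSucc (nat_lit 3071085292119545357742)), (.negSucc (nat_lit 3071085292119545357742)), (.ofNat (nat_lit 3071085292119545357743)), (.ofNat (nat_lit 0))⟩,
    ⟨nat_lit 0, nat_lit 18, nat_lit 17, (.ofNat (nat_lit 8)), (.ofNat (nat_lit 98221888)), (.ofNat (nat_lit 3233296184534855178346378796736)), (.negSucc (nat_lit 17825791)), (.ofNat (nat_lit 69235726122295204450375565312)), (.ofNat (nat_lit 98221872)), (.ofNat (nat_lit 98221904)), (.ofNat (nat_lit 3071085292119545357743)), (.negSucc (nat_lit 3071085292119545357742)), (.negSucc (nat_lit 3071085292119545357742)), (.ofNat (nat_lit 3071085292119545357743)), (.ofNat (nat_lit 0))⟩,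
    ⟨nat_lit 0, nat_lit 19, nat_lit 18, (.ofNat (nat_lit 8)), (.negSucc (nat_lit 303054847)), (.ofNat (nat_lit 2000941102535517495387315429888)), (.negSucc (nat_lit 19398655)), (.ofNat (nat_lit 64405326625390887860814479360)), (.negSucc (nat_lit 303054863)), (.negSucc (nat_lit 303054831)), (.negSucc (nat_lit 3071085292119545357742)), (.ofNat (nat_lit 3071085292119545357743)), (.negSucc (nat_lit 3071085292119545357742)), (.ofNat (nat_lit 3071085292119545357743)), (.ofNat (nat_lit 0))⟩,
    ⟨nat_lit 2, nat_lit 19, nat_lit 20, (.ofNat (nat_lit 8)), (.negSucc (nat_lit 453394431)), (.ofNat (nat_lit 2462646787781288422739529228800)), (.negSucc (nat_lit 20447231)), (.ofNat (nat_lit 67625592956660432253855203328)), (.negSucc (nat_lit 453394447)), (.negSucc (nat_lit 453394415)), (.negSucc (nat_lit 3071085292119545357742)), (.ofNat (nat_lit 3071085292119545357743)), (.negSucc (nat_lit 3071085292119545357742)), (.ofNat (nat_lit 3071085292119545357743)), (.ofNat (nat_lit 0))⟩,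
    ⟨nat_lit 0, nat_lit 20, nat_lit 21, (.ofNat (nat_lit 8)), (.negSucc (nat_lit 232472639)), (.ofNat (nat_lit 3141116453901181861397393864256)), (.negSucc (nat_lit 19136511)), (.ofNat (nat_lit 71650925870747362745156108288)), (.negSucc (nat_lit 232472655)), (.negSucc (nat_lit 232472623)), (.ofNat (nat_lit 3071085292119545357743)), (.negSucc (nat_lit 3071085292119545357742)), (.negSucc (nat_lit 3071085292119545357742)), (.ofNat (nat_lit 3071085292119545357743)), (.ofNat (nat_lit 0))⟩,
    ⟨nat_lit 0, nat_lit 22, nat_lit 12, (.ofNat (nat_lit 8)), (.ofNat (nat_lit 24821632)), (.ofNat (nat_lit 2310690470274506796692920066560)), (.negSucc (nat_lit 18087935)), (.ofNat (nat_lit 66820526373843046155595022336)), (.ofNat (nat_lit 24821616)), (.ofNat (nat_lit 24821648)), (.ofNat (nat_lit 3071085292119545357743)), (.negSucc (nat_lit 3071085292119545357742)), (.negSucc (nat_lit 3071085292119545357742)), (.ofNat (nat_lit 3071085292119545357743)), (.ofNat (nat_lit 0))⟩,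
    ⟨nat_lit 2, nat_lit 23, nat_lit 7, (.ofNat (nat_lit 8)), (.negSucc (nat_lit 525139775)), (.ofNat (nat_lit 1842997691967407647187604858176)), (.negSucc (nat_lit 20709375)), (.ofNat (nat_lit 63600260042573501762554298368)), (.negSucc (nat_lit 525139791)), (.negSucc (nat_lit 525139759)), (.negSucc (nat_lit 3071085292119545357742)), (.ofNat (nat_lit 3071085292119545357743)), (.negSucc (nat_lit 3071085292119545357742)), (.ofNat (nat_lit 3071085292119545357743)), (.ofNat (nat_lit 0))⟩]
  es := [
    ⟨nat_lit 1, nat_lit 0, (.negSucc (nat_lit 593821503)), (.negSucc (nat_lit 306380671)), (.negSucc (nat_lit 593821487)), (.negSucc (nat_lit 306380687)), (.negSucc (nat_lit 3071085292119545357742)), (.ofNat (nat_lit 0)), (.ofNat (nat_lit 1610133165634772196520361984))⟩,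
    ⟨nat_lit 1, nat_lit 2, (.negSucc (nat_lit 593821503)), (.negSucc (nat_lit 451100671)), (.negSucc (nat_lit 593821487)), (.negSucc (nat_lit 451100687)), (.ofNat (nat_lit 3071085292119545357743)), (.ofNat (nat_lit 0)), (.ofNat (nat_lit 132030919582051320114669682688))⟩,
    ⟨nat_lit 2, nat_lit 3, (.negSucc (nat_lit 451100671)), (.negSucc (nat_lit 300761087)), (.negSucc (nat_lit 451100655)), (.negSucc (nat_lit 300761103)), (.negSucc (nat_lit 3071085292119545357742)), (.ofNat (nat_lit 0)), (.ofNat (nat_lit 6440532662539088786081447936))⟩,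
    ⟨nat_lit 3, nat_lit 4, (.negSucc (nat_lit 300761087)), (.ofNat (nat_lit 126402368)), (.negSucc (nat_lit 300761071)), (.ofNat (nat_lit 126402352)), (.ofNat (nat_lit 3071085292119545357743)), (.ofNat (nat_lit 0)), (.ofNat (nat_lit 125590386919512231328588234752))⟩,
    ⟨nat_lit 5, nat_lit 4, (.negSucc (nat_lit 47530175)), (.ofNat (nat_lit 126402368)), (.negSucc (nat_lit 47530159)), (.ofNat (nat_lit 126402352)), (.negSucc (nat_lit 3071085292119545357742)), (.ofNat (nat_lit 0)), (.ofNat (nat_lit 17711464821982494161723981824))⟩,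
    ⟨nat_lit 6, nat_lit 5, (.negSucc (nat_lit 545636351)), (.negSucc (nat_lit 47530175)), (.negSucc (nat_lit 545636335)), (.negSucc (nat_lit 47530191)), (.ofNat (nat_lit 3071085292119545357743)), (.ofNat (nat_lit 0)), (.ofNat (nat_lit 133641052747686092311190044672))⟩,
    ⟨nat_lit 6, nat_lit 15, (.negSucc (nat_lit 545636351)), (.negSucc (nat_lit 454672383)), (.negSucc (nat_lit 545636335)), (.negSucc (nat_lit 454672399)), (.negSucc (nat_lit 3071085292119545357742)), (.ofNat (nat_lit 0)), (.ofNat (nat_lit 3220266331269544393040723968))⟩,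
    ⟨nat_lit 23, nat_lit 7, (.negSucc (nat_lit 525139775)), (.negSucc (nat_lit 311967743)), (.negSucc (nat_lit 525139759)), (.negSucc (nat_lit 311967759)), (.ofNat (nat_lit 3071085292119545357743)), (.ofNat (nat_lit 0)), (.ofNat (nat_lit 127200520085147003525108596736))⟩,
    ⟨nat_lit 7, nat_lit 8, (.negSucc (nat_lit 311967743)), (.ofNat (nat_lit 229687040)), (.negSucc (nat_lit 311967727)), (.ofNat (nat_lit 229687024)), (.negSucc (nat_lit 3071085292119545357742)), (.ofNat (nat_lit 0)), (.ofNat (nat_lit 8050665828173860982601809920))⟩,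
    ⟨nat_lit 8, nat_lit 9, (.ofNat (nat_lit 229687040)), (.ofNat (nat_lit 580435520)), (.ofNat (nat_lit 229687056)), (.ofNat (nat_lit 580435504)), (.ofNat (nat_lit 3071085292119545357743)), (.ofNat (nat_lit 0)), (.ofNat (nat_lit 0))⟩,
    ⟨nat_lit 10, nat_lit 9, (.ofNat (nat_lit 254394112)), (.ofNat (nat_lit 580435520)), (.ofNat (nat_lit 254394128)), (.ofNat (nat_lit 580435504)), (.negSucc (nat_lit 3071085292119545357742)), (.ofNat (nat_lit 0)), (.ofNat (nat_lit 16101331656347721965203619840))⟩,
    ⟨nat_lit 11, nat_lit 10, (.ofNat (nat_lit 48152448)), (.ofNat (nat_lit 254394112)), (.ofNat (nat_lit 48152464)), (.ofNat (nat_lit 254394096)), (.ofNat (nat_lit 3071085292119545357743)), (.ofNat (nat_lit 0)), (.ofNat (nat_lit 4830399496904316589561085952))⟩,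
    ⟨nat_lit 22, nat_lit 12, (.ofNat (nat_lit 24821632)), (.ofNat (nat_lit 241745664)), (.ofNat (nat_lit 24821648)), (.ofNat (nat_lit 241745648)), (.negSucc (nat_lit 3071085292119545357742)), (.ofNat (nat_lit 0)), (.ofNat (nat_lit 11270932159443405375642533888))⟩,
    ⟨nat_lit 13, nat_lit 12, (.ofNat (nat_lit 116244288)), (.ofNat (nat_lit 241745664)), (.ofNat (nat_lit 116244304)), (.ofNat (nat_lit 241745648)), (.ofNat (nat_lit 3071085292119545357743)), (.ofNat (nat_lit 0)), (.ofNat (nat_lit 3220266331269544393040723968))⟩,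
    ⟨nat_lit 14, nat_lit 13, (.negSucc (nat_lit 320749567)), (.ofNat (nat_lit 116244288)), (.negSucc (nat_lit 320749551)), (.ofNat (nat_lit 116244272)), (.negSucc (nat_lit 3071085292119545357742)), (.ofNat (nat_lit 0)), (.ofNat (nat_lit 9660798993808633179122171904))⟩,
    ⟨nat_lit 15, nat_lit 14, (.negSucc (nat_lit 454672383)), (.negSucc (nat_lit 320749567)), (.negSucc (nat_lit 454672367)), (.negSucc (nat_lit 320749583)), (.ofNat (nat_lit 3071085292119545357743)), (.ofNat (nat_lit 0)), (.ofNat (nat_lit 128810653250781775721628958720))⟩,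
    ⟨nat_lit 16, nat_lit 17, (.negSucc (nat_lit 90505215)), (.ofNat (nat_lit 447528576)), (.negSucc (nat_lit 90505199)), (.ofNat (nat_lit 447528560)), (.ofNat (nat_lit 3071085292119545357743)), (.ofNat (nat_lit 0)), (.ofNat (nat_lit 1610133165634772196520361984))⟩,
    ⟨nat_lit 18, nat_lit 17, (.ofNat (nat_lit 98221888)), (.ofNat (nat_lit 447528576)), (.ofNat (nat_lit 98221904)), (.ofNat (nat_lit 447528560)), (.negSucc (nat_lit 3071085292119545357742)), (.ofNat (nat_lit 0)), (.ofNat (nat_lit 14491198490712949768683257856))⟩,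
    ⟨nat_lit 19, nat_lit 18, (.negSucc (nat_lit 303054847)), (.ofNat (nat_lit 98221888)), (.negSucc (nat_lit 303054831)), (.ofNat (nat_lit 98221872)), (.ofNat (nat_lit 3071085292119545357743)), (.ofNat (nat_lit 0)), (.ofNat (nat_lit 123980253753877459132067872768))⟩,
    ⟨nat_lit 20, nat_lit 19, (.negSucc (nat_lit 453394431)), (.negSucc (nat_lit 303054847)), (.negSucc (nat_lit 453394415)), (.negSucc (nat_lit 303054863)), (.negSucc (nat_lit 3071085292119545357742)), (.ofNat (nat_lit 0)), (.ofNat (nat_lit 4830399496904316589561085952))⟩,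
    ⟨nat_lit 20, nat_lit 21, (.negSucc (nat_lit 453394431)), (.negSucc (nat_lit 232472639)), (.negSucc (nat_lit 453394415)), (.negSucc (nat_lit 232472655)), (.ofNat (nat_lit 3071085292119545357743)), (.ofNat (nat_lit 0)), (.ofNat (nat_lit 130420786416416547918149320704))⟩,
    ⟨nat_lit 21, nat_lit 11, (.negSucc (nat_lit 232472639)), (.ofNat (nat_lit 48152448)), (.negSucc (nat_lit 232472623)), (.ofNat (nat_lit 48152432)), (.negSucc (nat_lit 3071085292119545357742)), (.ofNat (nat_lit 0)), (.ofNat (nat_lit 12881065325078177572162895872))⟩,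
    ⟨nat_lit 0, nat_lit 22, (.negSucc (nat_lit 306380671)), (.ofNat (nat_lit 24821632)), (.negSucc (nat_lit 306380655)), (.ofNat (nat_lit 24821616)), (.ofNat (nat_lit 3071085292119545357743)), (.ofNat (nat_lit 0)), (.ofNat (nat_lit 122370120588242686935547510784))⟩,
    ⟨nat_lit 23, nat_lit 16, (.negSucc (nat_lit 525139775)), (.negSucc (nat_lit 90505215)), (.negSucc (nat_lit 525139759)), (.negSucc (nat_lit 90505231)), (.negSucc (nat_lit 3071085292119545357742)), (.ofNat (nat_lit 0)), (.ofNat (nat_lit 0))⟩]

theorem ok53 : stOK 23 23 S53 = true := by decide +kernel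

def S54 : SD where
  vs := [
    ⟨nat_lit 0, nat_lit 0, nat_lit 22, (.ofNat (nat_lit 8)), (.negSucc (nat_lit 307167103)), (.ofNat (nat_lit 1297565278658087261267235131648)), (.negSucc (nat_lit 786431)), (.ofNat (nat_lit 4025332914086930491300904960)), (.negSucc (nat_lit 307167119)), (.negSucc (nat_lit 307167087)), (.negSucc (nat_lit 3071085292119545357742)), (.ofNat (nat_lit 3071085292119545357743)), (.negSucc (nat_lit 3071085292119545357742)), (.ofNat (nat_lit 3071085292119545357743)), (.ofNat (nat_lit 0))⟩,
    ⟨nat_lit 2, nat_lit 0, nat_lit 1, (.ofNat (nat_lit 8)), (.negSucc (nat_lit 596180799)), (.ofNat (nat_lit 2185150989664796738948181779776)), (.negSucc (nat_lit 2359295)), (.ofNat (nat_lit 8855732410991247080861990912)), (.negSucc (nat_lit 596180815)), (.negSucc (nat_lit 596180783)), (.negSucc (nat_lit 3071085292119545357742)), (.ofNat (nat_lit 3071085292119545357743)), (.negSucc (nat_lit 3071085292119545357742)), (.ofNat (nat_lit 3071085292119545357743)), (.ofNat (nat_lit 0))⟩,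
    ⟨nat_lit 0, nat_lit 1, nat_lit 2, (.ofNat (nat_lit 8)), (.negSucc (nat_lit 452673535)), (.ofNat (nat_lit 2625874037447513454161780924928)), (.negSucc (nat_lit 1572863)), (.ofNat (nat_lit 11270932159443405375642533888)), (.negSucc (nat_lit 452673551)), (.negSucc (nat_lit 452673519)), (.ofNat (nat_lit 3071085292119545357743)), (.negSucc (nat_lit 3071085292119545357742)), (.negSucc (nat_lit 3071085292119545357742)), (.ofNat (nat_lit 3071085292119545357743)), (.ofNat (nat_lit 0))⟩,
    ⟨nat_lit 0, nat_lit 2, nat_lit 3, (.ofNat (nat_lit 8)), (.negSucc (nat_lit 301285375)), (.ofNat (nat_lit 2160948085870472982416526402048)), (.negSucc (nat_lit 524287)), (.ofNat (nat_lit 8050665828173860982601809920)), (.negSucc (nat_lit 301285391)), (.negSucc (nat_lit 301285359)), (.negSucc (nat_lit 3071085292119545357742)), (.ofNat (nat_lit 3071085292119545357743)), (.negSucc (nat_lit 3071085292119545357742)), (.ofNat (nat_lit 3071085292119545357743)), (.ofNat (nat_lit 0))⟩,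
    ⟨nat_lit 1, nat_lit 3, nat_lit 4, (.ofNat (nat_lit 8)), (.ofNat (nat_lit 325238464)), (.ofNat (nat_lit 4085056236056732279003844495168)), (.ofNat (nat_lit 198836096)), (.ofNat (nat_lit 620303408961878597407663663232)), (.ofNat (nat_lit 325238448)), (.ofNat (nat_lit 325238480)), (.ofNat (nat_lit 3071085292119545357743)), (.negSucc (nat_lit 3071085292119545357742)), (.negSucc (nat_lit 3071085292119545357742)), (.ofNat (nat_lit 3071085292119545357743)), (.ofNat (nat_lit 0))⟩,
    ⟨nat_lit 0, nat_lit 5, nat_lit 4, (.ofNat (nat_lit 8)), (.ofNat (nat_lit 149995200)), (.ofNat (nat_lit 4623243246670154885690775488320)), (.ofNat (nat_lit 197525376)), (.ofNat (nat_lit 624328741875965527898964568192)), (.ofNat (nat_lit 149995184)), (.ofNat (nat_lit 149995216)), (.ofNat (nat_lit 3071085292119545357743)), (.negSucc (nat_lit 3071085292119545357742)), (.negSucc (nat_lit 3071085292119545357742)), (.ofNat (nat_lit 3071085292119545357743)), (.ofNat (nat_lit 0))⟩,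
    ⟨nat_lit 2, nat_lit 6, nat_lit 5, (.ofNat (nat_lit 8)), (.negSucc (nat_lit 547995647)), (.ofNat (nat_lit 2479653819343305704065275552256)), (.negSucc (nat_lit 2359295)), (.ofNat (nat_lit 10465865576626019277382352896)), (.negSucc (nat_lit 547995663)), (.negSucc (nat_lit 547995631)), (.negSucc (nat_lit 3071085292119545357742)), (.ofNat (nat_lit 3071085292119545357743)), (.negSucc (nat_lit 3071085292119545357742)), (.ofNat (nat_lit 3071085292119545357743)), (.ofNat (nat_lit 0))⟩,
    ⟨nat_lit 0, nat_lit 7, nat_lit 8, (.ofNat (nat_lit 8)), (.negSucc (nat_lit 312492031)), (.ofNat (nat_lit 2507327983127653351192969273856)), (.negSucc (nat_lit 524287)), (.ofNat (nat_lit 9660798993808633179122171904)), (.negSucc (nat_lit 312492047)), (.negSucc (nat_lit 312492015)), (.ofNat (nat_lit 3071085292119545357743)), (.negSucc (nat_lit 3071085292119545357742)), (.negSucc (nat_lit 3071085292119545357742)), (.ofNat (nat_lit 3071085292119545357743)), (.ofNat (nat_lit 0))⟩,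
    ⟨nat_lit 0, nat_lit 8, nat_lit 9, (.ofNat (nat_lit 8)), (.ofNat (nat_lit 230997760)), (.ofNat (nat_lit 838224476499342405578660614400)), (.ofNat (nat_lit 1310720)), (.ofNat (nat_lit 4025332914086930491300904960)), (.ofNat (nat_lit 230997744)), (.ofNat (nat_lit 230997776)), (.negSucc (nat_lit 3071085292119545357742)), (.ofNat (nat_lit 3071085292119545357743)), (.negSucc (nat_lit 3071085292119545357742)), (.ofNat (nat_lit 3071085292119545357743)), (.ofNat (nat_lit 0))⟩,
    ⟨nat_lit 1, nat_lit 9, nat_lit 10, (.ofNat (nat_lit 8)), (.ofNat (nat_lit 780582336)), (.ofNat (nat_lit 2526045584628698882326615586368)), (.ofNat (nat_lit 200146816)), (.ofNat (nat_lit 614667942882156894719842396288)), (.ofNat (nat_lit 780582320)), (.ofNat (nat_lit 780582352)), (.ofNat (nat_lit 3071085292119545357743)), (.negSucc (nat_lit 3071085292119545357742)), (.negSucc (nat_lit 3071085292119545357742)), (.ofNat (nat_lit 3071085292119545357743)), (.ofNat (nat_lit 0))⟩,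
    ⟨nat_lit 0, nat_lit 11, nat_lit 10, (.ofNat (nat_lit 8)), (.ofNat (nat_lit 453754496)), (.ofNat (nat_lit 3529761757107898913379787551488)), (.ofNat (nat_lit 199360384)), (.ofNat (nat_lit 617083142630609053014622939264)), (.ofNat (nat_lit 453754480)), (.ofNat (nat_lit 453754512)), (.ofNat (nat_lit 3071085292119545357743)), (.negSucc (nat_lit 3071085292119545357742)), (.negSucc (nat_lit 3071085292119545357742)), (.ofNat (nat_lit 3071085292119545357743)), (.ofNat (nat_lit 0))⟩,
    ⟨nat_lit 0, nat_lit 21, nat_lit 11, (.ofNat (nat_lit 8)), (.ofNat (nat_lit 246988544)), (.ofNat (nat_lit 2894765883009603019678875585152)), (.ofNat (nat_lit 198836096)), (.ofNat (nat_lit 615473009464974280818102577280)), (.ofNat (nat_lit 246988528)), (.ofNat (nat_lit 246988560)), (.negSucc (nat_lit 3071085292119545357742)), (.ofNat (nat_lit 3071085292119545357743)), (.negSucc (nat_lit 3071085292119545357742)), (.ofNat (nat_lit 3071085292119545357743)), (.ofNat (nat_lit 0))⟩,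
    ⟨nat_lit 1, nat_lit 13, nat_lit 12, (.ofNat (nat_lit 8)), (.ofNat (nat_lit 243056384)), (.ofNat (nat_lit 1651743865337393666568767715712)), (.ofNat (nat_lit 1310720)), (.ofNat (nat_lit 7245599245356474884341628928)), (.ofNat (nat_lit 243056368)), (.ofNat (nat_lit 243056400)), (.ofNat (nat_lit 3071085292119545357743)), (.negSucc (nat_lit 3071085292119545357742)), (.negSucc (nat_lit 3071085292119545357742)), (.ofNat (nat_lit 3071085292119545357743)), (.ofNat (nat_lit 0))⟩,
    ⟨nat_lit 0, nat_lit 14, nat_lit 13, (.ofNat (nat_lit 8)), (.ofNat (nat_lit 117292864)), (.ofNat (nat_lit 1265513368780211381579348780352)), (.ofNat (nat_lit 1048576)), (.ofNat (nat_lit 6440532662539088786081447936)), (.ofNat (nat_lit 117292848)), (.ofNat (nat_lit 117292880)), (.negSucc (nat_lit 3071085292119545357742)), (.ofNat (nat_lit 3071085292119545357743)), (.negSucc (nat_lit 3071085292119545357742)), (.ofNat (nat_lit 3071085292119545357743)), (.ofNat (nat_lit 0))⟩,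
    ⟨nat_lit 0, nat_lit 15, nat_lit 14, (.ofNat (nat_lit 8)), (.negSucc (nat_lit 321273855)), (.ofNat (nat_lit 2612389172185322237015922893312)), (.negSucc (nat_lit 524287)), (.ofNat (nat_lit 11270932159443405375642533888)), (.negSucc (nat_lit 321273871)), (.negSucc (nat_lit 321273839)), (.ofNat (nat_lit 3071085292119545357743)), (.negSucc (nat_lit 3071085292119545357742)), (.negSucc (nat_lit 3071085292119545357742)), (.ofNat (nat_lit 3071085292119545357743)), (.ofNat (nat_lit 0))⟩,
    ⟨nat_lit 0, nat_lit 6, nat_lit 15, (.ofNat (nat_lit 8)), (.negSucc (nat_lit 456245247)), (.ofNat (nat_lit 2197880515357220569674212205056)), (.negSucc (nat_lit 1572863)), (.ofNat (nat_lit 8050665828173860982601809920)), (.negSucc (nat_lit 456245263)), (.negSucc (nat_lit 456245231)), (.negSucc (nat_lit 3071085292119545357742)), (.ofNat (nat_lit 3071085292119545357743)), (.negSucc (nat_lit 3071085292119545357742)), (.ofNat (nat_lit 3071085292119545357743)), (.ofNat (nat_lit 0))⟩,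
    ⟨nat_lit 0, nat_lit 23, nat_lit 16, (.ofNat (nat_lit 8)), (.negSucc (nat_lit 90767359)), (.ofNat (nat_lit 509002953887374969323193641088)), (.negSucc (nat_lit 262143)), (.ofNat (nat_lit 805066582817386098260180992)), (.negSucc (nat_lit 90767375)), (.negSucc (nat_lit 90767343)), (.negSucc (nat_lit 3071085292119545357742)), (.ofNat (nat_lit 3071085292119545357743)), (.negSucc (nat_lit 3071085292119545357742)), (.ofNat (nat_lit 3071085292119545357743)), (.ofNat (nat_lit 0))⟩,
    ⟨nat_lit 1, nat_lit 16, nat_lit 17, (.ofNat (nat_lit 8)), (.ofNat (nat_lit 647151104)), (.ofNat (nat_lit 2775213495461221184087238707840)), (.ofNat (nat_lit 199622528)), (.ofNat (nat_lit 614667942882156894719842396288)), (.ofNat (nat_lit 647151088)), (.ofNat (nat_lit 647151120)), (.ofNat (nat_lit 3071085292119545357743)), (.negSucc (nat_lit 3071085292119545357742)), (.negSucc (nat_lit 3071085292119545357742)), (.ofNat (nat_lit 3071085292119545357743)), (.ofNat (nat_lit 0))⟩,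
    ⟨nat_lit 0, nat_lit 18, nat_lit 17, (.ofNat (nat_lit 8)), (.ofNat (nat_lit 296795840)), (.ofNat (nat_lit 3851184393748281617459261916992)), (.ofNat (nat_lit 198573952)), (.ofNat (nat_lit 617888209213426439112883120256)), (.ofNat (nat_lit 296795824)), (.ofNat (nat_lit 296795856)), (.ofNat (nat_lit 3071085292119545357743)), (.negSucc (nat_lit 3071085292119545357742)), (.negSucc (nat_lit 3071085292119545357742)), (.ofNat (nat_lit 3071085292119545357743)), (.ofNat (nat_lit 0))⟩,
    ⟨nat_lit 0, nat_lit 19, nat_lit 18, (.ofNat (nat_lit 8)), (.negSucc (nat_lit 303579135)), (.ofNat (nat_lit 2007381635198056584173396877824)), (.negSucc (nat_lit 524287)), (.ofNat (nat_lit 6440532662539088786081447936)), (.negSucc (nat_lit 303579151)), (.negSucc (nat_lit 303579119)), (.negSucc (nat_lit 3071085292119545357742)), (.ofNat (nat_lit 3071085292119545357743)), (.negSucc (nat_lit 3071085292119545357742)), (.ofNat (nat_lit 3071085292119545357743)), (.ofNat (nat_lit 0))⟩,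
    ⟨nat_lit 2, nat_lit 19, nat_lit 20, (.ofNat (nat_lit 8)), (.negSucc (nat_lit 454967295)), (.ofNat (nat_lit 2472307586775097055918651400704)), (.negSucc (nat_lit 1572863)), (.ofNat (nat_lit 9660798993808633179122171904)), (.negSucc (nat_lit 454967311)), (.negSucc (nat_lit 454967279)), (.negSucc (nat_lit 3071085292119545357742)), (.ofNat (nat_lit 3071085292119545357743)), (.negSucc (nat_lit 3071085292119545357742)), (.ofNat (nat_lit 3071085292119545357743)), (.ofNat (nat_lit 0))⟩,
    ⟨nat_lit 0, nat_lit 20, nat_lit 21, (.ofNat (nat_lit 8)), (.negSucc (nat_lit 35209407)), (.ofNat (nat_lit 3761419862863060458805057527488)), (.ofNat (nat_lit 197263232)), (.ofNat (nat_lit 620303408961878597407663663232)), (.negSucc (nat_lit 35209423)), (.negSucc (nat_lit 35209391)), (.ofNat (nat_lit 3071085292119545357743)), (.negSucc (nat_lit 3071085292119545357742)), (.negSucc (nat_lit 3071085292119545357742)), (.ofNat (nat_lit 3071085292119545357743)), (.ofNat (nat_lit 0))⟩,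
    ⟨nat_lit 0, nat_lit 22, nat_lit 12, (.ofNat (nat_lit 8)), (.ofNat (nat_lit 25608064)), (.ofNat (nat_lit 2319546202685498043773782057472)), (.ofNat (nat_lit 786432)), (.ofNat (nat_lit 8855732410991247080861990912)), (.ofNat (nat_lit 25608048)), (.ofNat (nat_lit 25608080)), (.ofNat (nat_lit 3071085292119545357743)), (.negSucc (nat_lit 3071085292119545357742)), (.negSucc (nat_lit 3071085292119545357742)), (.ofNat (nat_lit 3071085292119545357743)), (.ofNat (nat_lit 0))⟩,
    ⟨nat_lit 2, nat_lit 23, nat_lit 7, (.ofNat (nat_lit 8)), (.negSucc (nat_lit 526974783)), (.ofNat (nat_lit 1848633158047129349875426125120)), (.negSucc (nat_lit 1835007)), (.ofNat (nat_lit 5635466079721702687821266944)), (.negSucc (nat_lit 526974799)), (.negSucc (nat_lit 526974767)), (.negSucc (nat_lit 3071085292119545357742)), (.ofNat (nat_lit 3071085292119545357743)), (.negSucc (nat_lit 3071085292119545357742)), (.ofNat (nat_lit 3071085292119545357743)), (.ofNat (nat_lit 0))⟩]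
  es := [
    ⟨nat_lit 1, nat_lit 0, (.negSucc (nat_lit 596180799)), (.negSucc (nat_lit 307167103)), (.negSucc (nat_lit 596180783)), (.negSucc (nat_lit 307167119)), (.negSucc (nat_lit 3071085292119545357742)), (.ofNat (nat_lit 0)), (.ofNat (nat_lit 1610133165634772196520361984))⟩,
    ⟨nat_lit 1, nat_lit 2, (.negSucc (nat_lit 596180799)), (.negSucc (nat_lit 452673535)), (.negSucc (nat_lit 596180783)), (.negSucc (nat_lit 452673551)), (.ofNat (nat_lit 3071085292119545357743)), (.ofNat (nat_lit 0)), (.ofNat (nat_lit 16101331656347721965203619840))⟩,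
    ⟨nat_lit 2, nat_lit 3, (.negSucc (nat_lit 452673535)), (.negSucc (nat_lit 301285375)), (.negSucc (nat_lit 452673519)), (.negSucc (nat_lit 301285391)), (.negSucc (nat_lit 3071085292119545357742)), (.ofNat (nat_lit 0)), (.ofNat (nat_lit 6440532662539088786081447936))⟩,
    ⟨nat_lit 3, nat_lit 4, (.negSucc (nat_lit 301285375)), (.ofNat (nat_lit 325238464)), (.negSucc (nat_lit 301285359)), (.ofNat (nat_lit 325238448)), (.ofNat (nat_lit 3071085292119545357743)), (.ofNat (nat_lit 0)), (.ofNat (nat_lit 9660798993808633179122171904))⟩,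
    ⟨nat_lit 5, nat_lit 4, (.ofNat (nat_lit 149995200)), (.ofNat (nat_lit 325238464)), (.ofNat (nat_lit 149995216)), (.ofNat (nat_lit 325238448)), (.negSucc (nat_lit 3071085292119545357742)), (.ofNat (nat_lit 0)), (.ofNat (nat_lit 1230946018929948561636205154560))⟩,
    ⟨nat_lit 6, nat_lit 5, (.negSucc (nat_lit 547995647)), (.ofNat (nat_lit 149995200)), (.negSucc (nat_lit 547995631)), (.ofNat (nat_lit 149995184)), (.ofNat (nat_lit 3071085292119545357743)), (.ofNat (nat_lit 0)), (.ofNat (nat_lit 17711464821982494161723981824))⟩,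
    ⟨nat_lit 6, nat_lit 15, (.negSucc (nat_lit 547995647)), (.negSucc (nat_lit 456245247)), (.negSucc (nat_lit 547995631)), (.negSucc (nat_lit 456245263)), (.negSucc (nat_lit 3071085292119545357742)), (.ofNat (nat_lit 0)), (.ofNat (nat_lit 3220266331269544393040723968))⟩,
    ⟨nat_lit 23, nat_lit 7, (.negSucc (nat_lit 526974783)), (.negSucc (nat_lit 312492031)), (.negSucc (nat_lit 526974767)), (.negSucc (nat_lit 312492047)), (.ofNat (nat_lit 3071085292119545357743)), (.ofNat (nat_lit 0)), (.ofNat (nat_lit 11270932159443405375642533888))⟩,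
    ⟨nat_lit 7, nat_lit 8, (.negSucc (nat_lit 312492031)), (.ofNat (nat_lit 230997760)), (.negSucc (nat_lit 312492015)), (.ofNat (nat_lit 230997744)), (.negSucc (nat_lit 3071085292119545357742)), (.ofNat (nat_lit 0)), (.ofNat (nat_lit 8050665828173860982601809920))⟩,
    ⟨nat_lit 8, nat_lit 9, (.ofNat (nat_lit 230997760)), (.ofNat (nat_lit 780582336)), (.ofNat (nat_lit 230997776)), (.ofNat (nat_lit 780582320)), (.ofNat (nat_lit 3071085292119545357743)), (.ofNat (nat_lit 0)), (.ofNat (nat_lit 0))⟩,
    ⟨nat_lit 10, nat_lit 9, (.ofNat (nat_lit 453754496)), (.ofNat (nat_lit 780582336)), (.ofNat (nat_lit 453754512)), (.ofNat (nat_lit 780582320)), (.negSucc (nat_lit 3071085292119545357742)), (.ofNat (nat_lit 0)), (.ofNat (nat_lit 1229335885764313789439684792576))⟩,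
    ⟨nat_lit 11, nat_lit 10, (.ofNat (nat_lit 246988544)), (.ofNat (nat_lit 453754496)), (.ofNat (nat_lit 246988560)), (.ofNat (nat_lit 453754480)), (.ofNat (nat_lit 3071085292119545357743)), (.ofNat (nat_lit 0)), (.ofNat (nat_lit 4830399496904316589561085952))⟩,
    ⟨nat_lit 22, nat_lit 12, (.ofNat (nat_lit 25608064)), (.ofNat (nat_lit 243056384)), (.ofNat (nat_lit 25608080)), (.ofNat (nat_lit 243056368)), (.negSucc (nat_lit 3071085292119545357742)), (.ofNat (nat_lit 0)), (.ofNat (nat_lit 11270932159443405375642533888))⟩,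
    ⟨nat_lit 13, nat_lit 12, (.ofNat (nat_lit 117292864)), (.ofNat (nat_lit 243056384)), (.ofNat (nat_lit 117292880)), (.ofNat (nat_lit 243056368)), (.ofNat (nat_lit 3071085292119545357743)), (.ofNat (nat_lit 0)), (.ofNat (nat_lit 3220266331269544393040723968))⟩,
    ⟨nat_lit 14, nat_lit 13, (.negSucc (nat_lit 321273855)), (.ofNat (nat_lit 117292864)), (.negSucc (nat_lit 321273839)), (.ofNat (nat_lit 117292848)), (.negSucc (nat_lit 3071085292119545357742)), (.ofNat (nat_lit 0)), (.ofNat (nat_lit 9660798993808633179122171904))⟩,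
    ⟨nat_lit 15, nat_lit 14, (.negSucc (nat_lit 456245247)), (.negSucc (nat_lit 321273855)), (.negSucc (nat_lit 456245231)), (.negSucc (nat_lit 321273871)), (.ofNat (nat_lit 3071085292119545357743)), (.ofNat (nat_lit 0)), (.ofNat (nat_lit 12881065325078177572162895872))⟩,
    ⟨nat_lit 16, nat_lit 17, (.negSucc (nat_lit 90767359)), (.ofNat (nat_lit 647151104)), (.negSucc (nat_lit 90767343)), (.ofNat (nat_lit 647151088)), (.ofNat (nat_lit 3071085292119545357743)), (.ofNat (nat_lit 0)), (.ofNat (nat_lit 1610133165634772196520361984))⟩,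
    ⟨nat_lit 18, nat_lit 17, (.ofNat (nat_lit 296795840)), (.ofNat (nat_lit 647151104)), (.ofNat (nat_lit 296795856)), (.ofNat (nat_lit 647151088)), (.negSucc (nat_lit 3071085292119545357742)), (.ofNat (nat_lit 0)), (.ofNat (nat_lit 1227725752598679017243164430592))⟩,
    ⟨nat_lit 19, nat_lit 18, (.negSucc (nat_lit 303579135)), (.ofNat (nat_lit 296795840)), (.negSucc (nat_lit 303579119)), (.ofNat (nat_lit 296795824)), (.ofNat (nat_lit 3071085292119545357743)), (.ofNat (nat_lit 0)), (.ofNat (nat_lit 8050665828173860982601809920))⟩,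
    ⟨nat_lit 20, nat_lit 19, (.negSucc (nat_lit 454967295)), (.negSucc (nat_lit 303579135)), (.negSucc (nat_lit 454967279)), (.negSucc (nat_lit 303579151)), (.negSucc (nat_lit 3071085292119545357742)), (.ofNat (nat_lit 0)), (.ofNat (nat_lit 4830399496904316589561085952))⟩,
    ⟨nat_lit 20, nat_lit 21, (.negSucc (nat_lit 454967295)), (.negSucc (nat_lit 35209407)), (.negSucc (nat_lit 454967279)), (.negSucc (nat_lit 35209423)), (.ofNat (nat_lit 3071085292119545357743)), (.ofNat (nat_lit 0)), (.ofNat (nat_lit 14491198490712949768683257856))⟩,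
    ⟨nat_lit 21, nat_lit 11, (.negSucc (nat_lit 35209407)), (.ofNat (nat_lit 246988544)), (.negSucc (nat_lit 35209391)), (.ofNat (nat_lit 246988528)), (.negSucc (nat_lit 3071085292119545357742)), (.ofNat (nat_lit 0)), (.ofNat (nat_lit 1226115619433044245046644068608))⟩,
    ⟨nat_lit 0, nat_lit 22, (.negSucc (nat_lit 307167103)), (.ofNat (nat_lit 25608064)), (.negSucc (nat_lit 307167087)), (.ofNat (nat_lit 25608048)), (.ofNat (nat_lit 3071085292119545357743)), (.ofNat (nat_lit 0)), (.ofNat (nat_lit 6440532662539088786081447936))⟩,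
    ⟨nat_lit 23, nat_lit 16, (.negSucc (nat_lit 526974783)), (.negSucc (nat_lit 90767359)), (.negSucc (nat_lit 526974767)), (.negSucc (nat_lit 90767375)), (.negSucc (nat_lit 3071085292119545357742)), (.ofNat (nat_lit 0)), (.ofNat (nat_lit 0))⟩]

theorem ok54 : stOK 23 23 S54 = true := by decide +kernel

def S55 : SD where
  vs := [
    ⟨nat_lit 0, nat_lit 0, nat_lit 22, (.ofNat (nat_lit 8)), (.negSucc (nat_lit 524877567)), (.ofNat (nat_lit 1967782815754643796767030016384)), (.negSucc (nat_lit 217710463)), (.ofNat (nat_lit 670217537096556535499794884736)), (.negSucc (nat_lit 524877583)), (.negSucc (nat_lit 524877551)), (.negSucc (nat_lit 3071085292119545357742)), (.ofNat (nat_lit 3071085292119545357743)), (.negSucc (nat_lit 3071085292119545357742)), (.ofNat (nat_lit 3071085292119545357743)), (.ofNat (nat_lit 0))⟩,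
    ⟨nat_lit 2, nat_lit 0, nat_lit 1, (.ofNat (nat_lit 8)), (.negSucc (nat_lit 815464127)), (.ofNat (nat_lit 2860198926258257591037537750464)), (.negSucc (nat_lit 219283327)), (.ofNat (nat_lit 675047936593460852089355970688)), (.negSucc (nat_lit 815464143)), (.negSucc (nat_lit 815464111)), (.negSucc (nat_lit 3071085292119545357742)), (.ofNat (nat_lit 3071085292119545357743)), (.negSucc (nat_lit 3071085292119545357742)), (.ofNat (nat_lit 3071085292119545357743)), (.ofNat (nat_lit 0))⟩,
    ⟨nat_lit 0, nat_lit 1, nat_lit 2, (.ofNat (nat_lit 8)), (.negSucc (nat_lit 671170431)), (.ofNat (nat_lit 3303337173789426464545917438592)), (.negSucc (nat_lit 218496895)), (.ofNat (nat_lit 677463136341913010384136513664)), (.negSucc (nat_lit 671170447)), (.negSucc (nat_lit 671170415)), (.ofNat (nat_lit 3071085292119545357743)), (.negSucc (nat_lit 3071085292119545357742)), (.negSucc (nat_lit 3071085292119545357742)), (.ofNat (nat_lit 3071085292119545357743)), (.ofNat (nat_lit 0))⟩,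
    ⟨nat_lit 0, nat_lit 2, nat_lit 3, (.ofNat (nat_lit 8)), (.negSucc (nat_lit 518733695)), (.ofNat (nat_lit 2835190955881116448407622191744)), (.negSucc (nat_lit 217448319)), (.ofNat (nat_lit 674242870010643465991095789696)), (.negSucc (nat_lit 518733711)), (.negSucc (nat_lit 518733679)), (.negSucc (nat_lit 3071085292119545357742)), (.ofNat (nat_lit 3071085292119545357743)), (.negSucc (nat_lit 3071085292119545357742)), (.ofNat (nat_lit 3071085292119545357743)), (.ofNat (nat_lit 0))⟩,
    ⟨nat_lit 1, nat_lit 3, nat_lit 4, (.ofNat (nat_lit 8)), (.ofNat (nat_lit 109625152)), (.ofNat (nat_lit 4764934572147097447682761551808)), (.negSucc (nat_lit 215613311)), (.ofNat (nat_lit 679878336090365168678917056640)), (.ofNat (nat_lit 109625136)), (.ofNat (nat_lit 109625168)), (.ofNat (nat_lit 3071085292119545357743)), (.negSucc (nat_lit 3071085292119545357742)), (.negSucc (nat_lit 3071085292119545357742)), (.ofNat (nat_lit 3071085292119545357743)), (.ofNat (nat_lit 0))⟩,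
    ⟨nat_lit 0, nat_lit 5, nat_lit 4, (.ofNat (nat_lit 8)), (.negSucc (nat_lit 66928831)), (.ofNat (nat_lit 5307146915674606984860993449920)), (.negSucc (nat_lit 216924031)), (.ofNat (nat_lit 683903669004452099170217961600)), (.negSucc (nat_lit 66928847)), (.negSucc (nat_lit 66928815)), (.ofNat (nat_lit 3071085292119545357743)), (.negSucc (nat_lit 3071085292119545357742)), (.negSucc (nat_lit 3071085292119545357742)), (.ofNat (nat_lit 3071085292119545357743)), (.ofNat (nat_lit 0))⟩,
    ⟨nat_lit 2, nat_lit 6, nat_lit 5, (.ofNat (nat_lit 8)), (.negSucc (nat_lit 767278975)), (.ofNat (nat_lit 3156311889102401328351151884928)), (.negSucc (nat_lit 219283327)), (.ofNat (nat_lit 676658069759095624285876332672)), (.negSucc (nat_lit 767278991)), (.negSucc (nat_lit 767278959)), (.negSucc (nat_lit 3071085292119545357742)), (.ofNat (nat_lit 3071085292119545357743)), (.negSucc (nat_lit 3071085292119545357742)), (.ofNat (nat_lit 3071085292119545357743)), (.ofNat (nat_lit 0))⟩,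
    ⟨nat_lit 0, nat_lit 7, nat_lit 8, (.ofNat (nat_lit 8)), (.negSucc (nat_lit 529940351)), (.ofNat (nat_lit 3183180986303931589380585425536)), (.negSucc (nat_lit 217448319)), (.ofNat (nat_lit 675853003176278238187616151680)), (.negSucc (nat_lit 529940367)), (.negSucc (nat_lit 529940335)), (.ofNat (nat_lit 3071085292119545357743)), (.negSucc (nat_lit 3071085292119545357742)), (.negSucc (nat_lit 3071085292119545357742)), (.ofNat (nat_lit 3071085292119545357743)), (.ofNat (nat_lit 0))⟩,
    ⟨nat_lit 0, nat_lit 8, nat_lit 9, (.ofNat (nat_lit 8)), (.ofNat (nat_lit 232308480)), (.ofNat (nat_lit 842249809413429336069961519360)), (.ofNat (nat_lit 1310720)), (.ofNat (nat_lit 4025332914086930491300904960)), (.ofNat (nat_lit 232308464)), (.ofNat (nat_lit 232308496)), (.negSucc (nat_lit 3071085292119545357742)), (.ofNat (nat_lit 3071085292119545357743)), (.negSucc (nat_lit 3071085292119545357742)), (.ofNat (nat_lit 3071085292119545357743)), (.ofNat (nat_lit 0))⟩,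
    ⟨nat_lit 1, nat_lit 9, nat_lit 10, (.ofNat (nat_lit 8)), (.ofNat (nat_lit 783203776)), (.ofNat (nat_lit 2534096250456872743309217396288)), (.ofNat (nat_lit 2621440)), (.ofNat (nat_lit 8050665828173860982601809920)), (.ofNat (nat_lit 783203760)), (.ofNat (nat_lit 783203792)), (.ofNat (nat_lit 3071085292119545357743)), (.negSucc (nat_lit 3071085292119545357742)), (.negSucc (nat_lit 3071085292119545357742)), (.ofNat (nat_lit 3071085292119545357743)), (.ofNat (nat_lit 0))⟩,
    ⟨nat_lit 0, nat_lit 11, nat_lit 10, (.ofNat (nat_lit 8)), (.ofNat (nat_lit 455851648)), (.ofNat (nat_lit 3539422556101707546558909723392)), (.ofNat (nat_lit 2097152)), (.ofNat (nat_lit 9660798993808633179122171904)), (.ofNat (nat_lit 455851632)), (.ofNat (nat_lit 455851664)), (.ofNat (nat_lit 3071085292119545357743)), (.negSucc (nat_lit 3071085292119545357742)), (.negSucc (nat_lit 3071085292119545357742)), (.ofNat (nat_lit 3071085292119545357743)), (.ofNat (nat_lit 0))⟩,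
    ⟨nat_lit 0, nat_lit 21, nat_lit 11, (.ofNat (nat_lit 8)), (.ofNat (nat_lit 248561408)), (.ofNat (nat_lit 2902816548837776880661477395072)), (.ofNat (nat_lit 1572864)), (.ofNat (nat_lit 8050665828173860982601809920)), (.ofNat (nat_lit 248561392)), (.ofNat (nat_lit 248561424)), (.negSucc (nat_lit 3071085292119545357742)), (.ofNat (nat_lit 3071085292119545357743)), (.negSucc (nat_lit 3071085292119545357742)), (.ofNat (nat_lit 3071085292119545357743)), (.ofNat (nat_lit 0))⟩,
    ⟨nat_lit 1, nat_lit 13, nat_lit 12, (.ofNat (nat_lit 8)), (.ofNat (nat_lit 27180928)), (.ofNat (nat_lit 2325986735348037132559863505408)), (.negSucc (nat_lit 215875455)), (.ofNat (nat_lit 674242870010643465991095789696)), (.ofNat (nat_lit 27180912)), (.ofNat (nat_lit 27180944)), (.ofNat (nat_lit 3071085292119545357743)), (.negSucc (nat_lit 3071085292119545357742)), (.negSucc (nat_lit 3071085292119545357742)), (.ofNat (nat_lit 3071085292119545357743)), (.ofNat (nat_lit 0))⟩,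
    ⟨nat_lit 0, nat_lit 14, nat_lit 13, (.ofNat (nat_lit 8)), (.negSucc (nat_lit 98844735)), (.ofNat (nat_lit 1938951172208037461472184389056)), (.negSucc (nat_lit 216137599)), (.ofNat (nat_lit 673437803427826079892835608704)), (.negSucc (nat_lit 98844751)), (.negSucc (nat_lit 98844719)), (.negSucc (nat_lit 3071085292119545357742)), (.ofNat (nat_lit 3071085292119545357743)), (.negSucc (nat_lit 3071085292119545357742)), (.ofNat (nat_lit 3071085292119545357743)), (.ofNat (nat_lit 0))⟩,
    ⟨nat_lit 0, nat_lit 15, nat_lit 14, (.ofNat (nat_lit 8)), (.negSucc (nat_lit 538722175)), (.ofNat (nat_lit 3289852308527235247400059406976)), (.negSucc (nat_lit 217448319)), (.ofNat (nat_lit 677463136341913010384136513664)), (.negSucc (nat_lit 538722191)), (.negSucc (nat_lit 538722159)), (.ofNat (nat_lit 3071085292119545357743)), (.negSucc (nat_lit 3071085292119545357742)), (.negSucc (nat_lit 3071085292119545357742)), (.ofNat (nat_lit 3071085292119545357743)), (.ofNat (nat_lit 0))⟩,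
    ⟨nat_lit 0, nat_lit 6, nat_lit 15, (.ofNat (nat_lit 8)), (.negSucc (nat_lit 674742143)), (.ofNat (nat_lit 2872123385367864035665307994752)), (.negSucc (nat_lit 218496895)), (.ofNat (nat_lit 674242870010643465991095789696)), (.negSucc (nat_lit 674742159)), (.negSucc (nat_lit 674742127)), (.negSucc (nat_lit 3071085292119545357742)), (.ofNat (nat_lit 3071085292119545357743)), (.negSucc (nat_lit 3071085292119545357742)), (.ofNat (nat_lit 3071085292119545357743)), (.ofNat (nat_lit 0))⟩,
    ⟨nat_lit 0, nat_lit 23, nat_lit 16, (.ofNat (nat_lit 8)), (.negSucc (nat_lit 91029503)), (.ofNat (nat_lit 509808020470192355421453822080)), (.negSucc (nat_lit 262143)), (.ofNat (nat_lit 805066582817386098260180992)), (.negSucc (nat_lit 91029519)), (.negSucc (nat_lit 91029487)), (.negSucc (nat_lit 3071085292119545357742)), (.ofNat (nat_lit 3071085292119545357743)), (.negSucc (nat_lit 3071085292119545357742)), (.ofNat (nat_lit 3071085292119545357743)), (.ofNat (nat_lit 0))⟩,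
    ⟨nat_lit 1, nat_lit 16, nat_lit 17, (.ofNat (nat_lit 8)), (.ofNat (nat_lit 649248256)), (.ofNat (nat_lit 2783264161289395045069840517760)), (.ofNat (nat_lit 2097152)), (.ofNat (nat_lit 8050665828173860982601809920)), (.ofNat (nat_lit 649248240)), (.ofNat (nat_lit 649248272)), (.ofNat (nat_lit 3071085292119545357743)), (.negSucc (nat_lit 3071085292119545357742)), (.negSucc (nat_lit 3071085292119545357742)), (.ofNat (nat_lit 3071085292119545357743)), (.ofNat (nat_lit 0))⟩,
    ⟨nat_lit 0, nat_lit 18, nat_lit 17, (.ofNat (nat_lit 8)), (.ofNat (nat_lit 80920384)), (.ofNat (nat_lit 4528647530090194627843398430656)), (.negSucc (nat_lit 215875455)), (.ofNat (nat_lit 677463136341913010384136513664)), (.ofNat (nat_lit 80920368)), (.ofNat (nat_lit 80920400)), (.ofNat (nat_lit 3071085292119545357743)), (.negSucc (nat_lit 3071085292119545357742)), (.negSucc (nat_lit 3071085292119545357742)), (.ofNat (nat_lit 3071085292119545357743)), (.ofNat (nat_lit 0))⟩,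
    ⟨nat_lit 0, nat_lit 19, nat_lit 18, (.ofNat (nat_lit 8)), (.negSucc (nat_lit 521027455)), (.ofNat (nat_lit 2680014372043065277967972305536)), (.negSucc (nat_lit 217448319)), (.ofNat (nat_lit 672632736845008693794575427712)), (.negSucc (nat_lit 521027471)), (.negSucc (nat_lit 521027439)), (.negSucc (nat_lit 3071085292119545357742)), (.ofNat (nat_lit 3071085292119545357743)), (.negSucc (nat_lit 3071085292119545357742)), (.ofNat (nat_lit 3071085292119545357743)), (.ofNat (nat_lit 0))⟩,
    ⟨nat_lit 2, nat_lit 19, nat_lit 20, (.ofNat (nat_lit 8)), (.negSucc (nat_lit 673464191)), (.ofNat (nat_lit 3148160589951375294106267552384)), (.negSucc (nat_lit 218496895)), (.ofNat (nat_lit 675853003176278238187616151680)), (.negSucc (nat_lit 673464207)), (.negSucc (nat_lit 673464175)), (.negSucc (nat_lit 3071085292119545357742)), (.ofNat (nat_lit 3071085292119545357743)), (.negSucc (nat_lit 3071085292119545357742)), (.ofNat (nat_lit 3071085292119545357743)), (.ofNat (nat_lit 0))⟩,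
    ⟨nat_lit 0, nat_lit 20, nat_lit 21, (.ofNat (nat_lit 8)), (.negSucc (nat_lit 252395583)), (.ofNat (nat_lit 4441298198953425627483974584128)), (.negSucc (nat_lit 217186175)), (.ofNat (nat_lit 679878336090365168678917056640)), (.negSucc (nat_lit 252395599)), (.negSucc (nat_lit 252395567)), (.ofNat (nat_lit 3071085292119545357743)), (.negSucc (nat_lit 3071085292119545357742)), (.negSucc (nat_lit 3071085292119545357742)), (.ofNat (nat_lit 3071085292119545357743)), (.ofNat (nat_lit 0))⟩,
    ⟨nat_lit 0, nat_lit 22, nat_lit 12, (.ofNat (nat_lit 8)), (.negSucc (nat_lit 190529535)), (.ofNat (nat_lit 2994594139278958895863138028160)), (.negSucc (nat_lit 216137599)), (.ofNat (nat_lit 675047936593460852089355970688)), (.negSucc (nat_lit 190529551)), (.negSucc (nat_lit 190529519)), (.ofNat (nat_lit 3071085292119545357743)), (.negSucc (nat_lit 3071085292119545357742)), (.negSucc (nat_lit 3071085292119545357742)), (.ofNat (nat_lit 3071085292119545357743)), (.ofNat (nat_lit 0))⟩,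
    ⟨nat_lit 2, nat_lit 23, nat_lit 7, (.ofNat (nat_lit 8)), (.negSucc (nat_lit 745733823)), (.ofNat (nat_lit 2520460828309320657571741371840)), (.negSucc (nat_lit 218759039)), (.ofNat (nat_lit 671827670262191307696315246720)), (.negSucc (nat_lit 745733839)), (.negSucc (nat_lit 745733807)), (.negSucc (nat_lit 3071085292119545357742)), (.ofNat (nat_lit 3071085292119545357743)), (.negSucc (nat_lit 3071085292119545357742)), (.ofNat (nat_lit 3071085292119545357743)), (.ofNat (nat_lit 0))⟩]
  es := [
    ⟨nat_lit 1, nat_lit 0, (.negSucc (nat_lit 815464127)), (.negSucc (nat_lit 524877567)), (.negSucc (nat_lit 815464111)), (.negSucc (nat_lit 524877583)), (.negSucc (nat_lit 3071085292119545357742)), (.ofNat (nat_lit 0)), (.ofNat (nat_lit 1610133165634772196520361984))⟩,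
    ⟨nat_lit 1, nat_lit 2, (.negSucc (nat_lit 815464127)), (.negSucc (nat_lit 671170431)), (.negSucc (nat_lit 815464111)), (.negSucc (nat_lit 671170447)), (.ofNat (nat_lit 3071085292119545357743)), (.ofNat (nat_lit 0)), (.ofNat (nat_lit 1348485740021286931982191579392))⟩,
    ⟨nat_lit 2, nat_lit 3, (.negSucc (nat_lit 671170431)), (.negSucc (nat_lit 518733695)), (.negSucc (nat_lit 671170415)), (.negSucc (nat_lit 518733711)), (.negSucc (nat_lit 3071085292119545357742)), (.ofNat (nat_lit 0)), (.ofNat (nat_lit 6440532662539088786081447936))⟩,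
    ⟨nat_lit 3, nat_lit 4, (.negSucc (nat_lit 518733695)), (.ofNat (nat_lit 109625152)), (.negSucc (nat_lit 518733679)), (.ofNat (nat_lit 109625136)), (.ofNat (nat_lit 3071085292119545357743)), (.ofNat (nat_lit 0)), (.ofNat (nat_lit 1342045207358747843196110131456))⟩,
    ⟨nat_lit 5, nat_lit 4, (.negSucc (nat_lit 66928831)), (.ofNat (nat_lit 109625152)), (.negSucc (nat_lit 66928815)), (.ofNat (nat_lit 109625136)), (.negSucc (nat_lit 3071085292119545357742)), (.ofNat (nat_lit 0)), (.ofNat (nat_lit 17711464821982494161723981824))⟩,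
    ⟨nat_lit 6, nat_lit 5, (.negSucc (nat_lit 767278975)), (.negSucc (nat_lit 66928831)), (.negSucc (nat_lit 767278959)), (.negSucc (nat_lit 66928847)), (.ofNat (nat_lit 3071085292119545357743)), (.ofNat (nat_lit 0)), (.ofNat (nat_lit 1350095873186921704178711941376))⟩,
    ⟨nat_lit 6, nat_lit 15, (.negSucc (nat_lit 767278975)), (.negSucc (nat_lit 674742143)), (.negSucc (nat_lit 767278959)), (.negSucc (nat_lit 674742159)), (.negSucc (nat_lit 3071085292119545357742)), (.ofNat (nat_lit 0)), (.ofNat (nat_lit 3220266331269544393040723968))⟩,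
    ⟨nat_lit 23, nat_lit 7, (.negSucc (nat_lit 745733823)), (.negSucc (nat_lit 529940351)), (.negSucc (nat_lit 745733807)), (.negSucc (nat_lit 529940367)), (.ofNat (nat_lit 3071085292119545357743)), (.ofNat (nat_lit 0)), (.ofNat (nat_lit 1343655340524382615392630493440))⟩,
    ⟨nat_lit 7, nat_lit 8, (.negSucc (nat_lit 529940351)), (.ofNat (nat_lit 232308480)), (.negSucc (nat_lit 529940335)), (.ofNat (nat_lit 232308464)), (.negSucc (nat_lit 3071085292119545357742)), (.ofNat (nat_lit 0)), (.ofNat (nat_lit 8050665828173860982601809920))⟩,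
    ⟨nat_lit 8, nat_lit 9, (.ofNat (nat_lit 232308480)), (.ofNat (nat_lit 783203776)), (.ofNat (nat_lit 232308496)), (.ofNat (nat_lit 783203760)), (.ofNat (nat_lit 3071085292119545357743)), (.ofNat (nat_lit 0)), (.ofNat (nat_lit 0))⟩,
    ⟨nat_lit 10, nat_lit 9, (.ofNat (nat_lit 455851648)), (.ofNat (nat_lit 783203776)), (.ofNat (nat_lit 455851664)), (.ofNat (nat_lit 783203760)), (.negSucc (nat_lit 3071085292119545357742)), (.ofNat (nat_lit 0)), (.ofNat (nat_lit 16101331656347721965203619840))⟩,
    ⟨nat_lit 11, nat_lit 10, (.ofNat (nat_lit 248561408)), (.ofNat (nat_lit 455851648)), (.ofNat (nat_lit 248561424)), (.ofNat (nat_lit 455851632)), (.ofNat (nat_lit 3071085292119545357743)), (.ofNat (nat_lit 0)), (.ofNat (nat_lit 3220266331269544393040723968))⟩,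
    ⟨nat_lit 22, nat_lit 12, (.negSucc (nat_lit 190529535)), (.ofNat (nat_lit 27180928)), (.negSucc (nat_lit 190529519)), (.ofNat (nat_lit 27180912)), (.negSucc (nat_lit 3071085292119545357742)), (.ofNat (nat_lit 0)), (.ofNat (nat_lit 11270932159443405375642533888))⟩,
    ⟨nat_lit 13, nat_lit 12, (.negSucc (nat_lit 98844735)), (.ofNat (nat_lit 27180928)), (.negSucc (nat_lit 98844719)), (.ofNat (nat_lit 27180912)), (.ofNat (nat_lit 3071085292119545357743)), (.ofNat (nat_lit 0)), (.ofNat (nat_lit 1337214807861843526606549045504))⟩,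
    ⟨nat_lit 14, nat_lit 13, (.negSucc (nat_lit 538722175)), (.negSucc (nat_lit 98844735)), (.negSucc (nat_lit 538722159)), (.negSucc (nat_lit 98844751)), (.negSucc (nat_lit 3071085292119545357742)), (.ofNat (nat_lit 0)), (.ofNat (nat_lit 9660798993808633179122171904))⟩,
    ⟨nat_lit 15, nat_lit 14, (.negSucc (nat_lit 674742143)), (.negSucc (nat_lit 538722175)), (.negSucc (nat_lit 674742127)), (.negSucc (nat_lit 538722191)), (.ofNat (nat_lit 3071085292119545357743)), (.ofNat (nat_lit 0)), (.ofNat (nat_lit 1345265473690017387589150855424))⟩,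
    ⟨nat_lit 16, nat_lit 17, (.negSucc (nat_lit 91029503)), (.ofNat (nat_lit 649248256)), (.negSucc (nat_lit 91029487)), (.ofNat (nat_lit 649248240)), (.ofNat (nat_lit 3071085292119545357743)), (.ofNat (nat_lit 0)), (.ofNat (nat_lit 1610133165634772196520361984))⟩,
    ⟨nat_lit 18, nat_lit 17, (.ofNat (nat_lit 80920384)), (.ofNat (nat_lit 649248256)), (.ofNat (nat_lit 80920400)), (.ofNat (nat_lit 649248240)), (.negSucc (nat_lit 3071085292119545357742)), (.ofNat (nat_lit 0)), (.ofNat (nat_lit 14491198490712949768683257856))⟩,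
    ⟨nat_lit 19, nat_lit 18, (.negSucc (nat_lit 521027455)), (.ofNat (nat_lit 80920384)), (.negSucc (nat_lit 521027439)), (.ofNat (nat_lit 80920368)), (.ofNat (nat_lit 3071085292119545357743)), (.ofNat (nat_lit 0)), (.ofNat (nat_lit 1340435074193113070999589769472))⟩,
    ⟨nat_lit 20, nat_lit 19, (.negSucc (nat_lit 673464191)), (.negSucc (nat_lit 521027455)), (.negSucc (nat_lit 673464175)), (.negSucc (nat_lit 521027471)), (.negSucc (nat_lit 3071085292119545357742)), (.ofNat (nat_lit 0)), (.ofNat (nat_lit 4830399496904316589561085952))⟩,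
    ⟨nat_lit 20, nat_lit 21, (.negSucc (nat_lit 673464191)), (.negSucc (nat_lit 252395583)), (.negSucc (nat_lit 673464175)), (.negSucc (nat_lit 252395599)), (.ofNat (nat_lit 3071085292119545357743)), (.ofNat (nat_lit 0)), (.ofNat (nat_lit 1346875606855652159785671217408))⟩,
    ⟨nat_lit 21, nat_lit 11, (.negSucc (nat_lit 252395583)), (.ofNat (nat_lit 248561408)), (.negSucc (nat_lit 252395567)), (.ofNat (nat_lit 248561392)), (.negSucc (nat_lit 3071085292119545357742)), (.ofNat (nat_lit 0)), (.ofNat (nat_lit 12881065325078177572162895872))⟩,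
    ⟨nat_lit 0, nat_lit 22, (.negSucc (nat_lit 524877567)), (.negSucc (nat_lit 190529535)), (.negSucc (nat_lit 524877551)), (.negSucc (nat_lit 190529551)), (.ofNat (nat_lit 3071085292119545357743)), (.ofNat (nat_lit 0)), (.ofNat (nat_lit 1338824941027478298803069407488))⟩,
    ⟨nat_lit 23, nat_lit 16, (.negSucc (nat_lit 745733823)), (.negSucc (nat_lit 91029503)), (.negSucc (nat_lit 745733807)), (.negSucc (nat_lit 91029519)), (.negSucc (nat_lit 3071085292119545357742)), (.ofNat (nat_lit 0)), (.ofNat (nat_lit 0))⟩]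

theorem ok55 : stOK 23 23 S55 = true := by decide +kernel

def S56 : SD where
  vs := [
    ⟨nat_lit 0, nat_lit 0, nat_lit 22, (.ofNat (nat_lit 8)), (.negSucc (nat_lit 524877567)), (.ofNat (nat_lit 1998529422250810106091044313216)), (.ofNat (nat_lit 0)), (.ofNat (nat_lit 30746606496166309324014296832)), (.negSucc (nat_lit 524877583)), (.negSucc (nat_lit 524877551)), (.negSucc (nat_lit 3119070999808913253956)), (.ofNat (nat_lit 3119070999808913253957)), (.negSucc (nat_lit 3119070999808913253956)), (.ofNat (nat_lit 3119070999808913253957)), (.ofNat (nat_lit 287914246136207377284))⟩,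
    ⟨nat_lit 2, nat_lit 0, nat_lit 1, (.ofNat (nat_lit 8)), (.negSucc (nat_lit 815464127)), (.ofNat (nat_lit 2904889534481042865896815331136)), (.ofNat (nat_lit 0)), (.ofNat (nat_lit 44690608222785274859277580672)), (.negSucc (nat_lit 815464143)), (.negSucc (nat_lit 815464111)), (.negSucc (nat_lit 3119070999808913253956)), (.ofNat (nat_lit 3119070999808913253957)), (.negSucc (nat_lit 3119070999808913253956)), (.ofNat (nat_lit 3119070999808913253957)), (.ofNat (nat_lit 287914246136207377284))⟩,
    ⟨nat_lit 0, nat_lit 1, nat_lit 2, (.ofNat (nat_lit 8)), (.negSucc (nat_lit 671170431)), (.ofNat (nat_lit 3354951817129886253053657486208)), (.ofNat (nat_lit 0)), (.ofNat (nat_lit 51614643340459788507740047616)), (.negSucc (nat_lit 671170447)), (.negSucc (nat_lit 671170415)), (.ofNat (nat_lit 3119070999808913253957)), (.negSucc (nat_lit 3119070999808913253956)), (.negSucc (nat_lit 3119070999808913253956)), (.ofNat (nat_lit 3119070999808913253957)), (.ofNat (nat_lit 287914246136207377284))⟩,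
    ⟨nat_lit 0, nat_lit 2, nat_lit 3, (.ofNat (nat_lit 8)), (.negSucc (nat_lit 518733695)), (.ofNat (nat_lit 2879490814566758892913313321856)), (.ofNat (nat_lit 0)), (.ofNat (nat_lit 44299858685642444505691130112)), (.negSucc (nat_lit 518733711)), (.negSucc (nat_lit 518733679)), (.negSucc (nat_lit 3119070999808913253956)), (.ofNat (nat_lit 3119070999808913253957)), (.negSucc (nat_lit 3119070999808913253956)), (.ofNat (nat_lit 3119070999808913253957)), (.ofNat (nat_lit 287914246136207377284))⟩,
    ⟨nat_lit 1, nat_lit 3, nat_lit 4, (.ofNat (nat_lit 8)), (.ofNat (nat_lit 109625152)), (.ofNat (nat_lit 4839386674836895845301665283392)), (.ofNat (nat_lit 0)), (.ofNat (nat_lit 74452102689798397618903731584)), (.ofNat (nat_lit 109625136)), (.ofNat (nat_lit 109625168)), (.ofNat (nat_lit 3119070999808913253957)), (.negSucc (nat_lit 3119070999808913253956)), (.negSucc (nat_lit 3119070999808913253956)), (.ofNat (nat_lit 3119070999808913253957)), (.ofNat (nat_lit 287914246136207377284))⟩,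
    ⟨nat_lit 0, nat_lit 5, nat_lit 4, (.ofNat (nat_lit 8)), (.negSucc (nat_lit 66928831)), (.ofNat (nat_lit 5390071086232022718998177398080)), (.ofNat (nat_lit 0)), (.ofNat (nat_lit 82924170557415734137183948160)), (.negSucc (nat_lit 66928847)), (.negSucc (nat_lit 66928815)), (.ofNat (nat_lit 3119070999808913253957)), (.negSucc (nat_lit 3119070999808913253956)), (.negSucc (nat_lit 3119070999808913253956)), (.ofNat (nat_lit 3119070999808913253957)), (.ofNat (nat_lit 287914246136207377284))⟩,
    ⟨nat_lit 2, nat_lit 6, nat_lit 5, (.ofNat (nat_lit 8)), (.negSucc (nat_lit 767278975)), (.ofNat (nat_lit 3205629262369626349105883878272)), (.ofNat (nat_lit 0)), (.ofNat (nat_lit 49317373267225020754731993344)), (.negSucc (nat_lit 767278991)), (.negSucc (nat_lit 767278959)), (.negSucc (nat_lit 3119070999808913253956)), (.ofNat (nat_lit 3119070999808913253957)), (.negSucc (nat_lit 3119070999808913253956)), (.ofNat (nat_lit 3119070999808913253957)), (.ofNat (nat_lit 287914246136207377284))⟩,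
    ⟨nat_lit 0, nat_lit 7, nat_lit 8, (.ofNat (nat_lit 8)), (.negSucc (nat_lit 529940351)), (.ofNat (nat_lit 3232918189214930520463895892864)), (.ofNat (nat_lit 0)), (.ofNat (nat_lit 49737202910998931083310467328)), (.negSucc (nat_lit 529940367)), (.negSucc (nat_lit 529940335)), (.ofNat (nat_lit 3119070999808913253957)), (.negSucc (nat_lit 3119070999808913253956)), (.negSucc (nat_lit 3119070999808913253956)), (.ofNat (nat_lit 3119070999808913253957)), (.ofNat (nat_lit 287914246136207377284))⟩,
    ⟨nat_lit 0, nat_lit 8, nat_lit 9, (.ofNat (nat_lit 8)), (.ofNat (nat_lit 232308480)), (.ofNat (nat_lit 855409962685514169445853264640)), (.ofNat (nat_lit 0)), (.ofNat (nat_lit 13160153272084833375891745280)), (.ofNat (nat_lit 232308464)), (.ofNat (nat_lit 232308496)), (.negSucc (nat_lit 3119070999808913253956)), (.ofNat (nat_lit 3119070999808913253957)), (.negSucc (nat_lit 3119070999808913253956)), (.ofNat (nat_lit 3119070999808913253957)), (.ofNat (nat_lit 287914246136207377284))⟩,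
    ⟨nat_lit 1, nat_lit 9, nat_lit 10, (.ofNat (nat_lit 8)), (.ofNat (nat_lit 783203776)), (.ofNat (nat_lit 2573691504370261379922817950912)), (.ofNat (nat_lit 0)), (.ofNat (nat_lit 39595253913388636613600554624)), (.ofNat (nat_lit 783203760)), (.ofNat (nat_lit 783203792)), (.ofNat (nat_lit 3119070999808913253957)), (.negSucc (nat_lit 3119070999808913253956)), (.negSucc (nat_lit 3119070999808913253956)), (.ofNat (nat_lit 3119070999808913253957)), (.ofNat (nat_lit 287914246136207377284))⟩,
    ⟨nat_lit 0, nat_lit 11, nat_lit 10, (.ofNat (nat_lit 8)), (.ofNat (nat_lit 455851648)), (.ofNat (nat_lit 3594726033540796726973046321408)), (.ofNat (nat_lit 0)), (.ofNat (nat_lit 55303477439089180414136598016)), (.ofNat (nat_lit 455851632)), (.ofNat (nat_lit 455851664)), (.ofNat (nat_lit 3119070999808913253957)), (.negSucc (nat_lit 3119070999808913253956)), (.negSucc (nat_lit 3119070999808913253956)), (.ofNat (nat_lit 3119070999808913253957)), (.ofNat (nat_lit 287914246136207377284))⟩,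
    ⟨nat_lit 0, nat_lit 21, nat_lit 11, (.ofNat (nat_lit 8)), (.ofNat (nat_lit 248561408)), (.ofNat (nat_lit 2948173057413367144421118841728)), (.ofNat (nat_lit 0)), (.ofNat (nat_lit 45356508575590263759641446656)), (.ofNat (nat_lit 248561392)), (.ofNat (nat_lit 248561424)), (.negSucc (nat_lit 3119070999808913253956)), (.ofNat (nat_lit 3119070999808913253957)), (.negSucc (nat_lit 3119070999808913253956)), (.ofNat (nat_lit 3119070999808913253957)), (.ofNat (nat_lit 287914246136207377284))⟩,
    ⟨nat_lit 1, nat_lit 13, nat_lit 12, (.ofNat (nat_lit 8)), (.ofNat (nat_lit 27180928)), (.ofNat (nat_lit 2362330278087850212755555169792)), (.ofNat (nat_lit 0)), (.ofNat (nat_lit 36343542739813080195691664384)), (.ofNat (nat_lit 27180912)), (.ofNat (nat_lit 27180944)), (.ofNat (nat_lit 3119070999808913253957)), (.negSucc (nat_lit 3119070999808913253956)), (.negSucc (nat_lit 3119070999808913253956)), (.ofNat (nat_lit 3119070999808913253957)), (.ofNat (nat_lit 287914246136207377284))⟩,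
    ⟨nat_lit 0, nat_lit 14, nat_lit 13, (.ofNat (nat_lit 8)), (.negSucc (nat_lit 98844735)), (.ofNat (nat_lit 1969247284273788046807223617344)), (.ofNat (nat_lit 0)), (.ofNat (nat_lit 30296112065750585335039228288)), (.negSucc (nat_lit 98844751)), (.negSucc (nat_lit 98844719)), (.negSucc (nat_lit 3119070999808913253956)), (.ofNat (nat_lit 3119070999808913253957)), (.negSucc (nat_lit 3119070999808913253956)), (.ofNat (nat_lit 3119070999808913253957)), (.ofNat (nat_lit 287914246136207377284))⟩,
    ⟨nat_lit 0, nat_lit 15, nat_lit 14, (.ofNat (nat_lit 8)), (.negSucc (nat_lit 538722175)), (.ofNat (nat_lit 3341256250847973298139898647424)), (.ofNat (nat_lit 0)), (.ofNat (nat_lit 51403942320738050739839240448)), (.negSucc (nat_lit 538722191)), (.negSucc (nat_lit 538722159)), (.ofNat (nat_lit 3119070999808913253957)), (.negSucc (nat_lit 3119070999808913253956)), (.negSucc (nat_lit 3119070999808913253956)), (.ofNat (nat_lit 3119070999808913253957)), (.ofNat (nat_lit 287914246136207377284))⟩,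
    ⟨nat_lit 0, nat_lit 6, nat_lit 15, (.ofNat (nat_lit 8)), (.negSucc (nat_lit 674742143)), (.ofNat (nat_lit 2917000313264236911221891634048)), (.ofNat (nat_lit 0)), (.ofNat (nat_lit 44876927896372875556583639296)), (.negSucc (nat_lit 674742159)), (.negSucc (nat_lit 674742127)), (.negSucc (nat_lit 3119070999808913253956)), (.ofNat (nat_lit 3119070999808913253957)), (.negSucc (nat_lit 3119070999808913253956)), (.ofNat (nat_lit 3119070999808913253957)), (.ofNat (nat_lit 287914246136207377284))⟩,
    ⟨nat_lit 0, nat_lit 23, nat_lit 16, (.ofNat (nat_lit 8)), (.negSucc (nat_lit 91029503)), (.ofNat (nat_lit 517773770790039110974792129920)), (.ofNat (nat_lit 0)), (.ofNat (nat_lit 7965750319846755553338307840)), (.negSucc (nat_lit 91029519)), (.negSucc (nat_lit 91029487)), (.negSucc (nat_lit 3119070999808913253956)), (.ofNat (nat_lit 3119070999808913253957)), (.negSucc (nat_lit 3119070999808913253956)), (.ofNat (nat_lit 3119070999808913253957)), (.ofNat (nat_lit 287914246136207377284))⟩,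
    ⟨nat_lit 1, nat_lit 16, nat_lit 17, (.ofNat (nat_lit 8)), (.ofNat (nat_lit 649248256)), (.ofNat (nat_lit 2826752663809541842648391226240)), (.ofNat (nat_lit 0)), (.ofNat (nat_lit 43488502520146797578550708480)), (.ofNat (nat_lit 649248240)), (.ofNat (nat_lit 649248272)), (.ofNat (nat_lit 3119070999808913253957)), (.negSucc (nat_lit 3119070999808913253956)), (.negSucc (nat_lit 3119070999808913253956)), (.ofNat (nat_lit 3119070999808913253957)), (.ofNat (nat_lit 287914246136207377284))⟩,
    ⟨nat_lit 0, nat_lit 18, nat_lit 17, (.ofNat (nat_lit 8)), (.ofNat (nat_lit 80920384)), (.ofNat (nat_lit 4599407647747853918902368615744)), (.ofNat (nat_lit 0)), (.ofNat (nat_lit 70760117657659291058970185088)), (.ofNat (nat_lit 80920368)), (.ofNat (nat_lit 80920400)), (.ofNat (nat_lit 3119070999808913253957)), (.negSucc (nat_lit 3119070999808913253956)), (.negSucc (nat_lit 3119070999808913253956)), (.ofNat (nat_lit 3119070999808913253957)), (.ofNat (nat_lit 287914246136207377284))⟩,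
    ⟨nat_lit 0, nat_lit 19, nat_lit 18, (.ofNat (nat_lit 8)), (.negSucc (nat_lit 521027455)), (.ofNat (nat_lit 2721889596606238172935581012864)), (.ofNat (nat_lit 0)), (.ofNat (nat_lit 41875224563172894967608707328)), (.negSucc (nat_lit 521027471)), (.negSucc (nat_lit 521027439)), (.negSucc (nat_lit 3119070999808913253956)), (.ofNat (nat_lit 3119070999808913253957)), (.negSucc (nat_lit 3119070999808913253956)), (.ofNat (nat_lit 3119070999808913253957)), (.ofNat (nat_lit 287914246136207377284))⟩,
    ⟨nat_lit 2, nat_lit 19, nat_lit 20, (.ofNat (nat_lit 8)), (.negSucc (nat_lit 673464191)), (.ofNat (nat_lit 3197350599169365533075925177216)), (.ofNat (nat_lit 0)), (.ofNat (nat_lit 49190009217990238969657624832)), (.negSucc (nat_lit 673464207)), (.negSucc (nat_lit 673464175)), (.negSucc (nat_lit 3119070999808913253956)), (.ofNat (nat_lit 3119070999808913253957)), (.negSucc (nat_lit 3119070999808913253956)), (.ofNat (nat_lit 3119070999808913253957)), (.ofNat (nat_lit 287914246136207377284))⟩,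
    ⟨nat_lit 0, nat_lit 20, nat_lit 21, (.ofNat (nat_lit 8)), (.negSucc (nat_lit 252395583)), (.ofNat (nat_lit 4510693483312072902912349659072)), (.ofNat (nat_lit 0)), (.ofNat (nat_lit 69395284358647275428375074944)), (.negSucc (nat_lit 252395599)), (.negSucc (nat_lit 252395567)), (.ofNat (nat_lit 3119070999808913253957)), (.negSucc (nat_lit 3119070999808913253956)), (.negSucc (nat_lit 3119070999808913253956)), (.ofNat (nat_lit 3119070999808913253957)), (.ofNat (nat_lit 287914246136207377284))⟩,
    ⟨nat_lit 0, nat_lit 22, nat_lit 12, (.ofNat (nat_lit 8)), (.negSucc (nat_lit 190529535)), (.ofNat (nat_lit 3041384672705192628610283475840)), (.ofNat (nat_lit 0)), (.ofNat (nat_lit 46790533426233732747145447680)), (.negSucc (nat_lit 190529551)), (.negSucc (nat_lit 190529519)), (.ofNat (nat_lit 3119070999808913253957)), (.negSucc (nat_lit 3119070999808913253956)), (.negSucc (nat_lit 3119070999808913253956)), (.ofNat (nat_lit 3119070999808913253957)), (.ofNat (nat_lit 287914246136207377284))⟩,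
    ⟨nat_lit 2, nat_lit 23, nat_lit 7, (.ofNat (nat_lit 8)), (.negSucc (nat_lit 745733823)), (.ofNat (nat_lit 2559843028751653792845697124160)), (.ofNat (nat_lit 0)), (.ofNat (nat_lit 39382200442333135273955752320)), (.negSucc (nat_lit 745733839)), (.negSucc (nat_lit 745733807)), (.negSucc (nat_lit 3119070999808913253956)), (.ofNat (nat_lit 3119070999808913253957)), (.negSucc (nat_lit 3119070999808913253956)), (.ofNat (nat_lit 3119070999808913253957)), (.ofNat (nat_lit 287914246136207377284))⟩]
  es := [
    ⟨nat_lit 1, nat_lit 0, (.negSucc (nat_lit 815464127)), (.negSucc (nat_lit 524877567)), (.negSucc (nat_lit 815464111)), (.negSucc (nat_lit 524877583)), (.negSucc (nat_lit 3119070999808913253956)), (.negSucc (nat_lit 47985707689367896213)), (.ofNat (nat_lit 5559984945411988501933569280))⟩,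
    ⟨nat_lit 1, nat_lit 2, (.negSucc (nat_lit 815464127)), (.negSucc (nat_lit 671170431)), (.negSucc (nat_lit 815464111)), (.negSucc (nat_lit 671170447)), (.ofNat (nat_lit 3119070999808913253957)), (.ofNat (nat_lit 47985707689367896214)), (.ofNat (nat_lit 83821231500158561216621592064))⟩,
    ⟨nat_lit 2, nat_lit 3, (.negSucc (nat_lit 671170431)), (.negSucc (nat_lit 518733695)), (.negSucc (nat_lit 671170415)), (.negSucc (nat_lit 518733711)), (.negSucc (nat_lit 3119070999808913253956)), (.negSucc (nat_lit 47985707689367896213)), (.ofNat (nat_lit 19408055180761015798858503168))⟩,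
    ⟨nat_lit 3, nat_lit 4, (.negSucc (nat_lit 518733695)), (.ofNat (nat_lit 109625152)), (.negSucc (nat_lit 518733679)), (.ofNat (nat_lit 109625136)), (.ofNat (nat_lit 3119070999808913253957)), (.ofNat (nat_lit 47985707689367896214)), (.ofNat (nat_lit 69191662190523873212523757056))⟩,
    ⟨nat_lit 5, nat_lit 4, (.negSucc (nat_lit 66928831)), (.ofNat (nat_lit 109625152)), (.negSucc (nat_lit 66928815)), (.ofNat (nat_lit 109625136)), (.negSucc (nat_lit 3119070999808913253956)), (.negSucc (nat_lit 47985707689367896213)), (.ofNat (nat_lit 79712543189072922025283706112))⟩,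
    ⟨nat_lit 6, nat_lit 5, (.negSucc (nat_lit 767278975)), (.negSucc (nat_lit 66928831)), (.negSucc (nat_lit 767278959)), (.negSucc (nat_lit 66928847)), (.ofNat (nat_lit 3119070999808913253957)), (.ofNat (nat_lit 47985707689367896214)), (.ofNat (nat_lit 86135797925758546249084190208))⟩,
    ⟨nat_lit 6, nat_lit 15, (.negSucc (nat_lit 767278975)), (.negSucc (nat_lit 674742143)), (.negSucc (nat_lit 767278959)), (.negSucc (nat_lit 674742159)), (.negSucc (nat_lit 3119070999808913253956)), (.negSucc (nat_lit 47985707689367896213)), (.ofNat (nat_lit 12498948608691495260379796480))⟩,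
    ⟨nat_lit 23, nat_lit 7, (.negSucc (nat_lit 745733823)), (.negSucc (nat_lit 529940351)), (.negSucc (nat_lit 745733807)), (.negSucc (nat_lit 529940367)), (.ofNat (nat_lit 3119070999808913253957)), (.ofNat (nat_lit 47985707689367896214)), (.ofNat (nat_lit 75166765734871660660457094656))⟩,
    ⟨nat_lit 7, nat_lit 8, (.negSucc (nat_lit 529940351)), (.ofNat (nat_lit 232308480)), (.negSucc (nat_lit 529940335)), (.ofNat (nat_lit 232308464)), (.negSucc (nat_lit 3119070999808913253956)), (.negSucc (nat_lit 47985707689367896213)), (.ofNat (nat_lit 24307640087126201506163840000))⟩,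
    ⟨nat_lit 8, nat_lit 9, (.ofNat (nat_lit 232308480)), (.ofNat (nat_lit 783203776)), (.ofNat (nat_lit 232308496)), (.ofNat (nat_lit 783203760)), (.ofNat (nat_lit 3119070999808913253957)), (.ofNat (nat_lit 47985707689367896214)), (.ofNat (nat_lit 2012666457043465245619650560))⟩,
    ⟨nat_lit 10, nat_lit 9, (.ofNat (nat_lit 455851648)), (.ofNat (nat_lit 783203776)), (.ofNat (nat_lit 455851664)), (.ofNat (nat_lit 783203760)), (.negSucc (nat_lit 3119070999808913253956)), (.negSucc (nat_lit 47985707689367896213)), (.ofNat (nat_lit 77177841369733807981581458688))⟩,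
    ⟨nat_lit 11, nat_lit 10, (.ofNat (nat_lit 248561408)), (.ofNat (nat_lit 455851648)), (.ofNat (nat_lit 248561424)), (.ofNat (nat_lit 455851632)), (.ofNat (nat_lit 3119070999808913253957)), (.ofNat (nat_lit 47985707689367896214)), (.ofNat (nat_lit 33429113508444552846691737344))⟩,
    ⟨nat_lit 22, nat_lit 12, (.negSucc (nat_lit 190529535)), (.ofNat (nat_lit 27180928)), (.negSucc (nat_lit 190529519)), (.ofNat (nat_lit 27180912)), (.negSucc (nat_lit 3119070999808913253956)), (.negSucc (nat_lit 47985707689367896213)), (.ofNat (nat_lit 37647838805546835348195870976))⟩,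
    ⟨nat_lit 13, nat_lit 12, (.negSucc (nat_lit 98844735)), (.ofNat (nat_lit 27180928)), (.negSucc (nat_lit 98844719)), (.ofNat (nat_lit 27180912)), (.ofNat (nat_lit 3119070999808913253957)), (.ofNat (nat_lit 47985707689367896214)), (.ofNat (nat_lit 35039246674079325043187457792))⟩,
    ⟨nat_lit 14, nat_lit 13, (.negSucc (nat_lit 538722175)), (.negSucc (nat_lit 98844735)), (.negSucc (nat_lit 538722159)), (.negSucc (nat_lit 98844751)), (.negSucc (nat_lit 3119070999808913253956)), (.negSucc (nat_lit 47985707689367896213)), (.ofNat (nat_lit 25552977457421845626890998784))⟩,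
    ⟨nat_lit 15, nat_lit 14, (.negSucc (nat_lit 674742143)), (.negSucc (nat_lit 538722175)), (.negSucc (nat_lit 674742127)), (.negSucc (nat_lit 538722191)), (.ofNat (nat_lit 3119070999808913253957)), (.ofNat (nat_lit 47985707689367896214)), (.ofNat (nat_lit 77254907184054255852787482112))⟩,
    ⟨nat_lit 16, nat_lit 17, (.negSucc (nat_lit 91029503)), (.ofNat (nat_lit 649248256)), (.negSucc (nat_lit 91029487)), (.ofNat (nat_lit 649248240)), (.ofNat (nat_lit 3119070999808913253957)), (.ofNat (nat_lit 47985707689367896214)), (.ofNat (nat_lit 12333865489898901219222205696))⟩,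
    ⟨nat_lit 18, nat_lit 17, (.ofNat (nat_lit 80920384)), (.ofNat (nat_lit 649248256)), (.ofNat (nat_lit 80920400)), (.ofNat (nat_lit 649248240)), (.negSucc (nat_lit 3119070999808913253956)), (.negSucc (nat_lit 47985707689367896213)), (.ofNat (nat_lit 74643139550394693937879211264))⟩,
    ⟨nat_lit 19, nat_lit 18, (.negSucc (nat_lit 521027455)), (.ofNat (nat_lit 80920384)), (.negSucc (nat_lit 521027439)), (.ofNat (nat_lit 80920368)), (.ofNat (nat_lit 3119070999808913253957)), (.ofNat (nat_lit 47985707689367896214)), (.ofNat (nat_lit 66877095764923888180061158912))⟩,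
    ⟨nat_lit 20, nat_lit 19, (.negSucc (nat_lit 673464191)), (.negSucc (nat_lit 521027455)), (.negSucc (nat_lit 673464175)), (.negSucc (nat_lit 521027471)), (.negSucc (nat_lit 3119070999808913253956)), (.negSucc (nat_lit 47985707689367896213)), (.ofNat (nat_lit 16873353361421901755156255744))⟩,
    ⟨nat_lit 20, nat_lit 21, (.negSucc (nat_lit 673464191)), (.negSucc (nat_lit 252395583)), (.negSucc (nat_lit 673464175)), (.negSucc (nat_lit 252395599)), (.ofNat (nat_lit 3119070999808913253957)), (.ofNat (nat_lit 47985707689367896214)), (.ofNat (nat_lit 81506665074558576184158993920))⟩,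
    ⟨nat_lit 21, nat_lit 11, (.negSucc (nat_lit 252395583)), (.ofNat (nat_lit 248561408)), (.negSucc (nat_lit 252395567)), (.ofNat (nat_lit 248561392)), (.negSucc (nat_lit 3119070999808913253956)), (.negSucc (nat_lit 47985707689367896213)), (.ofNat (nat_lit 57283903642735974672591155968))⟩,
    ⟨nat_lit 0, nat_lit 22, (.negSucc (nat_lit 524877567)), (.negSucc (nat_lit 190529535)), (.negSucc (nat_lit 524877551)), (.negSucc (nat_lit 190529551)), (.ofNat (nat_lit 3119070999808913253957)), (.ofNat (nat_lit 47985707689367896214)), (.ofNat (nat_lit 55933228046920630146095024384))⟩,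
    ⟨nat_lit 23, nat_lit 16, (.negSucc (nat_lit 745733823)), (.negSucc (nat_lit 91029503)), (.negSucc (nat_lit 745733807)), (.negSucc (nat_lit 91029519)), (.negSucc (nat_lit 3119070999808913253956)), (.negSucc (nat_lit 47985707689367896213)), (.ofNat (nat_lit 3597635149794609887454409984))⟩]

theorem ok56 : stOK 23 23 S56 = true := by decide +kernel

def S57 : SD where
  vs := [
    ⟨nat_lit 0, nat_lit 0, nat_lit 22, (.ofNat (nat_lit 8)), (.negSucc (nat_lit 524877567)), (.ofNat (nat_lit 1998529422250810106091044313216)), (.ofNat (nat_lit 0)), (.ofNat (nat_lit 30746606496166309324014296832)), (.negSucc (nat_lit 524877583)), (.negSucc (nat_lit 524877551)), (.negSucc (nat_lit 3119070999808913253956)), (.ofNat (nat_lit 3119070999808913253957)), (.negSucc (nat_lit 3119070999808913253956)), (.ofNat (nat_lit 3119070999808913253957)), (.ofNat (nat_lit 287914246136207377284))⟩,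
    ⟨nat_lit 2, nat_lit 0, nat_lit 1, (.ofNat (nat_lit 8)), (.negSucc (nat_lit 815464127)), (.ofNat (nat_lit 2904889534481042865896815331136)), (.ofNat (nat_lit 0)), (.ofNat (nat_lit 44690608222785274859277580672)), (.negSucc (nat_lit 815464143)), (.negSucc (nat_lit 815464111)), (.negSucc (nat_lit 3119070999808913253956)), (.ofNat (nat_lit 3119070999808913253957)), (.negSucc (nat_lit 3119070999808913253956)), (.ofNat (nat_lit 3119070999808913253957)), (.ofNat (nat_lit 287914246136207377284))⟩,
    ⟨nat_lit 0, nat_lit 1, nat_lit 2, (.ofNat (nat_lit 8)), (.negSucc (nat_lit 671170431)), (.ofNat (nat_lit 3354951817129886253053657486208)), (.ofNat (nat_lit 0)), (.ofNat (nat_lit 51614643340459788507740047616)), (.negSucc (nat_lit 671170447)), (.negSucc (nat_lit 671170415)), (.ofNat (nat_lit 3119070999808913253957)), (.negSucc (nat_lit 3119070999808913253956)), (.negSucc (nat_lit 3119070999808913253956)), (.ofNat (nat_lit 3119070999808913253957)), (.ofNat (nat_lit 287914246136207377284))⟩,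
    ⟨nat_lit 0, nat_lit 2, nat_lit 3, (.ofNat (nat_lit 8)), (.negSucc (nat_lit 518733695)), (.ofNat (nat_lit 2879490814566758892913313321856)), (.ofNat (nat_lit 0)), (.ofNat (nat_lit 44299858685642444505691130112)), (.negSucc (nat_lit 518733711)), (.negSucc (nat_lit 518733679)), (.negSucc (nat_lit 3119070999808913253956)), (.ofNat (nat_lit 3119070999808913253957)), (.negSucc (nat_lit 3119070999808913253956)), (.ofNat (nat_lit 3119070999808913253957)), (.ofNat (nat_lit 287914246136207377284))⟩,
    ⟨nat_lit 1, nat_lit 3, nat_lit 4, (.ofNat (nat_lit 8)), (.ofNat (nat_lit 109625152)), (.ofNat (nat_lit 4839386674836895845301665283392)), (.ofNat (nat_lit 0)), (.ofNat (nat_lit 74452102689798397618903731584)), (.ofNat (nat_lit 109625136)), (.ofNat (nat_lit 109625168)), (.ofNat (nat_lit 3119070999808913253957)), (.negSucc (nat_lit 3119070999808913253956)), (.negSucc (nat_lit 3119070999808913253956)), (.ofNat (nat_lit 3119070999808913253957)), (.ofNat (nat_lit 287914246136207377284))⟩,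
    ⟨nat_lit 0, nat_lit 5, nat_lit 4, (.ofNat (nat_lit 8)), (.negSucc (nat_lit 66928831)), (.ofNat (nat_lit 5390071086232022718998177398080)), (.ofNat (nat_lit 0)), (.ofNat (nat_lit 82924170557415734137183948160)), (.negSucc (nat_lit 66928847)), (.negSucc (nat_lit 66928815)), (.ofNat (nat_lit 3119070999808913253957)), (.negSucc (nat_lit 3119070999808913253956)), (.negSucc (nat_lit 3119070999808913253956)), (.ofNat (nat_lit 3119070999808913253957)), (.ofNat (nat_lit 287914246136207377284))⟩,
    ⟨nat_lit 2, nat_lit 6, nat_lit 5, (.ofNat (nat_lit 8)), (.negSucc (nat_lit 767278975)), (.ofNat (nat_lit 3205629262369626349105883878272)), (.ofNat (nat_lit 0)), (.ofNat (nat_lit 49317373267225020754731993344)), (.negSucc (nat_lit 767278991)), (.negSucc (nat_lit 767278959)), (.negSucc (nat_lit 3119070999808913253956)), (.ofNat (nat_lit 3119070999808913253957)), (.negSucc (nat_lit 3119070999808913253956)), (.ofNat (nat_lit 3119070999808913253957)), (.ofNat (nat_lit 287914246136207377284))⟩,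
    ⟨nat_lit 0, nat_lit 7, nat_lit 8, (.ofNat (nat_lit 8)), (.negSucc (nat_lit 529940351)), (.ofNat (nat_lit 3232918189214930520463895892864)), (.ofNat (nat_lit 0)), (.ofNat (nat_lit 49737202910998931083310467328)), (.negSucc (nat_lit 529940367)), (.negSucc (nat_lit 529940335)), (.ofNat (nat_lit 3119070999808913253957)), (.negSucc (nat_lit 3119070999808913253956)), (.negSucc (nat_lit 3119070999808913253956)), (.ofNat (nat_lit 3119070999808913253957)), (.ofNat (nat_lit 287914246136207377284))⟩,
    ⟨nat_lit 0, nat_lit 8, nat_lit 9, (.ofNat (nat_lit 8)), (.ofNat (nat_lit 232308480)), (.ofNat (nat_lit 855409962685514169445853264640)), (.ofNat (nat_lit 0)), (.ofNat (nat_lit 13160153272084833375891745280)), (.ofNat (nat_lit 232308464)), (.ofNat (nat_lit 232308496)), (.negSucc (nat_lit 3119070999808913253956)), (.ofNat (nat_lit 3119070999808913253957)), (.negSucc (nat_lit 3119070999808913253956)), (.ofNat (nat_lit 3119070999808913253957)), (.ofNat (nat_lit 287914246136207377284))⟩,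
    ⟨nat_lit 1, nat_lit 9, nat_lit 10, (.ofNat (nat_lit 8)), (.ofNat (nat_lit 783203776)), (.ofNat (nat_lit 2573691504370261379922817950912)), (.ofNat (nat_lit 0)), (.ofNat (nat_lit 39595253913388636613600554624)), (.ofNat (nat_lit 783203760)), (.ofNat (nat_lit 783203792)), (.ofNat (nat_lit 3119070999808913253957)), (.negSucc (nat_lit 3119070999808913253956)), (.negSucc (nat_lit 3119070999808913253956)), (.ofNat (nat_lit 3119070999808913253957)), (.ofNat (nat_lit 287914246136207377284))⟩,
    ⟨nat_lit 0, nat_lit 11, nat_lit 10, (.ofNat (nat_lit 8)), (.ofNat (nat_lit 455851648)), (.ofNat (nat_lit 3594726033540796726973046321408)), (.ofNat (nat_lit 0)), (.ofNat (nat_lit 55303477439089180414136598016)), (.ofNat (nat_lit 455851632)), (.ofNat (nat_lit 455851664)), (.ofNat (nat_lit 3119070999808913253957)), (.negSucc (nat_lit 3119070999808913253956)), (.negSucc (nat_lit 3119070999808913253956)), (.ofNat (nat_lit 3119070999808913253957)), (.ofNat (nat_lit 287914246136207377284))⟩,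
    ⟨nat_lit 0, nat_lit 21, nat_lit 11, (.ofNat (nat_lit 64)), (.ofNat (nat_lit 248561408)), (.ofNat (nat_lit 2948173057413367144421118841728)), (.ofNat (nat_lit 0)), (.ofNat (nat_lit 45356508575590263759641446656)), (.ofNat (nat_lit 248561280)), (.ofNat (nat_lit 248561536)), (.negSucc (nat_lit 3119070999808913253956)), (.ofNat (nat_lit 3119070999808913253957)), (.negSucc (nat_lit 3119070999808913253956)), (.ofNat (nat_lit 3119070999808913253957)), (.ofNat (nat_lit 287914246136207377284))⟩,
    ⟨nat_lit 1, nat_lit 13, nat_lit 12, (.ofNat (nat_lit 8)), (.ofNat (nat_lit 27180928)), (.ofNat (nat_lit 2362330278087850212755555169792)), (.ofNat (nat_lit 0)), (.ofNat (nat_lit 36343542739813080195691664384)), (.ofNat (nat_lit 27180912)), (.ofNat (nat_lit 27180944)), (.ofNat (nat_lit 3119070999808913253957)), (.negSucc (nat_lit 3119070999808913253956)), (.negSucc (nat_lit 3119070999808913253956)), (.ofNat (nat_lit 3119070999808913253957)), (.ofNat (nat_lit 287914246136207377284))⟩,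
    ⟨nat_lit 0, nat_lit 14, nat_lit 13, (.ofNat (nat_lit 8)), (.negSucc (nat_lit 98844735)), (.ofNat (nat_lit 1969247284273788046807223617344)), (.ofNat (nat_lit 0)), (.ofNat (nat_lit 30296112065750585335039228288)), (.negSucc (nat_lit 98844751)), (.negSucc (nat_lit 98844719)), (.negSucc (nat_lit 3119070999808913253956)), (.ofNat (nat_lit 3119070999808913253957)), (.negSucc (nat_lit 3119070999808913253956)), (.ofNat (nat_lit 3119070999808913253957)), (.ofNat (nat_lit 287914246136207377284))⟩,
    ⟨nat_lit 0, nat_lit 15, nat_lit 14, (.ofNat (nat_lit 8)), (.negSucc (nat_lit 538722175)), (.ofNat (nat_lit 3341256250847973298139898647424)), (.ofNat (nat_lit 0)), (.ofNat (nat_lit 51403942320738050739839240448)), (.negSucc (nat_lit 538722191)), (.negSucc (nat_lit 538722159)), (.ofNat (nat_lit 3119070999808913253957)), (.negSucc (nat_lit 3119070999808913253956)), (.negSucc (nat_lit 3119070999808913253956)), (.ofNat (nat_lit 3119070999808913253957)), (.ofNat (nat_lit 287914246136207377284))⟩,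
    ⟨nat_lit 0, nat_lit 6, nat_lit 15, (.ofNat (nat_lit 8)), (.negSucc (nat_lit 674742143)), (.ofNat (nat_lit 2917000313264236911221891634048)), (.ofNat (nat_lit 0)), (.ofNat (nat_lit 44876927896372875556583639296)), (.negSucc (nat_lit 674742159)), (.negSucc (nat_lit 674742127)), (.negSucc (nat_lit 3119070999808913253956)), (.ofNat (nat_lit 3119070999808913253957)), (.negSucc (nat_lit 3119070999808913253956)), (.ofNat (nat_lit 3119070999808913253957)), (.ofNat (nat_lit 287914246136207377284))⟩,
    ⟨nat_lit 0, nat_lit 23, nat_lit 16, (.ofNat (nat_lit 8)), (.negSucc (nat_lit 91029503)), (.ofNat (nat_lit 517773770790039110974792129920)), (.ofNat (nat_lit 0)), (.ofNat (nat_lit 7965750319846755553338307840)), (.negSucc (nat_lit 91029519)), (.negSucc (nat_lit 91029487)), (.negSucc (nat_lit 3119070999808913253956)), (.ofNat (nat_lit 3119070999808913253957)), (.negSucc (nat_lit 3119070999808913253956)), (.ofNat (nat_lit 3119070999808913253957)), (.ofNat (nat_lit 287914246136207377284))⟩,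
    ⟨nat_lit 1, nat_lit 16, nat_lit 17, (.ofNat (nat_lit 8)), (.ofNat (nat_lit 649248256)), (.ofNat (nat_lit 2826752663809541842648391226240)), (.ofNat (nat_lit 0)), (.ofNat (nat_lit 43488502520146797578550708480)), (.ofNat (nat_lit 649248240)), (.ofNat (nat_lit 649248272)), (.ofNat (nat_lit 3119070999808913253957)), (.negSucc (nat_lit 3119070999808913253956)), (.negSucc (nat_lit 3119070999808913253956)), (.ofNat (nat_lit 3119070999808913253957)), (.ofNat (nat_lit 287914246136207377284))⟩,
    ⟨nat_lit 0, nat_lit 18, nat_lit 17, (.ofNat (nat_lit 8)), (.ofNat (nat_lit 80920384)), (.ofNat (nat_lit 4599407647747853918902368615744)), (.ofNat (nat_lit 0)), (.ofNat (nat_lit 70760117657659291058970185088)), (.ofNat (nat_lit 80920368)), (.ofNat (nat_lit 80920400)), (.ofNat (nat_lit 3119070999808913253957)), (.negSucc (nat_lit 3119070999808913253956)), (.negSucc (nat_lit 3119070999808913253956)), (.ofNat (nat_lit 3119070999808913253957)), (.ofNat (nat_lit 287914246136207377284))⟩,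
    ⟨nat_lit 0, nat_lit 19, nat_lit 18, (.ofNat (nat_lit 8)), (.negSucc (nat_lit 521027455)), (.ofNat (nat_lit 2721889596606238172935581012864)), (.ofNat (nat_lit 0)), (.ofNat (nat_lit 41875224563172894967608707328)), (.negSucc (nat_lit 521027471)), (.negSucc (nat_lit 521027439)), (.negSucc (nat_lit 3119070999808913253956)), (.ofNat (nat_lit 3119070999808913253957)), (.negSucc (nat_lit 3119070999808913253956)), (.ofNat (nat_lit 3119070999808913253957)), (.ofNat (nat_lit 287914246136207377284))⟩,
    ⟨nat_lit 2, nat_lit 19, nat_lit 20, (.ofNat (nat_lit 8)), (.negSucc (nat_lit 673464191)), (.ofNat (nat_lit 3197350599169365533075925177216)), (.ofNat (nat_lit 0)), (.ofNat (nat_lit 49190009217990238969657624832)), (.negSucc (nat_lit 673464207)), (.negSucc (nat_lit 673464175)), (.negSucc (nat_lit 3119070999808913253956)), (.ofNat (nat_lit 3119070999808913253957)), (.negSucc (nat_lit 3119070999808913253956)), (.ofNat (nat_lit 3119070999808913253957)), (.ofNat (nat_lit 287914246136207377284))⟩,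
    ⟨nat_lit 0, nat_lit 20, nat_lit 21, (.ofNat (nat_lit 8)), (.negSucc (nat_lit 252395583)), (.ofNat (nat_lit 4510693483312072902912349659072)), (.ofNat (nat_lit 0)), (.ofNat (nat_lit 69395284358647275428375074944)), (.negSucc (nat_lit 252395599)), (.negSucc (nat_lit 252395567)), (.ofNat (nat_lit 3119070999808913253957)), (.negSucc (nat_lit 3119070999808913253956)), (.negSucc (nat_lit 3119070999808913253956)), (.ofNat (nat_lit 3119070999808913253957)), (.ofNat (nat_lit 287914246136207377284))⟩,
    ⟨nat_lit 0, nat_lit 22, nat_lit 12, (.ofNat (nat_lit 8)), (.negSucc (nat_lit 190529535)), (.ofNat (nat_lit 3041384672705192628610283475840)), (.ofNat (nat_lit 0)), (.ofNat (nat_lit 46790533426233732747145447680)), (.negSucc (nat_lit 190529551)), (.negSucc (nat_lit 190529519)), (.ofNat (nat_lit 3119070999808913253957)), (.negSucc (nat_lit 3119070999808913253956)), (.negSucc (nat_lit 3119070999808913253956)), (.ofNat (nat_lit 3119070999808913253957)), (.ofNat (nat_lit 287914246136207377284))⟩,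
    ⟨nat_lit 2, nat_lit 23, nat_lit 7, (.ofNat (nat_lit 8)), (.negSucc (nat_lit 745733823)), (.ofNat (nat_lit 2559843028751653792845697124160)), (.ofNat (nat_lit 0)), (.ofNat (nat_lit 39382200442333135273955752320)), (.negSucc (nat_lit 745733839)), (.negSucc (nat_lit 745733807)), (.negSucc (nat_lit 3119070999808913253956)), (.ofNat (nat_lit 3119070999808913253957)), (.negSucc (nat_lit 3119070999808913253956)), (.ofNat (nat_lit 3119070999808913253957)), (.ofNat (nat_lit 287914246136207377284))⟩]
  es := [
    ⟨nat_lit 1, nat_lit 0, (.negSucc (nat_lit 815464127)), (.negSucc (nat_lit 524877567)), (.negSucc (nat_lit 815464111)), (.negSucc (nat_lit 524877583)), (.negSucc (nat_lit 3119070999808913253956)), (.negSucc (nat_lit 47985707689367896213)), (.ofNat (nat_lit 5559984945411988501933569280))⟩,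
    ⟨nat_lit 1, nat_lit 2, (.negSucc (nat_lit 815464127)), (.negSucc (nat_lit 671170431)), (.negSucc (nat_lit 815464111)), (.negSucc (nat_lit 671170447)), (.ofNat (nat_lit 3119070999808913253957)), (.ofNat (nat_lit 47985707689367896214)), (.ofNat (nat_lit 83821231500158561216621592064))⟩,
    ⟨nat_lit 2, nat_lit 3, (.negSucc (nat_lit 671170431)), (.negSucc (nat_lit 518733695)), (.negSucc (nat_lit 671170415)), (.negSucc (nat_lit 518733711)), (.negSucc (nat_lit 3119070999808913253956)), (.negSucc (nat_lit 47985707689367896213)), (.ofNat (nat_lit 19408055180761015798858503168))⟩,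
    ⟨nat_lit 3, nat_lit 4, (.negSucc (nat_lit 518733695)), (.ofNat (nat_lit 109625152)), (.negSucc (nat_lit 518733679)), (.ofNat (nat_lit 109625136)), (.ofNat (nat_lit 3119070999808913253957)), (.ofNat (nat_lit 47985707689367896214)), (.ofNat (nat_lit 69191662190523873212523757056))⟩,
    ⟨nat_lit 5, nat_lit 4, (.negSucc (nat_lit 66928831)), (.ofNat (nat_lit 109625152)), (.negSucc (nat_lit 66928815)), (.ofNat (nat_lit 109625136)), (.negSucc (nat_lit 3119070999808913253956)), (.negSucc (nat_lit 47985707689367896213)), (.ofNat (nat_lit 79712543189072922025283706112))⟩,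
    ⟨nat_lit 6, nat_lit 5, (.negSucc (nat_lit 767278975)), (.negSucc (nat_lit 66928831)), (.negSucc (nat_lit 767278959)), (.negSucc (nat_lit 66928847)), (.ofNat (nat_lit 3119070999808913253957)), (.ofNat (nat_lit 47985707689367896214)), (.ofNat (nat_lit 86135797925758546249084190208))⟩,
    ⟨nat_lit 6, nat_lit 15, (.negSucc (nat_lit 767278975)), (.negSucc (nat_lit 674742143)), (.negSucc (nat_lit 767278959)), (.negSucc (nat_lit 674742159)), (.negSucc (nat_lit 3119070999808913253956)), (.negSucc (nat_lit 47985707689367896213)), (.ofNat (nat_lit 12498948608691495260379796480))⟩,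
    ⟨nat_lit 23, nat_lit 7, (.negSucc (nat_lit 745733823)), (.negSucc (nat_lit 529940351)), (.negSucc (nat_lit 745733807)), (.negSucc (nat_lit 529940367)), (.ofNat (nat_lit 3119070999808913253957)), (.ofNat (nat_lit 47985707689367896214)), (.ofNat (nat_lit 75166765734871660660457094656))⟩,
    ⟨nat_lit 7, nat_lit 8, (.negSucc (nat_lit 529940351)), (.ofNat (nat_lit 232308480)), (.negSucc (nat_lit 529940335)), (.ofNat (nat_lit 232308464)), (.negSucc (nat_lit 3119070999808913253956)), (.negSucc (nat_lit 47985707689367896213)), (.ofNat (nat_lit 24307640087126201506163840000))⟩,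
    ⟨nat_lit 8, nat_lit 9, (.ofNat (nat_lit 232308480)), (.ofNat (nat_lit 783203776)), (.ofNat (nat_lit 232308496)), (.ofNat (nat_lit 783203760)), (.ofNat (nat_lit 3119070999808913253957)), (.ofNat (nat_lit 47985707689367896214)), (.ofNat (nat_lit 2012666457043465245619650560))⟩,
    ⟨nat_lit 10, nat_lit 9, (.ofNat (nat_lit 455851648)), (.ofNat (nat_lit 783203776)), (.ofNat (nat_lit 455851664)), (.ofNat (nat_lit 783203760)), (.negSucc (nat_lit 3119070999808913253956)), (.negSucc (nat_lit 47985707689367896213)), (.ofNat (nat_lit 77177841369733807981581458688))⟩,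
    ⟨nat_lit 11, nat_lit 10, (.ofNat (nat_lit 248561408)), (.ofNat (nat_lit 455851648)), (.ofNat (nat_lit 248561536)), (.ofNat (nat_lit 455851632)), (.ofNat (nat_lit 3119070999808913253957)), (.ofNat (nat_lit 47985707689367896214)), (.ofNat (nat_lit 33429113508444552846691737344))⟩,
    ⟨nat_lit 22, nat_lit 12, (.negSucc (nat_lit 190529535)), (.ofNat (nat_lit 27180928)), (.negSucc (nat_lit 190529519)), (.ofNat (nat_lit 27180912)), (.negSucc (nat_lit 3119070999808913253956)), (.negSucc (nat_lit 47985707689367896213)), (.ofNat (nat_lit 37647838805546835348195870976))⟩,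
    ⟨nat_lit 13, nat_lit 12, (.negSucc (nat_lit 98844735)), (.ofNat (nat_lit 27180928)), (.negSucc (nat_lit 98844719)), (.ofNat (nat_lit 27180912)), (.ofNat (nat_lit 3119070999808913253957)), (.ofNat (nat_lit 47985707689367896214)), (.ofNat (nat_lit 35039246674079325043187457792))⟩,
    ⟨nat_lit 14, nat_lit 13, (.negSucc (nat_lit 538722175)), (.negSucc (nat_lit 98844735)), (.negSucc (nat_lit 538722159)), (.negSucc (nat_lit 98844751)), (.negSucc (nat_lit 3119070999808913253956)), (.negSucc (nat_lit 47985707689367896213)), (.ofNat (nat_lit 25552977457421845626890998784))⟩,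
    ⟨nat_lit 15, nat_lit 14, (.negSucc (nat_lit 674742143)), (.negSucc (nat_lit 538722175)), (.negSucc (nat_lit 674742127)), (.negSucc (nat_lit 538722191)), (.ofNat (nat_lit 3119070999808913253957)), (.ofNat (nat_lit 47985707689367896214)), (.ofNat (nat_lit 77254907184054255852787482112))⟩,
    ⟨nat_lit 16, nat_lit 17, (.negSucc (nat_lit 91029503)), (.ofNat (nat_lit 649248256)), (.negSucc (nat_lit 91029487)), (.ofNat (nat_lit 649248240)), (.ofNat (nat_lit 3119070999808913253957)), (.ofNat (nat_lit 47985707689367896214)), (.ofNat (nat_lit 12333865489898901219222205696))⟩,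
    ⟨nat_lit 18, nat_lit 17, (.ofNat (nat_lit 80920384)), (.ofNat (nat_lit 649248256)), (.ofNat (nat_lit 80920400)), (.ofNat (nat_lit 649248240)), (.negSucc (nat_lit 3119070999808913253956)), (.negSucc (nat_lit 47985707689367896213)), (.ofNat (nat_lit 74643139550394693937879211264))⟩,
    ⟨nat_lit 19, nat_lit 18, (.negSucc (nat_lit 521027455)), (.ofNat (nat_lit 80920384)), (.negSucc (nat_lit 521027439)), (.ofNat (nat_lit 80920368)), (.ofNat (nat_lit 3119070999808913253957)), (.ofNat (nat_lit 47985707689367896214)), (.ofNat (nat_lit 66877095764923888180061158912))⟩,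
    ⟨nat_lit 20, nat_lit 19, (.negSucc (nat_lit 673464191)), (.negSucc (nat_lit 521027455)), (.negSucc (nat_lit 673464175)), (.negSucc (nat_lit 521027471)), (.negSucc (nat_lit 3119070999808913253956)), (.negSucc (nat_lit 47985707689367896213)), (.ofNat (nat_lit 16873353361421901755156255744))⟩,
    ⟨nat_lit 20, nat_lit 21, (.negSucc (nat_lit 673464191)), (.negSucc (nat_lit 252395583)), (.negSucc (nat_lit 673464175)), (.negSucc (nat_lit 252395599)), (.ofNat (nat_lit 3119070999808913253957)), (.ofNat (nat_lit 47985707689367896214)), (.ofNat (nat_lit 81506665074558576184158993920))⟩,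
    ⟨nat_lit 21, nat_lit 11, (.negSucc (nat_lit 252395583)), (.ofNat (nat_lit 248561408)), (.negSucc (nat_lit 252395567)), (.ofNat (nat_lit 248561280)), (.negSucc (nat_lit 3119070999808913253956)), (.negSucc (nat_lit 47985707689367896213)), (.ofNat (nat_lit 57283903642735974672591155968))⟩,
    ⟨nat_lit 0, nat_lit 22, (.negSucc (nat_lit 524877567)), (.negSucc (nat_lit 190529535)), (.negSucc (nat_lit 524877551)), (.negSucc (nat_lit 190529551)), (.ofNat (nat_lit 3119070999808913253957)), (.ofNat (nat_lit 47985707689367896214)), (.ofNat (nat_lit 55933228046920630146095024384))⟩,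
    ⟨nat_lit 23, nat_lit 16, (.negSucc (nat_lit 745733823)), (.negSucc (nat_lit 91029503)), (.negSucc (nat_lit 745733807)), (.negSucc (nat_lit 91029519)), (.negSucc (nat_lit 3119070999808913253956)), (.negSucc (nat_lit 47985707689367896213)), (.ofNat (nat_lit 3597635149794609887454409984))⟩]

theorem ok57 : stOK 23 23 S57 = true := by decide +kernel

def S58 : SD where
  vs := [
    ⟨nat_lit 0, nat_lit 0, nat_lit 22, (.ofNat (nat_lit 8)), (.negSucc (nat_lit 524877567)), (.ofNat (nat_lit 2029276028746976415415058610048)), (.ofNat (nat_lit 0)), (.ofNat (nat_lit 30746606496166309324014296832)), (.negSucc (nat_lit 524877583)), (.negSucc (nat_lit 524877551)), (.negSucc (nat_lit 3167056707498281150170)), (.ofNat (nat_lit 3167056707498281150171)), (.negSucc (nat_lit 3167056707498281150170)), (.ofNat (nat_lit 3167056707498281150171)), (.ofNat (nat_lit 287914246136207377284))⟩,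
    ⟨nat_lit 2, nat_lit 0, nat_lit 1, (.ofNat (nat_lit 8)), (.negSucc (nat_lit 815464127)), (.ofNat (nat_lit 2949580142703828140756092911808)), (.ofNat (nat_lit 0)), (.ofNat (nat_lit 44690608222785274859277580672)), (.negSucc (nat_lit 815464143)), (.negSucc (nat_lit 815464111)), (.negSucc (nat_lit 3167056707498281150170)), (.ofNat (nat_lit 3167056707498281150171)), (.negSucc (nat_lit 3167056707498281150170)), (.ofNat (nat_lit 3167056707498281150171)), (.ofNat (nat_lit 287914246136207377284))⟩,
    ⟨nat_lit 0, nat_lit 1, nat_lit 2, (.ofNat (nat_lit 8)), (.negSucc (nat_lit 671170431)), (.ofNat (nat_lit 3406566460470346041561397533824)), (.ofNat (nat_lit 0)), (.ofNat (nat_lit 51614643340459788507740047616)), (.negSucc (nat_lit 671170447)), (.negSucc (nat_lit 671170415)), (.ofNat (nat_lit 3167056707498281150171)), (.negSucc (nat_lit 3167056707498281150170)), (.negSucc (nat_lit 3167056707498281150170)), (.ofNat (nat_lit 3167056707498281150171)), (.ofNat (nat_lit 287914246136207377284))⟩,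
    ⟨nat_lit 0, nat_lit 2, nat_lit 3, (.ofNat (nat_lit 8)), (.negSucc (nat_lit 518733695)), (.ofNat (nat_lit 2923790673252401337419004451968)), (.ofNat (nat_lit 0)), (.ofNat (nat_lit 44299858685642444505691130112)), (.negSucc (nat_lit 518733711)), (.negSucc (nat_lit 518733679)), (.negSucc (nat_lit 3167056707498281150170)), (.ofNat (nat_lit 3167056707498281150171)), (.negSucc (nat_lit 3167056707498281150170)), (.ofNat (nat_lit 3167056707498281150171)), (.ofNat (nat_lit 287914246136207377284))⟩,
    ⟨nat_lit 1, nat_lit 3, nat_lit 4, (.ofNat (nat_lit 8)), (.ofNat (nat_lit 109625152)), (.ofNat (nat_lit 4913838777526694242920569014976)), (.ofNat (nat_lit 0)), (.ofNat (nat_lit 74452102689798397618903731584)), (.ofNat (nat_lit 109625136)), (.ofNat (nat_lit 109625168)), (.ofNat (nat_lit 3167056707498281150171)), (.negSucc (nat_lit 3167056707498281150170)), (.negSucc (nat_lit 3167056707498281150170)), (.ofNat (nat_lit 3167056707498281150171)), (.ofNat (nat_lit 287914246136207377284))⟩,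
    ⟨nat_lit 0, nat_lit 5, nat_lit 4, (.ofNat (nat_lit 8)), (.negSucc (nat_lit 66928831)), (.ofNat (nat_lit 5472995256789438453135361346240)), (.ofNat (nat_lit 0)), (.ofNat (nat_lit 82924170557415734137183948160)), (.negSucc (nat_lit 66928847)), (.negSucc (nat_lit 66928815)), (.ofNat (nat_lit 3167056707498281150171)), (.negSucc (nat_lit 3167056707498281150170)), (.negSucc (nat_lit 3167056707498281150170)), (.ofNat (nat_lit 3167056707498281150171)), (.ofNat (nat_lit 287914246136207377284))⟩,
    ⟨nat_lit 2, nat_lit 6, nat_lit 5, (.ofNat (nat_lit 8)), (.negSucc (nat_lit 767278975)), (.ofNat (nat_lit 3254946635636851369860615871616)), (.ofNat (nat_lit 0)), (.ofNat (nat_lit 49317373267225020754731993344)), (.negSucc (nat_lit 767278991)), (.negSucc (nat_lit 767278959)), (.negSucc (nat_lit 3167056707498281150170)), (.ofNat (nat_lit 3167056707498281150171)), (.negSucc (nat_lit 3167056707498281150170)), (.ofNat (nat_lit 3167056707498281150171)), (.ofNat (nat_lit 287914246136207377284))⟩,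
    ⟨nat_lit 0, nat_lit 7, nat_lit 8, (.ofNat (nat_lit 8)), (.negSucc (nat_lit 529940351)), (.ofNat (nat_lit 3282655392125929451547206360192)), (.ofNat (nat_lit 0)), (.ofNat (nat_lit 49737202910998931083310467328)), (.negSucc (nat_lit 529940367)), (.negSucc (nat_lit 529940335)), (.ofNat (nat_lit 3167056707498281150171)), (.negSucc (nat_lit 3167056707498281150170)), (.negSucc (nat_lit 3167056707498281150170)), (.ofNat (nat_lit 3167056707498281150171)), (.ofNat (nat_lit 287914246136207377284))⟩,
    ⟨nat_lit 0, nat_lit 8, nat_lit 9, (.ofNat (nat_lit 8)), (.ofNat (nat_lit 232308480)), (.ofNat (nat_lit 868570115957599002821745009920)), (.ofNat (nat_lit 0)), (.ofNat (nat_lit 13160153272084833375891745280)), (.ofNat (nat_lit 232308464)), (.ofNat (nat_lit 232308496)), (.negSucc (nat_lit 3167056707498281150170)), (.ofNat (nat_lit 3167056707498281150171)), (.negSucc (nat_lit 3167056707498281150170)), (.ofNat (nat_lit 3167056707498281150171)), (.ofNat (nat_lit 287914246136207377284))⟩,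
    ⟨nat_lit 1, nat_lit 9, nat_lit 10, (.ofNat (nat_lit 8)), (.ofNat (nat_lit 783203776)), (.ofNat (nat_lit 2613286758283650016536418505536)), (.ofNat (nat_lit 0)), (.ofNat (nat_lit 39595253913388636613600554624)), (.ofNat (nat_lit 783203760)), (.ofNat (nat_lit 783203792)), (.ofNat (nat_lit 3167056707498281150171)), (.negSucc (nat_lit 3167056707498281150170)), (.negSucc (nat_lit 3167056707498281150170)), (.ofNat (nat_lit 3167056707498281150171)), (.ofNat (nat_lit 287914246136207377284))⟩,
    ⟨nat_lit 0, nat_lit 11, nat_lit 10, (.ofNat (nat_lit 8)), (.ofNat (nat_lit 455851648)), (.ofNat (nat_lit 3650029510979885907387182919424)), (.ofNat (nat_lit 0)), (.ofNat (nat_lit 55303477439089180414136598016)), (.ofNat (nat_lit 455851632)), (.ofNat (nat_lit 455851664)), (.ofNat (nat_lit 3167056707498281150171)), (.negSucc (nat_lit 3167056707498281150170)), (.negSucc (nat_lit 3167056707498281150170)), (.ofNat (nat_lit 3167056707498281150171)), (.ofNat (nat_lit 287914246136207377284))⟩,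
    ⟨nat_lit 0, nat_lit 21, nat_lit 11, (.ofNat (nat_lit 64)), (.ofNat (nat_lit 248561408)), (.ofNat (nat_lit 2993529565988957408180760288384)), (.ofNat (nat_lit 0)), (.ofNat (nat_lit 45356508575590263759641446656)), (.ofNat (nat_lit 248561280)), (.ofNat (nat_lit 248561536)), (.negSucc (nat_lit 3167056707498281150170)), (.ofNat (nat_lit 3167056707498281150171)), (.negSucc (nat_lit 3167056707498281150170)), (.ofNat (nat_lit 3167056707498281150171)), (.ofNat (nat_lit 287914246136207377284))⟩,
    ⟨nat_lit 1, nat_lit 13, nat_lit 12, (.ofNat (nat_lit 8)), (.ofNat (nat_lit 27180928)), (.ofNat (nat_lit 2398673820827663292951246834176)), (.ofNat (nat_lit 0)), (.ofNat (nat_lit 36343542739813080195691664384)), (.ofNat (nat_lit 27180912)), (.ofNat (nat_lit 27180944)), (.ofNat (nat_lit 3167056707498281150171)), (.negSucc (nat_lit 3167056707498281150170)), (.negSucc (nat_lit 3167056707498281150170)), (.ofNat (nat_lit 3167056707498281150171)), (.ofNat (nat_lit 287914246136207377284))⟩,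
    ⟨nat_lit 0, nat_lit 14, nat_lit 13, (.ofNat (nat_lit 8)), (.negSucc (nat_lit 98844735)), (.ofNat (nat_lit 1999543396339538632142262845632)), (.ofNat (nat_lit 0)), (.ofNat (nat_lit 30296112065750585335039228288)), (.negSucc (nat_lit 98844751)), (.negSucc (nat_lit 98844719)), (.negSucc (nat_lit 3167056707498281150170)), (.ofNat (nat_lit 3167056707498281150171)), (.negSucc (nat_lit 3167056707498281150170)), (.ofNat (nat_lit 3167056707498281150171)), (.ofNat (nat_lit 287914246136207377284))⟩,
    ⟨nat_lit 0, nat_lit 15, nat_lit 14, (.ofNat (nat_lit 8)), (.negSucc (nat_lit 538722175)), (.ofNat (nat_lit 3392660193168711348879737887872)), (.ofNat (nat_lit 0)), (.ofNat (nat_lit 51403942320738050739839240448)), (.negSucc (nat_lit 538722191)), (.negSucc (nat_lit 538722159)), (.ofNat (nat_lit 3167056707498281150171)), (.negSucc (nat_lit 3167056707498281150170)), (.negSucc (nat_lit 3167056707498281150170)), (.ofNat (nat_lit 3167056707498281150171)), (.ofNat (nat_lit 287914246136207377284))⟩,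
    ⟨nat_lit 0, nat_lit 6, nat_lit 15, (.ofNat (nat_lit 8)), (.negSucc (nat_lit 674742143)), (.ofNat (nat_lit 2961877241160609786778475273344)), (.ofNat (nat_lit 0)), (.ofNat (nat_lit 44876927896372875556583639296)), (.negSucc (nat_lit 674742159)), (.negSucc (nat_lit 674742127)), (.negSucc (nat_lit 3167056707498281150170)), (.ofNat (nat_lit 3167056707498281150171)), (.negSucc (nat_lit 3167056707498281150170)), (.ofNat (nat_lit 3167056707498281150171)), (.ofNat (nat_lit 287914246136207377284))⟩,
    ⟨nat_lit 0, nat_lit 23, nat_lit 16, (.ofNat (nat_lit 8)), (.negSucc (nat_lit 91029503)), (.ofNat (nat_lit 525739521109885866528130437760)), (.ofNat (nat_lit 0)), (.ofNat (nat_lit 7965750319846755553338307840)), (.negSucc (nat_lit 91029519)), (.negSucc (nat_lit 91029487)), (.negSucc (nat_lit 3167056707498281150170)), (.ofNat (nat_lit 3167056707498281150171)), (.negSucc (nat_lit 3167056707498281150170)), (.ofNat (nat_lit 3167056707498281150171)), (.ofNat (nat_lit 287914246136207377284))⟩,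
    ⟨nat_lit 1, nat_lit 16, nat_lit 17, (.ofNat (nat_lit 8)), (.ofNat (nat_lit 649248256)), (.ofNat (nat_lit 2870241166329688640226941934720)), (.ofNat (nat_lit 0)), (.ofNat (nat_lit 43488502520146797578550708480)), (.ofNat (nat_lit 649248240)), (.ofNat (nat_lit 649248272)), (.ofNat (nat_lit 3167056707498281150171)), (.negSucc (nat_lit 3167056707498281150170)), (.negSucc (nat_lit 3167056707498281150170)), (.ofNat (nat_lit 3167056707498281150171)), (.ofNat (nat_lit 287914246136207377284))⟩,
    ⟨nat_lit 0, nat_lit 18, nat_lit 17, (.ofNat (nat_lit 8)), (.ofNat (nat_lit 80920384)), (.ofNat (nat_lit 4670167765405513209961338800832)), (.ofNat (nat_lit 0)), (.ofNat (nat_lit 70760117657659291058970185088)), (.ofNat (nat_lit 80920368)), (.ofNat (nat_lit 80920400)), (.ofNat (nat_lit 3167056707498281150171)), (.negSucc (nat_lit 3167056707498281150170)), (.negSucc (nat_lit 3167056707498281150170)), (.ofNat (nat_lit 3167056707498281150171)), (.ofNat (nat_lit 287914246136207377284))⟩,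
    ⟨nat_lit 0, nat_lit 19, nat_lit 18, (.ofNat (nat_lit 8)), (.negSucc (nat_lit 521027455)), (.ofNat (nat_lit 2763764821169411067903189720192)), (.ofNat (nat_lit 0)), (.ofNat (nat_lit 41875224563172894967608707328)), (.negSucc (nat_lit 521027471)), (.negSucc (nat_lit 521027439)), (.negSucc (nat_lit 3167056707498281150170)), (.ofNat (nat_lit 3167056707498281150171)), (.negSucc (nat_lit 3167056707498281150170)), (.ofNat (nat_lit 3167056707498281150171)), (.ofNat (nat_lit 287914246136207377284))⟩,
    ⟨nat_lit 2, nat_lit 19, nat_lit 20, (.ofNat (nat_lit 8)), (.negSucc (nat_lit 673464191)), (.ofNat (nat_lit 3246540608387355772045582802048)), (.ofNat (nat_lit 0)), (.ofNat (nat_lit 49190009217990238969657624832)), (.negSucc (nat_lit 673464207)), (.negSucc (nat_lit 673464175)), (.negSucc (nat_lit 3167056707498281150170)), (.ofNat (nat_lit 3167056707498281150171)), (.negSucc (nat_lit 3167056707498281150170)), (.ofNat (nat_lit 3167056707498281150171)), (.ofNat (nat_lit 287914246136207377284))⟩,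
    ⟨nat_lit 0, nat_lit 20, nat_lit 21, (.ofNat (nat_lit 8)), (.negSucc (nat_lit 252395583)), (.ofNat (nat_lit 4580088767670720178340724734016)), (.ofNat (nat_lit 0)), (.ofNat (nat_lit 69395284358647275428375074944)), (.negSucc (nat_lit 252395599)), (.negSucc (nat_lit 252395567)), (.ofNat (nat_lit 3167056707498281150171)), (.negSucc (nat_lit 3167056707498281150170)), (.negSucc (nat_lit 3167056707498281150170)), (.ofNat (nat_lit 3167056707498281150171)), (.ofNat (nat_lit 287914246136207377284))⟩,
    ⟨nat_lit 0, nat_lit 22, nat_lit 12, (.ofNat (nat_lit 8)), (.negSucc (nat_lit 190529535)), (.ofNat (nat_lit 3088175206131426361357428923520)), (.ofNat (nat_lit 0)), (.ofNat (nat_lit 46790533426233732747145447680)), (.negSucc (nat_lit 190529551)), (.negSucc (nat_lit 190529519)), (.ofNat (nat_lit 3167056707498281150171)), (.negSucc (nat_lit 3167056707498281150170)), (.negSucc (nat_lit 3167056707498281150170)), (.ofNat (nat_lit 3167056707498281150171)), (.ofNat (nat_lit 287914246136207377284))⟩,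
    ⟨nat_lit 2, nat_lit 23, nat_lit 7, (.ofNat (nat_lit 8)), (.negSucc (nat_lit 745733823)), (.ofNat (nat_lit 2599225229193986928119652876480)), (.ofNat (nat_lit 0)), (.ofNat (nat_lit 39382200442333135273955752320)), (.negSucc (nat_lit 745733839)), (.negSucc (nat_lit 745733807)), (.negSucc (nat_lit 3167056707498281150170)), (.ofNat (nat_lit 3167056707498281150171)), (.negSucc (nat_lit 3167056707498281150170)), (.ofNat (nat_lit 3167056707498281150171)), (.ofNat (nat_lit 287914246136207377284))⟩]
  es := [
    ⟨nat_lit 1, nat_lit 0, (.negSucc (nat_lit 815464127)), (.negSucc (nat_lit 524877567)), (.negSucc (nat_lit 815464111)), (.negSucc (nat_lit 524877583)), (.negSucc (nat_lit 3167056707498281150170)), (.negSucc (nat_lit 47985707689367896213)), (.ofNat (nat_lit 5559984945411988501933569280))⟩,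
    ⟨nat_lit 1, nat_lit 2, (.negSucc (nat_lit 815464127)), (.negSucc (nat_lit 671170431)), (.negSucc (nat_lit 815464111)), (.negSucc (nat_lit 671170447)), (.ofNat (nat_lit 3167056707498281150171)), (.ofNat (nat_lit 47985707689367896214)), (.ofNat (nat_lit 83821231500158561216621592064))⟩,
    ⟨nat_lit 2, nat_lit 3, (.negSucc (nat_lit 671170431)), (.negSucc (nat_lit 518733695)), (.negSucc (nat_lit 671170415)), (.negSucc (nat_lit 518733711)), (.negSucc (nat_lit 3167056707498281150170)), (.negSucc (nat_lit 47985707689367896213)), (.ofNat (nat_lit 19408055180761015798858503168))⟩,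
    ⟨nat_lit 3, nat_lit 4, (.negSucc (nat_lit 518733695)), (.ofNat (nat_lit 109625152)), (.negSucc (nat_lit 518733679)), (.ofNat (nat_lit 109625136)), (.ofNat (nat_lit 3167056707498281150171)), (.ofNat (nat_lit 47985707689367896214)), (.ofNat (nat_lit 69191662190523873212523757056))⟩,
    ⟨nat_lit 5, nat_lit 4, (.negSucc (nat_lit 66928831)), (.ofNat (nat_lit 109625152)), (.negSucc (nat_lit 66928815)), (.ofNat (nat_lit 109625136)), (.negSucc (nat_lit 3167056707498281150170)), (.negSucc (nat_lit 47985707689367896213)), (.ofNat (nat_lit 79712543189072922025283706112))⟩,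
    ⟨nat_lit 6, nat_lit 5, (.negSucc (nat_lit 767278975)), (.negSucc (nat_lit 66928831)), (.negSucc (nat_lit 767278959)), (.negSucc (nat_lit 66928847)), (.ofNat (nat_lit 3167056707498281150171)), (.ofNat (nat_lit 47985707689367896214)), (.ofNat (nat_lit 86135797925758546249084190208))⟩,
    ⟨nat_lit 6, nat_lit 15, (.negSucc (nat_lit 767278975)), (.negSucc (nat_lit 674742143)), (.negSucc (nat_lit 767278959)), (.negSucc (nat_lit 674742159)), (.negSucc (nat_lit 3167056707498281150170)), (.negSucc (nat_lit 47985707689367896213)), (.ofNat (nat_lit 12498948608691495260379796480))⟩,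
    ⟨nat_lit 23, nat_lit 7, (.negSucc (nat_lit 745733823)), (.negSucc (nat_lit 529940351)), (.negSucc (nat_lit 745733807)), (.negSucc (nat_lit 529940367)), (.ofNat (nat_lit 3167056707498281150171)), (.ofNat (nat_lit 47985707689367896214)), (.ofNat (nat_lit 75166765734871660660457094656))⟩,
    ⟨nat_lit 7, nat_lit 8, (.negSucc (nat_lit 529940351)), (.ofNat (nat_lit 232308480)), (.negSucc (nat_lit 529940335)), (.ofNat (nat_lit 232308464)), (.negSucc (nat_lit 3167056707498281150170)), (.negSucc (nat_lit 47985707689367896213)), (.ofNat (nat_lit 24307640087126201506163840000))⟩,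
    ⟨nat_lit 8, nat_lit 9, (.ofNat (nat_lit 232308480)), (.ofNat (nat_lit 783203776)), (.ofNat (nat_lit 232308496)), (.ofNat (nat_lit 783203760)), (.ofNat (nat_lit 3167056707498281150171)), (.ofNat (nat_lit 47985707689367896214)), (.ofNat (nat_lit 2012666457043465245619650560))⟩,
    ⟨nat_lit 10, nat_lit 9, (.ofNat (nat_lit 455851648)), (.ofNat (nat_lit 783203776)), (.ofNat (nat_lit 455851664)), (.ofNat (nat_lit 783203760)), (.negSucc (nat_lit 3167056707498281150170)), (.negSucc (nat_lit 47985707689367896213)), (.ofNat (nat_lit 77177841369733807981581458688))⟩,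
    ⟨nat_lit 11, nat_lit 10, (.ofNat (nat_lit 248561408)), (.ofNat (nat_lit 455851648)), (.ofNat (nat_lit 248561536)), (.ofNat (nat_lit 455851632)), (.ofNat (nat_lit 3167056707498281150171)), (.ofNat (nat_lit 47985707689367896214)), (.ofNat (nat_lit 33429113508444552846691737344))⟩,
    ⟨nat_lit 22, nat_lit 12, (.negSucc (nat_lit 190529535)), (.ofNat (nat_lit 27180928)), (.negSucc (nat_lit 190529519)), (.ofNat (nat_lit 27180912)), (.negSucc (nat_lit 3167056707498281150170)), (.negSucc (nat_lit 47985707689367896213)), (.ofNat (nat_lit 37647838805546835348195870976))⟩,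
    ⟨nat_lit 13, nat_lit 12, (.negSucc (nat_lit 98844735)), (.ofNat (nat_lit 27180928)), (.negSucc (nat_lit 98844719)), (.ofNat (nat_lit 27180912)), (.ofNat (nat_lit 3167056707498281150171)), (.ofNat (nat_lit 47985707689367896214)), (.ofNat (nat_lit 35039246674079325043187457792))⟩,
    ⟨nat_lit 14, nat_lit 13, (.negSucc (nat_lit 538722175)), (.negSucc (nat_lit 98844735)), (.negSucc (nat_lit 538722159)), (.negSucc (nat_lit 98844751)), (.negSucc (nat_lit 3167056707498281150170)), (.negSucc (nat_lit 47985707689367896213)), (.ofNat (nat_lit 25552977457421845626890998784))⟩,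
    ⟨nat_lit 15, nat_lit 14, (.negSucc (nat_lit 674742143)), (.negSucc (nat_lit 538722175)), (.negSucc (nat_lit 674742127)), (.negSucc (nat_lit 538722191)), (.ofNat (nat_lit 3167056707498281150171)), (.ofNat (nat_lit 47985707689367896214)), (.ofNat (nat_lit 77254907184054255852787482112))⟩,
    ⟨nat_lit 16, nat_lit 17, (.negSucc (nat_lit 91029503)), (.ofNat (nat_lit 649248256)), (.negSucc (nat_lit 91029487)), (.ofNat (nat_lit 649248240)), (.ofNat (nat_lit 3167056707498281150171)), (.ofNat (nat_lit 47985707689367896214)), (.ofNat (nat_lit 12333865489898901219222205696))⟩,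
    ⟨nat_lit 18, nat_lit 17, (.ofNat (nat_lit 80920384)), (.ofNat (nat_lit 649248256)), (.ofNat (nat_lit 80920400)), (.ofNat (nat_lit 649248240)), (.negSucc (nat_lit 3167056707498281150170)), (.negSucc (nat_lit 47985707689367896213)), (.ofNat (nat_lit 74643139550394693937879211264))⟩,
    ⟨nat_lit 19, nat_lit 18, (.negSucc (nat_lit 521027455)), (.ofNat (nat_lit 80920384)), (.negSucc (nat_lit 521027439)), (.ofNat (nat_lit 80920368)), (.ofNat (nat_lit 3167056707498281150171)), (.ofNat (nat_lit 47985707689367896214)), (.ofNat (nat_lit 66877095764923888180061158912))⟩,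
    ⟨nat_lit 20, nat_lit 19, (.negSucc (nat_lit 673464191)), (.negSucc (nat_lit 521027455)), (.negSucc (nat_lit 673464175)), (.negSucc (nat_lit 521027471)), (.negSucc (nat_lit 3167056707498281150170)), (.negSucc (nat_lit 47985707689367896213)), (.ofNat (nat_lit 16873353361421901755156255744))⟩,
    ⟨nat_lit 20, nat_lit 21, (.negSucc (nat_lit 673464191)), (.negSucc (nat_lit 252395583)), (.negSucc (nat_lit 673464175)), (.negSucc (nat_lit 252395599)), (.ofNat (nat_lit 3167056707498281150171)), (.ofNat (nat_lit 47985707689367896214)), (.ofNat (nat_lit 81506665074558576184158993920))⟩,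
    ⟨nat_lit 21, nat_lit 11, (.negSucc (nat_lit 252395583)), (.ofNat (nat_lit 248561408)), (.negSucc (nat_lit 252395567)), (.ofNat (nat_lit 248561280)), (.negSucc (nat_lit 3167056707498281150170)), (.negSucc (nat_lit 47985707689367896213)), (.ofNat (nat_lit 57283903642735974672591155968))⟩,
    ⟨nat_lit 0, nat_lit 22, (.negSucc (nat_lit 524877567)), (.negSucc (nat_lit 190529535)), (.negSucc (nat_lit 524877551)), (.negSucc (nat_lit 190529551)), (.ofNat (nat_lit 3167056707498281150171)), (.ofNat (nat_lit 47985707689367896214)), (.ofNat (nat_lit 55933228046920630146095024384))⟩,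
    ⟨nat_lit 23, nat_lit 16, (.negSucc (nat_lit 745733823)), (.negSucc (nat_lit 91029503)), (.negSucc (nat_lit 745733807)), (.negSucc (nat_lit 91029519)), (.negSucc (nat_lit 3167056707498281150170)), (.negSucc (nat_lit 47985707689367896213)), (.ofNat (nat_lit 3597635149794609887454409984))⟩]

theorem ok58 : stOK 23 23 S58 = true := by decide +kernel

def S59 : SD where
  vs := [
    ⟨nat_lit 0, nat_lit 0, nat_lit 22, (.ofNat (nat_lit 8)), (.negSucc (nat_lit 524877567)), (.ofNat (nat_lit 2060022635243142724739072906880)), (.ofNat (nat_lit 0)), (.ofNat (nat_lit 30746606496166309324014296832)), (.negSucc (nat_lit 524877583)), (.negSucc (nat_lit 524877551)), (.negSucc (nat_lit 3215042415187649046384)), (.ofNat (nat_lit 3215042415187649046385)), (.negSucc (nat_lit 3215042415187649046384)), (.ofNat (nat_lit 3215042415187649046385)), (.ofNat (nat_lit 287914246136207377284))⟩,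
    ⟨nat_lit 2, nat_lit 0, nat_lit 1, (.ofNat (nat_lit 8)), (.negSucc (nat_lit 815464127)), (.ofNat (nat_lit 2994270750926613415615370492480)), (.ofNat (nat_lit 0)), (.ofNat (nat_lit 44690608222785274859277580672)), (.negSucc (nat_lit 815464143)), (.negSucc (nat_lit 815464111)), (.negSucc (nat_lit 3215042415187649046384)), (.ofNat (nat_lit 3215042415187649046385)), (.negSucc (nat_lit 3215042415187649046384)), (.ofNat (nat_lit 3215042415187649046385)), (.ofNat (nat_lit 287914246136207377284))⟩,
    ⟨nat_lit 0, nat_lit 1, nat_lit 2, (.ofNat (nat_lit 8)), (.negSucc (nat_lit 671170431)), (.ofNat (nat_lit 3458181103810805830069137581440)), (.ofNat (nat_lit 0)), (.ofNat (nat_lit 51614643340459788507740047616)), (.negSucc (nat_lit 671170447)), (.negSucc (nat_lit 671170415)), (.ofNat (nat_lit 3215042415187649046385)), (.negSucc (nat_lit 3215042415187649046384)), (.negSucc (nat_lit 3215042415187649046384)), (.ofNat (nat_lit 3215042415187649046385)), (.ofNat (nat_lit 287914246136207377284))⟩,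
    ⟨nat_lit 0, nat_lit 2, nat_lit 3, (.ofNat (nat_lit 8)), (.negSucc (nat_lit 518733695)), (.ofNat (nat_lit 2968090531938043781924695582080)), (.ofNat (nat_lit 0)), (.ofNat (nat_lit 44299858685642444505691130112)), (.negSucc (nat_lit 518733711)), (.negSucc (nat_lit 518733679)), (.negSucc (nat_lit 3215042415187649046384)), (.ofNat (nat_lit 3215042415187649046385)), (.negSucc (nat_lit 3215042415187649046384)), (.ofNat (nat_lit 3215042415187649046385)), (.ofNat (nat_lit 287914246136207377284))⟩,
    ⟨nat_lit 1, nat_lit 3, nat_lit 4, (.ofNat (nat_lit 8)), (.ofNat (nat_lit 109625152)), (.ofNat (nat_lit 4988290880216492640539472746560)), (.ofNat (nat_lit 0)), (.ofNat (nat_lit 74452102689798397618903731584)), (.ofNat (nat_lit 109625136)), (.ofNat (nat_lit 109625168)), (.ofNat (nat_lit 3215042415187649046385)), (.negSucc (nat_lit 3215042415187649046384)), (.negSucc (nat_lit 3215042415187649046384)), (.ofNat (nat_lit 3215042415187649046385)), (.ofNat (nat_lit 287914246136207377284))⟩,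
    ⟨nat_lit 0, nat_lit 5, nat_lit 4, (.ofNat (nat_lit 8)), (.negSucc (nat_lit 66928831)), (.ofNat (nat_lit 5555919427346854187272545294400)), (.ofNat (nat_lit 0)), (.ofNat (nat_lit 82924170557415734137183948160)), (.negSucc (nat_lit 66928847)), (.negSucc (nat_lit 66928815)), (.ofNat (nat_lit 3215042415187649046385)), (.negSucc (nat_lit 3215042415187649046384)), (.negSucc (nat_lit 3215042415187649046384)), (.ofNat (nat_lit 3215042415187649046385)), (.ofNat (nat_lit 287914246136207377284))⟩,
    ⟨nat_lit 2, nat_lit 6, nat_lit 5, (.ofNat (nat_lit 8)), (.negSucc (nat_lit 767278975)), (.ofNat (nat_lit 3304264008904076390615347864960)), (.ofNat (nat_lit 0)), (.ofNat (nat_lit 49317373267225020754731993344)), (.negSucc (nat_lit 767278991)), (.negSucc (nat_lit 767278959)), (.negSucc (nat_lit 3215042415187649046384)), (.ofNat (nat_lit 3215042415187649046385)), (.negSucc (nat_lit 3215042415187649046384)), (.ofNat (nat_lit 3215042415187649046385)), (.ofNat (nat_lit 287914246136207377284))⟩,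
    ⟨nat_lit 0, nat_lit 7, nat_lit 8, (.ofNat (nat_lit 8)), (.negSucc (nat_lit 529940351)), (.ofNat (nat_lit 3332392595036928382630516827520)), (.ofNat (nat_lit 0)), (.ofNat (nat_lit 49737202910998931083310467328)), (.negSucc (nat_lit 529940367)), (.negSucc (nat_lit 529940335)), (.ofNat (nat_lit 3215042415187649046385)), (.negSucc (nat_lit 3215042415187649046384)), (.negSucc (nat_lit 3215042415187649046384)), (.ofNat (nat_lit 3215042415187649046385)), (.ofNat (nat_lit 287914246136207377284))⟩,
    ⟨nat_lit 0, nat_lit 8, nat_lit 9, (.ofNat (nat_lit 8)), (.ofNat (nat_lit 232308480)), (.ofNat (nat_lit 881730269229683836197636755200)), (.ofNat (nat_lit 0)), (.ofNat (nat_lit 13160153272084833375891745280)), (.ofNat (nat_lit 232308464)), (.ofNat (nat_lit 232308496)), (.negSucc (nat_lit 3215042415187649046384)), (.ofNat (nat_lit 3215042415187649046385)), (.negSucc (nat_lit 3215042415187649046384)), (.ofNat (nat_lit 3215042415187649046385)), (.ofNat (nat_lit 287914246136207377284))⟩,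
    ⟨nat_lit 1, nat_lit 9, nat_lit 10, (.ofNat (nat_lit 8)), (.ofNat (nat_lit 783203776)), (.ofNat (nat_lit 2652882012197038653150019060160)), (.ofNat (nat_lit 0)), (.ofNat (nat_lit 39595253913388636613600554624)), (.ofNat (nat_lit 783203760)), (.ofNat (nat_lit 783203792)), (.ofNat (nat_lit 3215042415187649046385)), (.negSucc (nat_lit 3215042415187649046384)), (.negSucc (nat_lit 3215042415187649046384)), (.ofNat (nat_lit 3215042415187649046385)), (.ofNat (nat_lit 287914246136207377284))⟩,
    ⟨nat_lit 0, nat_lit 11, nat_lit 10, (.ofNat (nat_lit 8)), (.ofNat (nat_lit 455851648)), (.ofNat (nat_lit 3705332988418975087801319517440)), (.ofNat (nat_lit 0)), (.ofNat (nat_lit 55303477439089180414136598016)), (.ofNat (nat_lit 455851632)), (.ofNat (nat_lit 455851664)), (.ofNat (nat_lit 3215042415187649046385)), (.negSucc (nat_lit 3215042415187649046384)), (.negSucc (nat_lit 3215042415187649046384)), (.ofNat (nat_lit 3215042415187649046385)), (.ofNat (nat_lit 287914246136207377284))⟩,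
    ⟨nat_lit 0, nat_lit 21, nat_lit 11, (.ofNat (nat_lit 64)), (.ofNat (nat_lit 248561408)), (.ofNat (nat_lit 3038886074564547671940401735040)), (.ofNat (nat_lit 0)), (.ofNat (nat_lit 45356508575590263759641446656)), (.ofNat (nat_lit 248561280)), (.ofNat (nat_lit 248561536)), (.negSucc (nat_lit 3215042415187649046384)), (.ofNat (nat_lit 3215042415187649046385)), (.negSucc (nat_lit 3215042415187649046384)), (.ofNat (nat_lit 3215042415187649046385)), (.ofNat (nat_lit 287914246136207377284))⟩,
    ⟨nat_lit 1, nat_lit 13, nat_lit 12, (.ofNat (nat_lit 8)), (.ofNat (nat_lit 27180928)), (.ofNat (nat_lit 2435017363567476373146938498560)), (.ofNat (nat_lit 0)), (.ofNat (nat_lit 36343542739813080195691664384)), (.ofNat (nat_lit 27180912)), (.ofNat (nat_lit 27180944)), (.ofNat (nat_lit 3215042415187649046385)), (.negSucc (nat_lit 3215042415187649046384)), (.negSucc (nat_lit 3215042415187649046384)), (.ofNat (nat_lit 3215042415187649046385)), (.ofNat (nat_lit 287914246136207377284))⟩,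
    ⟨nat_lit 0, nat_lit 14, nat_lit 13, (.ofNat (nat_lit 8)), (.negSucc (nat_lit 98844735)), (.ofNat (nat_lit 2029839508405289217477302073920)), (.ofNat (nat_lit 0)), (.ofNat (nat_lit 30296112065750585335039228288)), (.negSucc (nat_lit 98844751)), (.negSucc (nat_lit 98844719)), (.negSucc (nat_lit 3215042415187649046384)), (.ofNat (nat_lit 3215042415187649046385)), (.negSucc (nat_lit 3215042415187649046384)), (.ofNat (nat_lit 3215042415187649046385)), (.ofNat (nat_lit 287914246136207377284))⟩,
    ⟨nat_lit 0, nat_lit 15, nat_lit 14, (.ofNat (nat_lit 8)), (.negSucc (nat_lit 538722175)), (.ofNat (nat_lit 3444064135489449399619577128320)), (.ofNat (nat_lit 0)), (.ofNat (nat_lit 51403942320738050739839240448)), (.negSucc (nat_lit 538722191)), (.negSucc (nat_lit 538722159)), (.ofNat (nat_lit 3215042415187649046385)), (.negSucc (nat_lit 3215042415187649046384)), (.negSucc (nat_lit 3215042415187649046384)), (.ofNat (nat_lit 3215042415187649046385)), (.ofNat (nat_lit 287914246136207377284))⟩,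
    ⟨nat_lit 0, nat_lit 6, nat_lit 15, (.ofNat (nat_lit 8)), (.negSucc (nat_lit 674742143)), (.ofNat (nat_lit 3006754169056982662335058912640)), (.ofNat (nat_lit 0)), (.ofNat (nat_lit 44876927896372875556583639296)), (.negSucc (nat_lit 674742159)), (.negSucc (nat_lit 674742127)), (.negSucc (nat_lit 3215042415187649046384)), (.ofNat (nat_lit 3215042415187649046385)), (.negSucc (nat_lit 3215042415187649046384)), (.ofNat (nat_lit 3215042415187649046385)), (.ofNat (nat_lit 287914246136207377284))⟩,
    ⟨nat_lit 0, nat_lit 23, nat_lit 16, (.ofNat (nat_lit 8)), (.negSucc (nat_lit 91029503)), (.ofNat (nat_lit 533705271429732622081468745600)), (.ofNat (nat_lit 0)), (.ofNat (nat_lit 7965750319846755553338307840)), (.negSucc (nat_lit 91029519)), (.negSucc (nat_lit 91029487)), (.negSucc (nat_lit 3215042415187649046384)), (.ofNat (nat_lit 3215042415187649046385)), (.negSucc (nat_lit 3215042415187649046384)), (.ofNat (nat_lit 3215042415187649046385)), (.ofNat (nat_lit 287914246136207377284))⟩,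
    ⟨nat_lit 1, nat_lit 16, nat_lit 17, (.ofNat (nat_lit 8)), (.ofNat (nat_lit 649248256)), (.ofNat (nat_lit 2913729668849835437805492643200)), (.ofNat (nat_lit 0)), (.ofNat (nat_lit 43488502520146797578550708480)), (.ofNat (nat_lit 649248240)), (.ofNat (nat_lit 649248272)), (.ofNat (nat_lit 3215042415187649046385)), (.negSucc (nat_lit 3215042415187649046384)), (.negSucc (nat_lit 3215042415187649046384)), (.ofNat (nat_lit 3215042415187649046385)), (.ofNat (nat_lit 287914246136207377284))⟩,
    ⟨nat_lit 0, nat_lit 18, nat_lit 17, (.ofNat (nat_lit 8)), (.ofNat (nat_lit 80920384)), (.ofNat (nat_lit 4740927883063172501020308985920)), (.ofNat (nat_lit 0)), (.ofNat (nat_lit 70760117657659291058970185088)), (.ofNat (nat_lit 80920368)), (.ofNat (nat_lit 80920400)), (.ofNat (nat_lit 3215042415187649046385)), (.negSucc (nat_lit 3215042415187649046384)), (.negSucc (nat_lit 3215042415187649046384)), (.ofNat (nat_lit 3215042415187649046385)), (.ofNat (nat_lit 287914246136207377284))⟩,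
    ⟨nat_lit 0, nat_lit 19, nat_lit 18, (.ofNat (nat_lit 8)), (.negSucc (nat_lit 521027455)), (.ofNat (nat_lit 2805640045732583962870798427520)), (.ofNat (nat_lit 0)), (.ofNat (nat_lit 41875224563172894967608707328)), (.negSucc (nat_lit 521027471)), (.negSucc (nat_lit 521027439)), (.negSucc (nat_lit 3215042415187649046384)), (.ofNat (nat_lit 3215042415187649046385)), (.negSucc (nat_lit 3215042415187649046384)), (.ofNat (nat_lit 3215042415187649046385)), (.ofNat (nat_lit 287914246136207377284))⟩,
    ⟨nat_lit 2, nat_lit 19, nat_lit 20, (.ofNat (nat_lit 8)), (.negSucc (nat_lit 673464191)), (.ofNat (nat_lit 3295730617605346011015240426880)), (.ofNat (nat_lit 0)), (.ofNat (nat_lit 49190009217990238969657624832)), (.negSucc (nat_lit 673464207)), (.negSucc (nat_lit 673464175)), (.negSucc (nat_lit 3215042415187649046384)), (.ofNat (nat_lit 3215042415187649046385)), (.negSucc (nat_lit 3215042415187649046384)), (.ofNat (nat_lit 3215042415187649046385)), (.ofNat (nat_lit 287914246136207377284))⟩,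
    ⟨nat_lit 0, nat_lit 20, nat_lit 21, (.ofNat (nat_lit 8)), (.negSucc (nat_lit 252395583)), (.ofNat (nat_lit 4649484052029367453769099808960)), (.ofNat (nat_lit 0)), (.ofNat (nat_lit 69395284358647275428375074944)), (.negSucc (nat_lit 252395599)), (.negSucc (nat_lit 252395567)), (.ofNat (nat_lit 3215042415187649046385)), (.negSucc (nat_lit 3215042415187649046384)), (.negSucc (nat_lit 3215042415187649046384)), (.ofNat (nat_lit 3215042415187649046385)), (.ofNat (nat_lit 287914246136207377284))⟩,
    ⟨nat_lit 0, nat_lit 22, nat_lit 12, (.ofNat (nat_lit 8)), (.negSucc (nat_lit 190529535)), (.ofNat (nat_lit 3134965739557660094104574371200)), (.ofNat (nat_lit 0)), (.ofNat (nat_lit 46790533426233732747145447680)), (.negSucc (nat_lit 190529551)), (.negSucc (nat_lit 190529519)), (.ofNat (nat_lit 3215042415187649046385)), (.negSucc (nat_lit 3215042415187649046384)), (.negSucc (nat_lit 3215042415187649046384)), (.ofNat (nat_lit 3215042415187649046385)), (.ofNat (nat_lit 287914246136207377284))⟩,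
    ⟨nat_lit 2, nat_lit 23, nat_lit 7, (.ofNat (nat_lit 8)), (.negSucc (nat_lit 745733823)), (.ofNat (nat_lit 2638607429636320063393608628800)), (.ofNat (nat_lit 0)), (.ofNat (nat_lit 39382200442333135273955752320)), (.negSucc (nat_lit 745733839)), (.negSucc (nat_lit 745733807)), (.negSucc (nat_lit 3215042415187649046384)), (.ofNat (nat_lit 3215042415187649046385)), (.negSucc (nat_lit 3215042415187649046384)), (.ofNat (nat_lit 3215042415187649046385)), (.ofNat (nat_lit 287914246136207377284))⟩]
  es := [
    ⟨nat_lit 1, nat_lit 0, (.negSucc (nat_lit 815464127)), (.negSucc (nat_lit 524877567)), (.negSucc (nat_lit 815464111)), (.negSucc (nat_lit 524877583)), (.negSucc (nat_lit 3215042415187649046384)), (.negSucc (nat_lit 47985707689367896213)), (.ofNat (nat_lit 5559984945411988501933569280))⟩,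
    ⟨nat_lit 1, nat_lit 2, (.negSucc (nat_lit 815464127)), (.negSucc (nat_lit 671170431)), (.negSucc (nat_lit 815464111)), (.negSucc (nat_lit 671170447)), (.ofNat (nat_lit 3215042415187649046385)), (.ofNat (nat_lit 47985707689367896214)), (.ofNat (nat_lit 83821231500158561216621592064))⟩,
    ⟨nat_lit 2, nat_lit 3, (.negSucc (nat_lit 671170431)), (.negSucc (nat_lit 518733695)), (.negSucc (nat_lit 671170415)), (.negSucc (nat_lit 518733711)), (.negSucc (nat_lit 3215042415187649046384)), (.negSucc (nat_lit 47985707689367896213)), (.ofNat (nat_lit 19408055180761015798858503168))⟩,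
    ⟨nat_lit 3, nat_lit 4, (.negSucc (nat_lit 518733695)), (.ofNat (nat_lit 109625152)), (.negSucc (nat_lit 518733679)), (.ofNat (nat_lit 109625136)), (.ofNat (nat_lit 3215042415187649046385)), (.ofNat (nat_lit 47985707689367896214)), (.ofNat (nat_lit 69191662190523873212523757056))⟩,
    ⟨nat_lit 5, nat_lit 4, (.negSucc (nat_lit 66928831)), (.ofNat (nat_lit 109625152)), (.negSucc (nat_lit 66928815)), (.ofNat (nat_lit 109625136)), (.negSucc (nat_lit 3215042415187649046384)), (.negSucc (nat_lit 47985707689367896213)), (.ofNat (nat_lit 79712543189072922025283706112))⟩,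
    ⟨nat_lit 6, nat_lit 5, (.negSucc (nat_lit 767278975)), (.negSucc (nat_lit 66928831)), (.negSucc (nat_lit 767278959)), (.negSucc (nat_lit 66928847)), (.ofNat (nat_lit 3215042415187649046385)), (.ofNat (nat_lit 47985707689367896214)), (.ofNat (nat_lit 86135797925758546249084190208))⟩,
    ⟨nat_lit 6, nat_lit 15, (.negSucc (nat_lit 767278975)), (.negSucc (nat_lit 674742143)), (.negSucc (nat_lit 767278959)), (.negSucc (nat_lit 674742159)), (.negSucc (nat_lit 3215042415187649046384)), (.negSucc (nat_lit 47985707689367896213)), (.ofNat (nat_lit 12498948608691495260379796480))⟩,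
    ⟨nat_lit 23, nat_lit 7, (.negSucc (nat_lit 745733823)), (.negSucc (nat_lit 529940351)), (.negSucc (nat_lit 745733807)), (.negSucc (nat_lit 529940367)), (.ofNat (nat_lit 3215042415187649046385)), (.ofNat (nat_lit 47985707689367896214)), (.ofNat (nat_lit 75166765734871660660457094656))⟩,
    ⟨nat_lit 7, nat_lit 8, (.negSucc (nat_lit 529940351)), (.ofNat (nat_lit 232308480)), (.negSucc (nat_lit 529940335)), (.ofNat (nat_lit 232308464)), (.negSucc (nat_lit 3215042415187649046384)), (.negSucc (nat_lit 47985707689367896213)), (.ofNat (nat_lit 24307640087126201506163840000))⟩,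
    ⟨nat_lit 8, nat_lit 9, (.ofNat (nat_lit 232308480)), (.ofNat (nat_lit 783203776)), (.ofNat (nat_lit 232308496)), (.ofNat (nat_lit 783203760)), (.ofNat (nat_lit 3215042415187649046385)), (.ofNat (nat_lit 47985707689367896214)), (.ofNat (nat_lit 2012666457043465245619650560))⟩,
    ⟨nat_lit 10, nat_lit 9, (.ofNat (nat_lit 455851648)), (.ofNat (nat_lit 783203776)), (.ofNat (nat_lit 455851664)), (.ofNat (nat_lit 783203760)), (.negSucc (nat_lit 3215042415187649046384)), (.negSucc (nat_lit 47985707689367896213)), (.ofNat (nat_lit 77177841369733807981581458688))⟩,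
    ⟨nat_lit 11, nat_lit 10, (.ofNat (nat_lit 248561408)), (.ofNat (nat_lit 455851648)), (.ofNat (nat_lit 248561536)), (.ofNat (nat_lit 455851632)), (.ofNat (nat_lit 3215042415187649046385)), (.ofNat (nat_lit 47985707689367896214)), (.ofNat (nat_lit 33429113508444552846691737344))⟩,
    ⟨nat_lit 22, nat_lit 12, (.negSucc (nat_lit 190529535)), (.ofNat (nat_lit 27180928)), (.negSucc (nat_lit 190529519)), (.ofNat (nat_lit 27180912)), (.negSucc (nat_lit 3215042415187649046384)), (.negSucc (nat_lit 47985707689367896213)), (.ofNat (nat_lit 37647838805546835348195870976))⟩,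
    ⟨nat_lit 13, nat_lit 12, (.negSucc (nat_lit 98844735)), (.ofNat (nat_lit 27180928)), (.negSucc (nat_lit 98844719)), (.ofNat (nat_lit 27180912)), (.ofNat (nat_lit 3215042415187649046385)), (.ofNat (nat_lit 47985707689367896214)), (.ofNat (nat_lit 35039246674079325043187457792))⟩,
    ⟨nat_lit 14, nat_lit 13, (.negSucc (nat_lit 538722175)), (.negSucc (nat_lit 98844735)), (.negSucc (nat_lit 538722159)), (.negSucc (nat_lit 98844751)), (.negSucc (nat_lit 3215042415187649046384)), (.negSucc (nat_lit 47985707689367896213)), (.ofNat (nat_lit 25552977457421845626890998784))⟩,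
    ⟨nat_lit 15, nat_lit 14, (.negSucc (nat_lit 674742143)), (.negSucc (nat_lit 538722175)), (.negSucc (nat_lit 674742127)), (.negSucc (nat_lit 538722191)), (.ofNat (nat_lit 3215042415187649046385)), (.ofNat (nat_lit 47985707689367896214)), (.ofNat (nat_lit 77254907184054255852787482112))⟩,
    ⟨nat_lit 16, nat_lit 17, (.negSucc (nat_lit 91029503)), (.ofNat (nat_lit 649248256)), (.negSucc (nat_lit 91029487)), (.ofNat (nat_lit 649248240)), (.ofNat (nat_lit 3215042415187649046385)), (.ofNat (nat_lit 47985707689367896214)), (.ofNat (nat_lit 12333865489898901219222205696))⟩,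
    ⟨nat_lit 18, nat_lit 17, (.ofNat (nat_lit 80920384)), (.ofNat (nat_lit 649248256)), (.ofNat (nat_lit 80920400)), (.ofNat (nat_lit 649248240)), (.negSucc (nat_lit 3215042415187649046384)), (.negSucc (nat_lit 47985707689367896213)), (.ofNat (nat_lit 74643139550394693937879211264))⟩,
    ⟨nat_lit 19, nat_lit 18, (.negSucc (nat_lit 521027455)), (.ofNat (nat_lit 80920384)), (.negSucc (nat_lit 521027439)), (.ofNat (nat_lit 80920368)), (.ofNat (nat_lit 3215042415187649046385)), (.ofNat (nat_lit 47985707689367896214)), (.ofNat (nat_lit 66877095764923888180061158912))⟩,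
    ⟨nat_lit 20, nat_lit 19, (.negSucc (nat_lit 673464191)), (.negSucc (nat_lit 521027455)), (.negSucc (nat_lit 673464175)), (.negSucc (nat_lit 521027471)), (.negSucc (nat_lit 3215042415187649046384)), (.negSucc (nat_lit 47985707689367896213)), (.ofNat (nat_lit 16873353361421901755156255744))⟩,
    ⟨nat_lit 20, nat_lit 21, (.negSucc (nat_lit 673464191)), (.negSucc (nat_lit 252395583)), (.negSucc (nat_lit 673464175)), (.negSucc (nat_lit 252395599)), (.ofNat (nat_lit 3215042415187649046385)), (.ofNat (nat_lit 47985707689367896214)), (.ofNat (nat_lit 81506665074558576184158993920))⟩,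
    ⟨nat_lit 21, nat_lit 11, (.negSucc (nat_lit 252395583)), (.ofNat (nat_lit 248561408)), (.negSucc (nat_lit 252395567)), (.ofNat (nat_lit 248561280)), (.negSucc (nat_lit 3215042415187649046384)), (.negSucc (nat_lit 47985707689367896213)), (.ofNat (nat_lit 57283903642735974672591155968))⟩,
    ⟨nat_lit 0, nat_lit 22, (.negSucc (nat_lit 524877567)), (.negSucc (nat_lit 190529535)), (.negSucc (nat_lit 524877551)), (.negSucc (nat_lit 190529551)), (.ofNat (nat_lit 3215042415187649046385)), (.ofNat (nat_lit 47985707689367896214)), (.ofNat (nat_lit 55933228046920630146095024384))⟩,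
    ⟨nat_lit 23, nat_lit 16, (.negSucc (nat_lit 745733823)), (.negSucc (nat_lit 91029503)), (.negSucc (nat_lit 745733807)), (.negSucc (nat_lit 91029519)), (.negSucc (nat_lit 3215042415187649046384)), (.negSucc (nat_lit 47985707689367896213)), (.ofNat (nat_lit 3597635149794609887454409984))⟩]

theorem ok59 : stOK 23 23 S59 = true := by decide +kernel

def S60 : SD where
  vs := [
    ⟨nat_lit 0, nat_lit 0, nat_lit 22, (.ofNat (nat_lit 8)), (.negSucc (nat_lit 524877567)), (.ofNat (nat_lit 2060022635243142724739072906880)), (.ofNat (nat_lit 0)), (.ofNat (nat_lit 30746606496166309324014296832)), (.negSucc (nat_lit 524877583)), (.negSucc (nat_lit 524877551)), (.negSucc (nat_lit 3215042415187649046384)), (.ofNat (nat_lit 3215042415187649046385)), (.negSucc (nat_lit 3215042415187649046384)), (.ofNat (nat_lit 3215042415187649046385)), (.ofNat (nat_lit 287914246136207377284))⟩,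
    ⟨nat_lit 2, nat_lit 0, nat_lit 1, (.ofNat (nat_lit 8)), (.negSucc (nat_lit 815464127)), (.ofNat (nat_lit 2994270750926613415615370492480)), (.ofNat (nat_lit 0)), (.ofNat (nat_lit 44690608222785274859277580672)), (.negSucc (nat_lit 815464143)), (.negSucc (nat_lit 815464111)), (.negSucc (nat_lit 3215042415187649046384)), (.ofNat (nat_lit 3215042415187649046385)), (.negSucc (nat_lit 3215042415187649046384)), (.ofNat (nat_lit 3215042415187649046385)), (.ofNat (nat_lit 287914246136207377284))⟩,
    ⟨nat_lit 0, nat_lit 1, nat_lit 2, (.ofNat (nat_lit 8)), (.negSucc (nat_lit 671170431)), (.ofNat (nat_lit 3458181103810805830069137581440)), (.ofNat (nat_lit 0)), (.ofNat (nat_lit 51614643340459788507740047616)), (.negSucc (nat_lit 671170447)), (.negSucc (nat_lit 671170415)), (.ofNat (nat_lit 3215042415187649046385)), (.negSucc (nat_lit 3215042415187649046384)), (.negSucc (nat_lit 3215042415187649046384)), (.ofNat (nat_lit 3215042415187649046385)), (.ofNat (nat_lit 287914246136207377284))⟩,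
    ⟨nat_lit 0, nat_lit 2, nat_lit 3, (.ofNat (nat_lit 8)), (.negSucc (nat_lit 518733695)), (.ofNat (nat_lit 2968090531938043781924695582080)), (.ofNat (nat_lit 0)), (.ofNat (nat_lit 44299858685642444505691130112)), (.negSucc (nat_lit 518733711)), (.negSucc (nat_lit 518733679)), (.negSucc (nat_lit 3215042415187649046384)), (.ofNat (nat_lit 3215042415187649046385)), (.negSucc (nat_lit 3215042415187649046384)), (.ofNat (nat_lit 3215042415187649046385)), (.ofNat (nat_lit 287914246136207377284))⟩,
    ⟨nat_lit 1, nat_lit 3, nat_lit 4, (.ofNat (nat_lit 8)), (.ofNat (nat_lit 109625152)), (.ofNat (nat_lit 4988290880216492640539472746560)), (.ofNat (nat_lit 0)), (.ofNat (nat_lit 74452102689798397618903731584)), (.ofNat (nat_lit 109625136)), (.ofNat (nat_lit 109625168)), (.ofNat (nat_lit 3215042415187649046385)), (.negSucc (nat_lit 3215042415187649046384)), (.negSucc (nat_lit 3215042415187649046384)), (.ofNat (nat_lit 3215042415187649046385)), (.ofNat (nat_lit 287914246136207377284))⟩,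
    ⟨nat_lit 0, nat_lit 5, nat_lit 4, (.ofNat (nat_lit 8)), (.negSucc (nat_lit 66928831)), (.ofNat (nat_lit 5555919427346854187272545294400)), (.ofNat (nat_lit 0)), (.ofNat (nat_lit 82924170557415734137183948160)), (.negSucc (nat_lit 66928847)), (.negSucc (nat_lit 66928815)), (.ofNat (nat_lit 3215042415187649046385)), (.negSucc (nat_lit 3215042415187649046384)), (.negSucc (nat_lit 3215042415187649046384)), (.ofNat (nat_lit 3215042415187649046385)), (.ofNat (nat_lit 287914246136207377284))⟩,
    ⟨nat_lit 2, nat_lit 6, nat_lit 5, (.ofNat (nat_lit 8)), (.negSucc (nat_lit 767278975)), (.ofNat (nat_lit 3304264008904076390615347864960)), (.ofNat (nat_lit 0)), (.ofNat (nat_lit 49317373267225020754731993344)), (.negSucc (nat_lit 767278991)), (.negSucc (nat_lit 767278959)), (.negSucc (nat_lit 3215042415187649046384)), (.ofNat (nat_lit 3215042415187649046385)), (.negSucc (nat_lit 3215042415187649046384)), (.ofNat (nat_lit 3215042415187649046385)), (.ofNat (nat_lit 287914246136207377284))⟩,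
    ⟨nat_lit 0, nat_lit 7, nat_lit 8, (.ofNat (nat_lit 8)), (.negSucc (nat_lit 529940351)), (.ofNat (nat_lit 3332392595036928382630516827520)), (.ofNat (nat_lit 0)), (.ofNat (nat_lit 49737202910998931083310467328)), (.negSucc (nat_lit 529940367)), (.negSucc (nat_lit 529940335)), (.ofNat (nat_lit 3215042415187649046385)), (.negSucc (nat_lit 3215042415187649046384)), (.negSucc (nat_lit 3215042415187649046384)), (.ofNat (nat_lit 3215042415187649046385)), (.ofNat (nat_lit 287914246136207377284))⟩,
    ⟨nat_lit 0, nat_lit 8, nat_lit 9, (.ofNat (nat_lit 8)), (.ofNat (nat_lit 232308480)), (.ofNat (nat_lit 881730269229683836197636755200)), (.ofNat (nat_lit 0)), (.ofNat (nat_lit 13160153272084833375891745280)), (.ofNat (nat_lit 232308464)), (.ofNat (nat_lit 232308496)), (.negSucc (nat_lit 3215042415187649046384)), (.ofNat (nat_lit 3215042415187649046385)), (.negSucc (nat_lit 3215042415187649046384)), (.ofNat (nat_lit 3215042415187649046385)), (.ofNat (nat_lit 287914246136207377284))⟩,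
    ⟨nat_lit 1, nat_lit 9, nat_lit 10, (.ofNat (nat_lit 8)), (.ofNat (nat_lit 783203776)), (.ofNat (nat_lit 2652882012197038653150019060160)), (.ofNat (nat_lit 0)), (.ofNat (nat_lit 39595253913388636613600554624)), (.ofNat (nat_lit 783203760)), (.ofNat (nat_lit 783203792)), (.ofNat (nat_lit 3215042415187649046385)), (.negSucc (nat_lit 3215042415187649046384)), (.negSucc (nat_lit 3215042415187649046384)), (.ofNat (nat_lit 3215042415187649046385)), (.ofNat (nat_lit 287914246136207377284))⟩,
    ⟨nat_lit 0, nat_lit 11, nat_lit 10, (.ofNat (nat_lit 8)), (.ofNat (nat_lit 455851648)), (.ofNat (nat_lit 3705332988418975087801319517440)), (.ofNat (nat_lit 0)), (.ofNat (nat_lit 55303477439089180414136598016)), (.ofNat (nat_lit 455851632)), (.ofNat (nat_lit 455851664)), (.ofNat (nat_lit 3215042415187649046385)), (.negSucc (nat_lit 3215042415187649046384)), (.negSucc (nat_lit 3215042415187649046384)), (.ofNat (nat_lit 3215042415187649046385)), (.ofNat (nat_lit 287914246136207377284))⟩,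
    ⟨nat_lit 1, nat_lit 21, nat_lit 24, (.ofNat (nat_lit 8)), (.ofNat (nat_lit 248561440)), (.ofNat (nat_lit 3038885971683190385935632250720)), (.ofNat (nat_lit 0)), (.ofNat (nat_lit 45356507040047617699868767808)), (.ofNat (nat_lit 248561424)), (.ofNat (nat_lit 248561456)), (.negSucc (nat_lit 3215042415187649046384)), (.ofNat (nat_lit 0)), (.negSucc (nat_lit 3215042415187649046384)), (.ofNat (nat_lit 0)), (.ofNat (nat_lit 191942830757471584856))⟩,
    ⟨nat_lit 1, nat_lit 13, nat_lit 12, (.ofNat (nat_lit 8)), (.ofNat (nat_lit 27180928)), (.ofNat (nat_lit 2435017363567476373146938498560)), (.ofNat (nat_lit 0)), (.ofNat (nat_lit 36343542739813080195691664384)), (.ofNat (nat_lit 27180912)), (.ofNat (nat_lit 27180944)), (.ofNat (nat_lit 3215042415187649046385)), (.negSucc (nat_lit 3215042415187649046384)), (.negSucc (nat_lit 3215042415187649046384)), (.ofNat (nat_lit 3215042415187649046385)), (.ofNat (nat_lit 287914246136207377284))⟩,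
    ⟨nat_lit 0, nat_lit 14, nat_lit 13, (.ofNat (nat_lit 8)), (.negSucc (nat_lit 98844735)), (.ofNat (nat_lit 2029839508405289217477302073920)), (.ofNat (nat_lit 0)), (.ofNat (nat_lit 30296112065750585335039228288)), (.negSucc (nat_lit 98844751)), (.negSucc (nat_lit 98844719)), (.negSucc (nat_lit 3215042415187649046384)), (.ofNat (nat_lit 3215042415187649046385)), (.negSucc (nat_lit 3215042415187649046384)), (.ofNat (nat_lit 3215042415187649046385)), (.ofNat (nat_lit 287914246136207377284))⟩,
    ⟨nat_lit 0, nat_lit 15, nat_lit 14, (.ofNat (nat_lit 8)), (.negSucc (nat_lit 538722175)), (.ofNat (nat_lit 3444064135489449399619577128320)), (.ofNat (nat_lit 0)), (.ofNat (nat_lit 51403942320738050739839240448)), (.negSucc (nat_lit 538722191)), (.negSucc (nat_lit 538722159)), (.ofNat (nat_lit 3215042415187649046385)), (.negSucc (nat_lit 3215042415187649046384)), (.negSucc (nat_lit 3215042415187649046384)), (.ofNat (nat_lit 3215042415187649046385)), (.ofNat (nat_lit 287914246136207377284))⟩,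
    ⟨nat_lit 0, nat_lit 6, nat_lit 15, (.ofNat (nat_lit 8)), (.negSucc (nat_lit 674742143)), (.ofNat (nat_lit 3006754169056982662335058912640)), (.ofNat (nat_lit 0)), (.ofNat (nat_lit 44876927896372875556583639296)), (.negSucc (nat_lit 674742159)), (.negSucc (nat_lit 674742127)), (.negSucc (nat_lit 3215042415187649046384)), (.ofNat (nat_lit 3215042415187649046385)), (.negSucc (nat_lit 3215042415187649046384)), (.ofNat (nat_lit 3215042415187649046385)), (.ofNat (nat_lit 287914246136207377284))⟩,
    ⟨nat_lit 0, nat_lit 23, nat_lit 16, (.ofNat (nat_lit 8)), (.negSucc (nat_lit 91029503)), (.ofNat (nat_lit 533705271429732622081468745600)), (.ofNat (nat_lit 0)), (.ofNat (nat_lit 7965750319846755553338307840)), (.negSucc (nat_lit 91029519)), (.negSucc (nat_lit 91029487)), (.negSucc (nat_lit 3215042415187649046384)), (.ofNat (nat_lit 3215042415187649046385)), (.negSucc (nat_lit 3215042415187649046384)), (.ofNat (nat_lit 3215042415187649046385)), (.ofNat (nat_lit 287914246136207377284))⟩,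
    ⟨nat_lit 1, nat_lit 16, nat_lit 17, (.ofNat (nat_lit 8)), (.ofNat (nat_lit 649248256)), (.ofNat (nat_lit 2913729668849835437805492643200)), (.ofNat (nat_lit 0)), (.ofNat (nat_lit 43488502520146797578550708480)), (.ofNat (nat_lit 649248240)), (.ofNat (nat_lit 649248272)), (.ofNat (nat_lit 3215042415187649046385)), (.negSucc (nat_lit 3215042415187649046384)), (.negSucc (nat_lit 3215042415187649046384)), (.ofNat (nat_lit 3215042415187649046385)), (.ofNat (nat_lit 287914246136207377284))⟩,
    ⟨nat_lit 0, nat_lit 18, nat_lit 17, (.ofNat (nat_lit 8)), (.ofNat (nat_lit 80920384)), (.ofNat (nat_lit 4740927883063172501020308985920)), (.ofNat (nat_lit 0)), (.ofNat (nat_lit 70760117657659291058970185088)), (.ofNat (nat_lit 80920368)), (.ofNat (nat_lit 80920400)), (.ofNat (nat_lit 3215042415187649046385)), (.negSucc (nat_lit 3215042415187649046384)), (.negSucc (nat_lit 3215042415187649046384)), (.ofNat (nat_lit 3215042415187649046385)), (.ofNat (nat_lit 287914246136207377284))⟩,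
    ⟨nat_lit 0, nat_lit 19, nat_lit 18, (.ofNat (nat_lit 8)), (.negSucc (nat_lit 521027455)), (.ofNat (nat_lit 2805640045732583962870798427520)), (.ofNat (nat_lit 0)), (.ofNat (nat_lit 41875224563172894967608707328)), (.negSucc (nat_lit 521027471)), (.negSucc (nat_lit 521027439)), (.negSucc (nat_lit 3215042415187649046384)), (.ofNat (nat_lit 3215042415187649046385)), (.negSucc (nat_lit 3215042415187649046384)), (.ofNat (nat_lit 3215042415187649046385)), (.ofNat (nat_lit 287914246136207377284))⟩,
    ⟨nat_lit 2, nat_lit 19, nat_lit 20, (.ofNat (nat_lit 8)), (.negSucc (nat_lit 673464191)), (.ofNat (nat_lit 3295730617605346011015240426880)), (.ofNat (nat_lit 0)), (.ofNat (nat_lit 49190009217990238969657624832)), (.negSucc (nat_lit 673464207)), (.negSucc (nat_lit 673464175)), (.negSucc (nat_lit 3215042415187649046384)), (.ofNat (nat_lit 3215042415187649046385)), (.negSucc (nat_lit 3215042415187649046384)), (.ofNat (nat_lit 3215042415187649046385)), (.ofNat (nat_lit 287914246136207377284))⟩,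
    ⟨nat_lit 0, nat_lit 20, nat_lit 21, (.ofNat (nat_lit 8)), (.negSucc (nat_lit 252395583)), (.ofNat (nat_lit 4649484052029367453769099808960)), (.ofNat (nat_lit 0)), (.ofNat (nat_lit 69395284358647275428375074944)), (.negSucc (nat_lit 252395599)), (.negSucc (nat_lit 252395567)), (.ofNat (nat_lit 3215042415187649046385)), (.negSucc (nat_lit 3215042415187649046384)), (.negSucc (nat_lit 3215042415187649046384)), (.ofNat (nat_lit 3215042415187649046385)), (.ofNat (nat_lit 287914246136207377284))⟩,
    ⟨nat_lit 0, nat_lit 22, nat_lit 12, (.ofNat (nat_lit 8)), (.negSucc (nat_lit 190529535)), (.ofNat (nat_lit 3134965739557660094104574371200)), (.ofNat (nat_lit 0)), (.ofNat (nat_lit 46790533426233732747145447680)), (.negSucc (nat_lit 190529551)), (.negSucc (nat_lit 190529519)), (.ofNat (nat_lit 3215042415187649046385)), (.negSucc (nat_lit 3215042415187649046384)), (.negSucc (nat_lit 3215042415187649046384)), (.ofNat (nat_lit 3215042415187649046385)), (.ofNat (nat_lit 287914246136207377284))⟩,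
    ⟨nat_lit 2, nat_lit 23, nat_lit 7, (.ofNat (nat_lit 8)), (.negSucc (nat_lit 745733823)), (.ofNat (nat_lit 2638607429636320063393608628800)), (.ofNat (nat_lit 0)), (.ofNat (nat_lit 39382200442333135273955752320)), (.negSucc (nat_lit 745733839)), (.negSucc (nat_lit 745733807)), (.negSucc (nat_lit 3215042415187649046384)), (.ofNat (nat_lit 3215042415187649046385)), (.negSucc (nat_lit 3215042415187649046384)), (.ofNat (nat_lit 3215042415187649046385)), (.ofNat (nat_lit 287914246136207377284))⟩,
    ⟨nat_lit 2, nat_lit 24, nat_lit 11, (.ofNat (nat_lit 8)), (.ofNat (nat_lit 248561376)), (.ofNat (nat_lit 3038885971683190385935632250720)), (.ofNat (nat_lit 0)), (.ofNat (nat_lit 45356507040047617699868767808)), (.ofNat (nat_lit 248561360)), (.ofNat (nat_lit 248561392)), (.ofNat (nat_lit 0)), (.ofNat (nat_lit 3215042415187649046385)), (.ofNat (nat_lit 0)), (.ofNat (nat_lit 3215042415187649046385)), (.ofNat (nat_lit 95971415378735792428))⟩]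
  es := [
    ⟨nat_lit 1, nat_lit 0, (.negSucc (nat_lit 815464127)), (.negSucc (nat_lit 524877567)), (.negSucc (nat_lit 815464111)), (.negSucc (nat_lit 524877583)), (.negSucc (nat_lit 3215042415187649046384)), (.negSucc (nat_lit 47985707689367896213)), (.ofNat (nat_lit 5559984945411988501933569280))⟩,
    ⟨nat_lit 1, nat_lit 2, (.negSucc (nat_lit 815464127)), (.negSucc (nat_lit 671170431)), (.negSucc (nat_lit 815464111)), (.negSucc (nat_lit 671170447)), (.ofNat (nat_lit 3215042415187649046385)), (.ofNat (nat_lit 47985707689367896214)), (.ofNat (nat_lit 83821231500158561216621592064))⟩,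
    ⟨nat_lit 2, nat_lit 3, (.negSucc (nat_lit 671170431)), (.negSucc (nat_lit 518733695)), (.negSucc (nat_lit 671170415)), (.negSucc (nat_lit 518733711)), (.negSucc (nat_lit 3215042415187649046384)), (.negSucc (nat_lit 47985707689367896213)), (.ofNat (nat_lit 19408055180761015798858503168))⟩,
    ⟨nat_lit 3, nat_lit 4, (.negSucc (nat_lit 518733695)), (.ofNat (nat_lit 109625152)), (.negSucc (nat_lit 518733679)), (.ofNat (nat_lit 109625136)), (.ofNat (nat_lit 3215042415187649046385)), (.ofNat (nat_lit 47985707689367896214)), (.ofNat (nat_lit 69191662190523873212523757056))⟩,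
    ⟨nat_lit 5, nat_lit 4, (.negSucc (nat_lit 66928831)), (.ofNat (nat_lit 109625152)), (.negSucc (nat_lit 66928815)), (.ofNat (nat_lit 109625136)), (.negSucc (nat_lit 3215042415187649046384)), (.negSucc (nat_lit 47985707689367896213)), (.ofNat (nat_lit 79712543189072922025283706112))⟩,
    ⟨nat_lit 6, nat_lit 5, (.negSucc (nat_lit 767278975)), (.negSucc (nat_lit 66928831)), (.negSucc (nat_lit 767278959)), (.negSucc (nat_lit 66928847)), (.ofNat (nat_lit 3215042415187649046385)), (.ofNat (nat_lit 47985707689367896214)), (.ofNat (nat_lit 86135797925758546249084190208))⟩,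
    ⟨nat_lit 6, nat_lit 15, (.negSucc (nat_lit 767278975)), (.negSucc (nat_lit 674742143)), (.negSucc (nat_lit 767278959)), (.negSucc (nat_lit 674742159)), (.negSucc (nat_lit 3215042415187649046384)), (.negSucc (nat_lit 47985707689367896213)), (.ofNat (nat_lit 12498948608691495260379796480))⟩,
    ⟨nat_lit 23, nat_lit 7, (.negSucc (nat_lit 745733823)), (.negSucc (nat_lit 529940351)), (.negSucc (nat_lit 745733807)), (.negSucc (nat_lit 529940367)), (.ofNat (nat_lit 3215042415187649046385)), (.ofNat (nat_lit 47985707689367896214)), (.ofNat (nat_lit 75166765734871660660457094656))⟩,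
    ⟨nat_lit 7, nat_lit 8, (.negSucc (nat_lit 529940351)), (.ofNat (nat_lit 232308480)), (.negSucc (nat_lit 529940335)), (.ofNat (nat_lit 232308464)), (.negSucc (nat_lit 3215042415187649046384)), (.negSucc (nat_lit 47985707689367896213)), (.ofNat (nat_lit 24307640087126201506163840000))⟩,
    ⟨nat_lit 8, nat_lit 9, (.ofNat (nat_lit 232308480)), (.ofNat (nat_lit 783203776)), (.ofNat (nat_lit 232308496)), (.ofNat (nat_lit 783203760)), (.ofNat (nat_lit 3215042415187649046385)), (.ofNat (nat_lit 47985707689367896214)), (.ofNat (nat_lit 2012666457043465245619650560))⟩,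
    ⟨nat_lit 10, nat_lit 9, (.ofNat (nat_lit 455851648)), (.ofNat (nat_lit 783203776)), (.ofNat (nat_lit 455851664)), (.ofNat (nat_lit 783203760)), (.negSucc (nat_lit 3215042415187649046384)), (.negSucc (nat_lit 47985707689367896213)), (.ofNat (nat_lit 77177841369733807981581458688))⟩,
    ⟨nat_lit 24, nat_lit 10, (.ofNat (nat_lit 248561376)), (.ofNat (nat_lit 455851648)), (.ofNat (nat_lit 248561392)), (.ofNat (nat_lit 455851632)), (.ofNat (nat_lit 3215042415187649046385)), (.ofNat (nat_lit 47985707689367896214)), (.ofNat (nat_lit 33429113508444552846691737344))⟩,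
    ⟨nat_lit 22, nat_lit 12, (.negSucc (nat_lit 190529535)), (.ofNat (nat_lit 27180928)), (.negSucc (nat_lit 190529519)), (.ofNat (nat_lit 27180912)), (.negSucc (nat_lit 3215042415187649046384)), (.negSucc (nat_lit 47985707689367896213)), (.ofNat (nat_lit 37647838805546835348195870976))⟩,
    ⟨nat_lit 13, nat_lit 12, (.negSucc (nat_lit 98844735)), (.ofNat (nat_lit 27180928)), (.negSucc (nat_lit 98844719)), (.ofNat (nat_lit 27180912)), (.ofNat (nat_lit 3215042415187649046385)), (.ofNat (nat_lit 47985707689367896214)), (.ofNat (nat_lit 35039246674079325043187457792))⟩,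
    ⟨nat_lit 14, nat_lit 13, (.negSucc (nat_lit 538722175)), (.negSucc (nat_lit 98844735)), (.negSucc (nat_lit 538722159)), (.negSucc (nat_lit 98844751)), (.negSucc (nat_lit 3215042415187649046384)), (.negSucc (nat_lit 47985707689367896213)), (.ofNat (nat_lit 25552977457421845626890998784))⟩,
    ⟨nat_lit 15, nat_lit 14, (.negSucc (nat_lit 674742143)), (.negSucc (nat_lit 538722175)), (.negSucc (nat_lit 674742127)), (.negSucc (nat_lit 538722191)), (.ofNat (nat_lit 3215042415187649046385)), (.ofNat (nat_lit 47985707689367896214)), (.ofNat (nat_lit 77254907184054255852787482112))⟩,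
    ⟨nat_lit 16, nat_lit 17, (.negSucc (nat_lit 91029503)), (.ofNat (nat_lit 649248256)), (.negSucc (nat_lit 91029487)), (.ofNat (nat_lit 649248240)), (.ofNat (nat_lit 3215042415187649046385)), (.ofNat (nat_lit 47985707689367896214)), (.ofNat (nat_lit 12333865489898901219222205696))⟩,
    ⟨nat_lit 18, nat_lit 17, (.ofNat (nat_lit 80920384)), (.ofNat (nat_lit 649248256)), (.ofNat (nat_lit 80920400)), (.ofNat (nat_lit 649248240)), (.negSucc (nat_lit 3215042415187649046384)), (.negSucc (nat_lit 47985707689367896213)), (.ofNat (nat_lit 74643139550394693937879211264))⟩,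
    ⟨nat_lit 19, nat_lit 18, (.negSucc (nat_lit 521027455)), (.ofNat (nat_lit 80920384)), (.negSucc (nat_lit 521027439)), (.ofNat (nat_lit 80920368)), (.ofNat (nat_lit 3215042415187649046385)), (.ofNat (nat_lit 47985707689367896214)), (.ofNat (nat_lit 66877095764923888180061158912))⟩,
    ⟨nat_lit 20, nat_lit 19, (.negSucc (nat_lit 673464191)), (.negSucc (nat_lit 521027455)), (.negSucc (nat_lit 673464175)), (.negSucc (nat_lit 521027471)), (.negSucc (nat_lit 3215042415187649046384)), (.negSucc (nat_lit 47985707689367896213)), (.ofNat (nat_lit 16873353361421901755156255744))⟩,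
    ⟨nat_lit 20, nat_lit 21, (.negSucc (nat_lit 673464191)), (.negSucc (nat_lit 252395583)), (.negSucc (nat_lit 673464175)), (.negSucc (nat_lit 252395599)), (.ofNat (nat_lit 3215042415187649046385)), (.ofNat (nat_lit 47985707689367896214)), (.ofNat (nat_lit 81506665074558576184158993920))⟩,
    ⟨nat_lit 21, nat_lit 11, (.negSucc (nat_lit 252395583)), (.ofNat (nat_lit 248561440)), (.negSucc (nat_lit 252395567)), (.ofNat (nat_lit 248561424)), (.negSucc (nat_lit 3215042415187649046384)), (.negSucc (nat_lit 47985707689367896213)), (.ofNat (nat_lit 57283903642735974672591155968))⟩,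
    ⟨nat_lit 0, nat_lit 22, (.negSucc (nat_lit 524877567)), (.negSucc (nat_lit 190529535)), (.negSucc (nat_lit 524877551)), (.negSucc (nat_lit 190529551)), (.ofNat (nat_lit 3215042415187649046385)), (.ofNat (nat_lit 47985707689367896214)), (.ofNat (nat_lit 55933228046920630146095024384))⟩,
    ⟨nat_lit 23, nat_lit 16, (.negSucc (nat_lit 745733823)), (.negSucc (nat_lit 91029503)), (.negSucc (nat_lit 745733807)), (.negSucc (nat_lit 91029519)), (.negSucc (nat_lit 3215042415187649046384)), (.negSucc (nat_lit 47985707689367896213)), (.ofNat (nat_lit 3597635149794609887454409984))⟩,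
    ⟨nat_lit 24, nat_lit 11, (.ofNat (nat_lit 248561376)), (.ofNat (nat_lit 248561440)), (.ofNat (nat_lit 248561392)), (.ofNat (nat_lit 248561424)), (.ofNat (nat_lit 0)), (.ofNat (nat_lit 0)), (.ofNat (nat_lit 45356507040047617699868767808))⟩]

theorem ok60 : stOK 24 24 S60 = true := by decide +kernel

def S61 : SD where
  vs := [
    ⟨nat_lit 0, nat_lit 0, nat_lit 22, (.ofNat (nat_lit 8)), (.negSucc (nat_lit 526974719)), (.ofNat (nat_lit 2068450676032012235455228401280)), (.negSucc (nat_lit 2097151)), (.ofNat (nat_lit 8428040788869510716155494400)), (.negSucc (nat_lit 526974735)), (.negSucc (nat_lit 526974703)), (.negSucc (nat_lit 3215042415187649046384)), (.ofNat (nat_lit 3215042415187649046385)), (.negSucc (nat_lit 3215042415187649046384)), (.ofNat (nat_lit 3215042415187649046385)), (.ofNat (nat_lit 0))⟩,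
    ⟨nat_lit 2, nat_lit 0, nat_lit 1, (.ofNat (nat_lit 8)), (.negSucc (nat_lit 819134143)), (.ofNat (nat_lit 3007755616188804632761219283520)), (.negSucc (nat_lit 3670015)), (.ofNat (nat_lit 13484865262191217145848791040)), (.negSucc (nat_lit 819134159)), (.negSucc (nat_lit 819134127)), (.negSucc (nat_lit 3215042415187649046384)), (.ofNat (nat_lit 3215042415187649046385)), (.negSucc (nat_lit 3215042415187649046384)), (.ofNat (nat_lit 3215042415187649046385)), (.ofNat (nat_lit 0))⟩,
    ⟨nat_lit 0, nat_lit 1, nat_lit 2, (.ofNat (nat_lit 8)), (.negSucc (nat_lit 674054015)), (.ofNat (nat_lit 3474194381309657900429833020800)), (.negSucc (nat_lit 2883583)), (.ofNat (nat_lit 16013277498852070360695439360)), (.negSucc (nat_lit 674054031)), (.negSucc (nat_lit 674053999)), (.ofNat (nat_lit 3215042415187649046385)), (.negSucc (nat_lit 3215042415187649046384)), (.negSucc (nat_lit 3215042415187649046384)), (.ofNat (nat_lit 3215042415187649046385)), (.ofNat (nat_lit 0))⟩,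
    ⟨nat_lit 0, nat_lit 2, nat_lit 3, (.ofNat (nat_lit 8)), (.negSucc (nat_lit 520568703)), (.ofNat (nat_lit 2980732593121348047998928823680)), (.negSucc (nat_lit 1835007)), (.ofNat (nat_lit 12642061183304266074233241600)), (.negSucc (nat_lit 520568719)), (.negSucc (nat_lit 520568687)), (.negSucc (nat_lit 3215042415187649046384)), (.ofNat (nat_lit 3215042415187649046385)), (.negSucc (nat_lit 3215042415187649046384)), (.ofNat (nat_lit 3215042415187649046385)), (.ofNat (nat_lit 0))⟩,
    ⟨nat_lit 1, nat_lit 3, nat_lit 4, (.ofNat (nat_lit 8)), (.ofNat (nat_lit 110935872)), (.ofNat (nat_lit 5011046590346440319473092581440)), (.ofNat (nat_lit 1310720)), (.ofNat (nat_lit 22755710129947678933619834880)), (.ofNat (nat_lit 110935856)), (.ofNat (nat_lit 110935888)), (.ofNat (nat_lit 3215042415187649046385)), (.negSucc (nat_lit 3215042415187649046384)), (.negSucc (nat_lit 3215042415187649046384)), (.ofNat (nat_lit 3215042415187649046385)), (.ofNat (nat_lit 0))⟩,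
    ⟨nat_lit 0, nat_lit 5, nat_lit 4, (.ofNat (nat_lit 8)), (.negSucc (nat_lit 66928831)), (.ofNat (nat_lit 5582889157871236621564242876480)), (.ofNat (nat_lit 0)), (.ofNat (nat_lit 26969730524382434291697582080)), (.negSucc (nat_lit 66928847)), (.negSucc (nat_lit 66928815)), (.ofNat (nat_lit 3215042415187649046385)), (.negSucc (nat_lit 3215042415187649046384)), (.negSucc (nat_lit 3215042415187649046384)), (.ofNat (nat_lit 3215042415187649046385)), (.ofNat (nat_lit 0))⟩,
    ⟨nat_lit 2, nat_lit 6, nat_lit 5, (.ofNat (nat_lit 8)), (.negSucc (nat_lit 770948991)), (.ofNat (nat_lit 3319434482324041509904427754880)), (.negSucc (nat_lit 3670015)), (.ofNat (nat_lit 15170473419965119289079889920)), (.negSucc (nat_lit 770949007)), (.negSucc (nat_lit 770948975)), (.negSucc (nat_lit 3215042415187649046384)), (.ofNat (nat_lit 3215042415187649046385)), (.negSucc (nat_lit 3215042415187649046384)), (.ofNat (nat_lit 3215042415187649046385)), (.ofNat (nat_lit 0))⟩,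
    ⟨nat_lit 0, nat_lit 7, nat_lit 8, (.ofNat (nat_lit 8)), (.negSucc (nat_lit 531775359)), (.ofNat (nat_lit 3346720264378006550847981168000)), (.negSucc (nat_lit 1835007)), (.ofNat (nat_lit 14327669341078168217464340480)), (.negSucc (nat_lit 531775375)), (.negSucc (nat_lit 531775343)), (.ofNat (nat_lit 3215042415187649046385)), (.negSucc (nat_lit 3215042415187649046384)), (.negSucc (nat_lit 3215042415187649046384)), (.ofNat (nat_lit 3215042415187649046385)), (.ofNat (nat_lit 0))⟩,
    ⟨nat_lit 0, nat_lit 8, nat_lit 9, (.ofNat (nat_lit 8)), (.ofNat (nat_lit 233619200)), (.ofNat (nat_lit 885944289624118591555714502400)), (.ofNat (nat_lit 1310720)), (.ofNat (nat_lit 4214020394434755358077747200)), (.ofNat (nat_lit 233619184)), (.ofNat (nat_lit 233619216)), (.negSucc (nat_lit 3215042415187649046384)), (.ofNat (nat_lit 3215042415187649046385)), (.negSucc (nat_lit 3215042415187649046384)), (.ofNat (nat_lit 3215042415187649046385)), (.ofNat (nat_lit 0))⟩,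
    ⟨nat_lit 1, nat_lit 9, nat_lit 10, (.ofNat (nat_lit 8)), (.ofNat (nat_lit 787135936)), (.ofNat (nat_lit 2665524073380342919224252301760)), (.ofNat (nat_lit 3932160)), (.ofNat (nat_lit 12642061183304266074233241600)), (.ofNat (nat_lit 787135920)), (.ofNat (nat_lit 787135952)), (.ofNat (nat_lit 3215042415187649046385)), (.negSucc (nat_lit 3215042415187649046384)), (.negSucc (nat_lit 3215042415187649046384)), (.ofNat (nat_lit 3215042415187649046385)), (.ofNat (nat_lit 0))⟩,
    ⟨nat_lit 0, nat_lit 11, nat_lit 10, (.ofNat (nat_lit 8)), (.ofNat (nat_lit 457948800)), (.ofNat (nat_lit 3723874678154488011376861605120)), (.ofNat (nat_lit 2097152)), (.ofNat (nat_lit 18541689735512923575542087680)), (.ofNat (nat_lit 457948784)), (.ofNat (nat_lit 457948816)), (.ofNat (nat_lit 3215042415187649046385)), (.negSucc (nat_lit 3215042415187649046384)), (.negSucc (nat_lit 3215042415187649046384)), (.ofNat (nat_lit 3215042415187649046385)), (.ofNat (nat_lit 0))⟩,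
    ⟨nat_lit 1, nat_lit 21, nat_lit 24, (.ofNat (nat_lit 8)), (.ofNat (nat_lit 251182848)), (.ofNat (nat_lit 3052370939826738889086250526080)), (.ofNat (nat_lit 2621408)), (.ofNat (nat_lit 13484968143548503150618275360)), (.ofNat (nat_lit 251182832)), (.ofNat (nat_lit 251182864)), (.negSucc (nat_lit 3215042415187649046384)), (.ofNat (nat_lit 0)), (.negSucc (nat_lit 3215042415187649046384)), (.ofNat (nat_lit 0)), (.ofNat (nat_lit 0))⟩,
    ⟨nat_lit 1, nat_lit 13, nat_lit 12, (.ofNat (nat_lit 8)), (.ofNat (nat_lit 26918784)), (.ofNat (nat_lit 2447659424750780639221171740160)), (.negSucc (nat_lit 262143)), (.ofNat (nat_lit 12642061183304266074233241600)), (.ofNat (nat_lit 26918768)), (.ofNat (nat_lit 26918800)), (.ofNat (nat_lit 3215042415187649046385)), (.negSucc (nat_lit 3215042415187649046384)), (.negSucc (nat_lit 3215042415187649046384)), (.ofNat (nat_lit 3215042415187649046385)), (.ofNat (nat_lit 0))⟩,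
    ⟨nat_lit 0, nat_lit 14, nat_lit 13, (.ofNat (nat_lit 8)), (.negSucc (nat_lit 99369023)), (.ofNat (nat_lit 2041638765509706532479919766080)), (.negSucc (nat_lit 524287)), (.ofNat (nat_lit 11799257104417315002617692160)), (.negSucc (nat_lit 99369039)), (.negSucc (nat_lit 99369007)), (.negSucc (nat_lit 3215042415187649046384)), (.ofNat (nat_lit 3215042415187649046385)), (.negSucc (nat_lit 3215042415187649046384)), (.ofNat (nat_lit 3215042415187649046385)), (.ofNat (nat_lit 0))⟩,
    ⟨nat_lit 0, nat_lit 15, nat_lit 14, (.ofNat (nat_lit 8)), (.negSucc (nat_lit 540557183)), (.ofNat (nat_lit 3460077412988301469980272567680)), (.negSucc (nat_lit 1835007)), (.ofNat (nat_lit 16013277498852070360695439360)), (.negSucc (nat_lit 540557199)), (.negSucc (nat_lit 540557167)), (.ofNat (nat_lit 3215042415187649046385)), (.negSucc (nat_lit 3215042415187649046384)), (.negSucc (nat_lit 3215042415187649046384)), (.ofNat (nat_lit 3215042415187649046385)), (.ofNat (nat_lit 0))⟩,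
    ⟨nat_lit 0, nat_lit 6, nat_lit 15, (.ofNat (nat_lit 8)), (.negSucc (nat_lit 677625727)), (.ofNat (nat_lit 3019396230240286928409292154240)), (.negSucc (nat_lit 2883583)), (.ofNat (nat_lit 12642061183304266074233241600)), (.negSucc (nat_lit 677625743)), (.negSucc (nat_lit 677625711)), (.negSucc (nat_lit 3215042415187649046384)), (.ofNat (nat_lit 3215042415187649046385)), (.negSucc (nat_lit 3215042415187649046384)), (.ofNat (nat_lit 3215042415187649046385)), (.ofNat (nat_lit 0))⟩,
    ⟨nat_lit 0, nat_lit 23, nat_lit 16, (.ofNat (nat_lit 8)), (.negSucc (nat_lit 91291647)), (.ofNat (nat_lit 534548075508619573153084295040)), (.negSucc (nat_lit 262143)), (.ofNat (nat_lit 842804078886951071615549440)), (.negSucc (nat_lit 91291663)), (.negSucc (nat_lit 91291631)), (.negSucc (nat_lit 3215042415187649046384)), (.ofNat (nat_lit 3215042415187649046385)), (.negSucc (nat_lit 3215042415187649046384)), (.ofNat (nat_lit 3215042415187649046385)), (.ofNat (nat_lit 0))⟩,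
    ⟨nat_lit 1, nat_lit 16, nat_lit 17, (.ofNat (nat_lit 8)), (.ofNat (nat_lit 652656128)), (.ofNat (nat_lit 2926371730033139703879725884800)), (.ofNat (nat_lit 3407872)), (.ofNat (nat_lit 12642061183304266074233241600)), (.ofNat (nat_lit 652656112)), (.ofNat (nat_lit 652656144)), (.ofNat (nat_lit 3215042415187649046385)), (.negSucc (nat_lit 3215042415187649046384)), (.negSucc (nat_lit 3215042415187649046384)), (.ofNat (nat_lit 3215042415187649046385)), (.ofNat (nat_lit 0))⟩,
    ⟨nat_lit 0, nat_lit 18, nat_lit 17, (.ofNat (nat_lit 8)), (.ofNat (nat_lit 81968960)), (.ofNat (nat_lit 4761155180956459326739082172480)), (.ofNat (nat_lit 1048576)), (.ofNat (nat_lit 20227297893286825718773186560)), (.ofNat (nat_lit 81968944)), (.ofNat (nat_lit 81968976)), (.ofNat (nat_lit 3215042415187649046385)), (.negSucc (nat_lit 3215042415187649046384)), (.negSucc (nat_lit 3215042415187649046384)), (.ofNat (nat_lit 3215042415187649046385)), (.ofNat (nat_lit 0))⟩,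
    ⟨nat_lit 0, nat_lit 19, nat_lit 18, (.ofNat (nat_lit 8)), (.negSucc (nat_lit 522862463)), (.ofNat (nat_lit 2816596498758114326801800570240)), (.negSucc (nat_lit 1835007)), (.ofNat (nat_lit 10956453025530363931002142720)), (.negSucc (nat_lit 522862479)), (.negSucc (nat_lit 522862447)), (.negSucc (nat_lit 3215042415187649046384)), (.ofNat (nat_lit 3215042415187649046385)), (.negSucc (nat_lit 3215042415187649046384)), (.ofNat (nat_lit 3215042415187649046385)), (.ofNat (nat_lit 0))⟩,
    ⟨nat_lit 2, nat_lit 19, nat_lit 20, (.ofNat (nat_lit 8)), (.negSucc (nat_lit 676347775)), (.ofNat (nat_lit 3310058286946424179232704767360)), (.negSucc (nat_lit 2883583)), (.ofNat (nat_lit 14327669341078168217464340480)), (.negSucc (nat_lit 676347791)), (.negSucc (nat_lit 676347759)), (.negSucc (nat_lit 3215042415187649046384)), (.ofNat (nat_lit 3215042415187649046385)), (.negSucc (nat_lit 3215042415187649046384)), (.ofNat (nat_lit 3215042415187649046385)), (.ofNat (nat_lit 0))⟩,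
    ⟨nat_lit 0, nat_lit 20, nat_lit 21, (.ofNat (nat_lit 8)), (.negSucc (nat_lit 252657727)), (.ofNat (nat_lit 4672239762159315132702719643840)), (.negSucc (nat_lit 262143)), (.ofNat (nat_lit 22755710129947678933619834880)), (.negSucc (nat_lit 252657743)), (.negSucc (nat_lit 252657711)), (.ofNat (nat_lit 3215042415187649046385)), (.negSucc (nat_lit 3215042415187649046384)), (.negSucc (nat_lit 3215042415187649046384)), (.ofNat (nat_lit 3215042415187649046385)), (.ofNat (nat_lit 0))⟩,
    ⟨nat_lit 0, nat_lit 22, nat_lit 12, (.ofNat (nat_lit 8)), (.negSucc (nat_lit 191053823)), (.ofNat (nat_lit 3148450604819851311250423162240)), (.negSucc (nat_lit 524287)), (.ofNat (nat_lit 13484865262191217145848791040)), (.negSucc (nat_lit 191053839)), (.negSucc (nat_lit 191053807)), (.ofNat (nat_lit 3215042415187649046385)), (.negSucc (nat_lit 3215042415187649046384)), (.negSucc (nat_lit 3215042415187649046384)), (.ofNat (nat_lit 3215042415187649046385)), (.ofNat (nat_lit 0))⟩,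
    ⟨nat_lit 2, nat_lit 23, nat_lit 7, (.ofNat (nat_lit 8)), (.negSucc (nat_lit 748879551)), (.ofNat (nat_lit 2648721078582963476252995222080)), (.negSucc (nat_lit 3145727)), (.ofNat (nat_lit 10113648946643412859386593280)), (.negSucc (nat_lit 748879567)), (.negSucc (nat_lit 748879535)), (.negSucc (nat_lit 3215042415187649046384)), (.ofNat (nat_lit 3215042415187649046385)), (.negSucc (nat_lit 3215042415187649046384)), (.ofNat (nat_lit 3215042415187649046385)), (.ofNat (nat_lit 0))⟩,
    ⟨nat_lit 2, nat_lit 24, nat_lit 11, (.ofNat (nat_lit 8)), (.ofNat (nat_lit 249085696)), (.ofNat (nat_lit 3052370939826738889086250526080)), (.ofNat (nat_lit 524320)), (.ofNat (nat_lit 13484968143548503150618275360)), (.ofNat (nat_lit 249085680)), (.ofNat (nat_lit 249085712)), (.ofNat (nat_lit 0)), (.ofNat (nat_lit 3215042415187649046385)), (.ofNat (nat_lit 0)), (.ofNat (nat_lit 3215042415187649046385)), (.ofNat (nat_lit 0))⟩]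
  es := [
    ⟨nat_lit 1, nat_lit 0, (.negSucc (nat_lit 819134143)), (.negSucc (nat_lit 526974719)), (.negSucc (nat_lit 819134127)), (.negSucc (nat_lit 526974735)), (.negSucc (nat_lit 3215042415187649046384)), (.ofNat (nat_lit 0)), (.ofNat (nat_lit 1685608157773902143231098880))⟩,
    ⟨nat_lit 1, nat_lit 2, (.negSucc (nat_lit 819134143)), (.negSucc (nat_lit 674054015)), (.negSucc (nat_lit 819134127)), (.negSucc (nat_lit 674054031)), (.ofNat (nat_lit 3215042415187649046385)), (.ofNat (nat_lit 0)), (.ofNat (nat_lit 25284122366608532148466483200))⟩,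
    ⟨nat_lit 2, nat_lit 3, (.negSucc (nat_lit 674054015)), (.negSucc (nat_lit 520568703)), (.negSucc (nat_lit 674053999)), (.negSucc (nat_lit 520568719)), (.negSucc (nat_lit 3215042415187649046384)), (.ofNat (nat_lit 0)), (.ofNat (nat_lit 6742432631095608572924395520))⟩,
    ⟨nat_lit 3, nat_lit 4, (.negSucc (nat_lit 520568703)), (.ofNat (nat_lit 110935872)), (.negSucc (nat_lit 520568687)), (.ofNat (nat_lit 110935856)), (.ofNat (nat_lit 3215042415187649046385)), (.ofNat (nat_lit 0)), (.ofNat (nat_lit 18541689735512923575542087680))⟩,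
    ⟨nat_lit 5, nat_lit 4, (.negSucc (nat_lit 66928831)), (.ofNat (nat_lit 110935872)), (.negSucc (nat_lit 66928815)), (.ofNat (nat_lit 110935856)), (.negSucc (nat_lit 3215042415187649046384)), (.ofNat (nat_lit 0)), (.ofNat (nat_lit 26969730524382434291697582080))⟩,
    ⟨nat_lit 6, nat_lit 5, (.negSucc (nat_lit 770948991)), (.negSucc (nat_lit 66928831)), (.negSucc (nat_lit 770948975)), (.negSucc (nat_lit 66928847)), (.ofNat (nat_lit 3215042415187649046385)), (.ofNat (nat_lit 0)), (.ofNat (nat_lit 26969730524382434291697582080))⟩,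
    ⟨nat_lit 6, nat_lit 15, (.negSucc (nat_lit 770948991)), (.negSucc (nat_lit 677625727)), (.negSucc (nat_lit 770948975)), (.negSucc (nat_lit 677625743)), (.negSucc (nat_lit 3215042415187649046384)), (.ofNat (nat_lit 0)), (.ofNat (nat_lit 3371216315547804286462197760))⟩,
    ⟨nat_lit 23, nat_lit 7, (.negSucc (nat_lit 748879551)), (.negSucc (nat_lit 531775359)), (.negSucc (nat_lit 748879535)), (.negSucc (nat_lit 531775375)), (.ofNat (nat_lit 3215042415187649046385)), (.ofNat (nat_lit 0)), (.ofNat (nat_lit 20227297893286825718773186560))⟩,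
    ⟨nat_lit 7, nat_lit 8, (.negSucc (nat_lit 531775359)), (.ofNat (nat_lit 233619200)), (.negSucc (nat_lit 531775343)), (.ofNat (nat_lit 233619184)), (.negSucc (nat_lit 3215042415187649046384)), (.ofNat (nat_lit 0)), (.ofNat (nat_lit 8428040788869510716155494400))⟩,
    ⟨nat_lit 8, nat_lit 9, (.ofNat (nat_lit 233619200)), (.ofNat (nat_lit 787135936)), (.ofNat (nat_lit 233619216)), (.ofNat (nat_lit 787135920)), (.ofNat (nat_lit 3215042415187649046385)), (.ofNat (nat_lit 0)), (.ofNat (nat_lit 0))⟩,
    ⟨nat_lit 10, nat_lit 9, (.ofNat (nat_lit 457948800)), (.ofNat (nat_lit 787135936)), (.ofNat (nat_lit 457948816)), (.ofNat (nat_lit 787135920)), (.negSucc (nat_lit 3215042415187649046384)), (.ofNat (nat_lit 0)), (.ofNat (nat_lit 25284122366608532148466483200))⟩,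
    ⟨nat_lit 24, nat_lit 10, (.ofNat (nat_lit 249085696)), (.ofNat (nat_lit 457948800)), (.ofNat (nat_lit 249085712)), (.ofNat (nat_lit 457948784)), (.ofNat (nat_lit 3215042415187649046385)), (.ofNat (nat_lit 0)), (.ofNat (nat_lit 11799257104417315002617692160))⟩,
    ⟨nat_lit 22, nat_lit 12, (.negSucc (nat_lit 191053823)), (.ofNat (nat_lit 26918784)), (.negSucc (nat_lit 191053807)), (.ofNat (nat_lit 26918768)), (.negSucc (nat_lit 3215042415187649046384)), (.ofNat (nat_lit 0)), (.ofNat (nat_lit 11799257104417315002617692160))⟩,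
    ⟨nat_lit 13, nat_lit 12, (.negSucc (nat_lit 99369023)), (.ofNat (nat_lit 26918784)), (.negSucc (nat_lit 99369007)), (.ofNat (nat_lit 26918768)), (.ofNat (nat_lit 3215042415187649046385)), (.ofNat (nat_lit 0)), (.ofNat (nat_lit 13484865262191217145848791040))⟩,
    ⟨nat_lit 14, nat_lit 13, (.negSucc (nat_lit 540557183)), (.negSucc (nat_lit 99369023)), (.negSucc (nat_lit 540557167)), (.negSucc (nat_lit 99369039)), (.negSucc (nat_lit 3215042415187649046384)), (.ofNat (nat_lit 0)), (.ofNat (nat_lit 10113648946643412859386593280))⟩,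
    ⟨nat_lit 15, nat_lit 14, (.negSucc (nat_lit 677625727)), (.negSucc (nat_lit 540557183)), (.negSucc (nat_lit 677625711)), (.negSucc (nat_lit 540557199)), (.ofNat (nat_lit 3215042415187649046385)), (.ofNat (nat_lit 0)), (.ofNat (nat_lit 21912906051060727862004285440))⟩,
    ⟨nat_lit 16, nat_lit 17, (.negSucc (nat_lit 91291647)), (.ofNat (nat_lit 652656128)), (.negSucc (nat_lit 91291631)), (.ofNat (nat_lit 652656112)), (.ofNat (nat_lit 3215042415187649046385)), (.ofNat (nat_lit 0)), (.ofNat (nat_lit 1685608157773902143231098880))⟩,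
    ⟨nat_lit 18, nat_lit 17, (.ofNat (nat_lit 81968960)), (.ofNat (nat_lit 652656128)), (.ofNat (nat_lit 81968976)), (.ofNat (nat_lit 652656112)), (.negSucc (nat_lit 3215042415187649046384)), (.ofNat (nat_lit 0)), (.ofNat (nat_lit 23598514208834630005235384320))⟩,
    ⟨nat_lit 19, nat_lit 18, (.negSucc (nat_lit 522862463)), (.ofNat (nat_lit 81968960)), (.negSucc (nat_lit 522862447)), (.ofNat (nat_lit 81968944)), (.ofNat (nat_lit 3215042415187649046385)), (.ofNat (nat_lit 0)), (.ofNat (nat_lit 16856081577739021432310988800))⟩,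
    ⟨nat_lit 20, nat_lit 19, (.negSucc (nat_lit 676347775)), (.negSucc (nat_lit 522862463)), (.negSucc (nat_lit 676347759)), (.negSucc (nat_lit 522862479)), (.negSucc (nat_lit 3215042415187649046384)), (.ofNat (nat_lit 0)), (.ofNat (nat_lit 5056824473321706429693296640))⟩,
    ⟨nat_lit 20, nat_lit 21, (.negSucc (nat_lit 676347775)), (.negSucc (nat_lit 252657727)), (.negSucc (nat_lit 676347759)), (.negSucc (nat_lit 252657743)), (.ofNat (nat_lit 3215042415187649046385)), (.ofNat (nat_lit 0)), (.ofNat (nat_lit 23598514208834630005235384320))⟩,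
    ⟨nat_lit 21, nat_lit 11, (.negSucc (nat_lit 252657727)), (.ofNat (nat_lit 251182848)), (.negSucc (nat_lit 252657711)), (.ofNat (nat_lit 251182832)), (.negSucc (nat_lit 3215042415187649046384)), (.ofNat (nat_lit 0)), (.ofNat (nat_lit 21912906051060727862004285440))⟩,
    ⟨nat_lit 0, nat_lit 22, (.negSucc (nat_lit 526974719)), (.negSucc (nat_lit 191053823)), (.negSucc (nat_lit 526974703)), (.negSucc (nat_lit 191053839)), (.ofNat (nat_lit 3215042415187649046385)), (.ofNat (nat_lit 0)), (.ofNat (nat_lit 15170473419965119289079889920))⟩,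
    ⟨nat_lit 23, nat_lit 16, (.negSucc (nat_lit 748879551)), (.negSucc (nat_lit 91291647)), (.negSucc (nat_lit 748879535)), (.negSucc (nat_lit 91291663)), (.negSucc (nat_lit 3215042415187649046384)), (.ofNat (nat_lit 0)), (.ofNat (nat_lit 0))⟩,
    ⟨nat_lit 24, nat_lit 11, (.ofNat (nat_lit 249085696)), (.ofNat (nat_lit 251182848)), (.ofNat (nat_lit 249085712)), (.ofNat (nat_lit 251182832)), (.ofNat (nat_lit 0)), (.ofNat (nat_lit 0)), (.ofNat (nat_lit 13484968143548503150618275360))⟩]

theorem ok61 : stOK 24 24 S61 = true := by decide +kernel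

def S62 : SD where
  vs := [
    ⟨nat_lit 0, nat_lit 0, nat_lit 22, (.ofNat (nat_lit 8)), (.negSucc (nat_lit 526974719)), (.ofNat (nat_lit 2068450676032012235455228401280)), (.negSucc (nat_lit 2097151)), (.ofNat (nat_lit 8428040788869510716155494400)), (.negSucc (nat_lit 526974735)), (.negSucc (nat_lit 526974703)), (.negSucc (nat_lit 3215042415187649046384)), (.ofNat (nat_lit 3215042415187649046385)), (.negSucc (nat_lit 3215042415187649046384)), (.ofNat (nat_lit 3215042415187649046385)), (.ofNat (nat_lit 0))⟩,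
    ⟨nat_lit 2, nat_lit 0, nat_lit 1, (.ofNat (nat_lit 8)), (.negSucc (nat_lit 819134143)), (.ofNat (nat_lit 3007755616188804632761219283520)), (.negSucc (nat_lit 3670015)), (.ofNat (nat_lit 13484865262191217145848791040)), (.negSucc (nat_lit 819134159)), (.negSucc (nat_lit 819134127)), (.negSucc (nat_lit 3215042415187649046384)), (.ofNat (nat_lit 3215042415187649046385)), (.negSucc (nat_lit 3215042415187649046384)), (.ofNat (nat_lit 3215042415187649046385)), (.ofNat (nat_lit 0))⟩,
    ⟨nat_lit 0, nat_lit 1, nat_lit 2, (.ofNat (nat_lit 8)), (.negSucc (nat_lit 674054015)), (.ofNat (nat_lit 3474194381309657900429833020800)), (.negSucc (nat_lit 2883583)), (.ofNat (nat_lit 16013277498852070360695439360)), (.negSucc (nat_lit 674054031)), (.negSucc (nat_lit 674053999)), (.ofNat (nat_lit 3215042415187649046385)), (.negSucc (nat_lit 3215042415187649046384)), (.negSucc (nat_lit 3215042415187649046384)), (.ofNat (nat_lit 3215042415187649046385)), (.ofNat (nat_lit 0))⟩,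
    ⟨nat_lit 0, nat_lit 2, nat_lit 3, (.ofNat (nat_lit 8)), (.negSucc (nat_lit 520568703)), (.ofNat (nat_lit 2980732593121348047998928823680)), (.negSucc (nat_lit 1835007)), (.ofNat (nat_lit 12642061183304266074233241600)), (.negSucc (nat_lit 520568719)), (.negSucc (nat_lit 520568687)), (.negSucc (nat_lit 3215042415187649046384)), (.ofNat (nat_lit 3215042415187649046385)), (.negSucc (nat_lit 3215042415187649046384)), (.ofNat (nat_lit 3215042415187649046385)), (.ofNat (nat_lit 0))⟩,
    ⟨nat_lit 1, nat_lit 3, nat_lit 4, (.ofNat (nat_lit 8)), (.ofNat (nat_lit 110935872)), (.ofNat (nat_lit 5011046590346440319473092581440)), (.ofNat (nat_lit 1310720)), (.ofNat (nat_lit 22755710129947678933619834880)), (.ofNat (nat_lit 110935856)), (.ofNat (nat_lit 110935888)), (.ofNat (nat_lit 3215042415187649046385)), (.negSucc (nat_lit 3215042415187649046384)), (.negSucc (nat_lit 3215042415187649046384)), (.ofNat (nat_lit 3215042415187649046385)), (.ofNat (nat_lit 0))⟩,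
    ⟨nat_lit 0, nat_lit 5, nat_lit 4, (.ofNat (nat_lit 8)), (.negSucc (nat_lit 66928831)), (.ofNat (nat_lit 5582889157871236621564242876480)), (.ofNat (nat_lit 0)), (.ofNat (nat_lit 26969730524382434291697582080)), (.negSucc (nat_lit 66928847)), (.negSucc (nat_lit 66928815)), (.ofNat (nat_lit 3215042415187649046385)), (.negSucc (nat_lit 3215042415187649046384)), (.negSucc (nat_lit 3215042415187649046384)), (.ofNat (nat_lit 3215042415187649046385)), (.ofNat (nat_lit 0))⟩,
    ⟨nat_lit 2, nat_lit 6, nat_lit 5, (.ofNat (nat_lit 8)), (.negSucc (nat_lit 770948991)), (.ofNat (nat_lit 3319434482324041509904427754880)), (.negSucc (nat_lit 3670015)), (.ofNat (nat_lit 15170473419965119289079889920)), (.negSucc (nat_lit 770949007)), (.negSucc (nat_lit 770948975)), (.negSucc (nat_lit 3215042415187649046384)), (.ofNat (nat_lit 3215042415187649046385)), (.negSucc (nat_lit 3215042415187649046384)), (.ofNat (nat_lit 3215042415187649046385)), (.ofNat (nat_lit 0))⟩,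
    ⟨nat_lit 0, nat_lit 7, nat_lit 8, (.ofNat (nat_lit 8)), (.negSucc (nat_lit 531775359)), (.ofNat (nat_lit 3346720264378006550847981168000)), (.negSucc (nat_lit 1835007)), (.ofNat (nat_lit 14327669341078168217464340480)), (.negSucc (nat_lit 531775375)), (.negSucc (nat_lit 531775343)), (.ofNat (nat_lit 3215042415187649046385)), (.negSucc (nat_lit 3215042415187649046384)), (.negSucc (nat_lit 3215042415187649046384)), (.ofNat (nat_lit 3215042415187649046385)), (.ofNat (nat_lit 0))⟩,
    ⟨nat_lit 0, nat_lit 8, nat_lit 9, (.ofNat (nat_lit 8)), (.ofNat (nat_lit 233619200)), (.ofNat (nat_lit 885944289624118591555714502400)), (.ofNat (nat_lit 1310720)), (.ofNat (nat_lit 4214020394434755358077747200)), (.ofNat (nat_lit 233619184)), (.ofNat (nat_lit 233619216)), (.negSucc (nat_lit 3215042415187649046384)), (.ofNat (nat_lit 3215042415187649046385)), (.negSucc (nat_lit 3215042415187649046384)), (.ofNat (nat_lit 3215042415187649046385)), (.ofNat (nat_lit 0))⟩,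
    ⟨nat_lit 1, nat_lit 9, nat_lit 10, (.ofNat (nat_lit 8)), (.ofNat (nat_lit 787135936)), (.ofNat (nat_lit 2665524073380342919224252301760)), (.ofNat (nat_lit 3932160)), (.ofNat (nat_lit 12642061183304266074233241600)), (.ofNat (nat_lit 787135920)), (.ofNat (nat_lit 787135952)), (.ofNat (nat_lit 3215042415187649046385)), (.negSucc (nat_lit 3215042415187649046384)), (.negSucc (nat_lit 3215042415187649046384)), (.ofNat (nat_lit 3215042415187649046385)), (.ofNat (nat_lit 0))⟩,
    ⟨nat_lit 0, nat_lit 11, nat_lit 10, (.ofNat (nat_lit 8)), (.ofNat (nat_lit 457948800)), (.ofNat (nat_lit 3723874678154488011376861605120)), (.ofNat (nat_lit 2097152)), (.ofNat (nat_lit 18541689735512923575542087680)), (.ofNat (nat_lit 457948784)), (.ofNat (nat_lit 457948816)), (.ofNat (nat_lit 3215042415187649046385)), (.negSucc (nat_lit 3215042415187649046384)), (.negSucc (nat_lit 3215042415187649046384)), (.ofNat (nat_lit 3215042415187649046385)), (.ofNat (nat_lit 0))⟩,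
    ⟨nat_lit 1, nat_lit 21, nat_lit 25, (.ofNat (nat_lit 8)), (.ofNat (nat_lit 251182848)), (.ofNat (nat_lit 3052370939826738889086250526080)), (.ofNat (nat_lit 2621408)), (.ofNat (nat_lit 13484968143548503150618275360)), (.ofNat (nat_lit 251182832)), (.ofNat (nat_lit 251182864)), (.negSucc (nat_lit 3215042415187649046384)), (.ofNat (nat_lit 0)), (.negSucc (nat_lit 3215042415187649046384)), (.ofNat (nat_lit 0)), (.ofNat (nat_lit 0))⟩,
    ⟨nat_lit 1, nat_lit 13, nat_lit 12, (.ofNat (nat_lit 8)), (.ofNat (nat_lit 26918784)), (.ofNat (nat_lit 2447659424750780639221171740160)), (.negSucc (nat_lit 262143)), (.ofNat (nat_lit 12642061183304266074233241600)), (.ofNat (nat_lit 26918768)), (.ofNat (nat_lit 26918800)), (.ofNat (nat_lit 3215042415187649046385)), (.negSucc (nat_lit 3215042415187649046384)), (.negSucc (nat_lit 3215042415187649046384)), (.ofNat (nat_lit 3215042415187649046385)), (.ofNat (nat_lit 0))⟩,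
    ⟨nat_lit 0, nat_lit 14, nat_lit 13, (.ofNat (nat_lit 8)), (.negSucc (nat_lit 99369023)), (.ofNat (nat_lit 2041638765509706532479919766080)), (.negSucc (nat_lit 524287)), (.ofNat (nat_lit 11799257104417315002617692160)), (.negSucc (nat_lit 99369039)), (.negSucc (nat_lit 99369007)), (.negSucc (nat_lit 3215042415187649046384)), (.ofNat (nat_lit 3215042415187649046385)), (.negSucc (nat_lit 3215042415187649046384)), (.ofNat (nat_lit 3215042415187649046385)), (.ofNat (nat_lit 0))⟩,
    ⟨nat_lit 0, nat_lit 15, nat_lit 14, (.ofNat (nat_lit 8)), (.negSucc (nat_lit 540557183)), (.ofNat (nat_lit 3460077412988301469980272567680)), (.negSucc (nat_lit 1835007)), (.ofNat (nat_lit 16013277498852070360695439360)), (.negSucc (nat_lit 540557199)), (.negSucc (nat_lit 540557167)), (.ofNat (nat_lit 3215042415187649046385)), (.negSucc (nat_lit 3215042415187649046384)), (.negSucc (nat_lit 3215042415187649046384)), (.ofNat (nat_lit 3215042415187649046385)), (.ofNat (nat_lit 0))⟩,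
    ⟨nat_lit 0, nat_lit 6, nat_lit 15, (.ofNat (nat_lit 8)), (.negSucc (nat_lit 677625727)), (.ofNat (nat_lit 3019396230240286928409292154240)), (.negSucc (nat_lit 2883583)), (.ofNat (nat_lit 12642061183304266074233241600)), (.negSucc (nat_lit 677625743)), (.negSucc (nat_lit 677625711)), (.negSucc (nat_lit 3215042415187649046384)), (.ofNat (nat_lit 3215042415187649046385)), (.negSucc (nat_lit 3215042415187649046384)), (.ofNat (nat_lit 3215042415187649046385)), (.ofNat (nat_lit 0))⟩,
    ⟨nat_lit 0, nat_lit 23, nat_lit 16, (.ofNat (nat_lit 8)), (.negSucc (nat_lit 91291647)), (.ofNat (nat_lit 534548075508619573153084295040)), (.negSucc (nat_lit 262143)), (.ofNat (nat_lit 842804078886951071615549440)), (.negSucc (nat_lit 91291663)), (.negSucc (nat_lit 91291631)), (.negSucc (nat_lit 3215042415187649046384)), (.ofNat (nat_lit 3215042415187649046385)), (.negSucc (nat_lit 3215042415187649046384)), (.ofNat (nat_lit 3215042415187649046385)), (.ofNat (nat_lit 0))⟩,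
    ⟨nat_lit 1, nat_lit 16, nat_lit 17, (.ofNat (nat_lit 8)), (.ofNat (nat_lit 652656128)), (.ofNat (nat_lit 2926371730033139703879725884800)), (.ofNat (nat_lit 3407872)), (.ofNat (nat_lit 12642061183304266074233241600)), (.ofNat (nat_lit 652656112)), (.ofNat (nat_lit 652656144)), (.ofNat (nat_lit 3215042415187649046385)), (.negSucc (nat_lit 3215042415187649046384)), (.negSucc (nat_lit 3215042415187649046384)), (.ofNat (nat_lit 3215042415187649046385)), (.ofNat (nat_lit 0))⟩,
    ⟨nat_lit 0, nat_lit 18, nat_lit 17, (.ofNat (nat_lit 8)), (.ofNat (nat_lit 81968960)), (.ofNat (nat_lit 4761155180956459326739082172480)), (.ofNat (nat_lit 1048576)), (.ofNat (nat_lit 20227297893286825718773186560)), (.ofNat (nat_lit 81968944)), (.ofNat (nat_lit 81968976)), (.ofNat (nat_lit 3215042415187649046385)), (.negSucc (nat_lit 3215042415187649046384)), (.negSucc (nat_lit 3215042415187649046384)), (.ofNat (nat_lit 3215042415187649046385)), (.ofNat (nat_lit 0))⟩,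
    ⟨nat_lit 0, nat_lit 19, nat_lit 18, (.ofNat (nat_lit 8)), (.negSucc (nat_lit 522862463)), (.ofNat (nat_lit 2816596498758114326801800570240)), (.negSucc (nat_lit 1835007)), (.ofNat (nat_lit 10956453025530363931002142720)), (.negSucc (nat_lit 522862479)), (.negSucc (nat_lit 522862447)), (.negSucc (nat_lit 3215042415187649046384)), (.ofNat (nat_lit 3215042415187649046385)), (.negSucc (nat_lit 3215042415187649046384)), (.ofNat (nat_lit 3215042415187649046385)), (.ofNat (nat_lit 0))⟩,
    ⟨nat_lit 2, nat_lit 19, nat_lit 20, (.ofNat (nat_lit 8)), (.negSucc (nat_lit 676347775)), (.ofNat (nat_lit 3310058286946424179232704767360)), (.negSucc (nat_lit 2883583)), (.ofNat (nat_lit 14327669341078168217464340480)), (.negSucc (nat_lit 676347791)), (.negSucc (nat_lit 676347759)), (.negSucc (nat_lit 3215042415187649046384)), (.ofNat (nat_lit 3215042415187649046385)), (.negSucc (nat_lit 3215042415187649046384)), (.ofNat (nat_lit 3215042415187649046385)), (.ofNat (nat_lit 0))⟩,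
    ⟨nat_lit 0, nat_lit 20, nat_lit 21, (.ofNat (nat_lit 8)), (.negSucc (nat_lit 252657727)), (.ofNat (nat_lit 4672239762159315132702719643840)), (.negSucc (nat_lit 262143)), (.ofNat (nat_lit 22755710129947678933619834880)), (.negSucc (nat_lit 252657743)), (.negSucc (nat_lit 252657711)), (.ofNat (nat_lit 3215042415187649046385)), (.negSucc (nat_lit 3215042415187649046384)), (.negSucc (nat_lit 3215042415187649046384)), (.ofNat (nat_lit 3215042415187649046385)), (.ofNat (nat_lit 0))⟩,
    ⟨nat_lit 0, nat_lit 22, nat_lit 12, (.ofNat (nat_lit 8)), (.negSucc (nat_lit 191053823)), (.ofNat (nat_lit 3148450604819851311250423162240)), (.negSucc (nat_lit 524287)), (.ofNat (nat_lit 13484865262191217145848791040)), (.negSucc (nat_lit 191053839)), (.negSucc (nat_lit 191053807)), (.ofNat (nat_lit 3215042415187649046385)), (.negSucc (nat_lit 3215042415187649046384)), (.negSucc (nat_lit 3215042415187649046384)), (.ofNat (nat_lit 3215042415187649046385)), (.ofNat (nat_lit 0))⟩,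
    ⟨nat_lit 2, nat_lit 23, nat_lit 7, (.ofNat (nat_lit 8)), (.negSucc (nat_lit 748879551)), (.ofNat (nat_lit 2648721078582963476252995222080)), (.negSucc (nat_lit 3145727)), (.ofNat (nat_lit 10113648946643412859386593280)), (.negSucc (nat_lit 748879567)), (.negSucc (nat_lit 748879535)), (.negSucc (nat_lit 3215042415187649046384)), (.ofNat (nat_lit 3215042415187649046385)), (.negSucc (nat_lit 3215042415187649046384)), (.ofNat (nat_lit 3215042415187649046385)), (.ofNat (nat_lit 0))⟩,
    ⟨nat_lit 2, nat_lit 24, nat_lit 11, (.ofNat (nat_lit 8)), (.ofNat (nat_lit 249085696)), (.ofNat (nat_lit 3052370939826738889086250526080)), (.ofNat (nat_lit 524320)), (.ofNat (nat_lit 13484968143548503150618275360)), (.ofNat (nat_lit 249085680)), (.ofNat (nat_lit 249085712)), (.ofNat (nat_lit 0)), (.ofNat (nat_lit 3215042415187649046385)), (.ofNat (nat_lit 0)), (.ofNat (nat_lit 3215042415187649046385)), (.ofNat (nat_lit 0))⟩,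
    ⟨nat_lit 0, nat_lit 24, nat_lit 25, (.ofNat (nat_lit 8)), (.ofNat (nat_lit 250134272)), (.ofNat (nat_lit 3052370939826738889086250526080)), (.ofNat (nat_lit 0)), (.ofNat (nat_lit 13484968143548503150618275360)), (.ofNat (nat_lit 250134256)), (.ofNat (nat_lit 250134288)), (.ofNat (nat_lit 0)), (.ofNat (nat_lit 0)), (.ofNat (nat_lit 0)), (.ofNat (nat_lit 0)), (.ofNat (nat_lit 0))⟩]
  es := [
    ⟨nat_lit 1, nat_lit 0, (.negSucc (nat_lit 819134143)), (.negSucc (nat_lit 526974719)), (.negSucc (nat_lit 819134127)), (.negSucc (nat_lit 526974735)), (.negSucc (nat_lit 3215042415187649046384)), (.ofNat (nat_lit 0)), (.ofNat (nat_lit 1685608157773902143231098880))⟩,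
    ⟨nat_lit 1, nat_lit 2, (.negSucc (nat_lit 819134143)), (.negSucc (nat_lit 674054015)), (.negSucc (nat_lit 819134127)), (.negSucc (nat_lit 674054031)), (.ofNat (nat_lit 3215042415187649046385)), (.ofNat (nat_lit 0)), (.ofNat (nat_lit 25284122366608532148466483200))⟩,
    ⟨nat_lit 2, nat_lit 3, (.negSucc (nat_lit 674054015)), (.negSucc (nat_lit 520568703)), (.negSucc (nat_lit 674053999)), (.negSucc (nat_lit 520568719)), (.negSucc (nat_lit 3215042415187649046384)), (.ofNat (nat_lit 0)), (.ofNat (nat_lit 6742432631095608572924395520))⟩,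
    ⟨nat_lit 3, nat_lit 4, (.negSucc (nat_lit 520568703)), (.ofNat (nat_lit 110935872)), (.negSucc (nat_lit 520568687)), (.ofNat (nat_lit 110935856)), (.ofNat (nat_lit 3215042415187649046385)), (.ofNat (nat_lit 0)), (.ofNat (nat_lit 18541689735512923575542087680))⟩,
    ⟨nat_lit 5, nat_lit 4, (.negSucc (nat_lit 66928831)), (.ofNat (nat_lit 110935872)), (.negSucc (nat_lit 66928815)), (.ofNat (nat_lit 110935856)), (.negSucc (nat_lit 3215042415187649046384)), (.ofNat (nat_lit 0)), (.ofNat (nat_lit 26969730524382434291697582080))⟩,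
    ⟨nat_lit 6, nat_lit 5, (.negSucc (nat_lit 770948991)), (.negSucc (nat_lit 66928831)), (.negSucc (nat_lit 770948975)), (.negSucc (nat_lit 66928847)), (.ofNat (nat_lit 3215042415187649046385)), (.ofNat (nat_lit 0)), (.ofNat (nat_lit 26969730524382434291697582080))⟩,
    ⟨nat_lit 6, nat_lit 15, (.negSucc (nat_lit 770948991)), (.negSucc (nat_lit 677625727)), (.negSucc (nat_lit 770948975)), (.negSucc (nat_lit 677625743)), (.negSucc (nat_lit 3215042415187649046384)), (.ofNat (nat_lit 0)), (.ofNat (nat_lit 3371216315547804286462197760))⟩,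
    ⟨nat_lit 23, nat_lit 7, (.negSucc (nat_lit 748879551)), (.negSucc (nat_lit 531775359)), (.negSucc (nat_lit 748879535)), (.negSucc (nat_lit 531775375)), (.ofNat (nat_lit 3215042415187649046385)), (.ofNat (nat_lit 0)), (.ofNat (nat_lit 20227297893286825718773186560))⟩,
    ⟨nat_lit 7, nat_lit 8, (.negSucc (nat_lit 531775359)), (.ofNat (nat_lit 233619200)), (.negSucc (nat_lit 531775343)), (.ofNat (nat_lit 233619184)), (.negSucc (nat_lit 3215042415187649046384)), (.ofNat (nat_lit 0)), (.ofNat (nat_lit 8428040788869510716155494400))⟩,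
    ⟨nat_lit 8, nat_lit 9, (.ofNat (nat_lit 233619200)), (.ofNat (nat_lit 787135936)), (.ofNat (nat_lit 233619216)), (.ofNat (nat_lit 787135920)), (.ofNat (nat_lit 3215042415187649046385)), (.ofNat (nat_lit 0)), (.ofNat (nat_lit 0))⟩,
    ⟨nat_lit 10, nat_lit 9, (.ofNat (nat_lit 457948800)), (.ofNat (nat_lit 787135936)), (.ofNat (nat_lit 457948816)), (.ofNat (nat_lit 787135920)), (.negSucc (nat_lit 3215042415187649046384)), (.ofNat (nat_lit 0)), (.ofNat (nat_lit 25284122366608532148466483200))⟩,
    ⟨nat_lit 24, nat_lit 10, (.ofNat (nat_lit 249085696)), (.ofNat (nat_lit 457948800)), (.ofNat (nat_lit 249085712)), (.ofNat (nat_lit 457948784)), (.ofNat (nat_lit 3215042415187649046385)), (.ofNat (nat_lit 0)), (.ofNat (nat_lit 11799257104417315002617692160))⟩,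
    ⟨nat_lit 22, nat_lit 12, (.negSucc (nat_lit 191053823)), (.ofNat (nat_lit 26918784)), (.negSucc (nat_lit 191053807)), (.ofNat (nat_lit 26918768)), (.negSucc (nat_lit 3215042415187649046384)), (.ofNat (nat_lit 0)), (.ofNat (nat_lit 11799257104417315002617692160))⟩,
    ⟨nat_lit 13, nat_lit 12, (.negSucc (nat_lit 99369023)), (.ofNat (nat_lit 26918784)), (.negSucc (nat_lit 99369007)), (.ofNat (nat_lit 26918768)), (.ofNat (nat_lit 3215042415187649046385)), (.ofNat (nat_lit 0)), (.ofNat (nat_lit 13484865262191217145848791040))⟩,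
    ⟨nat_lit 14, nat_lit 13, (.negSucc (nat_lit 540557183)), (.negSucc (nat_lit 99369023)), (.negSucc (nat_lit 540557167)), (.negSucc (nat_lit 99369039)), (.negSucc (nat_lit 3215042415187649046384)), (.ofNat (nat_lit 0)), (.ofNat (nat_lit 10113648946643412859386593280))⟩,
    ⟨nat_lit 15, nat_lit 14, (.negSucc (nat_lit 677625727)), (.negSucc (nat_lit 540557183)), (.negSucc (nat_lit 677625711)), (.negSucc (nat_lit 540557199)), (.ofNat (nat_lit 3215042415187649046385)), (.ofNat (nat_lit 0)), (.ofNat (nat_lit 21912906051060727862004285440))⟩,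
    ⟨nat_lit 16, nat_lit 17, (.negSucc (nat_lit 91291647)), (.ofNat (nat_lit 652656128)), (.negSucc (nat_lit 91291631)), (.ofNat (nat_lit 652656112)), (.ofNat (nat_lit 3215042415187649046385)), (.ofNat (nat_lit 0)), (.ofNat (nat_lit 1685608157773902143231098880))⟩,
    ⟨nat_lit 18, nat_lit 17, (.ofNat (nat_lit 81968960)), (.ofNat (nat_lit 652656128)), (.ofNat (nat_lit 81968976)), (.ofNat (nat_lit 652656112)), (.negSucc (nat_lit 3215042415187649046384)), (.ofNat (nat_lit 0)), (.ofNat (nat_lit 23598514208834630005235384320))⟩,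
    ⟨nat_lit 19, nat_lit 18, (.negSucc (nat_lit 522862463)), (.ofNat (nat_lit 81968960)), (.negSucc (nat_lit 522862447)), (.ofNat (nat_lit 81968944)), (.ofNat (nat_lit 3215042415187649046385)), (.ofNat (nat_lit 0)), (.ofNat (nat_lit 16856081577739021432310988800))⟩,
    ⟨nat_lit 20, nat_lit 19, (.negSucc (nat_lit 676347775)), (.negSucc (nat_lit 522862463)), (.negSucc (nat_lit 676347759)), (.negSucc (nat_lit 522862479)), (.negSucc (nat_lit 3215042415187649046384)), (.ofNat (nat_lit 0)), (.ofNat (nat_lit 5056824473321706429693296640))⟩,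
    ⟨nat_lit 20, nat_lit 21, (.negSucc (nat_lit 676347775)), (.negSucc (nat_lit 252657727)), (.negSucc (nat_lit 676347759)), (.negSucc (nat_lit 252657743)), (.ofNat (nat_lit 3215042415187649046385)), (.ofNat (nat_lit 0)), (.ofNat (nat_lit 23598514208834630005235384320))⟩,
    ⟨nat_lit 21, nat_lit 11, (.negSucc (nat_lit 252657727)), (.ofNat (nat_lit 251182848)), (.negSucc (nat_lit 252657711)), (.ofNat (nat_lit 251182832)), (.negSucc (nat_lit 3215042415187649046384)), (.ofNat (nat_lit 0)), (.ofNat (nat_lit 21912906051060727862004285440))⟩,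
    ⟨nat_lit 0, nat_lit 22, (.negSucc (nat_lit 526974719)), (.negSucc (nat_lit 191053823)), (.negSucc (nat_lit 526974703)), (.negSucc (nat_lit 191053839)), (.ofNat (nat_lit 3215042415187649046385)), (.ofNat (nat_lit 0)), (.ofNat (nat_lit 15170473419965119289079889920))⟩,
    ⟨nat_lit 23, nat_lit 16, (.negSucc (nat_lit 748879551)), (.negSucc (nat_lit 91291647)), (.negSucc (nat_lit 748879535)), (.negSucc (nat_lit 91291663)), (.negSucc (nat_lit 3215042415187649046384)), (.ofNat (nat_lit 0)), (.ofNat (nat_lit 0))⟩,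
    ⟨nat_lit 24, nat_lit 25, (.ofNat (nat_lit 249085696)), (.ofNat (nat_lit 250134272)), (.ofNat (nat_lit 249085712)), (.ofNat (nat_lit 250134256)), (.ofNat (nat_lit 0)), (.ofNat (nat_lit 0)), (.ofNat (nat_lit 13484968143548503150618275360))⟩,
    ⟨nat_lit 25, nat_lit 11, (.ofNat (nat_lit 250134272)), (.ofNat (nat_lit 251182848)), (.ofNat (nat_lit 250134288)), (.ofNat (nat_lit 251182832)), (.ofNat (nat_lit 0)), (.ofNat (nat_lit 0)), (.ofNat (nat_lit 13484968143548503150618275360))⟩]

theorem ok62 : stOK 25 25 S62 = true := by decide +kernel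

def S63 : SD where
  vs := [
    ⟨nat_lit 0, nat_lit 0, nat_lit 22, (.ofNat (nat_lit 8)), (.negSucc (nat_lit 526974719)), (.ofNat (nat_lit 4136901352064024470910456802560)), (.ofNat (nat_lit 0)), (.ofNat (nat_lit 2068450676032012235455228401280)), (.negSucc (nat_lit 526974735)), (.negSucc (nat_lit 526974703)), (.negSucc (nat_lit 6430084830375298092769)), (.ofNat (nat_lit 6430084830375298092770)), (.negSucc (nat_lit 6430084830375298092769)), (.ofNat (nat_lit 6430084830375298092770)), (.ofNat (nat_lit 19290254491125894278310))⟩,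
    ⟨nat_lit 2, nat_lit 0, nat_lit 1, (.ofNat (nat_lit 8)), (.negSucc (nat_lit 819134143)), (.ofNat (nat_lit 6015511232377609265522438567040)), (.ofNat (nat_lit 0)), (.ofNat (nat_lit 3007755616188804632761219283520)), (.negSucc (nat_lit 819134159)), (.negSucc (nat_lit 819134127)), (.negSucc (nat_lit 6430084830375298092769)), (.ofNat (nat_lit 6430084830375298092770)), (.negSucc (nat_lit 6430084830375298092769)), (.ofNat (nat_lit 6430084830375298092770)), (.ofNat (nat_lit 19290254491125894278310))⟩,
    ⟨nat_lit 0, nat_lit 1, nat_lit 2, (.ofNat (nat_lit 8)), (.negSucc (nat_lit 674054015)), (.ofNat (nat_lit 6948388762619315800859666041600)), (.ofNat (nat_lit 0)), (.ofNat (nat_lit 3474194381309657900429833020800)), (.negSucc (nat_lit 674054031)), (.negSucc (nat_lit 674053999)), (.ofNat (nat_lit 6430084830375298092770)), (.negSucc (nat_lit 6430084830375298092769)), (.negSucc (nat_lit 6430084830375298092769)), (.ofNat (nat_lit 6430084830375298092770)), (.ofNat (nat_lit 19290254491125894278310))⟩,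
    ⟨nat_lit 0, nat_lit 2, nat_lit 3, (.ofNat (nat_lit 8)), (.negSucc (nat_lit 520568703)), (.ofNat (nat_lit 5961465186242696095997857647360)), (.ofNat (nat_lit 0)), (.ofNat (nat_lit 2980732593121348047998928823680)), (.negSucc (nat_lit 520568719)), (.negSucc (nat_lit 520568687)), (.negSucc (nat_lit 6430084830375298092769)), (.ofNat (nat_lit 6430084830375298092770)), (.negSucc (nat_lit 6430084830375298092769)), (.ofNat (nat_lit 6430084830375298092770)), (.ofNat (nat_lit 19290254491125894278310))⟩,
    ⟨nat_lit 1, nat_lit 3, nat_lit 4, (.ofNat (nat_lit 8)), (.ofNat (nat_lit 110935872)), (.ofNat (nat_lit 10022093180692880638946185162880)), (.ofNat (nat_lit 0)), (.ofNat (nat_lit 5011046590346440319473092581440)), (.ofNat (nat_lit 110935856)), (.ofNat (nat_lit 110935888)), (.ofNat (nat_lit 6430084830375298092770)), (.negSucc (nat_lit 6430084830375298092769)), (.negSucc (nat_lit 6430084830375298092769)), (.ofNat (nat_lit 6430084830375298092770)), (.ofNat (nat_lit 19290254491125894278310))⟩,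
    ⟨nat_lit 0, nat_lit 5, nat_lit 4, (.ofNat (nat_lit 8)), (.negSucc (nat_lit 66928831)), (.ofNat (nat_lit 11165778315742473243128485752960)), (.ofNat (nat_lit 0)), (.ofNat (nat_lit 5582889157871236621564242876480)), (.negSucc (nat_lit 66928847)), (.negSucc (nat_lit 66928815)), (.ofNat (nat_lit 6430084830375298092770)), (.negSucc (nat_lit 6430084830375298092769)), (.negSucc (nat_lit 6430084830375298092769)), (.ofNat (nat_lit 6430084830375298092770)), (.ofNat (nat_lit 19290254491125894278310))⟩,
    ⟨nat_lit 2, nat_lit 6, nat_lit 5, (.ofNat (nat_lit 8)), (.negSucc (nat_lit 770948991)), (.ofNat (nat_lit 6638868964648083019808855509760)), (.ofNat (nat_lit 0)), (.ofNat (nat_lit 3319434482324041509904427754880)), (.negSucc (nat_lit 770949007)), (.negSucc (nat_lit 770948975)), (.negSucc (nat_lit 6430084830375298092769)), (.ofNat (nat_lit 6430084830375298092770)), (.negSucc (nat_lit 6430084830375298092769)), (.ofNat (nat_lit 6430084830375298092770)), (.ofNat (nat_lit 19290254491125894278310))⟩,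
    ⟨nat_lit 0, nat_lit 7, nat_lit 8, (.ofNat (nat_lit 8)), (.negSucc (nat_lit 531775359)), (.ofNat (nat_lit 6693440528756013101695962336000)), (.ofNat (nat_lit 0)), (.ofNat (nat_lit 3346720264378006550847981168000)), (.negSucc (nat_lit 531775375)), (.negSucc (nat_lit 531775343)), (.ofNat (nat_lit 6430084830375298092770)), (.negSucc (nat_lit 6430084830375298092769)), (.negSucc (nat_lit 6430084830375298092769)), (.ofNat (nat_lit 6430084830375298092770)), (.ofNat (nat_lit 19290254491125894278310))⟩,
    ⟨nat_lit 0, nat_lit 8, nat_lit 9, (.ofNat (nat_lit 8)), (.ofNat (nat_lit 233619200)), (.ofNat (nat_lit 1771888579248237183111429004800)), (.ofNat (nat_lit 0)), (.ofNat (nat_lit 885944289624118591555714502400)), (.ofNat (nat_lit 233619184)), (.ofNat (nat_lit 233619216)), (.negSucc (nat_lit 6430084830375298092769)), (.ofNat (nat_lit 6430084830375298092770)), (.negSucc (nat_lit 6430084830375298092769)), (.ofNat (nat_lit 6430084830375298092770)), (.ofNat (nat_lit 19290254491125894278310))⟩,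
    ⟨nat_lit 1, nat_lit 9, nat_lit 10, (.ofNat (nat_lit 8)), (.ofNat (nat_lit 787135936)), (.ofNat (nat_lit 5331048146760685838448504603520)), (.ofNat (nat_lit 0)), (.ofNat (nat_lit 2665524073380342919224252301760)), (.ofNat (nat_lit 787135920)), (.ofNat (nat_lit 787135952)), (.ofNat (nat_lit 6430084830375298092770)), (.negSucc (nat_lit 6430084830375298092769)), (.negSucc (nat_lit 6430084830375298092769)), (.ofNat (nat_lit 6430084830375298092770)), (.ofNat (nat_lit 19290254491125894278310))⟩,
    ⟨nat_lit 0, nat_lit 11, nat_lit 10, (.ofNat (nat_lit 8)), (.ofNat (nat_lit 457948800)), (.ofNat (nat_lit 7447749356308976022753723210240)), (.ofNat (nat_lit 0)), (.ofNat (nat_lit 3723874678154488011376861605120)), (.ofNat (nat_lit 457948784)), (.ofNat (nat_lit 457948816)), (.ofNat (nat_lit 6430084830375298092770)), (.negSucc (nat_lit 6430084830375298092769)), (.negSucc (nat_lit 6430084830375298092769)), (.ofNat (nat_lit 6430084830375298092770)), (.ofNat (nat_lit 19290254491125894278310))⟩,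
    ⟨nat_lit 1, nat_lit 21, nat_lit 25, (.ofNat (nat_lit 8)), (.ofNat (nat_lit 251182848)), (.ofNat (nat_lit 6104741879653477778172501052160)), (.ofNat (nat_lit 0)), (.ofNat (nat_lit 3052370939826738889086250526080)), (.ofNat (nat_lit 251182832)), (.ofNat (nat_lit 251182864)), (.negSucc (nat_lit 6430084830375298092769)), (.ofNat (nat_lit 6430084830375298092770)), (.negSucc (nat_lit 6430084830375298092769)), (.ofNat (nat_lit 6430084830375298092770)), (.ofNat (nat_lit 25720339321501192371080))⟩,
    ⟨nat_lit 1, nat_lit 13, nat_lit 12, (.ofNat (nat_lit 8)), (.ofNat (nat_lit 26918784)), (.ofNat (nat_lit 4895318849501561278442343480320)), (.ofNat (nat_lit 0)), (.ofNat (nat_lit 2447659424750780639221171740160)), (.ofNat (nat_lit 26918768)), (.ofNat (nat_lit 26918800)), (.ofNat (nat_lit 6430084830375298092770)), (.negSucc (nat_lit 6430084830375298092769)), (.negSucc (nat_lit 6430084830375298092769)), (.ofNat (nat_lit 6430084830375298092770)), (.ofNat (nat_lit 19290254491125894278310))⟩,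
    ⟨nat_lit 0, nat_lit 14, nat_lit 13, (.ofNat (nat_lit 8)), (.negSucc (nat_lit 99369023)), (.ofNat (nat_lit 4083277531019413064959839532160)), (.ofNat (nat_lit 0)), (.ofNat (nat_lit 2041638765509706532479919766080)), (.negSucc (nat_lit 99369039)), (.negSucc (nat_lit 99369007)), (.negSucc (nat_lit 6430084830375298092769)), (.ofNat (nat_lit 6430084830375298092770)), (.negSucc (nat_lit 6430084830375298092769)), (.ofNat (nat_lit 6430084830375298092770)), (.ofNat (nat_lit 19290254491125894278310))⟩,
    ⟨nat_lit 0, nat_lit 15, nat_lit 14, (.ofNat (nat_lit 8)), (.negSucc (nat_lit 540557183)), (.ofNat (nat_lit 6920154825976602939960545135360)), (.ofNat (nat_lit 0)), (.ofNat (nat_lit 3460077412988301469980272567680)), (.negSucc (nat_lit 540557199)), (.negSucc (nat_lit 540557167)), (.ofNat (nat_lit 6430084830375298092770)), (.negSucc (nat_lit 6430084830375298092769)), (.negSucc (nat_lit 6430084830375298092769)), (.ofNat (nat_lit 6430084830375298092770)), (.ofNat (nat_lit 19290254491125894278310))⟩,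
    ⟨nat_lit 0, nat_lit 6, nat_lit 15, (.ofNat (nat_lit 8)), (.negSucc (nat_lit 677625727)), (.ofNat (nat_lit 6038792460480573856818584308480)), (.ofNat (nat_lit 0)), (.ofNat (nat_lit 3019396230240286928409292154240)), (.negSucc (nat_lit 677625743)), (.negSucc (nat_lit 677625711)), (.negSucc (nat_lit 6430084830375298092769)), (.ofNat (nat_lit 6430084830375298092770)), (.negSucc (nat_lit 6430084830375298092769)), (.ofNat (nat_lit 6430084830375298092770)), (.ofNat (nat_lit 19290254491125894278310))⟩,
    ⟨nat_lit 0, nat_lit 23, nat_lit 16, (.ofNat (nat_lit 8)), (.negSucc (nat_lit 91291647)), (.ofNat (nat_lit 1069096151017239146306168590080)), (.ofNat (nat_lit 0)), (.ofNat (nat_lit 534548075508619573153084295040)), (.negSucc (nat_lit 91291663)), (.negSucc (nat_lit 91291631)), (.negSucc (nat_lit 6430084830375298092769)), (.ofNat (nat_lit 6430084830375298092770)), (.negSucc (nat_lit 6430084830375298092769)), (.ofNat (nat_lit 6430084830375298092770)), (.ofNat (nat_lit 19290254491125894278310))⟩,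
    ⟨nat_lit 1, nat_lit 16, nat_lit 17, (.ofNat (nat_lit 8)), (.ofNat (nat_lit 652656128)), (.ofNat (nat_lit 5852743460066279407759451769600)), (.ofNat (nat_lit 0)), (.ofNat (nat_lit 2926371730033139703879725884800)), (.ofNat (nat_lit 652656112)), (.ofNat (nat_lit 652656144)), (.ofNat (nat_lit 6430084830375298092770)), (.negSucc (nat_lit 6430084830375298092769)), (.negSucc (nat_lit 6430084830375298092769)), (.ofNat (nat_lit 6430084830375298092770)), (.ofNat (nat_lit 19290254491125894278310))⟩,
    ⟨nat_lit 0, nat_lit 18, nat_lit 17, (.ofNat (nat_lit 8)), (.ofNat (nat_lit 81968960)), (.ofNat (nat_lit 9522310361912918653478164344960)), (.ofNat (nat_lit 0)), (.ofNat (nat_lit 4761155180956459326739082172480)), (.ofNat (nat_lit 81968944)), (.ofNat (nat_lit 81968976)), (.ofNat (nat_lit 6430084830375298092770)), (.negSucc (nat_lit 6430084830375298092769)), (.negSucc (nat_lit 6430084830375298092769)), (.ofNat (nat_lit 6430084830375298092770)), (.ofNat (nat_lit 19290254491125894278310))⟩,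
    ⟨nat_lit 0, nat_lit 19, nat_lit 18, (.ofNat (nat_lit 8)), (.negSucc (nat_lit 522862463)), (.ofNat (nat_lit 5633192997516228653603601140480)), (.ofNat (nat_lit 0)), (.ofNat (nat_lit 2816596498758114326801800570240)), (.negSucc (nat_lit 522862479)), (.negSucc (nat_lit 522862447)), (.negSucc (nat_lit 6430084830375298092769)), (.ofNat (nat_lit 6430084830375298092770)), (.negSucc (nat_lit 6430084830375298092769)), (.ofNat (nat_lit 6430084830375298092770)), (.ofNat (nat_lit 19290254491125894278310))⟩,
    ⟨nat_lit 2, nat_lit 19, nat_lit 20, (.ofNat (nat_lit 8)), (.negSucc (nat_lit 676347775)), (.ofNat (nat_lit 6620116573892848358465409534720)), (.ofNat (nat_lit 0)), (.ofNat (nat_lit 3310058286946424179232704767360)), (.negSucc (nat_lit 676347791)), (.negSucc (nat_lit 676347759)), (.negSucc (nat_lit 6430084830375298092769)), (.ofNat (nat_lit 6430084830375298092770)), (.negSucc (nat_lit 6430084830375298092769)), (.ofNat (nat_lit 6430084830375298092770)), (.ofNat (nat_lit 19290254491125894278310))⟩,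
    ⟨nat_lit 0, nat_lit 20, nat_lit 21, (.ofNat (nat_lit 8)), (.negSucc (nat_lit 252657727)), (.ofNat (nat_lit 9344479524318630265405439287680)), (.ofNat (nat_lit 0)), (.ofNat (nat_lit 4672239762159315132702719643840)), (.negSucc (nat_lit 252657743)), (.negSucc (nat_lit 252657711)), (.ofNat (nat_lit 6430084830375298092770)), (.negSucc (nat_lit 6430084830375298092769)), (.negSucc (nat_lit 6430084830375298092769)), (.ofNat (nat_lit 6430084830375298092770)), (.ofNat (nat_lit 19290254491125894278310))⟩,
    ⟨nat_lit 0, nat_lit 22, nat_lit 12, (.ofNat (nat_lit 8)), (.negSucc (nat_lit 191053823)), (.ofNat (nat_lit 6296901209639702622500846324480)), (.ofNat (nat_lit 0)), (.ofNat (nat_lit 3148450604819851311250423162240)), (.negSucc (nat_lit 191053839)), (.negSucc (nat_lit 191053807)), (.ofNat (nat_lit 6430084830375298092770)), (.negSucc (nat_lit 6430084830375298092769)), (.negSucc (nat_lit 6430084830375298092769)), (.ofNat (nat_lit 6430084830375298092770)), (.ofNat (nat_lit 19290254491125894278310))⟩,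
    ⟨nat_lit 2, nat_lit 23, nat_lit 7, (.ofNat (nat_lit 8)), (.negSucc (nat_lit 748879551)), (.ofNat (nat_lit 5297442157165926952505990444160)), (.ofNat (nat_lit 0)), (.ofNat (nat_lit 2648721078582963476252995222080)), (.negSucc (nat_lit 748879567)), (.negSucc (nat_lit 748879535)), (.negSucc (nat_lit 6430084830375298092769)), (.ofNat (nat_lit 6430084830375298092770)), (.negSucc (nat_lit 6430084830375298092769)), (.ofNat (nat_lit 6430084830375298092770)), (.ofNat (nat_lit 19290254491125894278310))⟩,
    ⟨nat_lit 2, nat_lit 24, nat_lit 11, (.ofNat (nat_lit 8)), (.ofNat (nat_lit 249085696)), (.ofNat (nat_lit 6104741879653477778172501052160)), (.ofNat (nat_lit 0)), (.ofNat (nat_lit 3052370939826738889086250526080)), (.ofNat (nat_lit 249085680)), (.ofNat (nat_lit 249085712)), (.negSucc (nat_lit 6430084830375298092769)), (.ofNat (nat_lit 6430084830375298092770)), (.negSucc (nat_lit 6430084830375298092769)), (.ofNat (nat_lit 6430084830375298092770)), (.ofNat (nat_lit 32150424151876490463850))⟩,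
    ⟨nat_lit 0, nat_lit 24, nat_lit 25, (.ofNat (nat_lit 8)), (.ofNat (nat_lit 250134272)), (.ofNat (nat_lit 6097999447022382169599576656640)), (.ofNat (nat_lit 0)), (.ofNat (nat_lit 3045628507195643280513326130560)), (.ofNat (nat_lit 250134256)), (.ofNat (nat_lit 250134288)), (.negSucc (nat_lit 6430084830375298092769)), (.ofNat (nat_lit 6430084830375298092770)), (.negSucc (nat_lit 6430084830375298092769)), (.ofNat (nat_lit 6430084830375298092770)), (.ofNat (nat_lit 38580508982251788556620))⟩]
  es := [
    ⟨nat_lit 1, nat_lit 0, (.negSucc (nat_lit 819134143)), (.negSucc (nat_lit 526974719)), (.negSucc (nat_lit 819134127)), (.negSucc (nat_lit 526974735)), (.negSucc (nat_lit 6430084830375298092769)), (.negSucc (nat_lit 3215042415187649046384)), (.ofNat (nat_lit 374204599500377131778226014080))⟩,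
    ⟨nat_lit 1, nat_lit 2, (.negSucc (nat_lit 819134143)), (.negSucc (nat_lit 674054015)), (.negSucc (nat_lit 819134127)), (.negSucc (nat_lit 674054031)), (.ofNat (nat_lit 6430084830375298092770)), (.ofNat (nat_lit 3215042415187649046385)), (.ofNat (nat_lit 5641306632877232133744212552960))⟩,
    ⟨nat_lit 2, nat_lit 3, (.negSucc (nat_lit 674054015)), (.negSucc (nat_lit 520568703)), (.negSucc (nat_lit 674053999)), (.negSucc (nat_lit 520568719)), (.negSucc (nat_lit 6430084830375298092769)), (.negSucc (nat_lit 3215042415187649046384)), (.ofNat (nat_lit 1307082129742083667115453488640))⟩,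
    ⟨nat_lit 3, nat_lit 4, (.negSucc (nat_lit 520568703)), (.ofNat (nat_lit 110935872)), (.negSucc (nat_lit 520568687)), (.ofNat (nat_lit 110935856)), (.ofNat (nat_lit 6430084830375298092770)), (.ofNat (nat_lit 3215042415187649046385)), (.ofNat (nat_lit 4654383056500612428882404158720))⟩,
    ⟨nat_lit 5, nat_lit 4, (.negSucc (nat_lit 66928831)), (.ofNat (nat_lit 110935872)), (.negSucc (nat_lit 66928815)), (.ofNat (nat_lit 110935856)), (.negSucc (nat_lit 6430084830375298092769)), (.negSucc (nat_lit 3215042415187649046384)), (.ofNat (nat_lit 5367710124192268210063781004160))⟩,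
    ⟨nat_lit 6, nat_lit 5, (.negSucc (nat_lit 770948991)), (.negSucc (nat_lit 66928831)), (.negSucc (nat_lit 770948975)), (.negSucc (nat_lit 66928847)), (.ofNat (nat_lit 6430084830375298092770)), (.ofNat (nat_lit 3215042415187649046385)), (.ofNat (nat_lit 5798068191550205033064704748800))⟩,
    ⟨nat_lit 6, nat_lit 15, (.negSucc (nat_lit 770948991)), (.negSucc (nat_lit 677625727)), (.negSucc (nat_lit 770948975)), (.negSucc (nat_lit 677625743)), (.negSucc (nat_lit 6430084830375298092769)), (.negSucc (nat_lit 3215042415187649046384)), (.ofNat (nat_lit 840800773097877986744150760960))⟩,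
    ⟨nat_lit 23, nat_lit 7, (.negSucc (nat_lit 748879551)), (.negSucc (nat_lit 531775359)), (.negSucc (nat_lit 748879535)), (.negSucc (nat_lit 531775375)), (.ofNat (nat_lit 6430084830375298092770)), (.ofNat (nat_lit 3215042415187649046385)), (.ofNat (nat_lit 5056400602129688090043021241600))⟩,
    ⟨nat_lit 7, nat_lit 8, (.negSucc (nat_lit 531775359)), (.ofNat (nat_lit 233619200)), (.negSucc (nat_lit 531775343)), (.ofNat (nat_lit 233619184)), (.negSucc (nat_lit 6430084830375298092769)), (.negSucc (nat_lit 3215042415187649046384)), (.ofNat (nat_lit 1637039926626325011652941094400))⟩,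
    ⟨nat_lit 8, nat_lit 9, (.ofNat (nat_lit 233619200)), (.ofNat (nat_lit 787135936)), (.ofNat (nat_lit 233619216)), (.ofNat (nat_lit 787135920)), (.ofNat (nat_lit 6430084830375298092770)), (.ofNat (nat_lit 3215042415187649046385)), (.ofNat (nat_lit 134848652621912171458487910400))⟩,
    ⟨nat_lit 10, nat_lit 9, (.ofNat (nat_lit 457948800)), (.ofNat (nat_lit 787135936)), (.ofNat (nat_lit 457948816)), (.ofNat (nat_lit 787135920)), (.negSucc (nat_lit 6430084830375298092769)), (.negSucc (nat_lit 3215042415187649046384)), (.ofNat (nat_lit 5196199494138773666990016693120))⟩,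
    ⟨nat_lit 24, nat_lit 10, (.ofNat (nat_lit 249085696)), (.ofNat (nat_lit 457948800)), (.ofNat (nat_lit 249085712)), (.ofNat (nat_lit 457948784)), (.ofNat (nat_lit 6430084830375298092770)), (.ofNat (nat_lit 3215042415187649046385)), (.ofNat (nat_lit 2251549862170202355763706517120))⟩,
    ⟨nat_lit 22, nat_lit 12, (.negSucc (nat_lit 191053823)), (.ofNat (nat_lit 26918784)), (.negSucc (nat_lit 191053807)), (.ofNat (nat_lit 26918768)), (.negSucc (nat_lit 6430084830375298092769)), (.negSucc (nat_lit 3215042415187649046384)), (.ofNat (nat_lit 2534204457076055283368615536000))⟩,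
    ⟨nat_lit 13, nat_lit 12, (.negSucc (nat_lit 99369023)), (.ofNat (nat_lit 26918784)), (.negSucc (nat_lit 99369007)), (.ofNat (nat_lit 26918768)), (.ofNat (nat_lit 6430084830375298092770)), (.ofNat (nat_lit 3215042415187649046385)), (.ofNat (nat_lit 2361114392425505995073727944320))⟩,
    ⟨nat_lit 14, nat_lit 13, (.negSucc (nat_lit 540557183)), (.negSucc (nat_lit 99369023)), (.negSucc (nat_lit 540557167)), (.negSucc (nat_lit 99369039)), (.negSucc (nat_lit 6430084830375298092769)), (.negSucc (nat_lit 3215042415187649046384)), (.ofNat (nat_lit 1722163138593907069886111587840))⟩,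
    ⟨nat_lit 15, nat_lit 14, (.negSucc (nat_lit 677625727)), (.negSucc (nat_lit 540557183)), (.negSucc (nat_lit 677625711)), (.negSucc (nat_lit 540557199)), (.ofNat (nat_lit 6430084830375298092770)), (.ofNat (nat_lit 3215042415187649046385)), (.ofNat (nat_lit 5197991687382695870074433547520))⟩,
    ⟨nat_lit 16, nat_lit 17, (.negSucc (nat_lit 91291647)), (.ofNat (nat_lit 652656128)), (.negSucc (nat_lit 91291631)), (.ofNat (nat_lit 652656112)), (.ofNat (nat_lit 6430084830375298092770)), (.ofNat (nat_lit 3215042415187649046385)), (.ofNat (nat_lit 828054595981000283843199387520))⟩,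
    ⟨nat_lit 18, nat_lit 17, (.ofNat (nat_lit 81968960)), (.ofNat (nat_lit 652656128)), (.ofNat (nat_lit 81968976)), (.ofNat (nat_lit 652656112)), (.negSucc (nat_lit 6430084830375298092769)), (.negSucc (nat_lit 3215042415187649046384)), (.ofNat (nat_lit 5024688864085279123916252382080))⟩,
    ⟨nat_lit 19, nat_lit 18, (.negSucc (nat_lit 522862463)), (.ofNat (nat_lit 81968960)), (.negSucc (nat_lit 522862447)), (.ofNat (nat_lit 81968944)), (.ofNat (nat_lit 6430084830375298092770)), (.ofNat (nat_lit 3215042415187649046385)), (.ofNat (nat_lit 4497621497827639529561911962880))⟩,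
    ⟨nat_lit 20, nat_lit 19, (.negSucc (nat_lit 676347775)), (.negSucc (nat_lit 522862463)), (.negSucc (nat_lit 676347759)), (.negSucc (nat_lit 522862479)), (.negSucc (nat_lit 6430084830375298092769)), (.negSucc (nat_lit 3215042415187649046384)), (.ofNat (nat_lit 1135571499688589124041689177600))⟩,
    ⟨nat_lit 20, nat_lit 21, (.negSucc (nat_lit 676347775)), (.negSucc (nat_lit 252657727)), (.negSucc (nat_lit 676347759)), (.negSucc (nat_lit 252657743)), (.ofNat (nat_lit 6430084830375298092770)), (.ofNat (nat_lit 3215042415187649046385)), (.ofNat (nat_lit 5484545074204259234423720357120))⟩,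
    ⟨nat_lit 21, nat_lit 11, (.negSucc (nat_lit 252657727)), (.ofNat (nat_lit 251182848)), (.negSucc (nat_lit 252657711)), (.ofNat (nat_lit 251182832)), (.negSucc (nat_lit 6430084830375298092769)), (.negSucc (nat_lit 3215042415187649046384)), (.ofNat (nat_lit 3859934450114371030981718930560))⟩,
    ⟨nat_lit 0, nat_lit 22, (.negSucc (nat_lit 526974719)), (.negSucc (nat_lit 191053823)), (.negSucc (nat_lit 526974703)), (.negSucc (nat_lit 191053839)), (.ofNat (nat_lit 6430084830375298092770)), (.ofNat (nat_lit 3215042415187649046385)), (.ofNat (nat_lit 3762696752563647339132230788480))⟩,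
    ⟨nat_lit 23, nat_lit 16, (.negSucc (nat_lit 748879551)), (.negSucc (nat_lit 91291647)), (.negSucc (nat_lit 748879535)), (.negSucc (nat_lit 91291663)), (.negSucc (nat_lit 6430084830375298092769)), (.negSucc (nat_lit 3215042415187649046384)), (.ofNat (nat_lit 241041555036238862462969202560))⟩,
    ⟨nat_lit 24, nat_lit 25, (.ofNat (nat_lit 249085696)), (.ofNat (nat_lit 250134272)), (.ofNat (nat_lit 249085712)), (.ofNat (nat_lit 250134256)), (.negSucc (nat_lit 6430084830375298092769)), (.negSucc (nat_lit 6430084830375298092769)), (.ofNat (nat_lit 4654013095139811955731338544000))⟩,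
    ⟨nat_lit 25, nat_lit 11, (.ofNat (nat_lit 250134272)), (.ofNat (nat_lit 251182848)), (.ofNat (nat_lit 250134288)), (.ofNat (nat_lit 251182832)), (.ofNat (nat_lit 6430084830375298092770)), (.ofNat (nat_lit 6430084830375298092770)), (.ofNat (nat_lit 1437243919251474605295313717120))⟩]

theorem ok63 : stOK 25 25 S63 = true := by decide +kernel

def S64 : SD where
  vs := [
    ⟨nat_lit 0, nat_lit 0, nat_lit 22, (.ofNat (nat_lit 8)), (.negSucc (nat_lit 526974719)), (.ofNat (nat_lit 4136901352064024470910456802560)), (.ofNat (nat_lit 0)), (.ofNat (nat_lit 2068450676032012235455228401280)), (.negSucc (nat_lit 526974735)), (.negSucc (nat_lit 526974703)), (.negSucc (nat_lit 6430084830375298092769)), (.ofNat (nat_lit 6430084830375298092770)), (.negSucc (nat_lit 6430084830375298092769)), (.ofNat (nat_lit 6430084830375298092770)), (.ofNat (nat_lit 19290254491125894278310))⟩,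
    ⟨nat_lit 2, nat_lit 0, nat_lit 1, (.ofNat (nat_lit 8)), (.negSucc (nat_lit 819134143)), (.ofNat (nat_lit 6015511232377609265522438567040)), (.ofNat (nat_lit 0)), (.ofNat (nat_lit 3007755616188804632761219283520)), (.negSucc (nat_lit 819134159)), (.negSucc (nat_lit 819134127)), (.negSucc (nat_lit 6430084830375298092769)), (.ofNat (nat_lit 6430084830375298092770)), (.negSucc (nat_lit 6430084830375298092769)), (.ofNat (nat_lit 6430084830375298092770)), (.ofNat (nat_lit 19290254491125894278310))⟩,
    ⟨nat_lit 0, nat_lit 1, nat_lit 2, (.ofNat (nat_lit 8)), (.negSucc (nat_lit 674054015)), (.ofNat (nat_lit 6948388762619315800859666041600)), (.ofNat (nat_lit 0)), (.ofNat (nat_lit 3474194381309657900429833020800)), (.negSucc (nat_lit 674054031)), (.negSucc (nat_lit 674053999)), (.ofNat (nat_lit 6430084830375298092770)), (.negSucc (nat_lit 6430084830375298092769)), (.negSucc (nat_lit 6430084830375298092769)), (.ofNat (nat_lit 6430084830375298092770)), (.ofNat (nat_lit 19290254491125894278310))⟩,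
    ⟨nat_lit 0, nat_lit 2, nat_lit 3, (.ofNat (nat_lit 8)), (.negSucc (nat_lit 520568703)), (.ofNat (nat_lit 5961465186242696095997857647360)), (.ofNat (nat_lit 0)), (.ofNat (nat_lit 2980732593121348047998928823680)), (.negSucc (nat_lit 520568719)), (.negSucc (nat_lit 520568687)), (.negSucc (nat_lit 6430084830375298092769)), (.ofNat (nat_lit 6430084830375298092770)), (.negSucc (nat_lit 6430084830375298092769)), (.ofNat (nat_lit 6430084830375298092770)), (.ofNat (nat_lit 19290254491125894278310))⟩,
    ⟨nat_lit 1, nat_lit 3, nat_lit 4, (.ofNat (nat_lit 8)), (.ofNat (nat_lit 110935872)), (.ofNat (nat_lit 10022093180692880638946185162880)), (.ofNat (nat_lit 0)), (.ofNat (nat_lit 5011046590346440319473092581440)), (.ofNat (nat_lit 110935856)), (.ofNat (nat_lit 110935888)), (.ofNat (nat_lit 6430084830375298092770)), (.negSucc (nat_lit 6430084830375298092769)), (.negSucc (nat_lit 6430084830375298092769)), (.ofNat (nat_lit 6430084830375298092770)), (.ofNat (nat_lit 19290254491125894278310))⟩,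
    ⟨nat_lit 0, nat_lit 5, nat_lit 4, (.ofNat (nat_lit 8)), (.negSucc (nat_lit 66928831)), (.ofNat (nat_lit 11165778315742473243128485752960)), (.ofNat (nat_lit 0)), (.ofNat (nat_lit 5582889157871236621564242876480)), (.negSucc (nat_lit 66928847)), (.negSucc (nat_lit 66928815)), (.ofNat (nat_lit 6430084830375298092770)), (.negSucc (nat_lit 6430084830375298092769)), (.negSucc (nat_lit 6430084830375298092769)), (.ofNat (nat_lit 6430084830375298092770)), (.ofNat (nat_lit 19290254491125894278310))⟩,
    ⟨nat_lit 2, nat_lit 6, nat_lit 5, (.ofNat (nat_lit 8)), (.negSucc (nat_lit 770948991)), (.ofNat (nat_lit 6638868964648083019808855509760)), (.ofNat (nat_lit 0)), (.ofNat (nat_lit 3319434482324041509904427754880)), (.negSucc (nat_lit 770949007)), (.negSucc (nat_lit 770948975)), (.negSucc (nat_lit 6430084830375298092769)), (.ofNat (nat_lit 6430084830375298092770)), (.negSucc (nat_lit 6430084830375298092769)), (.ofNat (nat_lit 6430084830375298092770)), (.ofNat (nat_lit 19290254491125894278310))⟩,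
    ⟨nat_lit 0, nat_lit 7, nat_lit 8, (.ofNat (nat_lit 8)), (.negSucc (nat_lit 531775359)), (.ofNat (nat_lit 6693440528756013101695962336000)), (.ofNat (nat_lit 0)), (.ofNat (nat_lit 3346720264378006550847981168000)), (.negSucc (nat_lit 531775375)), (.negSucc (nat_lit 531775343)), (.ofNat (nat_lit 6430084830375298092770)), (.negSucc (nat_lit 6430084830375298092769)), (.negSucc (nat_lit 6430084830375298092769)), (.ofNat (nat_lit 6430084830375298092770)), (.ofNat (nat_lit 19290254491125894278310))⟩,
    ⟨nat_lit 0, nat_lit 8, nat_lit 9, (.ofNat (nat_lit 8)), (.ofNat (nat_lit 233619200)), (.ofNat (nat_lit 1771888579248237183111429004800)), (.ofNat (nat_lit 0)), (.ofNat (nat_lit 885944289624118591555714502400)), (.ofNat (nat_lit 233619184)), (.ofNat (nat_lit 233619216)), (.negSucc (nat_lit 6430084830375298092769)), (.ofNat (nat_lit 6430084830375298092770)), (.negSucc (nat_lit 6430084830375298092769)), (.ofNat (nat_lit 6430084830375298092770)), (.ofNat (nat_lit 19290254491125894278310))⟩,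
    ⟨nat_lit 1, nat_lit 9, nat_lit 10, (.ofNat (nat_lit 8)), (.ofNat (nat_lit 787135936)), (.ofNat (nat_lit 5331048146760685838448504603520)), (.ofNat (nat_lit 0)), (.ofNat (nat_lit 2665524073380342919224252301760)), (.ofNat (nat_lit 787135920)), (.ofNat (nat_lit 787135952)), (.ofNat (nat_lit 6430084830375298092770)), (.negSucc (nat_lit 6430084830375298092769)), (.negSucc (nat_lit 6430084830375298092769)), (.ofNat (nat_lit 6430084830375298092770)), (.ofNat (nat_lit 19290254491125894278310))⟩,
    ⟨nat_lit 0, nat_lit 11, nat_lit 10, (.ofNat (nat_lit 8)), (.ofNat (nat_lit 457948800)), (.ofNat (nat_lit 7447749356308976022753723210240)), (.ofNat (nat_lit 0)), (.ofNat (nat_lit 3723874678154488011376861605120)), (.ofNat (nat_lit 457948784)), (.ofNat (nat_lit 457948816)), (.ofNat (nat_lit 6430084830375298092770)), (.negSucc (nat_lit 6430084830375298092769)), (.negSucc (nat_lit 6430084830375298092769)), (.ofNat (nat_lit 6430084830375298092770)), (.ofNat (nat_lit 19290254491125894278310))⟩,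
    ⟨nat_lit 1, nat_lit 25, nat_lit 21, (.ofNat (nat_lit 8)), (.ofNat (nat_lit 251182848)), (.ofNat (nat_lit 6104741879653477778172501052160)), (.ofNat (nat_lit 0)), (.ofNat (nat_lit 3052370939826738889086250526080)), (.ofNat (nat_lit 251182832)), (.ofNat (nat_lit 251182864)), (.ofNat (nat_lit 6430084830375298092770)), (.negSucc (nat_lit 6430084830375298092769)), (.negSucc (nat_lit 6430084830375298092769)), (.ofNat (nat_lit 6430084830375298092770)), (.ofNat (nat_lit 32150424151876490463850))⟩,
    ⟨nat_lit 1, nat_lit 13, nat_lit 12, (.ofNat (nat_lit 8)), (.ofNat (nat_lit 26918784)), (.ofNat (nat_lit 4895318849501561278442343480320)), (.ofNat (nat_lit 0)), (.ofNat (nat_lit 2447659424750780639221171740160)), (.ofNat (nat_lit 26918768)), (.ofNat (nat_lit 26918800)), (.ofNat (nat_lit 6430084830375298092770)), (.negSucc (nat_lit 6430084830375298092769)), (.negSucc (nat_lit 6430084830375298092769)), (.ofNat (nat_lit 6430084830375298092770)), (.ofNat (nat_lit 19290254491125894278310))⟩,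
    ⟨nat_lit 0, nat_lit 14, nat_lit 13, (.ofNat (nat_lit 8)), (.negSucc (nat_lit 99369023)), (.ofNat (nat_lit 4083277531019413064959839532160)), (.ofNat (nat_lit 0)), (.ofNat (nat_lit 2041638765509706532479919766080)), (.negSucc (nat_lit 99369039)), (.negSucc (nat_lit 99369007)), (.negSucc (nat_lit 6430084830375298092769)), (.ofNat (nat_lit 6430084830375298092770)), (.negSucc (nat_lit 6430084830375298092769)), (.ofNat (nat_lit 6430084830375298092770)), (.ofNat (nat_lit 19290254491125894278310))⟩,
    ⟨nat_lit 0, nat_lit 15, nat_lit 14, (.ofNat (nat_lit 8)), (.negSucc (nat_lit 540557183)), (.ofNat (nat_lit 6920154825976602939960545135360)), (.ofNat (nat_lit 0)), (.ofNat (nat_lit 3460077412988301469980272567680)), (.negSucc (nat_lit 540557199)), (.negSucc (nat_lit 540557167)), (.ofNat (nat_lit 6430084830375298092770)), (.negSucc (nat_lit 6430084830375298092769)), (.negSucc (nat_lit 6430084830375298092769)), (.ofNat (nat_lit 6430084830375298092770)), (.ofNat (nat_lit 19290254491125894278310))⟩,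
    ⟨nat_lit 0, nat_lit 6, nat_lit 15, (.ofNat (nat_lit 8)), (.negSucc (nat_lit 677625727)), (.ofNat (nat_lit 6038792460480573856818584308480)), (.ofNat (nat_lit 0)), (.ofNat (nat_lit 3019396230240286928409292154240)), (.negSucc (nat_lit 677625743)), (.negSucc (nat_lit 677625711)), (.negSucc (nat_lit 6430084830375298092769)), (.ofNat (nat_lit 6430084830375298092770)), (.negSucc (nat_lit 6430084830375298092769)), (.ofNat (nat_lit 6430084830375298092770)), (.ofNat (nat_lit 19290254491125894278310))⟩,
    ⟨nat_lit 0, nat_lit 23, nat_lit 16, (.ofNat (nat_lit 8)), (.negSucc (nat_lit 91291647)), (.ofNat (nat_lit 1069096151017239146306168590080)), (.ofNat (nat_lit 0)), (.ofNat (nat_lit 534548075508619573153084295040)), (.negSucc (nat_lit 91291663)), (.negSucc (nat_lit 91291631)), (.negSucc (nat_lit 6430084830375298092769)), (.ofNat (nat_lit 6430084830375298092770)), (.negSucc (nat_lit 6430084830375298092769)), (.ofNat (nat_lit 6430084830375298092770)), (.ofNat (nat_lit 19290254491125894278310))⟩,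
    ⟨nat_lit 1, nat_lit 16, nat_lit 17, (.ofNat (nat_lit 8)), (.ofNat (nat_lit 652656128)), (.ofNat (nat_lit 5852743460066279407759451769600)), (.ofNat (nat_lit 0)), (.ofNat (nat_lit 2926371730033139703879725884800)), (.ofNat (nat_lit 652656112)), (.ofNat (nat_lit 652656144)), (.ofNat (nat_lit 6430084830375298092770)), (.negSucc (nat_lit 6430084830375298092769)), (.negSucc (nat_lit 6430084830375298092769)), (.ofNat (nat_lit 6430084830375298092770)), (.ofNat (nat_lit 19290254491125894278310))⟩,
    ⟨nat_lit 0, nat_lit 18, nat_lit 17, (.ofNat (nat_lit 8)), (.ofNat (nat_lit 81968960)), (.ofNat (nat_lit 9522310361912918653478164344960)), (.ofNat (nat_lit 0)), (.ofNat (nat_lit 4761155180956459326739082172480)), (.ofNat (nat_lit 81968944)), (.ofNat (nat_lit 81968976)), (.ofNat (nat_lit 6430084830375298092770)), (.negSucc (nat_lit 6430084830375298092769)), (.negSucc (nat_lit 6430084830375298092769)), (.ofNat (nat_lit 6430084830375298092770)), (.ofNat (nat_lit 19290254491125894278310))⟩,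
    ⟨nat_lit 0, nat_lit 19, nat_lit 18, (.ofNat (nat_lit 8)), (.negSucc (nat_lit 522862463)), (.ofNat (nat_lit 5633192997516228653603601140480)), (.ofNat (nat_lit 0)), (.ofNat (nat_lit 2816596498758114326801800570240)), (.negSucc (nat_lit 522862479)), (.negSucc (nat_lit 522862447)), (.negSucc (nat_lit 6430084830375298092769)), (.ofNat (nat_lit 6430084830375298092770)), (.negSucc (nat_lit 6430084830375298092769)), (.ofNat (nat_lit 6430084830375298092770)), (.ofNat (nat_lit 19290254491125894278310))⟩,
    ⟨nat_lit 2, nat_lit 19, nat_lit 20, (.ofNat (nat_lit 8)), (.negSucc (nat_lit 676347775)), (.ofNat (nat_lit 6620116573892848358465409534720)), (.ofNat (nat_lit 0)), (.ofNat (nat_lit 3310058286946424179232704767360)), (.negSucc (nat_lit 676347791)), (.negSucc (nat_lit 676347759)), (.negSucc (nat_lit 6430084830375298092769)), (.ofNat (nat_lit 6430084830375298092770)), (.negSucc (nat_lit 6430084830375298092769)), (.ofNat (nat_lit 6430084830375298092770)), (.ofNat (nat_lit 19290254491125894278310))⟩,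
    ⟨nat_lit 0, nat_lit 20, nat_lit 21, (.ofNat (nat_lit 8)), (.negSucc (nat_lit 252657727)), (.ofNat (nat_lit 9344479524318630265405439287680)), (.ofNat (nat_lit 0)), (.ofNat (nat_lit 4672239762159315132702719643840)), (.negSucc (nat_lit 252657743)), (.negSucc (nat_lit 252657711)), (.ofNat (nat_lit 6430084830375298092770)), (.negSucc (nat_lit 6430084830375298092769)), (.negSucc (nat_lit 6430084830375298092769)), (.ofNat (nat_lit 6430084830375298092770)), (.ofNat (nat_lit 19290254491125894278310))⟩,
    ⟨nat_lit 0, nat_lit 22, nat_lit 12, (.ofNat (nat_lit 8)), (.negSucc (nat_lit 191053823)), (.ofNat (nat_lit 6296901209639702622500846324480)), (.ofNat (nat_lit 0)), (.ofNat (nat_lit 3148450604819851311250423162240)), (.negSucc (nat_lit 191053839)), (.negSucc (nat_lit 191053807)), (.ofNat (nat_lit 6430084830375298092770)), (.negSucc (nat_lit 6430084830375298092769)), (.negSucc (nat_lit 6430084830375298092769)), (.ofNat (nat_lit 6430084830375298092770)), (.ofNat (nat_lit 19290254491125894278310))⟩,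
    ⟨nat_lit 2, nat_lit 23, nat_lit 7, (.ofNat (nat_lit 8)), (.negSucc (nat_lit 748879551)), (.ofNat (nat_lit 5297442157165926952505990444160)), (.ofNat (nat_lit 0)), (.ofNat (nat_lit 2648721078582963476252995222080)), (.negSucc (nat_lit 748879567)), (.negSucc (nat_lit 748879535)), (.negSucc (nat_lit 6430084830375298092769)), (.ofNat (nat_lit 6430084830375298092770)), (.negSucc (nat_lit 6430084830375298092769)), (.ofNat (nat_lit 6430084830375298092770)), (.ofNat (nat_lit 19290254491125894278310))⟩,
    ⟨nat_lit 2, nat_lit 24, nat_lit 11, (.ofNat (nat_lit 8)), (.ofNat (nat_lit 249085696)), (.ofNat (nat_lit 6104741879653477778172501052160)), (.ofNat (nat_lit 0)), (.ofNat (nat_lit 3052370939826738889086250526080)), (.ofNat (nat_lit 249085680)), (.ofNat (nat_lit 249085712)), (.negSucc (nat_lit 6430084830375298092769)), (.ofNat (nat_lit 6430084830375298092770)), (.negSucc (nat_lit 6430084830375298092769)), (.ofNat (nat_lit 6430084830375298092770)), (.ofNat (nat_lit 32150424151876490463850))⟩,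
    ⟨nat_lit 0, nat_lit 24, nat_lit 25, (.ofNat (nat_lit 8)), (.ofNat (nat_lit 250134272)), (.ofNat (nat_lit 6097999447022382169599576656640)), (.ofNat (nat_lit 0)), (.ofNat (nat_lit 3045628507195643280513326130560)), (.ofNat (nat_lit 250134256)), (.ofNat (nat_lit 250134288)), (.negSucc (nat_lit 6430084830375298092769)), (.ofNat (nat_lit 6430084830375298092770)), (.negSucc (nat_lit 6430084830375298092769)), (.ofNat (nat_lit 6430084830375298092770)), (.ofNat (nat_lit 38580508982251788556620))⟩]
  es := [
    ⟨nat_lit 1, nat_lit 0, (.negSucc (nat_lit 819134143)), (.negSucc (nat_lit 526974719)), (.negSucc (nat_lit 819134127)), (.negSucc (nat_lit 526974735)), (.negSucc (nat_lit 6430084830375298092769)), (.negSucc (nat_lit 3215042415187649046384)), (.ofNat (nat_lit 374204599500377131778226014080))⟩,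
    ⟨nat_lit 1, nat_lit 2, (.negSucc (nat_lit 819134143)), (.negSucc (nat_lit 674054015)), (.negSucc (nat_lit 819134127)), (.negSucc (nat_lit 674054031)), (.ofNat (nat_lit 6430084830375298092770)), (.ofNat (nat_lit 3215042415187649046385)), (.ofNat (nat_lit 5641306632877232133744212552960))⟩,
    ⟨nat_lit 2, nat_lit 3, (.negSucc (nat_lit 674054015)), (.negSucc (nat_lit 520568703)), (.negSucc (nat_lit 674053999)), (.negSucc (nat_lit 520568719)), (.negSucc (nat_lit 6430084830375298092769)), (.negSucc (nat_lit 3215042415187649046384)), (.ofNat (nat_lit 1307082129742083667115453488640))⟩,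
    ⟨nat_lit 3, nat_lit 4, (.negSucc (nat_lit 520568703)), (.ofNat (nat_lit 110935872)), (.negSucc (nat_lit 520568687)), (.ofNat (nat_lit 110935856)), (.ofNat (nat_lit 6430084830375298092770)), (.ofNat (nat_lit 3215042415187649046385)), (.ofNat (nat_lit 4654383056500612428882404158720))⟩,
    ⟨nat_lit 5, nat_lit 4, (.negSucc (nat_lit 66928831)), (.ofNat (nat_lit 110935872)), (.negSucc (nat_lit 66928815)), (.ofNat (nat_lit 110935856)), (.negSucc (nat_lit 6430084830375298092769)), (.negSucc (nat_lit 3215042415187649046384)), (.ofNat (nat_lit 5367710124192268210063781004160))⟩,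
    ⟨nat_lit 6, nat_lit 5, (.negSucc (nat_lit 770948991)), (.negSucc (nat_lit 66928831)), (.negSucc (nat_lit 770948975)), (.negSucc (nat_lit 66928847)), (.ofNat (nat_lit 6430084830375298092770)), (.ofNat (nat_lit 3215042415187649046385)), (.ofNat (nat_lit 5798068191550205033064704748800))⟩,
    ⟨nat_lit 6, nat_lit 15, (.negSucc (nat_lit 770948991)), (.negSucc (nat_lit 677625727)), (.negSucc (nat_lit 770948975)), (.negSucc (nat_lit 677625743)), (.negSucc (nat_lit 6430084830375298092769)), (.negSucc (nat_lit 3215042415187649046384)), (.ofNat (nat_lit 840800773097877986744150760960))⟩,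
    ⟨nat_lit 23, nat_lit 7, (.negSucc (nat_lit 748879551)), (.negSucc (nat_lit 531775359)), (.negSucc (nat_lit 748879535)), (.negSucc (nat_lit 531775375)), (.ofNat (nat_lit 6430084830375298092770)), (.ofNat (nat_lit 3215042415187649046385)), (.ofNat (nat_lit 5056400602129688090043021241600))⟩,
    ⟨nat_lit 7, nat_lit 8, (.negSucc (nat_lit 531775359)), (.ofNat (nat_lit 233619200)), (.negSucc (nat_lit 531775343)), (.ofNat (nat_lit 233619184)), (.negSucc (nat_lit 6430084830375298092769)), (.negSucc (nat_lit 3215042415187649046384)), (.ofNat (nat_lit 1637039926626325011652941094400))⟩,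
    ⟨nat_lit 8, nat_lit 9, (.ofNat (nat_lit 233619200)), (.ofNat (nat_lit 787135936)), (.ofNat (nat_lit 233619216)), (.ofNat (nat_lit 787135920)), (.ofNat (nat_lit 6430084830375298092770)), (.ofNat (nat_lit 3215042415187649046385)), (.ofNat (nat_lit 134848652621912171458487910400))⟩,
    ⟨nat_lit 10, nat_lit 9, (.ofNat (nat_lit 457948800)), (.ofNat (nat_lit 787135936)), (.ofNat (nat_lit 457948816)), (.ofNat (nat_lit 787135920)), (.negSucc (nat_lit 6430084830375298092769)), (.negSucc (nat_lit 3215042415187649046384)), (.ofNat (nat_lit 5196199494138773666990016693120))⟩,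
    ⟨nat_lit 24, nat_lit 10, (.ofNat (nat_lit 249085696)), (.ofNat (nat_lit 457948800)), (.ofNat (nat_lit 249085712)), (.ofNat (nat_lit 457948784)), (.ofNat (nat_lit 6430084830375298092770)), (.ofNat (nat_lit 3215042415187649046385)), (.ofNat (nat_lit 2251549862170202355763706517120))⟩,
    ⟨nat_lit 22, nat_lit 12, (.negSucc (nat_lit 191053823)), (.ofNat (nat_lit 26918784)), (.negSucc (nat_lit 191053807)), (.ofNat (nat_lit 26918768)), (.negSucc (nat_lit 6430084830375298092769)), (.negSucc (nat_lit 3215042415187649046384)), (.ofNat (nat_lit 2534204457076055283368615536000))⟩,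
    ⟨nat_lit 13, nat_lit 12, (.negSucc (nat_lit 99369023)), (.ofNat (nat_lit 26918784)), (.negSucc (nat_lit 99369007)), (.ofNat (nat_lit 26918768)), (.ofNat (nat_lit 6430084830375298092770)), (.ofNat (nat_lit 3215042415187649046385)), (.ofNat (nat_lit 2361114392425505995073727944320))⟩,
    ⟨nat_lit 14, nat_lit 13, (.negSucc (nat_lit 540557183)), (.negSucc (nat_lit 99369023)), (.negSucc (nat_lit 540557167)), (.negSucc (nat_lit 99369039)), (.negSucc (nat_lit 6430084830375298092769)), (.negSucc (nat_lit 3215042415187649046384)), (.ofNat (nat_lit 1722163138593907069886111587840))⟩,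
    ⟨nat_lit 15, nat_lit 14, (.negSucc (nat_lit 677625727)), (.negSucc (nat_lit 540557183)), (.negSucc (nat_lit 677625711)), (.negSucc (nat_lit 540557199)), (.ofNat (nat_lit 6430084830375298092770)), (.ofNat (nat_lit 3215042415187649046385)), (.ofNat (nat_lit 5197991687382695870074433547520))⟩,
    ⟨nat_lit 16, nat_lit 17, (.negSucc (nat_lit 91291647)), (.ofNat (nat_lit 652656128)), (.negSucc (nat_lit 91291631)), (.ofNat (nat_lit 652656112)), (.ofNat (nat_lit 6430084830375298092770)), (.ofNat (nat_lit 3215042415187649046385)), (.ofNat (nat_lit 828054595981000283843199387520))⟩,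
    ⟨nat_lit 18, nat_lit 17, (.ofNat (nat_lit 81968960)), (.ofNat (nat_lit 652656128)), (.ofNat (nat_lit 81968976)), (.ofNat (nat_lit 652656112)), (.negSucc (nat_lit 6430084830375298092769)), (.negSucc (nat_lit 3215042415187649046384)), (.ofNat (nat_lit 5024688864085279123916252382080))⟩,
    ⟨nat_lit 19, nat_lit 18, (.negSucc (nat_lit 522862463)), (.ofNat (nat_lit 81968960)), (.negSucc (nat_lit 522862447)), (.ofNat (nat_lit 81968944)), (.ofNat (nat_lit 6430084830375298092770)), (.ofNat (nat_lit 3215042415187649046385)), (.ofNat (nat_lit 4497621497827639529561911962880))⟩,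
    ⟨nat_lit 20, nat_lit 19, (.negSucc (nat_lit 676347775)), (.negSucc (nat_lit 522862463)), (.negSucc (nat_lit 676347759)), (.negSucc (nat_lit 522862479)), (.negSucc (nat_lit 6430084830375298092769)), (.negSucc (nat_lit 3215042415187649046384)), (.ofNat (nat_lit 1135571499688589124041689177600))⟩,
    ⟨nat_lit 20, nat_lit 21, (.negSucc (nat_lit 676347775)), (.negSucc (nat_lit 252657727)), (.negSucc (nat_lit 676347759)), (.negSucc (nat_lit 252657743)), (.ofNat (nat_lit 6430084830375298092770)), (.ofNat (nat_lit 3215042415187649046385)), (.ofNat (nat_lit 5484545074204259234423720357120))⟩,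
    ⟨nat_lit 21, nat_lit 11, (.negSucc (nat_lit 252657727)), (.ofNat (nat_lit 251182848)), (.negSucc (nat_lit 252657711)), (.ofNat (nat_lit 251182832)), (.negSucc (nat_lit 6430084830375298092769)), (.negSucc (nat_lit 3215042415187649046384)), (.ofNat (nat_lit 3859934450114371030981718930560))⟩,
    ⟨nat_lit 0, nat_lit 22, (.negSucc (nat_lit 526974719)), (.negSucc (nat_lit 191053823)), (.negSucc (nat_lit 526974703)), (.negSucc (nat_lit 191053839)), (.ofNat (nat_lit 6430084830375298092770)), (.ofNat (nat_lit 3215042415187649046385)), (.ofNat (nat_lit 3762696752563647339132230788480))⟩,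
    ⟨nat_lit 23, nat_lit 16, (.negSucc (nat_lit 748879551)), (.negSucc (nat_lit 91291647)), (.negSucc (nat_lit 748879535)), (.negSucc (nat_lit 91291663)), (.negSucc (nat_lit 6430084830375298092769)), (.negSucc (nat_lit 3215042415187649046384)), (.ofNat (nat_lit 241041555036238862462969202560))⟩,
    ⟨nat_lit 24, nat_lit 25, (.ofNat (nat_lit 249085696)), (.ofNat (nat_lit 250134272)), (.ofNat (nat_lit 249085712)), (.ofNat (nat_lit 250134256)), (.negSucc (nat_lit 6430084830375298092769)), (.negSucc (nat_lit 6430084830375298092769)), (.ofNat (nat_lit 4654013095139811955731338544000))⟩,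
    ⟨nat_lit 25, nat_lit 11, (.ofNat (nat_lit 250134272)), (.ofNat (nat_lit 251182848)), (.ofNat (nat_lit 250134288)), (.ofNat (nat_lit 251182832)), (.ofNat (nat_lit 6430084830375298092770)), (.ofNat (nat_lit 6430084830375298092770)), (.ofNat (nat_lit 1437243919251474605295313717120))⟩]

theorem ok64 : stOK 25 25 S64 = true := by decide +kernel

def S65 : SD where
  vs := [
    ⟨nat_lit 0, nat_lit 0, nat_lit 22, (.ofNat (nat_lit 8)), (.negSucc (nat_lit 544538367)), (.ofNat (nat_lit 4253208314950423718793402625280)), (.negSucc (nat_lit 17563647)), (.ofNat (nat_lit 116306962886399247882945822720)), (.negSucc (nat_lit 544538383)), (.negSucc (nat_lit 544538351)), (.negSucc (nat_lit 6430084830375298092769)), (.ofNat (nat_lit 6430084830375298092770)), (.negSucc (nat_lit 6430084830375298092769)), (.ofNat (nat_lit 6430084830375298092770)), (.ofNat (nat_lit 0))⟩,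
    ⟨nat_lit 2, nat_lit 0, nat_lit 1, (.ofNat (nat_lit 8)), (.negSucc (nat_lit 838270655)), (.ofNat (nat_lit 6141931844210651926264770983040)), (.negSucc (nat_lit 19136511)), (.ofNat (nat_lit 126420611833042660742332416000)), (.negSucc (nat_lit 838270671)), (.negSucc (nat_lit 838270639)), (.negSucc (nat_lit 6430084830375298092769)), (.ofNat (nat_lit 6430084830375298092770)), (.negSucc (nat_lit 6430084830375298092769)), (.ofNat (nat_lit 6430084830375298092770)), (.ofNat (nat_lit 0))⟩,
    ⟨nat_lit 0, nat_lit 1, nat_lit 2, (.ofNat (nat_lit 8)), (.negSucc (nat_lit 692404095)), (.ofNat (nat_lit 7079866198925680168031691754240)), (.negSucc (nat_lit 18350079)), (.ofNat (nat_lit 131477436306364367172025712640)), (.negSucc (nat_lit 692404111)), (.negSucc (nat_lit 692404079)), (.ofNat (nat_lit 6430084830375298092770)), (.negSucc (nat_lit 6430084830375298092769)), (.negSucc (nat_lit 6430084830375298092769)), (.ofNat (nat_lit 6430084830375298092770)), (.ofNat (nat_lit 0))⟩,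
    ⟨nat_lit 0, nat_lit 2, nat_lit 3, (.ofNat (nat_lit 8)), (.negSucc (nat_lit 537870207)), (.ofNat (nat_lit 6086200189917964854596958964480)), (.negSucc (nat_lit 17301503)), (.ofNat (nat_lit 124735003675268758599101317120)), (.negSucc (nat_lit 537870223)), (.negSucc (nat_lit 537870191)), (.negSucc (nat_lit 6430084830375298092769)), (.ofNat (nat_lit 6430084830375298092770)), (.negSucc (nat_lit 6430084830375298092769)), (.ofNat (nat_lit 6430084830375298092770)), (.ofNat (nat_lit 0))⟩,
    ⟨nat_lit 1, nat_lit 3, nat_lit 4, (.ofNat (nat_lit 8)), (.ofNat (nat_lit 300334784)), (.ofNat (nat_lit 11475929393722012949444852072320)), (.ofNat (nat_lit 189398912)), (.ofNat (nat_lit 1453836213029132310498666909440)), (.ofNat (nat_lit 300334768)), (.ofNat (nat_lit 300334800)), (.ofNat (nat_lit 6430084830375298092770)), (.negSucc (nat_lit 6430084830375298092769)), (.negSucc (nat_lit 6430084830375298092769)), (.ofNat (nat_lit 6430084830375298092770)), (.ofNat (nat_lit 0))⟩,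
    ⟨nat_lit 0, nat_lit 5, nat_lit 4, (.ofNat (nat_lit 8)), (.ofNat (nat_lit 121159360)), (.ofNat (nat_lit 12628042569560475064343308156800)), (.ofNat (nat_lit 188088192)), (.ofNat (nat_lit 1462264253818001821214822403840)), (.ofNat (nat_lit 121159344)), (.ofNat (nat_lit 121159376)), (.ofNat (nat_lit 6430084830375298092770)), (.negSucc (nat_lit 6430084830375298092769)), (.negSucc (nat_lit 6430084830375298092769)), (.ofNat (nat_lit 6430084830375298092770)), (.ofNat (nat_lit 0))⟩,
    ⟨nat_lit 2, nat_lit 6, nat_lit 5, (.ofNat (nat_lit 8)), (.negSucc (nat_lit 790085503)), (.ofNat (nat_lit 6768660792796673484837650123520)), (.negSucc (nat_lit 19136511)), (.ofNat (nat_lit 129791828148590465028794613760)), (.negSucc (nat_lit 790085519)), (.negSucc (nat_lit 790085487)), (.negSucc (nat_lit 6430084830375298092769)), (.ofNat (nat_lit 6430084830375298092770)), (.negSucc (nat_lit 6430084830375298092769)), (.ofNat (nat_lit 6430084830375298092770)), (.ofNat (nat_lit 0))⟩,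
    ⟨nat_lit 0, nat_lit 7, nat_lit 8, (.ofNat (nat_lit 8)), (.negSucc (nat_lit 549076863)), (.ofNat (nat_lit 6821546748746829664581525850880)), (.negSucc (nat_lit 17301503)), (.ofNat (nat_lit 128106219990816562885563514880)), (.negSucc (nat_lit 549076879)), (.negSucc (nat_lit 549076847)), (.ofNat (nat_lit 6430084830375298092770)), (.negSucc (nat_lit 6430084830375298092769)), (.negSucc (nat_lit 6430084830375298092769)), (.ofNat (nat_lit 6430084830375298092770)), (.ofNat (nat_lit 0))⟩,
    ⟨nat_lit 0, nat_lit 8, nat_lit 9, (.ofNat (nat_lit 8)), (.ofNat (nat_lit 234929920)), (.ofNat (nat_lit 1780316620037106693827584499200)), (.ofNat (nat_lit 1310720)), (.ofNat (nat_lit 8428040788869510716155494400)), (.ofNat (nat_lit 234929904)), (.ofNat (nat_lit 234929936)), (.negSucc (nat_lit 6430084830375298092769)), (.ofNat (nat_lit 6430084830375298092770)), (.negSucc (nat_lit 6430084830375298092769)), (.ofNat (nat_lit 6430084830375298092770)), (.ofNat (nat_lit 0))⟩,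
    ⟨nat_lit 1, nat_lit 9, nat_lit 10, (.ofNat (nat_lit 8)), (.ofNat (nat_lit 994622784)), (.ofNat (nat_lit 6665206180587871096777763492480)), (.ofNat (nat_lit 207486848)), (.ofNat (nat_lit 1334158033827185258329258888960)), (.ofNat (nat_lit 994622768)), (.ofNat (nat_lit 994622800)), (.ofNat (nat_lit 6430084830375298092770)), (.negSucc (nat_lit 6430084830375298092769)), (.negSucc (nat_lit 6430084830375298092769)), (.ofNat (nat_lit 6430084830375298092770)), (.ofNat (nat_lit 0))⟩,
    ⟨nat_lit 0, nat_lit 11, nat_lit 10, (.ofNat (nat_lit 8)), (.ofNat (nat_lit 647872000)), (.ofNat (nat_lit 8894843136707012724679465724160)), (.ofNat (nat_lit 189923200)), (.ofNat (nat_lit 1447093780398036701925742513920)), (.ofNat (nat_lit 647871984)), (.ofNat (nat_lit 647872016)), (.ofNat (nat_lit 6430084830375298092770)), (.negSucc (nat_lit 6430084830375298092769)), (.negSucc (nat_lit 6430084830375298092769)), (.ofNat (nat_lit 6430084830375298092770)), (.ofNat (nat_lit 0))⟩,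
    ⟨nat_lit 1, nat_lit 25, nat_lit 21, (.ofNat (nat_lit 8)), (.ofNat (nat_lit 457621120)), (.ofNat (nat_lit 7438899913480663036501759941120)), (.ofNat (nat_lit 206438272)), (.ofNat (nat_lit 1334158033827185258329258888960)), (.ofNat (nat_lit 457621104)), (.ofNat (nat_lit 457621136)), (.ofNat (nat_lit 6430084830375298092770)), (.negSucc (nat_lit 6430084830375298092769)), (.negSucc (nat_lit 6430084830375298092769)), (.ofNat (nat_lit 6430084830375298092770)), (.ofNat (nat_lit 0))⟩,
    ⟨nat_lit 1, nat_lit 13, nat_lit 12, (.ofNat (nat_lit 8)), (.ofNat (nat_lit 232832768)), (.ofNat (nat_lit 6229476883328746536771602369280)), (.ofNat (nat_lit 205913984)), (.ofNat (nat_lit 1334158033827185258329258888960)), (.ofNat (nat_lit 232832752)), (.ofNat (nat_lit 232832784)), (.ofNat (nat_lit 6430084830375298092770)), (.negSucc (nat_lit 6430084830375298092769)), (.negSucc (nat_lit 6430084830375298092769)), (.ofNat (nat_lit 6430084830375298092770)), (.ofNat (nat_lit 0))⟩,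
    ⟨nat_lit 0, nat_lit 14, nat_lit 13, (.ofNat (nat_lit 8)), (.negSucc (nat_lit 98582591)), (.ofNat (nat_lit 4098448004439378184248919422080)), (.ofNat (nat_lit 786432)), (.ofNat (nat_lit 15170473419965119289079889920)), (.negSucc (nat_lit 98582607)), (.negSucc (nat_lit 98582575)), (.negSucc (nat_lit 6430084830375298092769)), (.ofNat (nat_lit 6430084830375298092770)), (.negSucc (nat_lit 6430084830375298092769)), (.ofNat (nat_lit 6430084830375298092770)), (.ofNat (nat_lit 0))⟩,
    ⟨nat_lit 0, nat_lit 15, nat_lit 14, (.ofNat (nat_lit 8)), (.negSucc (nat_lit 557858687)), (.ofNat (nat_lit 7051632262282967307132570848000)), (.negSucc (nat_lit 17301503)), (.ofNat (nat_lit 131477436306364367172025712640)), (.negSucc (nat_lit 557858703)), (.negSucc (nat_lit 557858671)), (.ofNat (nat_lit 6430084830375298092770)), (.negSucc (nat_lit 6430084830375298092769)), (.negSucc (nat_lit 6430084830375298092769)), (.ofNat (nat_lit 6430084830375298092770)), (.ofNat (nat_lit 0))⟩,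
    ⟨nat_lit 0, nat_lit 6, nat_lit 15, (.ofNat (nat_lit 8)), (.negSucc (nat_lit 695975807)), (.ofNat (nat_lit 6163527464155842615417685625600)), (.negSucc (nat_lit 18350079)), (.ofNat (nat_lit 124735003675268758599101317120)), (.negSucc (nat_lit 695975823)), (.negSucc (nat_lit 695975791)), (.negSucc (nat_lit 6430084830375298092769)), (.ofNat (nat_lit 6430084830375298092770)), (.negSucc (nat_lit 6430084830375298092769)), (.ofNat (nat_lit 6430084830375298092770)), (.ofNat (nat_lit 0))⟩,
    ⟨nat_lit 0, nat_lit 23, nat_lit 16, (.ofNat (nat_lit 8)), (.negSucc (nat_lit 91553791)), (.ofNat (nat_lit 1070781759175013048449399688960)), (.negSucc (nat_lit 262143)), (.ofNat (nat_lit 1685608157773902143231098880)), (.negSucc (nat_lit 91553807)), (.negSucc (nat_lit 91553775)), (.negSucc (nat_lit 6430084830375298092769)), (.ofNat (nat_lit 6430084830375298092770)), (.negSucc (nat_lit 6430084830375298092769)), (.ofNat (nat_lit 6430084830375298092770)), (.ofNat (nat_lit 0))⟩,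
    ⟨nat_lit 1, nat_lit 16, nat_lit 17, (.ofNat (nat_lit 8)), (.ofNat (nat_lit 859618688)), (.ofNat (nat_lit 7186901493893464666088710658560)), (.ofNat (nat_lit 206962560)), (.ofNat (nat_lit 1334158033827185258329258888960)), (.ofNat (nat_lit 859618672)), (.ofNat (nat_lit 859618704)), (.ofNat (nat_lit 6430084830375298092770)), (.negSucc (nat_lit 6430084830375298092769)), (.negSucc (nat_lit 6430084830375298092769)), (.ofNat (nat_lit 6430084830375298092770)), (.ofNat (nat_lit 0))⟩,
    ⟨nat_lit 0, nat_lit 18, nat_lit 17, (.ofNat (nat_lit 8)), (.ofNat (nat_lit 271105728)), (.ofNat (nat_lit 10971089750468729257547137957760)), (.ofNat (nat_lit 189136768)), (.ofNat (nat_lit 1448779388555810604068973612800)), (.ofNat (nat_lit 271105712)), (.ofNat (nat_lit 271105744)), (.ofNat (nat_lit 6430084830375298092770)), (.negSucc (nat_lit 6430084830375298092769)), (.negSucc (nat_lit 6430084830375298092769)), (.ofNat (nat_lit 6430084830375298092770)), (.ofNat (nat_lit 0))⟩,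
    ⟨nat_lit 0, nat_lit 19, nat_lit 18, (.ofNat (nat_lit 8)), (.negSucc (nat_lit 540163967)), (.ofNat (nat_lit 5754556784875949607916240259840)), (.negSucc (nat_lit 17301503)), (.ofNat (nat_lit 121363787359720954312639119360)), (.negSucc (nat_lit 540163983)), (.negSucc (nat_lit 540163951)), (.negSucc (nat_lit 6430084830375298092769)), (.ofNat (nat_lit 6430084830375298092770)), (.negSucc (nat_lit 6430084830375298092769)), (.ofNat (nat_lit 6430084830375298092770)), (.ofNat (nat_lit 0))⟩,
    ⟨nat_lit 2, nat_lit 19, nat_lit 20, (.ofNat (nat_lit 8)), (.negSucc (nat_lit 694697855)), (.ofNat (nat_lit 6748222793883664921350973049600)), (.negSucc (nat_lit 18350079)), (.ofNat (nat_lit 128106219990816562885563514880)), (.negSucc (nat_lit 694697871)), (.negSucc (nat_lit 694697839)), (.negSucc (nat_lit 6430084830375298092769)), (.ofNat (nat_lit 6430084830375298092770)), (.negSucc (nat_lit 6430084830375298092769)), (.ofNat (nat_lit 6430084830375298092770)), (.ofNat (nat_lit 0))⟩,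
    ⟨nat_lit 0, nat_lit 20, nat_lit 21, (.ofNat (nat_lit 8)), (.negSucc (nat_lit 64831679)), (.ofNat (nat_lit 10798315737347762575904106197120)), (.ofNat (nat_lit 187826048)), (.ofNat (nat_lit 1453836213029132310498666909440)), (.negSucc (nat_lit 64831695)), (.negSucc (nat_lit 64831663)), (.ofNat (nat_lit 6430084830375298092770)), (.negSucc (nat_lit 6430084830375298092769)), (.negSucc (nat_lit 6430084830375298092769)), (.ofNat (nat_lit 6430084830375298092770)), (.ofNat (nat_lit 0))⟩,
    ⟨nat_lit 0, nat_lit 22, nat_lit 12, (.ofNat (nat_lit 8)), (.negSucc (nat_lit 2179199)), (.ofNat (nat_lit 7740623773722191520140126640640)), (.ofNat (nat_lit 188874624)), (.ofNat (nat_lit 1443722564082488897639280316160)), (.negSucc (nat_lit 2179215)), (.negSucc (nat_lit 2179183)), (.ofNat (nat_lit 6430084830375298092770)), (.negSucc (nat_lit 6430084830375298092769)), (.negSucc (nat_lit 6430084830375298092769)), (.ofNat (nat_lit 6430084830375298092770)), (.ofNat (nat_lit 0))⟩,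
    ⟨nat_lit 2, nat_lit 23, nat_lit 7, (.ofNat (nat_lit 8)), (.negSucc (nat_lit 767491775)), (.ofNat (nat_lit 5417120336367874004675398464640)), (.negSucc (nat_lit 18612223)), (.ofNat (nat_lit 119678179201947052169408020480)), (.negSucc (nat_lit 767491791)), (.negSucc (nat_lit 767491759)), (.negSucc (nat_lit 6430084830375298092769)), (.ofNat (nat_lit 6430084830375298092770)), (.negSucc (nat_lit 6430084830375298092769)), (.ofNat (nat_lit 6430084830375298092770)), (.ofNat (nat_lit 0))⟩,
    ⟨nat_lit 2, nat_lit 24, nat_lit 11, (.ofNat (nat_lit 8)), (.ofNat (nat_lit 233357056)), (.ofNat (nat_lit 6229476883328746536771602369280)), (.negSucc (nat_lit 15728639)), (.ofNat (nat_lit 124735003675268758599101317120)), (.ofNat (nat_lit 233357040)), (.ofNat (nat_lit 233357072)), (.negSucc (nat_lit 6430084830375298092769)), (.ofNat (nat_lit 6430084830375298092770)), (.negSucc (nat_lit 6430084830375298092769)), (.ofNat (nat_lit 6430084830375298092770)), (.ofNat (nat_lit 0))⟩,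
    ⟨nat_lit 0, nat_lit 24, nat_lit 25, (.ofNat (nat_lit 8)), (.ofNat (nat_lit 251444992)), (.ofNat (nat_lit 6113169920442347288888656546560)), (.ofNat (nat_lit 1310720)), (.ofNat (nat_lit 15170473419965119289079889920)), (.ofNat (nat_lit 251444976)), (.ofNat (nat_lit 251445008)), (.negSucc (nat_lit 6430084830375298092769)), (.ofNat (nat_lit 6430084830375298092770)), (.negSucc (nat_lit 6430084830375298092769)), (.ofNat (nat_lit 6430084830375298092770)), (.ofNat (nat_lit 0))⟩]
  es := [
    ⟨nat_lit 1, nat_lit 0, (.negSucc (nat_lit 838270655)), (.negSucc (nat_lit 544538367)), (.negSucc (nat_lit 838270639)), (.negSucc (nat_lit 544538383)), (.negSucc (nat_lit 6430084830375298092769)), (.ofNat (nat_lit 0)), (.ofNat (nat_lit 3371216315547804286462197760))⟩,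
    ⟨nat_lit 1, nat_lit 2, (.negSucc (nat_lit 838270655)), (.negSucc (nat_lit 692404095)), (.negSucc (nat_lit 838270639)), (.negSucc (nat_lit 692404111)), (.ofNat (nat_lit 6430084830375298092770)), (.ofNat (nat_lit 0)), (.ofNat (nat_lit 249470007350537517198202634240))⟩,
    ⟨nat_lit 2, nat_lit 3, (.negSucc (nat_lit 692404095)), (.negSucc (nat_lit 537870207)), (.negSucc (nat_lit 692404079)), (.negSucc (nat_lit 537870223)), (.negSucc (nat_lit 6430084830375298092769)), (.ofNat (nat_lit 0)), (.ofNat (nat_lit 13484865262191217145848791040))⟩,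
    ⟨nat_lit 3, nat_lit 4, (.negSucc (nat_lit 537870207)), (.ofNat (nat_lit 300334784)), (.negSucc (nat_lit 537870191)), (.ofNat (nat_lit 300334768)), (.ofNat (nat_lit 6430084830375298092770)), (.ofNat (nat_lit 0)), (.ofNat (nat_lit 235985142088346300052353843200))⟩,
    ⟨nat_lit 5, nat_lit 4, (.ofNat (nat_lit 121159360)), (.ofNat (nat_lit 300334784)), (.ofNat (nat_lit 121159376)), (.ofNat (nat_lit 300334768)), (.negSucc (nat_lit 6430084830375298092769)), (.ofNat (nat_lit 0)), (.ofNat (nat_lit 2671687283969918320944979975680))⟩,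
    ⟨nat_lit 6, nat_lit 5, (.negSucc (nat_lit 790085503)), (.ofNat (nat_lit 121159360)), (.negSucc (nat_lit 790085487)), (.ofNat (nat_lit 121159344)), (.ofNat (nat_lit 6430084830375298092770)), (.ofNat (nat_lit 0)), (.ofNat (nat_lit 252841223666085321484664832000))⟩,
    ⟨nat_lit 6, nat_lit 15, (.negSucc (nat_lit 790085503)), (.negSucc (nat_lit 695975807)), (.negSucc (nat_lit 790085487)), (.negSucc (nat_lit 695975823)), (.negSucc (nat_lit 6430084830375298092769)), (.ofNat (nat_lit 0)), (.ofNat (nat_lit 6742432631095608572924395520))⟩,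
    ⟨nat_lit 23, nat_lit 7, (.negSucc (nat_lit 767491775)), (.negSucc (nat_lit 549076863)), (.negSucc (nat_lit 767491759)), (.negSucc (nat_lit 549076879)), (.ofNat (nat_lit 6430084830375298092770)), (.ofNat (nat_lit 0)), (.ofNat (nat_lit 239356358403894104338816040960))⟩,
    ⟨nat_lit 7, nat_lit 8, (.negSucc (nat_lit 549076863)), (.ofNat (nat_lit 234929920)), (.negSucc (nat_lit 549076847)), (.ofNat (nat_lit 234929904)), (.negSucc (nat_lit 6430084830375298092769)), (.ofNat (nat_lit 0)), (.ofNat (nat_lit 16856081577739021432310988800))⟩,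
    ⟨nat_lit 8, nat_lit 9, (.ofNat (nat_lit 234929920)), (.ofNat (nat_lit 994622784)), (.ofNat (nat_lit 234929936)), (.ofNat (nat_lit 994622768)), (.ofNat (nat_lit 6430084830375298092770)), (.ofNat (nat_lit 0)), (.ofNat (nat_lit 0))⟩,
    ⟨nat_lit 10, nat_lit 9, (.ofNat (nat_lit 647872000)), (.ofNat (nat_lit 994622784)), (.ofNat (nat_lit 647872016)), (.ofNat (nat_lit 994622768)), (.negSucc (nat_lit 6430084830375298092769)), (.ofNat (nat_lit 0)), (.ofNat (nat_lit 2668316067654370516658517777920))⟩,
    ⟨nat_lit 24, nat_lit 10, (.ofNat (nat_lit 233357056)), (.ofNat (nat_lit 647872000)), (.ofNat (nat_lit 233357072)), (.ofNat (nat_lit 647871984)), (.ofNat (nat_lit 6430084830375298092770)), (.ofNat (nat_lit 0)), (.ofNat (nat_lit 225871493141702887192967249920))⟩,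
    ⟨nat_lit 22, nat_lit 12, (.negSucc (nat_lit 2179199)), (.ofNat (nat_lit 232832768)), (.negSucc (nat_lit 2179183)), (.ofNat (nat_lit 232832752)), (.negSucc (nat_lit 6430084830375298092769)), (.ofNat (nat_lit 0)), (.ofNat (nat_lit 2658202418707727103799131184640))⟩,
    ⟨nat_lit 13, nat_lit 12, (.negSucc (nat_lit 98582591)), (.ofNat (nat_lit 232832768)), (.negSucc (nat_lit 98582575)), (.ofNat (nat_lit 232832752)), (.ofNat (nat_lit 6430084830375298092770)), (.ofNat (nat_lit 0)), (.ofNat (nat_lit 10113648946643412859386593280))⟩,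
    ⟨nat_lit 14, nat_lit 13, (.negSucc (nat_lit 557858687)), (.negSucc (nat_lit 98582591)), (.negSucc (nat_lit 557858671)), (.negSucc (nat_lit 98582607)), (.negSucc (nat_lit 6430084830375298092769)), (.ofNat (nat_lit 0)), (.ofNat (nat_lit 20227297893286825718773186560))⟩,
    ⟨nat_lit 15, nat_lit 14, (.negSucc (nat_lit 695975807)), (.negSucc (nat_lit 557858687)), (.negSucc (nat_lit 695975791)), (.negSucc (nat_lit 557858703)), (.ofNat (nat_lit 6430084830375298092770)), (.ofNat (nat_lit 0)), (.ofNat (nat_lit 242727574719441908625278238720))⟩,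
    ⟨nat_lit 16, nat_lit 17, (.negSucc (nat_lit 91553791)), (.ofNat (nat_lit 859618688)), (.negSucc (nat_lit 91553775)), (.ofNat (nat_lit 859618672)), (.ofNat (nat_lit 6430084830375298092770)), (.ofNat (nat_lit 0)), (.ofNat (nat_lit 3371216315547804286462197760))⟩,
    ⟨nat_lit 18, nat_lit 17, (.ofNat (nat_lit 271105728)), (.ofNat (nat_lit 859618688)), (.ofNat (nat_lit 271105744)), (.ofNat (nat_lit 859618672)), (.negSucc (nat_lit 6430084830375298092769)), (.ofNat (nat_lit 0)), (.ofNat (nat_lit 2664944851338822712372055580160))⟩,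
    ⟨nat_lit 19, nat_lit 18, (.negSucc (nat_lit 540163967)), (.ofNat (nat_lit 271105728)), (.negSucc (nat_lit 540163951)), (.ofNat (nat_lit 271105712)), (.ofNat (nat_lit 6430084830375298092770)), (.ofNat (nat_lit 0)), (.ofNat (nat_lit 232613925772798495765891645440))⟩,
    ⟨nat_lit 20, nat_lit 19, (.negSucc (nat_lit 694697855)), (.negSucc (nat_lit 540163967)), (.negSucc (nat_lit 694697839)), (.negSucc (nat_lit 540163983)), (.negSucc (nat_lit 6430084830375298092769)), (.ofNat (nat_lit 0)), (.ofNat (nat_lit 10113648946643412859386593280))⟩,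
    ⟨nat_lit 20, nat_lit 21, (.negSucc (nat_lit 694697855)), (.negSucc (nat_lit 64831679)), (.negSucc (nat_lit 694697839)), (.negSucc (nat_lit 64831695)), (.ofNat (nat_lit 6430084830375298092770)), (.ofNat (nat_lit 0)), (.ofNat (nat_lit 246098791034989712911740436480))⟩,
    ⟨nat_lit 21, nat_lit 11, (.negSucc (nat_lit 64831679)), (.ofNat (nat_lit 457621120)), (.negSucc (nat_lit 64831663)), (.ofNat (nat_lit 457621104)), (.negSucc (nat_lit 6430084830375298092769)), (.ofNat (nat_lit 0)), (.ofNat (nat_lit 2661573635023274908085593382400))⟩,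
    ⟨nat_lit 0, nat_lit 22, (.negSucc (nat_lit 544538367)), (.negSucc (nat_lit 2179199)), (.negSucc (nat_lit 544538351)), (.negSucc (nat_lit 2179215)), (.ofNat (nat_lit 6430084830375298092770)), (.ofNat (nat_lit 0)), (.ofNat (nat_lit 229242709457250691479429447680))⟩,
    ⟨nat_lit 23, nat_lit 16, (.negSucc (nat_lit 767491775)), (.negSucc (nat_lit 91553791)), (.negSucc (nat_lit 767491759)), (.negSucc (nat_lit 91553807)), (.negSucc (nat_lit 6430084830375298092769)), (.ofNat (nat_lit 0)), (.ofNat (nat_lit 0))⟩,
    ⟨nat_lit 24, nat_lit 25, (.ofNat (nat_lit 233357056)), (.ofNat (nat_lit 251444992)), (.ofNat (nat_lit 233357072)), (.ofNat (nat_lit 251444976)), (.negSucc (nat_lit 6430084830375298092769)), (.ofNat (nat_lit 0)), (.ofNat (nat_lit 23598514208834630005235384320))⟩,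
    ⟨nat_lit 25, nat_lit 11, (.ofNat (nat_lit 251444992)), (.ofNat (nat_lit 457621120)), (.ofNat (nat_lit 251445008)), (.ofNat (nat_lit 457621104)), (.ofNat (nat_lit 6430084830375298092770)), (.ofNat (nat_lit 0)), (.ofNat (nat_lit 6742432631095608572924395520))⟩]

theorem ok65 : stOK 25 25 S65 = true := by decide +kernel

def S66 : SD where
  vs := [
    ⟨nat_lit 0, nat_lit 0, nat_lit 22, (.ofNat (nat_lit 8)), (.negSucc (nat_lit 546504447)), (.ofNat (nat_lit 4245623078240441159148862680320)), (.negSucc (nat_lit 1966079)), (.negSucc (nat_lit 7585236709982559644539944959)), (.negSucc (nat_lit 546504463)), (.negSucc (nat_lit 546504431)), (.negSucc (nat_lit 6430084830375298092769)), (.ofNat (nat_lit 6430084830375298092770)), (.negSucc (nat_lit 6430084830375298092769)), (.ofNat (nat_lit 6430084830375298092770)), (.ofNat (nat_lit 0))⟩,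
    ⟨nat_lit 2, nat_lit 0, nat_lit 1, (.ofNat (nat_lit 8)), (.negSucc (nat_lit 841809599)), (.ofNat (nat_lit 6144460256447312779479617631360)), (.negSucc (nat_lit 3538943)), (.ofNat (nat_lit 2528412236660853214846648320)), (.negSucc (nat_lit 841809615)), (.negSucc (nat_lit 841809583)), (.negSucc (nat_lit 6430084830375298092769)), (.ofNat (nat_lit 6430084830375298092770)), (.negSucc (nat_lit 6430084830375298092769)), (.ofNat (nat_lit 6430084830375298092770)), (.ofNat (nat_lit 0))⟩,
    ⟨nat_lit 0, nat_lit 1, nat_lit 2, (.ofNat (nat_lit 8)), (.negSucc (nat_lit 695156607)), (.ofNat (nat_lit 7087451435635662727676231699200)), (.negSucc (nat_lit 2752511)), (.ofNat (nat_lit 7585236709982559644539944960)), (.negSucc (nat_lit 695156623)), (.negSucc (nat_lit 695156591)), (.ofNat (nat_lit 6430084830375298092770)), (.negSucc (nat_lit 6430084830375298092769)), (.negSucc (nat_lit 6430084830375298092769)), (.ofNat (nat_lit 6430084830375298092770)), (.ofNat (nat_lit 0))⟩,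
    ⟨nat_lit 0, nat_lit 2, nat_lit 3, (.ofNat (nat_lit 8)), (.negSucc (nat_lit 539574143)), (.ofNat (nat_lit 6087042993996851805668574513920)), (.negSucc (nat_lit 1703935)), (.ofNat (nat_lit 842804078886951071615549440)), (.negSucc (nat_lit 539574159)), (.negSucc (nat_lit 539574127)), (.negSucc (nat_lit 6430084830375298092769)), (.ofNat (nat_lit 6430084830375298092770)), (.negSucc (nat_lit 6430084830375298092769)), (.ofNat (nat_lit 6430084830375298092770)), (.ofNat (nat_lit 0))⟩,
    ⟨nat_lit 1, nat_lit 3, nat_lit 4, (.ofNat (nat_lit 8)), (.ofNat (nat_lit 300596928)), (.ofNat (nat_lit 11489414258984204166590700863360)), (.ofNat (nat_lit 262144)), (.ofNat (nat_lit 13484865262191217145848791040)), (.ofNat (nat_lit 300596912)), (.ofNat (nat_lit 300596944)), (.ofNat (nat_lit 6430084830375298092770)), (.negSucc (nat_lit 6430084830375298092769)), (.negSucc (nat_lit 6430084830375298092769)), (.ofNat (nat_lit 6430084830375298092770)), (.ofNat (nat_lit 0))⟩,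
    ⟨nat_lit 0, nat_lit 5, nat_lit 4, (.ofNat (nat_lit 8)), (.ofNat (nat_lit 120110784)), (.ofNat (nat_lit 12649955475611535792205312442240)), (.negSucc (nat_lit 1048575)), (.ofNat (nat_lit 21912906051060727862004285440)), (.ofNat (nat_lit 120110768)), (.ofNat (nat_lit 120110800)), (.ofNat (nat_lit 6430084830375298092770)), (.negSucc (nat_lit 6430084830375298092769)), (.negSucc (nat_lit 6430084830375298092769)), (.ofNat (nat_lit 6430084830375298092770)), (.ofNat (nat_lit 0))⟩,
    ⟨nat_lit 2, nat_lit 6, nat_lit 5, (.ofNat (nat_lit 8)), (.negSucc (nat_lit 793624447)), (.ofNat (nat_lit 6774560421348882142338958969600)), (.negSucc (nat_lit 3538943)), (.ofNat (nat_lit 5899628552208657501308846080)), (.negSucc (nat_lit 793624463)), (.negSucc (nat_lit 793624431)), (.negSucc (nat_lit 6430084830375298092769)), (.ofNat (nat_lit 6430084830375298092770)), (.negSucc (nat_lit 6430084830375298092769)), (.ofNat (nat_lit 6430084830375298092770)), (.ofNat (nat_lit 0))⟩,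
    ⟨nat_lit 0, nat_lit 7, nat_lit 8, (.ofNat (nat_lit 8)), (.negSucc (nat_lit 550780799)), (.ofNat (nat_lit 6825760769141264419939603598080)), (.negSucc (nat_lit 1703935)), (.ofNat (nat_lit 4214020394434755358077747200)), (.negSucc (nat_lit 550780815)), (.negSucc (nat_lit 550780783)), (.ofNat (nat_lit 6430084830375298092770)), (.negSucc (nat_lit 6430084830375298092769)), (.negSucc (nat_lit 6430084830375298092769)), (.ofNat (nat_lit 6430084830375298092770)), (.ofNat (nat_lit 0))⟩,
    ⟨nat_lit 0, nat_lit 8, nat_lit 9, (.ofNat (nat_lit 8)), (.ofNat (nat_lit 235192064)), (.ofNat (nat_lit 1771888579248237183111429004800)), (.ofNat (nat_lit 262144)), (.negSucc (nat_lit 8428040788869510716155494399)), (.ofNat (nat_lit 235192048)), (.ofNat (nat_lit 235192080)), (.negSucc (nat_lit 6430084830375298092769)), (.ofNat (nat_lit 6430084830375298092770)), (.negSucc (nat_lit 6430084830375298092769)), (.ofNat (nat_lit 6430084830375298092770)), (.ofNat (nat_lit 0))⟩,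
    ⟨nat_lit 1, nat_lit 9, nat_lit 10, (.ofNat (nat_lit 8)), (.ofNat (nat_lit 996326720)), (.ofNat (nat_lit 6666048984666758047849379041920)), (.ofNat (nat_lit 1703936)), (.ofNat (nat_lit 842804078886951071615549440)), (.ofNat (nat_lit 996326704)), (.ofNat (nat_lit 996326736)), (.ofNat (nat_lit 6430084830375298092770)), (.negSucc (nat_lit 6430084830375298092769)), (.negSucc (nat_lit 6430084830375298092769)), (.ofNat (nat_lit 6430084830375298092770)), (.ofNat (nat_lit 0))⟩,
    ⟨nat_lit 0, nat_lit 11, nat_lit 10, (.ofNat (nat_lit 8)), (.ofNat (nat_lit 648658432)), (.ofNat (nat_lit 8901585569338108333252390119680)), (.ofNat (nat_lit 786432)), (.ofNat (nat_lit 6742432631095608572924395520)), (.ofNat (nat_lit 648658416)), (.ofNat (nat_lit 648658448)), (.ofNat (nat_lit 6430084830375298092770)), (.negSucc (nat_lit 6430084830375298092769)), (.negSucc (nat_lit 6430084830375298092769)), (.ofNat (nat_lit 6430084830375298092770)), (.ofNat (nat_lit 0))⟩,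
    ⟨nat_lit 1, nat_lit 25, nat_lit 21, (.ofNat (nat_lit 8)), (.ofNat (nat_lit 458276480)), (.ofNat (nat_lit 7439742717559549987573375490560)), (.ofNat (nat_lit 655360)), (.ofNat (nat_lit 842804078886951071615549440)), (.ofNat (nat_lit 458276464)), (.ofNat (nat_lit 458276496)), (.ofNat (nat_lit 6430084830375298092770)), (.negSucc (nat_lit 6430084830375298092769)), (.negSucc (nat_lit 6430084830375298092769)), (.ofNat (nat_lit 6430084830375298092770)), (.ofNat (nat_lit 0))⟩,
    ⟨nat_lit 1, nat_lit 13, nat_lit 12, (.ofNat (nat_lit 8)), (.ofNat (nat_lit 232963840)), (.ofNat (nat_lit 6230319687407633487843217918720)), (.ofNat (nat_lit 131072)), (.ofNat (nat_lit 842804078886951071615549440)), (.ofNat (nat_lit 232963824)), (.ofNat (nat_lit 232963856)), (.ofNat (nat_lit 6430084830375298092770)), (.negSucc (nat_lit 6430084830375298092769)), (.negSucc (nat_lit 6430084830375298092769)), (.ofNat (nat_lit 6430084830375298092770)), (.ofNat (nat_lit 0))⟩,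
    ⟨nat_lit 0, nat_lit 14, nat_lit 13, (.ofNat (nat_lit 8)), (.negSucc (nat_lit 98844735)), (.ofNat (nat_lit 4096762396281604282105688323200)), (.negSucc (nat_lit 262143)), (.negSucc (nat_lit 1685608157773902143231098879)), (.negSucc (nat_lit 98844751)), (.negSucc (nat_lit 98844719)), (.negSucc (nat_lit 6430084830375298092769)), (.ofNat (nat_lit 6430084830375298092770)), (.negSucc (nat_lit 6430084830375298092769)), (.ofNat (nat_lit 6430084830375298092770)), (.ofNat (nat_lit 0))⟩,
    ⟨nat_lit 0, nat_lit 15, nat_lit 14, (.ofNat (nat_lit 8)), (.negSucc (nat_lit 559562623)), (.ofNat (nat_lit 7059217498992949866777110792960)), (.negSucc (nat_lit 1703935)), (.ofNat (nat_lit 7585236709982559644539944960)), (.negSucc (nat_lit 559562639)), (.negSucc (nat_lit 559562607)), (.ofNat (nat_lit 6430084830375298092770)), (.negSucc (nat_lit 6430084830375298092769)), (.negSucc (nat_lit 6430084830375298092769)), (.ofNat (nat_lit 6430084830375298092770)), (.ofNat (nat_lit 0))⟩,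
    ⟨nat_lit 0, nat_lit 6, nat_lit 15, (.ofNat (nat_lit 8)), (.negSucc (nat_lit 698728319)), (.ofNat (nat_lit 6164370268234729566489301175040)), (.negSucc (nat_lit 2752511)), (.ofNat (nat_lit 842804078886951071615549440)), (.negSucc (nat_lit 698728335)), (.negSucc (nat_lit 698728303)), (.negSucc (nat_lit 6430084830375298092769)), (.ofNat (nat_lit 6430084830375298092770)), (.negSucc (nat_lit 6430084830375298092769)), (.ofNat (nat_lit 6430084830375298092770)), (.ofNat (nat_lit 0))⟩,
    ⟨nat_lit 0, nat_lit 23, nat_lit 16, (.ofNat (nat_lit 8)), (.negSucc (nat_lit 92864511)), (.ofNat (nat_lit 1055611285755047929160319799040)), (.negSucc (nat_lit 1310719)), (.negSucc (nat_lit 15170473419965119289079889919)), (.negSucc (nat_lit 92864527)), (.negSucc (nat_lit 92864495)), (.negSucc (nat_lit 6430084830375298092769)), (.ofNat (nat_lit 6430084830375298092770)), (.negSucc (nat_lit 6430084830375298092769)), (.ofNat (nat_lit 6430084830375298092770)), (.ofNat (nat_lit 0))⟩,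
    ⟨nat_lit 1, nat_lit 16, nat_lit 17, (.ofNat (nat_lit 8)), (.ofNat (nat_lit 860798336)), (.ofNat (nat_lit 7187744297972351617160326208000)), (.ofNat (nat_lit 1179648)), (.ofNat (nat_lit 842804078886951071615549440)), (.ofNat (nat_lit 860798320)), (.ofNat (nat_lit 860798352)), (.ofNat (nat_lit 6430084830375298092770)), (.negSucc (nat_lit 6430084830375298092769)), (.negSucc (nat_lit 6430084830375298092769)), (.ofNat (nat_lit 6430084830375298092770)), (.ofNat (nat_lit 0))⟩,
    ⟨nat_lit 0, nat_lit 18, nat_lit 17, (.ofNat (nat_lit 8)), (.ofNat (nat_lit 271105728)), (.ofNat (nat_lit 10979517791257598768263293452160)), (.ofNat (nat_lit 0)), (.ofNat (nat_lit 8428040788869510716155494400)), (.ofNat (nat_lit 271105712)), (.ofNat (nat_lit 271105744)), (.ofNat (nat_lit 6430084830375298092770)), (.negSucc (nat_lit 6430084830375298092769)), (.negSucc (nat_lit 6430084830375298092769)), (.ofNat (nat_lit 6430084830375298092770)), (.ofNat (nat_lit 0))⟩,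
    ⟨nat_lit 0, nat_lit 19, nat_lit 18, (.ofNat (nat_lit 8)), (.negSucc (nat_lit 541867903)), (.ofNat (nat_lit 5752028372639288754701393611520)), (.negSucc (nat_lit 1703935)), (.negSucc (nat_lit 2528412236660853214846648319)), (.negSucc (nat_lit 541867919)), (.negSucc (nat_lit 541867887)), (.negSucc (nat_lit 6430084830375298092769)), (.ofNat (nat_lit 6430084830375298092770)), (.negSucc (nat_lit 6430084830375298092769)), (.ofNat (nat_lit 6430084830375298092770)), (.ofNat (nat_lit 0))⟩,
    ⟨nat_lit 2, nat_lit 19, nat_lit 20, (.ofNat (nat_lit 8)), (.negSucc (nat_lit 697450367)), (.ofNat (nat_lit 6752436814278099676709050796800)), (.negSucc (nat_lit 2752511)), (.ofNat (nat_lit 4214020394434755358077747200)), (.negSucc (nat_lit 697450383)), (.negSucc (nat_lit 697450351)), (.negSucc (nat_lit 6430084830375298092769)), (.ofNat (nat_lit 6430084830375298092770)), (.negSucc (nat_lit 6430084830375298092769)), (.ofNat (nat_lit 6430084830375298092770)), (.ofNat (nat_lit 0))⟩,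
    ⟨nat_lit 0, nat_lit 20, nat_lit 21, (.ofNat (nat_lit 8)), (.negSucc (nat_lit 66142399)), (.ofNat (nat_lit 10811800602609953793049954988160)), (.negSucc (nat_lit 1310719)), (.ofNat (nat_lit 13484865262191217145848791040)), (.negSucc (nat_lit 66142415)), (.negSucc (nat_lit 66142383)), (.ofNat (nat_lit 6430084830375298092770)), (.negSucc (nat_lit 6430084830375298092769)), (.negSucc (nat_lit 6430084830375298092769)), (.ofNat (nat_lit 6430084830375298092770)), (.ofNat (nat_lit 0))⟩,
    ⟨nat_lit 0, nat_lit 22, nat_lit 12, (.ofNat (nat_lit 8)), (.negSucc (nat_lit 2441343)), (.ofNat (nat_lit 7743994990037739324426588838400)), (.negSucc (nat_lit 262143)), (.ofNat (nat_lit 3371216315547804286462197760)), (.negSucc (nat_lit 2441359)), (.negSucc (nat_lit 2441327)), (.ofNat (nat_lit 6430084830375298092770)), (.negSucc (nat_lit 6430084830375298092769)), (.negSucc (nat_lit 6430084830375298092769)), (.ofNat (nat_lit 6430084830375298092770)), (.ofNat (nat_lit 0))⟩,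
    ⟨nat_lit 2, nat_lit 23, nat_lit 7, (.ofNat (nat_lit 8)), (.negSucc (nat_lit 770506431)), (.ofNat (nat_lit 5412906315973439249317320717440)), (.negSucc (nat_lit 3014655)), (.negSucc (nat_lit 4214020394434755358077747199)), (.negSucc (nat_lit 770506447)), (.negSucc (nat_lit 770506415)), (.negSucc (nat_lit 6430084830375298092769)), (.ofNat (nat_lit 6430084830375298092770)), (.negSucc (nat_lit 6430084830375298092769)), (.ofNat (nat_lit 6430084830375298092770)), (.ofNat (nat_lit 0))⟩,
    ⟨nat_lit 2, nat_lit 24, nat_lit 11, (.ofNat (nat_lit 8)), (.ofNat (nat_lit 233225984)), (.ofNat (nat_lit 6230319687407633487843217918720)), (.negSucc (nat_lit 131071)), (.ofNat (nat_lit 842804078886951071615549440)), (.ofNat (nat_lit 233225968)), (.ofNat (nat_lit 233226000)), (.negSucc (nat_lit 6430084830375298092769)), (.ofNat (nat_lit 6430084830375298092770)), (.negSucc (nat_lit 6430084830375298092769)), (.ofNat (nat_lit 6430084830375298092770)), (.ofNat (nat_lit 0))⟩,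
    ⟨nat_lit 0, nat_lit 24, nat_lit 25, (.ofNat (nat_lit 8)), (.ofNat (nat_lit 251707136)), (.ofNat (nat_lit 6111484312284573386745425447680)), (.ofNat (nat_lit 262144)), (.negSucc (nat_lit 1685608157773902143231098879)), (.ofNat (nat_lit 251707120)), (.ofNat (nat_lit 251707152)), (.negSucc (nat_lit 6430084830375298092769)), (.ofNat (nat_lit 6430084830375298092770)), (.negSucc (nat_lit 6430084830375298092769)), (.ofNat (nat_lit 6430084830375298092770)), (.ofNat (nat_lit 0))⟩]
  es := [
    ⟨nat_lit 1, nat_lit 0, (.negSucc (nat_lit 841809599)), (.negSucc (nat_lit 546504447)), (.negSucc (nat_lit 841809583)), (.negSucc (nat_lit 546504463)), (.negSucc (nat_lit 6430084830375298092769)), (.ofNat (nat_lit 0)), (.negSucc (nat_lit 20227297893286825718773186559))⟩,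
    ⟨nat_lit 1, nat_lit 2, (.negSucc (nat_lit 841809599)), (.negSucc (nat_lit 695156607)), (.negSucc (nat_lit 841809583)), (.negSucc (nat_lit 695156623)), (.ofNat (nat_lit 6430084830375298092770)), (.ofNat (nat_lit 0)), (.ofNat (nat_lit 25284122366608532148466483200))⟩,
    ⟨nat_lit 2, nat_lit 3, (.negSucc (nat_lit 695156607)), (.negSucc (nat_lit 539574143)), (.negSucc (nat_lit 695156591)), (.negSucc (nat_lit 539574159)), (.negSucc (nat_lit 6430084830375298092769)), (.ofNat (nat_lit 0)), (.negSucc (nat_lit 10113648946643412859386593279))⟩,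
    ⟨nat_lit 3, nat_lit 4, (.negSucc (nat_lit 539574143)), (.ofNat (nat_lit 300596928)), (.negSucc (nat_lit 539574127)), (.ofNat (nat_lit 300596912)), (.ofNat (nat_lit 6430084830375298092770)), (.ofNat (nat_lit 0)), (.ofNat (nat_lit 11799257104417315002617692160))⟩,
    ⟨nat_lit 5, nat_lit 4, (.ofNat (nat_lit 120110784)), (.ofNat (nat_lit 300596928)), (.ofNat (nat_lit 120110800)), (.ofNat (nat_lit 300596912)), (.negSucc (nat_lit 6430084830375298092769)), (.ofNat (nat_lit 0)), (.ofNat (nat_lit 15170473419965119289079889920))⟩,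
    ⟨nat_lit 6, nat_lit 5, (.negSucc (nat_lit 793624447)), (.ofNat (nat_lit 120110784)), (.negSucc (nat_lit 793624431)), (.ofNat (nat_lit 120110768)), (.ofNat (nat_lit 6430084830375298092770)), (.ofNat (nat_lit 0)), (.ofNat (nat_lit 28655338682156336434928680960))⟩,
    ⟨nat_lit 6, nat_lit 15, (.negSucc (nat_lit 793624447)), (.negSucc (nat_lit 698728319)), (.negSucc (nat_lit 793624431)), (.negSucc (nat_lit 698728335)), (.negSucc (nat_lit 6430084830375298092769)), (.ofNat (nat_lit 0)), (.negSucc (nat_lit 16856081577739021432310988799))⟩,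
    ⟨nat_lit 23, nat_lit 7, (.negSucc (nat_lit 770506431)), (.negSucc (nat_lit 550780799)), (.negSucc (nat_lit 770506415)), (.negSucc (nat_lit 550780815)), (.ofNat (nat_lit 6430084830375298092770)), (.ofNat (nat_lit 0)), (.ofNat (nat_lit 15170473419965119289079889920))⟩,
    ⟨nat_lit 7, nat_lit 8, (.negSucc (nat_lit 550780799)), (.ofNat (nat_lit 235192064)), (.negSucc (nat_lit 550780783)), (.ofNat (nat_lit 235192048)), (.negSucc (nat_lit 6430084830375298092769)), (.ofNat (nat_lit 0)), (.negSucc (nat_lit 6742432631095608572924395519))⟩,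
    ⟨nat_lit 8, nat_lit 9, (.ofNat (nat_lit 235192064)), (.ofNat (nat_lit 996326720)), (.ofNat (nat_lit 235192080)), (.ofNat (nat_lit 996326704)), (.ofNat (nat_lit 6430084830375298092770)), (.ofNat (nat_lit 0)), (.negSucc (nat_lit 10113648946643412859386593279))⟩,
    ⟨nat_lit 10, nat_lit 9, (.ofNat (nat_lit 648658432)), (.ofNat (nat_lit 996326720)), (.ofNat (nat_lit 648658448)), (.ofNat (nat_lit 996326704)), (.negSucc (nat_lit 6430084830375298092769)), (.ofNat (nat_lit 0)), (.ofNat (nat_lit 11799257104417315002617692160))⟩,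
    ⟨nat_lit 24, nat_lit 10, (.ofNat (nat_lit 233225984)), (.ofNat (nat_lit 648658432)), (.ofNat (nat_lit 233226000)), (.ofNat (nat_lit 648658416)), (.ofNat (nat_lit 6430084830375298092770)), (.ofNat (nat_lit 0)), (.ofNat (nat_lit 1685608157773902143231098880))⟩,
    ⟨nat_lit 22, nat_lit 12, (.negSucc (nat_lit 2441343)), (.ofNat (nat_lit 232963840)), (.negSucc (nat_lit 2441327)), (.ofNat (nat_lit 232963824)), (.negSucc (nat_lit 6430084830375298092769)), (.ofNat (nat_lit 0)), (.ofNat (nat_lit 1685608157773902143231098880))⟩,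
    ⟨nat_lit 13, nat_lit 12, (.negSucc (nat_lit 98844735)), (.ofNat (nat_lit 232963840)), (.negSucc (nat_lit 98844719)), (.ofNat (nat_lit 232963824)), (.ofNat (nat_lit 6430084830375298092770)), (.ofNat (nat_lit 0)), (.ofNat (nat_lit 0))⟩,
    ⟨nat_lit 14, nat_lit 13, (.negSucc (nat_lit 559562623)), (.negSucc (nat_lit 98844735)), (.negSucc (nat_lit 559562607)), (.negSucc (nat_lit 98844751)), (.negSucc (nat_lit 6430084830375298092769)), (.ofNat (nat_lit 0)), (.negSucc (nat_lit 3371216315547804286462197759))⟩,
    ⟨nat_lit 15, nat_lit 14, (.negSucc (nat_lit 698728319)), (.negSucc (nat_lit 559562623)), (.negSucc (nat_lit 698728303)), (.negSucc (nat_lit 559562639)), (.ofNat (nat_lit 6430084830375298092770)), (.ofNat (nat_lit 0)), (.ofNat (nat_lit 18541689735512923575542087680))⟩,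
    ⟨nat_lit 16, nat_lit 17, (.negSucc (nat_lit 92864511)), (.ofNat (nat_lit 860798336)), (.negSucc (nat_lit 92864495)), (.ofNat (nat_lit 860798320)), (.ofNat (nat_lit 6430084830375298092770)), (.ofNat (nat_lit 0)), (.negSucc (nat_lit 6742432631095608572924395519))⟩,
    ⟨nat_lit 18, nat_lit 17, (.ofNat (nat_lit 271105728)), (.ofNat (nat_lit 860798336)), (.ofNat (nat_lit 271105744)), (.ofNat (nat_lit 860798320)), (.negSucc (nat_lit 6430084830375298092769)), (.ofNat (nat_lit 0)), (.ofNat (nat_lit 8428040788869510716155494400))⟩,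
    ⟨nat_lit 19, nat_lit 18, (.negSucc (nat_lit 541867903)), (.ofNat (nat_lit 271105728)), (.negSucc (nat_lit 541867887)), (.ofNat (nat_lit 271105712)), (.ofNat (nat_lit 6430084830375298092770)), (.ofNat (nat_lit 0)), (.ofNat (nat_lit 8428040788869510716155494400))⟩,
    ⟨nat_lit 20, nat_lit 19, (.negSucc (nat_lit 697450367)), (.negSucc (nat_lit 541867903)), (.negSucc (nat_lit 697450351)), (.negSucc (nat_lit 541867919)), (.negSucc (nat_lit 6430084830375298092769)), (.ofNat (nat_lit 0)), (.negSucc (nat_lit 13484865262191217145848791039))⟩,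
    ⟨nat_lit 20, nat_lit 21, (.negSucc (nat_lit 697450367)), (.negSucc (nat_lit 66142399)), (.negSucc (nat_lit 697450351)), (.negSucc (nat_lit 66142415)), (.ofNat (nat_lit 6430084830375298092770)), (.ofNat (nat_lit 0)), (.ofNat (nat_lit 21912906051060727862004285440))⟩,
    ⟨nat_lit 21, nat_lit 11, (.negSucc (nat_lit 66142399)), (.ofNat (nat_lit 458276480)), (.negSucc (nat_lit 66142383)), (.ofNat (nat_lit 458276464)), (.negSucc (nat_lit 6430084830375298092769)), (.ofNat (nat_lit 0)), (.ofNat (nat_lit 5056824473321706429693296640))⟩,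
    ⟨nat_lit 0, nat_lit 22, (.negSucc (nat_lit 546504447)), (.negSucc (nat_lit 2441343)), (.negSucc (nat_lit 546504431)), (.negSucc (nat_lit 2441359)), (.ofNat (nat_lit 6430084830375298092770)), (.ofNat (nat_lit 0)), (.ofNat (nat_lit 5056824473321706429693296640))⟩,
    ⟨nat_lit 23, nat_lit 16, (.negSucc (nat_lit 770506431)), (.negSucc (nat_lit 92864511)), (.negSucc (nat_lit 770506415)), (.negSucc (nat_lit 92864527)), (.negSucc (nat_lit 6430084830375298092769)), (.ofNat (nat_lit 0)), (.negSucc (nat_lit 23598514208834630005235384319))⟩,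
    ⟨nat_lit 24, nat_lit 25, (.ofNat (nat_lit 233225984)), (.ofNat (nat_lit 251707136)), (.ofNat (nat_lit 233226000)), (.ofNat (nat_lit 251707120)), (.negSucc (nat_lit 6430084830375298092769)), (.ofNat (nat_lit 0)), (.ofNat (nat_lit 0))⟩,
    ⟨nat_lit 25, nat_lit 11, (.ofNat (nat_lit 251707136)), (.ofNat (nat_lit 458276480)), (.ofNat (nat_lit 251707152)), (.ofNat (nat_lit 458276464)), (.ofNat (nat_lit 6430084830375298092770)), (.ofNat (nat_lit 0)), (.negSucc (nat_lit 3371216315547804286462197759))⟩]

theorem ok66 : stOK 25 25 S66 = true := by decide +kernel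

def S67 : SD where
  vs := [
    ⟨nat_lit 0, nat_lit 0, nat_lit 22, (.ofNat (nat_lit 8)), (.negSucc (nat_lit 550436607)), (.ofNat (nat_lit 4230452604820476039859782790400)), (.negSucc (nat_lit 1966079)), (.negSucc (nat_lit 7585236709982559644539944959)), (.negSucc (nat_lit 550436623)), (.negSucc (nat_lit 550436591)), (.negSucc (nat_lit 6430084830375298092769)), (.ofNat (nat_lit 6430084830375298092770)), (.negSucc (nat_lit 6430084830375298092769)), (.ofNat (nat_lit 6430084830375298092770)), (.ofNat (nat_lit 0))⟩,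
    ⟨nat_lit 2, nat_lit 0, nat_lit 1, (.ofNat (nat_lit 8)), (.negSucc (nat_lit 848887487)), (.ofNat (nat_lit 6149517080920634485909310928000)), (.negSucc (nat_lit 3538943)), (.ofNat (nat_lit 2528412236660853214846648320)), (.negSucc (nat_lit 848887503)), (.negSucc (nat_lit 848887471)), (.negSucc (nat_lit 6430084830375298092769)), (.ofNat (nat_lit 6430084830375298092770)), (.negSucc (nat_lit 6430084830375298092769)), (.ofNat (nat_lit 6430084830375298092770)), (.ofNat (nat_lit 0))⟩,
    ⟨nat_lit 0, nat_lit 1, nat_lit 2, (.ofNat (nat_lit 8)), (.negSucc (nat_lit 700661631)), (.ofNat (nat_lit 7102621909055627846965311589120)), (.negSucc (nat_lit 2752511)), (.ofNat (nat_lit 7585236709982559644539944960)), (.negSucc (nat_lit 700661647)), (.negSucc (nat_lit 700661615)), (.ofNat (nat_lit 6430084830375298092770)), (.negSucc (nat_lit 6430084830375298092769)), (.negSucc (nat_lit 6430084830375298092769)), (.ofNat (nat_lit 6430084830375298092770)), (.ofNat (nat_lit 0))⟩,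
    ⟨nat_lit 0, nat_lit 2, nat_lit 3, (.ofNat (nat_lit 8)), (.negSucc (nat_lit 542982015)), (.ofNat (nat_lit 6088728602154625707811805612800)), (.negSucc (nat_lit 1703935)), (.ofNat (nat_lit 842804078886951071615549440)), (.negSucc (nat_lit 542982031)), (.negSucc (nat_lit 542981999)), (.negSucc (nat_lit 6430084830375298092769)), (.ofNat (nat_lit 6430084830375298092770)), (.negSucc (nat_lit 6430084830375298092769)), (.ofNat (nat_lit 6430084830375298092770)), (.ofNat (nat_lit 0))⟩,
    ⟨nat_lit 1, nat_lit 3, nat_lit 4, (.ofNat (nat_lit 8)), (.ofNat (nat_lit 301121216)), (.ofNat (nat_lit 11516383989508586600882398445440)), (.ofNat (nat_lit 262144)), (.ofNat (nat_lit 13484865262191217145848791040)), (.ofNat (nat_lit 301121200)), (.ofNat (nat_lit 301121232)), (.ofNat (nat_lit 6430084830375298092770)), (.negSucc (nat_lit 6430084830375298092769)), (.negSucc (nat_lit 6430084830375298092769)), (.ofNat (nat_lit 6430084830375298092770)), (.ofNat (nat_lit 0))⟩,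
    ⟨nat_lit 0, nat_lit 5, nat_lit 4, (.ofNat (nat_lit 8)), (.ofNat (nat_lit 118013632)), (.ofNat (nat_lit 12693781287713657247929321013120)), (.negSucc (nat_lit 1048575)), (.ofNat (nat_lit 21912906051060727862004285440)), (.ofNat (nat_lit 118013616)), (.ofNat (nat_lit 118013648)), (.ofNat (nat_lit 6430084830375298092770)), (.negSucc (nat_lit 6430084830375298092769)), (.negSucc (nat_lit 6430084830375298092769)), (.ofNat (nat_lit 6430084830375298092770)), (.ofNat (nat_lit 0))⟩,
    ⟨nat_lit 2, nat_lit 6, nat_lit 5, (.ofNat (nat_lit 8)), (.negSucc (nat_lit 800702335)), (.ofNat (nat_lit 6786359678453299457341576661760)), (.negSucc (nat_lit 3538943)), (.ofNat (nat_lit 5899628552208657501308846080)), (.negSucc (nat_lit 800702351)), (.negSucc (nat_lit 800702319)), (.negSucc (nat_lit 6430084830375298092769)), (.ofNat (nat_lit 6430084830375298092770)), (.negSucc (nat_lit 6430084830375298092769)), (.ofNat (nat_lit 6430084830375298092770)), (.ofNat (nat_lit 0))⟩,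
    ⟨nat_lit 0, nat_lit 7, nat_lit 8, (.ofNat (nat_lit 8)), (.negSucc (nat_lit 554188671)), (.ofNat (nat_lit 6834188809930133930655759092480)), (.negSucc (nat_lit 1703935)), (.ofNat (nat_lit 4214020394434755358077747200)), (.negSucc (nat_lit 554188687)), (.negSucc (nat_lit 554188655)), (.ofNat (nat_lit 6430084830375298092770)), (.negSucc (nat_lit 6430084830375298092769)), (.negSucc (nat_lit 6430084830375298092769)), (.ofNat (nat_lit 6430084830375298092770)), (.ofNat (nat_lit 0))⟩,
    ⟨nat_lit 0, nat_lit 8, nat_lit 9, (.ofNat (nat_lit 8)), (.ofNat (nat_lit 235716352)), (.ofNat (nat_lit 1755032497670498161679118016000)), (.ofNat (nat_lit 262144)), (.negSucc (nat_lit 8428040788869510716155494399)), (.ofNat (nat_lit 235716336)), (.ofNat (nat_lit 235716368)), (.negSucc (nat_lit 6430084830375298092769)), (.ofNat (nat_lit 6430084830375298092770)), (.negSucc (nat_lit 6430084830375298092769)), (.ofNat (nat_lit 6430084830375298092770)), (.ofNat (nat_lit 0))⟩,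
    ⟨nat_lit 1, nat_lit 9, nat_lit 10, (.ofNat (nat_lit 8)), (.ofNat (nat_lit 999734592)), (.ofNat (nat_lit 6667734592824531949992610140800)), (.ofNat (nat_lit 1703936)), (.ofNat (nat_lit 842804078886951071615549440)), (.ofNat (nat_lit 999734576)), (.ofNat (nat_lit 999734608)), (.ofNat (nat_lit 6430084830375298092770)), (.negSucc (nat_lit 6430084830375298092769)), (.negSucc (nat_lit 6430084830375298092769)), (.ofNat (nat_lit 6430084830375298092770)), (.ofNat (nat_lit 0))⟩,
    ⟨nat_lit 0, nat_lit 11, nat_lit 10, (.ofNat (nat_lit 8)), (.ofNat (nat_lit 650231296)), (.ofNat (nat_lit 8915070434600299550398238910720)), (.ofNat (nat_lit 786432)), (.ofNat (nat_lit 6742432631095608572924395520)), (.ofNat (nat_lit 650231280)), (.ofNat (nat_lit 650231312)), (.ofNat (nat_lit 6430084830375298092770)), (.negSucc (nat_lit 6430084830375298092769)), (.negSucc (nat_lit 6430084830375298092769)), (.ofNat (nat_lit 6430084830375298092770)), (.ofNat (nat_lit 0))⟩,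
    ⟨nat_lit 1, nat_lit 25, nat_lit 21, (.ofNat (nat_lit 8)), (.ofNat (nat_lit 459587200)), (.ofNat (nat_lit 7441428325717323889716606589440)), (.ofNat (nat_lit 655360)), (.ofNat (nat_lit 842804078886951071615549440)), (.ofNat (nat_lit 459587184)), (.ofNat (nat_lit 459587216)), (.ofNat (nat_lit 6430084830375298092770)), (.negSucc (nat_lit 6430084830375298092769)), (.negSucc (nat_lit 6430084830375298092769)), (.ofNat (nat_lit 6430084830375298092770)), (.ofNat (nat_lit 0))⟩,
    ⟨nat_lit 0, nat_lit 13, nat_lit 24, (.ofNat (nat_lit 8)), (.ofNat (nat_lit 233094912)), (.ofNat (nat_lit 6231162491486520438914833468160)), (.ofNat (nat_lit 0)), (.ofNat (nat_lit 0)), (.ofNat (nat_lit 233094896)), (.ofNat (nat_lit 233094928)), (.ofNat (nat_lit 6430084830375298092770)), (.negSucc (nat_lit 6430084830375298092769)), (.negSucc (nat_lit 6430084830375298092769)), (.ofNat (nat_lit 6430084830375298092770)), (.ofNat (nat_lit 0))⟩,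
    ⟨nat_lit 0, nat_lit 14, nat_lit 13, (.ofNat (nat_lit 8)), (.negSucc (nat_lit 99369023)), (.ofNat (nat_lit 4093391179966056477819226125440)), (.negSucc (nat_lit 262143)), (.negSucc (nat_lit 1685608157773902143231098879)), (.negSucc (nat_lit 99369039)), (.negSucc (nat_lit 99369007)), (.negSucc (nat_lit 6430084830375298092769)), (.ofNat (nat_lit 6430084830375298092770)), (.negSucc (nat_lit 6430084830375298092769)), (.ofNat (nat_lit 6430084830375298092770)), (.ofNat (nat_lit 0))⟩,
    ⟨nat_lit 0, nat_lit 15, nat_lit 14, (.ofNat (nat_lit 8)), (.negSucc (nat_lit 562970495)), (.ofNat (nat_lit 7074387972412914986066190682880)), (.negSucc (nat_lit 1703935)), (.ofNat (nat_lit 7585236709982559644539944960)), (.negSucc (nat_lit 562970511)), (.negSucc (nat_lit 562970479)), (.ofNat (nat_lit 6430084830375298092770)), (.negSucc (nat_lit 6430084830375298092769)), (.negSucc (nat_lit 6430084830375298092769)), (.ofNat (nat_lit 6430084830375298092770)), (.ofNat (nat_lit 0))⟩,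
    ⟨nat_lit 0, nat_lit 6, nat_lit 15, (.ofNat (nat_lit 8)), (.negSucc (nat_lit 704233343)), (.ofNat (nat_lit 6166055876392503468632532273920)), (.negSucc (nat_lit 2752511)), (.ofNat (nat_lit 842804078886951071615549440)), (.negSucc (nat_lit 704233359)), (.negSucc (nat_lit 704233327)), (.negSucc (nat_lit 6430084830375298092769)), (.ofNat (nat_lit 6430084830375298092770)), (.negSucc (nat_lit 6430084830375298092769)), (.ofNat (nat_lit 6430084830375298092770)), (.ofNat (nat_lit 0))⟩,
    ⟨nat_lit 0, nat_lit 23, nat_lit 16, (.ofNat (nat_lit 8)), (.negSucc (nat_lit 95485951)), (.ofNat (nat_lit 1025270338915117690582160019200)), (.negSucc (nat_lit 1310719)), (.negSucc (nat_lit 15170473419965119289079889919)), (.negSucc (nat_lit 95485967)), (.negSucc (nat_lit 95485935)), (.negSucc (nat_lit 6430084830375298092769)), (.ofNat (nat_lit 6430084830375298092770)), (.negSucc (nat_lit 6430084830375298092769)), (.ofNat (nat_lit 6430084830375298092770)), (.ofNat (nat_lit 0))⟩,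
    ⟨nat_lit 1, nat_lit 16, nat_lit 17, (.ofNat (nat_lit 8)), (.ofNat (nat_lit 863157632)), (.ofNat (nat_lit 7189429906130125519303557306880)), (.ofNat (nat_lit 1179648)), (.ofNat (nat_lit 842804078886951071615549440)), (.ofNat (nat_lit 863157616)), (.ofNat (nat_lit 863157648)), (.ofNat (nat_lit 6430084830375298092770)), (.negSucc (nat_lit 6430084830375298092769)), (.negSucc (nat_lit 6430084830375298092769)), (.ofNat (nat_lit 6430084830375298092770)), (.ofNat (nat_lit 0))⟩,
    ⟨nat_lit 0, nat_lit 18, nat_lit 17, (.ofNat (nat_lit 8)), (.ofNat (nat_lit 271105728)), (.ofNat (nat_lit 10996373872835337789695604440960)), (.ofNat (nat_lit 0)), (.ofNat (nat_lit 8428040788869510716155494400)), (.ofNat (nat_lit 271105712)), (.ofNat (nat_lit 271105744)), (.ofNat (nat_lit 6430084830375298092770)), (.negSucc (nat_lit 6430084830375298092769)), (.negSucc (nat_lit 6430084830375298092769)), (.ofNat (nat_lit 6430084830375298092770)), (.ofNat (nat_lit 0))⟩,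
    ⟨nat_lit 0, nat_lit 19, nat_lit 18, (.ofNat (nat_lit 8)), (.negSucc (nat_lit 545275775)), (.ofNat (nat_lit 5746971548165967048271700314880)), (.negSucc (nat_lit 1703935)), (.negSucc (nat_lit 2528412236660853214846648319)), (.negSucc (nat_lit 545275791)), (.negSucc (nat_lit 545275759)), (.negSucc (nat_lit 6430084830375298092769)), (.ofNat (nat_lit 6430084830375298092770)), (.negSucc (nat_lit 6430084830375298092769)), (.ofNat (nat_lit 6430084830375298092770)), (.ofNat (nat_lit 0))⟩,
    ⟨nat_lit 2, nat_lit 19, nat_lit 20, (.ofNat (nat_lit 8)), (.negSucc (nat_lit 702955391)), (.ofNat (nat_lit 6760864855066969187425206291200)), (.negSucc (nat_lit 2752511)), (.ofNat (nat_lit 4214020394434755358077747200)), (.negSucc (nat_lit 702955407)), (.negSucc (nat_lit 702955375)), (.negSucc (nat_lit 6430084830375298092769)), (.ofNat (nat_lit 6430084830375298092770)), (.negSucc (nat_lit 6430084830375298092769)), (.ofNat (nat_lit 6430084830375298092770)), (.ofNat (nat_lit 0))⟩,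
    ⟨nat_lit 0, nat_lit 20, nat_lit 21, (.ofNat (nat_lit 8)), (.negSucc (nat_lit 68763839)), (.ofNat (nat_lit 10838770333134336227341652570240)), (.negSucc (nat_lit 1310719)), (.ofNat (nat_lit 13484865262191217145848791040)), (.negSucc (nat_lit 68763855)), (.negSucc (nat_lit 68763823)), (.ofNat (nat_lit 6430084830375298092770)), (.negSucc (nat_lit 6430084830375298092769)), (.negSucc (nat_lit 6430084830375298092769)), (.ofNat (nat_lit 6430084830375298092770)), (.ofNat (nat_lit 0))⟩,
    ⟨nat_lit 0, nat_lit 22, nat_lit 12, (.ofNat (nat_lit 8)), (.negSucc (nat_lit 2965631)), (.ofNat (nat_lit 7750737422668834932999513233920)), (.negSucc (nat_lit 262143)), (.ofNat (nat_lit 3371216315547804286462197760)), (.negSucc (nat_lit 2965647)), (.negSucc (nat_lit 2965615)), (.ofNat (nat_lit 6430084830375298092770)), (.negSucc (nat_lit 6430084830375298092769)), (.negSucc (nat_lit 6430084830375298092769)), (.ofNat (nat_lit 6430084830375298092770)), (.ofNat (nat_lit 0))⟩,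
    ⟨nat_lit 2, nat_lit 23, nat_lit 7, (.ofNat (nat_lit 8)), (.negSucc (nat_lit 776535743)), (.ofNat (nat_lit 5404478275184569738601165223040)), (.negSucc (nat_lit 3014655)), (.negSucc (nat_lit 4214020394434755358077747199)), (.negSucc (nat_lit 776535759)), (.negSucc (nat_lit 776535727)), (.negSucc (nat_lit 6430084830375298092769)), (.ofNat (nat_lit 6430084830375298092770)), (.negSucc (nat_lit 6430084830375298092769)), (.ofNat (nat_lit 6430084830375298092770)), (.ofNat (nat_lit 0))⟩,
    ⟨nat_lit 0, nat_lit 12, nat_lit 11, (.ofNat (nat_lit 8)), (.ofNat (nat_lit 233094912)), (.ofNat (nat_lit 6232848099644294341058064567040)), (.ofNat (nat_lit 0)), (.ofNat (nat_lit 1685608157773902143231098880)), (.ofNat (nat_lit 233094896)), (.ofNat (nat_lit 233094928)), (.negSucc (nat_lit 6430084830375298092769)), (.ofNat (nat_lit 6430084830375298092770)), (.negSucc (nat_lit 6430084830375298092769)), (.ofNat (nat_lit 6430084830375298092770)), (.ofNat (nat_lit 0))⟩,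
    ⟨nat_lit 0, nat_lit 24, nat_lit 25, (.ofNat (nat_lit 8)), (.ofNat (nat_lit 252231424)), (.ofNat (nat_lit 6108113095969025582458963249920)), (.ofNat (nat_lit 262144)), (.negSucc (nat_lit 1685608157773902143231098879)), (.ofNat (nat_lit 252231408)), (.ofNat (nat_lit 252231440)), (.negSucc (nat_lit 6430084830375298092769)), (.ofNat (nat_lit 6430084830375298092770)), (.negSucc (nat_lit 6430084830375298092769)), (.ofNat (nat_lit 6430084830375298092770)), (.ofNat (nat_lit 0))⟩]
  es := [
    ⟨nat_lit 1, nat_lit 0, (.negSucc (nat_lit 848887487)), (.negSucc (nat_lit 550436607)), (.negSucc (nat_lit 848887471)), (.negSucc (nat_lit 550436623)), (.negSucc (nat_lit 6430084830375298092769)), (.ofNat (nat_lit 0)), (.negSucc (nat_lit 20227297893286825718773186559))⟩,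
    ⟨nat_lit 1, nat_lit 2, (.negSucc (nat_lit 848887487)), (.negSucc (nat_lit 700661631)), (.negSucc (nat_lit 848887471)), (.negSucc (nat_lit 700661647)), (.ofNat (nat_lit 6430084830375298092770)), (.ofNat (nat_lit 0)), (.ofNat (nat_lit 25284122366608532148466483200))⟩,
    ⟨nat_lit 2, nat_lit 3, (.negSucc (nat_lit 700661631)), (.negSucc (nat_lit 542982015)), (.negSucc (nat_lit 700661615)), (.negSucc (nat_lit 542982031)), (.negSucc (nat_lit 6430084830375298092769)), (.ofNat (nat_lit 0)), (.negSucc (nat_lit 10113648946643412859386593279))⟩,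
    ⟨nat_lit 3, nat_lit 4, (.negSucc (nat_lit 542982015)), (.ofNat (nat_lit 301121216)), (.negSucc (nat_lit 542981999)), (.ofNat (nat_lit 301121200)), (.ofNat (nat_lit 6430084830375298092770)), (.ofNat (nat_lit 0)), (.ofNat (nat_lit 11799257104417315002617692160))⟩,
    ⟨nat_lit 5, nat_lit 4, (.ofNat (nat_lit 118013632)), (.ofNat (nat_lit 301121216)), (.ofNat (nat_lit 118013648)), (.ofNat (nat_lit 301121200)), (.negSucc (nat_lit 6430084830375298092769)), (.ofNat (nat_lit 0)), (.ofNat (nat_lit 15170473419965119289079889920))⟩,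
    ⟨nat_lit 6, nat_lit 5, (.negSucc (nat_lit 800702335)), (.ofNat (nat_lit 118013632)), (.negSucc (nat_lit 800702319)), (.ofNat (nat_lit 118013616)), (.ofNat (nat_lit 6430084830375298092770)), (.ofNat (nat_lit 0)), (.ofNat (nat_lit 28655338682156336434928680960))⟩,
    ⟨nat_lit 6, nat_lit 15, (.negSucc (nat_lit 800702335)), (.negSucc (nat_lit 704233343)), (.negSucc (nat_lit 800702319)), (.negSucc (nat_lit 704233359)), (.negSucc (nat_lit 6430084830375298092769)), (.ofNat (nat_lit 0)), (.negSucc (nat_lit 16856081577739021432310988799))⟩,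
    ⟨nat_lit 23, nat_lit 7, (.negSucc (nat_lit 776535743)), (.negSucc (nat_lit 554188671)), (.negSucc (nat_lit 776535727)), (.negSucc (nat_lit 554188687)), (.ofNat (nat_lit 6430084830375298092770)), (.ofNat (nat_lit 0)), (.ofNat (nat_lit 15170473419965119289079889920))⟩,
    ⟨nat_lit 7, nat_lit 8, (.negSucc (nat_lit 554188671)), (.ofNat (nat_lit 235716352)), (.negSucc (nat_lit 554188655)), (.ofNat (nat_lit 235716336)), (.negSucc (nat_lit 6430084830375298092769)), (.ofNat (nat_lit 0)), (.negSucc (nat_lit 6742432631095608572924395519))⟩,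
    ⟨nat_lit 8, nat_lit 9, (.ofNat (nat_lit 235716352)), (.ofNat (nat_lit 999734592)), (.ofNat (nat_lit 235716368)), (.ofNat (nat_lit 999734576)), (.ofNat (nat_lit 6430084830375298092770)), (.ofNat (nat_lit 0)), (.negSucc (nat_lit 10113648946643412859386593279))⟩,
    ⟨nat_lit 10, nat_lit 9, (.ofNat (nat_lit 650231296)), (.ofNat (nat_lit 999734592)), (.ofNat (nat_lit 650231312)), (.ofNat (nat_lit 999734576)), (.negSucc (nat_lit 6430084830375298092769)), (.ofNat (nat_lit 0)), (.ofNat (nat_lit 11799257104417315002617692160))⟩,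
    ⟨nat_lit 24, nat_lit 10, (.ofNat (nat_lit 233094912)), (.ofNat (nat_lit 650231296)), (.ofNat (nat_lit 233094928)), (.ofNat (nat_lit 650231280)), (.ofNat (nat_lit 6430084830375298092770)), (.ofNat (nat_lit 0)), (.ofNat (nat_lit 1685608157773902143231098880))⟩,
    ⟨nat_lit 22, nat_lit 24, (.negSucc (nat_lit 2965631)), (.ofNat (nat_lit 233094912)), (.negSucc (nat_lit 2965615)), (.ofNat (nat_lit 233094896)), (.negSucc (nat_lit 6430084830375298092769)), (.ofNat (nat_lit 0)), (.ofNat (nat_lit 1685608157773902143231098880))⟩,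
    ⟨nat_lit 13, nat_lit 12, (.negSucc (nat_lit 99369023)), (.ofNat (nat_lit 233094912)), (.negSucc (nat_lit 99369007)), (.ofNat (nat_lit 233094896)), (.ofNat (nat_lit 6430084830375298092770)), (.ofNat (nat_lit 0)), (.ofNat (nat_lit 0))⟩,
    ⟨nat_lit 14, nat_lit 13, (.negSucc (nat_lit 562970495)), (.negSucc (nat_lit 99369023)), (.negSucc (nat_lit 562970479)), (.negSucc (nat_lit 99369039)), (.negSucc (nat_lit 6430084830375298092769)), (.ofNat (nat_lit 0)), (.negSucc (nat_lit 3371216315547804286462197759))⟩,
    ⟨nat_lit 15, nat_lit 14, (.negSucc (nat_lit 704233343)), (.negSucc (nat_lit 562970495)), (.negSucc (nat_lit 704233327)), (.negSucc (nat_lit 562970511)), (.ofNat (nat_lit 6430084830375298092770)), (.ofNat (nat_lit 0)), (.ofNat (nat_lit 18541689735512923575542087680))⟩,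
    ⟨nat_lit 16, nat_lit 17, (.negSucc (nat_lit 95485951)), (.ofNat (nat_lit 863157632)), (.negSucc (nat_lit 95485935)), (.ofNat (nat_lit 863157616)), (.ofNat (nat_lit 6430084830375298092770)), (.ofNat (nat_lit 0)), (.negSucc (nat_lit 6742432631095608572924395519))⟩,
    ⟨nat_lit 18, nat_lit 17, (.ofNat (nat_lit 271105728)), (.ofNat (nat_lit 863157632)), (.ofNat (nat_lit 271105744)), (.ofNat (nat_lit 863157616)), (.negSucc (nat_lit 6430084830375298092769)), (.ofNat (nat_lit 0)), (.ofNat (nat_lit 8428040788869510716155494400))⟩,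
    ⟨nat_lit 19, nat_lit 18, (.negSucc (nat_lit 545275775)), (.ofNat (nat_lit 271105728)), (.negSucc (nat_lit 545275759)), (.ofNat (nat_lit 271105712)), (.ofNat (nat_lit 6430084830375298092770)), (.ofNat (nat_lit 0)), (.ofNat (nat_lit 8428040788869510716155494400))⟩,
    ⟨nat_lit 20, nat_lit 19, (.negSucc (nat_lit 702955391)), (.negSucc (nat_lit 545275775)), (.negSucc (nat_lit 702955375)), (.negSucc (nat_lit 545275791)), (.negSucc (nat_lit 6430084830375298092769)), (.ofNat (nat_lit 0)), (.negSucc (nat_lit 13484865262191217145848791039))⟩,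
    ⟨nat_lit 20, nat_lit 21, (.negSucc (nat_lit 702955391)), (.negSucc (nat_lit 68763839)), (.negSucc (nat_lit 702955375)), (.negSucc (nat_lit 68763855)), (.ofNat (nat_lit 6430084830375298092770)), (.ofNat (nat_lit 0)), (.ofNat (nat_lit 21912906051060727862004285440))⟩,
    ⟨nat_lit 21, nat_lit 11, (.negSucc (nat_lit 68763839)), (.ofNat (nat_lit 459587200)), (.negSucc (nat_lit 68763823)), (.ofNat (nat_lit 459587184)), (.negSucc (nat_lit 6430084830375298092769)), (.ofNat (nat_lit 0)), (.ofNat (nat_lit 5056824473321706429693296640))⟩,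
    ⟨nat_lit 0, nat_lit 22, (.negSucc (nat_lit 550436607)), (.negSucc (nat_lit 2965631)), (.negSucc (nat_lit 550436591)), (.negSucc (nat_lit 2965647)), (.ofNat (nat_lit 6430084830375298092770)), (.ofNat (nat_lit 0)), (.ofNat (nat_lit 5056824473321706429693296640))⟩,
    ⟨nat_lit 23, nat_lit 16, (.negSucc (nat_lit 776535743)), (.negSucc (nat_lit 95485951)), (.negSucc (nat_lit 776535727)), (.negSucc (nat_lit 95485967)), (.negSucc (nat_lit 6430084830375298092769)), (.ofNat (nat_lit 0)), (.negSucc (nat_lit 23598514208834630005235384319))⟩,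
    ⟨nat_lit 12, nat_lit 25, (.ofNat (nat_lit 233094912)), (.ofNat (nat_lit 252231424)), (.ofNat (nat_lit 233094928)), (.ofNat (nat_lit 252231408)), (.negSucc (nat_lit 6430084830375298092769)), (.ofNat (nat_lit 0)), (.ofNat (nat_lit 0))⟩,
    ⟨nat_lit 25, nat_lit 11, (.ofNat (nat_lit 252231424)), (.ofNat (nat_lit 459587200)), (.ofNat (nat_lit 252231440)), (.ofNat (nat_lit 459587184)), (.ofNat (nat_lit 6430084830375298092770)), (.ofNat (nat_lit 0)), (.negSucc (nat_lit 3371216315547804286462197759))⟩]

theorem ok67 : stOK 25 25 S67 = true := by decide +kernel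

def S68 : SD where
  vs := [
    ⟨nat_lit 0, nat_lit 0, nat_lit 22, (.ofNat (nat_lit 8)), (.negSucc (nat_lit 544538367)), (.ofNat (nat_lit 4253208314950423718793402625280)), (.negSucc (nat_lit 1966079)), (.negSucc (nat_lit 7585236709982559644539944959)), (.negSucc (nat_lit 544538383)), (.negSucc (nat_lit 544538351)), (.negSucc (nat_lit 6430084830375298092769)), (.ofNat (nat_lit 6430084830375298092770)), (.negSucc (nat_lit 6430084830375298092769)), (.ofNat (nat_lit 6430084830375298092770)), (.ofNat (nat_lit 0))⟩,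
    ⟨nat_lit 2, nat_lit 0, nat_lit 1, (.ofNat (nat_lit 8)), (.negSucc (nat_lit 838270655)), (.ofNat (nat_lit 6141931844210651926264770983040)), (.negSucc (nat_lit 3538943)), (.ofNat (nat_lit 2528412236660853214846648320)), (.negSucc (nat_lit 838270671)), (.negSucc (nat_lit 838270639)), (.negSucc (nat_lit 6430084830375298092769)), (.ofNat (nat_lit 6430084830375298092770)), (.negSucc (nat_lit 6430084830375298092769)), (.ofNat (nat_lit 6430084830375298092770)), (.ofNat (nat_lit 0))⟩,
    ⟨nat_lit 0, nat_lit 1, nat_lit 2, (.ofNat (nat_lit 8)), (.negSucc (nat_lit 692404095)), (.ofNat (nat_lit 7079866198925680168031691754240)), (.negSucc (nat_lit 2752511)), (.ofNat (nat_lit 7585236709982559644539944960)), (.negSucc (nat_lit 692404111)), (.negSucc (nat_lit 692404079)), (.ofNat (nat_lit 6430084830375298092770)), (.negSucc (nat_lit 6430084830375298092769)), (.negSucc (nat_lit 6430084830375298092769)), (.ofNat (nat_lit 6430084830375298092770)), (.ofNat (nat_lit 0))⟩,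
    ⟨nat_lit 0, nat_lit 2, nat_lit 3, (.ofNat (nat_lit 8)), (.negSucc (nat_lit 537870207)), (.ofNat (nat_lit 6086200189917964854596958964480)), (.negSucc (nat_lit 1703935)), (.ofNat (nat_lit 842804078886951071615549440)), (.negSucc (nat_lit 537870223)), (.negSucc (nat_lit 537870191)), (.negSucc (nat_lit 6430084830375298092769)), (.ofNat (nat_lit 6430084830375298092770)), (.negSucc (nat_lit 6430084830375298092769)), (.ofNat (nat_lit 6430084830375298092770)), (.ofNat (nat_lit 0))⟩,
    ⟨nat_lit 1, nat_lit 3, nat_lit 4, (.ofNat (nat_lit 8)), (.ofNat (nat_lit 300334784)), (.ofNat (nat_lit 11475929393722012949444852072320)), (.ofNat (nat_lit 262144)), (.ofNat (nat_lit 13484865262191217145848791040)), (.ofNat (nat_lit 300334768)), (.ofNat (nat_lit 300334800)), (.ofNat (nat_lit 6430084830375298092770)), (.negSucc (nat_lit 6430084830375298092769)), (.negSucc (nat_lit 6430084830375298092769)), (.ofNat (nat_lit 6430084830375298092770)), (.ofNat (nat_lit 0))⟩,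
    ⟨nat_lit 0, nat_lit 5, nat_lit 4, (.ofNat (nat_lit 8)), (.ofNat (nat_lit 121159360)), (.ofNat (nat_lit 12628042569560475064343308156800)), (.negSucc (nat_lit 1048575)), (.ofNat (nat_lit 21912906051060727862004285440)), (.ofNat (nat_lit 121159344)), (.ofNat (nat_lit 121159376)), (.ofNat (nat_lit 6430084830375298092770)), (.negSucc (nat_lit 6430084830375298092769)), (.negSucc (nat_lit 6430084830375298092769)), (.ofNat (nat_lit 6430084830375298092770)), (.ofNat (nat_lit 0))⟩,
    ⟨nat_lit 2, nat_lit 6, nat_lit 5, (.ofNat (nat_lit 8)), (.negSucc (nat_lit 790085503)), (.ofNat (nat_lit 6768660792796673484837650123520)), (.negSucc (nat_lit 3538943)), (.ofNat (nat_lit 5899628552208657501308846080)), (.negSucc (nat_lit 790085519)), (.negSucc (nat_lit 790085487)), (.negSucc (nat_lit 6430084830375298092769)), (.ofNat (nat_lit 6430084830375298092770)), (.negSucc (nat_lit 6430084830375298092769)), (.ofNat (nat_lit 6430084830375298092770)), (.ofNat (nat_lit 0))⟩,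
    ⟨nat_lit 0, nat_lit 7, nat_lit 8, (.ofNat (nat_lit 8)), (.negSucc (nat_lit 549076863)), (.ofNat (nat_lit 6821546748746829664581525850880)), (.negSucc (nat_lit 1703935)), (.ofNat (nat_lit 4214020394434755358077747200)), (.negSucc (nat_lit 549076879)), (.negSucc (nat_lit 549076847)), (.ofNat (nat_lit 6430084830375298092770)), (.negSucc (nat_lit 6430084830375298092769)), (.negSucc (nat_lit 6430084830375298092769)), (.ofNat (nat_lit 6430084830375298092770)), (.ofNat (nat_lit 0))⟩,
    ⟨nat_lit 0, nat_lit 8, nat_lit 9, (.ofNat (nat_lit 8)), (.ofNat (nat_lit 234929920)), (.ofNat (nat_lit 1780316620037106693827584499200)), (.ofNat (nat_lit 262144)), (.negSucc (nat_lit 8428040788869510716155494399)), (.ofNat (nat_lit 234929904)), (.ofNat (nat_lit 234929936)), (.negSucc (nat_lit 6430084830375298092769)), (.ofNat (nat_lit 6430084830375298092770)), (.negSucc (nat_lit 6430084830375298092769)), (.ofNat (nat_lit 6430084830375298092770)), (.ofNat (nat_lit 0))⟩,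
    ⟨nat_lit 1, nat_lit 9, nat_lit 10, (.ofNat (nat_lit 8)), (.ofNat (nat_lit 994622784)), (.ofNat (nat_lit 6665206180587871096777763492480)), (.ofNat (nat_lit 1703936)), (.ofNat (nat_lit 842804078886951071615549440)), (.ofNat (nat_lit 994622768)), (.ofNat (nat_lit 994622800)), (.ofNat (nat_lit 6430084830375298092770)), (.negSucc (nat_lit 6430084830375298092769)), (.negSucc (nat_lit 6430084830375298092769)), (.ofNat (nat_lit 6430084830375298092770)), (.ofNat (nat_lit 0))⟩,
    ⟨nat_lit 0, nat_lit 11, nat_lit 10, (.ofNat (nat_lit 8)), (.ofNat (nat_lit 647872000)), (.ofNat (nat_lit 8894843136707012724679465724160)), (.ofNat (nat_lit 786432)), (.ofNat (nat_lit 6742432631095608572924395520)), (.ofNat (nat_lit 647871984)), (.ofNat (nat_lit 647872016)), (.ofNat (nat_lit 6430084830375298092770)), (.negSucc (nat_lit 6430084830375298092769)), (.negSucc (nat_lit 6430084830375298092769)), (.ofNat (nat_lit 6430084830375298092770)), (.ofNat (nat_lit 0))⟩,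
    ⟨nat_lit 1, nat_lit 25, nat_lit 21, (.ofNat (nat_lit 8)), (.ofNat (nat_lit 457621120)), (.ofNat (nat_lit 7438899913480663036501759941120)), (.ofNat (nat_lit 655360)), (.ofNat (nat_lit 842804078886951071615549440)), (.ofNat (nat_lit 457621104)), (.ofNat (nat_lit 457621136)), (.ofNat (nat_lit 6430084830375298092770)), (.negSucc (nat_lit 6430084830375298092769)), (.negSucc (nat_lit 6430084830375298092769)), (.ofNat (nat_lit 6430084830375298092770)), (.ofNat (nat_lit 0))⟩,
    ⟨nat_lit 0, nat_lit 13, nat_lit 24, (.ofNat (nat_lit 8)), (.ofNat (nat_lit 233094912)), (.ofNat (nat_lit 6231162491486520438914833468160)), (.ofNat (nat_lit 0)), (.ofNat (nat_lit 0)), (.ofNat (nat_lit 233094896)), (.ofNat (nat_lit 233094928)), (.ofNat (nat_lit 6430084830375298092770)), (.negSucc (nat_lit 6430084830375298092769)), (.negSucc (nat_lit 6430084830375298092769)), (.ofNat (nat_lit 6430084830375298092770)), (.ofNat (nat_lit 0))⟩,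
    ⟨nat_lit 0, nat_lit 14, nat_lit 13, (.ofNat (nat_lit 8)), (.negSucc (nat_lit 98582591)), (.ofNat (nat_lit 4098448004439378184248919422080)), (.negSucc (nat_lit 262143)), (.negSucc (nat_lit 1685608157773902143231098879)), (.negSucc (nat_lit 98582607)), (.negSucc (nat_lit 98582575)), (.negSucc (nat_lit 6430084830375298092769)), (.ofNat (nat_lit 6430084830375298092770)), (.negSucc (nat_lit 6430084830375298092769)), (.ofNat (nat_lit 6430084830375298092770)), (.ofNat (nat_lit 0))⟩,
    ⟨nat_lit 0, nat_lit 15, nat_lit 14, (.ofNat (nat_lit 8)), (.negSucc (nat_lit 557858687)), (.ofNat (nat_lit 7051632262282967307132570848000)), (.negSucc (nat_lit 1703935)), (.ofNat (nat_lit 7585236709982559644539944960)), (.negSucc (nat_lit 557858703)), (.negSucc (nat_lit 557858671)), (.ofNat (nat_lit 6430084830375298092770)), (.negSucc (nat_lit 6430084830375298092769)), (.negSucc (nat_lit 6430084830375298092769)), (.ofNat (nat_lit 6430084830375298092770)), (.ofNat (nat_lit 0))⟩,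
    ⟨nat_lit 0, nat_lit 6, nat_lit 15, (.ofNat (nat_lit 8)), (.negSucc (nat_lit 695975807)), (.ofNat (nat_lit 6163527464155842615417685625600)), (.negSucc (nat_lit 2752511)), (.ofNat (nat_lit 842804078886951071615549440)), (.negSucc (nat_lit 695975823)), (.negSucc (nat_lit 695975791)), (.negSucc (nat_lit 6430084830375298092769)), (.ofNat (nat_lit 6430084830375298092770)), (.negSucc (nat_lit 6430084830375298092769)), (.ofNat (nat_lit 6430084830375298092770)), (.ofNat (nat_lit 0))⟩,
    ⟨nat_lit 0, nat_lit 23, nat_lit 16, (.ofNat (nat_lit 8)), (.negSucc (nat_lit 91553791)), (.ofNat (nat_lit 1070781759175013048449399688960)), (.negSucc (nat_lit 1310719)), (.negSucc (nat_lit 15170473419965119289079889919)), (.negSucc (nat_lit 91553807)), (.negSucc (nat_lit 91553775)), (.negSucc (nat_lit 6430084830375298092769)), (.ofNat (nat_lit 6430084830375298092770)), (.negSucc (nat_lit 6430084830375298092769)), (.ofNat (nat_lit 6430084830375298092770)), (.ofNat (nat_lit 0))⟩,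
    ⟨nat_lit 1, nat_lit 16, nat_lit 17, (.ofNat (nat_lit 8)), (.ofNat (nat_lit 859618688)), (.ofNat (nat_lit 7186901493893464666088710658560)), (.ofNat (nat_lit 1179648)), (.ofNat (nat_lit 842804078886951071615549440)), (.ofNat (nat_lit 859618672)), (.ofNat (nat_lit 859618704)), (.ofNat (nat_lit 6430084830375298092770)), (.negSucc (nat_lit 6430084830375298092769)), (.negSucc (nat_lit 6430084830375298092769)), (.ofNat (nat_lit 6430084830375298092770)), (.ofNat (nat_lit 0))⟩,
    ⟨nat_lit 0, nat_lit 18, nat_lit 17, (.ofNat (nat_lit 8)), (.ofNat (nat_lit 271105728)), (.ofNat (nat_lit 10971089750468729257547137957760)), (.ofNat (nat_lit 0)), (.ofNat (nat_lit 8428040788869510716155494400)), (.ofNat (nat_lit 271105712)), (.ofNat (nat_lit 271105744)), (.ofNat (nat_lit 6430084830375298092770)), (.negSucc (nat_lit 6430084830375298092769)), (.negSucc (nat_lit 6430084830375298092769)), (.ofNat (nat_lit 6430084830375298092770)), (.ofNat (nat_lit 0))⟩,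
    ⟨nat_lit 0, nat_lit 19, nat_lit 18, (.ofNat (nat_lit 8)), (.negSucc (nat_lit 540163967)), (.ofNat (nat_lit 5754556784875949607916240259840)), (.negSucc (nat_lit 1703935)), (.negSucc (nat_lit 2528412236660853214846648319)), (.negSucc (nat_lit 540163983)), (.negSucc (nat_lit 540163951)), (.negSucc (nat_lit 6430084830375298092769)), (.ofNat (nat_lit 6430084830375298092770)), (.negSucc (nat_lit 6430084830375298092769)), (.ofNat (nat_lit 6430084830375298092770)), (.ofNat (nat_lit 0))⟩,
    ⟨nat_lit 2, nat_lit 19, nat_lit 20, (.ofNat (nat_lit 8)), (.negSucc (nat_lit 694697855)), (.ofNat (nat_lit 6748222793883664921350973049600)), (.negSucc (nat_lit 2752511)), (.ofNat (nat_lit 4214020394434755358077747200)), (.negSucc (nat_lit 694697871)), (.negSucc (nat_lit 694697839)), (.negSucc (nat_lit 6430084830375298092769)), (.ofNat (nat_lit 6430084830375298092770)), (.negSucc (nat_lit 6430084830375298092769)), (.ofNat (nat_lit 6430084830375298092770)), (.ofNat (nat_lit 0))⟩,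
    ⟨nat_lit 0, nat_lit 20, nat_lit 21, (.ofNat (nat_lit 8)), (.negSucc (nat_lit 64831679)), (.ofNat (nat_lit 10798315737347762575904106197120)), (.negSucc (nat_lit 1310719)), (.ofNat (nat_lit 13484865262191217145848791040)), (.negSucc (nat_lit 64831695)), (.negSucc (nat_lit 64831663)), (.ofNat (nat_lit 6430084830375298092770)), (.negSucc (nat_lit 6430084830375298092769)), (.negSucc (nat_lit 6430084830375298092769)), (.ofNat (nat_lit 6430084830375298092770)), (.ofNat (nat_lit 0))⟩,
    ⟨nat_lit 0, nat_lit 22, nat_lit 12, (.ofNat (nat_lit 8)), (.negSucc (nat_lit 2179199)), (.ofNat (nat_lit 7740623773722191520140126640640)), (.negSucc (nat_lit 262143)), (.ofNat (nat_lit 3371216315547804286462197760)), (.negSucc (nat_lit 2179215)), (.negSucc (nat_lit 2179183)), (.ofNat (nat_lit 6430084830375298092770)), (.negSucc (nat_lit 6430084830375298092769)), (.negSucc (nat_lit 6430084830375298092769)), (.ofNat (nat_lit 6430084830375298092770)), (.ofNat (nat_lit 0))⟩,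
    ⟨nat_lit 2, nat_lit 23, nat_lit 7, (.ofNat (nat_lit 8)), (.negSucc (nat_lit 767491775)), (.ofNat (nat_lit 5417120336367874004675398464640)), (.negSucc (nat_lit 3014655)), (.negSucc (nat_lit 4214020394434755358077747199)), (.negSucc (nat_lit 767491791)), (.negSucc (nat_lit 767491759)), (.negSucc (nat_lit 6430084830375298092769)), (.ofNat (nat_lit 6430084830375298092770)), (.negSucc (nat_lit 6430084830375298092769)), (.ofNat (nat_lit 6430084830375298092770)), (.ofNat (nat_lit 0))⟩,
    ⟨nat_lit 0, nat_lit 12, nat_lit 11, (.ofNat (nat_lit 8)), (.ofNat (nat_lit 233094912)), (.ofNat (nat_lit 6227791275170972634628371270400)), (.ofNat (nat_lit 0)), (.ofNat (nat_lit 1685608157773902143231098880)), (.ofNat (nat_lit 233094896)), (.ofNat (nat_lit 233094928)), (.negSucc (nat_lit 6430084830375298092769)), (.ofNat (nat_lit 6430084830375298092770)), (.negSucc (nat_lit 6430084830375298092769)), (.ofNat (nat_lit 6430084830375298092770)), (.ofNat (nat_lit 0))⟩,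
    ⟨nat_lit 0, nat_lit 24, nat_lit 25, (.ofNat (nat_lit 8)), (.ofNat (nat_lit 251444992)), (.ofNat (nat_lit 6113169920442347288888656546560)), (.ofNat (nat_lit 262144)), (.negSucc (nat_lit 1685608157773902143231098879)), (.ofNat (nat_lit 251444976)), (.ofNat (nat_lit 251445008)), (.negSucc (nat_lit 6430084830375298092769)), (.ofNat (nat_lit 6430084830375298092770)), (.negSucc (nat_lit 6430084830375298092769)), (.ofNat (nat_lit 6430084830375298092770)), (.ofNat (nat_lit 0))⟩]
  es := [
    ⟨nat_lit 1, nat_lit 0, (.negSucc (nat_lit 838270655)), (.negSucc (nat_lit 544538367)), (.negSucc (nat_lit 838270639)), (.negSucc (nat_lit 544538383)), (.negSucc (nat_lit 6430084830375298092769)), (.ofNat (nat_lit 0)), (.negSucc (nat_lit 20227297893286825718773186559))⟩,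
    ⟨nat_lit 1, nat_lit 2, (.negSucc (nat_lit 838270655)), (.negSucc (nat_lit 692404095)), (.negSucc (nat_lit 838270639)), (.negSucc (nat_lit 692404111)), (.ofNat (nat_lit 6430084830375298092770)), (.ofNat (nat_lit 0)), (.ofNat (nat_lit 25284122366608532148466483200))⟩,
    ⟨nat_lit 2, nat_lit 3, (.negSucc (nat_lit 692404095)), (.negSucc (nat_lit 537870207)), (.negSucc (nat_lit 692404079)), (.negSucc (nat_lit 537870223)), (.negSucc (nat_lit 6430084830375298092769)), (.ofNat (nat_lit 0)), (.negSucc (nat_lit 10113648946643412859386593279))⟩,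
    ⟨nat_lit 3, nat_lit 4, (.negSucc (nat_lit 537870207)), (.ofNat (nat_lit 300334784)), (.negSucc (nat_lit 537870191)), (.ofNat (nat_lit 300334768)), (.ofNat (nat_lit 6430084830375298092770)), (.ofNat (nat_lit 0)), (.ofNat (nat_lit 11799257104417315002617692160))⟩,
    ⟨nat_lit 5, nat_lit 4, (.ofNat (nat_lit 121159360)), (.ofNat (nat_lit 300334784)), (.ofNat (nat_lit 121159376)), (.ofNat (nat_lit 300334768)), (.negSucc (nat_lit 6430084830375298092769)), (.ofNat (nat_lit 0)), (.ofNat (nat_lit 15170473419965119289079889920))⟩,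
    ⟨nat_lit 6, nat_lit 5, (.negSucc (nat_lit 790085503)), (.ofNat (nat_lit 121159360)), (.negSucc (nat_lit 790085487)), (.ofNat (nat_lit 121159344)), (.ofNat (nat_lit 6430084830375298092770)), (.ofNat (nat_lit 0)), (.ofNat (nat_lit 28655338682156336434928680960))⟩,
    ⟨nat_lit 6, nat_lit 15, (.negSucc (nat_lit 790085503)), (.negSucc (nat_lit 695975807)), (.negSucc (nat_lit 790085487)), (.negSucc (nat_lit 695975823)), (.negSucc (nat_lit 6430084830375298092769)), (.ofNat (nat_lit 0)), (.negSucc (nat_lit 16856081577739021432310988799))⟩,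
    ⟨nat_lit 23, nat_lit 7, (.negSucc (nat_lit 767491775)), (.negSucc (nat_lit 549076863)), (.negSucc (nat_lit 767491759)), (.negSucc (nat_lit 549076879)), (.ofNat (nat_lit 6430084830375298092770)), (.ofNat (nat_lit 0)), (.ofNat (nat_lit 15170473419965119289079889920))⟩,
    ⟨nat_lit 7, nat_lit 8, (.negSucc (nat_lit 549076863)), (.ofNat (nat_lit 234929920)), (.negSucc (nat_lit 549076847)), (.ofNat (nat_lit 234929904)), (.negSucc (nat_lit 6430084830375298092769)), (.ofNat (nat_lit 0)), (.negSucc (nat_lit 6742432631095608572924395519))⟩,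
    ⟨nat_lit 8, nat_lit 9, (.ofNat (nat_lit 234929920)), (.ofNat (nat_lit 994622784)), (.ofNat (nat_lit 234929936)), (.ofNat (nat_lit 994622768)), (.ofNat (nat_lit 6430084830375298092770)), (.ofNat (nat_lit 0)), (.negSucc (nat_lit 10113648946643412859386593279))⟩,
    ⟨nat_lit 10, nat_lit 9, (.ofNat (nat_lit 647872000)), (.ofNat (nat_lit 994622784)), (.ofNat (nat_lit 647872016)), (.ofNat (nat_lit 994622768)), (.negSucc (nat_lit 6430084830375298092769)), (.ofNat (nat_lit 0)), (.ofNat (nat_lit 11799257104417315002617692160))⟩,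
    ⟨nat_lit 24, nat_lit 10, (.ofNat (nat_lit 233094912)), (.ofNat (nat_lit 647872000)), (.ofNat (nat_lit 233094928)), (.ofNat (nat_lit 647871984)), (.ofNat (nat_lit 6430084830375298092770)), (.ofNat (nat_lit 0)), (.ofNat (nat_lit 1685608157773902143231098880))⟩,
    ⟨nat_lit 22, nat_lit 24, (.negSucc (nat_lit 2179199)), (.ofNat (nat_lit 233094912)), (.negSucc (nat_lit 2179183)), (.ofNat (nat_lit 233094896)), (.negSucc (nat_lit 6430084830375298092769)), (.ofNat (nat_lit 0)), (.ofNat (nat_lit 1685608157773902143231098880))⟩,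
    ⟨nat_lit 13, nat_lit 12, (.negSucc (nat_lit 98582591)), (.ofNat (nat_lit 233094912)), (.negSucc (nat_lit 98582575)), (.ofNat (nat_lit 233094896)), (.ofNat (nat_lit 6430084830375298092770)), (.ofNat (nat_lit 0)), (.ofNat (nat_lit 0))⟩,
    ⟨nat_lit 14, nat_lit 13, (.negSucc (nat_lit 557858687)), (.negSucc (nat_lit 98582591)), (.negSucc (nat_lit 557858671)), (.negSucc (nat_lit 98582607)), (.negSucc (nat_lit 6430084830375298092769)), (.ofNat (nat_lit 0)), (.negSucc (nat_lit 3371216315547804286462197759))⟩,
    ⟨nat_lit 15, nat_lit 14, (.negSucc (nat_lit 695975807)), (.negSucc (nat_lit 557858687)), (.negSucc (nat_lit 695975791)), (.negSucc (nat_lit 557858703)), (.ofNat (nat_lit 6430084830375298092770)), (.ofNat (nat_lit 0)), (.ofNat (nat_lit 18541689735512923575542087680))⟩,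
    ⟨nat_lit 16, nat_lit 17, (.negSucc (nat_lit 91553791)), (.ofNat (nat_lit 859618688)), (.negSucc (nat_lit 91553775)), (.ofNat (nat_lit 859618672)), (.ofNat (nat_lit 6430084830375298092770)), (.ofNat (nat_lit 0)), (.negSucc (nat_lit 6742432631095608572924395519))⟩,
    ⟨nat_lit 18, nat_lit 17, (.ofNat (nat_lit 271105728)), (.ofNat (nat_lit 859618688)), (.ofNat (nat_lit 271105744)), (.ofNat (nat_lit 859618672)), (.negSucc (nat_lit 6430084830375298092769)), (.ofNat (nat_lit 0)), (.ofNat (nat_lit 8428040788869510716155494400))⟩,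
    ⟨nat_lit 19, nat_lit 18, (.negSucc (nat_lit 540163967)), (.ofNat (nat_lit 271105728)), (.negSucc (nat_lit 540163951)), (.ofNat (nat_lit 271105712)), (.ofNat (nat_lit 6430084830375298092770)), (.ofNat (nat_lit 0)), (.ofNat (nat_lit 8428040788869510716155494400))⟩,
    ⟨nat_lit 20, nat_lit 19, (.negSucc (nat_lit 694697855)), (.negSucc (nat_lit 540163967)), (.negSucc (nat_lit 694697839)), (.negSucc (nat_lit 540163983)), (.negSucc (nat_lit 6430084830375298092769)), (.ofNat (nat_lit 0)), (.negSucc (nat_lit 13484865262191217145848791039))⟩,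
    ⟨nat_lit 20, nat_lit 21, (.negSucc (nat_lit 694697855)), (.negSucc (nat_lit 64831679)), (.negSucc (nat_lit 694697839)), (.negSucc (nat_lit 64831695)), (.ofNat (nat_lit 6430084830375298092770)), (.ofNat (nat_lit 0)), (.ofNat (nat_lit 21912906051060727862004285440))⟩,
    ⟨nat_lit 21, nat_lit 11, (.negSucc (nat_lit 64831679)), (.ofNat (nat_lit 457621120)), (.negSucc (nat_lit 64831663)), (.ofNat (nat_lit 457621104)), (.negSucc (nat_lit 6430084830375298092769)), (.ofNat (nat_lit 0)), (.ofNat (nat_lit 5056824473321706429693296640))⟩,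
    ⟨nat_lit 0, nat_lit 22, (.negSucc (nat_lit 544538367)), (.negSucc (nat_lit 2179199)), (.negSucc (nat_lit 544538351)), (.negSucc (nat_lit 2179215)), (.ofNat (nat_lit 6430084830375298092770)), (.ofNat (nat_lit 0)), (.ofNat (nat_lit 5056824473321706429693296640))⟩,
    ⟨nat_lit 23, nat_lit 16, (.negSucc (nat_lit 767491775)), (.negSucc (nat_lit 91553791)), (.negSucc (nat_lit 767491759)), (.negSucc (nat_lit 91553807)), (.negSucc (nat_lit 6430084830375298092769)), (.ofNat (nat_lit 0)), (.negSucc (nat_lit 23598514208834630005235384319))⟩,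
    ⟨nat_lit 12, nat_lit 25, (.ofNat (nat_lit 233094912)), (.ofNat (nat_lit 251444992)), (.ofNat (nat_lit 233094928)), (.ofNat (nat_lit 251444976)), (.negSucc (nat_lit 6430084830375298092769)), (.ofNat (nat_lit 0)), (.ofNat (nat_lit 0))⟩,
    ⟨nat_lit 25, nat_lit 11, (.ofNat (nat_lit 251444992)), (.ofNat (nat_lit 457621120)), (.ofNat (nat_lit 251445008)), (.ofNat (nat_lit 457621104)), (.ofNat (nat_lit 6430084830375298092770)), (.ofNat (nat_lit 0)), (.negSucc (nat_lit 3371216315547804286462197759))⟩]

theorem ok68 : stOK 25 25 S68 = true := by decide +kernel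

def S69 : SD where
  vs := [
    ⟨nat_lit 0, nat_lit 0, nat_lit 22, (.ofNat (nat_lit 8)), (.negSucc (nat_lit 552402687)), (.ofNat (nat_lit 4222867368110493480215242845440)), (.negSucc (nat_lit 1966079)), (.negSucc (nat_lit 7585236709982559644539944959)), (.negSucc (nat_lit 552402703)), (.negSucc (nat_lit 552402671)), (.negSucc (nat_lit 6430084830375298092769)), (.ofNat (nat_lit 6430084830375298092770)), (.negSucc (nat_lit 6430084830375298092769)), (.ofNat (nat_lit 6430084830375298092770)), (.ofNat (nat_lit 0))⟩,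
    ⟨nat_lit 2, nat_lit 0, nat_lit 1, (.ofNat (nat_lit 8)), (.negSucc (nat_lit 852426431)), (.ofNat (nat_lit 6152045493157295339124157576320)), (.negSucc (nat_lit 3538943)), (.ofNat (nat_lit 2528412236660853214846648320)), (.negSucc (nat_lit 852426447)), (.negSucc (nat_lit 852426415)), (.negSucc (nat_lit 6430084830375298092769)), (.ofNat (nat_lit 6430084830375298092770)), (.negSucc (nat_lit 6430084830375298092769)), (.ofNat (nat_lit 6430084830375298092770)), (.ofNat (nat_lit 0))⟩,
    ⟨nat_lit 0, nat_lit 1, nat_lit 2, (.ofNat (nat_lit 8)), (.negSucc (nat_lit 703414143)), (.ofNat (nat_lit 7110207145765610406609851534080)), (.negSucc (nat_lit 2752511)), (.ofNat (nat_lit 7585236709982559644539944960)), (.negSucc (nat_lit 703414159)), (.negSucc (nat_lit 703414127)), (.ofNat (nat_lit 6430084830375298092770)), (.negSucc (nat_lit 6430084830375298092769)), (.negSucc (nat_lit 6430084830375298092769)), (.ofNat (nat_lit 6430084830375298092770)), (.ofNat (nat_lit 0))⟩,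
    ⟨nat_lit 0, nat_lit 2, nat_lit 3, (.ofNat (nat_lit 8)), (.negSucc (nat_lit 544685951)), (.ofNat (nat_lit 6089571406233512658883421162240)), (.negSucc (nat_lit 1703935)), (.ofNat (nat_lit 842804078886951071615549440)), (.negSucc (nat_lit 544685967)), (.negSucc (nat_lit 544685935)), (.negSucc (nat_lit 6430084830375298092769)), (.ofNat (nat_lit 6430084830375298092770)), (.negSucc (nat_lit 6430084830375298092769)), (.ofNat (nat_lit 6430084830375298092770)), (.ofNat (nat_lit 0))⟩,
    ⟨nat_lit 1, nat_lit 3, nat_lit 4, (.ofNat (nat_lit 8)), (.ofNat (nat_lit 301383360)), (.ofNat (nat_lit 11529868854770777818028247236480)), (.ofNat (nat_lit 262144)), (.ofNat (nat_lit 13484865262191217145848791040)), (.ofNat (nat_lit 301383344)), (.ofNat (nat_lit 301383376)), (.ofNat (nat_lit 6430084830375298092770)), (.negSucc (nat_lit 6430084830375298092769)), (.negSucc (nat_lit 6430084830375298092769)), (.ofNat (nat_lit 6430084830375298092770)), (.ofNat (nat_lit 0))⟩,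
    ⟨nat_lit 0, nat_lit 5, nat_lit 4, (.ofNat (nat_lit 8)), (.ofNat (nat_lit 116965056)), (.ofNat (nat_lit 12715694193764717975791325298560)), (.negSucc (nat_lit 1048575)), (.ofNat (nat_lit 21912906051060727862004285440)), (.ofNat (nat_lit 116965040)), (.ofNat (nat_lit 116965072)), (.ofNat (nat_lit 6430084830375298092770)), (.negSucc (nat_lit 6430084830375298092769)), (.negSucc (nat_lit 6430084830375298092769)), (.ofNat (nat_lit 6430084830375298092770)), (.ofNat (nat_lit 0))⟩,
    ⟨nat_lit 2, nat_lit 6, nat_lit 5, (.ofNat (nat_lit 8)), (.negSucc (nat_lit 804241279)), (.ofNat (nat_lit 6792259307005508114842885507840)), (.negSucc (nat_lit 3538943)), (.ofNat (nat_lit 5899628552208657501308846080)), (.negSucc (nat_lit 804241295)), (.negSucc (nat_lit 804241263)), (.negSucc (nat_lit 6430084830375298092769)), (.ofNat (nat_lit 6430084830375298092770)), (.negSucc (nat_lit 6430084830375298092769)), (.ofNat (nat_lit 6430084830375298092770)), (.ofNat (nat_lit 0))⟩,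
    ⟨nat_lit 0, nat_lit 7, nat_lit 8, (.ofNat (nat_lit 8)), (.negSucc (nat_lit 555892607)), (.ofNat (nat_lit 6838402830324568686013836839680)), (.negSucc (nat_lit 1703935)), (.ofNat (nat_lit 4214020394434755358077747200)), (.negSucc (nat_lit 555892623)), (.negSucc (nat_lit 555892591)), (.ofNat (nat_lit 6430084830375298092770)), (.negSucc (nat_lit 6430084830375298092769)), (.negSucc (nat_lit 6430084830375298092769)), (.ofNat (nat_lit 6430084830375298092770)), (.ofNat (nat_lit 0))⟩,
    ⟨nat_lit 0, nat_lit 8, nat_lit 9, (.ofNat (nat_lit 8)), (.ofNat (nat_lit 235978496)), (.ofNat (nat_lit 1746604456881628650962962521600)), (.ofNat (nat_lit 262144)), (.negSucc (nat_lit 8428040788869510716155494399)), (.ofNat (nat_lit 235978480)), (.ofNat (nat_lit 235978512)), (.negSucc (nat_lit 6430084830375298092769)), (.ofNat (nat_lit 6430084830375298092770)), (.negSucc (nat_lit 6430084830375298092769)), (.ofNat (nat_lit 6430084830375298092770)), (.ofNat (nat_lit 0))⟩,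
    ⟨nat_lit 1, nat_lit 9, nat_lit 10, (.ofNat (nat_lit 8)), (.ofNat (nat_lit 1001438528)), (.ofNat (nat_lit 6668577396903418901064225690240)), (.ofNat (nat_lit 1703936)), (.ofNat (nat_lit 842804078886951071615549440)), (.ofNat (nat_lit 1001438512)), (.ofNat (nat_lit 1001438544)), (.ofNat (nat_lit 6430084830375298092770)), (.negSucc (nat_lit 6430084830375298092769)), (.negSucc (nat_lit 6430084830375298092769)), (.ofNat (nat_lit 6430084830375298092770)), (.ofNat (nat_lit 0))⟩,
    ⟨nat_lit 0, nat_lit 11, nat_lit 10, (.ofNat (nat_lit 8)), (.ofNat (nat_lit 651017728)), (.ofNat (nat_lit 8921812867231395158971163306240)), (.ofNat (nat_lit 786432)), (.ofNat (nat_lit 6742432631095608572924395520)), (.ofNat (nat_lit 651017712)), (.ofNat (nat_lit 651017744)), (.ofNat (nat_lit 6430084830375298092770)), (.negSucc (nat_lit 6430084830375298092769)), (.negSucc (nat_lit 6430084830375298092769)), (.ofNat (nat_lit 6430084830375298092770)), (.ofNat (nat_lit 0))⟩,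
    ⟨nat_lit 1, nat_lit 25, nat_lit 21, (.ofNat (nat_lit 8)), (.ofNat (nat_lit 460242560)), (.ofNat (nat_lit 7442271129796210840788222138880)), (.ofNat (nat_lit 655360)), (.ofNat (nat_lit 842804078886951071615549440)), (.ofNat (nat_lit 460242544)), (.ofNat (nat_lit 460242576)), (.ofNat (nat_lit 6430084830375298092770)), (.negSucc (nat_lit 6430084830375298092769)), (.negSucc (nat_lit 6430084830375298092769)), (.ofNat (nat_lit 6430084830375298092770)), (.ofNat (nat_lit 0))⟩,
    ⟨nat_lit 0, nat_lit 13, nat_lit 24, (.ofNat (nat_lit 8)), (.ofNat (nat_lit 233094912)), (.ofNat (nat_lit 6231162491486520438914833468160)), (.ofNat (nat_lit 0)), (.ofNat (nat_lit 0)), (.ofNat (nat_lit 233094896)), (.ofNat (nat_lit 233094928)), (.ofNat (nat_lit 6430084830375298092770)), (.negSucc (nat_lit 6430084830375298092769)), (.negSucc (nat_lit 6430084830375298092769)), (.ofNat (nat_lit 6430084830375298092770)), (.ofNat (nat_lit 0))⟩,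
    ⟨nat_lit 0, nat_lit 14, nat_lit 13, (.ofNat (nat_lit 8)), (.negSucc (nat_lit 99631167)), (.ofNat (nat_lit 4091705571808282575675995026560)), (.negSucc (nat_lit 262143)), (.negSucc (nat_lit 1685608157773902143231098879)), (.negSucc (nat_lit 99631183)), (.negSucc (nat_lit 99631151)), (.negSucc (nat_lit 6430084830375298092769)), (.ofNat (nat_lit 6430084830375298092770)), (.negSucc (nat_lit 6430084830375298092769)), (.ofNat (nat_lit 6430084830375298092770)), (.ofNat (nat_lit 0))⟩,
    ⟨nat_lit 0, nat_lit 15, nat_lit 14, (.ofNat (nat_lit 8)), (.negSucc (nat_lit 564674431)), (.ofNat (nat_lit 7081973209122897545710730627840)), (.negSucc (nat_lit 1703935)), (.ofNat (nat_lit 7585236709982559644539944960)), (.negSucc (nat_lit 564674447)), (.negSucc (nat_lit 564674415)), (.ofNat (nat_lit 6430084830375298092770)), (.negSucc (nat_lit 6430084830375298092769)), (.negSucc (nat_lit 6430084830375298092769)), (.ofNat (nat_lit 6430084830375298092770)), (.ofNat (nat_lit 0))⟩,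
    ⟨nat_lit 0, nat_lit 6, nat_lit 15, (.ofNat (nat_lit 8)), (.negSucc (nat_lit 706985855)), (.ofNat (nat_lit 6166898680471390419704147823360)), (.negSucc (nat_lit 2752511)), (.ofNat (nat_lit 842804078886951071615549440)), (.negSucc (nat_lit 706985871)), (.negSucc (nat_lit 706985839)), (.negSucc (nat_lit 6430084830375298092769)), (.ofNat (nat_lit 6430084830375298092770)), (.negSucc (nat_lit 6430084830375298092769)), (.ofNat (nat_lit 6430084830375298092770)), (.ofNat (nat_lit 0))⟩,
    ⟨nat_lit 0, nat_lit 23, nat_lit 16, (.ofNat (nat_lit 8)), (.negSucc (nat_lit 96796671)), (.ofNat (nat_lit 1010099865495152571293080129280)), (.negSucc (nat_lit 1310719)), (.negSucc (nat_lit 15170473419965119289079889919)), (.negSucc (nat_lit 96796687)), (.negSucc (nat_lit 96796655)), (.negSucc (nat_lit 6430084830375298092769)), (.ofNat (nat_lit 6430084830375298092770)), (.negSucc (nat_lit 6430084830375298092769)), (.ofNat (nat_lit 6430084830375298092770)), (.ofNat (nat_lit 0))⟩,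
    ⟨nat_lit 1, nat_lit 16, nat_lit 17, (.ofNat (nat_lit 8)), (.ofNat (nat_lit 864337280)), (.ofNat (nat_lit 7190272710209012470375172856320)), (.ofNat (nat_lit 1179648)), (.ofNat (nat_lit 842804078886951071615549440)), (.ofNat (nat_lit 864337264)), (.ofNat (nat_lit 864337296)), (.ofNat (nat_lit 6430084830375298092770)), (.negSucc (nat_lit 6430084830375298092769)), (.negSucc (nat_lit 6430084830375298092769)), (.ofNat (nat_lit 6430084830375298092770)), (.ofNat (nat_lit 0))⟩,
    ⟨nat_lit 0, nat_lit 18, nat_lit 17, (.ofNat (nat_lit 8)), (.ofNat (nat_lit 271105728)), (.ofNat (nat_lit 11004801913624207300411759935360)), (.ofNat (nat_lit 0)), (.ofNat (nat_lit 8428040788869510716155494400)), (.ofNat (nat_lit 271105712)), (.ofNat (nat_lit 271105744)), (.ofNat (nat_lit 6430084830375298092770)), (.negSucc (nat_lit 6430084830375298092769)), (.negSucc (nat_lit 6430084830375298092769)), (.ofNat (nat_lit 6430084830375298092770)), (.ofNat (nat_lit 0))⟩,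
    ⟨nat_lit 0, nat_lit 19, nat_lit 18, (.ofNat (nat_lit 8)), (.negSucc (nat_lit 546979711)), (.ofNat (nat_lit 5744443135929306195056853666560)), (.negSucc (nat_lit 1703935)), (.negSucc (nat_lit 2528412236660853214846648319)), (.negSucc (nat_lit 546979727)), (.negSucc (nat_lit 546979695)), (.negSucc (nat_lit 6430084830375298092769)), (.ofNat (nat_lit 6430084830375298092770)), (.negSucc (nat_lit 6430084830375298092769)), (.ofNat (nat_lit 6430084830375298092770)), (.ofNat (nat_lit 0))⟩,
    ⟨nat_lit 2, nat_lit 19, nat_lit 20, (.ofNat (nat_lit 8)), (.negSucc (nat_lit 705707903)), (.ofNat (nat_lit 6765078875461403942783284038400)), (.negSucc (nat_lit 2752511)), (.ofNat (nat_lit 4214020394434755358077747200)), (.negSucc (nat_lit 705707919)), (.negSucc (nat_lit 705707887)), (.negSucc (nat_lit 6430084830375298092769)), (.ofNat (nat_lit 6430084830375298092770)), (.negSucc (nat_lit 6430084830375298092769)), (.ofNat (nat_lit 6430084830375298092770)), (.ofNat (nat_lit 0))⟩,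
    ⟨nat_lit 0, nat_lit 20, nat_lit 21, (.ofNat (nat_lit 8)), (.negSucc (nat_lit 70074559)), (.ofNat (nat_lit 10852255198396527444487501361280)), (.negSucc (nat_lit 1310719)), (.ofNat (nat_lit 13484865262191217145848791040)), (.negSucc (nat_lit 70074575)), (.negSucc (nat_lit 70074543)), (.ofNat (nat_lit 6430084830375298092770)), (.negSucc (nat_lit 6430084830375298092769)), (.negSucc (nat_lit 6430084830375298092769)), (.ofNat (nat_lit 6430084830375298092770)), (.ofNat (nat_lit 0))⟩,
    ⟨nat_lit 0, nat_lit 22, nat_lit 12, (.ofNat (nat_lit 8)), (.negSucc (nat_lit 3227775)), (.ofNat (nat_lit 7754108638984382737285975431680)), (.negSucc (nat_lit 262143)), (.ofNat (nat_lit 3371216315547804286462197760)), (.negSucc (nat_lit 3227791)), (.negSucc (nat_lit 3227759)), (.ofNat (nat_lit 6430084830375298092770)), (.negSucc (nat_lit 6430084830375298092769)), (.negSucc (nat_lit 6430084830375298092769)), (.ofNat (nat_lit 6430084830375298092770)), (.ofNat (nat_lit 0))⟩,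
    ⟨nat_lit 2, nat_lit 23, nat_lit 7, (.ofNat (nat_lit 8)), (.negSucc (nat_lit 779550399)), (.ofNat (nat_lit 5400264254790134983243087475840)), (.negSucc (nat_lit 3014655)), (.negSucc (nat_lit 4214020394434755358077747199)), (.negSucc (nat_lit 779550415)), (.negSucc (nat_lit 779550383)), (.negSucc (nat_lit 6430084830375298092769)), (.ofNat (nat_lit 6430084830375298092770)), (.negSucc (nat_lit 6430084830375298092769)), (.ofNat (nat_lit 6430084830375298092770)), (.ofNat (nat_lit 0))⟩,
    ⟨nat_lit 0, nat_lit 12, nat_lit 11, (.ofNat (nat_lit 8)), (.ofNat (nat_lit 233094912)), (.ofNat (nat_lit 6234533707802068243201295665920)), (.ofNat (nat_lit 0)), (.ofNat (nat_lit 1685608157773902143231098880)), (.ofNat (nat_lit 233094896)), (.ofNat (nat_lit 233094928)), (.negSucc (nat_lit 6430084830375298092769)), (.ofNat (nat_lit 6430084830375298092770)), (.negSucc (nat_lit 6430084830375298092769)), (.ofNat (nat_lit 6430084830375298092770)), (.ofNat (nat_lit 0))⟩,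
    ⟨nat_lit 0, nat_lit 24, nat_lit 25, (.ofNat (nat_lit 8)), (.ofNat (nat_lit 252493568)), (.ofNat (nat_lit 6106427487811251680315732151040)), (.ofNat (nat_lit 262144)), (.negSucc (nat_lit 1685608157773902143231098879)), (.ofNat (nat_lit 252493552)), (.ofNat (nat_lit 252493584)), (.negSucc (nat_lit 6430084830375298092769)), (.ofNat (nat_lit 6430084830375298092770)), (.negSucc (nat_lit 6430084830375298092769)), (.ofNat (nat_lit 6430084830375298092770)), (.ofNat (nat_lit 0))⟩]
  es := [
    ⟨nat_lit 1, nat_lit 0, (.negSucc (nat_lit 852426431)), (.negSucc (nat_lit 552402687)), (.negSucc (nat_lit 852426415)), (.negSucc (nat_lit 552402703)), (.negSucc (nat_lit 6430084830375298092769)), (.ofNat (nat_lit 0)), (.negSucc (nat_lit 20227297893286825718773186559))⟩,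
    ⟨nat_lit 1, nat_lit 2, (.negSucc (nat_lit 852426431)), (.negSucc (nat_lit 703414143)), (.negSucc (nat_lit 852426415)), (.negSucc (nat_lit 703414159)), (.ofNat (nat_lit 6430084830375298092770)), (.ofNat (nat_lit 0)), (.ofNat (nat_lit 25284122366608532148466483200))⟩,
    ⟨nat_lit 2, nat_lit 3, (.negSucc (nat_lit 703414143)), (.negSucc (nat_lit 544685951)), (.negSucc (nat_lit 703414127)), (.negSucc (nat_lit 544685967)), (.negSucc (nat_lit 6430084830375298092769)), (.ofNat (nat_lit 0)), (.negSucc (nat_lit 10113648946643412859386593279))⟩,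
    ⟨nat_lit 3, nat_lit 4, (.negSucc (nat_lit 544685951)), (.ofNat (nat_lit 301383360)), (.negSucc (nat_lit 544685935)), (.ofNat (nat_lit 301383344)), (.ofNat (nat_lit 6430084830375298092770)), (.ofNat (nat_lit 0)), (.ofNat (nat_lit 11799257104417315002617692160))⟩,
    ⟨nat_lit 5, nat_lit 4, (.ofNat (nat_lit 116965056)), (.ofNat (nat_lit 301383360)), (.ofNat (nat_lit 116965072)), (.ofNat (nat_lit 301383344)), (.negSucc (nat_lit 6430084830375298092769)), (.ofNat (nat_lit 0)), (.ofNat (nat_lit 15170473419965119289079889920))⟩,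
    ⟨nat_lit 6, nat_lit 5, (.negSucc (nat_lit 804241279)), (.ofNat (nat_lit 116965056)), (.negSucc (nat_lit 804241263)), (.ofNat (nat_lit 116965040)), (.ofNat (nat_lit 6430084830375298092770)), (.ofNat (nat_lit 0)), (.ofNat (nat_lit 28655338682156336434928680960))⟩,
    ⟨nat_lit 6, nat_lit 15, (.negSucc (nat_lit 804241279)), (.negSucc (nat_lit 706985855)), (.negSucc (nat_lit 804241263)), (.negSucc (nat_lit 706985871)), (.negSucc (nat_lit 6430084830375298092769)), (.ofNat (nat_lit 0)), (.negSucc (nat_lit 16856081577739021432310988799))⟩,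
    ⟨nat_lit 23, nat_lit 7, (.negSucc (nat_lit 779550399)), (.negSucc (nat_lit 555892607)), (.negSucc (nat_lit 779550383)), (.negSucc (nat_lit 555892623)), (.ofNat (nat_lit 6430084830375298092770)), (.ofNat (nat_lit 0)), (.ofNat (nat_lit 15170473419965119289079889920))⟩,
    ⟨nat_lit 7, nat_lit 8, (.negSucc (nat_lit 555892607)), (.ofNat (nat_lit 235978496)), (.negSucc (nat_lit 555892591)), (.ofNat (nat_lit 235978480)), (.negSucc (nat_lit 6430084830375298092769)), (.ofNat (nat_lit 0)), (.negSucc (nat_lit 6742432631095608572924395519))⟩,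
    ⟨nat_lit 8, nat_lit 9, (.ofNat (nat_lit 235978496)), (.ofNat (nat_lit 1001438528)), (.ofNat (nat_lit 235978512)), (.ofNat (nat_lit 1001438512)), (.ofNat (nat_lit 6430084830375298092770)), (.ofNat (nat_lit 0)), (.negSucc (nat_lit 10113648946643412859386593279))⟩,
    ⟨nat_lit 10, nat_lit 9, (.ofNat (nat_lit 651017728)), (.ofNat (nat_lit 1001438528)), (.ofNat (nat_lit 651017744)), (.ofNat (nat_lit 1001438512)), (.negSucc (nat_lit 6430084830375298092769)), (.ofNat (nat_lit 0)), (.ofNat (nat_lit 11799257104417315002617692160))⟩,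
    ⟨nat_lit 24, nat_lit 10, (.ofNat (nat_lit 233094912)), (.ofNat (nat_lit 651017728)), (.ofNat (nat_lit 233094928)), (.ofNat (nat_lit 651017712)), (.ofNat (nat_lit 6430084830375298092770)), (.ofNat (nat_lit 0)), (.ofNat (nat_lit 1685608157773902143231098880))⟩,
    ⟨nat_lit 22, nat_lit 24, (.negSucc (nat_lit 3227775)), (.ofNat (nat_lit 233094912)), (.negSucc (nat_lit 3227759)), (.ofNat (nat_lit 233094896)), (.negSucc (nat_lit 6430084830375298092769)), (.ofNat (nat_lit 0)), (.ofNat (nat_lit 1685608157773902143231098880))⟩,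
    ⟨nat_lit 13, nat_lit 12, (.negSucc (nat_lit 99631167)), (.ofNat (nat_lit 233094912)), (.negSucc (nat_lit 99631151)), (.ofNat (nat_lit 233094896)), (.ofNat (nat_lit 6430084830375298092770)), (.ofNat (nat_lit 0)), (.ofNat (nat_lit 0))⟩,
    ⟨nat_lit 14, nat_lit 13, (.negSucc (nat_lit 564674431)), (.negSucc (nat_lit 99631167)), (.negSucc (nat_lit 564674415)), (.negSucc (nat_lit 99631183)), (.negSucc (nat_lit 6430084830375298092769)), (.ofNat (nat_lit 0)), (.negSucc (nat_lit 3371216315547804286462197759))⟩,
    ⟨nat_lit 15, nat_lit 14, (.negSucc (nat_lit 706985855)), (.negSucc (nat_lit 564674431)), (.negSucc (nat_lit 706985839)), (.negSucc (nat_lit 564674447)), (.ofNat (nat_lit 6430084830375298092770)), (.ofNat (nat_lit 0)), (.ofNat (nat_lit 18541689735512923575542087680))⟩,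
    ⟨nat_lit 16, nat_lit 17, (.negSucc (nat_lit 96796671)), (.ofNat (nat_lit 864337280)), (.negSucc (nat_lit 96796655)), (.ofNat (nat_lit 864337264)), (.ofNat (nat_lit 6430084830375298092770)), (.ofNat (nat_lit 0)), (.negSucc (nat_lit 6742432631095608572924395519))⟩,
    ⟨nat_lit 18, nat_lit 17, (.ofNat (nat_lit 271105728)), (.ofNat (nat_lit 864337280)), (.ofNat (nat_lit 271105744)), (.ofNat (nat_lit 864337264)), (.negSucc (nat_lit 6430084830375298092769)), (.ofNat (nat_lit 0)), (.ofNat (nat_lit 8428040788869510716155494400))⟩,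
    ⟨nat_lit 19, nat_lit 18, (.negSucc (nat_lit 546979711)), (.ofNat (nat_lit 271105728)), (.negSucc (nat_lit 546979695)), (.ofNat (nat_lit 271105712)), (.ofNat (nat_lit 6430084830375298092770)), (.ofNat (nat_lit 0)), (.ofNat (nat_lit 8428040788869510716155494400))⟩,
    ⟨nat_lit 20, nat_lit 19, (.negSucc (nat_lit 705707903)), (.negSucc (nat_lit 546979711)), (.negSucc (nat_lit 705707887)), (.negSucc (nat_lit 546979727)), (.negSucc (nat_lit 6430084830375298092769)), (.ofNat (nat_lit 0)), (.negSucc (nat_lit 13484865262191217145848791039))⟩,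
    ⟨nat_lit 20, nat_lit 21, (.negSucc (nat_lit 705707903)), (.negSucc (nat_lit 70074559)), (.negSucc (nat_lit 705707887)), (.negSucc (nat_lit 70074575)), (.ofNat (nat_lit 6430084830375298092770)), (.ofNat (nat_lit 0)), (.ofNat (nat_lit 21912906051060727862004285440))⟩,
    ⟨nat_lit 21, nat_lit 11, (.negSucc (nat_lit 70074559)), (.ofNat (nat_lit 460242560)), (.negSucc (nat_lit 70074543)), (.ofNat (nat_lit 460242544)), (.negSucc (nat_lit 6430084830375298092769)), (.ofNat (nat_lit 0)), (.ofNat (nat_lit 5056824473321706429693296640))⟩,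
    ⟨nat_lit 0, nat_lit 22, (.negSucc (nat_lit 552402687)), (.negSucc (nat_lit 3227775)), (.negSucc (nat_lit 552402671)), (.negSucc (nat_lit 3227791)), (.ofNat (nat_lit 6430084830375298092770)), (.ofNat (nat_lit 0)), (.ofNat (nat_lit 5056824473321706429693296640))⟩,
    ⟨nat_lit 23, nat_lit 16, (.negSucc (nat_lit 779550399)), (.negSucc (nat_lit 96796671)), (.negSucc (nat_lit 779550383)), (.negSucc (nat_lit 96796687)), (.negSucc (nat_lit 6430084830375298092769)), (.ofNat (nat_lit 0)), (.negSucc (nat_lit 23598514208834630005235384319))⟩,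
    ⟨nat_lit 12, nat_lit 25, (.ofNat (nat_lit 233094912)), (.ofNat (nat_lit 252493568)), (.ofNat (nat_lit 233094928)), (.ofNat (nat_lit 252493552)), (.negSucc (nat_lit 6430084830375298092769)), (.ofNat (nat_lit 0)), (.ofNat (nat_lit 0))⟩,
    ⟨nat_lit 25, nat_lit 11, (.ofNat (nat_lit 252493568)), (.ofNat (nat_lit 460242560)), (.ofNat (nat_lit 252493584)), (.ofNat (nat_lit 460242544)), (.ofNat (nat_lit 6430084830375298092770)), (.ofNat (nat_lit 0)), (.negSucc (nat_lit 3371216315547804286462197759))⟩]

theorem ok69 : stOK 25 25 S69 = true := by decide +kernel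

def S70 : SD where
  vs := [
    ⟨nat_lit 0, nat_lit 0, nat_lit 22, (.ofNat (nat_lit 8)), (.negSucc (nat_lit 570359487)), (.ofNat (nat_lit 4361929629601411263012730565760)), (.negSucc (nat_lit 19922879)), (.ofNat (nat_lit 131477024780935223152947775360)), (.negSucc (nat_lit 570359503)), (.negSucc (nat_lit 570359471)), (.negSucc (nat_lit 6430084830375298092769)), (.ofNat (nat_lit 6430084830375298092770)), (.negSucc (nat_lit 6430084830375298092769)), (.ofNat (nat_lit 6430084830375298092770)), (.ofNat (nat_lit 0))⟩,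
    ⟨nat_lit 2, nat_lit 0, nat_lit 1, (.ofNat (nat_lit 8)), (.negSucc (nat_lit 870383231)), (.ofNat (nat_lit 6291107754648213121921645296640)), (.negSucc (nat_lit 21495743)), (.ofNat (nat_lit 141590673727578636012334368640)), (.negSucc (nat_lit 870383247)), (.negSucc (nat_lit 870383215)), (.negSucc (nat_lit 6430084830375298092769)), (.ofNat (nat_lit 6430084830375298092770)), (.negSucc (nat_lit 6430084830375298092769)), (.ofNat (nat_lit 6430084830375298092770)), (.ofNat (nat_lit 0))⟩,
    ⟨nat_lit 0, nat_lit 1, nat_lit 2, (.ofNat (nat_lit 8)), (.negSucc (nat_lit 721370943)), (.ofNat (nat_lit 7249269407256528189407339254400)), (.negSucc (nat_lit 20709311)), (.ofNat (nat_lit 146647498200900342442027665280)), (.negSucc (nat_lit 721370959)), (.negSucc (nat_lit 721370927)), (.ofNat (nat_lit 6430084830375298092770)), (.negSucc (nat_lit 6430084830375298092769)), (.negSucc (nat_lit 6430084830375298092769)), (.ofNat (nat_lit 6430084830375298092770)), (.ofNat (nat_lit 0))⟩,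
    ⟨nat_lit 0, nat_lit 2, nat_lit 3, (.ofNat (nat_lit 8)), (.negSucc (nat_lit 562642751)), (.ofNat (nat_lit 6228633667724430441680908882560)), (.negSucc (nat_lit 19660735)), (.ofNat (nat_lit 139905065569804733869103269760)), (.negSucc (nat_lit 562642767)), (.negSucc (nat_lit 562642735)), (.negSucc (nat_lit 6430084830375298092769)), (.ofNat (nat_lit 6430084830375298092770)), (.negSucc (nat_lit 6430084830375298092769)), (.ofNat (nat_lit 6430084830375298092770)), (.ofNat (nat_lit 0))⟩,
    ⟨nat_lit 1, nat_lit 3, nat_lit 4, (.ofNat (nat_lit 8)), (.ofNat (nat_lit 283557632)), (.ofNat (nat_lit 11669773920340582551897350506240)), (.negSucc (nat_lit 17563583)), (.ofNat (nat_lit 153389930831995951014952060800)), (.ofNat (nat_lit 283557616)), (.ofNat (nat_lit 283557648)), (.ofNat (nat_lit 6430084830375298092770)), (.negSucc (nat_lit 6430084830375298092769)), (.negSucc (nat_lit 6430084830375298092769)), (.ofNat (nat_lit 6430084830375298092770)), (.ofNat (nat_lit 0))⟩,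
    ⟨nat_lit 0, nat_lit 5, nat_lit 4, (.ofNat (nat_lit 8)), (.ofNat (nat_lit 99139328)), (.ofNat (nat_lit 12855599259334522709660428568320)), (.negSucc (nat_lit 18874303)), (.ofNat (nat_lit 161817971620865461731107555200)), (.ofNat (nat_lit 99139312)), (.ofNat (nat_lit 99139344)), (.ofNat (nat_lit 6430084830375298092770)), (.negSucc (nat_lit 6430084830375298092769)), (.negSucc (nat_lit 6430084830375298092769)), (.ofNat (nat_lit 6430084830375298092770)), (.ofNat (nat_lit 0))⟩,
    ⟨nat_lit 2, nat_lit 6, nat_lit 5, (.ofNat (nat_lit 8)), (.negSucc (nat_lit 822198079)), (.ofNat (nat_lit 6931321568496425897640373228160)), (.negSucc (nat_lit 21495743)), (.ofNat (nat_lit 144961890043126440298796566400)), (.negSucc (nat_lit 822198095)), (.negSucc (nat_lit 822198063)), (.negSucc (nat_lit 6430084830375298092769)), (.ofNat (nat_lit 6430084830375298092770)), (.negSucc (nat_lit 6430084830375298092769)), (.ofNat (nat_lit 6430084830375298092770)), (.ofNat (nat_lit 0))⟩,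
    ⟨nat_lit 0, nat_lit 7, nat_lit 8, (.ofNat (nat_lit 8)), (.negSucc (nat_lit 573849407)), (.ofNat (nat_lit 6977465091815486468811324560000)), (.negSucc (nat_lit 19660735)), (.ofNat (nat_lit 143276281885352538155565467520)), (.negSucc (nat_lit 573849423)), (.negSucc (nat_lit 573849391)), (.ofNat (nat_lit 6430084830375298092770)), (.negSucc (nat_lit 6430084830375298092769)), (.negSucc (nat_lit 6430084830375298092769)), (.ofNat (nat_lit 6430084830375298092770)), (.ofNat (nat_lit 0))⟩,
    ⟨nat_lit 0, nat_lit 8, nat_lit 9, (.ofNat (nat_lit 8)), (.ofNat (nat_lit 237027072)), (.ofNat (nat_lit 1763460538459367672395273510400)), (.ofNat (nat_lit 1310720)), (.ofNat (nat_lit 8428040788869510716155494400)), (.ofNat (nat_lit 237027056)), (.ofNat (nat_lit 237027088)), (.negSucc (nat_lit 6430084830375298092769)), (.ofNat (nat_lit 6430084830375298092770)), (.negSucc (nat_lit 6430084830375298092769)), (.ofNat (nat_lit 6430084830375298092770)), (.ofNat (nat_lit 0))⟩,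
    ⟨nat_lit 1, nat_lit 9, nat_lit 10, (.ofNat (nat_lit 8)), (.ofNat (nat_lit 1002618176)), (.ofNat (nat_lit 6686276282560044873568152228480)), (.ofNat (nat_lit 2883584)), (.ofNat (nat_lit 18541689735512923575542087680)), (.ofNat (nat_lit 1002618160)), (.ofNat (nat_lit 1002618192)), (.ofNat (nat_lit 6430084830375298092770)), (.negSucc (nat_lit 6430084830375298092769)), (.negSucc (nat_lit 6430084830375298092769)), (.ofNat (nat_lit 6430084830375298092770)), (.ofNat (nat_lit 0))⟩,
    ⟨nat_lit 0, nat_lit 11, nat_lit 10, (.ofNat (nat_lit 8)), (.ofNat (nat_lit 633192000)), (.ofNat (nat_lit 9061717932801199892840266576000)), (.negSucc (nat_lit 17039295)), (.ofNat (nat_lit 146647498200900342442027665280)), (.ofNat (nat_lit 633191984)), (.ofNat (nat_lit 633192016)), (.ofNat (nat_lit 6430084830375298092770)), (.negSucc (nat_lit 6430084830375298092769)), (.negSucc (nat_lit 6430084830375298092769)), (.ofNat (nat_lit 6430084830375298092770)), (.ofNat (nat_lit 0))⟩,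
    ⟨nat_lit 1, nat_lit 25, nat_lit 21, (.ofNat (nat_lit 8)), (.ofNat (nat_lit 442285760)), (.ofNat (nat_lit 7583018999444902525728940958080)), (.negSucc (nat_lit 17301439)), (.ofNat (nat_lit 141590673727578636012334368640)), (.ofNat (nat_lit 442285744)), (.ofNat (nat_lit 442285776)), (.ofNat (nat_lit 6430084830375298092770)), (.negSucc (nat_lit 6430084830375298092769)), (.negSucc (nat_lit 6430084830375298092769)), (.ofNat (nat_lit 6430084830375298092770)), (.ofNat (nat_lit 0))⟩,
    ⟨nat_lit 0, nat_lit 13, nat_lit 24, (.ofNat (nat_lit 8)), (.ofNat (nat_lit 234405632)), (.ofNat (nat_lit 6246332964906485558203913358080)), (.ofNat (nat_lit 1310720)), (.ofNat (nat_lit 15170473419965119289079889920)), (.ofNat (nat_lit 234405616)), (.ofNat (nat_lit 234405648)), (.ofNat (nat_lit 6430084830375298092770)), (.negSucc (nat_lit 6430084830375298092769)), (.negSucc (nat_lit 6430084830375298092769)), (.ofNat (nat_lit 6430084830375298092770)), (.ofNat (nat_lit 0))⟩,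
    ⟨nat_lit 0, nat_lit 14, nat_lit 13, (.ofNat (nat_lit 8)), (.negSucc (nat_lit 98320447)), (.ofNat (nat_lit 4106876045228247694965074916480)), (.ofNat (nat_lit 1048576)), (.ofNat (nat_lit 13484865262191217145848791040)), (.negSucc (nat_lit 98320463)), (.negSucc (nat_lit 98320431)), (.negSucc (nat_lit 6430084830375298092769)), (.ofNat (nat_lit 6430084830375298092770)), (.negSucc (nat_lit 6430084830375298092769)), (.ofNat (nat_lit 6430084830375298092770)), (.ofNat (nat_lit 0))⟩,
    ⟨nat_lit 0, nat_lit 15, nat_lit 14, (.ofNat (nat_lit 8)), (.negSucc (nat_lit 582631231)), (.ofNat (nat_lit 7221035470613815328508218348160)), (.negSucc (nat_lit 19660735)), (.ofNat (nat_lit 146647498200900342442027665280)), (.negSucc (nat_lit 582631247)), (.negSucc (nat_lit 582631215)), (.ofNat (nat_lit 6430084830375298092770)), (.negSucc (nat_lit 6430084830375298092769)), (.negSucc (nat_lit 6430084830375298092769)), (.ofNat (nat_lit 6430084830375298092770)), (.ofNat (nat_lit 0))⟩,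
    ⟨nat_lit 0, nat_lit 6, nat_lit 15, (.ofNat (nat_lit 8)), (.negSucc (nat_lit 724942655)), (.ofNat (nat_lit 6305960941962308202501635543680)), (.negSucc (nat_lit 20709311)), (.ofNat (nat_lit 139905065569804733869103269760)), (.negSucc (nat_lit 724942671)), (.negSucc (nat_lit 724942639)), (.negSucc (nat_lit 6430084830375298092769)), (.ofNat (nat_lit 6430084830375298092770)), (.negSucc (nat_lit 6430084830375298092769)), (.ofNat (nat_lit 6430084830375298092770)), (.ofNat (nat_lit 0))⟩,
    ⟨nat_lit 0, nat_lit 23, nat_lit 16, (.ofNat (nat_lit 8)), (.negSucc (nat_lit 95748095)), (.ofNat (nat_lit 1026955947072891592725391118080)), (.negSucc (nat_lit 262143)), (.ofNat (nat_lit 1685608157773902143231098880)), (.negSucc (nat_lit 95748111)), (.negSucc (nat_lit 95748079)), (.negSucc (nat_lit 6430084830375298092769)), (.ofNat (nat_lit 6430084830375298092770)), (.negSucc (nat_lit 6430084830375298092769)), (.ofNat (nat_lit 6430084830375298092770)), (.ofNat (nat_lit 0))⟩,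
    ⟨nat_lit 1, nat_lit 16, nat_lit 17, (.ofNat (nat_lit 8)), (.ofNat (nat_lit 865516928)), (.ofNat (nat_lit 7207971595865638442879099394560)), (.ofNat (nat_lit 2359296)), (.ofNat (nat_lit 18541689735512923575542087680)), (.ofNat (nat_lit 865516912)), (.ofNat (nat_lit 865516944)), (.ofNat (nat_lit 6430084830375298092770)), (.negSucc (nat_lit 6430084830375298092769)), (.negSucc (nat_lit 6430084830375298092769)), (.ofNat (nat_lit 6430084830375298092770)), (.ofNat (nat_lit 0))⟩,
    ⟨nat_lit 0, nat_lit 18, nat_lit 17, (.ofNat (nat_lit 8)), (.ofNat (nat_lit 253280000)), (.ofNat (nat_lit 11144706979194012034280863205120)), (.negSucc (nat_lit 17825727)), (.ofNat (nat_lit 148333106358674244585258764160)), (.ofNat (nat_lit 253279984)), (.ofNat (nat_lit 253280016)), (.ofNat (nat_lit 6430084830375298092770)), (.negSucc (nat_lit 6430084830375298092769)), (.negSucc (nat_lit 6430084830375298092769)), (.ofNat (nat_lit 6430084830375298092770)), (.ofNat (nat_lit 0))⟩,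
    ⟨nat_lit 0, nat_lit 19, nat_lit 18, (.ofNat (nat_lit 8)), (.negSucc (nat_lit 564936511)), (.ofNat (nat_lit 5883505397420223977854341386880)), (.negSucc (nat_lit 19660735)), (.ofNat (nat_lit 136533849254256929582641072000)), (.negSucc (nat_lit 564936527)), (.negSucc (nat_lit 564936495)), (.negSucc (nat_lit 6430084830375298092769)), (.ofNat (nat_lit 6430084830375298092770)), (.negSucc (nat_lit 6430084830375298092769)), (.ofNat (nat_lit 6430084830375298092770)), (.ofNat (nat_lit 0))⟩,
    ⟨nat_lit 2, nat_lit 19, nat_lit 20, (.ofNat (nat_lit 8)), (.negSucc (nat_lit 723664703)), (.ofNat (nat_lit 6904141136952321725580771758720)), (.negSucc (nat_lit 20709311)), (.ofNat (nat_lit 143276281885352538155565467520)), (.negSucc (nat_lit 723664719)), (.negSucc (nat_lit 723664687)), (.negSucc (nat_lit 6430084830375298092769)), (.ofNat (nat_lit 6430084830375298092770)), (.negSucc (nat_lit 6430084830375298092769)), (.ofNat (nat_lit 6430084830375298092770)), (.ofNat (nat_lit 0))⟩,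
    ⟨nat_lit 0, nat_lit 20, nat_lit 21, (.ofNat (nat_lit 8)), (.negSucc (nat_lit 87900287)), (.ofNat (nat_lit 10992160263966332178356604631040)), (.negSucc (nat_lit 19136447)), (.ofNat (nat_lit 153389930831995951014952060800)), (.negSucc (nat_lit 87900303)), (.negSucc (nat_lit 87900271)), (.ofNat (nat_lit 6430084830375298092770)), (.negSucc (nat_lit 6430084830375298092769)), (.negSucc (nat_lit 6430084830375298092769)), (.ofNat (nat_lit 6430084830375298092770)), (.ofNat (nat_lit 0))⟩,
    ⟨nat_lit 0, nat_lit 22, nat_lit 12, (.ofNat (nat_lit 8)), (.negSucc (nat_lit 21053503)), (.ofNat (nat_lit 7894013704554187471155078701440)), (.negSucc (nat_lit 18087871)), (.ofNat (nat_lit 143276281885352538155565467520)), (.negSucc (nat_lit 21053519)), (.negSucc (nat_lit 21053487)), (.ofNat (nat_lit 6430084830375298092770)), (.negSucc (nat_lit 6430084830375298092769)), (.negSucc (nat_lit 6430084830375298092769)), (.ofNat (nat_lit 6430084830375298092770)), (.ofNat (nat_lit 0))⟩,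
    ⟨nat_lit 2, nat_lit 23, nat_lit 7, (.ofNat (nat_lit 8)), (.negSucc (nat_lit 797507199)), (.ofNat (nat_lit 5539326516281052766040575196160)), (.negSucc (nat_lit 20971455)), (.ofNat (nat_lit 134848241096483027439409973120)), (.negSucc (nat_lit 797507215)), (.negSucc (nat_lit 797507183)), (.negSucc (nat_lit 6430084830375298092769)), (.ofNat (nat_lit 6430084830375298092770)), (.negSucc (nat_lit 6430084830375298092769)), (.ofNat (nat_lit 6430084830375298092770)), (.ofNat (nat_lit 0))⟩,
    ⟨nat_lit 0, nat_lit 12, nat_lit 11, (.ofNat (nat_lit 8)), (.ofNat (nat_lit 215269184)), (.ofNat (nat_lit 6374438773371872977070398935680)), (.negSucc (nat_lit 17825727)), (.ofNat (nat_lit 141590673727578636012334368640)), (.ofNat (nat_lit 215269168)), (.ofNat (nat_lit 215269200)), (.negSucc (nat_lit 6430084830375298092769)), (.ofNat (nat_lit 6430084830375298092770)), (.negSucc (nat_lit 6430084830375298092769)), (.ofNat (nat_lit 6430084830375298092770)), (.ofNat (nat_lit 0))⟩,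
    ⟨nat_lit 0, nat_lit 24, nat_lit 25, (.ofNat (nat_lit 8)), (.ofNat (nat_lit 234405696)), (.ofNat (nat_lit 6246332553381056414184835420800)), (.negSucc (nat_lit 17825727)), (.ofNat (nat_lit 138219457412030831725872170880)), (.ofNat (nat_lit 234405680)), (.ofNat (nat_lit 234405712)), (.negSucc (nat_lit 6430084830375298092769)), (.ofNat (nat_lit 6430084830375298092770)), (.negSucc (nat_lit 6430084830375298092769)), (.ofNat (nat_lit 6430084830375298092770)), (.ofNat (nat_lit 0))⟩]
  es := [
    ⟨nat_lit 1, nat_lit 0, (.negSucc (nat_lit 870383231)), (.negSucc (nat_lit 570359487)), (.negSucc (nat_lit 870383215)), (.negSucc (nat_lit 570359503)), (.negSucc (nat_lit 6430084830375298092769)), (.ofNat (nat_lit 0)), (.ofNat (nat_lit 3371216315547804286462197760))⟩,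
    ⟨nat_lit 1, nat_lit 2, (.negSucc (nat_lit 870383231)), (.negSucc (nat_lit 721370943)), (.negSucc (nat_lit 870383215)), (.negSucc (nat_lit 721370959)), (.ofNat (nat_lit 6430084830375298092770)), (.ofNat (nat_lit 0)), (.ofNat (nat_lit 279810131139609467738206539520))⟩,
    ⟨nat_lit 2, nat_lit 3, (.negSucc (nat_lit 721370943)), (.negSucc (nat_lit 562642751)), (.negSucc (nat_lit 721370927)), (.negSucc (nat_lit 562642767)), (.negSucc (nat_lit 6430084830375298092769)), (.ofNat (nat_lit 0)), (.ofNat (nat_lit 13484865262191217145848791040))⟩,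
    ⟨nat_lit 3, nat_lit 4, (.negSucc (nat_lit 562642751)), (.ofNat (nat_lit 283557632)), (.negSucc (nat_lit 562642735)), (.ofNat (nat_lit 283557616)), (.ofNat (nat_lit 6430084830375298092770)), (.ofNat (nat_lit 0)), (.ofNat (nat_lit 266325265877418250592357748480))⟩,
    ⟨nat_lit 5, nat_lit 4, (.ofNat (nat_lit 99139328)), (.ofNat (nat_lit 283557632)), (.ofNat (nat_lit 99139344)), (.ofNat (nat_lit 283557616)), (.negSucc (nat_lit 6430084830375298092769)), (.ofNat (nat_lit 0)), (.ofNat (nat_lit 40454595786573651437546373120))⟩,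
    ⟨nat_lit 6, nat_lit 5, (.negSucc (nat_lit 822198079)), (.ofNat (nat_lit 99139328)), (.negSucc (nat_lit 822198063)), (.ofNat (nat_lit 99139312)), (.ofNat (nat_lit 6430084830375298092770)), (.ofNat (nat_lit 0)), (.ofNat (nat_lit 283181347455157272024668737280))⟩,
    ⟨nat_lit 6, nat_lit 15, (.negSucc (nat_lit 822198079)), (.negSucc (nat_lit 724942655)), (.negSucc (nat_lit 822198063)), (.negSucc (nat_lit 724942671)), (.negSucc (nat_lit 6430084830375298092769)), (.ofNat (nat_lit 0)), (.ofNat (nat_lit 6742432631095608572924395520))⟩,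
    ⟨nat_lit 23, nat_lit 7, (.negSucc (nat_lit 797507199)), (.negSucc (nat_lit 573849407)), (.negSucc (nat_lit 797507183)), (.negSucc (nat_lit 573849423)), (.ofNat (nat_lit 6430084830375298092770)), (.ofNat (nat_lit 0)), (.ofNat (nat_lit 269696482192966054878819946240))⟩,
    ⟨nat_lit 7, nat_lit 8, (.negSucc (nat_lit 573849407)), (.ofNat (nat_lit 237027072)), (.negSucc (nat_lit 573849391)), (.ofNat (nat_lit 237027056)), (.negSucc (nat_lit 6430084830375298092769)), (.ofNat (nat_lit 0)), (.ofNat (nat_lit 16856081577739021432310988800))⟩,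
    ⟨nat_lit 8, nat_lit 9, (.ofNat (nat_lit 237027072)), (.ofNat (nat_lit 1002618176)), (.ofNat (nat_lit 237027088)), (.ofNat (nat_lit 1002618160)), (.ofNat (nat_lit 6430084830375298092770)), (.ofNat (nat_lit 0)), (.ofNat (nat_lit 0))⟩,
    ⟨nat_lit 10, nat_lit 9, (.ofNat (nat_lit 633192000)), (.ofNat (nat_lit 1002618176)), (.ofNat (nat_lit 633192016)), (.ofNat (nat_lit 1002618160)), (.negSucc (nat_lit 6430084830375298092769)), (.ofNat (nat_lit 0)), (.ofNat (nat_lit 37083379471025847151084175360))⟩,
    ⟨nat_lit 24, nat_lit 10, (.ofNat (nat_lit 215269184)), (.ofNat (nat_lit 633192000)), (.ofNat (nat_lit 215269200)), (.ofNat (nat_lit 633191984)), (.ofNat (nat_lit 6430084830375298092770)), (.ofNat (nat_lit 0)), (.ofNat (nat_lit 256211616930774837732971155200))⟩,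
    ⟨nat_lit 22, nat_lit 24, (.negSucc (nat_lit 21053503)), (.ofNat (nat_lit 215269184)), (.negSucc (nat_lit 21053487)), (.ofNat (nat_lit 215269168)), (.negSucc (nat_lit 6430084830375298092769)), (.ofNat (nat_lit 0)), (.ofNat (nat_lit 26969730524382434291697582080))⟩,
    ⟨nat_lit 13, nat_lit 12, (.negSucc (nat_lit 98320447)), (.ofNat (nat_lit 234405632)), (.negSucc (nat_lit 98320431)), (.ofNat (nat_lit 234405616)), (.ofNat (nat_lit 6430084830375298092770)), (.ofNat (nat_lit 0)), (.ofNat (nat_lit 6742432631095608572924395520))⟩,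
    ⟨nat_lit 14, nat_lit 13, (.negSucc (nat_lit 582631231)), (.negSucc (nat_lit 98320447)), (.negSucc (nat_lit 582631215)), (.negSucc (nat_lit 98320463)), (.negSucc (nat_lit 6430084830375298092769)), (.ofNat (nat_lit 0)), (.ofNat (nat_lit 20227297893286825718773186560))⟩,
    ⟨nat_lit 15, nat_lit 14, (.negSucc (nat_lit 724942655)), (.negSucc (nat_lit 582631231)), (.negSucc (nat_lit 724942639)), (.negSucc (nat_lit 582631247)), (.ofNat (nat_lit 6430084830375298092770)), (.ofNat (nat_lit 0)), (.ofNat (nat_lit 273067698508513859165282144000))⟩,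
    ⟨nat_lit 16, nat_lit 17, (.negSucc (nat_lit 95748095)), (.ofNat (nat_lit 865516928)), (.negSucc (nat_lit 95748079)), (.ofNat (nat_lit 865516912)), (.ofNat (nat_lit 6430084830375298092770)), (.ofNat (nat_lit 0)), (.ofNat (nat_lit 3371216315547804286462197760))⟩,
    ⟨nat_lit 18, nat_lit 17, (.ofNat (nat_lit 253280000)), (.ofNat (nat_lit 865516928)), (.ofNat (nat_lit 253280016)), (.ofNat (nat_lit 865516912)), (.negSucc (nat_lit 6430084830375298092769)), (.ofNat (nat_lit 0)), (.ofNat (nat_lit 33712163155478042864621977600))⟩,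
    ⟨nat_lit 19, nat_lit 18, (.negSucc (nat_lit 564936511)), (.ofNat (nat_lit 253280000)), (.negSucc (nat_lit 564936495)), (.ofNat (nat_lit 253279984)), (.ofNat (nat_lit 6430084830375298092770)), (.ofNat (nat_lit 0)), (.ofNat (nat_lit 262954049561870446305895550720))⟩,
    ⟨nat_lit 20, nat_lit 19, (.negSucc (nat_lit 723664703)), (.negSucc (nat_lit 564936511)), (.negSucc (nat_lit 723664687)), (.negSucc (nat_lit 564936527)), (.negSucc (nat_lit 6430084830375298092769)), (.ofNat (nat_lit 0)), (.ofNat (nat_lit 10113648946643412859386593280))⟩,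
    ⟨nat_lit 20, nat_lit 21, (.negSucc (nat_lit 723664703)), (.negSucc (nat_lit 87900287)), (.negSucc (nat_lit 723664687)), (.negSucc (nat_lit 87900303)), (.ofNat (nat_lit 6430084830375298092770)), (.ofNat (nat_lit 0)), (.ofNat (nat_lit 276438914824061663451744341760))⟩,
    ⟨nat_lit 21, nat_lit 11, (.negSucc (nat_lit 87900287)), (.ofNat (nat_lit 442285760)), (.negSucc (nat_lit 87900271)), (.ofNat (nat_lit 442285744)), (.negSucc (nat_lit 6430084830375298092769)), (.ofNat (nat_lit 0)), (.ofNat (nat_lit 30340946839930238578159779840))⟩,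
    ⟨nat_lit 0, nat_lit 22, (.negSucc (nat_lit 570359487)), (.negSucc (nat_lit 21053503)), (.negSucc (nat_lit 570359471)), (.negSucc (nat_lit 21053519)), (.ofNat (nat_lit 6430084830375298092770)), (.ofNat (nat_lit 0)), (.ofNat (nat_lit 259582833246322642019433352960))⟩,
    ⟨nat_lit 23, nat_lit 16, (.negSucc (nat_lit 797507199)), (.negSucc (nat_lit 95748095)), (.negSucc (nat_lit 797507183)), (.negSucc (nat_lit 95748111)), (.negSucc (nat_lit 6430084830375298092769)), (.ofNat (nat_lit 0)), (.ofNat (nat_lit 0))⟩,
    ⟨nat_lit 12, nat_lit 25, (.ofNat (nat_lit 234405632)), (.ofNat (nat_lit 234405696)), (.ofNat (nat_lit 234405648)), (.ofNat (nat_lit 234405680)), (.negSucc (nat_lit 6430084830375298092769)), (.ofNat (nat_lit 0)), (.ofNat (nat_lit 23598514208834630005235384320))⟩,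
    ⟨nat_lit 25, nat_lit 11, (.ofNat (nat_lit 234405696)), (.ofNat (nat_lit 442285760)), (.ofNat (nat_lit 234405712)), (.ofNat (nat_lit 442285744)), (.ofNat (nat_lit 6430084830375298092770)), (.ofNat (nat_lit 0)), (.ofNat (nat_lit 252840400615227033446508957440))⟩]

theorem ok70 : stOK 25 25 S70 = true := by decide +kernel

def S71 : SD where
  vs := [
    ⟨nat_lit 0, nat_lit 0, nat_lit 22, (.ofNat (nat_lit 8)), (.negSucc (nat_lit 570359487)), (.ofNat (nat_lit 4430084781971065375842000418944)), (.ofNat (nat_lit 0)), (.ofNat (nat_lit 68155152369654112829269853184)), (.negSucc (nat_lit 570359503)), (.negSucc (nat_lit 570359471)), (.negSucc (nat_lit 6530554908661287361137)), (.ofNat (nat_lit 6530554908661287361138)), (.negSucc (nat_lit 6530554908661287361137)), (.ofNat (nat_lit 6530554908661287361138)), (.ofNat (nat_lit 602820469715935610208))⟩,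
    ⟨nat_lit 2, nat_lit 0, nat_lit 1, (.ofNat (nat_lit 8)), (.negSucc (nat_lit 870383231)), (.ofNat (nat_lit 6389406316065202837790503279616)), (.ofNat (nat_lit 0)), (.ofNat (nat_lit 98298561416989715868857982976)), (.negSucc (nat_lit 870383247)), (.negSucc (nat_lit 870383215)), (.negSucc (nat_lit 6530554908661287361137)), (.ofNat (nat_lit 6530554908661287361138)), (.negSucc (nat_lit 6530554908661287361137)), (.ofNat (nat_lit 6530554908661287361138)), (.ofNat (nat_lit 602820469715935610208))⟩,
    ⟨nat_lit 0, nat_lit 1, nat_lit 2, (.ofNat (nat_lit 8)), (.negSucc (nat_lit 721370943)), (.ofNat (nat_lit 7362539244914452284499158943360)), (.ofNat (nat_lit 0)), (.ofNat (nat_lit 113269837657924095091819688960)), (.negSucc (nat_lit 721370959)), (.negSucc (nat_lit 721370927)), (.ofNat (nat_lit 6530554908661287361138)), (.negSucc (nat_lit 6530554908661287361137)), (.negSucc (nat_lit 6530554908661287361137)), (.ofNat (nat_lit 6530554908661287361138)), (.ofNat (nat_lit 602820469715935610208))⟩,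
    ⟨nat_lit 0, nat_lit 2, nat_lit 3, (.ofNat (nat_lit 8)), (.negSucc (nat_lit 562642751)), (.ofNat (nat_lit 6325956071505921001273273140864)), (.ofNat (nat_lit 0)), (.ofNat (nat_lit 97322403781490559592364258304)), (.negSucc (nat_lit 562642767)), (.negSucc (nat_lit 562642735)), (.negSucc (nat_lit 6530554908661287361137)), (.ofNat (nat_lit 6530554908661287361138)), (.negSucc (nat_lit 6530554908661287361137)), (.ofNat (nat_lit 6530554908661287361138)), (.ofNat (nat_lit 602820469715935610208))⟩,
    ⟨nat_lit 1, nat_lit 3, nat_lit 4, (.ofNat (nat_lit 8)), (.ofNat (nat_lit 283557632)), (.ofNat (nat_lit 11852114142948187292202595417856)), (.ofNat (nat_lit 0)), (.ofNat (nat_lit 182340222607604740305244911616)), (.ofNat (nat_lit 283557616)), (.ofNat (nat_lit 283557648)), (.ofNat (nat_lit 6530554908661287361138)), (.negSucc (nat_lit 6530554908661287361137)), (.negSucc (nat_lit 6530554908661287361137)), (.ofNat (nat_lit 6530554908661287361138)), (.ofNat (nat_lit 602820469715935610208))⟩,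
    ⟨nat_lit 0, nat_lit 5, nat_lit 4, (.ofNat (nat_lit 8)), (.ofNat (nat_lit 99139328)), (.ofNat (nat_lit 13056468003382376817800300887808)), (.ofNat (nat_lit 0)), (.ofNat (nat_lit 200868744047854108139872319488)), (.ofNat (nat_lit 99139312)), (.ofNat (nat_lit 99139344)), (.ofNat (nat_lit 6530554908661287361138)), (.negSucc (nat_lit 6530554908661287361137)), (.negSucc (nat_lit 6530554908661287361137)), (.ofNat (nat_lit 6530554908661287361138)), (.ofNat (nat_lit 602820469715935610208))⟩,
    ⟨nat_lit 2, nat_lit 6, nat_lit 5, (.ofNat (nat_lit 8)), (.negSucc (nat_lit 822198079)), (.ofNat (nat_lit 7039623471034709570546256037504)), (.ofNat (nat_lit 0)), (.ofNat (nat_lit 108301902538283672905882809344)), (.negSucc (nat_lit 822198095)), (.negSucc (nat_lit 822198063)), (.negSucc (nat_lit 6530554908661287361137)), (.ofNat (nat_lit 6530554908661287361138)), (.negSucc (nat_lit 6530554908661287361137)), (.ofNat (nat_lit 6530554908661287361138)), (.ofNat (nat_lit 602820469715935610208))⟩,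
    ⟨nat_lit 0, nat_lit 7, nat_lit 8, (.ofNat (nat_lit 8)), (.negSucc (nat_lit 573849407)), (.ofNat (nat_lit 7086487986925805431616955664000)), (.ofNat (nat_lit 0)), (.ofNat (nat_lit 109022895110318962805631104000)), (.negSucc (nat_lit 573849423)), (.negSucc (nat_lit 573849391)), (.ofNat (nat_lit 6530554908661287361138)), (.negSucc (nat_lit 6530554908661287361137)), (.negSucc (nat_lit 6530554908661287361137)), (.ofNat (nat_lit 6530554908661287361138)), (.ofNat (nat_lit 602820469715935610208))⟩,
    ⟨nat_lit 0, nat_lit 8, nat_lit 9, (.ofNat (nat_lit 8)), (.ofNat (nat_lit 237027072)), (.ofNat (nat_lit 1791014610143819223948885429760)), (.ofNat (nat_lit 0)), (.ofNat (nat_lit 27554071684451551553611919360)), (.ofNat (nat_lit 237027056)), (.ofNat (nat_lit 237027088)), (.negSucc (nat_lit 6530554908661287361137)), (.ofNat (nat_lit 6530554908661287361138)), (.negSucc (nat_lit 6530554908661287361137)), (.ofNat (nat_lit 6530554908661287361138)), (.ofNat (nat_lit 602820469715935610208))⟩,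
    ⟨nat_lit 1, nat_lit 9, nat_lit 10, (.ofNat (nat_lit 8)), (.ofNat (nat_lit 1002618176)), (.ofNat (nat_lit 6790749352398433376823773546112)), (.ofNat (nat_lit 0)), (.ofNat (nat_lit 104473069838388503255621317632)), (.ofNat (nat_lit 1002618160)), (.ofNat (nat_lit 1002618192)), (.ofNat (nat_lit 6530554908661287361138)), (.negSucc (nat_lit 6530554908661287361137)), (.negSucc (nat_lit 6530554908661287361137)), (.ofNat (nat_lit 6530554908661287361138)), (.ofNat (nat_lit 602820469715935610208))⟩,
    ⟨nat_lit 0, nat_lit 11, nat_lit 10, (.ofNat (nat_lit 8)), (.ofNat (nat_lit 633192000)), (.ofNat (nat_lit 9203307279463202045886115894400)), (.ofNat (nat_lit 0)), (.ofNat (nat_lit 141589346662002153045849318400)), (.ofNat (nat_lit 633191984)), (.ofNat (nat_lit 633192016)), (.ofNat (nat_lit 6530554908661287361138)), (.negSucc (nat_lit 6530554908661287361137)), (.negSucc (nat_lit 6530554908661287361137)), (.ofNat (nat_lit 6530554908661287361138)), (.ofNat (nat_lit 602820469715935610208))⟩,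
    ⟨nat_lit 1, nat_lit 25, nat_lit 21, (.ofNat (nat_lit 8)), (.ofNat (nat_lit 442285760)), (.ofNat (nat_lit 7701497083388493011315231595136)), (.ofNat (nat_lit 0)), (.ofNat (nat_lit 118478083943590485586290637056)), (.ofNat (nat_lit 442285744)), (.ofNat (nat_lit 442285776)), (.ofNat (nat_lit 6530541170104241477278)), (.negSucc (nat_lit 6530567340595746070829)), (.negSucc (nat_lit 6530567340595746070829)), (.ofNat (nat_lit 6530541170104241477278)), (.ofNat (nat_lit 602790379356669494152))⟩,
    ⟨nat_lit 0, nat_lit 13, nat_lit 24, (.ofNat (nat_lit 8)), (.ofNat (nat_lit 234405632)), (.ofNat (nat_lit 6343927349037953519675771863552)), (.ofNat (nat_lit 0)), (.ofNat (nat_lit 97594384131467961471858505472)), (.ofNat (nat_lit 234405616)), (.ofNat (nat_lit 234405648)), (.ofNat (nat_lit 6530541170104241477278)), (.ofNat (nat_lit 6530541170104241477278)), (.ofNat (nat_lit 6530541170104241477278)), (.ofNat (nat_lit 6530541170104241477278)), (.ofNat (nat_lit 25921252000959079140096))⟩,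
    ⟨nat_lit 0, nat_lit 14, nat_lit 13, (.ofNat (nat_lit 8)), (.negSucc (nat_lit 98320447)), (.ofNat (nat_lit 4171045985230556061567653853312)), (.ofNat (nat_lit 0)), (.ofNat (nat_lit 64169940002308366602578936832)), (.negSucc (nat_lit 98320463)), (.negSucc (nat_lit 98320431)), (.negSucc (nat_lit 6530554908661287361137)), (.ofNat (nat_lit 6530541170104241477278)), (.negSucc (nat_lit 6530554908661287361137)), (.ofNat (nat_lit 6530541170104241477278)), (.ofNat (nat_lit 602792992601843842488))⟩,
    ⟨nat_lit 0, nat_lit 15, nat_lit 14, (.ofNat (nat_lit 8)), (.negSucc (nat_lit 582631231)), (.ofNat (nat_lit 7333864152999352533889689765504)), (.ofNat (nat_lit 0)), (.ofNat (nat_lit 112828682385537205381471417344)), (.negSucc (nat_lit 582631247)), (.negSucc (nat_lit 582631215)), (.ofNat (nat_lit 6530554908661287361138)), (.negSucc (nat_lit 6530554908661287361137)), (.negSucc (nat_lit 6530554908661287361137)), (.ofNat (nat_lit 6530554908661287361138)), (.ofNat (nat_lit 602820469715935610208))⟩,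
    ⟨nat_lit 0, nat_lit 6, nat_lit 15, (.ofNat (nat_lit 8)), (.negSucc (nat_lit 724942655)), (.ofNat (nat_lit 6404491584437574795852938724992)), (.ofNat (nat_lit 0)), (.ofNat (nat_lit 98530642475266593351303181312)), (.negSucc (nat_lit 724942671)), (.negSucc (nat_lit 724942639)), (.negSucc (nat_lit 6530554908661287361137)), (.ofNat (nat_lit 6530554908661287361138)), (.negSucc (nat_lit 6530554908661287361137)), (.ofNat (nat_lit 6530554908661287361138)), (.ofNat (nat_lit 602820469715935610208))⟩,
    ⟨nat_lit 0, nat_lit 23, nat_lit 16, (.ofNat (nat_lit 8)), (.negSucc (nat_lit 95748095)), (.ofNat (nat_lit 1043002134194913366508596676352)), (.ofNat (nat_lit 0)), (.ofNat (nat_lit 16046187122021773783205558272)), (.negSucc (nat_lit 95748111)), (.negSucc (nat_lit 95748079)), (.negSucc (nat_lit 6530554908661287361137)), (.ofNat (nat_lit 6530554908661287361138)), (.negSucc (nat_lit 6530554908661287361137)), (.ofNat (nat_lit 6530554908661287361138)), (.ofNat (nat_lit 602820469715935610208))⟩,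
    ⟨nat_lit 1, nat_lit 16, nat_lit 17, (.ofNat (nat_lit 8)), (.ofNat (nat_lit 865516928)), (.ofNat (nat_lit 7320596155202523569583812913664)), (.ofNat (nat_lit 0)), (.ofNat (nat_lit 112624559336885126704713519104)), (.ofNat (nat_lit 865516912)), (.ofNat (nat_lit 865516944)), (.ofNat (nat_lit 6530554908661287361138)), (.negSucc (nat_lit 6530554908661287361137)), (.negSucc (nat_lit 6530554908661287361137)), (.ofNat (nat_lit 6530554908661287361138)), (.ofNat (nat_lit 602820469715935610208))⟩,
    ⟨nat_lit 0, nat_lit 18, nat_lit 17, (.ofNat (nat_lit 8)), (.ofNat (nat_lit 253280000)), (.ofNat (nat_lit 11318843030616630736092168617728)), (.ofNat (nat_lit 0)), (.ofNat (nat_lit 174136051422618701811305412608)), (.ofNat (nat_lit 253279984)), (.ofNat (nat_lit 253280016)), (.ofNat (nat_lit 6530554908661287361138)), (.negSucc (nat_lit 6530554908661287361137)), (.negSucc (nat_lit 6530554908661287361137)), (.ofNat (nat_lit 6530554908661287361138)), (.ofNat (nat_lit 602820469715935610208))⟩,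
    ⟨nat_lit 0, nat_lit 19, nat_lit 18, (.ofNat (nat_lit 8)), (.negSucc (nat_lit 564936511)), (.ofNat (nat_lit 5975435171827313602032149907072)), (.ofNat (nat_lit 0)), (.ofNat (nat_lit 91929774407089624177808520192)), (.negSucc (nat_lit 564936527)), (.negSucc (nat_lit 564936495)), (.negSucc (nat_lit 6530554908661287361137)), (.ofNat (nat_lit 6530554908661287361138)), (.negSucc (nat_lit 6530554908661287361137)), (.ofNat (nat_lit 6530554908661287361138)), (.ofNat (nat_lit 602820469715935610208))⟩,
    ⟨nat_lit 2, nat_lit 19, nat_lit 20, (.ofNat (nat_lit 8)), (.negSucc (nat_lit 723664703)), (.ofNat (nat_lit 7012018345235844885258035709568)), (.ofNat (nat_lit 0)), (.ofNat (nat_lit 107877208283523159677263950848)), (.negSucc (nat_lit 723664719)), (.negSucc (nat_lit 723664687)), (.negSucc (nat_lit 6530554908661287361137)), (.ofNat (nat_lit 6530554908661287361138)), (.negSucc (nat_lit 6530554908661287361137)), (.ofNat (nat_lit 6530554908661287361138)), (.ofNat (nat_lit 602820469715935610208))⟩,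
    ⟨nat_lit 0, nat_lit 20, nat_lit 21, (.ofNat (nat_lit 8)), (.negSucc (nat_lit 87900287)), (.ofNat (nat_lit 11163912772896821586220117374976)), (.ofNat (nat_lit 0)), (.ofNat (nat_lit 171752508930489407863512743936)), (.negSucc (nat_lit 87900303)), (.negSucc (nat_lit 87900271)), (.ofNat (nat_lit 6530554908661287361138)), (.negSucc (nat_lit 6530567340595746070829)), (.negSucc (nat_lit 6530567340595746070829)), (.ofNat (nat_lit 6530554908661287361138)), (.ofNat (nat_lit 602845333584853029592))⟩,
    ⟨nat_lit 0, nat_lit 22, nat_lit 12, (.ofNat (nat_lit 8)), (.negSucc (nat_lit 21053503)), (.ofNat (nat_lit 8017357672139283952458672868736)), (.ofNat (nat_lit 0)), (.ofNat (nat_lit 123343967585096481303594167296)), (.negSucc (nat_lit 21053519)), (.negSucc (nat_lit 21053487)), (.ofNat (nat_lit 6530554908661287361138)), (.negSucc (nat_lit 6530554908661287361137)), (.negSucc (nat_lit 6530554908661287361137)), (.ofNat (nat_lit 6530554908661287361138)), (.ofNat (nat_lit 602820469715935610208))⟩,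
    ⟨nat_lit 2, nat_lit 23, nat_lit 7, (.ofNat (nat_lit 8)), (.negSucc (nat_lit 797507199)), (.ofNat (nat_lit 5625878495519860224547323976704)), (.ofNat (nat_lit 0)), (.ofNat (nat_lit 86551979238807458506748780544)), (.negSucc (nat_lit 797507215)), (.negSucc (nat_lit 797507183)), (.negSucc (nat_lit 6530554908661287361137)), (.ofNat (nat_lit 6530554908661287361138)), (.negSucc (nat_lit 6530554908661287361137)), (.ofNat (nat_lit 6530554908661287361138)), (.ofNat (nat_lit 602820469715935610208))⟩,
    ⟨nat_lit 0, nat_lit 12, nat_lit 11, (.ofNat (nat_lit 8)), (.ofNat (nat_lit 215269184)), (.ofNat (nat_lit 6474039381992854041734113969792)), (.ofNat (nat_lit 0)), (.ofNat (nat_lit 99600608620981064663715034112)), (.ofNat (nat_lit 215269168)), (.ofNat (nat_lit 215269200)), (.negSucc (nat_lit 6530554908661287361137)), (.ofNat (nat_lit 6530554908661287361138)), (.negSucc (nat_lit 6530554908661287361137)), (.ofNat (nat_lit 6530554908661287361138)), (.ofNat (nat_lit 602820469715935610208))⟩,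
    ⟨nat_lit 0, nat_lit 24, nat_lit 25, (.ofNat (nat_lit 8)), (.ofNat (nat_lit 234405696)), (.ofNat (nat_lit 6343927766992588406347226409344)), (.ofNat (nat_lit 0)), (.ofNat (nat_lit 97595213611531992162390988544)), (.ofNat (nat_lit 234405680)), (.ofNat (nat_lit 234405712)), (.ofNat (nat_lit 6530541170104241477278)), (.ofNat (nat_lit 6530541170104241477278)), (.ofNat (nat_lit 6530541170104241477278)), (.ofNat (nat_lit 6530541170104241477278)), (.ofNat (nat_lit 51641591322460271511176))⟩]
  es := [
    ⟨nat_lit 1, nat_lit 0, (.negSucc (nat_lit 870383231)), (.negSucc (nat_lit 570359487)), (.negSucc (nat_lit 870383215)), (.negSucc (nat_lit 570359503)), (.negSucc (nat_lit 6530554908661287361137)), (.negSucc (nat_lit 100470078285989268367)), (.ofNat (nat_lit 10851089959137356149402777600))⟩,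
    ⟨nat_lit 1, nat_lit 2, (.negSucc (nat_lit 870383231)), (.negSucc (nat_lit 721370943)), (.negSucc (nat_lit 870383215)), (.negSucc (nat_lit 721370959)), (.ofNat (nat_lit 6530554908661287361138)), (.ofNat (nat_lit 100470078285989268368)), (.ofNat (nat_lit 185746032874842075588313188352))⟩,
    ⟨nat_lit 2, nat_lit 3, (.negSucc (nat_lit 721370943)), (.negSucc (nat_lit 562642751)), (.negSucc (nat_lit 721370927)), (.negSucc (nat_lit 562642767)), (.negSucc (nat_lit 6530554908661287361137)), (.negSucc (nat_lit 100470078285989268367)), (.ofNat (nat_lit 40793642441006114595326189568))⟩,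
    ⟨nat_lit 3, nat_lit 4, (.negSucc (nat_lit 562642751)), (.ofNat (nat_lit 283557632)), (.negSucc (nat_lit 562642735)), (.ofNat (nat_lit 283557616)), (.ofNat (nat_lit 6530554908661287361138)), (.ofNat (nat_lit 100470078285989268368)), (.ofNat (nat_lit 153851165121975004589402327040))⟩,
    ⟨nat_lit 5, nat_lit 4, (.ofNat (nat_lit 99139328)), (.ofNat (nat_lit 283557632)), (.ofNat (nat_lit 99139344)), (.ofNat (nat_lit 283557616)), (.negSucc (nat_lit 6530554908661287361137)), (.negSucc (nat_lit 100470078285989268367)), (.ofNat (nat_lit 210829280093234476021087496192))⟩,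
    ⟨nat_lit 6, nat_lit 5, (.negSucc (nat_lit 822198079)), (.ofNat (nat_lit 99139328)), (.negSucc (nat_lit 822198063)), (.ofNat (nat_lit 99139312)), (.ofNat (nat_lit 6530554908661287361138)), (.ofNat (nat_lit 100470078285989268368)), (.ofNat (nat_lit 190908208002473740258657142784))⟩,
    ⟨nat_lit 6, nat_lit 15, (.negSucc (nat_lit 822198079)), (.negSucc (nat_lit 724942655)), (.negSucc (nat_lit 822198063)), (.negSucc (nat_lit 724942671)), (.negSucc (nat_lit 6530554908661287361137)), (.negSucc (nat_lit 100470078285989268367)), (.ofNat (nat_lit 25695597074093605553108475904))⟩,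
    ⟨nat_lit 23, nat_lit 7, (.negSucc (nat_lit 797507199)), (.negSucc (nat_lit 573849407)), (.negSucc (nat_lit 797507183)), (.negSucc (nat_lit 573849423)), (.ofNat (nat_lit 6530554908661287361138)), (.ofNat (nat_lit 100470078285989268368)), (.ofNat (nat_lit 166677590056447559152961030144))⟩,
    ⟨nat_lit 7, nat_lit 8, (.negSucc (nat_lit 573849407)), (.ofNat (nat_lit 237027072)), (.negSucc (nat_lit 573849391)), (.ofNat (nat_lit 237027056)), (.negSucc (nat_lit 6530554908661287361137)), (.negSucc (nat_lit 100470078285989268367)), (.ofNat (nat_lit 51368200164190366458301177856))⟩,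
    ⟨nat_lit 8, nat_lit 9, (.ofNat (nat_lit 237027072)), (.ofNat (nat_lit 1002618176)), (.ofNat (nat_lit 237027088)), (.ofNat (nat_lit 1002618160)), (.ofNat (nat_lit 6530554908661287361138)), (.ofNat (nat_lit 100470078285989268368)), (.ofNat (nat_lit 3739943204712736648922660864))⟩,
    ⟨nat_lit 10, nat_lit 9, (.ofNat (nat_lit 633192000)), (.ofNat (nat_lit 1002618176)), (.ofNat (nat_lit 633192016)), (.ofNat (nat_lit 1002618160)), (.negSucc (nat_lit 6530554908661287361137)), (.negSucc (nat_lit 100470078285989268367)), (.ofNat (nat_lit 205206196472064269862319974400))⟩,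
    ⟨nat_lit 24, nat_lit 10, (.ofNat (nat_lit 215269184)), (.ofNat (nat_lit 633192000)), (.ofNat (nat_lit 215269200)), (.ofNat (nat_lit 633191984)), (.ofNat (nat_lit 6530554908661287361138)), (.ofNat (nat_lit 100470078285989268368)), (.ofNat (nat_lit 77972496851940036229378662400))⟩,
    ⟨nat_lit 22, nat_lit 24, (.negSucc (nat_lit 21053503)), (.ofNat (nat_lit 215269184)), (.negSucc (nat_lit 21053487)), (.ofNat (nat_lit 215269168)), (.negSucc (nat_lit 6530554908661287361137)), (.negSucc (nat_lit 100470078285989268367)), (.ofNat (nat_lit 121228720390022093098051405824))⟩,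
    ⟨nat_lit 13, nat_lit 12, (.negSucc (nat_lit 98320447)), (.ofNat (nat_lit 234405632)), (.negSucc (nat_lit 98320431)), (.ofNat (nat_lit 234405616)), (.ofNat (nat_lit 6530541170104241477278)), (.ofNat (nat_lit 100456339728943384508)), (.ofNat (nat_lit 74046852328898278734041756416))⟩,
    ⟨nat_lit 14, nat_lit 13, (.negSucc (nat_lit 582631231)), (.negSucc (nat_lit 98320447)), (.negSucc (nat_lit 582631215)), (.negSucc (nat_lit 98320463)), (.negSucc (nat_lit 6530554908661287361137)), (.negSucc (nat_lit 100470078285989268367)), (.ofNat (nat_lit 54291676894634829613444947968))⟩,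
    ⟨nat_lit 15, nat_lit 14, (.negSucc (nat_lit 724942655)), (.negSucc (nat_lit 582631231)), (.negSucc (nat_lit 724942639)), (.negSucc (nat_lit 582631247)), (.ofNat (nat_lit 6530554908661287361138)), (.ofNat (nat_lit 100470078285989268368)), (.ofNat (nat_lit 171365687876439581149497886720))⟩,
    ⟨nat_lit 16, nat_lit 17, (.negSucc (nat_lit 95748095)), (.ofNat (nat_lit 865516928)), (.negSucc (nat_lit 95748079)), (.ofNat (nat_lit 865516912)), (.ofNat (nat_lit 6530554908661287361138)), (.ofNat (nat_lit 100470078285989268368)), (.ofNat (nat_lit 25666005822876189705874585600))⟩,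
    ⟨nat_lit 18, nat_lit 17, (.ofNat (nat_lit 253280000)), (.ofNat (nat_lit 865516928)), (.ofNat (nat_lit 253280016)), (.ofNat (nat_lit 865516912)), (.negSucc (nat_lit 6530554908661287361137)), (.negSucc (nat_lit 100470078285989268367)), (.ofNat (nat_lit 199583112850894063703552452608))⟩,
    ⟨nat_lit 19, nat_lit 18, (.negSucc (nat_lit 564936511)), (.ofNat (nat_lit 253280000)), (.negSucc (nat_lit 564936495)), (.ofNat (nat_lit 253279984)), (.ofNat (nat_lit 6530554908661287361138)), (.ofNat (nat_lit 100470078285989268368)), (.ofNat (nat_lit 148688989994343339919058372608))⟩,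
    ⟨nat_lit 20, nat_lit 19, (.negSucc (nat_lit 723664703)), (.negSucc (nat_lit 564936511)), (.negSucc (nat_lit 723664687)), (.negSucc (nat_lit 564936527)), (.negSucc (nat_lit 6530554908661287361137)), (.negSucc (nat_lit 100470078285989268367)), (.ofNat (nat_lit 35170558819835908436558667776))⟩,
    ⟨nat_lit 20, nat_lit 21, (.negSucc (nat_lit 723664703)), (.negSucc (nat_lit 87900287)), (.negSucc (nat_lit 723664687)), (.negSucc (nat_lit 87900303)), (.ofNat (nat_lit 6530554908661287361138)), (.ofNat (nat_lit 100470078285989268368)), (.ofNat (nat_lit 180583857747210410917969233920))⟩,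
    ⟨nat_lit 21, nat_lit 11, (.negSucc (nat_lit 87900287)), (.ofNat (nat_lit 442285760)), (.negSucc (nat_lit 87900271)), (.ofNat (nat_lit 442285744)), (.negSucc (nat_lit 6530567340595746070829)), (.negSucc (nat_lit 100482510220447978059)), (.ofNat (nat_lit 162920067343149087103021062656))⟩,
    ⟨nat_lit 0, nat_lit 22, (.negSucc (nat_lit 570359487)), (.negSucc (nat_lit 21053503)), (.negSucc (nat_lit 570359471)), (.negSucc (nat_lit 21053519)), (.ofNat (nat_lit 6530554908661287361138)), (.ofNat (nat_lit 100470078285989268368)), (.ofNat (nat_lit 125459214780170869509136928768))⟩,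
    ⟨nat_lit 23, nat_lit 16, (.negSucc (nat_lit 797507199)), (.negSucc (nat_lit 95748095)), (.negSucc (nat_lit 797507183)), (.negSucc (nat_lit 95748111)), (.negSucc (nat_lit 6530554908661287361137)), (.negSucc (nat_lit 100470078285989268367)), (.ofNat (nat_lit 6426368421167357860536530944))⟩,
    ⟨nat_lit 12, nat_lit 25, (.ofNat (nat_lit 234405632)), (.ofNat (nat_lit 234405696)), (.ofNat (nat_lit 234405648)), (.ofNat (nat_lit 234405680)), (.ofNat (nat_lit 6530541170104241477278)), (.ofNat (nat_lit 12960626000479539570048)), (.negSucc (nat_lit 2940449344626570814514251204863))⟩,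
    ⟨nat_lit 25, nat_lit 11, (.ofNat (nat_lit 234405696)), (.ofNat (nat_lit 442285760)), (.ofNat (nat_lit 234405712)), (.ofNat (nat_lit 442285744)), (.ofNat (nat_lit 6530541170104241477278)), (.ofNat (nat_lit 100456339728943384508)), (.ofNat (nat_lit 74047675379756566772197630976))⟩]

theorem ok71 : stOK 25 25 S71 = true := by decide +kernel

def S72 : SD where
  vs := [
    ⟨nat_lit 0, nat_lit 0, nat_lit 22, (.ofNat (nat_lit 8)), (.negSucc (nat_lit 647126463)), (.ofNat (nat_lit 4934839625482900823851580917376)), (.negSucc (nat_lit 76766975)), (.ofNat (nat_lit 504754843511835448009580498432)), (.negSucc (nat_lit 647126479)), (.negSucc (nat_lit 647126447)), (.negSucc (nat_lit 6530554908661287361137)), (.ofNat (nat_lit 6530554908661287361138)), (.negSucc (nat_lit 6530554908661287361137)), (.ofNat (nat_lit 6530554908661287361138)), (.ofNat (nat_lit 0))⟩,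
    ⟨nat_lit 2, nat_lit 0, nat_lit 1, (.ofNat (nat_lit 8)), (.negSucc (nat_lit 986225983)), (.ofNat (nat_lit 7149347660343587210595543371136)), (.negSucc (nat_lit 115842751)), (.ofNat (nat_lit 759941344278384372805040091520)), (.negSucc (nat_lit 986225999)), (.negSucc (nat_lit 986225967)), (.negSucc (nat_lit 6530554908661287361137)), (.ofNat (nat_lit 6530554908661287361138)), (.negSucc (nat_lit 6530554908661287361137)), (.ofNat (nat_lit 6530554908661287361138)), (.ofNat (nat_lit 0))⟩,
    ⟨nat_lit 0, nat_lit 1, nat_lit 2, (.ofNat (nat_lit 8)), (.negSucc (nat_lit 836427263)), (.ofNat (nat_lit 8127616426550764970846193514496)), (.negSucc (nat_lit 115056319)), (.ofNat (nat_lit 765077181636312686347034571136)), (.negSucc (nat_lit 836427279)), (.negSucc (nat_lit 836427247)), (.ofNat (nat_lit 6530554908661287361138)), (.negSucc (nat_lit 6530554908661287361137)), (.negSucc (nat_lit 6530554908661287361137)), (.ofNat (nat_lit 6530554908661287361138)), (.ofNat (nat_lit 0))⟩,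
    ⟨nat_lit 0, nat_lit 2, nat_lit 3, (.ofNat (nat_lit 8)), (.negSucc (nat_lit 656809471)), (.ofNat (nat_lit 6954612573322262859161079347200)), (.negSucc (nat_lit 94166719)), (.ofNat (nat_lit 628656501816341857887806206336)), (.negSucc (nat_lit 656809487)), (.negSucc (nat_lit 656809455)), (.negSucc (nat_lit 6530554908661287361137)), (.ofNat (nat_lit 6530554908661287361138)), (.negSucc (nat_lit 6530554908661287361137)), (.ofNat (nat_lit 6530554908661287361138)), (.ofNat (nat_lit 0))⟩,
    ⟨nat_lit 1, nat_lit 3, nat_lit 4, (.ofNat (nat_lit 8)), (.ofNat (nat_lit 191488064)), (.ofNat (nat_lit 12494466211052337986202386903168)), (.negSucc (nat_lit 92069567)), (.ofNat (nat_lit 642352068104150693999791485312)), (.ofNat (nat_lit 191488048)), (.ofNat (nat_lit 191488080)), (.ofNat (nat_lit 6530554908661287361138)), (.negSucc (nat_lit 6530554908661287361137)), (.negSucc (nat_lit 6530554908661287361137)), (.ofNat (nat_lit 6530554908661287361138)), (.ofNat (nat_lit 0))⟩,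
    ⟨nat_lit 0, nat_lit 5, nat_lit 4, (.ofNat (nat_lit 8)), (.negSucc (nat_lit 17293247)), (.ofNat (nat_lit 13857924032970681725069796356224)), (.negSucc (nat_lit 116432575)), (.ofNat (nat_lit 801456029588304907269495468416)), (.negSucc (nat_lit 17293263)), (.negSucc (nat_lit 17293231)), (.ofNat (nat_lit 6530554908661287361138)), (.negSucc (nat_lit 6530554908661287361137)), (.negSucc (nat_lit 6530554908661287361137)), (.ofNat (nat_lit 6530554908661287361138)), (.ofNat (nat_lit 0))⟩,
    ⟨nat_lit 2, nat_lit 6, nat_lit 5, (.ofNat (nat_lit 8)), (.negSucc (nat_lit 941252095)), (.ofNat (nat_lit 7823960042763253432675769907200)), (.negSucc (nat_lit 119054015)), (.ofNat (nat_lit 784336571728543862129513869696)), (.negSucc (nat_lit 941252111)), (.negSucc (nat_lit 941252079)), (.negSucc (nat_lit 6530554908661287361137)), (.ofNat (nat_lit 6530554908661287361138)), (.negSucc (nat_lit 6530554908661287361137)), (.ofNat (nat_lit 6530554908661287361138)), (.ofNat (nat_lit 0))⟩,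
    ⟨nat_lit 0, nat_lit 7, nat_lit 8, (.ofNat (nat_lit 8)), (.negSucc (nat_lit 675995135)), (.ofNat (nat_lit 7770675730174747179677577181184)), (.negSucc (nat_lit 102145727)), (.ofNat (nat_lit 684187743248941748060621517184)), (.negSucc (nat_lit 675995151)), (.negSucc (nat_lit 675995119)), (.ofNat (nat_lit 6530554908661287361138)), (.negSucc (nat_lit 6530554908661287361137)), (.negSucc (nat_lit 6530554908661287361137)), (.ofNat (nat_lit 6530554908661287361138)), (.ofNat (nat_lit 0))⟩,
    ⟨nat_lit 0, nat_lit 8, nat_lit 9, (.ofNat (nat_lit 8)), (.ofNat (nat_lit 238337792)), (.ofNat (nat_lit 1799574339073699746518876229120)), (.ofNat (nat_lit 1310720)), (.ofNat (nat_lit 8559728929880522569990799360)), (.ofNat (nat_lit 238337776)), (.ofNat (nat_lit 238337808)), (.negSucc (nat_lit 6530554908661287361137)), (.ofNat (nat_lit 6530554908661287361138)), (.negSucc (nat_lit 6530554908661287361137)), (.ofNat (nat_lit 6530554908661287361138)), (.ofNat (nat_lit 0))⟩,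
    ⟨nat_lit 1, nat_lit 9, nat_lit 10, (.ofNat (nat_lit 8)), (.ofNat (nat_lit 1005501760)), (.ofNat (nat_lit 6809580756044170526477753304704)), (.ofNat (nat_lit 2883584)), (.ofNat (nat_lit 18831403645737149653979758592)), (.ofNat (nat_lit 1005501744)), (.ofNat (nat_lit 1005501776)), (.ofNat (nat_lit 6530554908661287361138)), (.negSucc (nat_lit 6530554908661287361137)), (.negSucc (nat_lit 6530554908661287361137)), (.ofNat (nat_lit 6530554908661287361138)), (.ofNat (nat_lit 0))⟩,
    ⟨nat_lit 0, nat_lit 11, nat_lit 10, (.ofNat (nat_lit 8)), (.ofNat (nat_lit 588848896)), (.ofNat (nat_lit 9530555162247154311422903303936)), (.negSucc (nat_lit 44343103)), (.ofNat (nat_lit 327247882783952265536787409536)), (.ofNat (nat_lit 588848880)), (.ofNat (nat_lit 588848912)), (.ofNat (nat_lit 6530554908661287361138)), (.negSucc (nat_lit 6530554908661287361137)), (.negSucc (nat_lit 6530554908661287361137)), (.ofNat (nat_lit 6530554908661287361138)), (.ofNat (nat_lit 0))⟩,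
    ⟨nat_lit 1, nat_lit 25, nat_lit 21, (.ofNat (nat_lit 8)), (.ofNat (nat_lit 400121600)), (.ofNat (nat_lit 8007666622879052862965817440768)), (.negSucc (nat_lit 42164159)), (.ofNat (nat_lit 306169539490559851650585845632)), (.ofNat (nat_lit 400121584)), (.ofNat (nat_lit 400121616)), (.ofNat (nat_lit 6530541170104241477278)), (.negSucc (nat_lit 6530567340595746070829)), (.negSucc (nat_lit 6530567340595746070829)), (.ofNat (nat_lit 6530541170104241477278)), (.ofNat (nat_lit 0))⟩,
    ⟨nat_lit 0, nat_lit 13, nat_lit 24, (.ofNat (nat_lit 8)), (.ofNat (nat_lit 191717184)), (.ofNat (nat_lit 6646673004159521758770718581120)), (.negSucc (nat_lit 42688447)), (.ofNat (nat_lit 302745655121568239094946717568)), (.ofNat (nat_lit 191717168)), (.ofNat (nat_lit 191717200)), (.ofNat (nat_lit 6530541170104241477278)), (.ofNat (nat_lit 6530541170104241477278)), (.ofNat (nat_lit 6530541170104241477278)), (.ofNat (nat_lit 6530541170104241477278)), (.ofNat (nat_lit 0))⟩,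
    ⟨nat_lit 0, nat_lit 14, nat_lit 13, (.ofNat (nat_lit 8)), (.negSucc (nat_lit 141270975)), (.ofNat (nat_lit 4472080116122263381056235552640)), (.negSucc (nat_lit 42950527)), (.ofNat (nat_lit 301034130891707319488581699328)), (.negSucc (nat_lit 141270991)), (.negSucc (nat_lit 141270959)), (.negSucc (nat_lit 6530554908661287361137)), (.ofNat (nat_lit 6530541170104241477278)), (.negSucc (nat_lit 6530554908661287361137)), (.ofNat (nat_lit 6530541170104241477278)), (.ofNat (nat_lit 0))⟩,
    ⟨nat_lit 0, nat_lit 15, nat_lit 14, (.ofNat (nat_lit 8)), (.negSucc (nat_lit 687693311)), (.ofNat (nat_lit 8040521184689230653696537131008)), (.negSucc (nat_lit 105062079)), (.ofNat (nat_lit 706657031689878119806847365504)), (.negSucc (nat_lit 687693327)), (.negSucc (nat_lit 687693295)), (.ofNat (nat_lit 6530554908661287361138)), (.negSucc (nat_lit 6530554908661287361137)), (.negSucc (nat_lit 6530554908661287361137)), (.ofNat (nat_lit 6530554908661287361138)), (.ofNat (nat_lit 0))⟩,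
    ⟨nat_lit 0, nat_lit 6, nat_lit 15, (.ofNat (nat_lit 8)), (.negSucc (nat_lit 831053311)), (.ofNat (nat_lit 7104300832983548497603793451008)), (.negSucc (nat_lit 106110655)), (.ofNat (nat_lit 699809248545973701750854726016)), (.negSucc (nat_lit 831053327)), (.negSucc (nat_lit 831053295)), (.negSucc (nat_lit 6530554908661287361137)), (.ofNat (nat_lit 6530554908661287361138)), (.negSucc (nat_lit 6530554908661287361137)), (.ofNat (nat_lit 6530554908661287361138)), (.ofNat (nat_lit 0))⟩,
    ⟨nat_lit 0, nat_lit 23, nat_lit 16, (.ofNat (nat_lit 8)), (.negSucc (nat_lit 109649855)), (.ofNat (nat_lit 1133788341201944504694170479232)), (.negSucc (nat_lit 13901759)), (.ofNat (nat_lit 90786207007031138185573802880)), (.negSucc (nat_lit 109649871)), (.negSucc (nat_lit 109649839)), (.negSucc (nat_lit 6530554908661287361137)), (.ofNat (nat_lit 6530554908661287361138)), (.negSucc (nat_lit 6530554908661287361137)), (.ofNat (nat_lit 6530554908661287361138)), (.ofNat (nat_lit 0))⟩,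
    ⟨nat_lit 1, nat_lit 16, nat_lit 17, (.ofNat (nat_lit 8)), (.ofNat (nat_lit 854236608)), (.ofNat (nat_lit 7428501820069315752909368315264)), (.negSucc (nat_lit 11280319)), (.ofNat (nat_lit 107905664866792183325555401600)), (.ofNat (nat_lit 854236592)), (.ofNat (nat_lit 854236624)), (.ofNat (nat_lit 6530554908661287361138)), (.negSucc (nat_lit 6530554908661287361137)), (.negSucc (nat_lit 6530554908661287361137)), (.ofNat (nat_lit 6530554908661287361138)), (.ofNat (nat_lit 0))⟩,
    ⟨nat_lit 0, nat_lit 18, nat_lit 17, (.ofNat (nat_lit 8)), (.ofNat (nat_lit 164159552)), (.ofNat (nat_lit 11935087925484645836253488164992)), (.negSucc (nat_lit 89120447)), (.ofNat (nat_lit 616244894868015100161319547264)), (.ofNat (nat_lit 164159536)), (.ofNat (nat_lit 164159568)), (.ofNat (nat_lit 6530554908661287361138)), (.negSucc (nat_lit 6530554908661287361137)), (.negSucc (nat_lit 6530554908661287361137)), (.ofNat (nat_lit 6530554908661287361138)), (.ofNat (nat_lit 0))⟩,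
    ⟨nat_lit 0, nat_lit 19, nat_lit 18, (.ofNat (nat_lit 8)), (.negSucc (nat_lit 655891967)), (.ofNat (nat_lit 6579696446193495970595482335232)), (.negSucc (nat_lit 90955455)), (.ofNat (nat_lit 604261274366182368563332428160)), (.negSucc (nat_lit 655891983)), (.negSucc (nat_lit 655891951)), (.negSucc (nat_lit 6530554908661287361137)), (.ofNat (nat_lit 6530554908661287361138)), (.negSucc (nat_lit 6530554908661287361137)), (.ofNat (nat_lit 6530554908661287361138)), (.ofNat (nat_lit 0))⟩,
    ⟨nat_lit 2, nat_lit 19, nat_lit 20, (.ofNat (nat_lit 8)), (.negSucc (nat_lit 835509759)), (.ofNat (nat_lit 7752700299421998082280596502528)), (.negSucc (nat_lit 111845055)), (.ofNat (nat_lit 740681954186153197022560792960)), (.negSucc (nat_lit 835509775)), (.negSucc (nat_lit 835509743)), (.negSucc (nat_lit 6530554908661287361137)), (.ofNat (nat_lit 6530554908661287361138)), (.negSucc (nat_lit 6530554908661287361137)), (.ofNat (nat_lit 6530554908661287361138)), (.ofNat (nat_lit 0))⟩,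
    ⟨nat_lit 0, nat_lit 20, nat_lit 21, (.ofNat (nat_lit 8)), (.negSucc (nat_lit 198172479)), (.ofNat (nat_lit 11914866401798831410326667127168)), (.negSucc (nat_lit 110272191)), (.ofNat (nat_lit 750953628902009824106549752192)), (.negSucc (nat_lit 198172495)), (.negSucc (nat_lit 198172463)), (.ofNat (nat_lit 6530554908661287361138)), (.negSucc (nat_lit 6530567340595746070829)), (.negSucc (nat_lit 6530567340595746070829)), (.ofNat (nat_lit 6530554908661287361138)), (.ofNat (nat_lit 0))⟩,
    ⟨nat_lit 0, nat_lit 22, nat_lit 12, (.ofNat (nat_lit 8)), (.negSucc (nat_lit 95985471)), (.ofNat (nat_lit 8534096136152952132066240486272)), (.negSucc (nat_lit 74931967)), (.ofNat (nat_lit 516738464013668179607567617536)), (.negSucc (nat_lit 95985487)), (.negSucc (nat_lit 95985455)), (.ofNat (nat_lit 6530554908661287361138)), (.negSucc (nat_lit 6530554908661287361137)), (.negSucc (nat_lit 6530554908661287361137)), (.ofNat (nat_lit 6530554908661287361138)), (.ofNat (nat_lit 0))⟩,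
    ⟨nat_lit 2, nat_lit 23, nat_lit 7, (.ofNat (nat_lit 8)), (.negSucc (nat_lit 900963647)), (.ofNat (nat_lit 6301506509838921450037954694528)), (.negSucc (nat_lit 103456447)), (.ofNat (nat_lit 675628014319061225490630717824)), (.negSucc (nat_lit 900963663)), (.negSucc (nat_lit 900963631)), (.negSucc (nat_lit 6530554908661287361137)), (.ofNat (nat_lit 6530554908661287361138)), (.negSucc (nat_lit 6530554908661287361137)), (.ofNat (nat_lit 6530554908661287361138)), (.ofNat (nat_lit 0))⟩,
    ⟨nat_lit 0, nat_lit 12, nat_lit 11, (.ofNat (nat_lit 8)), (.ofNat (nat_lit 170139648)), (.ofNat (nat_lit 6796151427418877993728906899712)), (.negSucc (nat_lit 45129535)), (.ofNat (nat_lit 322112045426023951994792929920)), (.ofNat (nat_lit 170139632)), (.ofNat (nat_lit 170139664)), (.negSucc (nat_lit 6530554908661287361137)), (.ofNat (nat_lit 6530554908661287361138)), (.negSucc (nat_lit 6530554908661287361137)), (.ofNat (nat_lit 6530554908661287361138)), (.ofNat (nat_lit 0))⟩,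
    ⟨nat_lit 0, nat_lit 24, nat_lit 25, (.ofNat (nat_lit 8)), (.ofNat (nat_lit 191717248)), (.ofNat (nat_lit 6646673422114156645442173126912)), (.negSucc (nat_lit 42688447)), (.ofNat (nat_lit 302745655121568239094946717568)), (.ofNat (nat_lit 191717232)), (.ofNat (nat_lit 191717264)), (.ofNat (nat_lit 6530541170104241477278)), (.ofNat (nat_lit 6530541170104241477278)), (.ofNat (nat_lit 6530541170104241477278)), (.ofNat (nat_lit 6530541170104241477278)), (.ofNat (nat_lit 0))⟩]
  es := [
    ⟨nat_lit 1, nat_lit 0, (.negSucc (nat_lit 986225983)), (.negSucc (nat_lit 647126463)), (.negSucc (nat_lit 986225967)), (.negSucc (nat_lit 647126479)), (.negSucc (nat_lit 6530554908661287361137)), (.ofNat (nat_lit 0)), (.ofNat (nat_lit 3423891571952209027996319744))⟩,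
    ⟨nat_lit 1, nat_lit 2, (.negSucc (nat_lit 986225983)), (.negSucc (nat_lit 836427263)), (.negSucc (nat_lit 986225967)), (.negSucc (nat_lit 836427279)), (.ofNat (nat_lit 6530554908661287361138)), (.ofNat (nat_lit 0)), (.ofNat (nat_lit 1516458796984816536582083863296))⟩,
    ⟨nat_lit 2, nat_lit 3, (.negSucc (nat_lit 836427263)), (.negSucc (nat_lit 656809471)), (.negSucc (nat_lit 836427247)), (.negSucc (nat_lit 656809487)), (.negSucc (nat_lit 6530554908661287361137)), (.ofNat (nat_lit 0)), (.ofNat (nat_lit 13695566287808836111985278976))⟩,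
    ⟨nat_lit 3, nat_lit 4, (.negSucc (nat_lit 656809471)), (.ofNat (nat_lit 191488064)), (.negSucc (nat_lit 656809455)), (.ofNat (nat_lit 191488048)), (.ofNat (nat_lit 6530554908661287361138)), (.ofNat (nat_lit 0)), (.ofNat (nat_lit 1243617437344874879663627133696))⟩,
    ⟨nat_lit 5, nat_lit 4, (.negSucc (nat_lit 17293247)), (.ofNat (nat_lit 191488064)), (.negSucc (nat_lit 17293231)), (.ofNat (nat_lit 191488048)), (.negSucc (nat_lit 6530554908661287361137)), (.ofNat (nat_lit 0)), (.ofNat (nat_lit 41086698863426508335955836928))⟩,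
    ⟨nat_lit 6, nat_lit 5, (.negSucc (nat_lit 941252095)), (.negSucc (nat_lit 17293247)), (.negSucc (nat_lit 941252079)), (.negSucc (nat_lit 17293263)), (.ofNat (nat_lit 6530554908661287361138)), (.ofNat (nat_lit 0)), (.ofNat (nat_lit 1561825360313183306203035099904))⟩,
    ⟨nat_lit 6, nat_lit 15, (.negSucc (nat_lit 941252095)), (.negSucc (nat_lit 831053311)), (.negSucc (nat_lit 941252079)), (.negSucc (nat_lit 831053327)), (.negSucc (nat_lit 6530554908661287361137)), (.ofNat (nat_lit 0)), (.ofNat (nat_lit 6847783143904418055992639488))⟩,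
    ⟨nat_lit 23, nat_lit 7, (.negSucc (nat_lit 900963647)), (.negSucc (nat_lit 675995135)), (.negSucc (nat_lit 900963631)), (.negSucc (nat_lit 675995151)), (.ofNat (nat_lit 6530554908661287361138)), (.ofNat (nat_lit 0)), (.ofNat (nat_lit 1351256028638122450981261435648))⟩,
    ⟨nat_lit 7, nat_lit 8, (.negSucc (nat_lit 675995135)), (.ofNat (nat_lit 238337792)), (.negSucc (nat_lit 675995119)), (.ofNat (nat_lit 238337776)), (.negSucc (nat_lit 6530554908661287361137)), (.ofNat (nat_lit 0)), (.ofNat (nat_lit 17119457859761045139981598720))⟩,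
    ⟨nat_lit 8, nat_lit 9, (.ofNat (nat_lit 238337792)), (.ofNat (nat_lit 1005501760)), (.ofNat (nat_lit 238337808)), (.ofNat (nat_lit 1005501744)), (.ofNat (nat_lit 6530554908661287361138)), (.ofNat (nat_lit 0)), (.ofNat (nat_lit 0))⟩,
    ⟨nat_lit 10, nat_lit 9, (.ofNat (nat_lit 588848896)), (.ofNat (nat_lit 1005501760)), (.ofNat (nat_lit 588848912)), (.ofNat (nat_lit 1005501744)), (.negSucc (nat_lit 6530554908661287361137)), (.ofNat (nat_lit 0)), (.ofNat (nat_lit 37662807291474299307959517184))⟩,
    ⟨nat_lit 24, nat_lit 10, (.ofNat (nat_lit 170139648)), (.ofNat (nat_lit 588848896)), (.ofNat (nat_lit 170139664)), (.ofNat (nat_lit 588848880)), (.ofNat (nat_lit 6530554908661287361138)), (.ofNat (nat_lit 0)), (.ofNat (nat_lit 616832958276430231765615301888))⟩,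
    ⟨nat_lit 22, nat_lit 24, (.negSucc (nat_lit 95985471)), (.ofNat (nat_lit 170139648)), (.negSucc (nat_lit 95985455)), (.ofNat (nat_lit 170139632)), (.negSucc (nat_lit 6530554908661287361137)), (.ofNat (nat_lit 0)), (.ofNat (nat_lit 27391132575617672223970557952))⟩,
    ⟨nat_lit 13, nat_lit 12, (.negSucc (nat_lit 141270975)), (.ofNat (nat_lit 191717184)), (.negSucc (nat_lit 141270959)), (.ofNat (nat_lit 191717168)), (.ofNat (nat_lit 6530541170104241477278)), (.ofNat (nat_lit 0)), (.ofNat (nat_lit 581524322273422305977171802112))⟩,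
    ⟨nat_lit 14, nat_lit 13, (.negSucc (nat_lit 687693311)), (.negSucc (nat_lit 141270975)), (.negSucc (nat_lit 687693295)), (.negSucc (nat_lit 141270991)), (.negSucc (nat_lit 6530554908661287361137)), (.ofNat (nat_lit 0)), (.ofNat (nat_lit 20543349431713254167977918464))⟩,
    ⟨nat_lit 15, nat_lit 14, (.negSucc (nat_lit 831053311)), (.negSucc (nat_lit 687693311)), (.negSucc (nat_lit 831053295)), (.negSucc (nat_lit 687693327)), (.ofNat (nat_lit 6530554908661287361138)), (.ofNat (nat_lit 0)), (.ofNat (nat_lit 1392770713948042985445716812544))⟩,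
    ⟨nat_lit 16, nat_lit 17, (.negSucc (nat_lit 109649855)), (.ofNat (nat_lit 854236608)), (.negSucc (nat_lit 109649839)), (.ofNat (nat_lit 854236592)), (.ofNat (nat_lit 6530554908661287361138)), (.ofNat (nat_lit 0)), (.ofNat (nat_lit 181572414014062276371147605760))⟩,
    ⟨nat_lit 18, nat_lit 17, (.ofNat (nat_lit 164159552)), (.ofNat (nat_lit 854236608)), (.ofNat (nat_lit 164159568)), (.ofNat (nat_lit 854236592)), (.negSucc (nat_lit 6530554908661287361137)), (.ofNat (nat_lit 0)), (.ofNat (nat_lit 34238915719522090279963197440))⟩,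
    ⟨nat_lit 19, nat_lit 18, (.negSucc (nat_lit 655891967)), (.ofNat (nat_lit 164159552)), (.negSucc (nat_lit 655891951)), (.ofNat (nat_lit 164159536)), (.ofNat (nat_lit 6530554908661287361138)), (.ofNat (nat_lit 0)), (.ofNat (nat_lit 1198250874016508110042675897088))⟩,
    ⟨nat_lit 20, nat_lit 19, (.negSucc (nat_lit 835509759)), (.negSucc (nat_lit 655891967)), (.negSucc (nat_lit 835509743)), (.negSucc (nat_lit 655891983)), (.negSucc (nat_lit 6530554908661287361137)), (.ofNat (nat_lit 0)), (.ofNat (nat_lit 10271674715856627083988959232))⟩,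
    ⟨nat_lit 20, nat_lit 21, (.negSucc (nat_lit 835509759)), (.negSucc (nat_lit 198172479)), (.negSucc (nat_lit 835509743)), (.negSucc (nat_lit 198172495)), (.ofNat (nat_lit 6530554908661287361138)), (.ofNat (nat_lit 0)), (.ofNat (nat_lit 1471092233656449766961132626688))⟩,
    ⟨nat_lit 21, nat_lit 11, (.negSucc (nat_lit 198172479)), (.ofNat (nat_lit 400121600)), (.negSucc (nat_lit 198172463)), (.ofNat (nat_lit 400121584)), (.negSucc (nat_lit 6530567340595746070829)), (.ofNat (nat_lit 0)), (.ofNat (nat_lit 30813653250906319000738392832))⟩,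
    ⟨nat_lit 0, nat_lit 22, (.negSucc (nat_lit 647126463)), (.negSucc (nat_lit 95985471)), (.negSucc (nat_lit 647126447)), (.negSucc (nat_lit 95985487)), (.ofNat (nat_lit 6530554908661287361138)), (.ofNat (nat_lit 0)), (.ofNat (nat_lit 1006085795451718686991164677120))⟩,
    ⟨nat_lit 23, nat_lit 16, (.negSucc (nat_lit 900963647)), (.negSucc (nat_lit 109649855)), (.negSucc (nat_lit 900963631)), (.negSucc (nat_lit 109649871)), (.negSucc (nat_lit 6530554908661287361137)), (.ofNat (nat_lit 0)), (.ofNat (nat_lit 0))⟩,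
    ⟨nat_lit 12, nat_lit 25, (.ofNat (nat_lit 191717184)), (.ofNat (nat_lit 191717248)), (.ofNat (nat_lit 191717200)), (.ofNat (nat_lit 191717232)), (.ofNat (nat_lit 6530541170104241477278)), (.ofNat (nat_lit 0)), (.ofNat (nat_lit 581524322273422305977171802112))⟩,
    ⟨nat_lit 25, nat_lit 11, (.ofNat (nat_lit 191717248)), (.ofNat (nat_lit 400121600)), (.ofNat (nat_lit 191717264)), (.ofNat (nat_lit 400121584)), (.ofNat (nat_lit 6530541170104241477278)), (.ofNat (nat_lit 0)), (.ofNat (nat_lit 581524322273422305977171802112))⟩]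

theorem ok72 : stOK 25 25 S72 = true := by decide +kernel

def S73 : SD where
  vs := [
    ⟨nat_lit 0, nat_lit 0, nat_lit 22, (.ofNat (nat_lit 8)), (.negSucc (nat_lit 647126463)), (.ofNat (nat_lit 4934839625482900823851580917376)), (.negSucc (nat_lit 76766975)), (.ofNat (nat_lit 504754843511835448009580498432)), (.negSucc (nat_lit 647126479)), (.negSucc (nat_lit 647126447)), (.negSucc (nat_lit 6530554908661287361137)), (.ofNat (nat_lit 6530554908661287361138)), (.negSucc (nat_lit 6530554908661287361137)), (.ofNat (nat_lit 6530554908661287361138)), (.ofNat (nat_lit 0))⟩,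
    ⟨nat_lit 2, nat_lit 0, nat_lit 1, (.ofNat (nat_lit 8)), (.negSucc (nat_lit 986225983)), (.ofNat (nat_lit 7149347660343587210595543371136)), (.negSucc (nat_lit 115842751)), (.ofNat (nat_lit 759941344278384372805040091520)), (.negSucc (nat_lit 986225999)), (.negSucc (nat_lit 986225967)), (.negSucc (nat_lit 6530554908661287361137)), (.ofNat (nat_lit 6530554908661287361138)), (.negSucc (nat_lit 6530554908661287361137)), (.ofNat (nat_lit 6530554908661287361138)), (.ofNat (nat_lit 0))⟩,
    ⟨nat_lit 0, nat_lit 1, nat_lit 2, (.ofNat (nat_lit 8)), (.negSucc (nat_lit 836427263)), (.ofNat (nat_lit 8127616426550764970846193514496)), (.negSucc (nat_lit 115056319)), (.ofNat (nat_lit 765077181636312686347034571136)), (.negSucc (nat_lit 836427279)), (.negSucc (nat_lit 836427247)), (.ofNat (nat_lit 6530554908661287361138)), (.negSucc (nat_lit 6530554908661287361137)), (.negSucc (nat_lit 6530554908661287361137)), (.ofNat (nat_lit 6530554908661287361138)), (.ofNat (nat_lit 0))⟩,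
    ⟨nat_lit 0, nat_lit 2, nat_lit 3, (.ofNat (nat_lit 8)), (.negSucc (nat_lit 656809471)), (.ofNat (nat_lit 6954612573322262859161079347200)), (.negSucc (nat_lit 94166719)), (.ofNat (nat_lit 628656501816341857887806206336)), (.negSucc (nat_lit 656809487)), (.negSucc (nat_lit 656809455)), (.negSucc (nat_lit 6530554908661287361137)), (.ofNat (nat_lit 6530554908661287361138)), (.negSucc (nat_lit 6530554908661287361137)), (.ofNat (nat_lit 6530554908661287361138)), (.ofNat (nat_lit 0))⟩,
    ⟨nat_lit 1, nat_lit 3, nat_lit 4, (.ofNat (nat_lit 8)), (.ofNat (nat_lit 191488064)), (.ofNat (nat_lit 12494466211052337986202386903168)), (.negSucc (nat_lit 92069567)), (.ofNat (nat_lit 642352068104150693999791485312)), (.ofNat (nat_lit 191488048)), (.ofNat (nat_lit 191488080)), (.ofNat (nat_lit 6530554908661287361138)), (.negSucc (nat_lit 6530554908661287361137)), (.negSucc (nat_lit 6530554908661287361137)), (.ofNat (nat_lit 6530554908661287361138)), (.ofNat (nat_lit 0))⟩,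
    ⟨nat_lit 0, nat_lit 5, nat_lit 4, (.ofNat (nat_lit 8)), (.negSucc (nat_lit 17293247)), (.ofNat (nat_lit 13857924032970681725069796356224)), (.negSucc (nat_lit 116432575)), (.ofNat (nat_lit 801456029588304907269495468416)), (.negSucc (nat_lit 17293263)), (.negSucc (nat_lit 17293231)), (.ofNat (nat_lit 6530554908661287361138)), (.negSucc (nat_lit 6530554908661287361137)), (.negSucc (nat_lit 6530554908661287361137)), (.ofNat (nat_lit 6530554908661287361138)), (.ofNat (nat_lit 0))⟩,
    ⟨nat_lit 2, nat_lit 6, nat_lit 5, (.ofNat (nat_lit 8)), (.negSucc (nat_lit 941252095)), (.ofNat (nat_lit 7823960042763253432675769907200)), (.negSucc (nat_lit 119054015)), (.ofNat (nat_lit 784336571728543862129513869696)), (.negSucc (nat_lit 941252111)), (.negSucc (nat_lit 941252079)), (.negSucc (nat_lit 6530554908661287361137)), (.ofNat (nat_lit 6530554908661287361138)), (.negSucc (nat_lit 6530554908661287361137)), (.ofNat (nat_lit 6530554908661287361138)), (.ofNat (nat_lit 0))⟩,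
    ⟨nat_lit 0, nat_lit 7, nat_lit 8, (.ofNat (nat_lit 8)), (.negSucc (nat_lit 675995135)), (.ofNat (nat_lit 7770675730174747179677577181184)), (.negSucc (nat_lit 102145727)), (.ofNat (nat_lit 684187743248941748060621517184)), (.negSucc (nat_lit 675995151)), (.negSucc (nat_lit 675995119)), (.ofNat (nat_lit 6530554908661287361138)), (.negSucc (nat_lit 6530554908661287361137)), (.negSucc (nat_lit 6530554908661287361137)), (.ofNat (nat_lit 6530554908661287361138)), (.ofNat (nat_lit 0))⟩,
    ⟨nat_lit 0, nat_lit 8, nat_lit 9, (.ofNat (nat_lit 8)), (.ofNat (nat_lit 238337792)), (.ofNat (nat_lit 1799574339073699746518876229120)), (.ofNat (nat_lit 1310720)), (.ofNat (nat_lit 8559728929880522569990799360)), (.ofNat (nat_lit 238337776)), (.ofNat (nat_lit 238337808)), (.negSucc (nat_lit 6530554908661287361137)), (.ofNat (nat_lit 6530554908661287361138)), (.negSucc (nat_lit 6530554908661287361137)), (.ofNat (nat_lit 6530554908661287361138)), (.ofNat (nat_lit 0))⟩,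
    ⟨nat_lit 1, nat_lit 9, nat_lit 10, (.ofNat (nat_lit 8)), (.ofNat (nat_lit 1005501760)), (.ofNat (nat_lit 6809580756044170526477753304704)), (.ofNat (nat_lit 2883584)), (.ofNat (nat_lit 18831403645737149653979758592)), (.ofNat (nat_lit 1005501744)), (.ofNat (nat_lit 1005501776)), (.ofNat (nat_lit 6530554908661287361138)), (.negSucc (nat_lit 6530554908661287361137)), (.negSucc (nat_lit 6530554908661287361137)), (.ofNat (nat_lit 6530554908661287361138)), (.ofNat (nat_lit 0))⟩,
    ⟨nat_lit 0, nat_lit 11, nat_lit 10, (.ofNat (nat_lit 8)), (.ofNat (nat_lit 588848896)), (.ofNat (nat_lit 9530555162247154311422903303936)), (.negSucc (nat_lit 44343103)), (.ofNat (nat_lit 327247882783952265536787409536)), (.ofNat (nat_lit 588848880)), (.ofNat (nat_lit 588848912)), (.ofNat (nat_lit 6530554908661287361138)), (.negSucc (nat_lit 6530554908661287361137)), (.negSucc (nat_lit 6530554908661287361137)), (.ofNat (nat_lit 6530554908661287361138)), (.ofNat (nat_lit 0))⟩,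
    ⟨nat_lit 1, nat_lit 24, nat_lit 21, (.ofNat (nat_lit 8)), (.ofNat (nat_lit 400121600)), (.ofNat (nat_lit 8007666622879052862965817440768)), (.negSucc (nat_lit 42164159)), (.ofNat (nat_lit 306169539490559851650585845632)), (.ofNat (nat_lit 400121584)), (.ofNat (nat_lit 400121616)), (.ofNat (nat_lit 6530541170104241477278)), (.negSucc (nat_lit 6530567340595746070829)), (.negSucc (nat_lit 6530567340595746070829)), (.ofNat (nat_lit 6530541170104241477278)), (.ofNat (nat_lit 0))⟩,
    ⟨nat_lit 0, nat_lit 14, nat_lit 13, (.ofNat (nat_lit 8)), (.negSucc (nat_lit 141270975)), (.ofNat (nat_lit 4472080116122263381056235552640)), (.negSucc (nat_lit 42950527)), (.ofNat (nat_lit 301034130891707319488581699328)), (.negSucc (nat_lit 141270991)), (.negSucc (nat_lit 141270959)), (.negSucc (nat_lit 6530554908661287361137)), (.ofNat (nat_lit 6530541170104241477278)), (.negSucc (nat_lit 6530554908661287361137)), (.ofNat (nat_lit 6530541170104241477278)), (.ofNat (nat_lit 0))⟩,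
    ⟨nat_lit 0, nat_lit 15, nat_lit 14, (.ofNat (nat_lit 8)), (.negSucc (nat_lit 687693311)), (.ofNat (nat_lit 8040521184689230653696537131008)), (.negSucc (nat_lit 105062079)), (.ofNat (nat_lit 706657031689878119806847365504)), (.negSucc (nat_lit 687693327)), (.negSucc (nat_lit 687693295)), (.ofNat (nat_lit 6530554908661287361138)), (.negSucc (nat_lit 6530554908661287361137)), (.negSucc (nat_lit 6530554908661287361137)), (.ofNat (nat_lit 6530554908661287361138)), (.ofNat (nat_lit 0))⟩,
    ⟨nat_lit 0, nat_lit 6, nat_lit 15, (.ofNat (nat_lit 8)), (.negSucc (nat_lit 831053311)), (.ofNat (nat_lit 7104300832983548497603793451008)), (.negSucc (nat_lit 106110655)), (.ofNat (nat_lit 699809248545973701750854726016)), (.negSucc (nat_lit 831053327)), (.negSucc (nat_lit 831053295)), (.negSucc (nat_lit 6530554908661287361137)), (.ofNat (nat_lit 6530554908661287361138)), (.negSucc (nat_lit 6530554908661287361137)), (.ofNat (nat_lit 6530554908661287361138)), (.ofNat (nat_lit 0))⟩,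
    ⟨nat_lit 0, nat_lit 23, nat_lit 16, (.ofNat (nat_lit 8)), (.negSucc (nat_lit 109649855)), (.ofNat (nat_lit 1133788341201944504694170479232)), (.negSucc (nat_lit 13901759)), (.ofNat (nat_lit 90786207007031138185573802880)), (.negSucc (nat_lit 109649871)), (.negSucc (nat_lit 109649839)), (.negSucc (nat_lit 6530554908661287361137)), (.ofNat (nat_lit 6530554908661287361138)), (.negSucc (nat_lit 6530554908661287361137)), (.ofNat (nat_lit 6530554908661287361138)), (.ofNat (nat_lit 0))⟩,
    ⟨nat_lit 1, nat_lit 16, nat_lit 17, (.ofNat (nat_lit 8)), (.ofNat (nat_lit 854236608)), (.ofNat (nat_lit 7428501820069315752909368315264)), (.negSucc (nat_lit 11280319)), (.ofNat (nat_lit 107905664866792183325555401600)), (.ofNat (nat_lit 854236592)), (.ofNat (nat_lit 854236624)), (.ofNat (nat_lit 6530554908661287361138)), (.negSucc (nat_lit 6530554908661287361137)), (.negSucc (nat_lit 6530554908661287361137)), (.ofNat (nat_lit 6530554908661287361138)), (.ofNat (nat_lit 0))⟩,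
    ⟨nat_lit 0, nat_lit 18, nat_lit 17, (.ofNat (nat_lit 8)), (.ofNat (nat_lit 164159552)), (.ofNat (nat_lit 11935087925484645836253488164992)), (.negSucc (nat_lit 89120447)), (.ofNat (nat_lit 616244894868015100161319547264)), (.ofNat (nat_lit 164159536)), (.ofNat (nat_lit 164159568)), (.ofNat (nat_lit 6530554908661287361138)), (.negSucc (nat_lit 6530554908661287361137)), (.negSucc (nat_lit 6530554908661287361137)), (.ofNat (nat_lit 6530554908661287361138)), (.ofNat (nat_lit 0))⟩,
    ⟨nat_lit 0, nat_lit 19, nat_lit 18, (.ofNat (nat_lit 8)), (.negSucc (nat_lit 655891967)), (.ofNat (nat_lit 6579696446193495970595482335232)), (.negSucc (nat_lit 90955455)), (.ofNat (nat_lit 604261274366182368563332428160)), (.negSucc (nat_lit 655891983)), (.negSucc (nat_lit 655891951)), (.negSucc (nat_lit 6530554908661287361137)), (.ofNat (nat_lit 6530554908661287361138)), (.negSucc (nat_lit 6530554908661287361137)), (.ofNat (nat_lit 6530554908661287361138)), (.ofNat (nat_lit 0))⟩,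
    ⟨nat_lit 2, nat_lit 19, nat_lit 20, (.ofNat (nat_lit 8)), (.negSucc (nat_lit 835509759)), (.ofNat (nat_lit 7752700299421998082280596502528)), (.negSucc (nat_lit 111845055)), (.ofNat (nat_lit 740681954186153197022560792960)), (.negSucc (nat_lit 835509775)), (.negSucc (nat_lit 835509743)), (.negSucc (nat_lit 6530554908661287361137)), (.ofNat (nat_lit 6530554908661287361138)), (.negSucc (nat_lit 6530554908661287361137)), (.ofNat (nat_lit 6530554908661287361138)), (.ofNat (nat_lit 0))⟩,
    ⟨nat_lit 0, nat_lit 20, nat_lit 21, (.ofNat (nat_lit 8)), (.negSucc (nat_lit 198172479)), (.ofNat (nat_lit 11914866401798831410326667127168)), (.negSucc (nat_lit 110272191)), (.ofNat (nat_lit 750953628902009824106549752192)), (.negSucc (nat_lit 198172495)), (.negSucc (nat_lit 198172463)), (.ofNat (nat_lit 6530554908661287361138)), (.negSucc (nat_lit 6530567340595746070829)), (.negSucc (nat_lit 6530567340595746070829)), (.ofNat (nat_lit 6530554908661287361138)), (.ofNat (nat_lit 0))⟩,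
    ⟨nat_lit 0, nat_lit 22, nat_lit 12, (.ofNat (nat_lit 8)), (.negSucc (nat_lit 95985471)), (.ofNat (nat_lit 8534096136152952132066240486272)), (.negSucc (nat_lit 74931967)), (.ofNat (nat_lit 516738464013668179607567617536)), (.negSucc (nat_lit 95985487)), (.negSucc (nat_lit 95985455)), (.ofNat (nat_lit 6530554908661287361138)), (.negSucc (nat_lit 6530554908661287361137)), (.negSucc (nat_lit 6530554908661287361137)), (.ofNat (nat_lit 6530554908661287361138)), (.ofNat (nat_lit 0))⟩,
    ⟨nat_lit 2, nat_lit 23, nat_lit 7, (.ofNat (nat_lit 8)), (.negSucc (nat_lit 900963647)), (.ofNat (nat_lit 6301506509838921450037954694528)), (.negSucc (nat_lit 103456447)), (.ofNat (nat_lit 675628014319061225490630717824)), (.negSucc (nat_lit 900963663)), (.negSucc (nat_lit 900963631)), (.negSucc (nat_lit 6530554908661287361137)), (.ofNat (nat_lit 6530554908661287361138)), (.negSucc (nat_lit 6530554908661287361137)), (.ofNat (nat_lit 6530554908661287361138)), (.ofNat (nat_lit 0))⟩,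
    ⟨nat_lit 0, nat_lit 12, nat_lit 11, (.ofNat (nat_lit 8)), (.ofNat (nat_lit 170139648)), (.ofNat (nat_lit 6796151427418877993728906899712)), (.negSucc (nat_lit 45129535)), (.ofNat (nat_lit 322112045426023951994792929920)), (.ofNat (nat_lit 170139632)), (.ofNat (nat_lit 170139664)), (.negSucc (nat_lit 6530554908661287361137)), (.ofNat (nat_lit 6530554908661287361138)), (.negSucc (nat_lit 6530554908661287361137)), (.ofNat (nat_lit 6530554908661287361138)), (.ofNat (nat_lit 0))⟩,
    ⟨nat_lit 0, nat_lit 13, nat_lit 24, (.ofNat (nat_lit 8)), (.ofNat (nat_lit 191717248)), (.ofNat (nat_lit 6646673422114156645442173126912)), (.negSucc (nat_lit 42688447)), (.ofNat (nat_lit 302745655121568239094946717568)), (.ofNat (nat_lit 191717232)), (.ofNat (nat_lit 191717264)), (.ofNat (nat_lit 6530541170104241477278)), (.ofNat (nat_lit 6530541170104241477278)), (.ofNat (nat_lit 6530541170104241477278)), (.ofNat (nat_lit 6530541170104241477278)), (.ofNat (nat_lit 0))⟩]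
  es := [
    ⟨nat_lit 1, nat_lit 0, (.negSucc (nat_lit 986225983)), (.negSucc (nat_lit 647126463)), (.negSucc (nat_lit 986225967)), (.negSucc (nat_lit 647126479)), (.negSucc (nat_lit 6530554908661287361137)), (.ofNat (nat_lit 0)), (.ofNat (nat_lit 3423891571952209027996319744))⟩,
    ⟨nat_lit 1, nat_lit 2, (.negSucc (nat_lit 986225983)), (.negSucc (nat_lit 836427263)), (.negSucc (nat_lit 986225967)), (.negSucc (nat_lit 836427279)), (.ofNat (nat_lit 6530554908661287361138)), (.ofNat (nat_lit 0)), (.ofNat (nat_lit 1516458796984816536582083863296))⟩,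
    ⟨nat_lit 2, nat_lit 3, (.negSucc (nat_lit 836427263)), (.negSucc (nat_lit 656809471)), (.negSucc (nat_lit 836427247)), (.negSucc (nat_lit 656809487)), (.negSucc (nat_lit 6530554908661287361137)), (.ofNat (nat_lit 0)), (.ofNat (nat_lit 13695566287808836111985278976))⟩,
    ⟨nat_lit 3, nat_lit 4, (.negSucc (nat_lit 656809471)), (.ofNat (nat_lit 191488064)), (.negSucc (nat_lit 656809455)), (.ofNat (nat_lit 191488048)), (.ofNat (nat_lit 6530554908661287361138)), (.ofNat (nat_lit 0)), (.ofNat (nat_lit 1243617437344874879663627133696))⟩,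
    ⟨nat_lit 5, nat_lit 4, (.negSucc (nat_lit 17293247)), (.ofNat (nat_lit 191488064)), (.negSucc (nat_lit 17293231)), (.ofNat (nat_lit 191488048)), (.negSucc (nat_lit 6530554908661287361137)), (.ofNat (nat_lit 0)), (.ofNat (nat_lit 41086698863426508335955836928))⟩,
    ⟨nat_lit 6, nat_lit 5, (.negSucc (nat_lit 941252095)), (.negSucc (nat_lit 17293247)), (.negSucc (nat_lit 941252079)), (.negSucc (nat_lit 17293263)), (.ofNat (nat_lit 6530554908661287361138)), (.ofNat (nat_lit 0)), (.ofNat (nat_lit 1561825360313183306203035099904))⟩,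
    ⟨nat_lit 6, nat_lit 14, (.negSucc (nat_lit 941252095)), (.negSucc (nat_lit 831053311)), (.negSucc (nat_lit 941252079)), (.negSucc (nat_lit 831053327)), (.negSucc (nat_lit 6530554908661287361137)), (.ofNat (nat_lit 0)), (.ofNat (nat_lit 6847783143904418055992639488))⟩,
    ⟨nat_lit 22, nat_lit 7, (.negSucc (nat_lit 900963647)), (.negSucc (nat_lit 675995135)), (.negSucc (nat_lit 900963631)), (.negSucc (nat_lit 675995151)), (.ofNat (nat_lit 6530554908661287361138)), (.ofNat (nat_lit 0)), (.ofNat (nat_lit 1351256028638122450981261435648))⟩,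
    ⟨nat_lit 7, nat_lit 8, (.negSucc (nat_lit 675995135)), (.ofNat (nat_lit 238337792)), (.negSucc (nat_lit 675995119)), (.ofNat (nat_lit 238337776)), (.negSucc (nat_lit 6530554908661287361137)), (.ofNat (nat_lit 0)), (.ofNat (nat_lit 17119457859761045139981598720))⟩,
    ⟨nat_lit 8, nat_lit 9, (.ofNat (nat_lit 238337792)), (.ofNat (nat_lit 1005501760)), (.ofNat (nat_lit 238337808)), (.ofNat (nat_lit 1005501744)), (.ofNat (nat_lit 6530554908661287361138)), (.ofNat (nat_lit 0)), (.ofNat (nat_lit 0))⟩,
    ⟨nat_lit 10, nat_lit 9, (.ofNat (nat_lit 588848896)), (.ofNat (nat_lit 1005501760)), (.ofNat (nat_lit 588848912)), (.ofNat (nat_lit 1005501744)), (.negSucc (nat_lit 6530554908661287361137)), (.ofNat (nat_lit 0)), (.ofNat (nat_lit 37662807291474299307959517184))⟩,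
    ⟨nat_lit 23, nat_lit 10, (.ofNat (nat_lit 170139648)), (.ofNat (nat_lit 588848896)), (.ofNat (nat_lit 170139664)), (.ofNat (nat_lit 588848880)), (.ofNat (nat_lit 6530554908661287361138)), (.ofNat (nat_lit 0)), (.ofNat (nat_lit 616832958276430231765615301888))⟩,
    ⟨nat_lit 21, nat_lit 23, (.negSucc (nat_lit 95985471)), (.ofNat (nat_lit 170139648)), (.negSucc (nat_lit 95985455)), (.ofNat (nat_lit 170139632)), (.negSucc (nat_lit 6530554908661287361137)), (.ofNat (nat_lit 0)), (.ofNat (nat_lit 27391132575617672223970557952))⟩,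
    ⟨nat_lit 12, nat_lit 24, (.negSucc (nat_lit 141270975)), (.ofNat (nat_lit 191717248)), (.negSucc (nat_lit 141270959)), (.ofNat (nat_lit 191717232)), (.ofNat (nat_lit 6530541170104241477278)), (.ofNat (nat_lit 0)), (.ofNat (nat_lit 581524322273422305977171802112))⟩,
    ⟨nat_lit 13, nat_lit 12, (.negSucc (nat_lit 687693311)), (.negSucc (nat_lit 141270975)), (.negSucc (nat_lit 687693295)), (.negSucc (nat_lit 141270991)), (.negSucc (nat_lit 6530554908661287361137)), (.ofNat (nat_lit 0)), (.ofNat (nat_lit 20543349431713254167977918464))⟩,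
    ⟨nat_lit 14, nat_lit 13, (.negSucc (nat_lit 831053311)), (.negSucc (nat_lit 687693311)), (.negSucc (nat_lit 831053295)), (.negSucc (nat_lit 687693327)), (.ofNat (nat_lit 6530554908661287361138)), (.ofNat (nat_lit 0)), (.ofNat (nat_lit 1392770713948042985445716812544))⟩,
    ⟨nat_lit 15, nat_lit 16, (.negSucc (nat_lit 109649855)), (.ofNat (nat_lit 854236608)), (.negSucc (nat_lit 109649839)), (.ofNat (nat_lit 854236592)), (.ofNat (nat_lit 6530554908661287361138)), (.ofNat (nat_lit 0)), (.ofNat (nat_lit 181572414014062276371147605760))⟩,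
    ⟨nat_lit 17, nat_lit 16, (.ofNat (nat_lit 164159552)), (.ofNat (nat_lit 854236608)), (.ofNat (nat_lit 164159568)), (.ofNat (nat_lit 854236592)), (.negSucc (nat_lit 6530554908661287361137)), (.ofNat (nat_lit 0)), (.ofNat (nat_lit 34238915719522090279963197440))⟩,
    ⟨nat_lit 18, nat_lit 17, (.negSucc (nat_lit 655891967)), (.ofNat (nat_lit 164159552)), (.negSucc (nat_lit 655891951)), (.ofNat (nat_lit 164159536)), (.ofNat (nat_lit 6530554908661287361138)), (.ofNat (nat_lit 0)), (.ofNat (nat_lit 1198250874016508110042675897088))⟩,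
    ⟨nat_lit 19, nat_lit 18, (.negSucc (nat_lit 835509759)), (.negSucc (nat_lit 655891967)), (.negSucc (nat_lit 835509743)), (.negSucc (nat_lit 655891983)), (.negSucc (nat_lit 6530554908661287361137)), (.ofNat (nat_lit 0)), (.ofNat (nat_lit 10271674715856627083988959232))⟩,
    ⟨nat_lit 19, nat_lit 20, (.negSucc (nat_lit 835509759)), (.negSucc (nat_lit 198172479)), (.negSucc (nat_lit 835509743)), (.negSucc (nat_lit 198172495)), (.ofNat (nat_lit 6530554908661287361138)), (.ofNat (nat_lit 0)), (.ofNat (nat_lit 1471092233656449766961132626688))⟩,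
    ⟨nat_lit 20, nat_lit 11, (.negSucc (nat_lit 198172479)), (.ofNat (nat_lit 400121600)), (.negSucc (nat_lit 198172463)), (.ofNat (nat_lit 400121584)), (.negSucc (nat_lit 6530567340595746070829)), (.ofNat (nat_lit 0)), (.ofNat (nat_lit 30813653250906319000738392832))⟩,
    ⟨nat_lit 0, nat_lit 21, (.negSucc (nat_lit 647126463)), (.negSucc (nat_lit 95985471)), (.negSucc (nat_lit 647126447)), (.negSucc (nat_lit 95985487)), (.ofNat (nat_lit 6530554908661287361138)), (.ofNat (nat_lit 0)), (.ofNat (nat_lit 1006085795451718686991164677120))⟩,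
    ⟨nat_lit 22, nat_lit 15, (.negSucc (nat_lit 900963647)), (.negSucc (nat_lit 109649855)), (.negSucc (nat_lit 900963631)), (.negSucc (nat_lit 109649871)), (.negSucc (nat_lit 6530554908661287361137)), (.ofNat (nat_lit 0)), (.ofNat (nat_lit 0))⟩,
    ⟨nat_lit 24, nat_lit 11, (.ofNat (nat_lit 191717248)), (.ofNat (nat_lit 400121600)), (.ofNat (nat_lit 191717264)), (.ofNat (nat_lit 400121584)), (.ofNat (nat_lit 6530541170104241477278)), (.ofNat (nat_lit 0)), (.ofNat (nat_lit 581524322273422305977171802112))⟩]

theorem ok73 : stOK 24 24 S73 = true := by decide +kernel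

def S74 : SD where
  vs := [
    ⟨nat_lit 0, nat_lit 0, nat_lit 22, (.ofNat (nat_lit 8)), (.negSucc (nat_lit 647126463)), (.ofNat (nat_lit 4934839625482900823851580917376)), (.negSucc (nat_lit 76766975)), (.ofNat (nat_lit 504754843511835448009580498432)), (.negSucc (nat_lit 647126479)), (.negSucc (nat_lit 647126447)), (.negSucc (nat_lit 6530554908661287361137)), (.ofNat (nat_lit 6530554908661287361138)), (.negSucc (nat_lit 6530554908661287361137)), (.ofNat (nat_lit 6530554908661287361138)), (.ofNat (nat_lit 0))⟩,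
    ⟨nat_lit 2, nat_lit 0, nat_lit 1, (.ofNat (nat_lit 8)), (.negSucc (nat_lit 986225983)), (.ofNat (nat_lit 7149347660343587210595543371136)), (.negSucc (nat_lit 115842751)), (.ofNat (nat_lit 759941344278384372805040091520)), (.negSucc (nat_lit 986225999)), (.negSucc (nat_lit 986225967)), (.negSucc (nat_lit 6530554908661287361137)), (.ofNat (nat_lit 6530554908661287361138)), (.negSucc (nat_lit 6530554908661287361137)), (.ofNat (nat_lit 6530554908661287361138)), (.ofNat (nat_lit 0))⟩,
    ⟨nat_lit 0, nat_lit 1, nat_lit 2, (.ofNat (nat_lit 8)), (.negSucc (nat_lit 836427263)), (.ofNat (nat_lit 8127616426550764970846193514496)), (.negSucc (nat_lit 115056319)), (.ofNat (nat_lit 765077181636312686347034571136)), (.negSucc (nat_lit 836427279)), (.negSucc (nat_lit 836427247)), (.ofNat (nat_lit 6530554908661287361138)), (.negSucc (nat_lit 6530554908661287361137)), (.negSucc (nat_lit 6530554908661287361137)), (.ofNat (nat_lit 6530554908661287361138)), (.ofNat (nat_lit 0))⟩,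
    ⟨nat_lit 0, nat_lit 2, nat_lit 3, (.ofNat (nat_lit 8)), (.negSucc (nat_lit 656809471)), (.ofNat (nat_lit 6954612573322262859161079347200)), (.negSucc (nat_lit 94166719)), (.ofNat (nat_lit 628656501816341857887806206336)), (.negSucc (nat_lit 656809487)), (.negSucc (nat_lit 656809455)), (.negSucc (nat_lit 6530554908661287361137)), (.ofNat (nat_lit 6530554908661287361138)), (.negSucc (nat_lit 6530554908661287361137)), (.ofNat (nat_lit 6530554908661287361138)), (.ofNat (nat_lit 0))⟩,
    ⟨nat_lit 1, nat_lit 3, nat_lit 4, (.ofNat (nat_lit 8)), (.ofNat (nat_lit 191488064)), (.ofNat (nat_lit 12494466211052337986202386903168)), (.negSucc (nat_lit 92069567)), (.ofNat (nat_lit 642352068104150693999791485312)), (.ofNat (nat_lit 191488048)), (.ofNat (nat_lit 191488080)), (.ofNat (nat_lit 6530554908661287361138)), (.negSucc (nat_lit 6530554908661287361137)), (.negSucc (nat_lit 6530554908661287361137)), (.ofNat (nat_lit 6530554908661287361138)), (.ofNat (nat_lit 0))⟩,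
    ⟨nat_lit 0, nat_lit 5, nat_lit 4, (.ofNat (nat_lit 8)), (.negSucc (nat_lit 17293247)), (.ofNat (nat_lit 13857924032970681725069796356224)), (.negSucc (nat_lit 116432575)), (.ofNat (nat_lit 801456029588304907269495468416)), (.negSucc (nat_lit 17293263)), (.negSucc (nat_lit 17293231)), (.ofNat (nat_lit 6530554908661287361138)), (.negSucc (nat_lit 6530554908661287361137)), (.negSucc (nat_lit 6530554908661287361137)), (.ofNat (nat_lit 6530554908661287361138)), (.ofNat (nat_lit 0))⟩,
    ⟨nat_lit 2, nat_lit 6, nat_lit 5, (.ofNat (nat_lit 8)), (.negSucc (nat_lit 941252095)), (.ofNat (nat_lit 7823960042763253432675769907200)), (.negSucc (nat_lit 119054015)), (.ofNat (nat_lit 784336571728543862129513869696)), (.negSucc (nat_lit 941252111)), (.negSucc (nat_lit 941252079)), (.negSucc (nat_lit 6530554908661287361137)), (.ofNat (nat_lit 6530554908661287361138)), (.negSucc (nat_lit 6530554908661287361137)), (.ofNat (nat_lit 6530554908661287361138)), (.ofNat (nat_lit 0))⟩,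
    ⟨nat_lit 0, nat_lit 7, nat_lit 8, (.ofNat (nat_lit 8)), (.negSucc (nat_lit 675995135)), (.ofNat (nat_lit 7770675730174747179677577181184)), (.negSucc (nat_lit 102145727)), (.ofNat (nat_lit 684187743248941748060621517184)), (.negSucc (nat_lit 675995151)), (.negSucc (nat_lit 675995119)), (.ofNat (nat_lit 6530554908661287361138)), (.negSucc (nat_lit 6530554908661287361137)), (.negSucc (nat_lit 6530554908661287361137)), (.ofNat (nat_lit 6530554908661287361138)), (.ofNat (nat_lit 0))⟩,
    ⟨nat_lit 0, nat_lit 8, nat_lit 9, (.ofNat (nat_lit 8)), (.ofNat (nat_lit 238337792)), (.ofNat (nat_lit 1799574339073699746518876229120)), (.ofNat (nat_lit 1310720)), (.ofNat (nat_lit 8559728929880522569990799360)), (.ofNat (nat_lit 238337776)), (.ofNat (nat_lit 238337808)), (.negSucc (nat_lit 6530554908661287361137)), (.ofNat (nat_lit 6530554908661287361138)), (.negSucc (nat_lit 6530554908661287361137)), (.ofNat (nat_lit 6530554908661287361138)), (.ofNat (nat_lit 0))⟩,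
    ⟨nat_lit 1, nat_lit 9, nat_lit 10, (.ofNat (nat_lit 8)), (.ofNat (nat_lit 1005501760)), (.ofNat (nat_lit 6809580756044170526477753304704)), (.ofNat (nat_lit 2883584)), (.ofNat (nat_lit 18831403645737149653979758592)), (.ofNat (nat_lit 1005501744)), (.ofNat (nat_lit 1005501776)), (.ofNat (nat_lit 6530554908661287361138)), (.negSucc (nat_lit 6530554908661287361137)), (.negSucc (nat_lit 6530554908661287361137)), (.ofNat (nat_lit 6530554908661287361138)), (.ofNat (nat_lit 0))⟩,
    ⟨nat_lit 0, nat_lit 11, nat_lit 10, (.ofNat (nat_lit 8)), (.ofNat (nat_lit 588848896)), (.ofNat (nat_lit 9530555162247154311422903303936)), (.negSucc (nat_lit 44343103)), (.ofNat (nat_lit 327247882783952265536787409536)), (.ofNat (nat_lit 588848880)), (.ofNat (nat_lit 588848912)), (.ofNat (nat_lit 6530554908661287361138)), (.negSucc (nat_lit 6530554908661287361137)), (.negSucc (nat_lit 6530554908661287361137)), (.ofNat (nat_lit 6530554908661287361138)), (.ofNat (nat_lit 0))⟩,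
    ⟨nat_lit 1, nat_lit 13, nat_lit 21, (.ofNat (nat_lit 8)), (.ofNat (nat_lit 400121600)), (.ofNat (nat_lit 8007666622879052862965817440768)), (.negSucc (nat_lit 42164159)), (.ofNat (nat_lit 306169539490559851650585845632)), (.ofNat (nat_lit 400121584)), (.ofNat (nat_lit 400121616)), (.ofNat (nat_lit 6530541170104241477278)), (.negSucc (nat_lit 6530567340595746070829)), (.negSucc (nat_lit 6530567340595746070829)), (.ofNat (nat_lit 6530541170104241477278)), (.ofNat (nat_lit 0))⟩,
    ⟨nat_lit 0, nat_lit 14, nat_lit 13, (.ofNat (nat_lit 8)), (.negSucc (nat_lit 141270975)), (.ofNat (nat_lit 4472080116122263381056235552640)), (.negSucc (nat_lit 42950527)), (.ofNat (nat_lit 301034130891707319488581699328)), (.negSucc (nat_lit 141270991)), (.negSucc (nat_lit 141270959)), (.negSucc (nat_lit 6530554908661287361137)), (.ofNat (nat_lit 6530541170104241477278)), (.negSucc (nat_lit 6530554908661287361137)), (.ofNat (nat_lit 6530541170104241477278)), (.ofNat (nat_lit 0))⟩,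
    ⟨nat_lit 0, nat_lit 15, nat_lit 14, (.ofNat (nat_lit 8)), (.negSucc (nat_lit 687693311)), (.ofNat (nat_lit 8040521184689230653696537131008)), (.negSucc (nat_lit 105062079)), (.ofNat (nat_lit 706657031689878119806847365504)), (.negSucc (nat_lit 687693327)), (.negSucc (nat_lit 687693295)), (.ofNat (nat_lit 6530554908661287361138)), (.negSucc (nat_lit 6530554908661287361137)), (.negSucc (nat_lit 6530554908661287361137)), (.ofNat (nat_lit 6530554908661287361138)), (.ofNat (nat_lit 0))⟩,
    ⟨nat_lit 0, nat_lit 6, nat_lit 15, (.ofNat (nat_lit 8)), (.negSucc (nat_lit 831053311)), (.ofNat (nat_lit 7104300832983548497603793451008)), (.negSucc (nat_lit 106110655)), (.ofNat (nat_lit 699809248545973701750854726016)), (.negSucc (nat_lit 831053327)), (.negSucc (nat_lit 831053295)), (.negSucc (nat_lit 6530554908661287361137)), (.ofNat (nat_lit 6530554908661287361138)), (.negSucc (nat_lit 6530554908661287361137)), (.ofNat (nat_lit 6530554908661287361138)), (.ofNat (nat_lit 0))⟩,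
    ⟨nat_lit 0, nat_lit 23, nat_lit 16, (.ofNat (nat_lit 8)), (.negSucc (nat_lit 109649855)), (.ofNat (nat_lit 1133788341201944504694170479232)), (.negSucc (nat_lit 13901759)), (.ofNat (nat_lit 90786207007031138185573802880)), (.negSucc (nat_lit 109649871)), (.negSucc (nat_lit 109649839)), (.negSucc (nat_lit 6530554908661287361137)), (.ofNat (nat_lit 6530554908661287361138)), (.negSucc (nat_lit 6530554908661287361137)), (.ofNat (nat_lit 6530554908661287361138)), (.ofNat (nat_lit 0))⟩,
    ⟨nat_lit 1, nat_lit 16, nat_lit 17, (.ofNat (nat_lit 8)), (.ofNat (nat_lit 854236608)), (.ofNat (nat_lit 7428501820069315752909368315264)), (.negSucc (nat_lit 11280319)), (.ofNat (nat_lit 107905664866792183325555401600)), (.ofNat (nat_lit 854236592)), (.ofNat (nat_lit 854236624)), (.ofNat (nat_lit 6530554908661287361138)), (.negSucc (nat_lit 6530554908661287361137)), (.negSucc (nat_lit 6530554908661287361137)), (.ofNat (nat_lit 6530554908661287361138)), (.ofNat (nat_lit 0))⟩,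
    ⟨nat_lit 0, nat_lit 18, nat_lit 17, (.ofNat (nat_lit 8)), (.ofNat (nat_lit 164159552)), (.ofNat (nat_lit 11935087925484645836253488164992)), (.negSucc (nat_lit 89120447)), (.ofNat (nat_lit 616244894868015100161319547264)), (.ofNat (nat_lit 164159536)), (.ofNat (nat_lit 164159568)), (.ofNat (nat_lit 6530554908661287361138)), (.negSucc (nat_lit 6530554908661287361137)), (.negSucc (nat_lit 6530554908661287361137)), (.ofNat (nat_lit 6530554908661287361138)), (.ofNat (nat_lit 0))⟩,
    ⟨nat_lit 0, nat_lit 19, nat_lit 18, (.ofNat (nat_lit 8)), (.negSucc (nat_lit 655891967)), (.ofNat (nat_lit 6579696446193495970595482335232)), (.negSucc (nat_lit 90955455)), (.ofNat (nat_lit 604261274366182368563332428160)), (.negSucc (nat_lit 655891983)), (.negSucc (nat_lit 655891951)), (.negSucc (nat_lit 6530554908661287361137)), (.ofNat (nat_lit 6530554908661287361138)), (.negSucc (nat_lit 6530554908661287361137)), (.ofNat (nat_lit 6530554908661287361138)), (.ofNat (nat_lit 0))⟩,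
    ⟨nat_lit 2, nat_lit 19, nat_lit 20, (.ofNat (nat_lit 8)), (.negSucc (nat_lit 835509759)), (.ofNat (nat_lit 7752700299421998082280596502528)), (.negSucc (nat_lit 111845055)), (.ofNat (nat_lit 740681954186153197022560792960)), (.negSucc (nat_lit 835509775)), (.negSucc (nat_lit 835509743)), (.negSucc (nat_lit 6530554908661287361137)), (.ofNat (nat_lit 6530554908661287361138)), (.negSucc (nat_lit 6530554908661287361137)), (.ofNat (nat_lit 6530554908661287361138)), (.ofNat (nat_lit 0))⟩,
    ⟨nat_lit 0, nat_lit 20, nat_lit 21, (.ofNat (nat_lit 8)), (.negSucc (nat_lit 198172479)), (.ofNat (nat_lit 11914866401798831410326667127168)), (.negSucc (nat_lit 110272191)), (.ofNat (nat_lit 750953628902009824106549752192)), (.negSucc (nat_lit 198172495)), (.negSucc (nat_lit 198172463)), (.ofNat (nat_lit 6530554908661287361138)), (.negSucc (nat_lit 6530567340595746070829)), (.negSucc (nat_lit 6530567340595746070829)), (.ofNat (nat_lit 6530554908661287361138)), (.ofNat (nat_lit 0))⟩,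
    ⟨nat_lit 0, nat_lit 22, nat_lit 12, (.ofNat (nat_lit 8)), (.negSucc (nat_lit 95985471)), (.ofNat (nat_lit 8534096136152952132066240486272)), (.negSucc (nat_lit 74931967)), (.ofNat (nat_lit 516738464013668179607567617536)), (.negSucc (nat_lit 95985487)), (.negSucc (nat_lit 95985455)), (.ofNat (nat_lit 6530554908661287361138)), (.negSucc (nat_lit 6530554908661287361137)), (.negSucc (nat_lit 6530554908661287361137)), (.ofNat (nat_lit 6530554908661287361138)), (.ofNat (nat_lit 0))⟩,
    ⟨nat_lit 2, nat_lit 23, nat_lit 7, (.ofNat (nat_lit 8)), (.negSucc (nat_lit 900963647)), (.ofNat (nat_lit 6301506509838921450037954694528)), (.negSucc (nat_lit 103456447)), (.ofNat (nat_lit 675628014319061225490630717824)), (.negSucc (nat_lit 900963663)), (.negSucc (nat_lit 900963631)), (.negSucc (nat_lit 6530554908661287361137)), (.ofNat (nat_lit 6530554908661287361138)), (.negSucc (nat_lit 6530554908661287361137)), (.ofNat (nat_lit 6530554908661287361138)), (.ofNat (nat_lit 0))⟩,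
    ⟨nat_lit 0, nat_lit 12, nat_lit 11, (.ofNat (nat_lit 8)), (.ofNat (nat_lit 170139648)), (.ofNat (nat_lit 6796151427418877993728906899712)), (.negSucc (nat_lit 45129535)), (.ofNat (nat_lit 322112045426023951994792929920)), (.ofNat (nat_lit 170139632)), (.ofNat (nat_lit 170139664)), (.negSucc (nat_lit 6530554908661287361137)), (.ofNat (nat_lit 6530554908661287361138)), (.negSucc (nat_lit 6530554908661287361137)), (.ofNat (nat_lit 6530554908661287361138)), (.ofNat (nat_lit 0))⟩]
  es := [
    ⟨nat_lit 1, nat_lit 0, (.negSucc (nat_lit 986225983)), (.negSucc (nat_lit 647126463)), (.negSucc (nat_lit 986225967)), (.negSucc (nat_lit 647126479)), (.negSucc (nat_lit 6530554908661287361137)), (.ofNat (nat_lit 0)), (.ofNat (nat_lit 3423891571952209027996319744))⟩,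
    ⟨nat_lit 1, nat_lit 2, (.negSucc (nat_lit 986225983)), (.negSucc (nat_lit 836427263)), (.negSucc (nat_lit 986225967)), (.negSucc (nat_lit 836427279)), (.ofNat (nat_lit 6530554908661287361138)), (.ofNat (nat_lit 0)), (.ofNat (nat_lit 1516458796984816536582083863296))⟩,
    ⟨nat_lit 2, nat_lit 3, (.negSucc (nat_lit 836427263)), (.negSucc (nat_lit 656809471)), (.negSucc (nat_lit 836427247)), (.negSucc (nat_lit 656809487)), (.negSucc (nat_lit 6530554908661287361137)), (.ofNat (nat_lit 0)), (.ofNat (nat_lit 13695566287808836111985278976))⟩,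
    ⟨nat_lit 3, nat_lit 4, (.negSucc (nat_lit 656809471)), (.ofNat (nat_lit 191488064)), (.negSucc (nat_lit 656809455)), (.ofNat (nat_lit 191488048)), (.ofNat (nat_lit 6530554908661287361138)), (.ofNat (nat_lit 0)), (.ofNat (nat_lit 1243617437344874879663627133696))⟩,
    ⟨nat_lit 5, nat_lit 4, (.negSucc (nat_lit 17293247)), (.ofNat (nat_lit 191488064)), (.negSucc (nat_lit 17293231)), (.ofNat (nat_lit 191488048)), (.negSucc (nat_lit 6530554908661287361137)), (.ofNat (nat_lit 0)), (.ofNat (nat_lit 41086698863426508335955836928))⟩,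
    ⟨nat_lit 6, nat_lit 5, (.negSucc (nat_lit 941252095)), (.negSucc (nat_lit 17293247)), (.negSucc (nat_lit 941252079)), (.negSucc (nat_lit 17293263)), (.ofNat (nat_lit 6530554908661287361138)), (.ofNat (nat_lit 0)), (.ofNat (nat_lit 1561825360313183306203035099904))⟩,
    ⟨nat_lit 6, nat_lit 14, (.negSucc (nat_lit 941252095)), (.negSucc (nat_lit 831053311)), (.negSucc (nat_lit 941252079)), (.negSucc (nat_lit 831053327)), (.negSucc (nat_lit 6530554908661287361137)), (.ofNat (nat_lit 0)), (.ofNat (nat_lit 6847783143904418055992639488))⟩,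
    ⟨nat_lit 22, nat_lit 7, (.negSucc (nat_lit 900963647)), (.negSucc (nat_lit 675995135)), (.negSucc (nat_lit 900963631)), (.negSucc (nat_lit 675995151)), (.ofNat (nat_lit 6530554908661287361138)), (.ofNat (nat_lit 0)), (.ofNat (nat_lit 1351256028638122450981261435648))⟩,
    ⟨nat_lit 7, nat_lit 8, (.negSucc (nat_lit 675995135)), (.ofNat (nat_lit 238337792)), (.negSucc (nat_lit 675995119)), (.ofNat (nat_lit 238337776)), (.negSucc (nat_lit 6530554908661287361137)), (.ofNat (nat_lit 0)), (.ofNat (nat_lit 17119457859761045139981598720))⟩,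
    ⟨nat_lit 8, nat_lit 9, (.ofNat (nat_lit 238337792)), (.ofNat (nat_lit 1005501760)), (.ofNat (nat_lit 238337808)), (.ofNat (nat_lit 1005501744)), (.ofNat (nat_lit 6530554908661287361138)), (.ofNat (nat_lit 0)), (.ofNat (nat_lit 0))⟩,
    ⟨nat_lit 10, nat_lit 9, (.ofNat (nat_lit 588848896)), (.ofNat (nat_lit 1005501760)), (.ofNat (nat_lit 588848912)), (.ofNat (nat_lit 1005501744)), (.negSucc (nat_lit 6530554908661287361137)), (.ofNat (nat_lit 0)), (.ofNat (nat_lit 37662807291474299307959517184))⟩,
    ⟨nat_lit 23, nat_lit 10, (.ofNat (nat_lit 170139648)), (.ofNat (nat_lit 588848896)), (.ofNat (nat_lit 170139664)), (.ofNat (nat_lit 588848880)), (.ofNat (nat_lit 6530554908661287361138)), (.ofNat (nat_lit 0)), (.ofNat (nat_lit 616832958276430231765615301888))⟩,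
    ⟨nat_lit 21, nat_lit 23, (.negSucc (nat_lit 95985471)), (.ofNat (nat_lit 170139648)), (.negSucc (nat_lit 95985455)), (.ofNat (nat_lit 170139632)), (.negSucc (nat_lit 6530554908661287361137)), (.ofNat (nat_lit 0)), (.ofNat (nat_lit 27391132575617672223970557952))⟩,
    ⟨nat_lit 12, nat_lit 11, (.negSucc (nat_lit 141270975)), (.ofNat (nat_lit 400121600)), (.negSucc (nat_lit 141270959)), (.ofNat (nat_lit 400121584)), (.ofNat (nat_lit 6530541170104241477278)), (.ofNat (nat_lit 0)), (.ofNat (nat_lit 581524322273422305977171802112))⟩,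
    ⟨nat_lit 13, nat_lit 12, (.negSucc (nat_lit 687693311)), (.negSucc (nat_lit 141270975)), (.negSucc (nat_lit 687693295)), (.negSucc (nat_lit 141270991)), (.negSucc (nat_lit 6530554908661287361137)), (.ofNat (nat_lit 0)), (.ofNat (nat_lit 20543349431713254167977918464))⟩,
    ⟨nat_lit 14, nat_lit 13, (.negSucc (nat_lit 831053311)), (.negSucc (nat_lit 687693311)), (.negSucc (nat_lit 831053295)), (.negSucc (nat_lit 687693327)), (.ofNat (nat_lit 6530554908661287361138)), (.ofNat (nat_lit 0)), (.ofNat (nat_lit 1392770713948042985445716812544))⟩,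
    ⟨nat_lit 15, nat_lit 16, (.negSucc (nat_lit 109649855)), (.ofNat (nat_lit 854236608)), (.negSucc (nat_lit 109649839)), (.ofNat (nat_lit 854236592)), (.ofNat (nat_lit 6530554908661287361138)), (.ofNat (nat_lit 0)), (.ofNat (nat_lit 181572414014062276371147605760))⟩,
    ⟨nat_lit 17, nat_lit 16, (.ofNat (nat_lit 164159552)), (.ofNat (nat_lit 854236608)), (.ofNat (nat_lit 164159568)), (.ofNat (nat_lit 854236592)), (.negSucc (nat_lit 6530554908661287361137)), (.ofNat (nat_lit 0)), (.ofNat (nat_lit 34238915719522090279963197440))⟩,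
    ⟨nat_lit 18, nat_lit 17, (.negSucc (nat_lit 655891967)), (.ofNat (nat_lit 164159552)), (.negSucc (nat_lit 655891951)), (.ofNat (nat_lit 164159536)), (.ofNat (nat_lit 6530554908661287361138)), (.ofNat (nat_lit 0)), (.ofNat (nat_lit 1198250874016508110042675897088))⟩,
    ⟨nat_lit 19, nat_lit 18, (.negSucc (nat_lit 835509759)), (.negSucc (nat_lit 655891967)), (.negSucc (nat_lit 835509743)), (.negSucc (nat_lit 655891983)), (.negSucc (nat_lit 6530554908661287361137)), (.ofNat (nat_lit 0)), (.ofNat (nat_lit 10271674715856627083988959232))⟩,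
    ⟨nat_lit 19, nat_lit 20, (.negSucc (nat_lit 835509759)), (.negSucc (nat_lit 198172479)), (.negSucc (nat_lit 835509743)), (.negSucc (nat_lit 198172495)), (.ofNat (nat_lit 6530554908661287361138)), (.ofNat (nat_lit 0)), (.ofNat (nat_lit 1471092233656449766961132626688))⟩,
    ⟨nat_lit 20, nat_lit 11, (.negSucc (nat_lit 198172479)), (.ofNat (nat_lit 400121600)), (.negSucc (nat_lit 198172463)), (.ofNat (nat_lit 400121584)), (.negSucc (nat_lit 6530567340595746070829)), (.ofNat (nat_lit 0)), (.ofNat (nat_lit 30813653250906319000738392832))⟩,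
    ⟨nat_lit 0, nat_lit 21, (.negSucc (nat_lit 647126463)), (.negSucc (nat_lit 95985471)), (.negSucc (nat_lit 647126447)), (.negSucc (nat_lit 95985487)), (.ofNat (nat_lit 6530554908661287361138)), (.ofNat (nat_lit 0)), (.ofNat (nat_lit 1006085795451718686991164677120))⟩,
    ⟨nat_lit 22, nat_lit 15, (.negSucc (nat_lit 900963647)), (.negSucc (nat_lit 109649855)), (.negSucc (nat_lit 900963631)), (.negSucc (nat_lit 109649871)), (.negSucc (nat_lit 6530554908661287361137)), (.ofNat (nat_lit 0)), (.ofNat (nat_lit 0))⟩]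

theorem ok74 : stOK 23 23 S74 = true := by decide +kernel

end LCA.CapJ
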