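import Pool.Agent.LCA.CapJ.D0
import Pool.Agent.LCA.CapJ.D1
import Pool.Agent.LCA.CapJ.D2

set_option maxRecDepth 100000

namespace LCA.CapJ

open LCA

theorem f25 : goOK (.ofNat (nat_lit 1)) S24 S25 = true := by decide +kernel

theorem f26 : goOK (.ofNat (nat_lit 1)) S25 S26 = true := by decide +kernel

theorem f27 : goOK (.ofNat (nat_lit 1)) S26 S27 = true := by decide +kernel

theorem f28 : goOK (.ofNat (nat_lit 1)) S27 S28 = true := by decide +kernel

theorem f29 : goOK (.ofNat (nat_lit 1)) S28 S29 = true := by decide +kernel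

theorem f30 : goOK (.ofNat (nat_lit 1)) S29 S30 = true := by decide +kernel

theorem f31 : goOK (.ofNat (nat_lit 1)) S30 S31 = true := by decide +kernel

theorem f32 : goOK (.ofNat (nat_lit 1)) S31 S32 = true := by decide +kernel

theorem f33 : goOK (.ofNat (nat_lit 1)) S32 S33 = true := by decide +kernel

theorem f34 : goOK (.ofNat (nat_lit 1)) S33 S34 = true := by decide +kernel

theorem f35 : goOK (.ofNat (nat_lit 1)) S34 S35 = true := by decide +kernel

theorem f36 : goOK (.ofNat (nat_lit 1)) S35 S36 = true := by decide +kernel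

theorem f37 : goOK (.ofNat (nat_lit 1)) S36 S37 = true := by decide +kernel

theorem f38 : goOK (.ofNat (nat_lit 1)) S37 S38 = true := by decide +kernel

theorem f39 : goOK (.ofNat (nat_lit 1)) S38 S39 = true := by decide +kernel

theorem f40 : goOK (.ofNat (nat_lit 1)) S39 S40 = true := by decide +kernel

theorem f41 : goOK (.ofNat (nat_lit 1)) S40 S41 = true := by decide +kernel

theorem f42 : goOK (.ofNat (nat_lit 1)) S41 S42 = true := by decide +kernel

theorem f43 : goOK (.ofNat (nat_lit 1)) S42 S43 = true := by decide +kernel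

theorem f44 : goOK (.ofNat (nat_lit 1)) S43 S44 = true := by decide +kernel

theorem f45 : goOK (.ofNat (nat_lit 1)) S44 S45 = true := by decide +kernel

theorem f46 : goOK (.ofNat (nat_lit 1)) S45 S46 = true := by decide +kernel

theorem f47 : goOK (.ofNat (nat_lit 1)) S46 S47 = true := by decide +kernel

theorem f48 : goOK (.ofNat (nat_lit 1)) S47 S48 = true := by decide +kernel

theorem f49 : sdOK 23 23 22 11 22 11 21 12 ⟨(.ofNat (nat_lit 41860992)), (.ofNat (nat_lit 2235819278072489889554723234304)), (.ofNat (nat_lit 6440532662539088786081447936)), (.ofNat (nat_lit 0)), (.ofNat (nat_lit 0)), (.ofNat (nat_lit 3071085292119545357743)), (.ofNat (nat_lit 2097152)), (.ofNat (nat_lit 8))⟩ S48 S49 S50 S51 = true := by decide +kernel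

end LCA.CapJ
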