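import Pool.Agent.LCA.CapJ.D9
import Pool.Agent.LCA.CapJ.D10

set_option maxRecDepth 100000

namespace LCA.CapJ

open LCA

theorem f250 : goOK (.ofNat (nat_lit 32)) S247 S248 = true := by decide +kernel

theorem f251 : inOK 9 9 10 10 [nat_lit 0, nat_lit 1, nat_lit 2, nat_lit 3, nat_lit 4, nat_lit 5, nat_lit 6, nat_lit 7, nat_lit 8, nat_lit 9] [nat_lit 0, nat_lit 1, nat_lit 2, nat_lit 3, nat_lit 4, nat_lit 5, nat_lit 6, nat_lit 7, nat_lit 8, nat_lit 9, nat_lit 0] [nat_lit 0, nat_lit 1, nat_lit 2, nat_lit 3, nat_lit 4, nat_lit 5, nat_lit 6, nat_lit 7, nat_lit 8, nat_lit 9] [nat_lit 0, nat_lit 1, nat_lit 2, nat_lit 3, nat_lit 4, nat_lit 5, nat_lit 6, nat_lit 7, nat_lit 8, nat_lit 9, nat_lit 0] 1 10 10 S248 S249 = true := by decide +kernel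

theorem f252 : inOK 10 10 11 11 [nat_lit 0, nat_lit 1, nat_lit 2, nat_lit 3, nat_lit 4, nat_lit 5, nat_lit 6, nat_lit 7, nat_lit 8, nat_lit 9, nat_lit 10] [nat_lit 0, nat_lit 1, nat_lit 2, nat_lit 3, nat_lit 4, nat_lit 5, nat_lit 6, nat_lit 7, nat_lit 8, nat_lit 9, nat_lit 10, nat_lit 0] [nat_lit 0, nat_lit 1, nat_lit 2, nat_lit 3, nat_lit 4, nat_lit 5, nat_lit 6, nat_lit 7, nat_lit 8, nat_lit 9, nat_lit 10] [nat_lit 0, nat_lit 1, nat_lit 2, nat_lit 3, nat_lit 4, nat_lit 5, nat_lit 6, nat_lit 7, nat_lit 8, nat_lit 9, nat_lit 10, nat_lit 0] 10 11 11 S249 S250 = true := by decide +kernel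

theorem f253 : goOK (.ofNat (nat_lit 32)) S250 S251 = true := by decide +kernel

theorem f254 : goOK (.ofNat (nat_lit 63)) S251 S252 = true := by decide +kernel

theorem f255 : goOK (.ofNat (nat_lit 1)) S252 S253 = true := by decide +kernel

theorem f256 : mvOK (.ofNat (nat_lit 1)) S252 S253 = true := by decide +kernel

theorem f257 : fdS 10 S252 S253 = true := by decide +kernel

theorem f258 : fdOK 11 11 12 12 [nat_lit 0, nat_lit 1, nat_lit 2, nat_lit 3, nat_lit 4, nat_lit 5, nat_lit 6, nat_lit 7, nat_lit 8, nat_lit 9, nat_lit 10, nat_lit 11] [nat_lit 0, nat_lit 1, nat_lit 2, nat_lit 3, nat_lit 4, nat_lit 5, nat_lit 6, nat_lit 7, nat_lit 8, nat_lit 9, nat_lit 10, nat_lit 11, nat_lit 0] [nat_lit 0, nat_lit 1, nat_lit 2, nat_lit 3, nat_lit 4, nat_lit 5, nat_lit 6, nat_lit 7, nat_lit 8, nat_lit 9, nat_lit 10, nat_lit 11] [nat_lit 0, nat_lit 1, nat_lit 2, nat_lit 3, nat_lit 4, nat_lit 5, nat_lit 6, nat_lit 7, nat_lit 8, nat_lit 9, nat_lit 10,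 nat_lit 11, nat_lit 0] 10 12 12 S253 S254 = true := by decide +kernel

theorem f259 : swOK 12 12 S254 S255 = true := by decide +kernel

theorem f260 : goOK (.ofNat (nat_lit 64)) S255 S256 = true := by decide +kernel

theorem f261 : goOK (.ofNat (nat_lit 64)) S256 S257 = true := by decide +kernel

theorem f262 : goOK (.ofNat (nat_lit 64)) S257 S258 = true := by decide +kernel

theorem f263 : goOK (.ofNat (nat_lit 63)) S258 S259 = true := by decide +kernel

theorem f264 : sdOK 12 12 0 12 3 12 4 10 ⟨(.ofNat (nat_lit 288621802291200)), (.ofNat (nat_lit 66161204412857453059501850543062880134838284713984000000)), (.ofNat (nat_lit 3230160495212464697398030115176726753443840000000000)), (.negSucc (nat_lit 441676276631664356580666066232934399999999)), (.negSucc (nat_lit 441676276631664356580666066232934399999999)), (.ofNat (nat_lit 6837094065505640194747152728064000000000)), (.ofNat (nat_lit 214748364800)), (.ofNat (nat_lit 16))⟩ S259 S260 S261 S262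 = true := by decide +kernel

theorem f265 : goOK (.ofNat (nat_lit 63)) S260 S263 = true := by decide +kernel

theorem f266 : goOK (.ofNat (nat_lit 64)) S263 S264 = true := by decide +kernel

theorem f267 : goOK (.ofNat (nat_lit 64)) S264 S265 = true := by decide +kernel

theorem f268 : goOK (.ofNat (nat_lit 32)) S265 S266 = true := by decide +kernel

theorem f269 : inOK 11 11 12 12 [nat_lit 0, nat_lit 1, nat_lit 2, nat_lit 3, nat_lit 4, nat_lit 5, nat_lit 6, nat_lit 7, nat_lit 8, nat_lit 9, nat_lit 10, nat_lit 11] [nat_lit 0, nat_lit 1, nat_lit 2, nat_lit 3, nat_lit 4, nat_lit 5, nat_lit 6, nat_lit 7, nat_lit 8, nat_lit 9, nat_lit 10, nat_lit 11, nat_lit 0] [nat_lit 0, nat_lit 1, nat_lit 2, nat_lit 3, nat_lit 4, nat_lit 5, nat_lit 6, nat_lit 7, nat_lit 8, nat_lit 9, nat_lit 10, nat_lit 11] [nat_lit 0, nat_lit 1, nat_lit 2, nat_lit 3, nat_lit 4, nat_lit 5, nat_lit 6, nat_lit 7, nat_lit 8, nat_lit 9, nat_lit 10, nat_lit 11, nat_lit 0] 4 12 12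 S267 S266 = true := by decide +kernel

theorem f270 : inOK 11 11 12 12 [nat_lit 0, nat_lit 1, nat_lit 2, nat_lit 3, nat_lit 4, nat_lit 5, nat_lit 6, nat_lit 7, nat_lit 8, nat_lit 9, nat_lit 10, nat_lit 11] [nat_lit 0, nat_lit 1, nat_lit 2, nat_lit 3, nat_lit 4, nat_lit 5, nat_lit 6, nat_lit 7, nat_lit 8, nat_lit 9, nat_lit 10, nat_lit 11, nat_lit 0] [nat_lit 0, nat_lit 1, nat_lit 2, nat_lit 3, nat_lit 4, nat_lit 5, nat_lit 6, nat_lit 7, nat_lit 8, nat_lit 9, nat_lit 10, nat_lit 11] [nat_lit 0, nat_lit 1, nat_lit 2, nat_lit 3, nat_lit 4, nat_lit 5, nat_lit 6, nat_lit 7, nat_lit 8, nat_lit 9, nat_lit 10, nat_lit 11, nat_lit 0] 4 12 12 S267 S268 = true := by decide +kernel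

theorem f271 : goOK (.ofNat (nat_lit 32)) S268 S269 = true := by decide +kernel

theorem f272 : goOK (.ofNat (nat_lit 64)) S269 S270 = true := by decide +kernel

theorem f273 : goOK (.ofNat (nat_lit 64)) S270 S271 = true := by decide +kernel

theorem f274 : goOK (.ofNat (nat_lit 64)) S271 S272 = true := by decide +kernel

end LCA.CapJ
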