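import Pool.Agent.LCA.CapJ.D10
import Pool.Agent.LCA.CapJ.D11
import Pool.Agent.LCA.CapJ.D12

set_option maxRecDepth 100000

namespace LCA.CapJ

open LCA

theorem f275 : goOK (.ofNat (nat_lit 64)) S272 S273 = true := by decide +kernel

theorem f276 : goOK (.ofNat (nat_lit 63)) S273 S274 = true := by decide +kernel

theorem f277 : sdOK 12 12 2 7 5 6 11 9 ⟨(.ofNat (nat_lit 1102260406845440)), (.negSucc (nat_lit 38970535573868525222648435794674483988884426326015999999)), (.negSucc (nat_lit 25371442435123359077744527450115381045231615999999999)), (.ofNat (nat_lit 590724927259687312826153995704729600000000)), (.ofNat (nat_lit 590724927259687312826153995704729600000000)), (.ofNat (nat_lit 590724927259687312826153995704729600000000)), (.ofNat (nat_lit 42949672960)), (.ofNat (nat_lit 16))⟩ S274 S275 S276 S277 = true := by decide +kernel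

theorem f278 : goOK (.ofNat (nat_lit 63)) S275 S278 = true := by decide +kernel

theorem f279 : goOK (.ofNat (nat_lit 64)) S278 S279 = true := by decide +kernel

theorem f280 : goOK (.ofNat (nat_lit 64)) S279 S280 = true := by decide +kernel

theorem f281 : swOK 12 3 S280 S281 = true := by decide +kernel

theorem f282 : goOK (.ofNat (nat_lit 63)) S281 S282 = true := by decide +kernel

theorem f283 : sdOK 12 12 10 3 1 3 12 2 ⟨(.negSucc (nat_lit 2748779069439)), (.ofNat (nat_lit 120279437284502097135725017355140140065026473984000000)), (.ofNat (nat_lit 9631751294815349279514126161617876137541632000000000)), (.negSucc (nat_lit 224256685348584998387706609480499199999999)), (.negSucc (nat_lit 224256685348584998387706609480499199999999)), (.ofNat (nat_lit 224256685348584998387706609480499200000000)), (.ofNat (nat_lit 42949672960)), (.ofNat (nat_lit 16))⟩ S282 S283 S284 S285 = true := by decide +kernel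

theorem f284 : goOK (.ofNat (nat_lit 63)) S283 S286 = true := by decide +kernel

theorem f285 : goOK (.ofNat (nat_lit 64)) S286 S287 = true := by decide +kernel

theorem f286 : goOK (.ofNat (nat_lit 1)) S287 S288 = true := by decide +kernel

theorem f287 : inOK 11 11 12 12 [nat_lit 0, nat_lit 1, nat_lit 3, nat_lit 4, nat_lit 5, nat_lit 6, nat_lit 7, nat_lit 8, nat_lit 9, nat_lit 10, nat_lit 11, nat_lit 12] [nat_lit 0, nat_lit 1, nat_lit 0, nat_lit 2, nat_lit 3, nat_lit 4, nat_lit 5, nat_lit 6, nat_lit 7, nat_lit 8, nat_lit 9, nat_lit 10, nat_lit 11] [nat_lit 0, nat_lit 1, nat_lit 2, nat_lit 3, nat_lit 4, nat_lit 5, nat_lit 6, nat_lit 7, nat_lit 8, nat_lit 9, nat_lit 11, nat_lit 12] [nat_lit 0, nat_lit 1, nat_lit 2, nat_lit 3, nat_lit 4, nat_lit 5, nat_lit 6, nat_lit 7, nat_lit 8, nat_lit 9, nat_lit 0, nat_lit 10, nat_lit 11] 1 2 10 S289 S288 = true := by decide +kernel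

theorem f288 : inOK 10 10 11 11 [nat_lit 0, nat_lit 1, nat_lit 2, nat_lit 3, nat_lit 5, nat_lit 6, nat_lit 7, nat_lit 8, nat_lit 9, nat_lit 10, nat_lit 11] [nat_lit 0, nat_lit 1, nat_lit 2, nat_lit 3, nat_lit 0, nat_lit 4, nat_lit 5, nat_lit 6, nat_lit 7, nat_lit 8, nat_lit 9, nat_lit 10] [nat_lit 0, nat_lit 1, nat_lit 2, nat_lit 3, nat_lit 4, nat_lit 6, nat_lit 7, nat_lit 8, nat_lit 9, nat_lit 10, nat_lit 11] [nat_lit 0, nat_lit 1, nat_lit 2, nat_lit 3, nat_lit 4, nat_lit 0, nat_lit 5, nat_lit 6, nat_lit 7, nat_lit 8, nat_lit 9, nat_lit 10] 1 4 5 S290 S289 = true := by decide +kernel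

theorem f289 : inOK 9 9 10 10 [nat_lit 0, nat_lit 1, nat_lit 2, nat_lit 3, nat_lit 4, nat_lit 5, nat_lit 6, nat_lit 8, nat_lit 9, nat_lit 10] [nat_lit 0, nat_lit 1, nat_lit 2, nat_lit 3, nat_lit 4, nat_lit 5, nat_lit 6, nat_lit 0, nat_lit 7, nat_lit 8, nat_lit 9] [nat_lit 0, nat_lit 1, nat_lit 3, nat_lit 4, nat_lit 5, nat_lit 6, nat_lit 7, nat_lit 8, nat_lit 9, nat_lit 10] [nat_lit 0, nat_lit 1, nat_lit 0, nat_lit 2, nat_lit 3, nat_lit 4, nat_lit 5, nat_lit 6, nat_lit 7, nat_lit 8, nat_lit 9] 1 7 2 S291 S290 = true := by decide +kernel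

theorem f290 : inOK 9 9 10 10 [nat_lit 0, nat_lit 1, nat_lit 2, nat_lit 3, nat_lit 4, nat_lit 5, nat_lit 6, nat_lit 7, nat_lit 8, nat_lit 9] [nat_lit 0, nat_lit 1, nat_lit 2, nat_lit 3, nat_lit 4, nat_lit 5, nat_lit 6, nat_lit 7, nat_lit 8, nat_lit 9, nat_lit 0] [nat_lit 0, nat_lit 1, nat_lit 2, nat_lit 3, nat_lit 4, nat_lit 5, nat_lit 6, nat_lit 7, nat_lit 8, nat_lit 9] [nat_lit 0, nat_lit 1, nat_lit 2, nat_lit 3, nat_lit 4, nat_lit 5, nat_lit 6, nat_lit 7, nat_lit 8, nat_lit 9, nat_lit 0] 8 10 10 S291 S292 = true := by decide +kernel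

theorem f291 : inOK 10 10 11 11 [nat_lit 0, nat_lit 1, nat_lit 2, nat_lit 3, nat_lit 4, nat_lit 5, nat_lit 6, nat_lit 7, nat_lit 8, nat_lit 9, nat_lit 10] [nat_lit 0, nat_lit 1, nat_lit 2, nat_lit 3, nat_lit 4, nat_lit 5, nat_lit 6, nat_lit 7, nat_lit 8, nat_lit 9, nat_lit 10, nat_lit 0] [nat_lit 0, nat_lit 1, nat_lit 2, nat_lit 3, nat_lit 4, nat_lit 5, nat_lit 6, nat_lit 7, nat_lit 8, nat_lit 9, nat_lit 10] [nat_lit 0, nat_lit 1, nat_lit 2, nat_lit 3, nat_lit 4, nat_lit 5, nat_lit 6, nat_lit 7, nat_lit 8, nat_lit 9, nat_lit 10, nat_lit 0] 1 11 11 S292 S293 = true := by decide +kernel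

theorem f292 : goOK (.ofNat (nat_lit 63)) S293 S294 = true := by decide +kernel

theorem f293 : goOK (.ofNat (nat_lit 64)) S294 S295 = true := by decide +kernel

theorem f294 : goOK (.ofNat (nat_lit 64)) S295 S296 = true := by decide +kernel

theorem f295 : goOK (.ofNat (nat_lit 1)) S296 S297 = true := by decide +kernel

theorem f296 : inOK 10 10 11 11 [nat_lit 0, nat_lit 1, nat_lit 2, nat_lit 4, nat_lit 5, nat_lit 6, nat_lit 7, nat_lit 8, nat_lit 9, nat_lit 10, nat_lit 11] [nat_lit 0, nat_lit 1, nat_lit 2, nat_lit 0, nat_lit 3, nat_lit 4, nat_lit 5, nat_lit 6, nat_lit 7, nat_lit 8, nat_lit 9, nat_lit 10] [nat_lit 0, nat_lit 1, nat_lit 2, nat_lit 4, nat_lit 5, nat_lit 6, nat_lit 7, nat_lit 8, nat_lit 9, nat_lit 10, nat_lit 11] [nat_lit 0, nat_lit 1, nat_lit 2, nat_lit 0, nat_lit 3, nat_lit 4, nat_lit 5, nat_lit 6, nat_lit 7, nat_lit 8, nat_lit 9, nat_lit 10] 0 3 3 S298 S297 = true := by decide +kernel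

theorem f297 : inOK 9 9 10 10 [nat_lit 0, nat_lit 1, nat_lit 2, nat_lit 3, nat_lit 4, nat_lit 5, nat_lit 6, nat_lit 7, nat_lit 9, nat_lit 10] [nat_lit 0, nat_lit 1, nat_lit 2, nat_lit 3, nat_lit 4, nat_lit 5, nat_lit 6, nat_lit 7, nat_lit 0, nat_lit 8, nat_lit 9] [nat_lit 0, nat_lit 1, nat_lit 2, nat_lit 3, nat_lit 4, nat_lit 5, nat_lit 6, nat_lit 7, nat_lit 9, nat_lit 10] [nat_lit 0, nat_lit 1, nat_lit 2, nat_lit 3, nat_lit 4, nat_lit 5, nat_lit 6, nat_lit 7, nat_lit 0, nat_lit 8, nat_lit 9] 0 8 8 S299 S298 = true := by decide +kernel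

theorem f298 : inOK 8 8 9 9 [nat_lit 0, nat_lit 1, nat_lit 3, nat_lit 4, nat_lit 5, nat_lit 6, nat_lit 7, nat_lit 8, nat_lit 9] [nat_lit 0, nat_lit 1, nat_lit 0, nat_lit 2, nat_lit 3, nat_lit 4, nat_lit 5, nat_lit 6, nat_lit 7, nat_lit 8] [nat_lit 0, nat_lit 1, nat_lit 3, nat_lit 4, nat_lit 5, nat_lit 6, nat_lit 7, nat_lit 8, nat_lit 9] [nat_lit 0, nat_lit 1, nat_lit 0, nat_lit 2, nat_lit 3, nat_lit 4, nat_lit 5, nat_lit 6, nat_lit 7, nat_lit 8] 0 2 2 S300 S299 = true := by decide +kernel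

theorem f299 : inOK 7 7 8 8 [nat_lit 0, nat_lit 1, nat_lit 2, nat_lit 3, nat_lit 4, nat_lit 6, nat_lit 7, nat_lit 8] [nat_lit 0, nat_lit 1, nat_lit 2, nat_lit 3, nat_lit 4, nat_lit 0, nat_lit 5, nat_lit 6, nat_lit 7] [nat_lit 1, nat_lit 2, nat_lit 3, nat_lit 4, nat_lit 5, nat_lit 6, nat_lit 7, nat_lit 8] [nat_lit 0, nat_lit 0, nat_lit 1, nat_lit 2, nat_lit 3, nat_lit 4, nat_lit 5, nat_lit 6, nat_lit 7] 0 5 0 S301 S300 = true := by decide +kernel

end LCA.CapJ
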