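import Pool.Agent.LCA.CapJ.D12

set_option maxRecDepth 100000

namespace LCA.CapJ

open LCA

theorem f300 : inOK 6 6 7 7 [nat_lit 0, nat_lit 1, nat_lit 2, nat_lit 3, nat_lit 4, nat_lit 6, nat_lit 7] [nat_lit 0, nat_lit 1, nat_lit 2, nat_lit 3, nat_lit 4, nat_lit 0, nat_lit 5, nat_lit 6] [nat_lit 0, nat_lit 1, nat_lit 2, nat_lit 3, nat_lit 4, nat_lit 6, nat_lit 7] [nat_lit 0, nat_lit 1, nat_lit 2, nat_lit 3, nat_lit 4, nat_lit 0, nat_lit 5, nat_lit 6] 0 5 5 S302 S301 = true := by decide +kernel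

theorem f301 : inOK 5 5 6 6 [nat_lit 0, nat_lit 1, nat_lit 3, nat_lit 4, nat_lit 5, nat_lit 6] [nat_lit 0, nat_lit 1, nat_lit 0, nat_lit 2, nat_lit 3, nat_lit 4, nat_lit 5] [nat_lit 0, nat_lit 1, nat_lit 3, nat_lit 4, nat_lit 5, nat_lit 6] [nat_lit 0, nat_lit 1, nat_lit 0, nat_lit 2, nat_lit 3, nat_lit 4, nat_lit 5] 4 2 2 S303 S302 = true := by decide +kernel

theorem f302 : inOK 4 4 5 5 [nat_lit 0, nat_lit 1, nat_lit 3, nat_lit 4, nat_lit 5] [nat_lit 0, nat_lit 1, nat_lit 0, nat_lit 2, nat_lit 3, nat_lit 4] [nat_lit 0, nat_lit 1, nat_lit 3, nat_lit 4, nat_lit 5] [nat_lit 0, nat_lit 1, nat_lit 0, nat_lit 2, nat_lit 3, nat_lit 4] 3 2 2 S304 S303 = true := by decide +kernel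

theorem f303 : inOK 3 3 4 4 [nat_lit 0, nat_lit 1, nat_lit 3, nat_lit 4] [nat_lit 0, nat_lit 1, nat_lit 0, nat_lit 2, nat_lit 3] [nat_lit 0, nat_lit 1, nat_lit 3, nat_lit 4] [nat_lit 0, nat_lit 1, nat_lit 0, nat_lit 2, nat_lit 3] 2 2 2 S305 S304 = true := by decide +kernel

theorem f304 : swOK 3 1 S305 S306 = true := by decide +kernel

theorem f305 : goOK (.ofNat (nat_lit 63)) S306 S307 = true := by decide +kernel

theorem f306 : goOK (.ofNat (nat_lit 63)) S307 S308 = true := by decide +kernel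

theorem f307 : dtOK 0 1 2 3 0 3 1 2 ⟨(.ofNat (nat_lit 681044374192128)), (.ofNat (nat_lit 120279437284502097135725017355140140065026473984000000)), (.ofNat (nat_lit 0)), (.ofNat (nat_lit 0)), (.ofNat (nat_lit 0)), (.ofNat (nat_lit 143410820386318578954390460170240000000000)), (.ofNat (nat_lit 19231252938752)), (.ofNat (nat_lit 16))⟩ S308 = true := by decide +kernel

end LCA.CapJ
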