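import Pool.Agent.LCA.Chk2

set_option maxRecDepth 100000

namespace LCA.CapJ

open LCA

def S75 : SD where
  vs := [
    ⟨nat_lit 0, nat_lit 0, nat_lit 22, (.ofNat (nat_lit 8)), (.negSucc (nat_lit 647126463)), (.ofNat (nat_lit 5011946494631071149223671514560)), (.ofNat (nat_lit 0)), (.ofNat (nat_lit 77106869148170325372090597184)), (.negSucc (nat_lit 647126479)), (.negSucc (nat_lit 647126447)), (.negSucc (nat_lit 6632594829109119976154)), (.ofNat (nat_lit 6632594829109119976155)), (.negSucc (nat_lit 6632594829109119976154)), (.ofNat (nat_lit 6632594829109119976155)), (.ofNat (nat_lit 612239522686995690102))⟩,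
    ⟨nat_lit 2, nat_lit 0, nat_lit 1, (.ofNat (nat_lit 8)), (.negSucc (nat_lit 986225983)), (.ofNat (nat_lit 7261056217536455760760243460160)), (.ofNat (nat_lit 0)), (.ofNat (nat_lit 111708557192868550164700089024)), (.negSucc (nat_lit 986225999)), (.negSucc (nat_lit 986225967)), (.negSucc (nat_lit 6632594829109119976154)), (.ofNat (nat_lit 6632594829109119976155)), (.negSucc (nat_lit 6632594829109119976154)), (.ofNat (nat_lit 6632594829109119976155)), (.ofNat (nat_lit 612239522686995690102))⟩,
    ⟨nat_lit 0, nat_lit 1, nat_lit 2, (.ofNat (nat_lit 8)), (.negSucc (nat_lit 836427263)), (.ofNat (nat_lit 8254610433215620673514692981760)), (.ofNat (nat_lit 0)), (.ofNat (nat_lit 126994006664855702668499467264)), (.negSucc (nat_lit 836427279)), (.negSucc (nat_lit 836427247)), (.ofNat (nat_lit 6632594829109119976155)), (.negSucc (nat_lit 6632594829109119976154)), (.negSucc (nat_lit 6632594829109119976154)), (.ofNat (nat_lit 6632594829109119976155)), (.ofNat (nat_lit 612239522686995690102))⟩,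
    ⟨nat_lit 0, nat_lit 2, nat_lit 3, (.ofNat (nat_lit 8)), (.negSucc (nat_lit 656809471)), (.ofNat (nat_lit 7063278394780423216334639232000)), (.ofNat (nat_lit 0)), (.ofNat (nat_lit 108665821458160357173559884800)), (.negSucc (nat_lit 656809487)), (.negSucc (nat_lit 656809455)), (.negSucc (nat_lit 6632594829109119976154)), (.ofNat (nat_lit 6632594829109119976155)), (.negSucc (nat_lit 6632594829109119976154)), (.ofNat (nat_lit 6632594829109119976155)), (.ofNat (nat_lit 612239522686995690102))⟩,
    ⟨nat_lit 1, nat_lit 3, nat_lit 4, (.ofNat (nat_lit 8)), (.ofNat (nat_lit 191488064)), (.ofNat (nat_lit 12689692245600030767235304486080)), (.ofNat (nat_lit 0)), (.ofNat (nat_lit 195226034547692781032917582912)), (.ofNat (nat_lit 191488048)), (.ofNat (nat_lit 191488080)), (.ofNat (nat_lit 6632594829109119976155)), (.negSucc (nat_lit 6632594829109119976154)), (.negSucc (nat_lit 6632594829109119976154)), (.ofNat (nat_lit 6632594829109119976155)), (.ofNat (nat_lit 612239522686995690102))⟩,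
    ⟨nat_lit 0, nat_lit 5, nat_lit 4, (.ofNat (nat_lit 8)), (.negSucc (nat_lit 17293247)), (.ofNat (nat_lit 14074454095985848627022354101440)), (.ofNat (nat_lit 0)), (.ofNat (nat_lit 216530063015166901952557745216)), (.negSucc (nat_lit 17293263)), (.negSucc (nat_lit 17293231)), (.ofNat (nat_lit 6632594829109119976155)), (.negSucc (nat_lit 6632594829109119976154)), (.negSucc (nat_lit 6632594829109119976154)), (.ofNat (nat_lit 6632594829109119976155)), (.ofNat (nat_lit 612239522686995690102))⟩,
    ⟨nat_lit 2, nat_lit 6, nat_lit 5, (.ofNat (nat_lit 8)), (.negSucc (nat_lit 941252095)), (.ofNat (nat_lit 7946209418431429267560392832000)), (.ofNat (nat_lit 0)), (.ofNat (nat_lit 122249375668175834884622924800)), (.negSucc (nat_lit 941252111)), (.negSucc (nat_lit 941252079)), (.negSucc (nat_lit 6632594829109119976154)), (.ofNat (nat_lit 6632594829109119976155)), (.negSucc (nat_lit 6632594829109119976154)), (.ofNat (nat_lit 6632594829109119976155)), (.ofNat (nat_lit 612239522686995690102))⟩,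
    ⟨nat_lit 0, nat_lit 7, nat_lit 8, (.ofNat (nat_lit 8)), (.negSucc (nat_lit 675995135)), (.ofNat (nat_lit 7892092538458727604359109719040)), (.ofNat (nat_lit 0)), (.ofNat (nat_lit 121416808283980424681532537856)), (.negSucc (nat_lit 675995151)), (.negSucc (nat_lit 675995119)), (.ofNat (nat_lit 6632594829109119976155)), (.negSucc (nat_lit 6632594829109119976154)), (.negSucc (nat_lit 6632594829109119976154)), (.ofNat (nat_lit 6632594829109119976155)), (.ofNat (nat_lit 612239522686995690102))⟩,
    ⟨nat_lit 0, nat_lit 8, nat_lit 9, (.ofNat (nat_lit 8)), (.ofNat (nat_lit 238337792)), (.ofNat (nat_lit 1827692688121726305058018387200)), (.ofNat (nat_lit 0)), (.ofNat (nat_lit 28118349048026558539142158080)), (.ofNat (nat_lit 238337776)), (.ofNat (nat_lit 238337808)), (.negSucc (nat_lit 6632594829109119976154)), (.ofNat (nat_lit 6632594829109119976155)), (.negSucc (nat_lit 6632594829109119976154)), (.ofNat (nat_lit 6632594829109119976155)), (.ofNat (nat_lit 612239522686995690102))⟩,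
    ⟨nat_lit 1, nat_lit 9, nat_lit 10, (.ofNat (nat_lit 8)), (.ofNat (nat_lit 1005501760)), (.ofNat (nat_lit 6915980455357360690953153570240)), (.ofNat (nat_lit 0)), (.ofNat (nat_lit 106399699313190164475400265536)), (.ofNat (nat_lit 1005501744)), (.ofNat (nat_lit 1005501776)), (.ofNat (nat_lit 6632594829109119976155)), (.negSucc (nat_lit 6632594829109119976154)), (.negSucc (nat_lit 6632594829109119976154)), (.ofNat (nat_lit 6632594829109119976155)), (.ofNat (nat_lit 612239522686995690102))⟩,
    ⟨nat_lit 0, nat_lit 11, nat_lit 10, (.ofNat (nat_lit 8)), (.ofNat (nat_lit 588848896)), (.ofNat (nat_lit 9679470086657266097537746028160)), (.ofNat (nat_lit 0)), (.ofNat (nat_lit 148914924410111786114842724224)), (.ofNat (nat_lit 588848880)), (.ofNat (nat_lit 588848912)), (.ofNat (nat_lit 6632594829109119976155)), (.negSucc (nat_lit 6632594829109119976154)), (.negSucc (nat_lit 6632594829109119976154)), (.ofNat (nat_lit 6632594829109119976155)), (.ofNat (nat_lit 612239522686995690102))⟩,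
    ⟨nat_lit 1, nat_lit 13, nat_lit 21, (.ofNat (nat_lit 8)), (.ofNat (nat_lit 400121600)), (.ofNat (nat_lit 8132793968032339995368318263680)), (.ofNat (nat_lit 0)), (.ofNat (nat_lit 125127345153287132402500822912)), (.ofNat (nat_lit 400121584)), (.ofNat (nat_lit 400121616)), (.ofNat (nat_lit 6632594829109119976155)), (.negSucc (nat_lit 6632594829109119976154)), (.negSucc (nat_lit 6632594829109119976154)), (.ofNat (nat_lit 6632594829109119976155)), (.ofNat (nat_lit 612269613046261806158))⟩,
    ⟨nat_lit 0, nat_lit 14, nat_lit 13, (.ofNat (nat_lit 8)), (.negSucc (nat_lit 141270975)), (.ofNat (nat_lit 4541956367936673746384704238400)), (.ofNat (nat_lit 0)), (.ofNat (nat_lit 69876251814410365328468685760)), (.negSucc (nat_lit 141270991)), (.negSucc (nat_lit 141270959)), (.negSucc (nat_lit 6632594829109119976154)), (.ofNat (nat_lit 6632594829109119976155)), (.negSucc (nat_lit 6632594829109119976154)), (.ofNat (nat_lit 6632594829109119976155)), (.ofNat (nat_lit 612266999801087457822))⟩,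
    ⟨nat_lit 0, nat_lit 15, nat_lit 14, (.ofNat (nat_lit 8)), (.negSucc (nat_lit 687693311)), (.ofNat (nat_lit 8166154328199999882659583636480)), (.ofNat (nat_lit 0)), (.ofNat (nat_lit 125633143510769228963046505472)), (.negSucc (nat_lit 687693327)), (.negSucc (nat_lit 687693295)), (.ofNat (nat_lit 6632594829109119976155)), (.negSucc (nat_lit 6632594829109119976154)), (.negSucc (nat_lit 6632594829109119976154)), (.ofNat (nat_lit 6632594829109119976155)), (.ofNat (nat_lit 612239522686995690102))⟩,
    ⟨nat_lit 0, nat_lit 6, nat_lit 15, (.ofNat (nat_lit 8)), (.negSucc (nat_lit 831053311)), (.ofNat (nat_lit 7215305533498916442878002836480)), (.ofNat (nat_lit 0)), (.ofNat (nat_lit 111004700515367945274209385472)), (.negSucc (nat_lit 831053327)), (.negSucc (nat_lit 831053295)), (.negSucc (nat_lit 6632594829109119976154)), (.ofNat (nat_lit 6632594829109119976155)), (.negSucc (nat_lit 6632594829109119976154)), (.ofNat (nat_lit 6632594829109119976155)), (.ofNat (nat_lit 612239522686995690102))⟩,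
    ⟨nat_lit 0, nat_lit 23, nat_lit 16, (.ofNat (nat_lit 8)), (.negSucc (nat_lit 109649855)), (.ofNat (nat_lit 1151503784033224887579881257920)), (.ofNat (nat_lit 0)), (.ofNat (nat_lit 17715442831280382885710778688)), (.negSucc (nat_lit 109649871)), (.negSucc (nat_lit 109649839)), (.negSucc (nat_lit 6632594829109119976154)), (.ofNat (nat_lit 6632594829109119976155)), (.negSucc (nat_lit 6632594829109119976154)), (.ofNat (nat_lit 6632594829109119976155)), (.ofNat (nat_lit 612239522686995690102))⟩,
    ⟨nat_lit 1, nat_lit 16, nat_lit 17, (.ofNat (nat_lit 8)), (.ofNat (nat_lit 854236608)), (.ofNat (nat_lit 7544572161007898811547688523840)), (.ofNat (nat_lit 0)), (.ofNat (nat_lit 116070340938583058638320208576)), (.ofNat (nat_lit 854236592)), (.ofNat (nat_lit 854236624)), (.ofNat (nat_lit 6632594829109119976155)), (.negSucc (nat_lit 6632594829109119976154)), (.negSucc (nat_lit 6632594829109119976154)), (.ofNat (nat_lit 6632594829109119976155)), (.ofNat (nat_lit 612239522686995690102))⟩,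
    ⟨nat_lit 0, nat_lit 18, nat_lit 17, (.ofNat (nat_lit 8)), (.ofNat (nat_lit 164159552)), (.ofNat (nat_lit 12121573674320343427443521123520)), (.ofNat (nat_lit 0)), (.ofNat (nat_lit 186485748835697591190032958528)), (.ofNat (nat_lit 164159536)), (.ofNat (nat_lit 164159568)), (.ofNat (nat_lit 6632594829109119976155)), (.negSucc (nat_lit 6632594829109119976154)), (.negSucc (nat_lit 6632594829109119976154)), (.ofNat (nat_lit 6632594829109119976155)), (.ofNat (nat_lit 612239522686995690102))⟩,
    ⟨nat_lit 0, nat_lit 19, nat_lit 18, (.ofNat (nat_lit 8)), (.negSucc (nat_lit 655891967)), (.ofNat (nat_lit 6682504203165269345135249617920)), (.ofNat (nat_lit 0)), (.ofNat (nat_lit 102807756971773374539767282688)), (.negSucc (nat_lit 655891983)), (.negSucc (nat_lit 655891951)), (.negSucc (nat_lit 6632594829109119976154)), (.ofNat (nat_lit 6632594829109119976155)), (.negSucc (nat_lit 6632594829109119976154)), (.ofNat (nat_lit 6632594829109119976155)), (.ofNat (nat_lit 612239522686995690102))⟩,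
    ⟨nat_lit 2, nat_lit 19, nat_lit 20, (.ofNat (nat_lit 8)), (.negSucc (nat_lit 835509759)), (.ofNat (nat_lit 7873836241600466802315303367680)), (.ofNat (nat_lit 0)), (.ofNat (nat_lit 121135942178468720034706865152)), (.negSucc (nat_lit 835509775)), (.negSucc (nat_lit 835509743)), (.negSucc (nat_lit 6632594829109119976154)), (.ofNat (nat_lit 6632594829109119976155)), (.negSucc (nat_lit 6632594829109119976154)), (.ofNat (nat_lit 6632594829109119976155)), (.ofNat (nat_lit 612239522686995690102))⟩,
    ⟨nat_lit 0, nat_lit 20, nat_lit 21, (.ofNat (nat_lit 8)), (.negSucc (nat_lit 198172479)), (.ofNat (nat_lit 12101036189326938151111595926080)), (.ofNat (nat_lit 0)), (.ofNat (nat_lit 186169787528106740784928798912)), (.negSucc (nat_lit 198172495)), (.negSucc (nat_lit 198172463)), (.ofNat (nat_lit 6632594829109119976155)), (.negSucc (nat_lit 6632594829109119976154)), (.negSucc (nat_lit 6632594829109119976154)), (.ofNat (nat_lit 6632594829109119976155)), (.ofNat (nat_lit 612214658818078270718))⟩,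
    ⟨nat_lit 0, nat_lit 22, nat_lit 12, (.ofNat (nat_lit 8)), (.negSucc (nat_lit 95985471)), (.ofNat (nat_lit 8667441388280342009128754560320)), (.ofNat (nat_lit 0)), (.ofNat (nat_lit 133345252127389877062514074048)), (.negSucc (nat_lit 95985487)), (.negSucc (nat_lit 95985455)), (.ofNat (nat_lit 6632594829109119976155)), (.negSucc (nat_lit 6632594829109119976154)), (.negSucc (nat_lit 6632594829109119976154)), (.ofNat (nat_lit 6632594829109119976155)), (.ofNat (nat_lit 612239522686995690102))⟩,
    ⟨nat_lit 2, nat_lit 23, nat_lit 7, (.ofNat (nat_lit 8)), (.negSucc (nat_lit 900963647)), (.ofNat (nat_lit 6399967549055154597694043887680)), (.ofNat (nat_lit 0)), (.ofNat (nat_lit 98461039216233147656089193152)), (.negSucc (nat_lit 900963663)), (.negSucc (nat_lit 900963631)), (.negSucc (nat_lit 6632594829109119976154)), (.ofNat (nat_lit 6632594829109119976155)), (.negSucc (nat_lit 6632594829109119976154)), (.ofNat (nat_lit 6632594829109119976155)), (.ofNat (nat_lit 612239522686995690102))⟩,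
    ⟨nat_lit 0, nat_lit 12, nat_lit 11, (.ofNat (nat_lit 8)), (.ofNat (nat_lit 170139648)), (.ofNat (nat_lit 6902341293472297962380108046720)), (.ofNat (nat_lit 0)), (.ofNat (nat_lit 106189866053419968651201147008)), (.ofNat (nat_lit 170139632)), (.ofNat (nat_lit 170139664)), (.negSucc (nat_lit 6632594829109119976154)), (.ofNat (nat_lit 6632594829109119976155)), (.negSucc (nat_lit 6632594829109119976154)), (.ofNat (nat_lit 6632594829109119976155)), (.ofNat (nat_lit 612239522686995690102))⟩]
  es := [
    ⟨nat_lit 1, nat_lit 0, (.negSucc (nat_lit 986225983)), (.negSucc (nat_lit 647126463)), (.negSucc (nat_lit 986225967)), (.negSucc (nat_lit 647126479)), (.negSucc (nat_lit 6632594829109119976154)), (.negSucc (nat_lit 102039920447832615016)), (.ofNat (nat_lit 11074136241923108752266087296))⟩,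
    ⟨nat_lit 1, nat_lit 2, (.negSucc (nat_lit 986225983)), (.negSucc (nat_lit 836427263)), (.negSucc (nat_lit 986225967)), (.negSucc (nat_lit 836427279)), (.ofNat (nat_lit 6632594829109119976155)), (.ofNat (nat_lit 102039920447832615017)), (.ofNat (nat_lit 212342978143813991577134090752))⟩,
    ⟨nat_lit 2, nat_lit 3, (.negSucc (nat_lit 836427263)), (.negSucc (nat_lit 656809471)), (.negSucc (nat_lit 836427247)), (.negSucc (nat_lit 656809487)), (.negSucc (nat_lit 6632594829109119976154)), (.negSucc (nat_lit 102039920447832615016)), (.ofNat (nat_lit 41645035185897413759864843776))⟩,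
    ⟨nat_lit 3, nat_lit 4, (.negSucc (nat_lit 656809471)), (.ofNat (nat_lit 191488064)), (.negSucc (nat_lit 656809455)), (.ofNat (nat_lit 191488048)), (.ofNat (nat_lit 6632594829109119976155)), (.ofNat (nat_lit 102039920447832615017)), (.ofNat (nat_lit 175686607730423300587254925824))⟩,
    ⟨nat_lit 5, nat_lit 4, (.negSucc (nat_lit 17293247)), (.ofNat (nat_lit 191488064)), (.negSucc (nat_lit 17293231)), (.ofNat (nat_lit 191488048)), (.negSucc (nat_lit 6632594829109119976154)), (.negSucc (nat_lit 102039920447832615016)), (.ofNat (nat_lit 214765461364962261478580240000))⟩,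
    ⟨nat_lit 6, nat_lit 5, (.negSucc (nat_lit 941252095)), (.negSucc (nat_lit 17293247)), (.negSucc (nat_lit 941252079)), (.negSucc (nat_lit 17293263)), (.ofNat (nat_lit 6632594829109119976155)), (.ofNat (nat_lit 102039920447832615017)), (.ofNat (nat_lit 218294664665371542426535250432))⟩,
    ⟨nat_lit 6, nat_lit 14, (.negSucc (nat_lit 941252095)), (.negSucc (nat_lit 831053311)), (.negSucc (nat_lit 941252079)), (.negSucc (nat_lit 831053327)), (.negSucc (nat_lit 6632594829109119976154)), (.negSucc (nat_lit 102039920447832615016)), (.ofNat (nat_lit 26204086670980127342710599168))⟩,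
    ⟨nat_lit 22, nat_lit 7, (.negSucc (nat_lit 900963647)), (.negSucc (nat_lit 675995135)), (.negSucc (nat_lit 900963631)), (.negSucc (nat_lit 675995151)), (.ofNat (nat_lit 6632594829109119976155)), (.ofNat (nat_lit 102039920447832615017)), (.ofNat (nat_lit 190395298184542214175185095168))⟩,
    ⟨nat_lit 7, nat_lit 8, (.negSucc (nat_lit 675995135)), (.ofNat (nat_lit 238337792)), (.negSucc (nat_lit 675995119)), (.ofNat (nat_lit 238337776)), (.negSucc (nat_lit 6632594829109119976154)), (.negSucc (nat_lit 102039920447832615016)), (.ofNat (nat_lit 52438318383418635187879980544))⟩,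
    ⟨nat_lit 8, nat_lit 9, (.ofNat (nat_lit 238337792)), (.ofNat (nat_lit 1005501760)), (.ofNat (nat_lit 238337808)), (.ofNat (nat_lit 1005501744)), (.ofNat (nat_lit 6632594829109119976155)), (.ofNat (nat_lit 102039920447832615017)), (.ofNat (nat_lit 3798379712634481890404335616))⟩,
    ⟨nat_lit 10, nat_lit 9, (.ofNat (nat_lit 588848896)), (.ofNat (nat_lit 1005501760)), (.ofNat (nat_lit 588848912)), (.ofNat (nat_lit 1005501744)), (.negSucc (nat_lit 6632594829109119976154)), (.negSucc (nat_lit 102039920447832615016)), (.ofNat (nat_lit 209001018913745847060396195456))⟩,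
    ⟨nat_lit 23, nat_lit 10, (.ofNat (nat_lit 170139648)), (.ofNat (nat_lit 588848896)), (.ofNat (nat_lit 170139664)), (.ofNat (nat_lit 588848880)), (.ofNat (nat_lit 6632594829109119976155)), (.ofNat (nat_lit 102039920447832615017)), (.ofNat (nat_lit 88828829906477725169289252992))⟩,
    ⟨nat_lit 21, nat_lit 23, (.negSucc (nat_lit 95985471)), (.ofNat (nat_lit 170139648)), (.negSucc (nat_lit 95985455)), (.ofNat (nat_lit 170139632)), (.negSucc (nat_lit 6632594829109119976154)), (.negSucc (nat_lit 102039920447832615016)), (.ofNat (nat_lit 123550902200362212133113041024))⟩,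
    ⟨nat_lit 12, nat_lit 11, (.negSucc (nat_lit 141270975)), (.ofNat (nat_lit 400121600)), (.negSucc (nat_lit 141270959)), (.ofNat (nat_lit 400121584)), (.ofNat (nat_lit 6632594829109119976155)), (.ofNat (nat_lit 102053659004878498877)), (.ofNat (nat_lit 84293471826400739626237379712))⟩,
    ⟨nat_lit 13, nat_lit 12, (.negSucc (nat_lit 687693311)), (.negSucc (nat_lit 141270975)), (.negSucc (nat_lit 687693295)), (.negSucc (nat_lit 141270991)), (.negSucc (nat_lit 6632594829109119976154)), (.negSucc (nat_lit 102039920447832615016)), (.ofNat (nat_lit 55460972661782694720384839168))⟩,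
    ⟨nat_lit 14, nat_lit 13, (.negSucc (nat_lit 831053311)), (.negSucc (nat_lit 687693311)), (.negSucc (nat_lit 831053295)), (.negSucc (nat_lit 687693327)), (.ofNat (nat_lit 6632594829109119976155)), (.ofNat (nat_lit 102039920447832615017)), (.ofNat (nat_lit 195805314359755763205708171776))⟩,
    ⟨nat_lit 15, nat_lit 16, (.negSucc (nat_lit 109649855)), (.ofNat (nat_lit 854236608)), (.negSucc (nat_lit 109649839)), (.ofNat (nat_lit 854236592)), (.ofNat (nat_lit 6632594829109119976155)), (.ofNat (nat_lit 102039920447832615017)), (.ofNat (nat_lit 28904105414636684634428266240))⟩,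
    ⟨nat_lit 17, nat_lit 16, (.ofNat (nat_lit 164159552)), (.ofNat (nat_lit 854236608)), (.ofNat (nat_lit 164159568)), (.ofNat (nat_lit 854236592)), (.negSucc (nat_lit 6632594829109119976154)), (.negSucc (nat_lit 102039920447832615016)), (.ofNat (nat_lit 203236576462529432642212150912))⟩,
    ⟨nat_lit 18, nat_lit 17, (.negSucc (nat_lit 655891967)), (.ofNat (nat_lit 164159552)), (.negSucc (nat_lit 655891951)), (.ofNat (nat_lit 164159536)), (.ofNat (nat_lit 6632594829109119976155)), (.ofNat (nat_lit 102039920447832615017)), (.ofNat (nat_lit 169734921208865749737853766144))⟩,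
    ⟨nat_lit 19, nat_lit 18, (.negSucc (nat_lit 835509759)), (.negSucc (nat_lit 655891967)), (.negSucc (nat_lit 835509743)), (.negSucc (nat_lit 655891983)), (.negSucc (nat_lit 6632594829109119976154)), (.negSucc (nat_lit 102039920447832615016)), (.ofNat (nat_lit 35880592734680999341680799232))⟩,
    ⟨nat_lit 19, nat_lit 20, (.negSucc (nat_lit 835509759)), (.negSucc (nat_lit 198172479)), (.negSucc (nat_lit 835509743)), (.negSucc (nat_lit 198172495)), (.ofNat (nat_lit 6632594829109119976155)), (.ofNat (nat_lit 102039920447832615017)), (.ofNat (nat_lit 206391291622256440727732931072))⟩,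
    ⟨nat_lit 20, nat_lit 11, (.negSucc (nat_lit 198172479)), (.ofNat (nat_lit 400121600)), (.negSucc (nat_lit 198172463)), (.ofNat (nat_lit 400121584)), (.negSucc (nat_lit 6632594829109119976154)), (.negSucc (nat_lit 102027488513373905324)), (.ofNat (nat_lit 165950747101239920799388342912))⟩,
    ⟨nat_lit 0, nat_lit 21, (.negSucc (nat_lit 647126463)), (.negSucc (nat_lit 95985471)), (.negSucc (nat_lit 647126447)), (.negSucc (nat_lit 95985487)), (.ofNat (nat_lit 6632594829109119976155)), (.ofNat (nat_lit 102039920447832615017)), (.ofNat (nat_lit 143139602054417541991915107072))⟩,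
    ⟨nat_lit 22, nat_lit 15, (.negSucc (nat_lit 900963647)), (.negSucc (nat_lit 109649855)), (.negSucc (nat_lit 900963631)), (.negSucc (nat_lit 109649871)), (.negSucc (nat_lit 6632594829109119976154)), (.negSucc (nat_lit 102039920447832615016)), (.ofNat (nat_lit 6526780247924081136993291136))⟩]

theorem ok75 : stOK 23 23 S75 = true := by decide +kernel

def S76 : SD where
  vs := [
    ⟨nat_lit 0, nat_lit 0, nat_lit 22, (.ofNat (nat_lit 8)), (.negSucc (nat_lit 647650751)), (.ofNat (nat_lit 5018901274386599073811788219840)), (.negSucc (nat_lit 524287)), (.ofNat (nat_lit 6954779755527924588116705280)), (.negSucc (nat_lit 647650767)), (.negSucc (nat_lit 647650735)), (.negSucc (nat_lit 6632594829109119976154)), (.ofNat (nat_lit 6632594829109119976155)), (.negSucc (nat_lit 6632594829109119976154)), (.ofNat (nat_lit 6632594829109119976155)), (.ofNat (nat_lit 0))⟩,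
    ⟨nat_lit 2, nat_lit 0, nat_lit 1, (.ofNat (nat_lit 8)), (.negSucc (nat_lit 1254448191)), (.ofNat (nat_lit 9043542837247250555995503263040)), (.negSucc (nat_lit 268222207)), (.ofNat (nat_lit 1782486619710794795235259802880)), (.negSucc (nat_lit 1254448207)), (.negSucc (nat_lit 1254448175)), (.negSucc (nat_lit 6632594829109119976154)), (.ofNat (nat_lit 6632594829109119976155)), (.negSucc (nat_lit 6632594829109119976154)), (.ofNat (nat_lit 6632594829109119976155)), (.ofNat (nat_lit 0))⟩,
    ⟨nat_lit 0, nat_lit 1, nat_lit 2, (.ofNat (nat_lit 8)), (.negSucc (nat_lit 1103863039)), (.ofNat (nat_lit 10042313137743061412191040313600)), (.negSucc (nat_lit 267435775)), (.ofNat (nat_lit 1787702704527440738676347331840)), (.negSucc (nat_lit 1103863055)), (.negSucc (nat_lit 1103863023)), (.ofNat (nat_lit 6632594829109119976155)), (.negSucc (nat_lit 6632594829109119976154)), (.negSucc (nat_lit 6632594829109119976154)), (.ofNat (nat_lit 6632594829109119976155)), (.ofNat (nat_lit 0))⟩,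
    ⟨nat_lit 0, nat_lit 2, nat_lit 3, (.ofNat (nat_lit 8)), (.negSucc (nat_lit 923196671)), (.ofNat (nat_lit 8844026319552336030422869858560)), (.negSucc (nat_lit 266387199)), (.ofNat (nat_lit 1780747924771912814088230626560)), (.negSucc (nat_lit 923196687)), (.negSucc (nat_lit 923196655)), (.negSucc (nat_lit 6632594829109119976154)), (.ofNat (nat_lit 6632594829109119976155)), (.negSucc (nat_lit 6632594829109119976154)), (.ofNat (nat_lit 6632594829109119976155)), (.ofNat (nat_lit 0))⟩,
    ⟨nat_lit 1, nat_lit 3, nat_lit 4, (.ofNat (nat_lit 8)), (.negSucc (nat_lit 73064127)), (.ofNat (nat_lit 14482611034944117449352739346880)), (.negSucc (nat_lit 264552191)), (.ofNat (nat_lit 1792918789344086682117434860800)), (.negSucc (nat_lit 73064143)), (.negSucc (nat_lit 73064111)), (.ofNat (nat_lit 6632594829109119976155)), (.negSucc (nat_lit 6632594829109119976154)), (.negSucc (nat_lit 6632594829109119976154)), (.ofNat (nat_lit 6632594829109119976155)), (.ofNat (nat_lit 0))⟩,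
    ⟨nat_lit 0, nat_lit 5, nat_lit 4, (.ofNat (nat_lit 8)), (.negSucc (nat_lit 283156159)), (.ofNat (nat_lit 15876066360024345214874934843840)), (.negSucc (nat_lit 265862911)), (.ofNat (nat_lit 1801612264038496587852580742400)), (.negSucc (nat_lit 283156175)), (.negSucc (nat_lit 283156143)), (.ofNat (nat_lit 6632594829109119976155)), (.negSucc (nat_lit 6632594829109119976154)), (.negSucc (nat_lit 6632594829109119976154)), (.ofNat (nat_lit 6632594829109119976155)), (.ofNat (nat_lit 0))⟩,
    ⟨nat_lit 2, nat_lit 6, nat_lit 5, (.ofNat (nat_lit 8)), (.negSucc (nat_lit 1209474303)), (.ofNat (nat_lit 9732173428019988025089710987520)), (.negSucc (nat_lit 268222207)), (.ofNat (nat_lit 1785964009588558757529318155520)), (.negSucc (nat_lit 1209474319)), (.negSucc (nat_lit 1209474287)), (.negSucc (nat_lit 6632594829109119976154)), (.ofNat (nat_lit 6632594829109119976155)), (.negSucc (nat_lit 6632594829109119976154)), (.ofNat (nat_lit 6632594829109119976155)), (.ofNat (nat_lit 0))⟩,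
    ⟨nat_lit 0, nat_lit 7, nat_lit 8, (.ofNat (nat_lit 8)), (.negSucc (nat_lit 942382335)), (.ofNat (nat_lit 9676317853108404380741398698240)), (.negSucc (nat_lit 266387199)), (.ofNat (nat_lit 1784225314649676776382288979200)), (.negSucc (nat_lit 942382351)), (.negSucc (nat_lit 942382319)), (.ofNat (nat_lit 6632594829109119976155)), (.negSucc (nat_lit 6632594829109119976154)), (.negSucc (nat_lit 6632594829109119976154)), (.ofNat (nat_lit 6632594829109119976155)), (.ofNat (nat_lit 0))⟩,
    ⟨nat_lit 0, nat_lit 8, nat_lit 9, (.ofNat (nat_lit 8)), (.ofNat (nat_lit 239648512)), (.ofNat (nat_lit 1836386162816136210793164268800)), (.ofNat (nat_lit 1310720)), (.ofNat (nat_lit 8693474694409905735145881600)), (.ofNat (nat_lit 239648496)), (.ofNat (nat_lit 239648528)), (.negSucc (nat_lit 6632594829109119976154)), (.ofNat (nat_lit 6632594829109119976155)), (.negSucc (nat_lit 6632594829109119976154)), (.ofNat (nat_lit 6632594829109119976155)), (.ofNat (nat_lit 0))⟩,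
    ⟨nat_lit 1, nat_lit 9, nat_lit 10, (.ofNat (nat_lit 8)), (.ofNat (nat_lit 1008123200)), (.ofNat (nat_lit 6933367404746180502423445333440)), (.ofNat (nat_lit 2621440)), (.ofNat (nat_lit 17386949388819811470291763200)), (.ofNat (nat_lit 1008123184)), (.ofNat (nat_lit 1008123216)), (.ofNat (nat_lit 6632594829109119976155)), (.negSucc (nat_lit 6632594829109119976154)), (.negSucc (nat_lit 6632594829109119976154)), (.ofNat (nat_lit 6632594829109119976155)), (.ofNat (nat_lit 0))⟩,
    ⟨nat_lit 0, nat_lit 11, nat_lit 10, (.ofNat (nat_lit 8)), (.ofNat (nat_lit 324558848)), (.ofNat (nat_lit 11467172791184706836214093360000)), (.negSucc (nat_lit 264290047)), (.ofNat (nat_lit 1787702704527440738676347331840)), (.ofNat (nat_lit 324558832)), (.ofNat (nat_lit 324558864)), (.ofNat (nat_lit 6632594829109119976155)), (.negSucc (nat_lit 6632594829109119976154)), (.negSucc (nat_lit 6632594829109119976154)), (.ofNat (nat_lit 6632594829109119976155)), (.ofNat (nat_lit 0))⟩,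
    ⟨nat_lit 1, nat_lit 13, nat_lit 21, (.ofNat (nat_lit 8)), (.ofNat (nat_lit 401694464)), (.ofNat (nat_lit 8150180917421159806838610026880)), (.ofNat (nat_lit 1572864)), (.ofNat (nat_lit 17386949388819811470291763200)), (.ofNat (nat_lit 401694448)), (.ofNat (nat_lit 401694480)), (.ofNat (nat_lit 6632594829109119976155)), (.negSucc (nat_lit 6632594829109119976154)), (.negSucc (nat_lit 6632594829109119976154)), (.ofNat (nat_lit 6632594829109119976155)), (.ofNat (nat_lit 0))⟩,
    ⟨nat_lit 0, nat_lit 14, nat_lit 13, (.ofNat (nat_lit 8)), (.negSucc (nat_lit 140222399)), (.ofNat (nat_lit 4555865927447729595560937648960)), (.ofNat (nat_lit 1048576)), (.ofNat (nat_lit 13909559511055849176233410560)), (.negSucc (nat_lit 140222415)), (.negSucc (nat_lit 140222383)), (.negSucc (nat_lit 6632594829109119976154)), (.ofNat (nat_lit 6632594829109119976155)), (.negSucc (nat_lit 6632594829109119976154)), (.ofNat (nat_lit 6632594829109119976155)), (.ofNat (nat_lit 0))⟩,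
    ⟨nat_lit 0, nat_lit 15, nat_lit 14, (.ofNat (nat_lit 8)), (.negSucc (nat_lit 954080511)), (.ofNat (nat_lit 9953857032727440621335930968320)), (.negSucc (nat_lit 266387199)), (.ofNat (nat_lit 1787702704527440738676347331840)), (.negSucc (nat_lit 954080527)), (.negSucc (nat_lit 954080495)), (.ofNat (nat_lit 6632594829109119976155)), (.negSucc (nat_lit 6632594829109119976154)), (.negSucc (nat_lit 6632594829109119976154)), (.ofNat (nat_lit 6632594829109119976155)), (.ofNat (nat_lit 0))⟩,
    ⟨nat_lit 0, nat_lit 6, nat_lit 15, (.ofNat (nat_lit 8)), (.negSucc (nat_lit 1098489087)), (.ofNat (nat_lit 8996053458270829256966233463040)), (.negSucc (nat_lit 267435775)), (.ofNat (nat_lit 1780747924771912814088230626560)), (.negSucc (nat_lit 1098489103)), (.negSucc (nat_lit 1098489071)), (.negSucc (nat_lit 6632594829109119976154)), (.ofNat (nat_lit 6632594829109119976155)), (.negSucc (nat_lit 6632594829109119976154)), (.ofNat (nat_lit 6632594829109119976155)), (.ofNat (nat_lit 0))⟩,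
    ⟨nat_lit 0, nat_lit 23, nat_lit 16, (.ofNat (nat_lit 8)), (.negSucc (nat_lit 109911999)), (.ofNat (nat_lit 1153242478972106868726910434240)), (.negSucc (nat_lit 262143)), (.ofNat (nat_lit 1738694938881981147029176320)), (.negSucc (nat_lit 109912015)), (.negSucc (nat_lit 109911983)), (.negSucc (nat_lit 6632594829109119976154)), (.ofNat (nat_lit 6632594829109119976155)), (.negSucc (nat_lit 6632594829109119976154)), (.ofNat (nat_lit 6632594829109119976155)), (.ofNat (nat_lit 0))⟩,
    ⟨nat_lit 1, nat_lit 16, nat_lit 17, (.ofNat (nat_lit 8)), (.ofNat (nat_lit 856333760)), (.ofNat (nat_lit 7561959110396718623017980287040)), (.ofNat (nat_lit 2097152)), (.ofNat (nat_lit 17386949388819811470291763200)), (.ofNat (nat_lit 856333744)), (.ofNat (nat_lit 856333776)), (.ofNat (nat_lit 6632594829109119976155)), (.negSucc (nat_lit 6632594829109119976154)), (.negSucc (nat_lit 6632594829109119976154)), (.ofNat (nat_lit 6632594829109119976155)), (.ofNat (nat_lit 0))⟩,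
    ⟨nat_lit 0, nat_lit 18, nat_lit 17, (.ofNat (nat_lit 8)), (.negSucc (nat_lit 100654783)), (.ofNat (nat_lit 13909276378847784166119868455360)), (.negSucc (nat_lit 264814335)), (.ofNat (nat_lit 1787702704527440738676347331840)), (.negSucc (nat_lit 100654799)), (.negSucc (nat_lit 100654767)), (.ofNat (nat_lit 6632594829109119976155)), (.negSucc (nat_lit 6632594829109119976154)), (.negSucc (nat_lit 6632594829109119976154)), (.ofNat (nat_lit 6632594829109119976155)), (.ofNat (nat_lit 0))⟩,
    ⟨nat_lit 0, nat_lit 19, nat_lit 18, (.ofNat (nat_lit 8)), (.negSucc (nat_lit 922279167)), (.ofNat (nat_lit 8459774738059418196929421891840)), (.negSucc (nat_lit 266387199)), (.ofNat (nat_lit 1777270534894148851794172273920)), (.negSucc (nat_lit 922279183)), (.negSucc (nat_lit 922279151)), (.negSucc (nat_lit 6632594829109119976154)), (.ofNat (nat_lit 6632594829109119976155)), (.negSucc (nat_lit 6632594829109119976154)), (.ofNat (nat_lit 6632594829109119976155)), (.ofNat (nat_lit 0))⟩,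
    ⟨nat_lit 2, nat_lit 19, nat_lit 20, (.ofNat (nat_lit 8)), (.negSucc (nat_lit 1102945535)), (.ofNat (nat_lit 9658061556250143578697592346880)), (.negSucc (nat_lit 267435775)), (.ofNat (nat_lit 1784225314649676776382288979200)), (.negSucc (nat_lit 1102945551)), (.negSucc (nat_lit 1102945519)), (.negSucc (nat_lit 6632594829109119976154)), (.ofNat (nat_lit 6632594829109119976155)), (.negSucc (nat_lit 6632594829109119976154)), (.ofNat (nat_lit 6632594829109119976155)), (.ofNat (nat_lit 0))⟩,
    ⟨nat_lit 0, nat_lit 20, nat_lit 21, (.ofNat (nat_lit 8)), (.negSucc (nat_lit 464297535)), (.ofNat (nat_lit 13893954978671024833229030786880)), (.negSucc (nat_lit 266125055)), (.ofNat (nat_lit 1792918789344086682117434860800)), (.negSucc (nat_lit 464297551)), (.negSucc (nat_lit 464297519)), (.ofNat (nat_lit 6632594829109119976155)), (.negSucc (nat_lit 6632594829109119976154)), (.negSucc (nat_lit 6632594829109119976154)), (.ofNat (nat_lit 6632594829109119976155)), (.ofNat (nat_lit 0))⟩,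
    ⟨nat_lit 0, nat_lit 22, nat_lit 12, (.ofNat (nat_lit 8)), (.negSucc (nat_lit 94936895)), (.ofNat (nat_lit 8684828337669161820599046323520)), (.ofNat (nat_lit 1048576)), (.ofNat (nat_lit 17386949388819811470291763200)), (.negSucc (nat_lit 94936911)), (.negSucc (nat_lit 94936879)), (.ofNat (nat_lit 6632594829109119976155)), (.negSucc (nat_lit 6632594829109119976154)), (.negSucc (nat_lit 6632594829109119976154)), (.ofNat (nat_lit 6632594829109119976155)), (.ofNat (nat_lit 0))⟩,
    ⟨nat_lit 2, nat_lit 23, nat_lit 7, (.ofNat (nat_lit 8)), (.negSucc (nat_lit 1168661567)), (.ofNat (nat_lit 8175499389010421468341186985280)), (.negSucc (nat_lit 267697919)), (.ofNat (nat_lit 1775531839955266870647143097600)), (.negSucc (nat_lit 1168661583)), (.negSucc (nat_lit 1168661551)), (.negSucc (nat_lit 6632594829109119976154)), (.ofNat (nat_lit 6632594829109119976155)), (.negSucc (nat_lit 6632594829109119976154)), (.ofNat (nat_lit 6632594829109119976155)), (.ofNat (nat_lit 0))⟩,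
    ⟨nat_lit 0, nat_lit 12, nat_lit 11, (.ofNat (nat_lit 8)), (.negSucc (nat_lit 94936831)), (.ofNat (nat_lit 8684827913183092757615367849600)), (.negSucc (nat_lit 265076479)), (.ofNat (nat_lit 1782486619710794795235259802880)), (.negSucc (nat_lit 94936847)), (.negSucc (nat_lit 94936815)), (.negSucc (nat_lit 6632594829109119976154)), (.ofNat (nat_lit 6632594829109119976155)), (.negSucc (nat_lit 6632594829109119976154)), (.ofNat (nat_lit 6632594829109119976155)), (.ofNat (nat_lit 0))⟩]
  es := [
    ⟨nat_lit 1, nat_lit 0, (.negSucc (nat_lit 1254448191)), (.negSucc (nat_lit 647650751)), (.negSucc (nat_lit 1254448175)), (.negSucc (nat_lit 647650767)), (.negSucc (nat_lit 6632594829109119976154)), (.ofNat (nat_lit 0)), (.ofNat (nat_lit 3477389877763962294058352640))⟩,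
    ⟨nat_lit 1, nat_lit 2, (.negSucc (nat_lit 1254448191)), (.negSucc (nat_lit 1103863039)), (.negSucc (nat_lit 1254448175)), (.negSucc (nat_lit 1103863055)), (.ofNat (nat_lit 6632594829109119976155)), (.ofNat (nat_lit 0)), (.ofNat (nat_lit 3561495849543825628176461253120))⟩,
    ⟨nat_lit 2, nat_lit 3, (.negSucc (nat_lit 1103863039)), (.negSucc (nat_lit 923196671)), (.negSucc (nat_lit 1103863023)), (.negSucc (nat_lit 923196687)), (.negSucc (nat_lit 6632594829109119976154)), (.ofNat (nat_lit 0)), (.ofNat (nat_lit 13909559511055849176233410560))⟩,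
    ⟨nat_lit 3, nat_lit 4, (.negSucc (nat_lit 923196671)), (.negSucc (nat_lit 73064127)), (.negSucc (nat_lit 923196655)), (.negSucc (nat_lit 73064143)), (.ofNat (nat_lit 6632594829109119976155)), (.ofNat (nat_lit 0)), (.ofNat (nat_lit 3547586290032769779000227842560))⟩,
    ⟨nat_lit 5, nat_lit 4, (.negSucc (nat_lit 283156159)), (.negSucc (nat_lit 73064127)), (.negSucc (nat_lit 283156143)), (.negSucc (nat_lit 73064143)), (.negSucc (nat_lit 6632594829109119976154)), (.ofNat (nat_lit 0)), (.ofNat (nat_lit 38251288655403585234641879040))⟩,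
    ⟨nat_lit 6, nat_lit 5, (.negSucc (nat_lit 1209474303)), (.negSucc (nat_lit 283156159)), (.negSucc (nat_lit 1209474287)), (.negSucc (nat_lit 283156175)), (.ofNat (nat_lit 6632594829109119976155)), (.ofNat (nat_lit 0)), (.ofNat (nat_lit 3564973239421589590470519605760))⟩,
    ⟨nat_lit 6, nat_lit 14, (.negSucc (nat_lit 1209474303)), (.negSucc (nat_lit 1098489087)), (.negSucc (nat_lit 1209474287)), (.negSucc (nat_lit 1098489103)), (.negSucc (nat_lit 6632594829109119976154)), (.ofNat (nat_lit 0)), (.ofNat (nat_lit 6954779755527924588116705280))⟩,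
    ⟨nat_lit 22, nat_lit 7, (.negSucc (nat_lit 1168661567)), (.negSucc (nat_lit 942382335)), (.negSucc (nat_lit 1168661551)), (.negSucc (nat_lit 942382351)), (.ofNat (nat_lit 6632594829109119976155)), (.ofNat (nat_lit 0)), (.ofNat (nat_lit 3551063679910533741294286195200))⟩,
    ⟨nat_lit 7, nat_lit 8, (.negSucc (nat_lit 942382335)), (.ofNat (nat_lit 239648512)), (.negSucc (nat_lit 942382319)), (.ofNat (nat_lit 239648496)), (.negSucc (nat_lit 6632594829109119976154)), (.ofNat (nat_lit 0)), (.ofNat (nat_lit 17386949388819811470291763200))⟩,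
    ⟨nat_lit 8, nat_lit 9, (.ofNat (nat_lit 239648512)), (.ofNat (nat_lit 1008123200)), (.ofNat (nat_lit 239648528)), (.ofNat (nat_lit 1008123184)), (.ofNat (nat_lit 6632594829109119976155)), (.ofNat (nat_lit 0)), (.ofNat (nat_lit 0))⟩,
    ⟨nat_lit 10, nat_lit 9, (.ofNat (nat_lit 324558848)), (.ofNat (nat_lit 1008123200)), (.ofNat (nat_lit 324558864)), (.ofNat (nat_lit 1008123184)), (.negSucc (nat_lit 6632594829109119976154)), (.ofNat (nat_lit 0)), (.ofNat (nat_lit 34773898777639622940583526400))⟩,
    ⟨nat_lit 23, nat_lit 10, (.negSucc (nat_lit 94936831)), (.ofNat (nat_lit 324558848)), (.negSucc (nat_lit 94936815)), (.ofNat (nat_lit 324558832)), (.ofNat (nat_lit 6632594829109119976155)), (.ofNat (nat_lit 0)), (.ofNat (nat_lit 3540631510277241854412111137280))⟩,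
    ⟨nat_lit 21, nat_lit 23, (.negSucc (nat_lit 94936895)), (.negSucc (nat_lit 94936831)), (.negSucc (nat_lit 94936879)), (.negSucc (nat_lit 94936847)), (.negSucc (nat_lit 6632594829109119976154)), (.ofNat (nat_lit 0)), (.ofNat (nat_lit 24341729144347736058408468480))⟩,
    ⟨nat_lit 12, nat_lit 11, (.negSucc (nat_lit 140222399)), (.ofNat (nat_lit 401694464)), (.negSucc (nat_lit 140222383)), (.ofNat (nat_lit 401694448)), (.ofNat (nat_lit 6632594829109119976155)), (.ofNat (nat_lit 0)), (.ofNat (nat_lit 6954779755527924588116705280))⟩,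
    ⟨nat_lit 13, nat_lit 12, (.negSucc (nat_lit 954080511)), (.negSucc (nat_lit 140222399)), (.negSucc (nat_lit 954080495)), (.negSucc (nat_lit 140222415)), (.negSucc (nat_lit 6632594829109119976154)), (.ofNat (nat_lit 0)), (.ofNat (nat_lit 20864339266583773764350115840))⟩,
    ⟨nat_lit 14, nat_lit 13, (.negSucc (nat_lit 1098489087)), (.negSucc (nat_lit 954080511)), (.negSucc (nat_lit 1098489071)), (.negSucc (nat_lit 954080527)), (.ofNat (nat_lit 6632594829109119976155)), (.ofNat (nat_lit 0)), (.ofNat (nat_lit 3554541069788297703588344547840))⟩,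
    ⟨nat_lit 15, nat_lit 16, (.negSucc (nat_lit 109911999)), (.ofNat (nat_lit 856333760)), (.negSucc (nat_lit 109911983)), (.ofNat (nat_lit 856333744)), (.ofNat (nat_lit 6632594829109119976155)), (.ofNat (nat_lit 0)), (.ofNat (nat_lit 3477389877763962294058352640))⟩,
    ⟨nat_lit 17, nat_lit 16, (.negSucc (nat_lit 100654783)), (.ofNat (nat_lit 856333760)), (.negSucc (nat_lit 100654767)), (.ofNat (nat_lit 856333744)), (.negSucc (nat_lit 6632594829109119976154)), (.ofNat (nat_lit 0)), (.ofNat (nat_lit 31296508899875660646525173760))⟩,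
    ⟨nat_lit 18, nat_lit 17, (.negSucc (nat_lit 922279167)), (.negSucc (nat_lit 100654783)), (.negSucc (nat_lit 922279151)), (.negSucc (nat_lit 100654799)), (.ofNat (nat_lit 6632594829109119976155)), (.ofNat (nat_lit 0)), (.ofNat (nat_lit 3544108900155005816706169489920))⟩,
    ⟨nat_lit 19, nat_lit 18, (.negSucc (nat_lit 1102945535)), (.negSucc (nat_lit 922279167)), (.negSucc (nat_lit 1102945519)), (.negSucc (nat_lit 922279183)), (.negSucc (nat_lit 6632594829109119976154)), (.ofNat (nat_lit 0)), (.ofNat (nat_lit 10432169633291886882175057920))⟩,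
    ⟨nat_lit 19, nat_lit 20, (.negSucc (nat_lit 1102945535)), (.negSucc (nat_lit 464297535)), (.negSucc (nat_lit 1102945519)), (.negSucc (nat_lit 464297551)), (.ofNat (nat_lit 6632594829109119976155)), (.ofNat (nat_lit 0)), (.ofNat (nat_lit 3558018459666061665882402900480))⟩,
    ⟨nat_lit 20, nat_lit 11, (.negSucc (nat_lit 464297535)), (.ofNat (nat_lit 401694464)), (.negSucc (nat_lit 464297519)), (.ofNat (nat_lit 401694448)), (.negSucc (nat_lit 6632594829109119976154)), (.ofNat (nat_lit 0)), (.ofNat (nat_lit 27819119022111698352466821120))⟩,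
    ⟨nat_lit 0, nat_lit 21, (.negSucc (nat_lit 647650751)), (.negSucc (nat_lit 94936895)), (.negSucc (nat_lit 647650735)), (.negSucc (nat_lit 94936911)), (.ofNat (nat_lit 6632594829109119976155)), (.ofNat (nat_lit 0)), (.ofNat (nat_lit 10432169633291886882175057920))⟩,
    ⟨nat_lit 22, nat_lit 15, (.negSucc (nat_lit 1168661567)), (.negSucc (nat_lit 109911999)), (.negSucc (nat_lit 1168661551)), (.negSucc (nat_lit 109912015)), (.negSucc (nat_lit 6632594829109119976154)), (.ofNat (nat_lit 0)), (.ofNat (nat_lit 0))⟩]

theorem ok76 : stOK 23 23 S76 = true := by decide +kernel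

def S77 : SD where
  vs := [
    ⟨nat_lit 0, nat_lit 0, nat_lit 22, (.ofNat (nat_lit 8)), (.negSucc (nat_lit 647650751)), (.ofNat (nat_lit 5097321611596790332487488173312)), (.ofNat (nat_lit 0)), (.ofNat (nat_lit 78420337210191258675699953472)), (.negSucc (nat_lit 647650767)), (.negSucc (nat_lit 647650735)), (.negSucc (nat_lit 6736229129654487334403)), (.ofNat (nat_lit 6736221079318194420060)), (.negSucc (nat_lit 6736229129654487334403)), (.ofNat (nat_lit 6736221079318194420060)), (.ofNat (nat_lit 621789702599618320806))⟩,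
    ⟨nat_lit 2, nat_lit 0, nat_lit 1, (.ofNat (nat_lit 8)), (.negSucc (nat_lit 1254448191)), (.ofNat (nat_lit 9184848202724561331516259299072)), (.ofNat (nat_lit 0)), (.ofNat (nat_lit 141305365477310775520756036032)), (.negSucc (nat_lit 1254448207)), (.negSucc (nat_lit 1254448175)), (.negSucc (nat_lit 6736229129654487334403)), (.ofNat (nat_lit 6736229129654487334404)), (.negSucc (nat_lit 6736229129654487334403)), (.ofNat (nat_lit 6736229129654487334404)), (.ofNat (nat_lit 621805803272204149494))⟩,
    ⟨nat_lit 0, nat_lit 1, nat_lit 2, (.ofNat (nat_lit 8)), (.negSucc (nat_lit 1103863039)), (.ofNat (nat_lit 10199224290120410014249560468480)), (.ofNat (nat_lit 0)), (.ofNat (nat_lit 156911152377348602058520154880)), (.negSucc (nat_lit 1103863055)), (.negSucc (nat_lit 1103863023)), (.ofNat (nat_lit 6736229129654487334404)), (.negSucc (nat_lit 6736229129654487334403)), (.negSucc (nat_lit 6736229129654487334403)), (.ofNat (nat_lit 6736229129654487334404)), (.ofNat (nat_lit 621805803272204149494))⟩,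
    ⟨nat_lit 0, nat_lit 2, nat_lit 3, (.ofNat (nat_lit 8)), (.negSucc (nat_lit 923196671)), (.ofNat (nat_lit 8982214239249932692640788343808)), (.ofNat (nat_lit 0)), (.ofNat (nat_lit 138187919697596662217918485248)), (.negSucc (nat_lit 923196687)), (.negSucc (nat_lit 923196655)), (.negSucc (nat_lit 6736229129654487334403)), (.ofNat (nat_lit 6736229129654487334404)), (.negSucc (nat_lit 6736229129654487334403)), (.ofNat (nat_lit 6736229129654487334404)), (.ofNat (nat_lit 621805803272204149494))⟩,
    ⟨nat_lit 1, nat_lit 3, nat_lit 4, (.ofNat (nat_lit 8)), (.negSucc (nat_lit 73064127)), (.ofNat (nat_lit 14708901846210007851253439587584)), (.ofNat (nat_lit 0)), (.ofNat (nat_lit 226290811265890401900700240704)), (.negSucc (nat_lit 73064143)), (.negSucc (nat_lit 73064111)), (.ofNat (nat_lit 6736229129654487334404)), (.negSucc (nat_lit 6736229129654487334403)), (.negSucc (nat_lit 6736229129654487334403)), (.ofNat (nat_lit 6736229129654487334404)), (.ofNat (nat_lit 621805803272204149494))⟩,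
    ⟨nat_lit 0, nat_lit 5, nat_lit 4, (.ofNat (nat_lit 8)), (.negSucc (nat_lit 283156159)), (.ofNat (nat_lit 16124129912076710553256639456512)), (.ofNat (nat_lit 0)), (.ofNat (nat_lit 248063552052365338381704612672)), (.negSucc (nat_lit 283156175)), (.negSucc (nat_lit 283156143)), (.ofNat (nat_lit 6736229129654487334404)), (.negSucc (nat_lit 6736229129654487334403)), (.negSucc (nat_lit 6736229129654487334403)), (.ofNat (nat_lit 6736229129654487334404)), (.ofNat (nat_lit 621805803272204149494))⟩,
    ⟨nat_lit 2, nat_lit 6, nat_lit 5, (.ofNat (nat_lit 8)), (.negSucc (nat_lit 1209474303)), (.ofNat (nat_lit 9884238647136430484380018830336)), (.ofNat (nat_lit 0)), (.ofNat (nat_lit 152065219116442459290307842816)), (.negSucc (nat_lit 1209474319)), (.negSucc (nat_lit 1209474287)), (.negSucc (nat_lit 6736229129654487334403)), (.ofNat (nat_lit 6736229129654487334404)), (.negSucc (nat_lit 6736229129654487334403)), (.ofNat (nat_lit 6736229129654487334404)), (.ofNat (nat_lit 621805803272204149494))⟩,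
    ⟨nat_lit 0, nat_lit 7, nat_lit 8, (.ofNat (nat_lit 8)), (.negSucc (nat_lit 942382335)), (.ofNat (nat_lit 9827510328813457296449765010432)), (.ofNat (nat_lit 0)), (.ofNat (nat_lit 151192475705052915708366312192)), (.negSucc (nat_lit 942382351)), (.negSucc (nat_lit 942382319)), (.ofNat (nat_lit 6736229129654487334404)), (.negSucc (nat_lit 6736229129654487334403)), (.negSucc (nat_lit 6736229129654487334403)), (.ofNat (nat_lit 6736229129654487334404)), (.ofNat (nat_lit 621805803272204149494))⟩,
    ⟨nat_lit 0, nat_lit 8, nat_lit 9, (.ofNat (nat_lit 8)), (.ofNat (nat_lit 239648512)), (.ofNat (nat_lit 1865079698365661685558945315840)), (.ofNat (nat_lit 0)), (.ofNat (nat_lit 28693535549525474765781047040)), (.ofNat (nat_lit 239648496)), (.ofNat (nat_lit 239648528)), (.negSucc (nat_lit 6736229129654487334403)), (.ofNat (nat_lit 6736229129654487334404)), (.negSucc (nat_lit 6736229129654487334403)), (.ofNat (nat_lit 6736229129654487334404)), (.ofNat (nat_lit 621805803272204149494))⟩,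
    ⟨nat_lit 1, nat_lit 9, nat_lit 10, (.ofNat (nat_lit 8)), (.ofNat (nat_lit 1008123200)), (.ofNat (nat_lit 7041701277073405387665010881792)), (.ofNat (nat_lit 0)), (.ofNat (nat_lit 108333872327224885241565548352)), (.ofNat (nat_lit 1008123184)), (.ofNat (nat_lit 1008123216)), (.ofNat (nat_lit 6736229129654487334404)), (.negSucc (nat_lit 6736218941327845918259)), (.negSucc (nat_lit 6736218941327845918259)), (.ofNat (nat_lit 6736229129654487334404)), (.ofNat (nat_lit 621785426618921317206))⟩,
    ⟨nat_lit 0, nat_lit 11, nat_lit 10, (.ofNat (nat_lit 8)), (.ofNat (nat_lit 324558848)), (.ofNat (nat_lit 11646340412632300402336252749312)), (.ofNat (nat_lit 0)), (.ofNat (nat_lit 179167621447593566122159389312)), (.ofNat (nat_lit 324558832)), (.ofNat (nat_lit 324558864)), (.ofNat (nat_lit 6736221079318194420060)), (.negSucc (nat_lit 6736218941327845918259)), (.negSucc (nat_lit 6736218941327845918259)), (.ofNat (nat_lit 6736221079318194420060)), (.ofNat (nat_lit 621753225273749659830))⟩,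
    ⟨nat_lit 1, nat_lit 13, nat_lit 21, (.ofNat (nat_lit 8)), (.ofNat (nat_lit 401694464)), (.ofNat (nat_lit 8277527502047163995655227011584)), (.ofNat (nat_lit 0)), (.ofNat (nat_lit 127346584626004188816616984704)), (.ofNat (nat_lit 401694448)), (.ofNat (nat_lit 401694480)), (.ofNat (nat_lit 6736229129654487334404)), (.negSucc (nat_lit 6736229129654487334403)), (.negSucc (nat_lit 6736229129654487334403)), (.ofNat (nat_lit 6736229129654487334404)), (.ofNat (nat_lit 621805803272204149494))⟩,
    ⟨nat_lit 0, nat_lit 14, nat_lit 13, (.ofNat (nat_lit 8)), (.negSucc (nat_lit 140222399)), (.ofNat (nat_lit 4627051336919354815867292022528)), (.ofNat (nat_lit 0)), (.ofNat (nat_lit 71185409471625220306354373568)), (.negSucc (nat_lit 140222415)), (.negSucc (nat_lit 140222383)), (.negSucc (nat_lit 6736229129654487334403)), (.ofNat (nat_lit 6736229129654487334404)), (.negSucc (nat_lit 6736229129654487334403)), (.ofNat (nat_lit 6736229129654487334404)), (.ofNat (nat_lit 621805803272204149494))⟩,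
    ⟨nat_lit 0, nat_lit 15, nat_lit 14, (.ofNat (nat_lit 8)), (.negSucc (nat_lit 954080511)), (.ofNat (nat_lit 10109386058379359090173244107776)), (.ofNat (nat_lit 0)), (.ofNat (nat_lit 155529025651918468837313139456)), (.negSucc (nat_lit 954080527)), (.negSucc (nat_lit 954080495)), (.ofNat (nat_lit 6736229129654487334404)), (.negSucc (nat_lit 6736229129654487334403)), (.negSucc (nat_lit 6736229129654487334403)), (.ofNat (nat_lit 6736229129654487334404)), (.ofNat (nat_lit 621805803272204149494))⟩,
    ⟨nat_lit 0, nat_lit 6, nat_lit 15, (.ofNat (nat_lit 8)), (.negSucc (nat_lit 1098489087)), (.ofNat (nat_lit 9136616802156235202201926659072)), (.ofNat (nat_lit 0)), (.ofNat (nat_lit 140563343885405945235693196032)), (.negSucc (nat_lit 1098489103)), (.negSucc (nat_lit 1098489071)), (.negSucc (nat_lit 6736229129654487334403)), (.ofNat (nat_lit 6736229129654487334404)), (.negSucc (nat_lit 6736229129654487334403)), (.ofNat (nat_lit 6736229129654487334404)), (.ofNat (nat_lit 621805803272204149494))⟩,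
    ⟨nat_lit 0, nat_lit 23, nat_lit 16, (.ofNat (nat_lit 8)), (.negSucc (nat_lit 109911999)), (.ofNat (nat_lit 1171261893808507022505394175232)), (.ofNat (nat_lit 0)), (.ofNat (nat_lit 18019414836400153778483740992)), (.negSucc (nat_lit 109912015)), (.negSucc (nat_lit 109911983)), (.negSucc (nat_lit 6736229129654487334403)), (.ofNat (nat_lit 6736229129654487334404)), (.negSucc (nat_lit 6736229129654487334403)), (.ofNat (nat_lit 6736229129654487334404)), (.ofNat (nat_lit 621805803272204149494))⟩,
    ⟨nat_lit 1, nat_lit 16, nat_lit 17, (.ofNat (nat_lit 8)), (.ofNat (nat_lit 856333760)), (.ofNat (nat_lit 7680114728725645674346961302272)), (.ofNat (nat_lit 0)), (.ofNat (nat_lit 118155618328927051328981015232)), (.ofNat (nat_lit 856333744)), (.ofNat (nat_lit 856333776)), (.ofNat (nat_lit 6736229129654487334404)), (.negSucc (nat_lit 6736229129654487334403)), (.negSucc (nat_lit 6736229129654487334403)), (.ofNat (nat_lit 6736229129654487334404)), (.ofNat (nat_lit 621805803272204149494))⟩,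
    ⟨nat_lit 0, nat_lit 18, nat_lit 17, (.ofNat (nat_lit 8)), (.negSucc (nat_lit 100654783)), (.ofNat (nat_lit 14126608835564080731564686370048)), (.ofNat (nat_lit 0)), (.ofNat (nat_lit 217332456716296565444817914688)), (.negSucc (nat_lit 100654799)), (.negSucc (nat_lit 100654767)), (.ofNat (nat_lit 6736229129654487334404)), (.negSucc (nat_lit 6736229129654487334403)), (.negSucc (nat_lit 6736229129654487334403)), (.ofNat (nat_lit 6736229129654487334404)), (.ofNat (nat_lit 621805803272204149494))⟩,
    ⟨nat_lit 0, nat_lit 19, nat_lit 18, (.ofNat (nat_lit 8)), (.negSucc (nat_lit 922279167)), (.ofNat (nat_lit 8591958726428856442599197862912)), (.ofNat (nat_lit 0)), (.ofNat (nat_lit 132183988369438245669775971072)), (.negSucc (nat_lit 922279183)), (.negSucc (nat_lit 922279151)), (.negSucc (nat_lit 6736229129654487334403)), (.ofNat (nat_lit 6736229129654487334404)), (.negSucc (nat_lit 6736229129654487334403)), (.ofNat (nat_lit 6736229129654487334404)), (.ofNat (nat_lit 621805803272204149494))⟩,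
    ⟨nat_lit 2, nat_lit 19, nat_lit 20, (.ofNat (nat_lit 8)), (.negSucc (nat_lit 1102945535)), (.ofNat (nat_lit 9808968777299333764207969987584)), (.ofNat (nat_lit 0)), (.ofNat (nat_lit 150907221049190185510377640704)), (.negSucc (nat_lit 1102945551)), (.negSucc (nat_lit 1102945519)), (.negSucc (nat_lit 6736229129654487334403)), (.ofNat (nat_lit 6736229129654487334404)), (.negSucc (nat_lit 6736229129654487334403)), (.ofNat (nat_lit 6736229129654487334404)), (.ofNat (nat_lit 621805803272204149494))⟩,
    ⟨nat_lit 0, nat_lit 20, nat_lit 21, (.ofNat (nat_lit 8)), (.negSucc (nat_lit 464297535)), (.ofNat (nat_lit 14111048038494912791350415779584)), (.ofNat (nat_lit 0)), (.ofNat (nat_lit 217093059823887958121384992704)), (.negSucc (nat_lit 464297551)), (.negSucc (nat_lit 464297519)), (.ofNat (nat_lit 6736229129654487334404)), (.negSucc (nat_lit 6736229129654487334403)), (.negSucc (nat_lit 6736229129654487334403)), (.ofNat (nat_lit 6736229129654487334404)), (.ofNat (nat_lit 621805803272204149494))⟩,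
    ⟨nat_lit 0, nat_lit 22, nat_lit 12, (.ofNat (nat_lit 8)), (.negSucc (nat_lit 94936895)), (.ofNat (nat_lit 8820524339215231421356534524672)), (.ofNat (nat_lit 0)), (.ofNat (nat_lit 135696001546069600757488201152)), (.negSucc (nat_lit 94936911)), (.negSucc (nat_lit 94936879)), (.ofNat (nat_lit 6736221079318194420060)), (.ofNat (nat_lit 6736221079318194420060)), (.ofNat (nat_lit 6736221079318194420060)), (.ofNat (nat_lit 6736221079318194420060)), (.ofNat (nat_lit 26737631816854628792430))⟩,
    ⟨nat_lit 2, nat_lit 23, nat_lit 7, (.ofNat (nat_lit 8)), (.negSucc (nat_lit 1168661567)), (.ofNat (nat_lit 8303241574779211477067100712704)), (.ofNat (nat_lit 0)), (.ofNat (nat_lit 127742185768790008725913727424)), (.negSucc (nat_lit 1168661583)), (.negSucc (nat_lit 1168661551)), (.negSucc (nat_lit 6736229129654487334403)), (.ofNat (nat_lit 6736229129654487334404)), (.negSucc (nat_lit 6736229129654487334403)), (.ofNat (nat_lit 6736229129654487334404)), (.ofNat (nat_lit 621805803272204149494))⟩,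
    ⟨nat_lit 0, nat_lit 12, nat_lit 11, (.ofNat (nat_lit 8)), (.negSucc (nat_lit 94936831)), (.ofNat (nat_lit 8820524770333380497720977408512)), (.ofNat (nat_lit 0)), (.ofNat (nat_lit 135696857150287740105609558912)), (.negSucc (nat_lit 94936847)), (.negSucc (nat_lit 94936815)), (.ofNat (nat_lit 6736221079318194420060)), (.ofNat (nat_lit 6736221079318194420060)), (.ofNat (nat_lit 6736221079318194420060)), (.ofNat (nat_lit 6736221079318194420060)), (.ofNat (nat_lit 53268011133291108697050))⟩]
  es := [
    ⟨nat_lit 1, nat_lit 0, (.negSucc (nat_lit 1254448191)), (.negSucc (nat_lit 647650751)), (.negSucc (nat_lit 1254448175)), (.negSucc (nat_lit 647650767)), (.negSucc (nat_lit 6736229129654487334403)), (.negSucc (nat_lit 103634300545367358248)), (.ofNat (nat_lit 11301504528990078989481700224))⟩,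
    ⟨nat_lit 1, nat_lit 2, (.negSucc (nat_lit 1254448191)), (.negSucc (nat_lit 1103863039)), (.negSucc (nat_lit 1254448175)), (.negSucc (nat_lit 1103863055)), (.ofNat (nat_lit 6736229129654487334404)), (.ofNat (nat_lit 103634300545367358249)), (.ofNat (nat_lit 271309226425631472052030371840))⟩,
    ⟨nat_lit 2, nat_lit 3, (.negSucc (nat_lit 1103863039)), (.negSucc (nat_lit 923196671)), (.negSucc (nat_lit 1103863023)), (.negSucc (nat_lit 923196687)), (.negSucc (nat_lit 6736229129654487334403)), (.negSucc (nat_lit 103634300545367358248)), (.ofNat (nat_lit 42513078329065732065009937920))⟩,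
    ⟨nat_lit 3, nat_lit 4, (.negSucc (nat_lit 923196671)), (.negSucc (nat_lit 73064127)), (.negSucc (nat_lit 923196655)), (.negSucc (nat_lit 73064143)), (.ofNat (nat_lit 6736229129654487334404)), (.ofNat (nat_lit 103634300545367358249)), (.ofNat (nat_lit 233862761066127592370827032576))⟩,
    ⟨nat_lit 5, nat_lit 4, (.negSucc (nat_lit 283156159)), (.negSucc (nat_lit 73064127)), (.negSucc (nat_lit 283156143)), (.negSucc (nat_lit 73064143)), (.negSucc (nat_lit 6736229129654487334403)), (.negSucc (nat_lit 103634300545367358248)), (.ofNat (nat_lit 218718861465653211430573448832))⟩,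
    ⟨nat_lit 6, nat_lit 5, (.negSucc (nat_lit 1209474303)), (.negSucc (nat_lit 283156159)), (.negSucc (nat_lit 1209474287)), (.negSucc (nat_lit 283156175)), (.ofNat (nat_lit 6736229129654487334404)), (.ofNat (nat_lit 103634300545367358249)), (.ofNat (nat_lit 277408242639077465332835776512))⟩,
    ⟨nat_lit 6, nat_lit 14, (.negSucc (nat_lit 1209474303)), (.negSucc (nat_lit 1098489087)), (.negSucc (nat_lit 1209474287)), (.negSucc (nat_lit 1098489103)), (.negSucc (nat_lit 6736229129654487334403)), (.negSucc (nat_lit 103634300545367358248)), (.ofNat (nat_lit 26722195593807453247779909120))⟩,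
    ⟨nat_lit 22, nat_lit 7, (.negSucc (nat_lit 1168661567)), (.negSucc (nat_lit 942382335)), (.negSucc (nat_lit 1168661551)), (.negSucc (nat_lit 942382351)), (.ofNat (nat_lit 6736229129654487334404)), (.ofNat (nat_lit 103634300545367358249)), (.ofNat (nat_lit 248855609942722280753207801856))⟩,
    ⟨nat_lit 7, nat_lit 8, (.negSucc (nat_lit 942382335)), (.ofNat (nat_lit 239648512)), (.negSucc (nat_lit 942382319)), (.ofNat (nat_lit 239648496)), (.negSucc (nat_lit 6736229129654487334403)), (.negSucc (nat_lit 103634300545367358248)), (.ofNat (nat_lit 53529341467383550663524822528))⟩,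
    ⟨nat_lit 8, nat_lit 9, (.ofNat (nat_lit 239648512)), (.ofNat (nat_lit 1008123200)), (.ofNat (nat_lit 239648528)), (.ofNat (nat_lit 1008123184)), (.ofNat (nat_lit 6736229129654487334404)), (.ofNat (nat_lit 103634300545367358249)), (.ofNat (nat_lit 3857729631667398868037271552))⟩,
    ⟨nat_lit 10, nat_lit 9, (.ofNat (nat_lit 324558848)), (.ofNat (nat_lit 1008123200)), (.ofNat (nat_lit 324558864)), (.ofNat (nat_lit 1008123184)), (.negSucc (nat_lit 6736218941327845918259)), (.negSucc (nat_lit 103624112218725942104)), (.ofNat (nat_lit 212799743934325981919472884352))⟩,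
    ⟨nat_lit 23, nat_lit 10, (.negSucc (nat_lit 94936831)), (.ofNat (nat_lit 324558848)), (.negSucc (nat_lit 94936815)), (.ofNat (nat_lit 324558832)), (.ofNat (nat_lit 6736221079318194420060)), (.ofNat (nat_lit 103626250209074443905)), (.ofNat (nat_lit 145534805057176605462111967872))⟩,
    ⟨nat_lit 21, nat_lit 23, (.negSucc (nat_lit 94936895)), (.negSucc (nat_lit 94936831)), (.negSucc (nat_lit 94936879)), (.negSucc (nat_lit 94936847)), (.ofNat (nat_lit 6736221079318194420060)), (.ofNat (nat_lit 13368815908427314396215)), (.ofNat (nat_lit 1404889887087579071150254449792))⟩,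
    ⟨nat_lit 12, nat_lit 11, (.negSucc (nat_lit 140222399)), (.ofNat (nat_lit 401694464)), (.negSucc (nat_lit 140222383)), (.ofNat (nat_lit 401694448)), (.ofNat (nat_lit 6736229129654487334404)), (.ofNat (nat_lit 103634300545367358249)), (.ofNat (nat_lit 85717259816417940161688951168))⟩,
    ⟨nat_lit 13, nat_lit 12, (.negSucc (nat_lit 954080511)), (.negSucc (nat_lit 140222399)), (.negSucc (nat_lit 954080495)), (.negSucc (nat_lit 140222415)), (.negSucc (nat_lit 6736229129654487334403)), (.negSucc (nat_lit 103634300545367358248)), (.ofNat (nat_lit 56653559126832500451019795968))⟩,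
    ⟨nat_lit 14, nat_lit 13, (.negSucc (nat_lit 1098489087)), (.negSucc (nat_lit 954080511)), (.negSucc (nat_lit 1098489071)), (.negSucc (nat_lit 954080527)), (.ofNat (nat_lit 6736229129654487334404)), (.ofNat (nat_lit 103634300545367358249)), (.ofNat (nat_lit 254404492177004437223606482944))⟩,
    ⟨nat_lit 15, nat_lit 16, (.negSucc (nat_lit 109911999)), (.ofNat (nat_lit 856333760)), (.negSucc (nat_lit 109911983)), (.ofNat (nat_lit 856333744)), (.ofNat (nat_lit 6736229129654487334404)), (.ofNat (nat_lit 103634300545367358249)), (.ofNat (nat_lit 29410068077942570858347828992))⟩,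
    ⟨nat_lit 17, nat_lit 16, (.negSucc (nat_lit 100654783)), (.ofNat (nat_lit 856333760)), (.negSucc (nat_lit 100654767)), (.ofNat (nat_lit 856333744)), (.negSucc (nat_lit 6736229129654487334403)), (.negSucc (nat_lit 103634300545367358248)), (.ofNat (nat_lit 206901168579911531799614201472))⟩,
    ⟨nat_lit 18, nat_lit 17, (.negSucc (nat_lit 922279167)), (.negSucc (nat_lit 100654783)), (.negSucc (nat_lit 922279151)), (.negSucc (nat_lit 100654799)), (.ofNat (nat_lit 6736229129654487334404)), (.ofNat (nat_lit 103634300545367358249)), (.ofNat (nat_lit 227763744852681599090021627904))⟩,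
    ⟨nat_lit 19, nat_lit 18, (.negSucc (nat_lit 1102945535)), (.negSucc (nat_lit 922279167)), (.negSucc (nat_lit 1102945519)), (.negSucc (nat_lit 922279183)), (.negSucc (nat_lit 6736229129654487334403)), (.negSucc (nat_lit 103634300545367358248)), (.ofNat (nat_lit 36604231886194892249530314240))⟩,
    ⟨nat_lit 19, nat_lit 20, (.negSucc (nat_lit 1102945535)), (.negSucc (nat_lit 464297535)), (.negSucc (nat_lit 1102945519)), (.negSucc (nat_lit 464297551)), (.ofNat (nat_lit 6736229129654487334404)), (.ofNat (nat_lit 103634300545367358249)), (.ofNat (nat_lit 265210210212185478771224967168))⟩,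
    ⟨nat_lit 20, nat_lit 11, (.negSucc (nat_lit 464297535)), (.ofNat (nat_lit 401694464)), (.negSucc (nat_lit 464297519)), (.ofNat (nat_lit 401694448)), (.negSucc (nat_lit 6736229129654487334403)), (.negSucc (nat_lit 103634300545367358248)), (.ofNat (nat_lit 168975909435590437471545018240))⟩,
    ⟨nat_lit 0, nat_lit 21, (.negSucc (nat_lit 647650751)), (.negSucc (nat_lit 94936895)), (.negSucc (nat_lit 647650735)), (.negSucc (nat_lit 94936911)), (.ofNat (nat_lit 6736221079318194420060)), (.ofNat (nat_lit 103626250209074443905)), (.ofNat (nat_lit 145533956085038479494755020032))⟩,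
    ⟨nat_lit 22, nat_lit 15, (.negSucc (nat_lit 1168661567)), (.negSucc (nat_lit 109911999)), (.negSucc (nat_lit 1168661551)), (.negSucc (nat_lit 109912015)), (.negSucc (nat_lit 6736229129654487334403)), (.negSucc (nat_lit 103634300545367358248)), (.ofNat (nat_lit 6628761594857736698619652992))⟩]

theorem ok77 : stOK 23 23 S77 = true := by decide +kernel

def S78 : SD where
  vs := [
    ⟨nat_lit 0, nat_lit 0, nat_lit 22, (.ofNat (nat_lit 8)), (.negSucc (nat_lit 733882623)), (.ofNat (nat_lit 5681730983765755780389015101952)), (.negSucc (nat_lit 86231871)), (.ofNat (nat_lit 584409372168965447901526928640)), (.negSucc (nat_lit 733882639)), (.negSucc (nat_lit 733882607)), (.negSucc (nat_lit 6736229129654487334403)), (.ofNat (nat_lit 6736221079318194420060)), (.negSucc (nat_lit 6736229129654487334403)), (.ofNat (nat_lit 6736221079318194420060)), (.ofNat (nat_lit 0))⟩,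
    ⟨nat_lit 2, nat_lit 0, nat_lit 1, (.ofNat (nat_lit 8)), (.negSucc (nat_lit 1418102591)), (.ofNat (nat_lit 10290793463298616955391325281024)), (.negSucc (nat_lit 163654399)), (.ofNat (nat_lit 1105945260574055623875065981952)), (.negSucc (nat_lit 1418102607)), (.negSucc (nat_lit 1418102575)), (.negSucc (nat_lit 6736229129654487334403)), (.ofNat (nat_lit 6736229129654487334404)), (.negSucc (nat_lit 6736229129654487334403)), (.ofNat (nat_lit 6736229129654487334404)), (.ofNat (nat_lit 0))⟩,
    ⟨nat_lit 0, nat_lit 1, nat_lit 2, (.ofNat (nat_lit 8)), (.negSucc (nat_lit 1266731007)), (.ofNat (nat_lit 11310467136841358075907996456960)), (.negSucc (nat_lit 162867967)), (.ofNat (nat_lit 1111242846720948061658435988480)), (.negSucc (nat_lit 1266731023)), (.negSucc (nat_lit 1266730991)), (.ofNat (nat_lit 6736229129654487334404)), (.negSucc (nat_lit 6736229129654487334403)), (.negSucc (nat_lit 6736229129654487334403)), (.ofNat (nat_lit 6736229129654487334404)), (.ofNat (nat_lit 0))⟩,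
    ⟨nat_lit 0, nat_lit 2, nat_lit 3, (.ofNat (nat_lit 8)), (.negSucc (nat_lit 1062432767)), (.ofNat (nat_lit 9934267381416214505386967808000)), (.negSucc (nat_lit 139236095)), (.ofNat (nat_lit 952053142166281812746179464192)), (.negSucc (nat_lit 1062432783)), (.negSucc (nat_lit 1062432751)), (.negSucc (nat_lit 6736229129654487334403)), (.ofNat (nat_lit 6736229129654487334404)), (.negSucc (nat_lit 6736229129654487334403)), (.ofNat (nat_lit 6736229129654487334404)), (.ofNat (nat_lit 0))⟩,
    ⟨nat_lit 1, nat_lit 3, nat_lit 4, (.ofNat (nat_lit 8)), (.negSucc (nat_lit 210465215)), (.ofNat (nat_lit 15673316022719038685494149067008)), (.negSucc (nat_lit 137401087)), (.ofNat (nat_lit 964414176509030834240709479424)), (.negSucc (nat_lit 210465231)), (.negSucc (nat_lit 210465199)), (.ofNat (nat_lit 6736229129654487334404)), (.negSucc (nat_lit 6736229129654487334403)), (.negSucc (nat_lit 6736229129654487334403)), (.ofNat (nat_lit 6736229129654487334404)), (.ofNat (nat_lit 0))⟩,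
    ⟨nat_lit 0, nat_lit 5, nat_lit 4, (.ofNat (nat_lit 8)), (.negSucc (nat_lit 448129471)), (.ofNat (nat_lit 17274276907063899954886698930432)), (.negSucc (nat_lit 164973311)), (.ofNat (nat_lit 1150146994987189401630059473920)), (.negSucc (nat_lit 448129487)), (.negSucc (nat_lit 448129455)), (.ofNat (nat_lit 6736229129654487334404)), (.negSucc (nat_lit 6736229129654487334403)), (.negSucc (nat_lit 6736229129654487334403)), (.ofNat (nat_lit 6736229129654487334404)), (.ofNat (nat_lit 0))⟩,
    ⟨nat_lit 2, nat_lit 6, nat_lit 5, (.ofNat (nat_lit 8)), (.negSucc (nat_lit 1376806911)), (.ofNat (nat_lit 11018492883682942572659968284672)), (.negSucc (nat_lit 167332607)), (.ofNat (nat_lit 1134254236546512088279949454336)), (.negSucc (nat_lit 1376806927)), (.negSucc (nat_lit 1376806895)), (.negSucc (nat_lit 6736229129654487334403)), (.ofNat (nat_lit 6736229129654487334404)), (.negSucc (nat_lit 6736229129654487334403)), (.ofNat (nat_lit 6736229129654487334404)), (.ofNat (nat_lit 0))⟩,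
    ⟨nat_lit 0, nat_lit 7, nat_lit 8, (.ofNat (nat_lit 8)), (.negSucc (nat_lit 1090660351)), (.ofNat (nat_lit 10844003639969672903170218694656)), (.negSucc (nat_lit 148278015)), (.ofNat (nat_lit 1016493311156215606720453684224)), (.negSucc (nat_lit 1090660367)), (.negSucc (nat_lit 1090660335)), (.ofNat (nat_lit 6736229129654487334404)), (.negSucc (nat_lit 6736229129654487334403)), (.negSucc (nat_lit 6736229129654487334403)), (.ofNat (nat_lit 6736229129654487334404)), (.ofNat (nat_lit 0))⟩,
    ⟨nat_lit 0, nat_lit 8, nat_lit 9, (.ofNat (nat_lit 8)), (.ofNat (nat_lit 240959232)), (.ofNat (nat_lit 1873909008610482415197895326720)), (.ofNat (nat_lit 1310720)), (.ofNat (nat_lit 8829310244820729638950010880)), (.ofNat (nat_lit 240959216)), (.ofNat (nat_lit 240959248)), (.negSucc (nat_lit 6736229129654487334403)), (.ofNat (nat_lit 6736229129654487334404)), (.negSucc (nat_lit 6736229129654487334403)), (.ofNat (nat_lit 6736229129654487334404)), (.ofNat (nat_lit 0))⟩,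
    ⟨nat_lit 1, nat_lit 9, nat_lit 10, (.ofNat (nat_lit 8)), (.ofNat (nat_lit 1010744640)), (.ofNat (nat_lit 7059359897563046846942910903552)), (.ofNat (nat_lit 2621440)), (.ofNat (nat_lit 17658620489641459277900021760)), (.ofNat (nat_lit 1010744624)), (.ofNat (nat_lit 1010744656)), (.ofNat (nat_lit 6736229129654487334404)), (.negSucc (nat_lit 6736218941327845918259)), (.negSucc (nat_lit 6736218941327845918259)), (.ofNat (nat_lit 6736229129654487334404)), (.ofNat (nat_lit 0))⟩,
    ⟨nat_lit 0, nat_lit 11, nat_lit 10, (.ofNat (nat_lit 8)), (.ofNat (nat_lit 240686208)), (.ofNat (nat_lit 12246642093130667872695806671872)), (.negSucc (nat_lit 83872639)), (.ofNat (nat_lit 600301680498367470359553922560)), (.ofNat (nat_lit 240686192)), (.ofNat (nat_lit 240686224)), (.ofNat (nat_lit 6736221079318194420060)), (.negSucc (nat_lit 6736218941327845918259)), (.negSucc (nat_lit 6736218941327845918259)), (.ofNat (nat_lit 6736221079318194420060)), (.ofNat (nat_lit 0))⟩,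
    ⟨nat_lit 1, nat_lit 13, nat_lit 21, (.ofNat (nat_lit 8)), (.ofNat (nat_lit 353899392)), (.ofNat (nat_lit 8627739851090923887770794303488)), (.negSucc (nat_lit 47795071)), (.ofNat (nat_lit 350212349043759892115567291904)), (.ofNat (nat_lit 353899376)), (.ofNat (nat_lit 353899408)), (.ofNat (nat_lit 6736229129654487334404)), (.negSucc (nat_lit 6736229129654487334403)), (.negSucc (nat_lit 6736229129654487334403)), (.ofNat (nat_lit 6736229129654487334404)), (.ofNat (nat_lit 0))⟩,
    ⟨nat_lit 0, nat_lit 14, nat_lit 13, (.ofNat (nat_lit 8)), (.negSucc (nat_lit 188541759)), (.ofNat (nat_lit 4973731961865186416127279310080)), (.negSucc (nat_lit 48319359)), (.ofNat (nat_lit 346680624945831600259987287552)), (.negSucc (nat_lit 188541775)), (.negSucc (nat_lit 188541743)), (.negSucc (nat_lit 6736229129654487334403)), (.ofNat (nat_lit 6736229129654487334404)), (.negSucc (nat_lit 6736229129654487334403)), (.ofNat (nat_lit 6736229129654487334404)), (.ofNat (nat_lit 0))⟩,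
    ⟨nat_lit 0, nat_lit 15, nat_lit 14, (.ofNat (nat_lit 8)), (.negSucc (nat_lit 1105704959)), (.ofNat (nat_lit 11151953426352310914108722042880)), (.negSucc (nat_lit 151624447)), (.ofNat (nat_lit 1042567367972951823935477935104)), (.negSucc (nat_lit 1105704975)), (.negSucc (nat_lit 1105704943)), (.ofNat (nat_lit 6736229129654487334404)), (.negSucc (nat_lit 6736229129654487334403)), (.negSucc (nat_lit 6736229129654487334403)), (.ofNat (nat_lit 6736229129654487334404)), (.ofNat (nat_lit 0))⟩,
    ⟨nat_lit 0, nat_lit 6, nat_lit 15, (.ofNat (nat_lit 8)), (.negSucc (nat_lit 1251162111)), (.ofNat (nat_lit 10172120721933330442426244585472)), (.negSucc (nat_lit 152673023)), (.ofNat (nat_lit 1035503919777095240224317926400)), (.negSucc (nat_lit 1251162127)), (.negSucc (nat_lit 1251162095)), (.negSucc (nat_lit 6736229129654487334403)), (.ofNat (nat_lit 6736229129654487334404)), (.negSucc (nat_lit 6736229129654487334403)), (.ofNat (nat_lit 6736229129654487334404)), (.ofNat (nat_lit 0))⟩,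
    ⟨nat_lit 0, nat_lit 23, nat_lit 16, (.ofNat (nat_lit 8)), (.negSucc (nat_lit 125584255)), (.ofNat (nat_lit 1276833801203109339558931270656)), (.negSucc (nat_lit 15672255)), (.ofNat (nat_lit 105571907394602317053537095424)), (.negSucc (nat_lit 125584271)), (.negSucc (nat_lit 125584239)), (.negSucc (nat_lit 6736229129654487334403)), (.ofNat (nat_lit 6736229129654487334404)), (.negSucc (nat_lit 6736229129654487334403)), (.ofNat (nat_lit 6736229129654487334404)), (.ofNat (nat_lit 0))⟩,
    ⟨nat_lit 1, nat_lit 16, nat_lit 17, (.ofNat (nat_lit 8)), (.ofNat (nat_lit 843020800)), (.ofNat (nat_lit 7801579394560925304750608417280)), (.negSucc (nat_lit 13312959)), (.ofNat (nat_lit 121464665835279630403647115008)), (.ofNat (nat_lit 843020784)), (.ofNat (nat_lit 843020816)), (.ofNat (nat_lit 6736229129654487334404)), (.negSucc (nat_lit 6736229129654487334403)), (.negSucc (nat_lit 6736229129654487334403)), (.ofNat (nat_lit 6736229129654487334404)), (.ofNat (nat_lit 0))⟩,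
    ⟨nat_lit 0, nat_lit 18, nat_lit 17, (.ofNat (nat_lit 8)), (.negSucc (nat_lit 234639807)), (.ofNat (nat_lit 15060948174051690955472722374912)), (.negSucc (nat_lit 133985023)), (.ofNat (nat_lit 934339338487610223908036004864)), (.negSucc (nat_lit 234639823)), (.negSucc (nat_lit 234639791)), (.ofNat (nat_lit 6736229129654487334404)), (.negSucc (nat_lit 6736229129654487334403)), (.negSucc (nat_lit 6736229129654487334403)), (.ofNat (nat_lit 6736229129654487334404)), (.ofNat (nat_lit 0))⟩,
    ⟨nat_lit 0, nat_lit 19, nat_lit 18, (.ofNat (nat_lit 8)), (.negSucc (nat_lit 1057837055)), (.ofNat (nat_lit 9515702892622681790940493854720)), (.negSucc (nat_lit 135557887)), (.ofNat (nat_lit 923744166193825348341295991808)), (.negSucc (nat_lit 1057837071)), (.negSucc (nat_lit 1057837039)), (.negSucc (nat_lit 6736229129654487334403)), (.ofNat (nat_lit 6736229129654487334404)), (.negSucc (nat_lit 6736229129654487334403)), (.ofNat (nat_lit 6736229129654487334404)), (.ofNat (nat_lit 0))⟩,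
    ⟨nat_lit 2, nat_lit 19, nat_lit 20, (.ofNat (nat_lit 8)), (.negSucc (nat_lit 1262135295)), (.ofNat (nat_lit 10891902648047825361461522503680)), (.negSucc (nat_lit 159189759)), (.ofNat (nat_lit 1082933870748491597253552516096)), (.negSucc (nat_lit 1262135311)), (.negSucc (nat_lit 1262135279)), (.negSucc (nat_lit 6736229129654487334403)), (.ofNat (nat_lit 6736229129654487334404)), (.negSucc (nat_lit 6736229129654487334403)), (.ofNat (nat_lit 6736229129654487334404)), (.ofNat (nat_lit 0))⟩,
    ⟨nat_lit 0, nat_lit 20, nat_lit 21, (.ofNat (nat_lit 8)), (.negSucc (nat_lit 622176575)), (.ofNat (nat_lit 15202811219488225118242918306560)), (.negSucc (nat_lit 157879039)), (.ofNat (nat_lit 1091763180993312326892502526976)), (.negSucc (nat_lit 622176591)), (.negSucc (nat_lit 622176559)), (.ofNat (nat_lit 6736229129654487334404)), (.negSucc (nat_lit 6736229129654487334403)), (.negSucc (nat_lit 6736229129654487334403)), (.ofNat (nat_lit 6736229129654487334404)), (.ofNat (nat_lit 0))⟩,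
    ⟨nat_lit 0, nat_lit 22, nat_lit 12, (.ofNat (nat_lit 8)), (.negSucc (nat_lit 179595967)), (.ofNat (nat_lit 9415528439897748525441931821312)), (.negSucc (nat_lit 84659071)), (.ofNat (nat_lit 595004100682517104085397296640)), (.negSucc (nat_lit 179595983)), (.negSucc (nat_lit 179595951)), (.ofNat (nat_lit 6736221079318194420060)), (.ofNat (nat_lit 6736221079318194420060)), (.ofNat (nat_lit 6736221079318194420060)), (.ofNat (nat_lit 6736221079318194420060)), (.ofNat (nat_lit 0))⟩,
    ⟨nat_lit 2, nat_lit 23, nat_lit 7, (.ofNat (nat_lit 8)), (.negSucc (nat_lit 1318250303)), (.ofNat (nat_lit 9310905575690606354148604386048)), (.negSucc (nat_lit 149588735)), (.ofNat (nat_lit 1007664000911394877081503673344)), (.negSucc (nat_lit 1318250319)), (.negSucc (nat_lit 1318250287)), (.negSucc (nat_lit 6736229129654487334403)), (.ofNat (nat_lit 6736229129654487334404)), (.negSucc (nat_lit 6736229129654487334403)), (.ofNat (nat_lit 6736229129654487334404)), (.ofNat (nat_lit 0))⟩,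
    ⟨nat_lit 0, nat_lit 12, nat_lit 11, (.ofNat (nat_lit 8)), (.negSucc (nat_lit 179595903)), (.ofNat (nat_lit 9415528871015897601806374705152)), (.negSucc (nat_lit 84659071)), (.ofNat (nat_lit 595004100682517104085397296640)), (.negSucc (nat_lit 179595919)), (.negSucc (nat_lit 179595887)), (.ofNat (nat_lit 6736221079318194420060)), (.ofNat (nat_lit 6736221079318194420060)), (.ofNat (nat_lit 6736221079318194420060)), (.ofNat (nat_lit 6736221079318194420060)), (.ofNat (nat_lit 0))⟩]
  es := [
    ⟨nat_lit 1, nat_lit 0, (.negSucc (nat_lit 1418102591)), (.negSucc (nat_lit 733882623)), (.negSucc (nat_lit 1418102575)), (.negSucc (nat_lit 733882639)), (.negSucc (nat_lit 6736229129654487334403)), (.ofNat (nat_lit 0)), (.ofNat (nat_lit 3531724097928291855580004352))⟩,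
    ⟨nat_lit 1, nat_lit 2, (.negSucc (nat_lit 1418102591)), (.negSucc (nat_lit 1266731007)), (.negSucc (nat_lit 1418102575)), (.negSucc (nat_lit 1266731023)), (.ofNat (nat_lit 6736229129654487334404)), (.ofNat (nat_lit 0)), (.ofNat (nat_lit 2208358797050182955894551959552))⟩,
    ⟨nat_lit 2, nat_lit 3, (.negSucc (nat_lit 1266731007)), (.negSucc (nat_lit 1062432767)), (.negSucc (nat_lit 1266730991)), (.negSucc (nat_lit 1062432783)), (.negSucc (nat_lit 6736229129654487334403)), (.ofNat (nat_lit 0)), (.ofNat (nat_lit 14126896391713167422320017408))⟩,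
    ⟨nat_lit 3, nat_lit 4, (.negSucc (nat_lit 1062432767)), (.negSucc (nat_lit 210465215)), (.negSucc (nat_lit 1062432751)), (.negSucc (nat_lit 210465231)), (.ofNat (nat_lit 6736229129654487334404)), (.ofNat (nat_lit 0)), (.ofNat (nat_lit 1889979387940850458070038910976))⟩,
    ⟨nat_lit 5, nat_lit 4, (.negSucc (nat_lit 448129471)), (.negSucc (nat_lit 210465215)), (.negSucc (nat_lit 448129455)), (.negSucc (nat_lit 210465231)), (.negSucc (nat_lit 6736229129654487334403)), (.ofNat (nat_lit 0)), (.ofNat (nat_lit 38848965077211210411380047872))⟩,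
    ⟨nat_lit 6, nat_lit 5, (.negSucc (nat_lit 1376806911)), (.negSucc (nat_lit 448129471)), (.negSucc (nat_lit 1376806895)), (.negSucc (nat_lit 448129487)), (.ofNat (nat_lit 6736229129654487334404)), (.ofNat (nat_lit 0)), (.ofNat (nat_lit 2261445024897167592848738899968))⟩,
    ⟨nat_lit 6, nat_lit 14, (.negSucc (nat_lit 1376806911)), (.negSucc (nat_lit 1251162111)), (.negSucc (nat_lit 1376806895)), (.negSucc (nat_lit 1251162127)), (.negSucc (nat_lit 6736229129654487334403)), (.ofNat (nat_lit 0)), (.ofNat (nat_lit 7063448195856583711160008704))⟩,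
    ⟨nat_lit 22, nat_lit 7, (.negSucc (nat_lit 1318250303)), (.negSucc (nat_lit 1090660351)), (.negSucc (nat_lit 1318250287)), (.negSucc (nat_lit 1090660367)), (.ofNat (nat_lit 6736229129654487334404)), (.ofNat (nat_lit 0)), (.ofNat (nat_lit 2015328001822789754163007346688))⟩,
    ⟨nat_lit 7, nat_lit 8, (.negSucc (nat_lit 1090660351)), (.ofNat (nat_lit 240959232)), (.negSucc (nat_lit 1090660335)), (.ofNat (nat_lit 240959216)), (.negSucc (nat_lit 6736229129654487334403)), (.ofNat (nat_lit 0)), (.ofNat (nat_lit 17658620489641459277900021760))⟩,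
    ⟨nat_lit 8, nat_lit 9, (.ofNat (nat_lit 240959232)), (.ofNat (nat_lit 1010744640)), (.ofNat (nat_lit 240959248)), (.ofNat (nat_lit 1010744624)), (.ofNat (nat_lit 6736229129654487334404)), (.ofNat (nat_lit 0)), (.ofNat (nat_lit 0))⟩,
    ⟨nat_lit 10, nat_lit 9, (.ofNat (nat_lit 240686208)), (.ofNat (nat_lit 1010744640)), (.ofNat (nat_lit 240686224)), (.ofNat (nat_lit 1010744624)), (.negSucc (nat_lit 6736218941327845918259)), (.ofNat (nat_lit 0)), (.ofNat (nat_lit 35317214271195927681863516160))⟩,
    ⟨nat_lit 23, nat_lit 10, (.negSucc (nat_lit 179595903)), (.ofNat (nat_lit 240686208)), (.negSucc (nat_lit 179595887)), (.ofNat (nat_lit 240686192)), (.ofNat (nat_lit 6736221079318194420060)), (.ofNat (nat_lit 0)), (.ofNat (nat_lit 1165286326044433836403255080960))⟩,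
    ⟨nat_lit 21, nat_lit 23, (.negSucc (nat_lit 179595967)), (.negSucc (nat_lit 179595903)), (.negSucc (nat_lit 179595951)), (.negSucc (nat_lit 179595919)), (.ofNat (nat_lit 6736221079318194420060)), (.ofNat (nat_lit 0)), (.ofNat (nat_lit 1165286326044433836403255080960))⟩,
    ⟨nat_lit 12, nat_lit 11, (.negSucc (nat_lit 188541759)), (.ofNat (nat_lit 353899392)), (.negSucc (nat_lit 188541743)), (.ofNat (nat_lit 353899376)), (.ofNat (nat_lit 6736229129654487334404)), (.ofNat (nat_lit 0)), (.ofNat (nat_lit 672170905304093449386494548992))⟩,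
    ⟨nat_lit 13, nat_lit 12, (.negSucc (nat_lit 1105704959)), (.negSucc (nat_lit 188541759)), (.negSucc (nat_lit 1105704943)), (.negSucc (nat_lit 188541775)), (.negSucc (nat_lit 6736229129654487334403)), (.ofNat (nat_lit 0)), (.ofNat (nat_lit 21190344587569751133480026112))⟩,
    ⟨nat_lit 14, nat_lit 13, (.negSucc (nat_lit 1251162111)), (.negSucc (nat_lit 1105704959)), (.negSucc (nat_lit 1251162095)), (.negSucc (nat_lit 1105704975)), (.ofNat (nat_lit 6736229129654487334404)), (.ofNat (nat_lit 0)), (.ofNat (nat_lit 2063944391358333896737475844096))⟩,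
    ⟨nat_lit 15, nat_lit 16, (.negSucc (nat_lit 125584255)), (.ofNat (nat_lit 843020800)), (.negSucc (nat_lit 125584239)), (.ofNat (nat_lit 843020784)), (.ofNat (nat_lit 6736229129654487334404)), (.ofNat (nat_lit 0)), (.ofNat (nat_lit 211143814789204634107074190848))⟩,
    ⟨nat_lit 17, nat_lit 16, (.negSucc (nat_lit 234639807)), (.ofNat (nat_lit 843020800)), (.negSucc (nat_lit 234639791)), (.ofNat (nat_lit 843020784)), (.negSucc (nat_lit 6736229129654487334403)), (.ofNat (nat_lit 0)), (.ofNat (nat_lit 31785516881354626700220039168))⟩,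
    ⟨nat_lit 18, nat_lit 17, (.negSucc (nat_lit 1057837055)), (.negSucc (nat_lit 234639807)), (.negSucc (nat_lit 1057837039)), (.negSucc (nat_lit 234639823)), (.ofNat (nat_lit 6736229129654487334404)), (.ofNat (nat_lit 0)), (.ofNat (nat_lit 1836893160093865821115851970560))⟩,
    ⟨nat_lit 19, nat_lit 18, (.negSucc (nat_lit 1262135295)), (.negSucc (nat_lit 1057837055)), (.negSucc (nat_lit 1262135279)), (.negSucc (nat_lit 1057837071)), (.negSucc (nat_lit 6736229129654487334403)), (.ofNat (nat_lit 0)), (.ofNat (nat_lit 10595172293784875566740013056))⟩,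
    ⟨nat_lit 19, nat_lit 20, (.negSucc (nat_lit 1262135295)), (.negSucc (nat_lit 622176575)), (.negSucc (nat_lit 1262135279)), (.negSucc (nat_lit 622176591)), (.ofNat (nat_lit 6736229129654487334404)), (.ofNat (nat_lit 0)), (.ofNat (nat_lit 2155272569203198318940365019136))⟩,
    ⟨nat_lit 20, nat_lit 11, (.negSucc (nat_lit 622176575)), (.ofNat (nat_lit 353899392)), (.negSucc (nat_lit 622176559)), (.ofNat (nat_lit 353899376)), (.negSucc (nat_lit 6736229129654487334403)), (.ofNat (nat_lit 0)), (.ofNat (nat_lit 28253792783426334844640034816))⟩,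
    ⟨nat_lit 0, nat_lit 21, (.negSucc (nat_lit 733882623)), (.negSucc (nat_lit 179595967)), (.negSucc (nat_lit 733882607)), (.negSucc (nat_lit 179595983)), (.ofNat (nat_lit 6736221079318194420060)), (.ofNat (nat_lit 0)), (.ofNat (nat_lit 1165286326044433836403255080960))⟩,
    ⟨nat_lit 22, nat_lit 15, (.negSucc (nat_lit 1318250303)), (.negSucc (nat_lit 125584255)), (.negSucc (nat_lit 1318250287)), (.negSucc (nat_lit 125584271)), (.negSucc (nat_lit 6736229129654487334403)), (.ofNat (nat_lit 0)), (.ofNat (nat_lit 0))⟩]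

theorem ok78 : stOK 23 23 S78 = true := by decide +kernel

def S79 : SD where
  vs := [
    ⟨nat_lit 0, nat_lit 0, nat_lit 21, (.ofNat (nat_lit 8)), (.negSucc (nat_lit 733882623)), (.ofNat (nat_lit 5681730983765755780389015101952)), (.negSucc (nat_lit 86231871)), (.ofNat (nat_lit 584409372168965447901526928640)), (.negSucc (nat_lit 733882639)), (.negSucc (nat_lit 733882607)), (.negSucc (nat_lit 6736229129654487334403)), (.ofNat (nat_lit 6736221079318194420060)), (.negSucc (nat_lit 6736229129654487334403)), (.ofNat (nat_lit 6736221079318194420060)), (.ofNat (nat_lit 0))⟩,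
    ⟨nat_lit 2, nat_lit 0, nat_lit 1, (.ofNat (nat_lit 8)), (.negSucc (nat_lit 1418102591)), (.ofNat (nat_lit 10290793463298616955391325281024)), (.negSucc (nat_lit 163654399)), (.ofNat (nat_lit 1105945260574055623875065981952)), (.negSucc (nat_lit 1418102607)), (.negSucc (nat_lit 1418102575)), (.negSucc (nat_lit 6736229129654487334403)), (.ofNat (nat_lit 6736229129654487334404)), (.negSucc (nat_lit 6736229129654487334403)), (.ofNat (nat_lit 6736229129654487334404)), (.ofNat (nat_lit 0))⟩,
    ⟨nat_lit 0, nat_lit 1, nat_lit 2, (.ofNat (nat_lit 8)), (.negSucc (nat_lit 1266731007)), (.ofNat (nat_lit 11310467136841358075907996456960)), (.negSucc (nat_lit 162867967)), (.ofNat (nat_lit 1111242846720948061658435988480)), (.negSucc (nat_lit 1266731023)), (.negSucc (nat_lit 1266730991)), (.ofNat (nat_lit 6736229129654487334404)), (.negSucc (nat_lit 6736229129654487334403)), (.negSucc (nat_lit 6736229129654487334403)), (.ofNat (nat_lit 6736229129654487334404)), (.ofNat (nat_lit 0))⟩,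
    ⟨nat_lit 0, nat_lit 2, nat_lit 3, (.ofNat (nat_lit 8)), (.negSucc (nat_lit 1062432767)), (.ofNat (nat_lit 9934267381416214505386967808000)), (.negSucc (nat_lit 139236095)), (.ofNat (nat_lit 952053142166281812746179464192)), (.negSucc (nat_lit 1062432783)), (.negSucc (nat_lit 1062432751)), (.negSucc (nat_lit 6736229129654487334403)), (.ofNat (nat_lit 6736229129654487334404)), (.negSucc (nat_lit 6736229129654487334403)), (.ofNat (nat_lit 6736229129654487334404)), (.ofNat (nat_lit 0))⟩,
    ⟨nat_lit 1, nat_lit 3, nat_lit 4, (.ofNat (nat_lit 8)), (.negSucc (nat_lit 210465215)), (.ofNat (nat_lit 15673316022719038685494149067008)), (.negSucc (nat_lit 137401087)), (.ofNat (nat_lit 964414176509030834240709479424)), (.negSucc (nat_lit 210465231)), (.negSucc (nat_lit 210465199)), (.ofNat (nat_lit 6736229129654487334404)), (.negSucc (nat_lit 6736229129654487334403)), (.negSucc (nat_lit 6736229129654487334403)), (.ofNat (nat_lit 6736229129654487334404)), (.ofNat (nat_lit 0))⟩,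
    ⟨nat_lit 0, nat_lit 5, nat_lit 4, (.ofNat (nat_lit 8)), (.negSucc (nat_lit 448129471)), (.ofNat (nat_lit 17274276907063899954886698930432)), (.negSucc (nat_lit 164973311)), (.ofNat (nat_lit 1150146994987189401630059473920)), (.negSucc (nat_lit 448129487)), (.negSucc (nat_lit 448129455)), (.ofNat (nat_lit 6736229129654487334404)), (.negSucc (nat_lit 6736229129654487334403)), (.negSucc (nat_lit 6736229129654487334403)), (.ofNat (nat_lit 6736229129654487334404)), (.ofNat (nat_lit 0))⟩,
    ⟨nat_lit 2, nat_lit 6, nat_lit 5, (.ofNat (nat_lit 8)), (.negSucc (nat_lit 1376806911)), (.ofNat (nat_lit 11018492883682942572659968284672)), (.negSucc (nat_lit 167332607)), (.ofNat (nat_lit 1134254236546512088279949454336)), (.negSucc (nat_lit 1376806927)), (.negSucc (nat_lit 1376806895)), (.negSucc (nat_lit 6736229129654487334403)), (.ofNat (nat_lit 6736229129654487334404)), (.negSucc (nat_lit 6736229129654487334403)), (.ofNat (nat_lit 6736229129654487334404)), (.ofNat (nat_lit 0))⟩,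
    ⟨nat_lit 0, nat_lit 7, nat_lit 8, (.ofNat (nat_lit 8)), (.negSucc (nat_lit 1090660351)), (.ofNat (nat_lit 10844003639969672903170218694656)), (.negSucc (nat_lit 148278015)), (.ofNat (nat_lit 1016493311156215606720453684224)), (.negSucc (nat_lit 1090660367)), (.negSucc (nat_lit 1090660335)), (.ofNat (nat_lit 6736229129654487334404)), (.negSucc (nat_lit 6736229129654487334403)), (.negSucc (nat_lit 6736229129654487334403)), (.ofNat (nat_lit 6736229129654487334404)), (.ofNat (nat_lit 0))⟩,
    ⟨nat_lit 0, nat_lit 8, nat_lit 9, (.ofNat (nat_lit 8)), (.ofNat (nat_lit 240959232)), (.ofNat (nat_lit 1873909008610482415197895326720)), (.ofNat (nat_lit 1310720)), (.ofNat (nat_lit 8829310244820729638950010880)), (.ofNat (nat_lit 240959216)), (.ofNat (nat_lit 240959248)), (.negSucc (nat_lit 6736229129654487334403)), (.ofNat (nat_lit 6736229129654487334404)), (.negSucc (nat_lit 6736229129654487334403)), (.ofNat (nat_lit 6736229129654487334404)), (.ofNat (nat_lit 0))⟩,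
    ⟨nat_lit 1, nat_lit 9, nat_lit 10, (.ofNat (nat_lit 8)), (.ofNat (nat_lit 1010744640)), (.ofNat (nat_lit 7059359897563046846942910903552)), (.ofNat (nat_lit 2621440)), (.ofNat (nat_lit 17658620489641459277900021760)), (.ofNat (nat_lit 1010744624)), (.ofNat (nat_lit 1010744656)), (.ofNat (nat_lit 6736229129654487334404)), (.negSucc (nat_lit 6736218941327845918259)), (.negSucc (nat_lit 6736218941327845918259)), (.ofNat (nat_lit 6736229129654487334404)), (.ofNat (nat_lit 0))⟩,
    ⟨nat_lit 0, nat_lit 11, nat_lit 10, (.ofNat (nat_lit 8)), (.ofNat (nat_lit 240686208)), (.ofNat (nat_lit 12246642093130667872695806671872)), (.negSucc (nat_lit 83872639)), (.ofNat (nat_lit 600301680498367470359553922560)), (.ofNat (nat_lit 240686192)), (.ofNat (nat_lit 240686224)), (.ofNat (nat_lit 6736221079318194420060)), (.negSucc (nat_lit 6736218941327845918259)), (.negSucc (nat_lit 6736218941327845918259)), (.ofNat (nat_lit 6736221079318194420060)), (.ofNat (nat_lit 0))⟩,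
    ⟨nat_lit 1, nat_lit 12, nat_lit 20, (.ofNat (nat_lit 8)), (.ofNat (nat_lit 353899392)), (.ofNat (nat_lit 8627739851090923887770794303488)), (.negSucc (nat_lit 47795071)), (.ofNat (nat_lit 350212349043759892115567291904)), (.ofNat (nat_lit 353899376)), (.ofNat (nat_lit 353899408)), (.ofNat (nat_lit 6736229129654487334404)), (.negSucc (nat_lit 6736229129654487334403)), (.negSucc (nat_lit 6736229129654487334403)), (.ofNat (nat_lit 6736229129654487334404)), (.ofNat (nat_lit 0))⟩,
    ⟨nat_lit 0, nat_lit 13, nat_lit 12, (.ofNat (nat_lit 8)), (.negSucc (nat_lit 188541759)), (.ofNat (nat_lit 4973731961865186416127279310080)), (.negSucc (nat_lit 48319359)), (.ofNat (nat_lit 346680624945831600259987287552)), (.negSucc (nat_lit 188541775)), (.negSucc (nat_lit 188541743)), (.negSucc (nat_lit 6736229129654487334403)), (.ofNat (nat_lit 6736229129654487334404)), (.negSucc (nat_lit 6736229129654487334403)), (.ofNat (nat_lit 6736229129654487334404)), (.ofNat (nat_lit 0))⟩,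
    ⟨nat_lit 0, nat_lit 14, nat_lit 13, (.ofNat (nat_lit 8)), (.negSucc (nat_lit 1105704959)), (.ofNat (nat_lit 11151953426352310914108722042880)), (.negSucc (nat_lit 151624447)), (.ofNat (nat_lit 1042567367972951823935477935104)), (.negSucc (nat_lit 1105704975)), (.negSucc (nat_lit 1105704943)), (.ofNat (nat_lit 6736229129654487334404)), (.negSucc (nat_lit 6736229129654487334403)), (.negSucc (nat_lit 6736229129654487334403)), (.ofNat (nat_lit 6736229129654487334404)), (.ofNat (nat_lit 0))⟩,
    ⟨nat_lit 0, nat_lit 6, nat_lit 14, (.ofNat (nat_lit 8)), (.negSucc (nat_lit 1251162111)), (.ofNat (nat_lit 10172120721933330442426244585472)), (.negSucc (nat_lit 152673023)), (.ofNat (nat_lit 1035503919777095240224317926400)), (.negSucc (nat_lit 1251162127)), (.negSucc (nat_lit 1251162095)), (.negSucc (nat_lit 6736229129654487334403)), (.ofNat (nat_lit 6736229129654487334404)), (.negSucc (nat_lit 6736229129654487334403)), (.ofNat (nat_lit 6736229129654487334404)), (.ofNat (nat_lit 0))⟩,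
    ⟨nat_lit 0, nat_lit 22, nat_lit 15, (.ofNat (nat_lit 8)), (.negSucc (nat_lit 125584255)), (.ofNat (nat_lit 1276833801203109339558931270656)), (.negSucc (nat_lit 15672255)), (.ofNat (nat_lit 105571907394602317053537095424)), (.negSucc (nat_lit 125584271)), (.negSucc (nat_lit 125584239)), (.negSucc (nat_lit 6736229129654487334403)), (.ofNat (nat_lit 6736229129654487334404)), (.negSucc (nat_lit 6736229129654487334403)), (.ofNat (nat_lit 6736229129654487334404)), (.ofNat (nat_lit 0))⟩,
    ⟨nat_lit 1, nat_lit 15, nat_lit 16, (.ofNat (nat_lit 8)), (.ofNat (nat_lit 843020800)), (.ofNat (nat_lit 7801579394560925304750608417280)), (.negSucc (nat_lit 13312959)), (.ofNat (nat_lit 121464665835279630403647115008)), (.ofNat (nat_lit 843020784)), (.ofNat (nat_lit 843020816)), (.ofNat (nat_lit 6736229129654487334404)), (.negSucc (nat_lit 6736229129654487334403)), (.negSucc (nat_lit 6736229129654487334403)), (.ofNat (nat_lit 6736229129654487334404)), (.ofNat (nat_lit 0))⟩,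
    ⟨nat_lit 0, nat_lit 17, nat_lit 16, (.ofNat (nat_lit 8)), (.negSucc (nat_lit 234639807)), (.ofNat (nat_lit 15060948174051690955472722374912)), (.negSucc (nat_lit 133985023)), (.ofNat (nat_lit 934339338487610223908036004864)), (.negSucc (nat_lit 234639823)), (.negSucc (nat_lit 234639791)), (.ofNat (nat_lit 6736229129654487334404)), (.negSucc (nat_lit 6736229129654487334403)), (.negSucc (nat_lit 6736229129654487334403)), (.ofNat (nat_lit 6736229129654487334404)), (.ofNat (nat_lit 0))⟩,
    ⟨nat_lit 0, nat_lit 18, nat_lit 17, (.ofNat (nat_lit 8)), (.negSucc (nat_lit 1057837055)), (.ofNat (nat_lit 9515702892622681790940493854720)), (.negSucc (nat_lit 135557887)), (.ofNat (nat_lit 923744166193825348341295991808)), (.negSucc (nat_lit 1057837071)), (.negSucc (nat_lit 1057837039)), (.negSucc (nat_lit 6736229129654487334403)), (.ofNat (nat_lit 6736229129654487334404)), (.negSucc (nat_lit 6736229129654487334403)), (.ofNat (nat_lit 6736229129654487334404)), (.ofNat (nat_lit 0))⟩,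
    ⟨nat_lit 2, nat_lit 18, nat_lit 19, (.ofNat (nat_lit 8)), (.negSucc (nat_lit 1262135295)), (.ofNat (nat_lit 10891902648047825361461522503680)), (.negSucc (nat_lit 159189759)), (.ofNat (nat_lit 1082933870748491597253552516096)), (.negSucc (nat_lit 1262135311)), (.negSucc (nat_lit 1262135279)), (.negSucc (nat_lit 6736229129654487334403)), (.ofNat (nat_lit 6736229129654487334404)), (.negSucc (nat_lit 6736229129654487334403)), (.ofNat (nat_lit 6736229129654487334404)), (.ofNat (nat_lit 0))⟩,
    ⟨nat_lit 0, nat_lit 19, nat_lit 20, (.ofNat (nat_lit 8)), (.negSucc (nat_lit 622176575)), (.ofNat (nat_lit 15202811219488225118242918306560)), (.negSucc (nat_lit 157879039)), (.ofNat (nat_lit 1091763180993312326892502526976)), (.negSucc (nat_lit 622176591)), (.negSucc (nat_lit 622176559)), (.ofNat (nat_lit 6736229129654487334404)), (.negSucc (nat_lit 6736229129654487334403)), (.negSucc (nat_lit 6736229129654487334403)), (.ofNat (nat_lit 6736229129654487334404)), (.ofNat (nat_lit 0))⟩,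
    ⟨nat_lit 2, nat_lit 22, nat_lit 7, (.ofNat (nat_lit 8)), (.negSucc (nat_lit 1318250303)), (.ofNat (nat_lit 9310905575690606354148604386048)), (.negSucc (nat_lit 149588735)), (.ofNat (nat_lit 1007664000911394877081503673344)), (.negSucc (nat_lit 1318250319)), (.negSucc (nat_lit 1318250287)), (.negSucc (nat_lit 6736229129654487334403)), (.ofNat (nat_lit 6736229129654487334404)), (.negSucc (nat_lit 6736229129654487334403)), (.ofNat (nat_lit 6736229129654487334404)), (.ofNat (nat_lit 0))⟩,
    ⟨nat_lit 0, nat_lit 21, nat_lit 11, (.ofNat (nat_lit 8)), (.negSucc (nat_lit 179595903)), (.ofNat (nat_lit 9415528871015897601806374705152)), (.negSucc (nat_lit 84659071)), (.ofNat (nat_lit 595004100682517104085397296640)), (.negSucc (nat_lit 179595919)), (.negSucc (nat_lit 179595887)), (.ofNat (nat_lit 6736221079318194420060)), (.ofNat (nat_lit 6736221079318194420060)), (.ofNat (nat_lit 6736221079318194420060)), (.ofNat (nat_lit 6736221079318194420060)), (.ofNat (nat_lit 0))⟩]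
  es := [
    ⟨nat_lit 1, nat_lit 0, (.negSucc (nat_lit 1418102591)), (.negSucc (nat_lit 733882623)), (.negSucc (nat_lit 1418102575)), (.negSucc (nat_lit 733882639)), (.negSucc (nat_lit 6736229129654487334403)), (.ofNat (nat_lit 0)), (.ofNat (nat_lit 3531724097928291855580004352))⟩,
    ⟨nat_lit 1, nat_lit 2, (.negSucc (nat_lit 1418102591)), (.negSucc (nat_lit 1266731007)), (.negSucc (nat_lit 1418102575)), (.negSucc (nat_lit 1266731023)), (.ofNat (nat_lit 6736229129654487334404)), (.ofNat (nat_lit 0)), (.ofNat (nat_lit 2208358797050182955894551959552))⟩,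
    ⟨nat_lit 2, nat_lit 3, (.negSucc (nat_lit 1266731007)), (.negSucc (nat_lit 1062432767)), (.negSucc (nat_lit 1266730991)), (.negSucc (nat_lit 1062432783)), (.negSucc (nat_lit 6736229129654487334403)), (.ofNat (nat_lit 0)), (.ofNat (nat_lit 14126896391713167422320017408))⟩,
    ⟨nat_lit 3, nat_lit 4, (.negSucc (nat_lit 1062432767)), (.negSucc (nat_lit 210465215)), (.negSucc (nat_lit 1062432751)), (.negSucc (nat_lit 210465231)), (.ofNat (nat_lit 6736229129654487334404)), (.ofNat (nat_lit 0)), (.ofNat (nat_lit 1889979387940850458070038910976))⟩,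
    ⟨nat_lit 5, nat_lit 4, (.negSucc (nat_lit 448129471)), (.negSucc (nat_lit 210465215)), (.negSucc (nat_lit 448129455)), (.negSucc (nat_lit 210465231)), (.negSucc (nat_lit 6736229129654487334403)), (.ofNat (nat_lit 0)), (.ofNat (nat_lit 38848965077211210411380047872))⟩,
    ⟨nat_lit 6, nat_lit 5, (.negSucc (nat_lit 1376806911)), (.negSucc (nat_lit 448129471)), (.negSucc (nat_lit 1376806895)), (.negSucc (nat_lit 448129487)), (.ofNat (nat_lit 6736229129654487334404)), (.ofNat (nat_lit 0)), (.ofNat (nat_lit 2261445024897167592848738899968))⟩,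
    ⟨nat_lit 6, nat_lit 14, (.negSucc (nat_lit 1376806911)), (.negSucc (nat_lit 1251162111)), (.negSucc (nat_lit 1376806895)), (.negSucc (nat_lit 1251162127)), (.negSucc (nat_lit 6736229129654487334403)), (.ofNat (nat_lit 0)), (.ofNat (nat_lit 7063448195856583711160008704))⟩,
    ⟨nat_lit 21, nat_lit 7, (.negSucc (nat_lit 1318250303)), (.negSucc (nat_lit 1090660351)), (.negSucc (nat_lit 1318250287)), (.negSucc (nat_lit 1090660367)), (.ofNat (nat_lit 6736229129654487334404)), (.ofNat (nat_lit 0)), (.ofNat (nat_lit 2015328001822789754163007346688))⟩,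
    ⟨nat_lit 7, nat_lit 8, (.negSucc (nat_lit 1090660351)), (.ofNat (nat_lit 240959232)), (.negSucc (nat_lit 1090660335)), (.ofNat (nat_lit 240959216)), (.negSucc (nat_lit 6736229129654487334403)), (.ofNat (nat_lit 0)), (.ofNat (nat_lit 17658620489641459277900021760))⟩,
    ⟨nat_lit 8, nat_lit 9, (.ofNat (nat_lit 240959232)), (.ofNat (nat_lit 1010744640)), (.ofNat (nat_lit 240959248)), (.ofNat (nat_lit 1010744624)), (.ofNat (nat_lit 6736229129654487334404)), (.ofNat (nat_lit 0)), (.ofNat (nat_lit 0))⟩,
    ⟨nat_lit 10, nat_lit 9, (.ofNat (nat_lit 240686208)), (.ofNat (nat_lit 1010744640)), (.ofNat (nat_lit 240686224)), (.ofNat (nat_lit 1010744624)), (.negSucc (nat_lit 6736218941327845918259)), (.ofNat (nat_lit 0)), (.ofNat (nat_lit 35317214271195927681863516160))⟩,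
    ⟨nat_lit 22, nat_lit 10, (.negSucc (nat_lit 179595903)), (.ofNat (nat_lit 240686208)), (.negSucc (nat_lit 179595887)), (.ofNat (nat_lit 240686192)), (.ofNat (nat_lit 6736221079318194420060)), (.ofNat (nat_lit 0)), (.ofNat (nat_lit 1165286326044433836403255080960))⟩,
    ⟨nat_lit 12, nat_lit 11, (.negSucc (nat_lit 188541759)), (.ofNat (nat_lit 353899392)), (.negSucc (nat_lit 188541743)), (.ofNat (nat_lit 353899376)), (.ofNat (nat_lit 6736229129654487334404)), (.ofNat (nat_lit 0)), (.ofNat (nat_lit 672170905304093449386494548992))⟩,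
    ⟨nat_lit 13, nat_lit 12, (.negSucc (nat_lit 1105704959)), (.negSucc (nat_lit 188541759)), (.negSucc (nat_lit 1105704943)), (.negSucc (nat_lit 188541775)), (.negSucc (nat_lit 6736229129654487334403)), (.ofNat (nat_lit 0)), (.ofNat (nat_lit 21190344587569751133480026112))⟩,
    ⟨nat_lit 14, nat_lit 13, (.negSucc (nat_lit 1251162111)), (.negSucc (nat_lit 1105704959)), (.negSucc (nat_lit 1251162095)), (.negSucc (nat_lit 1105704975)), (.ofNat (nat_lit 6736229129654487334404)), (.ofNat (nat_lit 0)), (.ofNat (nat_lit 2063944391358333896737475844096))⟩,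
    ⟨nat_lit 15, nat_lit 16, (.negSucc (nat_lit 125584255)), (.ofNat (nat_lit 843020800)), (.negSucc (nat_lit 125584239)), (.ofNat (nat_lit 843020784)), (.ofNat (nat_lit 6736229129654487334404)), (.ofNat (nat_lit 0)), (.ofNat (nat_lit 211143814789204634107074190848))⟩,
    ⟨nat_lit 17, nat_lit 16, (.negSucc (nat_lit 234639807)), (.ofNat (nat_lit 843020800)), (.negSucc (nat_lit 234639791)), (.ofNat (nat_lit 843020784)), (.negSucc (nat_lit 6736229129654487334403)), (.ofNat (nat_lit 0)), (.ofNat (nat_lit 31785516881354626700220039168))⟩,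
    ⟨nat_lit 18, nat_lit 17, (.negSucc (nat_lit 1057837055)), (.negSucc (nat_lit 234639807)), (.negSucc (nat_lit 1057837039)), (.negSucc (nat_lit 234639823)), (.ofNat (nat_lit 6736229129654487334404)), (.ofNat (nat_lit 0)), (.ofNat (nat_lit 1836893160093865821115851970560))⟩,
    ⟨nat_lit 19, nat_lit 18, (.negSucc (nat_lit 1262135295)), (.negSucc (nat_lit 1057837055)), (.negSucc (nat_lit 1262135279)), (.negSucc (nat_lit 1057837071)), (.negSucc (nat_lit 6736229129654487334403)), (.ofNat (nat_lit 0)), (.ofNat (nat_lit 10595172293784875566740013056))⟩,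
    ⟨nat_lit 19, nat_lit 20, (.negSucc (nat_lit 1262135295)), (.negSucc (nat_lit 622176575)), (.negSucc (nat_lit 1262135279)), (.negSucc (nat_lit 622176591)), (.ofNat (nat_lit 6736229129654487334404)), (.ofNat (nat_lit 0)), (.ofNat (nat_lit 2155272569203198318940365019136))⟩,
    ⟨nat_lit 20, nat_lit 11, (.negSucc (nat_lit 622176575)), (.ofNat (nat_lit 353899392)), (.negSucc (nat_lit 622176559)), (.ofNat (nat_lit 353899376)), (.negSucc (nat_lit 6736229129654487334403)), (.ofNat (nat_lit 0)), (.ofNat (nat_lit 28253792783426334844640034816))⟩,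
    ⟨nat_lit 0, nat_lit 22, (.negSucc (nat_lit 733882623)), (.negSucc (nat_lit 179595903)), (.negSucc (nat_lit 733882607)), (.negSucc (nat_lit 179595919)), (.ofNat (nat_lit 6736221079318194420060)), (.ofNat (nat_lit 0)), (.ofNat (nat_lit 1165286326044433836403255080960))⟩,
    ⟨nat_lit 21, nat_lit 15, (.negSucc (nat_lit 1318250303)), (.negSucc (nat_lit 125584255)), (.negSucc (nat_lit 1318250287)), (.negSucc (nat_lit 125584271)), (.negSucc (nat_lit 6736229129654487334403)), (.ofNat (nat_lit 0)), (.ofNat (nat_lit 0))⟩]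

theorem ok79 : stOK 22 22 S79 = true := by decide +kernel

def S80 : SD where
  vs := [
    ⟨nat_lit 0, nat_lit 0, nat_lit 20, (.ofNat (nat_lit 8)), (.negSucc (nat_lit 733882623)), (.ofNat (nat_lit 5681730983765755780389015101952)), (.negSucc (nat_lit 86231871)), (.ofNat (nat_lit 584409372168965447901526928640)), (.negSucc (nat_lit 733882639)), (.negSucc (nat_lit 733882607)), (.negSucc (nat_lit 6736229129654487334403)), (.ofNat (nat_lit 6736221079318194420060)), (.negSucc (nat_lit 6736229129654487334403)), (.ofNat (nat_lit 6736221079318194420060)), (.ofNat (nat_lit 0))⟩,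
    ⟨nat_lit 2, nat_lit 0, nat_lit 1, (.ofNat (nat_lit 8)), (.negSucc (nat_lit 1418102591)), (.ofNat (nat_lit 10290793463298616955391325281024)), (.negSucc (nat_lit 163654399)), (.ofNat (nat_lit 1105945260574055623875065981952)), (.negSucc (nat_lit 1418102607)), (.negSucc (nat_lit 1418102575)), (.negSucc (nat_lit 6736229129654487334403)), (.ofNat (nat_lit 6736229129654487334404)), (.negSucc (nat_lit 6736229129654487334403)), (.ofNat (nat_lit 6736229129654487334404)), (.ofNat (nat_lit 0))⟩,
    ⟨nat_lit 0, nat_lit 1, nat_lit 2, (.ofNat (nat_lit 8)), (.negSucc (nat_lit 1266731007)), (.ofNat (nat_lit 11310467136841358075907996456960)), (.negSucc (nat_lit 162867967)), (.ofNat (nat_lit 1111242846720948061658435988480)), (.negSucc (nat_lit 1266731023)), (.negSucc (nat_lit 1266730991)), (.ofNat (nat_lit 6736229129654487334404)), (.negSucc (nat_lit 6736229129654487334403)), (.negSucc (nat_lit 6736229129654487334403)), (.ofNat (nat_lit 6736229129654487334404)), (.ofNat (nat_lit 0))⟩,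
    ⟨nat_lit 0, nat_lit 2, nat_lit 3, (.ofNat (nat_lit 8)), (.negSucc (nat_lit 1062432767)), (.ofNat (nat_lit 9934267381416214505386967808000)), (.negSucc (nat_lit 139236095)), (.ofNat (nat_lit 952053142166281812746179464192)), (.negSucc (nat_lit 1062432783)), (.negSucc (nat_lit 1062432751)), (.negSucc (nat_lit 6736229129654487334403)), (.ofNat (nat_lit 6736229129654487334404)), (.negSucc (nat_lit 6736229129654487334403)), (.ofNat (nat_lit 6736229129654487334404)), (.ofNat (nat_lit 0))⟩,
    ⟨nat_lit 1, nat_lit 3, nat_lit 4, (.ofNat (nat_lit 8)), (.negSucc (nat_lit 210465215)), (.ofNat (nat_lit 15673316022719038685494149067008)), (.negSucc (nat_lit 137401087)), (.ofNat (nat_lit 964414176509030834240709479424)), (.negSucc (nat_lit 210465231)), (.negSucc (nat_lit 210465199)), (.ofNat (nat_lit 6736229129654487334404)), (.negSucc (nat_lit 6736229129654487334403)), (.negSucc (nat_lit 6736229129654487334403)), (.ofNat (nat_lit 6736229129654487334404)), (.ofNat (nat_lit 0))⟩,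
    ⟨nat_lit 0, nat_lit 5, nat_lit 4, (.ofNat (nat_lit 8)), (.negSucc (nat_lit 448129471)), (.ofNat (nat_lit 17274276907063899954886698930432)), (.negSucc (nat_lit 164973311)), (.ofNat (nat_lit 1150146994987189401630059473920)), (.negSucc (nat_lit 448129487)), (.negSucc (nat_lit 448129455)), (.ofNat (nat_lit 6736229129654487334404)), (.negSucc (nat_lit 6736229129654487334403)), (.negSucc (nat_lit 6736229129654487334403)), (.ofNat (nat_lit 6736229129654487334404)), (.ofNat (nat_lit 0))⟩,
    ⟨nat_lit 2, nat_lit 6, nat_lit 5, (.ofNat (nat_lit 8)), (.negSucc (nat_lit 1376806911)), (.ofNat (nat_lit 11018492883682942572659968284672)), (.negSucc (nat_lit 167332607)), (.ofNat (nat_lit 1134254236546512088279949454336)), (.negSucc (nat_lit 1376806927)), (.negSucc (nat_lit 1376806895)), (.negSucc (nat_lit 6736229129654487334403)), (.ofNat (nat_lit 6736229129654487334404)), (.negSucc (nat_lit 6736229129654487334403)), (.ofNat (nat_lit 6736229129654487334404)), (.ofNat (nat_lit 0))⟩,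
    ⟨nat_lit 0, nat_lit 7, nat_lit 8, (.ofNat (nat_lit 8)), (.negSucc (nat_lit 1090660351)), (.ofNat (nat_lit 10844003639969672903170218694656)), (.negSucc (nat_lit 148278015)), (.ofNat (nat_lit 1016493311156215606720453684224)), (.negSucc (nat_lit 1090660367)), (.negSucc (nat_lit 1090660335)), (.ofNat (nat_lit 6736229129654487334404)), (.negSucc (nat_lit 6736229129654487334403)), (.negSucc (nat_lit 6736229129654487334403)), (.ofNat (nat_lit 6736229129654487334404)), (.ofNat (nat_lit 0))⟩,
    ⟨nat_lit 0, nat_lit 8, nat_lit 9, (.ofNat (nat_lit 8)), (.ofNat (nat_lit 240959232)), (.ofNat (nat_lit 1873909008610482415197895326720)), (.ofNat (nat_lit 1310720)), (.ofNat (nat_lit 8829310244820729638950010880)), (.ofNat (nat_lit 240959216)), (.ofNat (nat_lit 240959248)), (.negSucc (nat_lit 6736229129654487334403)), (.ofNat (nat_lit 6736229129654487334404)), (.negSucc (nat_lit 6736229129654487334403)), (.ofNat (nat_lit 6736229129654487334404)), (.ofNat (nat_lit 0))⟩,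
    ⟨nat_lit 1, nat_lit 9, nat_lit 10, (.ofNat (nat_lit 8)), (.ofNat (nat_lit 1010744640)), (.ofNat (nat_lit 7059359897563046846942910903552)), (.ofNat (nat_lit 2621440)), (.ofNat (nat_lit 17658620489641459277900021760)), (.ofNat (nat_lit 1010744624)), (.ofNat (nat_lit 1010744656)), (.ofNat (nat_lit 6736229129654487334404)), (.negSucc (nat_lit 6736218941327845918259)), (.negSucc (nat_lit 6736218941327845918259)), (.ofNat (nat_lit 6736229129654487334404)), (.ofNat (nat_lit 0))⟩,
    ⟨nat_lit 0, nat_lit 20, nat_lit 10, (.ofNat (nat_lit 8)), (.ofNat (nat_lit 240686208)), (.ofNat (nat_lit 12246642093130667872695806671872)), (.negSucc (nat_lit 83872639)), (.ofNat (nat_lit 600301680498367470359553922560)), (.ofNat (nat_lit 240686192)), (.ofNat (nat_lit 240686224)), (.ofNat (nat_lit 6736221079318194420060)), (.negSucc (nat_lit 6736218941327845918259)), (.negSucc (nat_lit 6736218941327845918259)), (.ofNat (nat_lit 6736221079318194420060)), (.ofNat (nat_lit 0))⟩,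
    ⟨nat_lit 1, nat_lit 11, nat_lit 19, (.ofNat (nat_lit 8)), (.ofNat (nat_lit 353899392)), (.ofNat (nat_lit 8627739851090923887770794303488)), (.negSucc (nat_lit 47795071)), (.ofNat (nat_lit 350212349043759892115567291904)), (.ofNat (nat_lit 353899376)), (.ofNat (nat_lit 353899408)), (.ofNat (nat_lit 6736229129654487334404)), (.negSucc (nat_lit 6736229129654487334403)), (.negSucc (nat_lit 6736229129654487334403)), (.ofNat (nat_lit 6736229129654487334404)), (.ofNat (nat_lit 0))⟩,
    ⟨nat_lit 0, nat_lit 12, nat_lit 11, (.ofNat (nat_lit 8)), (.negSucc (nat_lit 188541759)), (.ofNat (nat_lit 4973731961865186416127279310080)), (.negSucc (nat_lit 48319359)), (.ofNat (nat_lit 346680624945831600259987287552)), (.negSucc (nat_lit 188541775)), (.negSucc (nat_lit 188541743)), (.negSucc (nat_lit 6736229129654487334403)), (.ofNat (nat_lit 6736229129654487334404)), (.negSucc (nat_lit 6736229129654487334403)), (.ofNat (nat_lit 6736229129654487334404)), (.ofNat (nat_lit 0))⟩,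
    ⟨nat_lit 0, nat_lit 13, nat_lit 12, (.ofNat (nat_lit 8)), (.negSucc (nat_lit 1105704959)), (.ofNat (nat_lit 11151953426352310914108722042880)), (.negSucc (nat_lit 151624447)), (.ofNat (nat_lit 1042567367972951823935477935104)), (.negSucc (nat_lit 1105704975)), (.negSucc (nat_lit 1105704943)), (.ofNat (nat_lit 6736229129654487334404)), (.negSucc (nat_lit 6736229129654487334403)), (.negSucc (nat_lit 6736229129654487334403)), (.ofNat (nat_lit 6736229129654487334404)), (.ofNat (nat_lit 0))⟩,
    ⟨nat_lit 0, nat_lit 6, nat_lit 13, (.ofNat (nat_lit 8)), (.negSucc (nat_lit 1251162111)), (.ofNat (nat_lit 10172120721933330442426244585472)), (.negSucc (nat_lit 152673023)), (.ofNat (nat_lit 1035503919777095240224317926400)), (.negSucc (nat_lit 1251162127)), (.negSucc (nat_lit 1251162095)), (.negSucc (nat_lit 6736229129654487334403)), (.ofNat (nat_lit 6736229129654487334404)), (.negSucc (nat_lit 6736229129654487334403)), (.ofNat (nat_lit 6736229129654487334404)), (.ofNat (nat_lit 0))⟩,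
    ⟨nat_lit 0, nat_lit 21, nat_lit 14, (.ofNat (nat_lit 8)), (.negSucc (nat_lit 125584255)), (.ofNat (nat_lit 1276833801203109339558931270656)), (.negSucc (nat_lit 15672255)), (.ofNat (nat_lit 105571907394602317053537095424)), (.negSucc (nat_lit 125584271)), (.negSucc (nat_lit 125584239)), (.negSucc (nat_lit 6736229129654487334403)), (.ofNat (nat_lit 6736229129654487334404)), (.negSucc (nat_lit 6736229129654487334403)), (.ofNat (nat_lit 6736229129654487334404)), (.ofNat (nat_lit 0))⟩,
    ⟨nat_lit 1, nat_lit 14, nat_lit 15, (.ofNat (nat_lit 8)), (.ofNat (nat_lit 843020800)), (.ofNat (nat_lit 7801579394560925304750608417280)), (.negSucc (nat_lit 13312959)), (.ofNat (nat_lit 121464665835279630403647115008)), (.ofNat (nat_lit 843020784)), (.ofNat (nat_lit 843020816)), (.ofNat (nat_lit 6736229129654487334404)), (.negSucc (nat_lit 6736229129654487334403)), (.negSucc (nat_lit 6736229129654487334403)), (.ofNat (nat_lit 6736229129654487334404)), (.ofNat (nat_lit 0))⟩,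
    ⟨nat_lit 0, nat_lit 16, nat_lit 15, (.ofNat (nat_lit 8)), (.negSucc (nat_lit 234639807)), (.ofNat (nat_lit 15060948174051690955472722374912)), (.negSucc (nat_lit 133985023)), (.ofNat (nat_lit 934339338487610223908036004864)), (.negSucc (nat_lit 234639823)), (.negSucc (nat_lit 234639791)), (.ofNat (nat_lit 6736229129654487334404)), (.negSucc (nat_lit 6736229129654487334403)), (.negSucc (nat_lit 6736229129654487334403)), (.ofNat (nat_lit 6736229129654487334404)), (.ofNat (nat_lit 0))⟩,
    ⟨nat_lit 0, nat_lit 17, nat_lit 16, (.ofNat (nat_lit 8)), (.negSucc (nat_lit 1057837055)), (.ofNat (nat_lit 9515702892622681790940493854720)), (.negSucc (nat_lit 135557887)), (.ofNat (nat_lit 923744166193825348341295991808)), (.negSucc (nat_lit 1057837071)), (.negSucc (nat_lit 1057837039)), (.negSucc (nat_lit 6736229129654487334403)), (.ofNat (nat_lit 6736229129654487334404)), (.negSucc (nat_lit 6736229129654487334403)), (.ofNat (nat_lit 6736229129654487334404)), (.ofNat (nat_lit 0))⟩,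
    ⟨nat_lit 2, nat_lit 17, nat_lit 18, (.ofNat (nat_lit 8)), (.negSucc (nat_lit 1262135295)), (.ofNat (nat_lit 10891902648047825361461522503680)), (.negSucc (nat_lit 159189759)), (.ofNat (nat_lit 1082933870748491597253552516096)), (.negSucc (nat_lit 1262135311)), (.negSucc (nat_lit 1262135279)), (.negSucc (nat_lit 6736229129654487334403)), (.ofNat (nat_lit 6736229129654487334404)), (.negSucc (nat_lit 6736229129654487334403)), (.ofNat (nat_lit 6736229129654487334404)), (.ofNat (nat_lit 0))⟩,
    ⟨nat_lit 0, nat_lit 18, nat_lit 19, (.ofNat (nat_lit 8)), (.negSucc (nat_lit 622176575)), (.ofNat (nat_lit 15202811219488225118242918306560)), (.negSucc (nat_lit 157879039)), (.ofNat (nat_lit 1091763180993312326892502526976)), (.negSucc (nat_lit 622176591)), (.negSucc (nat_lit 622176559)), (.ofNat (nat_lit 6736229129654487334404)), (.negSucc (nat_lit 6736229129654487334403)), (.negSucc (nat_lit 6736229129654487334403)), (.ofNat (nat_lit 6736229129654487334404)), (.ofNat (nat_lit 0))⟩,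
    ⟨nat_lit 2, nat_lit 21, nat_lit 7, (.ofNat (nat_lit 8)), (.negSucc (nat_lit 1318250303)), (.ofNat (nat_lit 9310905575690606354148604386048)), (.negSucc (nat_lit 149588735)), (.ofNat (nat_lit 1007664000911394877081503673344)), (.negSucc (nat_lit 1318250319)), (.negSucc (nat_lit 1318250287)), (.negSucc (nat_lit 6736229129654487334403)), (.ofNat (nat_lit 6736229129654487334404)), (.negSucc (nat_lit 6736229129654487334403)), (.ofNat (nat_lit 6736229129654487334404)), (.ofNat (nat_lit 0))⟩]
  es := [
    ⟨nat_lit 1, nat_lit 0, (.negSucc (nat_lit 1418102591)), (.negSucc (nat_lit 733882623)), (.negSucc (nat_lit 1418102575)), (.negSucc (nat_lit 733882639)), (.negSucc (nat_lit 6736229129654487334403)), (.ofNat (nat_lit 0)), (.ofNat (nat_lit 3531724097928291855580004352))⟩,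
    ⟨nat_lit 1, nat_lit 2, (.negSucc (nat_lit 1418102591)), (.negSucc (nat_lit 1266731007)), (.negSucc (nat_lit 1418102575)), (.negSucc (nat_lit 1266731023)), (.ofNat (nat_lit 6736229129654487334404)), (.ofNat (nat_lit 0)), (.ofNat (nat_lit 2208358797050182955894551959552))⟩,
    ⟨nat_lit 2, nat_lit 3, (.negSucc (nat_lit 1266731007)), (.negSucc (nat_lit 1062432767)), (.negSucc (nat_lit 1266730991)), (.negSucc (nat_lit 1062432783)), (.negSucc (nat_lit 6736229129654487334403)), (.ofNat (nat_lit 0)), (.ofNat (nat_lit 14126896391713167422320017408))⟩,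
    ⟨nat_lit 3, nat_lit 4, (.negSucc (nat_lit 1062432767)), (.negSucc (nat_lit 210465215)), (.negSucc (nat_lit 1062432751)), (.negSucc (nat_lit 210465231)), (.ofNat (nat_lit 6736229129654487334404)), (.ofNat (nat_lit 0)), (.ofNat (nat_lit 1889979387940850458070038910976))⟩,
    ⟨nat_lit 5, nat_lit 4, (.negSucc (nat_lit 448129471)), (.negSucc (nat_lit 210465215)), (.negSucc (nat_lit 448129455)), (.negSucc (nat_lit 210465231)), (.negSucc (nat_lit 6736229129654487334403)), (.ofNat (nat_lit 0)), (.ofNat (nat_lit 38848965077211210411380047872))⟩,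
    ⟨nat_lit 6, nat_lit 5, (.negSucc (nat_lit 1376806911)), (.negSucc (nat_lit 448129471)), (.negSucc (nat_lit 1376806895)), (.negSucc (nat_lit 448129487)), (.ofNat (nat_lit 6736229129654487334404)), (.ofNat (nat_lit 0)), (.ofNat (nat_lit 2261445024897167592848738899968))⟩,
    ⟨nat_lit 6, nat_lit 14, (.negSucc (nat_lit 1376806911)), (.negSucc (nat_lit 1251162111)), (.negSucc (nat_lit 1376806895)), (.negSucc (nat_lit 1251162127)), (.negSucc (nat_lit 6736229129654487334403)), (.ofNat (nat_lit 0)), (.ofNat (nat_lit 7063448195856583711160008704))⟩,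
    ⟨nat_lit 21, nat_lit 7, (.negSucc (nat_lit 1318250303)), (.negSucc (nat_lit 1090660351)), (.negSucc (nat_lit 1318250287)), (.negSucc (nat_lit 1090660367)), (.ofNat (nat_lit 6736229129654487334404)), (.ofNat (nat_lit 0)), (.ofNat (nat_lit 2015328001822789754163007346688))⟩,
    ⟨nat_lit 7, nat_lit 8, (.negSucc (nat_lit 1090660351)), (.ofNat (nat_lit 240959232)), (.negSucc (nat_lit 1090660335)), (.ofNat (nat_lit 240959216)), (.negSucc (nat_lit 6736229129654487334403)), (.ofNat (nat_lit 0)), (.ofNat (nat_lit 17658620489641459277900021760))⟩,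
    ⟨nat_lit 8, nat_lit 9, (.ofNat (nat_lit 240959232)), (.ofNat (nat_lit 1010744640)), (.ofNat (nat_lit 240959248)), (.ofNat (nat_lit 1010744624)), (.ofNat (nat_lit 6736229129654487334404)), (.ofNat (nat_lit 0)), (.ofNat (nat_lit 0))⟩,
    ⟨nat_lit 10, nat_lit 9, (.ofNat (nat_lit 240686208)), (.ofNat (nat_lit 1010744640)), (.ofNat (nat_lit 240686224)), (.ofNat (nat_lit 1010744624)), (.negSucc (nat_lit 6736218941327845918259)), (.ofNat (nat_lit 0)), (.ofNat (nat_lit 35317214271195927681863516160))⟩,
    ⟨nat_lit 12, nat_lit 11, (.negSucc (nat_lit 188541759)), (.ofNat (nat_lit 353899392)), (.negSucc (nat_lit 188541743)), (.ofNat (nat_lit 353899376)), (.ofNat (nat_lit 6736229129654487334404)), (.ofNat (nat_lit 0)), (.ofNat (nat_lit 672170905304093449386494548992))⟩,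
    ⟨nat_lit 13, nat_lit 12, (.negSucc (nat_lit 1105704959)), (.negSucc (nat_lit 188541759)), (.negSucc (nat_lit 1105704943)), (.negSucc (nat_lit 188541775)), (.negSucc (nat_lit 6736229129654487334403)), (.ofNat (nat_lit 0)), (.ofNat (nat_lit 21190344587569751133480026112))⟩,
    ⟨nat_lit 14, nat_lit 13, (.negSucc (nat_lit 1251162111)), (.negSucc (nat_lit 1105704959)), (.negSucc (nat_lit 1251162095)), (.negSucc (nat_lit 1105704975)), (.ofNat (nat_lit 6736229129654487334404)), (.ofNat (nat_lit 0)), (.ofNat (nat_lit 2063944391358333896737475844096))⟩,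
    ⟨nat_lit 15, nat_lit 16, (.negSucc (nat_lit 125584255)), (.ofNat (nat_lit 843020800)), (.negSucc (nat_lit 125584239)), (.ofNat (nat_lit 843020784)), (.ofNat (nat_lit 6736229129654487334404)), (.ofNat (nat_lit 0)), (.ofNat (nat_lit 211143814789204634107074190848))⟩,
    ⟨nat_lit 17, nat_lit 16, (.negSucc (nat_lit 234639807)), (.ofNat (nat_lit 843020800)), (.negSucc (nat_lit 234639791)), (.ofNat (nat_lit 843020784)), (.negSucc (nat_lit 6736229129654487334403)), (.ofNat (nat_lit 0)), (.ofNat (nat_lit 31785516881354626700220039168))⟩,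
    ⟨nat_lit 18, nat_lit 17, (.negSucc (nat_lit 1057837055)), (.negSucc (nat_lit 234639807)), (.negSucc (nat_lit 1057837039)), (.negSucc (nat_lit 234639823)), (.ofNat (nat_lit 6736229129654487334404)), (.ofNat (nat_lit 0)), (.ofNat (nat_lit 1836893160093865821115851970560))⟩,
    ⟨nat_lit 19, nat_lit 18, (.negSucc (nat_lit 1262135295)), (.negSucc (nat_lit 1057837055)), (.negSucc (nat_lit 1262135279)), (.negSucc (nat_lit 1057837071)), (.negSucc (nat_lit 6736229129654487334403)), (.ofNat (nat_lit 0)), (.ofNat (nat_lit 10595172293784875566740013056))⟩,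
    ⟨nat_lit 19, nat_lit 20, (.negSucc (nat_lit 1262135295)), (.negSucc (nat_lit 622176575)), (.negSucc (nat_lit 1262135279)), (.negSucc (nat_lit 622176591)), (.ofNat (nat_lit 6736229129654487334404)), (.ofNat (nat_lit 0)), (.ofNat (nat_lit 2155272569203198318940365019136))⟩,
    ⟨nat_lit 20, nat_lit 11, (.negSucc (nat_lit 622176575)), (.ofNat (nat_lit 353899392)), (.negSucc (nat_lit 622176559)), (.ofNat (nat_lit 353899376)), (.negSucc (nat_lit 6736229129654487334403)), (.ofNat (nat_lit 0)), (.ofNat (nat_lit 28253792783426334844640034816))⟩,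
    ⟨nat_lit 0, nat_lit 10, (.negSucc (nat_lit 733882623)), (.ofNat (nat_lit 240686208)), (.negSucc (nat_lit 733882607)), (.ofNat (nat_lit 240686192)), (.ofNat (nat_lit 6736221079318194420060)), (.ofNat (nat_lit 0)), (.ofNat (nat_lit 1165286326044433836403255080960))⟩,
    ⟨nat_lit 21, nat_lit 15, (.negSucc (nat_lit 1318250303)), (.negSucc (nat_lit 125584255)), (.negSucc (nat_lit 1318250287)), (.negSucc (nat_lit 125584271)), (.negSucc (nat_lit 6736229129654487334403)), (.ofNat (nat_lit 0)), (.ofNat (nat_lit 0))⟩]

theorem ok80 : stOK 21 21 S80 = true := by decide +kernel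

def S81 : SD where
  vs := [
    ⟨nat_lit 0, nat_lit 0, nat_lit 20, (.ofNat (nat_lit 8)), (.negSucc (nat_lit 733882623)), (.ofNat (nat_lit 5770508030387095714457540746752)), (.ofNat (nat_lit 0)), (.ofNat (nat_lit 88777046621339934068525644800)), (.negSucc (nat_lit 733882639)), (.negSucc (nat_lit 733882607)), (.negSucc (nat_lit 6841482709805338699003)), (.ofNat (nat_lit 6841482709805338699004)), (.negSucc (nat_lit 6841482709805338699003)), (.ofNat (nat_lit 6841482709805338699004)), (.ofNat (nat_lit 631537581577694016288))⟩,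
    ⟨nat_lit 2, nat_lit 0, nat_lit 1, (.ofNat (nat_lit 8)), (.negSucc (nat_lit 1418102591)), (.ofNat (nat_lit 10451587111162657845319219258624)), (.ofNat (nat_lit 0)), (.ofNat (nat_lit 160793647864040889927893977600)), (.negSucc (nat_lit 1418102607)), (.negSucc (nat_lit 1418102575)), (.negSucc (nat_lit 6841482709805338699003)), (.ofNat (nat_lit 6841482709805338699004)), (.negSucc (nat_lit 6841482709805338699003)), (.ofNat (nat_lit 6841482709805338699004)), (.ofNat (nat_lit 631521480905108187600))⟩,
    ⟨nat_lit 0, nat_lit 1, nat_lit 2, (.ofNat (nat_lit 8)), (.negSucc (nat_lit 1266731007)), (.ofNat (nat_lit 11487193185854504295843953960960)), (.ofNat (nat_lit 0)), (.ofNat (nat_lit 176726049013146219935957504000)), (.negSucc (nat_lit 1266731023)), (.negSucc (nat_lit 1266730991)), (.ofNat (nat_lit 6841482709805338699004)), (.negSucc (nat_lit 6841482709805338699003)), (.negSucc (nat_lit 6841482709805338699003)), (.ofNat (nat_lit 6841482709805338699004)), (.ofNat (nat_lit 631521480905108187600))⟩,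
    ⟨nat_lit 0, nat_lit 2, nat_lit 3, (.ofNat (nat_lit 8)), (.negSucc (nat_lit 1062432767)), (.ofNat (nat_lit 10089490309250842857033547008000)), (.ofNat (nat_lit 0)), (.ofNat (nat_lit 155222927834628351646579200000)), (.negSucc (nat_lit 1062432783)), (.negSucc (nat_lit 1062432751)), (.negSucc (nat_lit 6841482709805338699003)), (.ofNat (nat_lit 6841482709805338699004)), (.negSucc (nat_lit 6841482709805338699003)), (.ofNat (nat_lit 6841482709805338699004)), (.ofNat (nat_lit 631521480905108187600))⟩,
    ⟨nat_lit 1, nat_lit 3, nat_lit 4, (.ofNat (nat_lit 8)), (.negSucc (nat_lit 210465215)), (.ofNat (nat_lit 15918211585574023664954849726208)), (.ofNat (nat_lit 0)), (.ofNat (nat_lit 244895562854984979460700659200)), (.negSucc (nat_lit 210465231)), (.negSucc (nat_lit 210465199)), (.ofNat (nat_lit 6841482709805338699004)), (.negSucc (nat_lit 6841482709805338699003)), (.negSucc (nat_lit 6841482709805338699003)), (.ofNat (nat_lit 6841482709805338699004)), (.ofNat (nat_lit 631521480905108187600))⟩,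
    ⟨nat_lit 0, nat_lit 5, nat_lit 4, (.ofNat (nat_lit 8)), (.negSucc (nat_lit 448129471)), (.ofNat (nat_lit 17544187483736773391681643327232)), (.ofNat (nat_lit 0)), (.ofNat (nat_lit 269910576672873436794944396800)), (.negSucc (nat_lit 448129487)), (.negSucc (nat_lit 448129455)), (.ofNat (nat_lit 6841482709805338699004)), (.negSucc (nat_lit 6841482709805338699003)), (.negSucc (nat_lit 6841482709805338699003)), (.ofNat (nat_lit 6841482709805338699004)), (.ofNat (nat_lit 631521480905108187600))⟩,
    ⟨nat_lit 2, nat_lit 6, nat_lit 5, (.ofNat (nat_lit 8)), (.negSucc (nat_lit 1376806911)), (.ofNat (nat_lit 11190656834990488550357678057472)), (.ofNat (nat_lit 0)), (.ofNat (nat_lit 172163951307545977697709772800)), (.negSucc (nat_lit 1376806927)), (.negSucc (nat_lit 1376806895)), (.negSucc (nat_lit 6841482709805338699003)), (.ofNat (nat_lit 6841482709805338699004)), (.negSucc (nat_lit 6841482709805338699003)), (.ofNat (nat_lit 6841482709805338699004)), (.ofNat (nat_lit 631521480905108187600))⟩,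
    ⟨nat_lit 0, nat_lit 7, nat_lit 8, (.ofNat (nat_lit 8)), (.negSucc (nat_lit 1090660351)), (.ofNat (nat_lit 11013441196844199042282152749056)), (.ofNat (nat_lit 0)), (.ofNat (nat_lit 169437556874526139111934054400)), (.negSucc (nat_lit 1090660367)), (.negSucc (nat_lit 1090660335)), (.ofNat (nat_lit 6841482709805338699004)), (.negSucc (nat_lit 6841482709805338699003)), (.negSucc (nat_lit 6841482709805338699003)), (.ofNat (nat_lit 6841482709805338699004)), (.ofNat (nat_lit 631521480905108187600))⟩,
    ⟨nat_lit 0, nat_lit 8, nat_lit 9, (.ofNat (nat_lit 8)), (.ofNat (nat_lit 240959232)), (.ofNat (nat_lit 1903188836870021202935345054720)), (.ofNat (nat_lit 0)), (.ofNat (nat_lit 29279828259538787737449728000)), (.ofNat (nat_lit 240959216)), (.ofNat (nat_lit 240959248)), (.negSucc (nat_lit 6841482709805338699003)), (.ofNat (nat_lit 6841482709805338699004)), (.negSucc (nat_lit 6841482709805338699003)), (.ofNat (nat_lit 6841482709805338699004)), (.ofNat (nat_lit 631521480905108187600))⟩,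
    ⟨nat_lit 1, nat_lit 9, nat_lit 10, (.ofNat (nat_lit 8)), (.ofNat (nat_lit 1010744640)), (.ofNat (nat_lit 7169662395962469453926328388352)), (.ofNat (nat_lit 0)), (.ofNat (nat_lit 110302498399422606983417484800)), (.ofNat (nat_lit 1010744624)), (.ofNat (nat_lit 1010744656)), (.ofNat (nat_lit 6841482709805338699004)), (.negSucc (nat_lit 6841482709805338699003)), (.negSucc (nat_lit 6841482709805338699003)), (.ofNat (nat_lit 6841482709805338699004)), (.ofNat (nat_lit 631541857558391019888))⟩,
    ⟨nat_lit 0, nat_lit 20, nat_lit 10, (.ofNat (nat_lit 8)), (.ofNat (nat_lit 240686208)), (.ofNat (nat_lit 12438003844030279597710268590080)), (.ofNat (nat_lit 0)), (.ofNat (nat_lit 191361750899611725014461918208)), (.ofNat (nat_lit 240686192)), (.ofNat (nat_lit 240686224)), (.ofNat (nat_lit 6841482709805338699004)), (.negSucc (nat_lit 6841482709805338699003)), (.negSucc (nat_lit 6841482709805338699003)), (.ofNat (nat_lit 6841482709805338699004)), (.ofNat (nat_lit 631574058903562677264))⟩,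
    ⟨nat_lit 1, nat_lit 11, nat_lit 19, (.ofNat (nat_lit 8)), (.ofNat (nat_lit 353899392)), (.ofNat (nat_lit 8762548286264219573517132914688)), (.ofNat (nat_lit 0)), (.ofNat (nat_lit 134808435173295685746338611200)), (.ofNat (nat_lit 353899376)), (.ofNat (nat_lit 353899408)), (.ofNat (nat_lit 6841482709805338699004)), (.negSucc (nat_lit 6841482709805338699003)), (.negSucc (nat_lit 6841482709805338699003)), (.ofNat (nat_lit 6841482709805338699004)), (.ofNat (nat_lit 631521480905108187600))⟩,
    ⟨nat_lit 0, nat_lit 12, nat_lit 11, (.ofNat (nat_lit 8)), (.negSucc (nat_lit 188541759)), (.ofNat (nat_lit 5051446523769329953879221902080)), (.ofNat (nat_lit 0)), (.ofNat (nat_lit 77714561904143537751942592000)), (.negSucc (nat_lit 188541775)), (.negSucc (nat_lit 188541743)), (.negSucc (nat_lit 6841482709805338699003)), (.ofNat (nat_lit 6841482709805338699004)), (.negSucc (nat_lit 6841482709805338699003)), (.ofNat (nat_lit 6841482709805338699004)), (.ofNat (nat_lit 631521480905108187600))⟩,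
    ⟨nat_lit 0, nat_lit 13, nat_lit 12, (.ofNat (nat_lit 8)), (.negSucc (nat_lit 1105704959)), (.ofNat (nat_lit 11326202698639065772141567354880)), (.ofNat (nat_lit 0)), (.ofNat (nat_lit 174249272286754858032845312000)), (.negSucc (nat_lit 1105704975)), (.negSucc (nat_lit 1105704943)), (.ofNat (nat_lit 6841482709805338699004)), (.negSucc (nat_lit 6841482709805338699003)), (.negSucc (nat_lit 6841482709805338699003)), (.ofNat (nat_lit 6841482709805338699004)), (.ofNat (nat_lit 631521480905108187600))⟩,
    ⟨nat_lit 0, nat_lit 6, nat_lit 13, (.ofNat (nat_lit 8)), (.negSucc (nat_lit 1251162111)), (.ofNat (nat_lit 10331060108213538730589060278272)), (.ofNat (nat_lit 0)), (.ofNat (nat_lit 158939386280208288162815692800)), (.negSucc (nat_lit 1251162127)), (.negSucc (nat_lit 1251162095)), (.negSucc (nat_lit 6841482709805338699003)), (.ofNat (nat_lit 6841482709805338699004)), (.negSucc (nat_lit 6841482709805338699003)), (.ofNat (nat_lit 6841482709805338699004)), (.ofNat (nat_lit 631521480905108187600))⟩,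
    ⟨nat_lit 0, nat_lit 21, nat_lit 14, (.ofNat (nat_lit 8)), (.negSucc (nat_lit 125584255)), (.ofNat (nat_lit 1296784329346907922989527725056)), (.ofNat (nat_lit 0)), (.ofNat (nat_lit 19950528143798583430596454400)), (.negSucc (nat_lit 125584271)), (.negSucc (nat_lit 125584239)), (.negSucc (nat_lit 6841482709805338699003)), (.ofNat (nat_lit 6841482709805338699004)), (.negSucc (nat_lit 6841482709805338699003)), (.ofNat (nat_lit 6841482709805338699004)), (.ofNat (nat_lit 631521480905108187600))⟩,
    ⟨nat_lit 1, nat_lit 14, nat_lit 15, (.ofNat (nat_lit 8)), (.ofNat (nat_lit 843020800)), (.ofNat (nat_lit 7923479072600939762637264289280)), (.ofNat (nat_lit 0)), (.ofNat (nat_lit 121899678040014457886655872000)), (.ofNat (nat_lit 843020784)), (.ofNat (nat_lit 843020816)), (.ofNat (nat_lit 6841482709805338699004)), (.negSucc (nat_lit 6841482709805338699003)), (.negSucc (nat_lit 6841482709805338699003)), (.ofNat (nat_lit 6841482709805338699004)), (.ofNat (nat_lit 631521480905108187600))⟩,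
    ⟨nat_lit 0, nat_lit 16, nat_lit 15, (.ofNat (nat_lit 8)), (.negSucc (nat_lit 234639807)), (.ofNat (nat_lit 15296275489271248626651843923712)), (.ofNat (nat_lit 0)), (.ofNat (nat_lit 235327315219557671179121548800)), (.negSucc (nat_lit 234639823)), (.negSucc (nat_lit 234639791)), (.ofNat (nat_lit 6841482709805338699004)), (.negSucc (nat_lit 6841482709805338699003)), (.negSucc (nat_lit 6841482709805338699003)), (.ofNat (nat_lit 6841482709805338699004)), (.ofNat (nat_lit 631521480905108187600))⟩,
    ⟨nat_lit 0, nat_lit 17, nat_lit 16, (.ofNat (nat_lit 8)), (.negSucc (nat_lit 1057837055)), (.ofNat (nat_lit 9664385750319911193923850782720)), (.ofNat (nat_lit 0)), (.ofNat (nat_lit 148682857697229402983356928000)), (.negSucc (nat_lit 1057837071)), (.negSucc (nat_lit 1057837039)), (.negSucc (nat_lit 6841482709805338699003)), (.ofNat (nat_lit 6841482709805338699004)), (.negSucc (nat_lit 6841482709805338699003)), (.ofNat (nat_lit 6841482709805338699004)), (.ofNat (nat_lit 631521480905108187600))⟩,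
    ⟨nat_lit 2, nat_lit 17, nat_lit 18, (.ofNat (nat_lit 8)), (.negSucc (nat_lit 1262135295)), (.ofNat (nat_lit 11062088626923572632734257735680)), (.ofNat (nat_lit 0)), (.ofNat (nat_lit 170185978875747271272735232000)), (.negSucc (nat_lit 1262135311)), (.negSucc (nat_lit 1262135279)), (.negSucc (nat_lit 6841482709805338699003)), (.ofNat (nat_lit 6841482709805338699004)), (.negSucc (nat_lit 6841482709805338699003)), (.ofNat (nat_lit 6841482709805338699004)), (.ofNat (nat_lit 631521480905108187600))⟩,
    ⟨nat_lit 0, nat_lit 18, nat_lit 19, (.ofNat (nat_lit 8)), (.negSucc (nat_lit 622176575)), (.ofNat (nat_lit 15440355144792728635715322850560)), (.ofNat (nat_lit 0)), (.ofNat (nat_lit 237543925304503517472404544000)), (.negSucc (nat_lit 622176591)), (.negSucc (nat_lit 622176559)), (.ofNat (nat_lit 6841482709805338699004)), (.negSucc (nat_lit 6841482709805338699003)), (.negSucc (nat_lit 6841482709805338699003)), (.ofNat (nat_lit 6841482709805338699004)), (.ofNat (nat_lit 631521480905108187600))⟩,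
    ⟨nat_lit 2, nat_lit 21, nat_lit 7, (.ofNat (nat_lit 8)), (.negSucc (nat_lit 1318250303)), (.ofNat (nat_lit 9456388475310772078432089941248)), (.ofNat (nat_lit 0)), (.ofNat (nat_lit 145482899620165724283485555200)), (.negSucc (nat_lit 1318250319)), (.negSucc (nat_lit 1318250287)), (.negSucc (nat_lit 6841482709805338699003)), (.ofNat (nat_lit 6841482709805338699004)), (.negSucc (nat_lit 6841482709805338699003)), (.ofNat (nat_lit 6841482709805338699004)), (.ofNat (nat_lit 631521480905108187600))⟩]
  es := [
    ⟨nat_lit 1, nat_lit 0, (.negSucc (nat_lit 1418102591)), (.negSucc (nat_lit 733882623)), (.negSucc (nat_lit 1418102575)), (.negSucc (nat_lit 733882639)), (.negSucc (nat_lit 6841482709805338699003)), (.negSucc (nat_lit 105253580150851364599)), (.ofNat (nat_lit 11533273034838818781896934400))⟩,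
    ⟨nat_lit 1, nat_lit 2, (.negSucc (nat_lit 1418102591)), (.negSucc (nat_lit 1266731007)), (.negSucc (nat_lit 1418102575)), (.negSucc (nat_lit 1266731023)), (.ofNat (nat_lit 6841482709805338699004)), (.ofNat (nat_lit 105253580150851364600)), (.ofNat (nat_lit 310054022693242961073891020800))⟩,
    ⟨nat_lit 2, nat_lit 3, (.negSucc (nat_lit 1266731007)), (.negSucc (nat_lit 1062432767)), (.negSucc (nat_lit 1266730991)), (.negSucc (nat_lit 1062432783)), (.negSucc (nat_lit 6841482709805338699003)), (.negSucc (nat_lit 105253580150851364599)), (.ofNat (nat_lit 43398075333049478798023987200))⟩,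
    ⟨nat_lit 3, nat_lit 4, (.negSucc (nat_lit 1062432767)), (.negSucc (nat_lit 210465215)), (.negSucc (nat_lit 1062432751)), (.negSucc (nat_lit 210465231)), (.ofNat (nat_lit 6841482709805338699004)), (.ofNat (nat_lit 105253580150851364600)), (.ofNat (nat_lit 267047780336207224495134412800))⟩,
    ⟨nat_lit 5, nat_lit 4, (.negSucc (nat_lit 448129471)), (.negSucc (nat_lit 210465215)), (.negSucc (nat_lit 448129455)), (.negSucc (nat_lit 210465231)), (.negSucc (nat_lit 6841482709805338699003)), (.negSucc (nat_lit 105253580150851364599)), (.ofNat (nat_lit 222743345373762734426266905600))⟩,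
    ⟨nat_lit 6, nat_lit 5, (.negSucc (nat_lit 1376806911)), (.negSucc (nat_lit 448129471)), (.negSucc (nat_lit 1376806895)), (.negSucc (nat_lit 448129487)), (.ofNat (nat_lit 6841482709805338699004)), (.ofNat (nat_lit 105253580150851364600)), (.ofNat (nat_lit 317077807971984139163621888000))⟩,
    ⟨nat_lit 6, nat_lit 14, (.negSucc (nat_lit 1376806911)), (.negSucc (nat_lit 1251162111)), (.negSucc (nat_lit 1376806895)), (.negSucc (nat_lit 1251162127)), (.negSucc (nat_lit 6841482709805338699003)), (.negSucc (nat_lit 105253580150851364599)), (.ofNat (nat_lit 27250094643107816231797657600))⟩,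
    ⟨nat_lit 21, nat_lit 7, (.negSucc (nat_lit 1318250303)), (.negSucc (nat_lit 1090660351)), (.negSucc (nat_lit 1318250287)), (.negSucc (nat_lit 1090660367)), (.ofNat (nat_lit 6841482709805338699004)), (.ofNat (nat_lit 105253580150851364600)), (.ofNat (nat_lit 284233463651113901526250393600))⟩,
    ⟨nat_lit 7, nat_lit 8, (.negSucc (nat_lit 1090660351)), (.ofNat (nat_lit 240959232)), (.negSucc (nat_lit 1090660335)), (.ofNat (nat_lit 240959216)), (.negSucc (nat_lit 6841482709805338699003)), (.negSucc (nat_lit 105253580150851364599)), (.ofNat (nat_lit 54641650097938376697617715200))⟩,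
    ⟨nat_lit 8, nat_lit 9, (.ofNat (nat_lit 240959232)), (.ofNat (nat_lit 1010744640)), (.ofNat (nat_lit 240959248)), (.ofNat (nat_lit 1010744624)), (.ofNat (nat_lit 6841482709805338699004)), (.ofNat (nat_lit 105253580150851364600)), (.ofNat (nat_lit 3918006421139198777281740800))⟩,
    ⟨nat_lit 10, nat_lit 9, (.ofNat (nat_lit 240686208)), (.ofNat (nat_lit 1010744640)), (.ofNat (nat_lit 240686224)), (.ofNat (nat_lit 1010744624)), (.negSucc (nat_lit 6841482709805338699003)), (.negSucc (nat_lit 105263768477492780743)), (.ofNat (nat_lit 216697288174249395759110696960))⟩,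
    ⟨nat_lit 12, nat_lit 11, (.negSucc (nat_lit 188541759)), (.ofNat (nat_lit 353899392)), (.negSucc (nat_lit 188541743)), (.ofNat (nat_lit 353899376)), (.ofNat (nat_lit 6841482709805338699004)), (.ofNat (nat_lit 105253580150851364600)), (.ofNat (nat_lit 97559257152086119532028288000))⟩,
    ⟨nat_lit 13, nat_lit 12, (.negSucc (nat_lit 1105704959)), (.negSucc (nat_lit 188541759)), (.negSucc (nat_lit 1105704943)), (.negSucc (nat_lit 188541775)), (.negSucc (nat_lit 6841482709805338699003)), (.negSucc (nat_lit 105253580150851364599)), (.ofNat (nat_lit 57869866656200955971856896000))⟩,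
    ⟨nat_lit 14, nat_lit 13, (.negSucc (nat_lit 1251162111)), (.negSucc (nat_lit 1105704959)), (.negSucc (nat_lit 1251162095)), (.negSucc (nat_lit 1105704975)), (.ofNat (nat_lit 6841482709805338699004)), (.ofNat (nat_lit 105253580150851364600)), (.ofNat (nat_lit 290628677917308760093833728000))⟩,
    ⟨nat_lit 15, nat_lit 16, (.negSucc (nat_lit 125584255)), (.ofNat (nat_lit 843020800)), (.negSucc (nat_lit 125584239)), (.ofNat (nat_lit 843020784)), (.ofNat (nat_lit 6841482709805338699004)), (.ofNat (nat_lit 105253580150851364600)), (.ofNat (nat_lit 33168720698379619820472192000))⟩,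
    ⟨nat_lit 17, nat_lit 16, (.negSucc (nat_lit 234639807)), (.ofNat (nat_lit 843020800)), (.negSucc (nat_lit 234639791)), (.ofNat (nat_lit 843020784)), (.negSucc (nat_lit 6841482709805338699003)), (.negSucc (nat_lit 105253580150851364599)), (.ofNat (nat_lit 210630635381649295952839552000))⟩,
    ⟨nat_lit 18, nat_lit 17, (.negSucc (nat_lit 1057837055)), (.negSucc (nat_lit 234639807)), (.negSucc (nat_lit 1057837039)), (.negSucc (nat_lit 234639823)), (.ofNat (nat_lit 6841482709805338699004)), (.ofNat (nat_lit 105253580150851364600)), (.ofNat (nat_lit 260023995057466046405403545600))⟩,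
    ⟨nat_lit 19, nat_lit 18, (.negSucc (nat_lit 1262135295)), (.negSucc (nat_lit 1057837055)), (.negSucc (nat_lit 1262135279)), (.negSucc (nat_lit 1057837071)), (.negSucc (nat_lit 6841482709805338699003)), (.negSucc (nat_lit 105253580150851364599)), (.ofNat (nat_lit 37341720336992759561310310400))⟩,
    ⟨nat_lit 19, nat_lit 20, (.negSucc (nat_lit 1262135295)), (.negSucc (nat_lit 622176575)), (.negSucc (nat_lit 1262135279)), (.negSucc (nat_lit 622176591)), (.ofNat (nat_lit 6841482709805338699004)), (.ofNat (nat_lit 105253580150851364600)), (.ofNat (nat_lit 303030237414501782984160153600))⟩,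
    ⟨nat_lit 20, nat_lit 11, (.negSucc (nat_lit 622176575)), (.ofNat (nat_lit 353899392)), (.negSucc (nat_lit 622176559)), (.ofNat (nat_lit 353899376)), (.negSucc (nat_lit 6841482709805338699003)), (.negSucc (nat_lit 105253580150851364599)), (.ofNat (nat_lit 172057613194505251960648934400))⟩,
    ⟨nat_lit 0, nat_lit 10, (.negSucc (nat_lit 733882623)), (.ofNat (nat_lit 240686208)), (.negSucc (nat_lit 733882607)), (.ofNat (nat_lit 240686192)), (.ofNat (nat_lit 6841482709805338699004)), (.ofNat (nat_lit 105261630487144278944)), (.ofNat (nat_lit 166026728209763775766536313856))⟩,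
    ⟨nat_lit 21, nat_lit 15, (.negSucc (nat_lit 1318250303)), (.negSucc (nat_lit 125584255)), (.negSucc (nat_lit 1318250287)), (.negSucc (nat_lit 125584271)), (.negSucc (nat_lit 6841482709805338699003)), (.negSucc (nat_lit 105253580150851364599)), (.ofNat (nat_lit 6732335589217547040720716800))⟩]

theorem ok81 : stOK 21 21 S81 = true := by decide +kernel

def S82 : SD where
  vs := [
    ⟨nat_lit 0, nat_lit 0, nat_lit 20, (.ofNat (nat_lit 8)), (.negSucc (nat_lit 734406911)), (.ofNat (nat_lit 5777681844961012557289187565056)), (.negSucc (nat_lit 524287)), (.ofNat (nat_lit 7173814573916842831646818304)), (.negSucc (nat_lit 734406927)), (.negSucc (nat_lit 734406895)), (.negSucc (nat_lit 6841482709805338699003)), (.ofNat (nat_lit 6841482709805338699004)), (.negSucc (nat_lit 6841482709805338699003)), (.ofNat (nat_lit 6841482709805338699004)), (.ofNat (nat_lit 0))⟩,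
    ⟨nat_lit 2, nat_lit 0, nat_lit 1, (.ofNat (nat_lit 8)), (.negSucc (nat_lit 1420199743)), (.ofNat (nat_lit 10469521647597449952398336304384)), (.negSucc (nat_lit 2097151)), (.ofNat (nat_lit 17934536434792107079117045760)), (.negSucc (nat_lit 1420199759)), (.negSucc (nat_lit 1420199727)), (.negSucc (nat_lit 6841482709805338699003)), (.ofNat (nat_lit 6841482709805338699004)), (.negSucc (nat_lit 6841482709805338699003)), (.ofNat (nat_lit 6841482709805338699004)), (.ofNat (nat_lit 0))⟩,
    ⟨nat_lit 0, nat_lit 1, nat_lit 2, (.ofNat (nat_lit 8)), (.negSucc (nat_lit 1268041727)), (.ofNat (nat_lit 11510508083219734035046806120448)), (.negSucc (nat_lit 1310719)), (.ofNat (nat_lit 23314897365229739202852159488)), (.negSucc (nat_lit 1268041743)), (.negSucc (nat_lit 1268041711)), (.ofNat (nat_lit 6841482709805338699004)), (.negSucc (nat_lit 6841482709805338699003)), (.negSucc (nat_lit 6841482709805338699003)), (.ofNat (nat_lit 6841482709805338699004)), (.ofNat (nat_lit 0))⟩,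
    ⟨nat_lit 0, nat_lit 2, nat_lit 3, (.ofNat (nat_lit 8)), (.negSucc (nat_lit 1062694911)), (.ofNat (nat_lit 10105631392042155753404752349184)), (.negSucc (nat_lit 262143)), (.ofNat (nat_lit 16141082791312896371205341184)), (.negSucc (nat_lit 1062694927)), (.negSucc (nat_lit 1062694895)), (.negSucc (nat_lit 6841482709805338699003)), (.ofNat (nat_lit 6841482709805338699004)), (.negSucc (nat_lit 6841482709805338699003)), (.ofNat (nat_lit 6841482709805338699004)), (.ofNat (nat_lit 0))⟩,
    ⟨nat_lit 1, nat_lit 3, nat_lit 4, (.ofNat (nat_lit 8)), (.negSucc (nat_lit 92009151)), (.ofNat (nat_lit 16746561235736410400504861332224)), (.ofNat (nat_lit 118456064)), (.ofNat (nat_lit 828349650162386735550011606016)), (.negSucc (nat_lit 92009167)), (.negSucc (nat_lit 92009135)), (.ofNat (nat_lit 6841482709805338699004)), (.negSucc (nat_lit 6841482709805338699003)), (.negSucc (nat_lit 6841482709805338699003)), (.ofNat (nat_lit 6841482709805338699004)), (.ofNat (nat_lit 0))⟩,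
    ⟨nat_lit 0, nat_lit 5, nat_lit 4, (.ofNat (nat_lit 8)), (.negSucc (nat_lit 330984127)), (.ofNat (nat_lit 18381504402116556180771213456128)), (.ofNat (nat_lit 117145344)), (.ofNat (nat_lit 837316918379782789089570128896)), (.negSucc (nat_lit 330984143)), (.negSucc (nat_lit 330984111)), (.ofNat (nat_lit 6841482709805338699004)), (.negSucc (nat_lit 6841482709805338699003)), (.negSucc (nat_lit 6841482709805338699003)), (.ofNat (nat_lit 6841482709805338699004)), (.ofNat (nat_lit 0))⟩,
    ⟨nat_lit 2, nat_lit 6, nat_lit 5, (.ofNat (nat_lit 8)), (.negSucc (nat_lit 1378904063)), (.ofNat (nat_lit 11212178278712239078852618512384)), (.negSucc (nat_lit 2097151)), (.ofNat (nat_lit 21521443721750528494940454912)), (.negSucc (nat_lit 1378904079)), (.negSucc (nat_lit 1378904047)), (.negSucc (nat_lit 6841482709805338699003)), (.ofNat (nat_lit 6841482709805338699004)), (.negSucc (nat_lit 6841482709805338699003)), (.ofNat (nat_lit 6841482709805338699004)), (.ofNat (nat_lit 0))⟩,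
    ⟨nat_lit 0, nat_lit 7, nat_lit 8, (.ofNat (nat_lit 8)), (.negSucc (nat_lit 1090922495)), (.ofNat (nat_lit 11033169186922470360069181499392)), (.negSucc (nat_lit 262143)), (.ofNat (nat_lit 19727990078271317787028750336)), (.negSucc (nat_lit 1090922511)), (.negSucc (nat_lit 1090922479)), (.ofNat (nat_lit 6841482709805338699004)), (.negSucc (nat_lit 6841482709805338699003)), (.negSucc (nat_lit 6841482709805338699003)), (.ofNat (nat_lit 6841482709805338699004)), (.ofNat (nat_lit 0))⟩,
    ⟨nat_lit 0, nat_lit 8, nat_lit 9, (.ofNat (nat_lit 8)), (.ofNat (nat_lit 242269952)), (.ofNat (nat_lit 1912156105087417256474903577600)), (.ofNat (nat_lit 1310720)), (.ofNat (nat_lit 8967268217396053539558522880)), (.ofNat (nat_lit 242269936)), (.ofNat (nat_lit 242269968)), (.negSucc (nat_lit 6841482709805338699003)), (.ofNat (nat_lit 6841482709805338699004)), (.negSucc (nat_lit 6841482709805338699003)), (.ofNat (nat_lit 6841482709805338699004)), (.ofNat (nat_lit 0))⟩,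
    ⟨nat_lit 1, nat_lit 9, nat_lit 10, (.ofNat (nat_lit 8)), (.ofNat (nat_lit 1130249280)), (.ofNat (nat_lit 7987251324263980925228869766912)), (.ofNat (nat_lit 119504640)), (.ofNat (nat_lit 817588928301511471302541378560)), (.ofNat (nat_lit 1130249264)), (.ofNat (nat_lit 1130249296)), (.ofNat (nat_lit 6841482709805338699004)), (.negSucc (nat_lit 6841482709805338699003)), (.negSucc (nat_lit 6841482709805338699003)), (.ofNat (nat_lit 6841482709805338699004)), (.ofNat (nat_lit 0))⟩,
    ⟨nat_lit 0, nat_lit 20, nat_lit 10, (.ofNat (nat_lit 8)), (.ofNat (nat_lit 359404416)), (.ofNat (nat_lit 13260973133262228701136545082368)), (.ofNat (nat_lit 118718208)), (.ofNat (nat_lit 822969289231949103426276492288)), (.ofNat (nat_lit 359404400)), (.ofNat (nat_lit 359404432)), (.ofNat (nat_lit 6841482709805338699004)), (.negSucc (nat_lit 6841482709805338699003)), (.negSucc (nat_lit 6841482709805338699003)), (.ofNat (nat_lit 6841482709805338699004)), (.ofNat (nat_lit 0))⟩,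
    ⟨nat_lit 1, nat_lit 11, nat_lit 19, (.ofNat (nat_lit 8)), (.ofNat (nat_lit 355210112)), (.ofNat (nat_lit 8778689369055532469888338255872)), (.ofNat (nat_lit 1310720)), (.ofNat (nat_lit 16141082791312896371205341184)), (.ofNat (nat_lit 355210096)), (.ofNat (nat_lit 355210128)), (.ofNat (nat_lit 6841482709805338699004)), (.negSucc (nat_lit 6841482709805338699003)), (.negSucc (nat_lit 6841482709805338699003)), (.ofNat (nat_lit 6841482709805338699004)), (.ofNat (nat_lit 0))⟩,
    ⟨nat_lit 0, nat_lit 12, nat_lit 11, (.ofNat (nat_lit 8)), (.negSucc (nat_lit 187493183)), (.ofNat (nat_lit 5065794152917163639542515538688)), (.ofNat (nat_lit 1048576)), (.ofNat (nat_lit 14347629147833685663293636608)), (.negSucc (nat_lit 187493199)), (.negSucc (nat_lit 187493167)), (.negSucc (nat_lit 6841482709805338699003)), (.ofNat (nat_lit 6841482709805338699004)), (.negSucc (nat_lit 6841482709805338699003)), (.ofNat (nat_lit 6841482709805338699004)), (.ofNat (nat_lit 0))⟩,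
    ⟨nat_lit 0, nat_lit 13, nat_lit 12, (.ofNat (nat_lit 8)), (.negSucc (nat_lit 1105967103)), (.ofNat (nat_lit 11349517596004295511344419514368)), (.negSucc (nat_lit 262143)), (.ofNat (nat_lit 23314897365229739202852159488)), (.negSucc (nat_lit 1105967119)), (.negSucc (nat_lit 1105967087)), (.ofNat (nat_lit 6841482709805338699004)), (.negSucc (nat_lit 6841482709805338699003)), (.negSucc (nat_lit 6841482709805338699003)), (.ofNat (nat_lit 6841482709805338699004)), (.ofNat (nat_lit 0))⟩,
    ⟨nat_lit 0, nat_lit 6, nat_lit 13, (.ofNat (nat_lit 8)), (.negSucc (nat_lit 1252472831)), (.ofNat (nat_lit 10347201191004851626960265619456)), (.negSucc (nat_lit 1310719)), (.ofNat (nat_lit 16141082791312896371205341184)), (.negSucc (nat_lit 1252472847)), (.negSucc (nat_lit 1252472815)), (.negSucc (nat_lit 6841482709805338699003)), (.ofNat (nat_lit 6841482709805338699004)), (.negSucc (nat_lit 6841482709805338699003)), (.ofNat (nat_lit 6841482709805338699004)), (.ofNat (nat_lit 0))⟩,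
    ⟨nat_lit 0, nat_lit 21, nat_lit 14, (.ofNat (nat_lit 8)), (.negSucc (nat_lit 125846399)), (.ofNat (nat_lit 1298577782990387133697439429632)), (.negSucc (nat_lit 262143)), (.ofNat (nat_lit 1793453643479210707911704576)), (.negSucc (nat_lit 125846415)), (.negSucc (nat_lit 125846383)), (.negSucc (nat_lit 6841482709805338699003)), (.ofNat (nat_lit 6841482709805338699004)), (.negSucc (nat_lit 6841482709805338699003)), (.ofNat (nat_lit 6841482709805338699004)), (.ofNat (nat_lit 0))⟩,
    ⟨nat_lit 1, nat_lit 14, nat_lit 15, (.ofNat (nat_lit 8)), (.ofNat (nat_lit 844855808)), (.ofNat (nat_lit 7939620155392252659008469630464)), (.ofNat (nat_lit 1835008)), (.ofNat (nat_lit 16141082791312896371205341184)), (.ofNat (nat_lit 844855792)), (.ofNat (nat_lit 844855824)), (.ofNat (nat_lit 6841482709805338699004)), (.negSucc (nat_lit 6841482709805338699003)), (.negSucc (nat_lit 6841482709805338699003)), (.ofNat (nat_lit 6841482709805338699004)), (.ofNat (nat_lit 0))⟩,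
    ⟨nat_lit 0, nat_lit 16, nat_lit 15, (.ofNat (nat_lit 8)), (.negSucc (nat_lit 233591231)), (.ofNat (nat_lit 15317796932992999155146784378624)), (.ofNat (nat_lit 1048576)), (.ofNat (nat_lit 21521443721750528494940454912)), (.negSucc (nat_lit 233591247)), (.negSucc (nat_lit 233591215)), (.ofNat (nat_lit 6841482709805338699004)), (.negSucc (nat_lit 6841482709805338699003)), (.negSucc (nat_lit 6841482709805338699003)), (.ofNat (nat_lit 6841482709805338699004)), (.ofNat (nat_lit 0))⟩,
    ⟨nat_lit 0, nat_lit 17, nat_lit 16, (.ofNat (nat_lit 8)), (.negSucc (nat_lit 1058099199)), (.ofNat (nat_lit 9676939925824265668879232714752)), (.negSucc (nat_lit 262143)), (.ofNat (nat_lit 12554175504354474955381932032)), (.negSucc (nat_lit 1058099215)), (.negSucc (nat_lit 1058099183)), (.negSucc (nat_lit 6841482709805338699003)), (.ofNat (nat_lit 6841482709805338699004)), (.negSucc (nat_lit 6841482709805338699003)), (.ofNat (nat_lit 6841482709805338699004)), (.ofNat (nat_lit 0))⟩,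
    ⟨nat_lit 2, nat_lit 17, nat_lit 18, (.ofNat (nat_lit 8)), (.negSucc (nat_lit 1263446015)), (.ofNat (nat_lit 11081816617001843950521286486016)), (.negSucc (nat_lit 1310719)), (.ofNat (nat_lit 19727990078271317787028750336)), (.negSucc (nat_lit 1263446031)), (.negSucc (nat_lit 1263445999)), (.negSucc (nat_lit 6841482709805338699003)), (.ofNat (nat_lit 6841482709805338699004)), (.negSucc (nat_lit 6841482709805338699003)), (.ofNat (nat_lit 6841482709805338699004)), (.ofNat (nat_lit 0))⟩,
    ⟨nat_lit 0, nat_lit 18, nat_lit 19, (.ofNat (nat_lit 8)), (.negSucc (nat_lit 622438719)), (.ofNat (nat_lit 15467256949444916796333998419200)), (.negSucc (nat_lit 262143)), (.ofNat (nat_lit 26901804652188160618675568640)), (.negSucc (nat_lit 622438735)), (.negSucc (nat_lit 622438703)), (.ofNat (nat_lit 6841482709805338699004)), (.negSucc (nat_lit 6841482709805338699003)), (.negSucc (nat_lit 6841482709805338699003)), (.ofNat (nat_lit 6841482709805338699004)), (.ofNat (nat_lit 0))⟩,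
    ⟨nat_lit 2, nat_lit 21, nat_lit 7, (.ofNat (nat_lit 8)), (.negSucc (nat_lit 1319823167)), (.ofNat (nat_lit 9467149197171647342679560168704)), (.negSucc (nat_lit 1572863)), (.ofNat (nat_lit 10760721860875264247470227456)), (.negSucc (nat_lit 1319823183)), (.negSucc (nat_lit 1319823151)), (.negSucc (nat_lit 6841482709805338699003)), (.ofNat (nat_lit 6841482709805338699004)), (.negSucc (nat_lit 6841482709805338699003)), (.ofNat (nat_lit 6841482709805338699004)), (.ofNat (nat_lit 0))⟩]
  es := [
    ⟨nat_lit 1, nat_lit 0, (.negSucc (nat_lit 1420199743)), (.negSucc (nat_lit 734406911)), (.negSucc (nat_lit 1420199727)), (.negSucc (nat_lit 734406927)), (.negSucc (nat_lit 6841482709805338699003)), (.ofNat (nat_lit 0)), (.ofNat (nat_lit 3586907286958421415823409152))⟩,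
    ⟨nat_lit 1, nat_lit 2, (.negSucc (nat_lit 1420199743)), (.negSucc (nat_lit 1268041727)), (.negSucc (nat_lit 1420199727)), (.negSucc (nat_lit 1268041743)), (.ofNat (nat_lit 6841482709805338699004)), (.ofNat (nat_lit 0)), (.ofNat (nat_lit 32282165582625792742410682368))⟩,
    ⟨nat_lit 2, nat_lit 3, (.negSucc (nat_lit 1268041727)), (.negSucc (nat_lit 1062694911)), (.negSucc (nat_lit 1268041711)), (.negSucc (nat_lit 1062694927)), (.negSucc (nat_lit 6841482709805338699003)), (.ofNat (nat_lit 0)), (.ofNat (nat_lit 14347629147833685663293636608))⟩,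
    ⟨nat_lit 3, nat_lit 4, (.negSucc (nat_lit 1062694911)), (.negSucc (nat_lit 92009151)), (.negSucc (nat_lit 1062694895)), (.negSucc (nat_lit 92009167)), (.ofNat (nat_lit 6841482709805338699004)), (.ofNat (nat_lit 0)), (.ofNat (nat_lit 17934536434792107079117045760))⟩,
    ⟨nat_lit 5, nat_lit 4, (.negSucc (nat_lit 330984127)), (.negSucc (nat_lit 92009151)), (.negSucc (nat_lit 330984111)), (.negSucc (nat_lit 92009167)), (.negSucc (nat_lit 6841482709805338699003)), (.ofNat (nat_lit 0)), (.ofNat (nat_lit 1638764763889981364020906166272))⟩,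
    ⟨nat_lit 6, nat_lit 5, (.negSucc (nat_lit 1378904063)), (.negSucc (nat_lit 330984127)), (.negSucc (nat_lit 1378904047)), (.negSucc (nat_lit 330984143)), (.ofNat (nat_lit 6841482709805338699004)), (.ofNat (nat_lit 0)), (.ofNat (nat_lit 35869072869584214158234091520))⟩,
    ⟨nat_lit 6, nat_lit 14, (.negSucc (nat_lit 1378904063)), (.negSucc (nat_lit 1252472831)), (.negSucc (nat_lit 1378904047)), (.negSucc (nat_lit 1252472847)), (.negSucc (nat_lit 6841482709805338699003)), (.ofNat (nat_lit 0)), (.ofNat (nat_lit 7173814573916842831646818304))⟩,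
    ⟨nat_lit 21, nat_lit 7, (.negSucc (nat_lit 1319823167)), (.negSucc (nat_lit 1090922495)), (.negSucc (nat_lit 1319823151)), (.negSucc (nat_lit 1090922511)), (.ofNat (nat_lit 6841482709805338699004)), (.ofNat (nat_lit 0)), (.ofNat (nat_lit 21521443721750528494940454912))⟩,
    ⟨nat_lit 7, nat_lit 8, (.negSucc (nat_lit 1090922495)), (.ofNat (nat_lit 242269952)), (.negSucc (nat_lit 1090922479)), (.ofNat (nat_lit 242269936)), (.negSucc (nat_lit 6841482709805338699003)), (.ofNat (nat_lit 0)), (.ofNat (nat_lit 17934536434792107079117045760))⟩,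
    ⟨nat_lit 8, nat_lit 9, (.ofNat (nat_lit 242269952)), (.ofNat (nat_lit 1130249280)), (.ofNat (nat_lit 242269968)), (.ofNat (nat_lit 1130249264)), (.ofNat (nat_lit 6841482709805338699004)), (.ofNat (nat_lit 0)), (.ofNat (nat_lit 0))⟩,
    ⟨nat_lit 10, nat_lit 9, (.ofNat (nat_lit 359404416)), (.ofNat (nat_lit 1130249280)), (.ofNat (nat_lit 359404432)), (.ofNat (nat_lit 1130249264)), (.negSucc (nat_lit 6841482709805338699003)), (.ofNat (nat_lit 0)), (.ofNat (nat_lit 1635177856603022942605082757120))⟩,
    ⟨nat_lit 12, nat_lit 11, (.negSucc (nat_lit 187493183)), (.ofNat (nat_lit 355210112)), (.negSucc (nat_lit 187493167)), (.ofNat (nat_lit 355210096)), (.ofNat (nat_lit 6841482709805338699004)), (.ofNat (nat_lit 0)), (.ofNat (nat_lit 7173814573916842831646818304))⟩,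
    ⟨nat_lit 13, nat_lit 12, (.negSucc (nat_lit 1105967103)), (.negSucc (nat_lit 187493183)), (.negSucc (nat_lit 1105967087)), (.negSucc (nat_lit 187493199)), (.negSucc (nat_lit 6841482709805338699003)), (.ofNat (nat_lit 0)), (.ofNat (nat_lit 21521443721750528494940454912))⟩,
    ⟨nat_lit 14, nat_lit 13, (.negSucc (nat_lit 1252472831)), (.negSucc (nat_lit 1105967103)), (.negSucc (nat_lit 1252472815)), (.negSucc (nat_lit 1105967119)), (.ofNat (nat_lit 6841482709805338699004)), (.ofNat (nat_lit 0)), (.ofNat (nat_lit 25108351008708949910763864064))⟩,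
    ⟨nat_lit 15, nat_lit 16, (.negSucc (nat_lit 125846399)), (.ofNat (nat_lit 844855808)), (.negSucc (nat_lit 125846383)), (.ofNat (nat_lit 844855792)), (.ofNat (nat_lit 6841482709805338699004)), (.ofNat (nat_lit 0)), (.ofNat (nat_lit 3586907286958421415823409152))⟩,
    ⟨nat_lit 17, nat_lit 16, (.negSucc (nat_lit 233591231)), (.ofNat (nat_lit 844855808)), (.negSucc (nat_lit 233591215)), (.ofNat (nat_lit 844855792)), (.negSucc (nat_lit 6841482709805338699003)), (.ofNat (nat_lit 0)), (.ofNat (nat_lit 28695258295667371326587273216))⟩,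
    ⟨nat_lit 18, nat_lit 17, (.negSucc (nat_lit 1058099199)), (.negSucc (nat_lit 233591231)), (.negSucc (nat_lit 1058099183)), (.negSucc (nat_lit 233591247)), (.ofNat (nat_lit 6841482709805338699004)), (.ofNat (nat_lit 0)), (.ofNat (nat_lit 14347629147833685663293636608))⟩,
    ⟨nat_lit 19, nat_lit 18, (.negSucc (nat_lit 1263446015)), (.negSucc (nat_lit 1058099199)), (.negSucc (nat_lit 1263445999)), (.negSucc (nat_lit 1058099215)), (.negSucc (nat_lit 6841482709805338699003)), (.ofNat (nat_lit 0)), (.ofNat (nat_lit 10760721860875264247470227456))⟩,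
    ⟨nat_lit 19, nat_lit 20, (.negSucc (nat_lit 1263446015)), (.negSucc (nat_lit 622438719)), (.negSucc (nat_lit 1263445999)), (.negSucc (nat_lit 622438735)), (.ofNat (nat_lit 6841482709805338699004)), (.ofNat (nat_lit 0)), (.ofNat (nat_lit 28695258295667371326587273216))⟩,
    ⟨nat_lit 20, nat_lit 11, (.negSucc (nat_lit 622438719)), (.ofNat (nat_lit 355210112)), (.negSucc (nat_lit 622438703)), (.ofNat (nat_lit 355210096)), (.negSucc (nat_lit 6841482709805338699003)), (.ofNat (nat_lit 0)), (.ofNat (nat_lit 25108351008708949910763864064))⟩,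
    ⟨nat_lit 0, nat_lit 10, (.negSucc (nat_lit 734406911)), (.ofNat (nat_lit 359404416)), (.negSucc (nat_lit 734406895)), (.ofNat (nat_lit 359404400)), (.ofNat (nat_lit 6841482709805338699004)), (.ofNat (nat_lit 0)), (.ofNat (nat_lit 10760721860875264247470227456))⟩,
    ⟨nat_lit 21, nat_lit 15, (.negSucc (nat_lit 1319823167)), (.negSucc (nat_lit 125846399)), (.negSucc (nat_lit 1319823151)), (.negSucc (nat_lit 125846415)), (.negSucc (nat_lit 6841482709805338699003)), (.ofNat (nat_lit 0)), (.ofNat (nat_lit 0))⟩]

theorem ok82 : stOK 21 21 S82 = true := by decide +kernel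

def S83 : SD where
  vs := [
    ⟨nat_lit 0, nat_lit 0, nat_lit 20, (.ofNat (nat_lit 8)), (.negSucc (nat_lit 734406911)), (.ofNat (nat_lit 5867958123701204758594723651456)), (.ofNat (nat_lit 0)), (.ofNat (nat_lit 90276278740192201305536086400)), (.negSucc (nat_lit 734406927)), (.negSucc (nat_lit 734406895)), (.negSucc (nat_lit 6948380877273379476366)), (.ofNat (nat_lit 6948380909456020873382)), (.negSucc (nat_lit 6948380877273379476366)), (.ofNat (nat_lit 6948380909456020873382)), (.ofNat (nat_lit 641389069173527458208))⟩,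
    ⟨nat_lit 2, nat_lit 0, nat_lit 1, (.ofNat (nat_lit 8)), (.negSucc (nat_lit 1420199743)), (.ofNat (nat_lit 10633107923341160107903125652800)), (.ofNat (nat_lit 0)), (.ofNat (nat_lit 163586275743710155504789348416)), (.negSucc (nat_lit 1420199759)), (.negSucc (nat_lit 1420199727)), (.negSucc (nat_lit 6948380877273379476366)), (.ofNat (nat_lit 6948380877146047116175)), (.negSucc (nat_lit 6948380877273379476366)), (.ofNat (nat_lit 6948380877146047116175)), (.ofNat (nat_lit 641389004553579943794))⟩,
    ⟨nat_lit 0, nat_lit 1, nat_lit 2, (.ofNat (nat_lit 8)), (.negSucc (nat_lit 1268041727)), (.ofNat (nat_lit 11690359772020042379342835161600)), (.ofNat (nat_lit 0)), (.ofNat (nat_lit 179851688800308344296029041152)), (.negSucc (nat_lit 1268041743)), (.negSucc (nat_lit 1268041711)), (.ofNat (nat_lit 6948380877146047116175)), (.negSucc (nat_lit 6948380877146047116174)), (.negSucc (nat_lit 6948380877146047116174)), (.ofNat (nat_lit 6948380877146047116175)), (.ofNat (nat_lit 641389004044250503026))⟩,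
    ⟨nat_lit 0, nat_lit 2, nat_lit 3, (.ofNat (nat_lit 8)), (.negSucc (nat_lit 1062694911)), (.ofNat (nat_lit 10263531882542814437050316812800)), (.ofNat (nat_lit 0)), (.ofNat (nat_lit 157900490500658683645564463616)), (.negSucc (nat_lit 1062694927)), (.negSucc (nat_lit 1062694895)), (.negSucc (nat_lit 6948380877146047116174)), (.ofNat (nat_lit 6948380877146047116175)), (.negSucc (nat_lit 6948380877146047116174)), (.ofNat (nat_lit 6948380877146047116175)), (.ofNat (nat_lit 641389004044250503026))⟩,
    ⟨nat_lit 1, nat_lit 3, nat_lit 4, (.ofNat (nat_lit 8)), (.negSucc (nat_lit 92009151)), (.ofNat (nat_lit 17008226255044791813010454980800)), (.ofNat (nat_lit 0)), (.ofNat (nat_lit 261665019308381412505593648576)), (.negSucc (nat_lit 92009167)), (.negSucc (nat_lit 92009135)), (.ofNat (nat_lit 6948380877146047116175)), (.negSucc (nat_lit 6948380877146047116174)), (.negSucc (nat_lit 6948380877146047116174)), (.ofNat (nat_lit 6948380877146047116175)), (.ofNat (nat_lit 641389004044250503026))⟩,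
    ⟨nat_lit 0, nat_lit 5, nat_lit 4, (.ofNat (nat_lit 8)), (.negSucc (nat_lit 330984127)), (.ofNat (nat_lit 18668715408399627371093244817600)), (.ofNat (nat_lit 0)), (.ofNat (nat_lit 287211006283071190322031361472)), (.negSucc (nat_lit 330984143)), (.negSucc (nat_lit 330984111)), (.ofNat (nat_lit 6948380877146047116175)), (.negSucc (nat_lit 6948380877146047116174)), (.negSucc (nat_lit 6948380877146047116174)), (.ofNat (nat_lit 6948380877146047116175)), (.ofNat (nat_lit 641389004044250503026))⟩,
    ⟨nat_lit 2, nat_lit 6, nat_lit 5, (.ofNat (nat_lit 8)), (.negSucc (nat_lit 1378904063)), (.ofNat (nat_lit 11387368564317117814458154252800)), (.ofNat (nat_lit 0)), (.ofNat (nat_lit 175190285604878735605535740416)), (.negSucc (nat_lit 1378904079)), (.negSucc (nat_lit 1378904047)), (.negSucc (nat_lit 6948380877146047116174)), (.ofNat (nat_lit 6948380877146047116175)), (.negSucc (nat_lit 6948380877146047116174)), (.ofNat (nat_lit 6948380877146047116175)), (.ofNat (nat_lit 641389004044250503026))⟩,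
    ⟨nat_lit 0, nat_lit 7, nat_lit 8, (.ofNat (nat_lit 8)), (.negSucc (nat_lit 1090922495)), (.ofNat (nat_lit 11205562455468133959443750566400)), (.ofNat (nat_lit 0)), (.ofNat (nat_lit 172393268545663599374569067008)), (.negSucc (nat_lit 1090922511)), (.negSucc (nat_lit 1090922479)), (.ofNat (nat_lit 6948380877146047116175)), (.negSucc (nat_lit 6948380877146047116174)), (.negSucc (nat_lit 6948380877146047116174)), (.ofNat (nat_lit 6948380877146047116175)), (.ofNat (nat_lit 641389004044250503026))⟩,
    ⟨nat_lit 0, nat_lit 8, nat_lit 9, (.ofNat (nat_lit 8)), (.ofNat (nat_lit 242269952)), (.ofNat (nat_lit 1942033544229408151107061920000)), (.ofNat (nat_lit 0)), (.ofNat (nat_lit 29877439141990894632158342400)), (.ofNat (nat_lit 242269936)), (.ofNat (nat_lit 242269968)), (.negSucc (nat_lit 6948380877146047116174)), (.ofNat (nat_lit 6948380877146047116175)), (.negSucc (nat_lit 6948380877146047116174)), (.ofNat (nat_lit 6948380877146047116175)), (.ofNat (nat_lit 641389004044250503026))⟩,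
    ⟨nat_lit 1, nat_lit 9, nat_lit 10, (.ofNat (nat_lit 8)), (.ofNat (nat_lit 1130249280)), (.ofNat (nat_lit 8112052126205605627184476350400)), (.ofNat (nat_lit 0)), (.ofNat (nat_lit 124800801941624701955606583488)), (.ofNat (nat_lit 1130249264)), (.ofNat (nat_lit 1130249296)), (.ofNat (nat_lit 6948380877146047116175)), (.negSucc (nat_lit 6948380922879881937592)), (.negSucc (nat_lit 6948380922879881937592)), (.ofNat (nat_lit 6948380877146047116175)), (.ofNat (nat_lit 641389095511920145862))⟩,
    ⟨nat_lit 0, nat_lit 20, nat_lit 10, (.ofNat (nat_lit 8)), (.ofNat (nat_lit 359404416)), (.ofNat (nat_lit 13468175873723142707704408922752)), (.ofNat (nat_lit 0)), (.ofNat (nat_lit 207202740460914006567863840384)), (.ofNat (nat_lit 359404400)), (.ofNat (nat_lit 359404432)), (.ofNat (nat_lit 6948380909456020873382)), (.negSucc (nat_lit 6948380922879881937592)), (.negSucc (nat_lit 6948380922879881937592)), (.ofNat (nat_lit 6948380909456020873382)), (.ofNat (nat_lit 641389224751815174690))⟩,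
    ⟨nat_lit 1, nat_lit 11, nat_lit 19, (.ofNat (nat_lit 8)), (.ofNat (nat_lit 355210112)), (.ofNat (nat_lit 8915856390447025164729140582400)), (.ofNat (nat_lit 0)), (.ofNat (nat_lit 137167021391492694840802326528)), (.ofNat (nat_lit 355210096)), (.ofNat (nat_lit 355210128)), (.ofNat (nat_lit 6948380877146047116175)), (.negSucc (nat_lit 6948380877146047116174)), (.negSucc (nat_lit 6948380877146047116174)), (.ofNat (nat_lit 6948380877146047116175)), (.ofNat (nat_lit 641389004044250503026))⟩,
    ⟨nat_lit 0, nat_lit 12, nat_lit 11, (.ofNat (nat_lit 8)), (.negSucc (nat_lit 187493183)), (.ofNat (nat_lit 5144947186556494321409673169600)), (.ofNat (nat_lit 0)), (.ofNat (nat_lit 79153033639330681867157630912)), (.negSucc (nat_lit 187493199)), (.negSucc (nat_lit 187493167)), (.negSucc (nat_lit 6948380877146047116174)), (.ofNat (nat_lit 6948380877146047116175)), (.negSucc (nat_lit 6948380877146047116174)), (.ofNat (nat_lit 6948380877146047116175)), (.ofNat (nat_lit 641389004044250503026))⟩,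
    ⟨nat_lit 0, nat_lit 13, nat_lit 12, (.ofNat (nat_lit 8)), (.negSucc (nat_lit 1105967103)), (.ofNat (nat_lit 11526853808441862628707620825600)), (.ofNat (nat_lit 0)), (.ofNat (nat_lit 177336212437567117363201311232)), (.negSucc (nat_lit 1105967119)), (.negSucc (nat_lit 1105967087)), (.ofNat (nat_lit 6948380877146047116175)), (.negSucc (nat_lit 6948380877146047116174)), (.negSucc (nat_lit 6948380877146047116174)), (.ofNat (nat_lit 6948380877146047116175)), (.ofNat (nat_lit 641389004044250503026))⟩,
    ⟨nat_lit 0, nat_lit 6, nat_lit 13, (.ofNat (nat_lit 8)), (.negSucc (nat_lit 1252472831)), (.ofNat (nat_lit 10508876209614302433630101875200)), (.ofNat (nat_lit 0)), (.ofNat (nat_lit 161675018609450806669836255744)), (.negSucc (nat_lit 1252472847)), (.negSucc (nat_lit 1252472815)), (.negSucc (nat_lit 6948380877146047116174)), (.ofNat (nat_lit 6948380877146047116175)), (.negSucc (nat_lit 6948380877146047116174)), (.ofNat (nat_lit 6948380877146047116175)), (.ofNat (nat_lit 641389004044250503026))⟩,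
    ⟨nat_lit 0, nat_lit 21, nat_lit 14, (.ofNat (nat_lit 8)), (.negSucc (nat_lit 125846399)), (.ofNat (nat_lit 1318868060849611932661283974400)), (.ofNat (nat_lit 0)), (.ofNat (nat_lit 20290277859224798963844544768)), (.negSucc (nat_lit 125846415)), (.negSucc (nat_lit 125846383)), (.negSucc (nat_lit 6948380877146047116174)), (.ofNat (nat_lit 6948380877146047116175)), (.negSucc (nat_lit 6948380877146047116174)), (.ofNat (nat_lit 6948380877146047116175)), (.ofNat (nat_lit 641389004044250503026))⟩,
    ⟨nat_lit 1, nat_lit 14, nat_lit 15, (.ofNat (nat_lit 8)), (.ofNat (nat_lit 844855808)), (.ofNat (nat_lit 8063676720320256606804388988800)), (.ofNat (nat_lit 0)), (.ofNat (nat_lit 124056564928003947795919358336)), (.ofNat (nat_lit 844855792)), (.ofNat (nat_lit 844855824)), (.ofNat (nat_lit 6948380877146047116175)), (.negSucc (nat_lit 6948380877146047116174)), (.negSucc (nat_lit 6948380877146047116174)), (.ofNat (nat_lit 6948380877146047116175)), (.ofNat (nat_lit 641389004044250503026))⟩,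
    ⟨nat_lit 0, nat_lit 16, nat_lit 15, (.ofNat (nat_lit 8)), (.negSucc (nat_lit 233591231)), (.ofNat (nat_lit 15557137510071014766943853860800)), (.ofNat (nat_lit 0)), (.ofNat (nat_lit 239340577078015611797069482176)), (.negSucc (nat_lit 233591247)), (.negSucc (nat_lit 233591215)), (.ofNat (nat_lit 6948380877146047116175)), (.negSucc (nat_lit 6948380877146047116174)), (.negSucc (nat_lit 6948380877146047116174)), (.ofNat (nat_lit 6948380877146047116175)), (.ofNat (nat_lit 641389004044250503026))⟩,
    ⟨nat_lit 0, nat_lit 17, nat_lit 16, (.ofNat (nat_lit 8)), (.negSucc (nat_lit 1058099199)), (.ofNat (nat_lit 9828142112165269819954144678400)), (.ofNat (nat_lit 0)), (.ofNat (nat_lit 151202186341004151074911963648)), (.negSucc (nat_lit 1058099215)), (.negSucc (nat_lit 1058099183)), (.negSucc (nat_lit 6948380877146047116174)), (.ofNat (nat_lit 6948380877146047116175)), (.negSucc (nat_lit 6948380877146047116174)), (.ofNat (nat_lit 6948380877146047116175)), (.ofNat (nat_lit 641389004044250503026))⟩,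
    ⟨nat_lit 2, nat_lit 17, nat_lit 18, (.ofNat (nat_lit 8)), (.negSucc (nat_lit 1263446015)), (.ofNat (nat_lit 11254970001642497762246663027200)), (.ofNat (nat_lit 0)), (.ofNat (nat_lit 173153384640653811725376541184)), (.negSucc (nat_lit 1263446031)), (.negSucc (nat_lit 1263445999)), (.negSucc (nat_lit 6948380877146047116174)), (.ofNat (nat_lit 6948380877146047116175)), (.negSucc (nat_lit 6948380877146047116174)), (.ofNat (nat_lit 6948380877146047116175)), (.ofNat (nat_lit 641389004044250503026))⟩,
    ⟨nat_lit 0, nat_lit 18, nat_lit 19, (.ofNat (nat_lit 8)), (.negSucc (nat_lit 622438719)), (.ofNat (nat_lit 15708932839279993621274597640000)), (.ofNat (nat_lit 0)), (.ofNat (nat_lit 241675889835076824940599220800)), (.negSucc (nat_lit 622438735)), (.negSucc (nat_lit 622438703)), (.ofNat (nat_lit 6948380877146047116175)), (.negSucc (nat_lit 6948380877146047116174)), (.negSucc (nat_lit 6948380877146047116174)), (.ofNat (nat_lit 6948380877146047116175)), (.ofNat (nat_lit 641389004044250503026))⟩,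
    ⟨nat_lit 2, nat_lit 21, nat_lit 7, (.ofNat (nat_lit 8)), (.negSucc (nat_lit 1319823167)), (.ofNat (nat_lit 9615073403377454332407630996800)), (.ofNat (nat_lit 0)), (.ofNat (nat_lit 147924206205806989728070828096)), (.negSucc (nat_lit 1319823183)), (.negSucc (nat_lit 1319823151)), (.negSucc (nat_lit 6948380877146047116174)), (.ofNat (nat_lit 6948380877146047116175)), (.negSucc (nat_lit 6948380877146047116174)), (.ofNat (nat_lit 6948380877146047116175)), (.ofNat (nat_lit 641389004044250503026))⟩]
  es := [
    ⟨nat_lit 1, nat_lit 0, (.negSucc (nat_lit 1420199743)), (.negSucc (nat_lit 734406911)), (.negSucc (nat_lit 1420199727)), (.negSucc (nat_lit 734406927)), (.negSucc (nat_lit 6948380877273379476366)), (.negSucc (nat_lit 106898167468040777362)), (.ofNat (nat_lit 11769525671529515312295753344))⟩,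
    ⟨nat_lit 1, nat_lit 2, (.negSucc (nat_lit 1420199743)), (.negSucc (nat_lit 1268041727)), (.negSucc (nat_lit 1420199727)), (.negSucc (nat_lit 1268041743)), (.ofNat (nat_lit 6948380877146047116175)), (.ofNat (nat_lit 106898167340708417171)), (.ofNat (nat_lit 315403025635053410349688752640))⟩,
    ⟨nat_lit 2, nat_lit 3, (.negSucc (nat_lit 1268041727)), (.negSucc (nat_lit 1062694911)), (.negSucc (nat_lit 1268041711)), (.negSucc (nat_lit 1062694927)), (.negSucc (nat_lit 6948380877146047116174)), (.negSucc (nat_lit 106898167340708417170)), (.ofNat (nat_lit 44300351965563278242369329664))⟩,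
    ⟨nat_lit 3, nat_lit 4, (.negSucc (nat_lit 1062694911)), (.negSucc (nat_lit 92009151)), (.negSucc (nat_lit 1062694895)), (.negSucc (nat_lit 92009167)), (.ofNat (nat_lit 6948380877146047116175)), (.ofNat (nat_lit 106898167340708417171)), (.ofNat (nat_lit 271500629035754089048759597568))⟩,
    ⟨nat_lit 5, nat_lit 4, (.negSucc (nat_lit 330984127)), (.negSucc (nat_lit 92009151)), (.negSucc (nat_lit 330984111)), (.negSucc (nat_lit 92009167)), (.negSucc (nat_lit 6948380877146047116174)), (.negSucc (nat_lit 106898167340708417170)), (.ofNat (nat_lit 251829409581008735962427699584))⟩,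
    ⟨nat_lit 6, nat_lit 5, (.negSucc (nat_lit 1378904063)), (.negSucc (nat_lit 330984127)), (.negSucc (nat_lit 1378904047)), (.negSucc (nat_lit 330984143)), (.ofNat (nat_lit 6948380877146047116175)), (.ofNat (nat_lit 106898167340708417171)), (.ofNat (nat_lit 322592602985133644681635023360))⟩,
    ⟨nat_lit 6, nat_lit 14, (.negSucc (nat_lit 1378904063)), (.negSucc (nat_lit 1252472831)), (.negSucc (nat_lit 1378904047)), (.negSucc (nat_lit 1252472847)), (.negSucc (nat_lit 6948380877146047116174)), (.negSucc (nat_lit 106898167340708417170)), (.ofNat (nat_lit 27787968224623826529436457472))⟩,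
    ⟨nat_lit 21, nat_lit 7, (.negSucc (nat_lit 1319823167)), (.negSucc (nat_lit 1090922495)), (.negSucc (nat_lit 1319823151)), (.negSucc (nat_lit 1090922511)), (.ofNat (nat_lit 6948380877146047116175)), (.ofNat (nat_lit 106898167340708417171)), (.ofNat (nat_lit 289010884078814908242965645824))⟩,
    ⟨nat_lit 7, nat_lit 8, (.negSucc (nat_lit 1090922495)), (.ofNat (nat_lit 242269952)), (.negSucc (nat_lit 1090922479)), (.ofNat (nat_lit 242269936)), (.negSucc (nat_lit 6948380877146047116174)), (.negSucc (nat_lit 106898167340708417170)), (.ofNat (nat_lit 55775653012512290506172488192))⟩,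
    ⟨nat_lit 8, nat_lit 9, (.ofNat (nat_lit 242269952)), (.ofNat (nat_lit 1130249280)), (.ofNat (nat_lit 242269968)), (.ofNat (nat_lit 1130249264)), (.ofNat (nat_lit 6948380877146047116175)), (.ofNat (nat_lit 106898167340708417171)), (.ofNat (nat_lit 3979225271469498758144196608))⟩,
    ⟨nat_lit 10, nat_lit 9, (.ofNat (nat_lit 359404416)), (.ofNat (nat_lit 1130249280)), (.ofNat (nat_lit 359404432)), (.ofNat (nat_lit 1130249264)), (.negSucc (nat_lit 6948380922879881937592)), (.negSucc (nat_lit 106898213074543238588)), (.ofNat (nat_lit 245622430302413783699692049408))⟩,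
    ⟨nat_lit 12, nat_lit 11, (.negSucc (nat_lit 187493183)), (.ofNat (nat_lit 355210112)), (.negSucc (nat_lit 187493167)), (.ofNat (nat_lit 355210096)), (.ofNat (nat_lit 6948380877146047116175)), (.ofNat (nat_lit 106898167340708417171)), (.ofNat (nat_lit 99195711397804915818148693376))⟩,
    ⟨nat_lit 13, nat_lit 12, (.negSucc (nat_lit 1105967103)), (.negSucc (nat_lit 187493183)), (.negSucc (nat_lit 1105967087)), (.negSucc (nat_lit 187493199)), (.negSucc (nat_lit 6948380877146047116174)), (.negSucc (nat_lit 106898167340708417170)), (.ofNat (nat_lit 59110355880856447916166568448))⟩,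
    ⟨nat_lit 14, nat_lit 13, (.negSucc (nat_lit 1252472831)), (.negSucc (nat_lit 1105967103)), (.negSucc (nat_lit 1252472815)), (.negSucc (nat_lit 1105967119)), (.ofNat (nat_lit 6948380877146047116175)), (.ofNat (nat_lit 106898167340708417171)), (.ofNat (nat_lit 295562068994277786810236054016))⟩,
    ⟨nat_lit 15, nat_lit 16, (.negSucc (nat_lit 125846399)), (.ofNat (nat_lit 844855808)), (.negSucc (nat_lit 125846383)), (.ofNat (nat_lit 844855792)), (.ofNat (nat_lit 6948380877146047116175)), (.ofNat (nat_lit 106898167340708417171)), (.ofNat (nat_lit 33743027385650526714513079168))⟩,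
    ⟨nat_lit 17, nat_lit 16, (.negSucc (nat_lit 233591231)), (.ofNat (nat_lit 844855808)), (.negSucc (nat_lit 233591215)), (.ofNat (nat_lit 844855792)), (.negSucc (nat_lit 6948380877146047116174)), (.negSucc (nat_lit 106898167340708417170)), (.ofNat (nat_lit 214370102470357368877325637504))⟩,
    ⟨nat_lit 18, nat_lit 17, (.negSucc (nat_lit 1058099199)), (.negSucc (nat_lit 233591231)), (.negSucc (nat_lit 1058099183)), (.negSucc (nat_lit 233591247)), (.ofNat (nat_lit 6948380877146047116175)), (.ofNat (nat_lit 106898167340708417171)), (.ofNat (nat_lit 264311051685673854716813326848))⟩,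
    ⟨nat_lit 19, nat_lit 18, (.negSucc (nat_lit 1263446015)), (.negSucc (nat_lit 1058099199)), (.negSucc (nat_lit 1263445999)), (.negSucc (nat_lit 1058099215)), (.negSucc (nat_lit 6948380877146047116174)), (.negSucc (nat_lit 106898167340708417170)), (.ofNat (nat_lit 38093320996334447433010600448))⟩,
    ⟨nat_lit 19, nat_lit 20, (.negSucc (nat_lit 1263446015)), (.negSucc (nat_lit 622438719)), (.negSucc (nat_lit 1263445999)), (.negSucc (nat_lit 622438735)), (.ofNat (nat_lit 6948380877146047116175)), (.ofNat (nat_lit 106898167340708417171)), (.ofNat (nat_lit 308213448284973176017742481920))⟩,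
    ⟨nat_lit 20, nat_lit 11, (.negSucc (nat_lit 622438719)), (.ofNat (nat_lit 355210112)), (.negSucc (nat_lit 622438703)), (.ofNat (nat_lit 355210096)), (.negSucc (nat_lit 6948380877146047116174)), (.negSucc (nat_lit 106898167340708417170)), (.ofNat (nat_lit 175138331385180473863455959680))⟩,
    ⟨nat_lit 0, nat_lit 10, (.negSucc (nat_lit 734406911)), (.ofNat (nat_lit 359404416)), (.negSucc (nat_lit 734406895)), (.ofNat (nat_lit 359404400)), (.ofNat (nat_lit 6948380909456020873382)), (.ofNat (nat_lit 106898199650682174378)), (.ofNat (nat_lit 168783055444009175683928587136))⟩,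
    ⟨nat_lit 21, nat_lit 15, (.negSucc (nat_lit 1319823167)), (.negSucc (nat_lit 125846399)), (.negSucc (nat_lit 1319823151)), (.negSucc (nat_lit 125846415)), (.negSucc (nat_lit 6948380877146047116174)), (.negSucc (nat_lit 106898167340708417170)), (.ofNat (nat_lit 6837528332799071213176010368))⟩]

theorem ok83 : stOK 21 21 S83 = true := by decide +kernel

def S84 : SD where
  vs := [
    ⟨nat_lit 0, nat_lit 0, nat_lit 20, (.ofNat (nat_lit 8)), (.negSucc (nat_lit 734669055)), (.ofNat (nat_lit 5873422552727399253426368814976)), (.negSucc (nat_lit 262143)), (.ofNat (nat_lit 5464429026194494831645163520)), (.negSucc (nat_lit 734669071)), (.negSucc (nat_lit 734669039)), (.negSucc (nat_lit 6948380877273379476366)), (.ofNat (nat_lit 6948380909456020873382)), (.negSucc (nat_lit 6948380877273379476366)), (.ofNat (nat_lit 6948380909456020873382)), (.ofNat (nat_lit 0))⟩,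
    ⟨nat_lit 2, nat_lit 0, nat_lit 1, (.ofNat (nat_lit 8)), (.negSucc (nat_lit 1764296127)), (.ofNat (nat_lit 13027663610535180307223016222400)), (.negSucc (nat_lit 344096383)), (.ofNat (nat_lit 2394555687194020199319890569600)), (.negSucc (nat_lit 1764296143)), (.negSucc (nat_lit 1764296111)), (.negSucc (nat_lit 6948380877273379476366)), (.ofNat (nat_lit 6948380877146047116175)), (.negSucc (nat_lit 6948380877273379476366)), (.ofNat (nat_lit 6948380877146047116175)), (.ofNat (nat_lit 0))⟩,
    ⟨nat_lit 0, nat_lit 1, nat_lit 2, (.ofNat (nat_lit 8)), (.negSucc (nat_lit 1611351679)), (.ofNat (nat_lit 14090379888284038298788393468800)), (.negSucc (nat_lit 343309951)), (.ofNat (nat_lit 2400020116263995919445558307200)), (.negSucc (nat_lit 1611351695)), (.negSucc (nat_lit 1611351663)), (.ofNat (nat_lit 6948380877146047116175)), (.negSucc (nat_lit 6948380877146047116174)), (.negSucc (nat_lit 6948380877146047116174)), (.ofNat (nat_lit 6948380877146047116175)), (.ofNat (nat_lit 0))⟩,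
    ⟨nat_lit 0, nat_lit 2, nat_lit 3, (.ofNat (nat_lit 8)), (.negSucc (nat_lit 1404956287)), (.ofNat (nat_lit 12656266093380176062994984803200)), (.negSucc (nat_lit 342261375)), (.ofNat (nat_lit 2392734210837361625944667990400)), (.negSucc (nat_lit 1404956303)), (.negSucc (nat_lit 1404956271)), (.negSucc (nat_lit 6948380877146047116174)), (.ofNat (nat_lit 6948380877146047116175)), (.negSucc (nat_lit 6948380877146047116174)), (.ofNat (nat_lit 6948380877146047116175)), (.ofNat (nat_lit 0))⟩,
    ⟨nat_lit 1, nat_lit 3, nat_lit 4, (.ofNat (nat_lit 8)), (.negSucc (nat_lit 432697663)), (.ofNat (nat_lit 19411889324022104879206458446400)), (.negSucc (nat_lit 340688511)), (.ofNat (nat_lit 2403663068977313066196003465600)), (.negSucc (nat_lit 432697679)), (.negSucc (nat_lit 432697647)), (.ofNat (nat_lit 6948380877146047116175)), (.negSucc (nat_lit 6948380877146047116174)), (.negSucc (nat_lit 6948380877146047116174)), (.ofNat (nat_lit 6948380877146047116175)), (.ofNat (nat_lit 0))⟩,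
    ⟨nat_lit 0, nat_lit 5, nat_lit 4, (.ofNat (nat_lit 8)), (.negSucc (nat_lit 672983359)), (.ofNat (nat_lit 21081485859160233304165361179200)), (.negSucc (nat_lit 341999231)), (.ofNat (nat_lit 2412770450760605933072116361600)), (.negSucc (nat_lit 672983375)), (.negSucc (nat_lit 672983343)), (.ofNat (nat_lit 6948380877146047116175)), (.negSucc (nat_lit 6948380877146047116174)), (.negSucc (nat_lit 6948380877146047116174)), (.ofNat (nat_lit 6948380877146047116175)), (.ofNat (nat_lit 0))⟩,
    ⟨nat_lit 2, nat_lit 6, nat_lit 5, (.ofNat (nat_lit 8)), (.negSucc (nat_lit 1723000447)), (.ofNat (nat_lit 13785567204224455160528489980800)), (.negSucc (nat_lit 344096383)), (.ofNat (nat_lit 2398198639907337346070335728000)), (.negSucc (nat_lit 1723000463)), (.negSucc (nat_lit 1723000431)), (.negSucc (nat_lit 6948380877146047116174)), (.ofNat (nat_lit 6948380877146047116175)), (.negSucc (nat_lit 6948380877146047116174)), (.ofNat (nat_lit 6948380877146047116175)), (.ofNat (nat_lit 0))⟩,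
    ⟨nat_lit 0, nat_lit 7, nat_lit 8, (.ofNat (nat_lit 8)), (.negSucc (nat_lit 1433183871)), (.ofNat (nat_lit 13601939619018812732138863715200)), (.negSucc (nat_lit 342261375)), (.ofNat (nat_lit 2396377163550678772695113148800)), (.negSucc (nat_lit 1433183887)), (.negSucc (nat_lit 1433183855)), (.ofNat (nat_lit 6948380877146047116175)), (.negSucc (nat_lit 6948380877146047116174)), (.negSucc (nat_lit 6948380877146047116174)), (.ofNat (nat_lit 6948380877146047116175)), (.ofNat (nat_lit 0))⟩,
    ⟨nat_lit 0, nat_lit 8, nat_lit 9, (.ofNat (nat_lit 8)), (.ofNat (nat_lit 243580672)), (.ofNat (nat_lit 1951140926012701017983174816000)), (.ofNat (nat_lit 1310720)), (.ofNat (nat_lit 9107381783292866876112896000)), (.ofNat (nat_lit 243580656)), (.ofNat (nat_lit 243580688)), (.negSucc (nat_lit 6948380877146047116174)), (.ofNat (nat_lit 6948380877146047116175)), (.negSucc (nat_lit 6948380877146047116174)), (.ofNat (nat_lit 6948380877146047116175)), (.ofNat (nat_lit 0))⟩,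
    ⟨nat_lit 1, nat_lit 9, nat_lit 10, (.ofNat (nat_lit 8)), (.ofNat (nat_lit 1132608576)), (.ofNat (nat_lit 8128445413415532787561479563200)), (.ofNat (nat_lit 2359296)), (.ofNat (nat_lit 16393287209927160377003212800)), (.ofNat (nat_lit 1132608560)), (.ofNat (nat_lit 1132608592)), (.ofNat (nat_lit 6948380877146047116175)), (.negSucc (nat_lit 6948380922879881937592)), (.negSucc (nat_lit 6948380922879881937592)), (.ofNat (nat_lit 6948380877146047116175)), (.ofNat (nat_lit 0))⟩,
    ⟨nat_lit 0, nat_lit 20, nat_lit 10, (.ofNat (nat_lit 8)), (.ofNat (nat_lit 361239424)), (.ofNat (nat_lit 13488212113670364715622708894336)), (.ofNat (nat_lit 1835008)), (.ofNat (nat_lit 20036239947222007918299971584)), (.ofNat (nat_lit 361239408)), (.ofNat (nat_lit 361239440)), (.ofNat (nat_lit 6948380909456020873382)), (.negSucc (nat_lit 6948380922879881937592)), (.negSucc (nat_lit 6948380922879881937592)), (.ofNat (nat_lit 6948380909456020873382)), (.ofNat (nat_lit 0))⟩,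
    ⟨nat_lit 1, nat_lit 11, nat_lit 19, (.ofNat (nat_lit 8)), (.ofNat (nat_lit 14259456)), (.ofNat (nat_lit 11310412077641045364049031152000)), (.negSucc (nat_lit 340950655)), (.ofNat (nat_lit 2394555687194020199319890569600)), (.ofNat (nat_lit 14259440)), (.ofNat (nat_lit 14259472)), (.ofNat (nat_lit 6948380877146047116175)), (.negSucc (nat_lit 6948380877146047116174)), (.negSucc (nat_lit 6948380877146047116174)), (.ofNat (nat_lit 6948380877146047116175)), (.ofNat (nat_lit 0))⟩,
    ⟨nat_lit 0, nat_lit 12, nat_lit 11, (.ofNat (nat_lit 8)), (.negSucc (nat_lit 528705983)), (.ofNat (nat_lit 7537681397393855947354341160000)), (.negSucc (nat_lit 341212799)), (.ofNat (nat_lit 2392734210837361625944667990400)), (.negSucc (nat_lit 528705999)), (.negSucc (nat_lit 528705967)), (.negSucc (nat_lit 6948380877146047116174)), (.ofNat (nat_lit 6948380877146047116175)), (.negSucc (nat_lit 6948380877146047116174)), (.ofNat (nat_lit 6948380877146047116175)), (.ofNat (nat_lit 0))⟩,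
    ⟨nat_lit 0, nat_lit 13, nat_lit 12, (.ofNat (nat_lit 8)), (.negSucc (nat_lit 1448228479)), (.ofNat (nat_lit 13926873924705858548153179132800)), (.negSucc (nat_lit 342261375)), (.ofNat (nat_lit 2400020116263995919445558307200)), (.negSucc (nat_lit 1448228495)), (.negSucc (nat_lit 1448228463)), (.ofNat (nat_lit 6948380877146047116175)), (.negSucc (nat_lit 6948380877146047116174)), (.negSucc (nat_lit 6948380877146047116174)), (.ofNat (nat_lit 6948380877146047116175)), (.ofNat (nat_lit 0))⟩,
    ⟨nat_lit 0, nat_lit 6, nat_lit 13, (.ofNat (nat_lit 8)), (.negSucc (nat_lit 1595782783)), (.ofNat (nat_lit 12901610420451664059574769865600)), (.negSucc (nat_lit 343309951)), (.ofNat (nat_lit 2392734210837361625944667990400)), (.negSucc (nat_lit 1595782799)), (.negSucc (nat_lit 1595782767)), (.negSucc (nat_lit 6948380877146047116174)), (.ofNat (nat_lit 6948380877146047116175)), (.negSucc (nat_lit 6948380877146047116174)), (.ofNat (nat_lit 6948380877146047116175)), (.ofNat (nat_lit 0))⟩,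
    ⟨nat_lit 0, nat_lit 21, nat_lit 14, (.ofNat (nat_lit 8)), (.negSucc (nat_lit 126108543)), (.ofNat (nat_lit 1320689537206270506036506553600)), (.negSucc (nat_lit 262143)), (.ofNat (nat_lit 1821476356658573375222579200)), (.negSucc (nat_lit 126108559)), (.negSucc (nat_lit 126108527)), (.negSucc (nat_lit 6948380877146047116174)), (.ofNat (nat_lit 6948380877146047116175)), (.negSucc (nat_lit 6948380877146047116174)), (.ofNat (nat_lit 6948380877146047116175)), (.ofNat (nat_lit 0))⟩,
    ⟨nat_lit 1, nat_lit 14, nat_lit 15, (.ofNat (nat_lit 8)), (.ofNat (nat_lit 846690816)), (.ofNat (nat_lit 8080070007530183767181392201600)), (.ofNat (nat_lit 1835008)), (.ofNat (nat_lit 16393287209927160377003212800)), (.ofNat (nat_lit 846690800)), (.ofNat (nat_lit 846690832)), (.ofNat (nat_lit 6948380877146047116175)), (.negSucc (nat_lit 6948380877146047116174)), (.negSucc (nat_lit 6948380877146047116174)), (.ofNat (nat_lit 6948380877146047116175)), (.ofNat (nat_lit 0))⟩,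
    ⟨nat_lit 0, nat_lit 16, nat_lit 15, (.ofNat (nat_lit 8)), (.negSucc (nat_lit 574541887)), (.ofNat (nat_lit 17955336149978352113014189588800)), (.negSucc (nat_lit 340950655)), (.ofNat (nat_lit 2398198639907337346070335728000)), (.negSucc (nat_lit 574541903)), (.negSucc (nat_lit 574541871)), (.ofNat (nat_lit 6948380877146047116175)), (.negSucc (nat_lit 6948380877146047116174)), (.negSucc (nat_lit 6948380877146047116174)), (.ofNat (nat_lit 6948380877146047116175)), (.ofNat (nat_lit 0))⟩,
    ⟨nat_lit 0, nat_lit 17, nat_lit 16, (.ofNat (nat_lit 8)), (.negSucc (nat_lit 1400360575)), (.ofNat (nat_lit 12217233370289314299148367510400)), (.negSucc (nat_lit 342261375)), (.ofNat (nat_lit 2389091258124044479194222832000)), (.negSucc (nat_lit 1400360591)), (.negSucc (nat_lit 1400360559)), (.negSucc (nat_lit 6948380877146047116174)), (.ofNat (nat_lit 6948380877146047116175)), (.negSucc (nat_lit 6948380877146047116174)), (.ofNat (nat_lit 6948380877146047116175)), (.ofNat (nat_lit 0))⟩,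
    ⟨nat_lit 2, nat_lit 17, nat_lit 18, (.ofNat (nat_lit 8)), (.negSucc (nat_lit 1606755967)), (.ofNat (nat_lit 13651347165193176534941776176000)), (.negSucc (nat_lit 343309951)), (.ofNat (nat_lit 2396377163550678772695113148800)), (.negSucc (nat_lit 1606755983)), (.negSucc (nat_lit 1606755951)), (.negSucc (nat_lit 6948380877146047116174)), (.ofNat (nat_lit 6948380877146047116175)), (.negSucc (nat_lit 6948380877146047116174)), (.ofNat (nat_lit 6948380877146047116175)), (.ofNat (nat_lit 0))⟩,
    ⟨nat_lit 0, nat_lit 18, nat_lit 19, (.ofNat (nat_lit 8)), (.negSucc (nat_lit 964700095)), (.ofNat (nat_lit 18112595908257306687470601105600)), (.negSucc (nat_lit 342261375)), (.ofNat (nat_lit 2403663068977313066196003465600)), (.negSucc (nat_lit 964700111)), (.negSucc (nat_lit 964700079)), (.ofNat (nat_lit 6948380877146047116175)), (.negSucc (nat_lit 6948380877146047116174)), (.negSucc (nat_lit 6948380877146047116174)), (.ofNat (nat_lit 6948380877146047116175)), (.ofNat (nat_lit 0))⟩,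
    ⟨nat_lit 2, nat_lit 21, nat_lit 7, (.ofNat (nat_lit 8)), (.negSucc (nat_lit 1663395263)), (.ofNat (nat_lit 12002343185144840238226631249600)), (.negSucc (nat_lit 343572095)), (.ofNat (nat_lit 2387269781767385905819000252800)), (.negSucc (nat_lit 1663395279)), (.negSucc (nat_lit 1663395247)), (.negSucc (nat_lit 6948380877146047116174)), (.ofNat (nat_lit 6948380877146047116175)), (.negSucc (nat_lit 6948380877146047116174)), (.ofNat (nat_lit 6948380877146047116175)), (.ofNat (nat_lit 0))⟩]
  es := [
    ⟨nat_lit 1, nat_lit 0, (.negSucc (nat_lit 1764296127)), (.negSucc (nat_lit 734669055)), (.negSucc (nat_lit 1764296111)), (.negSucc (nat_lit 734669071)), (.negSucc (nat_lit 6948380877273379476366)), (.ofNat (nat_lit 0)), (.ofNat (nat_lit 3642952669502542042192412672))⟩,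
    ⟨nat_lit 1, nat_lit 2, (.negSucc (nat_lit 1764296127)), (.negSucc (nat_lit 1611351679)), (.negSucc (nat_lit 1764296111)), (.negSucc (nat_lit 1611351695)), (.ofNat (nat_lit 6948380877146047116175)), (.ofNat (nat_lit 0)), (.ofNat (nat_lit 4785468421674723251889335980800))⟩,
    ⟨nat_lit 2, nat_lit 3, (.negSucc (nat_lit 1611351679)), (.negSucc (nat_lit 1404956287)), (.negSucc (nat_lit 1611351663)), (.negSucc (nat_lit 1404956303)), (.negSucc (nat_lit 6948380877146047116174)), (.ofNat (nat_lit 0)), (.ofNat (nat_lit 14571810853268587001780633600))⟩,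
    ⟨nat_lit 3, nat_lit 4, (.negSucc (nat_lit 1404956287)), (.negSucc (nat_lit 432697663)), (.negSucc (nat_lit 1404956271)), (.negSucc (nat_lit 432697679)), (.ofNat (nat_lit 6948380877146047116175)), (.ofNat (nat_lit 0)), (.ofNat (nat_lit 4770896610821454664887555347200))⟩,
    ⟨nat_lit 5, nat_lit 4, (.negSucc (nat_lit 672983359)), (.negSucc (nat_lit 432697663)), (.negSucc (nat_lit 672983343)), (.negSucc (nat_lit 432697679)), (.negSucc (nat_lit 6948380877146047116174)), (.ofNat (nat_lit 0)), (.ofNat (nat_lit 36429527133171467504451584000))⟩,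
    ⟨nat_lit 6, nat_lit 5, (.negSucc (nat_lit 1723000447)), (.negSucc (nat_lit 672983359)), (.negSucc (nat_lit 1723000431)), (.negSucc (nat_lit 672983375)), (.ofNat (nat_lit 6948380877146047116175)), (.ofNat (nat_lit 0)), (.ofNat (nat_lit 4789111374388040398639781139200))⟩,
    ⟨nat_lit 6, nat_lit 14, (.negSucc (nat_lit 1723000447)), (.negSucc (nat_lit 1595782783)), (.negSucc (nat_lit 1723000431)), (.negSucc (nat_lit 1595782799)), (.negSucc (nat_lit 6948380877146047116174)), (.ofNat (nat_lit 0)), (.ofNat (nat_lit 7285905426634293500890316800))⟩,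
    ⟨nat_lit 21, nat_lit 7, (.negSucc (nat_lit 1663395263)), (.negSucc (nat_lit 1433183871)), (.negSucc (nat_lit 1663395247)), (.negSucc (nat_lit 1433183887)), (.ofNat (nat_lit 6948380877146047116175)), (.ofNat (nat_lit 0)), (.ofNat (nat_lit 4774539563534771811638000505600))⟩,
    ⟨nat_lit 7, nat_lit 8, (.negSucc (nat_lit 1433183871)), (.ofNat (nat_lit 243580672)), (.negSucc (nat_lit 1433183855)), (.ofNat (nat_lit 243580656)), (.negSucc (nat_lit 6948380877146047116174)), (.ofNat (nat_lit 0)), (.ofNat (nat_lit 18214763566585733752225792000))⟩,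
    ⟨nat_lit 8, nat_lit 9, (.ofNat (nat_lit 243580672)), (.ofNat (nat_lit 1132608576)), (.ofNat (nat_lit 243580688)), (.ofNat (nat_lit 1132608560)), (.ofNat (nat_lit 6948380877146047116175)), (.ofNat (nat_lit 0)), (.ofNat (nat_lit 0))⟩,
    ⟨nat_lit 10, nat_lit 9, (.ofNat (nat_lit 361239424)), (.ofNat (nat_lit 1132608576)), (.ofNat (nat_lit 361239440)), (.ofNat (nat_lit 1132608560)), (.negSucc (nat_lit 6948380922879881937592)), (.ofNat (nat_lit 0)), (.ofNat (nat_lit 32786574527753974312838627328))⟩,
    ⟨nat_lit 12, nat_lit 11, (.negSucc (nat_lit 528705983)), (.ofNat (nat_lit 14259456)), (.negSucc (nat_lit 528705967)), (.ofNat (nat_lit 14259440)), (.ofNat (nat_lit 6948380877146047116175)), (.ofNat (nat_lit 0)), (.ofNat (nat_lit 4763610705394820371386665030400))⟩,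
    ⟨nat_lit 13, nat_lit 12, (.negSucc (nat_lit 1448228479)), (.negSucc (nat_lit 528705983)), (.negSucc (nat_lit 1448228463)), (.negSucc (nat_lit 528705999)), (.negSucc (nat_lit 6948380877146047116174)), (.ofNat (nat_lit 0)), (.ofNat (nat_lit 21857716279902880502670950400))⟩,
    ⟨nat_lit 14, nat_lit 13, (.negSucc (nat_lit 1595782783)), (.negSucc (nat_lit 1448228479)), (.negSucc (nat_lit 1595782767)), (.negSucc (nat_lit 1448228495)), (.ofNat (nat_lit 6948380877146047116175)), (.ofNat (nat_lit 0)), (.ofNat (nat_lit 4778182516248088958388445664000))⟩,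
    ⟨nat_lit 15, nat_lit 16, (.negSucc (nat_lit 126108543)), (.ofNat (nat_lit 846690816)), (.negSucc (nat_lit 126108527)), (.ofNat (nat_lit 846690800)), (.ofNat (nat_lit 6948380877146047116175)), (.ofNat (nat_lit 0)), (.ofNat (nat_lit 3642952713317146750445158400))⟩,
    ⟨nat_lit 17, nat_lit 16, (.negSucc (nat_lit 574541887)), (.ofNat (nat_lit 846690816)), (.negSucc (nat_lit 574541871)), (.ofNat (nat_lit 846690800)), (.negSucc (nat_lit 6948380877146047116174)), (.ofNat (nat_lit 0)), (.ofNat (nat_lit 29143621706537174003561267200))⟩,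
    ⟨nat_lit 18, nat_lit 17, (.negSucc (nat_lit 1400360575)), (.negSucc (nat_lit 574541887)), (.negSucc (nat_lit 1400360559)), (.negSucc (nat_lit 574541903)), (.ofNat (nat_lit 6948380877146047116175)), (.ofNat (nat_lit 0)), (.ofNat (nat_lit 4767253658108137518137110188800))⟩,
    ⟨nat_lit 19, nat_lit 18, (.negSucc (nat_lit 1606755967)), (.negSucc (nat_lit 1400360575)), (.negSucc (nat_lit 1606755951)), (.negSucc (nat_lit 1400360591)), (.negSucc (nat_lit 6948380877146047116174)), (.ofNat (nat_lit 0)), (.ofNat (nat_lit 10928858139951440251335475200))⟩,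
    ⟨nat_lit 19, nat_lit 20, (.negSucc (nat_lit 1606755967)), (.negSucc (nat_lit 964700095)), (.negSucc (nat_lit 1606755951)), (.negSucc (nat_lit 964700111)), (.ofNat (nat_lit 6948380877146047116175)), (.ofNat (nat_lit 0)), (.ofNat (nat_lit 4781825468961406105138890822400))⟩,
    ⟨nat_lit 20, nat_lit 11, (.negSucc (nat_lit 964700095)), (.ofNat (nat_lit 14259456)), (.negSucc (nat_lit 964700079)), (.ofNat (nat_lit 14259440)), (.negSucc (nat_lit 6948380877146047116174)), (.ofNat (nat_lit 0)), (.ofNat (nat_lit 25500668993220027253116108800))⟩,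
    ⟨nat_lit 0, nat_lit 10, (.negSucc (nat_lit 734669055)), (.ofNat (nat_lit 361239424)), (.negSucc (nat_lit 734669039)), (.ofNat (nat_lit 361239408)), (.ofNat (nat_lit 6948380909456020873382)), (.ofNat (nat_lit 0)), (.ofNat (nat_lit 7285905391322933967477014528))⟩,
    ⟨nat_lit 21, nat_lit 15, (.negSucc (nat_lit 1663395263)), (.negSucc (nat_lit 126108543)), (.negSucc (nat_lit 1663395247)), (.negSucc (nat_lit 126108559)), (.negSucc (nat_lit 6948380877146047116174)), (.ofNat (nat_lit 0)), (.ofNat (nat_lit 0))⟩]

theorem ok84 : stOK 21 21 S84 = true := by decide +kernel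

def S85 : SD where
  vs := [
    ⟨nat_lit 0, nat_lit 0, nat_lit 20, (.ofNat (nat_lit 8)), (.negSucc (nat_lit 734669055)), (.ofNat (nat_lit 5965194780246918225162473191040)), (.ofNat (nat_lit 0)), (.ofNat (nat_lit 91772227519518971736104376064)), (.negSucc (nat_lit 734669071)), (.negSucc (nat_lit 734669039)), (.negSucc (nat_lit 7056949328351454102364)), (.ofNat (nat_lit 7056949328351454102365)), (.negSucc (nat_lit 7056949328351454102364)), (.ofNat (nat_lit 7056949328351454102365)), (.ofNat (nat_lit 651410642103164961958))⟩,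
    ⟨nat_lit 2, nat_lit 0, nat_lit 1, (.ofNat (nat_lit 8)), (.negSucc (nat_lit 1764296127)), (.ofNat (nat_lit 13231220854449792499522936416320)), (.ofNat (nat_lit 0)), (.ofNat (nat_lit 203557243914612192299920193920)), (.negSucc (nat_lit 1764296143)), (.negSucc (nat_lit 1764296111)), (.negSucc (nat_lit 7056949328351454102364)), (.ofNat (nat_lit 7056949328351454102365)), (.negSucc (nat_lit 7056949328351454102364)), (.ofNat (nat_lit 7056949328351454102365)), (.ofNat (nat_lit 651410706723112476372))⟩,
    ⟨nat_lit 0, nat_lit 1, nat_lit 2, (.ofNat (nat_lit 8)), (.negSucc (nat_lit 1611351679)), (.ofNat (nat_lit 14310542074038476397206486835840)), (.ofNat (nat_lit 0)), (.ofNat (nat_lit 220162185754438098418093367040)), (.negSucc (nat_lit 1611351695)), (.negSucc (nat_lit 1611351663)), (.ofNat (nat_lit 7056949328351454102365)), (.negSucc (nat_lit 7056949328351454102364)), (.negSucc (nat_lit 7056949328351454102364)), (.ofNat (nat_lit 7056949328351454102365)), (.ofNat (nat_lit 651410707232441917140))⟩,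
    ⟨nat_lit 0, nat_lit 2, nat_lit 3, (.ofNat (nat_lit 8)), (.negSucc (nat_lit 1404956287)), (.ofNat (nat_lit 12854020251089241313978854533760)), (.ofNat (nat_lit 0)), (.ofNat (nat_lit 197754157709065250983869730560)), (.negSucc (nat_lit 1404956303)), (.negSucc (nat_lit 1404956271)), (.negSucc (nat_lit 7056949328351454102364)), (.ofNat (nat_lit 7056949328351454102365)), (.negSucc (nat_lit 7056949328351454102364)), (.ofNat (nat_lit 7056949328351454102365)), (.ofNat (nat_lit 651410707232441917140))⟩,
    ⟨nat_lit 1, nat_lit 3, nat_lit 4, (.ofNat (nat_lit 8)), (.negSucc (nat_lit 432697663)), (.ofNat (nat_lit 19715200094709950267943404579520)), (.ofNat (nat_lit 0)), (.ofNat (nat_lit 303310770687845388736946133120)), (.negSucc (nat_lit 432697679)), (.negSucc (nat_lit 432697647)), (.ofNat (nat_lit 7056949328351454102365)), (.negSucc (nat_lit 7056949328351454102364)), (.negSucc (nat_lit 7056949328351454102364)), (.ofNat (nat_lit 7056949328351454102365)), (.ofNat (nat_lit 651410707232441917140))⟩,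
    ⟨nat_lit 0, nat_lit 5, nat_lit 4, (.ofNat (nat_lit 8)), (.negSucc (nat_lit 672983359)), (.ofNat (nat_lit 21410884075709611949542233850560)), (.ofNat (nat_lit 0)), (.ofNat (nat_lit 329398216549378645376872671360)), (.negSucc (nat_lit 672983375)), (.negSucc (nat_lit 672983343)), (.ofNat (nat_lit 7056949328351454102365)), (.negSucc (nat_lit 7056949328351454102364)), (.negSucc (nat_lit 7056949328351454102364)), (.ofNat (nat_lit 7056949328351454102365)), (.ofNat (nat_lit 651410707232441917140))⟩,
    ⟨nat_lit 2, nat_lit 6, nat_lit 5, (.ofNat (nat_lit 8)), (.negSucc (nat_lit 1723000447)), (.ofNat (nat_lit 14000966691790462272411282637440)), (.ofNat (nat_lit 0)), (.ofNat (nat_lit 215399487566007111882792656640)), (.negSucc (nat_lit 1723000463)), (.negSucc (nat_lit 1723000431)), (.negSucc (nat_lit 7056949328351454102364)), (.ofNat (nat_lit 7056949328351454102365)), (.negSucc (nat_lit 7056949328351454102364)), (.ofNat (nat_lit 7056949328351454102365)), (.ofNat (nat_lit 651410707232441917140))⟩,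
    ⟨nat_lit 0, nat_lit 7, nat_lit 8, (.ofNat (nat_lit 8)), (.negSucc (nat_lit 1433183871)), (.ofNat (nat_lit 13814469925565981681078074655360)), (.ofNat (nat_lit 0)), (.ofNat (nat_lit 212530306547168948939210940160)), (.negSucc (nat_lit 1433183887)), (.negSucc (nat_lit 1433183855)), (.ofNat (nat_lit 7056949328351454102365)), (.negSucc (nat_lit 7056949328351454102364)), (.negSucc (nat_lit 7056949328351454102364)), (.ofNat (nat_lit 7056949328351454102365)), (.ofNat (nat_lit 651410707232441917140))⟩,
    ⟨nat_lit 0, nat_lit 8, nat_lit 9, (.ofNat (nat_lit 8)), (.ofNat (nat_lit 243580672)), (.ofNat (nat_lit 1981627502981649471389096108800)), (.ofNat (nat_lit 0)), (.ofNat (nat_lit 30486576968948453405921292800)), (.ofNat (nat_lit 243580656)), (.ofNat (nat_lit 243580688)), (.negSucc (nat_lit 7056949328351454102364)), (.ofNat (nat_lit 7056949328351454102365)), (.negSucc (nat_lit 7056949328351454102364)), (.ofNat (nat_lit 7056949328351454102365)), (.ofNat (nat_lit 651410707232441917140))⟩,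
    ⟨nat_lit 1, nat_lit 9, nat_lit 10, (.ofNat (nat_lit 8)), (.ofNat (nat_lit 1132608576)), (.ofNat (nat_lit 8255452373000150487366853501760)), (.ofNat (nat_lit 0)), (.ofNat (nat_lit 127006959584617699805373938560)), (.ofNat (nat_lit 1132608560)), (.ofNat (nat_lit 1132608592)), (.ofNat (nat_lit 7056949328351454102365)), (.negSucc (nat_lit 7056949328351454102364)), (.negSucc (nat_lit 7056949328351454102364)), (.ofNat (nat_lit 7056949328351454102365)), (.ofNat (nat_lit 651410615764772274304))⟩,
    ⟨nat_lit 0, nat_lit 20, nat_lit 10, (.ofNat (nat_lit 8)), (.ofNat (nat_lit 361239424)), (.ofNat (nat_lit 13698965392117581196275064746240)), (.ofNat (nat_lit 0)), (.ofNat (nat_lit 210753278447216480652355851904)), (.ofNat (nat_lit 361239408)), (.ofNat (nat_lit 361239440)), (.ofNat (nat_lit 7056949328351454102365)), (.negSucc (nat_lit 7056949328351454102364)), (.negSucc (nat_lit 7056949328351454102364)), (.ofNat (nat_lit 7056949328351454102365)), (.ofNat (nat_lit 651410486524877245476))⟩,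
    ⟨nat_lit 1, nat_lit 11, nat_lit 19, (.ofNat (nat_lit 8)), (.ofNat (nat_lit 14259456)), (.ofNat (nat_lit 11487137266354186697861915753600)), (.ofNat (nat_lit 0)), (.ofNat (nat_lit 176725188713141333812884601600)), (.ofNat (nat_lit 14259440)), (.ofNat (nat_lit 14259472)), (.ofNat (nat_lit 7056949328351454102365)), (.negSucc (nat_lit 7056949328351454102364)), (.negSucc (nat_lit 7056949328351454102364)), (.ofNat (nat_lit 7056949328351454102365)), (.ofNat (nat_lit 651410707232441917140))⟩,
    ⟨nat_lit 0, nat_lit 12, nat_lit 11, (.ofNat (nat_lit 8)), (.negSucc (nat_lit 528705983)), (.ofNat (nat_lit 7655457669228134946531498488000)), (.ofNat (nat_lit 0)), (.ofNat (nat_lit 117776271834278999177157328000)), (.negSucc (nat_lit 528705999)), (.negSucc (nat_lit 528705967)), (.negSucc (nat_lit 7056949328351454102364)), (.ofNat (nat_lit 7056949328351454102365)), (.negSucc (nat_lit 7056949328351454102364)), (.ofNat (nat_lit 7056949328351454102365)), (.ofNat (nat_lit 651410707232441917140))⟩,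
    ⟨nat_lit 0, nat_lit 13, nat_lit 12, (.ofNat (nat_lit 8)), (.negSucc (nat_lit 1448228479)), (.ofNat (nat_lit 14144481329779387587967602791040)), (.ofNat (nat_lit 0)), (.ofNat (nat_lit 217607405073529039814423658240)), (.negSucc (nat_lit 1448228495)), (.negSucc (nat_lit 1448228463)), (.ofNat (nat_lit 7056949328351454102365)), (.negSucc (nat_lit 7056949328351454102364)), (.negSucc (nat_lit 7056949328351454102364)), (.ofNat (nat_lit 7056949328351454102365)), (.ofNat (nat_lit 651410707232441917140))⟩,
    ⟨nat_lit 0, nat_lit 6, nat_lit 13, (.ofNat (nat_lit 8)), (.negSucc (nat_lit 1595782783)), (.ofNat (nat_lit 13103198083271221310505190462080)), (.ofNat (nat_lit 0)), (.ofNat (nat_lit 201587662819557250930420596480)), (.negSucc (nat_lit 1595782799)), (.negSucc (nat_lit 1595782767)), (.negSucc (nat_lit 7056949328351454102364)), (.ofNat (nat_lit 7056949328351454102365)), (.negSucc (nat_lit 7056949328351454102364)), (.ofNat (nat_lit 7056949328351454102365)), (.ofNat (nat_lit 651410707232441917140))⟩,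
    ⟨nat_lit 0, nat_lit 21, nat_lit 14, (.ofNat (nat_lit 8)), (.negSucc (nat_lit 126108543)), (.ofNat (nat_lit 1341325311225118482693282420480)), (.ofNat (nat_lit 0)), (.ofNat (nat_lit 20635774018847976656775866880)), (.negSucc (nat_lit 126108559)), (.negSucc (nat_lit 126108527)), (.negSucc (nat_lit 7056949328351454102364)), (.ofNat (nat_lit 7056949328351454102365)), (.negSucc (nat_lit 7056949328351454102364)), (.ofNat (nat_lit 7056949328351454102365)), (.ofNat (nat_lit 651410707232441917140))⟩,
    ⟨nat_lit 1, nat_lit 14, nat_lit 15, (.ofNat (nat_lit 8)), (.ofNat (nat_lit 846690816)), (.ofNat (nat_lit 8206321101397842888543328906880)), (.ofNat (nat_lit 0)), (.ofNat (nat_lit 126251093867659121361936705280)), (.ofNat (nat_lit 846690800)), (.ofNat (nat_lit 846690832)), (.ofNat (nat_lit 7056949328351454102365)), (.negSucc (nat_lit 7056949328351454102364)), (.negSucc (nat_lit 7056949328351454102364)), (.ofNat (nat_lit 7056949328351454102365)), (.ofNat (nat_lit 651410707232441917140))⟩,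
    ⟨nat_lit 0, nat_lit 16, nat_lit 15, (.ofNat (nat_lit 8)), (.negSucc (nat_lit 574541887)), (.ofNat (nat_lit 18235888277321763864779430651840)), (.ofNat (nat_lit 0)), (.ofNat (nat_lit 280552127343411751765241063040)), (.negSucc (nat_lit 574541903)), (.negSucc (nat_lit 574541871)), (.ofNat (nat_lit 7056949328351454102365)), (.negSucc (nat_lit 7056949328351454102364)), (.negSucc (nat_lit 7056949328351454102364)), (.ofNat (nat_lit 7056949328351454102365)), (.ofNat (nat_lit 651410707232441917140))⟩,
    ⟨nat_lit 0, nat_lit 17, nat_lit 16, (.ofNat (nat_lit 8)), (.negSucc (nat_lit 1400360575)), (.ofNat (nat_lit 12408127641700084835072148654720)), (.ofNat (nat_lit 0)), (.ofNat (nat_lit 190894271410770535923781144320)), (.negSucc (nat_lit 1400360591)), (.negSucc (nat_lit 1400360559)), (.negSucc (nat_lit 7056949328351454102364)), (.ofNat (nat_lit 7056949328351454102365)), (.negSucc (nat_lit 7056949328351454102364)), (.ofNat (nat_lit 7056949328351454102365)), (.ofNat (nat_lit 651410707232441917140))⟩,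
    ⟨nat_lit 2, nat_lit 17, nat_lit 18, (.ofNat (nat_lit 8)), (.negSucc (nat_lit 1606755967)), (.ofNat (nat_lit 13864649464649319918299780956800)), (.ofNat (nat_lit 0)), (.ofNat (nat_lit 213302299456143383358004780800)), (.negSucc (nat_lit 1606755983)), (.negSucc (nat_lit 1606755951)), (.negSucc (nat_lit 7056949328351454102364)), (.ofNat (nat_lit 7056949328351454102365)), (.negSucc (nat_lit 7056949328351454102364)), (.ofNat (nat_lit 7056949328351454102365)), (.ofNat (nat_lit 651410707232441917140))⟩,
    ⟨nat_lit 0, nat_lit 18, nat_lit 19, (.ofNat (nat_lit 8)), (.negSucc (nat_lit 964700095)), (.ofNat (nat_lit 18395605219323827104461718294080)), (.ofNat (nat_lit 0)), (.ofNat (nat_lit 283009311066520416991117188480)), (.negSucc (nat_lit 964700111)), (.negSucc (nat_lit 964700079)), (.ofNat (nat_lit 7056949328351454102365)), (.negSucc (nat_lit 7056949328351454102364)), (.negSucc (nat_lit 7056949328351454102364)), (.ofNat (nat_lit 7056949328351454102365)), (.ofNat (nat_lit 651410707232441917140))⟩,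
    ⟨nat_lit 2, nat_lit 21, nat_lit 7, (.ofNat (nat_lit 8)), (.negSucc (nat_lit 1663395263)), (.ofNat (nat_lit 12189879797412728366948517513280)), (.ofNat (nat_lit 0)), (.ofNat (nat_lit 187536612267888128721886263680)), (.negSucc (nat_lit 1663395279)), (.negSucc (nat_lit 1663395247)), (.negSucc (nat_lit 7056949328351454102364)), (.ofNat (nat_lit 7056949328351454102365)), (.negSucc (nat_lit 7056949328351454102364)), (.ofNat (nat_lit 7056949328351454102365)), (.ofNat (nat_lit 651410707232441917140))⟩]
  es := [
    ⟨nat_lit 1, nat_lit 0, (.negSucc (nat_lit 1764296127)), (.negSucc (nat_lit 734669055)), (.negSucc (nat_lit 1764296111)), (.negSucc (nat_lit 734669071)), (.negSucc (nat_lit 7056949328351454102364)), (.negSucc (nat_lit 108568451078074625997)), (.ofNat (nat_lit 12010346054607703956600658176))⟩,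
    ⟨nat_lit 1, nat_lit 2, (.negSucc (nat_lit 1764296127)), (.negSucc (nat_lit 1611351679)), (.negSucc (nat_lit 1764296111)), (.negSucc (nat_lit 1611351695)), (.ofNat (nat_lit 7056949328351454102365)), (.ofNat (nat_lit 108568451205406986190)), (.ofNat (nat_lit 395104141999268670699086666240))⟩,
    ⟨nat_lit 2, nat_lit 3, (.negSucc (nat_lit 1611351679)), (.negSucc (nat_lit 1404956287)), (.negSucc (nat_lit 1611351663)), (.negSucc (nat_lit 1404956303)), (.negSucc (nat_lit 7056949328351454102364)), (.negSucc (nat_lit 108568451205406986189)), (.ofNat (nat_lit 45220229509607526137100067840))⟩,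
    ⟨nat_lit 3, nat_lit 4, (.negSucc (nat_lit 1404956287)), (.negSucc (nat_lit 432697663)), (.negSucc (nat_lit 1404956271)), (.negSucc (nat_lit 432697679)), (.ofNat (nat_lit 7056949328351454102365)), (.ofNat (nat_lit 108568451205406986190)), (.ofNat (nat_lit 350288085908522975830639393280))⟩,
    ⟨nat_lit 5, nat_lit 4, (.negSucc (nat_lit 672983359)), (.negSucc (nat_lit 432697663)), (.negSucc (nat_lit 672983343)), (.negSucc (nat_lit 432697679)), (.negSucc (nat_lit 7056949328351454102364)), (.negSucc (nat_lit 108568451205406986189)), (.ofNat (nat_lit 256333455467167801643252872960))⟩,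
    ⟨nat_lit 6, nat_lit 5, (.negSucc (nat_lit 1723000447)), (.negSucc (nat_lit 672983359)), (.negSucc (nat_lit 1723000431)), (.negSucc (nat_lit 672983375)), (.ofNat (nat_lit 7056949328351454102365)), (.ofNat (nat_lit 108568451205406986190)), (.ofNat (nat_lit 402462977631589489110492469760))⟩,
    ⟨nat_lit 6, nat_lit 14, (.negSucc (nat_lit 1723000447)), (.negSucc (nat_lit 1595782783)), (.negSucc (nat_lit 1723000431)), (.negSucc (nat_lit 1595782799)), (.negSucc (nat_lit 7056949328351454102364)), (.negSucc (nat_lit 108568451205406986189)), (.ofNat (nat_lit 28335997500424734655092843520))⟩,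
    ⟨nat_lit 21, nat_lit 7, (.negSucc (nat_lit 1663395263)), (.negSucc (nat_lit 1433183871)), (.negSucc (nat_lit 1663395247)), (.negSucc (nat_lit 1433183887)), (.ofNat (nat_lit 7056949328351454102365)), (.ofNat (nat_lit 108568451205406986190)), (.ofNat (nat_lit 368128859822777200742845667840))⟩,
    ⟨nat_lit 7, nat_lit 8, (.negSucc (nat_lit 1433183871)), (.ofNat (nat_lit 243580672)), (.negSucc (nat_lit 1433183855)), (.ofNat (nat_lit 243580656)), (.negSucc (nat_lit 7056949328351454102364)), (.negSucc (nat_lit 108568451205406986189)), (.ofNat (nat_lit 56931753271560697135576212480))⟩,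
    ⟨nat_lit 8, nat_lit 9, (.ofNat (nat_lit 243580672)), (.ofNat (nat_lit 1132608576)), (.ofNat (nat_lit 243580688)), (.ofNat (nat_lit 1132608560)), (.ofNat (nat_lit 7056949328351454102365)), (.ofNat (nat_lit 108568451205406986190)), (.ofNat (nat_lit 4041400666336209676266373120))⟩,
    ⟨nat_lit 10, nat_lit 9, (.ofNat (nat_lit 361239424)), (.ofNat (nat_lit 1132608576)), (.ofNat (nat_lit 361239440)), (.ofNat (nat_lit 1132608560)), (.negSucc (nat_lit 7056949328351454102364)), (.negSucc (nat_lit 108568405471572164771)), (.ofNat (nat_lit 249972466704365657829026223232))⟩,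
    ⟨nat_lit 12, nat_lit 11, (.negSucc (nat_lit 528705983)), (.ofNat (nat_lit 14259456)), (.negSucc (nat_lit 528705967)), (.ofNat (nat_lit 14259440)), (.ofNat (nat_lit 7056949328351454102365)), (.ofNat (nat_lit 108568451205406986190)), (.ofNat (nat_lit 175177061660189685931215688960))⟩,
    ⟨nat_lit 13, nat_lit 12, (.negSucc (nat_lit 1448228479)), (.negSucc (nat_lit 528705983)), (.negSucc (nat_lit 1448228463)), (.negSucc (nat_lit 528705999)), (.negSucc (nat_lit 7056949328351454102364)), (.negSucc (nat_lit 108568451205406986189)), (.ofNat (nat_lit 60375482008368312423098967040))⟩,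
    ⟨nat_lit 14, nat_lit 13, (.negSucc (nat_lit 1595782783)), (.negSucc (nat_lit 1448228479)), (.negSucc (nat_lit 1595782767)), (.negSucc (nat_lit 1448228495)), (.ofNat (nat_lit 7056949328351454102365)), (.ofNat (nat_lit 108568451205406986190)), (.ofNat (nat_lit 374839328138689767205748349440))⟩,
    ⟨nat_lit 15, nat_lit 16, (.negSucc (nat_lit 126108543)), (.ofNat (nat_lit 846690816)), (.negSucc (nat_lit 126108527)), (.ofNat (nat_lit 846690800)), (.ofNat (nat_lit 7056949328351454102365)), (.ofNat (nat_lit 108568451205406986190)), (.ofNat (nat_lit 34327183324696896612624874240))⟩,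
    ⟨nat_lit 17, nat_lit 16, (.negSucc (nat_lit 574541887)), (.ofNat (nat_lit 846690816)), (.negSucc (nat_lit 574541871)), (.ofNat (nat_lit 846690800)), (.negSucc (nat_lit 7056949328351454102364)), (.negSucc (nat_lit 108568451205406986189)), (.ofNat (nat_lit 218175004410621346111248536320))⟩,
    ⟨nat_lit 18, nat_lit 17, (.negSucc (nat_lit 1400360575)), (.negSucc (nat_lit 574541887)), (.negSucc (nat_lit 1400360559)), (.negSucc (nat_lit 574541903)), (.ofNat (nat_lit 7056949328351454102365)), (.ofNat (nat_lit 108568451205406986190)), (.ofNat (nat_lit 342929250276202157419233589760))⟩,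
    ⟨nat_lit 19, nat_lit 18, (.negSucc (nat_lit 1606755967)), (.negSucc (nat_lit 1400360575)), (.negSucc (nat_lit 1606755951)), (.negSucc (nat_lit 1400360591)), (.negSucc (nat_lit 7056949328351454102364)), (.negSucc (nat_lit 108568451205406986189)), (.ofNat (nat_lit 38859292545338914428328698880))⟩,
    ⟨nat_lit 19, nat_lit 20, (.negSucc (nat_lit 1606755967)), (.negSucc (nat_lit 964700095)), (.negSucc (nat_lit 1606755951)), (.negSucc (nat_lit 964700111)), (.ofNat (nat_lit 7056949328351454102365)), (.ofNat (nat_lit 108568451205406986190)), (.ofNat (nat_lit 387745306366947852287680862720))⟩,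
    ⟨nat_lit 20, nat_lit 11, (.negSucc (nat_lit 964700095)), (.ofNat (nat_lit 14259456)), (.negSucc (nat_lit 964700079)), (.ofNat (nat_lit 14259440)), (.negSucc (nat_lit 7056949328351454102364)), (.negSucc (nat_lit 108568451205406986189)), (.ofNat (nat_lit 178273315766092981694553514240))⟩,
    ⟨nat_lit 0, nat_lit 10, (.negSucc (nat_lit 734669055)), (.ofNat (nat_lit 361239424)), (.negSucc (nat_lit 734669039)), (.ofNat (nat_lit 361239408)), (.ofNat (nat_lit 7056949328351454102365)), (.ofNat (nat_lit 108568418895433228983)), (.ofNat (nat_lit 171534085340839464784076826112))⟩,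
    ⟨nat_lit 21, nat_lit 15, (.negSucc (nat_lit 1663395263)), (.negSucc (nat_lit 126108543)), (.negSucc (nat_lit 1663395247)), (.negSucc (nat_lit 126108559)), (.negSucc (nat_lit 7056949328351454102364)), (.negSucc (nat_lit 108568451205406986189)), (.ofNat (nat_lit 6944364712999056700926859520))⟩]

theorem ok85 : stOK 21 21 S85 = true := by decide +kernel

def S86 : SD where
  vs := [
    ⟨nat_lit 0, nat_lit 0, nat_lit 20, (.ofNat (nat_lit 8)), (.negSucc (nat_lit 734931199)), (.ofNat (nat_lit 5970744591021112315915104302720)), (.negSucc (nat_lit 262143)), (.ofNat (nat_lit 5549810774194090752631111680)), (.negSucc (nat_lit 734931215)), (.negSucc (nat_lit 734931183)), (.negSucc (nat_lit 7056949328351454102364)), (.ofNat (nat_lit 7056949328351454102365)), (.negSucc (nat_lit 7056949328351454102364)), (.ofNat (nat_lit 7056949328351454102365)), (.ofNat (nat_lit 0))⟩,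
    ⟨nat_lit 2, nat_lit 0, nat_lit 1, (.ofNat (nat_lit 8)), (.negSucc (nat_lit 1766393279)), (.ofNat (nat_lit 13249720223697106135365040121920)), (.negSucc (nat_lit 2097151)), (.ofNat (nat_lit 18499369247313635842103705600)), (.negSucc (nat_lit 1766393295)), (.negSucc (nat_lit 1766393263)), (.negSucc (nat_lit 7056949328351454102364)), (.ofNat (nat_lit 7056949328351454102365)), (.negSucc (nat_lit 7056949328351454102364)), (.ofNat (nat_lit 7056949328351454102365)), (.ofNat (nat_lit 0))⟩,
    ⟨nat_lit 0, nat_lit 1, nat_lit 2, (.ofNat (nat_lit 8)), (.negSucc (nat_lit 1612662399)), (.ofNat (nat_lit 14334591254059984123801221653120)), (.negSucc (nat_lit 1310719)), (.ofNat (nat_lit 24049180021507726594734817280)), (.negSucc (nat_lit 1612662415)), (.negSucc (nat_lit 1612662383)), (.ofNat (nat_lit 7056949328351454102365)), (.negSucc (nat_lit 7056949328351454102364)), (.negSucc (nat_lit 7056949328351454102364)), (.ofNat (nat_lit 7056949328351454102365)), (.ofNat (nat_lit 0))⟩,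
    ⟨nat_lit 0, nat_lit 2, nat_lit 3, (.ofNat (nat_lit 8)), (.negSucc (nat_lit 1405218431)), (.ofNat (nat_lit 12870669683411823586236747868800)), (.negSucc (nat_lit 262143)), (.ofNat (nat_lit 16649432322582272257893335040)), (.negSucc (nat_lit 1405218447)), (.negSucc (nat_lit 1405218415)), (.negSucc (nat_lit 7056949328351454102364)), (.ofNat (nat_lit 7056949328351454102365)), (.negSucc (nat_lit 7056949328351454102364)), (.ofNat (nat_lit 7056949328351454102365)), (.ofNat (nat_lit 0))⟩,
    ⟨nat_lit 1, nat_lit 3, nat_lit 4, (.ofNat (nat_lit 8)), (.ofNat (nat_lit 161346560)), (.ofNat (nat_lit 23925839451525124655296541274880)), (.ofNat (nat_lit 594044224)), (.ofNat (nat_lit 4210639356815174387353136695360)), (.ofNat (nat_lit 161346544)), (.ofNat (nat_lit 161346576)), (.ofNat (nat_lit 7056949328351454102365)), (.negSucc (nat_lit 7056949328351454102364)), (.negSucc (nat_lit 7056949328351454102364)), (.ofNat (nat_lit 7056949328351454102365)), (.ofNat (nat_lit 0))⟩,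
    ⟨nat_lit 0, nat_lit 5, nat_lit 4, (.ofNat (nat_lit 8)), (.negSucc (nat_lit 80249855)), (.ofNat (nat_lit 25630773117148443154816422398720)), (.ofNat (nat_lit 592733504)), (.ofNat (nat_lit 4219889041438831205274188548160)), (.negSucc (nat_lit 80249871)), (.negSucc (nat_lit 80249839)), (.ofNat (nat_lit 7056949328351454102365)), (.negSucc (nat_lit 7056949328351454102364)), (.negSucc (nat_lit 7056949328351454102364)), (.ofNat (nat_lit 7056949328351454102365)), (.ofNat (nat_lit 0))⟩,
    ⟨nat_lit 2, nat_lit 6, nat_lit 5, (.ofNat (nat_lit 8)), (.negSucc (nat_lit 1725097599)), (.ofNat (nat_lit 14023165934887238635421807084160)), (.negSucc (nat_lit 2097151)), (.ofNat (nat_lit 22199243096776363010524446720)), (.negSucc (nat_lit 1725097615)), (.negSucc (nat_lit 1725097583)), (.negSucc (nat_lit 7056949328351454102364)), (.ofNat (nat_lit 7056949328351454102365)), (.negSucc (nat_lit 7056949328351454102364)), (.ofNat (nat_lit 7056949328351454102365)), (.ofNat (nat_lit 0))⟩,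
    ⟨nat_lit 0, nat_lit 7, nat_lit 8, (.ofNat (nat_lit 8)), (.negSucc (nat_lit 1433446015)), (.ofNat (nat_lit 13834819231738026680504388731520)), (.negSucc (nat_lit 262143)), (.ofNat (nat_lit 20349306172044999426314076160)), (.negSucc (nat_lit 1433446031)), (.negSucc (nat_lit 1433445999)), (.ofNat (nat_lit 7056949328351454102365)), (.negSucc (nat_lit 7056949328351454102364)), (.negSucc (nat_lit 7056949328351454102364)), (.ofNat (nat_lit 7056949328351454102365)), (.ofNat (nat_lit 0))⟩,
    ⟨nat_lit 0, nat_lit 8, nat_lit 9, (.ofNat (nat_lit 8)), (.ofNat (nat_lit 244891392)), (.ofNat (nat_lit 1990877187605306289310147961600)), (.ofNat (nat_lit 1310720)), (.ofNat (nat_lit 9249684623656817921051852800)), (.ofNat (nat_lit 244891376)), (.ofNat (nat_lit 244891408)), (.negSucc (nat_lit 7056949328351454102364)), (.ofNat (nat_lit 7056949328351454102365)), (.negSucc (nat_lit 7056949328351454102364)), (.ofNat (nat_lit 7056949328351454102365)), (.ofNat (nat_lit 0))⟩,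
    ⟨nat_lit 1, nat_lit 9, nat_lit 10, (.ofNat (nat_lit 8)), (.ofNat (nat_lit 1727701376)), (.ofNat (nat_lit 12454992108266936693214727973760)), (.ofNat (nat_lit 595092800)), (.ofNat (nat_lit 4199539735266786205847874472000)), (.ofNat (nat_lit 1727701360)), (.ofNat (nat_lit 1727701392)), (.ofNat (nat_lit 7056949328351454102365)), (.negSucc (nat_lit 7056949328351454102364)), (.negSucc (nat_lit 7056949328351454102364)), (.ofNat (nat_lit 7056949328351454102365)), (.ofNat (nat_lit 0))⟩,
    ⟨nat_lit 0, nat_lit 20, nat_lit 10, (.ofNat (nat_lit 8)), (.ofNat (nat_lit 955807936)), (.ofNat (nat_lit 17902205001233830129291359959360)), (.ofNat (nat_lit 594568512)), (.ofNat (nat_lit 4203239609116248933016295213120)), (.ofNat (nat_lit 955807920)), (.ofNat (nat_lit 955807952)), (.ofNat (nat_lit 7056949328351454102365)), (.negSucc (nat_lit 7056949328351454102364)), (.negSucc (nat_lit 7056949328351454102364)), (.ofNat (nat_lit 7056949328351454102365)), (.ofNat (nat_lit 0))⟩,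
    ⟨nat_lit 1, nat_lit 11, nat_lit 19, (.ofNat (nat_lit 8)), (.ofNat (nat_lit 15308032)), (.ofNat (nat_lit 11505636635601500333704019459200)), (.ofNat (nat_lit 1048576)), (.ofNat (nat_lit 18499369247313635842103705600)), (.ofNat (nat_lit 15308016)), (.ofNat (nat_lit 15308048)), (.ofNat (nat_lit 7056949328351454102365)), (.negSucc (nat_lit 7056949328351454102364)), (.negSucc (nat_lit 7056949328351454102364)), (.ofNat (nat_lit 7056949328351454102365)), (.ofNat (nat_lit 0))⟩,
    ⟨nat_lit 0, nat_lit 12, nat_lit 11, (.ofNat (nat_lit 8)), (.negSucc (nat_lit 527919551)), (.ofNat (nat_lit 7672107101550717218789391823040)), (.ofNat (nat_lit 786432)), (.ofNat (nat_lit 16649432322582272257893335040)), (.negSucc (nat_lit 527919567)), (.negSucc (nat_lit 527919535)), (.negSucc (nat_lit 7056949328351454102364)), (.ofNat (nat_lit 7056949328351454102365)), (.negSucc (nat_lit 7056949328351454102364)), (.ofNat (nat_lit 7056949328351454102365)), (.ofNat (nat_lit 0))⟩,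
    ⟨nat_lit 0, nat_lit 13, nat_lit 12, (.ofNat (nat_lit 8)), (.negSucc (nat_lit 1448490623)), (.ofNat (nat_lit 14168530509800895314562337608320)), (.negSucc (nat_lit 262143)), (.ofNat (nat_lit 24049180021507726594734817280)), (.negSucc (nat_lit 1448490639)), (.negSucc (nat_lit 1448490607)), (.ofNat (nat_lit 7056949328351454102365)), (.negSucc (nat_lit 7056949328351454102364)), (.negSucc (nat_lit 7056949328351454102364)), (.ofNat (nat_lit 7056949328351454102365)), (.ofNat (nat_lit 0))⟩,
    ⟨nat_lit 0, nat_lit 6, nat_lit 13, (.ofNat (nat_lit 8)), (.negSucc (nat_lit 1597093503)), (.ofNat (nat_lit 13119847515593803582763083797120)), (.negSucc (nat_lit 1310719)), (.ofNat (nat_lit 16649432322582272257893335040)), (.negSucc (nat_lit 1597093519)), (.negSucc (nat_lit 1597093487)), (.negSucc (nat_lit 7056949328351454102364)), (.ofNat (nat_lit 7056949328351454102365)), (.negSucc (nat_lit 7056949328351454102364)), (.ofNat (nat_lit 7056949328351454102365)), (.ofNat (nat_lit 0))⟩,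
    ⟨nat_lit 0, nat_lit 21, nat_lit 14, (.ofNat (nat_lit 8)), (.negSucc (nat_lit 126370687)), (.ofNat (nat_lit 1343175248149849846277492791040)), (.negSucc (nat_lit 262143)), (.ofNat (nat_lit 1849936924731363584210370560)), (.negSucc (nat_lit 126370703)), (.negSucc (nat_lit 126370671)), (.negSucc (nat_lit 7056949328351454102364)), (.ofNat (nat_lit 7056949328351454102365)), (.negSucc (nat_lit 7056949328351454102364)), (.ofNat (nat_lit 7056949328351454102365)), (.ofNat (nat_lit 0))⟩,
    ⟨nat_lit 1, nat_lit 14, nat_lit 15, (.ofNat (nat_lit 8)), (.ofNat (nat_lit 1441259328)), (.ofNat (nat_lit 12405860836664629094391203378880)), (.ofNat (nat_lit 594568512)), (.ofNat (nat_lit 4199539735266786205847874472000)), (.ofNat (nat_lit 1441259312)), (.ofNat (nat_lit 1441259344)), (.ofNat (nat_lit 7056949328351454102365)), (.negSucc (nat_lit 7056949328351454102364)), (.negSucc (nat_lit 7056949328351454102364)), (.ofNat (nat_lit 7056949328351454102365)), (.ofNat (nat_lit 0))⟩,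
    ⟨nat_lit 0, nat_lit 16, nat_lit 15, (.ofNat (nat_lit 8)), (.ofNat (nat_lit 19240192)), (.ofNat (nat_lit 22440977823362744161379936235520)), (.ofNat (nat_lit 593782080)), (.ofNat (nat_lit 4205089546040980296600505583680)), (.ofNat (nat_lit 19240176)), (.ofNat (nat_lit 19240208)), (.ofNat (nat_lit 7056949328351454102365)), (.negSucc (nat_lit 7056949328351454102364)), (.negSucc (nat_lit 7056949328351454102364)), (.ofNat (nat_lit 7056949328351454102365)), (.ofNat (nat_lit 0))⟩,
    ⟨nat_lit 0, nat_lit 17, nat_lit 16, (.ofNat (nat_lit 8)), (.negSucc (nat_lit 1400622719)), (.ofNat (nat_lit 12421077200173204380161621248640)), (.negSucc (nat_lit 262143)), (.ofNat (nat_lit 12949558473119545089472593920)), (.negSucc (nat_lit 1400622735)), (.negSucc (nat_lit 1400622703)), (.negSucc (nat_lit 7056949328351454102364)), (.ofNat (nat_lit 7056949328351454102365)), (.negSucc (nat_lit 7056949328351454102364)), (.ofNat (nat_lit 7056949328351454102365)), (.ofNat (nat_lit 0))⟩,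
    ⟨nat_lit 2, nat_lit 17, nat_lit 18, (.ofNat (nat_lit 8)), (.negSucc (nat_lit 1608066687)), (.ofNat (nat_lit 13884998770821364917726095032960)), (.negSucc (nat_lit 1310719)), (.ofNat (nat_lit 20349306172044999426314076160)), (.negSucc (nat_lit 1608066703)), (.negSucc (nat_lit 1608066671)), (.negSucc (nat_lit 7056949328351454102364)), (.ofNat (nat_lit 7056949328351454102365)), (.negSucc (nat_lit 7056949328351454102364)), (.ofNat (nat_lit 7056949328351454102365)), (.ofNat (nat_lit 0))⟩,
    ⟨nat_lit 0, nat_lit 18, nat_lit 19, (.ofNat (nat_lit 8)), (.negSucc (nat_lit 964962239)), (.ofNat (nat_lit 18423354273194797558224873852480)), (.negSucc (nat_lit 262143)), (.ofNat (nat_lit 27749053870970453763155558400)), (.negSucc (nat_lit 964962255)), (.negSucc (nat_lit 964962223)), (.ofNat (nat_lit 7056949328351454102365)), (.negSucc (nat_lit 7056949328351454102364)), (.negSucc (nat_lit 7056949328351454102364)), (.ofNat (nat_lit 7056949328351454102365)), (.ofNat (nat_lit 0))⟩,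
    ⟨nat_lit 2, nat_lit 21, nat_lit 7, (.ofNat (nat_lit 8)), (.negSucc (nat_lit 1664968127)), (.ofNat (nat_lit 12200979418961116548453779736640)), (.negSucc (nat_lit 1572863)), (.ofNat (nat_lit 11099621548388181505262223360)), (.negSucc (nat_lit 1664968143)), (.negSucc (nat_lit 1664968111)), (.negSucc (nat_lit 7056949328351454102364)), (.ofNat (nat_lit 7056949328351454102365)), (.negSucc (nat_lit 7056949328351454102364)), (.ofNat (nat_lit 7056949328351454102365)), (.ofNat (nat_lit 0))⟩]
  es := [
    ⟨nat_lit 1, nat_lit 0, (.negSucc (nat_lit 1766393279)), (.negSucc (nat_lit 734931199)), (.negSucc (nat_lit 1766393263)), (.negSucc (nat_lit 734931215)), (.negSucc (nat_lit 7056949328351454102364)), (.ofNat (nat_lit 0)), (.ofNat (nat_lit 3699873849462727168420741120))⟩,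
    ⟨nat_lit 1, nat_lit 2, (.negSucc (nat_lit 1766393279)), (.negSucc (nat_lit 1612662399)), (.negSucc (nat_lit 1766393263)), (.negSucc (nat_lit 1612662415)), (.ofNat (nat_lit 7056949328351454102365)), (.ofNat (nat_lit 0)), (.ofNat (nat_lit 33298864645164544515786670080))⟩,
    ⟨nat_lit 2, nat_lit 3, (.negSucc (nat_lit 1612662399)), (.negSucc (nat_lit 1405218431)), (.negSucc (nat_lit 1612662383)), (.negSucc (nat_lit 1405218447)), (.negSucc (nat_lit 7056949328351454102364)), (.ofNat (nat_lit 0)), (.ofNat (nat_lit 14799495397850908673682964480))⟩,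
    ⟨nat_lit 3, nat_lit 4, (.negSucc (nat_lit 1405218431)), (.ofNat (nat_lit 161346560)), (.negSucc (nat_lit 1405218415)), (.ofNat (nat_lit 161346544)), (.ofNat (nat_lit 7056949328351454102365)), (.ofNat (nat_lit 0)), (.ofNat (nat_lit 18499369247313635842103705600))⟩,
    ⟨nat_lit 5, nat_lit 4, (.negSucc (nat_lit 80249855)), (.ofNat (nat_lit 161346560)), (.negSucc (nat_lit 80249839)), (.ofNat (nat_lit 161346544)), (.negSucc (nat_lit 7056949328351454102364)), (.ofNat (nat_lit 0)), (.ofNat (nat_lit 8402779344383035138864169685120))⟩,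
    ⟨nat_lit 6, nat_lit 5, (.negSucc (nat_lit 1725097599)), (.negSucc (nat_lit 80249855)), (.negSucc (nat_lit 1725097583)), (.negSucc (nat_lit 80249871)), (.ofNat (nat_lit 7056949328351454102365)), (.ofNat (nat_lit 0)), (.ofNat (nat_lit 36998738494627271684207411200))⟩,
    ⟨nat_lit 6, nat_lit 14, (.negSucc (nat_lit 1725097599)), (.negSucc (nat_lit 1597093503)), (.negSucc (nat_lit 1725097583)), (.negSucc (nat_lit 1597093519)), (.negSucc (nat_lit 7056949328351454102364)), (.ofNat (nat_lit 0)), (.ofNat (nat_lit 7399747698925454336841482240))⟩,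
    ⟨nat_lit 21, nat_lit 7, (.negSucc (nat_lit 1664968127)), (.negSucc (nat_lit 1433446015)), (.negSucc (nat_lit 1664968111)), (.negSucc (nat_lit 1433446031)), (.ofNat (nat_lit 7056949328351454102365)), (.ofNat (nat_lit 0)), (.ofNat (nat_lit 22199243096776363010524446720))⟩,
    ⟨nat_lit 7, nat_lit 8, (.negSucc (nat_lit 1433446015)), (.ofNat (nat_lit 244891392)), (.negSucc (nat_lit 1433445999)), (.ofNat (nat_lit 244891376)), (.negSucc (nat_lit 7056949328351454102364)), (.ofNat (nat_lit 0)), (.ofNat (nat_lit 18499369247313635842103705600))⟩,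
    ⟨nat_lit 8, nat_lit 9, (.ofNat (nat_lit 244891392)), (.ofNat (nat_lit 1727701376)), (.ofNat (nat_lit 244891408)), (.ofNat (nat_lit 1727701360)), (.ofNat (nat_lit 7056949328351454102365)), (.ofNat (nat_lit 0)), (.ofNat (nat_lit 0))⟩,
    ⟨nat_lit 10, nat_lit 9, (.ofNat (nat_lit 955807936)), (.ofNat (nat_lit 1727701376)), (.ofNat (nat_lit 955807952)), (.ofNat (nat_lit 1727701360)), (.negSucc (nat_lit 7056949328351454102364)), (.ofNat (nat_lit 0)), (.ofNat (nat_lit 8399079470533572411695748944000))⟩,
    ⟨nat_lit 12, nat_lit 11, (.negSucc (nat_lit 527919551)), (.ofNat (nat_lit 15308032)), (.negSucc (nat_lit 527919535)), (.ofNat (nat_lit 15308016)), (.ofNat (nat_lit 7056949328351454102365)), (.ofNat (nat_lit 0)), (.ofNat (nat_lit 11099621548388181505262223360))⟩,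
    ⟨nat_lit 13, nat_lit 12, (.negSucc (nat_lit 1448490623)), (.negSucc (nat_lit 527919551)), (.negSucc (nat_lit 1448490607)), (.negSucc (nat_lit 527919567)), (.negSucc (nat_lit 7056949328351454102364)), (.ofNat (nat_lit 0)), (.ofNat (nat_lit 22199243096776363010524446720))⟩,
    ⟨nat_lit 14, nat_lit 13, (.negSucc (nat_lit 1597093503)), (.negSucc (nat_lit 1448490623)), (.negSucc (nat_lit 1597093487)), (.negSucc (nat_lit 1448490639)), (.ofNat (nat_lit 7056949328351454102365)), (.ofNat (nat_lit 0)), (.ofNat (nat_lit 25899116946239090178945187840))⟩,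
    ⟨nat_lit 15, nat_lit 16, (.negSucc (nat_lit 126370687)), (.ofNat (nat_lit 1441259328)), (.negSucc (nat_lit 126370671)), (.ofNat (nat_lit 1441259312)), (.ofNat (nat_lit 7056949328351454102365)), (.ofNat (nat_lit 0)), (.ofNat (nat_lit 3699873849462727168420741120))⟩,
    ⟨nat_lit 17, nat_lit 16, (.ofNat (nat_lit 19240192)), (.ofNat (nat_lit 1441259328)), (.ofNat (nat_lit 19240208)), (.ofNat (nat_lit 1441259312)), (.negSucc (nat_lit 7056949328351454102364)), (.ofNat (nat_lit 0)), (.ofNat (nat_lit 8395379596684109684527328202880))⟩,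
    ⟨nat_lit 18, nat_lit 17, (.negSucc (nat_lit 1400622719)), (.ofNat (nat_lit 19240192)), (.negSucc (nat_lit 1400622703)), (.ofNat (nat_lit 19240176)), (.ofNat (nat_lit 7056949328351454102365)), (.ofNat (nat_lit 0)), (.ofNat (nat_lit 14799495397850908673682964480))⟩,
    ⟨nat_lit 19, nat_lit 18, (.negSucc (nat_lit 1608066687)), (.negSucc (nat_lit 1400622719)), (.negSucc (nat_lit 1608066671)), (.negSucc (nat_lit 1400622735)), (.negSucc (nat_lit 7056949328351454102364)), (.ofNat (nat_lit 0)), (.ofNat (nat_lit 11099621548388181505262223360))⟩,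
    ⟨nat_lit 19, nat_lit 20, (.negSucc (nat_lit 1608066687)), (.negSucc (nat_lit 964962239)), (.negSucc (nat_lit 1608066671)), (.negSucc (nat_lit 964962255)), (.ofNat (nat_lit 7056949328351454102365)), (.ofNat (nat_lit 0)), (.ofNat (nat_lit 29598990795701817347365928960))⟩,
    ⟨nat_lit 20, nat_lit 11, (.negSucc (nat_lit 964962239)), (.ofNat (nat_lit 15308032)), (.negSucc (nat_lit 964962223)), (.ofNat (nat_lit 15308016)), (.negSucc (nat_lit 7056949328351454102364)), (.ofNat (nat_lit 0)), (.ofNat (nat_lit 25899116946239090178945187840))⟩,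
    ⟨nat_lit 0, nat_lit 10, (.negSucc (nat_lit 734931199)), (.ofNat (nat_lit 955807936)), (.negSucc (nat_lit 734931183)), (.ofNat (nat_lit 955807920)), (.ofNat (nat_lit 7056949328351454102365)), (.ofNat (nat_lit 0)), (.ofNat (nat_lit 7399747698925454336841482240))⟩,
    ⟨nat_lit 21, nat_lit 15, (.negSucc (nat_lit 1664968127)), (.negSucc (nat_lit 126370687)), (.negSucc (nat_lit 1664968111)), (.negSucc (nat_lit 126370703)), (.negSucc (nat_lit 7056949328351454102364)), (.ofNat (nat_lit 0)), (.ofNat (nat_lit 0))⟩]

theorem ok86 : stOK 21 21 S86 = true := by decide +kernel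

def S87 : SD where
  vs := [
    ⟨nat_lit 0, nat_lit 0, nat_lit 20, (.ofNat (nat_lit 8)), (.negSucc (nat_lit 734931199)), (.ofNat (nat_lit 6064037475255817195850894427392)), (.ofNat (nat_lit 0)), (.ofNat (nat_lit 93292884234704879935790124672)), (.negSucc (nat_lit 734931215)), (.negSucc (nat_lit 734931183)), (.negSucc (nat_lit 7167214161606945572713)), (.ofNat (nat_lit 7167214161606945572714)), (.negSucc (nat_lit 7167214161606945572713)), (.ofNat (nat_lit 7167214161606945572714)), (.ofNat (nat_lit 661588999532948822094))⟩,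
    ⟨nat_lit 2, nat_lit 0, nat_lit 1, (.ofNat (nat_lit 8)), (.negSucc (nat_lit 1766393279)), (.ofNat (nat_lit 13456747102192373418729268112512)), (.ofNat (nat_lit 0)), (.ofNat (nat_lit 207026878495267283364227990592)), (.negSucc (nat_lit 1766393295)), (.negSucc (nat_lit 1766393263)), (.negSucc (nat_lit 7167214161606945572713)), (.ofNat (nat_lit 7167214161606945572714)), (.negSucc (nat_lit 7167214161606945572713)), (.ofNat (nat_lit 7167214161606945572714)), (.ofNat (nat_lit 661588999532948822094))⟩,
    ⟨nat_lit 0, nat_lit 1, nat_lit 2, (.ofNat (nat_lit 8)), (.negSucc (nat_lit 1612662399)), (.ofNat (nat_lit 14558569242404671375734695320832)), (.ofNat (nat_lit 0)), (.ofNat (nat_lit 223977988344687251933473667712)), (.negSucc (nat_lit 1612662415)), (.negSucc (nat_lit 1612662383)), (.ofNat (nat_lit 7167214161606945572714)), (.negSucc (nat_lit 7167214161606945572713)), (.negSucc (nat_lit 7167214161606945572713)), (.ofNat (nat_lit 7167214161606945572714)), (.ofNat (nat_lit 661588999532948822094))⟩,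
    ⟨nat_lit 0, nat_lit 2, nat_lit 3, (.ofNat (nat_lit 8)), (.negSucc (nat_lit 1405218431)), (.ofNat (nat_lit 13071773897215133329770870631680)), (.ofNat (nat_lit 0)), (.ofNat (nat_lit 201104213803309743534122762880)), (.negSucc (nat_lit 1405218447)), (.negSucc (nat_lit 1405218415)), (.negSucc (nat_lit 7167214161606945572713)), (.ofNat (nat_lit 7167214161606945572714)), (.negSucc (nat_lit 7167214161606945572713)), (.ofNat (nat_lit 7167214161606945572714)), (.ofNat (nat_lit 661588999532948822094))⟩,
    ⟨nat_lit 1, nat_lit 3, nat_lit 4, (.ofNat (nat_lit 8)), (.ofNat (nat_lit 161346560)), (.ofNat (nat_lit 24299680692955204728034013459968)), (.ofNat (nat_lit 0)), (.ofNat (nat_lit 373841241430080072737472185088)), (.ofNat (nat_lit 161346544)), (.ofNat (nat_lit 161346576)), (.ofNat (nat_lit 7167214161606945572714)), (.negSucc (nat_lit 7167214161606945572713)), (.negSucc (nat_lit 7167214161606945572713)), (.ofNat (nat_lit 7167214161606945572714)), (.ofNat (nat_lit 661588999532948822094))⟩,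
    ⟨nat_lit 0, nat_lit 5, nat_lit 4, (.ofNat (nat_lit 8)), (.negSucc (nat_lit 80249855)), (.ofNat (nat_lit 26031253947103887579108783252992)), (.ofNat (nat_lit 0)), (.ofNat (nat_lit 400480829955444424292360854272)), (.negSucc (nat_lit 80249871)), (.negSucc (nat_lit 80249839)), (.ofNat (nat_lit 7167214161606945572714)), (.negSucc (nat_lit 7167214161606945572713)), (.negSucc (nat_lit 7167214161606945572713)), (.ofNat (nat_lit 7167214161606945572714)), (.ofNat (nat_lit 661588999532948822094))⟩,
    ⟨nat_lit 2, nat_lit 6, nat_lit 5, (.ofNat (nat_lit 8)), (.negSucc (nat_lit 1725097599)), (.ofNat (nat_lit 14242277902619851739099372395776)), (.ofNat (nat_lit 0)), (.ofNat (nat_lit 219111967732613103677565311616)), (.negSucc (nat_lit 1725097615)), (.negSucc (nat_lit 1725097583)), (.negSucc (nat_lit 7167214161606945572713)), (.ofNat (nat_lit 7167214161606945572714)), (.negSucc (nat_lit 7167214161606945572713)), (.ofNat (nat_lit 7167214161606945572714)), (.ofNat (nat_lit 661588999532948822094))⟩,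
    ⟨nat_lit 0, nat_lit 7, nat_lit 8, (.ofNat (nat_lit 8)), (.negSucc (nat_lit 1433446015)), (.ofNat (nat_lit 14050988282233933347386381475072)), (.ofNat (nat_lit 0)), (.ofNat (nat_lit 216169050495906666881992743552)), (.negSucc (nat_lit 1433446031)), (.negSucc (nat_lit 1433445999)), (.ofNat (nat_lit 7167214161606945572714)), (.negSucc (nat_lit 7167214161606945572713)), (.negSucc (nat_lit 7167214161606945572713)), (.ofNat (nat_lit 7167214161606945572714)), (.ofNat (nat_lit 661588999532948822094))⟩,
    ⟨nat_lit 0, nat_lit 8, nat_lit 9, (.ofNat (nat_lit 8)), (.ofNat (nat_lit 244891392)), (.ofNat (nat_lit 2021984643661639200080491189760)), (.ofNat (nat_lit 0)), (.ofNat (nat_lit 31107456056332910770343228160)), (.ofNat (nat_lit 244891376)), (.ofNat (nat_lit 244891408)), (.negSucc (nat_lit 7167214161606945572713)), (.ofNat (nat_lit 7167214161606945572714)), (.negSucc (nat_lit 7167214161606945572713)), (.ofNat (nat_lit 7167214161606945572714)), (.ofNat (nat_lit 661588999532948822094))⟩,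
    ⟨nat_lit 1, nat_lit 9, nat_lit 10, (.ofNat (nat_lit 8)), (.ofNat (nat_lit 1727701376)), (.ofNat (nat_lit 12649601359958607579045408366336)), (.ofNat (nat_lit 0)), (.ofNat (nat_lit 194609251691670885830680392576)), (.ofNat (nat_lit 1727701360)), (.ofNat (nat_lit 1727701392)), (.ofNat (nat_lit 7167214161606945572714)), (.negSucc (nat_lit 7167214161606945572713)), (.negSucc (nat_lit 7167214161606945572713)), (.ofNat (nat_lit 7167214161606945572714)), (.ofNat (nat_lit 661588999532948822094))⟩,
    ⟨nat_lit 0, nat_lit 20, nat_lit 10, (.ofNat (nat_lit 8)), (.ofNat (nat_lit 955807936)), (.ofNat (nat_lit 18181926954378108725060387962496)), (.ofNat (nat_lit 0)), (.ofNat (nat_lit 279721953144278595769028003136)), (.ofNat (nat_lit 955807920)), (.ofNat (nat_lit 955807952)), (.ofNat (nat_lit 7167214161606945572714)), (.negSucc (nat_lit 7167214161606945572713)), (.negSucc (nat_lit 7167214161606945572713)), (.ofNat (nat_lit 7167214161606945572714)), (.ofNat (nat_lit 661588999532948822094))⟩,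
    ⟨nat_lit 1, nat_lit 11, nat_lit 19, (.ofNat (nat_lit 8)), (.ofNat (nat_lit 15308032)), (.ofNat (nat_lit 11685412208032773776417405989120)), (.ofNat (nat_lit 0)), (.ofNat (nat_lit 179775572431273442713386529920)), (.ofNat (nat_lit 15308016)), (.ofNat (nat_lit 15308048)), (.ofNat (nat_lit 7167214161606945572714)), (.negSucc (nat_lit 7167214161606945572713)), (.negSucc (nat_lit 7167214161606945572713)), (.ofNat (nat_lit 7167214161606945572714)), (.ofNat (nat_lit 661588999532948822094))⟩,
    ⟨nat_lit 0, nat_lit 12, nat_lit 11, (.ofNat (nat_lit 8)), (.negSucc (nat_lit 527919551)), (.ofNat (nat_lit 7791983775012447175332483446144)), (.ofNat (nat_lit 0)), (.ofNat (nat_lit 119876673461729956543091623104)), (.negSucc (nat_lit 527919567)), (.negSucc (nat_lit 527919535)), (.negSucc (nat_lit 7167214161606945572713)), (.ofNat (nat_lit 7167214161606945572714)), (.negSucc (nat_lit 7167214161606945572713)), (.ofNat (nat_lit 7167214161606945572714)), (.ofNat (nat_lit 661588999532948822094))⟩,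
    ⟨nat_lit 0, nat_lit 13, nat_lit 12, (.ofNat (nat_lit 8)), (.negSucc (nat_lit 1448490623)), (.ofNat (nat_lit 14389913799016534303851464375552)), (.ofNat (nat_lit 0)), (.ofNat (nat_lit 221383289215638989289126767232)), (.negSucc (nat_lit 1448490639)), (.negSucc (nat_lit 1448490607)), (.ofNat (nat_lit 7167214161606945572714)), (.negSucc (nat_lit 7167214161606945572713)), (.negSucc (nat_lit 7167214161606945572713)), (.ofNat (nat_lit 7167214161606945572714)), (.ofNat (nat_lit 661588999532948822094))⟩,
    ⟨nat_lit 0, nat_lit 6, nat_lit 13, (.ofNat (nat_lit 8)), (.negSucc (nat_lit 1597093503)), (.ofNat (nat_lit 13324845133024956763742914559232)), (.ofNat (nat_lit 0)), (.ofNat (nat_lit 204997617431153180979830762112)), (.negSucc (nat_lit 1597093519)), (.negSucc (nat_lit 1597093487)), (.negSucc (nat_lit 7167214161606945572713)), (.ofNat (nat_lit 7167214161606945572714)), (.negSucc (nat_lit 7167214161606945572713)), (.ofNat (nat_lit 7167214161606945572714)), (.ofNat (nat_lit 661588999532948822094))⟩,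
    ⟨nat_lit 0, nat_lit 21, nat_lit 14, (.ofNat (nat_lit 8)), (.negSucc (nat_lit 126370687)), (.ofNat (nat_lit 1364162361402191250125492370944)), (.ofNat (nat_lit 0)), (.ofNat (nat_lit 20987113252341403847999579904)), (.negSucc (nat_lit 126370703)), (.negSucc (nat_lit 126370671)), (.negSucc (nat_lit 7167214161606945572713)), (.ofNat (nat_lit 7167214161606945572714)), (.negSucc (nat_lit 7167214161606945572713)), (.ofNat (nat_lit 7167214161606945572714)), (.ofNat (nat_lit 661588999532948822094))⟩,
    ⟨nat_lit 1, nat_lit 14, nat_lit 15, (.ofNat (nat_lit 8)), (.ofNat (nat_lit 1441259328)), (.ofNat (nat_lit 12599702412237513923990269354368)), (.ofNat (nat_lit 0)), (.ofNat (nat_lit 193841575572884829599065975488)), (.ofNat (nat_lit 1441259312)), (.ofNat (nat_lit 1441259344)), (.ofNat (nat_lit 7167214161606945572714)), (.negSucc (nat_lit 7167214435617122928115)), (.negSucc (nat_lit 7167214435617122928115)), (.ofNat (nat_lit 7167214161606945572714)), (.ofNat (nat_lit 661589547553303532898))⟩,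
    ⟨nat_lit 0, nat_lit 16, nat_lit 15, (.ofNat (nat_lit 8)), (.ofNat (nat_lit 19240192)), (.ofNat (nat_lit 22791618491500502697035573782144)), (.ofNat (nat_lit 0)), (.ofNat (nat_lit 350640668137758535655637546624)), (.ofNat (nat_lit 19240176)), (.ofNat (nat_lit 19240208)), (.ofNat (nat_lit 7167214436073168728821)), (.negSucc (nat_lit 7167214435617122928115)), (.negSucc (nat_lit 7167214435617122928115)), (.ofNat (nat_lit 7167214436073168728821)), (.ofNat (nat_lit 661590645418196157326))⟩,
    ⟨nat_lit 0, nat_lit 17, nat_lit 16, (.ofNat (nat_lit 8)), (.negSucc (nat_lit 1400622719)), (.ofNat (nat_lit 12615156531369215500664450395392)), (.ofNat (nat_lit 0)), (.ofNat (nat_lit 194079331196011120502829146752)), (.negSucc (nat_lit 1400622735)), (.negSucc (nat_lit 1400622703)), (.negSucc (nat_lit 7167214161880249243497)), (.ofNat (nat_lit 7167214436073168728821)), (.negSucc (nat_lit 7167214161880249243497)), (.ofNat (nat_lit 7167214436073168728821)), (.ofNat (nat_lit 661589549558609817444))⟩,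
    ⟨nat_lit 2, nat_lit 17, nat_lit 18, (.ofNat (nat_lit 8)), (.negSucc (nat_lit 1608066687)), (.ofNat (nat_lit 14101951876615448744564673715456)), (.ofNat (nat_lit 0)), (.ofNat (nat_lit 216953105794083826838578682496)), (.negSucc (nat_lit 1608066703)), (.negSucc (nat_lit 1608066671)), (.negSucc (nat_lit 7167214161880249243497)), (.ofNat (nat_lit 7167214161606945572714)), (.negSucc (nat_lit 7167214161880249243497)), (.ofNat (nat_lit 7167214161606945572714)), (.ofNat (nat_lit 661589000626163505230))⟩,
    ⟨nat_lit 0, nat_lit 18, nat_lit 19, (.ofNat (nat_lit 8)), (.negSucc (nat_lit 964962239)), (.ofNat (nat_lit 18711219183713466270070954547328)), (.ofNat (nat_lit 0)), (.ofNat (nat_lit 287864910518668711846080694848)), (.negSucc (nat_lit 964962255)), (.negSucc (nat_lit 964962223)), (.ofNat (nat_lit 7167214161606945572714)), (.negSucc (nat_lit 7167214161606945572713)), (.negSucc (nat_lit 7167214161606945572713)), (.ofNat (nat_lit 7167214161606945572714)), (.ofNat (nat_lit 661588999532948822094))⟩,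
    ⟨nat_lit 2, nat_lit 21, nat_lit 7, (.ofNat (nat_lit 8)), (.negSucc (nat_lit 1664968127)), (.ofNat (nat_lit 12391619722382383994522586623104)), (.ofNat (nat_lit 0)), (.ofNat (nat_lit 190640303421267446068806886464)), (.negSucc (nat_lit 1664968143)), (.negSucc (nat_lit 1664968111)), (.negSucc (nat_lit 7167214161606945572713)), (.ofNat (nat_lit 7167214161606945572714)), (.negSucc (nat_lit 7167214161606945572713)), (.ofNat (nat_lit 7167214161606945572714)), (.ofNat (nat_lit 661588999532948822094))⟩]
  es := [
    ⟨nat_lit 1, nat_lit 0, (.negSucc (nat_lit 1766393279)), (.negSucc (nat_lit 734931199)), (.negSucc (nat_lit 1766393263)), (.negSucc (nat_lit 734931215)), (.negSucc (nat_lit 7167214161606945572713)), (.negSucc (nat_lit 110264833255491470348)), (.ofNat (nat_lit 12255818012446627042435135872))⟩,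
    ⟨nat_lit 1, nat_lit 2, (.negSucc (nat_lit 1766393279)), (.negSucc (nat_lit 1612662399)), (.negSucc (nat_lit 1766393263)), (.negSucc (nat_lit 1612662415)), (.ofNat (nat_lit 7167214161606945572714)), (.ofNat (nat_lit 110264833255491470349)), (.ofNat (nat_lit 401797938978087939686020845312))⟩,
    ⟨nat_lit 2, nat_lit 3, (.negSucc (nat_lit 1612662399)), (.negSucc (nat_lit 1405218431)), (.negSucc (nat_lit 1612662383)), (.negSucc (nat_lit 1405218447)), (.negSucc (nat_lit 7167214161606945572713)), (.negSucc (nat_lit 110264833255491470348)), (.ofNat (nat_lit 46158037711286564180926490112))⟩,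
    ⟨nat_lit 3, nat_lit 4, (.negSucc (nat_lit 1405218431)), (.ofNat (nat_lit 161346560)), (.negSucc (nat_lit 1405218415)), (.ofNat (nat_lit 161346544)), (.ofNat (nat_lit 7167214161606945572714)), (.ofNat (nat_lit 110264833255491470349)), (.ofNat (nat_lit 356050389895332922887319035648))⟩,
    ⟨nat_lit 5, nat_lit 4, (.negSucc (nat_lit 80249855)), (.ofNat (nat_lit 161346560)), (.negSucc (nat_lit 80249839)), (.ofNat (nat_lit 161346544)), (.negSucc (nat_lit 7167214161606945572713)), (.negSucc (nat_lit 110264833255491470348)), (.ofNat (nat_lit 391632092964827222587625334528))⟩,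
    ⟨nat_lit 6, nat_lit 5, (.negSucc (nat_lit 1725097599)), (.negSucc (nat_lit 80249855)), (.negSucc (nat_lit 1725097583)), (.negSucc (nat_lit 80249871)), (.ofNat (nat_lit 7167214161606945572714)), (.ofNat (nat_lit 110264833255491470349)), (.ofNat (nat_lit 409329566946061625997096374016))⟩,
    ⟨nat_lit 6, nat_lit 14, (.negSucc (nat_lit 1725097599)), (.negSucc (nat_lit 1597093503)), (.negSucc (nat_lit 1725097583)), (.negSucc (nat_lit 1597093519)), (.negSucc (nat_lit 7167214161606945572713)), (.negSucc (nat_lit 110264833255491470348)), (.ofNat (nat_lit 28894368519164581358034249216))⟩,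
    ⟨nat_lit 21, nat_lit 7, (.negSucc (nat_lit 1664968127)), (.negSucc (nat_lit 1433446015)), (.negSucc (nat_lit 1664968111)), (.negSucc (nat_lit 1433446031)), (.ofNat (nat_lit 7167214161606945572714)), (.ofNat (nat_lit 110264833255491470349)), (.ofNat (nat_lit 374227736430895225175748923136))⟩,
    ⟨nat_lit 7, nat_lit 8, (.negSucc (nat_lit 1433446015)), (.ofNat (nat_lit 244891392)), (.negSucc (nat_lit 1433445999)), (.ofNat (nat_lit 244891376)), (.negSucc (nat_lit 7167214161606945572713)), (.negSucc (nat_lit 110264833255491470348)), (.ofNat (nat_lit 58110364560918108588236563968))⟩,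
    ⟨nat_lit 8, nat_lit 9, (.ofNat (nat_lit 244891392)), (.ofNat (nat_lit 1727701376)), (.ofNat (nat_lit 244891408)), (.ofNat (nat_lit 1727701360)), (.ofNat (nat_lit 7167214161606945572714)), (.ofNat (nat_lit 110264833255491470349)), (.ofNat (nat_lit 4104547551747712952449892352))⟩,
    ⟨nat_lit 10, nat_lit 9, (.ofNat (nat_lit 955807936)), (.ofNat (nat_lit 1727701376)), (.ofNat (nat_lit 955807952)), (.ofNat (nat_lit 1727701360)), (.negSucc (nat_lit 7167214161606945572713)), (.negSucc (nat_lit 110264833255491470348)), (.ofNat (nat_lit 385113955831594058708910892800))⟩,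
    ⟨nat_lit 12, nat_lit 11, (.negSucc (nat_lit 527919551)), (.ofNat (nat_lit 15308032)), (.negSucc (nat_lit 527919535)), (.ofNat (nat_lit 15308016)), (.ofNat (nat_lit 7167214161606945572714)), (.ofNat (nat_lit 110264833255491470349)), (.ofNat (nat_lit 178087634835323715109556986752))⟩,
    ⟨nat_lit 13, nat_lit 12, (.negSucc (nat_lit 1448490623)), (.negSucc (nat_lit 527919551)), (.negSucc (nat_lit 1448490607)), (.negSucc (nat_lit 527919567)), (.negSucc (nat_lit 7167214161606945572713)), (.negSucc (nat_lit 110264833255491470348)), (.ofNat (nat_lit 61665712088136197976626259456))⟩,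
    ⟨nat_lit 14, nat_lit 13, (.negSucc (nat_lit 1597093503)), (.negSucc (nat_lit 1448490623)), (.negSucc (nat_lit 1597093487)), (.negSucc (nat_lit 1448490639)), (.ofNat (nat_lit 7167214161606945572714)), (.ofNat (nat_lit 110264833255491470349)), (.ofNat (nat_lit 381100866343141780601627275008))⟩,
    ⟨nat_lit 15, nat_lit 16, (.negSucc (nat_lit 126370687)), (.ofNat (nat_lit 1441259328)), (.negSucc (nat_lit 126370671)), (.ofNat (nat_lit 1441259312)), (.ofNat (nat_lit 7167214161606945572714)), (.ofNat (nat_lit 110264833255491470349)), (.ofNat (nat_lit 34921356093043140734134310016))⟩,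
    ⟨nat_lit 17, nat_lit 16, (.ofNat (nat_lit 19240192)), (.ofNat (nat_lit 1441259328)), (.ofNat (nat_lit 19240208)), (.ofNat (nat_lit 1441259312)), (.negSucc (nat_lit 7167214435617122928115)), (.negSucc (nat_lit 110265107265668825750)), (.ofNat (nat_lit 352762189972450598871501330816))⟩,
    ⟨nat_lit 18, nat_lit 17, (.negSucc (nat_lit 1400622719)), (.ofNat (nat_lit 19240192)), (.negSucc (nat_lit 1400622703)), (.ofNat (nat_lit 19240176)), (.ofNat (nat_lit 7167214436073168728821)), (.ofNat (nat_lit 110265107721714626456)), (.ofNat (nat_lit 348519146294292063673415827072))⟩,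
    ⟨nat_lit 19, nat_lit 18, (.negSucc (nat_lit 1608066687)), (.negSucc (nat_lit 1400622719)), (.negSucc (nat_lit 1608066671)), (.negSucc (nat_lit 1400622735)), (.negSucc (nat_lit 7167214161880249243497)), (.negSucc (nat_lit 110264833528795141132)), (.ofNat (nat_lit 39639900138562871606342804992))⟩,
    ⟨nat_lit 19, nat_lit 20, (.negSucc (nat_lit 1608066687)), (.negSucc (nat_lit 964962239)), (.negSucc (nat_lit 1608066671)), (.negSucc (nat_lit 964962255)), (.ofNat (nat_lit 7167214161606945572714)), (.ofNat (nat_lit 110264833255491470349)), (.ofNat (nat_lit 394266311010114253374945316608))⟩,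
    ⟨nat_lit 20, nat_lit 11, (.negSucc (nat_lit 964962239)), (.ofNat (nat_lit 15308032)), (.negSucc (nat_lit 964962223)), (.ofNat (nat_lit 15308016)), (.negSucc (nat_lit 7167214161606945572713)), (.negSucc (nat_lit 110264833255491470348)), (.ofNat (nat_lit 181463510027223170317216073088))⟩,
    ⟨nat_lit 0, nat_lit 10, (.negSucc (nat_lit 734931199)), (.ofNat (nat_lit 955807936)), (.negSucc (nat_lit 734931183)), (.ofNat (nat_lit 955807920)), (.ofNat (nat_lit 7167214161606945572714)), (.ofNat (nat_lit 110264833255491470349)), (.ofNat (nat_lit 174329950456963132829145113472))⟩,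
    ⟨nat_lit 21, nat_lit 15, (.negSucc (nat_lit 1664968127)), (.negSucc (nat_lit 126370687)), (.negSucc (nat_lit 1664968111)), (.negSucc (nat_lit 126370703)), (.negSucc (nat_lit 7167214161606945572713)), (.negSucc (nat_lit 110264833255491470348)), (.ofNat (nat_lit 7052870411639666961864849792))⟩]

theorem ok87 : stOK 21 21 S87 = true := by decide +kernel

def S88 : SD where
  vs := [
    ⟨nat_lit 0, nat_lit 0, nat_lit 20, (.ofNat (nat_lit 8)), (.negSucc (nat_lit 735193343)), (.ofNat (nat_lit 6069674001823358069271535043840)), (.negSucc (nat_lit 262143)), (.ofNat (nat_lit 5636526567540873420640616448)), (.negSucc (nat_lit 735193359)), (.negSucc (nat_lit 735193327)), (.negSucc (nat_lit 7167214161606945572713)), (.ofNat (nat_lit 7167214161606945572714)), (.negSucc (nat_lit 7167214161606945572713)), (.ofNat (nat_lit 7167214161606945572714)), (.ofNat (nat_lit 0))⟩,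
    ⟨nat_lit 2, nat_lit 0, nat_lit 1, (.ofNat (nat_lit 8)), (.negSucc (nat_lit 2557831807)), (.ofNat (nat_lit 19132914212493689119654580315136)), (.negSucc (nat_lit 791438527)), (.ofNat (nat_lit 5676167110301315700925312202624)), (.negSucc (nat_lit 2557831823)), (.negSucc (nat_lit 2557831791)), (.negSucc (nat_lit 7167214161606945572713)), (.ofNat (nat_lit 7167214161606945572714)), (.negSucc (nat_lit 7167214161606945572713)), (.ofNat (nat_lit 7167214161606945572714)), (.ofNat (nat_lit 0))⟩,
    ⟨nat_lit 0, nat_lit 1, nat_lit 2, (.ofNat (nat_lit 8)), (.negSucc (nat_lit 2403314495)), (.ofNat (nat_lit 20240372879273527950080648139904)), (.negSucc (nat_lit 790652095)), (.ofNat (nat_lit 5681803636868856574345952819072)), (.negSucc (nat_lit 2403314511)), (.negSucc (nat_lit 2403314479)), (.ofNat (nat_lit 7167214161606945572714)), (.negSucc (nat_lit 7167214161606945572713)), (.negSucc (nat_lit 7167214161606945572713)), (.ofNat (nat_lit 7167214161606945572714)), (.ofNat (nat_lit 0))⟩,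
    ⟨nat_lit 0, nat_lit 2, nat_lit 3, (.ofNat (nat_lit 8)), (.negSucc (nat_lit 2194821951)), (.ofNat (nat_lit 18746062165327268739555969295488)), (.negSucc (nat_lit 789603519)), (.ofNat (nat_lit 5674288268112135409785098663808)), (.negSucc (nat_lit 2194821967)), (.negSucc (nat_lit 2194821935)), (.negSucc (nat_lit 7167214161606945572713)), (.ofNat (nat_lit 7167214161606945572714)), (.negSucc (nat_lit 7167214161606945572713)), (.ofNat (nat_lit 7167214161606945572714)), (.ofNat (nat_lit 0))⟩,
    ⟨nat_lit 1, nat_lit 3, nat_lit 4, (.ofNat (nat_lit 8)), (.negSucc (nat_lit 626684095)), (.ofNat (nat_lit 29985242014202421884660393356672)), (.negSucc (nat_lit 788030655)), (.ofNat (nat_lit 5685561321247217156626379896704)), (.negSucc (nat_lit 626684111)), (.negSucc (nat_lit 626684079)), (.ofNat (nat_lit 7167214161606945572714)), (.negSucc (nat_lit 7167214161606945572713)), (.negSucc (nat_lit 7167214161606945572713)), (.ofNat (nat_lit 7167214161606945572714)), (.ofNat (nat_lit 0))⟩,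
    ⟨nat_lit 0, nat_lit 5, nat_lit 4, (.ofNat (nat_lit 8)), (.negSucc (nat_lit 869591231)), (.ofNat (nat_lit 31726209479297006191436230843776)), (.negSucc (nat_lit 789341375)), (.ofNat (nat_lit 5694955532193118612327447590784)), (.negSucc (nat_lit 869591247)), (.negSucc (nat_lit 869591215)), (.ofNat (nat_lit 7167214161606945572714)), (.negSucc (nat_lit 7167214161606945572713)), (.negSucc (nat_lit 7167214161606945572713)), (.ofNat (nat_lit 7167214161606945572714)), (.ofNat (nat_lit 0))⟩,
    ⟨nat_lit 2, nat_lit 6, nat_lit 5, (.ofNat (nat_lit 8)), (.negSucc (nat_lit 2516536127)), (.ofNat (nat_lit 19922202697299528022305111676032)), (.negSucc (nat_lit 791438527)), (.ofNat (nat_lit 5679924794679676283205739280256)), (.negSucc (nat_lit 2516536143)), (.negSucc (nat_lit 2516536111)), (.negSucc (nat_lit 7167214161606945572713)), (.ofNat (nat_lit 7167214161606945572714)), (.negSucc (nat_lit 7167214161606945572713)), (.ofNat (nat_lit 7167214161606945572714)), (.ofNat (nat_lit 0))⟩,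
    ⟨nat_lit 0, nat_lit 7, nat_lit 8, (.ofNat (nat_lit 8)), (.negSucc (nat_lit 2223049535)), (.ofNat (nat_lit 19729034234724429339451907216512)), (.negSucc (nat_lit 789603519)), (.ofNat (nat_lit 5678045952490495992065525741440)), (.negSucc (nat_lit 2223049551)), (.negSucc (nat_lit 2223049519)), (.ofNat (nat_lit 7167214161606945572714)), (.negSucc (nat_lit 7167214161606945572713)), (.negSucc (nat_lit 7167214161606945572713)), (.ofNat (nat_lit 7167214161606945572714)), (.ofNat (nat_lit 0))⟩,
    ⟨nat_lit 0, nat_lit 8, nat_lit 9, (.ofNat (nat_lit 8)), (.ofNat (nat_lit 246202112)), (.ofNat (nat_lit 2031378854607540655781558883840)), (.ofNat (nat_lit 1310720)), (.ofNat (nat_lit 9394210945901455701067694080)), (.ofNat (nat_lit 246202096)), (.ofNat (nat_lit 246202128)), (.negSucc (nat_lit 7167214161606945572713)), (.ofNat (nat_lit 7167214161606945572714)), (.negSucc (nat_lit 7167214161606945572713)), (.ofNat (nat_lit 7167214161606945572714)), (.ofNat (nat_lit 0))⟩,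
    ⟨nat_lit 1, nat_lit 9, nat_lit 10, (.ofNat (nat_lit 8)), (.ofNat (nat_lit 1730060672)), (.ofNat (nat_lit 12666510939661230199307330215680)), (.ofNat (nat_lit 2359296)), (.ofNat (nat_lit 16909579702622620261921849344)), (.ofNat (nat_lit 1730060656)), (.ofNat (nat_lit 1730060688)), (.ofNat (nat_lit 7167214161606945572714)), (.negSucc (nat_lit 7167214161606945572713)), (.negSucc (nat_lit 7167214161606945572713)), (.ofNat (nat_lit 7167214161606945572714)), (.ofNat (nat_lit 0))⟩,
    ⟨nat_lit 0, nat_lit 20, nat_lit 10, (.ofNat (nat_lit 8)), (.ofNat (nat_lit 957642944)), (.ofNat (nat_lit 18202594218459091927602736889472)), (.ofNat (nat_lit 1835008)), (.ofNat (nat_lit 20667264080983202542348926976)), (.ofNat (nat_lit 957642928)), (.ofNat (nat_lit 957642960)), (.ofNat (nat_lit 7167214161606945572714)), (.negSucc (nat_lit 7167214161606945572713)), (.negSucc (nat_lit 7167214161606945572713)), (.ofNat (nat_lit 7167214161606945572714)), (.ofNat (nat_lit 0))⟩,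
    ⟨nat_lit 1, nat_lit 11, nat_lit 19, (.ofNat (nat_lit 8)), (.negSucc (nat_lit 773246911)), (.ofNat (nat_lit 17363458160523269768482931730560)), (.negSucc (nat_lit 788554943)), (.ofNat (nat_lit 5678045952490495992065525741440)), (.negSucc (nat_lit 773246927)), (.negSucc (nat_lit 773246895)), (.ofNat (nat_lit 7167214161606945572714)), (.negSucc (nat_lit 7167214161606945572713)), (.negSucc (nat_lit 7167214161606945572713)), (.ofNat (nat_lit 7167214161606945572714)), (.ofNat (nat_lit 0))⟩,
    ⟨nat_lit 0, nat_lit 12, nat_lit 11, (.ofNat (nat_lit 8)), (.negSucc (nat_lit 1316736639)), (.ofNat (nat_lit 13468150885313762876257795648768)), (.negSucc (nat_lit 788817087)), (.ofNat (nat_lit 5676167110301315700925312202624)), (.negSucc (nat_lit 1316736655)), (.negSucc (nat_lit 1316736623)), (.negSucc (nat_lit 7167214161606945572713)), (.ofNat (nat_lit 7167214161606945572714)), (.negSucc (nat_lit 7167214161606945572713)), (.ofNat (nat_lit 7167214161606945572714)), (.ofNat (nat_lit 0))⟩,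
    ⟨nat_lit 0, nat_lit 13, nat_lit 12, (.ofNat (nat_lit 8)), (.negSucc (nat_lit 2238094143)), (.ofNat (nat_lit 20071717435885390878197417194624)), (.negSucc (nat_lit 789603519)), (.ofNat (nat_lit 5681803636868856574345952819072)), (.negSucc (nat_lit 2238094159)), (.negSucc (nat_lit 2238094127)), (.ofNat (nat_lit 7167214161606945572714)), (.negSucc (nat_lit 7167214161606945572713)), (.negSucc (nat_lit 7167214161606945572713)), (.ofNat (nat_lit 7167214161606945572714)), (.ofNat (nat_lit 0))⟩,
    ⟨nat_lit 0, nat_lit 6, nat_lit 13, (.ofNat (nat_lit 8)), (.negSucc (nat_lit 2387745599)), (.ofNat (nat_lit 18999133401137092173528013223040)), (.negSucc (nat_lit 790652095)), (.ofNat (nat_lit 5674288268112135409785098663808)), (.negSucc (nat_lit 2387745615)), (.negSucc (nat_lit 2387745583)), (.negSucc (nat_lit 7167214161606945572713)), (.ofNat (nat_lit 7167214161606945572714)), (.negSucc (nat_lit 7167214161606945572713)), (.ofNat (nat_lit 7167214161606945572714)), (.ofNat (nat_lit 0))⟩,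
    ⟨nat_lit 0, nat_lit 21, nat_lit 14, (.ofNat (nat_lit 8)), (.negSucc (nat_lit 126632831)), (.ofNat (nat_lit 1366041203591371541265705909760)), (.negSucc (nat_lit 262143)), (.ofNat (nat_lit 1878842189180291140213538816)), (.negSucc (nat_lit 126632847)), (.negSucc (nat_lit 126632815)), (.negSucc (nat_lit 7167214161606945572713)), (.ofNat (nat_lit 7167214161606945572714)), (.negSucc (nat_lit 7167214161606945572713)), (.ofNat (nat_lit 7167214161606945572714)), (.ofNat (nat_lit 0))⟩,
    ⟨nat_lit 1, nat_lit 14, nat_lit 15, (.ofNat (nat_lit 8)), (.ofNat (nat_lit 1443094336)), (.ofNat (nat_lit 12616611991940136544252191203712)), (.ofNat (nat_lit 1835008)), (.ofNat (nat_lit 16909579702622620261921849344)), (.ofNat (nat_lit 1443094320)), (.ofNat (nat_lit 1443094352)), (.ofNat (nat_lit 7167214161606945572714)), (.negSucc (nat_lit 7167214435617122928115)), (.negSucc (nat_lit 7167214435617122928115)), (.ofNat (nat_lit 7167214161606945572714)), (.ofNat (nat_lit 0))⟩,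
    ⟨nat_lit 0, nat_lit 16, nat_lit 15, (.ofNat (nat_lit 8)), (.ofNat (nat_lit 20550912)), (.ofNat (nat_lit 22812285755725146147443231712896)), (.ofNat (nat_lit 1310720)), (.ofNat (nat_lit 20667264224643450407657930752)), (.ofNat (nat_lit 20550896)), (.ofNat (nat_lit 20550928)), (.ofNat (nat_lit 7167214436073168728821)), (.negSucc (nat_lit 7167214435617122928115)), (.negSucc (nat_lit 7167214435617122928115)), (.ofNat (nat_lit 7167214436073168728821)), (.ofNat (nat_lit 0))⟩,
    ⟨nat_lit 0, nat_lit 17, nat_lit 16, (.ofNat (nat_lit 8)), (.negSucc (nat_lit 1400622719)), (.ofNat (nat_lit 12626429584288209127355868065024)), (.ofNat (nat_lit 0)), (.ofNat (nat_lit 11273052918993626691417669632)), (.negSucc (nat_lit 1400622735)), (.negSucc (nat_lit 1400622703)), (.negSucc (nat_lit 7167214161880249243497)), (.ofNat (nat_lit 7167214436073168728821)), (.negSucc (nat_lit 7167214161880249243497)), (.ofNat (nat_lit 7167214436073168728821)), (.ofNat (nat_lit 0))⟩,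
    ⟨nat_lit 2, nat_lit 17, nat_lit 18, (.ofNat (nat_lit 8)), (.negSucc (nat_lit 2398718783)), (.ofNat (nat_lit 19779997829105944736630199456896)), (.negSucc (nat_lit 790652095)), (.ofNat (nat_lit 5678045952490495992065525741440)), (.negSucc (nat_lit 2398718799)), (.negSucc (nat_lit 2398718767)), (.negSucc (nat_lit 7167214161880249243497)), (.ofNat (nat_lit 7167214161606945572714)), (.negSucc (nat_lit 7167214161880249243497)), (.ofNat (nat_lit 7167214161606945572714)), (.ofNat (nat_lit 0))⟩,
    ⟨nat_lit 0, nat_lit 18, nat_lit 19, (.ofNat (nat_lit 8)), (.negSucc (nat_lit 1754565759)), (.ofNat (nat_lit 24396780504960683426697334444032)), (.negSucc (nat_lit 789603519)), (.ofNat (nat_lit 5685561321247217156626379896704)), (.negSucc (nat_lit 1754565775)), (.negSucc (nat_lit 1754565743)), (.ofNat (nat_lit 7167214161606945572714)), (.negSucc (nat_lit 7167214161606945572713)), (.negSucc (nat_lit 7167214161606945572713)), (.ofNat (nat_lit 7167214161606945572714)), (.ofNat (nat_lit 0))⟩,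
    ⟨nat_lit 2, nat_lit 21, nat_lit 7, (.ofNat (nat_lit 8)), (.negSucc (nat_lit 2455882367)), (.ofNat (nat_lit 18060271463926978530887044670464)), (.negSucc (nat_lit 790914239)), (.ofNat (nat_lit 5668651741544594536364458047360)), (.negSucc (nat_lit 2455882383)), (.negSucc (nat_lit 2455882351)), (.negSucc (nat_lit 7167214161606945572713)), (.ofNat (nat_lit 7167214161606945572714)), (.negSucc (nat_lit 7167214161606945572713)), (.ofNat (nat_lit 7167214161606945572714)), (.ofNat (nat_lit 0))⟩]
  es := [
    ⟨nat_lit 1, nat_lit 0, (.negSucc (nat_lit 2557831807)), (.negSucc (nat_lit 735193343)), (.negSucc (nat_lit 2557831791)), (.negSucc (nat_lit 735193359)), (.negSucc (nat_lit 7167214161606945572713)), (.ofNat (nat_lit 0)), (.ofNat (nat_lit 3757684378360582280427077632))⟩,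
    ⟨nat_lit 1, nat_lit 2, (.negSucc (nat_lit 2557831807)), (.negSucc (nat_lit 2403314495)), (.negSucc (nat_lit 2557831791)), (.negSucc (nat_lit 2403314511)), (.ofNat (nat_lit 7167214161606945572714)), (.ofNat (nat_lit 0)), (.ofNat (nat_lit 11348576536224270819570197327616))⟩,
    ⟨nat_lit 2, nat_lit 3, (.negSucc (nat_lit 2403314495)), (.negSucc (nat_lit 2194821951)), (.negSucc (nat_lit 2403314479)), (.negSucc (nat_lit 2194821967)), (.negSucc (nat_lit 7167214161606945572713)), (.ofNat (nat_lit 0)), (.ofNat (nat_lit 15030737513442329121708310528))⟩,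
    ⟨nat_lit 3, nat_lit 4, (.negSucc (nat_lit 2194821951)), (.negSucc (nat_lit 626684095)), (.negSucc (nat_lit 2194821935)), (.negSucc (nat_lit 626684111)), (.ofNat (nat_lit 7167214161606945572714)), (.ofNat (nat_lit 0)), (.ofNat (nat_lit 11333545798710828490448489017088))⟩,
    ⟨nat_lit 5, nat_lit 4, (.negSucc (nat_lit 869591231)), (.negSucc (nat_lit 626684095)), (.negSucc (nat_lit 869591215)), (.negSucc (nat_lit 626684111)), (.negSucc (nat_lit 7167214161606945572713)), (.ofNat (nat_lit 0)), (.ofNat (nat_lit 37576843783605822804270776320))⟩,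
    ⟨nat_lit 6, nat_lit 5, (.negSucc (nat_lit 2516536127)), (.negSucc (nat_lit 869591231)), (.negSucc (nat_lit 2516536111)), (.negSucc (nat_lit 869591247)), (.ofNat (nat_lit 7167214161606945572714)), (.ofNat (nat_lit 0)), (.ofNat (nat_lit 11352334220602631401850624405248))⟩,
    ⟨nat_lit 6, nat_lit 14, (.negSucc (nat_lit 2516536127)), (.negSucc (nat_lit 2387745599)), (.negSucc (nat_lit 2516536111)), (.negSucc (nat_lit 2387745615)), (.negSucc (nat_lit 7167214161606945572713)), (.ofNat (nat_lit 0)), (.ofNat (nat_lit 7515368756721164560854155264))⟩,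
    ⟨nat_lit 21, nat_lit 7, (.negSucc (nat_lit 2455882367)), (.negSucc (nat_lit 2223049535)), (.negSucc (nat_lit 2455882351)), (.negSucc (nat_lit 2223049551)), (.ofNat (nat_lit 7167214161606945572714)), (.ofNat (nat_lit 0)), (.ofNat (nat_lit 11337303483089189072728916094720))⟩,
    ⟨nat_lit 7, nat_lit 8, (.negSucc (nat_lit 2223049535)), (.ofNat (nat_lit 246202112)), (.negSucc (nat_lit 2223049519)), (.ofNat (nat_lit 246202096)), (.negSucc (nat_lit 7167214161606945572713)), (.ofNat (nat_lit 0)), (.ofNat (nat_lit 18788421891802911402135388160))⟩,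
    ⟨nat_lit 8, nat_lit 9, (.ofNat (nat_lit 246202112)), (.ofNat (nat_lit 1730060672)), (.ofNat (nat_lit 246202128)), (.ofNat (nat_lit 1730060656)), (.ofNat (nat_lit 7167214161606945572714)), (.ofNat (nat_lit 0)), (.ofNat (nat_lit 0))⟩,
    ⟨nat_lit 10, nat_lit 9, (.ofNat (nat_lit 957642944)), (.ofNat (nat_lit 1730060672)), (.ofNat (nat_lit 957642960)), (.ofNat (nat_lit 1730060656)), (.negSucc (nat_lit 7167214161606945572713)), (.ofNat (nat_lit 0)), (.ofNat (nat_lit 33819159405245240523843698688))⟩,
    ⟨nat_lit 12, nat_lit 11, (.negSucc (nat_lit 1316736639)), (.negSucc (nat_lit 773246911)), (.negSucc (nat_lit 1316736623)), (.negSucc (nat_lit 773246927)), (.ofNat (nat_lit 7167214161606945572714)), (.ofNat (nat_lit 0)), (.ofNat (nat_lit 11329788114332467908168061939456))⟩,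
    ⟨nat_lit 13, nat_lit 12, (.negSucc (nat_lit 2238094143)), (.negSucc (nat_lit 1316736639)), (.negSucc (nat_lit 2238094127)), (.negSucc (nat_lit 1316736655)), (.negSucc (nat_lit 7167214161606945572713)), (.ofNat (nat_lit 0)), (.ofNat (nat_lit 22546106270163493682562465792))⟩,
    ⟨nat_lit 14, nat_lit 13, (.negSucc (nat_lit 2387745599)), (.negSucc (nat_lit 2238094143)), (.negSucc (nat_lit 2387745583)), (.negSucc (nat_lit 2238094159)), (.ofNat (nat_lit 7167214161606945572714)), (.ofNat (nat_lit 0)), (.ofNat (nat_lit 11341061167467549655009343172352))⟩,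
    ⟨nat_lit 15, nat_lit 16, (.negSucc (nat_lit 126632831)), (.ofNat (nat_lit 1443094336)), (.negSucc (nat_lit 126632815)), (.ofNat (nat_lit 1443094320)), (.ofNat (nat_lit 7167214161606945572714)), (.ofNat (nat_lit 0)), (.ofNat (nat_lit 3757684378360582280427077632))⟩,
    ⟨nat_lit 17, nat_lit 16, (.ofNat (nat_lit 20550912)), (.ofNat (nat_lit 1443094336)), (.ofNat (nat_lit 20550928)), (.ofNat (nat_lit 1443094320)), (.negSucc (nat_lit 7167214435617122928115)), (.ofNat (nat_lit 0)), (.ofNat (nat_lit 30061475529695525771998134272))⟩,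
    ⟨nat_lit 18, nat_lit 17, (.negSucc (nat_lit 1400622719)), (.ofNat (nat_lit 20550912)), (.negSucc (nat_lit 1400622703)), (.ofNat (nat_lit 20550896)), (.ofNat (nat_lit 7167214436073168728821)), (.ofNat (nat_lit 0)), (.ofNat (nat_lit 11273052918993626691417669632))⟩,
    ⟨nat_lit 19, nat_lit 18, (.negSucc (nat_lit 2398718783)), (.negSucc (nat_lit 1400622719)), (.negSucc (nat_lit 2398718767)), (.negSucc (nat_lit 1400622735)), (.negSucc (nat_lit 7167214161880249243497)), (.ofNat (nat_lit 0)), (.ofNat (nat_lit 11273052918993626691417669632))⟩,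
    ⟨nat_lit 19, nat_lit 20, (.negSucc (nat_lit 2398718783)), (.negSucc (nat_lit 1754565759)), (.negSucc (nat_lit 2398718767)), (.negSucc (nat_lit 1754565775)), (.ofNat (nat_lit 7167214161606945572714)), (.ofNat (nat_lit 0)), (.ofNat (nat_lit 11344818851845910237289770249984))⟩,
    ⟨nat_lit 20, nat_lit 11, (.negSucc (nat_lit 1754565759)), (.negSucc (nat_lit 773246911)), (.negSucc (nat_lit 1754565743)), (.negSucc (nat_lit 773246927)), (.negSucc (nat_lit 7167214161606945572713)), (.ofNat (nat_lit 0)), (.ofNat (nat_lit 26303790648524075962989543424))⟩,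
    ⟨nat_lit 0, nat_lit 10, (.negSucc (nat_lit 735193343)), (.ofNat (nat_lit 957642944)), (.negSucc (nat_lit 735193327)), (.ofNat (nat_lit 957642928)), (.ofNat (nat_lit 7167214161606945572714)), (.ofNat (nat_lit 0)), (.ofNat (nat_lit 7515368756721164560854155264))⟩,
    ⟨nat_lit 21, nat_lit 15, (.negSucc (nat_lit 2455882367)), (.negSucc (nat_lit 126632831)), (.negSucc (nat_lit 2455882351)), (.negSucc (nat_lit 126632847)), (.negSucc (nat_lit 7167214161606945572713)), (.ofNat (nat_lit 0)), (.ofNat (nat_lit 0))⟩]

theorem ok88 : stOK 21 21 S88 = true := by decide +kernel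

def S89 : SD where
  vs := [
    ⟨nat_lit 0, nat_lit 0, nat_lit 20, (.ofNat (nat_lit 8)), (.negSucc (nat_lit 735193343)), (.ofNat (nat_lit 6164512658101848039103347022720)), (.ofNat (nat_lit 0)), (.ofNat (nat_lit 94838656278489969831811978880)), (.negSucc (nat_lit 735193359)), (.negSucc (nat_lit 735193327)), (.negSucc (nat_lit 7279201882882054097286)), (.ofNat (nat_lit 7279201882882054097287)), (.negSucc (nat_lit 7279201882882054097286)), (.ofNat (nat_lit 7279201882882054097287)), (.ofNat (nat_lit 671926327650651147438))⟩,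
    ⟨nat_lit 2, nat_lit 0, nat_lit 1, (.ofNat (nat_lit 8)), (.negSucc (nat_lit 2557831807)), (.ofNat (nat_lit 19431865997063903012147431269888)), (.ofNat (nat_lit 0)), (.ofNat (nat_lit 298951784570213892492850954752)), (.negSucc (nat_lit 2557831823)), (.negSucc (nat_lit 2557831791)), (.negSucc (nat_lit 7279201882882054097286)), (.ofNat (nat_lit 7279201882882054097287)), (.negSucc (nat_lit 7279201882882054097286)), (.ofNat (nat_lit 7279201882882054097287)), (.ofNat (nat_lit 671926327650651147438))⟩,
    ⟨nat_lit 0, nat_lit 1, nat_lit 2, (.ofNat (nat_lit 8)), (.negSucc (nat_lit 2403314495)), (.ofNat (nat_lit 20556628705512176824298805002432)), (.ofNat (nat_lit 0)), (.ofNat (nat_lit 316255826238648874218156862528)), (.negSucc (nat_lit 2403314511)), (.negSucc (nat_lit 2403314479)), (.ofNat (nat_lit 7279201882882054097287)), (.negSucc (nat_lit 7279201882882054097286)), (.negSucc (nat_lit 7279201882882054097286)), (.ofNat (nat_lit 7279201882882054097287)), (.ofNat (nat_lit 671926327650651147438))⟩,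
    ⟨nat_lit 0, nat_lit 2, nat_lit 3, (.ofNat (nat_lit 8)), (.negSucc (nat_lit 2194821951)), (.ofNat (nat_lit 19038969386660507313609814874304)), (.ofNat (nat_lit 0)), (.ofNat (nat_lit 292907221333238574053845578816)), (.negSucc (nat_lit 2194821967)), (.negSucc (nat_lit 2194821935)), (.negSucc (nat_lit 7279201882882054097286)), (.ofNat (nat_lit 7279201882882054097287)), (.negSucc (nat_lit 7279201882882054097286)), (.ofNat (nat_lit 7279201882882054097287)), (.ofNat (nat_lit 671926327650651147438))⟩,
    ⟨nat_lit 1, nat_lit 3, nat_lit 4, (.ofNat (nat_lit 8)), (.negSucc (nat_lit 626684095)), (.ofNat (nat_lit 30453761420674334726605466470976)), (.ofNat (nat_lit 0)), (.ofNat (nat_lit 468519406471912841945073114304)), (.negSucc (nat_lit 626684111)), (.negSucc (nat_lit 626684079)), (.ofNat (nat_lit 7279201882882054097287)), (.negSucc (nat_lit 7279201882882054097286)), (.negSucc (nat_lit 7279201882882054097286)), (.ofNat (nat_lit 7279201882882054097287)), (.ofNat (nat_lit 671926327650651147438))⟩,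
    ⟨nat_lit 0, nat_lit 5, nat_lit 4, (.ofNat (nat_lit 8)), (.negSucc (nat_lit 869591231)), (.ofNat (nat_lit 32221931502411021913174517011008)), (.ofNat (nat_lit 0)), (.ofNat (nat_lit 495722023114015721738286167232)), (.negSucc (nat_lit 869591247)), (.negSucc (nat_lit 869591215)), (.ofNat (nat_lit 7279201882882054097287)), (.negSucc (nat_lit 7279201882882054097286)), (.negSucc (nat_lit 7279201882882054097286)), (.ofNat (nat_lit 7279201882882054097287)), (.ofNat (nat_lit 671926327650651147438))⟩,
    ⟨nat_lit 2, nat_lit 6, nat_lit 5, (.ofNat (nat_lit 8)), (.negSucc (nat_lit 2516536127)), (.ofNat (nat_lit 20233487114444833147651804913856)), (.ofNat (nat_lit 0)), (.ofNat (nat_lit 311284417145305125346693237824)), (.negSucc (nat_lit 2516536143)), (.negSucc (nat_lit 2516536111)), (.negSucc (nat_lit 7279201882882054097286)), (.ofNat (nat_lit 7279201882882054097287)), (.negSucc (nat_lit 7279201882882054097286)), (.ofNat (nat_lit 7279201882882054097287)), (.ofNat (nat_lit 671926327650651147438))⟩,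
    ⟨nat_lit 0, nat_lit 7, nat_lit 8, (.ofNat (nat_lit 8)), (.negSucc (nat_lit 2223049535)), (.ofNat (nat_lit 20037300394641998547879036821696)), (.ofNat (nat_lit 0)), (.ofNat (nat_lit 308266159917569208427129605184)), (.negSucc (nat_lit 2223049551)), (.negSucc (nat_lit 2223049519)), (.ofNat (nat_lit 7279201882882054097287)), (.negSucc (nat_lit 7279201882882054097286)), (.negSucc (nat_lit 7279201882882054097286)), (.ofNat (nat_lit 7279201882882054097287)), (.ofNat (nat_lit 671926327650651147438))⟩,
    ⟨nat_lit 0, nat_lit 8, nat_lit 9, (.ofNat (nat_lit 8)), (.ofNat (nat_lit 246202112)), (.ofNat (nat_lit 2063119149210783478527959742720)), (.ofNat (nat_lit 0)), (.ofNat (nat_lit 31740294603242822746400858880)), (.ofNat (nat_lit 246202096)), (.ofNat (nat_lit 246202128)), (.negSucc (nat_lit 7279201882882054097286)), (.ofNat (nat_lit 7279201882882054097287)), (.negSucc (nat_lit 7279201882882054097286)), (.ofNat (nat_lit 7279201882882054097287)), (.ofNat (nat_lit 671926327650651147438))⟩,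
    ⟨nat_lit 1, nat_lit 9, nat_lit 10, (.ofNat (nat_lit 8)), (.ofNat (nat_lit 1730060672)), (.ofNat (nat_lit 12864425173093436921170347469440)), (.ofNat (nat_lit 0)), (.ofNat (nat_lit 197914233432206721863017253760)), (.ofNat (nat_lit 1730060656)), (.ofNat (nat_lit 1730060688)), (.ofNat (nat_lit 7279201882882054097287)), (.negSucc (nat_lit 7279201882882054097286)), (.negSucc (nat_lit 7279201882882054097286)), (.ofNat (nat_lit 7279201882882054097287)), (.ofNat (nat_lit 671926327650651147438))⟩,
    ⟨nat_lit 0, nat_lit 20, nat_lit 10, (.ofNat (nat_lit 8)), (.ofNat (nat_lit 957642944)), (.ofNat (nat_lit 18487009753122515238969862973376)), (.ofNat (nat_lit 0)), (.ofNat (nat_lit 284415534663423311367126083904)), (.ofNat (nat_lit 957642928)), (.ofNat (nat_lit 957642960)), (.ofNat (nat_lit 7279201882882054097287)), (.negSucc (nat_lit 7279201882882054097286)), (.negSucc (nat_lit 7279201882882054097286)), (.ofNat (nat_lit 7279201882882054097287)), (.ofNat (nat_lit 671926327650651147438))⟩,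
    ⟨nat_lit 1, nat_lit 11, nat_lit 19, (.ofNat (nat_lit 8)), (.negSucc (nat_lit 773246911)), (.ofNat (nat_lit 17634762194281445858613887692480)), (.ofNat (nat_lit 0)), (.ofNat (nat_lit 271304033758176090130955961920)), (.negSucc (nat_lit 773246927)), (.negSucc (nat_lit 773246895)), (.ofNat (nat_lit 7279201882882054097287)), (.negSucc (nat_lit 7279201882882054097286)), (.negSucc (nat_lit 7279201882882054097286)), (.ofNat (nat_lit 7279201882882054097287)), (.ofNat (nat_lit 671926327650651147438))⟩,
    ⟨nat_lit 0, nat_lit 12, nat_lit 11, (.ofNat (nat_lit 8)), (.negSucc (nat_lit 1316736639)), (.ofNat (nat_lit 13678590742896790421198090524544)), (.ofNat (nat_lit 0)), (.ofNat (nat_lit 210439857583027544940294875776)), (.negSucc (nat_lit 1316736655)), (.negSucc (nat_lit 1316736623)), (.negSucc (nat_lit 7279201882882054097286)), (.ofNat (nat_lit 7279201882882054097287)), (.negSucc (nat_lit 7279201882882054097286)), (.ofNat (nat_lit 7279201882882054097287)), (.ofNat (nat_lit 671926327650651147438))⟩,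
    ⟨nat_lit 0, nat_lit 13, nat_lit 12, (.ofNat (nat_lit 8)), (.negSucc (nat_lit 2238094143)), (.ofNat (nat_lit 20385338020821100110667414016192)), (.ofNat (nat_lit 0)), (.ofNat (nat_lit 313620584935709232469996821568)), (.negSucc (nat_lit 2238094159)), (.negSucc (nat_lit 2238094127)), (.ofNat (nat_lit 7279201882882054097287)), (.negSucc (nat_lit 7279201882882054097286)), (.negSucc (nat_lit 7279201882882054097286)), (.ofNat (nat_lit 7279201882882054097287)), (.ofNat (nat_lit 671926327650651147438))⟩,
    ⟨nat_lit 0, nat_lit 6, nat_lit 13, (.ofNat (nat_lit 8)), (.negSucc (nat_lit 2387745599)), (.ofNat (nat_lit 19295994860529859238737648816320)), (.ofNat (nat_lit 0)), (.ofNat (nat_lit 296861459392767065209635593280)), (.negSucc (nat_lit 2387745615)), (.negSucc (nat_lit 2387745583)), (.negSucc (nat_lit 7279201882882054097286)), (.ofNat (nat_lit 7279201882882054097287)), (.negSucc (nat_lit 7279201882882054097286)), (.ofNat (nat_lit 7279201882882054097287)), (.ofNat (nat_lit 671926327650651147438))⟩,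
    ⟨nat_lit 0, nat_lit 21, nat_lit 14, (.ofNat (nat_lit 8)), (.negSucc (nat_lit 126632831)), (.ofNat (nat_lit 1387385597397486721597857486080)), (.ofNat (nat_lit 0)), (.ofNat (nat_lit 21344393806115180332151576320)), (.negSucc (nat_lit 126632847)), (.negSucc (nat_lit 126632815)), (.negSucc (nat_lit 7279201882882054097286)), (.ofNat (nat_lit 7279201882882054097287)), (.negSucc (nat_lit 7279201882882054097286)), (.ofNat (nat_lit 7279201882882054097287)), (.ofNat (nat_lit 671926327650651147438))⟩,
    ⟨nat_lit 1, nat_lit 14, nat_lit 15, (.ofNat (nat_lit 8)), (.ofNat (nat_lit 1443094336)), (.ofNat (nat_lit 12813746554314201177754976479296)), (.ofNat (nat_lit 0)), (.ofNat (nat_lit 197134562374064633502785275584)), (.ofNat (nat_lit 1443094320)), (.ofNat (nat_lit 1443094352)), (.ofNat (nat_lit 7279201882882054097287)), (.negSucc (nat_lit 7279201882882054097286)), (.negSucc (nat_lit 7279201882882054097286)), (.ofNat (nat_lit 7279201882882054097287)), (.ofNat (nat_lit 671925779630296436634))⟩,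
    ⟨nat_lit 0, nat_lit 16, nat_lit 15, (.ofNat (nat_lit 8)), (.ofNat (nat_lit 20550912)), (.ofNat (nat_lit 23168727324776485401462854569984)), (.ofNat (nat_lit 0)), (.ofNat (nat_lit 356441569051339254019622857088)), (.ofNat (nat_lit 20550896)), (.ofNat (nat_lit 20550928)), (.ofNat (nat_lit 7279201882882054097287)), (.negSucc (nat_lit 7279201882882054097286)), (.negSucc (nat_lit 7279201882882054097286)), (.ofNat (nat_lit 7279201882882054097287)), (.ofNat (nat_lit 671924681765403812206))⟩,
    ⟨nat_lit 0, nat_lit 17, nat_lit 16, (.ofNat (nat_lit 8)), (.negSucc (nat_lit 1400622719)), (.ofNat (nat_lit 12823717546819757952401007433600)), (.ofNat (nat_lit 0)), (.ofNat (nat_lit 197287962531548825045139368576)), (.negSucc (nat_lit 1400622735)), (.negSucc (nat_lit 1400622703)), (.negSucc (nat_lit 7279201882882054097286)), (.ofNat (nat_lit 7279201882882054097287)), (.negSucc (nat_lit 7279201882882054097286)), (.ofNat (nat_lit 7279201882882054097287)), (.ofNat (nat_lit 671925777624990152088))⟩,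
    ⟨nat_lit 2, nat_lit 17, nat_lit 18, (.ofNat (nat_lit 8)), (.negSucc (nat_lit 2398718783)), (.ofNat (nat_lit 20089060295185725123138235211968)), (.ofNat (nat_lit 0)), (.ofNat (nat_lit 309062466079780386508035755072)), (.negSucc (nat_lit 2398718799)), (.negSucc (nat_lit 2398718767)), (.negSucc (nat_lit 7279201882882054097286)), (.ofNat (nat_lit 7279201882882054097287)), (.negSucc (nat_lit 7279201882882054097286)), (.ofNat (nat_lit 7279201882882054097287)), (.ofNat (nat_lit 671926326557436464302))⟩,
    ⟨nat_lit 0, nat_lit 18, nat_lit 19, (.ofNat (nat_lit 8)), (.negSucc (nat_lit 1754565759)), (.ofNat (nat_lit 24777980200350694105237246457856)), (.ofNat (nat_lit 0)), (.ofNat (nat_lit 381199695390010678539912013824)), (.negSucc (nat_lit 1754565775)), (.negSucc (nat_lit 1754565743)), (.ofNat (nat_lit 7279201882882054097287)), (.negSucc (nat_lit 7279201882882054097286)), (.negSucc (nat_lit 7279201882882054097286)), (.ofNat (nat_lit 7279201882882054097287)), (.ofNat (nat_lit 671926327650651147438))⟩,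
    ⟨nat_lit 2, nat_lit 21, nat_lit 7, (.ofNat (nat_lit 8)), (.negSucc (nat_lit 2455882367)), (.ofNat (nat_lit 18342463205550837570430501094912)), (.ofNat (nat_lit 0)), (.ofNat (nat_lit 282191741623859039543456424448)), (.negSucc (nat_lit 2455882383)), (.negSucc (nat_lit 2455882351)), (.negSucc (nat_lit 7279201882882054097286)), (.ofNat (nat_lit 7279201882882054097287)), (.negSucc (nat_lit 7279201882882054097286)), (.ofNat (nat_lit 7279201882882054097287)), (.ofNat (nat_lit 671926327650651147438))⟩]
  es := [
    ⟨nat_lit 1, nat_lit 0, (.negSucc (nat_lit 2557831807)), (.negSucc (nat_lit 735193343)), (.negSucc (nat_lit 2557831791)), (.negSucc (nat_lit 735193359)), (.negSucc (nat_lit 7279201882882054097286)), (.negSucc (nat_lit 111987721275108524572)), (.ofNat (nat_lit 12506028987302989688081936768))⟩,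
    ⟨nat_lit 1, nat_lit 2, (.negSucc (nat_lit 2557831807)), (.negSucc (nat_lit 2403314495)), (.negSucc (nat_lit 2557831791)), (.negSucc (nat_lit 2403314511)), (.ofNat (nat_lit 7279201882882054097287)), (.ofNat (nat_lit 111987721275108524573)), (.ofNat (nat_lit 585397540153124795297619972736))⟩,
    ⟨nat_lit 2, nat_lit 3, (.negSucc (nat_lit 2403314495)), (.negSucc (nat_lit 2194821951)), (.negSucc (nat_lit 2403314479)), (.negSucc (nat_lit 2194821967)), (.negSucc (nat_lit 7279201882882054097286)), (.negSucc (nat_lit 111987721275108524572)), (.ofNat (nat_lit 47114112324172953138693752320))⟩,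
    ⟨nat_lit 3, nat_lit 4, (.negSucc (nat_lit 2194821951)), (.negSucc (nat_lit 626684095)), (.negSucc (nat_lit 2194821935)), (.negSucc (nat_lit 626684111)), (.ofNat (nat_lit 7279201882882054097287)), (.ofNat (nat_lit 111987721275108524573)), (.ofNat (nat_lit 538700330342304194968997405312))⟩,
    ⟨nat_lit 5, nat_lit 4, (.negSucc (nat_lit 869591231)), (.negSucc (nat_lit 626684095)), (.negSucc (nat_lit 869591215)), (.negSucc (nat_lit 626684111)), (.negSucc (nat_lit 7279201882882054097286)), (.negSucc (nat_lit 111987721275108524572)), (.ofNat (nat_lit 398338482601521488921148823296))⟩,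
    ⟨nat_lit 6, nat_lit 5, (.negSucc (nat_lit 2516536127)), (.negSucc (nat_lit 869591231)), (.negSucc (nat_lit 2516536111)), (.negSucc (nat_lit 869591247)), (.ofNat (nat_lit 7279201882882054097287)), (.ofNat (nat_lit 111987721275108524573)), (.ofNat (nat_lit 593105563626509954555423511168))⟩,
    ⟨nat_lit 6, nat_lit 14, (.negSucc (nat_lit 2516536127)), (.negSucc (nat_lit 2387745599)), (.negSucc (nat_lit 2516536111)), (.negSucc (nat_lit 2387745615)), (.negSucc (nat_lit 7279201882882054097286)), (.negSucc (nat_lit 111987721275108524572)), (.ofNat (nat_lit 29463270664100296137962964480))⟩,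
    ⟨nat_lit 21, nat_lit 7, (.negSucc (nat_lit 2455882367)), (.negSucc (nat_lit 2223049535)), (.negSucc (nat_lit 2455882351)), (.negSucc (nat_lit 2223049551)), (.ofNat (nat_lit 7279201882882054097287)), (.ofNat (nat_lit 111987721275108524573)), (.ofNat (nat_lit 557220411735896542328781853312))⟩,
    ⟨nat_lit 7, nat_lit 8, (.negSucc (nat_lit 2223049535)), (.ofNat (nat_lit 246202112)), (.negSucc (nat_lit 2223049519)), (.ofNat (nat_lit 246202096)), (.negSucc (nat_lit 7279201882882054097286)), (.negSucc (nat_lit 111987721275108524572)), (.ofNat (nat_lit 59311908099241874525477357056))⟩,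
    ⟨nat_lit 8, nat_lit 9, (.ofNat (nat_lit 246202112)), (.ofNat (nat_lit 1730060672)), (.ofNat (nat_lit 246202128)), (.ofNat (nat_lit 1730060656)), (.ofNat (nat_lit 7279201882882054097287)), (.ofNat (nat_lit 111987721275108524573)), (.ofNat (nat_lit 4168681107243770967324360704))⟩,
    ⟨nat_lit 10, nat_lit 9, (.ofNat (nat_lit 957642944)), (.ofNat (nat_lit 1730060672)), (.ofNat (nat_lit 957642960)), (.ofNat (nat_lit 1730060656)), (.negSucc (nat_lit 7279201882882054097286)), (.negSucc (nat_lit 111987721275108524572)), (.ofNat (nat_lit 391659785757169672758710146816))⟩,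
    ⟨nat_lit 12, nat_lit 11, (.negSucc (nat_lit 1316736639)), (.negSucc (nat_lit 773246911)), (.negSucc (nat_lit 1316736623)), (.negSucc (nat_lit 773246927)), (.ofNat (nat_lit 7279201882882054097287)), (.ofNat (nat_lit 111987721275108524573)), (.ofNat (nat_lit 357898193416070459221904330496))⟩,
    ⟨nat_lit 13, nat_lit 12, (.negSucc (nat_lit 2238094143)), (.negSucc (nat_lit 1316736639)), (.negSucc (nat_lit 2238094127)), (.negSucc (nat_lit 1316736655)), (.negSucc (nat_lit 7279201882882054097286)), (.negSucc (nat_lit 111987721275108524572)), (.ofNat (nat_lit 62981521749984630658685421056))⟩,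
    ⟨nat_lit 14, nat_lit 13, (.negSucc (nat_lit 2387745599)), (.negSucc (nat_lit 2238094143)), (.negSucc (nat_lit 2387745583)), (.negSucc (nat_lit 2238094159)), (.ofNat (nat_lit 7279201882882054097287)), (.ofNat (nat_lit 111987721275108524573)), (.ofNat (nat_lit 564259648121433834281308222080))⟩,
    ⟨nat_lit 15, nat_lit 16, (.negSucc (nat_lit 126632831)), (.ofNat (nat_lit 1443094336)), (.negSucc (nat_lit 126632815)), (.ofNat (nat_lit 1443094320)), (.ofNat (nat_lit 7279201882882054097287)), (.ofNat (nat_lit 111987721275108524573)), (.ofNat (nat_lit 35525716100408823906172157056))⟩,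
    ⟨nat_lit 17, nat_lit 16, (.ofNat (nat_lit 20550912)), (.ofNat (nat_lit 1443094336)), (.ofNat (nat_lit 20550928)), (.ofNat (nat_lit 1443094320)), (.negSucc (nat_lit 7279201882882054097286)), (.negSucc (nat_lit 111987447264931169170)), (.ofNat (nat_lit 358743013225185495163313191040))⟩,
    ⟨nat_lit 18, nat_lit 17, (.negSucc (nat_lit 1400622719)), (.ofNat (nat_lit 20550912)), (.negSucc (nat_lit 1400622703)), (.ofNat (nat_lit 20550896)), (.ofNat (nat_lit 7279201882882054097287)), (.ofNat (nat_lit 111987446808885368466)), (.ofNat (nat_lit 354140124886865169994190516096))⟩,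
    ⟨nat_lit 19, nat_lit 18, (.negSucc (nat_lit 2398718783)), (.negSucc (nat_lit 1400622719)), (.negSucc (nat_lit 2398718767)), (.negSucc (nat_lit 1400622735)), (.negSucc (nat_lit 7279201882882054097286)), (.negSucc (nat_lit 111987721001804853788)), (.ofNat (nat_lit 40435416135399785821987882496))⟩,
    ⟨nat_lit 19, nat_lit 20, (.negSucc (nat_lit 2398718783)), (.negSucc (nat_lit 1754565759)), (.negSucc (nat_lit 2398718767)), (.negSucc (nat_lit 1754565775)), (.ofNat (nat_lit 7279201882882054097287)), (.ofNat (nat_lit 111987721275108524573)), (.ofNat (nat_lit 577689516679739636039816434304))⟩,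
    ⟨nat_lit 20, nat_lit 11, (.negSucc (nat_lit 1754565759)), (.negSucc (nat_lit 773246911)), (.negSucc (nat_lit 1754565743)), (.negSucc (nat_lit 773246927)), (.negSucc (nat_lit 7279201882882054097286)), (.negSucc (nat_lit 111987721275108524572)), (.ofNat (nat_lit 184709874100281721040007593344))⟩,
    ⟨nat_lit 0, nat_lit 10, (.negSucc (nat_lit 735193343)), (.ofNat (nat_lit 957642944)), (.negSucc (nat_lit 735193327)), (.ofNat (nat_lit 957642928)), (.ofNat (nat_lit 7279201882882054097287)), (.ofNat (nat_lit 111987721275108524573)), (.ofNat (nat_lit 177171283569676949975542020992))⟩,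
    ⟨nat_lit 21, nat_lit 15, (.negSucc (nat_lit 2455882367)), (.negSucc (nat_lit 126632831)), (.negSucc (nat_lit 2455882351)), (.negSucc (nat_lit 126632847)), (.negSucc (nat_lit 7279201882882054097286)), (.negSucc (nat_lit 111987721275108524572)), (.ofNat (nat_lit 7163071511821536758130995584))⟩]

theorem ok89 : stOK 21 21 S89 = true := by decide +kernel

def S90 : SD where
  vs := [
    ⟨nat_lit 0, nat_lit 0, nat_lit 20, (.ofNat (nat_lit 8)), (.negSucc (nat_lit 735193343)), (.ofNat (nat_lit 6260833168384689414714244193920)), (.ofNat (nat_lit 0)), (.ofNat (nat_lit 96320510282841375610897171200)), (.negSucc (nat_lit 735193359)), (.negSucc (nat_lit 735193327)), (.negSucc (nat_lit 7392939412302086192556)), (.ofNat (nat_lit 7392939412302086192557)), (.negSucc (nat_lit 7392939412302086192556)), (.ofNat (nat_lit 7392939412302086192557)), (.ofNat (nat_lit 682425176520192571620))⟩,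
    ⟨nat_lit 2, nat_lit 0, nat_lit 1, (.ofNat (nat_lit 8)), (.negSucc (nat_lit 2557831807)), (.ofNat (nat_lit 19735488903268026496711942906368)), (.ofNat (nat_lit 0)), (.ofNat (nat_lit 303622906204123484564511636480)), (.negSucc (nat_lit 2557831823)), (.negSucc (nat_lit 2557831791)), (.negSucc (nat_lit 7392939412302086192556)), (.ofNat (nat_lit 7392939412302086192557)), (.negSucc (nat_lit 7392939412302086192556)), (.ofNat (nat_lit 7392939412302086192557)), (.ofNat (nat_lit 682425176520192571620))⟩,
    ⟨nat_lit 0, nat_lit 1, nat_lit 2, (.ofNat (nat_lit 8)), (.negSucc (nat_lit 2403314495)), (.ofNat (nat_lit 20877826029035804587178164953152)), (.ofNat (nat_lit 0)), (.ofNat (nat_lit 321197323523627762879359950720)), (.negSucc (nat_lit 2403314511)), (.negSucc (nat_lit 2403314479)), (.ofNat (nat_lit 7392939412302086192557)), (.negSucc (nat_lit 7392939254361738875917)), (.negSucc (nat_lit 7392939254361738875917)), (.ofNat (nat_lit 7392939412302086192557)), (.ofNat (nat_lit 682424860639497938342))⟩,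
    ⟨nat_lit 0, nat_lit 2, nat_lit 3, (.ofNat (nat_lit 8)), (.negSucc (nat_lit 2194821951)), (.ofNat (nat_lit 19336453316256462552674320797760)), (.ofNat (nat_lit 0)), (.ofNat (nat_lit 297483929595955239064505923456)), (.negSucc (nat_lit 2194821967)), (.negSucc (nat_lit 2194821935)), (.negSucc (nat_lit 7392939254361738875917)), (.ofNat (nat_lit 7392939415761519587437)), (.negSucc (nat_lit 7392939254361738875917)), (.ofNat (nat_lit 7392939415761519587437)), (.ofNat (nat_lit 682424551677670094824))⟩,
    ⟨nat_lit 1, nat_lit 3, nat_lit 4, (.ofNat (nat_lit 8)), (.negSucc (nat_lit 626684095)), (.ofNat (nat_lit 30929601481226624485819782512832)), (.ofNat (nat_lit 0)), (.ofNat (nat_lit 475840060552289759214316041856)), (.negSucc (nat_lit 626684111)), (.negSucc (nat_lit 626684079)), (.ofNat (nat_lit 7392939415761519587437)), (.negSucc (nat_lit 7392939254405311685645)), (.negSucc (nat_lit 7392939254405311685645)), (.ofNat (nat_lit 7392939415761519587437)), (.ofNat (nat_lit 682424874564377137318))⟩,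
    ⟨nat_lit 0, nat_lit 5, nat_lit 4, (.ofNat (nat_lit 8)), (.negSucc (nat_lit 869591231)), (.ofNat (nat_lit 32725399182136194130567384682688)), (.ofNat (nat_lit 0)), (.ofNat (nat_lit 503467679725172217392867671680)), (.negSucc (nat_lit 869591247)), (.negSucc (nat_lit 869591215)), (.ofNat (nat_lit 7392939412302086192557)), (.negSucc (nat_lit 7392939254405311685645)), (.negSucc (nat_lit 7392939254405311685645)), (.ofNat (nat_lit 7392939412302086192557)), (.ofNat (nat_lit 682424860726643557798))⟩,
    ⟨nat_lit 2, nat_lit 6, nat_lit 5, (.ofNat (nat_lit 8)), (.negSucc (nat_lit 2516536127)), (.ofNat (nat_lit 20549635350608033665583560343616)), (.ofNat (nat_lit 0)), (.ofNat (nat_lit 316148236163200517931755429760)), (.negSucc (nat_lit 2516536143)), (.negSucc (nat_lit 2516536111)), (.negSucc (nat_lit 7392939412302086192556)), (.ofNat (nat_lit 7392939412302086192557)), (.negSucc (nat_lit 7392939412302086192556)), (.ofNat (nat_lit 7392939412302086192557)), (.ofNat (nat_lit 682425176520192571620))⟩,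
    ⟨nat_lit 0, nat_lit 7, nat_lit 8, (.ofNat (nat_lit 8)), (.negSucc (nat_lit 2223049535)), (.ofNat (nat_lit 20350383213308279775189345697856)), (.ofNat (nat_lit 0)), (.ofNat (nat_lit 313082818666281227310308876160)), (.negSucc (nat_lit 2223049551)), (.negSucc (nat_lit 2223049519)), (.ofNat (nat_lit 7392939412302086192557)), (.negSucc (nat_lit 7392939412302086192556)), (.negSucc (nat_lit 7392939412302086192556)), (.ofNat (nat_lit 7392939412302086192557)), (.ofNat (nat_lit 682425176520192571620))⟩,
    ⟨nat_lit 0, nat_lit 8, nat_lit 9, (.ofNat (nat_lit 8)), (.ofNat (nat_lit 246202112)), (.ofNat (nat_lit 2095355385917201970379928113920)), (.ofNat (nat_lit 0)), (.ofNat (nat_lit 32236236706418491851968371200)), (.ofNat (nat_lit 246202096)), (.ofNat (nat_lit 246202128)), (.negSucc (nat_lit 7392939412302086192556)), (.ofNat (nat_lit 7392939412302086192557)), (.negSucc (nat_lit 7392939412302086192556)), (.ofNat (nat_lit 7392939412302086192557)), (.ofNat (nat_lit 682425176520192571620))⟩,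
    ⟨nat_lit 1, nat_lit 9, nat_lit 10, (.ofNat (nat_lit 8)), (.ofNat (nat_lit 1730060672)), (.ofNat (nat_lit 13065431816423021873063440851840)), (.ofNat (nat_lit 0)), (.ofNat (nat_lit 201006643329584951893093382400)), (.ofNat (nat_lit 1730060656)), (.ofNat (nat_lit 1730060688)), (.ofNat (nat_lit 7392939412302086192557)), (.negSucc (nat_lit 7392939412302086192556)), (.negSucc (nat_lit 7392939412302086192556)), (.ofNat (nat_lit 7392939412302086192557)), (.ofNat (nat_lit 682425176520192571620))⟩,
    ⟨nat_lit 0, nat_lit 20, nat_lit 10, (.ofNat (nat_lit 8)), (.ofNat (nat_lit 957642944)), (.ofNat (nat_lit 18775869280515054539578489302336)), (.ofNat (nat_lit 0)), (.ofNat (nat_lit 288859527392539300608626328960)), (.ofNat (nat_lit 957642928)), (.ofNat (nat_lit 957642960)), (.ofNat (nat_lit 7392939412302086192557)), (.negSucc (nat_lit 7392939412302086192556)), (.negSucc (nat_lit 7392939412302086192556)), (.ofNat (nat_lit 7392939412302086192557)), (.ofNat (nat_lit 682425176520192571620))⟩,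
    ⟨nat_lit 1, nat_lit 11, nat_lit 19, (.ofNat (nat_lit 8)), (.negSucc (nat_lit 773246911)), (.ofNat (nat_lit 17910305353567093450154464713280)), (.ofNat (nat_lit 0)), (.ofNat (nat_lit 275543159285647591540577020800)), (.negSucc (nat_lit 773246927)), (.negSucc (nat_lit 773246895)), (.ofNat (nat_lit 7392939412302086192557)), (.negSucc (nat_lit 7392939412302086192556)), (.negSucc (nat_lit 7392939412302086192556)), (.ofNat (nat_lit 7392939412302086192557)), (.ofNat (nat_lit 682425176520192571620))⟩,
    ⟨nat_lit 0, nat_lit 12, nat_lit 11, (.ofNat (nat_lit 8)), (.negSucc (nat_lit 1316736639)), (.ofNat (nat_lit 13892318723254552771529105158784)), (.ofNat (nat_lit 0)), (.ofNat (nat_lit 213727980357762350331014634240)), (.negSucc (nat_lit 1316736655)), (.negSucc (nat_lit 1316736623)), (.negSucc (nat_lit 7392939412302086192556)), (.ofNat (nat_lit 7392939412302086192557)), (.negSucc (nat_lit 7392939412302086192556)), (.ofNat (nat_lit 7392939412302086192557)), (.ofNat (nat_lit 682425176520192571620))⟩,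
    ⟨nat_lit 0, nat_lit 13, nat_lit 12, (.ofNat (nat_lit 8)), (.negSucc (nat_lit 2238094143)), (.ofNat (nat_lit 20703858927396429799896286056512)), (.ofNat (nat_lit 0)), (.ofNat (nat_lit 318520906575329689228872040320)), (.negSucc (nat_lit 2238094159)), (.negSucc (nat_lit 2238094127)), (.ofNat (nat_lit 7392939412302086192557)), (.negSucc (nat_lit 7392939412302086192556)), (.negSucc (nat_lit 7392939412302086192556)), (.ofNat (nat_lit 7392939412302086192557)), (.ofNat (nat_lit 682425176520192571620))⟩,
    ⟨nat_lit 0, nat_lit 6, nat_lit 13, (.ofNat (nat_lit 8)), (.negSucc (nat_lit 2387745599)), (.ofNat (nat_lit 19597494780225638289342634643520)), (.ofNat (nat_lit 0)), (.ofNat (nat_lit 301499919695779050604985827200)), (.negSucc (nat_lit 2387745615)), (.negSucc (nat_lit 2387745583)), (.negSucc (nat_lit 7392939412302086192556)), (.ofNat (nat_lit 7392939412302086192557)), (.negSucc (nat_lit 7392939412302086192556)), (.ofNat (nat_lit 7392939412302086192557)), (.ofNat (nat_lit 682425176520192571620))⟩,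
    ⟨nat_lit 0, nat_lit 21, nat_lit 14, (.ofNat (nat_lit 8)), (.negSucc (nat_lit 126632831)), (.ofNat (nat_lit 1409063497356822451622803162880)), (.ofNat (nat_lit 0)), (.ofNat (nat_lit 21677899959335730024945676800)), (.negSucc (nat_lit 126632847)), (.negSucc (nat_lit 126632815)), (.negSucc (nat_lit 7392939412302086192556)), (.ofNat (nat_lit 7392939412302086192557)), (.negSucc (nat_lit 7392939412302086192556)), (.ofNat (nat_lit 7392939412302086192557)), (.ofNat (nat_lit 682425176520192571620))⟩,
    ⟨nat_lit 1, nat_lit 14, nat_lit 15, (.ofNat (nat_lit 8)), (.ofNat (nat_lit 1443094336)), (.ofNat (nat_lit 13013961344225360571157205451456)), (.ofNat (nat_lit 0)), (.ofNat (nat_lit 200214789911159393402228972160)), (.ofNat (nat_lit 1443094320)), (.ofNat (nat_lit 1443094352)), (.ofNat (nat_lit 7392939412302086192557)), (.negSucc (nat_lit 7392939412302086192556)), (.negSucc (nat_lit 7392939412302086192556)), (.ofNat (nat_lit 7392939412302086192557)), (.ofNat (nat_lit 682425176520192571620))⟩,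
    ⟨nat_lit 0, nat_lit 16, nat_lit 15, (.ofNat (nat_lit 8)), (.ofNat (nat_lit 20550912)), (.ofNat (nat_lit 23530738689226117985860363546624)), (.ofNat (nat_lit 0)), (.ofNat (nat_lit 362011364449632584397508976640)), (.ofNat (nat_lit 20550896)), (.ofNat (nat_lit 20550928)), (.ofNat (nat_lit 7392939412302086192557)), (.negSucc (nat_lit 7392939412302086192556)), (.negSucc (nat_lit 7392939412302086192556)), (.ofNat (nat_lit 7392939412302086192557)), (.ofNat (nat_lit 682425176520192571620))⟩,
    ⟨nat_lit 0, nat_lit 17, nat_lit 16, (.ofNat (nat_lit 8)), (.negSucc (nat_lit 1400622719)), (.ofNat (nat_lit 13024088133488816670407080489600)), (.ofNat (nat_lit 0)), (.ofNat (nat_lit 200370586669058718006073056000)), (.negSucc (nat_lit 1400622735)), (.negSucc (nat_lit 1400622703)), (.negSucc (nat_lit 7392939412302086192556)), (.ofNat (nat_lit 7392939412302086192557)), (.negSucc (nat_lit 7392939412302086192556)), (.ofNat (nat_lit 7392939412302086192557)), (.ofNat (nat_lit 682425176520192571620))⟩,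
    ⟨nat_lit 2, nat_lit 17, nat_lit 18, (.ofNat (nat_lit 8)), (.negSucc (nat_lit 2398718783)), (.ofNat (nat_lit 20402951862298002078186968285248)), (.ofNat (nat_lit 0)), (.ofNat (nat_lit 313891567112276955048733073280)), (.negSucc (nat_lit 2398718799)), (.negSucc (nat_lit 2398718767)), (.negSucc (nat_lit 7392939412302086192556)), (.ofNat (nat_lit 7392939412302086192557)), (.negSucc (nat_lit 7392939412302086192556)), (.ofNat (nat_lit 7392939412302086192557)), (.ofNat (nat_lit 682425176520192571620))⟩,
    ⟨nat_lit 0, nat_lit 18, nat_lit 19, (.ofNat (nat_lit 8)), (.negSucc (nat_lit 1754565759)), (.ofNat (nat_lit 25165136140981173700631206127616)), (.ofNat (nat_lit 0)), (.ofNat (nat_lit 387155940630479595393959669760)), (.negSucc (nat_lit 1754565775)), (.negSucc (nat_lit 1754565743)), (.ofNat (nat_lit 7392939412302086192557)), (.negSucc (nat_lit 7392939412302086192556)), (.negSucc (nat_lit 7392939412302086192556)), (.ofNat (nat_lit 7392939412302086192557)), (.ofNat (nat_lit 682425176520192571620))⟩,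
    ⟨nat_lit 2, nat_lit 21, nat_lit 7, (.ofNat (nat_lit 8)), (.negSucc (nat_lit 2455882367)), (.ofNat (nat_lit 18629064193137569407468202066432)), (.ofNat (nat_lit 0)), (.ofNat (nat_lit 286600987586731837037700971520)), (.negSucc (nat_lit 2455882383)), (.negSucc (nat_lit 2455882351)), (.negSucc (nat_lit 7392939412302086192556)), (.ofNat (nat_lit 7392939412302086192557)), (.negSucc (nat_lit 7392939412302086192556)), (.ofNat (nat_lit 7392939412302086192557)), (.ofNat (nat_lit 682425176520192571620))⟩]
  es := [
    ⟨nat_lit 1, nat_lit 0, (.negSucc (nat_lit 2557831807)), (.negSucc (nat_lit 735193343)), (.negSucc (nat_lit 2557831791)), (.negSucc (nat_lit 735193359)), (.negSucc (nat_lit 7392939412302086192556)), (.negSucc (nat_lit 113737529420032095269)), (.ofNat (nat_lit 12701435690229598902019288320))⟩,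
    ⟨nat_lit 1, nat_lit 2, (.negSucc (nat_lit 2557831807)), (.negSucc (nat_lit 2403314495)), (.negSucc (nat_lit 2557831791)), (.negSucc (nat_lit 2403314511)), (.ofNat (nat_lit 7392939412302086192557)), (.ofNat (nat_lit 113737529420032095270)), (.ofNat (nat_lit 594544376718017370227003984640))⟩,
    ⟨nat_lit 2, nat_lit 3, (.negSucc (nat_lit 2403314495)), (.negSucc (nat_lit 2194821951)), (.negSucc (nat_lit 2403314479)), (.negSucc (nat_lit 2194821967)), (.negSucc (nat_lit 7392939254361738875917)), (.negSucc (nat_lit 113737371479684778630)), (.ofNat (nat_lit 47850649909564364884926615744))⟩,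
    ⟨nat_lit 3, nat_lit 4, (.negSucc (nat_lit 2194821951)), (.negSucc (nat_lit 626684095)), (.negSucc (nat_lit 2194821935)), (.negSucc (nat_lit 626684111)), (.ofNat (nat_lit 7392939415761519587437)), (.ofNat (nat_lit 113737532879465490150)), (.ofNat (nat_lit 547117563526127866872165696256))⟩,
    ⟨nat_lit 5, nat_lit 4, (.negSucc (nat_lit 869591231)), (.negSucc (nat_lit 626684095)), (.negSucc (nat_lit 869591215)), (.negSucc (nat_lit 626684111)), (.negSucc (nat_lit 7392939254405311685645)), (.negSucc (nat_lit 113737371523257588358)), (.ofNat (nat_lit 404562658697820934478416003392))⟩,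
    ⟨nat_lit 6, nat_lit 5, (.negSucc (nat_lit 2516536127)), (.negSucc (nat_lit 869591231)), (.negSucc (nat_lit 2516536111)), (.negSucc (nat_lit 869591247)), (.ofNat (nat_lit 7392939412302086192557)), (.ofNat (nat_lit 113737529420032095270)), (.ofNat (nat_lit 602372838058174172598248344320))⟩,
    ⟨nat_lit 6, nat_lit 14, (.negSucc (nat_lit 2516536127)), (.negSucc (nat_lit 2387745599)), (.negSucc (nat_lit 2516536111)), (.negSucc (nat_lit 2387745615)), (.negSucc (nat_lit 7392939412302086192556)), (.negSucc (nat_lit 113737529420032095269)), (.ofNat (nat_lit 29923634268226863265262515200))⟩,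
    ⟨nat_lit 21, nat_lit 7, (.negSucc (nat_lit 2455882367)), (.negSucc (nat_lit 2223049535)), (.negSucc (nat_lit 2455882351)), (.negSucc (nat_lit 2223049551)), (.ofNat (nat_lit 7392939412302086192557)), (.ofNat (nat_lit 113737529420032095270)), (.ofNat (nat_lit 565926980669269925805390170880))⟩,
    ⟨nat_lit 7, nat_lit 8, (.negSucc (nat_lit 2223049535)), (.ofNat (nat_lit 246202112)), (.negSucc (nat_lit 2223049519)), (.ofNat (nat_lit 246202096)), (.negSucc (nat_lit 7392939412302086192556)), (.negSucc (nat_lit 113737529420032095269)), (.ofNat (nat_lit 60238656663292528815227581440))⟩,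
    ⟨nat_lit 8, nat_lit 9, (.ofNat (nat_lit 246202112)), (.ofNat (nat_lit 1730060672)), (.ofNat (nat_lit 246202128)), (.ofNat (nat_lit 1730060656)), (.ofNat (nat_lit 7392939412302086192557)), (.ofNat (nat_lit 113737529420032095270)), (.ofNat (nat_lit 4233816749544454888709160960))⟩,
    ⟨nat_lit 10, nat_lit 9, (.ofNat (nat_lit 957642944)), (.ofNat (nat_lit 1730060672)), (.ofNat (nat_lit 957642960)), (.ofNat (nat_lit 1730060656)), (.negSucc (nat_lit 7392939412302086192556)), (.negSucc (nat_lit 113737529420032095269)), (.ofNat (nat_lit 397779469909625448897477603840))⟩,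
    ⟨nat_lit 12, nat_lit 11, (.negSucc (nat_lit 1316736639)), (.negSucc (nat_lit 773246911)), (.negSucc (nat_lit 1316736623)), (.negSucc (nat_lit 773246927)), (.ofNat (nat_lit 7392939412302086192557)), (.ofNat (nat_lit 113737529420032095270)), (.ofNat (nat_lit 363490352688196560148994327040))⟩,
    ⟨nat_lit 13, nat_lit 12, (.negSucc (nat_lit 2238094143)), (.negSucc (nat_lit 1316736639)), (.negSucc (nat_lit 2238094127)), (.negSucc (nat_lit 1316736655)), (.negSucc (nat_lit 7392939412302086192556)), (.negSucc (nat_lit 113737529420032095269)), (.ofNat (nat_lit 63965608027328140513034941440))⟩,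
    ⟨nat_lit 14, nat_lit 13, (.negSucc (nat_lit 2387745599)), (.negSucc (nat_lit 2238094143)), (.negSucc (nat_lit 2387745583)), (.negSucc (nat_lit 2238094159)), (.ofNat (nat_lit 7392939412302086192557)), (.ofNat (nat_lit 113737529420032095270)), (.ofNat (nat_lit 573076205123331237944709139200))⟩,
    ⟨nat_lit 15, nat_lit 16, (.negSucc (nat_lit 126632831)), (.ofNat (nat_lit 1443094336)), (.negSucc (nat_lit 126632815)), (.ofNat (nat_lit 1443094320)), (.ofNat (nat_lit 7392939412302086192557)), (.ofNat (nat_lit 113737529420032095270)), (.ofNat (nat_lit 36080805414477711779879581440))⟩,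
    ⟨nat_lit 17, nat_lit 16, (.ofNat (nat_lit 20550912)), (.ofNat (nat_lit 1443094336)), (.ofNat (nat_lit 20550928)), (.ofNat (nat_lit 1443094320)), (.negSucc (nat_lit 7392939412302086192556)), (.negSucc (nat_lit 113737529420032095269)), (.ofNat (nat_lit 364348774407841075024578362880))⟩,
    ⟨nat_lit 18, nat_lit 17, (.negSucc (nat_lit 1400622719)), (.ofNat (nat_lit 20550912)), (.negSucc (nat_lit 1400622703)), (.ofNat (nat_lit 20550896)), (.ofNat (nat_lit 7392939412302086192557)), (.ofNat (nat_lit 113737529420032095270)), (.ofNat (nat_lit 359673954491424093770439590400))⟩,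
    ⟨nat_lit 19, nat_lit 18, (.negSucc (nat_lit 2398718783)), (.negSucc (nat_lit 1400622719)), (.negSucc (nat_lit 2398718767)), (.negSucc (nat_lit 1400622735)), (.negSucc (nat_lit 7392939412302086192556)), (.negSucc (nat_lit 113737529420032095269)), (.ofNat (nat_lit 41067218846693342241706521600))⟩,
    ⟨nat_lit 19, nat_lit 20, (.negSucc (nat_lit 2398718783)), (.negSucc (nat_lit 1754565759)), (.negSucc (nat_lit 2398718767)), (.negSucc (nat_lit 1754565775)), (.ofNat (nat_lit 7392939412302086192557)), (.ofNat (nat_lit 113737529420032095270)), (.ofNat (nat_lit 586715915377860567855759624960))⟩,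
    ⟨nat_lit 20, nat_lit 11, (.negSucc (nat_lit 1754565759)), (.negSucc (nat_lit 773246911)), (.negSucc (nat_lit 1754565743)), (.negSucc (nat_lit 773246927)), (.negSucc (nat_lit 7392939412302086192556)), (.negSucc (nat_lit 113737529420032095269)), (.ofNat (nat_lit 187595965883098622932159714560))⟩,
    ⟨nat_lit 0, nat_lit 10, (.negSucc (nat_lit 735193343)), (.ofNat (nat_lit 957642944)), (.negSucc (nat_lit 735193327)), (.ofNat (nat_lit 957642928)), (.ofNat (nat_lit 7392939412302086192557)), (.ofNat (nat_lit 113737529420032095270)), (.ofNat (nat_lit 179939584875453152319775054080))⟩,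
    ⟨nat_lit 21, nat_lit 15, (.negSucc (nat_lit 2455882367)), (.negSucc (nat_lit 126632831)), (.negSucc (nat_lit 2455882351)), (.negSucc (nat_lit 126632847)), (.negSucc (nat_lit 7392939412302086192556)), (.negSucc (nat_lit 113737529420032095269)), (.ofNat (nat_lit 7274994504193748270011772160))⟩]

theorem ok90 : stOK 21 21 S90 = true := by decide +kernel

def S91 : SD where
  vs := [
    ⟨nat_lit 0, nat_lit 0, nat_lit 20, (.ofNat (nat_lit 8)), (.negSucc (nat_lit 735455487)), (.ofNat (nat_lit 6266647212512584968962829180544)), (.negSucc (nat_lit 262143)), (.ofNat (nat_lit 5814044127895554248584986624)), (.negSucc (nat_lit 735455503)), (.negSucc (nat_lit 735455471)), (.negSucc (nat_lit 7392939412302086192556)), (.ofNat (nat_lit 7392939412302086192557)), (.negSucc (nat_lit 7392939412302086192556)), (.ofNat (nat_lit 7392939412302086192557)), (.ofNat (nat_lit 0))⟩,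
    ⟨nat_lit 2, nat_lit 0, nat_lit 1, (.ofNat (nat_lit 8)), (.negSucc (nat_lit 3383684927)), (.ofNat (nat_lit 25844847012307267797509785458624)), (.negSucc (nat_lit 825853119)), (.ofNat (nat_lit 6109358109039241300797842552256)), (.negSucc (nat_lit 3383684943)), (.negSucc (nat_lit 3383684911)), (.negSucc (nat_lit 7392939412302086192556)), (.ofNat (nat_lit 7392939412302086192557)), (.negSucc (nat_lit 7392939412302086192556)), (.ofNat (nat_lit 7392939412302086192557)), (.ofNat (nat_lit 0))⟩,
    ⟨nat_lit 0, nat_lit 1, nat_lit 2, (.ofNat (nat_lit 8)), (.negSucc (nat_lit 3228381183)), (.ofNat (nat_lit 26992998182202941442224592492032)), (.negSucc (nat_lit 825066687)), (.ofNat (nat_lit 6115172153167136855046427538880)), (.negSucc (nat_lit 3228381199)), (.negSucc (nat_lit 3228381167)), (.ofNat (nat_lit 7392939412302086192557)), (.negSucc (nat_lit 7392939254361738875917)), (.negSucc (nat_lit 7392939254361738875917)), (.ofNat (nat_lit 7392939412302086192557)), (.ofNat (nat_lit 0))⟩,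
    ⟨nat_lit 0, nat_lit 2, nat_lit 3, (.ofNat (nat_lit 8)), (.negSucc (nat_lit 2194821951)), (.ofNat (nat_lit 19351957564242169959446241117056)), (.ofNat (nat_lit 0)), (.ofNat (nat_lit 15504247985707406771920319296)), (.negSucc (nat_lit 2194821967)), (.negSucc (nat_lit 2194821935)), (.negSucc (nat_lit 7392939254361738875917)), (.ofNat (nat_lit 7392939415761519587437)), (.negSucc (nat_lit 7392939254361738875917)), (.ofNat (nat_lit 7392939415761519587437)), (.ofNat (nat_lit 0))⟩,
    ⟨nat_lit 1, nat_lit 3, nat_lit 4, (.ofNat (nat_lit 8)), (.negSucc (nat_lit 625111231)), (.ofNat (nat_lit 30956733817473564219336077341696)), (.ofNat (nat_lit 1572864)), (.ofNat (nat_lit 27132336246939733516294828864)), (.negSucc (nat_lit 625111247)), (.negSucc (nat_lit 625111215)), (.ofNat (nat_lit 7392939415761519587437)), (.negSucc (nat_lit 7392939254405311685645)), (.negSucc (nat_lit 7392939254405311685645)), (.ofNat (nat_lit 7392939415761519587437)), (.ofNat (nat_lit 0))⟩,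
    ⟨nat_lit 0, nat_lit 5, nat_lit 4, (.ofNat (nat_lit 8)), (.negSucc (nat_lit 1693347199)), (.ofNat (nat_lit 38854137438268420612193843857024)), (.negSucc (nat_lit 823755967)), (.ofNat (nat_lit 6128738256132226481626459174336)), (.negSucc (nat_lit 1693347215)), (.negSucc (nat_lit 1693347183)), (.ofNat (nat_lit 7392939412302086192557)), (.negSucc (nat_lit 7392939254405311685645)), (.negSucc (nat_lit 7392939254405311685645)), (.ofNat (nat_lit 7392939412302086192557)), (.ofNat (nat_lit 0))⟩,
    ⟨nat_lit 2, nat_lit 6, nat_lit 5, (.ofNat (nat_lit 8)), (.negSucc (nat_lit 3342389247)), (.ofNat (nat_lit 26662869489065872002547126220288)), (.negSucc (nat_lit 825853119)), (.ofNat (nat_lit 6113234138457838336963565876672)), (.negSucc (nat_lit 3342389263)), (.negSucc (nat_lit 3342389231)), (.negSucc (nat_lit 7392939412302086192556)), (.ofNat (nat_lit 7392939412302086192557)), (.negSucc (nat_lit 7392939412302086192556)), (.ofNat (nat_lit 7392939412302086192557)), (.ofNat (nat_lit 0))⟩,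
    ⟨nat_lit 0, nat_lit 7, nat_lit 8, (.ofNat (nat_lit 8)), (.negSucc (nat_lit 3047067647)), (.ofNat (nat_lit 26461679337056819594070049912320)), (.negSucc (nat_lit 824018111)), (.ofNat (nat_lit 6111296123748539818880704214464)), (.negSucc (nat_lit 3047067663)), (.negSucc (nat_lit 3047067631)), (.ofNat (nat_lit 7392939412302086192557)), (.negSucc (nat_lit 7392939412302086192556)), (.negSucc (nat_lit 7392939412302086192556)), (.ofNat (nat_lit 7392939412302086192557)), (.ofNat (nat_lit 0))⟩,
    ⟨nat_lit 0, nat_lit 8, nat_lit 9, (.ofNat (nat_lit 8)), (.ofNat (nat_lit 247512832)), (.ofNat (nat_lit 2105045459463694560794236424960)), (.ofNat (nat_lit 1310720)), (.ofNat (nat_lit 9690073546492590414308311040)), (.ofNat (nat_lit 247512816)), (.ofNat (nat_lit 247512848)), (.negSucc (nat_lit 7392939412302086192556)), (.ofNat (nat_lit 7392939412302086192557)), (.negSucc (nat_lit 7392939412302086192556)), (.ofNat (nat_lit 7392939412302086192557)), (.ofNat (nat_lit 0))⟩,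
    ⟨nat_lit 1, nat_lit 9, nat_lit 10, (.ofNat (nat_lit 8)), (.ofNat (nat_lit 1732419968)), (.ofNat (nat_lit 13082873948806708535809195811712)), (.ofNat (nat_lit 2359296)), (.ofNat (nat_lit 17442132383686662745754959872)), (.ofNat (nat_lit 1732419952)), (.ofNat (nat_lit 1732419984)), (.ofNat (nat_lit 7392939412302086192557)), (.negSucc (nat_lit 7392939412302086192556)), (.negSucc (nat_lit 7392939412302086192556)), (.ofNat (nat_lit 7392939412302086192557)), (.ofNat (nat_lit 0))⟩,
    ⟨nat_lit 0, nat_lit 20, nat_lit 10, (.ofNat (nat_lit 8)), (.ofNat (nat_lit 959477952)), (.ofNat (nat_lit 18797187442317338238489967586624)), (.ofNat (nat_lit 1835008)), (.ofNat (nat_lit 21318161802283698911478284288)), (.ofNat (nat_lit 959477936)), (.ofNat (nat_lit 959477968)), (.ofNat (nat_lit 7392939412302086192557)), (.negSucc (nat_lit 7392939412302086192556)), (.negSucc (nat_lit 7392939412302086192556)), (.ofNat (nat_lit 7392939412302086192557)), (.ofNat (nat_lit 0))⟩,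
    ⟨nat_lit 1, nat_lit 11, nat_lit 19, (.ofNat (nat_lit 8)), (.negSucc (nat_lit 1596478591)), (.ofNat (nat_lit 24023539492024931787118030589952)), (.negSucc (nat_lit 823231679)), (.ofNat (nat_lit 6113234138457838336963565876672)), (.negSucc (nat_lit 1596478607)), (.negSucc (nat_lit 1596478575)), (.ofNat (nat_lit 7392939412302086192557)), (.negSucc (nat_lit 7392939412302086192556)), (.negSucc (nat_lit 7392939412302086192556)), (.ofNat (nat_lit 7392939412302086192557)), (.ofNat (nat_lit 0))⟩,
    ⟨nat_lit 0, nat_lit 12, nat_lit 11, (.ofNat (nat_lit 8)), (.negSucc (nat_lit 2140230463)), (.ofNat (nat_lit 20003614847003092590409809373248)), (.negSucc (nat_lit 823493823)), (.ofNat (nat_lit 6111296123748539818880704214464)), (.negSucc (nat_lit 2140230479)), (.negSucc (nat_lit 2140230447)), (.negSucc (nat_lit 7392939412302086192556)), (.ofNat (nat_lit 7392939412302086192557)), (.negSucc (nat_lit 7392939412302086192556)), (.ofNat (nat_lit 7392939412302086192557)), (.ofNat (nat_lit 0))⟩,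
    ⟨nat_lit 0, nat_lit 13, nat_lit 12, (.ofNat (nat_lit 8)), (.negSucc (nat_lit 3062112255)), (.ofNat (nat_lit 26819031080563566654942713595392)), (.negSucc (nat_lit 824018111)), (.ofNat (nat_lit 6115172153167136855046427538880)), (.negSucc (nat_lit 3062112271)), (.negSucc (nat_lit 3062112239)), (.ofNat (nat_lit 7392939412302086192557)), (.negSucc (nat_lit 7392939412302086192556)), (.negSucc (nat_lit 7392939412302086192556)), (.ofNat (nat_lit 7392939412302086192557)), (.ofNat (nat_lit 0))⟩,
    ⟨nat_lit 0, nat_lit 6, nat_lit 13, (.ofNat (nat_lit 8)), (.negSucc (nat_lit 3212812287)), (.ofNat (nat_lit 25704914874555581072057615533568)), (.negSucc (nat_lit 825066687)), (.ofNat (nat_lit 6107420094329942782714980890048)), (.negSucc (nat_lit 3212812303)), (.negSucc (nat_lit 3212812271)), (.negSucc (nat_lit 7392939412302086192556)), (.ofNat (nat_lit 7392939412302086192557)), (.negSucc (nat_lit 7392939412302086192556)), (.ofNat (nat_lit 7392939412302086192557)), (.ofNat (nat_lit 0))⟩,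
    ⟨nat_lit 0, nat_lit 21, nat_lit 14, (.ofNat (nat_lit 8)), (.negSucc (nat_lit 126894975)), (.ofNat (nat_lit 1411001512066120969705664825088)), (.negSucc (nat_lit 262143)), (.ofNat (nat_lit 1938014709298518082861662208)), (.negSucc (nat_lit 126894991)), (.negSucc (nat_lit 126894959)), (.negSucc (nat_lit 7392939412302086192556)), (.ofNat (nat_lit 7392939412302086192557)), (.negSucc (nat_lit 7392939412302086192556)), (.ofNat (nat_lit 7392939412302086192557)), (.ofNat (nat_lit 0))⟩,
    ⟨nat_lit 1, nat_lit 14, nat_lit 15, (.ofNat (nat_lit 8)), (.ofNat (nat_lit 1444929344)), (.ofNat (nat_lit 13031403476609047233902960411328)), (.ofNat (nat_lit 1835008)), (.ofNat (nat_lit 17442132383686662745754959872)), (.ofNat (nat_lit 1444929328)), (.ofNat (nat_lit 1444929360)), (.ofNat (nat_lit 7392939412302086192557)), (.negSucc (nat_lit 7392939412302086192556)), (.negSucc (nat_lit 7392939412302086192556)), (.ofNat (nat_lit 7392939412302086192557)), (.ofNat (nat_lit 0))⟩,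
    ⟨nat_lit 0, nat_lit 16, nat_lit 15, (.ofNat (nat_lit 8)), (.ofNat (nat_lit 21861632)), (.ofNat (nat_lit 23552056851028401684771841830912)), (.ofNat (nat_lit 1310720)), (.ofNat (nat_lit 21318161802283698911478284288)), (.ofNat (nat_lit 21861616)), (.ofNat (nat_lit 21861648)), (.ofNat (nat_lit 7392939412302086192557)), (.negSucc (nat_lit 7392939412302086192556)), (.negSucc (nat_lit 7392939412302086192556)), (.ofNat (nat_lit 7392939412302086192557)), (.ofNat (nat_lit 0))⟩,
    ⟨nat_lit 0, nat_lit 17, nat_lit 16, (.ofNat (nat_lit 8)), (.negSucc (nat_lit 1400622719)), (.ofNat (nat_lit 13035716221744607778904250462848)), (.ofNat (nat_lit 0)), (.ofNat (nat_lit 11628088255791108497169973248)), (.negSucc (nat_lit 1400622735)), (.negSucc (nat_lit 1400622703)), (.negSucc (nat_lit 7392939412302086192556)), (.ofNat (nat_lit 7392939412302086192557)), (.negSucc (nat_lit 7392939412302086192556)), (.ofNat (nat_lit 7392939412302086192557)), (.ofNat (nat_lit 0))⟩,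
    ⟨nat_lit 2, nat_lit 17, nat_lit 18, (.ofNat (nat_lit 8)), (.negSucc (nat_lit 3223785471)), (.ofNat (nat_lit 26514247986046541897067672499712)), (.negSucc (nat_lit 825066687)), (.ofNat (nat_lit 6111296123748539818880704214464)), (.negSucc (nat_lit 3223785487)), (.negSucc (nat_lit 3223785455)), (.negSucc (nat_lit 7392939412302086192556)), (.ofNat (nat_lit 7392939412302086192557)), (.negSucc (nat_lit 7392939412302086192556)), (.ofNat (nat_lit 7392939412302086192557)), (.ofNat (nat_lit 0))⟩,
    ⟨nat_lit 0, nat_lit 18, nat_lit 19, (.ofNat (nat_lit 8)), (.negSucc (nat_lit 2578583871)), (.ofNat (nat_lit 31284184323566907591843356990912)), (.negSucc (nat_lit 824018111)), (.ofNat (nat_lit 6119048182585733891212150863296)), (.negSucc (nat_lit 2578583887)), (.negSucc (nat_lit 2578583855)), (.ofNat (nat_lit 7392939412302086192557)), (.negSucc (nat_lit 7392939412302086192556)), (.negSucc (nat_lit 7392939412302086192556)), (.ofNat (nat_lit 7392939412302086192557)), (.ofNat (nat_lit 0))⟩,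
    ⟨nat_lit 2, nat_lit 21, nat_lit 7, (.ofNat (nat_lit 8)), (.negSucc (nat_lit 3281211199)), (.ofNat (nat_lit 24730670243339616635934597969856)), (.negSucc (nat_lit 825328831)), (.ofNat (nat_lit 6101606050202047228466395903424)), (.negSucc (nat_lit 3281211215)), (.negSucc (nat_lit 3281211183)), (.negSucc (nat_lit 7392939412302086192556)), (.ofNat (nat_lit 7392939412302086192557)), (.negSucc (nat_lit 7392939412302086192556)), (.ofNat (nat_lit 7392939412302086192557)), (.ofNat (nat_lit 0))⟩]
  es := [
    ⟨nat_lit 1, nat_lit 0, (.negSucc (nat_lit 3383684927)), (.negSucc (nat_lit 735455487)), (.negSucc (nat_lit 3383684911)), (.negSucc (nat_lit 735455503)), (.negSucc (nat_lit 7392939412302086192556)), (.ofNat (nat_lit 0)), (.ofNat (nat_lit 3876029418597036165723324416))⟩,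
    ⟨nat_lit 1, nat_lit 2, (.negSucc (nat_lit 3383684927)), (.negSucc (nat_lit 3228381183)), (.negSucc (nat_lit 3383684911)), (.negSucc (nat_lit 3228381199)), (.ofNat (nat_lit 7392939412302086192557)), (.ofNat (nat_lit 0)), (.ofNat (nat_lit 12214840188659885565429961780096))⟩,
    ⟨nat_lit 2, nat_lit 3, (.negSucc (nat_lit 3228381183)), (.negSucc (nat_lit 2194821951)), (.negSucc (nat_lit 3228381167)), (.negSucc (nat_lit 2194821967)), (.negSucc (nat_lit 7392939254361738875917)), (.ofNat (nat_lit 0)), (.ofNat (nat_lit 15504247985707406771920319296))⟩,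
    ⟨nat_lit 3, nat_lit 4, (.negSucc (nat_lit 2194821951)), (.negSucc (nat_lit 625111231)), (.negSucc (nat_lit 2194821935)), (.negSucc (nat_lit 625111247)), (.ofNat (nat_lit 7392939415761519587437)), (.ofNat (nat_lit 0)), (.ofNat (nat_lit 15504247985707406771920319296))⟩,
    ⟨nat_lit 5, nat_lit 4, (.negSucc (nat_lit 1693347199)), (.negSucc (nat_lit 625111231)), (.negSucc (nat_lit 1693347183)), (.negSucc (nat_lit 625111247)), (.negSucc (nat_lit 7392939254405311685645)), (.ofNat (nat_lit 0)), (.ofNat (nat_lit 38760424254380689675426739008))⟩,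
    ⟨nat_lit 6, nat_lit 5, (.negSucc (nat_lit 3342389247)), (.negSucc (nat_lit 1693347199)), (.negSucc (nat_lit 3342389231)), (.negSucc (nat_lit 1693347215)), (.ofNat (nat_lit 7392939412302086192557)), (.ofNat (nat_lit 0)), (.ofNat (nat_lit 12218716218078482601595685104512))⟩,
    ⟨nat_lit 6, nat_lit 14, (.negSucc (nat_lit 3342389247)), (.negSucc (nat_lit 3212812287)), (.negSucc (nat_lit 3342389231)), (.negSucc (nat_lit 3212812303)), (.negSucc (nat_lit 7392939412302086192556)), (.ofNat (nat_lit 0)), (.ofNat (nat_lit 7752058837194072331446648832))⟩,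
    ⟨nat_lit 21, nat_lit 7, (.negSucc (nat_lit 3281211199)), (.negSucc (nat_lit 3047067647)), (.negSucc (nat_lit 3281211183)), (.negSucc (nat_lit 3047067663)), (.ofNat (nat_lit 7392939412302086192557)), (.ofNat (nat_lit 0)), (.ofNat (nat_lit 12203212100404094456932791806848))⟩,
    ⟨nat_lit 7, nat_lit 8, (.negSucc (nat_lit 3047067647)), (.ofNat (nat_lit 247512832)), (.negSucc (nat_lit 3047067631)), (.ofNat (nat_lit 247512816)), (.negSucc (nat_lit 7392939412302086192556)), (.ofNat (nat_lit 0)), (.ofNat (nat_lit 19380147092985180828616622080))⟩,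
    ⟨nat_lit 8, nat_lit 9, (.ofNat (nat_lit 247512832)), (.ofNat (nat_lit 1732419968)), (.ofNat (nat_lit 247512848)), (.ofNat (nat_lit 1732419952)), (.ofNat (nat_lit 7392939412302086192557)), (.ofNat (nat_lit 0)), (.ofNat (nat_lit 0))⟩,
    ⟨nat_lit 10, nat_lit 9, (.ofNat (nat_lit 959477952)), (.ofNat (nat_lit 1732419968)), (.ofNat (nat_lit 959477968)), (.ofNat (nat_lit 1732419952)), (.negSucc (nat_lit 7392939412302086192556)), (.ofNat (nat_lit 0)), (.ofNat (nat_lit 34884264767373325491509919744))⟩,
    ⟨nat_lit 12, nat_lit 11, (.negSucc (nat_lit 2140230463)), (.negSucc (nat_lit 1596478591)), (.negSucc (nat_lit 2140230447)), (.negSucc (nat_lit 1596478607)), (.ofNat (nat_lit 7392939412302086192557)), (.ofNat (nat_lit 0)), (.ofNat (nat_lit 12199336070985497420767068482432))⟩,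
    ⟨nat_lit 13, nat_lit 12, (.negSucc (nat_lit 3062112255)), (.negSucc (nat_lit 2140230463)), (.negSucc (nat_lit 3062112239)), (.negSucc (nat_lit 2140230479)), (.negSucc (nat_lit 7392939412302086192556)), (.ofNat (nat_lit 0)), (.ofNat (nat_lit 23256176511582216994339946496))⟩,
    ⟨nat_lit 14, nat_lit 13, (.negSucc (nat_lit 3212812287)), (.negSucc (nat_lit 3062112255)), (.negSucc (nat_lit 3212812271)), (.negSucc (nat_lit 3062112271)), (.ofNat (nat_lit 7392939412302086192557)), (.ofNat (nat_lit 0)), (.ofNat (nat_lit 12207088129822691493098515131264))⟩,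
    ⟨nat_lit 15, nat_lit 16, (.negSucc (nat_lit 126894975)), (.ofNat (nat_lit 1444929344)), (.negSucc (nat_lit 126894959)), (.ofNat (nat_lit 1444929328)), (.ofNat (nat_lit 7392939412302086192557)), (.ofNat (nat_lit 0)), (.ofNat (nat_lit 3876029418597036165723324416))⟩,
    ⟨nat_lit 17, nat_lit 16, (.ofNat (nat_lit 21861632)), (.ofNat (nat_lit 1444929344)), (.ofNat (nat_lit 21861648)), (.ofNat (nat_lit 1444929328)), (.negSucc (nat_lit 7392939412302086192556)), (.ofNat (nat_lit 0)), (.ofNat (nat_lit 31008235348776289325786595328))⟩,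
    ⟨nat_lit 18, nat_lit 17, (.negSucc (nat_lit 1400622719)), (.ofNat (nat_lit 21861632)), (.negSucc (nat_lit 1400622703)), (.ofNat (nat_lit 21861616)), (.ofNat (nat_lit 7392939412302086192557)), (.ofNat (nat_lit 0)), (.ofNat (nat_lit 11628088255791108497169973248))⟩,
    ⟨nat_lit 19, nat_lit 18, (.negSucc (nat_lit 3223785471)), (.negSucc (nat_lit 1400622719)), (.negSucc (nat_lit 3223785455)), (.negSucc (nat_lit 1400622735)), (.negSucc (nat_lit 7392939412302086192556)), (.ofNat (nat_lit 0)), (.ofNat (nat_lit 11628088255791108497169973248))⟩,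
    ⟨nat_lit 19, nat_lit 20, (.negSucc (nat_lit 3223785471)), (.negSucc (nat_lit 2578583871)), (.negSucc (nat_lit 3223785455)), (.negSucc (nat_lit 2578583887)), (.ofNat (nat_lit 7392939412302086192557)), (.ofNat (nat_lit 0)), (.ofNat (nat_lit 12210964159241288529264238455680))⟩,
    ⟨nat_lit 20, nat_lit 11, (.negSucc (nat_lit 2578583871)), (.negSucc (nat_lit 1596478591)), (.negSucc (nat_lit 2578583855)), (.negSucc (nat_lit 1596478607)), (.negSucc (nat_lit 7392939412302086192556)), (.ofNat (nat_lit 0)), (.ofNat (nat_lit 27132205930179253160063270912))⟩,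
    ⟨nat_lit 0, nat_lit 10, (.negSucc (nat_lit 735455487)), (.ofNat (nat_lit 959477952)), (.negSucc (nat_lit 735455471)), (.ofNat (nat_lit 959477936)), (.ofNat (nat_lit 7392939412302086192557)), (.ofNat (nat_lit 0)), (.ofNat (nat_lit 7752058837194072331446648832))⟩,
    ⟨nat_lit 21, nat_lit 15, (.negSucc (nat_lit 3281211199)), (.negSucc (nat_lit 126894975)), (.negSucc (nat_lit 3281211183)), (.negSucc (nat_lit 126894991)), (.negSucc (nat_lit 7392939412302086192556)), (.ofNat (nat_lit 0)), (.ofNat (nat_lit 0))⟩]

theorem ok91 : stOK 21 21 S91 = true := by decide +kernel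

def S92 : SD where
  vs := [
    ⟨nat_lit 0, nat_lit 0, nat_lit 20, (.ofNat (nat_lit 8)), (.negSucc (nat_lit 735455487)), (.ofNat (nat_lit 6364563575208094109102277380480)), (.ofNat (nat_lit 0)), (.ofNat (nat_lit 97916362695509140139448199936)), (.negSucc (nat_lit 735455503)), (.negSucc (nat_lit 735455471)), (.negSucc (nat_lit 7508454090619306289314)), (.ofNat (nat_lit 7508454090619306289315)), (.negSucc (nat_lit 7508454090619306289314)), (.ofNat (nat_lit 7508454090619306289315)), (.ofNat (nat_lit 693088069903320580548))⟩,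
    ⟨nat_lit 2, nat_lit 0, nat_lit 1, (.ofNat (nat_lit 8)), (.negSucc (nat_lit 3383684927)), (.ofNat (nat_lit 26248672746874568856843417814080)), (.ofNat (nat_lit 0)), (.ofNat (nat_lit 403825734567301059333632355456)), (.negSucc (nat_lit 3383684943)), (.negSucc (nat_lit 3383684911)), (.negSucc (nat_lit 7508454090619306289314)), (.ofNat (nat_lit 7508454090619306289315)), (.negSucc (nat_lit 7508454090619306289314)), (.ofNat (nat_lit 7508454090619306289315)), (.ofNat (nat_lit 693088069903320580548))⟩,
    ⟨nat_lit 0, nat_lit 1, nat_lit 2, (.ofNat (nat_lit 8)), (.negSucc (nat_lit 3228381183)), (.ofNat (nat_lit 27414763778799862402256784509440)), (.ofNat (nat_lit 0)), (.ofNat (nat_lit 421765596596920960032192017408)), (.negSucc (nat_lit 3228381199)), (.negSucc (nat_lit 3228381167)), (.ofNat (nat_lit 7508454090619306289315)), (.negSucc (nat_lit 7508454090619306289314)), (.negSucc (nat_lit 7508454090619306289314)), (.ofNat (nat_lit 7508454090619306289315)), (.ofNat (nat_lit 693088385784015213826))⟩,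
    ⟨nat_lit 0, nat_lit 2, nat_lit 3, (.ofNat (nat_lit 8)), (.negSucc (nat_lit 2194821951)), (.ofNat (nat_lit 19654331735392113789499603303360)), (.ofNat (nat_lit 0)), (.ofNat (nat_lit 302374171149943830053362186304)), (.negSucc (nat_lit 2194821967)), (.negSucc (nat_lit 2194821935)), (.negSucc (nat_lit 7508454090619306289314)), (.ofNat (nat_lit 7508454090619306289315)), (.negSucc (nat_lit 7508454090619306289314)), (.ofNat (nat_lit 7508454090619306289315)), (.ofNat (nat_lit 693088694745843057344))⟩,
    ⟨nat_lit 1, nat_lit 3, nat_lit 4, (.ofNat (nat_lit 8)), (.negSucc (nat_lit 625111231)), (.ofNat (nat_lit 31440432612065090310800780260160)), (.ofNat (nat_lit 0)), (.ofNat (nat_lit 483698794591526091464702918464)), (.negSucc (nat_lit 625111247)), (.negSucc (nat_lit 625111215)), (.ofNat (nat_lit 7508454090619306289315)), (.negSucc (nat_lit 7508454090619306289314)), (.negSucc (nat_lit 7508454090619306289314)), (.ofNat (nat_lit 7508454090619306289315)), (.ofNat (nat_lit 693088371859136014850))⟩,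
    ⟨nat_lit 0, nat_lit 5, nat_lit 4, (.ofNat (nat_lit 8)), (.negSucc (nat_lit 1693347199)), (.ofNat (nat_lit 39461233335741364684255677342080)), (.ofNat (nat_lit 0)), (.ofNat (nat_lit 607095897472944072061833485056)), (.negSucc (nat_lit 1693347215)), (.negSucc (nat_lit 1693347183)), (.ofNat (nat_lit 7508454090619306289315)), (.negSucc (nat_lit 7508454090619306289314)), (.negSucc (nat_lit 7508454090619306289314)), (.ofNat (nat_lit 7508454090619306289315)), (.ofNat (nat_lit 693088385696869594370))⟩,
    ⟨nat_lit 2, nat_lit 6, nat_lit 5, (.ofNat (nat_lit 8)), (.negSucc (nat_lit 3342389247)), (.ofNat (nat_lit 27079476824832526252584389224960)), (.ofNat (nat_lit 0)), (.ofNat (nat_lit 416607335766654250037263004672)), (.negSucc (nat_lit 3342389263)), (.negSucc (nat_lit 3342389231)), (.negSucc (nat_lit 7508454090619306289314)), (.ofNat (nat_lit 7508454090619306289315)), (.negSucc (nat_lit 7508454090619306289314)), (.ofNat (nat_lit 7508454090619306289315)), (.ofNat (nat_lit 693088069903320580548))⟩,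
    ⟨nat_lit 0, nat_lit 7, nat_lit 8, (.ofNat (nat_lit 8)), (.negSucc (nat_lit 3047067647)), (.ofNat (nat_lit 26875143076698332400224877734400)), (.ofNat (nat_lit 0)), (.ofNat (nat_lit 413463739641512806154827822080)), (.negSucc (nat_lit 3047067663)), (.negSucc (nat_lit 3047067631)), (.ofNat (nat_lit 7508454090619306289315)), (.negSucc (nat_lit 7508454090619306289314)), (.negSucc (nat_lit 7508454090619306289314)), (.ofNat (nat_lit 7508454090619306289315)), (.ofNat (nat_lit 693088069903320580548))⟩,
    ⟨nat_lit 0, nat_lit 8, nat_lit 9, (.ofNat (nat_lit 8)), (.ofNat (nat_lit 247512832)), (.ofNat (nat_lit 2137936794767814788306446163200)), (.ofNat (nat_lit 0)), (.ofNat (nat_lit 32891335304120227512209738240)), (.ofNat (nat_lit 247512816)), (.ofNat (nat_lit 247512848)), (.negSucc (nat_lit 7508454090619306289314)), (.ofNat (nat_lit 7508454090619306289315)), (.negSucc (nat_lit 7508454090619306289314)), (.ofNat (nat_lit 7508454090619306289315)), (.ofNat (nat_lit 693088069903320580548))⟩,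
    ⟨nat_lit 1, nat_lit 9, nat_lit 10, (.ofNat (nat_lit 8)), (.ofNat (nat_lit 1732419968)), (.ofNat (nat_lit 13287293854256813356679970215040)), (.ofNat (nat_lit 0)), (.ofNat (nat_lit 204419905450104820870774403328)), (.ofNat (nat_lit 1732419952)), (.ofNat (nat_lit 1732419984)), (.ofNat (nat_lit 7508454090619306289315)), (.negSucc (nat_lit 7508454090619306289314)), (.negSucc (nat_lit 7508454090619306289314)), (.ofNat (nat_lit 7508454090619306289315)), (.ofNat (nat_lit 693088069903320580548))⟩,
    ⟨nat_lit 0, nat_lit 20, nat_lit 10, (.ofNat (nat_lit 8)), (.ofNat (nat_lit 959477952)), (.ofNat (nat_lit 19090893496103546648464585574080)), (.ofNat (nat_lit 0)), (.ofNat (nat_lit 293706053786208409974617987456)), (.ofNat (nat_lit 959477936)), (.ofNat (nat_lit 959477968)), (.ofNat (nat_lit 7508454090619306289315)), (.negSucc (nat_lit 7508454090619306289314)), (.negSucc (nat_lit 7508454090619306289314)), (.ofNat (nat_lit 7508454090619306289315)), (.ofNat (nat_lit 693088069903320580548))⟩,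
    ⟨nat_lit 1, nat_lit 11, nat_lit 19, (.ofNat (nat_lit 8)), (.negSucc (nat_lit 1596478591)), (.ofNat (nat_lit 24398907296587821346289464995840)), (.ofNat (nat_lit 0)), (.ofNat (nat_lit 375367804562889559171434405888)), (.negSucc (nat_lit 1596478607)), (.negSucc (nat_lit 1596478575)), (.ofNat (nat_lit 7508454090619306289315)), (.negSucc (nat_lit 7508454090619306289314)), (.negSucc (nat_lit 7508454090619306289314)), (.ofNat (nat_lit 7508454090619306289315)), (.ofNat (nat_lit 693088069903320580548))⟩,
    ⟨nat_lit 0, nat_lit 12, nat_lit 11, (.ofNat (nat_lit 8)), (.negSucc (nat_lit 2140230463)), (.ofNat (nat_lit 20316171328987515912133060148160)), (.ofNat (nat_lit 0)), (.ofNat (nat_lit 312556481984423321723250774912)), (.negSucc (nat_lit 2140230479)), (.negSucc (nat_lit 2140230447)), (.negSucc (nat_lit 7508454090619306289314)), (.ofNat (nat_lit 7508454090619306289315)), (.negSucc (nat_lit 7508454090619306289314)), (.ofNat (nat_lit 7508454090619306289315)), (.ofNat (nat_lit 693088069903320580548))⟩,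
    ⟨nat_lit 0, nat_lit 13, nat_lit 12, (.ofNat (nat_lit 8)), (.negSucc (nat_lit 3062112255)), (.ofNat (nat_lit 27238078441197372383923642800640)), (.ofNat (nat_lit 0)), (.ofNat (nat_lit 419047360633805728980929205248)), (.negSucc (nat_lit 3062112271)), (.negSucc (nat_lit 3062112239)), (.ofNat (nat_lit 7508454090619306289315)), (.negSucc (nat_lit 7508454090619306289314)), (.negSucc (nat_lit 7508454090619306289314)), (.ofNat (nat_lit 7508454090619306289315)), (.ofNat (nat_lit 693088069903320580548))⟩,
    ⟨nat_lit 0, nat_lit 6, nat_lit 13, (.ofNat (nat_lit 8)), (.negSucc (nat_lit 3212812287)), (.ofNat (nat_lit 26106554169470512026306071042560)), (.ofNat (nat_lit 0)), (.ofNat (nat_lit 401639294914930954248455508992)), (.negSucc (nat_lit 3212812303)), (.negSucc (nat_lit 3212812271)), (.negSucc (nat_lit 7508454090619306289314)), (.ofNat (nat_lit 7508454090619306289315)), (.negSucc (nat_lit 7508454090619306289314)), (.ofNat (nat_lit 7508454090619306289315)), (.ofNat (nat_lit 693088069903320580548))⟩,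
    ⟨nat_lit 0, nat_lit 21, nat_lit 14, (.ofNat (nat_lit 8)), (.negSucc (nat_lit 126894975)), (.ofNat (nat_lit 1433048410692154109857181640960)), (.ofNat (nat_lit 0)), (.ofNat (nat_lit 22046898626033140151516815872)), (.negSucc (nat_lit 126894991)), (.negSucc (nat_lit 126894959)), (.negSucc (nat_lit 7508454090619306289314)), (.ofNat (nat_lit 7508454090619306289315)), (.negSucc (nat_lit 7508454090619306289314)), (.ofNat (nat_lit 7508454090619306289315)), (.ofNat (nat_lit 693088069903320580548))⟩,
    ⟨nat_lit 1, nat_lit 14, nat_lit 15, (.ofNat (nat_lit 8)), (.ofNat (nat_lit 1444929344)), (.ofNat (nat_lit 13235019155931063596931454781760)), (.ofNat (nat_lit 0)), (.ofNat (nat_lit 203615679322016363028494370432)), (.ofNat (nat_lit 1444929328)), (.ofNat (nat_lit 1444929360)), (.ofNat (nat_lit 7508454090619306289315)), (.negSucc (nat_lit 7508454090619306289314)), (.negSucc (nat_lit 7508454090619306289314)), (.ofNat (nat_lit 7508454090619306289315)), (.ofNat (nat_lit 693088069903320580548))⟩,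
    ⟨nat_lit 0, nat_lit 16, nat_lit 15, (.ofNat (nat_lit 8)), (.ofNat (nat_lit 21861632)), (.ofNat (nat_lit 23920057739325720461094161879040)), (.ofNat (nat_lit 0)), (.ofNat (nat_lit 368000888297318776322320048128)), (.ofNat (nat_lit 21861616)), (.ofNat (nat_lit 21861648)), (.ofNat (nat_lit 7508454090619306289315)), (.negSucc (nat_lit 7508454090619306289314)), (.negSucc (nat_lit 7508454090619306289314)), (.ofNat (nat_lit 7508454090619306289315)), (.ofNat (nat_lit 693088069903320580548))⟩,
    ⟨nat_lit 0, nat_lit 17, nat_lit 16, (.ofNat (nat_lit 8)), (.negSucc (nat_lit 1400622719)), (.ofNat (nat_lit 13239399287709367275448389580160)), (.ofNat (nat_lit 0)), (.ofNat (nat_lit 203683065964759496544139117312)), (.negSucc (nat_lit 1400622735)), (.negSucc (nat_lit 1400622703)), (.negSucc (nat_lit 7508454090619306289314)), (.ofNat (nat_lit 7508454090619306289315)), (.negSucc (nat_lit 7508454090619306289314)), (.ofNat (nat_lit 7508454090619306289315)), (.ofNat (nat_lit 693088069903320580548))⟩,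
    ⟨nat_lit 2, nat_lit 17, nat_lit 18, (.ofNat (nat_lit 8)), (.negSucc (nat_lit 3223785471)), (.ofNat (nat_lit 26928533110828519114206833175040)), (.ofNat (nat_lit 0)), (.ofNat (nat_lit 414285124781977217139160675328)), (.negSucc (nat_lit 3223785487)), (.negSucc (nat_lit 3223785455)), (.negSucc (nat_lit 7508454090619306289314)), (.ofNat (nat_lit 7508454090619306289315)), (.negSucc (nat_lit 7508454090619306289314)), (.ofNat (nat_lit 7508454090619306289315)), (.ofNat (nat_lit 693088069903320580548))⟩,
    ⟨nat_lit 0, nat_lit 18, nat_lit 19, (.ofNat (nat_lit 8)), (.negSucc (nat_lit 2578583871)), (.ofNat (nat_lit 31772999703622640522962934079040)), (.ofNat (nat_lit 0)), (.ofNat (nat_lit 488815380055732931119577088128)), (.negSucc (nat_lit 2578583887)), (.negSucc (nat_lit 2578583855)), (.ofNat (nat_lit 7508454090619306289315)), (.negSucc (nat_lit 7508454090619306289314)), (.negSucc (nat_lit 7508454090619306289314)), (.ofNat (nat_lit 7508454090619306289315)), (.ofNat (nat_lit 693088069903320580548))⟩,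
    ⟨nat_lit 2, nat_lit 21, nat_lit 7, (.ofNat (nat_lit 8)), (.negSucc (nat_lit 3281211199)), (.ofNat (nat_lit 25117086965891798145868723987520)), (.ofNat (nat_lit 0)), (.ofNat (nat_lit 386416722552181509934126017664)), (.negSucc (nat_lit 3281211215)), (.negSucc (nat_lit 3281211183)), (.negSucc (nat_lit 7508454090619306289314)), (.ofNat (nat_lit 7508454090619306289315)), (.negSucc (nat_lit 7508454090619306289314)), (.ofNat (nat_lit 7508454090619306289315)), (.ofNat (nat_lit 693088069903320580548))⟩]
  es := [
    ⟨nat_lit 1, nat_lit 0, (.negSucc (nat_lit 3383684927)), (.negSucc (nat_lit 735455487)), (.negSucc (nat_lit 3383684911)), (.negSucc (nat_lit 735455503)), (.negSucc (nat_lit 7508454090619306289314)), (.negSucc (nat_lit 115514678317220096757)), (.ofNat (nat_lit 12960458582555015074886092032))⟩,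
    ⟨nat_lit 1, nat_lit 2, (.negSucc (nat_lit 3383684927)), (.negSucc (nat_lit 3228381183)), (.negSucc (nat_lit 3383684911)), (.negSucc (nat_lit 3228381199)), (.ofNat (nat_lit 7508454090619306289315)), (.ofNat (nat_lit 115514678317220096758)), (.ofNat (nat_lit 794691010552047103592378618880))⟩,
    ⟨nat_lit 2, nat_lit 3, (.negSucc (nat_lit 3228381183)), (.negSucc (nat_lit 2194821951)), (.negSucc (nat_lit 3228381167)), (.negSucc (nat_lit 2194821967)), (.negSucc (nat_lit 7508454090619306289314)), (.negSucc (nat_lit 115514836257567413396)), (.ofNat (nat_lit 48839672750149345009767695360))⟩,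
    ⟨nat_lit 3, nat_lit 4, (.negSucc (nat_lit 2194821951)), (.negSucc (nat_lit 625111231)), (.negSucc (nat_lit 2194821935)), (.negSucc (nat_lit 625111247)), (.ofNat (nat_lit 7508454090619306289315)), (.ofNat (nat_lit 115514674857786701878)), (.ofNat (nat_lit 555908315305956561468876212160))⟩,
    ⟨nat_lit 5, nat_lit 4, (.negSucc (nat_lit 1693347199)), (.negSucc (nat_lit 625111231)), (.negSucc (nat_lit 1693347183)), (.negSucc (nat_lit 625111247)), (.negSucc (nat_lit 7508454090619306289314)), (.negSucc (nat_lit 115514836213994603668)), (.ofNat (nat_lit 411489173011517709123822608256))⟩,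
    ⟨nat_lit 6, nat_lit 5, (.negSucc (nat_lit 3342389247)), (.negSucc (nat_lit 1693347199)), (.negSucc (nat_lit 3342389231)), (.negSucc (nat_lit 1693347215)), (.ofNat (nat_lit 7508454090619306289315)), (.ofNat (nat_lit 115514678317220096758)), (.ofNat (nat_lit 802702354560309434690721862656))⟩,
    ⟨nat_lit 6, nat_lit 14, (.negSucc (nat_lit 3342389247)), (.negSucc (nat_lit 3212812287)), (.negSucc (nat_lit 3342389231)), (.negSucc (nat_lit 3212812303)), (.negSucc (nat_lit 7508454090619306289314)), (.negSucc (nat_lit 115514678317220096757)), (.ofNat (nat_lit 30512316972999065383804146688))⟩,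
    ⟨nat_lit 21, nat_lit 7, (.negSucc (nat_lit 3281211199)), (.negSucc (nat_lit 3047067647)), (.negSucc (nat_lit 3281211183)), (.negSucc (nat_lit 3047067663)), (.ofNat (nat_lit 7508454090619306289315)), (.ofNat (nat_lit 115514678317220096758)), (.ofNat (nat_lit 765444778811041244281559307264))⟩,
    ⟨nat_lit 7, nat_lit 8, (.negSucc (nat_lit 3047067647)), (.ofNat (nat_lit 247512832)), (.negSucc (nat_lit 3047067631)), (.ofNat (nat_lit 247512816)), (.negSucc (nat_lit 7508454090619306289314)), (.negSucc (nat_lit 115514678317220096757)), (.ofNat (nat_lit 61482700471984368028096336896))⟩,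
    ⟨nat_lit 8, nat_lit 9, (.ofNat (nat_lit 247512832)), (.ofNat (nat_lit 1732419968)), (.ofNat (nat_lit 247512848)), (.ofNat (nat_lit 1732419952)), (.ofNat (nat_lit 7508454090619306289315)), (.ofNat (nat_lit 115514678317220096758)), (.ofNat (nat_lit 4299970136256086996323139584))⟩,
    ⟨nat_lit 10, nat_lit 9, (.ofNat (nat_lit 959477952)), (.ofNat (nat_lit 1732419968)), (.ofNat (nat_lit 959477968)), (.ofNat (nat_lit 1732419952)), (.negSucc (nat_lit 7508454090619306289314)), (.negSucc (nat_lit 115514678317220096757)), (.ofNat (nat_lit 404539840763953554745225667072))⟩,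
    ⟨nat_lit 12, nat_lit 11, (.negSucc (nat_lit 2140230463)), (.negSucc (nat_lit 1596478591)), (.negSucc (nat_lit 2140230447)), (.negSucc (nat_lit 1596478607)), (.ofNat (nat_lit 7508454090619306289315)), (.ofNat (nat_lit 115514678317220096758)), (.ofNat (nat_lit 559784515558098028597750010624))⟩,
    ⟨nat_lit 13, nat_lit 12, (.negSucc (nat_lit 3062112255)), (.negSucc (nat_lit 2140230463)), (.negSucc (nat_lit 3062112239)), (.negSucc (nat_lit 2140230479)), (.negSucc (nat_lit 7508454090619306289314)), (.negSucc (nat_lit 115514678317220096757)), (.ofNat (nat_lit 65328448410748614848751539200))⟩,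
    ⟨nat_lit 14, nat_lit 13, (.negSucc (nat_lit 3212812287)), (.negSucc (nat_lit 3062112255)), (.negSucc (nat_lit 3212812271)), (.negSucc (nat_lit 3062112271)), (.ofNat (nat_lit 7508454090619306289315)), (.ofNat (nat_lit 115514678317220096758)), (.ofNat (nat_lit 772766272856862843113106871296))⟩,
    ⟨nat_lit 15, nat_lit 16, (.negSucc (nat_lit 126894975)), (.ofNat (nat_lit 1444929344)), (.negSucc (nat_lit 126894959)), (.ofNat (nat_lit 1444929328)), (.ofNat (nat_lit 7508454090619306289315)), (.ofNat (nat_lit 115514678317220096758)), (.ofNat (nat_lit 36705130958744504716340903680))⟩,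
    ⟨nat_lit 17, nat_lit 16, (.ofNat (nat_lit 21861632)), (.ofNat (nat_lit 1444929344)), (.ofNat (nat_lit 21861648)), (.ofNat (nat_lit 1444929328)), (.negSucc (nat_lit 7508454090619306289314)), (.negSucc (nat_lit 115514678317220096757)), (.ofNat (nat_lit 370526227685288221340647837184))⟩,
    ⟨nat_lit 18, nat_lit 17, (.negSucc (nat_lit 1400622719)), (.ofNat (nat_lit 21861632)), (.negSucc (nat_lit 1400622703)), (.ofNat (nat_lit 21861616)), (.ofNat (nat_lit 7508454090619306289315)), (.ofNat (nat_lit 115514678317220096758)), (.ofNat (nat_lit 365475548909349331303992259072))⟩,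
    ⟨nat_lit 19, nat_lit 18, (.negSucc (nat_lit 3223785471)), (.negSucc (nat_lit 1400622719)), (.negSucc (nat_lit 3223785455)), (.negSucc (nat_lit 1400622735)), (.negSucc (nat_lit 7508454090619306289314)), (.negSucc (nat_lit 115514678317220096757)), (.ofNat (nat_lit 41890583020169661784285975552))⟩,
    ⟨nat_lit 19, nat_lit 20, (.negSucc (nat_lit 3223785471)), (.negSucc (nat_lit 2578583871)), (.negSucc (nat_lit 3223785455)), (.negSucc (nat_lit 2578583887)), (.ofNat (nat_lit 7508454090619306289315)), (.ofNat (nat_lit 115514678317220096758)), (.ofNat (nat_lit 786679666543784772494035375104))⟩,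
    ⟨nat_lit 20, nat_lit 11, (.negSucc (nat_lit 2578583871)), (.negSucc (nat_lit 1596478591)), (.negSucc (nat_lit 2578583855)), (.negSucc (nat_lit 1596478607)), (.negSucc (nat_lit 7508454090619306289314)), (.negSucc (nat_lit 115514678317220096757)), (.ofNat (nat_lit 190951093567681089745118801152))⟩,
    ⟨nat_lit 0, nat_lit 10, (.negSucc (nat_lit 735455487)), (.ofNat (nat_lit 959477952)), (.negSucc (nat_lit 735455471)), (.ofNat (nat_lit 959477936)), (.ofNat (nat_lit 7508454090619306289315)), (.ofNat (nat_lit 115514678317220096758)), (.ofNat (nat_lit 182872266808463265204010307840))⟩,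
    ⟨nat_lit 21, nat_lit 15, (.negSucc (nat_lit 3281211199)), (.negSucc (nat_lit 126894975)), (.negSucc (nat_lit 3281211183)), (.negSucc (nat_lit 126894991)), (.negSucc (nat_lit 7508454090619306289314)), (.negSucc (nat_lit 115514678317220096757)), (.ofNat (nat_lit 7388666293321775586692728064))⟩]

theorem ok92 : stOK 21 21 S92 = true := by decide +kernel

def S93 : SD where
  vs := [
    ⟨nat_lit 0, nat_lit 0, nat_lit 20, (.ofNat (nat_lit 8)), (.negSucc (nat_lit 735717631)), (.ofNat (nat_lit 6370468463775488031385995954560)), (.negSucc (nat_lit 262143)), (.ofNat (nat_lit 5904888567393922283718574080)), (.negSucc (nat_lit 735717647)), (.negSucc (nat_lit 735717615)), (.negSucc (nat_lit 7508454090619306289314)), (.ofNat (nat_lit 7508454090619306289315)), (.negSucc (nat_lit 7508454090619306289314)), (.ofNat (nat_lit 7508454090619306289315)), (.ofNat (nat_lit 0))⟩,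
    ⟨nat_lit 2, nat_lit 0, nat_lit 1, (.ofNat (nat_lit 8)), (.negSucc (nat_lit 4284034047)), (.ofNat (nat_lit 33012839372302324144294455849600)), (.negSucc (nat_lit 900349119)), (.ofNat (nat_lit 6764166625427755287451038035520)), (.negSucc (nat_lit 4284034063)), (.negSucc (nat_lit 4284034031)), (.negSucc (nat_lit 7508454090619306289314)), (.ofNat (nat_lit 7508454090619306289315)), (.negSucc (nat_lit 7508454090619306289314)), (.ofNat (nat_lit 7508454090619306289315)), (.ofNat (nat_lit 0))⟩,
    ⟨nat_lit 0, nat_lit 1, nat_lit 2, (.ofNat (nat_lit 8)), (.negSucc (nat_lit 4127943871)), (.ofNat (nat_lit 34184835292795011611991541119040)), (.negSucc (nat_lit 899562687)), (.ofNat (nat_lit 6770071513995149209734756609600)), (.negSucc (nat_lit 4127943887)), (.negSucc (nat_lit 4127943855)), (.ofNat (nat_lit 7508454090619306289315)), (.negSucc (nat_lit 7508454090619306289314)), (.negSucc (nat_lit 7508454090619306289314)), (.ofNat (nat_lit 7508454090619306289315)), (.ofNat (nat_lit 0))⟩,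
    ⟨nat_lit 0, nat_lit 2, nat_lit 3, (.ofNat (nat_lit 8)), (.negSucc (nat_lit 2194821951)), (.ofNat (nat_lit 19670078104905164248922852834240)), (.ofNat (nat_lit 0)), (.ofNat (nat_lit 15746369513050459423249530880)), (.negSucc (nat_lit 2194821967)), (.negSucc (nat_lit 2194821935)), (.negSucc (nat_lit 7508454090619306289314)), (.ofNat (nat_lit 7508454090619306289315)), (.negSucc (nat_lit 7508454090619306289314)), (.ofNat (nat_lit 7508454090619306289315)), (.ofNat (nat_lit 0))⟩,
    ⟨nat_lit 1, nat_lit 3, nat_lit 4, (.ofNat (nat_lit 8)), (.negSucc (nat_lit 623538367)), (.ofNat (nat_lit 31467988758712928614791466939200)), (.ofNat (nat_lit 1572864)), (.ofNat (nat_lit 27556146647838303990686679040)), (.negSucc (nat_lit 623538383)), (.negSucc (nat_lit 623538351)), (.ofNat (nat_lit 7508454090619306289315)), (.negSucc (nat_lit 7508454090619306289314)), (.negSucc (nat_lit 7508454090619306289314)), (.ofNat (nat_lit 7508454090619306289315)), (.ofNat (nat_lit 0))⟩,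
    ⟨nat_lit 0, nat_lit 5, nat_lit 4, (.ofNat (nat_lit 8)), (.negSucc (nat_lit 2591599167)), (.ofNat (nat_lit 46245082923060433045985777291200)), (.negSucc (nat_lit 898251967)), (.ofNat (nat_lit 6783849587319068361730099949120)), (.negSucc (nat_lit 2591599183)), (.negSucc (nat_lit 2591599151)), (.ofNat (nat_lit 7508454090619306289315)), (.negSucc (nat_lit 7508454090619306289314)), (.negSucc (nat_lit 7508454090619306289314)), (.ofNat (nat_lit 7508454090619306289315)), (.ofNat (nat_lit 0))⟩,
    ⟨nat_lit 2, nat_lit 6, nat_lit 5, (.ofNat (nat_lit 8)), (.negSucc (nat_lit 4242738367)), (.ofNat (nat_lit 33847580042638544154891239643200)), (.negSucc (nat_lit 900349119)), (.ofNat (nat_lit 6768103217806017902306850418240)), (.negSucc (nat_lit 4242738383)), (.negSucc (nat_lit 4242738351)), (.negSucc (nat_lit 7508454090619306289314)), (.ofNat (nat_lit 7508454090619306289315)), (.negSucc (nat_lit 7508454090619306289314)), (.ofNat (nat_lit 7508454090619306289315)), (.ofNat (nat_lit 0))⟩,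
    ⟨nat_lit 0, nat_lit 7, nat_lit 8, (.ofNat (nat_lit 8)), (.negSucc (nat_lit 3047067647)), (.ofNat (nat_lit 26894826038589645474503939648000)), (.ofNat (nat_lit 0)), (.ofNat (nat_lit 19682961891313074279061913600)), (.negSucc (nat_lit 3047067663)), (.negSucc (nat_lit 3047067631)), (.ofNat (nat_lit 7508454090619306289315)), (.negSucc (nat_lit 7508454090619306289314)), (.negSucc (nat_lit 7508454090619306289314)), (.ofNat (nat_lit 7508454090619306289315)), (.ofNat (nat_lit 0))⟩,
    ⟨nat_lit 0, nat_lit 8, nat_lit 9, (.ofNat (nat_lit 8)), (.ofNat (nat_lit 248823552)), (.ofNat (nat_lit 2147778275713471325445977120000)), (.ofNat (nat_lit 1310720)), (.ofNat (nat_lit 9841480945656537139530956800)), (.ofNat (nat_lit 248823536)), (.ofNat (nat_lit 248823568)), (.negSucc (nat_lit 7508454090619306289314)), (.ofNat (nat_lit 7508454090619306289315)), (.negSucc (nat_lit 7508454090619306289314)), (.ofNat (nat_lit 7508454090619306289315)), (.ofNat (nat_lit 0))⟩,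
    ⟨nat_lit 1, nat_lit 9, nat_lit 10, (.ofNat (nat_lit 8)), (.ofNat (nat_lit 1734779264)), (.ofNat (nat_lit 13305008519958995123531125937280)), (.ofNat (nat_lit 2359296)), (.ofNat (nat_lit 17714665702181766851155722240)), (.ofNat (nat_lit 1734779248)), (.ofNat (nat_lit 1734779280)), (.ofNat (nat_lit 7508454090619306289315)), (.negSucc (nat_lit 7508454090619306289314)), (.negSucc (nat_lit 7508454090619306289314)), (.ofNat (nat_lit 7508454090619306289315)), (.ofNat (nat_lit 0))⟩,
    ⟨nat_lit 0, nat_lit 20, nat_lit 10, (.ofNat (nat_lit 8)), (.ofNat (nat_lit 961312960)), (.ofNat (nat_lit 19112544754183991030171553679040)), (.ofNat (nat_lit 1835008)), (.ofNat (nat_lit 21651258080444381706968104960)), (.ofNat (nat_lit 961312944)), (.ofNat (nat_lit 961312976)), (.ofNat (nat_lit 7508454090619306289315)), (.negSucc (nat_lit 7508454090619306289314)), (.negSucc (nat_lit 7508454090619306289314)), (.ofNat (nat_lit 7508454090619306289315)), (.ofNat (nat_lit 0))⟩,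
    ⟨nat_lit 1, nat_lit 11, nat_lit 19, (.ofNat (nat_lit 8)), (.negSucc (nat_lit 2494468415)), (.ofNat (nat_lit 31168978810582970556024221605440)), (.negSucc (nat_lit 897989823)), (.ofNat (nat_lit 6770071513995149209734756609600)), (.negSucc (nat_lit 2494468431)), (.negSucc (nat_lit 2494468399)), (.ofNat (nat_lit 7508454090619306289315)), (.negSucc (nat_lit 7508454090619306289314)), (.negSucc (nat_lit 7508454090619306289314)), (.ofNat (nat_lit 7508454090619306289315)), (.ofNat (nat_lit 0))⟩,
    ⟨nat_lit 0, nat_lit 12, nat_lit 11, (.ofNat (nat_lit 8)), (.negSucc (nat_lit 3038482431)), (.ofNat (nat_lit 27084274546793533814439910566400)), (.negSucc (nat_lit 898251967)), (.ofNat (nat_lit 6768103217806017902306850418240)), (.negSucc (nat_lit 3038482447)), (.negSucc (nat_lit 3038482415)), (.negSucc (nat_lit 7508454090619306289314)), (.ofNat (nat_lit 7508454090619306289315)), (.negSucc (nat_lit 7508454090619306289314)), (.ofNat (nat_lit 7508454090619306289315)), (.ofNat (nat_lit 0))⟩,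
    ⟨nat_lit 0, nat_lit 13, nat_lit 12, (.ofNat (nat_lit 8)), (.negSucc (nat_lit 3960626367)), (.ofNat (nat_lit 34008149955192521593658399410240)), (.negSucc (nat_lit 898514111)), (.ofNat (nat_lit 6770071513995149209734756609600)), (.negSucc (nat_lit 3960626383)), (.negSucc (nat_lit 3960626351)), (.ofNat (nat_lit 7508454090619306289315)), (.negSucc (nat_lit 7508454090619306289314)), (.negSucc (nat_lit 7508454090619306289314)), (.ofNat (nat_lit 7508454090619306289315)), (.ofNat (nat_lit 0))⟩,
    ⟨nat_lit 0, nat_lit 6, nat_lit 13, (.ofNat (nat_lit 8)), (.negSucc (nat_lit 4112374975)), (.ofNat (nat_lit 32868752498709136006329202886720)), (.negSucc (nat_lit 899562687)), (.ofNat (nat_lit 6762198329238623980023131844160)), (.negSucc (nat_lit 4112374991)), (.negSucc (nat_lit 4112374959)), (.negSucc (nat_lit 7508454090619306289314)), (.ofNat (nat_lit 7508454090619306289315)), (.negSucc (nat_lit 7508454090619306289314)), (.ofNat (nat_lit 7508454090619306289315)), (.ofNat (nat_lit 0))⟩,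
    ⟨nat_lit 0, nat_lit 21, nat_lit 14, (.ofNat (nat_lit 8)), (.negSucc (nat_lit 127157119)), (.ofNat (nat_lit 1435016706881285417285087832320)), (.negSucc (nat_lit 262143)), (.ofNat (nat_lit 1968296189131307427906191360)), (.negSucc (nat_lit 127157135)), (.negSucc (nat_lit 127157103)), (.negSucc (nat_lit 7508454090619306289314)), (.ofNat (nat_lit 7508454090619306289315)), (.negSucc (nat_lit 7508454090619306289314)), (.ofNat (nat_lit 7508454090619306289315)), (.ofNat (nat_lit 0))⟩,
    ⟨nat_lit 1, nat_lit 14, nat_lit 15, (.ofNat (nat_lit 8)), (.ofNat (nat_lit 1446764352)), (.ofNat (nat_lit 13252733821633245363782610504000)), (.ofNat (nat_lit 1835008)), (.ofNat (nat_lit 17714665702181766851155722240)), (.ofNat (nat_lit 1446764336)), (.ofNat (nat_lit 1446764368)), (.ofNat (nat_lit 7508454090619306289315)), (.negSucc (nat_lit 7508454090619306289314)), (.negSucc (nat_lit 7508454090619306289314)), (.ofNat (nat_lit 7508454090619306289315)), (.ofNat (nat_lit 0))⟩,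
    ⟨nat_lit 0, nat_lit 16, nat_lit 15, (.ofNat (nat_lit 8)), (.ofNat (nat_lit 23172352)), (.ofNat (nat_lit 23941708997406164842801129984000)), (.ofNat (nat_lit 1310720)), (.ofNat (nat_lit 21651258080444381706968104960)), (.ofNat (nat_lit 23172336)), (.ofNat (nat_lit 23172368)), (.ofNat (nat_lit 7508454090619306289315)), (.negSucc (nat_lit 7508454090619306289314)), (.negSucc (nat_lit 7508454090619306289314)), (.ofNat (nat_lit 7508454090619306289315)), (.ofNat (nat_lit 0))⟩,
    ⟨nat_lit 0, nat_lit 17, nat_lit 16, (.ofNat (nat_lit 8)), (.negSucc (nat_lit 1400622719)), (.ofNat (nat_lit 13251209064844155120015826728320)), (.ofNat (nat_lit 0)), (.ofNat (nat_lit 11809777134787844567437148160)), (.negSucc (nat_lit 1400622735)), (.negSucc (nat_lit 1400622703)), (.negSucc (nat_lit 7508454090619306289314)), (.ofNat (nat_lit 7508454090619306289315)), (.negSucc (nat_lit 7508454090619306289314)), (.ofNat (nat_lit 7508454090619306289315)), (.ofNat (nat_lit 0))⟩,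
    ⟨nat_lit 2, nat_lit 17, nat_lit 18, (.ofNat (nat_lit 8)), (.negSucc (nat_lit 4123348159)), (.ofNat (nat_lit 33694668032445405709085777401920)), (.negSucc (nat_lit 899562687)), (.ofNat (nat_lit 6766134921616886594878944226880)), (.negSucc (nat_lit 4123348175)), (.negSucc (nat_lit 4123348143)), (.negSucc (nat_lit 7508454090619306289314)), (.ofNat (nat_lit 7508454090619306289315)), (.negSucc (nat_lit 7508454090619306289314)), (.ofNat (nat_lit 7508454090619306289315)), (.ofNat (nat_lit 0))⟩,
    ⟨nat_lit 0, nat_lit 18, nat_lit 19, (.ofNat (nat_lit 8)), (.negSucc (nat_lit 3477097983)), (.ofNat (nat_lit 38547007809996052347553503071360)), (.negSucc (nat_lit 898514111)), (.ofNat (nat_lit 6774008106373411824590568992320)), (.negSucc (nat_lit 3477097999)), (.negSucc (nat_lit 3477097967)), (.ofNat (nat_lit 7508454090619306289315)), (.negSucc (nat_lit 7508454090619306289314)), (.negSucc (nat_lit 7508454090619306289314)), (.ofNat (nat_lit 7508454090619306289315)), (.ofNat (nat_lit 0))⟩,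
    ⟨nat_lit 2, nat_lit 21, nat_lit 7, (.ofNat (nat_lit 8)), (.negSucc (nat_lit 3282521919)), (.ofNat (nat_lit 25126928446837454683008254944320)), (.negSucc (nat_lit 1310719)), (.ofNat (nat_lit 9841480945656537139530956800)), (.negSucc (nat_lit 3282521935)), (.negSucc (nat_lit 3282521903)), (.negSucc (nat_lit 7508454090619306289314)), (.ofNat (nat_lit 7508454090619306289315)), (.negSucc (nat_lit 7508454090619306289314)), (.ofNat (nat_lit 7508454090619306289315)), (.ofNat (nat_lit 0))⟩]
  es := [
    ⟨nat_lit 1, nat_lit 0, (.negSucc (nat_lit 4284034047)), (.negSucc (nat_lit 735717631)), (.negSucc (nat_lit 4284034031)), (.negSucc (nat_lit 735717647)), (.negSucc (nat_lit 7508454090619306289314)), (.ofNat (nat_lit 0)), (.ofNat (nat_lit 3936592378262614855812382720))⟩,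
    ⟨nat_lit 1, nat_lit 2, (.negSucc (nat_lit 4284034047)), (.negSucc (nat_lit 4127943871)), (.negSucc (nat_lit 4284034031)), (.negSucc (nat_lit 4127943887)), (.ofNat (nat_lit 7508454090619306289315)), (.ofNat (nat_lit 0)), (.ofNat (nat_lit 13524396658477247960046263688320))⟩,
    ⟨nat_lit 2, nat_lit 3, (.negSucc (nat_lit 4127943871)), (.negSucc (nat_lit 2194821951)), (.negSucc (nat_lit 4127943855)), (.negSucc (nat_lit 2194821967)), (.negSucc (nat_lit 7508454090619306289314)), (.ofNat (nat_lit 0)), (.ofNat (nat_lit 15746369513050459423249530880))⟩,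
    ⟨nat_lit 3, nat_lit 4, (.negSucc (nat_lit 2194821951)), (.negSucc (nat_lit 623538367)), (.negSucc (nat_lit 2194821935)), (.negSucc (nat_lit 623538383)), (.ofNat (nat_lit 7508454090619306289315)), (.ofNat (nat_lit 0)), (.ofNat (nat_lit 15746369513050459423249530880))⟩,
    ⟨nat_lit 5, nat_lit 4, (.negSucc (nat_lit 2591599167)), (.negSucc (nat_lit 623538367)), (.negSucc (nat_lit 2591599151)), (.negSucc (nat_lit 623538383)), (.negSucc (nat_lit 7508454090619306289314)), (.ofNat (nat_lit 0)), (.ofNat (nat_lit 39365923782626148558123827200))⟩,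
    ⟨nat_lit 6, nat_lit 5, (.negSucc (nat_lit 4242738367)), (.negSucc (nat_lit 2591599167)), (.negSucc (nat_lit 4242738351)), (.negSucc (nat_lit 2591599183)), (.ofNat (nat_lit 7508454090619306289315)), (.ofNat (nat_lit 0)), (.ofNat (nat_lit 13528333250855510574902076071040))⟩,
    ⟨nat_lit 6, nat_lit 14, (.negSucc (nat_lit 4242738367)), (.negSucc (nat_lit 4112374975)), (.negSucc (nat_lit 4242738351)), (.negSucc (nat_lit 4112374991)), (.negSucc (nat_lit 7508454090619306289314)), (.ofNat (nat_lit 0)), (.ofNat (nat_lit 7873184756525229711624765440))⟩,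
    ⟨nat_lit 21, nat_lit 7, (.negSucc (nat_lit 3282521919)), (.negSucc (nat_lit 3047067647)), (.negSucc (nat_lit 3282521903)), (.negSucc (nat_lit 3047067663)), (.ofNat (nat_lit 7508454090619306289315)), (.ofNat (nat_lit 0)), (.ofNat (nat_lit 19682961891313074279061913600))⟩,
    ⟨nat_lit 7, nat_lit 8, (.negSucc (nat_lit 3047067647)), (.ofNat (nat_lit 248823552)), (.negSucc (nat_lit 3047067631)), (.ofNat (nat_lit 248823536)), (.negSucc (nat_lit 7508454090619306289314)), (.ofNat (nat_lit 0)), (.ofNat (nat_lit 19682961891313074279061913600))⟩,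
    ⟨nat_lit 8, nat_lit 9, (.ofNat (nat_lit 248823552)), (.ofNat (nat_lit 1734779264)), (.ofNat (nat_lit 248823568)), (.ofNat (nat_lit 1734779248)), (.ofNat (nat_lit 7508454090619306289315)), (.ofNat (nat_lit 0)), (.ofNat (nat_lit 0))⟩,
    ⟨nat_lit 10, nat_lit 9, (.ofNat (nat_lit 961312960)), (.ofNat (nat_lit 1734779264)), (.ofNat (nat_lit 961312976)), (.ofNat (nat_lit 1734779248)), (.negSucc (nat_lit 7508454090619306289314)), (.ofNat (nat_lit 0)), (.ofNat (nat_lit 35429331404363533702311444480))⟩,
    ⟨nat_lit 12, nat_lit 11, (.negSucc (nat_lit 3038482431)), (.negSucc (nat_lit 2494468415)), (.negSucc (nat_lit 3038482415)), (.negSucc (nat_lit 2494468431)), (.ofNat (nat_lit 7508454090619306289315)), (.ofNat (nat_lit 0)), (.ofNat (nat_lit 13512586881342460115478826540160))⟩,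
    ⟨nat_lit 13, nat_lit 12, (.negSucc (nat_lit 3960626367)), (.negSucc (nat_lit 3038482431)), (.negSucc (nat_lit 3960626351)), (.negSucc (nat_lit 3038482447)), (.negSucc (nat_lit 7508454090619306289314)), (.ofNat (nat_lit 0)), (.ofNat (nat_lit 23619554269575689134874296320))⟩,
    ⟨nat_lit 14, nat_lit 13, (.negSucc (nat_lit 4112374975)), (.negSucc (nat_lit 3960626367)), (.negSucc (nat_lit 4112374959)), (.negSucc (nat_lit 3960626383)), (.ofNat (nat_lit 7508454090619306289315)), (.ofNat (nat_lit 0)), (.ofNat (nat_lit 13516523473720722730334638922880))⟩,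
    ⟨nat_lit 15, nat_lit 16, (.negSucc (nat_lit 127157119)), (.ofNat (nat_lit 1446764352)), (.negSucc (nat_lit 127157103)), (.ofNat (nat_lit 1446764336)), (.ofNat (nat_lit 7508454090619306289315)), (.ofNat (nat_lit 0)), (.ofNat (nat_lit 3936592378262614855812382720))⟩,
    ⟨nat_lit 17, nat_lit 16, (.ofNat (nat_lit 23172352)), (.ofNat (nat_lit 1446764352)), (.ofNat (nat_lit 23172368)), (.ofNat (nat_lit 1446764336)), (.negSucc (nat_lit 7508454090619306289314)), (.ofNat (nat_lit 0)), (.ofNat (nat_lit 31492739026100918846499061760))⟩,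
    ⟨nat_lit 18, nat_lit 17, (.negSucc (nat_lit 1400622719)), (.ofNat (nat_lit 23172352)), (.negSucc (nat_lit 1400622703)), (.ofNat (nat_lit 23172336)), (.ofNat (nat_lit 7508454090619306289315)), (.ofNat (nat_lit 0)), (.ofNat (nat_lit 11809777134787844567437148160))⟩,
    ⟨nat_lit 19, nat_lit 18, (.negSucc (nat_lit 4123348159)), (.negSucc (nat_lit 1400622719)), (.negSucc (nat_lit 4123348143)), (.negSucc (nat_lit 1400622735)), (.negSucc (nat_lit 7508454090619306289314)), (.ofNat (nat_lit 0)), (.ofNat (nat_lit 11809777134787844567437148160))⟩,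
    ⟨nat_lit 19, nat_lit 20, (.negSucc (nat_lit 4123348159)), (.negSucc (nat_lit 3477097983)), (.negSucc (nat_lit 4123348143)), (.negSucc (nat_lit 3477097999)), (.ofNat (nat_lit 7508454090619306289315)), (.ofNat (nat_lit 0)), (.ofNat (nat_lit 13520460066098985345190451305600))⟩,
    ⟨nat_lit 20, nat_lit 11, (.negSucc (nat_lit 3477097983)), (.negSucc (nat_lit 2494468415)), (.negSucc (nat_lit 3477097967)), (.negSucc (nat_lit 2494468431)), (.negSucc (nat_lit 7508454090619306289314)), (.ofNat (nat_lit 0)), (.ofNat (nat_lit 27556146647838303990686679040))⟩,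
    ⟨nat_lit 0, nat_lit 10, (.negSucc (nat_lit 735717631)), (.ofNat (nat_lit 961312960)), (.negSucc (nat_lit 735717615)), (.ofNat (nat_lit 961312944)), (.ofNat (nat_lit 7508454090619306289315)), (.ofNat (nat_lit 0)), (.ofNat (nat_lit 7873184756525229711624765440))⟩,
    ⟨nat_lit 21, nat_lit 15, (.negSucc (nat_lit 3282521919)), (.negSucc (nat_lit 127157119)), (.negSucc (nat_lit 3282521903)), (.negSucc (nat_lit 127157135)), (.negSucc (nat_lit 7508454090619306289314)), (.ofNat (nat_lit 0)), (.ofNat (nat_lit 0))⟩]

theorem ok93 : stOK 21 21 S93 = true := by decide +kernel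

def S94 : SD where
  vs := [
    ⟨nat_lit 0, nat_lit 0, nat_lit 20, (.ofNat (nat_lit 8)), (.negSucc (nat_lit 735979775)), (.ofNat (nat_lit 6376373352342881953669714528640)), (.negSucc (nat_lit 262143)), (.ofNat (nat_lit 5904888567393922283718574080)), (.negSucc (nat_lit 735979791)), (.negSucc (nat_lit 735979759)), (.negSucc (nat_lit 7508454090619306289314)), (.ofNat (nat_lit 7508454090619306289315)), (.negSucc (nat_lit 7508454090619306289314)), (.ofNat (nat_lit 7508454090619306289315)), (.ofNat (nat_lit 0))⟩,
    ⟨nat_lit 2, nat_lit 0, nat_lit 1, (.ofNat (nat_lit 8)), (.negSucc (nat_lit 5208012927)), (.ofNat (nat_lit 39954428965862431890728497899520)), (.negSucc (nat_lit 923978879)), (.ofNat (nat_lit 6941589593560107746434042049920)), (.negSucc (nat_lit 5208012943)), (.negSucc (nat_lit 5208012911)), (.negSucc (nat_lit 7508454090619306289314)), (.ofNat (nat_lit 7508454090619306289315)), (.negSucc (nat_lit 7508454090619306289314)), (.ofNat (nat_lit 7508454090619306289315)), (.ofNat (nat_lit 0))⟩,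
    ⟨nat_lit 0, nat_lit 1, nat_lit 2, (.ofNat (nat_lit 8)), (.negSucc (nat_lit 5051136319)), (.ofNat (nat_lit 41132329774922513280709301743040)), (.negSucc (nat_lit 923192447)), (.ofNat (nat_lit 6947494482127501668717760624000)), (.negSucc (nat_lit 5051136335)), (.negSucc (nat_lit 5051136303)), (.ofNat (nat_lit 7508454090619306289315)), (.negSucc (nat_lit 7508454090619306289314)), (.negSucc (nat_lit 7508454090619306289314)), (.ofNat (nat_lit 7508454090619306289315)), (.ofNat (nat_lit 0))⟩,
    ⟨nat_lit 0, nat_lit 2, nat_lit 3, (.ofNat (nat_lit 8)), (.negSucc (nat_lit 2194821951)), (.ofNat (nat_lit 19685824474418214708346102365120)), (.ofNat (nat_lit 0)), (.ofNat (nat_lit 15746369513050459423249530880)), (.negSucc (nat_lit 2194821967)), (.negSucc (nat_lit 2194821935)), (.negSucc (nat_lit 7508454090619306289314)), (.ofNat (nat_lit 7508454090619306289315)), (.negSucc (nat_lit 7508454090619306289314)), (.ofNat (nat_lit 7508454090619306289315)), (.ofNat (nat_lit 0))⟩,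
    ⟨nat_lit 1, nat_lit 3, nat_lit 4, (.ofNat (nat_lit 8)), (.negSucc (nat_lit 621965503)), (.ofNat (nat_lit 31495544905360766918782153618240)), (.ofNat (nat_lit 1572864)), (.ofNat (nat_lit 27556146647838303990686679040)), (.negSucc (nat_lit 621965519)), (.negSucc (nat_lit 621965487)), (.ofNat (nat_lit 7508454090619306289315)), (.negSucc (nat_lit 7508454090619306289314)), (.negSucc (nat_lit 7508454090619306289314)), (.ofNat (nat_lit 7508454090619306289315)), (.ofNat (nat_lit 0))⟩,
    ⟨nat_lit 0, nat_lit 5, nat_lit 4, (.ofNat (nat_lit 8)), (.negSucc (nat_lit 3513480895)), (.ofNat (nat_lit 53206355478511853866698881254720)), (.negSucc (nat_lit 921881727)), (.ofNat (nat_lit 6961272555451420820713103963520)), (.negSucc (nat_lit 3513480911)), (.negSucc (nat_lit 3513480879)), (.ofNat (nat_lit 7508454090619306289315)), (.negSucc (nat_lit 7508454090619306289314)), (.negSucc (nat_lit 7508454090619306289314)), (.ofNat (nat_lit 7508454090619306289315)), (.ofNat (nat_lit 0))⟩,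
    ⟨nat_lit 2, nat_lit 6, nat_lit 5, (.ofNat (nat_lit 8)), (.negSucc (nat_lit 5166717247)), (.ofNat (nat_lit 40793106228576914516181094075840)), (.negSucc (nat_lit 923978879)), (.ofNat (nat_lit 6945526185938370361289854432640)), (.negSucc (nat_lit 5166717263)), (.negSucc (nat_lit 5166717231)), (.negSucc (nat_lit 7508454090619306289314)), (.ofNat (nat_lit 7508454090619306289315)), (.negSucc (nat_lit 7508454090619306289314)), (.ofNat (nat_lit 7508454090619306289315)), (.ofNat (nat_lit 0))⟩,
    ⟨nat_lit 0, nat_lit 7, nat_lit 8, (.ofNat (nat_lit 8)), (.negSucc (nat_lit 3047067647)), (.ofNat (nat_lit 26914509000480958548783001561600)), (.ofNat (nat_lit 0)), (.ofNat (nat_lit 19682961891313074279061913600)), (.negSucc (nat_lit 3047067663)), (.negSucc (nat_lit 3047067631)), (.ofNat (nat_lit 7508454090619306289315)), (.negSucc (nat_lit 7508454090619306289314)), (.negSucc (nat_lit 7508454090619306289314)), (.ofNat (nat_lit 7508454090619306289315)), (.ofNat (nat_lit 0))⟩,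
    ⟨nat_lit 0, nat_lit 8, nat_lit 9, (.ofNat (nat_lit 8)), (.ofNat (nat_lit 250134272)), (.ofNat (nat_lit 2157619756659127862585508076800)), (.ofNat (nat_lit 1310720)), (.ofNat (nat_lit 9841480945656537139530956800)), (.ofNat (nat_lit 250134256)), (.ofNat (nat_lit 250134288)), (.negSucc (nat_lit 7508454090619306289314)), (.ofNat (nat_lit 7508454090619306289315)), (.negSucc (nat_lit 7508454090619306289314)), (.ofNat (nat_lit 7508454090619306289315)), (.ofNat (nat_lit 0))⟩,
    ⟨nat_lit 1, nat_lit 9, nat_lit 10, (.ofNat (nat_lit 8)), (.ofNat (nat_lit 1737138560)), (.ofNat (nat_lit 13322723185661176890382281659520)), (.ofNat (nat_lit 2359296)), (.ofNat (nat_lit 17714665702181766851155722240)), (.ofNat (nat_lit 1737138544)), (.ofNat (nat_lit 1737138576)), (.ofNat (nat_lit 7508454090619306289315)), (.negSucc (nat_lit 7508454090619306289314)), (.negSucc (nat_lit 7508454090619306289314)), (.ofNat (nat_lit 7508454090619306289315)), (.ofNat (nat_lit 0))⟩,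
    ⟨nat_lit 0, nat_lit 20, nat_lit 10, (.ofNat (nat_lit 8)), (.ofNat (nat_lit 963147968)), (.ofNat (nat_lit 19134196012264435411878521784000)), (.ofNat (nat_lit 1835008)), (.ofNat (nat_lit 21651258080444381706968104960)), (.ofNat (nat_lit 963147952)), (.ofNat (nat_lit 963147984)), (.ofNat (nat_lit 7508454090619306289315)), (.negSucc (nat_lit 7508454090619306289314)), (.negSucc (nat_lit 7508454090619306289314)), (.ofNat (nat_lit 7508454090619306289315)), (.ofNat (nat_lit 0))⟩,
    ⟨nat_lit 1, nat_lit 11, nat_lit 19, (.ofNat (nat_lit 8)), (.negSucc (nat_lit 3416350143)), (.ofNat (nat_lit 38118441588899603532169888420800)), (.negSucc (nat_lit 921881727)), (.ofNat (nat_lit 6949462778316632976145666815360)), (.negSucc (nat_lit 3416350159)), (.negSucc (nat_lit 3416350127)), (.ofNat (nat_lit 7508454090619306289315)), (.negSucc (nat_lit 7508454090619306289314)), (.negSucc (nat_lit 7508454090619306289314)), (.ofNat (nat_lit 7508454090619306289315)), (.ofNat (nat_lit 0))⟩,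
    ⟨nat_lit 0, nat_lit 12, nat_lit 11, (.ofNat (nat_lit 8)), (.negSucc (nat_lit 3960626303)), (.ofNat (nat_lit 34031769028921035483157671190400)), (.negSucc (nat_lit 922143871)), (.ofNat (nat_lit 6947494482127501668717760624000)), (.negSucc (nat_lit 3960626319)), (.negSucc (nat_lit 3960626287)), (.negSucc (nat_lit 7508454090619306289314)), (.ofNat (nat_lit 7508454090619306289315)), (.negSucc (nat_lit 7508454090619306289314)), (.ofNat (nat_lit 7508454090619306289315)), (.ofNat (nat_lit 0))⟩,
    ⟨nat_lit 0, nat_lit 13, nat_lit 12, (.ofNat (nat_lit 8)), (.negSucc (nat_lit 3960626367)), (.ofNat (nat_lit 34031769509462097282793273706560)), (.ofNat (nat_lit 0)), (.ofNat (nat_lit 23619554269575689134874296320)), (.negSucc (nat_lit 3960626383)), (.negSucc (nat_lit 3960626351)), (.ofNat (nat_lit 7508454090619306289315)), (.negSucc (nat_lit 7508454090619306289314)), (.negSucc (nat_lit 7508454090619306289314)), (.ofNat (nat_lit 7508454090619306289315)), (.ofNat (nat_lit 0))⟩,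
    ⟨nat_lit 0, nat_lit 6, nat_lit 13, (.ofNat (nat_lit 8)), (.negSucc (nat_lit 4113423551)), (.ofNat (nat_lit 32884498868222186465752452417600)), (.negSucc (nat_lit 1048575)), (.ofNat (nat_lit 15746369513050459423249530880)), (.negSucc (nat_lit 4113423567)), (.negSucc (nat_lit 4113423535)), (.negSucc (nat_lit 7508454090619306289314)), (.ofNat (nat_lit 7508454090619306289315)), (.negSucc (nat_lit 7508454090619306289314)), (.ofNat (nat_lit 7508454090619306289315)), (.ofNat (nat_lit 0))⟩,
    ⟨nat_lit 0, nat_lit 21, nat_lit 14, (.ofNat (nat_lit 8)), (.negSucc (nat_lit 127419263)), (.ofNat (nat_lit 1436985003070416724712994023680)), (.negSucc (nat_lit 262143)), (.ofNat (nat_lit 1968296189131307427906191360)), (.negSucc (nat_lit 127419279)), (.negSucc (nat_lit 127419247)), (.negSucc (nat_lit 7508454090619306289314)), (.ofNat (nat_lit 7508454090619306289315)), (.negSucc (nat_lit 7508454090619306289314)), (.ofNat (nat_lit 7508454090619306289315)), (.ofNat (nat_lit 0))⟩,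
    ⟨nat_lit 1, nat_lit 14, nat_lit 15, (.ofNat (nat_lit 8)), (.ofNat (nat_lit 1448599360)), (.ofNat (nat_lit 13270448487335427130633766226240)), (.ofNat (nat_lit 1835008)), (.ofNat (nat_lit 17714665702181766851155722240)), (.ofNat (nat_lit 1448599344)), (.ofNat (nat_lit 1448599376)), (.ofNat (nat_lit 7508454090619306289315)), (.negSucc (nat_lit 7508454090619306289314)), (.negSucc (nat_lit 7508454090619306289314)), (.ofNat (nat_lit 7508454090619306289315)), (.ofNat (nat_lit 0))⟩,
    ⟨nat_lit 0, nat_lit 16, nat_lit 15, (.ofNat (nat_lit 8)), (.ofNat (nat_lit 24483072)), (.ofNat (nat_lit 23963360255486609224508098088960)), (.ofNat (nat_lit 1310720)), (.ofNat (nat_lit 21651258080444381706968104960)), (.ofNat (nat_lit 24483056)), (.ofNat (nat_lit 24483088)), (.ofNat (nat_lit 7508454090619306289315)), (.negSucc (nat_lit 7508454090619306289314)), (.negSucc (nat_lit 7508454090619306289314)), (.ofNat (nat_lit 7508454090619306289315)), (.ofNat (nat_lit 0))⟩,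
    ⟨nat_lit 0, nat_lit 17, nat_lit 16, (.ofNat (nat_lit 8)), (.negSucc (nat_lit 1400622719)), (.ofNat (nat_lit 13263018841978942964583263876480)), (.ofNat (nat_lit 0)), (.ofNat (nat_lit 11809777134787844567437148160)), (.negSucc (nat_lit 1400622735)), (.negSucc (nat_lit 1400622703)), (.negSucc (nat_lit 7508454090619306289314)), (.ofNat (nat_lit 7508454090619306289315)), (.negSucc (nat_lit 7508454090619306289314)), (.ofNat (nat_lit 7508454090619306289315)), (.ofNat (nat_lit 0))⟩,
    ⟨nat_lit 2, nat_lit 17, nat_lit 18, (.ofNat (nat_lit 8)), (.negSucc (nat_lit 5046540607)), (.ofNat (nat_lit 40638225922194644762947725643200)), (.negSucc (nat_lit 923192447)), (.ofNat (nat_lit 6943557889749239053861948241280)), (.negSucc (nat_lit 5046540623)), (.negSucc (nat_lit 5046540591)), (.negSucc (nat_lit 7508454090619306289314)), (.ofNat (nat_lit 7508454090619306289315)), (.negSucc (nat_lit 7508454090619306289314)), (.ofNat (nat_lit 7508454090619306289315)), (.ofNat (nat_lit 0))⟩,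
    ⟨nat_lit 0, nat_lit 18, nat_lit 19, (.ofNat (nat_lit 8)), (.negSucc (nat_lit 4399241855)), (.ofNat (nat_lit 45498438884501816631127076078080)), (.negSucc (nat_lit 922143871)), (.ofNat (nat_lit 6951431074505764283573573006720)), (.negSucc (nat_lit 4399241871)), (.negSucc (nat_lit 4399241839)), (.ofNat (nat_lit 7508454090619306289315)), (.negSucc (nat_lit 7508454090619306289314)), (.negSucc (nat_lit 7508454090619306289314)), (.ofNat (nat_lit 7508454090619306289315)), (.ofNat (nat_lit 0))⟩,
    ⟨nat_lit 2, nat_lit 21, nat_lit 7, (.ofNat (nat_lit 8)), (.negSucc (nat_lit 3283832639)), (.ofNat (nat_lit 25136769927783111220147785901120)), (.negSucc (nat_lit 1310719)), (.ofNat (nat_lit 9841480945656537139530956800)), (.negSucc (nat_lit 3283832655)), (.negSucc (nat_lit 3283832623)), (.negSucc (nat_lit 7508454090619306289314)), (.ofNat (nat_lit 7508454090619306289315)), (.negSucc (nat_lit 7508454090619306289314)), (.ofNat (nat_lit 7508454090619306289315)), (.ofNat (nat_lit 0))⟩]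
  es := [
    ⟨nat_lit 1, nat_lit 0, (.negSucc (nat_lit 5208012927)), (.negSucc (nat_lit 735979775)), (.negSucc (nat_lit 5208012911)), (.negSucc (nat_lit 735979791)), (.negSucc (nat_lit 7508454090619306289314)), (.ofNat (nat_lit 0)), (.ofNat (nat_lit 3936592378262614855812382720))⟩,
    ⟨nat_lit 1, nat_lit 2, (.negSucc (nat_lit 5208012927)), (.negSucc (nat_lit 5051136319)), (.negSucc (nat_lit 5208012911)), (.negSucc (nat_lit 5051136335)), (.ofNat (nat_lit 7508454090619306289315)), (.ofNat (nat_lit 0)), (.ofNat (nat_lit 13879242594741952878012271717120))⟩,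
    ⟨nat_lit 2, nat_lit 3, (.negSucc (nat_lit 5051136319)), (.negSucc (nat_lit 2194821951)), (.negSucc (nat_lit 5051136303)), (.negSucc (nat_lit 2194821967)), (.negSucc (nat_lit 7508454090619306289314)), (.ofNat (nat_lit 0)), (.ofNat (nat_lit 15746369513050459423249530880))⟩,
    ⟨nat_lit 3, nat_lit 4, (.negSucc (nat_lit 2194821951)), (.negSucc (nat_lit 621965503)), (.negSucc (nat_lit 2194821935)), (.negSucc (nat_lit 621965519)), (.ofNat (nat_lit 7508454090619306289315)), (.ofNat (nat_lit 0)), (.ofNat (nat_lit 15746369513050459423249530880))⟩,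
    ⟨nat_lit 5, nat_lit 4, (.negSucc (nat_lit 3513480895)), (.negSucc (nat_lit 621965503)), (.negSucc (nat_lit 3513480879)), (.negSucc (nat_lit 621965519)), (.negSucc (nat_lit 7508454090619306289314)), (.ofNat (nat_lit 0)), (.ofNat (nat_lit 39365923782626148558123827200))⟩,
    ⟨nat_lit 6, nat_lit 5, (.negSucc (nat_lit 5166717247)), (.negSucc (nat_lit 3513480895)), (.negSucc (nat_lit 5166717231)), (.negSucc (nat_lit 3513480911)), (.ofNat (nat_lit 7508454090619306289315)), (.ofNat (nat_lit 0)), (.ofNat (nat_lit 13883179187120215492868084099840))⟩,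
    ⟨nat_lit 6, nat_lit 14, (.negSucc (nat_lit 5166717247)), (.negSucc (nat_lit 4113423551)), (.negSucc (nat_lit 5166717231)), (.negSucc (nat_lit 4113423567)), (.negSucc (nat_lit 7508454090619306289314)), (.ofNat (nat_lit 0)), (.ofNat (nat_lit 7873184756525229711624765440))⟩,
    ⟨nat_lit 21, nat_lit 7, (.negSucc (nat_lit 3283832639)), (.negSucc (nat_lit 3047067647)), (.negSucc (nat_lit 3283832623)), (.negSucc (nat_lit 3047067663)), (.ofNat (nat_lit 7508454090619306289315)), (.ofNat (nat_lit 0)), (.ofNat (nat_lit 19682961891313074279061913600))⟩,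
    ⟨nat_lit 7, nat_lit 8, (.negSucc (nat_lit 3047067647)), (.ofNat (nat_lit 250134272)), (.negSucc (nat_lit 3047067631)), (.ofNat (nat_lit 250134256)), (.negSucc (nat_lit 7508454090619306289314)), (.ofNat (nat_lit 0)), (.ofNat (nat_lit 19682961891313074279061913600))⟩,
    ⟨nat_lit 8, nat_lit 9, (.ofNat (nat_lit 250134272)), (.ofNat (nat_lit 1737138560)), (.ofNat (nat_lit 250134288)), (.ofNat (nat_lit 1737138544)), (.ofNat (nat_lit 7508454090619306289315)), (.ofNat (nat_lit 0)), (.ofNat (nat_lit 0))⟩,
    ⟨nat_lit 10, nat_lit 9, (.ofNat (nat_lit 963147968)), (.ofNat (nat_lit 1737138560)), (.ofNat (nat_lit 963147984)), (.ofNat (nat_lit 1737138544)), (.negSucc (nat_lit 7508454090619306289314)), (.ofNat (nat_lit 0)), (.ofNat (nat_lit 35429331404363533702311444480))⟩,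
    ⟨nat_lit 12, nat_lit 11, (.negSucc (nat_lit 3960626303)), (.negSucc (nat_lit 3416350143)), (.negSucc (nat_lit 3960626287)), (.negSucc (nat_lit 3416350159)), (.ofNat (nat_lit 7508454090619306289315)), (.ofNat (nat_lit 0)), (.ofNat (nat_lit 13871369409985427648300646951680))⟩,
    ⟨nat_lit 13, nat_lit 12, (.negSucc (nat_lit 3960626367)), (.negSucc (nat_lit 3960626303)), (.negSucc (nat_lit 3960626351)), (.negSucc (nat_lit 3960626319)), (.negSucc (nat_lit 7508454090619306289314)), (.ofNat (nat_lit 0)), (.ofNat (nat_lit 23619554269575689134874296320))⟩,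
    ⟨nat_lit 14, nat_lit 13, (.negSucc (nat_lit 4113423551)), (.negSucc (nat_lit 3960626367)), (.negSucc (nat_lit 4113423535)), (.negSucc (nat_lit 3960626383)), (.ofNat (nat_lit 7508454090619306289315)), (.ofNat (nat_lit 0)), (.ofNat (nat_lit 23619554269575689134874296320))⟩,
    ⟨nat_lit 15, nat_lit 16, (.negSucc (nat_lit 127419263)), (.ofNat (nat_lit 1448599360)), (.negSucc (nat_lit 127419247)), (.ofNat (nat_lit 1448599344)), (.ofNat (nat_lit 7508454090619306289315)), (.ofNat (nat_lit 0)), (.ofNat (nat_lit 3936592378262614855812382720))⟩,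
    ⟨nat_lit 17, nat_lit 16, (.ofNat (nat_lit 24483072)), (.ofNat (nat_lit 1448599360)), (.ofNat (nat_lit 24483088)), (.ofNat (nat_lit 1448599344)), (.negSucc (nat_lit 7508454090619306289314)), (.ofNat (nat_lit 0)), (.ofNat (nat_lit 31492739026100918846499061760))⟩,
    ⟨nat_lit 18, nat_lit 17, (.negSucc (nat_lit 1400622719)), (.ofNat (nat_lit 24483072)), (.negSucc (nat_lit 1400622703)), (.ofNat (nat_lit 24483056)), (.ofNat (nat_lit 7508454090619306289315)), (.ofNat (nat_lit 0)), (.ofNat (nat_lit 11809777134787844567437148160))⟩,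
    ⟨nat_lit 19, nat_lit 18, (.negSucc (nat_lit 5046540607)), (.negSucc (nat_lit 1400622719)), (.negSucc (nat_lit 5046540591)), (.negSucc (nat_lit 1400622735)), (.negSucc (nat_lit 7508454090619306289314)), (.ofNat (nat_lit 0)), (.ofNat (nat_lit 11809777134787844567437148160))⟩,
    ⟨nat_lit 19, nat_lit 20, (.negSucc (nat_lit 5046540607)), (.negSucc (nat_lit 4399241855)), (.negSucc (nat_lit 5046540591)), (.negSucc (nat_lit 4399241871)), (.ofNat (nat_lit 7508454090619306289315)), (.ofNat (nat_lit 0)), (.ofNat (nat_lit 13875306002363690263156459334400))⟩,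
    ⟨nat_lit 20, nat_lit 11, (.negSucc (nat_lit 4399241855)), (.negSucc (nat_lit 3416350143)), (.negSucc (nat_lit 4399241839)), (.negSucc (nat_lit 3416350159)), (.negSucc (nat_lit 7508454090619306289314)), (.ofNat (nat_lit 0)), (.ofNat (nat_lit 27556146647838303990686679040))⟩,
    ⟨nat_lit 0, nat_lit 10, (.negSucc (nat_lit 735979775)), (.ofNat (nat_lit 963147968)), (.negSucc (nat_lit 735979759)), (.ofNat (nat_lit 963147952)), (.ofNat (nat_lit 7508454090619306289315)), (.ofNat (nat_lit 0)), (.ofNat (nat_lit 7873184756525229711624765440))⟩,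
    ⟨nat_lit 21, nat_lit 15, (.negSucc (nat_lit 3283832639)), (.negSucc (nat_lit 127419263)), (.negSucc (nat_lit 3283832623)), (.negSucc (nat_lit 127419279)), (.negSucc (nat_lit 7508454090619306289314)), (.ofNat (nat_lit 0)), (.ofNat (nat_lit 0))⟩]

theorem ok94 : stOK 21 21 S94 = true := by decide +kernel

def S95 : SD where
  vs := [
    ⟨nat_lit 0, nat_lit 0, nat_lit 20, (.ofNat (nat_lit 8)), (.negSucc (nat_lit 735979775)), (.ofNat (nat_lit 6476004186003653279391371958912)), (.ofNat (nat_lit 0)), (.ofNat (nat_lit 99630833660771325721657430272)), (.negSucc (nat_lit 735979791)), (.negSucc (nat_lit 735979759)), (.negSucc (nat_lit 7625773685821046503076)), (.ofNat (nat_lit 7625773685821046503077)), (.negSucc (nat_lit 7625773685821046503076)), (.ofNat (nat_lit 7625773685821046503077)), (.ofNat (nat_lit 703917571210441282572))⟩,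
    ⟨nat_lit 2, nat_lit 0, nat_lit 1, (.ofNat (nat_lit 8)), (.negSucc (nat_lit 5208012927)), (.ofNat (nat_lit 40578716918644605580485385967616)), (.ofNat (nat_lit 0)), (.ofNat (nat_lit 624287952782173689756888068096)), (.negSucc (nat_lit 5208012943)), (.negSucc (nat_lit 5208012911)), (.negSucc (nat_lit 7625773685821046503076)), (.ofNat (nat_lit 7625773685821046503077)), (.negSucc (nat_lit 7625773685821046503076)), (.ofNat (nat_lit 7625773685821046503077)), (.ofNat (nat_lit 703917571210441282572))⟩,
    ⟨nat_lit 0, nat_lit 1, nat_lit 2, (.ofNat (nat_lit 8)), (.negSucc (nat_lit 5051136319)), (.ofNat (nat_lit 41775022427851869050898367290432)), (.ofNat (nat_lit 0)), (.ofNat (nat_lit 642692652929355770189065547392)), (.negSucc (nat_lit 5051136335)), (.negSucc (nat_lit 5051136303)), (.ofNat (nat_lit 7625773685821046503077)), (.negSucc (nat_lit 7625773685821046503076)), (.negSucc (nat_lit 7625773685821046503076)), (.ofNat (nat_lit 7625773685821046503077)), (.ofNat (nat_lit 703917571210441282572))⟩,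
    ⟨nat_lit 0, nat_lit 2, nat_lit 3, (.ofNat (nat_lit 8)), (.negSucc (nat_lit 2194821951)), (.ofNat (nat_lit 19993415481924896047363375980096)), (.ofNat (nat_lit 0)), (.ofNat (nat_lit 307591007506681339017273614976)), (.negSucc (nat_lit 2194821967)), (.negSucc (nat_lit 2194821935)), (.negSucc (nat_lit 7625773685821046503076)), (.ofNat (nat_lit 7625773685821046503077)), (.negSucc (nat_lit 7625773685821046503076)), (.ofNat (nat_lit 7625773685821046503077)), (.ofNat (nat_lit 703917571210441282572))⟩,
    ⟨nat_lit 1, nat_lit 3, nat_lit 4, (.ofNat (nat_lit 8)), (.negSucc (nat_lit 621965503)), (.ofNat (nat_lit 31987662794657255213835887270592)), (.ofNat (nat_lit 0)), (.ofNat (nat_lit 492117889296488295053733652352)), (.negSucc (nat_lit 621965519)), (.negSucc (nat_lit 621965487)), (.ofNat (nat_lit 7625773685821046503077)), (.negSucc (nat_lit 7625773685821046503076)), (.negSucc (nat_lit 7625773685821046503076)), (.ofNat (nat_lit 7625773685821046503077)), (.ofNat (nat_lit 703917571210441282572))⟩,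
    ⟨nat_lit 0, nat_lit 5, nat_lit 4, (.ofNat (nat_lit 8)), (.negSucc (nat_lit 3513480895)), (.ofNat (nat_lit 54037704783117383335030808131776)), (.ofNat (nat_lit 0)), (.ofNat (nat_lit 831349304605529468331926877056)), (.negSucc (nat_lit 3513480911)), (.negSucc (nat_lit 3513480879)), (.ofNat (nat_lit 7625773685821046503077)), (.negSucc (nat_lit 7625773685821046503076)), (.negSucc (nat_lit 7625773685821046503076)), (.ofNat (nat_lit 7625773685821046503077)), (.ofNat (nat_lit 703917571210441282572))⟩,
    ⟨nat_lit 2, nat_lit 6, nat_lit 5, (.ofNat (nat_lit 8)), (.negSucc (nat_lit 5166717247)), (.ofNat (nat_lit 41430498513593002289461431876672)), (.ofNat (nat_lit 0)), (.ofNat (nat_lit 637392285016087773280337800832)), (.negSucc (nat_lit 5166717263)), (.negSucc (nat_lit 5166717231)), (.negSucc (nat_lit 7625773685821046503076)), (.ofNat (nat_lit 7625773685821046503077)), (.negSucc (nat_lit 7625773685821046503076)), (.ofNat (nat_lit 7625773685821046503077)), (.ofNat (nat_lit 703917571210441282572))⟩,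
    ⟨nat_lit 0, nat_lit 7, nat_lit 8, (.ofNat (nat_lit 8)), (.negSucc (nat_lit 3047067647)), (.ofNat (nat_lit 27335048203741849378539453089280)), (.ofNat (nat_lit 0)), (.ofNat (nat_lit 420539203260890829756451527680)), (.negSucc (nat_lit 3047067663)), (.negSucc (nat_lit 3047067631)), (.ofNat (nat_lit 7625773685821046503077)), (.negSucc (nat_lit 7625773685821046503076)), (.negSucc (nat_lit 7625773685821046503076)), (.ofNat (nat_lit 7625773685821046503077)), (.ofNat (nat_lit 703917571210441282572))⟩,
    ⟨nat_lit 0, nat_lit 8, nat_lit 9, (.ofNat (nat_lit 8)), (.ofNat (nat_lit 250134272)), (.ofNat (nat_lit 2191332565367218072184682781440)), (.ofNat (nat_lit 0)), (.ofNat (nat_lit 33712808708090209599174704640)), (.ofNat (nat_lit 250134256)), (.ofNat (nat_lit 250134288)), (.negSucc (nat_lit 7625773685821046503076)), (.ofNat (nat_lit 7625773685821046503077)), (.negSucc (nat_lit 7625773685821046503076)), (.ofNat (nat_lit 7625773685821046503077)), (.ofNat (nat_lit 703917571210441282572))⟩,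
    ⟨nat_lit 1, nat_lit 9, nat_lit 10, (.ofNat (nat_lit 8)), (.ofNat (nat_lit 1737138560)), (.ofNat (nat_lit 13530890735500679022907586975616)), (.ofNat (nat_lit 0)), (.ofNat (nat_lit 208167549839502132525305316096)), (.ofNat (nat_lit 1737138544)), (.ofNat (nat_lit 1737138576)), (.ofNat (nat_lit 7625773685821046503077)), (.negSucc (nat_lit 7625773685821046503076)), (.negSucc (nat_lit 7625773685821046503076)), (.ofNat (nat_lit 7625773685821046503077)), (.ofNat (nat_lit 703917571210441282572))⟩,
    ⟨nat_lit 0, nat_lit 20, nat_lit 10, (.ofNat (nat_lit 8)), (.ofNat (nat_lit 963147968)), (.ofNat (nat_lit 19433167825047332811883684027200)), (.ofNat (nat_lit 0)), (.ofNat (nat_lit 298971812782897400005162243200)), (.ofNat (nat_lit 963147952)), (.ofNat (nat_lit 963147984)), (.ofNat (nat_lit 7625773685821046503077)), (.negSucc (nat_lit 7625773685821046503076)), (.negSucc (nat_lit 7625773685821046503076)), (.ofNat (nat_lit 7625773685821046503077)), (.ofNat (nat_lit 703917571210441282572))⟩,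
    ⟨nat_lit 1, nat_lit 11, nat_lit 19, (.ofNat (nat_lit 8)), (.negSucc (nat_lit 3416350143)), (.ofNat (nat_lit 38714034313120427163169295481024)), (.ofNat (nat_lit 0)), (.ofNat (nat_lit 595592724220823630999407060224)), (.negSucc (nat_lit 3416350159)), (.negSucc (nat_lit 3416350127)), (.ofNat (nat_lit 7625760915449263185093)), (.negSucc (nat_lit 7625781749565456873494)), (.negSucc (nat_lit 7625781749565456873494)), (.ofNat (nat_lit 7625760915449263185093)), (.ofNat (nat_lit 703882617212128751472))⟩,
    ⟨nat_lit 0, nat_lit 12, nat_lit 11, (.ofNat (nat_lit 8)), (.negSucc (nat_lit 3960626303)), (.ofNat (nat_lit 34563514444981617521957508198144)), (.ofNat (nat_lit 0)), (.ofNat (nat_lit 531745416060582038799837007744)), (.negSucc (nat_lit 3960626319)), (.negSucc (nat_lit 3960626287)), (.ofNat (nat_lit 7625760915449263185093)), (.ofNat (nat_lit 7625760915449263185093)), (.ofNat (nat_lit 7625760915449263185093)), (.ofNat (nat_lit 7625760915449263185093)), (.ofNat (nat_lit 60302246374614364106076))⟩,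
    ⟨nat_lit 0, nat_lit 13, nat_lit 12, (.ofNat (nat_lit 8)), (.negSucc (nat_lit 3960626367)), (.ofNat (nat_lit 34563513956932918933204664352192)), (.ofNat (nat_lit 0)), (.ofNat (nat_lit 531744447470821650411390645632)), (.negSucc (nat_lit 3960626383)), (.negSucc (nat_lit 3960626351)), (.ofNat (nat_lit 7625760915449263185093)), (.ofNat (nat_lit 7625760915449263185093)), (.ofNat (nat_lit 7625760915449263185093)), (.ofNat (nat_lit 7625760915449263185093)), (.ofNat (nat_lit 30268430012137138948816))⟩,
    ⟨nat_lit 0, nat_lit 6, nat_lit 13, (.ofNat (nat_lit 8)), (.negSucc (nat_lit 4113423551)), (.ofNat (nat_lit 33398319163195009423647583174080)), (.ofNat (nat_lit 0)), (.ofNat (nat_lit 513820294972822957895130756480)), (.negSucc (nat_lit 4113423567)), (.negSucc (nat_lit 4113423535)), (.negSucc (nat_lit 7625773685821046503076)), (.ofNat (nat_lit 7625760915449263185093)), (.negSucc (nat_lit 7625773685821046503076)), (.ofNat (nat_lit 7625760915449263185093)), (.ofNat (nat_lit 703892030466874646604))⟩,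
    ⟨nat_lit 0, nat_lit 21, nat_lit 14, (.ofNat (nat_lit 8)), (.negSucc (nat_lit 127419263)), (.ofNat (nat_lit 1459437893750246065176531250944)), (.ofNat (nat_lit 0)), (.ofNat (nat_lit 22452890679829340463537227264)), (.negSucc (nat_lit 127419279)), (.negSucc (nat_lit 127419247)), (.negSucc (nat_lit 7625773685821046503076)), (.ofNat (nat_lit 7625773685821046503077)), (.negSucc (nat_lit 7625773685821046503076)), (.ofNat (nat_lit 7625773685821046503077)), (.ofNat (nat_lit 703917571210441282572))⟩,
    ⟨nat_lit 1, nat_lit 14, nat_lit 15, (.ofNat (nat_lit 8)), (.ofNat (nat_lit 1448599360)), (.ofNat (nat_lit 13477799245013340085195956556992)), (.ofNat (nat_lit 0)), (.ofNat (nat_lit 207350757677912954562190330752)), (.ofNat (nat_lit 1448599344)), (.ofNat (nat_lit 1448599376)), (.ofNat (nat_lit 7625773685821046503077)), (.negSucc (nat_lit 7625773685821046503076)), (.negSucc (nat_lit 7625773685821046503076)), (.ofNat (nat_lit 7625773685821046503077)), (.ofNat (nat_lit 703917571210441282572))⟩,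
    ⟨nat_lit 0, nat_lit 16, nat_lit 15, (.ofNat (nat_lit 8)), (.ofNat (nat_lit 24483072)), (.ofNat (nat_lit 24337787759592887063433354375168)), (.ofNat (nat_lit 0)), (.ofNat (nat_lit 374427504106277838925256286208)), (.ofNat (nat_lit 24483056)), (.ofNat (nat_lit 24483088)), (.ofNat (nat_lit 7625773685821046503077)), (.negSucc (nat_lit 7625773685821046503076)), (.negSucc (nat_lit 7625773685821046503076)), (.ofNat (nat_lit 7625773685821046503077)), (.ofNat (nat_lit 703917571210441282572))⟩,
    ⟨nat_lit 0, nat_lit 17, nat_lit 16, (.ofNat (nat_lit 8)), (.negSucc (nat_lit 1400622719)), (.ofNat (nat_lit 13470253511448125416396975853184)), (.ofNat (nat_lit 0)), (.ofNat (nat_lit 207234669469182451813711976704)), (.negSucc (nat_lit 1400622735)), (.negSucc (nat_lit 1400622703)), (.negSucc (nat_lit 7625773685821046503076)), (.ofNat (nat_lit 7625773685821046503077)), (.negSucc (nat_lit 7625773685821046503076)), (.ofNat (nat_lit 7625773685821046503077)), (.ofNat (nat_lit 703917571210441282572))⟩,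
    ⟨nat_lit 2, nat_lit 17, nat_lit 18, (.ofNat (nat_lit 8)), (.negSucc (nat_lit 5046540607)), (.ofNat (nat_lit 41273198202422770828845257194560)), (.ofNat (nat_lit 0)), (.ofNat (nat_lit 634972280228126065897531551360)), (.negSucc (nat_lit 5046540623)), (.negSucc (nat_lit 5046540591)), (.negSucc (nat_lit 7625773685821046503076)), (.ofNat (nat_lit 7625773685821046503077)), (.negSucc (nat_lit 7625773685821046503076)), (.ofNat (nat_lit 7625773685821046503077)), (.ofNat (nat_lit 703917571210441282572))⟩,
    ⟨nat_lit 0, nat_lit 18, nat_lit 19, (.ofNat (nat_lit 8)), (.negSucc (nat_lit 4399241855)), (.ofNat (nat_lit 46209351992289174325620963454464)), (.ofNat (nat_lit 0)), (.ofNat (nat_lit 710913107787357694493887376384)), (.negSucc (nat_lit 4399241871)), (.negSucc (nat_lit 4399241839)), (.ofNat (nat_lit 7625773685821046503077)), (.negSucc (nat_lit 7625781749565456873494)), (.negSucc (nat_lit 7625781749565456873494)), (.ofNat (nat_lit 7625773685821046503077)), (.ofNat (nat_lit 703933698699262023408))⟩,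
    ⟨nat_lit 2, nat_lit 21, nat_lit 7, (.ofNat (nat_lit 8)), (.negSucc (nat_lit 3283832639)), (.ofNat (nat_lit 25529531958024618789806799208896)), (.ofNat (nat_lit 0)), (.ofNat (nat_lit 392762030241507569659013307776)), (.negSucc (nat_lit 3283832655)), (.negSucc (nat_lit 3283832623)), (.negSucc (nat_lit 7625773685821046503076)), (.ofNat (nat_lit 7625773685821046503077)), (.negSucc (nat_lit 7625773685821046503076)), (.ofNat (nat_lit 7625773685821046503077)), (.ofNat (nat_lit 703917571210441282572))⟩]
  es := [
    ⟨nat_lit 1, nat_lit 0, (.negSucc (nat_lit 5208012927)), (.negSucc (nat_lit 735979775)), (.negSucc (nat_lit 5208012911)), (.negSucc (nat_lit 735979791)), (.negSucc (nat_lit 7625773685821046503076)), (.negSucc (nat_lit 117319595201740213761)), (.ofNat (nat_lit 13285984263783888386908552960))⟩,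
    ⟨nat_lit 1, nat_lit 2, (.negSucc (nat_lit 5208012927)), (.negSucc (nat_lit 5051136319)), (.negSucc (nat_lit 5208012911)), (.negSucc (nat_lit 5051136335)), (.ofNat (nat_lit 7625773685821046503077)), (.ofNat (nat_lit 117319595201740213762)), (.ofNat (nat_lit 1235289921300563491126867583232))⟩,
    ⟨nat_lit 2, nat_lit 3, (.negSucc (nat_lit 5051136319)), (.negSucc (nat_lit 2194821951)), (.negSucc (nat_lit 5051136303)), (.negSucc (nat_lit 2194821967)), (.negSucc (nat_lit 7625773685821046503076)), (.negSucc (nat_lit 117319595201740213761)), (.ofNat (nat_lit 50095384558148049251263511552))⟩,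
    ⟨nat_lit 3, nat_lit 4, (.negSucc (nat_lit 2194821951)), (.negSucc (nat_lit 621965503)), (.negSucc (nat_lit 2194821935)), (.negSucc (nat_lit 621965519)), (.ofNat (nat_lit 7625773685821046503077)), (.ofNat (nat_lit 117319595201740213762)), (.ofNat (nat_lit 565086630455214628783283718400))⟩,
    ⟨nat_lit 5, nat_lit 4, (.negSucc (nat_lit 3513480895)), (.negSucc (nat_lit 621965503)), (.negSucc (nat_lit 3513480879)), (.negSucc (nat_lit 621965519)), (.negSucc (nat_lit 7625773685821046503076)), (.negSucc (nat_lit 117319595201740213761)), (.ofNat (nat_lit 419149148137761961324183586304))⟩,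
    ⟨nat_lit 6, nat_lit 5, (.negSucc (nat_lit 5166717247)), (.negSucc (nat_lit 3513480895)), (.negSucc (nat_lit 5166717231)), (.negSucc (nat_lit 3513480911)), (.ofNat (nat_lit 7625773685821046503077)), (.ofNat (nat_lit 117319595201740213762)), (.ofNat (nat_lit 1243549461073296975339670167808))⟩,
    ⟨nat_lit 6, nat_lit 14, (.negSucc (nat_lit 5166717247)), (.negSucc (nat_lit 4113423551)), (.negSucc (nat_lit 5166717231)), (.negSucc (nat_lit 4113423567)), (.negSucc (nat_lit 7625773685821046503076)), (.negSucc (nat_lit 117319595201740213761)), (.ofNat (nat_lit 31235108958878571221005433856))⟩,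
    ⟨nat_lit 21, nat_lit 7, (.negSucc (nat_lit 3283832639)), (.negSucc (nat_lit 3047067647)), (.negSucc (nat_lit 3283832623)), (.negSucc (nat_lit 3047067663)), (.ofNat (nat_lit 7625773685821046503077)), (.ofNat (nat_lit 117319595201740213762)), (.ofNat (nat_lit 778019946276569468411246099456))⟩,
    ⟨nat_lit 7, nat_lit 8, (.negSucc (nat_lit 3047067647)), (.ofNat (nat_lit 250134272)), (.negSucc (nat_lit 3047067631)), (.ofNat (nat_lit 250134256)), (.negSucc (nat_lit 7625773685821046503076)), (.negSucc (nat_lit 117319595201740213761)), (.ofNat (nat_lit 63058460245212191101656955904))⟩,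
    ⟨nat_lit 8, nat_lit 9, (.ofNat (nat_lit 250134272)), (.ofNat (nat_lit 1737138560)), (.ofNat (nat_lit 250134288)), (.ofNat (nat_lit 1737138544)), (.ofNat (nat_lit 7625773685821046503077)), (.ofNat (nat_lit 117319595201740213762)), (.ofNat (nat_lit 4367157170968228096692453376))⟩,
    ⟨nat_lit 10, nat_lit 9, (.ofNat (nat_lit 963147968)), (.ofNat (nat_lit 1737138560)), (.ofNat (nat_lit 963147984)), (.ofNat (nat_lit 1737138544)), (.negSucc (nat_lit 7625773685821046503076)), (.negSucc (nat_lit 117319595201740213761)), (.ofNat (nat_lit 411967942508036036953918178816))⟩,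
    ⟨nat_lit 12, nat_lit 11, (.negSucc (nat_lit 3960626303)), (.negSucc (nat_lit 3416350143)), (.negSucc (nat_lit 3960626287)), (.negSucc (nat_lit 3416350159)), (.ofNat (nat_lit 7625760915449263185093)), (.ofNat (nat_lit 117306824829956895778)), (.ofNat (nat_lit 996353912120829647404370352256))⟩,
    ⟨nat_lit 13, nat_lit 12, (.negSucc (nat_lit 3960626367)), (.negSucc (nat_lit 3960626303)), (.negSucc (nat_lit 3960626351)), (.negSucc (nat_lit 3960626319)), (.ofNat (nat_lit 7625760915449263185093)), (.ofNat (nat_lit 15134215006068569474408)), (.ofNat (nat_lit 60472715459487277926791616635776))⟩,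
    ⟨nat_lit 14, nat_lit 13, (.negSucc (nat_lit 4113423551)), (.negSucc (nat_lit 3960626367)), (.negSucc (nat_lit 4113423535)), (.negSucc (nat_lit 3960626383)), (.ofNat (nat_lit 7625760915449263185093)), (.ofNat (nat_lit 117306824829956895778)), (.ofNat (nat_lit 996352951038706048133165319936))⟩,
    ⟨nat_lit 15, nat_lit 16, (.negSucc (nat_lit 127419263)), (.ofNat (nat_lit 1448599360)), (.negSucc (nat_lit 127419247)), (.ofNat (nat_lit 1448599344)), (.ofNat (nat_lit 7625773685821046503077)), (.ofNat (nat_lit 117319595201740213762)), (.ofNat (nat_lit 37401667153213010020293938432))⟩,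
    ⟨nat_lit 17, nat_lit 16, (.ofNat (nat_lit 24483072)), (.ofNat (nat_lit 1448599360)), (.ofNat (nat_lit 24483088)), (.ofNat (nat_lit 1448599344)), (.negSucc (nat_lit 7625773685821046503076)), (.negSucc (nat_lit 117319595201740213761)), (.ofNat (nat_lit 377299848202612899104086723072))⟩,
    ⟨nat_lit 18, nat_lit 17, (.negSucc (nat_lit 1400622719)), (.ofNat (nat_lit 24483072)), (.negSucc (nat_lit 1400622703)), (.ofNat (nat_lit 24483056)), (.ofNat (nat_lit 7625773685821046503077)), (.ofNat (nat_lit 117319595201740213762)), (.ofNat (nat_lit 371555160009942778746425849344))⟩,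
    ⟨nat_lit 19, nat_lit 18, (.negSucc (nat_lit 5046540607)), (.negSucc (nat_lit 1400622719)), (.negSucc (nat_lit 5046540591)), (.negSucc (nat_lit 1400622735)), (.negSucc (nat_lit 7625773685821046503076)), (.negSucc (nat_lit 117319595201740213761)), (.ofNat (nat_lit 42914178928422124880998104064))⟩,
    ⟨nat_lit 19, nat_lit 20, (.negSucc (nat_lit 5046540607)), (.negSucc (nat_lit 4399241855)), (.negSucc (nat_lit 5046540591)), (.negSucc (nat_lit 4399241871)), (.ofNat (nat_lit 7625773685821046503077)), (.ofNat (nat_lit 117319595201740213762)), (.ofNat (nat_lit 1227030381527830006914064998656))⟩,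
    ⟨nat_lit 20, nat_lit 11, (.negSucc (nat_lit 4399241855)), (.negSucc (nat_lit 3416350143)), (.negSucc (nat_lit 4399241839)), (.negSucc (nat_lit 3416350159)), (.negSucc (nat_lit 7625781749565456873494)), (.negSucc (nat_lit 117327658946150584179)), (.ofNat (nat_lit 194760359684959194490379938304))⟩,
    ⟨nat_lit 0, nat_lit 10, (.negSucc (nat_lit 735979775)), (.ofNat (nat_lit 963147968)), (.negSucc (nat_lit 735979759)), (.ofNat (nat_lit 963147952)), (.ofNat (nat_lit 7625773685821046503077)), (.ofNat (nat_lit 117319595201740213762)), (.ofNat (nat_lit 185975683057758763056406307584))⟩,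
    ⟨nat_lit 21, nat_lit 15, (.negSucc (nat_lit 3283832639)), (.negSucc (nat_lit 127419263)), (.negSucc (nat_lit 3283832623)), (.negSucc (nat_lit 127419279)), (.negSucc (nat_lit 7625773685821046503076)), (.negSucc (nat_lit 117319595201740213761)), (.ofNat (nat_lit 7504114206445670906780516096))⟩]

theorem ok95 : stOK 21 21 S95 = true := by decide +kernel

def S96 : SD where
  vs := [
    ⟨nat_lit 0, nat_lit 0, nat_lit 20, (.ofNat (nat_lit 8)), (.negSucc (nat_lit 832990655)), (.ofNat (nat_lit 7219785303580188268004799670848)), (.negSucc (nat_lit 97010879)), (.ofNat (nat_lit 743781117576534988613427711936)), (.negSucc (nat_lit 832990671)), (.negSucc (nat_lit 832990639)), (.negSucc (nat_lit 7625773685821046503076)), (.ofNat (nat_lit 7625773685821046503077)), (.negSucc (nat_lit 7625773685821046503076)), (.ofNat (nat_lit 7625773685821046503077)), (.ofNat (nat_lit 0))⟩,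
    ⟨nat_lit 2, nat_lit 0, nat_lit 1, (.ofNat (nat_lit 8)), (.negSucc (nat_lit 5865862847)), (.ofNat (nat_lit 45599329629434277901679875405632)), (.negSucc (nat_lit 657849919)), (.ofNat (nat_lit 5020612710789672321194489438016)), (.negSucc (nat_lit 5865862863)), (.negSucc (nat_lit 5865862831)), (.negSucc (nat_lit 7625773685821046503076)), (.ofNat (nat_lit 7625773685821046503077)), (.negSucc (nat_lit 7625773685821046503076)), (.ofNat (nat_lit 7625773685821046503077)), (.ofNat (nat_lit 0))⟩,
    ⟨nat_lit 0, nat_lit 1, nat_lit 2, (.ofNat (nat_lit 8)), (.negSucc (nat_lit 5708199807)), (.ofNat (nat_lit 46801632291092828989336364579712)), (.negSucc (nat_lit 657063487)), (.ofNat (nat_lit 5026609863240959938437997289280)), (.negSucc (nat_lit 5708199823)), (.negSucc (nat_lit 5708199791)), (.ofNat (nat_lit 7625773685821046503077)), (.negSucc (nat_lit 7625773685821046503076)), (.negSucc (nat_lit 7625773685821046503076)), (.ofNat (nat_lit 7625773685821046503077)), (.ofNat (nat_lit 0))⟩,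
    ⟨nat_lit 0, nat_lit 2, nat_lit 3, (.ofNat (nat_lit 8)), (.negSucc (nat_lit 2493535487)), (.ofNat (nat_lit 22287329710889020890833962467072)), (.negSucc (nat_lit 298713535)), (.ofNat (nat_lit 2293914228964124843470586486976)), (.negSucc (nat_lit 2493535503)), (.negSucc (nat_lit 2493535471)), (.negSucc (nat_lit 7625773685821046503076)), (.ofNat (nat_lit 7625773685821046503077)), (.negSucc (nat_lit 7625773685821046503076)), (.ofNat (nat_lit 7625773685821046503077)), (.ofNat (nat_lit 0))⟩,
    ⟨nat_lit 1, nat_lit 3, nat_lit 4, (.ofNat (nat_lit 8)), (.negSucc (nat_lit 919106175)), (.ofNat (nat_lit 34293571328523955291793489460096)), (.negSucc (nat_lit 297140671)), (.ofNat (nat_lit 2305908533866700077957602189504)), (.negSucc (nat_lit 919106191)), (.negSucc (nat_lit 919106159)), (.ofNat (nat_lit 7625773685821046503077)), (.negSucc (nat_lit 7625773685821046503076)), (.negSucc (nat_lit 7625773685821046503076)), (.ofNat (nat_lit 7625773685821046503077)), (.ofNat (nat_lit 0))⟩,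
    ⟨nat_lit 0, nat_lit 5, nat_lit 4, (.ofNat (nat_lit 8)), (.negSucc (nat_lit 4173633791)), (.ofNat (nat_lit 59111862382394658770077814934528)), (.negSucc (nat_lit 660152895)), (.ofNat (nat_lit 5074157599277275435047006802752)), (.negSucc (nat_lit 4173633807)), (.negSucc (nat_lit 4173633775)), (.ofNat (nat_lit 7625773685821046503077)), (.negSucc (nat_lit 7625773685821046503076)), (.negSucc (nat_lit 7625773685821046503076)), (.ofNat (nat_lit 7625773685821046503077)), (.ofNat (nat_lit 0))⟩,
    ⟨nat_lit 2, nat_lit 6, nat_lit 5, (.ofNat (nat_lit 8)), (.negSucc (nat_lit 5828967295)), (.ofNat (nat_lit 46488663706333510745192417742720)), (.negSucc (nat_lit 662250047)), (.ofNat (nat_lit 5058165192740508455730985866048)), (.negSucc (nat_lit 5828967311)), (.negSucc (nat_lit 5828967279)), (.negSucc (nat_lit 7625773685821046503076)), (.ofNat (nat_lit 7625773685821046503077)), (.negSucc (nat_lit 7625773685821046503076)), (.ofNat (nat_lit 7625773685821046503077)), (.ofNat (nat_lit 0))⟩,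
    ⟨nat_lit 0, nat_lit 7, nat_lit 8, (.ofNat (nat_lit 8)), (.negSucc (nat_lit 3459217727)), (.ofNat (nat_lit 30498001946585847284611385056320)), (.negSucc (nat_lit 412150079)), (.ofNat (nat_lit 3162953742843997906071931967040)), (.negSucc (nat_lit 3459217743)), (.negSucc (nat_lit 3459217711)), (.ofNat (nat_lit 7625773685821046503077)), (.negSucc (nat_lit 7625773685821046503076)), (.negSucc (nat_lit 7625773685821046503076)), (.ofNat (nat_lit 7625773685821046503077)), (.ofNat (nat_lit 0))⟩,
    ⟨nat_lit 0, nat_lit 8, nat_lit 9, (.ofNat (nat_lit 8)), (.ofNat (nat_lit 251444992)), (.ofNat (nat_lit 2201327819452697434257195866880)), (.ofNat (nat_lit 1310720)), (.ofNat (nat_lit 9995254085479362072513085440)), (.ofNat (nat_lit 251444976)), (.ofNat (nat_lit 251445008)), (.negSucc (nat_lit 7625773685821046503076)), (.ofNat (nat_lit 7625773685821046503077)), (.negSucc (nat_lit 7625773685821046503076)), (.ofNat (nat_lit 7625773685821046503077)), (.ofNat (nat_lit 0))⟩,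
    ⟨nat_lit 1, nat_lit 9, nat_lit 10, (.ofNat (nat_lit 8)), (.ofNat (nat_lit 1739497856)), (.ofNat (nat_lit 13548882192854541874638110529408)), (.ofNat (nat_lit 2359296)), (.ofNat (nat_lit 17991457353862851730523553792)), (.ofNat (nat_lit 1739497840)), (.ofNat (nat_lit 1739497872)), (.ofNat (nat_lit 7625773685821046503077)), (.negSucc (nat_lit 7625773685821046503076)), (.negSucc (nat_lit 7625773685821046503076)), (.ofNat (nat_lit 7625773685821046503077)), (.ofNat (nat_lit 0))⟩,
    ⟨nat_lit 0, nat_lit 20, nat_lit 10, (.ofNat (nat_lit 8)), (.ofNat (nat_lit 868234240)), (.ofNat (nat_lit 20192941349160634779813132675840)), (.negSucc (nat_lit 94913727)), (.ofNat (nat_lit 759773524113301967929448648640)), (.ofNat (nat_lit 868234224)), (.ofNat (nat_lit 868234256)), (.ofNat (nat_lit 7625773685821046503077)), (.negSucc (nat_lit 7625773685821046503076)), (.negSucc (nat_lit 7625773685821046503076)), (.ofNat (nat_lit 7625773685821046503077)), (.ofNat (nat_lit 0))⟩,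
    ⟨nat_lit 1, nat_lit 11, nat_lit 19, (.ofNat (nat_lit 8)), (.negSucc (nat_lit 3944841407)), (.ofNat (nat_lit 42772174805920676936055907708224)), (.negSucc (nat_lit 528491263)), (.ofNat (nat_lit 4058140492800249772886612227200)), (.negSucc (nat_lit 3944841423)), (.negSucc (nat_lit 3944841391)), (.ofNat (nat_lit 7625760915449263185093)), (.negSucc (nat_lit 7625781749565456873494)), (.negSucc (nat_lit 7625781749565456873494)), (.ofNat (nat_lit 7625760915449263185093)), (.ofNat (nat_lit 0))⟩,
    ⟨nat_lit 0, nat_lit 12, nat_lit 11, (.ofNat (nat_lit 8)), (.negSucc (nat_lit 4489379711)), (.ofNat (nat_lit 38619655890312447763195727405952)), (.negSucc (nat_lit 528753407)), (.ofNat (nat_lit 4056141445330830241238219207808)), (.negSucc (nat_lit 4489379727)), (.negSucc (nat_lit 4489379695)), (.ofNat (nat_lit 7625760915449263185093)), (.ofNat (nat_lit 7625760915449263185093)), (.ofNat (nat_lit 7625760915449263185093)), (.ofNat (nat_lit 7625760915449263185093)), (.ofNat (nat_lit 0))⟩,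
    ⟨nat_lit 0, nat_lit 13, nat_lit 12, (.ofNat (nat_lit 8)), (.negSucc (nat_lit 4489379775)), (.ofNat (nat_lit 38619655402263749174442883560000)), (.negSucc (nat_lit 528753407)), (.ofNat (nat_lit 4056141445330830241238219207808)), (.negSucc (nat_lit 4489379791)), (.negSucc (nat_lit 4489379759)), (.ofNat (nat_lit 7625760915449263185093)), (.ofNat (nat_lit 7625760915449263185093)), (.ofNat (nat_lit 7625760915449263185093)), (.ofNat (nat_lit 7625760915449263185093)), (.ofNat (nat_lit 0))⟩,
    ⟨nat_lit 0, nat_lit 6, nat_lit 13, (.ofNat (nat_lit 8)), (.negSucc (nat_lit 4643225471)), (.ofNat (nat_lit 37446464906696860127045074150272)), (.negSucc (nat_lit 529801919)), (.ofNat (nat_lit 4048145743501850703397490976192)), (.negSucc (nat_lit 4643225487)), (.negSucc (nat_lit 4643225455)), (.negSucc (nat_lit 7625773685821046503076)), (.ofNat (nat_lit 7625760915449263185093)), (.negSucc (nat_lit 7625773685821046503076)), (.ofNat (nat_lit 7625760915449263185093)), (.ofNat (nat_lit 0))⟩,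
    ⟨nat_lit 0, nat_lit 21, nat_lit 14, (.ofNat (nat_lit 8)), (.negSucc (nat_lit 145279935)), (.ofNat (nat_lit 1595639336298926827464736538688)), (.negSucc (nat_lit 17860671)), (.ofNat (nat_lit 136201442548680762288205287744)), (.negSucc (nat_lit 145279951)), (.negSucc (nat_lit 145279919)), (.negSucc (nat_lit 7625773685821046503076)), (.ofNat (nat_lit 7625773685821046503077)), (.negSucc (nat_lit 7625773685821046503076)), (.ofNat (nat_lit 7625773685821046503077)), (.ofNat (nat_lit 0))⟩,
    ⟨nat_lit 1, nat_lit 14, nat_lit 15, (.ofNat (nat_lit 8)), (.ofNat (nat_lit 1432835840)), (.ofNat (nat_lit 13629993094098787826800182781440)), (.negSucc (nat_lit 15763519)), (.ofNat (nat_lit 152193849085447741604226224448)), (.ofNat (nat_lit 1432835824)), (.ofNat (nat_lit 1432835856)), (.ofNat (nat_lit 7625773685821046503077)), (.negSucc (nat_lit 7625773685821046503076)), (.negSucc (nat_lit 7625773685821046503076)), (.ofNat (nat_lit 7625773685821046503077)), (.ofNat (nat_lit 0))⟩,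
    ⟨nat_lit 0, nat_lit 16, nat_lit 15, (.ofNat (nat_lit 8)), (.negSucc (nat_lit 169819199)), (.ofNat (nat_lit 25851477725579264543030912339520)), (.negSucc (nat_lit 194302271)), (.ofNat (nat_lit 1513689965986377479597557964352)), (.negSucc (nat_lit 169819215)), (.negSucc (nat_lit 169819183)), (.ofNat (nat_lit 7625773685821046503077)), (.negSucc (nat_lit 7625773685821046503076)), (.negSucc (nat_lit 7625773685821046503076)), (.ofNat (nat_lit 7625773685821046503077)), (.ofNat (nat_lit 0))⟩,
    ⟨nat_lit 0, nat_lit 17, nat_lit 16, (.ofNat (nat_lit 8)), (.negSucc (nat_lit 1596235711)), (.ofNat (nat_lit 14973948223349023533922020732096)), (.negSucc (nat_lit 195612991)), (.ofNat (nat_lit 1503694711900898117525044878912)), (.negSucc (nat_lit 1596235727)), (.negSucc (nat_lit 1596235695)), (.negSucc (nat_lit 7625773685821046503076)), (.ofNat (nat_lit 7625773685821046503077)), (.negSucc (nat_lit 7625773685821046503076)), (.ofNat (nat_lit 7625773685821046503077)), (.ofNat (nat_lit 0))⟩,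
    ⟨nat_lit 2, nat_lit 17, nat_lit 18, (.ofNat (nat_lit 8)), (.negSucc (nat_lit 5699203967)), (.ofNat (nat_lit 46262255583712894632746758055808)), (.negSucc (nat_lit 652663359)), (.ofNat (nat_lit 4989057381290123803901500861248)), (.negSucc (nat_lit 5699203983)), (.negSucc (nat_lit 5699203951)), (.negSucc (nat_lit 7625773685821046503076)), (.ofNat (nat_lit 7625773685821046503077)), (.negSucc (nat_lit 7625773685821046503076)), (.ofNat (nat_lit 7625773685821046503077)), (.ofNat (nat_lit 0))⟩,
    ⟨nat_lit 0, nat_lit 18, nat_lit 19, (.ofNat (nat_lit 8)), (.negSucc (nat_lit 5050856639)), (.ofNat (nat_lit 51206405576847681619180474784064)), (.negSucc (nat_lit 651614783)), (.ofNat (nat_lit 4997053584558507293559511329600)), (.negSucc (nat_lit 5050856655)), (.negSucc (nat_lit 5050856623)), (.ofNat (nat_lit 7625773685821046503077)), (.negSucc (nat_lit 7625781749565456873494)), (.negSucc (nat_lit 7625781749565456873494)), (.ofNat (nat_lit 7625773685821046503077)), (.ofNat (nat_lit 0))⟩,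
    ⟨nat_lit 2, nat_lit 21, nat_lit 7, (.ofNat (nat_lit 8)), (.negSucc (nat_lit 3697293439)), (.ofNat (nat_lit 28682490446783137333806218090496)), (.negSucc (nat_lit 413460799)), (.ofNat (nat_lit 3152958488758518543999418881600)), (.negSucc (nat_lit 3697293455)), (.negSucc (nat_lit 3697293423)), (.negSucc (nat_lit 7625773685821046503076)), (.ofNat (nat_lit 7625773685821046503077)), (.negSucc (nat_lit 7625773685821046503076)), (.ofNat (nat_lit 7625773685821046503077)), (.ofNat (nat_lit 0))⟩]
  es := [
    ⟨nat_lit 1, nat_lit 0, (.negSucc (nat_lit 5865862847)), (.negSucc (nat_lit 832990655)), (.negSucc (nat_lit 5865862831)), (.negSucc (nat_lit 832990671)), (.negSucc (nat_lit 7625773685821046503076)), (.ofNat (nat_lit 0)), (.ofNat (nat_lit 3998101634191744829005234176))⟩,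
    ⟨nat_lit 1, nat_lit 2, (.negSucc (nat_lit 5865862847)), (.negSucc (nat_lit 5708199807)), (.negSucc (nat_lit 5865862831)), (.negSucc (nat_lit 5708199823)), (.ofNat (nat_lit 7625773685821046503077)), (.ofNat (nat_lit 0)), (.ofNat (nat_lit 10037227319945152897559973641856))⟩,
    ⟨nat_lit 2, nat_lit 3, (.negSucc (nat_lit 5708199807)), (.negSucc (nat_lit 2493535487)), (.negSucc (nat_lit 5708199791)), (.negSucc (nat_lit 2493535503)), (.negSucc (nat_lit 7625773685821046503076)), (.ofNat (nat_lit 0)), (.ofNat (nat_lit 15992406536766979316020936704))⟩,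
    ⟨nat_lit 3, nat_lit 4, (.negSucc (nat_lit 2493535487)), (.negSucc (nat_lit 919106175)), (.negSucc (nat_lit 2493535471)), (.negSucc (nat_lit 919106191)), (.ofNat (nat_lit 7625773685821046503077)), (.ofNat (nat_lit 0)), (.ofNat (nat_lit 4571836051391482707625152037248))⟩,
    ⟨nat_lit 5, nat_lit 4, (.negSucc (nat_lit 4173633791)), (.negSucc (nat_lit 919106175)), (.negSucc (nat_lit 4173633775)), (.negSucc (nat_lit 919106191)), (.negSucc (nat_lit 7625773685821046503076)), (.ofNat (nat_lit 0)), (.ofNat (nat_lit 39981016341917448290052341760))⟩,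
    ⟨nat_lit 6, nat_lit 5, (.negSucc (nat_lit 5828967295)), (.negSucc (nat_lit 4173633791)), (.negSucc (nat_lit 5828967279)), (.negSucc (nat_lit 4173633807)), (.ofNat (nat_lit 7625773685821046503077)), (.ofNat (nat_lit 0)), (.ofNat (nat_lit 10108334182212633421803961263744))⟩,
    ⟨nat_lit 6, nat_lit 14, (.negSucc (nat_lit 5828967295)), (.negSucc (nat_lit 4643225471)), (.negSucc (nat_lit 5828967279)), (.negSucc (nat_lit 4643225487)), (.negSucc (nat_lit 7625773685821046503076)), (.ofNat (nat_lit 0)), (.ofNat (nat_lit 7996203268383489658010468352))⟩,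
    ⟨nat_lit 21, nat_lit 7, (.negSucc (nat_lit 3697293439)), (.negSucc (nat_lit 3459217727)), (.negSucc (nat_lit 3697293423)), (.negSucc (nat_lit 3459217743)), (.ofNat (nat_lit 7625773685821046503077)), (.ofNat (nat_lit 0)), (.ofNat (nat_lit 6305916977517037087998837763200))⟩,
    ⟨nat_lit 7, nat_lit 8, (.negSucc (nat_lit 3459217727)), (.ofNat (nat_lit 251444992)), (.negSucc (nat_lit 3459217711)), (.ofNat (nat_lit 251444976)), (.negSucc (nat_lit 7625773685821046503076)), (.ofNat (nat_lit 0)), (.ofNat (nat_lit 19990508170958724145026170880))⟩,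
    ⟨nat_lit 8, nat_lit 9, (.ofNat (nat_lit 251444992)), (.ofNat (nat_lit 1739497856)), (.ofNat (nat_lit 251445008)), (.ofNat (nat_lit 1739497840)), (.ofNat (nat_lit 7625773685821046503077)), (.ofNat (nat_lit 0)), (.ofNat (nat_lit 0))⟩,
    ⟨nat_lit 10, nat_lit 9, (.ofNat (nat_lit 868234240)), (.ofNat (nat_lit 1739497856)), (.ofNat (nat_lit 868234256)), (.ofNat (nat_lit 1739497840)), (.negSucc (nat_lit 7625773685821046503076)), (.ofNat (nat_lit 0)), (.ofNat (nat_lit 35982914707725703461047107584))⟩,
    ⟨nat_lit 12, nat_lit 11, (.negSucc (nat_lit 4489379711)), (.negSucc (nat_lit 3944841407)), (.negSucc (nat_lit 4489379695)), (.negSucc (nat_lit 3944841423)), (.ofNat (nat_lit 7625760915449263185093)), (.ofNat (nat_lit 0)), (.ofNat (nat_lit 8088288517967828001445077754752))⟩,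
    ⟨nat_lit 13, nat_lit 12, (.negSucc (nat_lit 4489379775)), (.negSucc (nat_lit 4489379711)), (.negSucc (nat_lit 4489379759)), (.negSucc (nat_lit 4489379727)), (.ofNat (nat_lit 7625760915449263185093)), (.ofNat (nat_lit 0)), (.ofNat (nat_lit 8088288517967828001445077754752))⟩,
    ⟨nat_lit 14, nat_lit 13, (.negSucc (nat_lit 4643225471)), (.negSucc (nat_lit 4489379775)), (.negSucc (nat_lit 4643225455)), (.negSucc (nat_lit 4489379791)), (.ofNat (nat_lit 7625760915449263185093)), (.ofNat (nat_lit 0)), (.ofNat (nat_lit 8088288517967828001445077754752))⟩,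
    ⟨nat_lit 15, nat_lit 16, (.negSucc (nat_lit 145279935)), (.ofNat (nat_lit 1432835840)), (.negSucc (nat_lit 145279919)), (.ofNat (nat_lit 1432835824)), (.ofNat (nat_lit 7625773685821046503077)), (.ofNat (nat_lit 0)), (.ofNat (nat_lit 272402885097361524576410575488))⟩,
    ⟨nat_lit 17, nat_lit 16, (.negSucc (nat_lit 169819199)), (.ofNat (nat_lit 1432835840)), (.negSucc (nat_lit 169819183)), (.ofNat (nat_lit 1432835824)), (.negSucc (nat_lit 7625773685821046503076)), (.ofNat (nat_lit 0)), (.ofNat (nat_lit 31984813073533958632041873408))⟩,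
    ⟨nat_lit 18, nat_lit 17, (.negSucc (nat_lit 1596235711)), (.negSucc (nat_lit 169819199)), (.negSucc (nat_lit 1596235695)), (.negSucc (nat_lit 169819215)), (.ofNat (nat_lit 7625773685821046503077)), (.ofNat (nat_lit 0)), (.ofNat (nat_lit 2995395118899221000563074055296))⟩,
    ⟨nat_lit 19, nat_lit 18, (.negSucc (nat_lit 5699203967)), (.negSucc (nat_lit 1596235711)), (.negSucc (nat_lit 5699203951)), (.negSucc (nat_lit 1596235727)), (.negSucc (nat_lit 7625773685821046503076)), (.ofNat (nat_lit 0)), (.ofNat (nat_lit 11994304902575234487015702528))⟩,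
    ⟨nat_lit 19, nat_lit 20, (.negSucc (nat_lit 5699203967)), (.negSucc (nat_lit 5050856639)), (.negSucc (nat_lit 5699203951)), (.negSucc (nat_lit 5050856655)), (.ofNat (nat_lit 7625773685821046503077)), (.ofNat (nat_lit 0)), (.ofNat (nat_lit 9966120457677672373315986019968))⟩,
    ⟨nat_lit 20, nat_lit 11, (.negSucc (nat_lit 5050856639)), (.negSucc (nat_lit 3944841407)), (.negSucc (nat_lit 5050856623)), (.negSucc (nat_lit 3944841423)), (.negSucc (nat_lit 7625781749565456873494)), (.ofNat (nat_lit 0)), (.ofNat (nat_lit 27981456984270019075751579520))⟩,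
    ⟨nat_lit 0, nat_lit 10, (.negSucc (nat_lit 832990655)), (.ofNat (nat_lit 868234240)), (.negSucc (nat_lit 832990639)), (.ofNat (nat_lit 868234224)), (.ofNat (nat_lit 7625773685821046503077)), (.ofNat (nat_lit 0)), (.ofNat (nat_lit 1483564133518878232397850189696))⟩,
    ⟨nat_lit 21, nat_lit 15, (.negSucc (nat_lit 3697293439)), (.negSucc (nat_lit 145279935)), (.negSucc (nat_lit 3697293423)), (.negSucc (nat_lit 145279951)), (.negSucc (nat_lit 7625773685821046503076)), (.ofNat (nat_lit 0)), (.ofNat (nat_lit 0))⟩]

theorem ok96 : stOK 21 21 S96 = true := by decide +kernel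

def S97 : SD where
  vs := [
    ⟨nat_lit 0, nat_lit 0, nat_lit 19, (.ofNat (nat_lit 8)), (.negSucc (nat_lit 832990655)), (.ofNat (nat_lit 7219785303580188268004799670848)), (.negSucc (nat_lit 97010879)), (.ofNat (nat_lit 743781117576534988613427711936)), (.negSucc (nat_lit 832990671)), (.negSucc (nat_lit 832990639)), (.negSucc (nat_lit 7625773685821046503076)), (.ofNat (nat_lit 7625773685821046503077)), (.negSucc (nat_lit 7625773685821046503076)), (.ofNat (nat_lit 7625773685821046503077)), (.ofNat (nat_lit 0))⟩,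
    ⟨nat_lit 2, nat_lit 0, nat_lit 1, (.ofNat (nat_lit 8)), (.negSucc (nat_lit 5865862847)), (.ofNat (nat_lit 45599329629434277901679875405632)), (.negSucc (nat_lit 657849919)), (.ofNat (nat_lit 5020612710789672321194489438016)), (.negSucc (nat_lit 5865862863)), (.negSucc (nat_lit 5865862831)), (.negSucc (nat_lit 7625773685821046503076)), (.ofNat (nat_lit 7625773685821046503077)), (.negSucc (nat_lit 7625773685821046503076)), (.ofNat (nat_lit 7625773685821046503077)), (.ofNat (nat_lit 0))⟩,
    ⟨nat_lit 0, nat_lit 1, nat_lit 2, (.ofNat (nat_lit 8)), (.negSucc (nat_lit 5708199807)), (.ofNat (nat_lit 46801632291092828989336364579712)), (.negSucc (nat_lit 657063487)), (.ofNat (nat_lit 5026609863240959938437997289280)), (.negSucc (nat_lit 5708199823)), (.negSucc (nat_lit 5708199791)), (.ofNat (nat_lit 7625773685821046503077)), (.negSucc (nat_lit 7625773685821046503076)), (.negSucc (nat_lit 7625773685821046503076)), (.ofNat (nat_lit 7625773685821046503077)), (.ofNat (nat_lit 0))⟩,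
    ⟨nat_lit 0, nat_lit 2, nat_lit 3, (.ofNat (nat_lit 8)), (.negSucc (nat_lit 2493535487)), (.ofNat (nat_lit 22287329710889020890833962467072)), (.negSucc (nat_lit 298713535)), (.ofNat (nat_lit 2293914228964124843470586486976)), (.negSucc (nat_lit 2493535503)), (.negSucc (nat_lit 2493535471)), (.negSucc (nat_lit 7625773685821046503076)), (.ofNat (nat_lit 7625773685821046503077)), (.negSucc (nat_lit 7625773685821046503076)), (.ofNat (nat_lit 7625773685821046503077)), (.ofNat (nat_lit 0))⟩,
    ⟨nat_lit 1, nat_lit 3, nat_lit 4, (.ofNat (nat_lit 8)), (.negSucc (nat_lit 919106175)), (.ofNat (nat_lit 34293571328523955291793489460096)), (.negSucc (nat_lit 297140671)), (.ofNat (nat_lit 2305908533866700077957602189504)), (.negSucc (nat_lit 919106191)), (.negSucc (nat_lit 919106159)), (.ofNat (nat_lit 7625773685821046503077)), (.negSucc (nat_lit 7625773685821046503076)), (.negSucc (nat_lit 7625773685821046503076)), (.ofNat (nat_lit 7625773685821046503077)), (.ofNat (nat_lit 0))⟩,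
    ⟨nat_lit 0, nat_lit 5, nat_lit 4, (.ofNat (nat_lit 8)), (.negSucc (nat_lit 4173633791)), (.ofNat (nat_lit 59111862382394658770077814934528)), (.negSucc (nat_lit 660152895)), (.ofNat (nat_lit 5074157599277275435047006802752)), (.negSucc (nat_lit 4173633807)), (.negSucc (nat_lit 4173633775)), (.ofNat (nat_lit 7625773685821046503077)), (.negSucc (nat_lit 7625773685821046503076)), (.negSucc (nat_lit 7625773685821046503076)), (.ofNat (nat_lit 7625773685821046503077)), (.ofNat (nat_lit 0))⟩,
    ⟨nat_lit 2, nat_lit 6, nat_lit 5, (.ofNat (nat_lit 8)), (.negSucc (nat_lit 5828967295)), (.ofNat (nat_lit 46488663706333510745192417742720)), (.negSucc (nat_lit 662250047)), (.ofNat (nat_lit 5058165192740508455730985866048)), (.negSucc (nat_lit 5828967311)), (.negSucc (nat_lit 5828967279)), (.negSucc (nat_lit 7625773685821046503076)), (.ofNat (nat_lit 7625773685821046503077)), (.negSucc (nat_lit 7625773685821046503076)), (.ofNat (nat_lit 7625773685821046503077)), (.ofNat (nat_lit 0))⟩,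
    ⟨nat_lit 0, nat_lit 7, nat_lit 8, (.ofNat (nat_lit 8)), (.negSucc (nat_lit 3459217727)), (.ofNat (nat_lit 30498001946585847284611385056320)), (.negSucc (nat_lit 412150079)), (.ofNat (nat_lit 3162953742843997906071931967040)), (.negSucc (nat_lit 3459217743)), (.negSucc (nat_lit 3459217711)), (.ofNat (nat_lit 7625773685821046503077)), (.negSucc (nat_lit 7625773685821046503076)), (.negSucc (nat_lit 7625773685821046503076)), (.ofNat (nat_lit 7625773685821046503077)), (.ofNat (nat_lit 0))⟩,
    ⟨nat_lit 0, nat_lit 8, nat_lit 9, (.ofNat (nat_lit 8)), (.ofNat (nat_lit 251444992)), (.ofNat (nat_lit 2201327819452697434257195866880)), (.ofNat (nat_lit 1310720)), (.ofNat (nat_lit 9995254085479362072513085440)), (.ofNat (nat_lit 251444976)), (.ofNat (nat_lit 251445008)), (.negSucc (nat_lit 7625773685821046503076)), (.ofNat (nat_lit 7625773685821046503077)), (.negSucc (nat_lit 7625773685821046503076)), (.ofNat (nat_lit 7625773685821046503077)), (.ofNat (nat_lit 0))⟩,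
    ⟨nat_lit 1, nat_lit 9, nat_lit 10, (.ofNat (nat_lit 8)), (.ofNat (nat_lit 1739497856)), (.ofNat (nat_lit 13548882192854541874638110529408)), (.ofNat (nat_lit 2359296)), (.ofNat (nat_lit 17991457353862851730523553792)), (.ofNat (nat_lit 1739497840)), (.ofNat (nat_lit 1739497872)), (.ofNat (nat_lit 7625773685821046503077)), (.negSucc (nat_lit 7625773685821046503076)), (.negSucc (nat_lit 7625773685821046503076)), (.ofNat (nat_lit 7625773685821046503077)), (.ofNat (nat_lit 0))⟩,
    ⟨nat_lit 0, nat_lit 19, nat_lit 10, (.ofNat (nat_lit 8)), (.ofNat (nat_lit 868234240)), (.ofNat (nat_lit 20192941349160634779813132675840)), (.negSucc (nat_lit 94913727)), (.ofNat (nat_lit 759773524113301967929448648640)), (.ofNat (nat_lit 868234224)), (.ofNat (nat_lit 868234256)), (.ofNat (nat_lit 7625773685821046503077)), (.negSucc (nat_lit 7625773685821046503076)), (.negSucc (nat_lit 7625773685821046503076)), (.ofNat (nat_lit 7625773685821046503077)), (.ofNat (nat_lit 0))⟩,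
    ⟨nat_lit 1, nat_lit 11, nat_lit 18, (.ofNat (nat_lit 8)), (.negSucc (nat_lit 3944841407)), (.ofNat (nat_lit 42772174805920676936055907708224)), (.negSucc (nat_lit 528491263)), (.ofNat (nat_lit 4058140492800249772886612227200)), (.negSucc (nat_lit 3944841423)), (.negSucc (nat_lit 3944841391)), (.ofNat (nat_lit 7625760915449263185093)), (.negSucc (nat_lit 7625781749565456873494)), (.negSucc (nat_lit 7625781749565456873494)), (.ofNat (nat_lit 7625760915449263185093)), (.ofNat (nat_lit 0))⟩,
    ⟨nat_lit 0, nat_lit 12, nat_lit 11, (.ofNat (nat_lit 8)), (.negSucc (nat_lit 4489379711)), (.ofNat (nat_lit 38619655890312447763195727405952)), (.negSucc (nat_lit 528753407)), (.ofNat (nat_lit 4056141445330830241238219207808)), (.negSucc (nat_lit 4489379727)), (.negSucc (nat_lit 4489379695)), (.ofNat (nat_lit 7625760915449263185093)), (.ofNat (nat_lit 7625760915449263185093)), (.ofNat (nat_lit 7625760915449263185093)), (.ofNat (nat_lit 7625760915449263185093)), (.ofNat (nat_lit 0))⟩,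
    ⟨nat_lit 0, nat_lit 6, nat_lit 12, (.ofNat (nat_lit 8)), (.negSucc (nat_lit 4643225471)), (.ofNat (nat_lit 37446464906696860127045074150272)), (.negSucc (nat_lit 529801919)), (.ofNat (nat_lit 4048145743501850703397490976192)), (.negSucc (nat_lit 4643225487)), (.negSucc (nat_lit 4643225455)), (.negSucc (nat_lit 7625773685821046503076)), (.ofNat (nat_lit 7625760915449263185093)), (.negSucc (nat_lit 7625773685821046503076)), (.ofNat (nat_lit 7625760915449263185093)), (.ofNat (nat_lit 0))⟩,
    ⟨nat_lit 0, nat_lit 20, nat_lit 13, (.ofNat (nat_lit 8)), (.negSucc (nat_lit 145279935)), (.ofNat (nat_lit 1595639336298926827464736538688)), (.negSucc (nat_lit 17860671)), (.ofNat (nat_lit 136201442548680762288205287744)), (.negSucc (nat_lit 145279951)), (.negSucc (nat_lit 145279919)), (.negSucc (nat_lit 7625773685821046503076)), (.ofNat (nat_lit 7625773685821046503077)), (.negSucc (nat_lit 7625773685821046503076)), (.ofNat (nat_lit 7625773685821046503077)), (.ofNat (nat_lit 0))⟩,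
    ⟨nat_lit 1, nat_lit 13, nat_lit 14, (.ofNat (nat_lit 8)), (.ofNat (nat_lit 1432835840)), (.ofNat (nat_lit 13629993094098787826800182781440)), (.negSucc (nat_lit 15763519)), (.ofNat (nat_lit 152193849085447741604226224448)), (.ofNat (nat_lit 1432835824)), (.ofNat (nat_lit 1432835856)), (.ofNat (nat_lit 7625773685821046503077)), (.negSucc (nat_lit 7625773685821046503076)), (.negSucc (nat_lit 7625773685821046503076)), (.ofNat (nat_lit 7625773685821046503077)), (.ofNat (nat_lit 0))⟩,
    ⟨nat_lit 0, nat_lit 15, nat_lit 14, (.ofNat (nat_lit 8)), (.negSucc (nat_lit 169819199)), (.ofNat (nat_lit 25851477725579264543030912339520)), (.negSucc (nat_lit 194302271)), (.ofNat (nat_lit 1513689965986377479597557964352)), (.negSucc (nat_lit 169819215)), (.negSucc (nat_lit 169819183)), (.ofNat (nat_lit 7625773685821046503077)), (.negSucc (nat_lit 7625773685821046503076)), (.negSucc (nat_lit 7625773685821046503076)), (.ofNat (nat_lit 7625773685821046503077)), (.ofNat (nat_lit 0))⟩,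
    ⟨nat_lit 0, nat_lit 16, nat_lit 15, (.ofNat (nat_lit 8)), (.negSucc (nat_lit 1596235711)), (.ofNat (nat_lit 14973948223349023533922020732096)), (.negSucc (nat_lit 195612991)), (.ofNat (nat_lit 1503694711900898117525044878912)), (.negSucc (nat_lit 1596235727)), (.negSucc (nat_lit 1596235695)), (.negSucc (nat_lit 7625773685821046503076)), (.ofNat (nat_lit 7625773685821046503077)), (.negSucc (nat_lit 7625773685821046503076)), (.ofNat (nat_lit 7625773685821046503077)), (.ofNat (nat_lit 0))⟩,
    ⟨nat_lit 2, nat_lit 16, nat_lit 17, (.ofNat (nat_lit 8)), (.negSucc (nat_lit 5699203967)), (.ofNat (nat_lit 46262255583712894632746758055808)), (.negSucc (nat_lit 652663359)), (.ofNat (nat_lit 4989057381290123803901500861248)), (.negSucc (nat_lit 5699203983)), (.negSucc (nat_lit 5699203951)), (.negSucc (nat_lit 7625773685821046503076)), (.ofNat (nat_lit 7625773685821046503077)), (.negSucc (nat_lit 7625773685821046503076)), (.ofNat (nat_lit 7625773685821046503077)), (.ofNat (nat_lit 0))⟩,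
    ⟨nat_lit 0, nat_lit 17, nat_lit 18, (.ofNat (nat_lit 8)), (.negSucc (nat_lit 5050856639)), (.ofNat (nat_lit 51206405576847681619180474784064)), (.negSucc (nat_lit 651614783)), (.ofNat (nat_lit 4997053584558507293559511329600)), (.negSucc (nat_lit 5050856655)), (.negSucc (nat_lit 5050856623)), (.ofNat (nat_lit 7625773685821046503077)), (.negSucc (nat_lit 7625781749565456873494)), (.negSucc (nat_lit 7625781749565456873494)), (.ofNat (nat_lit 7625773685821046503077)), (.ofNat (nat_lit 0))⟩,
    ⟨nat_lit 2, nat_lit 20, nat_lit 7, (.ofNat (nat_lit 8)), (.negSucc (nat_lit 3697293439)), (.ofNat (nat_lit 28682490446783137333806218090496)), (.negSucc (nat_lit 413460799)), (.ofNat (nat_lit 3152958488758518543999418881600)), (.negSucc (nat_lit 3697293455)), (.negSucc (nat_lit 3697293423)), (.negSucc (nat_lit 7625773685821046503076)), (.ofNat (nat_lit 7625773685821046503077)), (.negSucc (nat_lit 7625773685821046503076)), (.ofNat (nat_lit 7625773685821046503077)), (.ofNat (nat_lit 0))⟩]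
  es := [
    ⟨nat_lit 1, nat_lit 0, (.negSucc (nat_lit 5865862847)), (.negSucc (nat_lit 832990655)), (.negSucc (nat_lit 5865862831)), (.negSucc (nat_lit 832990671)), (.negSucc (nat_lit 7625773685821046503076)), (.ofNat (nat_lit 0)), (.ofNat (nat_lit 3998101634191744829005234176))⟩,
    ⟨nat_lit 1, nat_lit 2, (.negSucc (nat_lit 5865862847)), (.negSucc (nat_lit 5708199807)), (.negSucc (nat_lit 5865862831)), (.negSucc (nat_lit 5708199823)), (.ofNat (nat_lit 7625773685821046503077)), (.ofNat (nat_lit 0)), (.ofNat (nat_lit 10037227319945152897559973641856))⟩,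
    ⟨nat_lit 2, nat_lit 3, (.negSucc (nat_lit 5708199807)), (.negSucc (nat_lit 2493535487)), (.negSucc (nat_lit 5708199791)), (.negSucc (nat_lit 2493535503)), (.negSucc (nat_lit 7625773685821046503076)), (.ofNat (nat_lit 0)), (.ofNat (nat_lit 15992406536766979316020936704))⟩,
    ⟨nat_lit 3, nat_lit 4, (.negSucc (nat_lit 2493535487)), (.negSucc (nat_lit 919106175)), (.negSucc (nat_lit 2493535471)), (.negSucc (nat_lit 919106191)), (.ofNat (nat_lit 7625773685821046503077)), (.ofNat (nat_lit 0)), (.ofNat (nat_lit 4571836051391482707625152037248))⟩,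
    ⟨nat_lit 5, nat_lit 4, (.negSucc (nat_lit 4173633791)), (.negSucc (nat_lit 919106175)), (.negSucc (nat_lit 4173633775)), (.negSucc (nat_lit 919106191)), (.negSucc (nat_lit 7625773685821046503076)), (.ofNat (nat_lit 0)), (.ofNat (nat_lit 39981016341917448290052341760))⟩,
    ⟨nat_lit 6, nat_lit 5, (.negSucc (nat_lit 5828967295)), (.negSucc (nat_lit 4173633791)), (.negSucc (nat_lit 5828967279)), (.negSucc (nat_lit 4173633807)), (.ofNat (nat_lit 7625773685821046503077)), (.ofNat (nat_lit 0)), (.ofNat (nat_lit 10108334182212633421803961263744))⟩,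
    ⟨nat_lit 6, nat_lit 13, (.negSucc (nat_lit 5828967295)), (.negSucc (nat_lit 4643225471)), (.negSucc (nat_lit 5828967279)), (.negSucc (nat_lit 4643225487)), (.negSucc (nat_lit 7625773685821046503076)), (.ofNat (nat_lit 0)), (.ofNat (nat_lit 7996203268383489658010468352))⟩,
    ⟨nat_lit 20, nat_lit 7, (.negSucc (nat_lit 3697293439)), (.negSucc (nat_lit 3459217727)), (.negSucc (nat_lit 3697293423)), (.negSucc (nat_lit 3459217743)), (.ofNat (nat_lit 7625773685821046503077)), (.ofNat (nat_lit 0)), (.ofNat (nat_lit 6305916977517037087998837763200))⟩,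
    ⟨nat_lit 7, nat_lit 8, (.negSucc (nat_lit 3459217727)), (.ofNat (nat_lit 251444992)), (.negSucc (nat_lit 3459217711)), (.ofNat (nat_lit 251444976)), (.negSucc (nat_lit 7625773685821046503076)), (.ofNat (nat_lit 0)), (.ofNat (nat_lit 19990508170958724145026170880))⟩,
    ⟨nat_lit 8, nat_lit 9, (.ofNat (nat_lit 251444992)), (.ofNat (nat_lit 1739497856)), (.ofNat (nat_lit 251445008)), (.ofNat (nat_lit 1739497840)), (.ofNat (nat_lit 7625773685821046503077)), (.ofNat (nat_lit 0)), (.ofNat (nat_lit 0))⟩,
    ⟨nat_lit 10, nat_lit 9, (.ofNat (nat_lit 868234240)), (.ofNat (nat_lit 1739497856)), (.ofNat (nat_lit 868234256)), (.ofNat (nat_lit 1739497840)), (.negSucc (nat_lit 7625773685821046503076)), (.ofNat (nat_lit 0)), (.ofNat (nat_lit 35982914707725703461047107584))⟩,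
    ⟨nat_lit 12, nat_lit 11, (.negSucc (nat_lit 4489379711)), (.negSucc (nat_lit 3944841407)), (.negSucc (nat_lit 4489379695)), (.negSucc (nat_lit 3944841423)), (.ofNat (nat_lit 7625760915449263185093)), (.ofNat (nat_lit 0)), (.ofNat (nat_lit 8088288517967828001445077754752))⟩,
    ⟨nat_lit 13, nat_lit 12, (.negSucc (nat_lit 4643225471)), (.negSucc (nat_lit 4489379711)), (.negSucc (nat_lit 4643225455)), (.negSucc (nat_lit 4489379727)), (.ofNat (nat_lit 7625760915449263185093)), (.ofNat (nat_lit 0)), (.ofNat (nat_lit 8088288517967828001445077754752))⟩,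
    ⟨nat_lit 14, nat_lit 15, (.negSucc (nat_lit 145279935)), (.ofNat (nat_lit 1432835840)), (.negSucc (nat_lit 145279919)), (.ofNat (nat_lit 1432835824)), (.ofNat (nat_lit 7625773685821046503077)), (.ofNat (nat_lit 0)), (.ofNat (nat_lit 272402885097361524576410575488))⟩,
    ⟨nat_lit 16, nat_lit 15, (.negSucc (nat_lit 169819199)), (.ofNat (nat_lit 1432835840)), (.negSucc (nat_lit 169819183)), (.ofNat (nat_lit 1432835824)), (.negSucc (nat_lit 7625773685821046503076)), (.ofNat (nat_lit 0)), (.ofNat (nat_lit 31984813073533958632041873408))⟩,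
    ⟨nat_lit 17, nat_lit 16, (.negSucc (nat_lit 1596235711)), (.negSucc (nat_lit 169819199)), (.negSucc (nat_lit 1596235695)), (.negSucc (nat_lit 169819215)), (.ofNat (nat_lit 7625773685821046503077)), (.ofNat (nat_lit 0)), (.ofNat (nat_lit 2995395118899221000563074055296))⟩,
    ⟨nat_lit 18, nat_lit 17, (.negSucc (nat_lit 5699203967)), (.negSucc (nat_lit 1596235711)), (.negSucc (nat_lit 5699203951)), (.negSucc (nat_lit 1596235727)), (.negSucc (nat_lit 7625773685821046503076)), (.ofNat (nat_lit 0)), (.ofNat (nat_lit 11994304902575234487015702528))⟩,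
    ⟨nat_lit 18, nat_lit 19, (.negSucc (nat_lit 5699203967)), (.negSucc (nat_lit 5050856639)), (.negSucc (nat_lit 5699203951)), (.negSucc (nat_lit 5050856655)), (.ofNat (nat_lit 7625773685821046503077)), (.ofNat (nat_lit 0)), (.ofNat (nat_lit 9966120457677672373315986019968))⟩,
    ⟨nat_lit 19, nat_lit 11, (.negSucc (nat_lit 5050856639)), (.negSucc (nat_lit 3944841407)), (.negSucc (nat_lit 5050856623)), (.negSucc (nat_lit 3944841423)), (.negSucc (nat_lit 7625781749565456873494)), (.ofNat (nat_lit 0)), (.ofNat (nat_lit 27981456984270019075751579520))⟩,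
    ⟨nat_lit 0, nat_lit 10, (.negSucc (nat_lit 832990655)), (.ofNat (nat_lit 868234240)), (.negSucc (nat_lit 832990639)), (.ofNat (nat_lit 868234224)), (.ofNat (nat_lit 7625773685821046503077)), (.ofNat (nat_lit 0)), (.ofNat (nat_lit 1483564133518878232397850189696))⟩,
    ⟨nat_lit 20, nat_lit 14, (.negSucc (nat_lit 3697293439)), (.negSucc (nat_lit 145279935)), (.negSucc (nat_lit 3697293423)), (.negSucc (nat_lit 145279951)), (.negSucc (nat_lit 7625773685821046503076)), (.ofNat (nat_lit 0)), (.ofNat (nat_lit 0))⟩]

theorem ok97 : stOK 20 20 S97 = true := by decide +kernel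

def S98 : SD where
  vs := [
    ⟨nat_lit 0, nat_lit 0, nat_lit 18, (.ofNat (nat_lit 8)), (.negSucc (nat_lit 832990655)), (.ofNat (nat_lit 7219785303580188268004799670848)), (.negSucc (nat_lit 97010879)), (.ofNat (nat_lit 743781117576534988613427711936)), (.negSucc (nat_lit 832990671)), (.negSucc (nat_lit 832990639)), (.negSucc (nat_lit 7625773685821046503076)), (.ofNat (nat_lit 7625773685821046503077)), (.negSucc (nat_lit 7625773685821046503076)), (.ofNat (nat_lit 7625773685821046503077)), (.ofNat (nat_lit 0))⟩,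
    ⟨nat_lit 2, nat_lit 0, nat_lit 1, (.ofNat (nat_lit 8)), (.negSucc (nat_lit 5865862847)), (.ofNat (nat_lit 45599329629434277901679875405632)), (.negSucc (nat_lit 657849919)), (.ofNat (nat_lit 5020612710789672321194489438016)), (.negSucc (nat_lit 5865862863)), (.negSucc (nat_lit 5865862831)), (.negSucc (nat_lit 7625773685821046503076)), (.ofNat (nat_lit 7625773685821046503077)), (.negSucc (nat_lit 7625773685821046503076)), (.ofNat (nat_lit 7625773685821046503077)), (.ofNat (nat_lit 0))⟩,
    ⟨nat_lit 0, nat_lit 1, nat_lit 2, (.ofNat (nat_lit 8)), (.negSucc (nat_lit 5708199807)), (.ofNat (nat_lit 46801632291092828989336364579712)), (.negSucc (nat_lit 657063487)), (.ofNat (nat_lit 5026609863240959938437997289280)), (.negSucc (nat_lit 5708199823)), (.negSucc (nat_lit 5708199791)), (.ofNat (nat_lit 7625773685821046503077)), (.negSucc (nat_lit 7625773685821046503076)), (.negSucc (nat_lit 7625773685821046503076)), (.ofNat (nat_lit 7625773685821046503077)), (.ofNat (nat_lit 0))⟩,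
    ⟨nat_lit 0, nat_lit 2, nat_lit 3, (.ofNat (nat_lit 8)), (.negSucc (nat_lit 2493535487)), (.ofNat (nat_lit 22287329710889020890833962467072)), (.negSucc (nat_lit 298713535)), (.ofNat (nat_lit 2293914228964124843470586486976)), (.negSucc (nat_lit 2493535503)), (.negSucc (nat_lit 2493535471)), (.negSucc (nat_lit 7625773685821046503076)), (.ofNat (nat_lit 7625773685821046503077)), (.negSucc (nat_lit 7625773685821046503076)), (.ofNat (nat_lit 7625773685821046503077)), (.ofNat (nat_lit 0))⟩,
    ⟨nat_lit 1, nat_lit 3, nat_lit 4, (.ofNat (nat_lit 8)), (.negSucc (nat_lit 919106175)), (.ofNat (nat_lit 34293571328523955291793489460096)), (.negSucc (nat_lit 297140671)), (.ofNat (nat_lit 2305908533866700077957602189504)), (.negSucc (nat_lit 919106191)), (.negSucc (nat_lit 919106159)), (.ofNat (nat_lit 7625773685821046503077)), (.negSucc (nat_lit 7625773685821046503076)), (.negSucc (nat_lit 7625773685821046503076)), (.ofNat (nat_lit 7625773685821046503077)), (.ofNat (nat_lit 0))⟩,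
    ⟨nat_lit 0, nat_lit 5, nat_lit 4, (.ofNat (nat_lit 8)), (.negSucc (nat_lit 4173633791)), (.ofNat (nat_lit 59111862382394658770077814934528)), (.negSucc (nat_lit 660152895)), (.ofNat (nat_lit 5074157599277275435047006802752)), (.negSucc (nat_lit 4173633807)), (.negSucc (nat_lit 4173633775)), (.ofNat (nat_lit 7625773685821046503077)), (.negSucc (nat_lit 7625773685821046503076)), (.negSucc (nat_lit 7625773685821046503076)), (.ofNat (nat_lit 7625773685821046503077)), (.ofNat (nat_lit 0))⟩,
    ⟨nat_lit 2, nat_lit 6, nat_lit 5, (.ofNat (nat_lit 8)), (.negSucc (nat_lit 5828967295)), (.ofNat (nat_lit 46488663706333510745192417742720)), (.negSucc (nat_lit 662250047)), (.ofNat (nat_lit 5058165192740508455730985866048)), (.negSucc (nat_lit 5828967311)), (.negSucc (nat_lit 5828967279)), (.negSucc (nat_lit 7625773685821046503076)), (.ofNat (nat_lit 7625773685821046503077)), (.negSucc (nat_lit 7625773685821046503076)), (.ofNat (nat_lit 7625773685821046503077)), (.ofNat (nat_lit 0))⟩,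
    ⟨nat_lit 0, nat_lit 7, nat_lit 8, (.ofNat (nat_lit 8)), (.negSucc (nat_lit 3459217727)), (.ofNat (nat_lit 30498001946585847284611385056320)), (.negSucc (nat_lit 412150079)), (.ofNat (nat_lit 3162953742843997906071931967040)), (.negSucc (nat_lit 3459217743)), (.negSucc (nat_lit 3459217711)), (.ofNat (nat_lit 7625773685821046503077)), (.negSucc (nat_lit 7625773685821046503076)), (.negSucc (nat_lit 7625773685821046503076)), (.ofNat (nat_lit 7625773685821046503077)), (.ofNat (nat_lit 0))⟩,
    ⟨nat_lit 0, nat_lit 8, nat_lit 9, (.ofNat (nat_lit 8)), (.ofNat (nat_lit 251444992)), (.ofNat (nat_lit 2201327819452697434257195866880)), (.ofNat (nat_lit 1310720)), (.ofNat (nat_lit 9995254085479362072513085440)), (.ofNat (nat_lit 251444976)), (.ofNat (nat_lit 251445008)), (.negSucc (nat_lit 7625773685821046503076)), (.ofNat (nat_lit 7625773685821046503077)), (.negSucc (nat_lit 7625773685821046503076)), (.ofNat (nat_lit 7625773685821046503077)), (.ofNat (nat_lit 0))⟩,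
    ⟨nat_lit 1, nat_lit 9, nat_lit 10, (.ofNat (nat_lit 8)), (.ofNat (nat_lit 1739497856)), (.ofNat (nat_lit 13548882192854541874638110529408)), (.ofNat (nat_lit 2359296)), (.ofNat (nat_lit 17991457353862851730523553792)), (.ofNat (nat_lit 1739497840)), (.ofNat (nat_lit 1739497872)), (.ofNat (nat_lit 7625773685821046503077)), (.negSucc (nat_lit 7625773685821046503076)), (.negSucc (nat_lit 7625773685821046503076)), (.ofNat (nat_lit 7625773685821046503077)), (.ofNat (nat_lit 0))⟩,
    ⟨nat_lit 0, nat_lit 18, nat_lit 10, (.ofNat (nat_lit 8)), (.ofNat (nat_lit 868234240)), (.ofNat (nat_lit 20192941349160634779813132675840)), (.negSucc (nat_lit 94913727)), (.ofNat (nat_lit 759773524113301967929448648640)), (.ofNat (nat_lit 868234224)), (.ofNat (nat_lit 868234256)), (.ofNat (nat_lit 7625773685821046503077)), (.negSucc (nat_lit 7625773685821046503076)), (.negSucc (nat_lit 7625773685821046503076)), (.ofNat (nat_lit 7625773685821046503077)), (.ofNat (nat_lit 0))⟩,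
    ⟨nat_lit 1, nat_lit 11, nat_lit 17, (.ofNat (nat_lit 8)), (.negSucc (nat_lit 3944841407)), (.ofNat (nat_lit 42772174805920676936055907708224)), (.negSucc (nat_lit 528491263)), (.ofNat (nat_lit 4058140492800249772886612227200)), (.negSucc (nat_lit 3944841423)), (.negSucc (nat_lit 3944841391)), (.ofNat (nat_lit 7625760915449263185093)), (.negSucc (nat_lit 7625781749565456873494)), (.negSucc (nat_lit 7625781749565456873494)), (.ofNat (nat_lit 7625760915449263185093)), (.ofNat (nat_lit 0))⟩,
    ⟨nat_lit 0, nat_lit 6, nat_lit 11, (.ofNat (nat_lit 8)), (.negSucc (nat_lit 4643225471)), (.ofNat (nat_lit 37446464906696860127045074150272)), (.negSucc (nat_lit 529801919)), (.ofNat (nat_lit 4048145743501850703397490976192)), (.negSucc (nat_lit 4643225487)), (.negSucc (nat_lit 4643225455)), (.negSucc (nat_lit 7625773685821046503076)), (.ofNat (nat_lit 7625760915449263185093)), (.negSucc (nat_lit 7625773685821046503076)), (.ofNat (nat_lit 7625760915449263185093)), (.ofNat (nat_lit 0))⟩,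
    ⟨nat_lit 0, nat_lit 19, nat_lit 12, (.ofNat (nat_lit 8)), (.negSucc (nat_lit 145279935)), (.ofNat (nat_lit 1595639336298926827464736538688)), (.negSucc (nat_lit 17860671)), (.ofNat (nat_lit 136201442548680762288205287744)), (.negSucc (nat_lit 145279951)), (.negSucc (nat_lit 145279919)), (.negSucc (nat_lit 7625773685821046503076)), (.ofNat (nat_lit 7625773685821046503077)), (.negSucc (nat_lit 7625773685821046503076)), (.ofNat (nat_lit 7625773685821046503077)), (.ofNat (nat_lit 0))⟩,
    ⟨nat_lit 1, nat_lit 12, nat_lit 13, (.ofNat (nat_lit 8)), (.ofNat (nat_lit 1432835840)), (.ofNat (nat_lit 13629993094098787826800182781440)), (.negSucc (nat_lit 15763519)), (.ofNat (nat_lit 152193849085447741604226224448)), (.ofNat (nat_lit 1432835824)), (.ofNat (nat_lit 1432835856)), (.ofNat (nat_lit 7625773685821046503077)), (.negSucc (nat_lit 7625773685821046503076)), (.negSucc (nat_lit 7625773685821046503076)), (.ofNat (nat_lit 7625773685821046503077)), (.ofNat (nat_lit 0))⟩,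
    ⟨nat_lit 0, nat_lit 14, nat_lit 13, (.ofNat (nat_lit 8)), (.negSucc (nat_lit 169819199)), (.ofNat (nat_lit 25851477725579264543030912339520)), (.negSucc (nat_lit 194302271)), (.ofNat (nat_lit 1513689965986377479597557964352)), (.negSucc (nat_lit 169819215)), (.negSucc (nat_lit 169819183)), (.ofNat (nat_lit 7625773685821046503077)), (.negSucc (nat_lit 7625773685821046503076)), (.negSucc (nat_lit 7625773685821046503076)), (.ofNat (nat_lit 7625773685821046503077)), (.ofNat (nat_lit 0))⟩,
    ⟨nat_lit 0, nat_lit 15, nat_lit 14, (.ofNat (nat_lit 8)), (.negSucc (nat_lit 1596235711)), (.ofNat (nat_lit 14973948223349023533922020732096)), (.negSucc (nat_lit 195612991)), (.ofNat (nat_lit 1503694711900898117525044878912)), (.negSucc (nat_lit 1596235727)), (.negSucc (nat_lit 1596235695)), (.negSucc (nat_lit 7625773685821046503076)), (.ofNat (nat_lit 7625773685821046503077)), (.negSucc (nat_lit 7625773685821046503076)), (.ofNat (nat_lit 7625773685821046503077)), (.ofNat (nat_lit 0))⟩,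
    ⟨nat_lit 2, nat_lit 15, nat_lit 16, (.ofNat (nat_lit 8)), (.negSucc (nat_lit 5699203967)), (.ofNat (nat_lit 46262255583712894632746758055808)), (.negSucc (nat_lit 652663359)), (.ofNat (nat_lit 4989057381290123803901500861248)), (.negSucc (nat_lit 5699203983)), (.negSucc (nat_lit 5699203951)), (.negSucc (nat_lit 7625773685821046503076)), (.ofNat (nat_lit 7625773685821046503077)), (.negSucc (nat_lit 7625773685821046503076)), (.ofNat (nat_lit 7625773685821046503077)), (.ofNat (nat_lit 0))⟩,
    ⟨nat_lit 0, nat_lit 16, nat_lit 17, (.ofNat (nat_lit 8)), (.negSucc (nat_lit 5050856639)), (.ofNat (nat_lit 51206405576847681619180474784064)), (.negSucc (nat_lit 651614783)), (.ofNat (nat_lit 4997053584558507293559511329600)), (.negSucc (nat_lit 5050856655)), (.negSucc (nat_lit 5050856623)), (.ofNat (nat_lit 7625773685821046503077)), (.negSucc (nat_lit 7625781749565456873494)), (.negSucc (nat_lit 7625781749565456873494)), (.ofNat (nat_lit 7625773685821046503077)), (.ofNat (nat_lit 0))⟩,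
    ⟨nat_lit 2, nat_lit 19, nat_lit 7, (.ofNat (nat_lit 8)), (.negSucc (nat_lit 3697293439)), (.ofNat (nat_lit 28682490446783137333806218090496)), (.negSucc (nat_lit 413460799)), (.ofNat (nat_lit 3152958488758518543999418881600)), (.negSucc (nat_lit 3697293455)), (.negSucc (nat_lit 3697293423)), (.negSucc (nat_lit 7625773685821046503076)), (.ofNat (nat_lit 7625773685821046503077)), (.negSucc (nat_lit 7625773685821046503076)), (.ofNat (nat_lit 7625773685821046503077)), (.ofNat (nat_lit 0))⟩]
  es := [
    ⟨nat_lit 1, nat_lit 0, (.negSucc (nat_lit 5865862847)), (.negSucc (nat_lit 832990655)), (.negSucc (nat_lit 5865862831)), (.negSucc (nat_lit 832990671)), (.negSucc (nat_lit 7625773685821046503076)), (.ofNat (nat_lit 0)), (.ofNat (nat_lit 3998101634191744829005234176))⟩,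
    ⟨nat_lit 1, nat_lit 2, (.negSucc (nat_lit 5865862847)), (.negSucc (nat_lit 5708199807)), (.negSucc (nat_lit 5865862831)), (.negSucc (nat_lit 5708199823)), (.ofNat (nat_lit 7625773685821046503077)), (.ofNat (nat_lit 0)), (.ofNat (nat_lit 10037227319945152897559973641856))⟩,
    ⟨nat_lit 2, nat_lit 3, (.negSucc (nat_lit 5708199807)), (.negSucc (nat_lit 2493535487)), (.negSucc (nat_lit 5708199791)), (.negSucc (nat_lit 2493535503)), (.negSucc (nat_lit 7625773685821046503076)), (.ofNat (nat_lit 0)), (.ofNat (nat_lit 15992406536766979316020936704))⟩,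
    ⟨nat_lit 3, nat_lit 4, (.negSucc (nat_lit 2493535487)), (.negSucc (nat_lit 919106175)), (.negSucc (nat_lit 2493535471)), (.negSucc (nat_lit 919106191)), (.ofNat (nat_lit 7625773685821046503077)), (.ofNat (nat_lit 0)), (.ofNat (nat_lit 4571836051391482707625152037248))⟩,
    ⟨nat_lit 5, nat_lit 4, (.negSucc (nat_lit 4173633791)), (.negSucc (nat_lit 919106175)), (.negSucc (nat_lit 4173633775)), (.negSucc (nat_lit 919106191)), (.negSucc (nat_lit 7625773685821046503076)), (.ofNat (nat_lit 0)), (.ofNat (nat_lit 39981016341917448290052341760))⟩,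
    ⟨nat_lit 6, nat_lit 5, (.negSucc (nat_lit 5828967295)), (.negSucc (nat_lit 4173633791)), (.negSucc (nat_lit 5828967279)), (.negSucc (nat_lit 4173633807)), (.ofNat (nat_lit 7625773685821046503077)), (.ofNat (nat_lit 0)), (.ofNat (nat_lit 10108334182212633421803961263744))⟩,
    ⟨nat_lit 6, nat_lit 12, (.negSucc (nat_lit 5828967295)), (.negSucc (nat_lit 4643225471)), (.negSucc (nat_lit 5828967279)), (.negSucc (nat_lit 4643225487)), (.negSucc (nat_lit 7625773685821046503076)), (.ofNat (nat_lit 0)), (.ofNat (nat_lit 7996203268383489658010468352))⟩,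
    ⟨nat_lit 19, nat_lit 7, (.negSucc (nat_lit 3697293439)), (.negSucc (nat_lit 3459217727)), (.negSucc (nat_lit 3697293423)), (.negSucc (nat_lit 3459217743)), (.ofNat (nat_lit 7625773685821046503077)), (.ofNat (nat_lit 0)), (.ofNat (nat_lit 6305916977517037087998837763200))⟩,
    ⟨nat_lit 7, nat_lit 8, (.negSucc (nat_lit 3459217727)), (.ofNat (nat_lit 251444992)), (.negSucc (nat_lit 3459217711)), (.ofNat (nat_lit 251444976)), (.negSucc (nat_lit 7625773685821046503076)), (.ofNat (nat_lit 0)), (.ofNat (nat_lit 19990508170958724145026170880))⟩,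
    ⟨nat_lit 8, nat_lit 9, (.ofNat (nat_lit 251444992)), (.ofNat (nat_lit 1739497856)), (.ofNat (nat_lit 251445008)), (.ofNat (nat_lit 1739497840)), (.ofNat (nat_lit 7625773685821046503077)), (.ofNat (nat_lit 0)), (.ofNat (nat_lit 0))⟩,
    ⟨nat_lit 10, nat_lit 9, (.ofNat (nat_lit 868234240)), (.ofNat (nat_lit 1739497856)), (.ofNat (nat_lit 868234256)), (.ofNat (nat_lit 1739497840)), (.negSucc (nat_lit 7625773685821046503076)), (.ofNat (nat_lit 0)), (.ofNat (nat_lit 35982914707725703461047107584))⟩,
    ⟨nat_lit 12, nat_lit 11, (.negSucc (nat_lit 4643225471)), (.negSucc (nat_lit 3944841407)), (.negSucc (nat_lit 4643225455)), (.negSucc (nat_lit 3944841423)), (.ofNat (nat_lit 7625760915449263185093)), (.ofNat (nat_lit 0)), (.ofNat (nat_lit 8088288517967828001445077754752))⟩,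
    ⟨nat_lit 13, nat_lit 14, (.negSucc (nat_lit 145279935)), (.ofNat (nat_lit 1432835840)), (.negSucc (nat_lit 145279919)), (.ofNat (nat_lit 1432835824)), (.ofNat (nat_lit 7625773685821046503077)), (.ofNat (nat_lit 0)), (.ofNat (nat_lit 272402885097361524576410575488))⟩,
    ⟨nat_lit 15, nat_lit 14, (.negSucc (nat_lit 169819199)), (.ofNat (nat_lit 1432835840)), (.negSucc (nat_lit 169819183)), (.ofNat (nat_lit 1432835824)), (.negSucc (nat_lit 7625773685821046503076)), (.ofNat (nat_lit 0)), (.ofNat (nat_lit 31984813073533958632041873408))⟩,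
    ⟨nat_lit 16, nat_lit 15, (.negSucc (nat_lit 1596235711)), (.negSucc (nat_lit 169819199)), (.negSucc (nat_lit 1596235695)), (.negSucc (nat_lit 169819215)), (.ofNat (nat_lit 7625773685821046503077)), (.ofNat (nat_lit 0)), (.ofNat (nat_lit 2995395118899221000563074055296))⟩,
    ⟨nat_lit 17, nat_lit 16, (.negSucc (nat_lit 5699203967)), (.negSucc (nat_lit 1596235711)), (.negSucc (nat_lit 5699203951)), (.negSucc (nat_lit 1596235727)), (.negSucc (nat_lit 7625773685821046503076)), (.ofNat (nat_lit 0)), (.ofNat (nat_lit 11994304902575234487015702528))⟩,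
    ⟨nat_lit 17, nat_lit 18, (.negSucc (nat_lit 5699203967)), (.negSucc (nat_lit 5050856639)), (.negSucc (nat_lit 5699203951)), (.negSucc (nat_lit 5050856655)), (.ofNat (nat_lit 7625773685821046503077)), (.ofNat (nat_lit 0)), (.ofNat (nat_lit 9966120457677672373315986019968))⟩,
    ⟨nat_lit 18, nat_lit 11, (.negSucc (nat_lit 5050856639)), (.negSucc (nat_lit 3944841407)), (.negSucc (nat_lit 5050856623)), (.negSucc (nat_lit 3944841423)), (.negSucc (nat_lit 7625781749565456873494)), (.ofNat (nat_lit 0)), (.ofNat (nat_lit 27981456984270019075751579520))⟩,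
    ⟨nat_lit 0, nat_lit 10, (.negSucc (nat_lit 832990655)), (.ofNat (nat_lit 868234240)), (.negSucc (nat_lit 832990639)), (.ofNat (nat_lit 868234224)), (.ofNat (nat_lit 7625773685821046503077)), (.ofNat (nat_lit 0)), (.ofNat (nat_lit 1483564133518878232397850189696))⟩,
    ⟨nat_lit 19, nat_lit 13, (.negSucc (nat_lit 3697293439)), (.negSucc (nat_lit 145279935)), (.negSucc (nat_lit 3697293423)), (.negSucc (nat_lit 145279951)), (.negSucc (nat_lit 7625773685821046503076)), (.ofNat (nat_lit 0)), (.ofNat (nat_lit 0))⟩]

theorem ok98 : stOK 19 19 S98 = true := by decide +kernel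

def S99 : SD where
  vs := [
    ⟨nat_lit 0, nat_lit 0, nat_lit 18, (.ofNat (nat_lit 8)), (.negSucc (nat_lit 832990655)), (.ofNat (nat_lit 7332594448948628709691827319488)), (.ofNat (nat_lit 0)), (.ofNat (nat_lit 112809145368440441687027648640)), (.negSucc (nat_lit 832990671)), (.negSucc (nat_lit 832990639)), (.negSucc (nat_lit 7744926399662000354686)), (.ofNat (nat_lit 7744926399662000354687)), (.negSucc (nat_lit 7744926399662000354686)), (.ofNat (nat_lit 7744926399662000354687)), (.ofNat (nat_lit 714916283045723109660))⟩,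
    ⟨nat_lit 2, nat_lit 0, nat_lit 1, (.ofNat (nat_lit 8)), (.negSucc (nat_lit 5865862847)), (.ofNat (nat_lit 46311819154894188493890166483392)), (.ofNat (nat_lit 0)), (.ofNat (nat_lit 712489525459910592210291077760)), (.negSucc (nat_lit 5865862863)), (.negSucc (nat_lit 5865862831)), (.negSucc (nat_lit 7744926399662000354686)), (.ofNat (nat_lit 7744926399662000354687)), (.negSucc (nat_lit 7744926399662000354686)), (.ofNat (nat_lit 7744926399662000354687)), (.ofNat (nat_lit 714916283045723109660))⟩,
    ⟨nat_lit 0, nat_lit 1, nat_lit 2, (.ofNat (nat_lit 8)), (.negSucc (nat_lit 5708199807)), (.ofNat (nat_lit 47532907795641154442291197151872)), (.ofNat (nat_lit 0)), (.ofNat (nat_lit 731275504548325452954832572160)), (.negSucc (nat_lit 5708199823)), (.negSucc (nat_lit 5708199791)), (.ofNat (nat_lit 7744926399662000354687)), (.negSucc (nat_lit 7744926399662000354686)), (.negSucc (nat_lit 7744926399662000354686)), (.ofNat (nat_lit 7744926399662000354687)), (.ofNat (nat_lit 714916283045723109660))⟩,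
    ⟨nat_lit 0, nat_lit 2, nat_lit 3, (.ofNat (nat_lit 8)), (.negSucc (nat_lit 2493535487)), (.ofNat (nat_lit 22635569237621661842251553484032)), (.ofNat (nat_lit 0)), (.ofNat (nat_lit 348239526732640951417591016960)), (.negSucc (nat_lit 2493535503)), (.negSucc (nat_lit 2493535471)), (.negSucc (nat_lit 7744926399662000354686)), (.ofNat (nat_lit 7744926399662000354687)), (.negSucc (nat_lit 7744926399662000354686)), (.ofNat (nat_lit 7744926399662000354687)), (.ofNat (nat_lit 714916283045723109660))⟩,
    ⟨nat_lit 1, nat_lit 3, nat_lit 4, (.ofNat (nat_lit 8)), (.negSucc (nat_lit 919106175)), (.ofNat (nat_lit 34829408380532142093225162869376)), (.ofNat (nat_lit 0)), (.ofNat (nat_lit 535837052008186801431673409280)), (.negSucc (nat_lit 919106191)), (.negSucc (nat_lit 919106159)), (.ofNat (nat_lit 7744926399662000354687)), (.negSucc (nat_lit 7744926399662000354686)), (.negSucc (nat_lit 7744926399662000354686)), (.ofNat (nat_lit 7744926399662000354687)), (.ofNat (nat_lit 714916283045723109660))⟩,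
    ⟨nat_lit 0, nat_lit 5, nat_lit 4, (.ofNat (nat_lit 8)), (.negSucc (nat_lit 4173633791)), (.ofNat (nat_lit 60035485232119575313355799405568)), (.ofNat (nat_lit 0)), (.ofNat (nat_lit 923622849724916543277984471040)), (.negSucc (nat_lit 4173633807)), (.negSucc (nat_lit 4173633775)), (.ofNat (nat_lit 7744926399662000354687)), (.negSucc (nat_lit 7744926399662000354686)), (.negSucc (nat_lit 7744926399662000354686)), (.ofNat (nat_lit 7744926399662000354687)), (.ofNat (nat_lit 714916283045723109660))⟩,
    ⟨nat_lit 2, nat_lit 6, nat_lit 5, (.ofNat (nat_lit 8)), (.negSucc (nat_lit 5828967295)), (.ofNat (nat_lit 47215049076744971850582524872320)), (.ofNat (nat_lit 0)), (.ofNat (nat_lit 726385370411461105390107129600)), (.negSucc (nat_lit 5828967311)), (.negSucc (nat_lit 5828967279)), (.negSucc (nat_lit 7744926399662000354686)), (.ofNat (nat_lit 7744926399662000354687)), (.negSucc (nat_lit 7744926399662000354686)), (.ofNat (nat_lit 7744926399662000354687)), (.ofNat (nat_lit 714916283045723109660))⟩,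
    ⟨nat_lit 0, nat_lit 7, nat_lit 8, (.ofNat (nat_lit 8)), (.negSucc (nat_lit 3459217727)), (.ofNat (nat_lit 30974533227001251148431125833920)), (.ofNat (nat_lit 0)), (.ofNat (nat_lit 476531280415403863819740777600)), (.negSucc (nat_lit 3459217743)), (.negSucc (nat_lit 3459217711)), (.ofNat (nat_lit 7744926399662000354687)), (.negSucc (nat_lit 7744926399662000354686)), (.negSucc (nat_lit 7744926399662000354686)), (.ofNat (nat_lit 7744926399662000354687)), (.ofNat (nat_lit 714916283045723109660))⟩,
    ⟨nat_lit 0, nat_lit 8, nat_lit 9, (.ofNat (nat_lit 8)), (.ofNat (nat_lit 251444992)), (.ofNat (nat_lit 2235723566631645831667297665280)), (.ofNat (nat_lit 0)), (.ofNat (nat_lit 34395747178948397410101798400)), (.ofNat (nat_lit 251444976)), (.ofNat (nat_lit 251445008)), (.negSucc (nat_lit 7744926399662000354686)), (.ofNat (nat_lit 7744926399662000354687)), (.negSucc (nat_lit 7744926399662000354686)), (.ofNat (nat_lit 7744926399662000354687)), (.ofNat (nat_lit 714916283045723109660))⟩,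
    ⟨nat_lit 1, nat_lit 9, nat_lit 10, (.ofNat (nat_lit 8)), (.ofNat (nat_lit 1739497856)), (.ofNat (nat_lit 13760583477117894091428303838848)), (.ofNat (nat_lit 0)), (.ofNat (nat_lit 211701284263352216790193309440)), (.ofNat (nat_lit 1739497840)), (.ofNat (nat_lit 1739497872)), (.ofNat (nat_lit 7744926399662000354687)), (.negSucc (nat_lit 7744926399662000354686)), (.negSucc (nat_lit 7744926399662000354686)), (.ofNat (nat_lit 7744926399662000354687)), (.ofNat (nat_lit 714916283045723109660))⟩,
    ⟨nat_lit 0, nat_lit 18, nat_lit 10, (.ofNat (nat_lit 8)), (.ofNat (nat_lit 868234240)), (.ofNat (nat_lit 20508456057741269698246182007040)), (.ofNat (nat_lit 0)), (.ofNat (nat_lit 315514708580634918433049331200)), (.ofNat (nat_lit 868234224)), (.ofNat (nat_lit 868234256)), (.ofNat (nat_lit 7744926399662000354687)), (.negSucc (nat_lit 7744926399662000354686)), (.negSucc (nat_lit 7744926399662000354686)), (.ofNat (nat_lit 7744926399662000354687)), (.ofNat (nat_lit 714916283045723109660))⟩,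
    ⟨nat_lit 1, nat_lit 11, nat_lit 17, (.ofNat (nat_lit 8)), (.negSucc (nat_lit 3944841407)), (.ofNat (nat_lit 43440499095240834600603063051200)), (.ofNat (nat_lit 0)), (.ofNat (nat_lit 668324289320157664547155342976)), (.negSucc (nat_lit 3944841423)), (.negSucc (nat_lit 3944841391)), (.ofNat (nat_lit 7744926399662000354687)), (.negSucc (nat_lit 7744926399662000354686)), (.negSucc (nat_lit 7744926399662000354686)), (.ofNat (nat_lit 7744926399662000354687)), (.ofNat (nat_lit 714951237044035640760))⟩,
    ⟨nat_lit 0, nat_lit 6, nat_lit 11, (.ofNat (nat_lit 8)), (.negSucc (nat_lit 4643225471)), (.ofNat (nat_lit 38031565920863998566527314543232)), (.ofNat (nat_lit 0)), (.ofNat (nat_lit 585101014167138439482240392960)), (.negSucc (nat_lit 4643225487)), (.negSucc (nat_lit 4643225455)), (.negSucc (nat_lit 7744926399662000354686)), (.ofNat (nat_lit 7744926399662000354687)), (.negSucc (nat_lit 7744926399662000354686)), (.ofNat (nat_lit 7744926399662000354687)), (.ofNat (nat_lit 714941823789289745628))⟩,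
    ⟨nat_lit 0, nat_lit 19, nat_lit 12, (.ofNat (nat_lit 8)), (.negSucc (nat_lit 145279935)), (.ofNat (nat_lit 1620571200928597559143752078528)), (.ofNat (nat_lit 0)), (.ofNat (nat_lit 24931864629670731679015539840)), (.negSucc (nat_lit 145279951)), (.negSucc (nat_lit 145279919)), (.negSucc (nat_lit 7744926399662000354686)), (.ofNat (nat_lit 7744926399662000354687)), (.negSucc (nat_lit 7744926399662000354686)), (.ofNat (nat_lit 7744926399662000354687)), (.ofNat (nat_lit 714916283045723109660))⟩,
    ⟨nat_lit 1, nat_lit 12, nat_lit 13, (.ofNat (nat_lit 8)), (.ofNat (nat_lit 1432835840)), (.ofNat (nat_lit 13842961736194081386592902320640)), (.ofNat (nat_lit 0)), (.ofNat (nat_lit 212968642095293559792719539200)), (.ofNat (nat_lit 1432835824)), (.ofNat (nat_lit 1432835856)), (.ofNat (nat_lit 7744926399662000354687)), (.negSucc (nat_lit 7744926399662000354686)), (.negSucc (nat_lit 7744926399662000354686)), (.ofNat (nat_lit 7744926399662000354687)), (.ofNat (nat_lit 714916283045723109660))⟩,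
    ⟨nat_lit 0, nat_lit 14, nat_lit 13, (.ofNat (nat_lit 8)), (.negSucc (nat_lit 169819199)), (.ofNat (nat_lit 26255407065041440551513810493120)), (.ofNat (nat_lit 0)), (.ofNat (nat_lit 403929339462176008482898153600)), (.negSucc (nat_lit 169819215)), (.negSucc (nat_lit 169819183)), (.ofNat (nat_lit 7744926399662000354687)), (.negSucc (nat_lit 7744926399662000354686)), (.negSucc (nat_lit 7744926399662000354686)), (.ofNat (nat_lit 7744926399662000354687)), (.ofNat (nat_lit 714916283045723109660))⟩,
    ⟨nat_lit 0, nat_lit 15, nat_lit 14, (.ofNat (nat_lit 8)), (.negSucc (nat_lit 1596235711)), (.ofNat (nat_lit 15207916164338852026638417101376)), (.ofNat (nat_lit 0)), (.ofNat (nat_lit 233967940989828492716396369280)), (.negSucc (nat_lit 1596235727)), (.negSucc (nat_lit 1596235695)), (.negSucc (nat_lit 7744926399662000354686)), (.ofNat (nat_lit 7744926399662000354687)), (.negSucc (nat_lit 7744926399662000354686)), (.ofNat (nat_lit 7744926399662000354687)), (.ofNat (nat_lit 714916283045723109660))⟩,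
    ⟨nat_lit 2, nat_lit 15, nat_lit 16, (.ofNat (nat_lit 8)), (.negSucc (nat_lit 5699203967)), (.ofNat (nat_lit 46985103327208408611379918917248)), (.ofNat (nat_lit 0)), (.ofNat (nat_lit 722847743495513978633160861440)), (.negSucc (nat_lit 5699203983)), (.negSucc (nat_lit 5699203951)), (.negSucc (nat_lit 7744926399662000354686)), (.ofNat (nat_lit 7744926399662000354687)), (.negSucc (nat_lit 7744926399662000354686)), (.ofNat (nat_lit 7744926399662000354687)), (.ofNat (nat_lit 714916283045723109660))⟩,
    ⟨nat_lit 0, nat_lit 16, nat_lit 17, (.ofNat (nat_lit 8)), (.negSucc (nat_lit 5050856639)), (.ofNat (nat_lit 52006505663985926644476287643584)), (.ofNat (nat_lit 0)), (.ofNat (nat_lit 800100087138245025295812859520)), (.negSucc (nat_lit 5050856655)), (.negSucc (nat_lit 5050856623)), (.ofNat (nat_lit 7744926399662000354687)), (.negSucc (nat_lit 7744926399662000354686)), (.negSucc (nat_lit 7744926399662000354686)), (.ofNat (nat_lit 7744926399662000354687)), (.ofNat (nat_lit 714900155556902368824))⟩,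
    ⟨nat_lit 2, nat_lit 19, nat_lit 7, (.ofNat (nat_lit 8)), (.negSucc (nat_lit 3697293439)), (.ofNat (nat_lit 29130654360014123854644765771776)), (.ofNat (nat_lit 0)), (.ofNat (nat_lit 448163913230986520838547681280)), (.negSucc (nat_lit 3697293455)), (.negSucc (nat_lit 3697293423)), (.negSucc (nat_lit 7744926399662000354686)), (.ofNat (nat_lit 7744926399662000354687)), (.negSucc (nat_lit 7744926399662000354686)), (.ofNat (nat_lit 7744926399662000354687)), (.ofNat (nat_lit 714916283045723109660))⟩]
  es := [
    ⟨nat_lit 1, nat_lit 0, (.negSucc (nat_lit 5865862847)), (.negSucc (nat_lit 832990655)), (.negSucc (nat_lit 5865862831)), (.negSucc (nat_lit 832990671)), (.negSucc (nat_lit 7744926399662000354686)), (.negSucc (nat_lit 119152713840953851609)), (.ofNat (nat_lit 13556048101884013168687092480))⟩,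
    ⟨nat_lit 1, nat_lit 2, (.negSucc (nat_lit 5865862847)), (.negSucc (nat_lit 5708199807)), (.negSucc (nat_lit 5865862831)), (.negSucc (nat_lit 5708199823)), (.ofNat (nat_lit 7744926399662000354687)), (.ofNat (nat_lit 119152713840953851610)), (.ofNat (nat_lit 1411423002817937171251895063040))⟩,
    ⟨nat_lit 2, nat_lit 3, (.negSucc (nat_lit 5708199807)), (.negSucc (nat_lit 2493535487)), (.negSucc (nat_lit 5708199791)), (.negSucc (nat_lit 2493535503)), (.negSucc (nat_lit 7744926399662000354686)), (.negSucc (nat_lit 119152713840953851609)), (.ofNat (nat_lit 51128006278713734657770081280))⟩,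
    ⟨nat_lit 3, nat_lit 4, (.negSucc (nat_lit 2493535487)), (.negSucc (nat_lit 919106175)), (.negSucc (nat_lit 2493535471)), (.negSucc (nat_lit 919106191)), (.ofNat (nat_lit 7744926399662000354687)), (.ofNat (nat_lit 119152713840953851610)), (.ofNat (nat_lit 645351047186568168177411952640))⟩,
    ⟨nat_lit 5, nat_lit 4, (.negSucc (nat_lit 4173633791)), (.negSucc (nat_lit 919106175)), (.negSucc (nat_lit 4173633775)), (.negSucc (nat_lit 919106191)), (.negSucc (nat_lit 7744926399662000354686)), (.negSucc (nat_lit 119152713840953851609)), (.ofNat (nat_lit 426323056829805434685934865920))⟩,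
    ⟨nat_lit 6, nat_lit 5, (.negSucc (nat_lit 5828967295)), (.negSucc (nat_lit 4173633791)), (.negSucc (nat_lit 5828967279)), (.negSucc (nat_lit 4173633807)), (.ofNat (nat_lit 7744926399662000354687)), (.ofNat (nat_lit 119152713840953851610)), (.ofNat (nat_lit 1420922642620027651870034076160))⟩,
    ⟨nat_lit 6, nat_lit 12, (.negSucc (nat_lit 5828967295)), (.negSucc (nat_lit 4643225471)), (.negSucc (nat_lit 5828967279)), (.negSucc (nat_lit 4643225487)), (.negSucc (nat_lit 7744926399662000354686)), (.negSucc (nat_lit 119152713840953851609)), (.ofNat (nat_lit 31848098202894558910180183040))⟩,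
    ⟨nat_lit 19, nat_lit 7, (.negSucc (nat_lit 3697293439)), (.negSucc (nat_lit 3459217727)), (.negSucc (nat_lit 3697293423)), (.negSucc (nat_lit 3459217743)), (.ofNat (nat_lit 7744926399662000354687)), (.ofNat (nat_lit 119152713840953851610)), (.ofNat (nat_lit 888706460473342399738934119680))⟩,
    ⟨nat_lit 7, nat_lit 8, (.negSucc (nat_lit 3459217727)), (.ofNat (nat_lit 251444992)), (.negSucc (nat_lit 3459217711)), (.ofNat (nat_lit 251444976)), (.negSucc (nat_lit 7744926399662000354686)), (.negSucc (nat_lit 119152713840953851609)), (.ofNat (nat_lit 64356100357465327900547435520))⟩,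
    ⟨nat_lit 8, nat_lit 9, (.ofNat (nat_lit 251444992)), (.ofNat (nat_lit 1739497856)), (.ofNat (nat_lit 251445008)), (.ofNat (nat_lit 1739497840)), (.ofNat (nat_lit 7744926399662000354687)), (.ofNat (nat_lit 119152713840953851610)), (.ofNat (nat_lit 4435394000431466919656161280))⟩,
    ⟨nat_lit 10, nat_lit 9, (.ofNat (nat_lit 868234240)), (.ofNat (nat_lit 1739497856)), (.ofNat (nat_lit 868234256)), (.ofNat (nat_lit 1739497840)), (.negSucc (nat_lit 7744926399662000354686)), (.negSucc (nat_lit 119152713840953851609)), (.ofNat (nat_lit 418967174526272966660730457600))⟩,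
    ⟨nat_lit 12, nat_lit 11, (.negSucc (nat_lit 4643225471)), (.negSucc (nat_lit 3944841407)), (.negSucc (nat_lit 4643225455)), (.negSucc (nat_lit 3944841423)), (.ofNat (nat_lit 7744926399662000354687)), (.ofNat (nat_lit 119165484212737169594)), (.ofNat (nat_lit 1138413225846933532182285091328))⟩,
    ⟨nat_lit 13, nat_lit 14, (.negSucc (nat_lit 145279935)), (.ofNat (nat_lit 1432835840)), (.negSucc (nat_lit 145279919)), (.ofNat (nat_lit 1432835824)), (.ofNat (nat_lit 7744926399662000354687)), (.ofNat (nat_lit 119152713840953851610)), (.ofNat (nat_lit 42242363270710821419869836800))⟩,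
    ⟨nat_lit 15, nat_lit 14, (.negSucc (nat_lit 169819199)), (.ofNat (nat_lit 1432835840)), (.negSucc (nat_lit 169819183)), (.ofNat (nat_lit 1432835824)), (.negSucc (nat_lit 7744926399662000354686)), (.negSucc (nat_lit 119152713840953851609)), (.ofNat (nat_lit 383694920919876298165569241600))⟩,
    ⟨nat_lit 16, nat_lit 15, (.negSucc (nat_lit 1596235711)), (.negSucc (nat_lit 169819199)), (.negSucc (nat_lit 1596235695)), (.negSucc (nat_lit 169819215)), (.ofNat (nat_lit 7744926399662000354687)), (.ofNat (nat_lit 119152713840953851610)), (.ofNat (nat_lit 424163758004475718800227065600))⟩,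
    ⟨nat_lit 17, nat_lit 16, (.negSucc (nat_lit 5699203967)), (.negSucc (nat_lit 1596235711)), (.negSucc (nat_lit 5699203951)), (.negSucc (nat_lit 1596235727)), (.negSucc (nat_lit 7744926399662000354686)), (.negSucc (nat_lit 119152713840953851609)), (.ofNat (nat_lit 43772123975181266632565672960))⟩,
    ⟨nat_lit 17, nat_lit 18, (.negSucc (nat_lit 5699203967)), (.negSucc (nat_lit 5050856639)), (.negSucc (nat_lit 5699203951)), (.negSucc (nat_lit 5050856655)), (.ofNat (nat_lit 7744926399662000354687)), (.ofNat (nat_lit 119152713840953851610)), (.ofNat (nat_lit 1401923363015846690633756049920))⟩,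
    ⟨nat_lit 18, nat_lit 11, (.negSucc (nat_lit 5050856639)), (.negSucc (nat_lit 3944841407)), (.negSucc (nat_lit 5050856623)), (.negSucc (nat_lit 3944841423)), (.negSucc (nat_lit 7744926399662000354686)), (.negSucc (nat_lit 119144650096543481191)), (.ofNat (nat_lit 198317540077641742268484544640))⟩,
    ⟨nat_lit 0, nat_lit 10, (.negSucc (nat_lit 832990655)), (.ofNat (nat_lit 868234240)), (.negSucc (nat_lit 832990639)), (.ofNat (nat_lit 868234224)), (.ofNat (nat_lit 7744926399662000354687)), (.ofNat (nat_lit 119152713840953851610)), (.ofNat (nat_lit 212062242634996870205368204800))⟩,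
    ⟨nat_lit 19, nat_lit 13, (.negSucc (nat_lit 3697293439)), (.negSucc (nat_lit 145279935)), (.negSucc (nat_lit 3697293423)), (.negSucc (nat_lit 145279951)), (.negSucc (nat_lit 7744926399662000354686)), (.negSucc (nat_lit 119152713840953851609)), (.ofNat (nat_lit 7621365988630641938161242880))⟩]

theorem ok99 : stOK 19 19 S99 = true := by decide +kernel

end LCA.CapJ
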