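import Pool.Agent.LCA.Chk2

set_option maxRecDepth 100000

namespace LCA.CapJ

open LCA

def S100 : SD where
  vs := [
    ⟨nat_lit 0, nat_lit 0, nat_lit 18, (.ofNat (nat_lit 8)), (.negSucc (nat_lit 833252799)), (.ofNat (nat_lit 7338685306906967695954764526272)), (.negSucc (nat_lit 262143)), (.ofNat (nat_lit 6090857958338986262937206784)), (.negSucc (nat_lit 833252815)), (.negSucc (nat_lit 833252783)), (.negSucc (nat_lit 7744926399662000354686)), (.ofNat (nat_lit 7744926399662000354687)), (.negSucc (nat_lit 7744926399662000354686)), (.ofNat (nat_lit 7744926399662000354687)), (.ofNat (nat_lit 0))⟩,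
    ⟨nat_lit 2, nat_lit 0, nat_lit 1, (.ofNat (nat_lit 8)), (.negSucc (nat_lit 5867697855)), (.ofNat (nat_lit 46330091728769205452678978103744)), (.negSucc (nat_lit 1835007)), (.ofNat (nat_lit 18272573875016958788811620352)), (.negSucc (nat_lit 5867697871)), (.negSucc (nat_lit 5867697839)), (.negSucc (nat_lit 7744926399662000354686)), (.ofNat (nat_lit 7744926399662000354687)), (.negSucc (nat_lit 7744926399662000354686)), (.ofNat (nat_lit 7744926399662000354687)), (.ofNat (nat_lit 0))⟩,
    ⟨nat_lit 0, nat_lit 1, nat_lit 2, (.ofNat (nat_lit 8)), (.negSucc (nat_lit 5709248383)), (.ofNat (nat_lit 47557271227474510387342945979008)), (.negSucc (nat_lit 1048575)), (.ofNat (nat_lit 24363431833355945051748827136)), (.negSucc (nat_lit 5709248399)), (.negSucc (nat_lit 5709248367)), (.ofNat (nat_lit 7744926399662000354687)), (.negSucc (nat_lit 7744926399662000354686)), (.negSucc (nat_lit 7744926399662000354686)), (.ofNat (nat_lit 7744926399662000354687)), (.ofNat (nat_lit 0))⟩,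
    ⟨nat_lit 0, nat_lit 2, nat_lit 3, (.ofNat (nat_lit 8)), (.negSucc (nat_lit 2493535487)), (.ofNat (nat_lit 22651811525510565805619386035456)), (.ofNat (nat_lit 0)), (.ofNat (nat_lit 16242287888903963367832551424)), (.negSucc (nat_lit 2493535503)), (.negSucc (nat_lit 2493535471)), (.negSucc (nat_lit 7744926399662000354686)), (.ofNat (nat_lit 7744926399662000354687)), (.negSucc (nat_lit 7744926399662000354686)), (.ofNat (nat_lit 7744926399662000354687)), (.ofNat (nat_lit 0))⟩,
    ⟨nat_lit 1, nat_lit 3, nat_lit 4, (.ofNat (nat_lit 8)), (.negSucc (nat_lit 339309503)), (.ofNat (nat_lit 39336133219830015787103337622464)), (.ofNat (nat_lit 579796672)), (.ofNat (nat_lit 4506724839297873693878174753088)), (.negSucc (nat_lit 339309519)), (.negSucc (nat_lit 339309487)), (.ofNat (nat_lit 7744926399662000354687)), (.negSucc (nat_lit 7744926399662000354686)), (.negSucc (nat_lit 7744926399662000354686)), (.ofNat (nat_lit 7744926399662000354687)), (.ofNat (nat_lit 0))⟩,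
    ⟨nat_lit 0, nat_lit 5, nat_lit 4, (.ofNat (nat_lit 8)), (.negSucc (nat_lit 3595147839)), (.ofNat (nat_lit 64552361501348013984338869503296)), (.ofNat (nat_lit 578485952)), (.ofNat (nat_lit 4516876269228438670983070097728)), (.negSucc (nat_lit 3595147855)), (.negSucc (nat_lit 3595147823)), (.ofNat (nat_lit 7744926399662000354687)), (.negSucc (nat_lit 7744926399662000354686)), (.negSucc (nat_lit 7744926399662000354686)), (.ofNat (nat_lit 7744926399662000354687)), (.ofNat (nat_lit 0))⟩,
    ⟨nat_lit 2, nat_lit 6, nat_lit 5, (.ofNat (nat_lit 8)), (.negSucc (nat_lit 5830802303)), (.ofNat (nat_lit 47237382222592214800213294630528)), (.negSucc (nat_lit 1835007)), (.ofNat (nat_lit 22333145847242949630769758208)), (.negSucc (nat_lit 5830802319)), (.negSucc (nat_lit 5830802287)), (.negSucc (nat_lit 7744926399662000354686)), (.ofNat (nat_lit 7744926399662000354687)), (.negSucc (nat_lit 7744926399662000354686)), (.ofNat (nat_lit 7744926399662000354687)), (.ofNat (nat_lit 0))⟩,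
    ⟨nat_lit 0, nat_lit 7, nat_lit 8, (.ofNat (nat_lit 8)), (.negSucc (nat_lit 2880469631)), (.ofNat (nat_lit 35477197494326898851467342449152)), (.ofNat (nat_lit 578748096)), (.ofNat (nat_lit 4502664267325647703036216615232)), (.negSucc (nat_lit 2880469647)), (.negSucc (nat_lit 2880469615)), (.ofNat (nat_lit 7744926399662000354687)), (.negSucc (nat_lit 7744926399662000354686)), (.negSucc (nat_lit 7744926399662000354686)), (.ofNat (nat_lit 7744926399662000354687)), (.ofNat (nat_lit 0))⟩,
    ⟨nat_lit 0, nat_lit 8, nat_lit 9, (.ofNat (nat_lit 8)), (.ofNat (nat_lit 831503808)), (.ofNat (nat_lit 6728236404026728557598618935872)), (.ofNat (nat_lit 580058816)), (.ofNat (nat_lit 4492512837395082725931321270592)), (.ofNat (nat_lit 831503792)), (.ofNat (nat_lit 831503824)), (.negSucc (nat_lit 7744926399662000354686)), (.ofNat (nat_lit 7744926399662000354687)), (.negSucc (nat_lit 7744926399662000354686)), (.ofNat (nat_lit 7744926399662000354687)), (.ofNat (nat_lit 0))⟩,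
    ⟨nat_lit 1, nat_lit 9, nat_lit 10, (.ofNat (nat_lit 8)), (.ofNat (nat_lit 2320080960)), (.ofNat (nat_lit 18257156886485202808201583247296)), (.ofNat (nat_lit 580583104)), (.ofNat (nat_lit 4496573409367308716773279408448)), (.ofNat (nat_lit 2320080944)), (.ofNat (nat_lit 2320080976)), (.ofNat (nat_lit 7744926399662000354687)), (.negSucc (nat_lit 7744926399662000354686)), (.negSucc (nat_lit 7744926399662000354686)), (.ofNat (nat_lit 7744926399662000354687)), (.ofNat (nat_lit 0))⟩,
    ⟨nat_lit 0, nat_lit 18, nat_lit 10, (.ofNat (nat_lit 8)), (.ofNat (nat_lit 1448293056)), (.ofNat (nat_lit 25009090039080804405861419553344)), (.ofNat (nat_lit 580058816)), (.ofNat (nat_lit 4500633981339534707615237546304)), (.ofNat (nat_lit 1448293040)), (.ofNat (nat_lit 1448293072)), (.ofNat (nat_lit 7744926399662000354687)), (.negSucc (nat_lit 7744926399662000354686)), (.negSucc (nat_lit 7744926399662000354686)), (.ofNat (nat_lit 7744926399662000354687)), (.ofNat (nat_lit 0))⟩,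
    ⟨nat_lit 1, nat_lit 11, nat_lit 17, (.ofNat (nat_lit 8)), (.negSucc (nat_lit 3945103551)), (.ofNat (nat_lit 43462832241088077550233832809408)), (.negSucc (nat_lit 262143)), (.ofNat (nat_lit 22333145847242949630769758208)), (.negSucc (nat_lit 3945103567)), (.negSucc (nat_lit 3945103535)), (.ofNat (nat_lit 7744926399662000354687)), (.negSucc (nat_lit 7744926399662000354686)), (.negSucc (nat_lit 7744926399662000354686)), (.ofNat (nat_lit 7744926399662000354687)), (.ofNat (nat_lit 0))⟩,
    ⟨nat_lit 0, nat_lit 6, nat_lit 11, (.ofNat (nat_lit 8)), (.negSucc (nat_lit 4644274047)), (.ofNat (nat_lit 38047808208752902529895147094656)), (.negSucc (nat_lit 1048575)), (.ofNat (nat_lit 16242287888903963367832551424)), (.negSucc (nat_lit 4644274063)), (.negSucc (nat_lit 4644274031)), (.negSucc (nat_lit 7744926399662000354686)), (.ofNat (nat_lit 7744926399662000354687)), (.negSucc (nat_lit 7744926399662000354686)), (.ofNat (nat_lit 7744926399662000354687)), (.ofNat (nat_lit 0))⟩,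
    ⟨nat_lit 0, nat_lit 19, nat_lit 12, (.ofNat (nat_lit 8)), (.negSucc (nat_lit 145542079)), (.ofNat (nat_lit 1622601486914710554564731147456)), (.negSucc (nat_lit 262143)), (.ofNat (nat_lit 2030285986112995420979068928)), (.negSucc (nat_lit 145542095)), (.negSucc (nat_lit 145542063)), (.negSucc (nat_lit 7744926399662000354686)), (.ofNat (nat_lit 7744926399662000354687)), (.negSucc (nat_lit 7744926399662000354686)), (.ofNat (nat_lit 7744926399662000354687)), (.ofNat (nat_lit 0))⟩,
    ⟨nat_lit 1, nat_lit 12, nat_lit 13, (.ofNat (nat_lit 8)), (.ofNat (nat_lit 2012894656)), (.ofNat (nat_lit 18339535145561390103366181729088)), (.ofNat (nat_lit 580058816)), (.ofNat (nat_lit 4496573409367308716773279408448)), (.ofNat (nat_lit 2012894640)), (.ofNat (nat_lit 2012894672)), (.ofNat (nat_lit 7744926399662000354687)), (.negSucc (nat_lit 7744926399662000354686)), (.negSucc (nat_lit 7744926399662000354686)), (.ofNat (nat_lit 7744926399662000354687)), (.ofNat (nat_lit 0))⟩,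
    ⟨nat_lit 0, nat_lit 14, nat_lit 13, (.ofNat (nat_lit 8)), (.ofNat (nat_lit 409715328)), (.ofNat (nat_lit 30756041046380975259129048039424)), (.ofNat (nat_lit 579534528)), (.ofNat (nat_lit 4500633981339534707615237546304)), (.ofNat (nat_lit 409715312)), (.ofNat (nat_lit 409715344)), (.ofNat (nat_lit 7744926399662000354687)), (.negSucc (nat_lit 7744926399662000354686)), (.negSucc (nat_lit 7744926399662000354686)), (.ofNat (nat_lit 7744926399662000354687)), (.ofNat (nat_lit 0))⟩,
    ⟨nat_lit 0, nat_lit 15, nat_lit 14, (.ofNat (nat_lit 8)), (.negSucc (nat_lit 1596235711)), (.ofNat (nat_lit 15220097880255529999164291514944)), (.ofNat (nat_lit 0)), (.ofNat (nat_lit 12181715916677972525874413568)), (.negSucc (nat_lit 1596235727)), (.negSucc (nat_lit 1596235695)), (.negSucc (nat_lit 7744926399662000354686)), (.ofNat (nat_lit 7744926399662000354687)), (.negSucc (nat_lit 7744926399662000354686)), (.ofNat (nat_lit 7744926399662000354687)), (.ofNat (nat_lit 0))⟩,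
    ⟨nat_lit 2, nat_lit 15, nat_lit 16, (.ofNat (nat_lit 8)), (.negSucc (nat_lit 5700252543)), (.ofNat (nat_lit 47005406187069538565589709606528)), (.negSucc (nat_lit 1048575)), (.ofNat (nat_lit 20302859861129954209790689280)), (.negSucc (nat_lit 5700252559)), (.negSucc (nat_lit 5700252527)), (.negSucc (nat_lit 7744926399662000354686)), (.ofNat (nat_lit 7744926399662000354687)), (.negSucc (nat_lit 7744926399662000354686)), (.ofNat (nat_lit 7744926399662000354687)), (.ofNat (nat_lit 0))⟩,
    ⟨nat_lit 0, nat_lit 16, nat_lit 17, (.ofNat (nat_lit 8)), (.negSucc (nat_lit 5051380927)), (.ofNat (nat_lit 52030869095819282589528036470720)), (.negSucc (nat_lit 524287)), (.ofNat (nat_lit 24363431833355945051748827136)), (.negSucc (nat_lit 5051380943)), (.negSucc (nat_lit 5051380911)), (.ofNat (nat_lit 7744926399662000354687)), (.negSucc (nat_lit 7744926399662000354686)), (.negSucc (nat_lit 7744926399662000354686)), (.ofNat (nat_lit 7744926399662000354687)), (.ofNat (nat_lit 0))⟩,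
    ⟨nat_lit 2, nat_lit 19, nat_lit 7, (.ofNat (nat_lit 8)), (.negSucc (nat_lit 3698604159)), (.ofNat (nat_lit 29140805789944688831749661116416)), (.negSucc (nat_lit 1310719)), (.ofNat (nat_lit 10151429930564977104895344640)), (.negSucc (nat_lit 3698604175)), (.negSucc (nat_lit 3698604143)), (.negSucc (nat_lit 7744926399662000354686)), (.ofNat (nat_lit 7744926399662000354687)), (.negSucc (nat_lit 7744926399662000354686)), (.ofNat (nat_lit 7744926399662000354687)), (.ofNat (nat_lit 0))⟩]
  es := [
    ⟨nat_lit 1, nat_lit 0, (.negSucc (nat_lit 5867697855)), (.negSucc (nat_lit 833252799)), (.negSucc (nat_lit 5867697839)), (.negSucc (nat_lit 833252815)), (.negSucc (nat_lit 7744926399662000354686)), (.ofNat (nat_lit 0)), (.ofNat (nat_lit 4060571972225990841958137856))⟩,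
    ⟨nat_lit 1, nat_lit 2, (.negSucc (nat_lit 5867697855)), (.negSucc (nat_lit 5709248383)), (.negSucc (nat_lit 5867697839)), (.negSucc (nat_lit 5709248399)), (.ofNat (nat_lit 7744926399662000354687)), (.ofNat (nat_lit 0)), (.ofNat (nat_lit 32484575777807926735665102848))⟩,
    ⟨nat_lit 2, nat_lit 3, (.negSucc (nat_lit 5709248383)), (.negSucc (nat_lit 2493535487)), (.negSucc (nat_lit 5709248367)), (.negSucc (nat_lit 2493535503)), (.negSucc (nat_lit 7744926399662000354686)), (.ofNat (nat_lit 0)), (.ofNat (nat_lit 16242287888903963367832551424))⟩,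
    ⟨nat_lit 3, nat_lit 4, (.negSucc (nat_lit 2493535487)), (.negSucc (nat_lit 339309503)), (.negSucc (nat_lit 2493535471)), (.negSucc (nat_lit 339309519)), (.ofNat (nat_lit 7744926399662000354687)), (.ofNat (nat_lit 0)), (.ofNat (nat_lit 16242287888903963367832551424))⟩,
    ⟨nat_lit 5, nat_lit 4, (.negSucc (nat_lit 3595147839)), (.negSucc (nat_lit 339309503)), (.negSucc (nat_lit 3595147823)), (.negSucc (nat_lit 339309519)), (.negSucc (nat_lit 7744926399662000354686)), (.ofNat (nat_lit 0)), (.ofNat (nat_lit 8997207390706843424388516954752))⟩,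
    ⟨nat_lit 6, nat_lit 5, (.negSucc (nat_lit 5830802303)), (.negSucc (nat_lit 3595147839)), (.negSucc (nat_lit 5830802287)), (.negSucc (nat_lit 3595147855)), (.ofNat (nat_lit 7744926399662000354687)), (.ofNat (nat_lit 0)), (.ofNat (nat_lit 36545147750033917577623240704))⟩,
    ⟨nat_lit 6, nat_lit 12, (.negSucc (nat_lit 5830802303)), (.negSucc (nat_lit 4644274047)), (.negSucc (nat_lit 5830802287)), (.negSucc (nat_lit 4644274063)), (.negSucc (nat_lit 7744926399662000354686)), (.ofNat (nat_lit 0)), (.ofNat (nat_lit 8121143944451981683916275712))⟩,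
    ⟨nat_lit 19, nat_lit 7, (.negSucc (nat_lit 3698604159)), (.negSucc (nat_lit 2880469631)), (.negSucc (nat_lit 3698604143)), (.negSucc (nat_lit 2880469647)), (.ofNat (nat_lit 7744926399662000354687)), (.ofNat (nat_lit 0)), (.ofNat (nat_lit 20302859861129954209790689280))⟩,
    ⟨nat_lit 7, nat_lit 8, (.negSucc (nat_lit 2880469631)), (.ofNat (nat_lit 831503808)), (.negSucc (nat_lit 2880469615)), (.ofNat (nat_lit 831503792)), (.negSucc (nat_lit 7744926399662000354686)), (.ofNat (nat_lit 0)), (.ofNat (nat_lit 8985025674790165451862642541184))⟩,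
    ⟨nat_lit 8, nat_lit 9, (.ofNat (nat_lit 831503808)), (.ofNat (nat_lit 2320080960)), (.ofNat (nat_lit 831503824)), (.ofNat (nat_lit 2320080944)), (.ofNat (nat_lit 7744926399662000354687)), (.ofNat (nat_lit 0)), (.ofNat (nat_lit 0))⟩,
    ⟨nat_lit 10, nat_lit 9, (.ofNat (nat_lit 1448293056)), (.ofNat (nat_lit 2320080960)), (.ofNat (nat_lit 1448293072)), (.ofNat (nat_lit 2320080944)), (.negSucc (nat_lit 7744926399662000354686)), (.ofNat (nat_lit 0)), (.ofNat (nat_lit 8993146818734617433546558816896))⟩,
    ⟨nat_lit 12, nat_lit 11, (.negSucc (nat_lit 4644274047)), (.negSucc (nat_lit 3945103551)), (.negSucc (nat_lit 4644274031)), (.negSucc (nat_lit 3945103567)), (.ofNat (nat_lit 7744926399662000354687)), (.ofNat (nat_lit 0)), (.ofNat (nat_lit 24363431833355945051748827136))⟩,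
    ⟨nat_lit 13, nat_lit 14, (.negSucc (nat_lit 145542079)), (.ofNat (nat_lit 2012894656)), (.negSucc (nat_lit 145542063)), (.ofNat (nat_lit 2012894640)), (.ofNat (nat_lit 7744926399662000354687)), (.ofNat (nat_lit 0)), (.ofNat (nat_lit 4060571972225990841958137856))⟩,
    ⟨nat_lit 15, nat_lit 14, (.ofNat (nat_lit 409715328)), (.ofNat (nat_lit 2012894656)), (.ofNat (nat_lit 409715344)), (.ofNat (nat_lit 2012894640)), (.negSucc (nat_lit 7744926399662000354686)), (.ofNat (nat_lit 0)), (.ofNat (nat_lit 8989086246762391442704600679040))⟩,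
    ⟨nat_lit 16, nat_lit 15, (.negSucc (nat_lit 1596235711)), (.ofNat (nat_lit 409715328)), (.negSucc (nat_lit 1596235695)), (.ofNat (nat_lit 409715312)), (.ofNat (nat_lit 7744926399662000354687)), (.ofNat (nat_lit 0)), (.ofNat (nat_lit 12181715916677972525874413568))⟩,
    ⟨nat_lit 17, nat_lit 16, (.negSucc (nat_lit 5700252543)), (.negSucc (nat_lit 1596235711)), (.negSucc (nat_lit 5700252527)), (.negSucc (nat_lit 1596235727)), (.negSucc (nat_lit 7744926399662000354686)), (.ofNat (nat_lit 0)), (.ofNat (nat_lit 12181715916677972525874413568))⟩,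
    ⟨nat_lit 17, nat_lit 18, (.negSucc (nat_lit 5700252543)), (.negSucc (nat_lit 5051380927)), (.negSucc (nat_lit 5700252527)), (.negSucc (nat_lit 5051380943)), (.ofNat (nat_lit 7744926399662000354687)), (.ofNat (nat_lit 0)), (.ofNat (nat_lit 28424003805581935893706964992))⟩,
    ⟨nat_lit 18, nat_lit 11, (.negSucc (nat_lit 5051380927)), (.negSucc (nat_lit 3945103551)), (.negSucc (nat_lit 5051380911)), (.negSucc (nat_lit 3945103567)), (.negSucc (nat_lit 7744926399662000354686)), (.ofNat (nat_lit 0)), (.ofNat (nat_lit 20302859861129954209790689280))⟩,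
    ⟨nat_lit 0, nat_lit 10, (.negSucc (nat_lit 833252799)), (.ofNat (nat_lit 1448293056)), (.negSucc (nat_lit 833252783)), (.ofNat (nat_lit 1448293040)), (.ofNat (nat_lit 7744926399662000354687)), (.ofNat (nat_lit 0)), (.ofNat (nat_lit 8121143944451981683916275712))⟩,
    ⟨nat_lit 19, nat_lit 13, (.negSucc (nat_lit 3698604159)), (.negSucc (nat_lit 145542079)), (.negSucc (nat_lit 3698604143)), (.negSucc (nat_lit 145542095)), (.negSucc (nat_lit 7744926399662000354686)), (.ofNat (nat_lit 0)), (.ofNat (nat_lit 0))⟩]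

theorem ok100 : stOK 19 19 S100 = true := by decide +kernel

def S101 : SD where
  vs := [
    ⟨nat_lit 0, nat_lit 0, nat_lit 18, (.ofNat (nat_lit 8)), (.negSucc (nat_lit 833252799)), (.ofNat (nat_lit 7453352264827389066203124979968)), (.ofNat (nat_lit 0)), (.ofNat (nat_lit 114666957920421370248360453696)), (.negSucc (nat_lit 833252815)), (.negSucc (nat_lit 833252783)), (.negSucc (nat_lit 7865940874656719110227)), (.ofNat (nat_lit 7865940874656719110228)), (.negSucc (nat_lit 7865940874656719110227)), (.ofNat (nat_lit 7865940874656719110228)), (.ofNat (nat_lit 726086849968312533246))⟩,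
    ⟨nat_lit 2, nat_lit 0, nat_lit 1, (.ofNat (nat_lit 8)), (.negSucc (nat_lit 5867697855)), (.ofNat (nat_lit 47053999412031224287871198612736)), (.ofNat (nat_lit 0)), (.ofNat (nat_lit 723907683262018835192220508992)), (.negSucc (nat_lit 5867697871)), (.negSucc (nat_lit 5867697839)), (.negSucc (nat_lit 7865940874656719110227)), (.ofNat (nat_lit 7865940874384978460756)), (.negSucc (nat_lit 7865940874656719110227)), (.ofNat (nat_lit 7865940874384978460756)), (.ofNat (nat_lit 726086849424831234302))⟩,
    ⟨nat_lit 0, nat_lit 1, nat_lit 2, (.ofNat (nat_lit 8)), (.negSucc (nat_lit 5709248383)), (.ofNat (nat_lit 48300353590360742449709359533568)), (.ofNat (nat_lit 0)), (.ofNat (nat_lit 743082362886232062366413554560)), (.negSucc (nat_lit 5709248399)), (.negSucc (nat_lit 5709248367)), (.ofNat (nat_lit 7865940874384978460756)), (.negSucc (nat_lit 7865941208745054768826)), (.negSucc (nat_lit 7865941208745054768826)), (.ofNat (nat_lit 7865940874384978460756)), (.ofNat (nat_lit 726087517058021252556))⟩,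
    ⟨nat_lit 0, nat_lit 2, nat_lit 3, (.ofNat (nat_lit 8)), (.negSucc (nat_lit 2493535487)), (.ofNat (nat_lit 23005745006221441853366076840576)), (.ofNat (nat_lit 0)), (.ofNat (nat_lit 353933480710876047746690805120)), (.negSucc (nat_lit 2493535503)), (.negSucc (nat_lit 2493535471)), (.negSucc (nat_lit 7865941208745054768826)), (.ofNat (nat_lit 7865941373385837839010)), (.negSucc (nat_lit 7865941208745054768826)), (.ofNat (nat_lit 7865941373385837839010)), (.ofNat (nat_lit 726089183779892625206))⟩,
    ⟨nat_lit 1, nat_lit 3, nat_lit 4, (.ofNat (nat_lit 8)), (.negSucc (nat_lit 339309503)), (.ofNat (nat_lit 39950760301389859783771827676416)), (.ofNat (nat_lit 0)), (.ofNat (nat_lit 614627081559843996668490053952)), (.negSucc (nat_lit 339309519)), (.negSucc (nat_lit 339309487)), (.ofNat (nat_lit 7865941373385837839010)), (.negSucc (nat_lit 7865940874656719110227)), (.negSucc (nat_lit 7865940874656719110227)), (.ofNat (nat_lit 7865941373385837839010)), (.ofNat (nat_lit 726088844884787448374))⟩,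
    ⟨nat_lit 0, nat_lit 5, nat_lit 4, (.ofNat (nat_lit 8)), (.negSucc (nat_lit 3595147839)), (.ofNat (nat_lit 65560992149806576702835959777024)), (.ofNat (nat_lit 0)), (.ofNat (nat_lit 1008630648458562718497090273728)), (.negSucc (nat_lit 3595147855)), (.negSucc (nat_lit 3595147823)), (.ofNat (nat_lit 7865940874656719110228)), (.negSucc (nat_lit 7865940874656719110227)), (.negSucc (nat_lit 7865940874656719110227)), (.ofNat (nat_lit 7865940874656719110228)), (.ofNat (nat_lit 726086849968312533246))⟩,
    ⟨nat_lit 2, nat_lit 6, nat_lit 5, (.ofNat (nat_lit 8)), (.negSucc (nat_lit 5830802303)), (.ofNat (nat_lit 47975466319820218156460623519232)), (.ofNat (nat_lit 0)), (.ofNat (nat_lit 738084097228003356247328888704)), (.negSucc (nat_lit 5830802319)), (.negSucc (nat_lit 5830802287)), (.negSucc (nat_lit 7865940874656719110227)), (.ofNat (nat_lit 7865940874656719110228)), (.negSucc (nat_lit 7865940874656719110227)), (.ofNat (nat_lit 7865940874656719110228)), (.ofNat (nat_lit 726086849968312533246))⟩,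
    ⟨nat_lit 0, nat_lit 7, nat_lit 8, (.ofNat (nat_lit 8)), (.negSucc (nat_lit 2880469631)), (.ofNat (nat_lit 36031528705175756646017010546688)), (.ofNat (nat_lit 0)), (.ofNat (nat_lit 554331210848857794549668097536)), (.negSucc (nat_lit 2880469647)), (.negSucc (nat_lit 2880469615)), (.ofNat (nat_lit 7865940874656719110228)), (.negSucc (nat_lit 7865940874656719110227)), (.negSucc (nat_lit 7865940874656719110227)), (.ofNat (nat_lit 7865940874656719110228)), (.ofNat (nat_lit 726086849968312533246))⟩,
    ⟨nat_lit 0, nat_lit 8, nat_lit 9, (.ofNat (nat_lit 8)), (.ofNat (nat_lit 831503808)), (.ofNat (nat_lit 6833365097839646191310242202368)), (.ofNat (nat_lit 0)), (.ofNat (nat_lit 105128693812917633711623266496)), (.ofNat (nat_lit 831503792)), (.ofNat (nat_lit 831503824)), (.negSucc (nat_lit 7865940874656719110227)), (.ofNat (nat_lit 7865940874656719110228)), (.negSucc (nat_lit 7865940874656719110227)), (.ofNat (nat_lit 7865940874656719110228)), (.ofNat (nat_lit 726086849968312533246))⟩,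
    ⟨nat_lit 1, nat_lit 9, nat_lit 10, (.ofNat (nat_lit 8)), (.ofNat (nat_lit 2320080960)), (.ofNat (nat_lit 18542424962836534102077412513024)), (.ofNat (nat_lit 0)), (.ofNat (nat_lit 285268076351331293875829265728)), (.ofNat (nat_lit 2320080944)), (.ofNat (nat_lit 2320080976)), (.ofNat (nat_lit 7865940874656719110228)), (.negSucc (nat_lit 7865940874656719110227)), (.negSucc (nat_lit 7865940874656719110227)), (.ofNat (nat_lit 7865940874656719110228)), (.ofNat (nat_lit 726086849968312533246))⟩,
    ⟨nat_lit 0, nat_lit 18, nat_lit 10, (.ofNat (nat_lit 8)), (.ofNat (nat_lit 1448293056)), (.ofNat (nat_lit 25399857070941441974699825595136)), (.ofNat (nat_lit 0)), (.ofNat (nat_lit 390767031860637568838406041792)), (.ofNat (nat_lit 1448293040)), (.ofNat (nat_lit 1448293072)), (.ofNat (nat_lit 7865940874656719110228)), (.negSucc (nat_lit 7865940874656719110227)), (.negSucc (nat_lit 7865940874656719110227)), (.ofNat (nat_lit 7865940874656719110228)), (.ofNat (nat_lit 726086849968312533246))⟩,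
    ⟨nat_lit 1, nat_lit 11, nat_lit 17, (.ofNat (nat_lit 8)), (.negSucc (nat_lit 3945103551)), (.ofNat (nat_lit 44141938994855078761950712349952)), (.ofNat (nat_lit 0)), (.ofNat (nat_lit 679106753767001211716879540544)), (.negSucc (nat_lit 3945103567)), (.negSucc (nat_lit 3945103535)), (.ofNat (nat_lit 7865940874656719110228)), (.negSucc (nat_lit 7865940874656719110227)), (.negSucc (nat_lit 7865940874656719110227)), (.ofNat (nat_lit 7865940874656719110228)), (.ofNat (nat_lit 726086849968312533246))⟩,
    ⟨nat_lit 0, nat_lit 6, nat_lit 11, (.ofNat (nat_lit 8)), (.negSucc (nat_lit 4644274047)), (.ofNat (nat_lit 38642305212014666631919922916864)), (.ofNat (nat_lit 0)), (.ofNat (nat_lit 594497003261764102024775822208)), (.negSucc (nat_lit 4644274063)), (.negSucc (nat_lit 4644274031)), (.negSucc (nat_lit 7865940874656719110227)), (.ofNat (nat_lit 7865940874656719110228)), (.negSucc (nat_lit 7865940874656719110227)), (.ofNat (nat_lit 7865940874656719110228)), (.ofNat (nat_lit 726086849968312533246))⟩,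
    ⟨nat_lit 0, nat_lit 19, nat_lit 12, (.ofNat (nat_lit 8)), (.negSucc (nat_lit 145542079)), (.ofNat (nat_lit 1647954635147752906979598840064)), (.ofNat (nat_lit 0)), (.ofNat (nat_lit 25353148233042352414867692608)), (.negSucc (nat_lit 145542095)), (.negSucc (nat_lit 145542063)), (.negSucc (nat_lit 7865940874656719110227)), (.ofNat (nat_lit 7865940874656719110228)), (.negSucc (nat_lit 7865940874656719110227)), (.ofNat (nat_lit 7865940874656719110228)), (.ofNat (nat_lit 726086849968312533246))⟩,
    ⟨nat_lit 1, nat_lit 12, nat_lit 13, (.ofNat (nat_lit 8)), (.ofNat (nat_lit 2012894656)), (.ofNat (nat_lit 18626090382210786823728947375872)), (.ofNat (nat_lit 0)), (.ofNat (nat_lit 286555236649396720362765646784)), (.ofNat (nat_lit 2012894640)), (.ofNat (nat_lit 2012894672)), (.ofNat (nat_lit 7865940874656719110228)), (.negSucc (nat_lit 7865940874656719110227)), (.negSucc (nat_lit 7865940874656719110227)), (.ofNat (nat_lit 7865940874656719110228)), (.ofNat (nat_lit 726086849968312533246))⟩,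
    ⟨nat_lit 0, nat_lit 14, nat_lit 13, (.ofNat (nat_lit 8)), (.ofNat (nat_lit 409715328)), (.ofNat (nat_lit 31236604187730677997549030342656)), (.ofNat (nat_lit 0)), (.ofNat (nat_lit 480563141349702738419982303232)), (.ofNat (nat_lit 409715312)), (.ofNat (nat_lit 409715344)), (.ofNat (nat_lit 7865940874656719110228)), (.negSucc (nat_lit 7865940874656719110227)), (.negSucc (nat_lit 7865940874656719110227)), (.ofNat (nat_lit 7865940874656719110228)), (.ofNat (nat_lit 726086849968312533246))⟩,
    ⟨nat_lit 0, nat_lit 15, nat_lit 14, (.ofNat (nat_lit 8)), (.negSucc (nat_lit 1596235711)), (.ofNat (nat_lit 15457911909634522655399299105536)), (.ofNat (nat_lit 0)), (.ofNat (nat_lit 237814029378992656235007590592)), (.negSucc (nat_lit 1596235727)), (.negSucc (nat_lit 1596235695)), (.negSucc (nat_lit 7865940874656719110227)), (.ofNat (nat_lit 7865940874656719110228)), (.negSucc (nat_lit 7865940874656719110227)), (.ofNat (nat_lit 7865940874656719110228)), (.ofNat (nat_lit 726086849968312533246))⟩,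
    ⟨nat_lit 2, nat_lit 15, nat_lit 16, (.ofNat (nat_lit 8)), (.negSucc (nat_lit 5700252543)), (.ofNat (nat_lit 47739865658742500105671074463232)), (.ofNat (nat_lit 0)), (.ofNat (nat_lit 734459471672961540081364856704)), (.negSucc (nat_lit 5700252559)), (.negSucc (nat_lit 5700252527)), (.negSucc (nat_lit 7865940874656719110227)), (.ofNat (nat_lit 7865940874656719110228)), (.negSucc (nat_lit 7865940874656719110227)), (.ofNat (nat_lit 7865940874656719110228)), (.ofNat (nat_lit 726086849968312533246))⟩,
    ⟨nat_lit 0, nat_lit 16, nat_lit 17, (.ofNat (nat_lit 8)), (.negSucc (nat_lit 5051380927)), (.ofNat (nat_lit 52843851425441458879982798951680)), (.ofNat (nat_lit 0)), (.ofNat (nat_lit 812982329622176290454762480960)), (.negSucc (nat_lit 5051380943)), (.negSucc (nat_lit 5051380911)), (.ofNat (nat_lit 7865940874656719110228)), (.negSucc (nat_lit 7865940874656719110227)), (.negSucc (nat_lit 7865940874656719110227)), (.ofNat (nat_lit 7865940874656719110228)), (.ofNat (nat_lit 726086849968312533246))⟩,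
    ⟨nat_lit 2, nat_lit 19, nat_lit 7, (.ofNat (nat_lit 8)), (.negSucc (nat_lit 3698604159)), (.ofNat (nat_lit 29596130880412574594742045794304)), (.ofNat (nat_lit 0)), (.ofNat (nat_lit 455325090467885762992384677888)), (.negSucc (nat_lit 3698604175)), (.negSucc (nat_lit 3698604143)), (.negSucc (nat_lit 7865940874656719110227)), (.ofNat (nat_lit 7865940874656719110228)), (.negSucc (nat_lit 7865940874656719110227)), (.ofNat (nat_lit 7865940874656719110228)), (.ofNat (nat_lit 726086849968312533246))⟩]
  es := [
    ⟨nat_lit 1, nat_lit 0, (.negSucc (nat_lit 5867697855)), (.negSucc (nat_lit 833252799)), (.negSucc (nat_lit 5867697839)), (.negSucc (nat_lit 833252815)), (.negSucc (nat_lit 7865940874656719110227)), (.negSucc (nat_lit 121014474994718755540)), (.ofNat (nat_lit 13831307790541981981306688896))⟩,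
    ⟨nat_lit 1, nat_lit 2, (.negSucc (nat_lit 5867697855)), (.negSucc (nat_lit 5709248383)), (.negSucc (nat_lit 5867697839)), (.negSucc (nat_lit 5709248399)), (.ofNat (nat_lit 7865940874384978460756)), (.ofNat (nat_lit 121014474722978106069)), (.ofNat (nat_lit 1433984057139003662108232397056))⟩,
    ⟨nat_lit 2, nat_lit 3, (.negSucc (nat_lit 5709248383)), (.negSucc (nat_lit 2493535487)), (.negSucc (nat_lit 5709248367)), (.negSucc (nat_lit 2493535503)), (.negSucc (nat_lit 7865941208745054768826)), (.negSucc (nat_lit 121014809083054414139)), (.ofNat (nat_lit 52178759688735126653551804800))⟩,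
    ⟨nat_lit 3, nat_lit 4, (.negSucc (nat_lit 2493535487)), (.negSucc (nat_lit 339309503)), (.negSucc (nat_lit 2493535471)), (.negSucc (nat_lit 339309519)), (.ofNat (nat_lit 7865941373385837839010)), (.ofNat (nat_lit 121014973723837484323)), (.ofNat (nat_lit 655688612270652326450734959744))⟩,
    ⟨nat_lit 5, nat_lit 4, (.negSucc (nat_lit 3595147839)), (.negSucc (nat_lit 339309503)), (.negSucc (nat_lit 3595147823)), (.negSucc (nat_lit 339309519)), (.negSucc (nat_lit 7865940874656719110227)), (.negSucc (nat_lit 121014474994718755540)), (.ofNat (nat_lit 573565720072565573106376092288))⟩,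
    ⟨nat_lit 6, nat_lit 5, (.negSucc (nat_lit 5830802303)), (.negSucc (nat_lit 3595147839)), (.negSucc (nat_lit 5830802287)), (.negSucc (nat_lit 3595147855)), (.ofNat (nat_lit 7865940874656719110228)), (.ofNat (nat_lit 121014474994718755541)), (.ofNat (nat_lit 1443695576844559863887804455168))⟩,
    ⟨nat_lit 6, nat_lit 12, (.negSucc (nat_lit 5830802303)), (.negSucc (nat_lit 4644274047)), (.negSucc (nat_lit 5830802287)), (.negSucc (nat_lit 4644274063)), (.negSucc (nat_lit 7865940874656719110227)), (.negSucc (nat_lit 121014474994718755540)), (.ofNat (nat_lit 32472617611446848606853322240))⟩,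
    ⟨nat_lit 19, nat_lit 7, (.negSucc (nat_lit 3698604159)), (.negSucc (nat_lit 2880469631)), (.negSucc (nat_lit 3698604143)), (.negSucc (nat_lit 2880469647)), (.ofNat (nat_lit 7865940874656719110228)), (.ofNat (nat_lit 121014474994718755541)), (.ofNat (nat_lit 902909731103568530266350328448))⟩,
    ⟨nat_lit 7, nat_lit 8, (.negSucc (nat_lit 2880469631)), (.ofNat (nat_lit 831503808)), (.negSucc (nat_lit 2880469615)), (.ofNat (nat_lit 831503792)), (.negSucc (nat_lit 7865940874656719110227)), (.negSucc (nat_lit 121014474994718755540)), (.ofNat (nat_lit 205752690594147058832985866624))⟩,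
    ⟨nat_lit 8, nat_lit 9, (.ofNat (nat_lit 831503808)), (.ofNat (nat_lit 2320080960)), (.ofNat (nat_lit 831503824)), (.ofNat (nat_lit 2320080944)), (.ofNat (nat_lit 7865940874656719110228)), (.ofNat (nat_lit 121014474994718755541)), (.ofNat (nat_lit 4504697031688208590260666368))⟩,
    ⟨nat_lit 10, nat_lit 9, (.ofNat (nat_lit 1448293056)), (.ofNat (nat_lit 2320080960)), (.ofNat (nat_lit 1448293072)), (.ofNat (nat_lit 2320080944)), (.negSucc (nat_lit 7865940874656719110227)), (.negSucc (nat_lit 121014474994718755540)), (.ofNat (nat_lit 566031455670974379161397865088))⟩,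
    ⟨nat_lit 12, nat_lit 11, (.negSucc (nat_lit 4644274047)), (.negSucc (nat_lit 3945103551)), (.negSucc (nat_lit 4644274031)), (.negSucc (nat_lit 3945103567)), (.ofNat (nat_lit 7865940874656719110228)), (.ofNat (nat_lit 121014474994718755541)), (.ofNat (nat_lit 1156521388912081355442698322176))⟩,
    ⟨nat_lit 13, nat_lit 14, (.negSucc (nat_lit 145542079)), (.ofNat (nat_lit 2012894656)), (.negSucc (nat_lit 145542063)), (.ofNat (nat_lit 2012894640)), (.ofNat (nat_lit 7865940874656719110228)), (.ofNat (nat_lit 121014474994718755541)), (.ofNat (nat_lit 42965846633881709111316357888))⟩,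
    ⟨nat_lit 15, nat_lit 14, (.ofNat (nat_lit 409715328)), (.ofNat (nat_lit 2012894656)), (.ofNat (nat_lit 409715344)), (.ofNat (nat_lit 2012894640)), (.negSucc (nat_lit 7865940874656719110227)), (.negSucc (nat_lit 121014474994718755540)), (.ofNat (nat_lit 530144626664911731614214935680))⟩,
    ⟨nat_lit 16, nat_lit 15, (.negSucc (nat_lit 1596235711)), (.ofNat (nat_lit 409715328)), (.negSucc (nat_lit 1596235695)), (.ofNat (nat_lit 409715312)), (.ofNat (nat_lit 7865940874656719110228)), (.ofNat (nat_lit 121014474994718755541)), (.ofNat (nat_lit 430981656034493745225749670784))⟩,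
    ⟨nat_lit 17, nat_lit 16, (.negSucc (nat_lit 5700252543)), (.negSucc (nat_lit 1596235711)), (.negSucc (nat_lit 5700252527)), (.negSucc (nat_lit 1596235727)), (.negSucc (nat_lit 7865940874656719110227)), (.negSucc (nat_lit 121014474994718755540)), (.ofNat (nat_lit 44646402723491567244265510400))⟩,
    ⟨nat_lit 17, nat_lit 18, (.negSucc (nat_lit 5700252543)), (.negSucc (nat_lit 5051380927)), (.negSucc (nat_lit 5700252527)), (.negSucc (nat_lit 5051380943)), (.ofNat (nat_lit 7865940874656719110228)), (.ofNat (nat_lit 121014474994718755541)), (.ofNat (nat_lit 1424272540622431512918464203008))⟩,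
    ⟨nat_lit 18, nat_lit 11, (.negSucc (nat_lit 5051380927)), (.negSucc (nat_lit 3945103551)), (.negSucc (nat_lit 5051380911)), (.negSucc (nat_lit 3945103567)), (.negSucc (nat_lit 7865940874656719110227)), (.negSucc (nat_lit 121014474994718755540)), (.ofNat (nat_lit 201692118621921067991060758912))⟩,
    ⟨nat_lit 0, nat_lit 10, (.negSucc (nat_lit 833252799)), (.ofNat (nat_lit 1448293056)), (.negSucc (nat_lit 833252783)), (.ofNat (nat_lit 1448293040)), (.ofNat (nat_lit 7865940874656719110228)), (.ofNat (nat_lit 121014474994718755541)), (.ofNat (nat_lit 215502608050300758515414218496))⟩,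
    ⟨nat_lit 19, nat_lit 13, (.negSucc (nat_lit 3698604159)), (.negSucc (nat_lit 145542079)), (.negSucc (nat_lit 3698604143)), (.negSucc (nat_lit 145542095)), (.negSucc (nat_lit 7865940874656719110227)), (.negSucc (nat_lit 121014474994718755540)), (.ofNat (nat_lit 7740449832202995718419027328))⟩]

theorem ok101 : stOK 19 19 S101 = true := by decide +kernel

def S102 : SD where
  vs := [
    ⟨nat_lit 0, nat_lit 0, nat_lit 18, (.ofNat (nat_lit 8)), (.negSucc (nat_lit 833514943)), (.ofNat (nat_lit 7459538292441327099126419806464)), (.negSucc (nat_lit 262143)), (.ofNat (nat_lit 6186027613938032923294826496)), (.negSucc (nat_lit 833514959)), (.negSucc (nat_lit 833514927)), (.negSucc (nat_lit 7865940874656719110227)), (.ofNat (nat_lit 7865940874656719110228)), (.negSucc (nat_lit 7865940874656719110227)), (.ofNat (nat_lit 7865940874656719110228)), (.ofNat (nat_lit 0))⟩,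
    ⟨nat_lit 2, nat_lit 0, nat_lit 1, (.ofNat (nat_lit 8)), (.negSucc (nat_lit 5869532863)), (.ofNat (nat_lit 47072557494873038386641083092224)), (.negSucc (nat_lit 1835007)), (.ofNat (nat_lit 18558082841814098769884479488)), (.negSucc (nat_lit 5869532879)), (.negSucc (nat_lit 5869532847)), (.negSucc (nat_lit 7865940874656719110227)), (.ofNat (nat_lit 7865940874384978460756)), (.negSucc (nat_lit 7865940874656719110227)), (.ofNat (nat_lit 7865940874384978460756)), (.ofNat (nat_lit 0))⟩,
    ⟨nat_lit 0, nat_lit 1, nat_lit 2, (.ofNat (nat_lit 8)), (.negSucc (nat_lit 5075777727)), (.ofNat (nat_lit 53316188463388445881115532535040)), (.ofNat (nat_lit 633470656)), (.ofNat (nat_lit 5015834873027703431406173001472)), (.negSucc (nat_lit 5075777743)), (.negSucc (nat_lit 5075777711)), (.ofNat (nat_lit 7865940874384978460756)), (.negSucc (nat_lit 7865941208745054768826)), (.negSucc (nat_lit 7865941208745054768826)), (.ofNat (nat_lit 7865940874384978460756)), (.ofNat (nat_lit 0))⟩,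
    ⟨nat_lit 0, nat_lit 2, nat_lit 3, (.ofNat (nat_lit 8)), (.negSucc (nat_lit 1859016255)), (.ofNat (nat_lit 28013331842080244230222972301696)), (.ofNat (nat_lit 634519232)), (.ofNat (nat_lit 5007586835858802376856895461120)), (.negSucc (nat_lit 1859016271)), (.negSucc (nat_lit 1859016239)), (.negSucc (nat_lit 7865941208745054768826)), (.ofNat (nat_lit 7865941373385837839010)), (.negSucc (nat_lit 7865941208745054768826)), (.ofNat (nat_lit 7865941373385837839010)), (.ofNat (nat_lit 0))⟩,
    ⟨nat_lit 1, nat_lit 3, nat_lit 4, (.ofNat (nat_lit 8)), (.ofNat (nat_lit 296258304)), (.ofNat (nat_lit 44966595174590201588926600887296)), (.ofNat (nat_lit 635567808)), (.ofNat (nat_lit 5015834873200341805154773210880)), (.ofNat (nat_lit 296258288)), (.ofNat (nat_lit 296258320)), (.ofNat (nat_lit 7865941373385837839010)), (.negSucc (nat_lit 7865940874656719110227)), (.negSucc (nat_lit 7865940874656719110227)), (.ofNat (nat_lit 7865941373385837839010)), (.ofNat (nat_lit 0))⟩,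
    ⟨nat_lit 0, nat_lit 5, nat_lit 4, (.ofNat (nat_lit 8)), (.negSucc (nat_lit 2960890751)), (.ofNat (nat_lit 70587137069030148562862891032064)), (.ofNat (nat_lit 634257088)), (.ofNat (nat_lit 5026144919223571860026931255040)), (.negSucc (nat_lit 2960890767)), (.negSucc (nat_lit 2960890735)), (.ofNat (nat_lit 7865940874656719110228)), (.negSucc (nat_lit 7865940874656719110227)), (.negSucc (nat_lit 7865940874656719110227)), (.ofNat (nat_lit 7865940874656719110228)), (.ofNat (nat_lit 0))⟩,
    ⟨nat_lit 2, nat_lit 6, nat_lit 5, (.ofNat (nat_lit 8)), (.negSucc (nat_lit 5832637311)), (.ofNat (nat_lit 47998148421071324277179371216384)), (.negSucc (nat_lit 1835007)), (.ofNat (nat_lit 22682101251106120718747697152)), (.negSucc (nat_lit 5832637327)), (.negSucc (nat_lit 5832637295)), (.negSucc (nat_lit 7865940874656719110227)), (.ofNat (nat_lit 7865940874656719110228)), (.negSucc (nat_lit 7865940874656719110227)), (.ofNat (nat_lit 7865940874656719110228)), (.ofNat (nat_lit 0))⟩,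
    ⟨nat_lit 0, nat_lit 7, nat_lit 8, (.ofNat (nat_lit 8)), (.negSucc (nat_lit 2245950399)), (.ofNat (nat_lit 41043239559966806429222920539904)), (.ofNat (nat_lit 634519232)), (.ofNat (nat_lit 5011710854791049783205909993216)), (.negSucc (nat_lit 2245950415)), (.negSucc (nat_lit 2245950383)), (.ofNat (nat_lit 7865940874656719110228)), (.negSucc (nat_lit 7865940874656719110227)), (.negSucc (nat_lit 7865940874656719110227)), (.ofNat (nat_lit 7865940874656719110228)), (.ofNat (nat_lit 0))⟩,
    ⟨nat_lit 0, nat_lit 8, nat_lit 9, (.ofNat (nat_lit 8)), (.ofNat (nat_lit 1467333760)), (.ofNat (nat_lit 11834765906607465919643994151424)), (.ofNat (nat_lit 635829952)), (.ofNat (nat_lit 5001400808767819728333751949056)), (.ofNat (nat_lit 1467333744)), (.ofNat (nat_lit 1467333776)), (.negSucc (nat_lit 7865940874656719110227)), (.ofNat (nat_lit 7865940874656719110228)), (.negSucc (nat_lit 7865940874656719110227)), (.ofNat (nat_lit 7865940874656719110228)), (.ofNat (nat_lit 0))⟩,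
    ⟨nat_lit 1, nat_lit 9, nat_lit 10, (.ofNat (nat_lit 8)), (.ofNat (nat_lit 2956435200)), (.ofNat (nat_lit 23547949790013645852360027679744)), (.ofNat (nat_lit 636354240)), (.ofNat (nat_lit 5005524827177111750282615166720)), (.ofNat (nat_lit 2956435184)), (.ofNat (nat_lit 2956435216)), (.ofNat (nat_lit 7865940874656719110228)), (.negSucc (nat_lit 7865940874656719110227)), (.negSucc (nat_lit 7865940874656719110227)), (.ofNat (nat_lit 7865940874656719110228)), (.ofNat (nat_lit 0))⟩,
    ⟨nat_lit 0, nat_lit 18, nat_lit 10, (.ofNat (nat_lit 8)), (.ofNat (nat_lit 2084123008)), (.ofNat (nat_lit 30409505916527845746931303979520)), (.ofNat (nat_lit 635829952)), (.ofNat (nat_lit 5009648845586403772231478384384)), (.ofNat (nat_lit 2084122992)), (.ofNat (nat_lit 2084123024)), (.ofNat (nat_lit 7865940874656719110228)), (.negSucc (nat_lit 7865940874656719110227)), (.negSucc (nat_lit 7865940874656719110227)), (.ofNat (nat_lit 7865940874656719110228)), (.ofNat (nat_lit 0))⟩,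
    ⟨nat_lit 1, nat_lit 11, nat_lit 17, (.ofNat (nat_lit 8)), (.negSucc (nat_lit 3945627839)), (.ofNat (nat_lit 44162559086901538871695028438272)), (.negSucc (nat_lit 524287)), (.ofNat (nat_lit 20620092046460109744316088320)), (.negSucc (nat_lit 3945627855)), (.negSucc (nat_lit 3945627823)), (.ofNat (nat_lit 7865940874656719110228)), (.negSucc (nat_lit 7865940874656719110227)), (.negSucc (nat_lit 7865940874656719110227)), (.ofNat (nat_lit 7865940874656719110228)), (.ofNat (nat_lit 0))⟩,
    ⟨nat_lit 0, nat_lit 6, nat_lit 11, (.ofNat (nat_lit 8)), (.negSucc (nat_lit 4645322623)), (.ofNat (nat_lit 38658801285651834719715375787520)), (.negSucc (nat_lit 1048575)), (.ofNat (nat_lit 16496073637168087795452870656)), (.negSucc (nat_lit 4645322639)), (.negSucc (nat_lit 4645322607)), (.negSucc (nat_lit 7865940874656719110227)), (.ofNat (nat_lit 7865940874656719110228)), (.negSucc (nat_lit 7865940874656719110227)), (.ofNat (nat_lit 7865940874656719110228)), (.ofNat (nat_lit 0))⟩,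
    ⟨nat_lit 0, nat_lit 19, nat_lit 12, (.ofNat (nat_lit 8)), (.negSucc (nat_lit 145804223)), (.ofNat (nat_lit 1650016644352398917954030448896)), (.negSucc (nat_lit 262143)), (.ofNat (nat_lit 2062009204646010974431608832)), (.negSucc (nat_lit 145804239)), (.negSucc (nat_lit 145804207)), (.negSucc (nat_lit 7865940874656719110227)), (.ofNat (nat_lit 7865940874656719110228)), (.negSucc (nat_lit 7865940874656719110227)), (.ofNat (nat_lit 7865940874656719110228)), (.ofNat (nat_lit 0))⟩,
    ⟨nat_lit 1, nat_lit 12, nat_lit 13, (.ofNat (nat_lit 8)), (.ofNat (nat_lit 2648724608)), (.ofNat (nat_lit 23631615209387898574011562542592)), (.ofNat (nat_lit 635829952)), (.ofNat (nat_lit 5005524827177111750282615166720)), (.ofNat (nat_lit 2648724592)), (.ofNat (nat_lit 2648724624)), (.ofNat (nat_lit 7865940874656719110228)), (.negSucc (nat_lit 7865940874656719110227)), (.negSucc (nat_lit 7865940874656719110227)), (.ofNat (nat_lit 7865940874656719110228)), (.ofNat (nat_lit 0))⟩,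
    ⟨nat_lit 0, nat_lit 14, nat_lit 13, (.ofNat (nat_lit 8)), (.ofNat (nat_lit 1045020992)), (.ofNat (nat_lit 36246253033317081769780508727040)), (.ofNat (nat_lit 635305664)), (.ofNat (nat_lit 5009648845586403772231478384384)), (.ofNat (nat_lit 1045020976)), (.ofNat (nat_lit 1045021008)), (.ofNat (nat_lit 7865940874656719110228)), (.negSucc (nat_lit 7865940874656719110227)), (.negSucc (nat_lit 7865940874656719110227)), (.ofNat (nat_lit 7865940874656719110228)), (.ofNat (nat_lit 0))⟩,
    ⟨nat_lit 0, nat_lit 15, nat_lit 14, (.ofNat (nat_lit 8)), (.negSucc (nat_lit 1596235711)), (.ofNat (nat_lit 15470283964862398721245888758528)), (.ofNat (nat_lit 0)), (.ofNat (nat_lit 12372055227876065846589652992)), (.negSucc (nat_lit 1596235727)), (.negSucc (nat_lit 1596235695)), (.negSucc (nat_lit 7865940874656719110227)), (.ofNat (nat_lit 7865940874656719110228)), (.negSucc (nat_lit 7865940874656719110227)), (.ofNat (nat_lit 7865940874656719110228)), (.ofNat (nat_lit 0))⟩,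
    ⟨nat_lit 2, nat_lit 15, nat_lit 16, (.ofNat (nat_lit 8)), (.negSucc (nat_lit 5701301119)), (.ofNat (nat_lit 47760485750788960215415390551552)), (.negSucc (nat_lit 1048575)), (.ofNat (nat_lit 20620092046460109744316088320)), (.negSucc (nat_lit 5701301135)), (.negSucc (nat_lit 5701301103)), (.negSucc (nat_lit 7865940874656719110227)), (.ofNat (nat_lit 7865940874656719110228)), (.negSucc (nat_lit 7865940874656719110227)), (.ofNat (nat_lit 7865940874656719110228)), (.ofNat (nat_lit 0))⟩,
    ⟨nat_lit 0, nat_lit 16, nat_lit 17, (.ofNat (nat_lit 8)), (.negSucc (nat_lit 5052167359)), (.ofNat (nat_lit 52866533526692565000701546648832)), (.negSucc (nat_lit 786431)), (.ofNat (nat_lit 22682101251106120718747697152)), (.negSucc (nat_lit 5052167375)), (.negSucc (nat_lit 5052167343)), (.ofNat (nat_lit 7865940874656719110228)), (.negSucc (nat_lit 7865940874656719110227)), (.negSucc (nat_lit 7865940874656719110227)), (.ofNat (nat_lit 7865940874656719110228)), (.ofNat (nat_lit 0))⟩,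
    ⟨nat_lit 2, nat_lit 19, nat_lit 7, (.ofNat (nat_lit 8)), (.negSucc (nat_lit 3699914879)), (.ofNat (nat_lit 29606440926435804649614203838464)), (.negSucc (nat_lit 1310719)), (.ofNat (nat_lit 10310046023230054872158044160)), (.negSucc (nat_lit 3699914895)), (.negSucc (nat_lit 3699914863)), (.negSucc (nat_lit 7865940874656719110227)), (.ofNat (nat_lit 7865940874656719110228)), (.negSucc (nat_lit 7865940874656719110227)), (.ofNat (nat_lit 7865940874656719110228)), (.ofNat (nat_lit 0))⟩]
  es := [
    ⟨nat_lit 1, nat_lit 0, (.negSucc (nat_lit 5869532863)), (.negSucc (nat_lit 833514943)), (.negSucc (nat_lit 5869532847)), (.negSucc (nat_lit 833514959)), (.negSucc (nat_lit 7865940874656719110227)), (.ofNat (nat_lit 0)), (.ofNat (nat_lit 4124018409292021948863217664))⟩,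
    ⟨nat_lit 1, nat_lit 2, (.negSucc (nat_lit 5869532863)), (.negSucc (nat_lit 5075777727)), (.negSucc (nat_lit 5869532847)), (.negSucc (nat_lit 5075777743)), (.ofNat (nat_lit 7865940874384978460756)), (.ofNat (nat_lit 0)), (.ofNat (nat_lit 32992147273837529325199425536))⟩,
    ⟨nat_lit 2, nat_lit 3, (.negSucc (nat_lit 5075777727)), (.negSucc (nat_lit 1859016255)), (.negSucc (nat_lit 5075777711)), (.negSucc (nat_lit 1859016271)), (.negSucc (nat_lit 7865941208745054768826)), (.ofNat (nat_lit 0)), (.ofNat (nat_lit 9998677810588866212570941041984))⟩,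
    ⟨nat_lit 3, nat_lit 4, (.negSucc (nat_lit 1859016255)), (.ofNat (nat_lit 296258304)), (.negSucc (nat_lit 1859016239)), (.ofNat (nat_lit 296258288)), (.ofNat (nat_lit 7865941373385837839010)), (.ofNat (nat_lit 0)), (.ofNat (nat_lit 16495756660995311571730620800))⟩,
    ⟨nat_lit 5, nat_lit 4, (.negSucc (nat_lit 2960890751)), (.ofNat (nat_lit 296258304)), (.negSucc (nat_lit 2960890735)), (.ofNat (nat_lit 296258288)), (.negSucc (nat_lit 7865940874656719110227)), (.ofNat (nat_lit 0)), (.ofNat (nat_lit 10015173672763515522514093551104))⟩,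
    ⟨nat_lit 6, nat_lit 5, (.negSucc (nat_lit 5832637311)), (.negSucc (nat_lit 2960890751)), (.negSucc (nat_lit 5832637295)), (.negSucc (nat_lit 2960890767)), (.ofNat (nat_lit 7865940874656719110228)), (.ofNat (nat_lit 0)), (.ofNat (nat_lit 37116165683628197539768958976))⟩,
    ⟨nat_lit 6, nat_lit 12, (.negSucc (nat_lit 5832637311)), (.negSucc (nat_lit 4645322623)), (.negSucc (nat_lit 5832637295)), (.negSucc (nat_lit 4645322639)), (.negSucc (nat_lit 7865940874656719110227)), (.ofNat (nat_lit 0)), (.ofNat (nat_lit 8248036818584043897726435328))⟩,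
    ⟨nat_lit 19, nat_lit 7, (.negSucc (nat_lit 3699914879)), (.negSucc (nat_lit 2245950399)), (.negSucc (nat_lit 3699914863)), (.negSucc (nat_lit 2245950415)), (.ofNat (nat_lit 7865940874656719110228)), (.ofNat (nat_lit 0)), (.ofNat (nat_lit 20620092046460109744316088320))⟩,
    ⟨nat_lit 7, nat_lit 8, (.negSucc (nat_lit 2245950399)), (.ofNat (nat_lit 1467333760)), (.negSucc (nat_lit 2245950383)), (.ofNat (nat_lit 1467333744)), (.negSucc (nat_lit 7865940874656719110227)), (.ofNat (nat_lit 0)), (.ofNat (nat_lit 10002801617535639456667503898112))⟩,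
    ⟨nat_lit 8, nat_lit 9, (.ofNat (nat_lit 1467333760)), (.ofNat (nat_lit 2956435200)), (.ofNat (nat_lit 1467333776)), (.ofNat (nat_lit 2956435184)), (.ofNat (nat_lit 7865940874656719110228)), (.ofNat (nat_lit 0)), (.ofNat (nat_lit 0))⟩,
    ⟨nat_lit 10, nat_lit 9, (.ofNat (nat_lit 2084123008)), (.ofNat (nat_lit 2956435200)), (.ofNat (nat_lit 2084123024)), (.ofNat (nat_lit 2956435184)), (.negSucc (nat_lit 7865940874656719110227)), (.ofNat (nat_lit 0)), (.ofNat (nat_lit 10011049654354223500565230333440))⟩,
    ⟨nat_lit 12, nat_lit 11, (.negSucc (nat_lit 4645322623)), (.negSucc (nat_lit 3945627839)), (.negSucc (nat_lit 4645322607)), (.negSucc (nat_lit 3945627855)), (.ofNat (nat_lit 7865940874656719110228)), (.ofNat (nat_lit 0)), (.ofNat (nat_lit 24744110455752131693179305984))⟩,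
    ⟨nat_lit 13, nat_lit 14, (.negSucc (nat_lit 145804223)), (.ofNat (nat_lit 2648724608)), (.negSucc (nat_lit 145804207)), (.ofNat (nat_lit 2648724592)), (.ofNat (nat_lit 7865940874656719110228)), (.ofNat (nat_lit 0)), (.ofNat (nat_lit 4124018409292021948863217664))⟩,
    ⟨nat_lit 15, nat_lit 14, (.ofNat (nat_lit 1045020992)), (.ofNat (nat_lit 2648724608)), (.ofNat (nat_lit 1045021008)), (.ofNat (nat_lit 2648724592)), (.negSucc (nat_lit 7865940874656719110227)), (.ofNat (nat_lit 0)), (.ofNat (nat_lit 10006925635944931478616367115776))⟩,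
    ⟨nat_lit 16, nat_lit 15, (.negSucc (nat_lit 1596235711)), (.ofNat (nat_lit 1045020992)), (.negSucc (nat_lit 1596235695)), (.ofNat (nat_lit 1045020976)), (.ofNat (nat_lit 7865940874656719110228)), (.ofNat (nat_lit 0)), (.ofNat (nat_lit 12372055227876065846589652992))⟩,
    ⟨nat_lit 17, nat_lit 16, (.negSucc (nat_lit 5701301119)), (.negSucc (nat_lit 1596235711)), (.negSucc (nat_lit 5701301103)), (.negSucc (nat_lit 1596235727)), (.negSucc (nat_lit 7865940874656719110227)), (.ofNat (nat_lit 0)), (.ofNat (nat_lit 12372055227876065846589652992))⟩,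
    ⟨nat_lit 17, nat_lit 18, (.negSucc (nat_lit 5701301119)), (.negSucc (nat_lit 5052167359)), (.negSucc (nat_lit 5701301103)), (.negSucc (nat_lit 5052167375)), (.ofNat (nat_lit 7865940874656719110228)), (.ofNat (nat_lit 0)), (.ofNat (nat_lit 28868128865044153642042523648))⟩,
    ⟨nat_lit 18, nat_lit 11, (.negSucc (nat_lit 5052167359)), (.negSucc (nat_lit 3945627839)), (.negSucc (nat_lit 5052167343)), (.negSucc (nat_lit 3945627855)), (.negSucc (nat_lit 7865940874656719110227)), (.ofNat (nat_lit 0)), (.ofNat (nat_lit 16496073637168087795452870656))⟩,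
    ⟨nat_lit 0, nat_lit 10, (.negSucc (nat_lit 833514943)), (.ofNat (nat_lit 2084123008)), (.negSucc (nat_lit 833514927)), (.ofNat (nat_lit 2084122992)), (.ofNat (nat_lit 7865940874656719110228)), (.ofNat (nat_lit 0)), (.ofNat (nat_lit 8248036818584043897726435328))⟩,
    ⟨nat_lit 19, nat_lit 13, (.negSucc (nat_lit 3699914879)), (.negSucc (nat_lit 145804223)), (.negSucc (nat_lit 3699914863)), (.negSucc (nat_lit 145804239)), (.negSucc (nat_lit 7865940874656719110227)), (.ofNat (nat_lit 0)), (.ofNat (nat_lit 0))⟩]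

theorem ok102 : stOK 19 19 S102 = true := by decide +kernel

def S103 : SD where
  vs := [
    ⟨nat_lit 0, nat_lit 0, nat_lit 18, (.ofNat (nat_lit 8)), (.negSucc (nat_lit 833514943)), (.ofNat (nat_lit 7576093578260722835049973761600)), (.ofNat (nat_lit 0)), (.ofNat (nat_lit 116555285819395735923553955136)), (.negSucc (nat_lit 833514959)), (.negSucc (nat_lit 833514927)), (.negSucc (nat_lit 7988846200823230346324)), (.ofNat (nat_lit 7988846200823230346325)), (.negSucc (nat_lit 7988846200823230346324)), (.ofNat (nat_lit 7988846200823230346325)), (.ofNat (nat_lit 737431956999067416582))⟩,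
    ⟨nat_lit 2, nat_lit 0, nat_lit 1, (.ofNat (nat_lit 8)), (.negSucc (nat_lit 5869532863)), (.ofNat (nat_lit 47808066205730429611430479905600)), (.ofNat (nat_lit 0)), (.ofNat (nat_lit 735508710857391224789396813376)), (.negSucc (nat_lit 5869532879)), (.negSucc (nat_lit 5869532847)), (.negSucc (nat_lit 7988846200823230346324)), (.ofNat (nat_lit 7988846200823230346325)), (.negSucc (nat_lit 7988846200823230346324)), (.ofNat (nat_lit 7988846200823230346325)), (.ofNat (nat_lit 737431957542548715526))⟩,
    ⟨nat_lit 0, nat_lit 1, nat_lit 2, (.ofNat (nat_lit 8)), (.negSucc (nat_lit 5075777727)), (.ofNat (nat_lit 54149253908347956126937007380800)), (.ofNat (nat_lit 0)), (.ofNat (nat_lit 833065444959510245821474845760)), (.negSucc (nat_lit 5075777743)), (.negSucc (nat_lit 5075777711)), (.ofNat (nat_lit 7988846200823230346325)), (.negSucc (nat_lit 7988846200823230346324)), (.negSucc (nat_lit 7988846200823230346324)), (.ofNat (nat_lit 7988846200823230346325)), (.ofNat (nat_lit 737431289909358697272))⟩,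
    ⟨nat_lit 0, nat_lit 2, nat_lit 3, (.ofNat (nat_lit 8)), (.negSucc (nat_lit 1859016255)), (.ofNat (nat_lit 28451041243806214066297530590400)), (.ofNat (nat_lit 0)), (.ofNat (nat_lit 437709401725969836074558288704)), (.negSucc (nat_lit 1859016271)), (.negSucc (nat_lit 1859016239)), (.negSucc (nat_lit 7988846200823230346324)), (.ofNat (nat_lit 7988846200823230346325)), (.negSucc (nat_lit 7988846200823230346324)), (.ofNat (nat_lit 7988846200823230346325)), (.ofNat (nat_lit 737429623187487324622))⟩,
    ⟨nat_lit 1, nat_lit 3, nat_lit 4, (.ofNat (nat_lit 8)), (.ofNat (nat_lit 296258304)), (.ofNat (nat_lit 45669198224193173488751792582400)), (.ofNat (nat_lit 0)), (.ofNat (nat_lit 702603049602971899825191695104)), (.ofNat (nat_lit 296258288)), (.ofNat (nat_lit 296258320)), (.ofNat (nat_lit 7988846200823230346325)), (.negSucc (nat_lit 7988846200823230346324)), (.negSucc (nat_lit 7988846200823230346324)), (.ofNat (nat_lit 7988846200823230346325)), (.ofNat (nat_lit 737429962082592501454))⟩,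
    ⟨nat_lit 0, nat_lit 5, nat_lit 4, (.ofNat (nat_lit 8)), (.negSucc (nat_lit 2960890751)), (.ofNat (nat_lit 71690061085733744634154819401600)), (.ofNat (nat_lit 0)), (.ofNat (nat_lit 1102924016703596071291928369536)), (.negSucc (nat_lit 2960890767)), (.negSucc (nat_lit 2960890735)), (.ofNat (nat_lit 7988846200823230346325)), (.negSucc (nat_lit 7988846200823230346324)), (.negSucc (nat_lit 7988846200823230346324)), (.ofNat (nat_lit 7988846200823230346325)), (.ofNat (nat_lit 737431956999067416582))⟩,
    ⟨nat_lit 2, nat_lit 6, nat_lit 5, (.ofNat (nat_lit 8)), (.negSucc (nat_lit 5832637311)), (.ofNat (nat_lit 48748119490150563719008392009600)), (.ofNat (nat_lit 0)), (.ofNat (nat_lit 749971069079239441829020793216)), (.negSucc (nat_lit 5832637327)), (.negSucc (nat_lit 5832637295)), (.negSucc (nat_lit 7988846200823230346324)), (.ofNat (nat_lit 7988846200823230346325)), (.negSucc (nat_lit 7988846200823230346324)), (.ofNat (nat_lit 7988846200823230346325)), (.ofNat (nat_lit 737431956999067416582))⟩,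
    ⟨nat_lit 0, nat_lit 7, nat_lit 8, (.ofNat (nat_lit 8)), (.negSucc (nat_lit 2245950399)), (.ofNat (nat_lit 41684540178091287779677898097600)), (.ofNat (nat_lit 0)), (.ofNat (nat_lit 641300618124481350454977557696)), (.negSucc (nat_lit 2245950415)), (.negSucc (nat_lit 2245950383)), (.ofNat (nat_lit 7988846200823230346325)), (.negSucc (nat_lit 7988846200823230346324)), (.negSucc (nat_lit 7988846200823230346324)), (.ofNat (nat_lit 7988846200823230346325)), (.ofNat (nat_lit 737431956999067416582))⟩,
    ⟨nat_lit 0, nat_lit 8, nat_lit 9, (.ofNat (nat_lit 8)), (.ofNat (nat_lit 1467333760)), (.ofNat (nat_lit 12019684123898207574637961385600)), (.ofNat (nat_lit 0)), (.ofNat (nat_lit 184918217290741654993967234176)), (.ofNat (nat_lit 1467333744)), (.ofNat (nat_lit 1467333776)), (.negSucc (nat_lit 7988846200823230346324)), (.ofNat (nat_lit 7988846200823230346325)), (.negSucc (nat_lit 7988846200823230346324)), (.ofNat (nat_lit 7988846200823230346325)), (.ofNat (nat_lit 737431956999067416582))⟩,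
    ⟨nat_lit 1, nat_lit 9, nat_lit 10, (.ofNat (nat_lit 8)), (.ofNat (nat_lit 2956435200)), (.ofNat (nat_lit 23915886505482609068802217593600)), (.ofNat (nat_lit 0)), (.ofNat (nat_lit 367936715468963216442189913856)), (.ofNat (nat_lit 2956435184)), (.ofNat (nat_lit 2956435216)), (.ofNat (nat_lit 7988846200823230346325)), (.negSucc (nat_lit 7988846200823230346324)), (.negSucc (nat_lit 7988846200823230346324)), (.ofNat (nat_lit 7988846200823230346325)), (.ofNat (nat_lit 737431956999067416582))⟩,
    ⟨nat_lit 0, nat_lit 18, nat_lit 10, (.ofNat (nat_lit 8)), (.ofNat (nat_lit 2084123008)), (.ofNat (nat_lit 30884654446473593336725897488000)), (.ofNat (nat_lit 0)), (.ofNat (nat_lit 475148529945747589794593508480)), (.ofNat (nat_lit 2084122992)), (.ofNat (nat_lit 2084123024)), (.ofNat (nat_lit 7988846200823230346325)), (.negSucc (nat_lit 7988846200823230346324)), (.negSucc (nat_lit 7988846200823230346324)), (.ofNat (nat_lit 7988846200823230346325)), (.ofNat (nat_lit 737431956999067416582))⟩,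
    ⟨nat_lit 1, nat_lit 11, nat_lit 17, (.ofNat (nat_lit 8)), (.negSucc (nat_lit 3945627839)), (.ofNat (nat_lit 44852599072634375416563508756800)), (.ofNat (nat_lit 0)), (.ofNat (nat_lit 690039985732836544868480318528)), (.negSucc (nat_lit 3945627855)), (.negSucc (nat_lit 3945627823)), (.ofNat (nat_lit 7988846200823230346325)), (.negSucc (nat_lit 7988846200823230346324)), (.negSucc (nat_lit 7988846200823230346324)), (.ofNat (nat_lit 7988846200823230346325)), (.ofNat (nat_lit 737431956999067416582))⟩,
    ⟨nat_lit 0, nat_lit 6, nat_lit 11, (.ofNat (nat_lit 8)), (.negSucc (nat_lit 4645322623)), (.ofNat (nat_lit 39262845055740144637209392688000)), (.ofNat (nat_lit 0)), (.ofNat (nat_lit 604043770088309917494016900480)), (.negSucc (nat_lit 4645322639)), (.negSucc (nat_lit 4645322607)), (.negSucc (nat_lit 7988846200823230346324)), (.ofNat (nat_lit 7988846200823230346325)), (.negSucc (nat_lit 7988846200823230346324)), (.ofNat (nat_lit 7988846200823230346325)), (.ofNat (nat_lit 737431956999067416582))⟩,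
    ⟨nat_lit 0, nat_lit 19, nat_lit 12, (.ofNat (nat_lit 8)), (.negSucc (nat_lit 145804223)), (.ofNat (nat_lit 1675798154420405151046996622400)), (.ofNat (nat_lit 0)), (.ofNat (nat_lit 25781510068006233092966173504)), (.negSucc (nat_lit 145804239)), (.negSucc (nat_lit 145804207)), (.negSucc (nat_lit 7988846200823230346324)), (.ofNat (nat_lit 7988846200823230346325)), (.negSucc (nat_lit 7988846200823230346324)), (.ofNat (nat_lit 7988846200823230346325)), (.ofNat (nat_lit 737431956999067416582))⟩,
    ⟨nat_lit 1, nat_lit 12, nat_lit 13, (.ofNat (nat_lit 8)), (.ofNat (nat_lit 2648724608)), (.ofNat (nat_lit 24000859197034584489229554364800)), (.ofNat (nat_lit 0)), (.ofNat (nat_lit 369243987646685915217991822208)), (.ofNat (nat_lit 2648724592)), (.ofNat (nat_lit 2648724624)), (.ofNat (nat_lit 7988846200823230346325)), (.negSucc (nat_lit 7988846200823230346324)), (.negSucc (nat_lit 7988846200823230346324)), (.ofNat (nat_lit 7988846200823230346325)), (.ofNat (nat_lit 737431956999067416582))⟩,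
    ⟨nat_lit 0, nat_lit 14, nat_lit 13, (.ofNat (nat_lit 8)), (.ofNat (nat_lit 1045020992)), (.ofNat (nat_lit 36812600736962661172431889176000)), (.ofNat (nat_lit 0)), (.ofNat (nat_lit 566347703645579402651380448960)), (.ofNat (nat_lit 1045020976)), (.ofNat (nat_lit 1045021008)), (.ofNat (nat_lit 7988846200823230346325)), (.negSucc (nat_lit 7988846200823230346324)), (.negSucc (nat_lit 7988846200823230346324)), (.ofNat (nat_lit 7988846200823230346325)), (.ofNat (nat_lit 737431956999067416582))⟩,
    ⟨nat_lit 0, nat_lit 15, nat_lit 14, (.ofNat (nat_lit 8)), (.negSucc (nat_lit 1596235711)), (.ofNat (nat_lit 15712007151813373701264741163200)), (.ofNat (nat_lit 0)), (.ofNat (nat_lit 241723186950974980018852404672)), (.negSucc (nat_lit 1596235727)), (.negSucc (nat_lit 1596235695)), (.negSucc (nat_lit 7988846200823230346324)), (.ofNat (nat_lit 7988846200823230346325)), (.negSucc (nat_lit 7988846200823230346324)), (.ofNat (nat_lit 7988846200823230346325)), (.ofNat (nat_lit 737431956999067416582))⟩,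
    ⟨nat_lit 2, nat_lit 15, nat_lit 16, (.ofNat (nat_lit 8)), (.negSucc (nat_lit 5701301119)), (.ofNat (nat_lit 48506743340645037718779358588800)), (.ofNat (nat_lit 0)), (.ofNat (nat_lit 746257589856077503363968037248)), (.negSucc (nat_lit 5701301135)), (.negSucc (nat_lit 5701301103)), (.negSucc (nat_lit 7988846200823230346324)), (.ofNat (nat_lit 7988846200823230346325)), (.negSucc (nat_lit 7988846200823230346324)), (.ofNat (nat_lit 7988846200823230346325)), (.ofNat (nat_lit 737431956999067416582))⟩,
    ⟨nat_lit 0, nat_lit 16, nat_lit 17, (.ofNat (nat_lit 8)), (.negSucc (nat_lit 5052167359)), (.ofNat (nat_lit 53692573113047136328835408020800)), (.ofNat (nat_lit 0)), (.ofNat (nat_lit 826039586354571328133861371968)), (.negSucc (nat_lit 5052167375)), (.negSucc (nat_lit 5052167343)), (.ofNat (nat_lit 7988846200823230346325)), (.negSucc (nat_lit 7988846200823230346324)), (.negSucc (nat_lit 7988846200823230346324)), (.ofNat (nat_lit 7988846200823230346325)), (.ofNat (nat_lit 737431956999067416582))⟩,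
    ⟨nat_lit 2, nat_lit 19, nat_lit 7, (.ofNat (nat_lit 8)), (.negSucc (nat_lit 3699914879)), (.ofNat (nat_lit 30069041565911364097263249561600)), (.ofNat (nat_lit 0)), (.ofNat (nat_lit 462600639475559447649045723136)), (.negSucc (nat_lit 3699914895)), (.negSucc (nat_lit 3699914863)), (.negSucc (nat_lit 7988846200823230346324)), (.ofNat (nat_lit 7988846200823230346325)), (.negSucc (nat_lit 7988846200823230346324)), (.ofNat (nat_lit 7988846200823230346325)), (.ofNat (nat_lit 737431956999067416582))⟩]
  es := [
    ⟨nat_lit 1, nat_lit 0, (.negSucc (nat_lit 5869532863)), (.negSucc (nat_lit 833514943)), (.negSucc (nat_lit 5869532847)), (.negSucc (nat_lit 833514959)), (.negSucc (nat_lit 7988846200823230346324)), (.negSucc (nat_lit 122905326166511236096)), (.ofNat (nat_lit 14111859762414388292792221568))⟩,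
    ⟨nat_lit 1, nat_lit 2, (.negSucc (nat_lit 5869532863)), (.negSucc (nat_lit 5075777727)), (.negSucc (nat_lit 5869532847)), (.negSucc (nat_lit 5075777743)), (.ofNat (nat_lit 7988846200823230346325)), (.ofNat (nat_lit 122905326438251885569)), (.ofNat (nat_lit 1456905563547358733846609652992))⟩,
    ⟨nat_lit 2, nat_lit 3, (.negSucc (nat_lit 5075777727)), (.negSucc (nat_lit 1859016255)), (.negSucc (nat_lit 5075777711)), (.negSucc (nat_lit 1859016271)), (.negSucc (nat_lit 7988846200823230346324)), (.negSucc (nat_lit 122904992078175577497)), (.ofNat (nat_lit 209227023509090214683588481216))⟩,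
    ⟨nat_lit 3, nat_lit 4, (.negSucc (nat_lit 1859016255)), (.ofNat (nat_lit 296258304)), (.negSucc (nat_lit 1859016239)), (.ofNat (nat_lit 296258288)), (.ofNat (nat_lit 7988846200823230346325)), (.ofNat (nat_lit 122904827437392507315)), (.ofNat (nat_lit 666191473872957329425742201344))⟩,
    ⟨nat_lit 5, nat_lit 4, (.negSucc (nat_lit 2960890751)), (.ofNat (nat_lit 296258304)), (.negSucc (nat_lit 2960890735)), (.ofNat (nat_lit 296258288)), (.negSucc (nat_lit 7988846200823230346324)), (.negSucc (nat_lit 122905326166511236096)), (.ofNat (nat_lit 739014773085629340228232494592))⟩,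
    ⟨nat_lit 6, nat_lit 5, (.negSucc (nat_lit 5832637311)), (.negSucc (nat_lit 2960890751)), (.negSucc (nat_lit 5832637295)), (.negSucc (nat_lit 2960890767)), (.ofNat (nat_lit 7988846200823230346325)), (.ofNat (nat_lit 122905326166511236097)), (.ofNat (nat_lit 1466833260321562802355624244480))⟩,
    ⟨nat_lit 6, nat_lit 12, (.negSucc (nat_lit 5832637311)), (.negSucc (nat_lit 4645322623)), (.negSucc (nat_lit 5832637295)), (.negSucc (nat_lit 4645322639)), (.negSucc (nat_lit 7988846200823230346324)), (.negSucc (nat_lit 122905326166511236096)), (.ofNat (nat_lit 33108877836916081302417341952))⟩,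
    ⟨nat_lit 19, nat_lit 7, (.negSucc (nat_lit 3699914879)), (.negSucc (nat_lit 2245950399)), (.negSucc (nat_lit 3699914863)), (.negSucc (nat_lit 2245950415)), (.ofNat (nat_lit 7988846200823230346325)), (.ofNat (nat_lit 122905326166511236097)), (.ofNat (nat_lit 917339884590287727771529146496))⟩,
    ⟨nat_lit 7, nat_lit 8, (.negSucc (nat_lit 2245950399)), (.ofNat (nat_lit 1467333760)), (.negSucc (nat_lit 2245950383)), (.ofNat (nat_lit 1467333744)), (.negSucc (nat_lit 7988846200823230346324)), (.negSucc (nat_lit 122905326166511236096)), (.ofNat (nat_lit 365261351658674973138425968896))⟩,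
    ⟨nat_lit 8, nat_lit 9, (.ofNat (nat_lit 1467333760)), (.ofNat (nat_lit 2956435200)), (.ofNat (nat_lit 1467333776)), (.ofNat (nat_lit 2956435184)), (.ofNat (nat_lit 7988846200823230346325)), (.ofNat (nat_lit 122905326166511236097)), (.ofNat (nat_lit 4575082922808336849508499456))⟩,
    ⟨nat_lit 10, nat_lit 9, (.ofNat (nat_lit 2084123008)), (.ofNat (nat_lit 2956435200)), (.ofNat (nat_lit 2084123024)), (.ofNat (nat_lit 2956435184)), (.negSucc (nat_lit 7988846200823230346324)), (.negSucc (nat_lit 122905326166511236096)), (.ofNat (nat_lit 731298348015118096034871328256))⟩,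
    ⟨nat_lit 12, nat_lit 11, (.negSucc (nat_lit 4645322623)), (.negSucc (nat_lit 3945627839)), (.negSucc (nat_lit 4645322607)), (.negSucc (nat_lit 3945627855)), (.ofNat (nat_lit 7988846200823230346325)), (.ofNat (nat_lit 122905326166511236097)), (.ofNat (nat_lit 1174978662339703753685616459008))⟩,
    ⟨nat_lit 13, nat_lit 14, (.negSucc (nat_lit 145804223)), (.ofNat (nat_lit 2648724608)), (.negSucc (nat_lit 145804207)), (.ofNat (nat_lit 2648724592)), (.ofNat (nat_lit 7988846200823230346325)), (.ofNat (nat_lit 122905326166511236097)), (.ofNat (nat_lit 43701625775181298659370047232))⟩,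
    ⟨nat_lit 15, nat_lit 14, (.ofNat (nat_lit 1045020992)), (.ofNat (nat_lit 2648724608)), (.ofNat (nat_lit 1045021008)), (.ofNat (nat_lit 2648724592)), (.negSucc (nat_lit 7988846200823230346324)), (.negSucc (nat_lit 122905326166511236096)), (.ofNat (nat_lit 694786349518190531776613597184))⟩,
    ⟨nat_lit 16, nat_lit 15, (.negSucc (nat_lit 1596235711)), (.ofNat (nat_lit 1045020992)), (.negSucc (nat_lit 1596235695)), (.ofNat (nat_lit 1045020976)), (.ofNat (nat_lit 7988846200823230346325)), (.ofNat (nat_lit 122905326166511236097)), (.ofNat (nat_lit 437909057772968273526147300736))⟩,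
    ⟨nat_lit 17, nat_lit 16, (.negSucc (nat_lit 5701301119)), (.negSucc (nat_lit 1596235711)), (.negSucc (nat_lit 5701301103)), (.negSucc (nat_lit 1596235727)), (.negSucc (nat_lit 7988846200823230346324)), (.negSucc (nat_lit 122905326166511236096)), (.ofNat (nat_lit 45537316128981686511557508608))⟩,
    ⟨nat_lit 17, nat_lit 18, (.negSucc (nat_lit 5701301119)), (.negSucc (nat_lit 5052167359)), (.negSucc (nat_lit 5701301103)), (.negSucc (nat_lit 5052167375)), (.ofNat (nat_lit 7988846200823230346325)), (.ofNat (nat_lit 122905326166511236097)), (.ofNat (nat_lit 1446977863583173320216378565888))⟩,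
    ⟨nat_lit 18, nat_lit 11, (.negSucc (nat_lit 5052167359)), (.negSucc (nat_lit 3945627839)), (.negSucc (nat_lit 5052167343)), (.negSucc (nat_lit 3945627855)), (.negSucc (nat_lit 7988846200823230346324)), (.negSucc (nat_lit 122905326166511236096)), (.ofNat (nat_lit 205101309125969336051344178048))⟩,
    ⟨nat_lit 0, nat_lit 10, (.negSucc (nat_lit 833514943)), (.ofNat (nat_lit 2084123008)), (.negSucc (nat_lit 833514927)), (.ofNat (nat_lit 2084122992)), (.ofNat (nat_lit 7988846200823230346325)), (.ofNat (nat_lit 122905326166511236097)), (.ofNat (nat_lit 218998711876377083554315688704))⟩,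
    ⟨nat_lit 19, nat_lit 13, (.negSucc (nat_lit 3699914879)), (.negSucc (nat_lit 145804223)), (.negSucc (nat_lit 3699914863)), (.negSucc (nat_lit 145804239)), (.negSucc (nat_lit 7988846200823230346324)), (.negSucc (nat_lit 122905326166511236096)), (.ofNat (nat_lit 7861394360831167526562299776))⟩]

theorem ok103 : stOK 19 19 S103 = true := by decide +kernel

def S104 : SD where
  vs := [
    ⟨nat_lit 0, nat_lit 0, nat_lit 18, (.ofNat (nat_lit 8)), (.negSucc (nat_lit 833777087)), (.ofNat (nat_lit 7582376262556128649737694824000)), (.negSucc (nat_lit 262143)), (.ofNat (nat_lit 6282684295405814687721062400)), (.negSucc (nat_lit 833777103)), (.negSucc (nat_lit 833777071)), (.negSucc (nat_lit 7988846200823230346324)), (.ofNat (nat_lit 7988846200823230346325)), (.negSucc (nat_lit 7988846200823230346324)), (.ofNat (nat_lit 7988846200823230346325)), (.ofNat (nat_lit 0))⟩,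
    ⟨nat_lit 2, nat_lit 0, nat_lit 1, (.ofNat (nat_lit 8)), (.negSucc (nat_lit 5871367871)), (.ofNat (nat_lit 47826914258616647055493643092800)), (.negSucc (nat_lit 1835007)), (.ofNat (nat_lit 18848052886217444063163187200)), (.negSucc (nat_lit 5871367887)), (.negSucc (nat_lit 5871367855)), (.negSucc (nat_lit 7988846200823230346324)), (.ofNat (nat_lit 7988846200823230346325)), (.negSucc (nat_lit 7988846200823230346324)), (.ofNat (nat_lit 7988846200823230346325)), (.ofNat (nat_lit 0))⟩,
    ⟨nat_lit 0, nat_lit 1, nat_lit 2, (.ofNat (nat_lit 8)), (.negSucc (nat_lit 4309911231)), (.ofNat (nat_lit 60301151204830853546012313940800)), (.ofNat (nat_lit 765866496)), (.ofNat (nat_lit 6151897296482897419075306560000)), (.negSucc (nat_lit 4309911247)), (.negSucc (nat_lit 4309911215)), (.ofNat (nat_lit 7988846200823230346325)), (.negSucc (nat_lit 7988846200823230346324)), (.negSucc (nat_lit 7988846200823230346324)), (.ofNat (nat_lit 7988846200823230346325)), (.ofNat (nat_lit 0))⟩,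
    ⟨nat_lit 0, nat_lit 2, nat_lit 3, (.ofNat (nat_lit 8)), (.negSucc (nat_lit 1092101183)), (.ofNat (nat_lit 34594561627895237065789209067200)), (.ofNat (nat_lit 766915072)), (.ofNat (nat_lit 6143520384089022999491678476800)), (.negSucc (nat_lit 1092101199)), (.negSucc (nat_lit 1092101167)), (.negSucc (nat_lit 7988846200823230346324)), (.ofNat (nat_lit 7988846200823230346325)), (.negSucc (nat_lit 7988846200823230346324)), (.ofNat (nat_lit 7988846200823230346325)), (.ofNat (nat_lit 0))⟩,
    ⟨nat_lit 1, nat_lit 3, nat_lit 4, (.ofNat (nat_lit 8)), (.ofNat (nat_lit 1064221952)), (.ofNat (nat_lit 51821095520676070907827099142400)), (.ofNat (nat_lit 767963648)), (.ofNat (nat_lit 6151897296482897419075306560000)), (.ofNat (nat_lit 1064221936)), (.ofNat (nat_lit 1064221968)), (.ofNat (nat_lit 7988846200823230346325)), (.negSucc (nat_lit 7988846200823230346324)), (.negSucc (nat_lit 7988846200823230346324)), (.ofNat (nat_lit 7988846200823230346325)), (.ofNat (nat_lit 0))⟩,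
    ⟨nat_lit 0, nat_lit 5, nat_lit 4, (.ofNat (nat_lit 8)), (.negSucc (nat_lit 2194237823)), (.ofNat (nat_lit 77852429522708985077709661065600)), (.ofNat (nat_lit 766652928)), (.ofNat (nat_lit 6162368436975240443554841664000)), (.negSucc (nat_lit 2194237839)), (.negSucc (nat_lit 2194237807)), (.ofNat (nat_lit 7988846200823230346325)), (.negSucc (nat_lit 7988846200823230346324)), (.negSucc (nat_lit 7988846200823230346324)), (.ofNat (nat_lit 7988846200823230346325)), (.ofNat (nat_lit 0))⟩,
    ⟨nat_lit 2, nat_lit 6, nat_lit 5, (.ofNat (nat_lit 8)), (.negSucc (nat_lit 5834472319)), (.ofNat (nat_lit 48771155999233718372863369238400)), (.negSucc (nat_lit 1835007)), (.ofNat (nat_lit 23036509083154653854977228800)), (.negSucc (nat_lit 5834472335)), (.negSucc (nat_lit 5834472303)), (.negSucc (nat_lit 7988846200823230346324)), (.ofNat (nat_lit 7988846200823230346325)), (.negSucc (nat_lit 7988846200823230346324)), (.ofNat (nat_lit 7988846200823230346325)), (.ofNat (nat_lit 0))⟩,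
    ⟨nat_lit 0, nat_lit 7, nat_lit 8, (.ofNat (nat_lit 8)), (.negSucc (nat_lit 1479035327)), (.ofNat (nat_lit 47832249018377247988961390616000)), (.ofNat (nat_lit 766915072)), (.ofNat (nat_lit 6147708840285960209283492518400)), (.negSucc (nat_lit 1479035343)), (.negSucc (nat_lit 1479035311)), (.ofNat (nat_lit 7988846200823230346325)), (.negSucc (nat_lit 7988846200823230346324)), (.negSucc (nat_lit 7988846200823230346324)), (.ofNat (nat_lit 7988846200823230346325)), (.ofNat (nat_lit 0))⟩,
    ⟨nat_lit 0, nat_lit 8, nat_lit 9, (.ofNat (nat_lit 8)), (.ofNat (nat_lit 2235559552)), (.ofNat (nat_lit 18156921823691824759441918800000)), (.ofNat (nat_lit 768225792)), (.ofNat (nat_lit 6137237699793617184803957414400)), (.ofNat (nat_lit 2235559536)), (.ofNat (nat_lit 2235559568)), (.negSucc (nat_lit 7988846200823230346324)), (.ofNat (nat_lit 7988846200823230346325)), (.negSucc (nat_lit 7988846200823230346324)), (.ofNat (nat_lit 7988846200823230346325)), (.ofNat (nat_lit 0))⟩,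
    ⟨nat_lit 1, nat_lit 9, nat_lit 10, (.ofNat (nat_lit 8)), (.ofNat (nat_lit 3725185280)), (.ofNat (nat_lit 30057312661473163463397989049600)), (.ofNat (nat_lit 768750080)), (.ofNat (nat_lit 6141426155990554394595771456000)), (.ofNat (nat_lit 3725185264)), (.ofNat (nat_lit 3725185296)), (.ofNat (nat_lit 7988846200823230346325)), (.negSucc (nat_lit 7988846200823230346324)), (.negSucc (nat_lit 7988846200823230346324)), (.ofNat (nat_lit 7988846200823230346325)), (.ofNat (nat_lit 0))⟩,
    ⟨nat_lit 0, nat_lit 18, nat_lit 10, (.ofNat (nat_lit 8)), (.ofNat (nat_lit 2852348800)), (.ofNat (nat_lit 37030269058661084941113482985600)), (.ofNat (nat_lit 768225792)), (.ofNat (nat_lit 6145614612187491604387585497600)), (.ofNat (nat_lit 2852348784)), (.ofNat (nat_lit 2852348816)), (.ofNat (nat_lit 7988846200823230346325)), (.negSucc (nat_lit 7988846200823230346324)), (.negSucc (nat_lit 7988846200823230346324)), (.ofNat (nat_lit 7988846200823230346325)), (.ofNat (nat_lit 0))⟩,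
    ⟨nat_lit 1, nat_lit 11, nat_lit 17, (.ofNat (nat_lit 8)), (.negSucc (nat_lit 3179499199)), (.ofNat (nat_lit 50998213684821867020951094254400)), (.ofNat (nat_lit 766128640)), (.ofNat (nat_lit 6145614612187491604387585497600)), (.negSucc (nat_lit 3179499215)), (.negSucc (nat_lit 3179499183)), (.ofNat (nat_lit 7988846200823230346325)), (.negSucc (nat_lit 7988846200823230346324)), (.negSucc (nat_lit 7988846200823230346324)), (.ofNat (nat_lit 7988846200823230346325)), (.ofNat (nat_lit 0))⟩,
    ⟨nat_lit 0, nat_lit 6, nat_lit 11, (.ofNat (nat_lit 8)), (.negSucc (nat_lit 4646371199)), (.ofNat (nat_lit 39279598880527893476376648854400)), (.negSucc (nat_lit 1048575)), (.ofNat (nat_lit 16753824787748839167256166400)), (.negSucc (nat_lit 4646371215)), (.negSucc (nat_lit 4646371183)), (.negSucc (nat_lit 7988846200823230346324)), (.ofNat (nat_lit 7988846200823230346325)), (.negSucc (nat_lit 7988846200823230346324)), (.ofNat (nat_lit 7988846200823230346325)), (.ofNat (nat_lit 0))⟩,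
    ⟨nat_lit 0, nat_lit 19, nat_lit 12, (.ofNat (nat_lit 8)), (.negSucc (nat_lit 146066367)), (.ofNat (nat_lit 1677892382518873755942903643200)), (.negSucc (nat_lit 262143)), (.ofNat (nat_lit 2094228098468604895907020800)), (.negSucc (nat_lit 146066383)), (.negSucc (nat_lit 146066351)), (.negSucc (nat_lit 7988846200823230346324)), (.ofNat (nat_lit 7988846200823230346325)), (.negSucc (nat_lit 7988846200823230346324)), (.ofNat (nat_lit 7988846200823230346325)), (.ofNat (nat_lit 0))⟩,
    ⟨nat_lit 1, nat_lit 12, nat_lit 13, (.ofNat (nat_lit 8)), (.ofNat (nat_lit 3416950400)), (.ofNat (nat_lit 30142285353025138883825325820800)), (.ofNat (nat_lit 768225792)), (.ofNat (nat_lit 6141426155990554394595771456000)), (.ofNat (nat_lit 3416950384)), (.ofNat (nat_lit 3416950416)), (.ofNat (nat_lit 7988846200823230346325)), (.negSucc (nat_lit 7988846200823230346324)), (.negSucc (nat_lit 7988846200823230346324)), (.ofNat (nat_lit 7988846200823230346325)), (.ofNat (nat_lit 0))⟩,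
    ⟨nat_lit 0, nat_lit 14, nat_lit 13, (.ofNat (nat_lit 8)), (.ofNat (nat_lit 1812722496)), (.ofNat (nat_lit 42958215349150152776819474673600)), (.ofNat (nat_lit 767701504)), (.ofNat (nat_lit 6145614612187491604387585497600)), (.ofNat (nat_lit 1812722480)), (.ofNat (nat_lit 1812722512)), (.ofNat (nat_lit 7988846200823230346325)), (.negSucc (nat_lit 7988846200823230346324)), (.negSucc (nat_lit 7988846200823230346324)), (.ofNat (nat_lit 7988846200823230346325)), (.ofNat (nat_lit 0))⟩,
    ⟨nat_lit 0, nat_lit 15, nat_lit 14, (.ofNat (nat_lit 8)), (.negSucc (nat_lit 829582783)), (.ofNat (nat_lit 21849244851606990886068698577600)), (.ofNat (nat_lit 766652928)), (.ofNat (nat_lit 6137237699793617184803957414400)), (.negSucc (nat_lit 829582799)), (.negSucc (nat_lit 829582767)), (.negSucc (nat_lit 7988846200823230346324)), (.ofNat (nat_lit 7988846200823230346325)), (.negSucc (nat_lit 7988846200823230346324)), (.ofNat (nat_lit 7988846200823230346325)), (.ofNat (nat_lit 0))⟩,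
    ⟨nat_lit 2, nat_lit 15, nat_lit 16, (.ofNat (nat_lit 8)), (.negSucc (nat_lit 4935696767)), (.ofNat (nat_lit 54652357952832529323166944086400)), (.ofNat (nat_lit 765604352)), (.ofNat (nat_lit 6145614612187491604387585497600)), (.negSucc (nat_lit 4935696783)), (.negSucc (nat_lit 4935696751)), (.negSucc (nat_lit 7988846200823230346324)), (.ofNat (nat_lit 7988846200823230346325)), (.negSucc (nat_lit 7988846200823230346324)), (.ofNat (nat_lit 7988846200823230346325)), (.ofNat (nat_lit 0))⟩,
    ⟨nat_lit 0, nat_lit 16, nat_lit 17, (.ofNat (nat_lit 8)), (.negSucc (nat_lit 4286300863)), (.ofNat (nat_lit 59840281953333096538118900539200)), (.ofNat (nat_lit 765866496)), (.ofNat (nat_lit 6147708840285960209283492518400)), (.negSucc (nat_lit 4286300879)), (.negSucc (nat_lit 4286300847)), (.ofNat (nat_lit 7988846200823230346325)), (.negSucc (nat_lit 7988846200823230346324)), (.negSucc (nat_lit 7988846200823230346324)), (.ofNat (nat_lit 7988846200823230346325)), (.ofNat (nat_lit 0))⟩,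
    ⟨nat_lit 2, nat_lit 19, nat_lit 7, (.ofNat (nat_lit 8)), (.negSucc (nat_lit 3701225599)), (.ofNat (nat_lit 30079512706403707121742784665600)), (.negSucc (nat_lit 1310719)), (.ofNat (nat_lit 10471140492343024479535104000)), (.negSucc (nat_lit 3701225615)), (.negSucc (nat_lit 3701225583)), (.negSucc (nat_lit 7988846200823230346324)), (.ofNat (nat_lit 7988846200823230346325)), (.negSucc (nat_lit 7988846200823230346324)), (.ofNat (nat_lit 7988846200823230346325)), (.ofNat (nat_lit 0))⟩]
  es := [
    ⟨nat_lit 1, nat_lit 0, (.negSucc (nat_lit 5871367871)), (.negSucc (nat_lit 833777087)), (.negSucc (nat_lit 5871367855)), (.negSucc (nat_lit 833777103)), (.negSucc (nat_lit 7988846200823230346324)), (.ofNat (nat_lit 0)), (.ofNat (nat_lit 4188456196937209791814041600))⟩,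
    ⟨nat_lit 1, nat_lit 2, (.negSucc (nat_lit 5871367871)), (.negSucc (nat_lit 4309911231)), (.negSucc (nat_lit 5871367855)), (.negSucc (nat_lit 4309911247)), (.ofNat (nat_lit 7988846200823230346325)), (.ofNat (nat_lit 0)), (.ofNat (nat_lit 33507649575497678334512332800))⟩,
    ⟨nat_lit 2, nat_lit 3, (.negSucc (nat_lit 4309911231)), (.negSucc (nat_lit 1092101183)), (.negSucc (nat_lit 4309911215)), (.negSucc (nat_lit 1092101199)), (.negSucc (nat_lit 7988846200823230346324)), (.ofNat (nat_lit 0)), (.ofNat (nat_lit 12270286943390297159816100787200))⟩,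
    ⟨nat_lit 3, nat_lit 4, (.negSucc (nat_lit 1092101183)), (.ofNat (nat_lit 1064221952)), (.negSucc (nat_lit 1092101167)), (.ofNat (nat_lit 1064221936)), (.ofNat (nat_lit 7988846200823230346325)), (.ofNat (nat_lit 0)), (.ofNat (nat_lit 16753824787748839167256166400))⟩,
    ⟨nat_lit 5, nat_lit 4, (.negSucc (nat_lit 2194237823)), (.ofNat (nat_lit 1064221952)), (.negSucc (nat_lit 2194237807)), (.ofNat (nat_lit 1064221936)), (.negSucc (nat_lit 7988846200823230346324)), (.ofNat (nat_lit 0)), (.ofNat (nat_lit 12287040768178045998983356953600))⟩,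
    ⟨nat_lit 6, nat_lit 5, (.negSucc (nat_lit 5834472319)), (.negSucc (nat_lit 2194237823)), (.negSucc (nat_lit 5834472303)), (.negSucc (nat_lit 2194237839)), (.ofNat (nat_lit 7988846200823230346325)), (.ofNat (nat_lit 0)), (.ofNat (nat_lit 37696105772434888126326374400))⟩,
    ⟨nat_lit 6, nat_lit 12, (.negSucc (nat_lit 5834472319)), (.negSucc (nat_lit 4646371199)), (.negSucc (nat_lit 5834472303)), (.negSucc (nat_lit 4646371215)), (.negSucc (nat_lit 7988846200823230346324)), (.ofNat (nat_lit 0)), (.ofNat (nat_lit 8376912393874419583628083200))⟩,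
    ⟨nat_lit 19, nat_lit 7, (.negSucc (nat_lit 3701225599)), (.negSucc (nat_lit 1479035327)), (.negSucc (nat_lit 3701225583)), (.negSucc (nat_lit 1479035343)), (.ofNat (nat_lit 7988846200823230346325)), (.ofNat (nat_lit 0)), (.ofNat (nat_lit 20942280984686048959070208000))⟩,
    ⟨nat_lit 7, nat_lit 8, (.negSucc (nat_lit 1479035327)), (.ofNat (nat_lit 2235559552)), (.negSucc (nat_lit 1479035311)), (.ofNat (nat_lit 2235559536)), (.negSucc (nat_lit 7988846200823230346324)), (.ofNat (nat_lit 0)), (.ofNat (nat_lit 12274475399587234369607914828800))⟩,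
    ⟨nat_lit 8, nat_lit 9, (.ofNat (nat_lit 2235559552)), (.ofNat (nat_lit 3725185280)), (.ofNat (nat_lit 2235559568)), (.ofNat (nat_lit 3725185264)), (.ofNat (nat_lit 7988846200823230346325)), (.ofNat (nat_lit 0)), (.ofNat (nat_lit 0))⟩,
    ⟨nat_lit 10, nat_lit 9, (.ofNat (nat_lit 2852348800)), (.ofNat (nat_lit 3725185280)), (.ofNat (nat_lit 2852348816)), (.ofNat (nat_lit 3725185264)), (.negSucc (nat_lit 7988846200823230346324)), (.ofNat (nat_lit 0)), (.ofNat (nat_lit 12282852311981108789191542912000))⟩,
    ⟨nat_lit 12, nat_lit 11, (.negSucc (nat_lit 4646371199)), (.negSucc (nat_lit 3179499199)), (.negSucc (nat_lit 4646371183)), (.negSucc (nat_lit 3179499215)), (.ofNat (nat_lit 7988846200823230346325)), (.ofNat (nat_lit 0)), (.ofNat (nat_lit 25130737181623258750884249600))⟩,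
    ⟨nat_lit 13, nat_lit 14, (.negSucc (nat_lit 146066367)), (.ofNat (nat_lit 3416950400)), (.negSucc (nat_lit 146066351)), (.ofNat (nat_lit 3416950384)), (.ofNat (nat_lit 7988846200823230346325)), (.ofNat (nat_lit 0)), (.ofNat (nat_lit 4188456196937209791814041600))⟩,
    ⟨nat_lit 15, nat_lit 14, (.ofNat (nat_lit 1812722496)), (.ofNat (nat_lit 3416950400)), (.ofNat (nat_lit 1812722512)), (.ofNat (nat_lit 3416950384)), (.negSucc (nat_lit 7988846200823230346324)), (.ofNat (nat_lit 0)), (.ofNat (nat_lit 12278663855784171579399728870400))⟩,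
    ⟨nat_lit 16, nat_lit 15, (.negSucc (nat_lit 829582783)), (.ofNat (nat_lit 1812722496)), (.negSucc (nat_lit 829582767)), (.ofNat (nat_lit 1812722480)), (.ofNat (nat_lit 7988846200823230346325)), (.ofNat (nat_lit 0)), (.ofNat (nat_lit 12565368590811629375442124800))⟩,
    ⟨nat_lit 17, nat_lit 16, (.negSucc (nat_lit 4935696767)), (.negSucc (nat_lit 829582783)), (.negSucc (nat_lit 4935696751)), (.negSucc (nat_lit 829582799)), (.negSucc (nat_lit 7988846200823230346324)), (.ofNat (nat_lit 0)), (.ofNat (nat_lit 12261910030996422740232472704000))⟩,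
    ⟨nat_lit 17, nat_lit 18, (.negSucc (nat_lit 4935696767)), (.negSucc (nat_lit 4286300863)), (.negSucc (nat_lit 4935696751)), (.negSucc (nat_lit 4286300879)), (.ofNat (nat_lit 7988846200823230346325)), (.ofNat (nat_lit 0)), (.ofNat (nat_lit 29319193378560468542698291200))⟩,
    ⟨nat_lit 18, nat_lit 11, (.negSucc (nat_lit 4286300863)), (.negSucc (nat_lit 3179499199)), (.negSucc (nat_lit 4286300847)), (.negSucc (nat_lit 3179499215)), (.negSucc (nat_lit 7988846200823230346324)), (.ofNat (nat_lit 0)), (.ofNat (nat_lit 12266098487193359950024286745600))⟩,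
    ⟨nat_lit 0, nat_lit 10, (.negSucc (nat_lit 833777087)), (.ofNat (nat_lit 2852348800)), (.negSucc (nat_lit 833777071)), (.ofNat (nat_lit 2852348784)), (.ofNat (nat_lit 7988846200823230346325)), (.ofNat (nat_lit 0)), (.ofNat (nat_lit 8376912393874419583628083200))⟩,
    ⟨nat_lit 19, nat_lit 13, (.negSucc (nat_lit 3701225599)), (.negSucc (nat_lit 146066367)), (.negSucc (nat_lit 3701225583)), (.negSucc (nat_lit 146066383)), (.negSucc (nat_lit 7988846200823230346324)), (.ofNat (nat_lit 0)), (.ofNat (nat_lit 0))⟩]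

theorem ok104 : stOK 19 19 S104 = true := by decide +kernel

def S105 : SD where
  vs := [
    ⟨nat_lit 0, nat_lit 0, nat_lit 18, (.ofNat (nat_lit 8)), (.negSucc (nat_lit 833777087)), (.ofNat (nat_lit 7700846776632443262135137113728)), (.ofNat (nat_lit 0)), (.ofNat (nat_lit 118470514076314612397442289728)), (.negSucc (nat_lit 833777103)), (.negSucc (nat_lit 833777071)), (.negSucc (nat_lit 8113672739575007310398)), (.ofNat (nat_lit 8113673039321469520090)), (.negSucc (nat_lit 8113672739575007310398)), (.ofNat (nat_lit 8113673039321469520090)), (.ofNat (nat_lit 748959832003586203826))⟩,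
    ⟨nat_lit 2, nat_lit 0, nat_lit 1, (.ofNat (nat_lit 8)), (.negSucc (nat_lit 5871367871)), (.ofNat (nat_lit 48574209793907532165733766876544)), (.ofNat (nat_lit 0)), (.ofNat (nat_lit 747295535290885110240123783744)), (.negSucc (nat_lit 5871367887)), (.negSucc (nat_lit 5871367855)), (.negSucc (nat_lit 8113672739575007310398)), (.ofNat (nat_lit 8113671922711093320486)), (.negSucc (nat_lit 8113672739575007310398)), (.ofNat (nat_lit 8113671922711093320486)), (.ofNat (nat_lit 748957598782833804618))⟩,
    ⟨nat_lit 0, nat_lit 1, nat_lit 2, (.ofNat (nat_lit 8)), (.negSucc (nat_lit 4309911231)), (.ofNat (nat_lit 61243356692406335632666279603584)), (.ofNat (nat_lit 0)), (.ofNat (nat_lit 942205487575482086653965662784)), (.negSucc (nat_lit 4309911247)), (.negSucc (nat_lit 4309911215)), (.ofNat (nat_lit 8113671922711093320486)), (.negSucc (nat_lit 8113671922711093320485)), (.negSucc (nat_lit 8113671922711093320485)), (.ofNat (nat_lit 8113671922711093320486)), (.ofNat (nat_lit 748954331327177844966))⟩,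
    ⟨nat_lit 0, nat_lit 2, nat_lit 3, (.ofNat (nat_lit 8)), (.negSucc (nat_lit 1092101183)), (.ofNat (nat_lit 35135101653331100144940744560256)), (.ofNat (nat_lit 0)), (.ofNat (nat_lit 540540025435863079151535493056)), (.negSucc (nat_lit 1092101199)), (.negSucc (nat_lit 1092101167)), (.negSucc (nat_lit 8113671922711093320485)), (.ofNat (nat_lit 8113671922711093320486)), (.negSucc (nat_lit 8113671922711093320485)), (.ofNat (nat_lit 8113671922711093320486)), (.ofNat (nat_lit 748954331327177844966))⟩,
    ⟨nat_lit 1, nat_lit 3, nat_lit 4, (.ofNat (nat_lit 8)), (.ofNat (nat_lit 1064221952)), (.ofNat (nat_lit 52630800138186634515759769124352)), (.ofNat (nat_lit 0)), (.ofNat (nat_lit 809704617510563607932669981952)), (.ofNat (nat_lit 1064221936)), (.ofNat (nat_lit 1064221968)), (.ofNat (nat_lit 8113671922711093320486)), (.negSucc (nat_lit 8113671922711093320485)), (.negSucc (nat_lit 8113671922711093320485)), (.ofNat (nat_lit 8113671922711093320486)), (.ofNat (nat_lit 748954331327177844966))⟩,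
    ⟨nat_lit 0, nat_lit 5, nat_lit 4, (.ofNat (nat_lit 8)), (.negSucc (nat_lit 2194237823)), (.ofNat (nat_lit 79068873734001312969545676895488)), (.ofNat (nat_lit 0)), (.ofNat (nat_lit 1216444211292327891836015829888)), (.negSucc (nat_lit 2194237839)), (.negSucc (nat_lit 2194237807)), (.ofNat (nat_lit 8113671922711093320486)), (.negSucc (nat_lit 8113671922711093320485)), (.negSucc (nat_lit 8113671922711093320485)), (.ofNat (nat_lit 8113671922711093320486)), (.ofNat (nat_lit 748954331327177844966))⟩,
    ⟨nat_lit 2, nat_lit 6, nat_lit 5, (.ofNat (nat_lit 8)), (.negSucc (nat_lit 5834472319)), (.ofNat (nat_lit 49533205311721745222437356210432)), (.ofNat (nat_lit 0)), (.ofNat (nat_lit 762049312488026849573986972032)), (.negSucc (nat_lit 5834472335)), (.negSucc (nat_lit 5834472303)), (.negSucc (nat_lit 8113671922711093320485)), (.ofNat (nat_lit 8113671922711093320486)), (.negSucc (nat_lit 8113671922711093320485)), (.ofNat (nat_lit 8113671922711093320486)), (.ofNat (nat_lit 748954331327177844966))⟩,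
    ⟨nat_lit 0, nat_lit 7, nat_lit 8, (.ofNat (nat_lit 8)), (.negSucc (nat_lit 1479035327)), (.ofNat (nat_lit 48579627909289392488786947735680)), (.ofNat (nat_lit 0)), (.ofNat (nat_lit 747378890912144499825557119680)), (.negSucc (nat_lit 1479035343)), (.negSucc (nat_lit 1479035311)), (.ofNat (nat_lit 8113671922711093320486)), (.negSucc (nat_lit 8113671922711093320485)), (.negSucc (nat_lit 8113671922711093320485)), (.ofNat (nat_lit 8113671922711093320486)), (.ofNat (nat_lit 748954331327177844966))⟩,
    ⟨nat_lit 0, nat_lit 8, nat_lit 9, (.ofNat (nat_lit 8)), (.ofNat (nat_lit 2235559552)), (.ofNat (nat_lit 18440623727187009521307453024000)), (.ofNat (nat_lit 0)), (.ofNat (nat_lit 283701903495184761865534224000)), (.ofNat (nat_lit 2235559536)), (.ofNat (nat_lit 2235559568)), (.negSucc (nat_lit 8113671922711093320485)), (.ofNat (nat_lit 8113671922711093320486)), (.negSucc (nat_lit 8113671922711093320485)), (.ofNat (nat_lit 8113671922711093320486)), (.ofNat (nat_lit 748954331327177844966))⟩,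
    ⟨nat_lit 1, nat_lit 9, nat_lit 10, (.ofNat (nat_lit 8)), (.ofNat (nat_lit 3725185280)), (.ofNat (nat_lit 30526958171808681642512348087808)), (.ofNat (nat_lit 0)), (.ofNat (nat_lit 469645510335518179114359038208)), (.ofNat (nat_lit 3725185264)), (.ofNat (nat_lit 3725185296)), (.ofNat (nat_lit 8113671922711093320486)), (.negSucc (nat_lit 8113671923788373707557)), (.negSucc (nat_lit 8113671923788373707557)), (.ofNat (nat_lit 8113671922711093320486)), (.ofNat (nat_lit 748954333481738619110))⟩,
    ⟨nat_lit 0, nat_lit 18, nat_lit 10, (.ofNat (nat_lit 8)), (.ofNat (nat_lit 2852348800)), (.ofNat (nat_lit 37608867013642954014341822203648)), (.ofNat (nat_lit 0)), (.ofNat (nat_lit 578597954981869073228339218048)), (.ofNat (nat_lit 2852348784)), (.ofNat (nat_lit 2852348816)), (.ofNat (nat_lit 8113673039321469520090)), (.negSucc (nat_lit 8113671923788373707557)), (.negSucc (nat_lit 8113671923788373707557)), (.ofNat (nat_lit 8113673039321469520090)), (.ofNat (nat_lit 748958799923243417526))⟩,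
    ⟨nat_lit 1, nat_lit 11, nat_lit 17, (.ofNat (nat_lit 8)), (.negSucc (nat_lit 3179499199)), (.ofNat (nat_lit 51795060773647208693151360458112)), (.ofNat (nat_lit 0)), (.ofNat (nat_lit 796847088825341672200266203712)), (.negSucc (nat_lit 3179499215)), (.negSucc (nat_lit 3179499183)), (.ofNat (nat_lit 8113671922711093320486)), (.negSucc (nat_lit 8113671922711093320485)), (.negSucc (nat_lit 8113671922711093320485)), (.ofNat (nat_lit 8113671922711093320486)), (.ofNat (nat_lit 748954331327177844966))⟩,
    ⟨nat_lit 0, nat_lit 6, nat_lit 11, (.ofNat (nat_lit 8)), (.negSucc (nat_lit 4646371199)), (.ofNat (nat_lit 39893342613036141811943420666112)), (.ofNat (nat_lit 0)), (.ofNat (nat_lit 613743732508248335566771811712)), (.negSucc (nat_lit 4646371215)), (.negSucc (nat_lit 4646371183)), (.negSucc (nat_lit 8113671922711093320485)), (.ofNat (nat_lit 8113671922711093320486)), (.negSucc (nat_lit 8113671922711093320485)), (.ofNat (nat_lit 8113671922711093320486)), (.ofNat (nat_lit 748954331327177844966))⟩,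
    ⟨nat_lit 0, nat_lit 19, nat_lit 12, (.ofNat (nat_lit 8)), (.negSucc (nat_lit 146066367)), (.ofNat (nat_lit 1704109450995731158379442596736)), (.ofNat (nat_lit 0)), (.ofNat (nat_lit 26217068476857402436538953536)), (.negSucc (nat_lit 146066383)), (.negSucc (nat_lit 146066351)), (.negSucc (nat_lit 8113671922711093320485)), (.ofNat (nat_lit 8113671922711093320486)), (.negSucc (nat_lit 8113671922711093320485)), (.ofNat (nat_lit 8113671922711093320486)), (.ofNat (nat_lit 748954331327177844966))⟩,
    ⟨nat_lit 1, nat_lit 12, nat_lit 13, (.ofNat (nat_lit 8)), (.ofNat (nat_lit 3416950400)), (.ofNat (nat_lit 30613258561666156678883858505984)), (.ofNat (nat_lit 0)), (.ofNat (nat_lit 470973208641017795058532685184)), (.ofNat (nat_lit 3416950384)), (.ofNat (nat_lit 3416950416)), (.ofNat (nat_lit 8113671922711093320486)), (.negSucc (nat_lit 8113671922711093320485)), (.negSucc (nat_lit 8113671922711093320485)), (.ofNat (nat_lit 8113671922711093320486)), (.ofNat (nat_lit 748954331327177844966))⟩,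
    ⟨nat_lit 0, nat_lit 14, nat_lit 13, (.ofNat (nat_lit 8)), (.ofNat (nat_lit 1812722496)), (.ofNat (nat_lit 43629437463980623913955514547328)), (.ofNat (nat_lit 0)), (.ofNat (nat_lit 671222114830471137136039873728)), (.ofNat (nat_lit 1812722480)), (.ofNat (nat_lit 1812722512)), (.ofNat (nat_lit 8113671922711093320486)), (.negSucc (nat_lit 8113671922711093320485)), (.negSucc (nat_lit 8113671922711093320485)), (.ofNat (nat_lit 8113671922711093320486)), (.ofNat (nat_lit 748954331327177844966))⟩,
    ⟨nat_lit 0, nat_lit 15, nat_lit 14, (.ofNat (nat_lit 8)), (.negSucc (nat_lit 829582783)), (.ofNat (nat_lit 22190639302413350118662624581248)), (.ofNat (nat_lit 0)), (.ofNat (nat_lit 341394450806359232593926003648)), (.negSucc (nat_lit 829582799)), (.negSucc (nat_lit 829582767)), (.negSucc (nat_lit 8113671922711093320485)), (.ofNat (nat_lit 8113671922711093320486)), (.negSucc (nat_lit 8113671922711093320485)), (.ofNat (nat_lit 8113671922711093320486)), (.ofNat (nat_lit 748954331327177844966))⟩,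
    ⟨nat_lit 2, nat_lit 15, nat_lit 16, (.ofNat (nat_lit 8)), (.negSucc (nat_lit 4935696767)), (.ofNat (nat_lit 55506301045845537593839182857472)), (.ofNat (nat_lit 0)), (.ofNat (nat_lit 853943093013008270672238771072)), (.negSucc (nat_lit 4935696783)), (.negSucc (nat_lit 4935696751)), (.negSucc (nat_lit 8113671922711093320485)), (.ofNat (nat_lit 8113671922711093320486)), (.negSucc (nat_lit 8113671922711093320485)), (.ofNat (nat_lit 8113671922711093320486)), (.ofNat (nat_lit 748954331327177844966))⟩,
    ⟨nat_lit 0, nat_lit 16, nat_lit 17, (.ofNat (nat_lit 8)), (.negSucc (nat_lit 4286300863)), (.ofNat (nat_lit 60775286358853926171524550546816)), (.ofNat (nat_lit 0)), (.ofNat (nat_lit 935004405520829633405650007616)), (.negSucc (nat_lit 4286300879)), (.negSucc (nat_lit 4286300847)), (.ofNat (nat_lit 8113671922711093320486)), (.negSucc (nat_lit 8113671922711093320485)), (.negSucc (nat_lit 8113671922711093320485)), (.ofNat (nat_lit 8113671922711093320486)), (.ofNat (nat_lit 748954331327177844966))⟩,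
    ⟨nat_lit 2, nat_lit 19, nat_lit 7, (.ofNat (nat_lit 8)), (.negSucc (nat_lit 3701225599)), (.ofNat (nat_lit 30549505092441265045518780223488)), (.ofNat (nat_lit 0)), (.ofNat (nat_lit 469992386037557923775995557888)), (.negSucc (nat_lit 3701225615)), (.negSucc (nat_lit 3701225583)), (.negSucc (nat_lit 8113671922711093320485)), (.ofNat (nat_lit 8113671922711093320486)), (.negSucc (nat_lit 8113671922711093320485)), (.ofNat (nat_lit 8113671922711093320486)), (.ofNat (nat_lit 748954331327177844966))⟩]
  es := [
    ⟨nat_lit 1, nat_lit 0, (.negSucc (nat_lit 5871367871)), (.negSucc (nat_lit 833777087)), (.negSucc (nat_lit 5871367855)), (.negSucc (nat_lit 833777103)), (.negSucc (nat_lit 8113672739575007310398)), (.negSucc (nat_lit 124826538751776964073)), (.ofNat (nat_lit 14393006090738860466341953216))⟩,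
    ⟨nat_lit 1, nat_lit 2, (.negSucc (nat_lit 5871367871)), (.negSucc (nat_lit 4309911231)), (.negSucc (nat_lit 5871367855)), (.negSucc (nat_lit 4309911247)), (.ofNat (nat_lit 8113671922711093320486)), (.ofNat (nat_lit 124825721887862974161)), (.ofNat (nat_lit 1480193268382490963467385339136))⟩,
    ⟨nat_lit 2, nat_lit 3, (.negSucc (nat_lit 4309911231)), (.negSucc (nat_lit 1092101183)), (.negSucc (nat_lit 4309911215)), (.negSucc (nat_lit 1092101199)), (.negSucc (nat_lit 8113671922711093320485)), (.negSucc (nat_lit 124825721887862974160)), (.ofNat (nat_lit 404217706768473209840545986432))⟩,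
    ⟨nat_lit 3, nat_lit 4, (.negSucc (nat_lit 1092101183)), (.ofNat (nat_lit 1064221952)), (.negSucc (nat_lit 1092101167)), (.ofNat (nat_lit 1064221936)), (.ofNat (nat_lit 8113671922711093320486)), (.ofNat (nat_lit 124825721887862974161)), (.ofNat (nat_lit 676862344103252948462524999680))⟩,
    ⟨nat_lit 5, nat_lit 4, (.negSucc (nat_lit 2194237823)), (.ofNat (nat_lit 1064221952)), (.negSucc (nat_lit 2194237807)), (.ofNat (nat_lit 1064221936)), (.negSucc (nat_lit 8113671922711093320485)), (.negSucc (nat_lit 124825721887862974160)), (.ofNat (nat_lit 942546890917874267402814964224))⟩,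
    ⟨nat_lit 6, nat_lit 5, (.negSucc (nat_lit 5834472319)), (.negSucc (nat_lit 2194237823)), (.negSucc (nat_lit 5834472303)), (.negSucc (nat_lit 2194237839)), (.ofNat (nat_lit 8113671922711093320486)), (.ofNat (nat_lit 124825721887862974161)), (.ofNat (nat_lit 1490341531666781516269216695552))⟩,
    ⟨nat_lit 6, nat_lit 12, (.negSucc (nat_lit 5834472319)), (.negSucc (nat_lit 4646371199)), (.negSucc (nat_lit 5834472303)), (.negSucc (nat_lit 4646371215)), (.negSucc (nat_lit 8113671922711093320485)), (.negSucc (nat_lit 124825721887862974160)), (.ofNat (nat_lit 33757093309272182878757248512))⟩,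
    ⟨nat_lit 19, nat_lit 7, (.negSucc (nat_lit 3701225599)), (.negSucc (nat_lit 1479035327)), (.negSucc (nat_lit 3701225583)), (.negSucc (nat_lit 1479035343)), (.ofNat (nat_lit 8113671922711093320486)), (.ofNat (nat_lit 124825721887862974161)), (.ofNat (nat_lit 932000543427396693032827279488))⟩,
    ⟨nat_lit 7, nat_lit 8, (.negSucc (nat_lit 1479035327)), (.ofNat (nat_lit 2235559552)), (.negSucc (nat_lit 1479035311)), (.ofNat (nat_lit 2235559536)), (.negSucc (nat_lit 8113671922711093320485)), (.negSucc (nat_lit 124825721887862974160)), (.ofNat (nat_lit 562757238396892306618286959872))⟩,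
    ⟨nat_lit 8, nat_lit 9, (.ofNat (nat_lit 2235559552)), (.ofNat (nat_lit 3725185280)), (.ofNat (nat_lit 2235559568)), (.ofNat (nat_lit 3725185264)), (.ofNat (nat_lit 8113671922711093320486)), (.ofNat (nat_lit 124825721887862974161)), (.ofNat (nat_lit 4646568593477217112781488128))⟩,
    ⟨nat_lit 10, nat_lit 9, (.ofNat (nat_lit 2852348800)), (.ofNat (nat_lit 3725185280)), (.ofNat (nat_lit 2852348816)), (.ofNat (nat_lit 3725185264)), (.negSucc (nat_lit 8113671923788373707557)), (.negSucc (nat_lit 124825722965143361232)), (.ofNat (nat_lit 934644456090628181469253288448))⟩,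
    ⟨nat_lit 12, nat_lit 11, (.negSucc (nat_lit 4646371199)), (.negSucc (nat_lit 3179499199)), (.negSucc (nat_lit 4646371183)), (.negSucc (nat_lit 3179499215)), (.ofNat (nat_lit 8113671922711093320486)), (.ofNat (nat_lit 124825721887862974161)), (.ofNat (nat_lit 1193730371707224488254786374912))⟩,
    ⟨nat_lit 13, nat_lit 14, (.negSucc (nat_lit 146066367)), (.ofNat (nat_lit 3416950400)), (.negSucc (nat_lit 146066351)), (.ofNat (nat_lit 3416950384)), (.ofNat (nat_lit 8113671922711093320486)), (.ofNat (nat_lit 124825721887862974161)), (.ofNat (nat_lit 44449908305995650353914070784))⟩,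
    ⟨nat_lit 15, nat_lit 14, (.ofNat (nat_lit 1812722496)), (.ofNat (nat_lit 3416950400)), (.ofNat (nat_lit 1812722512)), (.ofNat (nat_lit 3416950384)), (.negSucc (nat_lit 8113671922711093320485)), (.negSucc (nat_lit 124825721887862974160)), (.ofNat (nat_lit 897496508976039939763151299584))⟩,
    ⟨nat_lit 16, nat_lit 15, (.negSucc (nat_lit 829582783)), (.ofNat (nat_lit 1812722496)), (.negSucc (nat_lit 829582767)), (.ofNat (nat_lit 1812722480)), (.ofNat (nat_lit 8113671922711093320486)), (.ofNat (nat_lit 124825721887862974161)), (.ofNat (nat_lit 444947720684902334508928447872))⟩,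
    ⟨nat_lit 17, nat_lit 16, (.negSucc (nat_lit 4935696767)), (.negSucc (nat_lit 829582783)), (.negSucc (nat_lit 4935696751)), (.negSucc (nat_lit 829582799)), (.negSucc (nat_lit 8113671922711093320485)), (.negSucc (nat_lit 124825721887862974160)), (.ofNat (nat_lit 237841180927816130678923559424))⟩,
    ⟨nat_lit 17, nat_lit 18, (.negSucc (nat_lit 4935696767)), (.negSucc (nat_lit 4286300863)), (.negSucc (nat_lit 4935696751)), (.negSucc (nat_lit 4286300879)), (.ofNat (nat_lit 8113671922711093320486)), (.ofNat (nat_lit 124825721887862974161)), (.ofNat (nat_lit 1470045005098200410665553982720))⟩,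
    ⟨nat_lit 18, nat_lit 11, (.negSucc (nat_lit 4286300863)), (.negSucc (nat_lit 3179499199)), (.negSucc (nat_lit 4286300847)), (.negSucc (nat_lit 3179499215)), (.negSucc (nat_lit 8113671922711093320485)), (.negSucc (nat_lit 124825721887862974160)), (.ofNat (nat_lit 399963805943458856145746032512))⟩,
    ⟨nat_lit 0, nat_lit 10, (.negSucc (nat_lit 833777087)), (.ofNat (nat_lit 2852348800)), (.negSucc (nat_lit 833777071)), (.ofNat (nat_lit 2852348784)), (.ofNat (nat_lit 8113673039321469520090)), (.ofNat (nat_lit 124826838498239173765)), (.ofNat (nat_lit 222548271983622763826749986048))⟩,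
    ⟨nat_lit 19, nat_lit 13, (.negSucc (nat_lit 3701225599)), (.negSucc (nat_lit 146066367)), (.negSucc (nat_lit 3701225583)), (.negSucc (nat_lit 146066383)), (.negSucc (nat_lit 8113671922711093320485)), (.negSucc (nat_lit 124825721887862974160)), (.ofNat (nat_lit 7984228647719154519163836288))⟩]

theorem ok105 : stOK 19 19 S105 = true := by decide +kernel

def S106 : SD where
  vs := [
    ⟨nat_lit 0, nat_lit 0, nat_lit 18, (.ofNat (nat_lit 8)), (.negSucc (nat_lit 1741643519)), (.ofNat (nat_lit 15071231055277077806173746636288)), (.negSucc (nat_lit 907866431)), (.ofNat (nat_lit 7370384278644634544038609522560)), (.negSucc (nat_lit 1741643535)), (.negSucc (nat_lit 1741643503)), (.negSucc (nat_lit 8113672739575007310398)), (.ofNat (nat_lit 8113673039321469520090)), (.negSucc (nat_lit 8113672739575007310398)), (.ofNat (nat_lit 8113673039321469520090)), (.ofNat (nat_lit 0))⟩,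
    ⟨nat_lit 2, nat_lit 0, nat_lit 1, (.ofNat (nat_lit 8)), (.negSucc (nat_lit 6780545023)), (.ofNat (nat_lit 55955228825685382463354262576384)), (.negSucc (nat_lit 909177151)), (.ofNat (nat_lit 7381019031777850297620495699840)), (.negSucc (nat_lit 6780545039)), (.negSucc (nat_lit 6780545007)), (.negSucc (nat_lit 8113672739575007310398)), (.ofNat (nat_lit 8113671922711093320486)), (.negSucc (nat_lit 8113672739575007310398)), (.ofNat (nat_lit 8113671922711093320486)), (.ofNat (nat_lit 0))⟩,
    ⟨nat_lit 0, nat_lit 1, nat_lit 2, (.ofNat (nat_lit 8)), (.negSucc (nat_lit 5218039807)), (.ofNat (nat_lit 68632883525834214637676397231360)), (.negSucc (nat_lit 908128575)), (.ofNat (nat_lit 7389526833427879005010117627776)), (.negSucc (nat_lit 5218039823)), (.negSucc (nat_lit 5218039791)), (.ofNat (nat_lit 8113671922711093320486)), (.negSucc (nat_lit 8113671922711093320485)), (.negSucc (nat_lit 8113671922711093320485)), (.ofNat (nat_lit 8113671922711093320486)), (.ofNat (nat_lit 0))⟩,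
    ⟨nat_lit 0, nat_lit 2, nat_lit 3, (.ofNat (nat_lit 8)), (.negSucc (nat_lit 1999181183)), (.ofNat (nat_lit 42516120685108950442561240260096)), (.negSucc (nat_lit 907079999)), (.ofNat (nat_lit 7381019031777850297620495699840)), (.negSucc (nat_lit 1999181199)), (.negSucc (nat_lit 1999181167)), (.negSucc (nat_lit 8113671922711093320485)), (.ofNat (nat_lit 8113671922711093320486)), (.negSucc (nat_lit 8113671922711093320485)), (.ofNat (nat_lit 8113671922711093320486)), (.ofNat (nat_lit 0))⟩,
    ⟨nat_lit 1, nat_lit 3, nat_lit 4, (.ofNat (nat_lit 8)), (.ofNat (nat_lit 158190528)), (.ofNat (nat_lit 60020326971614513520769886752128)), (.negSucc (nat_lit 906031423)), (.ofNat (nat_lit 7389526833427879005010117627776)), (.ofNat (nat_lit 158190512)), (.ofNat (nat_lit 158190544)), (.ofNat (nat_lit 8113671922711093320486)), (.negSucc (nat_lit 8113671922711093320485)), (.negSucc (nat_lit 8113671922711093320485)), (.ofNat (nat_lit 8113671922711093320486)), (.ofNat (nat_lit 0))⟩,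
    ⟨nat_lit 0, nat_lit 5, nat_lit 4, (.ofNat (nat_lit 8)), (.negSucc (nat_lit 3101579967)), (.ofNat (nat_lit 86469035319491727858792821933184)), (.negSucc (nat_lit 907342143)), (.ofNat (nat_lit 7400161585490414889247145037696)), (.negSucc (nat_lit 3101579983)), (.negSucc (nat_lit 3101579951)), (.ofNat (nat_lit 8113671922711093320486)), (.negSucc (nat_lit 8113671922711093320485)), (.negSucc (nat_lit 8113671922711093320485)), (.ofNat (nat_lit 8113671922711093320486)), (.ofNat (nat_lit 0))⟩,
    ⟨nat_lit 2, nat_lit 6, nat_lit 5, (.ofNat (nat_lit 8)), (.negSucc (nat_lit 6743649471)), (.ofNat (nat_lit 56918478244324609873752662874240)), (.negSucc (nat_lit 909177151)), (.ofNat (nat_lit 7385272932602864651315306663808)), (.negSucc (nat_lit 6743649487)), (.negSucc (nat_lit 6743649455)), (.negSucc (nat_lit 8113671922711093320485)), (.ofNat (nat_lit 8113671922711093320486)), (.negSucc (nat_lit 8113671922711093320485)), (.ofNat (nat_lit 8113671922711093320486)), (.ofNat (nat_lit 0))⟩,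
    ⟨nat_lit 0, nat_lit 7, nat_lit 8, (.ofNat (nat_lit 8)), (.negSucc (nat_lit 2386115327)), (.ofNat (nat_lit 55964900841892257140102254399488)), (.negSucc (nat_lit 907079999)), (.ofNat (nat_lit 7385272932602864651315306663808)), (.negSucc (nat_lit 2386115343)), (.negSucc (nat_lit 2386115311)), (.ofNat (nat_lit 8113671922711093320486)), (.negSucc (nat_lit 8113671922711093320485)), (.negSucc (nat_lit 8113671922711093320485)), (.ofNat (nat_lit 8113671922711093320486)), (.ofNat (nat_lit 0))⟩,
    ⟨nat_lit 0, nat_lit 8, nat_lit 9, (.ofNat (nat_lit 8)), (.ofNat (nat_lit 2237132416)), (.ofNat (nat_lit 18453385429662052582391885915904)), (.ofNat (nat_lit 1572864)), (.ofNat (nat_lit 12761702475043061084432891904)), (.ofNat (nat_lit 2237132400)), (.ofNat (nat_lit 2237132432)), (.negSucc (nat_lit 8113671922711093320485)), (.ofNat (nat_lit 8113671922711093320486)), (.negSucc (nat_lit 8113671922711093320485)), (.ofNat (nat_lit 8113671922711093320486)), (.ofNat (nat_lit 0))⟩,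
    ⟨nat_lit 1, nat_lit 9, nat_lit 10, (.ofNat (nat_lit 8)), (.ofNat (nat_lit 3727282432)), (.ofNat (nat_lit 30543973775108739057291591943680)), (.ofNat (nat_lit 2097152)), (.ofNat (nat_lit 17015603300057414779243855872)), (.ofNat (nat_lit 3727282416)), (.ofNat (nat_lit 3727282448)), (.ofNat (nat_lit 8113671922711093320486)), (.negSucc (nat_lit 8113671923788373707557)), (.negSucc (nat_lit 8113671923788373707557)), (.ofNat (nat_lit 8113671922711093320486)), (.ofNat (nat_lit 0))⟩,
    ⟨nat_lit 0, nat_lit 18, nat_lit 10, (.ofNat (nat_lit 8)), (.ofNat (nat_lit 1946317376)), (.ofNat (nat_lit 44994139947224127769521553036928)), (.negSucc (nat_lit 906031423)), (.ofNat (nat_lit 7385272933581173755179730833280)), (.ofNat (nat_lit 1946317360)), (.ofNat (nat_lit 1946317392)), (.ofNat (nat_lit 8113673039321469520090)), (.negSucc (nat_lit 8113671923788373707557)), (.negSucc (nat_lit 8113671923788373707557)), (.ofNat (nat_lit 8113673039321469520090)), (.ofNat (nat_lit 0))⟩,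
    ⟨nat_lit 1, nat_lit 11, nat_lit 17, (.ofNat (nat_lit 8)), (.negSucc (nat_lit 4087365631)), (.ofNat (nat_lit 59178206755837566167619261639936)), (.negSucc (nat_lit 907866431)), (.ofNat (nat_lit 7383145982190357474467901181824)), (.negSucc (nat_lit 4087365647)), (.negSucc (nat_lit 4087365615)), (.ofNat (nat_lit 8113671922711093320486)), (.negSucc (nat_lit 8113671922711093320485)), (.negSucc (nat_lit 8113671922711093320485)), (.ofNat (nat_lit 8113671922711093320486)), (.ofNat (nat_lit 0))⟩,
    ⟨nat_lit 0, nat_lit 6, nat_lit 11, (.ofNat (nat_lit 8)), (.negSucc (nat_lit 5554761919)), (.ofNat (nat_lit 47272234694401484932716510883968)), (.negSucc (nat_lit 908390719)), (.ofNat (nat_lit 7378892081365343120773090217856)), (.negSucc (nat_lit 5554761935)), (.negSucc (nat_lit 5554761903)), (.negSucc (nat_lit 8113671922711093320485)), (.ofNat (nat_lit 8113671922711093320486)), (.negSucc (nat_lit 8113671922711093320485)), (.ofNat (nat_lit 8113671922711093320486)), (.ofNat (nat_lit 0))⟩,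
    ⟨nat_lit 0, nat_lit 19, nat_lit 12, (.ofNat (nat_lit 8)), (.negSucc (nat_lit 146328511)), (.ofNat (nat_lit 1706236401408238335226848078720)), (.negSucc (nat_lit 262143)), (.ofNat (nat_lit 2126950412507176847405481984)), (.negSucc (nat_lit 146328527)), (.negSucc (nat_lit 146328495)), (.negSucc (nat_lit 8113671922711093320485)), (.ofNat (nat_lit 8113671922711093320486)), (.negSucc (nat_lit 8113671922711093320485)), (.ofNat (nat_lit 8113671922711093320486)), (.ofNat (nat_lit 0))⟩,
    ⟨nat_lit 1, nat_lit 12, nat_lit 13, (.ofNat (nat_lit 8)), (.ofNat (nat_lit 3418523264)), (.ofNat (nat_lit 30630274164966214093663102361856)), (.ofNat (nat_lit 1572864)), (.ofNat (nat_lit 17015603300057414779243855872)), (.ofNat (nat_lit 3418523248)), (.ofNat (nat_lit 3418523280)), (.ofNat (nat_lit 8113671922711093320486)), (.negSucc (nat_lit 8113671922711093320485)), (.negSucc (nat_lit 8113671922711093320485)), (.ofNat (nat_lit 8113671922711093320486)), (.ofNat (nat_lit 0))⟩,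
    ⟨nat_lit 0, nat_lit 14, nat_lit 13, (.ofNat (nat_lit 8)), (.ofNat (nat_lit 1814033216)), (.ofNat (nat_lit 43648580017693188505582163885184)), (.ofNat (nat_lit 1310720)), (.ofNat (nat_lit 19142553712564591626649337856)), (.ofNat (nat_lit 1814033200)), (.ofNat (nat_lit 1814033232)), (.ofNat (nat_lit 8113671922711093320486)), (.negSucc (nat_lit 8113671922711093320485)), (.negSucc (nat_lit 8113671922711093320485)), (.ofNat (nat_lit 8113671922711093320486)), (.ofNat (nat_lit 0))⟩,
    ⟨nat_lit 0, nat_lit 15, nat_lit 14, (.ofNat (nat_lit 8)), (.negSucc (nat_lit 829320639)), (.ofNat (nat_lit 22201274054475886002899651991168)), (.ofNat (nat_lit 262144)), (.ofNat (nat_lit 10634752062535884237027409920)), (.negSucc (nat_lit 829320655)), (.negSucc (nat_lit 829320623)), (.negSucc (nat_lit 8113671922711093320485)), (.ofNat (nat_lit 8113671922711093320486)), (.negSucc (nat_lit 8113671922711093320485)), (.ofNat (nat_lit 8113671922711093320486)), (.ofNat (nat_lit 0))⟩,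
    ⟨nat_lit 2, nat_lit 15, nat_lit 16, (.ofNat (nat_lit 8)), (.negSucc (nat_lit 5844087487)), (.ofNat (nat_lit 62889447028035895068307084039296)), (.negSucc (nat_lit 908390719)), (.ofNat (nat_lit 7383145982190357474467901181824)), (.negSucc (nat_lit 5844087503)), (.negSucc (nat_lit 5844087471)), (.negSucc (nat_lit 8113671922711093320485)), (.ofNat (nat_lit 8113671922711093320486)), (.negSucc (nat_lit 8113671922711093320485)), (.ofNat (nat_lit 8113671922711093320486)), (.ofNat (nat_lit 0))⟩,
    ⟨nat_lit 0, nat_lit 16, nat_lit 17, (.ofNat (nat_lit 8)), (.negSucc (nat_lit 5194429439)), (.ofNat (nat_lit 68160559291456790822839857210624)), (.negSucc (nat_lit 908128575)), (.ofNat (nat_lit 7385272932602864651315306663808)), (.negSucc (nat_lit 5194429455)), (.negSucc (nat_lit 5194429423)), (.ofNat (nat_lit 8113671922711093320486)), (.negSucc (nat_lit 8113671922711093320485)), (.negSucc (nat_lit 8113671922711093320485)), (.ofNat (nat_lit 8113671922711093320486)), (.ofNat (nat_lit 0))⟩,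
    ⟨nat_lit 2, nat_lit 19, nat_lit 7, (.ofNat (nat_lit 8)), (.negSucc (nat_lit 4609878463)), (.ofNat (nat_lit 37922016322569086635749653995392)), (.negSucc (nat_lit 908652863)), (.ofNat (nat_lit 7372511230127821590230873771904)), (.negSucc (nat_lit 4609878479)), (.negSucc (nat_lit 4609878447)), (.negSucc (nat_lit 8113671922711093320485)), (.ofNat (nat_lit 8113671922711093320486)), (.negSucc (nat_lit 8113671922711093320485)), (.ofNat (nat_lit 8113671922711093320486)), (.ofNat (nat_lit 0))⟩]
  es := [
    ⟨nat_lit 1, nat_lit 0, (.negSucc (nat_lit 6780545023)), (.negSucc (nat_lit 1741643519)), (.negSucc (nat_lit 6780545007)), (.negSucc (nat_lit 1741643535)), (.negSucc (nat_lit 8113672739575007310398)), (.ofNat (nat_lit 0)), (.ofNat (nat_lit 4253158151007460772752896192))⟩,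
    ⟨nat_lit 1, nat_lit 2, (.negSucc (nat_lit 6780545023)), (.negSucc (nat_lit 5218039807)), (.negSucc (nat_lit 6780545007)), (.negSucc (nat_lit 5218039823)), (.ofNat (nat_lit 8113671922711093320486)), (.ofNat (nat_lit 0)), (.ofNat (nat_lit 14757784162730686241546180435712))⟩,
    ⟨nat_lit 2, nat_lit 3, (.negSucc (nat_lit 5218039807)), (.negSucc (nat_lit 1999181183)), (.negSucc (nat_lit 5218039791)), (.negSucc (nat_lit 1999181199)), (.negSucc (nat_lit 8113671922711093320485)), (.ofNat (nat_lit 0)), (.ofNat (nat_lit 21269504125071768474054819840))⟩,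
    ⟨nat_lit 3, nat_lit 4, (.negSucc (nat_lit 1999181183)), (.ofNat (nat_lit 158190528)), (.negSucc (nat_lit 1999181167)), (.ofNat (nat_lit 158190512)), (.ofNat (nat_lit 8113671922711093320486)), (.ofNat (nat_lit 0)), (.ofNat (nat_lit 14740768559430628826766936579840))⟩,
    ⟨nat_lit 5, nat_lit 4, (.negSucc (nat_lit 3101579967)), (.ofNat (nat_lit 158190528)), (.negSucc (nat_lit 3101579951)), (.ofNat (nat_lit 158190512)), (.negSucc (nat_lit 8113671922711093320485)), (.ofNat (nat_lit 0)), (.ofNat (nat_lit 38285107425129183253298675712))⟩,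
    ⟨nat_lit 6, nat_lit 5, (.negSucc (nat_lit 6743649471)), (.negSucc (nat_lit 3101579967)), (.negSucc (nat_lit 6743649455)), (.negSucc (nat_lit 3101579983)), (.ofNat (nat_lit 8113671922711093320486)), (.ofNat (nat_lit 0)), (.ofNat (nat_lit 14762038063555700595240991399680))⟩,
    ⟨nat_lit 6, nat_lit 12, (.negSucc (nat_lit 6743649471)), (.negSucc (nat_lit 5554761919)), (.negSucc (nat_lit 6743649455)), (.negSucc (nat_lit 5554761935)), (.negSucc (nat_lit 8113671922711093320485)), (.ofNat (nat_lit 0)), (.ofNat (nat_lit 8507801650028707389621927936))⟩,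
    ⟨nat_lit 19, nat_lit 7, (.negSucc (nat_lit 4609878463)), (.negSucc (nat_lit 2386115327)), (.negSucc (nat_lit 4609878447)), (.negSucc (nat_lit 2386115343)), (.ofNat (nat_lit 8113671922711093320486)), (.ofNat (nat_lit 0)), (.ofNat (nat_lit 14745022460255643180461747543808))⟩,
    ⟨nat_lit 7, nat_lit 8, (.negSucc (nat_lit 2386115327)), (.ofNat (nat_lit 2237132416)), (.negSucc (nat_lit 2386115311)), (.ofNat (nat_lit 2237132400)), (.negSucc (nat_lit 8113671922711093320485)), (.ofNat (nat_lit 0)), (.ofNat (nat_lit 25523404950086122168865783808))⟩,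
    ⟨nat_lit 8, nat_lit 9, (.ofNat (nat_lit 2237132416)), (.ofNat (nat_lit 3727282432)), (.ofNat (nat_lit 2237132432)), (.ofNat (nat_lit 3727282416)), (.ofNat (nat_lit 8113671922711093320486)), (.ofNat (nat_lit 0)), (.ofNat (nat_lit 0))⟩,
    ⟨nat_lit 10, nat_lit 9, (.ofNat (nat_lit 1946317376)), (.ofNat (nat_lit 3727282432)), (.ofNat (nat_lit 1946317392)), (.ofNat (nat_lit 3727282416)), (.negSucc (nat_lit 8113671923788373707557)), (.ofNat (nat_lit 0)), (.ofNat (nat_lit 34031206602374050276796530688))⟩,
    ⟨nat_lit 12, nat_lit 11, (.negSucc (nat_lit 5554761919)), (.negSucc (nat_lit 4087365631)), (.negSucc (nat_lit 5554761903)), (.negSucc (nat_lit 4087365647)), (.ofNat (nat_lit 8113671922711093320486)), (.ofNat (nat_lit 0)), (.ofNat (nat_lit 14749276361080657534156558507776))⟩,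
    ⟨nat_lit 13, nat_lit 14, (.negSucc (nat_lit 146328511)), (.ofNat (nat_lit 3418523264)), (.negSucc (nat_lit 146328495)), (.ofNat (nat_lit 3418523248)), (.ofNat (nat_lit 8113671922711093320486)), (.ofNat (nat_lit 0)), (.ofNat (nat_lit 4253900825014353694810963968))⟩,
    ⟨nat_lit 15, nat_lit 14, (.ofNat (nat_lit 1814033216)), (.ofNat (nat_lit 3418523264)), (.ofNat (nat_lit 1814033232)), (.ofNat (nat_lit 3418523248)), (.negSucc (nat_lit 8113671922711093320485)), (.ofNat (nat_lit 0)), (.ofNat (nat_lit 29777305775100475863676747776))⟩,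
    ⟨nat_lit 16, nat_lit 15, (.negSucc (nat_lit 829320639)), (.ofNat (nat_lit 1814033216)), (.negSucc (nat_lit 829320623)), (.ofNat (nat_lit 1814033200)), (.ofNat (nat_lit 8113671922711093320486)), (.ofNat (nat_lit 0)), (.ofNat (nat_lit 8507801650028707389621927936))⟩,
    ⟨nat_lit 17, nat_lit 16, (.negSucc (nat_lit 5844087487)), (.negSucc (nat_lit 829320639)), (.negSucc (nat_lit 5844087471)), (.negSucc (nat_lit 829320655)), (.negSucc (nat_lit 8113671922711093320485)), (.ofNat (nat_lit 0)), (.ofNat (nat_lit 12761702475043061084432891904))⟩,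
    ⟨nat_lit 17, nat_lit 18, (.negSucc (nat_lit 5844087487)), (.negSucc (nat_lit 5194429439)), (.negSucc (nat_lit 5844087471)), (.negSucc (nat_lit 5194429455)), (.ofNat (nat_lit 8113671922711093320486)), (.ofNat (nat_lit 0)), (.ofNat (nat_lit 14753530261905671887851369471744))⟩,
    ⟨nat_lit 18, nat_lit 11, (.negSucc (nat_lit 5194429439)), (.negSucc (nat_lit 4087365631)), (.negSucc (nat_lit 5194429423)), (.negSucc (nat_lit 4087365647)), (.negSucc (nat_lit 8113671922711093320485)), (.ofNat (nat_lit 0)), (.ofNat (nat_lit 17015603300057414779243855872))⟩,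
    ⟨nat_lit 0, nat_lit 10, (.negSucc (nat_lit 1741643519)), (.ofNat (nat_lit 1946317376)), (.negSucc (nat_lit 1741643503)), (.ofNat (nat_lit 1946317360)), (.ofNat (nat_lit 8113673039321469520090)), (.ofNat (nat_lit 0)), (.ofNat (nat_lit 14736515671268012778239470141440))⟩,
    ⟨nat_lit 19, nat_lit 13, (.negSucc (nat_lit 4609878463)), (.negSucc (nat_lit 146328511)), (.negSucc (nat_lit 4609878447)), (.negSucc (nat_lit 146328527)), (.negSucc (nat_lit 8113671922711093320485)), (.ofNat (nat_lit 0)), (.ofNat (nat_lit 0))⟩]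

theorem ok106 : stOK 19 19 S106 = true := by decide +kernel

def S107 : SD where
  vs := [
    ⟨nat_lit 0, nat_lit 0, nat_lit 18, (.ofNat (nat_lit 8)), (.negSucc (nat_lit 1741643519)), (.ofNat (nat_lit 15306723220926599488479290942720)), (.ofNat (nat_lit 0)), (.ofNat (nat_lit 235492165649521682305544306432)), (.negSucc (nat_lit 1741643535)), (.negSucc (nat_lit 1741643503)), (.negSucc (nat_lit 8240448046503454153617)), (.ofNat (nat_lit 8240448046503454153618)), (.negSucc (nat_lit 8240448046503454153617)), (.ofNat (nat_lit 8240448046503454153618)), (.ofNat (nat_lit 760651242077756639932))⟩,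
    ⟨nat_lit 2, nat_lit 0, nat_lit 1, (.ofNat (nat_lit 8)), (.negSucc (nat_lit 6780545023)), (.ofNat (nat_lit 56829529276086716564340078184192)), (.ofNat (nat_lit 0)), (.ofNat (nat_lit 874300450401334100985815607808)), (.negSucc (nat_lit 6780545039)), (.negSucc (nat_lit 6780545007)), (.negSucc (nat_lit 8240448046503454153617)), (.ofNat (nat_lit 8240448046503454153618)), (.negSucc (nat_lit 8240448046503454153617)), (.ofNat (nat_lit 8240448046503454153618)), (.ofNat (nat_lit 760653475298509039140))⟩,
    ⟨nat_lit 0, nat_lit 1, nat_lit 2, (.ofNat (nat_lit 8)), (.negSucc (nat_lit 5218039807)), (.ofNat (nat_lit 69705272330925374241385068455680)), (.ofNat (nat_lit 0)), (.ofNat (nat_lit 1072388805091159603708671224320)), (.negSucc (nat_lit 5218039823)), (.negSucc (nat_lit 5218039791)), (.ofNat (nat_lit 8240448046503454153618)), (.negSucc (nat_lit 8240448046503454153617)), (.negSucc (nat_lit 8240448046503454153617)), (.ofNat (nat_lit 8240448046503454153618)), (.ofNat (nat_lit 760656742754164998792))⟩,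
    ⟨nat_lit 0, nat_lit 2, nat_lit 3, (.ofNat (nat_lit 8)), (.negSucc (nat_lit 1999181183)), (.ofNat (nat_lit 43180435070813777793223148354048)), (.ofNat (nat_lit 0)), (.ofNat (nat_lit 664314385704827350661908093952)), (.negSucc (nat_lit 1999181199)), (.negSucc (nat_lit 1999181167)), (.negSucc (nat_lit 8240448046503454153617)), (.ofNat (nat_lit 8240448046503454153618)), (.negSucc (nat_lit 8240448046503454153617)), (.ofNat (nat_lit 8240448046503454153618)), (.ofNat (nat_lit 760656742754164998792))⟩,
    ⟨nat_lit 1, nat_lit 3, nat_lit 4, (.ofNat (nat_lit 8)), (.ofNat (nat_lit 158190528)), (.ofNat (nat_lit 60958144580545990294527524008064)), (.ofNat (nat_lit 0)), (.ofNat (nat_lit 937817608931476773757637255936)), (.ofNat (nat_lit 158190512)), (.ofNat (nat_lit 158190544)), (.ofNat (nat_lit 8240448046503454153618)), (.negSucc (nat_lit 8240448046503454153617)), (.negSucc (nat_lit 8240448046503454153617)), (.ofNat (nat_lit 8240448046503454153618)), (.ofNat (nat_lit 760656742754164998792))⟩,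
    ⟨nat_lit 0, nat_lit 5, nat_lit 4, (.ofNat (nat_lit 8)), (.negSucc (nat_lit 3101579967)), (.ofNat (nat_lit 87820113996358786106580132062592)), (.ofNat (nat_lit 0)), (.ofNat (nat_lit 1351078676867058247787310129408)), (.negSucc (nat_lit 3101579983)), (.negSucc (nat_lit 3101579951)), (.ofNat (nat_lit 8240448046503454153618)), (.negSucc (nat_lit 8240448046503454153617)), (.negSucc (nat_lit 8240448046503454153617)), (.ofNat (nat_lit 8240448046503454153618)), (.ofNat (nat_lit 760656742754164998792))⟩,
    ⟨nat_lit 2, nat_lit 6, nat_lit 5, (.ofNat (nat_lit 8)), (.negSucc (nat_lit 6743649471)), (.ofNat (nat_lit 57807829466892181903025882997120)), (.ofNat (nat_lit 0)), (.ofNat (nat_lit 889351222567572029273220122880)), (.negSucc (nat_lit 6743649487)), (.negSucc (nat_lit 6743649455)), (.negSucc (nat_lit 8240448046503454153617)), (.ofNat (nat_lit 8240448046503454153618)), (.negSucc (nat_lit 8240448046503454153617)), (.ofNat (nat_lit 8240448046503454153618)), (.ofNat (nat_lit 760656742754164998792))⟩,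
    ⟨nat_lit 0, nat_lit 7, nat_lit 8, (.ofNat (nat_lit 8)), (.negSucc (nat_lit 2386115327)), (.ofNat (nat_lit 56839352417546823657912256671744)), (.ofNat (nat_lit 0)), (.ofNat (nat_lit 874451575654566517810002272256)), (.negSucc (nat_lit 2386115343)), (.negSucc (nat_lit 2386115311)), (.ofNat (nat_lit 8240448046503454153618)), (.negSucc (nat_lit 8240448046503454153617)), (.negSucc (nat_lit 8240448046503454153617)), (.ofNat (nat_lit 8240448046503454153618)), (.ofNat (nat_lit 760656742754164998792))⟩,
    ⟨nat_lit 0, nat_lit 8, nat_lit 9, (.ofNat (nat_lit 8)), (.ofNat (nat_lit 2237132416)), (.ofNat (nat_lit 18741719577000522153990408733952)), (.ofNat (nat_lit 0)), (.ofNat (nat_lit 288334147338469571598522818048)), (.ofNat (nat_lit 2237132400)), (.ofNat (nat_lit 2237132432)), (.negSucc (nat_lit 8240448046503454153617)), (.ofNat (nat_lit 8240448046503454153618)), (.negSucc (nat_lit 8240448046503454153617)), (.ofNat (nat_lit 8240448046503454153618)), (.ofNat (nat_lit 760656742754164998792))⟩,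
    ⟨nat_lit 1, nat_lit 9, nat_lit 10, (.ofNat (nat_lit 8)), (.ofNat (nat_lit 3727282432)), (.ofNat (nat_lit 31021223365344813105059537891840)), (.ofNat (nat_lit 0)), (.ofNat (nat_lit 477249590236074047767945948160)), (.ofNat (nat_lit 3727282416)), (.ofNat (nat_lit 3727282448)), (.ofNat (nat_lit 8240448046503454153618)), (.negSucc (nat_lit 8240448046503454153617)), (.negSucc (nat_lit 8240448046503454153617)), (.ofNat (nat_lit 8240448046503454153618)), (.ofNat (nat_lit 760656740599604224648))⟩,
    ⟨nat_lit 0, nat_lit 18, nat_lit 10, (.ofNat (nat_lit 8)), (.ofNat (nat_lit 1946317376)), (.ofNat (nat_lit 45697173381950927935951251864448)), (.ofNat (nat_lit 0)), (.ofNat (nat_lit 703033434726800166429698827520)), (.ofNat (nat_lit 1946317360)), (.ofNat (nat_lit 1946317392)), (.ofNat (nat_lit 8240448046503454153618)), (.negSucc (nat_lit 8240448046503454153617)), (.negSucc (nat_lit 8240448046503454153617)), (.ofNat (nat_lit 8240448046503454153618)), (.ofNat (nat_lit 760652274158099426232))⟩,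
    ⟨nat_lit 1, nat_lit 11, nat_lit 17, (.ofNat (nat_lit 8)), (.negSucc (nat_lit 4087365631)), (.ofNat (nat_lit 60102866236397528138983982003968)), (.ofNat (nat_lit 0)), (.ofNat (nat_lit 924659480559961971364720364032)), (.negSucc (nat_lit 4087365647)), (.negSucc (nat_lit 4087365615)), (.ofNat (nat_lit 8240448046503454153618)), (.negSucc (nat_lit 8240448046503454153617)), (.negSucc (nat_lit 8240448046503454153617)), (.ofNat (nat_lit 8240448046503454153618)), (.ofNat (nat_lit 760656742754164998792))⟩,
    ⟨nat_lit 0, nat_lit 6, nat_lit 11, (.ofNat (nat_lit 8)), (.negSucc (nat_lit 5554761919)), (.ofNat (nat_lit 48010863361501508134786747033984)), (.ofNat (nat_lit 0)), (.ofNat (nat_lit 738628667100023202070236150016)), (.negSucc (nat_lit 5554761935)), (.negSucc (nat_lit 5554761903)), (.negSucc (nat_lit 8240448046503454153617)), (.ofNat (nat_lit 8240448046503454153618)), (.negSucc (nat_lit 8240448046503454153617)), (.ofNat (nat_lit 8240448046503454153618)), (.ofNat (nat_lit 760656742754164998792))⟩,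
    ⟨nat_lit 0, nat_lit 19, nat_lit 12, (.ofNat (nat_lit 8)), (.negSucc (nat_lit 146328511)), (.ofNat (nat_lit 1732896345180242059214642719360)), (.ofNat (nat_lit 0)), (.ofNat (nat_lit 26659943772003723987794640640)), (.negSucc (nat_lit 146328527)), (.negSucc (nat_lit 146328495)), (.negSucc (nat_lit 8240448046503454153617)), (.ofNat (nat_lit 8240448046503454153618)), (.negSucc (nat_lit 8240448046503454153617)), (.ofNat (nat_lit 8240448046503454153618)), (.ofNat (nat_lit 760656742754164998792))⟩,
    ⟨nat_lit 1, nat_lit 12, nat_lit 13, (.ofNat (nat_lit 8)), (.ofNat (nat_lit 3418523264)), (.ofNat (nat_lit 31108872198793811188874346844928)), (.ofNat (nat_lit 0)), (.ofNat (nat_lit 478598033827597095211244483072)), (.ofNat (nat_lit 3418523248)), (.ofNat (nat_lit 3418523280)), (.ofNat (nat_lit 8240448046503454153618)), (.negSucc (nat_lit 8240448046503454153617)), (.negSucc (nat_lit 8240448046503454153617)), (.ofNat (nat_lit 8240448046503454153618)), (.ofNat (nat_lit 760656742754164998792))⟩,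
    ⟨nat_lit 0, nat_lit 14, nat_lit 13, (.ofNat (nat_lit 8)), (.ofNat (nat_lit 1814033216)), (.ofNat (nat_lit 44330589080469644575978691038592)), (.ofNat (nat_lit 0)), (.ofNat (nat_lit 682009062776456070396527153408)), (.ofNat (nat_lit 1814033200)), (.ofNat (nat_lit 1814033232)), (.ofNat (nat_lit 8240448046503454153618)), (.negSucc (nat_lit 8240448046503454153617)), (.negSucc (nat_lit 8240448046503454153617)), (.ofNat (nat_lit 8240448046503454153618)), (.ofNat (nat_lit 760656742754164998792))⟩,
    ⟨nat_lit 0, nat_lit 15, nat_lit 14, (.ofNat (nat_lit 8)), (.negSucc (nat_lit 829320639)), (.ofNat (nat_lit 22548168961577071721693334387584)), (.ofNat (nat_lit 0)), (.ofNat (nat_lit 346894907101185718793682396416)), (.negSucc (nat_lit 829320655)), (.negSucc (nat_lit 829320623)), (.negSucc (nat_lit 8240448046503454153617)), (.ofNat (nat_lit 8240448046503454153618)), (.negSucc (nat_lit 8240448046503454153617)), (.ofNat (nat_lit 8240448046503454153618)), (.ofNat (nat_lit 760656742754164998792))⟩,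
    ⟨nat_lit 2, nat_lit 15, nat_lit 16, (.ofNat (nat_lit 8)), (.negSucc (nat_lit 5844087487)), (.ofNat (nat_lit 63872094637848955928744780043648)), (.ofNat (nat_lit 0)), (.ofNat (nat_lit 982647609813060860437696004352)), (.negSucc (nat_lit 5844087503)), (.negSucc (nat_lit 5844087471)), (.negSucc (nat_lit 8240448046503454153617)), (.ofNat (nat_lit 8240448046503454153618)), (.negSucc (nat_lit 8240448046503454153617)), (.ofNat (nat_lit 8240448046503454153618)), (.ofNat (nat_lit 760656742754164998792))⟩,
    ⟨nat_lit 0, nat_lit 16, nat_lit 17, (.ofNat (nat_lit 8)), (.negSucc (nat_lit 5194429439)), (.ofNat (nat_lit 69225568030385803179441742061312)), (.ofNat (nat_lit 0)), (.ofNat (nat_lit 1065008738929012356601884850688)), (.negSucc (nat_lit 5194429455)), (.negSucc (nat_lit 5194429423)), (.ofNat (nat_lit 8240448046503454153618)), (.negSucc (nat_lit 8240448046503454153617)), (.negSucc (nat_lit 8240448046503454153617)), (.ofNat (nat_lit 8240448046503454153618)), (.ofNat (nat_lit 760656742754164998792))⟩,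
    ⟨nat_lit 2, nat_lit 19, nat_lit 7, (.ofNat (nat_lit 8)), (.negSucc (nat_lit 4609878463)), (.ofNat (nat_lit 38514547827609228614430467245696)), (.ofNat (nat_lit 0)), (.ofNat (nat_lit 592531505040141978680813250304)), (.negSucc (nat_lit 4609878479)), (.negSucc (nat_lit 4609878447)), (.negSucc (nat_lit 8240448046503454153617)), (.ofNat (nat_lit 8240448046503454153618)), (.negSucc (nat_lit 8240448046503454153617)), (.ofNat (nat_lit 8240448046503454153618)), (.ofNat (nat_lit 760656742754164998792))⟩]
  es := [
    ⟨nat_lit 1, nat_lit 0, (.negSucc (nat_lit 6780545023)), (.negSucc (nat_lit 1741643519)), (.negSucc (nat_lit 6780545007)), (.negSucc (nat_lit 1741643535)), (.negSucc (nat_lit 8240448046503454153617)), (.negSucc (nat_lit 126775306928446843218)), (.ofNat (nat_lit 14694773841581134148717015552))⟩,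
    ⟨nat_lit 1, nat_lit 2, (.negSucc (nat_lit 6780545023)), (.negSucc (nat_lit 5218039807)), (.negSucc (nat_lit 6780545007)), (.negSucc (nat_lit 5218039823)), (.ofNat (nat_lit 8240448046503454153618)), (.ofNat (nat_lit 126776123792360833132)), (.ofNat (nat_lit 1733911665743634357291492542976))⟩,
    ⟨nat_lit 2, nat_lit 3, (.negSucc (nat_lit 5218039807)), (.negSucc (nat_lit 1999181183)), (.negSucc (nat_lit 5218039791)), (.negSucc (nat_lit 1999181199)), (.negSucc (nat_lit 8240448046503454153617)), (.negSucc (nat_lit 126776123792360833131)), (.ofNat (nat_lit 410865944438684850125849905664))⟩,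
    ⟨nat_lit 3, nat_lit 4, (.negSucc (nat_lit 1999181183)), (.ofNat (nat_lit 158190528)), (.negSucc (nat_lit 1999181167)), (.ofNat (nat_lit 158190512)), (.ofNat (nat_lit 8240448046503454153618)), (.ofNat (nat_lit 126776123792360833132)), (.ofNat (nat_lit 917762826970969851197966282240))⟩,
    ⟨nat_lit 5, nat_lit 4, (.negSucc (nat_lit 3101579967)), (.ofNat (nat_lit 158190528)), (.negSucc (nat_lit 3101579951)), (.ofNat (nat_lit 158190512)), (.negSucc (nat_lit 8240448046503454153617)), (.negSucc (nat_lit 126776123792360833131)), (.ofNat (nat_lit 957872390891983696317308229632))⟩,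
    ⟨nat_lit 6, nat_lit 5, (.negSucc (nat_lit 6743649471)), (.negSucc (nat_lit 3101579967)), (.negSucc (nat_lit 6743649455)), (.negSucc (nat_lit 3101579983)), (.ofNat (nat_lit 8240448046503454153618)), (.ofNat (nat_lit 126776123792360833132)), (.ofNat (nat_lit 1744284962842132799257312029184))⟩,
    ⟨nat_lit 6, nat_lit 12, (.negSucc (nat_lit 6743649471)), (.negSucc (nat_lit 5554761919)), (.negSucc (nat_lit 6743649455)), (.negSucc (nat_lit 5554761935)), (.negSucc (nat_lit 8240448046503454153617)), (.negSucc (nat_lit 126776123792360833131)), (.ofNat (nat_lit 34417482293011259289128216576))⟩,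
    ⟨nat_lit 19, nat_lit 7, (.negSucc (nat_lit 4609878463)), (.negSucc (nat_lit 2386115327)), (.negSucc (nat_lit 4609878447)), (.negSucc (nat_lit 2386115343)), (.ofNat (nat_lit 8240448046503454153618)), (.ofNat (nat_lit 126776123792360833132)), (.ofNat (nat_lit 1176954027859944191053117719552))⟩,
    ⟨nat_lit 7, nat_lit 8, (.negSucc (nat_lit 2386115327)), (.ofNat (nat_lit 2237132416)), (.negSucc (nat_lit 2386115311)), (.ofNat (nat_lit 2237132400)), (.negSucc (nat_lit 8240448046503454153617)), (.negSucc (nat_lit 126776123792360833131)), (.ofNat (nat_lit 571949123449188844566886824960))⟩,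
    ⟨nat_lit 8, nat_lit 9, (.ofNat (nat_lit 2237132416)), (.ofNat (nat_lit 3727282432)), (.ofNat (nat_lit 2237132432)), (.ofNat (nat_lit 3727282416)), (.ofNat (nat_lit 8240448046503454153618)), (.ofNat (nat_lit 126776123792360833132)), (.ofNat (nat_lit 4719171227750298630158811136))⟩,
    ⟨nat_lit 10, nat_lit 9, (.ofNat (nat_lit 1946317376)), (.ofNat (nat_lit 3727282432)), (.ofNat (nat_lit 1946317392)), (.ofNat (nat_lit 3727282416)), (.negSucc (nat_lit 8240448046503454153617)), (.negSucc (nat_lit 126776122715080446059)), (.ofNat (nat_lit 949780005229069535834107566080))⟩,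
    ⟨nat_lit 12, nat_lit 11, (.negSucc (nat_lit 5554761919)), (.negSucc (nat_lit 4087365631)), (.negSucc (nat_lit 5554761903)), (.negSucc (nat_lit 4087365647)), (.ofNat (nat_lit 8240448046503454153618)), (.ofNat (nat_lit 126776123792360833132)), (.ofNat (nat_lit 1442839851907035144851344083456))⟩,
    ⟨nat_lit 13, nat_lit 14, (.negSucc (nat_lit 146328511)), (.ofNat (nat_lit 3418523264)), (.negSucc (nat_lit 146328495)), (.ofNat (nat_lit 3418523248)), (.ofNat (nat_lit 8240448046503454153618)), (.ofNat (nat_lit 126776123792360833132)), (.ofNat (nat_lit 45210905323667681667080500224))⟩,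
    ⟨nat_lit 15, nat_lit 14, (.ofNat (nat_lit 1814033216)), (.ofNat (nat_lit 3418523264)), (.ofNat (nat_lit 1814033232)), (.ofNat (nat_lit 3418523248)), (.negSucc (nat_lit 8240448046503454153617)), (.negSucc (nat_lit 126776123792360833131)), (.ofNat (nat_lit 911985162331526508755408465920))⟩,
    ⟨nat_lit 16, nat_lit 15, (.negSucc (nat_lit 829320639)), (.ofNat (nat_lit 1814033216)), (.negSucc (nat_lit 829320623)), (.ofNat (nat_lit 1814033200)), (.ofNat (nat_lit 8240448046503454153618)), (.ofNat (nat_lit 126776123792360833132)), (.ofNat (nat_lit 452032963221385632037645840896))⟩,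
    ⟨nat_lit 17, nat_lit 16, (.negSucc (nat_lit 5844087487)), (.negSucc (nat_lit 829320639)), (.negSucc (nat_lit 5844087471)), (.negSucc (nat_lit 829320655)), (.negSucc (nat_lit 8240448046503454153617)), (.negSucc (nat_lit 126776123792360833131)), (.ofNat (nat_lit 241756850980985805549718951936))⟩,
    ⟨nat_lit 17, nat_lit 18, (.negSucc (nat_lit 5844087487)), (.negSucc (nat_lit 5194429439)), (.negSucc (nat_lit 5844087471)), (.negSucc (nat_lit 5194429455)), (.ofNat (nat_lit 8240448046503454153618)), (.ofNat (nat_lit 126776123792360833132)), (.ofNat (nat_lit 1723538368645135915325673056768))⟩,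
    ⟨nat_lit 18, nat_lit 11, (.negSucc (nat_lit 5194429439)), (.negSucc (nat_lit 4087365631)), (.negSucc (nat_lit 5194429423)), (.negSucc (nat_lit 4087365647)), (.negSucc (nat_lit 8240448046503454153617)), (.negSucc (nat_lit 126776123792360833131)), (.ofNat (nat_lit 406479109212888797878096644608))⟩,
    ⟨nat_lit 0, nat_lit 10, (.negSucc (nat_lit 1741643519)), (.ofNat (nat_lit 1946317376)), (.negSucc (nat_lit 1741643503)), (.ofNat (nat_lit 1946317360)), (.ofNat (nat_lit 8240448046503454153618)), (.ofNat (nat_lit 126775007181984633528)), (.ofNat (nat_lit 456289035405978680029160244992))⟩,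
    ⟨nat_lit 19, nat_lit 13, (.negSucc (nat_lit 4609878463)), (.negSucc (nat_lit 146328511)), (.negSucc (nat_lit 4609878447)), (.negSucc (nat_lit 146328527)), (.negSucc (nat_lit 8240448046503454153617)), (.negSucc (nat_lit 126776123792360833131)), (.ofNat (nat_lit 8108982220339766308508781056))⟩]

theorem ok107 : stOK 19 19 S107 = true := by decide +kernel

def S108 : SD where
  vs := [
    ⟨nat_lit 0, nat_lit 0, nat_lit 18, (.ofNat (nat_lit 8)), (.negSucc (nat_lit 2927490815)), (.ofNat (nat_lit 25082956622726608054178456933632)), (.negSucc (nat_lit 1185847295)), (.ofNat (nat_lit 9776233401800008565699165990912)), (.negSucc (nat_lit 2927490831)), (.negSucc (nat_lit 2927490799)), (.negSucc (nat_lit 8240448046503454153617)), (.ofNat (nat_lit 8240448046503454153618)), (.negSucc (nat_lit 8240448046503454153617)), (.ofNat (nat_lit 8240448046503454153618)), (.ofNat (nat_lit 0))⟩,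
    ⟨nat_lit 2, nat_lit 0, nat_lit 1, (.ofNat (nat_lit 8)), (.negSucc (nat_lit 7967703039)), (.ofNat (nat_lit 66616563597950238137467474360064)), (.negSucc (nat_lit 1187158015)), (.ofNat (nat_lit 9787034321863521573127396175872)), (.negSucc (nat_lit 7967703055)), (.negSucc (nat_lit 7967703023)), (.negSucc (nat_lit 8240448046503454153617)), (.ofNat (nat_lit 8240448046503454153618)), (.negSucc (nat_lit 8240448046503454153617)), (.ofNat (nat_lit 8240448046503454153618)), (.ofNat (nat_lit 0))⟩,
    ⟨nat_lit 0, nat_lit 1, nat_lit 2, (.ofNat (nat_lit 8)), (.negSucc (nat_lit 6404149247)), (.ofNat (nat_lit 79500947388839706220455048779520)), (.negSucc (nat_lit 1186109439)), (.ofNat (nat_lit 9795675057914331979069980323840)), (.negSucc (nat_lit 6404149263)), (.negSucc (nat_lit 6404149231)), (.ofNat (nat_lit 8240448046503454153618)), (.negSucc (nat_lit 8240448046503454153617)), (.negSucc (nat_lit 8240448046503454153617)), (.ofNat (nat_lit 8240448046503454153618)), (.ofNat (nat_lit 0))⟩,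
    ⟨nat_lit 0, nat_lit 2, nat_lit 3, (.ofNat (nat_lit 8)), (.negSucc (nat_lit 3184242047)), (.ofNat (nat_lit 52967469392677299366350544529920)), (.negSucc (nat_lit 1185060863)), (.ofNat (nat_lit 9787034321863521573127396175872)), (.negSucc (nat_lit 3184242063)), (.negSucc (nat_lit 3184242031)), (.negSucc (nat_lit 8240448046503454153617)), (.ofNat (nat_lit 8240448046503454153618)), (.negSucc (nat_lit 8240448046503454153617)), (.ofNat (nat_lit 8240448046503454153618)), (.ofNat (nat_lit 0))⟩,
    ⟨nat_lit 1, nat_lit 3, nat_lit 4, (.ofNat (nat_lit 8)), (.negSucc (nat_lit 1025821759)), (.ofNat (nat_lit 70753819638460322273597504331904)), (.negSucc (nat_lit 1184012287)), (.ofNat (nat_lit 9795675057914331979069980323840)), (.negSucc (nat_lit 1025821775)), (.negSucc (nat_lit 1025821743)), (.ofNat (nat_lit 8240448046503454153618)), (.negSucc (nat_lit 8240448046503454153617)), (.negSucc (nat_lit 8240448046503454153617)), (.ofNat (nat_lit 8240448046503454153618)), (.ofNat (nat_lit 0))⟩,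
    ⟨nat_lit 0, nat_lit 5, nat_lit 4, (.ofNat (nat_lit 8)), (.negSucc (nat_lit 4286902975)), (.ofNat (nat_lit 97626589974336631093078342571392)), (.negSucc (nat_lit 1185323007)), (.ofNat (nat_lit 9806475977977844986498210508800)), (.negSucc (nat_lit 4286902991)), (.negSucc (nat_lit 4286902959)), (.ofNat (nat_lit 8240448046503454153618)), (.negSucc (nat_lit 8240448046503454153617)), (.negSucc (nat_lit 8240448046503454153617)), (.ofNat (nat_lit 8240448046503454153618)), (.ofNat (nat_lit 0))⟩,
    ⟨nat_lit 2, nat_lit 6, nat_lit 5, (.ofNat (nat_lit 8)), (.negSucc (nat_lit 7930807487)), (.ofNat (nat_lit 67599184156781108679124571246976)), (.negSucc (nat_lit 1187158015)), (.ofNat (nat_lit 9791354689888926776098688249856)), (.negSucc (nat_lit 7930807503)), (.negSucc (nat_lit 7930807471)), (.negSucc (nat_lit 8240448046503454153617)), (.ofNat (nat_lit 8240448046503454153618)), (.negSucc (nat_lit 8240448046503454153617)), (.ofNat (nat_lit 8240448046503454153618)), (.ofNat (nat_lit 0))⟩,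
    ⟨nat_lit 0, nat_lit 7, nat_lit 8, (.ofNat (nat_lit 8)), (.negSucc (nat_lit 3571176191)), (.ofNat (nat_lit 66630707107435750434010944921600)), (.negSucc (nat_lit 1185060863)), (.ofNat (nat_lit 9791354689888926776098688249856)), (.negSucc (nat_lit 3571176207)), (.negSucc (nat_lit 3571176175)), (.ofNat (nat_lit 8240448046503454153618)), (.negSucc (nat_lit 8240448046503454153617)), (.negSucc (nat_lit 8240448046503454153617)), (.ofNat (nat_lit 8240448046503454153618)), (.ofNat (nat_lit 0))⟩,
    ⟨nat_lit 0, nat_lit 8, nat_lit 9, (.ofNat (nat_lit 8)), (.ofNat (nat_lit 2238705280)), (.ofNat (nat_lit 18754680681076737762904284955904)), (.ofNat (nat_lit 1572864)), (.ofNat (nat_lit 12961104076215608913876221952)), (.ofNat (nat_lit 2238705264)), (.ofNat (nat_lit 2238705296)), (.negSucc (nat_lit 8240448046503454153617)), (.ofNat (nat_lit 8240448046503454153618)), (.negSucc (nat_lit 8240448046503454153617)), (.ofNat (nat_lit 8240448046503454153618)), (.ofNat (nat_lit 0))⟩,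
    ⟨nat_lit 1, nat_lit 9, nat_lit 10, (.ofNat (nat_lit 8)), (.ofNat (nat_lit 3729379584)), (.ofNat (nat_lit 31038504837446433916944706187776)), (.ofNat (nat_lit 2097152)), (.ofNat (nat_lit 17281472101620811885168295936)), (.ofNat (nat_lit 3729379568)), (.ofNat (nat_lit 3729379600)), (.ofNat (nat_lit 8240448046503454153618)), (.negSucc (nat_lit 8240448046503454153617)), (.negSucc (nat_lit 8240448046503454153617)), (.ofNat (nat_lit 8240448046503454153618)), (.ofNat (nat_lit 0))⟩,
    ⟨nat_lit 0, nat_lit 18, nat_lit 10, (.ofNat (nat_lit 8)), (.ofNat (nat_lit 762305088)), (.ofNat (nat_lit 55488528071839854712049940114304)), (.negSucc (nat_lit 1184012287)), (.ofNat (nat_lit 9791354689888926776098688249856)), (.ofNat (nat_lit 762305072)), (.ofNat (nat_lit 762305104)), (.ofNat (nat_lit 8240448046503454153618)), (.negSucc (nat_lit 8240448046503454153617)), (.negSucc (nat_lit 8240448046503454153617)), (.ofNat (nat_lit 8240448046503454153618)), (.ofNat (nat_lit 0))⟩,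
    ⟨nat_lit 1, nat_lit 11, nat_lit 17, (.ofNat (nat_lit 8)), (.negSucc (nat_lit 5273212927)), (.ofNat (nat_lit 69892060742273752313597024216832)), (.negSucc (nat_lit 1185847295)), (.ofNat (nat_lit 9789194505876224174613042212864)), (.negSucc (nat_lit 5273212943)), (.negSucc (nat_lit 5273212911)), (.ofNat (nat_lit 8240448046503454153618)), (.negSucc (nat_lit 8240448046503454153617)), (.negSucc (nat_lit 8240448046503454153617)), (.ofNat (nat_lit 8240448046503454153618)), (.ofNat (nat_lit 0))⟩,
    ⟨nat_lit 0, nat_lit 6, nat_lit 11, (.ofNat (nat_lit 8)), (.negSucc (nat_lit 6741133503)), (.ofNat (nat_lit 57795737499352327106428497172864)), (.negSucc (nat_lit 1186371583)), (.ofNat (nat_lit 9784874137850818971641750138880)), (.negSucc (nat_lit 6741133519)), (.negSucc (nat_lit 6741133487)), (.negSucc (nat_lit 8240448046503454153617)), (.ofNat (nat_lit 8240448046503454153618)), (.negSucc (nat_lit 8240448046503454153617)), (.ofNat (nat_lit 8240448046503454153618)), (.ofNat (nat_lit 0))⟩,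
    ⟨nat_lit 0, nat_lit 19, nat_lit 12, (.ofNat (nat_lit 8)), (.negSucc (nat_lit 1331913663)), (.ofNat (nat_lit 11502649194942142820456870599296)), (.negSucc (nat_lit 1185585151)), (.ofNat (nat_lit 9769752849761900761242227879936)), (.negSucc (nat_lit 1331913679)), (.negSucc (nat_lit 1331913647)), (.negSucc (nat_lit 8240448046503454153617)), (.ofNat (nat_lit 8240448046503454153618)), (.negSucc (nat_lit 8240448046503454153617)), (.ofNat (nat_lit 8240448046503454153618)), (.ofNat (nat_lit 0))⟩,
    ⟨nat_lit 1, nat_lit 12, nat_lit 13, (.ofNat (nat_lit 8)), (.ofNat (nat_lit 2234773120)), (.ofNat (nat_lit 40893746336644630160516096983808)), (.negSucc (nat_lit 1183750143)), (.ofNat (nat_lit 9784874137850818971641750138880)), (.ofNat (nat_lit 2234773104)), (.ofNat (nat_lit 2234773136)), (.ofNat (nat_lit 8240448046503454153618)), (.negSucc (nat_lit 8240448046503454153617)), (.negSucc (nat_lit 8240448046503454153617)), (.ofNat (nat_lit 8240448046503454153618)), (.ofNat (nat_lit 0))⟩,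
    ⟨nat_lit 0, nat_lit 14, nat_lit 13, (.ofNat (nat_lit 8)), (.ofNat (nat_lit 630020928)), (.ofNat (nat_lit 54117623402333166149106087214464)), (.negSucc (nat_lit 1184012287)), (.ofNat (nat_lit 9787034321863521573127396175872)), (.ofNat (nat_lit 630020912)), (.ofNat (nat_lit 630020944)), (.ofNat (nat_lit 8240448046503454153618)), (.negSucc (nat_lit 8240448046503454153617)), (.negSucc (nat_lit 8240448046503454153617)), (.ofNat (nat_lit 8240448046503454153618)), (.ofNat (nat_lit 0))⟩,
    ⟨nat_lit 0, nat_lit 15, nat_lit 14, (.ofNat (nat_lit 8)), (.negSucc (nat_lit 2014381503)), (.ofNat (nat_lit 32326562547389782888878146415488)), (.negSucc (nat_lit 1185060863)), (.ofNat (nat_lit 9778393585812711167184812027904)), (.negSucc (nat_lit 2014381519)), (.negSucc (nat_lit 2014381487)), (.negSucc (nat_lit 8240448046503454153617)), (.ofNat (nat_lit 8240448046503454153618)), (.negSucc (nat_lit 8240448046503454153617)), (.ofNat (nat_lit 8240448046503454153618)), (.ofNat (nat_lit 0))⟩,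
    ⟨nat_lit 2, nat_lit 15, nat_lit 16, (.ofNat (nat_lit 8)), (.negSucc (nat_lit 7030459071)), (.ofNat (nat_lit 73661289143725180103357822256512)), (.negSucc (nat_lit 1186371583)), (.ofNat (nat_lit 9789194505876224174613042212864)), (.negSucc (nat_lit 7030459087)), (.negSucc (nat_lit 7030459055)), (.negSucc (nat_lit 8240448046503454153617)), (.ofNat (nat_lit 8240448046503454153618)), (.negSucc (nat_lit 8240448046503454153617)), (.ofNat (nat_lit 8240448046503454153618)), (.ofNat (nat_lit 0))⟩,
    ⟨nat_lit 0, nat_lit 16, nat_lit 17, (.ofNat (nat_lit 8)), (.negSucc (nat_lit 6380538879)), (.ofNat (nat_lit 79016922720274729955540430311168)), (.negSucc (nat_lit 1186109439)), (.ofNat (nat_lit 9791354689888926776098688249856)), (.negSucc (nat_lit 6380538895)), (.negSucc (nat_lit 6380538863)), (.ofNat (nat_lit 8240448046503454153618)), (.negSucc (nat_lit 8240448046503454153617)), (.negSucc (nat_lit 8240448046503454153617)), (.ofNat (nat_lit 8240448046503454153618)), (.ofNat (nat_lit 0))⟩,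
    ⟨nat_lit 2, nat_lit 19, nat_lit 7, (.ofNat (nat_lit 8)), (.negSucc (nat_lit 5796512191)), (.ofNat (nat_lit 48292941413421939781615279273600)), (.negSucc (nat_lit 1186633727)), (.ofNat (nat_lit 9778393585812711167184812027904)), (.negSucc (nat_lit 5796512207)), (.negSucc (nat_lit 5796512175)), (.negSucc (nat_lit 8240448046503454153617)), (.ofNat (nat_lit 8240448046503454153618)), (.negSucc (nat_lit 8240448046503454153617)), (.ofNat (nat_lit 8240448046503454153618)), (.ofNat (nat_lit 0))⟩]
  es := [
    ⟨nat_lit 1, nat_lit 0, (.negSucc (nat_lit 7967703039)), (.negSucc (nat_lit 2927490815)), (.negSucc (nat_lit 7967703023)), (.negSucc (nat_lit 2927490831)), (.negSucc (nat_lit 8240448046503454153617)), (.ofNat (nat_lit 0)), (.ofNat (nat_lit 4320368025405202971292073984))⟩,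
    ⟨nat_lit 1, nat_lit 2, (.negSucc (nat_lit 7967703039)), (.negSucc (nat_lit 6404149247)), (.negSucc (nat_lit 7967703023)), (.negSucc (nat_lit 6404149263)), (.ofNat (nat_lit 8240448046503454153618)), (.ofNat (nat_lit 0)), (.ofNat (nat_lit 19569748275701637943283500277760))⟩,
    ⟨nat_lit 2, nat_lit 3, (.negSucc (nat_lit 6404149247)), (.negSucc (nat_lit 3184242047)), (.negSucc (nat_lit 6404149231)), (.negSucc (nat_lit 3184242063)), (.negSucc (nat_lit 8240448046503454153617)), (.ofNat (nat_lit 0)), (.ofNat (nat_lit 21601840127026014856460369920))⟩,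
    ⟨nat_lit 3, nat_lit 4, (.negSucc (nat_lit 3184242047)), (.negSucc (nat_lit 1025821759)), (.negSucc (nat_lit 3184242031)), (.negSucc (nat_lit 1025821775)), (.ofNat (nat_lit 8240448046503454153618)), (.ofNat (nat_lit 0)), (.ofNat (nat_lit 19552466803600017131398331981824))⟩,
    ⟨nat_lit 5, nat_lit 4, (.negSucc (nat_lit 4286902975)), (.negSucc (nat_lit 1025821759)), (.negSucc (nat_lit 4286902959)), (.negSucc (nat_lit 1025821775)), (.negSucc (nat_lit 8240448046503454153617)), (.ofNat (nat_lit 0)), (.ofNat (nat_lit 38883312228646826741628665856))⟩,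
    ⟨nat_lit 6, nat_lit 5, (.negSucc (nat_lit 7930807487)), (.negSucc (nat_lit 4286902975)), (.negSucc (nat_lit 7930807471)), (.negSucc (nat_lit 4286902991)), (.ofNat (nat_lit 8240448046503454153618)), (.ofNat (nat_lit 0)), (.ofNat (nat_lit 19574068643727043146254792351744))⟩,
    ⟨nat_lit 6, nat_lit 12, (.negSucc (nat_lit 7930807487)), (.negSucc (nat_lit 6741133503)), (.negSucc (nat_lit 7930807471)), (.negSucc (nat_lit 6741133519)), (.negSucc (nat_lit 8240448046503454153617)), (.ofNat (nat_lit 0)), (.ofNat (nat_lit 8640736050810405942584147968))⟩,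
    ⟨nat_lit 19, nat_lit 7, (.negSucc (nat_lit 5796512191)), (.negSucc (nat_lit 3571176191)), (.negSucc (nat_lit 5796512175)), (.negSucc (nat_lit 3571176207)), (.ofNat (nat_lit 8240448046503454153618)), (.ofNat (nat_lit 0)), (.ofNat (nat_lit 19556787171625422334369624055808))⟩,
    ⟨nat_lit 7, nat_lit 8, (.negSucc (nat_lit 3571176191)), (.ofNat (nat_lit 2238705280)), (.negSucc (nat_lit 3571176175)), (.ofNat (nat_lit 2238705264)), (.negSucc (nat_lit 8240448046503454153617)), (.ofNat (nat_lit 0)), (.ofNat (nat_lit 25922208152431217827752443904))⟩,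
    ⟨nat_lit 8, nat_lit 9, (.ofNat (nat_lit 2238705280)), (.ofNat (nat_lit 3729379584)), (.ofNat (nat_lit 2238705296)), (.ofNat (nat_lit 3729379568)), (.ofNat (nat_lit 8240448046503454153618)), (.ofNat (nat_lit 0)), (.ofNat (nat_lit 0))⟩,
    ⟨nat_lit 10, nat_lit 9, (.ofNat (nat_lit 762305088)), (.ofNat (nat_lit 3729379584)), (.ofNat (nat_lit 762305104)), (.ofNat (nat_lit 3729379568)), (.negSucc (nat_lit 8240448046503454153617)), (.ofNat (nat_lit 0)), (.ofNat (nat_lit 34562944203241623770336591872))⟩,
    ⟨nat_lit 12, nat_lit 11, (.negSucc (nat_lit 6741133503)), (.negSucc (nat_lit 5273212927)), (.negSucc (nat_lit 6741133487)), (.negSucc (nat_lit 5273212943)), (.ofNat (nat_lit 8240448046503454153618)), (.ofNat (nat_lit 0)), (.ofNat (nat_lit 19561107539650827537340916129792))⟩,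
    ⟨nat_lit 13, nat_lit 14, (.negSucc (nat_lit 1331913663)), (.ofNat (nat_lit 2234773120)), (.negSucc (nat_lit 1331913647)), (.ofNat (nat_lit 2234773104)), (.ofNat (nat_lit 8240448046503454153618)), (.ofNat (nat_lit 0)), (.ofNat (nat_lit 19539505699523801522484455759872))⟩,
    ⟨nat_lit 15, nat_lit 14, (.ofNat (nat_lit 630020928)), (.ofNat (nat_lit 2234773120)), (.ofNat (nat_lit 630020944)), (.ofNat (nat_lit 2234773104)), (.negSucc (nat_lit 8240448046503454153617)), (.ofNat (nat_lit 0)), (.ofNat (nat_lit 30242576177836420799044517888))⟩,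
    ⟨nat_lit 16, nat_lit 15, (.negSucc (nat_lit 2014381503)), (.ofNat (nat_lit 630020928)), (.negSucc (nat_lit 2014381487)), (.ofNat (nat_lit 630020912)), (.ofNat (nat_lit 8240448046503454153618)), (.ofNat (nat_lit 0)), (.ofNat (nat_lit 19543826067549206725455747833856))⟩,
    ⟨nat_lit 17, nat_lit 16, (.negSucc (nat_lit 7030459071)), (.negSucc (nat_lit 2014381503)), (.negSucc (nat_lit 7030459055)), (.negSucc (nat_lit 2014381519)), (.negSucc (nat_lit 8240448046503454153617)), (.ofNat (nat_lit 0)), (.ofNat (nat_lit 12961104076215608913876221952))⟩,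
    ⟨nat_lit 17, nat_lit 18, (.negSucc (nat_lit 7030459071)), (.negSucc (nat_lit 6380538879)), (.negSucc (nat_lit 7030459055)), (.negSucc (nat_lit 6380538895)), (.ofNat (nat_lit 8240448046503454153618)), (.ofNat (nat_lit 0)), (.ofNat (nat_lit 19565427907676232740312208203776))⟩,
    ⟨nat_lit 18, nat_lit 11, (.negSucc (nat_lit 6380538879)), (.negSucc (nat_lit 5273212927)), (.negSucc (nat_lit 6380538863)), (.negSucc (nat_lit 5273212943)), (.negSucc (nat_lit 8240448046503454153617)), (.ofNat (nat_lit 0)), (.ofNat (nat_lit 17281472101620811885168295936))⟩,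
    ⟨nat_lit 0, nat_lit 10, (.negSucc (nat_lit 2927490815)), (.ofNat (nat_lit 762305088)), (.negSucc (nat_lit 2927490799)), (.ofNat (nat_lit 762305072)), (.ofNat (nat_lit 8240448046503454153618)), (.ofNat (nat_lit 0)), (.ofNat (nat_lit 19548146435574611928427039907840))⟩,
    ⟨nat_lit 19, nat_lit 13, (.negSucc (nat_lit 5796512191)), (.negSucc (nat_lit 1331913663)), (.negSucc (nat_lit 5796512175)), (.negSucc (nat_lit 1331913679)), (.negSucc (nat_lit 8240448046503454153617)), (.ofNat (nat_lit 0)), (.ofNat (nat_lit 0))⟩]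

theorem ok108 : stOK 19 19 S108 = true := by decide +kernel

def S109 : SD where
  vs := [
    ⟨nat_lit 0, nat_lit 0, nat_lit 18, (.ofNat (nat_lit 8)), (.negSucc (nat_lit 2927490815)), (.ofNat (nat_lit 25474877819956711305024139231232)), (.ofNat (nat_lit 0)), (.ofNat (nat_lit 391921197230103250845682297600)), (.negSucc (nat_lit 2927490831)), (.negSucc (nat_lit 2927490799)), (.negSucc (nat_lit 8369205047230070624767)), (.ofNat (nat_lit 8369205047230070624768)), (.negSucc (nat_lit 8369205047230070624767)), (.ofNat (nat_lit 8369205047230070624768)), (.ofNat (nat_lit 772542004359698826900))⟩,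
    ⟨nat_lit 2, nat_lit 0, nat_lit 1, (.ofNat (nat_lit 8)), (.negSucc (nat_lit 7967703039)), (.ofNat (nat_lit 67657447404168210608363129995264)), (.ofNat (nat_lit 0)), (.ofNat (nat_lit 1040883806217972470895655635200)), (.negSucc (nat_lit 7967703055)), (.negSucc (nat_lit 7967703023)), (.negSucc (nat_lit 8369205047230070624767)), (.ofNat (nat_lit 8369205047230070624768)), (.negSucc (nat_lit 8369205047230070624767)), (.ofNat (nat_lit 8369205047230070624768)), (.ofNat (nat_lit 772542004359698826900))⟩,
    ⟨nat_lit 0, nat_lit 1, nat_lit 2, (.ofNat (nat_lit 8)), (.negSucc (nat_lit 6404149247)), (.ofNat (nat_lit 80743149691790326630146945515520)), (.ofNat (nat_lit 0)), (.ofNat (nat_lit 1242202302950620409691896736000)), (.negSucc (nat_lit 6404149263)), (.negSucc (nat_lit 6404149231)), (.ofNat (nat_lit 8369205047230070624768)), (.negSucc (nat_lit 8369205047230070624767)), (.negSucc (nat_lit 8369205047230070624767)), (.ofNat (nat_lit 8369205047230070624768)), (.ofNat (nat_lit 772542004359698826900))⟩,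
    ⟨nat_lit 0, nat_lit 2, nat_lit 3, (.ofNat (nat_lit 8)), (.negSucc (nat_lit 3184242047)), (.ofNat (nat_lit 53795086101937882168947963985920)), (.ofNat (nat_lit 0)), (.ofNat (nat_lit 827616709260582802597419456000)), (.negSucc (nat_lit 3184242063)), (.negSucc (nat_lit 3184242031)), (.negSucc (nat_lit 8369205047230070624767)), (.ofNat (nat_lit 8369205047230070624768)), (.negSucc (nat_lit 8369205047230070624767)), (.ofNat (nat_lit 8369205047230070624768)), (.ofNat (nat_lit 772542004359698826900))⟩,
    ⟨nat_lit 1, nat_lit 3, nat_lit 4, (.ofNat (nat_lit 8)), (.negSucc (nat_lit 1025821759)), (.ofNat (nat_lit 71859348070311264809120050479104)), (.ofNat (nat_lit 0)), (.ofNat (nat_lit 1105528431850942535522546147200)), (.negSucc (nat_lit 1025821775)), (.negSucc (nat_lit 1025821743)), (.ofNat (nat_lit 8369205047230070624768)), (.negSucc (nat_lit 8369205047230070624767)), (.negSucc (nat_lit 8369205047230070624767)), (.ofNat (nat_lit 8369205047230070624768)), (.ofNat (nat_lit 772542004359698826900))⟩,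
    ⟨nat_lit 0, nat_lit 5, nat_lit 4, (.ofNat (nat_lit 8)), (.negSucc (nat_lit 4286902975)), (.ofNat (nat_lit 99152005442685640953904359636992)), (.ofNat (nat_lit 0)), (.ofNat (nat_lit 1525415468349009860826017065600)), (.negSucc (nat_lit 4286902991)), (.negSucc (nat_lit 4286902959)), (.ofNat (nat_lit 8369205047230070624768)), (.negSucc (nat_lit 8369205047230070624767)), (.negSucc (nat_lit 8369205047230070624767)), (.ofNat (nat_lit 8369205047230070624768)), (.ofNat (nat_lit 772542004359698826900))⟩,
    ⟨nat_lit 2, nat_lit 6, nat_lit 5, (.ofNat (nat_lit 8)), (.negSucc (nat_lit 7930807487)), (.ofNat (nat_lit 68655421409230813502233585483776)), (.ofNat (nat_lit 0)), (.ofNat (nat_lit 1056237252449704823109014236800)), (.negSucc (nat_lit 7930807503)), (.negSucc (nat_lit 7930807471)), (.negSucc (nat_lit 8369205047230070624767)), (.ofNat (nat_lit 8369205047230070624768)), (.negSucc (nat_lit 8369205047230070624767)), (.ofNat (nat_lit 8369205047230070624768)), (.ofNat (nat_lit 772542004359698826900))⟩,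
    ⟨nat_lit 0, nat_lit 7, nat_lit 8, (.ofNat (nat_lit 8)), (.negSucc (nat_lit 3571176191)), (.ofNat (nat_lit 67671811906008939728243857817600)), (.ofNat (nat_lit 0)), (.ofNat (nat_lit 1041104798573189294232912896000)), (.negSucc (nat_lit 3571176207)), (.negSucc (nat_lit 3571176175)), (.ofNat (nat_lit 8369205047238835905024)), (.negSucc (nat_lit 8369205088455001057120)), (.negSucc (nat_lit 8369205088455001057120)), (.ofNat (nat_lit 8369205047238835905024)), (.ofNat (nat_lit 772542086844620812630))⟩,
    ⟨nat_lit 0, nat_lit 8, nat_lit 9, (.ofNat (nat_lit 8)), (.ofNat (nat_lit 2238705280)), (.ofNat (nat_lit 19047722327226107980736146255488)), (.ofNat (nat_lit 0)), (.ofNat (nat_lit 293041646149370217831861299584)), (.ofNat (nat_lit 2238705264)), (.ofNat (nat_lit 2238705296)), (.negSucc (nat_lit 8369205088455001057120)), (.ofNat (nat_lit 8369205207890553714247)), (.negSucc (nat_lit 8369205088455001057120)), (.ofNat (nat_lit 8369205207890553714247)), (.ofNat (nat_lit 772542490580386735270))⟩,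
    ⟨nat_lit 1, nat_lit 9, nat_lit 10, (.ofNat (nat_lit 8)), (.ofNat (nat_lit 3729379584)), (.ofNat (nat_lit 31523481475531534446895907864576)), (.ofNat (nat_lit 0)), (.ofNat (nat_lit 484976638085100529951201676800)), (.ofNat (nat_lit 3729379568)), (.ofNat (nat_lit 3729379600)), (.ofNat (nat_lit 8369205207890553714247)), (.negSucc (nat_lit 8369205047230070624767)), (.negSucc (nat_lit 8369205047230070624767)), (.ofNat (nat_lit 8369205207890553714247)), (.ofNat (nat_lit 772542647001631184816))⟩,
    ⟨nat_lit 0, nat_lit 18, nat_lit 10, (.ofNat (nat_lit 8)), (.ofNat (nat_lit 762305088)), (.ofNat (nat_lit 56355536322962352441923826581504)), (.ofNat (nat_lit 0)), (.ofNat (nat_lit 867008251122497729873886467200)), (.ofNat (nat_lit 762305072)), (.ofNat (nat_lit 762305104)), (.ofNat (nat_lit 8369205047230070624768)), (.negSucc (nat_lit 8369205047230070624767)), (.negSucc (nat_lit 8369205047230070624767)), (.ofNat (nat_lit 8369205047230070624768)), (.ofNat (nat_lit 772542004359698826900))⟩,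
    ⟨nat_lit 1, nat_lit 11, nat_lit 17, (.ofNat (nat_lit 8)), (.negSucc (nat_lit 5273212927)), (.ofNat (nat_lit 70984124191371779693494592274432)), (.ofNat (nat_lit 0)), (.ofNat (nat_lit 1092063449098027379897568057600)), (.negSucc (nat_lit 5273212943)), (.negSucc (nat_lit 5273212911)), (.ofNat (nat_lit 8369205047230070624768)), (.negSucc (nat_lit 8369205047230070624767)), (.negSucc (nat_lit 8369205047230070624767)), (.ofNat (nat_lit 8369205047230070624768)), (.ofNat (nat_lit 772542004359698826900))⟩,
    ⟨nat_lit 0, nat_lit 6, nat_lit 11, (.ofNat (nat_lit 8)), (.negSucc (nat_lit 6741133503)), (.ofNat (nat_lit 58698795897779707217464469848064)), (.ofNat (nat_lit 0)), (.ofNat (nat_lit 903058398427380111035972675200)), (.negSucc (nat_lit 6741133519)), (.negSucc (nat_lit 6741133487)), (.negSucc (nat_lit 8369205047230070624767)), (.ofNat (nat_lit 8369205047230070624768)), (.negSucc (nat_lit 8369205047230070624767)), (.ofNat (nat_lit 8369205047230070624768)), (.ofNat (nat_lit 772542004359698826900))⟩,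
    ⟨nat_lit 0, nat_lit 19, nat_lit 12, (.ofNat (nat_lit 8)), (.negSucc (nat_lit 1331913663)), (.ofNat (nat_lit 11682378088613113802026116612096)), (.ofNat (nat_lit 0)), (.ofNat (nat_lit 179728893670970981569246012800)), (.negSucc (nat_lit 1331913679)), (.negSucc (nat_lit 1331913647)), (.negSucc (nat_lit 8369205047230070624767)), (.ofNat (nat_lit 8369205047230070624768)), (.negSucc (nat_lit 8369205047230070624767)), (.ofNat (nat_lit 8369205047230070624768)), (.ofNat (nat_lit 772542004359698826900))⟩,
    ⟨nat_lit 1, nat_lit 12, nat_lit 13, (.ofNat (nat_lit 8)), (.ofNat (nat_lit 2234773120)), (.ofNat (nat_lit 41532711123154702506772765278208)), (.ofNat (nat_lit 0)), (.ofNat (nat_lit 638964786510072346256668294400)), (.ofNat (nat_lit 2234773104)), (.ofNat (nat_lit 2234773136)), (.ofNat (nat_lit 8369205047230070624768)), (.negSucc (nat_lit 8369205047230070624767)), (.negSucc (nat_lit 8369205047230070624767)), (.ofNat (nat_lit 8369205047230070624768)), (.ofNat (nat_lit 772542004359698826900))⟩,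
    ⟨nat_lit 0, nat_lit 14, nat_lit 13, (.ofNat (nat_lit 8)), (.ofNat (nat_lit 630020928)), (.ofNat (nat_lit 54963211267994621870184022769664)), (.ofNat (nat_lit 0)), (.ofNat (nat_lit 845587865661455721077935555200)), (.ofNat (nat_lit 630020912)), (.ofNat (nat_lit 630020944)), (.ofNat (nat_lit 8369205047230070624768)), (.negSucc (nat_lit 8369205047230070624767)), (.negSucc (nat_lit 8369205047230070624767)), (.ofNat (nat_lit 8369205047230070624768)), (.ofNat (nat_lit 772542004359698826900))⟩,
    ⟨nat_lit 0, nat_lit 15, nat_lit 14, (.ofNat (nat_lit 8)), (.negSucc (nat_lit 2014381503)), (.ofNat (nat_lit 32831665087192748246515764133888)), (.ofNat (nat_lit 0)), (.ofNat (nat_lit 505102539802965357637617718400)), (.negSucc (nat_lit 2014381519)), (.negSucc (nat_lit 2014381487)), (.negSucc (nat_lit 8369205047230070624767)), (.ofNat (nat_lit 8369205047230070624768)), (.negSucc (nat_lit 8369205047230070624767)), (.ofNat (nat_lit 8369205047230070624768)), (.ofNat (nat_lit 772542004359698826900))⟩,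
    ⟨nat_lit 2, nat_lit 15, nat_lit 16, (.ofNat (nat_lit 8)), (.negSucc (nat_lit 7030459071)), (.ofNat (nat_lit 74812246786595886042470274138112)), (.ofNat (nat_lit 0)), (.ofNat (nat_lit 1150957642870705939112451881600)), (.negSucc (nat_lit 7030459087)), (.negSucc (nat_lit 7030459055)), (.negSucc (nat_lit 8369205047230070624767)), (.ofNat (nat_lit 8369205047230070624768)), (.negSucc (nat_lit 8369205047230070624767)), (.ofNat (nat_lit 8369205047230070624768)), (.ofNat (nat_lit 772542004359698826900))⟩,
    ⟨nat_lit 0, nat_lit 16, nat_lit 17, (.ofNat (nat_lit 8)), (.negSucc (nat_lit 6380538879)), (.ofNat (nat_lit 80251562137779022611093052653568)), (.ofNat (nat_lit 0)), (.ofNat (nat_lit 1234639417504292655552622342400)), (.negSucc (nat_lit 6380538895)), (.negSucc (nat_lit 6380538863)), (.ofNat (nat_lit 8369205047230070624768)), (.negSucc (nat_lit 8369205047230070624767)), (.negSucc (nat_lit 8369205047230070624767)), (.ofNat (nat_lit 8369205047230070624768)), (.ofNat (nat_lit 772542004359698826900))⟩,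
    ⟨nat_lit 2, nat_lit 19, nat_lit 7, (.ofNat (nat_lit 8)), (.negSucc (nat_lit 5796512191)), (.ofNat (nat_lit 49047518623006657590701369753600)), (.ofNat (nat_lit 0)), (.ofNat (nat_lit 754577209584717809086090480000)), (.negSucc (nat_lit 5796512207)), (.negSucc (nat_lit 5796512175)), (.negSucc (nat_lit 8369205047230070624767)), (.ofNat (nat_lit 8369205047238835905024)), (.negSucc (nat_lit 8369205047230070624767)), (.ofNat (nat_lit 8369205047238835905024)), (.ofNat (nat_lit 772542004377229387412))⟩]
  es := [
    ⟨nat_lit 1, nat_lit 0, (.negSucc (nat_lit 7967703039)), (.negSucc (nat_lit 2927490815)), (.negSucc (nat_lit 7967703023)), (.negSucc (nat_lit 2927490831)), (.negSucc (nat_lit 8369205047230070624767)), (.negSucc (nat_lit 128757000726616471149)), (.ofNat (nat_lit 14986260107228204799728339200))⟩,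
    ⟨nat_lit 1, nat_lit 2, (.negSucc (nat_lit 7967703039)), (.negSucc (nat_lit 6404149247)), (.negSucc (nat_lit 7967703023)), (.negSucc (nat_lit 6404149263)), (.ofNat (nat_lit 8369205047230070624768)), (.ofNat (nat_lit 128757000726616471150)), (.ofNat (nat_lit 2066781352328716736991582931200))⟩,
    ⟨nat_lit 2, nat_lit 3, (.negSucc (nat_lit 6404149247)), (.negSucc (nat_lit 3184242047)), (.negSucc (nat_lit 6404149231)), (.negSucc (nat_lit 3184242063)), (.negSucc (nat_lit 8369205047230070624767)), (.negSucc (nat_lit 128757000726616471149)), (.ofNat (nat_lit 417623253572524082392210540800))⟩,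
    ⟨nat_lit 3, nat_lit 4, (.negSucc (nat_lit 3184242047)), (.negSucc (nat_lit 1025821759)), (.negSucc (nat_lit 3184242031)), (.negSucc (nat_lit 1025821775)), (.ofNat (nat_lit 8369205047230070624768)), (.ofNat (nat_lit 128757000726616471150)), (.ofNat (nat_lit 1237610164948641522802628371200))⟩,
    ⟨nat_lit 5, nat_lit 4, (.negSucc (nat_lit 4286902975)), (.negSucc (nat_lit 1025821759)), (.negSucc (nat_lit 4286902959)), (.negSucc (nat_lit 1025821775)), (.negSucc (nat_lit 8369205047230070624767)), (.negSucc (nat_lit 128757000726616471149)), (.ofNat (nat_lit 973446698753243548242463923200))⟩,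
    ⟨nat_lit 6, nat_lit 5, (.negSucc (nat_lit 7930807487)), (.negSucc (nat_lit 4286902975)), (.negSucc (nat_lit 7930807471)), (.negSucc (nat_lit 4286902991)), (.ofNat (nat_lit 8369205047230070624768)), (.ofNat (nat_lit 128757000726616471150)), (.ofNat (nat_lit 2077384237944776173409570208000))⟩,
    ⟨nat_lit 6, nat_lit 12, (.negSucc (nat_lit 7930807487)), (.negSucc (nat_lit 6741133503)), (.negSucc (nat_lit 7930807471)), (.negSucc (nat_lit 6741133519)), (.negSucc (nat_lit 8369205047230070624767)), (.negSucc (nat_lit 128757000726616471149)), (.ofNat (nat_lit 35090266954633472808458265600))⟩,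
    ⟨nat_lit 19, nat_lit 7, (.negSucc (nat_lit 5796512191)), (.negSucc (nat_lit 3571176191)), (.negSucc (nat_lit 5796512175)), (.negSucc (nat_lit 3571176207)), (.ofNat (nat_lit 8369205047238835905024)), (.ofNat (nat_lit 128757000735381751406)), (.ofNat (nat_lit 1500918734152711096885282621952))⟩,
    ⟨nat_lit 7, nat_lit 8, (.negSucc (nat_lit 3571176191)), (.ofNat (nat_lit 2238705280)), (.negSucc (nat_lit 3571176175)), (.ofNat (nat_lit 2238705264)), (.negSucc (nat_lit 8369205088455001057120)), (.negSucc (nat_lit 128757041951546903502)), (.ofNat (nat_lit 581290715803479774871677895424))⟩,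
    ⟨nat_lit 8, nat_lit 9, (.ofNat (nat_lit 2238705280)), (.ofNat (nat_lit 3729379584)), (.ofNat (nat_lit 2238705296)), (.ofNat (nat_lit 3729379568)), (.ofNat (nat_lit 8369205207890553714247)), (.ofNat (nat_lit 128757161387099560629)), (.ofNat (nat_lit 4792309114258307566038878464))⟩,
    ⟨nat_lit 10, nat_lit 9, (.ofNat (nat_lit 762305088)), (.ofNat (nat_lit 3729379584)), (.ofNat (nat_lit 762305104)), (.ofNat (nat_lit 3729379568)), (.negSucc (nat_lit 8369205047230070624767)), (.negSucc (nat_lit 128757000726616471149)), (.ofNat (nat_lit 965160367892017162856136678400))⟩,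
    ⟨nat_lit 12, nat_lit 11, (.negSucc (nat_lit 6741133503)), (.negSucc (nat_lit 5273212927)), (.negSucc (nat_lit 6741133487)), (.negSucc (nat_lit 5273212943)), (.ofNat (nat_lit 8369205047230070624768)), (.ofNat (nat_lit 128757000726616471150)), (.ofNat (nat_lit 1771026529900126749263487084800))⟩,
    ⟨nat_lit 13, nat_lit 14, (.negSucc (nat_lit 1331913663)), (.ofNat (nat_lit 2234773120)), (.negSucc (nat_lit 1331913647)), (.ofNat (nat_lit 2234773104)), (.ofNat (nat_lit 8369205047230070624768)), (.ofNat (nat_lit 128757000726616471150)), (.ofNat (nat_lit 351222102274409387981392806400))⟩,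
    ⟨nat_lit 15, nat_lit 14, (.ofNat (nat_lit 630020928)), (.ofNat (nat_lit 2234773120)), (.ofNat (nat_lit 630020944)), (.ofNat (nat_lit 2234773104)), (.negSucc (nat_lit 8369205047230070624767)), (.negSucc (nat_lit 128757000726616471149)), (.ofNat (nat_lit 926707470745735304531943782400))⟩,
    ⟨nat_lit 16, nat_lit 15, (.negSucc (nat_lit 2014381503)), (.ofNat (nat_lit 630020928)), (.negSucc (nat_lit 2014381487)), (.ofNat (nat_lit 630020912)), (.ofNat (nat_lit 8369205047230070624768)), (.ofNat (nat_lit 128757000726616471150)), (.ofNat (nat_lit 764468260577176137623927328000))⟩,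
    ⟨nat_lit 17, nat_lit 16, (.negSucc (nat_lit 7030459071)), (.negSucc (nat_lit 2014381503)), (.negSucc (nat_lit 7030459055)), (.negSucc (nat_lit 2014381519)), (.negSucc (nat_lit 8369205047230070624767)), (.negSucc (nat_lit 128757000726616471149)), (.ofNat (nat_lit 245736819028754577651308108800))⟩,
    ⟨nat_lit 17, nat_lit 18, (.negSucc (nat_lit 7030459071)), (.negSucc (nat_lit 6380538879)), (.negSucc (nat_lit 7030459055)), (.negSucc (nat_lit 6380538895)), (.ofNat (nat_lit 8369205047230070624768)), (.ofNat (nat_lit 128757000726616471150)), (.ofNat (nat_lit 2056178466712657300573595654400))⟩,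
    ⟨nat_lit 18, nat_lit 11, (.negSucc (nat_lit 6380538879)), (.negSucc (nat_lit 5273212927)), (.negSucc (nat_lit 6380538863)), (.negSucc (nat_lit 5273212943)), (.negSucc (nat_lit 8369205047230070624767)), (.negSucc (nat_lit 128757000726616471149)), (.ofNat (nat_lit 413100368295928010531649030400))⟩,
    ⟨nat_lit 0, nat_lit 10, (.negSucc (nat_lit 2927490815)), (.ofNat (nat_lit 762305088)), (.negSucc (nat_lit 2927490799)), (.ofNat (nat_lit 762305072)), (.ofNat (nat_lit 8369205047230070624768)), (.ofNat (nat_lit 128757000726616471150)), (.ofNat (nat_lit 768856134352978296891636256000))⟩,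
    ⟨nat_lit 19, nat_lit 13, (.negSucc (nat_lit 5796512191)), (.negSucc (nat_lit 1331913663)), (.negSucc (nat_lit 5796512175)), (.negSucc (nat_lit 1331913679)), (.negSucc (nat_lit 8369205047230070624767)), (.negSucc (nat_lit 128757000726616471149)), (.ofNat (nat_lit 8235685067532575157099219200))⟩]

theorem ok109 : stOK 19 19 S109 = true := by decide +kernel

def S110 : SD where
  vs := [
    ⟨nat_lit 0, nat_lit 0, nat_lit 18, (.ofNat (nat_lit 8)), (.negSucc (nat_lit 2928015103)), (.ofNat (nat_lit 25483653567508315623559575961600)), (.negSucc (nat_lit 524287)), (.ofNat (nat_lit 8775747551604318535436730368)), (.negSucc (nat_lit 2928015119)), (.negSucc (nat_lit 2928015087)), (.negSucc (nat_lit 8369205047230070624767)), (.ofNat (nat_lit 8369205047230070624768)), (.negSucc (nat_lit 8369205047230070624767)), (.ofNat (nat_lit 8369205047230070624768)), (.ofNat (nat_lit 0))⟩,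
    ⟨nat_lit 2, nat_lit 0, nat_lit 1, (.ofNat (nat_lit 8)), (.negSucc (nat_lit 7969538047)), (.ofNat (nat_lit 67677192836159320325067862638592)), (.negSucc (nat_lit 1835007)), (.ofNat (nat_lit 19745431991109716704732643328)), (.negSucc (nat_lit 7969538063)), (.negSucc (nat_lit 7969538031)), (.negSucc (nat_lit 8369205047230070624767)), (.ofNat (nat_lit 8369205047230070624768)), (.negSucc (nat_lit 8369205047230070624767)), (.ofNat (nat_lit 8369205047230070624768)), (.ofNat (nat_lit 0))⟩,
    ⟨nat_lit 0, nat_lit 1, nat_lit 2, (.ofNat (nat_lit 8)), (.negSucc (nat_lit 6404935679)), (.ofNat (nat_lit 80771670871333040665387114889216)), (.negSucc (nat_lit 786431)), (.ofNat (nat_lit 28521179542714035240169373696)), (.negSucc (nat_lit 6404935695)), (.negSucc (nat_lit 6404935663)), (.ofNat (nat_lit 8369205047230070624768)), (.negSucc (nat_lit 8369205047230070624767)), (.negSucc (nat_lit 8369205047230070624767)), (.ofNat (nat_lit 8369205047230070624768)), (.ofNat (nat_lit 0))⟩,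
    ⟨nat_lit 0, nat_lit 2, nat_lit 3, (.ofNat (nat_lit 8)), (.negSucc (nat_lit 3183979903)), (.ofNat (nat_lit 53814831533928991885652696629248)), (.ofNat (nat_lit 262144)), (.ofNat (nat_lit 19745431991109716704732643328)), (.negSucc (nat_lit 3183979919)), (.negSucc (nat_lit 3183979887)), (.negSucc (nat_lit 8369205047230070624767)), (.ofNat (nat_lit 8369205047230070624768)), (.negSucc (nat_lit 8369205047230070624767)), (.ofNat (nat_lit 8369205047230070624768)), (.ofNat (nat_lit 0))⟩,
    ⟨nat_lit 1, nat_lit 3, nat_lit 4, (.ofNat (nat_lit 8)), (.ofNat (nat_lit 333354816)), (.ofNat (nat_lit 83252127025350559122201274974208)), (.ofNat (nat_lit 1359176576)), (.ofNat (nat_lit 11392778955039294313081224495104)), (.ofNat (nat_lit 333354800)), (.ofNat (nat_lit 333354832)), (.ofNat (nat_lit 8369205047230070624768)), (.negSucc (nat_lit 8369205047230070624767)), (.negSucc (nat_lit 8369205047230070624767)), (.ofNat (nat_lit 8369205047230070624768)), (.ofNat (nat_lit 0))⟩,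
    ⟨nat_lit 0, nat_lit 5, nat_lit 4, (.ofNat (nat_lit 8)), (.negSucc (nat_lit 2929037119)), (.ofNat (nat_lit 110555754082164440665154880045056)), (.ofNat (nat_lit 1357865856)), (.ofNat (nat_lit 11403748639478799711250520408064)), (.negSucc (nat_lit 2929037135)), (.negSucc (nat_lit 2929037103)), (.ofNat (nat_lit 8369205047230070624768)), (.negSucc (nat_lit 8369205047230070624767)), (.negSucc (nat_lit 8369205047230070624767)), (.ofNat (nat_lit 8369205047230070624768)), (.ofNat (nat_lit 0))⟩,
    ⟨nat_lit 2, nat_lit 6, nat_lit 5, (.ofNat (nat_lit 8)), (.negSucc (nat_lit 7932642495)), (.ofNat (nat_lit 68679554714997725378206036492288)), (.negSucc (nat_lit 1835007)), (.ofNat (nat_lit 24133305766911875972451008512)), (.negSucc (nat_lit 7932642511)), (.negSucc (nat_lit 7932642479)), (.negSucc (nat_lit 8369205047230070624767)), (.ofNat (nat_lit 8369205047230070624768)), (.negSucc (nat_lit 8369205047230070624767)), (.ofNat (nat_lit 8369205047230070624768)), (.ofNat (nat_lit 0))⟩,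
    ⟨nat_lit 0, nat_lit 7, nat_lit 8, (.ofNat (nat_lit 8)), (.negSucc (nat_lit 2212786047)), (.ofNat (nat_lit 79062396924172251120828508471296)), (.ofNat (nat_lit 1358390144)), (.ofNat (nat_lit 11390585018163311392584650653696)), (.negSucc (nat_lit 2212786063)), (.negSucc (nat_lit 2212786031)), (.ofNat (nat_lit 8369205047238835905024)), (.negSucc (nat_lit 8369205088455001057120)), (.negSucc (nat_lit 8369205088455001057120)), (.ofNat (nat_lit 8369205047238835905024)), (.ofNat (nat_lit 0))⟩,
    ⟨nat_lit 0, nat_lit 8, nat_lit 9, (.ofNat (nat_lit 8)), (.ofNat (nat_lit 3598406144)), (.ofNat (nat_lit 30427337660895879634335207272064)), (.ofNat (nat_lit 1359700864)), (.ofNat (nat_lit 11379615333669771653599061016576)), (.ofNat (nat_lit 3598406128)), (.ofNat (nat_lit 3598406160)), (.negSucc (nat_lit 8369205088455001057120)), (.ofNat (nat_lit 8369205207890553714247)), (.negSucc (nat_lit 8369205088455001057120)), (.ofNat (nat_lit 8369205207890553714247)), (.ofNat (nat_lit 0))⟩,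
    ⟨nat_lit 1, nat_lit 9, nat_lit 10, (.ofNat (nat_lit 8)), (.ofNat (nat_lit 5089342592)), (.ofNat (nat_lit 42905290746131323361807836446720)), (.ofNat (nat_lit 1359963008)), (.ofNat (nat_lit 11381809270599788914911928582144)), (.ofNat (nat_lit 5089342576)), (.ofNat (nat_lit 5089342608)), (.ofNat (nat_lit 8369205207890553714247)), (.negSucc (nat_lit 8369205047230070624767)), (.negSucc (nat_lit 8369205047230070624767)), (.ofNat (nat_lit 8369205207890553714247)), (.ofNat (nat_lit 0))⟩,
    ⟨nat_lit 0, nat_lit 18, nat_lit 10, (.ofNat (nat_lit 8)), (.ofNat (nat_lit 2121481664)), (.ofNat (nat_lit 67743927404225844595737332711424)), (.ofNat (nat_lit 1359176576)), (.ofNat (nat_lit 11388391081263492153813506129920)), (.ofNat (nat_lit 2121481648)), (.ofNat (nat_lit 2121481680)), (.ofNat (nat_lit 8369205047230070624768)), (.negSucc (nat_lit 8369205047230070624767)), (.negSucc (nat_lit 8369205047230070624767)), (.ofNat (nat_lit 8369205047230070624768)), (.ofNat (nat_lit 0))⟩,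
    ⟨nat_lit 1, nat_lit 11, nat_lit 17, (.ofNat (nat_lit 8)), (.negSucc (nat_lit 5273737215)), (.ofNat (nat_lit 71006063560250790489833184100352)), (.negSucc (nat_lit 524287)), (.ofNat (nat_lit 21939368879010796338591825920)), (.negSucc (nat_lit 5273737231)), (.negSucc (nat_lit 5273737199)), (.ofNat (nat_lit 8369205047230070624768)), (.negSucc (nat_lit 8369205047230070624767)), (.negSucc (nat_lit 8369205047230070624767)), (.ofNat (nat_lit 8369205047230070624768)), (.ofNat (nat_lit 0))⟩,
    ⟨nat_lit 0, nat_lit 6, nat_lit 11, (.ofNat (nat_lit 8)), (.negSucc (nat_lit 6742182079)), (.ofNat (nat_lit 58716347392882915854535343308800)), (.negSucc (nat_lit 1048575)), (.ofNat (nat_lit 17551495103208637070873460736)), (.negSucc (nat_lit 6742182095)), (.negSucc (nat_lit 6742182063)), (.negSucc (nat_lit 8369205047230070624767)), (.ofNat (nat_lit 8369205047230070624768)), (.negSucc (nat_lit 8369205047230070624767)), (.ofNat (nat_lit 8369205047230070624768)), (.ofNat (nat_lit 0))⟩,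
    ⟨nat_lit 0, nat_lit 19, nat_lit 12, (.ofNat (nat_lit 8)), (.negSucc (nat_lit 1332175807)), (.ofNat (nat_lit 11684572025501014881659975794688)), (.negSucc (nat_lit 262143)), (.ofNat (nat_lit 2193936887901079633859182592)), (.negSucc (nat_lit 1332175823)), (.negSucc (nat_lit 1332175791)), (.negSucc (nat_lit 8369205047230070624767)), (.ofNat (nat_lit 8369205047230070624768)), (.negSucc (nat_lit 8369205047230070624767)), (.ofNat (nat_lit 8369205047230070624768)), (.ofNat (nat_lit 0))⟩,
    ⟨nat_lit 1, nat_lit 12, nat_lit 13, (.ofNat (nat_lit 8)), (.ofNat (nat_lit 2236083840)), (.ofNat (nat_lit 41548068681370010064209779556352)), (.ofNat (nat_lit 1310720)), (.ofNat (nat_lit 15357558215307557437014278144)), (.ofNat (nat_lit 2236083824)), (.ofNat (nat_lit 2236083856)), (.ofNat (nat_lit 8369205047230070624768)), (.negSucc (nat_lit 8369205047230070624767)), (.negSucc (nat_lit 8369205047230070624767)), (.ofNat (nat_lit 8369205047230070624768)), (.ofNat (nat_lit 0))⟩,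
    ⟨nat_lit 0, nat_lit 14, nat_lit 13, (.ofNat (nat_lit 8)), (.ofNat (nat_lit 631069504)), (.ofNat (nat_lit 54980762763097830507254896230400)), (.ofNat (nat_lit 1048576)), (.ofNat (nat_lit 17551495103208637070873460736)), (.ofNat (nat_lit 631069488)), (.ofNat (nat_lit 631069520)), (.ofNat (nat_lit 8369205047230070624768)), (.negSucc (nat_lit 8369205047230070624767)), (.negSucc (nat_lit 8369205047230070624767)), (.ofNat (nat_lit 8369205047230070624768)), (.ofNat (nat_lit 0))⟩,
    ⟨nat_lit 0, nat_lit 15, nat_lit 14, (.ofNat (nat_lit 8)), (.negSucc (nat_lit 2014119359)), (.ofNat (nat_lit 32842634771632253644685060046848)), (.ofNat (nat_lit 262144)), (.ofNat (nat_lit 10969684439505398169295912960)), (.negSucc (nat_lit 2014119375)), (.negSucc (nat_lit 2014119343)), (.negSucc (nat_lit 8369205047230070624767)), (.ofNat (nat_lit 8369205047230070624768)), (.negSucc (nat_lit 8369205047230070624767)), (.ofNat (nat_lit 8369205047230070624768)), (.ofNat (nat_lit 0))⟩,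
    ⟨nat_lit 2, nat_lit 15, nat_lit 16, (.ofNat (nat_lit 8)), (.negSucc (nat_lit 7031507647)), (.ofNat (nat_lit 74834186155474896838808865964032)), (.negSucc (nat_lit 1048575)), (.ofNat (nat_lit 21939368879010796338591825920)), (.negSucc (nat_lit 7031507663)), (.negSucc (nat_lit 7031507631)), (.negSucc (nat_lit 8369205047230070624767)), (.ofNat (nat_lit 8369205047230070624768)), (.negSucc (nat_lit 8369205047230070624767)), (.ofNat (nat_lit 8369205047230070624768)), (.ofNat (nat_lit 0))⟩,
    ⟨nat_lit 0, nat_lit 16, nat_lit 17, (.ofNat (nat_lit 8)), (.negSucc (nat_lit 6381325311)), (.ofNat (nat_lit 80275695443545934487065503662080)), (.negSucc (nat_lit 786431)), (.ofNat (nat_lit 24133305766911875972451008512)), (.negSucc (nat_lit 6381325327)), (.negSucc (nat_lit 6381325295)), (.ofNat (nat_lit 8369205047230070624768)), (.negSucc (nat_lit 8369205047230070624767)), (.negSucc (nat_lit 8369205047230070624767)), (.ofNat (nat_lit 8369205047230070624768)), (.ofNat (nat_lit 0))⟩,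
    ⟨nat_lit 2, nat_lit 19, nat_lit 7, (.ofNat (nat_lit 8)), (.negSucc (nat_lit 5797822911)), (.ofNat (nat_lit 49058488307446162988870665666560)), (.negSucc (nat_lit 1310719)), (.ofNat (nat_lit 10969684439505398169295912960)), (.negSucc (nat_lit 5797822927)), (.negSucc (nat_lit 5797822895)), (.negSucc (nat_lit 8369205047230070624767)), (.ofNat (nat_lit 8369205047238835905024)), (.negSucc (nat_lit 8369205047230070624767)), (.ofNat (nat_lit 8369205047238835905024)), (.ofNat (nat_lit 0))⟩]
  es := [
    ⟨nat_lit 1, nat_lit 0, (.negSucc (nat_lit 7969538047)), (.negSucc (nat_lit 2928015103)), (.negSucc (nat_lit 7969538031)), (.negSucc (nat_lit 2928015119)), (.negSucc (nat_lit 8369205047230070624767)), (.ofNat (nat_lit 0)), (.ofNat (nat_lit 4387873775802159267718365184))⟩,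
    ⟨nat_lit 1, nat_lit 2, (.negSucc (nat_lit 7969538047)), (.negSucc (nat_lit 6404935679)), (.negSucc (nat_lit 7969538031)), (.negSucc (nat_lit 6404935695)), (.ofNat (nat_lit 8369205047230070624768)), (.ofNat (nat_lit 0)), (.ofNat (nat_lit 35102990206417274141746921472))⟩,
    ⟨nat_lit 2, nat_lit 3, (.negSucc (nat_lit 6404935679)), (.negSucc (nat_lit 3183979903)), (.negSucc (nat_lit 6404935663)), (.negSucc (nat_lit 3183979919)), (.negSucc (nat_lit 8369205047230070624767)), (.ofNat (nat_lit 0)), (.ofNat (nat_lit 21939368879010796338591825920))⟩,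
    ⟨nat_lit 3, nat_lit 4, (.negSucc (nat_lit 3183979903)), (.ofNat (nat_lit 333354816)), (.negSucc (nat_lit 3183979887)), (.ofNat (nat_lit 333354800)), (.ofNat (nat_lit 8369205047230070624768)), (.ofNat (nat_lit 0)), (.ofNat (nat_lit 17551495103208637070873460736))⟩,
    ⟨nat_lit 5, nat_lit 4, (.negSucc (nat_lit 2929037119)), (.ofNat (nat_lit 333354816)), (.negSucc (nat_lit 2929037103)), (.ofNat (nat_lit 333354800)), (.negSucc (nat_lit 8369205047230070624767)), (.ofNat (nat_lit 0)), (.ofNat (nat_lit 22768006414975379989091575529472))⟩,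
    ⟨nat_lit 6, nat_lit 5, (.negSucc (nat_lit 7932642495)), (.negSucc (nat_lit 2929037119)), (.negSucc (nat_lit 7932642479)), (.negSucc (nat_lit 2929037135)), (.ofNat (nat_lit 8369205047230070624768)), (.ofNat (nat_lit 0)), (.ofNat (nat_lit 39490863982219433409465286656))⟩,
    ⟨nat_lit 6, nat_lit 12, (.negSucc (nat_lit 7932642495)), (.negSucc (nat_lit 6742182079)), (.negSucc (nat_lit 7932642479)), (.negSucc (nat_lit 6742182095)), (.negSucc (nat_lit 8369205047230070624767)), (.ofNat (nat_lit 0)), (.ofNat (nat_lit 8775747551604318535436730368))⟩,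
    ⟨nat_lit 19, nat_lit 7, (.negSucc (nat_lit 5797822911)), (.negSucc (nat_lit 2212786047)), (.negSucc (nat_lit 5797822895)), (.negSucc (nat_lit 2212786063)), (.ofNat (nat_lit 8369205047238835905024)), (.ofNat (nat_lit 0)), (.ofNat (nat_lit 21939368879022285166728970240))⟩,
    ⟨nat_lit 7, nat_lit 8, (.negSucc (nat_lit 2212786047)), (.ofNat (nat_lit 3598406144)), (.negSucc (nat_lit 2212786031)), (.ofNat (nat_lit 3598406128)), (.negSucc (nat_lit 8369205088455001057120)), (.ofNat (nat_lit 0)), (.ofNat (nat_lit 22759230723435233016087398069120))⟩,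
    ⟨nat_lit 8, nat_lit 9, (.ofNat (nat_lit 3598406144)), (.ofNat (nat_lit 5089342592)), (.ofNat (nat_lit 3598406160)), (.ofNat (nat_lit 5089342576)), (.ofNat (nat_lit 8369205207890553714247)), (.ofNat (nat_lit 0)), (.negSucc (nat_lit 218492313849100993992831))⟩,
    ⟨nat_lit 10, nat_lit 9, (.ofNat (nat_lit 2121481664)), (.ofNat (nat_lit 5089342592)), (.ofNat (nat_lit 2121481680)), (.ofNat (nat_lit 5089342576)), (.negSucc (nat_lit 8369205047230070624767)), (.ofNat (nat_lit 0)), (.ofNat (nat_lit 22763618541199577829823857164288))⟩,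
    ⟨nat_lit 12, nat_lit 11, (.negSucc (nat_lit 6742182079)), (.negSucc (nat_lit 5273737215)), (.negSucc (nat_lit 6742182063)), (.negSucc (nat_lit 5273737231)), (.ofNat (nat_lit 8369205047230070624768)), (.ofNat (nat_lit 0)), (.ofNat (nat_lit 26327242654812955606310191104))⟩,
    ⟨nat_lit 13, nat_lit 14, (.negSucc (nat_lit 1332175807)), (.ofNat (nat_lit 2236083840)), (.negSucc (nat_lit 1332175791)), (.ofNat (nat_lit 2236083824)), (.ofNat (nat_lit 8369205047230070624768)), (.ofNat (nat_lit 0)), (.ofNat (nat_lit 4387873775802159267718365184))⟩,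
    ⟨nat_lit 15, nat_lit 14, (.ofNat (nat_lit 631069504)), (.ofNat (nat_lit 2236083840)), (.ofNat (nat_lit 631069520)), (.ofNat (nat_lit 2236083824)), (.negSucc (nat_lit 8369205047230070624767)), (.ofNat (nat_lit 0)), (.ofNat (nat_lit 26327242654812955606310191104))⟩,
    ⟨nat_lit 16, nat_lit 15, (.negSucc (nat_lit 2014119359)), (.ofNat (nat_lit 631069504)), (.negSucc (nat_lit 2014119343)), (.ofNat (nat_lit 631069488)), (.ofNat (nat_lit 8369205047230070624768)), (.ofNat (nat_lit 0)), (.ofNat (nat_lit 8775747551604318535436730368))⟩,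
    ⟨nat_lit 17, nat_lit 16, (.negSucc (nat_lit 7031507647)), (.negSucc (nat_lit 2014119359)), (.negSucc (nat_lit 7031507631)), (.negSucc (nat_lit 2014119375)), (.negSucc (nat_lit 8369205047230070624767)), (.ofNat (nat_lit 0)), (.ofNat (nat_lit 13163621327406477803155095552))⟩,
    ⟨nat_lit 17, nat_lit 18, (.negSucc (nat_lit 7031507647)), (.negSucc (nat_lit 6381325311)), (.negSucc (nat_lit 7031507631)), (.negSucc (nat_lit 6381325327)), (.ofNat (nat_lit 8369205047230070624768)), (.ofNat (nat_lit 0)), (.ofNat (nat_lit 30715116430615114874028556288))⟩,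
    ⟨nat_lit 18, nat_lit 11, (.negSucc (nat_lit 6381325311)), (.negSucc (nat_lit 5273737215)), (.negSucc (nat_lit 6381325295)), (.negSucc (nat_lit 5273737231)), (.negSucc (nat_lit 8369205047230070624767)), (.ofNat (nat_lit 0)), (.ofNat (nat_lit 17551495103208637070873460736))⟩,
    ⟨nat_lit 0, nat_lit 10, (.negSucc (nat_lit 2928015103)), (.ofNat (nat_lit 2121481664)), (.negSucc (nat_lit 2928015087)), (.ofNat (nat_lit 2121481648)), (.ofNat (nat_lit 8369205047230070624768)), (.ofNat (nat_lit 0)), (.ofNat (nat_lit 13163621327406477803155095552))⟩,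
    ⟨nat_lit 19, nat_lit 13, (.negSucc (nat_lit 5797822911)), (.negSucc (nat_lit 1332175807)), (.negSucc (nat_lit 5797822895)), (.negSucc (nat_lit 1332175823)), (.negSucc (nat_lit 8369205047230070624767)), (.ofNat (nat_lit 0)), (.ofNat (nat_lit 0))⟩]

theorem ok110 : stOK 19 19 S110 = true := by decide +kernel

def S111 : SD where
  vs := [
    ⟨nat_lit 0, nat_lit 0, nat_lit 18, (.ofNat (nat_lit 8)), (.negSucc (nat_lit 2928015103)), (.ofNat (nat_lit 25881835654500633055177694336000)), (.ofNat (nat_lit 0)), (.ofNat (nat_lit 398182086992317431618118374400)), (.negSucc (nat_lit 2928015119)), (.negSucc (nat_lit 2928015087)), (.negSucc (nat_lit 8499973876093040478279)), (.ofNat (nat_lit 8499973876093040478280)), (.negSucc (nat_lit 8499973876093040478279)), (.ofNat (nat_lit 8499973876093040478280)), (.ofNat (nat_lit 784612973177819121072))⟩,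
    ⟨nat_lit 2, nat_lit 0, nat_lit 1, (.ofNat (nat_lit 8)), (.negSucc (nat_lit 7969538047)), (.ofNat (nat_lit 68734648974224309705147047992320)), (.ofNat (nat_lit 0)), (.ofNat (nat_lit 1057456138064989380079185353728)), (.negSucc (nat_lit 7969538063)), (.negSucc (nat_lit 7969538031)), (.negSucc (nat_lit 8499973876093040478279)), (.ofNat (nat_lit 8499973876093040478280)), (.negSucc (nat_lit 8499973876093040478279)), (.ofNat (nat_lit 8499973876093040478280)), (.ofNat (nat_lit 784612973177819121072))⟩,
    ⟨nat_lit 0, nat_lit 1, nat_lit 2, (.ofNat (nat_lit 8)), (.negSucc (nat_lit 6404935679)), (.ofNat (nat_lit 82033728228697619425783788559360)), (.ofNat (nat_lit 0)), (.ofNat (nat_lit 1262057357364578760396673670144)), (.negSucc (nat_lit 6404935695)), (.negSucc (nat_lit 6404935663)), (.ofNat (nat_lit 8499973876093040478280)), (.negSucc (nat_lit 8499973876093040478279)), (.negSucc (nat_lit 8499973876093040478279)), (.ofNat (nat_lit 8499973876093040478280)), (.ofNat (nat_lit 784612973177819121072))⟩,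
    ⟨nat_lit 0, nat_lit 2, nat_lit 3, (.ofNat (nat_lit 8)), (.negSucc (nat_lit 3183979903)), (.ofNat (nat_lit 54655688276646632383866020014080)), (.ofNat (nat_lit 0)), (.ofNat (nat_lit 840856742717640498213323384832)), (.negSucc (nat_lit 3183979919)), (.negSucc (nat_lit 3183979887)), (.negSucc (nat_lit 8499973876093040478279)), (.ofNat (nat_lit 8499973876093040478280)), (.negSucc (nat_lit 8499973876093040478279)), (.ofNat (nat_lit 8499973876093040478280)), (.ofNat (nat_lit 784612973177819121072))⟩,
    ⟨nat_lit 1, nat_lit 3, nat_lit 4, (.ofNat (nat_lit 8)), (.ofNat (nat_lit 333354816)), (.ofNat (nat_lit 84552941510121661608485669895680)), (.ofNat (nat_lit 0)), (.ofNat (nat_lit 1300814484771102486284394921472)), (.ofNat (nat_lit 333354800)), (.ofNat (nat_lit 333354832)), (.ofNat (nat_lit 8499973876093040478280)), (.negSucc (nat_lit 8499973876093040478279)), (.negSucc (nat_lit 8499973876093040478279)), (.ofNat (nat_lit 8499973876093040478280)), (.ofNat (nat_lit 784612973177819121072))⟩,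
    ⟨nat_lit 0, nat_lit 5, nat_lit 4, (.ofNat (nat_lit 8)), (.negSucc (nat_lit 2929037119)), (.ofNat (nat_lit 112283187739698260050547925045760)), (.ofNat (nat_lit 0)), (.ofNat (nat_lit 1727433657533819385393045000704)), (.negSucc (nat_lit 2929037135)), (.negSucc (nat_lit 2929037103)), (.ofNat (nat_lit 8499973876093040478280)), (.negSucc (nat_lit 8499973876093040478279)), (.negSucc (nat_lit 8499973876093040478279)), (.ofNat (nat_lit 8499973876093040478280)), (.ofNat (nat_lit 784612973177819121072))⟩,
    ⟨nat_lit 2, nat_lit 6, nat_lit 5, (.ofNat (nat_lit 8)), (.negSucc (nat_lit 7932642495)), (.ofNat (nat_lit 69752672757419564837240505812480)), (.ofNat (nat_lit 0)), (.ofNat (nat_lit 1073118042421839459034469320192)), (.negSucc (nat_lit 7932642511)), (.negSucc (nat_lit 7932642479)), (.negSucc (nat_lit 8499973876093040478279)), (.ofNat (nat_lit 8499973876093040478280)), (.negSucc (nat_lit 8499973876093040478279)), (.ofNat (nat_lit 8499973876093040478280)), (.ofNat (nat_lit 784612973177819121072))⟩,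
    ⟨nat_lit 0, nat_lit 7, nat_lit 8, (.ofNat (nat_lit 8)), (.negSucc (nat_lit 2212786047)), (.ofNat (nat_lit 80297746876080527694049761131520)), (.ofNat (nat_lit 0)), (.ofNat (nat_lit 1235349951908276573221252660224)), (.negSucc (nat_lit 2212786063)), (.negSucc (nat_lit 2212786031)), (.ofNat (nat_lit 8499973876093040478280)), (.negSucc (nat_lit 8499973876093040478279)), (.negSucc (nat_lit 8499973876093040478279)), (.ofNat (nat_lit 8499973876093040478280)), (.ofNat (nat_lit 784612890692897135342))⟩,
    ⟨nat_lit 0, nat_lit 8, nat_lit 9, (.ofNat (nat_lit 8)), (.ofNat (nat_lit 3598406144)), (.ofNat (nat_lit 30902765055124675401129079541760)), (.ofNat (nat_lit 0)), (.ofNat (nat_lit 475427394228795766793872269696)), (.ofNat (nat_lit 3598406128)), (.ofNat (nat_lit 3598406160)), (.negSucc (nat_lit 8499973876093040478279)), (.ofNat (nat_lit 8499973876093040478280)), (.negSucc (nat_lit 8499973876093040478279)), (.ofNat (nat_lit 8499973876093040478280)), (.ofNat (nat_lit 784612486957131212702))⟩,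
    ⟨nat_lit 1, nat_lit 9, nat_lit 10, (.ofNat (nat_lit 8)), (.ofNat (nat_lit 5089342592)), (.ofNat (nat_lit 43575685914039625289336083891200)), (.ofNat (nat_lit 0)), (.ofNat (nat_lit 670395167908301927528247444480)), (.ofNat (nat_lit 5089342576)), (.ofNat (nat_lit 5089342608)), (.ofNat (nat_lit 8499973876093040478280)), (.negSucc (nat_lit 8499973876093040478279)), (.negSucc (nat_lit 8499973876093040478279)), (.ofNat (nat_lit 8499973876093040478280)), (.ofNat (nat_lit 784612330535886763156))⟩,
    ⟨nat_lit 0, nat_lit 18, nat_lit 10, (.ofNat (nat_lit 8)), (.ofNat (nat_lit 2121481664)), (.ofNat (nat_lit 68802426269916873417545728535040)), (.ofNat (nat_lit 0)), (.ofNat (nat_lit 1058498865691028821808395823616)), (.ofNat (nat_lit 2121481648)), (.ofNat (nat_lit 2121481680)), (.ofNat (nat_lit 8499973876093040478280)), (.negSucc (nat_lit 8499973876093040478279)), (.negSucc (nat_lit 8499973876093040478279)), (.ofNat (nat_lit 8499973876093040478280)), (.ofNat (nat_lit 784612973177819121072))⟩,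
    ⟨nat_lit 1, nat_lit 11, nat_lit 17, (.ofNat (nat_lit 8)), (.negSucc (nat_lit 5273737215)), (.ofNat (nat_lit 72115533303379709091236827601920)), (.ofNat (nat_lit 0)), (.ofNat (nat_lit 1109469743128918601403643501568)), (.negSucc (nat_lit 5273737231)), (.negSucc (nat_lit 5273737199)), (.ofNat (nat_lit 8499973876093040478280)), (.negSucc (nat_lit 8499973876093040478279)), (.negSucc (nat_lit 8499973876093040478279)), (.ofNat (nat_lit 8499973876093040478280)), (.ofNat (nat_lit 784612973177819121072))⟩,
    ⟨nat_lit 0, nat_lit 6, nat_lit 11, (.ofNat (nat_lit 8)), (.negSucc (nat_lit 6742182079)), (.ofNat (nat_lit 59633790320896711414762458048000)), (.ofNat (nat_lit 0)), (.ofNat (nat_lit 917442928013795560227114739200)), (.negSucc (nat_lit 6742182095)), (.negSucc (nat_lit 6742182063)), (.negSucc (nat_lit 8499973876093040478279)), (.ofNat (nat_lit 8499973876093040478280)), (.negSucc (nat_lit 8499973876093040478279)), (.ofNat (nat_lit 8499973876093040478280)), (.ofNat (nat_lit 784612973177819121072))⟩,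
    ⟨nat_lit 0, nat_lit 19, nat_lit 12, (.ofNat (nat_lit 8)), (.negSucc (nat_lit 1332175807)), (.ofNat (nat_lit 11867143463399468239185912916480)), (.ofNat (nat_lit 0)), (.ofNat (nat_lit 182571437898453357525937121792)), (.negSucc (nat_lit 1332175823)), (.negSucc (nat_lit 1332175791)), (.negSucc (nat_lit 8499973876093040478279)), (.ofNat (nat_lit 8499973876093040478280)), (.negSucc (nat_lit 8499973876093040478279)), (.ofNat (nat_lit 8499973876093040478280)), (.ofNat (nat_lit 784612973177819121072))⟩,
    ⟨nat_lit 1, nat_lit 12, nat_lit 13, (.ofNat (nat_lit 8)), (.ofNat (nat_lit 2236083840)), (.ofNat (nat_lit 42197257254516416471463057361920)), (.ofNat (nat_lit 0)), (.ofNat (nat_lit 649188573146406407253277805568)), (.ofNat (nat_lit 2236083824)), (.ofNat (nat_lit 2236083856)), (.ofNat (nat_lit 8499973876093040478280)), (.negSucc (nat_lit 8499973876093040478279)), (.negSucc (nat_lit 8499973876093040478279)), (.ofNat (nat_lit 8499973876093040478280)), (.ofNat (nat_lit 784612973177819121072))⟩,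
    ⟨nat_lit 0, nat_lit 14, nat_lit 13, (.ofNat (nat_lit 8)), (.ofNat (nat_lit 631069504)), (.ofNat (nat_lit 55839837181271234108930753984000)), (.ofNat (nat_lit 0)), (.ofNat (nat_lit 859074418173403601675857753600)), (.ofNat (nat_lit 631069488)), (.ofNat (nat_lit 631069520)), (.ofNat (nat_lit 8499973876093040478280)), (.negSucc (nat_lit 8499973876093040478279)), (.negSucc (nat_lit 8499973876093040478279)), (.ofNat (nat_lit 8499973876093040478280)), (.ofNat (nat_lit 784612973177819121072))⟩,
    ⟨nat_lit 0, nat_lit 15, nat_lit 14, (.ofNat (nat_lit 8)), (.negSucc (nat_lit 2014119359)), (.ofNat (nat_lit 33355800939939007607883264110080)), (.ofNat (nat_lit 0)), (.ofNat (nat_lit 513166168306753963198204063232)), (.negSucc (nat_lit 2014119375)), (.negSucc (nat_lit 2014119343)), (.negSucc (nat_lit 8499973876093040478279)), (.ofNat (nat_lit 8499973876093040478280)), (.negSucc (nat_lit 8499973876093040478279)), (.ofNat (nat_lit 8499973876093040478280)), (.ofNat (nat_lit 784612973177819121072))⟩,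
    ⟨nat_lit 2, nat_lit 15, nat_lit 16, (.ofNat (nat_lit 8)), (.negSucc (nat_lit 7031507647)), (.ofNat (nat_lit 76003470314154192101915254494720)), (.ofNat (nat_lit 0)), (.ofNat (nat_lit 1169284158679295263106388530688)), (.negSucc (nat_lit 7031507663)), (.negSucc (nat_lit 7031507631)), (.negSucc (nat_lit 8499973876093040478279)), (.ofNat (nat_lit 8499973876093040478280)), (.negSucc (nat_lit 8499973876093040478279)), (.ofNat (nat_lit 8499973876093040478280)), (.ofNat (nat_lit 784612973177819121072))⟩,
    ⟨nat_lit 0, nat_lit 16, nat_lit 17, (.ofNat (nat_lit 8)), (.negSucc (nat_lit 6381325311)), (.ofNat (nat_lit 81530003184851339713425902156800)), (.ofNat (nat_lit 0)), (.ofNat (nat_lit 1254307741305405226360398494720)), (.negSucc (nat_lit 6381325327)), (.negSucc (nat_lit 6381325295)), (.ofNat (nat_lit 8499973876093040478280)), (.negSucc (nat_lit 8499973876093040478279)), (.negSucc (nat_lit 8499973876093040478279)), (.ofNat (nat_lit 8499973876093040478280)), (.ofNat (nat_lit 784612973177819121072))⟩,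
    ⟨nat_lit 2, nat_lit 19, nat_lit 7, (.ofNat (nat_lit 8)), (.negSucc (nat_lit 5797822911)), (.ofNat (nat_lit 49825027187250009285571769817600)), (.ofNat (nat_lit 0)), (.ofNat (nat_lit 766538879803846296701104151040)), (.negSucc (nat_lit 5797822927)), (.negSucc (nat_lit 5797822895)), (.negSucc (nat_lit 8499973876093040478279)), (.ofNat (nat_lit 8499973876093040478280)), (.negSucc (nat_lit 8499973876093040478279)), (.ofNat (nat_lit 8499973876093040478280)), (.ofNat (nat_lit 784612973160288560560))⟩]
  es := [
    ⟨nat_lit 1, nat_lit 0, (.negSucc (nat_lit 7969538047)), (.negSucc (nat_lit 2928015103)), (.negSucc (nat_lit 7969538031)), (.negSucc (nat_lit 2928015119)), (.negSucc (nat_lit 8499973876093040478279)), (.negSucc (nat_lit 130768828862969853511)), (.ofNat (nat_lit 15288980949150554238314929152))⟩,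
    ⟨nat_lit 1, nat_lit 2, (.negSucc (nat_lit 7969538047)), (.negSucc (nat_lit 6404935679)), (.negSucc (nat_lit 7969538031)), (.negSucc (nat_lit 6404935695)), (.ofNat (nat_lit 8499973876093040478280)), (.ofNat (nat_lit 130768828862969853512)), (.ofNat (nat_lit 2099623295180828205920055778304))⟩,
    ⟨nat_lit 2, nat_lit 3, (.negSucc (nat_lit 6404935679)), (.negSucc (nat_lit 3183979903)), (.negSucc (nat_lit 6404935663)), (.negSucc (nat_lit 3183979919)), (.negSucc (nat_lit 8499973876093040478279)), (.negSucc (nat_lit 130768828862969853511)), (.ofNat (nat_lit 424491419548329314873291561984))⟩,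
    ⟨nat_lit 3, nat_lit 4, (.negSucc (nat_lit 3183979903)), (.ofNat (nat_lit 333354816)), (.negSucc (nat_lit 3183979887)), (.ofNat (nat_lit 333354800)), (.ofNat (nat_lit 8499973876093040478280)), (.ofNat (nat_lit 130768828862969853512)), (.ofNat (nat_lit 1257222065886951681553355207680))⟩,
    ⟨nat_lit 5, nat_lit 4, (.negSucc (nat_lit 2929037119)), (.ofNat (nat_lit 333354816)), (.negSucc (nat_lit 2929037103)), (.ofNat (nat_lit 333354800)), (.negSucc (nat_lit 8499973876093040478279)), (.negSucc (nat_lit 130768828862969853511)), (.ofNat (nat_lit 1344406903655253291015434635264))⟩,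
    ⟨nat_lit 6, nat_lit 5, (.negSucc (nat_lit 7932642495)), (.negSucc (nat_lit 2929037119)), (.negSucc (nat_lit 7932642479)), (.negSucc (nat_lit 2929037135)), (.ofNat (nat_lit 8499973876093040478280)), (.ofNat (nat_lit 130768828862969853512)), (.ofNat (nat_lit 2110460411412385479770655366144))⟩,
    ⟨nat_lit 6, nat_lit 12, (.negSucc (nat_lit 7932642495)), (.negSucc (nat_lit 6742182079)), (.negSucc (nat_lit 7932642479)), (.negSucc (nat_lit 6742182095)), (.negSucc (nat_lit 8499973876093040478279)), (.negSucc (nat_lit 130768828862969853511)), (.ofNat (nat_lit 35775673431293438298283274240))⟩,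
    ⟨nat_lit 19, nat_lit 7, (.negSucc (nat_lit 5797822911)), (.negSucc (nat_lit 2212786047)), (.negSucc (nat_lit 5797822895)), (.negSucc (nat_lit 2212786063)), (.ofNat (nat_lit 8499973876093040478280)), (.ofNat (nat_lit 130768828854204573256)), (.ofNat (nat_lit 1524713391910160279059923392512))⟩,
    ⟨nat_lit 7, nat_lit 8, (.negSucc (nat_lit 2212786047)), (.ofNat (nat_lit 3598406144)), (.negSucc (nat_lit 2212786031)), (.ofNat (nat_lit 3598406128)), (.negSucc (nat_lit 8499973876093040478279)), (.negSucc (nat_lit 130768787638039421158)), (.ofNat (nat_lit 945986603108948068006621470592))⟩,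
    ⟨nat_lit 8, nat_lit 9, (.ofNat (nat_lit 3598406144)), (.ofNat (nat_lit 5089342592)), (.ofNat (nat_lit 3598406160)), (.ofNat (nat_lit 5089342576)), (.ofNat (nat_lit 8499973876093040478280)), (.ofNat (nat_lit 130768668202486764033)), (.ofNat (nat_lit 4868615126269959018846850944))⟩,
    ⟨nat_lit 10, nat_lit 9, (.ofNat (nat_lit 2121481664)), (.ofNat (nat_lit 5089342592)), (.ofNat (nat_lit 2121481680)), (.ofNat (nat_lit 5089342576)), (.negSucc (nat_lit 8499973876093040478279)), (.negSucc (nat_lit 130768828862969853511)), (.ofNat (nat_lit 1335922538346573334618869827584))⟩,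
    ⟨nat_lit 12, nat_lit 11, (.negSucc (nat_lit 6742182079)), (.negSucc (nat_lit 5273737215)), (.negSucc (nat_lit 6742182063)), (.negSucc (nat_lit 5273737231)), (.ofNat (nat_lit 8499973876093040478280)), (.ofNat (nat_lit 130768828862969853512)), (.ofNat (nat_lit 1799110182596297682155946204160))⟩,
    ⟨nat_lit 13, nat_lit 14, (.negSucc (nat_lit 1332175807)), (.ofNat (nat_lit 2236083840)), (.negSucc (nat_lit 1332175791)), (.ofNat (nat_lit 2236083824)), (.ofNat (nat_lit 8499973876093040478280)), (.ofNat (nat_lit 130768828862969853512)), (.ofNat (nat_lit 356778508150193943407927359488))⟩,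
    ⟨nat_lit 15, nat_lit 14, (.ofNat (nat_lit 631069504)), (.ofNat (nat_lit 2236083840)), (.ofNat (nat_lit 631069520)), (.ofNat (nat_lit 2236083824)), (.negSucc (nat_lit 8499973876093040478279)), (.negSucc (nat_lit 130768828862969853511)), (.ofNat (nat_lit 941598638142618871098628251648))⟩,
    ⟨nat_lit 16, nat_lit 15, (.negSucc (nat_lit 2014119359)), (.ofNat (nat_lit 631069504)), (.negSucc (nat_lit 2014119343)), (.ofNat (nat_lit 631069488)), (.ofNat (nat_lit 8499973876093040478280)), (.ofNat (nat_lit 130768828862969853512)), (.ofNat (nat_lit 776550198204188332253087255552))⟩,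
    ⟨nat_lit 17, nat_lit 16, (.negSucc (nat_lit 7031507647)), (.negSucc (nat_lit 2014119359)), (.negSucc (nat_lit 7031507631)), (.negSucc (nat_lit 2014119375)), (.negSucc (nat_lit 8499973876093040478279)), (.negSucc (nat_lit 130768828862969853511)), (.ofNat (nat_lit 249782138409319594143320870912))⟩,
    ⟨nat_lit 17, nat_lit 18, (.negSucc (nat_lit 7031507647)), (.negSucc (nat_lit 6381325311)), (.negSucc (nat_lit 7031507631)), (.negSucc (nat_lit 6381325327)), (.ofNat (nat_lit 8499973876093040478280)), (.ofNat (nat_lit 130768828862969853512)), (.ofNat (nat_lit 2088786178949270932069456190464))⟩,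
    ⟨nat_lit 18, nat_lit 11, (.negSucc (nat_lit 6381325311)), (.negSucc (nat_lit 5273737215)), (.negSucc (nat_lit 6381325295)), (.negSucc (nat_lit 5273737231)), (.negSucc (nat_lit 8499973876093040478279)), (.negSucc (nat_lit 130768828862969853511)), (.ofNat (nat_lit 419829303661539520651340798976))⟩,
    ⟨nat_lit 0, nat_lit 10, (.negSucc (nat_lit 2928015103)), (.ofNat (nat_lit 2121481664)), (.negSucc (nat_lit 2928015087)), (.ofNat (nat_lit 2121481648)), (.ofNat (nat_lit 8499973876093040478280)), (.ofNat (nat_lit 130768828862969853512)), (.ofNat (nat_lit 781075193035484308997921819648))⟩,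
    ⟨nat_lit 19, nat_lit 13, (.negSucc (nat_lit 5797822911)), (.negSucc (nat_lit 1332175807)), (.negSucc (nat_lit 5797822895)), (.negSucc (nat_lit 1332175823)), (.negSucc (nat_lit 8499973876093040478279)), (.negSucc (nat_lit 130768828862969853511)), (.ofNat (nat_lit 8364367646712771643946884096))⟩]

theorem ok111 : stOK 19 19 S111 = true := by decide +kernel

def S112 : SD where
  vs := [
    ⟨nat_lit 0, nat_lit 0, nat_lit 18, (.ofNat (nat_lit 8)), (.negSucc (nat_lit 2928539391)), (.ofNat (nat_lit 25890748523107731191190247265280)), (.negSucc (nat_lit 524287)), (.ofNat (nat_lit 8912868607098136012552929280)), (.negSucc (nat_lit 2928539407)), (.negSucc (nat_lit 2928539375)), (.negSucc (nat_lit 8499973876093040478279)), (.ofNat (nat_lit 8499973876093040478280)), (.negSucc (nat_lit 8499973876093040478279)), (.ofNat (nat_lit 8499973876093040478280)), (.ofNat (nat_lit 0))⟩,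
    ⟨nat_lit 2, nat_lit 0, nat_lit 1, (.ofNat (nat_lit 8)), (.negSucc (nat_lit 7971373055)), (.ofNat (nat_lit 68754702928590280511175292083200)), (.negSucc (nat_lit 1835007)), (.ofNat (nat_lit 20053954365970806028244090880)), (.negSucc (nat_lit 7971373071)), (.negSucc (nat_lit 7971373039)), (.negSucc (nat_lit 8499973876093040478279)), (.ofNat (nat_lit 8499973876093040478280)), (.negSucc (nat_lit 8499973876093040478279)), (.ofNat (nat_lit 8499973876093040478280)), (.ofNat (nat_lit 0))⟩,
    ⟨nat_lit 0, nat_lit 1, nat_lit 2, (.ofNat (nat_lit 8)), (.negSucc (nat_lit 4411764159)), (.ofNat (nat_lit 99011285553698669121348874862080)), (.ofNat (nat_lit 1993171520)), (.ofNat (nat_lit 16977557325001049695565086302720)), (.negSucc (nat_lit 4411764175)), (.negSucc (nat_lit 4411764143)), (.ofNat (nat_lit 8499973876093040478280)), (.negSucc (nat_lit 8499973876093040478279)), (.negSucc (nat_lit 8499973876093040478279)), (.ofNat (nat_lit 8499973876093040478280)), (.ofNat (nat_lit 0))⟩,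
    ⟨nat_lit 0, nat_lit 2, nat_lit 3, (.ofNat (nat_lit 8)), (.negSucc (nat_lit 1189759807)), (.ofNat (nat_lit 71624332733040583943418553387520)), (.ofNat (nat_lit 1994220096)), (.ofNat (nat_lit 16968644456393951559552533373440)), (.negSucc (nat_lit 1189759823)), (.negSucc (nat_lit 1189759791)), (.negSucc (nat_lit 8499973876093040478279)), (.ofNat (nat_lit 8499973876093040478280)), (.negSucc (nat_lit 8499973876093040478279)), (.ofNat (nat_lit 8499973876093040478280)), (.ofNat (nat_lit 0))⟩,
    ⟨nat_lit 1, nat_lit 3, nat_lit 4, (.ofNat (nat_lit 8)), (.ofNat (nat_lit 2328361344)), (.ofNat (nat_lit 101528270617970936770047617966080)), (.ofNat (nat_lit 1995006528)), (.ofNat (nat_lit 16975329107849275161561948070400)), (.ofNat (nat_lit 2328361328)), (.ofNat (nat_lit 2328361360)), (.ofNat (nat_lit 8499973876093040478280)), (.negSucc (nat_lit 8499973876093040478279)), (.negSucc (nat_lit 8499973876093040478279)), (.ofNat (nat_lit 8499973876093040478280)), (.ofNat (nat_lit 0))⟩,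
    ⟨nat_lit 0, nat_lit 5, nat_lit 4, (.ofNat (nat_lit 8)), (.negSucc (nat_lit 935341311)), (.ofNat (nat_lit 129269657933306407882125564277760)), (.ofNat (nat_lit 1993695808)), (.ofNat (nat_lit 16986470193608147831577639232000)), (.negSucc (nat_lit 935341327)), (.negSucc (nat_lit 935341295)), (.ofNat (nat_lit 8499973876093040478280)), (.negSucc (nat_lit 8499973876093040478279)), (.negSucc (nat_lit 8499973876093040478279)), (.ofNat (nat_lit 8499973876093040478280)), (.ofNat (nat_lit 0))⟩,
    ⟨nat_lit 2, nat_lit 6, nat_lit 5, (.ofNat (nat_lit 8)), (.negSucc (nat_lit 7934477503)), (.ofNat (nat_lit 69777183146089084711275026368000)), (.negSucc (nat_lit 1835007)), (.ofNat (nat_lit 24510388669519874034520555520)), (.negSucc (nat_lit 7934477519)), (.negSucc (nat_lit 7934477487)), (.negSucc (nat_lit 8499973876093040478279)), (.ofNat (nat_lit 8499973876093040478280)), (.negSucc (nat_lit 8499973876093040478279)), (.ofNat (nat_lit 8499973876093040478280)), (.ofNat (nat_lit 0))⟩,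
    ⟨nat_lit 0, nat_lit 7, nat_lit 8, (.ofNat (nat_lit 8)), (.negSucc (nat_lit 218565951)), (.ofNat (nat_lit 97270847766778028321608570969600)), (.ofNat (nat_lit 1994220096)), (.ofNat (nat_lit 16973100890697500627558809838080)), (.negSucc (nat_lit 218565967)), (.negSucc (nat_lit 218565935)), (.ofNat (nat_lit 8499973876093040478280)), (.negSucc (nat_lit 8499973876093040478279)), (.negSucc (nat_lit 8499973876093040478279)), (.ofNat (nat_lit 8499973876093040478280)), (.ofNat (nat_lit 0))⟩,
    ⟨nat_lit 0, nat_lit 8, nat_lit 9, (.ofNat (nat_lit 8)), (.ofNat (nat_lit 5593936960)), (.ofNat (nat_lit 47864724860063303358672198218240)), (.ofNat (nat_lit 1995530816)), (.ofNat (nat_lit 16961959804938627957543118676480)), (.ofNat (nat_lit 5593936944)), (.ofNat (nat_lit 5593936976)), (.negSucc (nat_lit 8499973876093040478279)), (.ofNat (nat_lit 8499973876093040478280)), (.negSucc (nat_lit 8499973876093040478279)), (.ofNat (nat_lit 8499973876093040478280)), (.ofNat (nat_lit 0))⟩,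
    ⟨nat_lit 1, nat_lit 9, nat_lit 10, (.ofNat (nat_lit 8)), (.ofNat (nat_lit 7085135552)), (.ofNat (nat_lit 60539873936130027780882340800000)), (.ofNat (nat_lit 1995792960)), (.ofNat (nat_lit 16964188022090402491546256908800)), (.ofNat (nat_lit 7085135536)), (.ofNat (nat_lit 7085135568)), (.ofNat (nat_lit 8499973876093040478280)), (.negSucc (nat_lit 8499973876093040478279)), (.negSucc (nat_lit 8499973876093040478279)), (.ofNat (nat_lit 8499973876093040478280)), (.ofNat (nat_lit 0))⟩,
    ⟨nat_lit 0, nat_lit 18, nat_lit 10, (.ofNat (nat_lit 8)), (.ofNat (nat_lit 4116488192)), (.ofNat (nat_lit 85773298943462599511101400140800)), (.ofNat (nat_lit 1995006528)), (.ofNat (nat_lit 16970872673545726093555671605760)), (.ofNat (nat_lit 4116488176)), (.ofNat (nat_lit 4116488208)), (.ofNat (nat_lit 8499973876093040478280)), (.negSucc (nat_lit 8499973876093040478279)), (.negSucc (nat_lit 8499973876093040478279)), (.ofNat (nat_lit 8499973876093040478280)), (.ofNat (nat_lit 0))⟩,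
    ⟨nat_lit 1, nat_lit 11, nat_lit 17, (.ofNat (nat_lit 8)), (.negSucc (nat_lit 5274261503)), (.ofNat (nat_lit 72137815474897454431268209925120)), (.negSucc (nat_lit 524287)), (.ofNat (nat_lit 22282171517745340031382323200)), (.negSucc (nat_lit 5274261519)), (.negSucc (nat_lit 5274261487)), (.ofNat (nat_lit 8499973876093040478280)), (.negSucc (nat_lit 8499973876093040478279)), (.negSucc (nat_lit 8499973876093040478279)), (.ofNat (nat_lit 8499973876093040478280)), (.ofNat (nat_lit 0))⟩,
    ⟨nat_lit 0, nat_lit 6, nat_lit 11, (.ofNat (nat_lit 8)), (.negSucc (nat_lit 6743230655)), (.ofNat (nat_lit 59651616058110907686787563906560)), (.negSucc (nat_lit 1048575)), (.ofNat (nat_lit 17825737214196272025105858560)), (.negSucc (nat_lit 6743230671)), (.negSucc (nat_lit 6743230639)), (.negSucc (nat_lit 8499973876093040478279)), (.ofNat (nat_lit 8499973876093040478280)), (.negSucc (nat_lit 8499973876093040478279)), (.ofNat (nat_lit 8499973876093040478280)), (.ofNat (nat_lit 0))⟩,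
    ⟨nat_lit 0, nat_lit 19, nat_lit 12, (.ofNat (nat_lit 8)), (.negSucc (nat_lit 1332437951)), (.ofNat (nat_lit 11869371680551242773189051148800)), (.negSucc (nat_lit 262143)), (.ofNat (nat_lit 2228217151774534003138232320)), (.negSucc (nat_lit 1332437967)), (.negSucc (nat_lit 1332437935)), (.negSucc (nat_lit 8499973876093040478279)), (.ofNat (nat_lit 8499973876093040478280)), (.negSucc (nat_lit 8499973876093040478279)), (.ofNat (nat_lit 8499973876093040478280)), (.ofNat (nat_lit 0))⟩,
    ⟨nat_lit 1, nat_lit 12, nat_lit 13, (.ofNat (nat_lit 8)), (.ofNat (nat_lit 2237132416)), (.ofNat (nat_lit 42210626557427063675481886755840)), (.ofNat (nat_lit 1048576)), (.ofNat (nat_lit 13369302910647204018829393920)), (.ofNat (nat_lit 2237132400)), (.ofNat (nat_lit 2237132432)), (.ofNat (nat_lit 8499973876093040478280)), (.negSucc (nat_lit 8499973876093040478279)), (.negSucc (nat_lit 8499973876093040478279)), (.ofNat (nat_lit 8499973876093040478280)), (.ofNat (nat_lit 0))⟩,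
    ⟨nat_lit 0, nat_lit 14, nat_lit 13, (.ofNat (nat_lit 8)), (.ofNat (nat_lit 631855936)), (.ofNat (nat_lit 55855434701333655846952721610240)), (.ofNat (nat_lit 786432)), (.ofNat (nat_lit 15597520062421738021967626240)), (.ofNat (nat_lit 631855920)), (.ofNat (nat_lit 631855952)), (.ofNat (nat_lit 8499973876093040478280)), (.negSucc (nat_lit 8499973876093040478279)), (.negSucc (nat_lit 8499973876093040478279)), (.ofNat (nat_lit 8499973876093040478280)), (.ofNat (nat_lit 0))⟩,
    ⟨nat_lit 0, nat_lit 15, nat_lit 14, (.ofNat (nat_lit 8)), (.negSucc (nat_lit 2013857215)), (.ofNat (nat_lit 33366942025697880277898955271680)), (.ofNat (nat_lit 262144)), (.ofNat (nat_lit 11141085758872670015691161600)), (.negSucc (nat_lit 2013857231)), (.negSucc (nat_lit 2013857199)), (.negSucc (nat_lit 8499973876093040478279)), (.ofNat (nat_lit 8499973876093040478280)), (.negSucc (nat_lit 8499973876093040478279)), (.ofNat (nat_lit 8499973876093040478280)), (.ofNat (nat_lit 0))⟩,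
    ⟨nat_lit 2, nat_lit 15, nat_lit 16, (.ofNat (nat_lit 8)), (.negSucc (nat_lit 7032556223)), (.ofNat (nat_lit 76025752485671937441946636817920)), (.negSucc (nat_lit 1048575)), (.ofNat (nat_lit 22282171517745340031382323200)), (.negSucc (nat_lit 7032556239)), (.negSucc (nat_lit 7032556207)), (.negSucc (nat_lit 8499973876093040478279)), (.ofNat (nat_lit 8499973876093040478280)), (.negSucc (nat_lit 8499973876093040478279)), (.ofNat (nat_lit 8499973876093040478280)), (.ofNat (nat_lit 0))⟩,
    ⟨nat_lit 0, nat_lit 16, nat_lit 17, (.ofNat (nat_lit 8)), (.negSucc (nat_lit 6382111743)), (.ofNat (nat_lit 81554513573520859587460422712320)), (.negSucc (nat_lit 786431)), (.ofNat (nat_lit 24510388669519874034520555520)), (.negSucc (nat_lit 6382111759)), (.negSucc (nat_lit 6382111727)), (.ofNat (nat_lit 8499973876093040478280)), (.negSucc (nat_lit 8499973876093040478279)), (.negSucc (nat_lit 8499973876093040478279)), (.ofNat (nat_lit 8499973876093040478280)), (.ofNat (nat_lit 0))⟩,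
    ⟨nat_lit 2, nat_lit 19, nat_lit 7, (.ofNat (nat_lit 8)), (.negSucc (nat_lit 5799133631)), (.ofNat (nat_lit 49836168273008881955587460979200)), (.negSucc (nat_lit 1310719)), (.ofNat (nat_lit 11141085758872670015691161600)), (.negSucc (nat_lit 5799133647)), (.negSucc (nat_lit 5799133615)), (.negSucc (nat_lit 8499973876093040478279)), (.ofNat (nat_lit 8499973876093040478280)), (.negSucc (nat_lit 8499973876093040478279)), (.ofNat (nat_lit 8499973876093040478280)), (.ofNat (nat_lit 0))⟩]
  es := [
    ⟨nat_lit 1, nat_lit 0, (.negSucc (nat_lit 7971373055)), (.negSucc (nat_lit 2928539391)), (.negSucc (nat_lit 7971373039)), (.negSucc (nat_lit 2928539407)), (.negSucc (nat_lit 8499973876093040478279)), (.ofNat (nat_lit 0)), (.ofNat (nat_lit 4456434303549068006276464640))⟩,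
    ⟨nat_lit 1, nat_lit 2, (.negSucc (nat_lit 7971373055)), (.negSucc (nat_lit 4411764159)), (.negSucc (nat_lit 7971373039)), (.negSucc (nat_lit 4411764175)), (.ofNat (nat_lit 8499973876093040478280)), (.ofNat (nat_lit 0)), (.ofNat (nat_lit 35651474428392544050211717120))⟩,
    ⟨nat_lit 2, nat_lit 3, (.negSucc (nat_lit 4411764159)), (.negSucc (nat_lit 1189759807)), (.negSucc (nat_lit 4411764143)), (.negSucc (nat_lit 1189759823)), (.negSucc (nat_lit 8499973876093040478279)), (.ofNat (nat_lit 0)), (.ofNat (nat_lit 33919463175573706847079960888320))⟩,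
    ⟨nat_lit 3, nat_lit 4, (.negSucc (nat_lit 1189759807)), (.ofNat (nat_lit 2328361344)), (.negSucc (nat_lit 1189759791)), (.ofNat (nat_lit 2328361328)), (.ofNat (nat_lit 8499973876093040478280)), (.ofNat (nat_lit 0)), (.ofNat (nat_lit 17825737214196272025105858560))⟩,
    ⟨nat_lit 5, nat_lit 4, (.negSucc (nat_lit 935341311)), (.ofNat (nat_lit 2328361344)), (.negSucc (nat_lit 935341295)), (.ofNat (nat_lit 2328361328)), (.negSucc (nat_lit 8499973876093040478279)), (.ofNat (nat_lit 0)), (.ofNat (nat_lit 33932832478484354051098790282240))⟩,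
    ⟨nat_lit 6, nat_lit 5, (.negSucc (nat_lit 7934477503)), (.negSucc (nat_lit 935341311)), (.negSucc (nat_lit 7934477487)), (.negSucc (nat_lit 935341327)), (.ofNat (nat_lit 8499973876093040478280)), (.ofNat (nat_lit 0)), (.ofNat (nat_lit 40107908731941612056488181760))⟩,
    ⟨nat_lit 6, nat_lit 12, (.negSucc (nat_lit 7934477503)), (.negSucc (nat_lit 6743230655)), (.negSucc (nat_lit 7934477487)), (.negSucc (nat_lit 6743230671)), (.negSucc (nat_lit 8499973876093040478279)), (.ofNat (nat_lit 0)), (.ofNat (nat_lit 8912868607098136012552929280))⟩,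
    ⟨nat_lit 19, nat_lit 7, (.negSucc (nat_lit 5799133631)), (.negSucc (nat_lit 218565951)), (.negSucc (nat_lit 5799133615)), (.negSucc (nat_lit 218565967)), (.ofNat (nat_lit 8499973876093040478280)), (.ofNat (nat_lit 0)), (.ofNat (nat_lit 22282171517745340031382323200))⟩,
    ⟨nat_lit 7, nat_lit 8, (.negSucc (nat_lit 218565951)), (.ofNat (nat_lit 5593936960)), (.negSucc (nat_lit 218565935)), (.ofNat (nat_lit 5593936944)), (.negSucc (nat_lit 8499973876093040478279)), (.ofNat (nat_lit 0)), (.ofNat (nat_lit 33923919609877255915086237352960))⟩,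
    ⟨nat_lit 8, nat_lit 9, (.ofNat (nat_lit 5593936960)), (.ofNat (nat_lit 7085135552)), (.ofNat (nat_lit 5593936976)), (.ofNat (nat_lit 7085135536)), (.ofNat (nat_lit 8499973876093040478280)), (.ofNat (nat_lit 0)), (.ofNat (nat_lit 0))⟩,
    ⟨nat_lit 10, nat_lit 9, (.ofNat (nat_lit 4116488192)), (.ofNat (nat_lit 7085135552)), (.ofNat (nat_lit 4116488208)), (.ofNat (nat_lit 7085135536)), (.negSucc (nat_lit 8499973876093040478279)), (.ofNat (nat_lit 0)), (.ofNat (nat_lit 33928376044180804983092513817600))⟩,
    ⟨nat_lit 12, nat_lit 11, (.negSucc (nat_lit 6743230655)), (.negSucc (nat_lit 5274261503)), (.negSucc (nat_lit 6743230639)), (.negSucc (nat_lit 5274261519)), (.ofNat (nat_lit 8499973876093040478280)), (.ofNat (nat_lit 0)), (.ofNat (nat_lit 26738605821294408037658787840))⟩,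
    ⟨nat_lit 13, nat_lit 14, (.negSucc (nat_lit 1332437951)), (.ofNat (nat_lit 2237132416)), (.negSucc (nat_lit 1332437935)), (.ofNat (nat_lit 2237132400)), (.ofNat (nat_lit 8499973876093040478280)), (.ofNat (nat_lit 0)), (.ofNat (nat_lit 4456434303549068006276464640))⟩,
    ⟨nat_lit 15, nat_lit 14, (.ofNat (nat_lit 631855936)), (.ofNat (nat_lit 2237132416)), (.ofNat (nat_lit 631855952)), (.ofNat (nat_lit 2237132400)), (.negSucc (nat_lit 8499973876093040478279)), (.ofNat (nat_lit 0)), (.ofNat (nat_lit 22282171517745340031382323200))⟩,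
    ⟨nat_lit 16, nat_lit 15, (.negSucc (nat_lit 2013857215)), (.ofNat (nat_lit 631855936)), (.negSucc (nat_lit 2013857199)), (.ofNat (nat_lit 631855920)), (.ofNat (nat_lit 8499973876093040478280)), (.ofNat (nat_lit 0)), (.ofNat (nat_lit 8912868607098136012552929280))⟩,
    ⟨nat_lit 17, nat_lit 16, (.negSucc (nat_lit 7032556223)), (.negSucc (nat_lit 2013857215)), (.negSucc (nat_lit 7032556207)), (.negSucc (nat_lit 2013857231)), (.negSucc (nat_lit 8499973876093040478279)), (.ofNat (nat_lit 0)), (.ofNat (nat_lit 13369302910647204018829393920))⟩,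
    ⟨nat_lit 17, nat_lit 18, (.negSucc (nat_lit 7032556223)), (.negSucc (nat_lit 6382111743)), (.negSucc (nat_lit 7032556207)), (.negSucc (nat_lit 6382111759)), (.ofNat (nat_lit 8499973876093040478280)), (.ofNat (nat_lit 0)), (.ofNat (nat_lit 31195040124843476043935252480))⟩,
    ⟨nat_lit 18, nat_lit 11, (.negSucc (nat_lit 6382111743)), (.negSucc (nat_lit 5274261503)), (.negSucc (nat_lit 6382111727)), (.negSucc (nat_lit 5274261519)), (.negSucc (nat_lit 8499973876093040478279)), (.ofNat (nat_lit 0)), (.ofNat (nat_lit 17825737214196272025105858560))⟩,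
    ⟨nat_lit 0, nat_lit 10, (.negSucc (nat_lit 2928539391)), (.ofNat (nat_lit 4116488192)), (.negSucc (nat_lit 2928539375)), (.ofNat (nat_lit 4116488176)), (.ofNat (nat_lit 8499973876093040478280)), (.ofNat (nat_lit 0)), (.ofNat (nat_lit 13369302910647204018829393920))⟩,
    ⟨nat_lit 19, nat_lit 13, (.negSucc (nat_lit 5799133631)), (.negSucc (nat_lit 1332437951)), (.negSucc (nat_lit 5799133615)), (.negSucc (nat_lit 1332437967)), (.negSucc (nat_lit 8499973876093040478279)), (.ofNat (nat_lit 0)), (.ofNat (nat_lit 0))⟩]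

theorem ok112 : stOK 19 19 S112 = true := by decide +kernel

def S113 : SD where
  vs := [
    ⟨nat_lit 0, nat_lit 0, nat_lit 18, (.ofNat (nat_lit 8)), (.negSucc (nat_lit 2929063679)), (.ofNat (nat_lit 25899661391714829327202800194560)), (.negSucc (nat_lit 524287)), (.ofNat (nat_lit 8912868607098136012552929280)), (.negSucc (nat_lit 2929063695)), (.negSucc (nat_lit 2929063663)), (.negSucc (nat_lit 8499973876093040478279)), (.ofNat (nat_lit 8499973876093040478280)), (.negSucc (nat_lit 8499973876093040478279)), (.ofNat (nat_lit 8499973876093040478280)), (.ofNat (nat_lit 0))⟩,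
    ⟨nat_lit 2, nat_lit 0, nat_lit 1, (.ofNat (nat_lit 8)), (.negSucc (nat_lit 7973208063)), (.ofNat (nat_lit 68774756882956251317203536174080)), (.negSucc (nat_lit 1835007)), (.ofNat (nat_lit 20053954365970806028244090880)), (.negSucc (nat_lit 7973208079)), (.negSucc (nat_lit 7973208047)), (.negSucc (nat_lit 8499973876093040478279)), (.ofNat (nat_lit 8499973876093040478280)), (.negSucc (nat_lit 8499973876093040478279)), (.ofNat (nat_lit 8499973876093040478280)), (.ofNat (nat_lit 0))⟩,
    ⟨nat_lit 0, nat_lit 1, nat_lit 2, (.ofNat (nat_lit 8)), (.negSucc (nat_lit 2400504703)), (.ofNat (nat_lit 116142589862172161663130499194880)), (.ofNat (nat_lit 2011259456)), (.ofNat (nat_lit 17131304308473492541781624332800)), (.negSucc (nat_lit 2400504719)), (.negSucc (nat_lit 2400504687)), (.ofNat (nat_lit 8499973876093040478280)), (.negSucc (nat_lit 8499973876093040478279)), (.negSucc (nat_lit 8499973876093040478279)), (.ofNat (nat_lit 8499973876093040478280)), (.ofNat (nat_lit 0))⟩,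
    ⟨nat_lit 0, nat_lit 2, nat_lit 3, (.ofNat (nat_lit 8)), (.ofNat (nat_lit 822548224)), (.ofNat (nat_lit 88746724172906978349187624791040)), (.ofNat (nat_lit 2012308032)), (.ofNat (nat_lit 17122391439866394405769071403520)), (.ofNat (nat_lit 822548208)), (.ofNat (nat_lit 822548240)), (.negSucc (nat_lit 8499973876093040478279)), (.ofNat (nat_lit 8499973876093040478280)), (.negSucc (nat_lit 8499973876093040478279)), (.ofNat (nat_lit 8499973876093040478280)), (.ofNat (nat_lit 0))⟩,
    ⟨nat_lit 1, nat_lit 3, nat_lit 4, (.ofNat (nat_lit 8)), (.ofNat (nat_lit 4341455808)), (.ofNat (nat_lit 118657346709292654777826104066560)), (.ofNat (nat_lit 2013094464)), (.ofNat (nat_lit 17129076091321718007778486100480)), (.ofNat (nat_lit 4341455792)), (.ofNat (nat_lit 4341455824)), (.ofNat (nat_lit 8499973876093040478280)), (.negSucc (nat_lit 8499973876093040478279)), (.negSucc (nat_lit 8499973876093040478279)), (.ofNat (nat_lit 8499973876093040478280)), (.ofNat (nat_lit 0))⟩,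
    ⟨nat_lit 0, nat_lit 5, nat_lit 4, (.ofNat (nat_lit 8)), (.ofNat (nat_lit 1076442432)), (.ofNat (nat_lit 146409875110386998559919741539840)), (.ofNat (nat_lit 2011783744)), (.ofNat (nat_lit 17140217177080590677794177262080)), (.ofNat (nat_lit 1076442416)), (.ofNat (nat_lit 1076442448)), (.ofNat (nat_lit 8499973876093040478280)), (.negSucc (nat_lit 8499973876093040478279)), (.negSucc (nat_lit 8499973876093040478279)), (.ofNat (nat_lit 8499973876093040478280)), (.ofNat (nat_lit 0))⟩,
    ⟨nat_lit 2, nat_lit 6, nat_lit 5, (.ofNat (nat_lit 8)), (.negSucc (nat_lit 7936312511)), (.ofNat (nat_lit 69801693534758604585309546923520)), (.negSucc (nat_lit 1835007)), (.ofNat (nat_lit 24510388669519874034520555520)), (.negSucc (nat_lit 7936312527)), (.negSucc (nat_lit 7936312495)), (.negSucc (nat_lit 8499973876093040478279)), (.ofNat (nat_lit 8499973876093040478280)), (.negSucc (nat_lit 8499973876093040478279)), (.ofNat (nat_lit 8499973876093040478280)), (.ofNat (nat_lit 0))⟩,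
    ⟨nat_lit 0, nat_lit 7, nat_lit 8, (.ofNat (nat_lit 8)), (.ofNat (nat_lit 1793742080)), (.ofNat (nat_lit 114397695640947971795383918837760)), (.ofNat (nat_lit 2012308032)), (.ofNat (nat_lit 17126847874169943473775347868160)), (.ofNat (nat_lit 1793742064)), (.ofNat (nat_lit 1793742096)), (.ofNat (nat_lit 8499973876093040478280)), (.negSucc (nat_lit 8499973876093040478279)), (.negSucc (nat_lit 8499973876093040478279)), (.ofNat (nat_lit 8499973876093040478280)), (.ofNat (nat_lit 0))⟩,
    ⟨nat_lit 0, nat_lit 8, nat_lit 9, (.ofNat (nat_lit 8)), (.ofNat (nat_lit 7607555712)), (.ofNat (nat_lit 64980431648474374162431854924800)), (.ofNat (nat_lit 2013618752)), (.ofNat (nat_lit 17115706788411070803759656706560)), (.ofNat (nat_lit 7607555696)), (.ofNat (nat_lit 7607555728)), (.negSucc (nat_lit 8499973876093040478279)), (.ofNat (nat_lit 8499973876093040478280)), (.negSucc (nat_lit 8499973876093040478279)), (.ofNat (nat_lit 8499973876093040478280)), (.ofNat (nat_lit 0))⟩,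
    ⟨nat_lit 1, nat_lit 9, nat_lit 10, (.ofNat (nat_lit 8)), (.ofNat (nat_lit 9099016448)), (.ofNat (nat_lit 77657808941692873118645135738880)), (.ofNat (nat_lit 2013880896)), (.ofNat (nat_lit 17117935005562845337762794938880)), (.ofNat (nat_lit 9099016432)), (.ofNat (nat_lit 9099016464)), (.ofNat (nat_lit 8499973876093040478280)), (.negSucc (nat_lit 8499973876093040478279)), (.negSucc (nat_lit 8499973876093040478279)), (.ofNat (nat_lit 8499973876093040478280)), (.ofNat (nat_lit 0))⟩,
    ⟨nat_lit 0, nat_lit 18, nat_lit 10, (.ofNat (nat_lit 8)), (.ofNat (nat_lit 6129582656)), (.ofNat (nat_lit 102897918600480768450873609776640)), (.ofNat (nat_lit 2013094464)), (.ofNat (nat_lit 17124619657018168939772209635840)), (.ofNat (nat_lit 6129582640)), (.ofNat (nat_lit 6129582672)), (.ofNat (nat_lit 8499973876093040478280)), (.negSucc (nat_lit 8499973876093040478279)), (.negSucc (nat_lit 8499973876093040478279)), (.ofNat (nat_lit 8499973876093040478280)), (.ofNat (nat_lit 0))⟩,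
    ⟨nat_lit 1, nat_lit 11, nat_lit 17, (.ofNat (nat_lit 8)), (.negSucc (nat_lit 3262739903)), (.ofNat (nat_lit 89262435131915623371040419560960)), (.ofNat (nat_lit 2011521600)), (.ofNat (nat_lit 17124619657018168939772209635840)), (.negSucc (nat_lit 3262739919)), (.negSucc (nat_lit 3262739887)), (.ofNat (nat_lit 8499973876093040478280)), (.negSucc (nat_lit 8499973876093040478279)), (.negSucc (nat_lit 8499973876093040478279)), (.ofNat (nat_lit 8499973876093040478280)), (.ofNat (nat_lit 0))⟩,
    ⟨nat_lit 0, nat_lit 6, nat_lit 11, (.ofNat (nat_lit 8)), (.negSucc (nat_lit 6744279231)), (.ofNat (nat_lit 59669441795325103958812669765120)), (.negSucc (nat_lit 1048575)), (.ofNat (nat_lit 17825737214196272025105858560)), (.negSucc (nat_lit 6744279247)), (.negSucc (nat_lit 6744279215)), (.negSucc (nat_lit 8499973876093040478279)), (.ofNat (nat_lit 8499973876093040478280)), (.negSucc (nat_lit 8499973876093040478279)), (.ofNat (nat_lit 8499973876093040478280)), (.ofNat (nat_lit 0))⟩,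
    ⟨nat_lit 0, nat_lit 19, nat_lit 12, (.ofNat (nat_lit 8)), (.negSucc (nat_lit 1332700095)), (.ofNat (nat_lit 11871599897703017307192189381120)), (.negSucc (nat_lit 262143)), (.ofNat (nat_lit 2228217151774534003138232320)), (.negSucc (nat_lit 1332700111)), (.negSucc (nat_lit 1332700079)), (.negSucc (nat_lit 8499973876093040478279)), (.ofNat (nat_lit 8499973876093040478280)), (.negSucc (nat_lit 8499973876093040478279)), (.ofNat (nat_lit 8499973876093040478280)), (.ofNat (nat_lit 0))⟩,
    ⟨nat_lit 1, nat_lit 12, nat_lit 13, (.ofNat (nat_lit 8)), (.ofNat (nat_lit 2237918848)), (.ofNat (nat_lit 42221767643185936345497577917440)), (.ofNat (nat_lit 786432)), (.ofNat (nat_lit 11141085758872670015691161600)), (.ofNat (nat_lit 2237918832)), (.ofNat (nat_lit 2237918864)), (.ofNat (nat_lit 8499973876093040478280)), (.negSucc (nat_lit 8499973876093040478279)), (.negSucc (nat_lit 8499973876093040478279)), (.ofNat (nat_lit 8499973876093040478280)), (.ofNat (nat_lit 0))⟩,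
    ⟨nat_lit 0, nat_lit 14, nat_lit 13, (.ofNat (nat_lit 8)), (.ofNat (nat_lit 632380224)), (.ofNat (nat_lit 55868804004244303050971551004160)), (.ofNat (nat_lit 524288)), (.ofNat (nat_lit 13369302910647204018829393920)), (.ofNat (nat_lit 632380208)), (.ofNat (nat_lit 632380240)), (.ofNat (nat_lit 8499973876093040478280)), (.negSucc (nat_lit 8499973876093040478279)), (.negSucc (nat_lit 8499973876093040478279)), (.ofNat (nat_lit 8499973876093040478280)), (.ofNat (nat_lit 0))⟩,
    ⟨nat_lit 0, nat_lit 15, nat_lit 14, (.ofNat (nat_lit 8)), (.negSucc (nat_lit 2013595071)), (.ofNat (nat_lit 33378083111456752947914646433280)), (.ofNat (nat_lit 262144)), (.ofNat (nat_lit 11141085758872670015691161600)), (.negSucc (nat_lit 2013595087)), (.negSucc (nat_lit 2013595055)), (.negSucc (nat_lit 8499973876093040478279)), (.ofNat (nat_lit 8499973876093040478280)), (.negSucc (nat_lit 8499973876093040478279)), (.ofNat (nat_lit 8499973876093040478280)), (.ofNat (nat_lit 0))⟩,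
    ⟨nat_lit 2, nat_lit 15, nat_lit 16, (.ofNat (nat_lit 8)), (.negSucc (nat_lit 7033604799)), (.ofNat (nat_lit 76048034657189682781978019141120)), (.negSucc (nat_lit 1048575)), (.ofNat (nat_lit 22282171517745340031382323200)), (.negSucc (nat_lit 7033604815)), (.negSucc (nat_lit 7033604783)), (.negSucc (nat_lit 8499973876093040478279)), (.ofNat (nat_lit 8499973876093040478280)), (.negSucc (nat_lit 8499973876093040478279)), (.ofNat (nat_lit 8499973876093040478280)), (.ofNat (nat_lit 0))⟩,
    ⟨nat_lit 0, nat_lit 16, nat_lit 17, (.ofNat (nat_lit 8)), (.negSucc (nat_lit 4370852287)), (.ofNat (nat_lit 98681361447690803061235770580480)), (.ofNat (nat_lit 2011259456)), (.ofNat (nat_lit 17126847874169943473775347868160)), (.negSucc (nat_lit 4370852303)), (.negSucc (nat_lit 4370852271)), (.ofNat (nat_lit 8499973876093040478280)), (.negSucc (nat_lit 8499973876093040478279)), (.negSucc (nat_lit 8499973876093040478279)), (.ofNat (nat_lit 8499973876093040478280)), (.ofNat (nat_lit 0))⟩,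
    ⟨nat_lit 2, nat_lit 19, nat_lit 7, (.ofNat (nat_lit 8)), (.negSucc (nat_lit 5800444351)), (.ofNat (nat_lit 49847309358767754625603152140800)), (.negSucc (nat_lit 1310719)), (.ofNat (nat_lit 11141085758872670015691161600)), (.negSucc (nat_lit 5800444367)), (.negSucc (nat_lit 5800444335)), (.negSucc (nat_lit 8499973876093040478279)), (.ofNat (nat_lit 8499973876093040478280)), (.negSucc (nat_lit 8499973876093040478279)), (.ofNat (nat_lit 8499973876093040478280)), (.ofNat (nat_lit 0))⟩]
  es := [
    ⟨nat_lit 1, nat_lit 0, (.negSucc (nat_lit 7973208063)), (.negSucc (nat_lit 2929063679)), (.negSucc (nat_lit 7973208047)), (.negSucc (nat_lit 2929063695)), (.negSucc (nat_lit 8499973876093040478279)), (.ofNat (nat_lit 0)), (.ofNat (nat_lit 4456434303549068006276464640))⟩,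
    ⟨nat_lit 1, nat_lit 2, (.negSucc (nat_lit 7973208063)), (.negSucc (nat_lit 2400504703)), (.negSucc (nat_lit 7973208047)), (.negSucc (nat_lit 2400504719)), (.ofNat (nat_lit 8499973876093040478280)), (.ofNat (nat_lit 0)), (.ofNat (nat_lit 35651474428392544050211717120))⟩,
    ⟨nat_lit 2, nat_lit 3, (.negSucc (nat_lit 2400504703)), (.ofNat (nat_lit 822548224)), (.negSucc (nat_lit 2400504687)), (.ofNat (nat_lit 822548208)), (.negSucc (nat_lit 8499973876093040478279)), (.ofNat (nat_lit 0)), (.ofNat (nat_lit 34226957142518592539513036948480))⟩,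
    ⟨nat_lit 3, nat_lit 4, (.ofNat (nat_lit 822548224)), (.ofNat (nat_lit 4341455808)), (.ofNat (nat_lit 822548240)), (.ofNat (nat_lit 4341455792)), (.ofNat (nat_lit 8499973876093040478280)), (.ofNat (nat_lit 0)), (.ofNat (nat_lit 17825737214196272025105858560))⟩,
    ⟨nat_lit 5, nat_lit 4, (.ofNat (nat_lit 1076442432)), (.ofNat (nat_lit 4341455808)), (.ofNat (nat_lit 1076442448)), (.ofNat (nat_lit 4341455792)), (.negSucc (nat_lit 8499973876093040478279)), (.ofNat (nat_lit 0)), (.ofNat (nat_lit 34240326445429239743531866342400))⟩,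
    ⟨nat_lit 6, nat_lit 5, (.negSucc (nat_lit 7936312511)), (.ofNat (nat_lit 1076442432)), (.negSucc (nat_lit 7936312495)), (.ofNat (nat_lit 1076442416)), (.ofNat (nat_lit 8499973876093040478280)), (.ofNat (nat_lit 0)), (.ofNat (nat_lit 40107908731941612056488181760))⟩,
    ⟨nat_lit 6, nat_lit 12, (.negSucc (nat_lit 7936312511)), (.negSucc (nat_lit 6744279231)), (.negSucc (nat_lit 7936312495)), (.negSucc (nat_lit 6744279247)), (.negSucc (nat_lit 8499973876093040478279)), (.ofNat (nat_lit 0)), (.ofNat (nat_lit 8912868607098136012552929280))⟩,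
    ⟨nat_lit 19, nat_lit 7, (.negSucc (nat_lit 5800444351)), (.ofNat (nat_lit 1793742080)), (.negSucc (nat_lit 5800444335)), (.ofNat (nat_lit 1793742064)), (.ofNat (nat_lit 8499973876093040478280)), (.ofNat (nat_lit 0)), (.ofNat (nat_lit 22282171517745340031382323200))⟩,
    ⟨nat_lit 7, nat_lit 8, (.ofNat (nat_lit 1793742080)), (.ofNat (nat_lit 7607555712)), (.ofNat (nat_lit 1793742096)), (.ofNat (nat_lit 7607555696)), (.negSucc (nat_lit 8499973876093040478279)), (.ofNat (nat_lit 0)), (.ofNat (nat_lit 34231413576822141607519313413120))⟩,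
    ⟨nat_lit 8, nat_lit 9, (.ofNat (nat_lit 7607555712)), (.ofNat (nat_lit 9099016448)), (.ofNat (nat_lit 7607555728)), (.ofNat (nat_lit 9099016432)), (.ofNat (nat_lit 8499973876093040478280)), (.ofNat (nat_lit 0)), (.ofNat (nat_lit 0))⟩,
    ⟨nat_lit 10, nat_lit 9, (.ofNat (nat_lit 6129582656)), (.ofNat (nat_lit 9099016448)), (.ofNat (nat_lit 6129582672)), (.ofNat (nat_lit 9099016432)), (.negSucc (nat_lit 8499973876093040478279)), (.ofNat (nat_lit 0)), (.ofNat (nat_lit 34235870011125690675525589877760))⟩,
    ⟨nat_lit 12, nat_lit 11, (.negSucc (nat_lit 6744279231)), (.negSucc (nat_lit 3262739903)), (.negSucc (nat_lit 6744279215)), (.negSucc (nat_lit 3262739919)), (.ofNat (nat_lit 8499973876093040478280)), (.ofNat (nat_lit 0)), (.ofNat (nat_lit 26738605821294408037658787840))⟩,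
    ⟨nat_lit 13, nat_lit 14, (.negSucc (nat_lit 1332700095)), (.ofNat (nat_lit 2237918848)), (.negSucc (nat_lit 1332700079)), (.ofNat (nat_lit 2237918832)), (.ofNat (nat_lit 8499973876093040478280)), (.ofNat (nat_lit 0)), (.ofNat (nat_lit 4456434303549068006276464640))⟩,
    ⟨nat_lit 15, nat_lit 14, (.ofNat (nat_lit 632380224)), (.ofNat (nat_lit 2237918848)), (.ofNat (nat_lit 632380240)), (.ofNat (nat_lit 2237918832)), (.negSucc (nat_lit 8499973876093040478279)), (.ofNat (nat_lit 0)), (.ofNat (nat_lit 17825737214196272025105858560))⟩,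
    ⟨nat_lit 16, nat_lit 15, (.negSucc (nat_lit 2013595071)), (.ofNat (nat_lit 632380224)), (.negSucc (nat_lit 2013595055)), (.ofNat (nat_lit 632380208)), (.ofNat (nat_lit 8499973876093040478280)), (.ofNat (nat_lit 0)), (.ofNat (nat_lit 8912868607098136012552929280))⟩,
    ⟨nat_lit 17, nat_lit 16, (.negSucc (nat_lit 7033604799)), (.negSucc (nat_lit 2013595071)), (.negSucc (nat_lit 7033604783)), (.negSucc (nat_lit 2013595087)), (.negSucc (nat_lit 8499973876093040478279)), (.ofNat (nat_lit 0)), (.ofNat (nat_lit 13369302910647204018829393920))⟩,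
    ⟨nat_lit 17, nat_lit 18, (.negSucc (nat_lit 7033604799)), (.negSucc (nat_lit 4370852287)), (.negSucc (nat_lit 7033604783)), (.negSucc (nat_lit 4370852303)), (.ofNat (nat_lit 8499973876093040478280)), (.ofNat (nat_lit 0)), (.ofNat (nat_lit 31195040124843476043935252480))⟩,
    ⟨nat_lit 18, nat_lit 11, (.negSucc (nat_lit 4370852287)), (.negSucc (nat_lit 3262739903)), (.negSucc (nat_lit 4370852271)), (.negSucc (nat_lit 3262739919)), (.negSucc (nat_lit 8499973876093040478279)), (.ofNat (nat_lit 0)), (.ofNat (nat_lit 34222500708215043471506760483840))⟩,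
    ⟨nat_lit 0, nat_lit 10, (.negSucc (nat_lit 2929063679)), (.ofNat (nat_lit 6129582656)), (.negSucc (nat_lit 2929063663)), (.ofNat (nat_lit 6129582640)), (.ofNat (nat_lit 8499973876093040478280)), (.ofNat (nat_lit 0)), (.ofNat (nat_lit 13369302910647204018829393920))⟩,
    ⟨nat_lit 19, nat_lit 13, (.negSucc (nat_lit 5800444351)), (.negSucc (nat_lit 1332700095)), (.negSucc (nat_lit 5800444335)), (.negSucc (nat_lit 1332700111)), (.negSucc (nat_lit 8499973876093040478279)), (.ofNat (nat_lit 0)), (.ofNat (nat_lit 0))⟩]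

theorem ok113 : stOK 19 19 S113 = true := by decide +kernel

def S114 : SD where
  vs := [
    ⟨nat_lit 0, nat_lit 0, nat_lit 18, (.ofNat (nat_lit 8)), (.negSucc (nat_lit 2929587967)), (.ofNat (nat_lit 25908574260321927463215353123840)), (.negSucc (nat_lit 524287)), (.ofNat (nat_lit 8912868607098136012552929280)), (.negSucc (nat_lit 2929587983)), (.negSucc (nat_lit 2929587951)), (.negSucc (nat_lit 8499973876093040478279)), (.ofNat (nat_lit 8499973876093040478280)), (.negSucc (nat_lit 8499973876093040478279)), (.ofNat (nat_lit 8499973876093040478280)), (.ofNat (nat_lit 0))⟩,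
    ⟨nat_lit 2, nat_lit 0, nat_lit 1, (.ofNat (nat_lit 8)), (.negSucc (nat_lit 7975043071)), (.ofNat (nat_lit 68794810837322222123231780264960)), (.negSucc (nat_lit 1835007)), (.ofNat (nat_lit 20053954365970806028244090880)), (.negSucc (nat_lit 7975043087)), (.negSucc (nat_lit 7975043055)), (.negSucc (nat_lit 8499973876093040478279)), (.ofNat (nat_lit 8499973876093040478280)), (.negSucc (nat_lit 8499973876093040478279)), (.ofNat (nat_lit 8499973876093040478280)), (.ofNat (nat_lit 0))⟩,
    ⟨nat_lit 0, nat_lit 1, nat_lit 2, (.ofNat (nat_lit 8)), (.ofNat (nat_lit 244684096)), (.ofNat (nat_lit 138662277033934452638273610176000)), (.ofNat (nat_lit 2645188800)), (.ofNat (nat_lit 22519687171762290975143110981120)), (.ofNat (nat_lit 244684080)), (.ofNat (nat_lit 244684112)), (.ofNat (nat_lit 8499973876093040478280)), (.negSucc (nat_lit 8499973876093040478279)), (.negSucc (nat_lit 8499973876093040478279)), (.ofNat (nat_lit 8499973876093040478280)), (.ofNat (nat_lit 0))⟩,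
    ⟨nat_lit 0, nat_lit 2, nat_lit 3, (.ofNat (nat_lit 8)), (.ofNat (nat_lit 3468785600)), (.ofNat (nat_lit 111257498476062171188318182842880)), (.ofNat (nat_lit 2646237376)), (.ofNat (nat_lit 22510774303155192839130558051840)), (.ofNat (nat_lit 3468785584)), (.ofNat (nat_lit 3468785616)), (.negSucc (nat_lit 8499973876093040478279)), (.ofNat (nat_lit 8499973876093040478280)), (.negSucc (nat_lit 8499973876093040478279)), (.ofNat (nat_lit 8499973876093040478280)), (.ofNat (nat_lit 0))⟩,
    ⟨nat_lit 1, nat_lit 3, nat_lit 4, (.ofNat (nat_lit 8)), (.ofNat (nat_lit 6988479616)), (.ofNat (nat_lit 141174805663903171218966076815360)), (.ofNat (nat_lit 2647023808)), (.ofNat (nat_lit 22517458954610516441139972748800)), (.ofNat (nat_lit 6988479600)), (.ofNat (nat_lit 6988479632)), (.ofNat (nat_lit 8499973876093040478280)), (.negSucc (nat_lit 8499973876093040478279)), (.negSucc (nat_lit 8499973876093040478279)), (.ofNat (nat_lit 8499973876093040478280)), (.ofNat (nat_lit 0))⟩,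
    ⟨nat_lit 0, nat_lit 5, nat_lit 4, (.ofNat (nat_lit 8)), (.ofNat (nat_lit 3722155520)), (.ofNat (nat_lit 168938475150756387671075405450240)), (.ofNat (nat_lit 2645713088)), (.ofNat (nat_lit 22528600040369389111155663910400)), (.ofNat (nat_lit 3722155504)), (.ofNat (nat_lit 3722155536)), (.ofNat (nat_lit 8499973876093040478280)), (.negSucc (nat_lit 8499973876093040478279)), (.negSucc (nat_lit 8499973876093040478279)), (.ofNat (nat_lit 8499973876093040478280)), (.ofNat (nat_lit 0))⟩,
    ⟨nat_lit 2, nat_lit 6, nat_lit 5, (.ofNat (nat_lit 8)), (.negSucc (nat_lit 7938147519)), (.ofNat (nat_lit 69826203923428124459344067479040)), (.negSucc (nat_lit 1835007)), (.ofNat (nat_lit 24510388669519874034520555520)), (.negSucc (nat_lit 7938147535)), (.negSucc (nat_lit 7938147503)), (.negSucc (nat_lit 8499973876093040478279)), (.ofNat (nat_lit 8499973876093040478280)), (.negSucc (nat_lit 8499973876093040478279)), (.ofNat (nat_lit 8499973876093040478280)), (.ofNat (nat_lit 0))⟩,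
    ⟨nat_lit 0, nat_lit 7, nat_lit 8, (.ofNat (nat_lit 8)), (.ofNat (nat_lit 4439979456)), (.ofNat (nat_lit 136912926378406713702520753354240)), (.ofNat (nat_lit 2646237376)), (.ofNat (nat_lit 22515230737458741907136834516480)), (.ofNat (nat_lit 4439979440)), (.ofNat (nat_lit 4439979472)), (.ofNat (nat_lit 8499973876093040478280)), (.negSucc (nat_lit 8499973876093040478279)), (.negSucc (nat_lit 8499973876093040478279)), (.ofNat (nat_lit 8499973876093040478280)), (.ofNat (nat_lit 0))⟩,
    ⟨nat_lit 0, nat_lit 8, nat_lit 9, (.ofNat (nat_lit 8)), (.ofNat (nat_lit 10255103808)), (.ofNat (nat_lit 87484521300174243399552998279680)), (.ofNat (nat_lit 2647548096)), (.ofNat (nat_lit 22504089651699869237121143354880)), (.ofNat (nat_lit 10255103792)), (.ofNat (nat_lit 10255103824)), (.negSucc (nat_lit 8499973876093040478279)), (.ofNat (nat_lit 8499973876093040478280)), (.negSucc (nat_lit 8499973876093040478279)), (.ofNat (nat_lit 8499973876093040478280)), (.ofNat (nat_lit 0))⟩,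
    ⟨nat_lit 1, nat_lit 9, nat_lit 10, (.ofNat (nat_lit 8)), (.ofNat (nat_lit 11746826688)), (.ofNat (nat_lit 100164126810544516889769417326080)), (.ofNat (nat_lit 2647810240)), (.ofNat (nat_lit 22506317868851643771124281587200)), (.ofNat (nat_lit 11746826672)), (.ofNat (nat_lit 11746826704)), (.ofNat (nat_lit 8499973876093040478280)), (.negSucc (nat_lit 8499973876093040478279)), (.negSucc (nat_lit 8499973876093040478279)), (.ofNat (nat_lit 8499973876093040478280)), (.ofNat (nat_lit 0))⟩,
    ⟨nat_lit 0, nat_lit 18, nat_lit 10, (.ofNat (nat_lit 8)), (.ofNat (nat_lit 8776606464)), (.ofNat (nat_lit 125410921120787735824007306060800)), (.ofNat (nat_lit 2647023808)), (.ofNat (nat_lit 22513002520306967373133696284160)), (.ofNat (nat_lit 8776606448)), (.ofNat (nat_lit 8776606480)), (.ofNat (nat_lit 8499973876093040478280)), (.negSucc (nat_lit 8499973876093040478279)), (.negSucc (nat_lit 8499973876093040478279)), (.ofNat (nat_lit 8499973876093040478280)), (.ofNat (nat_lit 0))⟩,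
    ⟨nat_lit 1, nat_lit 11, nat_lit 17, (.ofNat (nat_lit 8)), (.negSucc (nat_lit 617288959)), (.ofNat (nat_lit 111775437652222590744174115845120)), (.ofNat (nat_lit 2645450944)), (.ofNat (nat_lit 22513002520306967373133696284160)), (.negSucc (nat_lit 617288975)), (.negSucc (nat_lit 617288943)), (.ofNat (nat_lit 8499973876093040478280)), (.negSucc (nat_lit 8499973876093040478279)), (.negSucc (nat_lit 8499973876093040478279)), (.ofNat (nat_lit 8499973876093040478280)), (.ofNat (nat_lit 0))⟩,
    ⟨nat_lit 0, nat_lit 6, nat_lit 11, (.ofNat (nat_lit 8)), (.negSucc (nat_lit 6745327807)), (.ofNat (nat_lit 59687267532539300230837775623680)), (.negSucc (nat_lit 1048575)), (.ofNat (nat_lit 17825737214196272025105858560)), (.negSucc (nat_lit 6745327823)), (.negSucc (nat_lit 6745327791)), (.negSucc (nat_lit 8499973876093040478279)), (.ofNat (nat_lit 8499973876093040478280)), (.negSucc (nat_lit 8499973876093040478279)), (.ofNat (nat_lit 8499973876093040478280)), (.ofNat (nat_lit 0))⟩,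
    ⟨nat_lit 0, nat_lit 19, nat_lit 12, (.ofNat (nat_lit 8)), (.negSucc (nat_lit 1332962239)), (.ofNat (nat_lit 11873828114854791841195327613440)), (.negSucc (nat_lit 262143)), (.ofNat (nat_lit 2228217151774534003138232320)), (.negSucc (nat_lit 1332962255)), (.negSucc (nat_lit 1332962223)), (.negSucc (nat_lit 8499973876093040478279)), (.ofNat (nat_lit 8499973876093040478280)), (.negSucc (nat_lit 8499973876093040478279)), (.ofNat (nat_lit 8499973876093040478280)), (.ofNat (nat_lit 0))⟩,
    ⟨nat_lit 1, nat_lit 12, nat_lit 13, (.ofNat (nat_lit 8)), (.ofNat (nat_lit 2238443136)), (.ofNat (nat_lit 42230680511793034481510130846720)), (.ofNat (nat_lit 524288)), (.ofNat (nat_lit 8912868607098136012552929280)), (.ofNat (nat_lit 2238443120)), (.ofNat (nat_lit 2238443152)), (.ofNat (nat_lit 8499973876093040478280)), (.negSucc (nat_lit 8499973876093040478279)), (.negSucc (nat_lit 8499973876093040478279)), (.ofNat (nat_lit 8499973876093040478280)), (.ofNat (nat_lit 0))⟩,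
    ⟨nat_lit 0, nat_lit 14, nat_lit 13, (.ofNat (nat_lit 8)), (.ofNat (nat_lit 632642368)), (.ofNat (nat_lit 55879945090003175720987242165760)), (.ofNat (nat_lit 262144)), (.ofNat (nat_lit 11141085758872670015691161600)), (.ofNat (nat_lit 632642352)), (.ofNat (nat_lit 632642384)), (.ofNat (nat_lit 8499973876093040478280)), (.negSucc (nat_lit 8499973876093040478279)), (.negSucc (nat_lit 8499973876093040478279)), (.ofNat (nat_lit 8499973876093040478280)), (.ofNat (nat_lit 0))⟩,
    ⟨nat_lit 0, nat_lit 15, nat_lit 14, (.ofNat (nat_lit 8)), (.ofNat (nat_lit 632642304)), (.ofNat (nat_lit 55879944546004847651032651555840)), (.ofNat (nat_lit 2646237376)), (.ofNat (nat_lit 22501861434548094703118005122560)), (.ofNat (nat_lit 632642288)), (.ofNat (nat_lit 632642320)), (.negSucc (nat_lit 8499973876093040478279)), (.ofNat (nat_lit 8499973876093040478280)), (.negSucc (nat_lit 8499973876093040478279)), (.ofNat (nat_lit 8499973876093040478280)), (.ofNat (nat_lit 0))⟩,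
    ⟨nat_lit 2, nat_lit 15, nat_lit 16, (.ofNat (nat_lit 8)), (.negSucc (nat_lit 4388678143)), (.ofNat (nat_lit 98561037177496650155111715425280)), (.ofNat (nat_lit 2644926656)), (.ofNat (nat_lit 22513002520306967373133696284160)), (.negSucc (nat_lit 4388678159)), (.negSucc (nat_lit 4388678127)), (.negSucc (nat_lit 8499973876093040478279)), (.ofNat (nat_lit 8499973876093040478280)), (.negSucc (nat_lit 8499973876093040478279)), (.ofNat (nat_lit 8499973876093040478280)), (.ofNat (nat_lit 0))⟩,
    ⟨nat_lit 0, nat_lit 16, nat_lit 17, (.ofNat (nat_lit 8)), (.negSucc (nat_lit 1725663487)), (.ofNat (nat_lit 121196592185149544968372605096960)), (.ofNat (nat_lit 2645188800)), (.ofNat (nat_lit 22515230737458741907136834516480)), (.negSucc (nat_lit 1725663503)), (.negSucc (nat_lit 1725663471)), (.ofNat (nat_lit 8499973876093040478280)), (.negSucc (nat_lit 8499973876093040478279)), (.negSucc (nat_lit 8499973876093040478279)), (.ofNat (nat_lit 8499973876093040478280)), (.ofNat (nat_lit 0))⟩,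
    ⟨nat_lit 2, nat_lit 19, nat_lit 7, (.ofNat (nat_lit 8)), (.negSucc (nat_lit 5801755071)), (.ofNat (nat_lit 49858450444526627295618843302400)), (.negSucc (nat_lit 1310719)), (.ofNat (nat_lit 11141085758872670015691161600)), (.negSucc (nat_lit 5801755087)), (.negSucc (nat_lit 5801755055)), (.negSucc (nat_lit 8499973876093040478279)), (.ofNat (nat_lit 8499973876093040478280)), (.negSucc (nat_lit 8499973876093040478279)), (.ofNat (nat_lit 8499973876093040478280)), (.ofNat (nat_lit 0))⟩]
  es := [
    ⟨nat_lit 1, nat_lit 0, (.negSucc (nat_lit 7975043071)), (.negSucc (nat_lit 2929587967)), (.negSucc (nat_lit 7975043055)), (.negSucc (nat_lit 2929587983)), (.negSucc (nat_lit 8499973876093040478279)), (.ofNat (nat_lit 0)), (.ofNat (nat_lit 4456434303549068006276464640))⟩,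
    ⟨nat_lit 1, nat_lit 2, (.negSucc (nat_lit 7975043071)), (.ofNat (nat_lit 244684096)), (.negSucc (nat_lit 7975043055)), (.ofNat (nat_lit 244684080)), (.ofNat (nat_lit 8499973876093040478280)), (.ofNat (nat_lit 0)), (.ofNat (nat_lit 35651474428392544050211717120))⟩,
    ⟨nat_lit 2, nat_lit 3, (.ofNat (nat_lit 244684096)), (.ofNat (nat_lit 3468785600)), (.ofNat (nat_lit 244684112)), (.ofNat (nat_lit 3468785584)), (.negSucc (nat_lit 8499973876093040478279)), (.ofNat (nat_lit 0)), (.ofNat (nat_lit 45003722869096189406236010245120))⟩,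
    ⟨nat_lit 3, nat_lit 4, (.ofNat (nat_lit 3468785600)), (.ofNat (nat_lit 6988479616)), (.ofNat (nat_lit 3468785616)), (.ofNat (nat_lit 6988479600)), (.ofNat (nat_lit 8499973876093040478280)), (.ofNat (nat_lit 0)), (.ofNat (nat_lit 17825737214196272025105858560))⟩,
    ⟨nat_lit 5, nat_lit 4, (.ofNat (nat_lit 3722155520)), (.ofNat (nat_lit 6988479616)), (.ofNat (nat_lit 3722155536)), (.ofNat (nat_lit 6988479600)), (.negSucc (nat_lit 8499973876093040478279)), (.ofNat (nat_lit 0)), (.ofNat (nat_lit 45017092172006836610254839639040))⟩,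
    ⟨nat_lit 6, nat_lit 5, (.negSucc (nat_lit 7938147519)), (.ofNat (nat_lit 3722155520)), (.negSucc (nat_lit 7938147503)), (.ofNat (nat_lit 3722155504)), (.ofNat (nat_lit 8499973876093040478280)), (.ofNat (nat_lit 0)), (.ofNat (nat_lit 40107908731941612056488181760))⟩,
    ⟨nat_lit 6, nat_lit 12, (.negSucc (nat_lit 7938147519)), (.negSucc (nat_lit 6745327807)), (.negSucc (nat_lit 7938147503)), (.negSucc (nat_lit 6745327823)), (.negSucc (nat_lit 8499973876093040478279)), (.ofNat (nat_lit 0)), (.ofNat (nat_lit 8912868607098136012552929280))⟩,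
    ⟨nat_lit 19, nat_lit 7, (.negSucc (nat_lit 5801755071)), (.ofNat (nat_lit 4439979456)), (.negSucc (nat_lit 5801755055)), (.ofNat (nat_lit 4439979440)), (.ofNat (nat_lit 8499973876093040478280)), (.ofNat (nat_lit 0)), (.ofNat (nat_lit 22282171517745340031382323200))⟩,
    ⟨nat_lit 7, nat_lit 8, (.ofNat (nat_lit 4439979456)), (.ofNat (nat_lit 10255103808)), (.ofNat (nat_lit 4439979472)), (.ofNat (nat_lit 10255103792)), (.negSucc (nat_lit 8499973876093040478279)), (.ofNat (nat_lit 0)), (.ofNat (nat_lit 45008179303399738474242286709760))⟩,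
    ⟨nat_lit 8, nat_lit 9, (.ofNat (nat_lit 10255103808)), (.ofNat (nat_lit 11746826688)), (.ofNat (nat_lit 10255103824)), (.ofNat (nat_lit 11746826672)), (.ofNat (nat_lit 8499973876093040478280)), (.ofNat (nat_lit 0)), (.ofNat (nat_lit 0))⟩,
    ⟨nat_lit 10, nat_lit 9, (.ofNat (nat_lit 8776606464)), (.ofNat (nat_lit 11746826688)), (.ofNat (nat_lit 8776606480)), (.ofNat (nat_lit 11746826672)), (.negSucc (nat_lit 8499973876093040478279)), (.ofNat (nat_lit 0)), (.ofNat (nat_lit 45012635737703287542248563174400))⟩,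
    ⟨nat_lit 12, nat_lit 11, (.negSucc (nat_lit 6745327807)), (.negSucc (nat_lit 617288959)), (.negSucc (nat_lit 6745327791)), (.negSucc (nat_lit 617288975)), (.ofNat (nat_lit 8499973876093040478280)), (.ofNat (nat_lit 0)), (.ofNat (nat_lit 26738605821294408037658787840))⟩,
    ⟨nat_lit 13, nat_lit 14, (.negSucc (nat_lit 1332962239)), (.ofNat (nat_lit 2238443136)), (.negSucc (nat_lit 1332962223)), (.ofNat (nat_lit 2238443120)), (.ofNat (nat_lit 8499973876093040478280)), (.ofNat (nat_lit 0)), (.ofNat (nat_lit 4456434303549068006276464640))⟩,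
    ⟨nat_lit 15, nat_lit 14, (.ofNat (nat_lit 632642368)), (.ofNat (nat_lit 2238443136)), (.ofNat (nat_lit 632642384)), (.ofNat (nat_lit 2238443120)), (.negSucc (nat_lit 8499973876093040478279)), (.ofNat (nat_lit 0)), (.ofNat (nat_lit 13369302910647204018829393920))⟩,
    ⟨nat_lit 16, nat_lit 15, (.ofNat (nat_lit 632642304)), (.ofNat (nat_lit 632642368)), (.ofNat (nat_lit 632642320)), (.ofNat (nat_lit 632642352)), (.ofNat (nat_lit 8499973876093040478280)), (.ofNat (nat_lit 0)), (.ofNat (nat_lit 8912868607098136012552929280))⟩,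
    ⟨nat_lit 17, nat_lit 16, (.negSucc (nat_lit 4388678143)), (.ofNat (nat_lit 632642304)), (.negSucc (nat_lit 4388678127)), (.ofNat (nat_lit 632642288)), (.negSucc (nat_lit 8499973876093040478279)), (.ofNat (nat_lit 0)), (.ofNat (nat_lit 44994810000489091270223457315840))⟩,
    ⟨nat_lit 17, nat_lit 18, (.negSucc (nat_lit 4388678143)), (.negSucc (nat_lit 1725663487)), (.negSucc (nat_lit 4388678127)), (.negSucc (nat_lit 1725663503)), (.ofNat (nat_lit 8499973876093040478280)), (.ofNat (nat_lit 0)), (.ofNat (nat_lit 31195040124843476043935252480))⟩,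
    ⟨nat_lit 18, nat_lit 11, (.negSucc (nat_lit 1725663487)), (.negSucc (nat_lit 617288959)), (.negSucc (nat_lit 1725663471)), (.negSucc (nat_lit 617288975)), (.negSucc (nat_lit 8499973876093040478279)), (.ofNat (nat_lit 0)), (.ofNat (nat_lit 44999266434792640338229733780480))⟩,
    ⟨nat_lit 0, nat_lit 10, (.negSucc (nat_lit 2929587967)), (.ofNat (nat_lit 8776606464)), (.negSucc (nat_lit 2929587951)), (.ofNat (nat_lit 8776606448)), (.ofNat (nat_lit 8499973876093040478280)), (.ofNat (nat_lit 0)), (.ofNat (nat_lit 13369302910647204018829393920))⟩,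
    ⟨nat_lit 19, nat_lit 13, (.negSucc (nat_lit 5801755071)), (.negSucc (nat_lit 1332962239)), (.negSucc (nat_lit 5801755055)), (.negSucc (nat_lit 1332962255)), (.negSucc (nat_lit 8499973876093040478279)), (.ofNat (nat_lit 0)), (.ofNat (nat_lit 0))⟩]

theorem ok114 : stOK 19 19 S114 = true := by decide +kernel

def S115 : SD where
  vs := [
    ⟨nat_lit 0, nat_lit 0, nat_lit 18, (.ofNat (nat_lit 8)), (.negSucc (nat_lit 2929587967)), (.ofNat (nat_lit 26313396676569386572721970253440)), (.ofNat (nat_lit 0)), (.ofNat (nat_lit 404822416247459109506617129600)), (.negSucc (nat_lit 2929587983)), (.negSucc (nat_lit 2929587951)), (.negSucc (nat_lit 8632786277423437317104)), (.ofNat (nat_lit 8632786277423437317105)), (.negSucc (nat_lit 8632786277423437317104)), (.ofNat (nat_lit 8632786277423437317105)), (.ofNat (nat_lit 796874407982381032950))⟩,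
    ⟨nat_lit 2, nat_lit 0, nat_lit 1, (.ofNat (nat_lit 8)), (.negSucc (nat_lit 7975043071)), (.ofNat (nat_lit 69869732261736628353533459007360)), (.ofNat (nat_lit 0)), (.ofNat (nat_lit 1074921424414406230301678742400)), (.negSucc (nat_lit 7975043087)), (.negSucc (nat_lit 7975043055)), (.negSucc (nat_lit 8632786277423437317104)), (.ofNat (nat_lit 8632786277423437317105)), (.negSucc (nat_lit 8632786277423437317104)), (.ofNat (nat_lit 8632786277423437317105)), (.ofNat (nat_lit 796874407982381032950))⟩,
    ⟨nat_lit 0, nat_lit 1, nat_lit 2, (.ofNat (nat_lit 8)), (.ofNat (nat_lit 244684096)), (.ofNat (nat_lit 140828880161811641108886458616000)), (.ofNat (nat_lit 0)), (.ofNat (nat_lit 2166603127877188470612848440000)), (.ofNat (nat_lit 244684080)), (.ofNat (nat_lit 244684112)), (.ofNat (nat_lit 8632786277423437317105)), (.negSucc (nat_lit 8632786277423437317104)), (.negSucc (nat_lit 8632786277423437317104)), (.ofNat (nat_lit 8632786277423437317105)), (.ofNat (nat_lit 796874407982381032950))⟩,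
    ⟨nat_lit 0, nat_lit 2, nat_lit 3, (.ofNat (nat_lit 8)), (.ofNat (nat_lit 3468785600)), (.ofNat (nat_lit 112995900941060175609958503190080)), (.ofNat (nat_lit 0)), (.ofNat (nat_lit 1738402464998004421640320347200)), (.ofNat (nat_lit 3468785584)), (.ofNat (nat_lit 3468785616)), (.negSucc (nat_lit 8632786277423437317104)), (.ofNat (nat_lit 8632786277423437317105)), (.negSucc (nat_lit 8632786277423437317104)), (.ofNat (nat_lit 8632786277423437317105)), (.ofNat (nat_lit 796874407982381032950))⟩,
    ⟨nat_lit 1, nat_lit 3, nat_lit 4, (.ofNat (nat_lit 8)), (.ofNat (nat_lit 6988479616)), (.ofNat (nat_lit 143380667143114363833124066133760)), (.ofNat (nat_lit 0)), (.ofNat (nat_lit 2205861479211192614157989318400)), (.ofNat (nat_lit 6988479600)), (.ofNat (nat_lit 6988479632)), (.ofNat (nat_lit 8632786277423437317105)), (.negSucc (nat_lit 8632786277423437317104)), (.negSucc (nat_lit 8632786277423437317104)), (.ofNat (nat_lit 8632786277423437317105)), (.ofNat (nat_lit 796874407982381032950))⟩,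
    ⟨nat_lit 0, nat_lit 5, nat_lit 4, (.ofNat (nat_lit 8)), (.ofNat (nat_lit 3722155520)), (.ofNat (nat_lit 171578144976680677937129720595840)), (.ofNat (nat_lit 0)), (.ofNat (nat_lit 2639669825924290266054315145600)), (.ofNat (nat_lit 3722155504)), (.ofNat (nat_lit 3722155536)), (.ofNat (nat_lit 8632786277423437317105)), (.negSucc (nat_lit 8632786277423437317104)), (.negSucc (nat_lit 8632786277423437317104)), (.ofNat (nat_lit 8632786277423437317105)), (.ofNat (nat_lit 796874407982381032950))⟩,
    ⟨nat_lit 2, nat_lit 6, nat_lit 5, (.ofNat (nat_lit 8)), (.negSucc (nat_lit 7938147519)), (.ofNat (nat_lit 70917240902369888421240845096640)), (.ofNat (nat_lit 0)), (.ofNat (nat_lit 1091036978941763961896777617600)), (.negSucc (nat_lit 7938147535)), (.negSucc (nat_lit 7938147503)), (.negSucc (nat_lit 8632786277423437317104)), (.ofNat (nat_lit 8632786277423437317105)), (.negSucc (nat_lit 8632786277423437317104)), (.ofNat (nat_lit 8632786277423437317105)), (.ofNat (nat_lit 796874407982381032950))⟩,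
    ⟨nat_lit 0, nat_lit 7, nat_lit 8, (.ofNat (nat_lit 8)), (.ofNat (nat_lit 4439979456)), (.ofNat (nat_lit 139052195838590756933727455259840)), (.ofNat (nat_lit 0)), (.ofNat (nat_lit 2139269460184043231206701905600)), (.ofNat (nat_lit 4439979440)), (.ofNat (nat_lit 4439979472)), (.ofNat (nat_lit 8632786277423437317105)), (.negSucc (nat_lit 8632786277423437317104)), (.negSucc (nat_lit 8632786277423437317104)), (.ofNat (nat_lit 8632786277423437317105)), (.ofNat (nat_lit 796874407982381032950))⟩,
    ⟨nat_lit 0, nat_lit 8, nat_lit 9, (.ofNat (nat_lit 8)), (.ofNat (nat_lit 10255103808)), (.ofNat (nat_lit 88851470131134298775484623618880)), (.ofNat (nat_lit 0)), (.ofNat (nat_lit 1366948830960055375931625339200)), (.ofNat (nat_lit 10255103792)), (.ofNat (nat_lit 10255103824)), (.negSucc (nat_lit 8632786277423437317104)), (.ofNat (nat_lit 8632786277423437317105)), (.negSucc (nat_lit 8632786277423437317104)), (.ofNat (nat_lit 8632786277423437317105)), (.ofNat (nat_lit 796874407982381032950))⟩,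
    ⟨nat_lit 1, nat_lit 9, nat_lit 10, (.ofNat (nat_lit 8)), (.ofNat (nat_lit 11746826688)), (.ofNat (nat_lit 101729194939316867669655967481280)), (.ofNat (nat_lit 0)), (.ofNat (nat_lit 1565068128772350779886550155200)), (.ofNat (nat_lit 11746826672)), (.ofNat (nat_lit 11746826704)), (.ofNat (nat_lit 8632786277423437317105)), (.negSucc (nat_lit 8632786277423437317104)), (.negSucc (nat_lit 8632786277423437317104)), (.ofNat (nat_lit 8632786277423437317105)), (.ofNat (nat_lit 796874407982381032950))⟩,
    ⟨nat_lit 0, nat_lit 18, nat_lit 10, (.ofNat (nat_lit 8)), (.ofNat (nat_lit 8776606464)), (.ofNat (nat_lit 127370471329989635800517539612800)), (.ofNat (nat_lit 0)), (.ofNat (nat_lit 1959550209201899976510233552000)), (.ofNat (nat_lit 8776606448)), (.ofNat (nat_lit 8776606480)), (.ofNat (nat_lit 8632786277423437317105)), (.negSucc (nat_lit 8632786277423437317104)), (.negSucc (nat_lit 8632786277423437317104)), (.ofNat (nat_lit 8632786277423437317105)), (.ofNat (nat_lit 796874407982381032950))⟩,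
    ⟨nat_lit 1, nat_lit 11, nat_lit 17, (.ofNat (nat_lit 8)), (.negSucc (nat_lit 617288959)), (.ofNat (nat_lit 113521932935708241043513941217920)), (.ofNat (nat_lit 0)), (.ofNat (nat_lit 1746495283485650299339825372800)), (.negSucc (nat_lit 617288975)), (.negSucc (nat_lit 617288943)), (.ofNat (nat_lit 8632786277423437317105)), (.negSucc (nat_lit 8632786277423437317104)), (.negSucc (nat_lit 8632786277423437317104)), (.ofNat (nat_lit 8632786277423437317105)), (.ofNat (nat_lit 796874407982381032950))⟩,
    ⟨nat_lit 0, nat_lit 6, nat_lit 11, (.ofNat (nat_lit 8)), (.negSucc (nat_lit 6745327807)), (.ofNat (nat_lit 60619883261176111818601606322880)), (.ofNat (nat_lit 0)), (.ofNat (nat_lit 932615728636811587763830699200)), (.negSucc (nat_lit 6745327823)), (.negSucc (nat_lit 6745327791)), (.negSucc (nat_lit 8632786277423437317104)), (.ofNat (nat_lit 8632786277423437317105)), (.negSucc (nat_lit 8632786277423437317104)), (.ofNat (nat_lit 8632786277423437317105)), (.ofNat (nat_lit 796874407982381032950))⟩,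
    ⟨nat_lit 0, nat_lit 19, nat_lit 12, (.ofNat (nat_lit 8)), (.negSucc (nat_lit 1332962239)), (.ofNat (nat_lit 12059357111520731975209356767040)), (.ofNat (nat_lit 0)), (.ofNat (nat_lit 185528996665940134014029153600)), (.negSucc (nat_lit 1332962255)), (.negSucc (nat_lit 1332962223)), (.negSucc (nat_lit 8632786277423437317104)), (.ofNat (nat_lit 8632788752105719482595)), (.negSucc (nat_lit 8632786277423437317104)), (.ofNat (nat_lit 8632788752105719482595)), (.ofNat (nat_lit 796879357346945363930))⟩,
    ⟨nat_lit 1, nat_lit 12, nat_lit 13, (.ofNat (nat_lit 8)), (.ofNat (nat_lit 2238443136)), (.ofNat (nat_lit 42890545270663429855697078197760)), (.ofNat (nat_lit 0)), (.ofNat (nat_lit 659864758870395374186947351040)), (.ofNat (nat_lit 2238443120)), (.ofNat (nat_lit 2238443152)), (.ofNat (nat_lit 8632788752105719482595)), (.negSucc (nat_lit 8632784777060032178398)), (.negSucc (nat_lit 8632784777060032178398)), (.ofNat (nat_lit 8632788752105719482595)), (.ofNat (nat_lit 796881305984699417498))⟩,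
    ⟨nat_lit 0, nat_lit 14, nat_lit 13, (.ofNat (nat_lit 8)), (.ofNat (nat_lit 632642368)), (.ofNat (nat_lit 56753077695645138309874905408192)), (.ofNat (nat_lit 0)), (.ofNat (nat_lit 873132605641962588887663242432)), (.ofNat (nat_lit 632642352)), (.ofNat (nat_lit 632642384)), (.negSucc (nat_lit 8632784777060032178398)), (.negSucc (nat_lit 8632784777060032178398)), (.negSucc (nat_lit 8632784777060032178398)), (.negSucc (nat_lit 8632784777060032178398)), (.ofNat (nat_lit 68265412810678307226478))⟩,
    ⟨nat_lit 0, nat_lit 15, nat_lit 14, (.ofNat (nat_lit 8)), (.ofNat (nat_lit 632642304)), (.ofNat (nat_lit 56753078248143364041716964825728)), (.ofNat (nat_lit 0)), (.ofNat (nat_lit 873133702138516390684313269888)), (.ofNat (nat_lit 632642288)), (.ofNat (nat_lit 632642320)), (.negSucc (nat_lit 8632784777060032178398)), (.negSucc (nat_lit 8632784777060032178398)), (.negSucc (nat_lit 8632784777060032178398)), (.negSucc (nat_lit 8632784777060032178398)), (.ofNat (nat_lit 34265517306306145313358))⟩,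
    ⟨nat_lit 2, nat_lit 15, nat_lit 16, (.ofNat (nat_lit 8)), (.negSucc (nat_lit 4388678143)), (.ofNat (nat_lit 100101056972378024942649847428480)), (.ofNat (nat_lit 0)), (.ofNat (nat_lit 1540019794881374787538132003200)), (.negSucc (nat_lit 4388678159)), (.negSucc (nat_lit 4388678127)), (.negSucc (nat_lit 8632784777060032178398)), (.ofNat (nat_lit 8632786277423437317105)), (.negSucc (nat_lit 8632784777060032178398)), (.ofNat (nat_lit 8632786277423437317105)), (.ofNat (nat_lit 796868406528760478126))⟩,
    ⟨nat_lit 0, nat_lit 16, nat_lit 17, (.ofNat (nat_lit 8)), (.negSucc (nat_lit 1725663487)), (.ofNat (nat_lit 123090293351272320435997781919360)), (.ofNat (nat_lit 0)), (.ofNat (nat_lit 1893701166122775467625176822400)), (.negSucc (nat_lit 1725663503)), (.negSucc (nat_lit 1725663471)), (.ofNat (nat_lit 8632786277423437317105)), (.negSucc (nat_lit 8632786277423437317104)), (.negSucc (nat_lit 8632786277423437317104)), (.ofNat (nat_lit 8632786277423437317105)), (.ofNat (nat_lit 796874407982381032950))⟩,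
    ⟨nat_lit 2, nat_lit 19, nat_lit 7, (.ofNat (nat_lit 8)), (.negSucc (nat_lit 5801755071)), (.ofNat (nat_lit 50637490548258552086689491758400)), (.ofNat (nat_lit 0)), (.ofNat (nat_lit 779040103731924791070648456000)), (.negSucc (nat_lit 5801755087)), (.negSucc (nat_lit 5801755055)), (.negSucc (nat_lit 8632786277423437317104)), (.ofNat (nat_lit 8632786277423437317105)), (.negSucc (nat_lit 8632786277423437317104)), (.ofNat (nat_lit 8632786277423437317105)), (.ofNat (nat_lit 796874407982381032950))⟩]
  es := [
    ⟨nat_lit 1, nat_lit 0, (.negSucc (nat_lit 7975043071)), (.negSucc (nat_lit 2929587967)), (.negSucc (nat_lit 7975043055)), (.negSucc (nat_lit 2929587983)), (.negSucc (nat_lit 8632786277423437317104)), (.negSucc (nat_lit 132812401330396838824)), (.ofNat (nat_lit 15736803308741337819661872000))⟩,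
    ⟨nat_lit 1, nat_lit 2, (.negSucc (nat_lit 7975043071)), (.ofNat (nat_lit 244684096)), (.negSucc (nat_lit 7975043055)), (.ofNat (nat_lit 244684080)), (.ofNat (nat_lit 8632786277423437317105)), (.ofNat (nat_lit 132812401330396838825)), (.ofNat (nat_lit 2134106045520071122783695612800))⟩,
    ⟨nat_lit 2, nat_lit 3, (.ofNat (nat_lit 244684096)), (.ofNat (nat_lit 3468785600)), (.ofNat (nat_lit 244684112)), (.ofNat (nat_lit 3468785584)), (.negSucc (nat_lit 8632786277423437317104)), (.negSucc (nat_lit 132812401330396838824)), (.ofNat (nat_lit 2199100210234305818442001267200))⟩,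
    ⟨nat_lit 3, nat_lit 4, (.ofNat (nat_lit 3468785600)), (.ofNat (nat_lit 6988479616)), (.ofNat (nat_lit 3468785616)), (.ofNat (nat_lit 6988479600)), (.ofNat (nat_lit 8632786277423437317105)), (.ofNat (nat_lit 132812401330396838825)), (.ofNat (nat_lit 1277704719761703024838639427200))⟩,
    ⟨nat_lit 5, nat_lit 4, (.ofNat (nat_lit 3722155520)), (.ofNat (nat_lit 6988479616)), (.ofNat (nat_lit 3722155536)), (.ofNat (nat_lit 6988479600)), (.negSucc (nat_lit 8632786277423437317104)), (.negSucc (nat_lit 132812401330396838824)), (.ofNat (nat_lit 3134018238660682203477339209600))⟩,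
    ⟨nat_lit 6, nat_lit 5, (.negSucc (nat_lit 7938147519)), (.ofNat (nat_lit 3722155520)), (.negSucc (nat_lit 7938147503)), (.ofNat (nat_lit 3722155504)), (.ofNat (nat_lit 8632786277423437317105)), (.ofNat (nat_lit 132812401330396838825)), (.ofNat (nat_lit 2145321413187898328631291081600))⟩,
    ⟨nat_lit 6, nat_lit 12, (.negSucc (nat_lit 7938147519)), (.negSucc (nat_lit 6745327807)), (.negSucc (nat_lit 7938147503)), (.negSucc (nat_lit 6745327823)), (.negSucc (nat_lit 8632786277423437317104)), (.negSucc (nat_lit 132812401330396838824)), (.ofNat (nat_lit 36752544695629595162264153600))⟩,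
    ⟨nat_lit 19, nat_lit 7, (.negSucc (nat_lit 5801755071)), (.ofNat (nat_lit 4439979456)), (.negSucc (nat_lit 5801755055)), (.ofNat (nat_lit 4439979440)), (.ofNat (nat_lit 8632786277423437317105)), (.ofNat (nat_lit 132812401330396838825)), (.ofNat (nat_lit 1549585126775054198496358726400))⟩,
    ⟨nat_lit 7, nat_lit 8, (.ofNat (nat_lit 4439979456)), (.ofNat (nat_lit 10255103808)), (.ofNat (nat_lit 4439979472)), (.ofNat (nat_lit 10255103792)), (.negSucc (nat_lit 8632786277423437317104)), (.negSucc (nat_lit 132812401330396838824)), (.ofNat (nat_lit 2728953793593032263917045084800))⟩,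
    ⟨nat_lit 8, nat_lit 9, (.ofNat (nat_lit 10255103808)), (.ofNat (nat_lit 11746826688)), (.ofNat (nat_lit 10255103824)), (.ofNat (nat_lit 11746826672)), (.ofNat (nat_lit 8632786277423437317105)), (.ofNat (nat_lit 132812401330396838825)), (.ofNat (nat_lit 4943868327078487946205593600))⟩,
    ⟨nat_lit 10, nat_lit 9, (.ofNat (nat_lit 8776606464)), (.ofNat (nat_lit 11746826688)), (.ofNat (nat_lit 8776606480)), (.ofNat (nat_lit 11746826672)), (.negSucc (nat_lit 8632786277423437317104)), (.negSucc (nat_lit 132812401330396838824)), (.ofNat (nat_lit 3125192389217623071826894716800))⟩,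
    ⟨nat_lit 12, nat_lit 11, (.negSucc (nat_lit 6745327807)), (.negSucc (nat_lit 617288959)), (.negSucc (nat_lit 6745327791)), (.negSucc (nat_lit 617288975)), (.ofNat (nat_lit 8632786277423437317105)), (.ofNat (nat_lit 132812401330396838825)), (.ofNat (nat_lit 1828478912577993580365397244800))⟩,
    ⟨nat_lit 13, nat_lit 14, (.negSucc (nat_lit 1332962239)), (.ofNat (nat_lit 2238443136)), (.negSucc (nat_lit 1332962223)), (.ofNat (nat_lit 2238443120)), (.ofNat (nat_lit 8632788752105719482595)), (.ofNat (nat_lit 132814876012679004315)), (.ofNat (nat_lit 362566211301123008006721219200))⟩,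
    ⟨nat_lit 15, nat_lit 14, (.ofNat (nat_lit 632642368)), (.ofNat (nat_lit 2238443136)), (.ofNat (nat_lit 632642384)), (.ofNat (nat_lit 2238443120)), (.negSucc (nat_lit 8632784777060032178398)), (.negSucc (nat_lit 132810900966991700118)), (.ofNat (nat_lit 957154408525933707887293284224))⟩,
    ⟨nat_lit 16, nat_lit 15, (.ofNat (nat_lit 632642304)), (.ofNat (nat_lit 632642368)), (.ofNat (nat_lit 632642320)), (.ofNat (nat_lit 632642352)), (.negSucc (nat_lit 8632784777060032178398)), (.negSucc (nat_lit 17132758653153072656678)), (.ofNat (nat_lit 11712041610345213140885116818304))⟩,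
    ⟨nat_lit 17, nat_lit 16, (.negSucc (nat_lit 4388678143)), (.ofNat (nat_lit 632642304)), (.negSucc (nat_lit 4388678127)), (.ofNat (nat_lit 632642288)), (.negSucc (nat_lit 8632784777060032178398)), (.negSucc (nat_lit 132810900966991700118)), (.ofNat (nat_lit 957155496522589847796474504064))⟩,
    ⟨nat_lit 17, nat_lit 18, (.negSucc (nat_lit 4388678143)), (.negSucc (nat_lit 1725663487)), (.negSucc (nat_lit 4388678127)), (.negSucc (nat_lit 1725663503)), (.ofNat (nat_lit 8632786277423437317105)), (.ofNat (nat_lit 132812401330396838825)), (.ofNat (nat_lit 2122890677852243916936100144000))⟩,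
    ⟨nat_lit 18, nat_lit 11, (.negSucc (nat_lit 1725663487)), (.negSucc (nat_lit 617288959)), (.negSucc (nat_lit 1725663471)), (.negSucc (nat_lit 617288975)), (.negSucc (nat_lit 8632786277423437317104)), (.negSucc (nat_lit 132812401330396838824)), (.ofNat (nat_lit 1664511654393307018314253500800))⟩,
    ⟨nat_lit 0, nat_lit 10, (.negSucc (nat_lit 2929587967)), (.ofNat (nat_lit 8776606464)), (.negSucc (nat_lit 2929587951)), (.ofNat (nat_lit 8776606448)), (.ofNat (nat_lit 8632786277423437317105)), (.ofNat (nat_lit 132812401330396838825)), (.ofNat (nat_lit 793908029186176881193572387200))⟩,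
    ⟨nat_lit 19, nat_lit 13, (.negSucc (nat_lit 5801755071)), (.negSucc (nat_lit 1332962239)), (.negSucc (nat_lit 5801755055)), (.negSucc (nat_lit 1332962255)), (.negSucc (nat_lit 8632786277423437317104)), (.negSucc (nat_lit 132812401330396838824)), (.ofNat (nat_lit 8495080688795383644938185600))⟩]

theorem ok115 : stOK 19 19 S115 = true := by decide +kernel

def S116 : SD where
  vs := [
    ⟨nat_lit 0, nat_lit 0, nat_lit 18, (.ofNat (nat_lit 8)), (.negSucc (nat_lit 2926704383)), (.ofNat (nat_lit 26351868239709837695106908196480)), (.ofNat (nat_lit 2883584)), (.ofNat (nat_lit 38471563140451122384937943040)), (.negSucc (nat_lit 2926704399)), (.negSucc (nat_lit 2926704367)), (.negSucc (nat_lit 8632786277423437317104)), (.ofNat (nat_lit 8632786277423437317105)), (.negSucc (nat_lit 8632786277423437317104)), (.ofNat (nat_lit 8632786277423437317105)), (.ofNat (nat_lit 0))⟩,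
    ⟨nat_lit 2, nat_lit 0, nat_lit 1, (.ofNat (nat_lit 8)), (.negSucc (nat_lit 7973470207)), (.ofNat (nat_lit 69919518990506623923678672816000)), (.ofNat (nat_lit 1572864)), (.ofNat (nat_lit 49786728769995570145213808640)), (.negSucc (nat_lit 7973470223)), (.negSucc (nat_lit 7973470191)), (.negSucc (nat_lit 8632786277423437317104)), (.ofNat (nat_lit 8632786277423437317105)), (.negSucc (nat_lit 8632786277423437317104)), (.ofNat (nat_lit 8632786277423437317105)), (.ofNat (nat_lit 0))⟩,
    ⟨nat_lit 0, nat_lit 1, nat_lit 2, (.ofNat (nat_lit 8)), (.ofNat (nat_lit 1275033472)), (.ofNat (nat_lit 149759874645910784869173592262400)), (.ofNat (nat_lit 1030349376)), (.ofNat (nat_lit 8930994484099143760287133646400)), (.ofNat (nat_lit 1275033456)), (.ofNat (nat_lit 1275033488)), (.ofNat (nat_lit 8632786277423437317105)), (.negSucc (nat_lit 8632786277423437317104)), (.negSucc (nat_lit 8632786277423437317104)), (.ofNat (nat_lit 8632786277423437317105)), (.ofNat (nat_lit 0))⟩,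
    ⟨nat_lit 0, nat_lit 2, nat_lit 3, (.ofNat (nat_lit 8)), (.ofNat (nat_lit 4500183552)), (.ofNat (nat_lit 121917843292655683812037416144000)), (.ofNat (nat_lit 1031397952)), (.ofNat (nat_lit 8921942351595508202078912953920)), (.ofNat (nat_lit 4500183536)), (.ofNat (nat_lit 4500183568)), (.negSucc (nat_lit 8632786277423437317104)), (.ofNat (nat_lit 8632786277423437317105)), (.negSucc (nat_lit 8632786277423437317104)), (.ofNat (nat_lit 8632786277423437317105)), (.ofNat (nat_lit 0))⟩,
    ⟨nat_lit 1, nat_lit 3, nat_lit 4, (.ofNat (nat_lit 8)), (.ofNat (nat_lit 8460625728)), (.ofNat (nat_lit 156107494162157501573592344364480)), (.ofNat (nat_lit 1472146112)), (.ofNat (nat_lit 12726827019043137740468278230720)), (.ofNat (nat_lit 8460625712)), (.ofNat (nat_lit 8460625744)), (.ofNat (nat_lit 8632786277423437317105)), (.negSucc (nat_lit 8632786277423437317104)), (.negSucc (nat_lit 8632786277423437317104)), (.ofNat (nat_lit 8632786277423437317105)), (.ofNat (nat_lit 0))⟩,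
    ⟨nat_lit 0, nat_lit 5, nat_lit 4, (.ofNat (nat_lit 8)), (.ofNat (nat_lit 5192990912)), (.ofNat (nat_lit 184316287161353360125358274692160)), (.ofNat (nat_lit 1470835392)), (.ofNat (nat_lit 12738142184672682188228554096320)), (.ofNat (nat_lit 5192990896)), (.ofNat (nat_lit 5192990928)), (.ofNat (nat_lit 8632786277423437317105)), (.negSucc (nat_lit 8632786277423437317104)), (.negSucc (nat_lit 8632786277423437317104)), (.ofNat (nat_lit 8632786277423437317105)), (.ofNat (nat_lit 0))⟩,
    ⟨nat_lit 2, nat_lit 6, nat_lit 5, (.ofNat (nat_lit 8)), (.negSucc (nat_lit 7926684927)), (.ofNat (nat_lit 71056929605557552106381387448960)), (.ofNat (nat_lit 11462592)), (.ofNat (nat_lit 139688703187663685140542352320)), (.negSucc (nat_lit 7926684943)), (.negSucc (nat_lit 7926684911)), (.negSucc (nat_lit 8632786277423437317104)), (.ofNat (nat_lit 8632786277423437317105)), (.negSucc (nat_lit 8632786277423437317104)), (.ofNat (nat_lit 8632786277423437317105)), (.ofNat (nat_lit 0))⟩,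
    ⟨nat_lit 0, nat_lit 7, nat_lit 8, (.ofNat (nat_lit 8)), (.ofNat (nat_lit 5720720448)), (.ofNat (nat_lit 150131189430521126142806883259200)), (.ofNat (nat_lit 1280740992)), (.ofNat (nat_lit 11078993591930369209079427999360)), (.ofNat (nat_lit 5720720432)), (.ofNat (nat_lit 5720720464)), (.ofNat (nat_lit 8632786277423437317105)), (.negSucc (nat_lit 8632786277423437317104)), (.negSucc (nat_lit 8632786277423437317104)), (.ofNat (nat_lit 8632786277423437317105)), (.ofNat (nat_lit 0))⟩,
    ⟨nat_lit 0, nat_lit 8, nat_lit 9, (.ofNat (nat_lit 8)), (.ofNat (nat_lit 11537155520)), (.ofNat (nat_lit 99919148557435123536803775752640)), (.ofNat (nat_lit 1282051712)), (.ofNat (nat_lit 11067678426300824761319152133760)), (.ofNat (nat_lit 11537155504)), (.ofNat (nat_lit 11537155536)), (.negSucc (nat_lit 8632786277423437317104)), (.ofNat (nat_lit 8632786277423437317105)), (.negSucc (nat_lit 8632786277423437317104)), (.ofNat (nat_lit 8632786277423437317105)), (.ofNat (nat_lit 0))⟩,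
    ⟨nat_lit 1, nat_lit 9, nat_lit 10, (.ofNat (nat_lit 8)), (.ofNat (nat_lit 13215605888)), (.ofNat (nat_lit 114408851861641841993523595697280)), (.ofNat (nat_lit 1468779200)), (.ofNat (nat_lit 12679656922324974323867628216000)), (.ofNat (nat_lit 13215605872)), (.ofNat (nat_lit 13215605904)), (.ofNat (nat_lit 8632786277423437317105)), (.negSucc (nat_lit 8632786277423437317104)), (.negSucc (nat_lit 8632786277423437317104)), (.ofNat (nat_lit 8632786277423437317105)), (.ofNat (nat_lit 0))⟩,
    ⟨nat_lit 0, nat_lit 18, nat_lit 10, (.ofNat (nat_lit 8)), (.ofNat (nat_lit 10244599232)), (.ofNat (nat_lit 140056917351692336793041333348160)), (.ofNat (nat_lit 1467992768)), (.ofNat (nat_lit 12686446021702700992523793735360)), (.ofNat (nat_lit 10244599216)), (.ofNat (nat_lit 10244599248)), (.ofNat (nat_lit 8632786277423437317105)), (.negSucc (nat_lit 8632786277423437317104)), (.negSucc (nat_lit 8632786277423437317104)), (.ofNat (nat_lit 8632786277423437317105)), (.ofNat (nat_lit 0))⟩,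
    ⟨nat_lit 1, nat_lit 11, nat_lit 17, (.ofNat (nat_lit 8)), (.ofNat (nat_lit 161751296)), (.ofNat (nat_lit 120274377364776389346056035674240)), (.ofNat (nat_lit 779040256)), (.ofNat (nat_lit 6752444429068148302542094456320)), (.ofNat (nat_lit 161751280)), (.ofNat (nat_lit 161751312)), (.ofNat (nat_lit 8632786277423437317105)), (.negSucc (nat_lit 8632786277423437317104)), (.negSucc (nat_lit 8632786277423437317104)), (.ofNat (nat_lit 8632786277423437317105)), (.ofNat (nat_lit 0))⟩,
    ⟨nat_lit 0, nat_lit 6, nat_lit 11, (.ofNat (nat_lit 8)), (.negSucc (nat_lit 6733078783)), (.ofNat (nat_lit 60752782864986048835085983155840)), (.ofNat (nat_lit 12249024)), (.ofNat (nat_lit 132899603809937016484376832960)), (.negSucc (nat_lit 6733078799)), (.negSucc (nat_lit 6733078767)), (.negSucc (nat_lit 8632786277423437317104)), (.ofNat (nat_lit 8632786277423437317105)), (.negSucc (nat_lit 8632786277423437317104)), (.ofNat (nat_lit 8632786277423437317105)), (.ofNat (nat_lit 0))⟩,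
    ⟨nat_lit 0, nat_lit 19, nat_lit 12, (.ofNat (nat_lit 8)), (.negSucc (nat_lit 1333224383)), (.ofNat (nat_lit 12061620144646640864761411940160)), (.negSucc (nat_lit 262143)), (.ofNat (nat_lit 2263033125908889552055173120)), (.negSucc (nat_lit 1333224399)), (.negSucc (nat_lit 1333224367)), (.negSucc (nat_lit 8632786277423437317104)), (.ofNat (nat_lit 8632788752105719482595)), (.negSucc (nat_lit 8632786277423437317104)), (.ofNat (nat_lit 8632788752105719482595)), (.ofNat (nat_lit 0))⟩,
    ⟨nat_lit 1, nat_lit 12, nat_lit 13, (.ofNat (nat_lit 8)), (.ofNat (nat_lit 2685655168)), (.ofNat (nat_lit 46755758337219913835610477337600)), (.ofNat (nat_lit 447212032)), (.ofNat (nat_lit 3865213066556483979913399139840)), (.ofNat (nat_lit 2685655152)), (.ofNat (nat_lit 2685655184)), (.ofNat (nat_lit 8632788752105719482595)), (.negSucc (nat_lit 8632784777060032178398)), (.negSucc (nat_lit 8632784777060032178398)), (.ofNat (nat_lit 8632788752105719482595)), (.ofNat (nat_lit 0))⟩,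
    ⟨nat_lit 0, nat_lit 14, nat_lit 13, (.ofNat (nat_lit 8)), (.ofNat (nat_lit 1079592256)), (.ofNat (nat_lit 60620553794934219914863678775488)), (.ofNat (nat_lit 446949888)), (.ofNat (nat_lit 3867476099289081604988773367296)), (.ofNat (nat_lit 1079592240)), (.ofNat (nat_lit 1079592272)), (.negSucc (nat_lit 8632784777060032178398)), (.negSucc (nat_lit 8632784777060032178398)), (.negSucc (nat_lit 8632784777060032178398)), (.negSucc (nat_lit 8632784777060032178398)), (.ofNat (nat_lit 0))⟩,
    ⟨nat_lit 0, nat_lit 15, nat_lit 14, (.ofNat (nat_lit 8)), (.ofNat (nat_lit 1079592192)), (.ofNat (nat_lit 60620554347432445646705738193024)), (.ofNat (nat_lit 446949888)), (.ofNat (nat_lit 3867476099289081604988773367296)), (.ofNat (nat_lit 1079592176)), (.ofNat (nat_lit 1079592208)), (.negSucc (nat_lit 8632784777060032178398)), (.negSucc (nat_lit 8632784777060032178398)), (.negSucc (nat_lit 8632784777060032178398)), (.negSucc (nat_lit 8632784777060032178398)), (.ofNat (nat_lit 0))⟩,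
    ⟨nat_lit 2, nat_lit 15, nat_lit 16, (.ofNat (nat_lit 8)), (.negSucc (nat_lit 3943038911)), (.ofNat (nat_lit 103979847682831868941173432515520)), (.ofNat (nat_lit 445639232)), (.ofNat (nat_lit 3878790710453843998523585087040)), (.negSucc (nat_lit 3943038927)), (.negSucc (nat_lit 3943038895)), (.negSucc (nat_lit 8632784777060032178398)), (.ofNat (nat_lit 8632786277423437317105)), (.negSucc (nat_lit 8632784777060032178398)), (.ofNat (nat_lit 8632786277423437317105)), (.ofNat (nat_lit 0))⟩,
    ⟨nat_lit 0, nat_lit 16, nat_lit 17, (.ofNat (nat_lit 8)), (.negSucc (nat_lit 946885375)), (.ofNat (nat_lit 129845000813466377628091931548800)), (.ofNat (nat_lit 778778112)), (.ofNat (nat_lit 6754707462194057192094149629440)), (.negSucc (nat_lit 946885391)), (.negSucc (nat_lit 946885359)), (.ofNat (nat_lit 8632786277423437317105)), (.negSucc (nat_lit 8632786277423437317104)), (.negSucc (nat_lit 8632786277423437317104)), (.ofNat (nat_lit 8632786277423437317105)), (.ofNat (nat_lit 0))⟩,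
    ⟨nat_lit 2, nat_lit 19, nat_lit 7, (.ofNat (nat_lit 8)), (.negSucc (nat_lit 5803065791)), (.ofNat (nat_lit 50648805713888096534449767624000)), (.negSucc (nat_lit 1310719)), (.ofNat (nat_lit 11315165629544447760275865600)), (.negSucc (nat_lit 5803065807)), (.negSucc (nat_lit 5803065775)), (.negSucc (nat_lit 8632786277423437317104)), (.ofNat (nat_lit 8632786277423437317105)), (.negSucc (nat_lit 8632786277423437317104)), (.ofNat (nat_lit 8632786277423437317105)), (.ofNat (nat_lit 0))⟩]
  es := [
    ⟨nat_lit 1, nat_lit 0, (.negSucc (nat_lit 7973470207)), (.negSucc (nat_lit 2926704383)), (.negSucc (nat_lit 7973470191)), (.negSucc (nat_lit 2926704399)), (.negSucc (nat_lit 8632786277423437317104)), (.ofNat (nat_lit 0)), (.ofNat (nat_lit 63364927525448907457544847360))⟩,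
    ⟨nat_lit 1, nat_lit 2, (.negSucc (nat_lit 7973470207)), (.ofNat (nat_lit 1275033472)), (.negSucc (nat_lit 7973470191)), (.ofNat (nat_lit 1275033456)), (.ofNat (nat_lit 8632786277423437317105)), (.ofNat (nat_lit 0)), (.ofNat (nat_lit 36208530014542232832882769920))⟩,
    ⟨nat_lit 2, nat_lit 3, (.ofNat (nat_lit 1275033472)), (.ofNat (nat_lit 4500183552)), (.ofNat (nat_lit 1275033488)), (.ofNat (nat_lit 4500183536)), (.negSucc (nat_lit 8632786277423437317104)), (.ofNat (nat_lit 0)), (.ofNat (nat_lit 17825780438183745287741384522880))⟩,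
    ⟨nat_lit 3, nat_lit 4, (.ofNat (nat_lit 4500183552)), (.ofNat (nat_lit 8460625728)), (.ofNat (nat_lit 4500183568)), (.ofNat (nat_lit 8460625712)), (.ofNat (nat_lit 8632786277423437317105)), (.ofNat (nat_lit 0)), (.ofNat (nat_lit 18104265007271116416441384960))⟩,
    ⟨nat_lit 5, nat_lit 4, (.ofNat (nat_lit 5192990912)), (.ofNat (nat_lit 8460625728)), (.ofNat (nat_lit 5192990928)), (.ofNat (nat_lit 8460625712)), (.negSucc (nat_lit 8632786277423437317104)), (.ofNat (nat_lit 0)), (.ofNat (nat_lit 25435549773079004364520115076480))⟩,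
    ⟨nat_lit 6, nat_lit 5, (.negSucc (nat_lit 7926684927)), (.ofNat (nat_lit 5192990912)), (.negSucc (nat_lit 7926684911)), (.ofNat (nat_lit 5192990896)), (.ofNat (nat_lit 8632786277423437317105)), (.ofNat (nat_lit 0)), (.ofNat (nat_lit 40734596266360011936993116160))⟩,
    ⟨nat_lit 6, nat_lit 12, (.negSucc (nat_lit 7926684927)), (.negSucc (nat_lit 6733078783)), (.negSucc (nat_lit 7926684911)), (.negSucc (nat_lit 6733078799)), (.negSucc (nat_lit 8632786277423437317104)), (.ofNat (nat_lit 0)), (.ofNat (nat_lit 238642810108967358344091588480))⟩,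
    ⟨nat_lit 19, nat_lit 7, (.negSucc (nat_lit 5803065791)), (.ofNat (nat_lit 5720720448)), (.negSucc (nat_lit 5803065775)), (.ofNat (nat_lit 5720720432)), (.ofNat (nat_lit 8632786277423437317105)), (.ofNat (nat_lit 0)), (.ofNat (nat_lit 22630331259088895520551731200))⟩,
    ⟨nat_lit 7, nat_lit 8, (.ofNat (nat_lit 5720720448)), (.ofNat (nat_lit 11537155520)), (.ofNat (nat_lit 5720720464)), (.ofNat (nat_lit 11537155504)), (.negSucc (nat_lit 8632786277423437317104)), (.ofNat (nat_lit 0)), (.ofNat (nat_lit 22135356852601649522638304267520))⟩,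
    ⟨nat_lit 8, nat_lit 9, (.ofNat (nat_lit 11537155520)), (.ofNat (nat_lit 13215605888)), (.ofNat (nat_lit 11537155536)), (.ofNat (nat_lit 13215605872)), (.ofNat (nat_lit 8632786277423437317105)), (.ofNat (nat_lit 0)), (.ofNat (nat_lit 0))⟩,
    ⟨nat_lit 10, nat_lit 9, (.ofNat (nat_lit 10244599232)), (.ofNat (nat_lit 13215605888)), (.ofNat (nat_lit 10244599248)), (.ofNat (nat_lit 13215605872)), (.negSucc (nat_lit 8632786277423437317104)), (.ofNat (nat_lit 0)), (.ofNat (nat_lit 25359313844649948647735256432000))⟩,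
    ⟨nat_lit 12, nat_lit 11, (.negSucc (nat_lit 6733078783)), (.ofNat (nat_lit 161751296)), (.negSucc (nat_lit 6733078767)), (.ofNat (nat_lit 161751280)), (.ofNat (nat_lit 8632786277423437317105)), (.ofNat (nat_lit 0)), (.ofNat (nat_lit 27156397510906674624662077440))⟩,
    ⟨nat_lit 13, nat_lit 14, (.negSucc (nat_lit 1333224383)), (.ofNat (nat_lit 2685655168)), (.negSucc (nat_lit 1333224367)), (.ofNat (nat_lit 2685655152)), (.ofNat (nat_lit 8632788752105719482595)), (.ofNat (nat_lit 0)), (.ofNat (nat_lit 4526066900540891280100556800))⟩,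
    ⟨nat_lit 15, nat_lit 14, (.ofNat (nat_lit 1079592256)), (.ofNat (nat_lit 2685655168)), (.ofNat (nat_lit 1079592272)), (.ofNat (nat_lit 2685655152)), (.negSucc (nat_lit 8632784777060032178398)), (.ofNat (nat_lit 0)), (.ofNat (nat_lit 7725898288524167956400602436608))⟩,
    ⟨nat_lit 16, nat_lit 15, (.ofNat (nat_lit 1079592192)), (.ofNat (nat_lit 1079592256)), (.ofNat (nat_lit 1079592208)), (.ofNat (nat_lit 1079592240)), (.negSucc (nat_lit 8632784777060032178398)), (.ofNat (nat_lit 0)), (.ofNat (nat_lit 7725898288524167956400602436608))⟩,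
    ⟨nat_lit 17, nat_lit 16, (.negSucc (nat_lit 3943038911)), (.ofNat (nat_lit 1079592192)), (.negSucc (nat_lit 3943038895)), (.ofNat (nat_lit 1079592176)), (.negSucc (nat_lit 8632784777060032178398)), (.ofNat (nat_lit 0)), (.ofNat (nat_lit 7725898288524167956400602436608))⟩,
    ⟨nat_lit 17, nat_lit 18, (.negSucc (nat_lit 3943038911)), (.negSucc (nat_lit 946885375)), (.negSucc (nat_lit 3943038895)), (.negSucc (nat_lit 946885391)), (.ofNat (nat_lit 8632786277423437317105)), (.ofNat (nat_lit 0)), (.ofNat (nat_lit 31682463762724453728772423680))⟩,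
    ⟨nat_lit 18, nat_lit 11, (.negSucc (nat_lit 946885375)), (.ofNat (nat_lit 161751296)), (.negSucc (nat_lit 946885359)), (.ofNat (nat_lit 161751280)), (.negSucc (nat_lit 8632786277423437317104)), (.ofNat (nat_lit 0)), (.ofNat (nat_lit 13477732460625389930459526835200))⟩,
    ⟨nat_lit 0, nat_lit 10, (.negSucc (nat_lit 2926704383)), (.ofNat (nat_lit 10244599232)), (.negSucc (nat_lit 2926704367)), (.ofNat (nat_lit 10244599216)), (.ofNat (nat_lit 8632786277423437317105)), (.ofNat (nat_lit 0)), (.ofNat (nat_lit 13578198755453337312331038720))⟩,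
    ⟨nat_lit 19, nat_lit 13, (.negSucc (nat_lit 5803065791)), (.negSucc (nat_lit 1333224383)), (.negSucc (nat_lit 5803065775)), (.negSucc (nat_lit 1333224399)), (.negSucc (nat_lit 8632786277423437317104)), (.ofNat (nat_lit 0)), (.ofNat (nat_lit 0))⟩]

theorem ok116 : stOK 19 19 S116 = true := by decide +kernel

def S117 : SD where
  vs := [
    ⟨nat_lit 0, nat_lit 0, nat_lit 17, (.ofNat (nat_lit 8)), (.negSucc (nat_lit 2926704383)), (.ofNat (nat_lit 26351868239709837695106908196480)), (.ofNat (nat_lit 2883584)), (.ofNat (nat_lit 38471563140451122384937943040)), (.negSucc (nat_lit 2926704399)), (.negSucc (nat_lit 2926704367)), (.negSucc (nat_lit 8632786277423437317104)), (.ofNat (nat_lit 8632786277423437317105)), (.negSucc (nat_lit 8632786277423437317104)), (.ofNat (nat_lit 8632786277423437317105)), (.ofNat (nat_lit 0))⟩,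
    ⟨nat_lit 2, nat_lit 0, nat_lit 1, (.ofNat (nat_lit 8)), (.negSucc (nat_lit 7973470207)), (.ofNat (nat_lit 69919518990506623923678672816000)), (.ofNat (nat_lit 1572864)), (.ofNat (nat_lit 49786728769995570145213808640)), (.negSucc (nat_lit 7973470223)), (.negSucc (nat_lit 7973470191)), (.negSucc (nat_lit 8632786277423437317104)), (.ofNat (nat_lit 8632786277423437317105)), (.negSucc (nat_lit 8632786277423437317104)), (.ofNat (nat_lit 8632786277423437317105)), (.ofNat (nat_lit 0))⟩,
    ⟨nat_lit 0, nat_lit 1, nat_lit 2, (.ofNat (nat_lit 8)), (.ofNat (nat_lit 1275033472)), (.ofNat (nat_lit 149759874645910784869173592262400)), (.ofNat (nat_lit 1030349376)), (.ofNat (nat_lit 8930994484099143760287133646400)), (.ofNat (nat_lit 1275033456)), (.ofNat (nat_lit 1275033488)), (.ofNat (nat_lit 8632786277423437317105)), (.negSucc (nat_lit 8632786277423437317104)), (.negSucc (nat_lit 8632786277423437317104)), (.ofNat (nat_lit 8632786277423437317105)), (.ofNat (nat_lit 0))⟩,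
    ⟨nat_lit 0, nat_lit 2, nat_lit 3, (.ofNat (nat_lit 8)), (.ofNat (nat_lit 4500183552)), (.ofNat (nat_lit 121917843292655683812037416144000)), (.ofNat (nat_lit 1031397952)), (.ofNat (nat_lit 8921942351595508202078912953920)), (.ofNat (nat_lit 4500183536)), (.ofNat (nat_lit 4500183568)), (.negSucc (nat_lit 8632786277423437317104)), (.ofNat (nat_lit 8632786277423437317105)), (.negSucc (nat_lit 8632786277423437317104)), (.ofNat (nat_lit 8632786277423437317105)), (.ofNat (nat_lit 0))⟩,
    ⟨nat_lit 1, nat_lit 3, nat_lit 4, (.ofNat (nat_lit 8)), (.ofNat (nat_lit 8460625728)), (.ofNat (nat_lit 156107494162157501573592344364480)), (.ofNat (nat_lit 1472146112)), (.ofNat (nat_lit 12726827019043137740468278230720)), (.ofNat (nat_lit 8460625712)), (.ofNat (nat_lit 8460625744)), (.ofNat (nat_lit 8632786277423437317105)), (.negSucc (nat_lit 8632786277423437317104)), (.negSucc (nat_lit 8632786277423437317104)), (.ofNat (nat_lit 8632786277423437317105)), (.ofNat (nat_lit 0))⟩,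
    ⟨nat_lit 0, nat_lit 5, nat_lit 4, (.ofNat (nat_lit 8)), (.ofNat (nat_lit 5192990912)), (.ofNat (nat_lit 184316287161353360125358274692160)), (.ofNat (nat_lit 1470835392)), (.ofNat (nat_lit 12738142184672682188228554096320)), (.ofNat (nat_lit 5192990896)), (.ofNat (nat_lit 5192990928)), (.ofNat (nat_lit 8632786277423437317105)), (.negSucc (nat_lit 8632786277423437317104)), (.negSucc (nat_lit 8632786277423437317104)), (.ofNat (nat_lit 8632786277423437317105)), (.ofNat (nat_lit 0))⟩,
    ⟨nat_lit 2, nat_lit 6, nat_lit 5, (.ofNat (nat_lit 8)), (.negSucc (nat_lit 7926684927)), (.ofNat (nat_lit 71056929605557552106381387448960)), (.ofNat (nat_lit 11462592)), (.ofNat (nat_lit 139688703187663685140542352320)), (.negSucc (nat_lit 7926684943)), (.negSucc (nat_lit 7926684911)), (.negSucc (nat_lit 8632786277423437317104)), (.ofNat (nat_lit 8632786277423437317105)), (.negSucc (nat_lit 8632786277423437317104)), (.ofNat (nat_lit 8632786277423437317105)), (.ofNat (nat_lit 0))⟩,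
    ⟨nat_lit 0, nat_lit 7, nat_lit 8, (.ofNat (nat_lit 8)), (.ofNat (nat_lit 5720720448)), (.ofNat (nat_lit 150131189430521126142806883259200)), (.ofNat (nat_lit 1280740992)), (.ofNat (nat_lit 11078993591930369209079427999360)), (.ofNat (nat_lit 5720720432)), (.ofNat (nat_lit 5720720464)), (.ofNat (nat_lit 8632786277423437317105)), (.negSucc (nat_lit 8632786277423437317104)), (.negSucc (nat_lit 8632786277423437317104)), (.ofNat (nat_lit 8632786277423437317105)), (.ofNat (nat_lit 0))⟩,
    ⟨nat_lit 0, nat_lit 8, nat_lit 9, (.ofNat (nat_lit 8)), (.ofNat (nat_lit 11537155520)), (.ofNat (nat_lit 99919148557435123536803775752640)), (.ofNat (nat_lit 1282051712)), (.ofNat (nat_lit 11067678426300824761319152133760)), (.ofNat (nat_lit 11537155504)), (.ofNat (nat_lit 11537155536)), (.negSucc (nat_lit 8632786277423437317104)), (.ofNat (nat_lit 8632786277423437317105)), (.negSucc (nat_lit 8632786277423437317104)), (.ofNat (nat_lit 8632786277423437317105)), (.ofNat (nat_lit 0))⟩,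
    ⟨nat_lit 1, nat_lit 9, nat_lit 10, (.ofNat (nat_lit 8)), (.ofNat (nat_lit 13215605888)), (.ofNat (nat_lit 114408851861641841993523595697280)), (.ofNat (nat_lit 1468779200)), (.ofNat (nat_lit 12679656922324974323867628216000)), (.ofNat (nat_lit 13215605872)), (.ofNat (nat_lit 13215605904)), (.ofNat (nat_lit 8632786277423437317105)), (.negSucc (nat_lit 8632786277423437317104)), (.negSucc (nat_lit 8632786277423437317104)), (.ofNat (nat_lit 8632786277423437317105)), (.ofNat (nat_lit 0))⟩,
    ⟨nat_lit 0, nat_lit 17, nat_lit 10, (.ofNat (nat_lit 8)), (.ofNat (nat_lit 10244599232)), (.ofNat (nat_lit 140056917351692336793041333348160)), (.ofNat (nat_lit 1467992768)), (.ofNat (nat_lit 12686446021702700992523793735360)), (.ofNat (nat_lit 10244599216)), (.ofNat (nat_lit 10244599248)), (.ofNat (nat_lit 8632786277423437317105)), (.negSucc (nat_lit 8632786277423437317104)), (.negSucc (nat_lit 8632786277423437317104)), (.ofNat (nat_lit 8632786277423437317105)), (.ofNat (nat_lit 0))⟩,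
    ⟨nat_lit 1, nat_lit 11, nat_lit 16, (.ofNat (nat_lit 8)), (.ofNat (nat_lit 161751296)), (.ofNat (nat_lit 120274377364776389346056035674240)), (.ofNat (nat_lit 779040256)), (.ofNat (nat_lit 6752444429068148302542094456320)), (.ofNat (nat_lit 161751280)), (.ofNat (nat_lit 161751312)), (.ofNat (nat_lit 8632786277423437317105)), (.negSucc (nat_lit 8632786277423437317104)), (.negSucc (nat_lit 8632786277423437317104)), (.ofNat (nat_lit 8632786277423437317105)), (.ofNat (nat_lit 0))⟩,
    ⟨nat_lit 0, nat_lit 6, nat_lit 11, (.ofNat (nat_lit 8)), (.negSucc (nat_lit 6733078783)), (.ofNat (nat_lit 60752782864986048835085983155840)), (.ofNat (nat_lit 12249024)), (.ofNat (nat_lit 132899603809937016484376832960)), (.negSucc (nat_lit 6733078799)), (.negSucc (nat_lit 6733078767)), (.negSucc (nat_lit 8632786277423437317104)), (.ofNat (nat_lit 8632786277423437317105)), (.negSucc (nat_lit 8632786277423437317104)), (.ofNat (nat_lit 8632786277423437317105)), (.ofNat (nat_lit 0))⟩,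
    ⟨nat_lit 0, nat_lit 18, nat_lit 12, (.ofNat (nat_lit 8)), (.negSucc (nat_lit 1333224383)), (.ofNat (nat_lit 12061620144646640864761411940160)), (.negSucc (nat_lit 262143)), (.ofNat (nat_lit 2263033125908889552055173120)), (.negSucc (nat_lit 1333224399)), (.negSucc (nat_lit 1333224367)), (.negSucc (nat_lit 8632786277423437317104)), (.ofNat (nat_lit 8632788752105719482595)), (.negSucc (nat_lit 8632786277423437317104)), (.ofNat (nat_lit 8632788752105719482595)), (.ofNat (nat_lit 0))⟩,
    ⟨nat_lit 1, nat_lit 12, nat_lit 13, (.ofNat (nat_lit 8)), (.ofNat (nat_lit 2685655168)), (.ofNat (nat_lit 46755758337219913835610477337600)), (.ofNat (nat_lit 447212032)), (.ofNat (nat_lit 3865213066556483979913399139840)), (.ofNat (nat_lit 2685655152)), (.ofNat (nat_lit 2685655184)), (.ofNat (nat_lit 8632788752105719482595)), (.negSucc (nat_lit 8632784777060032178398)), (.negSucc (nat_lit 8632784777060032178398)), (.ofNat (nat_lit 8632788752105719482595)), (.ofNat (nat_lit 0))⟩,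
    ⟨nat_lit 0, nat_lit 14, nat_lit 13, (.ofNat (nat_lit 8)), (.ofNat (nat_lit 1079592256)), (.ofNat (nat_lit 60620553794934219914863678775488)), (.ofNat (nat_lit 446949888)), (.ofNat (nat_lit 3867476099289081604988773367296)), (.ofNat (nat_lit 1079592240)), (.ofNat (nat_lit 1079592272)), (.negSucc (nat_lit 8632784777060032178398)), (.negSucc (nat_lit 8632784777060032178398)), (.negSucc (nat_lit 8632784777060032178398)), (.negSucc (nat_lit 8632784777060032178398)), (.ofNat (nat_lit 0))⟩,
    ⟨nat_lit 2, nat_lit 14, nat_lit 15, (.ofNat (nat_lit 8)), (.negSucc (nat_lit 3943038911)), (.ofNat (nat_lit 103979847682831868941173432515520)), (.ofNat (nat_lit 445639232)), (.ofNat (nat_lit 3878790710453843998523585087040)), (.negSucc (nat_lit 3943038927)), (.negSucc (nat_lit 3943038895)), (.negSucc (nat_lit 8632784777060032178398)), (.ofNat (nat_lit 8632786277423437317105)), (.negSucc (nat_lit 8632784777060032178398)), (.ofNat (nat_lit 8632786277423437317105)), (.ofNat (nat_lit 0))⟩,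
    ⟨nat_lit 0, nat_lit 15, nat_lit 16, (.ofNat (nat_lit 8)), (.negSucc (nat_lit 946885375)), (.ofNat (nat_lit 129845000813466377628091931548800)), (.ofNat (nat_lit 778778112)), (.ofNat (nat_lit 6754707462194057192094149629440)), (.negSucc (nat_lit 946885391)), (.negSucc (nat_lit 946885359)), (.ofNat (nat_lit 8632786277423437317105)), (.negSucc (nat_lit 8632786277423437317104)), (.negSucc (nat_lit 8632786277423437317104)), (.ofNat (nat_lit 8632786277423437317105)), (.ofNat (nat_lit 0))⟩,
    ⟨nat_lit 2, nat_lit 18, nat_lit 7, (.ofNat (nat_lit 8)), (.negSucc (nat_lit 5803065791)), (.ofNat (nat_lit 50648805713888096534449767624000)), (.negSucc (nat_lit 1310719)), (.ofNat (nat_lit 11315165629544447760275865600)), (.negSucc (nat_lit 5803065807)), (.negSucc (nat_lit 5803065775)), (.negSucc (nat_lit 8632786277423437317104)), (.ofNat (nat_lit 8632786277423437317105)), (.negSucc (nat_lit 8632786277423437317104)), (.ofNat (nat_lit 8632786277423437317105)), (.ofNat (nat_lit 0))⟩]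
  es := [
    ⟨nat_lit 1, nat_lit 0, (.negSucc (nat_lit 7973470207)), (.negSucc (nat_lit 2926704383)), (.negSucc (nat_lit 7973470191)), (.negSucc (nat_lit 2926704399)), (.negSucc (nat_lit 8632786277423437317104)), (.ofNat (nat_lit 0)), (.ofNat (nat_lit 63364927525448907457544847360))⟩,
    ⟨nat_lit 1, nat_lit 2, (.negSucc (nat_lit 7973470207)), (.ofNat (nat_lit 1275033472)), (.negSucc (nat_lit 7973470191)), (.ofNat (nat_lit 1275033456)), (.ofNat (nat_lit 8632786277423437317105)), (.ofNat (nat_lit 0)), (.ofNat (nat_lit 36208530014542232832882769920))⟩,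
    ⟨nat_lit 2, nat_lit 3, (.ofNat (nat_lit 1275033472)), (.ofNat (nat_lit 4500183552)), (.ofNat (nat_lit 1275033488)), (.ofNat (nat_lit 4500183536)), (.negSucc (nat_lit 8632786277423437317104)), (.ofNat (nat_lit 0)), (.ofNat (nat_lit 17825780438183745287741384522880))⟩,
    ⟨nat_lit 3, nat_lit 4, (.ofNat (nat_lit 4500183552)), (.ofNat (nat_lit 8460625728)), (.ofNat (nat_lit 4500183568)), (.ofNat (nat_lit 8460625712)), (.ofNat (nat_lit 8632786277423437317105)), (.ofNat (nat_lit 0)), (.ofNat (nat_lit 18104265007271116416441384960))⟩,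
    ⟨nat_lit 5, nat_lit 4, (.ofNat (nat_lit 5192990912)), (.ofNat (nat_lit 8460625728)), (.ofNat (nat_lit 5192990928)), (.ofNat (nat_lit 8460625712)), (.negSucc (nat_lit 8632786277423437317104)), (.ofNat (nat_lit 0)), (.ofNat (nat_lit 25435549773079004364520115076480))⟩,
    ⟨nat_lit 6, nat_lit 5, (.negSucc (nat_lit 7926684927)), (.ofNat (nat_lit 5192990912)), (.negSucc (nat_lit 7926684911)), (.ofNat (nat_lit 5192990896)), (.ofNat (nat_lit 8632786277423437317105)), (.ofNat (nat_lit 0)), (.ofNat (nat_lit 40734596266360011936993116160))⟩,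
    ⟨nat_lit 6, nat_lit 12, (.negSucc (nat_lit 7926684927)), (.negSucc (nat_lit 6733078783)), (.negSucc (nat_lit 7926684911)), (.negSucc (nat_lit 6733078799)), (.negSucc (nat_lit 8632786277423437317104)), (.ofNat (nat_lit 0)), (.ofNat (nat_lit 238642810108967358344091588480))⟩,
    ⟨nat_lit 18, nat_lit 7, (.negSucc (nat_lit 5803065791)), (.ofNat (nat_lit 5720720448)), (.negSucc (nat_lit 5803065775)), (.ofNat (nat_lit 5720720432)), (.ofNat (nat_lit 8632786277423437317105)), (.ofNat (nat_lit 0)), (.ofNat (nat_lit 22630331259088895520551731200))⟩,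
    ⟨nat_lit 7, nat_lit 8, (.ofNat (nat_lit 5720720448)), (.ofNat (nat_lit 11537155520)), (.ofNat (nat_lit 5720720464)), (.ofNat (nat_lit 11537155504)), (.negSucc (nat_lit 8632786277423437317104)), (.ofNat (nat_lit 0)), (.ofNat (nat_lit 22135356852601649522638304267520))⟩,
    ⟨nat_lit 8, nat_lit 9, (.ofNat (nat_lit 11537155520)), (.ofNat (nat_lit 13215605888)), (.ofNat (nat_lit 11537155536)), (.ofNat (nat_lit 13215605872)), (.ofNat (nat_lit 8632786277423437317105)), (.ofNat (nat_lit 0)), (.ofNat (nat_lit 0))⟩,
    ⟨nat_lit 10, nat_lit 9, (.ofNat (nat_lit 10244599232)), (.ofNat (nat_lit 13215605888)), (.ofNat (nat_lit 10244599248)), (.ofNat (nat_lit 13215605872)), (.negSucc (nat_lit 8632786277423437317104)), (.ofNat (nat_lit 0)), (.ofNat (nat_lit 25359313844649948647735256432000))⟩,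
    ⟨nat_lit 12, nat_lit 11, (.negSucc (nat_lit 6733078783)), (.ofNat (nat_lit 161751296)), (.negSucc (nat_lit 6733078767)), (.ofNat (nat_lit 161751280)), (.ofNat (nat_lit 8632786277423437317105)), (.ofNat (nat_lit 0)), (.ofNat (nat_lit 27156397510906674624662077440))⟩,
    ⟨nat_lit 13, nat_lit 14, (.negSucc (nat_lit 1333224383)), (.ofNat (nat_lit 2685655168)), (.negSucc (nat_lit 1333224367)), (.ofNat (nat_lit 2685655152)), (.ofNat (nat_lit 8632788752105719482595)), (.ofNat (nat_lit 0)), (.ofNat (nat_lit 4526066900540891280100556800))⟩,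
    ⟨nat_lit 15, nat_lit 14, (.ofNat (nat_lit 1079592256)), (.ofNat (nat_lit 2685655168)), (.ofNat (nat_lit 1079592272)), (.ofNat (nat_lit 2685655152)), (.negSucc (nat_lit 8632784777060032178398)), (.ofNat (nat_lit 0)), (.ofNat (nat_lit 7725898288524167956400602436608))⟩,
    ⟨nat_lit 16, nat_lit 15, (.negSucc (nat_lit 3943038911)), (.ofNat (nat_lit 1079592256)), (.negSucc (nat_lit 3943038895)), (.ofNat (nat_lit 1079592240)), (.negSucc (nat_lit 8632784777060032178398)), (.ofNat (nat_lit 0)), (.ofNat (nat_lit 7725898288524167956400602436608))⟩,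
    ⟨nat_lit 16, nat_lit 17, (.negSucc (nat_lit 3943038911)), (.negSucc (nat_lit 946885375)), (.negSucc (nat_lit 3943038895)), (.negSucc (nat_lit 946885391)), (.ofNat (nat_lit 8632786277423437317105)), (.ofNat (nat_lit 0)), (.ofNat (nat_lit 31682463762724453728772423680))⟩,
    ⟨nat_lit 17, nat_lit 11, (.negSucc (nat_lit 946885375)), (.ofNat (nat_lit 161751296)), (.negSucc (nat_lit 946885359)), (.ofNat (nat_lit 161751280)), (.negSucc (nat_lit 8632786277423437317104)), (.ofNat (nat_lit 0)), (.ofNat (nat_lit 13477732460625389930459526835200))⟩,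
    ⟨nat_lit 0, nat_lit 10, (.negSucc (nat_lit 2926704383)), (.ofNat (nat_lit 10244599232)), (.negSucc (nat_lit 2926704367)), (.ofNat (nat_lit 10244599216)), (.ofNat (nat_lit 8632786277423437317105)), (.ofNat (nat_lit 0)), (.ofNat (nat_lit 13578198755453337312331038720))⟩,
    ⟨nat_lit 18, nat_lit 13, (.negSucc (nat_lit 5803065791)), (.negSucc (nat_lit 1333224383)), (.negSucc (nat_lit 5803065775)), (.negSucc (nat_lit 1333224399)), (.negSucc (nat_lit 8632786277423437317104)), (.ofNat (nat_lit 0)), (.ofNat (nat_lit 0))⟩]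

theorem ok117 : stOK 18 18 S117 = true := by decide +kernel

def S118 : SD where
  vs := [
    ⟨nat_lit 0, nat_lit 0, nat_lit 16, (.ofNat (nat_lit 8)), (.negSucc (nat_lit 2926704383)), (.ofNat (nat_lit 26351868239709837695106908196480)), (.ofNat (nat_lit 2883584)), (.ofNat (nat_lit 38471563140451122384937943040)), (.negSucc (nat_lit 2926704399)), (.negSucc (nat_lit 2926704367)), (.negSucc (nat_lit 8632786277423437317104)), (.ofNat (nat_lit 8632786277423437317105)), (.negSucc (nat_lit 8632786277423437317104)), (.ofNat (nat_lit 8632786277423437317105)), (.ofNat (nat_lit 0))⟩,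
    ⟨nat_lit 2, nat_lit 0, nat_lit 1, (.ofNat (nat_lit 8)), (.negSucc (nat_lit 7973470207)), (.ofNat (nat_lit 69919518990506623923678672816000)), (.ofNat (nat_lit 1572864)), (.ofNat (nat_lit 49786728769995570145213808640)), (.negSucc (nat_lit 7973470223)), (.negSucc (nat_lit 7973470191)), (.negSucc (nat_lit 8632786277423437317104)), (.ofNat (nat_lit 8632786277423437317105)), (.negSucc (nat_lit 8632786277423437317104)), (.ofNat (nat_lit 8632786277423437317105)), (.ofNat (nat_lit 0))⟩,
    ⟨nat_lit 0, nat_lit 1, nat_lit 2, (.ofNat (nat_lit 8)), (.ofNat (nat_lit 1275033472)), (.ofNat (nat_lit 149759874645910784869173592262400)), (.ofNat (nat_lit 1030349376)), (.ofNat (nat_lit 8930994484099143760287133646400)), (.ofNat (nat_lit 1275033456)), (.ofNat (nat_lit 1275033488)), (.ofNat (nat_lit 8632786277423437317105)), (.negSucc (nat_lit 8632786277423437317104)), (.negSucc (nat_lit 8632786277423437317104)), (.ofNat (nat_lit 8632786277423437317105)), (.ofNat (nat_lit 0))⟩,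
    ⟨nat_lit 0, nat_lit 2, nat_lit 3, (.ofNat (nat_lit 8)), (.ofNat (nat_lit 4500183552)), (.ofNat (nat_lit 121917843292655683812037416144000)), (.ofNat (nat_lit 1031397952)), (.ofNat (nat_lit 8921942351595508202078912953920)), (.ofNat (nat_lit 4500183536)), (.ofNat (nat_lit 4500183568)), (.negSucc (nat_lit 8632786277423437317104)), (.ofNat (nat_lit 8632786277423437317105)), (.negSucc (nat_lit 8632786277423437317104)), (.ofNat (nat_lit 8632786277423437317105)), (.ofNat (nat_lit 0))⟩,
    ⟨nat_lit 1, nat_lit 3, nat_lit 4, (.ofNat (nat_lit 8)), (.ofNat (nat_lit 8460625728)), (.ofNat (nat_lit 156107494162157501573592344364480)), (.ofNat (nat_lit 1472146112)), (.ofNat (nat_lit 12726827019043137740468278230720)), (.ofNat (nat_lit 8460625712)), (.ofNat (nat_lit 8460625744)), (.ofNat (nat_lit 8632786277423437317105)), (.negSucc (nat_lit 8632786277423437317104)), (.negSucc (nat_lit 8632786277423437317104)), (.ofNat (nat_lit 8632786277423437317105)), (.ofNat (nat_lit 0))⟩,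
    ⟨nat_lit 0, nat_lit 5, nat_lit 4, (.ofNat (nat_lit 8)), (.ofNat (nat_lit 5192990912)), (.ofNat (nat_lit 184316287161353360125358274692160)), (.ofNat (nat_lit 1470835392)), (.ofNat (nat_lit 12738142184672682188228554096320)), (.ofNat (nat_lit 5192990896)), (.ofNat (nat_lit 5192990928)), (.ofNat (nat_lit 8632786277423437317105)), (.negSucc (nat_lit 8632786277423437317104)), (.negSucc (nat_lit 8632786277423437317104)), (.ofNat (nat_lit 8632786277423437317105)), (.ofNat (nat_lit 0))⟩,
    ⟨nat_lit 2, nat_lit 6, nat_lit 5, (.ofNat (nat_lit 8)), (.negSucc (nat_lit 7926684927)), (.ofNat (nat_lit 71056929605557552106381387448960)), (.ofNat (nat_lit 11462592)), (.ofNat (nat_lit 139688703187663685140542352320)), (.negSucc (nat_lit 7926684943)), (.negSucc (nat_lit 7926684911)), (.negSucc (nat_lit 8632786277423437317104)), (.ofNat (nat_lit 8632786277423437317105)), (.negSucc (nat_lit 8632786277423437317104)), (.ofNat (nat_lit 8632786277423437317105)), (.ofNat (nat_lit 0))⟩,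
    ⟨nat_lit 0, nat_lit 7, nat_lit 8, (.ofNat (nat_lit 8)), (.ofNat (nat_lit 5720720448)), (.ofNat (nat_lit 150131189430521126142806883259200)), (.ofNat (nat_lit 1280740992)), (.ofNat (nat_lit 11078993591930369209079427999360)), (.ofNat (nat_lit 5720720432)), (.ofNat (nat_lit 5720720464)), (.ofNat (nat_lit 8632786277423437317105)), (.negSucc (nat_lit 8632786277423437317104)), (.negSucc (nat_lit 8632786277423437317104)), (.ofNat (nat_lit 8632786277423437317105)), (.ofNat (nat_lit 0))⟩,
    ⟨nat_lit 0, nat_lit 8, nat_lit 9, (.ofNat (nat_lit 8)), (.ofNat (nat_lit 11537155520)), (.ofNat (nat_lit 99919148557435123536803775752640)), (.ofNat (nat_lit 1282051712)), (.ofNat (nat_lit 11067678426300824761319152133760)), (.ofNat (nat_lit 11537155504)), (.ofNat (nat_lit 11537155536)), (.negSucc (nat_lit 8632786277423437317104)), (.ofNat (nat_lit 8632786277423437317105)), (.negSucc (nat_lit 8632786277423437317104)), (.ofNat (nat_lit 8632786277423437317105)), (.ofNat (nat_lit 0))⟩,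
    ⟨nat_lit 1, nat_lit 9, nat_lit 10, (.ofNat (nat_lit 8)), (.ofNat (nat_lit 13215605888)), (.ofNat (nat_lit 114408851861641841993523595697280)), (.ofNat (nat_lit 1468779200)), (.ofNat (nat_lit 12679656922324974323867628216000)), (.ofNat (nat_lit 13215605872)), (.ofNat (nat_lit 13215605904)), (.ofNat (nat_lit 8632786277423437317105)), (.negSucc (nat_lit 8632786277423437317104)), (.negSucc (nat_lit 8632786277423437317104)), (.ofNat (nat_lit 8632786277423437317105)), (.ofNat (nat_lit 0))⟩,
    ⟨nat_lit 0, nat_lit 16, nat_lit 10, (.ofNat (nat_lit 8)), (.ofNat (nat_lit 10244599232)), (.ofNat (nat_lit 140056917351692336793041333348160)), (.ofNat (nat_lit 1467992768)), (.ofNat (nat_lit 12686446021702700992523793735360)), (.ofNat (nat_lit 10244599216)), (.ofNat (nat_lit 10244599248)), (.ofNat (nat_lit 8632786277423437317105)), (.negSucc (nat_lit 8632786277423437317104)), (.negSucc (nat_lit 8632786277423437317104)), (.ofNat (nat_lit 8632786277423437317105)), (.ofNat (nat_lit 0))⟩,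
    ⟨nat_lit 1, nat_lit 11, nat_lit 15, (.ofNat (nat_lit 8)), (.ofNat (nat_lit 161751296)), (.ofNat (nat_lit 120274377364776389346056035674240)), (.ofNat (nat_lit 779040256)), (.ofNat (nat_lit 6752444429068148302542094456320)), (.ofNat (nat_lit 161751280)), (.ofNat (nat_lit 161751312)), (.ofNat (nat_lit 8632786277423437317105)), (.negSucc (nat_lit 8632786277423437317104)), (.negSucc (nat_lit 8632786277423437317104)), (.ofNat (nat_lit 8632786277423437317105)), (.ofNat (nat_lit 0))⟩,
    ⟨nat_lit 0, nat_lit 6, nat_lit 11, (.ofNat (nat_lit 8)), (.negSucc (nat_lit 6733078783)), (.ofNat (nat_lit 60752782864986048835085983155840)), (.ofNat (nat_lit 12249024)), (.ofNat (nat_lit 132899603809937016484376832960)), (.negSucc (nat_lit 6733078799)), (.negSucc (nat_lit 6733078767)), (.negSucc (nat_lit 8632786277423437317104)), (.ofNat (nat_lit 8632786277423437317105)), (.negSucc (nat_lit 8632786277423437317104)), (.ofNat (nat_lit 8632786277423437317105)), (.ofNat (nat_lit 0))⟩,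
    ⟨nat_lit 0, nat_lit 17, nat_lit 12, (.ofNat (nat_lit 8)), (.negSucc (nat_lit 1333224383)), (.ofNat (nat_lit 12061620144646640864761411940160)), (.negSucc (nat_lit 262143)), (.ofNat (nat_lit 2263033125908889552055173120)), (.negSucc (nat_lit 1333224399)), (.negSucc (nat_lit 1333224367)), (.negSucc (nat_lit 8632786277423437317104)), (.ofNat (nat_lit 8632788752105719482595)), (.negSucc (nat_lit 8632786277423437317104)), (.ofNat (nat_lit 8632788752105719482595)), (.ofNat (nat_lit 0))⟩,
    ⟨nat_lit 1, nat_lit 12, nat_lit 13, (.ofNat (nat_lit 8)), (.ofNat (nat_lit 2685655168)), (.ofNat (nat_lit 46755758337219913835610477337600)), (.ofNat (nat_lit 447212032)), (.ofNat (nat_lit 3865213066556483979913399139840)), (.ofNat (nat_lit 2685655152)), (.ofNat (nat_lit 2685655184)), (.ofNat (nat_lit 8632788752105719482595)), (.negSucc (nat_lit 8632784777060032178398)), (.negSucc (nat_lit 8632784777060032178398)), (.ofNat (nat_lit 8632788752105719482595)), (.ofNat (nat_lit 0))⟩,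
    ⟨nat_lit 2, nat_lit 13, nat_lit 14, (.ofNat (nat_lit 8)), (.negSucc (nat_lit 3943038911)), (.ofNat (nat_lit 103979847682831868941173432515520)), (.ofNat (nat_lit 445639232)), (.ofNat (nat_lit 3878790710453843998523585087040)), (.negSucc (nat_lit 3943038927)), (.negSucc (nat_lit 3943038895)), (.negSucc (nat_lit 8632784777060032178398)), (.ofNat (nat_lit 8632786277423437317105)), (.negSucc (nat_lit 8632784777060032178398)), (.ofNat (nat_lit 8632786277423437317105)), (.ofNat (nat_lit 0))⟩,
    ⟨nat_lit 0, nat_lit 14, nat_lit 15, (.ofNat (nat_lit 8)), (.negSucc (nat_lit 946885375)), (.ofNat (nat_lit 129845000813466377628091931548800)), (.ofNat (nat_lit 778778112)), (.ofNat (nat_lit 6754707462194057192094149629440)), (.negSucc (nat_lit 946885391)), (.negSucc (nat_lit 946885359)), (.ofNat (nat_lit 8632786277423437317105)), (.negSucc (nat_lit 8632786277423437317104)), (.negSucc (nat_lit 8632786277423437317104)), (.ofNat (nat_lit 8632786277423437317105)), (.ofNat (nat_lit 0))⟩,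
    ⟨nat_lit 2, nat_lit 17, nat_lit 7, (.ofNat (nat_lit 8)), (.negSucc (nat_lit 5803065791)), (.ofNat (nat_lit 50648805713888096534449767624000)), (.negSucc (nat_lit 1310719)), (.ofNat (nat_lit 11315165629544447760275865600)), (.negSucc (nat_lit 5803065807)), (.negSucc (nat_lit 5803065775)), (.negSucc (nat_lit 8632786277423437317104)), (.ofNat (nat_lit 8632786277423437317105)), (.negSucc (nat_lit 8632786277423437317104)), (.ofNat (nat_lit 8632786277423437317105)), (.ofNat (nat_lit 0))⟩]
  es := [
    ⟨nat_lit 1, nat_lit 0, (.negSucc (nat_lit 7973470207)), (.negSucc (nat_lit 2926704383)), (.negSucc (nat_lit 7973470191)), (.negSucc (nat_lit 2926704399)), (.negSucc (nat_lit 8632786277423437317104)), (.ofNat (nat_lit 0)), (.ofNat (nat_lit 63364927525448907457544847360))⟩,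
    ⟨nat_lit 1, nat_lit 2, (.negSucc (nat_lit 7973470207)), (.ofNat (nat_lit 1275033472)), (.negSucc (nat_lit 7973470191)), (.ofNat (nat_lit 1275033456)), (.ofNat (nat_lit 8632786277423437317105)), (.ofNat (nat_lit 0)), (.ofNat (nat_lit 36208530014542232832882769920))⟩,
    ⟨nat_lit 2, nat_lit 3, (.ofNat (nat_lit 1275033472)), (.ofNat (nat_lit 4500183552)), (.ofNat (nat_lit 1275033488)), (.ofNat (nat_lit 4500183536)), (.negSucc (nat_lit 8632786277423437317104)), (.ofNat (nat_lit 0)), (.ofNat (nat_lit 17825780438183745287741384522880))⟩,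
    ⟨nat_lit 3, nat_lit 4, (.ofNat (nat_lit 4500183552)), (.ofNat (nat_lit 8460625728)), (.ofNat (nat_lit 4500183568)), (.ofNat (nat_lit 8460625712)), (.ofNat (nat_lit 8632786277423437317105)), (.ofNat (nat_lit 0)), (.ofNat (nat_lit 18104265007271116416441384960))⟩,
    ⟨nat_lit 5, nat_lit 4, (.ofNat (nat_lit 5192990912)), (.ofNat (nat_lit 8460625728)), (.ofNat (nat_lit 5192990928)), (.ofNat (nat_lit 8460625712)), (.negSucc (nat_lit 8632786277423437317104)), (.ofNat (nat_lit 0)), (.ofNat (nat_lit 25435549773079004364520115076480))⟩,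
    ⟨nat_lit 6, nat_lit 5, (.negSucc (nat_lit 7926684927)), (.ofNat (nat_lit 5192990912)), (.negSucc (nat_lit 7926684911)), (.ofNat (nat_lit 5192990896)), (.ofNat (nat_lit 8632786277423437317105)), (.ofNat (nat_lit 0)), (.ofNat (nat_lit 40734596266360011936993116160))⟩,
    ⟨nat_lit 6, nat_lit 12, (.negSucc (nat_lit 7926684927)), (.negSucc (nat_lit 6733078783)), (.negSucc (nat_lit 7926684911)), (.negSucc (nat_lit 6733078799)), (.negSucc (nat_lit 8632786277423437317104)), (.ofNat (nat_lit 0)), (.ofNat (nat_lit 238642810108967358344091588480))⟩,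
    ⟨nat_lit 17, nat_lit 7, (.negSucc (nat_lit 5803065791)), (.ofNat (nat_lit 5720720448)), (.negSucc (nat_lit 5803065775)), (.ofNat (nat_lit 5720720432)), (.ofNat (nat_lit 8632786277423437317105)), (.ofNat (nat_lit 0)), (.ofNat (nat_lit 22630331259088895520551731200))⟩,
    ⟨nat_lit 7, nat_lit 8, (.ofNat (nat_lit 5720720448)), (.ofNat (nat_lit 11537155520)), (.ofNat (nat_lit 5720720464)), (.ofNat (nat_lit 11537155504)), (.negSucc (nat_lit 8632786277423437317104)), (.ofNat (nat_lit 0)), (.ofNat (nat_lit 22135356852601649522638304267520))⟩,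
    ⟨nat_lit 8, nat_lit 9, (.ofNat (nat_lit 11537155520)), (.ofNat (nat_lit 13215605888)), (.ofNat (nat_lit 11537155536)), (.ofNat (nat_lit 13215605872)), (.ofNat (nat_lit 8632786277423437317105)), (.ofNat (nat_lit 0)), (.ofNat (nat_lit 0))⟩,
    ⟨nat_lit 10, nat_lit 9, (.ofNat (nat_lit 10244599232)), (.ofNat (nat_lit 13215605888)), (.ofNat (nat_lit 10244599248)), (.ofNat (nat_lit 13215605872)), (.negSucc (nat_lit 8632786277423437317104)), (.ofNat (nat_lit 0)), (.ofNat (nat_lit 25359313844649948647735256432000))⟩,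
    ⟨nat_lit 12, nat_lit 11, (.negSucc (nat_lit 6733078783)), (.ofNat (nat_lit 161751296)), (.negSucc (nat_lit 6733078767)), (.ofNat (nat_lit 161751280)), (.ofNat (nat_lit 8632786277423437317105)), (.ofNat (nat_lit 0)), (.ofNat (nat_lit 27156397510906674624662077440))⟩,
    ⟨nat_lit 13, nat_lit 14, (.negSucc (nat_lit 1333224383)), (.ofNat (nat_lit 2685655168)), (.negSucc (nat_lit 1333224367)), (.ofNat (nat_lit 2685655152)), (.ofNat (nat_lit 8632788752105719482595)), (.ofNat (nat_lit 0)), (.ofNat (nat_lit 4526066900540891280100556800))⟩,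
    ⟨nat_lit 15, nat_lit 14, (.negSucc (nat_lit 3943038911)), (.ofNat (nat_lit 2685655168)), (.negSucc (nat_lit 3943038895)), (.ofNat (nat_lit 2685655152)), (.negSucc (nat_lit 8632784777060032178398)), (.ofNat (nat_lit 0)), (.ofNat (nat_lit 7725898288524167956400602436608))⟩,
    ⟨nat_lit 15, nat_lit 16, (.negSucc (nat_lit 3943038911)), (.negSucc (nat_lit 946885375)), (.negSucc (nat_lit 3943038895)), (.negSucc (nat_lit 946885391)), (.ofNat (nat_lit 8632786277423437317105)), (.ofNat (nat_lit 0)), (.ofNat (nat_lit 31682463762724453728772423680))⟩,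
    ⟨nat_lit 16, nat_lit 11, (.negSucc (nat_lit 946885375)), (.ofNat (nat_lit 161751296)), (.negSucc (nat_lit 946885359)), (.ofNat (nat_lit 161751280)), (.negSucc (nat_lit 8632786277423437317104)), (.ofNat (nat_lit 0)), (.ofNat (nat_lit 13477732460625389930459526835200))⟩,
    ⟨nat_lit 0, nat_lit 10, (.negSucc (nat_lit 2926704383)), (.ofNat (nat_lit 10244599232)), (.negSucc (nat_lit 2926704367)), (.ofNat (nat_lit 10244599216)), (.ofNat (nat_lit 8632786277423437317105)), (.ofNat (nat_lit 0)), (.ofNat (nat_lit 13578198755453337312331038720))⟩,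
    ⟨nat_lit 17, nat_lit 13, (.negSucc (nat_lit 5803065791)), (.negSucc (nat_lit 1333224383)), (.negSucc (nat_lit 5803065775)), (.negSucc (nat_lit 1333224399)), (.negSucc (nat_lit 8632786277423437317104)), (.ofNat (nat_lit 0)), (.ofNat (nat_lit 0))⟩]

theorem ok118 : stOK 17 17 S118 = true := by decide +kernel

def S119 : SD where
  vs := [
    ⟨nat_lit 0, nat_lit 0, nat_lit 16, (.ofNat (nat_lit 8)), (.negSucc (nat_lit 2926704383)), (.ofNat (nat_lit 26763616180955303909090616541184)), (.ofNat (nat_lit 0)), (.ofNat (nat_lit 411747941245466213983708344704)), (.negSucc (nat_lit 2926704399)), (.negSucc (nat_lit 2926704367)), (.negSucc (nat_lit 8767673563008178525183)), (.ofNat (nat_lit 8767673563008178525184)), (.negSucc (nat_lit 8767673563008178525183)), (.ofNat (nat_lit 8767673563008178525184)), (.ofNat (nat_lit 809323713508447248474))⟩,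
    ⟨nat_lit 2, nat_lit 0, nat_lit 1, (.ofNat (nat_lit 8)), (.negSucc (nat_lit 7973470207)), (.ofNat (nat_lit 71012011474733289922479951052800)), (.ofNat (nat_lit 0)), (.ofNat (nat_lit 1092492484226665998801278236800)), (.negSucc (nat_lit 7973470223)), (.negSucc (nat_lit 7973470191)), (.negSucc (nat_lit 8767673563008178525183)), (.ofNat (nat_lit 8767673563008178525184)), (.negSucc (nat_lit 8767673563008178525183)), (.ofNat (nat_lit 8767673563008178525184)), (.ofNat (nat_lit 809323713508447248474))⟩,
    ⟨nat_lit 0, nat_lit 1, nat_lit 2, (.ofNat (nat_lit 8)), (.ofNat (nat_lit 1275033472)), (.ofNat (nat_lit 152099872687253140882741147729920)), (.ofNat (nat_lit 0)), (.ofNat (nat_lit 2339998041342356013567555467520)), (.ofNat (nat_lit 1275033456)), (.ofNat (nat_lit 1275033488)), (.ofNat (nat_lit 8767673563008178525184)), (.negSucc (nat_lit 8767673563008178525183)), (.negSucc (nat_lit 8767673563008178525183)), (.ofNat (nat_lit 8767673563008178525184)), (.ofNat (nat_lit 809323713508447248474))⟩,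
    ⟨nat_lit 0, nat_lit 2, nat_lit 3, (.ofNat (nat_lit 8)), (.ofNat (nat_lit 4500183552)), (.ofNat (nat_lit 123822809594103428871589688115200)), (.ofNat (nat_lit 0)), (.ofNat (nat_lit 1904966301447745059552271971200)), (.ofNat (nat_lit 4500183536)), (.ofNat (nat_lit 4500183568)), (.negSucc (nat_lit 8767673563008178525183)), (.ofNat (nat_lit 8767673563008178525184)), (.negSucc (nat_lit 8767673563008178525183)), (.ofNat (nat_lit 8767673563008178525184)), (.ofNat (nat_lit 809323713508447248474))⟩,
    ⟨nat_lit 1, nat_lit 3, nat_lit 4, (.ofNat (nat_lit 8)), (.ofNat (nat_lit 8460625728)), (.ofNat (nat_lit 158546673758441212535665879875584)), (.ofNat (nat_lit 0)), (.ofNat (nat_lit 2439179596283710962073535511104)), (.ofNat (nat_lit 8460625712)), (.ofNat (nat_lit 8460625744)), (.ofNat (nat_lit 8767673563008178525184)), (.negSucc (nat_lit 8767673563008178525183)), (.negSucc (nat_lit 8767673563008178525183)), (.ofNat (nat_lit 8767673563008178525184)), (.ofNat (nat_lit 809323713508447248474))⟩,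
    ⟨nat_lit 0, nat_lit 5, nat_lit 4, (.ofNat (nat_lit 8)), (.ofNat (nat_lit 5192990912)), (.ofNat (nat_lit 187196229148249506377300651081728)), (.ofNat (nat_lit 0)), (.ofNat (nat_lit 2879941986896146251942376389568)), (.ofNat (nat_lit 5192990896)), (.ofNat (nat_lit 5192990928)), (.ofNat (nat_lit 8767673563008178525184)), (.negSucc (nat_lit 8767673563008178525183)), (.negSucc (nat_lit 8767673563008178525183)), (.ofNat (nat_lit 8767673563008178525184)), (.ofNat (nat_lit 809323713508447248474))⟩,
    ⟨nat_lit 2, nat_lit 6, nat_lit 5, (.ofNat (nat_lit 8)), (.negSucc (nat_lit 7926684927)), (.ofNat (nat_lit 72167194130644388858037294727168)), (.ofNat (nat_lit 0)), (.ofNat (nat_lit 1110264525086836751655907278208)), (.negSucc (nat_lit 7926684943)), (.negSucc (nat_lit 7926684911)), (.negSucc (nat_lit 8767673563008178525183)), (.ofNat (nat_lit 8767673563008178525184)), (.negSucc (nat_lit 8767673563008178525183)), (.ofNat (nat_lit 8767673563008178525184)), (.ofNat (nat_lit 809323713508447248474))⟩,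
    ⟨nat_lit 0, nat_lit 7, nat_lit 8, (.ofNat (nat_lit 8)), (.ofNat (nat_lit 5720720448)), (.ofNat (nat_lit 152476989265373018738774925967360)), (.ofNat (nat_lit 0)), (.ofNat (nat_lit 2345799834851892595968042708160)), (.ofNat (nat_lit 5720720432)), (.ofNat (nat_lit 5720720464)), (.ofNat (nat_lit 8767673563008178525184)), (.negSucc (nat_lit 8767673563008178525183)), (.negSucc (nat_lit 8767673563008178525183)), (.ofNat (nat_lit 8767673563008178525184)), (.ofNat (nat_lit 809323713508447248474))⟩,
    ⟨nat_lit 0, nat_lit 8, nat_lit 9, (.ofNat (nat_lit 8)), (.ofNat (nat_lit 11537155520)), (.ofNat (nat_lit 101480385253645047342057473114112)), (.ofNat (nat_lit 0)), (.ofNat (nat_lit 1561236696209923805253697361472)), (.ofNat (nat_lit 11537155504)), (.ofNat (nat_lit 11537155536)), (.negSucc (nat_lit 8767673563008178525183)), (.ofNat (nat_lit 8767673563008178525184)), (.negSucc (nat_lit 8767673563008178525183)), (.ofNat (nat_lit 8767673563008178525184)), (.ofNat (nat_lit 809323713508447248474))⟩,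
    ⟨nat_lit 1, nat_lit 9, nat_lit 10, (.ofNat (nat_lit 8)), (.ofNat (nat_lit 13215605888)), (.ofNat (nat_lit 116196490171979995774662255181824)), (.ofNat (nat_lit 0)), (.ofNat (nat_lit 1787638310338153781138659484544)), (.ofNat (nat_lit 13215605872)), (.ofNat (nat_lit 13215605904)), (.ofNat (nat_lit 8767673563008178525184)), (.negSucc (nat_lit 8767673563008178525183)), (.negSucc (nat_lit 8767673563008178525183)), (.ofNat (nat_lit 8767673563008178525184)), (.ofNat (nat_lit 809323713508447248474))⟩,
    ⟨nat_lit 0, nat_lit 16, nat_lit 10, (.ofNat (nat_lit 8)), (.ofNat (nat_lit 10244599232)), (.ofNat (nat_lit 142245306685312529555420182806528)), (.ofNat (nat_lit 0)), (.ofNat (nat_lit 2188389333620192762378849458368)), (.ofNat (nat_lit 10244599216)), (.ofNat (nat_lit 10244599248)), (.ofNat (nat_lit 8767673563008178525184)), (.negSucc (nat_lit 8767673563008178525183)), (.negSucc (nat_lit 8767673563008178525183)), (.ofNat (nat_lit 8767673563008178525184)), (.ofNat (nat_lit 809323713508447248474))⟩,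
    ⟨nat_lit 1, nat_lit 11, nat_lit 15, (.ofNat (nat_lit 8)), (.ofNat (nat_lit 161751296)), (.ofNat (nat_lit 122153664511101020429577494331392)), (.ofNat (nat_lit 0)), (.ofNat (nat_lit 1879287146324631083521458657152)), (.ofNat (nat_lit 161751280)), (.ofNat (nat_lit 161751312)), (.ofNat (nat_lit 8767673563008178525184)), (.negSucc (nat_lit 8767673563008178525183)), (.negSucc (nat_lit 8767673563008178525183)), (.ofNat (nat_lit 8767673563008178525184)), (.ofNat (nat_lit 809323713508447248474))⟩,
    ⟨nat_lit 0, nat_lit 6, nat_lit 11, (.ofNat (nat_lit 8)), (.negSucc (nat_lit 6733078783)), (.ofNat (nat_lit 61702045097251455848128813596672)), (.ofNat (nat_lit 0)), (.ofNat (nat_lit 949262232265407013042830440832)), (.negSucc (nat_lit 6733078799)), (.negSucc (nat_lit 6733078767)), (.negSucc (nat_lit 8767673563008178525183)), (.ofNat (nat_lit 8767673563008178525184)), (.negSucc (nat_lit 8767673563008178525183)), (.ofNat (nat_lit 8767673563008178525184)), (.ofNat (nat_lit 809323713508447248474))⟩,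
    ⟨nat_lit 0, nat_lit 17, nat_lit 12, (.ofNat (nat_lit 8)), (.negSucc (nat_lit 1333224383)), (.ofNat (nat_lit 12250082959406744628272239280128)), (.ofNat (nat_lit 0)), (.ofNat (nat_lit 188462814760103763510827339968)), (.negSucc (nat_lit 1333224399)), (.negSucc (nat_lit 1333224367)), (.negSucc (nat_lit 8767673563008178525183)), (.ofNat (nat_lit 8767673563008178525184)), (.negSucc (nat_lit 8767673563008178525183)), (.ofNat (nat_lit 8767673563008178525184)), (.ofNat (nat_lit 809318764143882917494))⟩,
    ⟨nat_lit 1, nat_lit 12, nat_lit 13, (.ofNat (nat_lit 8)), (.ofNat (nat_lit 2685655168)), (.ofNat (nat_lit 47486306960391296911899733917696)), (.ofNat (nat_lit 0)), (.ofNat (nat_lit 730548623171383076289256580096)), (.ofNat (nat_lit 2685655152)), (.ofNat (nat_lit 2685655184)), (.ofNat (nat_lit 8767673563008178525184)), (.negSucc (nat_lit 8767673563008178525183)), (.negSucc (nat_lit 8767673563008178525183)), (.ofNat (nat_lit 8767673563008178525184)), (.ofNat (nat_lit 809316815506128863926))⟩,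
    ⟨nat_lit 2, nat_lit 13, nat_lit 14, (.ofNat (nat_lit 8)), (.negSucc (nat_lit 3943038911)), (.ofNat (nat_lit 105604532802876116893370045628416)), (.ofNat (nat_lit 0)), (.ofNat (nat_lit 1624685120044247952196613112896)), (.negSucc (nat_lit 3943038927)), (.negSucc (nat_lit 3943038895)), (.negSucc (nat_lit 8767673563008178525183)), (.ofNat (nat_lit 8767673563008178525184)), (.negSucc (nat_lit 8767673563008178525183)), (.ofNat (nat_lit 8767673563008178525184)), (.ofNat (nat_lit 809329714962067803298))⟩,
    ⟨nat_lit 0, nat_lit 14, nat_lit 15, (.ofNat (nat_lit 8)), (.negSucc (nat_lit 946885375)), (.ofNat (nat_lit 131873828951176789778519352279040)), (.ofNat (nat_lit 0)), (.ofNat (nat_lit 2028828137710412150427420730240)), (.negSucc (nat_lit 946885391)), (.negSucc (nat_lit 946885359)), (.ofNat (nat_lit 8767673563008178525184)), (.negSucc (nat_lit 8767673563008178525183)), (.negSucc (nat_lit 8767673563008178525183)), (.ofNat (nat_lit 8767673563008178525184)), (.ofNat (nat_lit 809323713508447248474))⟩,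
    ⟨nat_lit 2, nat_lit 17, nat_lit 7, (.ofNat (nat_lit 8)), (.negSucc (nat_lit 5803065791)), (.ofNat (nat_lit 51440193303167598042796053299200)), (.ofNat (nat_lit 0)), (.ofNat (nat_lit 791387589279501508346285675200)), (.negSucc (nat_lit 5803065807)), (.negSucc (nat_lit 5803065775)), (.negSucc (nat_lit 8767673563008178525183)), (.ofNat (nat_lit 8767673563008178525184)), (.negSucc (nat_lit 8767673563008178525183)), (.ofNat (nat_lit 8767673563008178525184)), (.ofNat (nat_lit 809323713508447248474))⟩]
  es := [
    ⟨nat_lit 1, nat_lit 0, (.negSucc (nat_lit 7973470207)), (.negSucc (nat_lit 2926704383)), (.negSucc (nat_lit 7973470191)), (.negSucc (nat_lit 2926704399)), (.negSucc (nat_lit 8767673563008178525183)), (.negSucc (nat_lit 134887285584741208078)), (.ofNat (nat_lit 16972731178744116793442826368))⟩,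
    ⟨nat_lit 1, nat_lit 2, (.negSucc (nat_lit 7973470207)), (.ofNat (nat_lit 1275033472)), (.negSucc (nat_lit 7973470191)), (.ofNat (nat_lit 1275033456)), (.ofNat (nat_lit 8767673563008178525184)), (.ofNat (nat_lit 134887285584741208079)), (.ofNat (nat_lit 2168012237274587880809113647232))⟩,
    ⟨nat_lit 2, nat_lit 3, (.ofNat (nat_lit 1275033472)), (.ofNat (nat_lit 4500183552)), (.ofNat (nat_lit 1275033488)), (.ofNat (nat_lit 4500183536)), (.negSucc (nat_lit 8767673563008178525183)), (.negSucc (nat_lit 134887285584741208078)), (.ofNat (nat_lit 2511983845410124146325997287808))⟩,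
    ⟨nat_lit 3, nat_lit 4, (.ofNat (nat_lit 4500183552)), (.ofNat (nat_lit 8460625728)), (.ofNat (nat_lit 4500183568)), (.ofNat (nat_lit 8460625712)), (.ofNat (nat_lit 8767673563008178525184)), (.ofNat (nat_lit 134887285584741208079)), (.ofNat (nat_lit 1297948757485365972778546654592))⟩,
    ⟨nat_lit 5, nat_lit 4, (.ofNat (nat_lit 5192990912)), (.ofNat (nat_lit 8460625728)), (.ofNat (nat_lit 5192990928)), (.ofNat (nat_lit 8460625712)), (.negSucc (nat_lit 8767673563008178525183)), (.negSucc (nat_lit 134887285584741208078)), (.ofNat (nat_lit 3580410435082055951368524367616))⟩,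
    ⟨nat_lit 6, nat_lit 5, (.negSucc (nat_lit 7926684927)), (.ofNat (nat_lit 5192990912)), (.negSucc (nat_lit 7926684911)), (.ofNat (nat_lit 5192990896)), (.ofNat (nat_lit 8767673563008178525184)), (.ofNat (nat_lit 134887285584741208079)), (.ofNat (nat_lit 2179473538710236552516228411520))⟩,
    ⟨nat_lit 6, nat_lit 12, (.negSucc (nat_lit 7926684927)), (.negSucc (nat_lit 6733078783)), (.negSucc (nat_lit 7926684911)), (.negSucc (nat_lit 6733078799)), (.negSucc (nat_lit 8767673563008178525183)), (.negSucc (nat_lit 134887285584741208078)), (.ofNat (nat_lit 41055511463436950795586144896))⟩,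
    ⟨nat_lit 17, nat_lit 7, (.negSucc (nat_lit 5803065791)), (.ofNat (nat_lit 5720720448)), (.negSucc (nat_lit 5803065775)), (.ofNat (nat_lit 5720720432)), (.ofNat (nat_lit 8767673563008178525184)), (.ofNat (nat_lit 134887285584741208079)), (.ofNat (nat_lit 1574147382032047930122284608768))⟩,
    ⟨nat_lit 7, nat_lit 8, (.ofNat (nat_lit 5720720448)), (.ofNat (nat_lit 11537155520)), (.ofNat (nat_lit 5720720464)), (.ofNat (nat_lit 11537155504)), (.negSucc (nat_lit 8767673563008178525183)), (.negSucc (nat_lit 134887285584741208078)), (.ofNat (nat_lit 3117452287671737261813800807552))⟩,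
    ⟨nat_lit 8, nat_lit 9, (.ofNat (nat_lit 11537155520)), (.ofNat (nat_lit 13215605888)), (.ofNat (nat_lit 11537155536)), (.ofNat (nat_lit 13215605872)), (.ofNat (nat_lit 8767673563008178525184)), (.ofNat (nat_lit 134887285584741208079)), (.ofNat (nat_lit 5021104748110348693593915392))⟩,
    ⟨nat_lit 10, nat_lit 9, (.ofNat (nat_lit 10244599232)), (.ofNat (nat_lit 13215605888)), (.ofNat (nat_lit 10244599248)), (.ofNat (nat_lit 13215605872)), (.negSucc (nat_lit 8767673563008178525183)), (.negSucc (nat_lit 134887285584741208078)), (.ofNat (nat_lit 3570255515928197213583725053696))⟩,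
    ⟨nat_lit 12, nat_lit 11, (.negSucc (nat_lit 6733078783)), (.ofNat (nat_lit 161751296)), (.negSucc (nat_lit 6733078767)), (.ofNat (nat_lit 161751280)), (.ofNat (nat_lit 8767673563008178525184)), (.ofNat (nat_lit 134887285584741208079)), (.ofNat (nat_lit 1857468953067377075290074736768))⟩,
    ⟨nat_lit 13, nat_lit 14, (.negSucc (nat_lit 1333224383)), (.ofNat (nat_lit 2685655168)), (.negSucc (nat_lit 1333224367)), (.ofNat (nat_lit 2685655152)), (.ofNat (nat_lit 8767673563008178525184)), (.ofNat (nat_lit 134884810902459042589)), (.ofNat (nat_lit 368294533686491204651776630144))⟩,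
    ⟨nat_lit 15, nat_lit 14, (.negSucc (nat_lit 3943038911)), (.ofNat (nat_lit 2685655168)), (.negSucc (nat_lit 3943038895)), (.ofNat (nat_lit 2685655152)), (.negSucc (nat_lit 8767673563008178525183)), (.negSucc (nat_lit 134888785948146346784)), (.ofNat (nat_lit 1092813388258268092552712014976))⟩,
    ⟨nat_lit 15, nat_lit 16, (.negSucc (nat_lit 3943038911)), (.negSucc (nat_lit 946885375)), (.negSucc (nat_lit 3943038895)), (.negSucc (nat_lit 946885391)), (.ofNat (nat_lit 8767673563008178525184)), (.ofNat (nat_lit 134887285584741208079)), (.ofNat (nat_lit 2156550935838939209101998882944))⟩,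
    ⟨nat_lit 16, nat_lit 11, (.negSucc (nat_lit 946885375)), (.ofNat (nat_lit 161751296)), (.negSucc (nat_lit 946885359)), (.ofNat (nat_lit 161751280)), (.negSucc (nat_lit 8767673563008178525183)), (.negSucc (nat_lit 134887285584741208078)), (.ofNat (nat_lit 1901105339581885091752842577536))⟩,
    ⟨nat_lit 0, nat_lit 10, (.negSucc (nat_lit 2926704383)), (.ofNat (nat_lit 10244599232)), (.negSucc (nat_lit 2926704367)), (.ofNat (nat_lit 10244599216)), (.ofNat (nat_lit 8767673563008178525184)), (.ofNat (nat_lit 134887285584741208079)), (.ofNat (nat_lit 806523151312188311173973863040))⟩,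
    ⟨nat_lit 17, nat_lit 13, (.negSucc (nat_lit 5803065791)), (.negSucc (nat_lit 1333224383)), (.negSucc (nat_lit 5803065775)), (.negSucc (nat_lit 1333224399)), (.negSucc (nat_lit 8767673563008178525183)), (.negSucc (nat_lit 134887285584741208078)), (.ofNat (nat_lit 8627796526955086570286741632))⟩]

theorem ok119 : stOK 17 17 S119 = true := by decide +kernel

def S120 : SD where
  vs := [
    ⟨nat_lit 0, nat_lit 0, nat_lit 16, (.ofNat (nat_lit 8)), (.negSucc (nat_lit 2926704383)), (.ofNat (nat_lit 27181797683782730532670157424640)), (.ofNat (nat_lit 0)), (.ofNat (nat_lit 418181502827426623579540883456)), (.negSucc (nat_lit 2926704399)), (.negSucc (nat_lit 2926704367)), (.negSucc (nat_lit 8904668462430065338774)), (.ofNat (nat_lit 8904668462430181314640)), (.negSucc (nat_lit 8904668462430065338774)), (.ofNat (nat_lit 8904668462430181314640)), (.ofNat (nat_lit 821969396531552833276))⟩,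
    ⟨nat_lit 2, nat_lit 0, nat_lit 1, (.ofNat (nat_lit 8)), (.negSucc (nat_lit 7973470207)), (.ofNat (nat_lit 72121574154025412274486809450240)), (.ofNat (nat_lit 0)), (.ofNat (nat_lit 1109562679292122352006858397440)), (.negSucc (nat_lit 7973470223)), (.negSucc (nat_lit 7973470191)), (.negSucc (nat_lit 8904668462430065338774)), (.ofNat (nat_lit 8904668462430198812274)), (.negSucc (nat_lit 8904668462430065338774)), (.ofNat (nat_lit 8904668462430198812274)), (.ofNat (nat_lit 821969396531587828544))⟩,
    ⟨nat_lit 0, nat_lit 1, nat_lit 2, (.ofNat (nat_lit 8)), (.ofNat (nat_lit 1275033472)), (.ofNat (nat_lit 154476433197991047732934527618560)), (.ofNat (nat_lit 0)), (.ofNat (nat_lit 2376560510737906850193379888640)), (.ofNat (nat_lit 1275033456)), (.ofNat (nat_lit 1275033488)), (.ofNat (nat_lit 8904668462430198812274)), (.negSucc (nat_lit 8904668462430050010331)), (.negSucc (nat_lit 8904668462430050010331)), (.ofNat (nat_lit 8904668462430198812274)), (.ofNat (nat_lit 821969396531824118656))⟩,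
    ⟨nat_lit 0, nat_lit 2, nat_lit 3, (.ofNat (nat_lit 8)), (.ofNat (nat_lit 4500183552)), (.ofNat (nat_lit 125757540994011294947708276992000)), (.ofNat (nat_lit 0)), (.ofNat (nat_lit 1934731399907866076118588876800)), (.ofNat (nat_lit 4500183536)), (.ofNat (nat_lit 4500183568)), (.negSucc (nat_lit 8904668462430050010331)), (.ofNat (nat_lit 8904668462430181314640)), (.negSucc (nat_lit 8904668462430050010331)), (.ofNat (nat_lit 8904668462430181314640)), (.ofNat (nat_lit 821969396531491519504))⟩,
    ⟨nat_lit 1, nat_lit 3, nat_lit 4, (.ofNat (nat_lit 8)), (.ofNat (nat_lit 8460625728)), (.ofNat (nat_lit 161023965535916856481535659248640)), (.ofNat (nat_lit 0)), (.ofNat (nat_lit 2477291777475643945869779373056)), (.ofNat (nat_lit 8460625712)), (.ofNat (nat_lit 8460625744)), (.ofNat (nat_lit 8904668462430181314640)), (.negSucc (nat_lit 8904668462430181314639)), (.negSucc (nat_lit 8904668462430181314639)), (.ofNat (nat_lit 8904668462430181314640)), (.ofNat (nat_lit 821969396532016736736))⟩,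
    ⟨nat_lit 0, nat_lit 5, nat_lit 4, (.ofNat (nat_lit 8)), (.ofNat (nat_lit 5192990912)), (.ofNat (nat_lit 190121170228690904914445973754880)), (.ofNat (nat_lit 0)), (.ofNat (nat_lit 2924941080441398537145322673152)), (.ofNat (nat_lit 5192990896)), (.ofNat (nat_lit 5192990928)), (.ofNat (nat_lit 8904668462430181314640)), (.negSucc (nat_lit 8904668462430181314639)), (.negSucc (nat_lit 8904668462430181314639)), (.ofNat (nat_lit 8904668462430181314640)), (.ofNat (nat_lit 821969396532016736736))⟩,
    ⟨nat_lit 2, nat_lit 6, nat_lit 5, (.ofNat (nat_lit 8)), (.negSucc (nat_lit 7926684927)), (.ofNat (nat_lit 73294806538935707433944127457280)), (.ofNat (nat_lit 0)), (.ofNat (nat_lit 1127612408291318575906832730112)), (.negSucc (nat_lit 7926684943)), (.negSucc (nat_lit 7926684911)), (.negSucc (nat_lit 8904668462430181314639)), (.ofNat (nat_lit 8904668462430181314640)), (.negSucc (nat_lit 8904668462430181314639)), (.ofNat (nat_lit 8904668462430181314640)), (.ofNat (nat_lit 821969396532016736736))⟩,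
    ⟨nat_lit 0, nat_lit 7, nat_lit 8, (.ofNat (nat_lit 8)), (.ofNat (nat_lit 5720720448)), (.ofNat (nat_lit 154859442222644472156568284185600)), (.ofNat (nat_lit 0)), (.ofNat (nat_lit 2382452957271453417793358218240)), (.ofNat (nat_lit 5720720432)), (.ofNat (nat_lit 5720720464)), (.ofNat (nat_lit 8904668462430181314640)), (.negSucc (nat_lit 8904668462430181314639)), (.negSucc (nat_lit 8904668462430181314639)), (.ofNat (nat_lit 8904668462430181314640)), (.ofNat (nat_lit 821969396532016736736))⟩,
    ⟨nat_lit 0, nat_lit 8, nat_lit 9, (.ofNat (nat_lit 8)), (.ofNat (nat_lit 11537155520)), (.ofNat (nat_lit 103066016273233251206777121131520)), (.ofNat (nat_lit 0)), (.ofNat (nat_lit 1585631019588203864719648017408)), (.ofNat (nat_lit 11537155504)), (.ofNat (nat_lit 11537155536)), (.negSucc (nat_lit 8904668462430181314639)), (.ofNat (nat_lit 8904668462430181314640)), (.negSucc (nat_lit 8904668462430181314639)), (.ofNat (nat_lit 8904668462430181314640)), (.ofNat (nat_lit 821969396532016736736))⟩,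
    ⟨nat_lit 1, nat_lit 9, nat_lit 10, (.ofNat (nat_lit 8)), (.ofNat (nat_lit 13215605888)), (.ofNat (nat_lit 118012060330917183208641352919040)), (.ofNat (nat_lit 0)), (.ofNat (nat_lit 1815570158937187433979097737216)), (.ofNat (nat_lit 13215605872)), (.ofNat (nat_lit 13215605904)), (.ofNat (nat_lit 8904668462430181314640)), (.negSucc (nat_lit 8904668462430181314639)), (.negSucc (nat_lit 8904668462430181314639)), (.ofNat (nat_lit 8904668462430181314640)), (.ofNat (nat_lit 821969396532016736736))⟩,
    ⟨nat_lit 0, nat_lit 16, nat_lit 10, (.ofNat (nat_lit 8)), (.ofNat (nat_lit 10244599232)), (.ofNat (nat_lit 144467889602270537829723623162880)), (.ofNat (nat_lit 0)), (.ofNat (nat_lit 2222582916958008274303440356352)), (.ofNat (nat_lit 10244599216)), (.ofNat (nat_lit 10244599248)), (.ofNat (nat_lit 8904668462430181314640)), (.negSucc (nat_lit 8904668462430181314639)), (.negSucc (nat_lit 8904668462430181314639)), (.ofNat (nat_lit 8904668462430181314640)), (.ofNat (nat_lit 821969396532016736736))⟩,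
    ⟨nat_lit 1, nat_lit 11, nat_lit 15, (.ofNat (nat_lit 8)), (.ofNat (nat_lit 161751296)), (.ofNat (nat_lit 124062315519086973873789642680320)), (.ofNat (nat_lit 0)), (.ofNat (nat_lit 1908651007985953444212148348928)), (.ofNat (nat_lit 161751280)), (.ofNat (nat_lit 161751312)), (.ofNat (nat_lit 8904668462430181314640)), (.negSucc (nat_lit 8904668462430181314639)), (.negSucc (nat_lit 8904668462430181314639)), (.ofNat (nat_lit 8904668462430181314640)), (.ofNat (nat_lit 821969396532016736736))⟩,
    ⟨nat_lit 0, nat_lit 6, nat_lit 11, (.ofNat (nat_lit 8)), (.negSucc (nat_lit 6733078783)), (.ofNat (nat_lit 62666139551896009845755826309120)), (.ofNat (nat_lit 0)), (.ofNat (nat_lit 964094454644553997627012712448)), (.negSucc (nat_lit 6733078799)), (.negSucc (nat_lit 6733078767)), (.negSucc (nat_lit 8904668462430181314639)), (.ofNat (nat_lit 8904668462430181314640)), (.negSucc (nat_lit 8904668462430181314639)), (.ofNat (nat_lit 8904668462430181314640)), (.ofNat (nat_lit 821969396532016736736))⟩,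
    ⟨nat_lit 0, nat_lit 17, nat_lit 12, (.ofNat (nat_lit 8)), (.negSucc (nat_lit 1333224383)), (.ofNat (nat_lit 12441490505647475013088993018880)), (.ofNat (nat_lit 0)), (.ofNat (nat_lit 191407546240730384816753738752)), (.negSucc (nat_lit 1333224399)), (.negSucc (nat_lit 1333224367)), (.negSucc (nat_lit 8904668462430181314639)), (.ofNat (nat_lit 8904668462430181314640)), (.negSucc (nat_lit 8904668462430181314639)), (.ofNat (nat_lit 8904668462430181314640)), (.ofNat (nat_lit 821969396532016736736))⟩,
    ⟨nat_lit 1, nat_lit 12, nat_lit 13, (.ofNat (nat_lit 8)), (.ofNat (nat_lit 2685655168)), (.ofNat (nat_lit 48228280506647410926148167260160)), (.ofNat (nat_lit 0)), (.ofNat (nat_lit 741973546256114014248433342464)), (.ofNat (nat_lit 2685655152)), (.ofNat (nat_lit 2685655184)), (.ofNat (nat_lit 8904668462430181314640)), (.negSucc (nat_lit 8904668462430181314639)), (.negSucc (nat_lit 8904668462430181314639)), (.ofNat (nat_lit 8904668462430181314640)), (.ofNat (nat_lit 821969396532016736736))⟩,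
    ⟨nat_lit 2, nat_lit 13, nat_lit 14, (.ofNat (nat_lit 8)), (.negSucc (nat_lit 3943038911)), (.ofNat (nat_lit 107254603627921056219828952591360)), (.ofNat (nat_lit 0)), (.ofNat (nat_lit 1650070825044939326458906962944)), (.negSucc (nat_lit 3943038927)), (.negSucc (nat_lit 3943038895)), (.negSucc (nat_lit 8904668462430181314639)), (.ofNat (nat_lit 8904668462430181314640)), (.negSucc (nat_lit 8904668462430181314639)), (.ofNat (nat_lit 8904668462430181314640)), (.ofNat (nat_lit 821969396532016736736))⟩,
    ⟨nat_lit 0, nat_lit 14, nat_lit 15, (.ofNat (nat_lit 8)), (.negSucc (nat_lit 946885375)), (.ofNat (nat_lit 133934357528538927118808717158400)), (.ofNat (nat_lit 0)), (.ofNat (nat_lit 2060528577362137340289364879360)), (.negSucc (nat_lit 946885391)), (.negSucc (nat_lit 946885359)), (.ofNat (nat_lit 8904668462430181314640)), (.negSucc (nat_lit 8904668462430181314639)), (.negSucc (nat_lit 8904668462430181314639)), (.ofNat (nat_lit 8904668462430181314640)), (.ofNat (nat_lit 821969396532016736736))⟩,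
    ⟨nat_lit 2, nat_lit 17, nat_lit 7, (.ofNat (nat_lit 8)), (.negSucc (nat_lit 5803065791)), (.ofNat (nat_lit 52243946323529591762214741632000)), (.ofNat (nat_lit 0)), (.ofNat (nat_lit 803753020361993719418688332800)), (.negSucc (nat_lit 5803065807)), (.negSucc (nat_lit 5803065775)), (.negSucc (nat_lit 8904668462430181314639)), (.ofNat (nat_lit 8904668462430181314640)), (.negSucc (nat_lit 8904668462430181314639)), (.ofNat (nat_lit 8904668462430181314640)), (.ofNat (nat_lit 821969396532016736736))⟩]
  es := [
    ⟨nat_lit 1, nat_lit 0, (.negSucc (nat_lit 7973470207)), (.negSucc (nat_lit 2926704383)), (.negSucc (nat_lit 7973470191)), (.negSucc (nat_lit 2926704399)), (.negSucc (nat_lit 8904668462430065338774)), (.negSucc (nat_lit 136994899421886813590)), (.ofNat (nat_lit 17237930103751420690970400512))⟩,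
    ⟨nat_lit 1, nat_lit 2, (.negSucc (nat_lit 7973470207)), (.ofNat (nat_lit 1275033472)), (.negSucc (nat_lit 7973470191)), (.ofNat (nat_lit 1275033456)), (.ofNat (nat_lit 8904668462430198812274)), (.ofNat (nat_lit 136994899422020287090)), (.ofNat (nat_lit 2201887428481557530290580412160))⟩,
    ⟨nat_lit 2, nat_lit 3, (.ofNat (nat_lit 1275033472)), (.ofNat (nat_lit 4500183552)), (.ofNat (nat_lit 1275033488)), (.ofNat (nat_lit 4500183536)), (.negSucc (nat_lit 8904668462430050010331)), (.negSucc (nat_lit 136994899421871485147)), (.ofNat (nat_lit 2551233592994066442639430762496))⟩,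
    ⟨nat_lit 3, nat_lit 4, (.ofNat (nat_lit 4500183552)), (.ofNat (nat_lit 8460625728)), (.ofNat (nat_lit 4500183568)), (.ofNat (nat_lit 8460625712)), (.ofNat (nat_lit 8904668462430181314640)), (.ofNat (nat_lit 136994899422002789456)), (.ofNat (nat_lit 1318229206821074816110578649088))⟩,
    ⟨nat_lit 5, nat_lit 4, (.ofNat (nat_lit 5192990912)), (.ofNat (nat_lit 8460625728)), (.ofNat (nat_lit 5192990928)), (.ofNat (nat_lit 8460625712)), (.negSucc (nat_lit 8904668462430181314639)), (.negSucc (nat_lit 136994899422002789455)), (.ofNat (nat_lit 3636354348130213075628980097024))⟩,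
    ⟨nat_lit 6, nat_lit 5, (.negSucc (nat_lit 7926684927)), (.ofNat (nat_lit 5192990912)), (.negSucc (nat_lit 7926684911)), (.ofNat (nat_lit 5192990896)), (.ofNat (nat_lit 8904668462430181314640)), (.ofNat (nat_lit 136994899422002789456)), (.ofNat (nat_lit 2213527812752583998661665249280))⟩,
    ⟨nat_lit 6, nat_lit 12, (.negSucc (nat_lit 7926684927)), (.negSucc (nat_lit 6733078783)), (.negSucc (nat_lit 7926684911)), (.negSucc (nat_lit 6733078799)), (.negSucc (nat_lit 8904668462430181314639)), (.negSucc (nat_lit 136994899422002789455)), (.ofNat (nat_lit 41697003830053153152000210944))⟩,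
    ⟨nat_lit 17, nat_lit 7, (.negSucc (nat_lit 5803065791)), (.ofNat (nat_lit 5720720448)), (.negSucc (nat_lit 5803065775)), (.ofNat (nat_lit 5720720432)), (.ofNat (nat_lit 8904668462430181314640)), (.ofNat (nat_lit 136994899422002789456)), (.ofNat (nat_lit 1598743434876298679039380221952))⟩,
    ⟨nat_lit 7, nat_lit 8, (.ofNat (nat_lit 5720720448)), (.ofNat (nat_lit 11537155520)), (.ofNat (nat_lit 5720720464)), (.ofNat (nat_lit 11537155504)), (.negSucc (nat_lit 8904668462430181314639)), (.negSucc (nat_lit 136994899422002789455)), (.ofNat (nat_lit 3166162479666608156547336214528))⟩,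
    ⟨nat_lit 8, nat_lit 9, (.ofNat (nat_lit 11537155520)), (.ofNat (nat_lit 13215605888)), (.ofNat (nat_lit 11537155536)), (.ofNat (nat_lit 13215605872)), (.ofNat (nat_lit 8904668462430181314640)), (.ofNat (nat_lit 136994899422002789456)), (.ofNat (nat_lit 5099559509799572891959820288))⟩,
    ⟨nat_lit 10, nat_lit 9, (.ofNat (nat_lit 10244599232)), (.ofNat (nat_lit 13215605888)), (.ofNat (nat_lit 10244599248)), (.ofNat (nat_lit 13215605872)), (.negSucc (nat_lit 8904668462430181314639)), (.negSucc (nat_lit 136994899422002789455)), (.ofNat (nat_lit 3626040758364575295066235654144))⟩,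
    ⟨nat_lit 12, nat_lit 11, (.negSucc (nat_lit 6733078783)), (.ofNat (nat_lit 161751296)), (.negSucc (nat_lit 6733078767)), (.ofNat (nat_lit 161751280)), (.ofNat (nat_lit 8904668462430181314640)), (.ofNat (nat_lit 136994899422002789456)), (.ofNat (nat_lit 1886491905459054842102025213952))⟩,
    ⟨nat_lit 13, nat_lit 14, (.negSucc (nat_lit 1333224383)), (.ofNat (nat_lit 2685655168)), (.negSucc (nat_lit 1333224367)), (.ofNat (nat_lit 2685655152)), (.ofNat (nat_lit 8904668462430181314640)), (.ofNat (nat_lit 136994899422002789456)), (.ofNat (nat_lit 374052486633772009835511033856))⟩,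
    ⟨nat_lit 15, nat_lit 14, (.negSucc (nat_lit 3943038911)), (.ofNat (nat_lit 2685655168)), (.negSucc (nat_lit 3943038895)), (.ofNat (nat_lit 2685655152)), (.negSucc (nat_lit 8904668462430181314639)), (.negSucc (nat_lit 136994899422002789455)), (.ofNat (nat_lit 1109894605878456018661355651072))⟩,
    ⟨nat_lit 15, nat_lit 16, (.negSucc (nat_lit 3943038911)), (.negSucc (nat_lit 946885375)), (.negSucc (nat_lit 3943038895)), (.negSucc (nat_lit 946885391)), (.ofNat (nat_lit 8904668462430181314640)), (.ofNat (nat_lit 136994899422002789456)), (.ofNat (nat_lit 2190247044211422634256458274816))⟩,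
    ⟨nat_lit 16, nat_lit 11, (.negSucc (nat_lit 946885375)), (.ofNat (nat_lit 161751296)), (.negSucc (nat_lit 946885359)), (.ofNat (nat_lit 161751280)), (.negSucc (nat_lit 8904668462430181314639)), (.negSucc (nat_lit 136994899422002789455)), (.ofNat (nat_lit 1930810110512852046322271483904))⟩,
    ⟨nat_lit 0, nat_lit 10, (.negSucc (nat_lit 2926704383)), (.ofNat (nat_lit 10244599232)), (.negSucc (nat_lit 2926704367)), (.ofNat (nat_lit 10244599216)), (.ofNat (nat_lit 8904668462430181314640)), (.ofNat (nat_lit 136994899422002789456)), (.ofNat (nat_lit 819125075551441253540645058560))⟩,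
    ⟨nat_lit 17, nat_lit 13, (.negSucc (nat_lit 5803065791)), (.negSucc (nat_lit 1333224383)), (.negSucc (nat_lit 5803065775)), (.negSucc (nat_lit 1333224399)), (.negSucc (nat_lit 8904668462430181314639)), (.negSucc (nat_lit 136994899422002789455)), (.ofNat (nat_lit 8762605847688759797996443648))⟩]

theorem ok120 : stOK 17 17 S120 = true := by decide +kernel

def S121 : SD where
  vs := [
    ⟨nat_lit 0, nat_lit 0, nat_lit 16, (.ofNat (nat_lit 8)), (.negSucc (nat_lit 2926966527)), (.ofNat (nat_lit 27188800600010976425021792389120)), (.negSucc (nat_lit 262143)), (.ofNat (nat_lit 7002916228245892351634964480)), (.negSucc (nat_lit 2926966543)), (.negSucc (nat_lit 2926966511)), (.negSucc (nat_lit 8904668462430065338774)), (.ofNat (nat_lit 8904668462430181314640)), (.negSucc (nat_lit 8904668462430065338774)), (.ofNat (nat_lit 8904668462430181314640)), (.ofNat (nat_lit 0))⟩,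
    ⟨nat_lit 2, nat_lit 0, nat_lit 1, (.ofNat (nat_lit 8)), (.negSucc (nat_lit 7974780927)), (.ofNat (nat_lit 72137914291891319235031115749120)), (.negSucc (nat_lit 1310719)), (.ofNat (nat_lit 16340137865906960544306298880)), (.negSucc (nat_lit 7974780943)), (.negSucc (nat_lit 7974780911)), (.negSucc (nat_lit 8904668462430065338774)), (.ofNat (nat_lit 8904668462430198812274)), (.negSucc (nat_lit 8904668462430065338774)), (.ofNat (nat_lit 8904668462430198812274)), (.ofNat (nat_lit 0))⟩,
    ⟨nat_lit 0, nat_lit 1, nat_lit 2, (.ofNat (nat_lit 8)), (.ofNat (nat_lit 1274771328)), (.ofNat (nat_lit 154502110557494615901628612939264)), (.negSucc (nat_lit 262143)), (.ofNat (nat_lit 25677359503568168694085320704)), (.ofNat (nat_lit 1274771312)), (.ofNat (nat_lit 1274771344)), (.ofNat (nat_lit 8904668462430198812274)), (.negSucc (nat_lit 8904668462430050010331)), (.negSucc (nat_lit 8904668462430050010331)), (.ofNat (nat_lit 8904668462430198812274)), (.ofNat (nat_lit 0))⟩,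
    ⟨nat_lit 0, nat_lit 2, nat_lit 3, (.ofNat (nat_lit 8)), (.ofNat (nat_lit 4500707840)), (.ofNat (nat_lit 125776215437286617327312636897280)), (.ofNat (nat_lit 524288)), (.ofNat (nat_lit 18674443275322379604359905280)), (.ofNat (nat_lit 4500707824)), (.ofNat (nat_lit 4500707856)), (.negSucc (nat_lit 8904668462430050010331)), (.ofNat (nat_lit 8904668462430181314640)), (.negSucc (nat_lit 8904668462430050010331)), (.ofNat (nat_lit 8904668462430181314640)), (.ofNat (nat_lit 0))⟩,
    ⟨nat_lit 1, nat_lit 3, nat_lit 4, (.ofNat (nat_lit 8)), (.ofNat (nat_lit 8461936448)), (.ofNat (nat_lit 161049642895420424753491654118400)), (.ofNat (nat_lit 1310720)), (.ofNat (nat_lit 25677359503568271955994869760)), (.ofNat (nat_lit 8461936432)), (.ofNat (nat_lit 8461936464)), (.ofNat (nat_lit 8904668462430181314640)), (.negSucc (nat_lit 8904668462430181314639)), (.negSucc (nat_lit 8904668462430181314639)), (.ofNat (nat_lit 8904668462430181314640)), (.ofNat (nat_lit 0))⟩,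
    ⟨nat_lit 0, nat_lit 5, nat_lit 4, (.ofNat (nat_lit 8)), (.ofNat (nat_lit 5133991104)), (.ofNat (nat_lit 190683892844828585584623641154560)), (.negSucc (nat_lit 58999807)), (.ofNat (nat_lit 562722616137680670177667399680)), (.ofNat (nat_lit 5133991088)), (.ofNat (nat_lit 5133991120)), (.ofNat (nat_lit 8904668462430181314640)), (.negSucc (nat_lit 8904668462430181314639)), (.negSucc (nat_lit 8904668462430181314639)), (.ofNat (nat_lit 8904668462430181314640)), (.ofNat (nat_lit 0))⟩,
    ⟨nat_lit 2, nat_lit 6, nat_lit 5, (.ofNat (nat_lit 8)), (.negSucc (nat_lit 7987257599)), (.ofNat (nat_lit 73843523322616896319418524928000)), (.negSucc (nat_lit 60572671)), (.ofNat (nat_lit 548716783681188885474397470720)), (.negSucc (nat_lit 7987257615)), (.negSucc (nat_lit 7987257583)), (.negSucc (nat_lit 8904668462430181314639)), (.ofNat (nat_lit 8904668462430181314640)), (.negSucc (nat_lit 8904668462430181314639)), (.ofNat (nat_lit 8904668462430181314640)), (.ofNat (nat_lit 0))⟩,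
    ⟨nat_lit 0, nat_lit 7, nat_lit 8, (.ofNat (nat_lit 8)), (.ofNat (nat_lit 5721244736)), (.ofNat (nat_lit 154882785276738625131073734067200)), (.ofNat (nat_lit 524288)), (.ofNat (nat_lit 23343054094152974505449881600)), (.ofNat (nat_lit 5721244720)), (.ofNat (nat_lit 5721244752)), (.ofNat (nat_lit 8904668462430181314640)), (.negSucc (nat_lit 8904668462430181314639)), (.negSucc (nat_lit 8904668462430181314639)), (.ofNat (nat_lit 8904668462430181314640)), (.ofNat (nat_lit 0))⟩,
    ⟨nat_lit 0, nat_lit 8, nat_lit 9, (.ofNat (nat_lit 8)), (.ofNat (nat_lit 11538728384)), (.ofNat (nat_lit 103080022105689742991480391060480)), (.ofNat (nat_lit 1572864)), (.ofNat (nat_lit 14005832456491784703269928960)), (.ofNat (nat_lit 11538728368)), (.ofNat (nat_lit 11538728400)), (.negSucc (nat_lit 8904668462430181314639)), (.ofNat (nat_lit 8904668462430181314640)), (.negSucc (nat_lit 8904668462430181314639)), (.ofNat (nat_lit 8904668462430181314640)), (.ofNat (nat_lit 0))⟩,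
    ⟨nat_lit 1, nat_lit 9, nat_lit 10, (.ofNat (nat_lit 8)), (.ofNat (nat_lit 13217440896)), (.ofNat (nat_lit 118028400468783090290795167836160)), (.ofNat (nat_lit 1835008)), (.ofNat (nat_lit 16340137865907082153814917120)), (.ofNat (nat_lit 13217440880)), (.ofNat (nat_lit 13217440912)), (.ofNat (nat_lit 8904668462430181314640)), (.negSucc (nat_lit 8904668462430181314639)), (.negSucc (nat_lit 8904668462430181314639)), (.ofNat (nat_lit 8904668462430181314640)), (.ofNat (nat_lit 0))⟩,
    ⟨nat_lit 0, nat_lit 16, nat_lit 10, (.ofNat (nat_lit 8)), (.ofNat (nat_lit 10245909952)), (.ofNat (nat_lit 144488898350955275506778528056320)), (.ofNat (nat_lit 1310720)), (.ofNat (nat_lit 21008748684737677054904893440)), (.ofNat (nat_lit 10245909936)), (.ofNat (nat_lit 10245909968)), (.ofNat (nat_lit 8904668462430181314640)), (.negSucc (nat_lit 8904668462430181314639)), (.negSucc (nat_lit 8904668462430181314639)), (.ofNat (nat_lit 8904668462430181314640)), (.ofNat (nat_lit 0))⟩,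
    ⟨nat_lit 1, nat_lit 11, nat_lit 15, (.ofNat (nat_lit 8)), (.ofNat (nat_lit 161489152)), (.ofNat (nat_lit 124083324267771711550844547573760)), (.negSucc (nat_lit 262143)), (.ofNat (nat_lit 21008748684737677054904893440)), (.ofNat (nat_lit 161489136)), (.ofNat (nat_lit 161489168)), (.ofNat (nat_lit 8904668462430181314640)), (.negSucc (nat_lit 8904668462430181314639)), (.negSucc (nat_lit 8904668462430181314639)), (.ofNat (nat_lit 8904668462430181314640)), (.ofNat (nat_lit 0))⟩,
    ⟨nat_lit 0, nat_lit 6, nat_lit 11, (.ofNat (nat_lit 8)), (.negSucc (nat_lit 6733865215)), (.ofNat (nat_lit 62682479689761916927909641226240)), (.negSucc (nat_lit 786431)), (.ofNat (nat_lit 16340137865907082153814917120)), (.negSucc (nat_lit 6733865231)), (.negSucc (nat_lit 6733865199)), (.negSucc (nat_lit 8904668462430181314639)), (.ofNat (nat_lit 8904668462430181314640)), (.negSucc (nat_lit 8904668462430181314639)), (.ofNat (nat_lit 8904668462430181314640)), (.ofNat (nat_lit 0))⟩,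
    ⟨nat_lit 0, nat_lit 17, nat_lit 12, (.ofNat (nat_lit 8)), (.negSucc (nat_lit 1333486527)), (.ofNat (nat_lit 12443824811056890310539538007040)), (.negSucc (nat_lit 262143)), (.ofNat (nat_lit 2334305409415297450544988160)), (.negSucc (nat_lit 1333486543)), (.negSucc (nat_lit 1333486511)), (.negSucc (nat_lit 8904668462430181314639)), (.ofNat (nat_lit 8904668462430181314640)), (.negSucc (nat_lit 8904668462430181314639)), (.ofNat (nat_lit 8904668462430181314640)), (.ofNat (nat_lit 0))⟩,
    ⟨nat_lit 1, nat_lit 12, nat_lit 13, (.ofNat (nat_lit 8)), (.ofNat (nat_lit 2686179456)), (.ofNat (nat_lit 48237617728285072115950347212800)), (.ofNat (nat_lit 524288)), (.ofNat (nat_lit 9337221637661189802179952640)), (.ofNat (nat_lit 2686179440)), (.ofNat (nat_lit 2686179472)), (.ofNat (nat_lit 8904668462430181314640)), (.negSucc (nat_lit 8904668462430181314639)), (.negSucc (nat_lit 8904668462430181314639)), (.ofNat (nat_lit 8904668462430181314640)), (.ofNat (nat_lit 0))⟩,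
    ⟨nat_lit 2, nat_lit 13, nat_lit 14, (.ofNat (nat_lit 8)), (.negSucc (nat_lit 4003087295)), (.ofNat (nat_lit 107803320411602245105303350062080)), (.negSucc (nat_lit 60048383)), (.ofNat (nat_lit 548716783681188885474397470720)), (.negSucc (nat_lit 4003087311)), (.negSucc (nat_lit 4003087279)), (.negSucc (nat_lit 8904668462430181314639)), (.ofNat (nat_lit 8904668462430181314640)), (.negSucc (nat_lit 8904668462430181314639)), (.ofNat (nat_lit 8904668462430181314640)), (.ofNat (nat_lit 0))⟩,
    ⟨nat_lit 0, nat_lit 14, nat_lit 15, (.ofNat (nat_lit 8)), (.negSucc (nat_lit 1006671615)), (.ofNat (nat_lit 134485408617629531301733659617280)), (.negSucc (nat_lit 59786239)), (.ofNat (nat_lit 551051089090604182924942458880)), (.negSucc (nat_lit 1006671631)), (.negSucc (nat_lit 1006671599)), (.ofNat (nat_lit 8904668462430181314640)), (.negSucc (nat_lit 8904668462430181314639)), (.negSucc (nat_lit 8904668462430181314639)), (.ofNat (nat_lit 8904668462430181314640)), (.ofNat (nat_lit 0))⟩,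
    ⟨nat_lit 2, nat_lit 17, nat_lit 7, (.ofNat (nat_lit 8)), (.negSucc (nat_lit 5804114367)), (.ofNat (nat_lit 52253283545167252952016921584640)), (.negSucc (nat_lit 1048575)), (.ofNat (nat_lit 9337221637661189802179952640)), (.negSucc (nat_lit 5804114383)), (.negSucc (nat_lit 5804114351)), (.negSucc (nat_lit 8904668462430181314639)), (.ofNat (nat_lit 8904668462430181314640)), (.negSucc (nat_lit 8904668462430181314639)), (.ofNat (nat_lit 8904668462430181314640)), (.ofNat (nat_lit 0))⟩]
  es := [
    ⟨nat_lit 1, nat_lit 0, (.negSucc (nat_lit 7974780927)), (.negSucc (nat_lit 2926966527)), (.negSucc (nat_lit 7974780911)), (.negSucc (nat_lit 2926966543)), (.negSucc (nat_lit 8904668462430065338774)), (.ofNat (nat_lit 0)), (.ofNat (nat_lit 4668610818830625303467130880))⟩,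
    ⟨nat_lit 1, nat_lit 2, (.negSucc (nat_lit 7974780927)), (.ofNat (nat_lit 1274771328)), (.negSucc (nat_lit 7974780911)), (.ofNat (nat_lit 1274771312)), (.ofNat (nat_lit 8904668462430198812274)), (.ofNat (nat_lit 0)), (.ofNat (nat_lit 28011664912983470731530076160))⟩,
    ⟨nat_lit 2, nat_lit 3, (.ofNat (nat_lit 1274771328)), (.ofNat (nat_lit 4500707840)), (.ofNat (nat_lit 1274771344)), (.ofNat (nat_lit 4500707824)), (.negSucc (nat_lit 8904668462430050010331)), (.ofNat (nat_lit 0)), (.ofNat (nat_lit 23343054094152905664176848896))⟩,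
    ⟨nat_lit 3, nat_lit 4, (.ofNat (nat_lit 4500707840)), (.ofNat (nat_lit 8461936448)), (.ofNat (nat_lit 4500707856)), (.ofNat (nat_lit 8461936432)), (.ofNat (nat_lit 8904668462430181314640)), (.ofNat (nat_lit 0)), (.ofNat (nat_lit 14005832456491784703269928960))⟩,
    ⟨nat_lit 5, nat_lit 4, (.ofNat (nat_lit 5133991104)), (.ofNat (nat_lit 8461936448)), (.ofNat (nat_lit 5133991120)), (.ofNat (nat_lit 8461936432)), (.negSucc (nat_lit 8904668462430181314639)), (.ofNat (nat_lit 0)), (.ofNat (nat_lit 37348886550644759208719810560))⟩,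
    ⟨nat_lit 6, nat_lit 5, (.negSucc (nat_lit 7987257599)), (.ofNat (nat_lit 5133991104)), (.negSucc (nat_lit 7987257583)), (.ofNat (nat_lit 5133991088)), (.ofNat (nat_lit 8904668462430181314640)), (.ofNat (nat_lit 0)), (.ofNat (nat_lit 1088096345724716581146614988800))⟩,
    ⟨nat_lit 6, nat_lit 12, (.negSucc (nat_lit 7987257599)), (.negSucc (nat_lit 6733865215)), (.negSucc (nat_lit 7987257583)), (.negSucc (nat_lit 6733865231)), (.negSucc (nat_lit 8904668462430181314639)), (.ofNat (nat_lit 0)), (.ofNat (nat_lit 9337221637661189802179952640))⟩,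
    ⟨nat_lit 17, nat_lit 7, (.negSucc (nat_lit 5804114367)), (.ofNat (nat_lit 5721244736)), (.negSucc (nat_lit 5804114351)), (.ofNat (nat_lit 5721244720)), (.ofNat (nat_lit 8904668462430181314640)), (.ofNat (nat_lit 0)), (.ofNat (nat_lit 18674443275322379604359905280))⟩,
    ⟨nat_lit 7, nat_lit 8, (.ofNat (nat_lit 5721244736)), (.ofNat (nat_lit 11538728384)), (.ofNat (nat_lit 5721244752)), (.ofNat (nat_lit 11538728368)), (.negSucc (nat_lit 8904668462430181314639)), (.ofNat (nat_lit 0)), (.ofNat (nat_lit 28011664912983569406539857920))⟩,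
    ⟨nat_lit 8, nat_lit 9, (.ofNat (nat_lit 11538728384)), (.ofNat (nat_lit 13217440896)), (.ofNat (nat_lit 11538728400)), (.ofNat (nat_lit 13217440880)), (.ofNat (nat_lit 8904668462430181314640)), (.ofNat (nat_lit 0)), (.ofNat (nat_lit 0))⟩,
    ⟨nat_lit 10, nat_lit 9, (.ofNat (nat_lit 10245909952)), (.ofNat (nat_lit 13217440896)), (.ofNat (nat_lit 10245909968)), (.ofNat (nat_lit 13217440880)), (.negSucc (nat_lit 8904668462430181314639)), (.ofNat (nat_lit 0)), (.ofNat (nat_lit 32680275731814164307629834240))⟩,
    ⟨nat_lit 12, nat_lit 11, (.negSucc (nat_lit 6733865215)), (.ofNat (nat_lit 161489152)), (.negSucc (nat_lit 6733865199)), (.ofNat (nat_lit 161489136)), (.ofNat (nat_lit 8904668462430181314640)), (.ofNat (nat_lit 0)), (.ofNat (nat_lit 23343054094152974505449881600))⟩,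
    ⟨nat_lit 13, nat_lit 14, (.negSucc (nat_lit 1333486527)), (.ofNat (nat_lit 2686179456)), (.negSucc (nat_lit 1333486511)), (.ofNat (nat_lit 2686179440)), (.ofNat (nat_lit 8904668462430181314640)), (.ofNat (nat_lit 0)), (.ofNat (nat_lit 4668610818830594901089976320))⟩,
    ⟨nat_lit 15, nat_lit 14, (.negSucc (nat_lit 4003087295)), (.ofNat (nat_lit 2686179456)), (.negSucc (nat_lit 4003087279)), (.ofNat (nat_lit 2686179440)), (.negSucc (nat_lit 8904668462430181314639)), (.ofNat (nat_lit 0)), (.ofNat (nat_lit 14005832456491784703269928960))⟩,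
    ⟨nat_lit 15, nat_lit 16, (.negSucc (nat_lit 4003087295)), (.negSucc (nat_lit 1006671615)), (.negSucc (nat_lit 4003087279)), (.negSucc (nat_lit 1006671631)), (.ofNat (nat_lit 8904668462430181314640)), (.ofNat (nat_lit 0)), (.ofNat (nat_lit 1083427734905885986245525012480))⟩,
    ⟨nat_lit 16, nat_lit 11, (.negSucc (nat_lit 1006671615)), (.ofNat (nat_lit 161489152)), (.negSucc (nat_lit 1006671599)), (.ofNat (nat_lit 161489136)), (.negSucc (nat_lit 8904668462430181314639)), (.ofNat (nat_lit 0)), (.ofNat (nat_lit 18674443275322379604359905280))⟩,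
    ⟨nat_lit 0, nat_lit 10, (.negSucc (nat_lit 2926966527)), (.ofNat (nat_lit 10245909952)), (.negSucc (nat_lit 2926966511)), (.ofNat (nat_lit 10245909936)), (.ofNat (nat_lit 8904668462430181314640)), (.ofNat (nat_lit 0)), (.ofNat (nat_lit 9337221637661189802179952640))⟩,
    ⟨nat_lit 17, nat_lit 13, (.negSucc (nat_lit 5804114367)), (.negSucc (nat_lit 1333486527)), (.negSucc (nat_lit 5804114351)), (.negSucc (nat_lit 1333486543)), (.negSucc (nat_lit 8904668462430181314639)), (.ofNat (nat_lit 0)), (.ofNat (nat_lit 0))⟩]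

theorem ok121 : stOK 17 17 S121 = true := by decide +kernel

def S122 : SD where
  vs := [
    ⟨nat_lit 0, nat_lit 0, nat_lit 16, (.ofNat (nat_lit 8)), (.negSucc (nat_lit 2926966527)), (.ofNat (nat_lit 27613625609386147931661994565248)), (.ofNat (nat_lit 0)), (.ofNat (nat_lit 424825009375171506640202176128)), (.negSucc (nat_lit 2926966543)), (.negSucc (nat_lit 2926966511)), (.negSucc (nat_lit 9043803907155652897680)), (.ofNat (nat_lit 9043803907155652897681)), (.negSucc (nat_lit 9043803907155652897680)), (.ofNat (nat_lit 9043803907155652897681)), (.ofNat (nat_lit 834812668353293401706))⟩,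
    ⟨nat_lit 2, nat_lit 0, nat_lit 1, (.ofNat (nat_lit 8)), (.negSucc (nat_lit 7974780927)), (.ofNat (nat_lit 73265069202702715669977872971648)), (.ofNat (nat_lit 0)), (.ofNat (nat_lit 1127154910811396434946757222528)), (.negSucc (nat_lit 7974780943)), (.negSucc (nat_lit 7974780911)), (.negSucc (nat_lit 9043803907155652897680)), (.ofNat (nat_lit 9043803907155652897681)), (.negSucc (nat_lit 9043803907155652897680)), (.ofNat (nat_lit 9043803907155652897681)), (.ofNat (nat_lit 834812668353258406438))⟩,
    ⟨nat_lit 0, nat_lit 1, nat_lit 2, (.ofNat (nat_lit 8)), (.ofNat (nat_lit 1274771328)), (.ofNat (nat_lit 156916206034955899472876103689984)), (.ofNat (nat_lit 0)), (.ofNat (nat_lit 2414095477461283571247490750720)), (.ofNat (nat_lit 1274771312)), (.ofNat (nat_lit 1274771344)), (.ofNat (nat_lit 9043803907155652897681)), (.negSucc (nat_lit 9043803907155652897680)), (.negSucc (nat_lit 9043803907155652897680)), (.ofNat (nat_lit 9043803907155652897681)), (.ofNat (nat_lit 834812668353022116326))⟩,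
    ⟨nat_lit 0, nat_lit 2, nat_lit 3, (.ofNat (nat_lit 8)), (.ofNat (nat_lit 4500707840)), (.ofNat (nat_lit 127741468803494220723048365661312)), (.ofNat (nat_lit 0)), (.ofNat (nat_lit 1965253366207603395735728764032)), (.ofNat (nat_lit 4500707824)), (.ofNat (nat_lit 4500707856)), (.negSucc (nat_lit 9043803907155652897680)), (.ofNat (nat_lit 9043803907155652897681)), (.negSucc (nat_lit 9043803907155652897680)), (.ofNat (nat_lit 9043803907155652897681)), (.ofNat (nat_lit 834812668353354715478))⟩,
    ⟨nat_lit 1, nat_lit 3, nat_lit 4, (.ofNat (nat_lit 8)), (.ofNat (nat_lit 8461936448)), (.ofNat (nat_lit 163566043565661368890260439719360)), (.ofNat (nat_lit 0)), (.ofNat (nat_lit 2516400670240944136768785600960)), (.ofNat (nat_lit 8461936432)), (.ofNat (nat_lit 8461936464)), (.ofNat (nat_lit 9043803907155652897681)), (.negSucc (nat_lit 9043803907155652897680)), (.negSucc (nat_lit 9043803907155652897680)), (.ofNat (nat_lit 9043803907155652897681)), (.ofNat (nat_lit 834812668352829498246))⟩,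
    ⟨nat_lit 0, nat_lit 5, nat_lit 4, (.ofNat (nat_lit 8)), (.ofNat (nat_lit 5133991104)), (.ofNat (nat_lit 193663328670529032234378032066624)), (.ofNat (nat_lit 0)), (.ofNat (nat_lit 2979435825700446649754390912064)), (.ofNat (nat_lit 5133991088)), (.ofNat (nat_lit 5133991120)), (.ofNat (nat_lit 9043803907155652897681)), (.negSucc (nat_lit 9043803907155652897680)), (.negSucc (nat_lit 9043803907155652897680)), (.ofNat (nat_lit 9043803907155652897681)), (.ofNat (nat_lit 834812668352829498246))⟩,
    ⟨nat_lit 2, nat_lit 6, nat_lit 5, (.ofNat (nat_lit 8)), (.negSucc (nat_lit 7987257599)), (.ofNat (nat_lit 74997328374532785324407366211200)), (.ofNat (nat_lit 0)), (.ofNat (nat_lit 1153805051915889004988841283200)), (.negSucc (nat_lit 7987257615)), (.negSucc (nat_lit 7987257583)), (.negSucc (nat_lit 9043803907155652897680)), (.ofNat (nat_lit 9043803907155652897681)), (.negSucc (nat_lit 9043803907155652897680)), (.ofNat (nat_lit 9043803907155652897681)), (.ofNat (nat_lit 834812668352829498246))⟩,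
    ⟨nat_lit 0, nat_lit 7, nat_lit 8, (.ofNat (nat_lit 8)), (.ofNat (nat_lit 5721244736)), (.ofNat (nat_lit 157302828796687666148742412802880)), (.ofNat (nat_lit 0)), (.ofNat (nat_lit 2420043519949041017668678735680)), (.ofNat (nat_lit 5721244720)), (.ofNat (nat_lit 5721244752)), (.ofNat (nat_lit 9043803907155652897681)), (.negSucc (nat_lit 9043803907155652897680)), (.negSucc (nat_lit 9043803907155652897680)), (.ofNat (nat_lit 9043803907155652897681)), (.ofNat (nat_lit 834812668352829498246))⟩,
    ⟨nat_lit 0, nat_lit 8, nat_lit 9, (.ofNat (nat_lit 8)), (.ofNat (nat_lit 11538728384)), (.ofNat (nat_lit 104690647451091145225719378182592)), (.ofNat (nat_lit 0)), (.ofNat (nat_lit 1610625345401402234238987122112)), (.ofNat (nat_lit 11538728368)), (.ofNat (nat_lit 11538728400)), (.negSucc (nat_lit 9043803907155652897680)), (.ofNat (nat_lit 9043803907155652897681)), (.negSucc (nat_lit 9043803907155652897680)), (.ofNat (nat_lit 9043803907155652897681)), (.ofNat (nat_lit 834812668352829498246))⟩,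
    ⟨nat_lit 1, nat_lit 9, nat_lit 10, (.ofNat (nat_lit 8)), (.ofNat (nat_lit 13217440896)), (.ofNat (nat_lit 119872594226107826076585528667264)), (.ofNat (nat_lit 0)), (.ofNat (nat_lit 1844193757324735785790360831104)), (.ofNat (nat_lit 13217440880)), (.ofNat (nat_lit 13217440912)), (.ofNat (nat_lit 9043803907155652897681)), (.negSucc (nat_lit 9043803907155652897680)), (.negSucc (nat_lit 9043803907155652897680)), (.ofNat (nat_lit 9043803907155652897681)), (.ofNat (nat_lit 834812668352829498246))⟩,
    ⟨nat_lit 0, nat_lit 16, nat_lit 10, (.ofNat (nat_lit 8)), (.ofNat (nat_lit 10245909952)), (.ofNat (nat_lit 146746537387688951686567886008128)), (.ofNat (nat_lit 0)), (.ofNat (nat_lit 2257639036733676179789357951808)), (.ofNat (nat_lit 10245909936)), (.ofNat (nat_lit 10245909968)), (.ofNat (nat_lit 9043803907155652897681)), (.negSucc (nat_lit 9043803907155652897680)), (.negSucc (nat_lit 9043803907155652897680)), (.ofNat (nat_lit 9043803907155652897681)), (.ofNat (nat_lit 834812668352829498246))⟩,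
    ⟨nat_lit 1, nat_lit 11, nat_lit 15, (.ofNat (nat_lit 8)), (.ofNat (nat_lit 161489152)), (.ofNat (nat_lit 126022126209455644543823009970304)), (.ofNat (nat_lit 0)), (.ofNat (nat_lit 1938801941683932992978462396544)), (.ofNat (nat_lit 161489136)), (.ofNat (nat_lit 161489168)), (.ofNat (nat_lit 9043803907155652897681)), (.negSucc (nat_lit 9043803907155652897680)), (.negSucc (nat_lit 9043803907155652897680)), (.ofNat (nat_lit 9043803907155652897681)), (.ofNat (nat_lit 834812668352829498246))⟩,
    ⟨nat_lit 0, nat_lit 6, nat_lit 11, (.ofNat (nat_lit 8)), (.negSucc (nat_lit 6733865215)), (.ofNat (nat_lit 63661893434914446879906469549696)), (.ofNat (nat_lit 0)), (.ofNat (nat_lit 979413745152529951996828323456)), (.negSucc (nat_lit 6733865231)), (.negSucc (nat_lit 6733865199)), (.negSucc (nat_lit 9043803907155652897680)), (.ofNat (nat_lit 9043803907155652897681)), (.negSucc (nat_lit 9043803907155652897680)), (.ofNat (nat_lit 9043803907155652897681)), (.ofNat (nat_lit 834812668352829498246))⟩,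
    ⟨nat_lit 0, nat_lit 17, nat_lit 12, (.ofNat (nat_lit 8)), (.negSucc (nat_lit 1333486527)), (.ofNat (nat_lit 12638259573729654221641368926016)), (.ofNat (nat_lit 0)), (.ofNat (nat_lit 194434762672763911101830918976)), (.negSucc (nat_lit 1333486543)), (.negSucc (nat_lit 1333486511)), (.negSucc (nat_lit 9043803907155652897680)), (.ofNat (nat_lit 9043803907155652897681)), (.negSucc (nat_lit 9043803907155652897680)), (.ofNat (nat_lit 9043803907155652897681)), (.ofNat (nat_lit 834812668352829498246))⟩,
    ⟨nat_lit 1, nat_lit 12, nat_lit 13, (.ofNat (nat_lit 8)), (.ofNat (nat_lit 2686179456)), (.ofNat (nat_lit 48991330505289526367760717109120)), (.ofNat (nat_lit 0)), (.ofNat (nat_lit 753712777004454251810369896320)), (.ofNat (nat_lit 2686179440)), (.ofNat (nat_lit 2686179472)), (.ofNat (nat_lit 9043803907155652897681)), (.negSucc (nat_lit 9043803907155652897680)), (.negSucc (nat_lit 9043803907155652897680)), (.ofNat (nat_lit 9043803907155652897681)), (.ofNat (nat_lit 834812668352829498246))⟩,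
    ⟨nat_lit 2, nat_lit 13, nat_lit 14, (.ofNat (nat_lit 8)), (.negSucc (nat_lit 4003087295)), (.ofNat (nat_lit 109487747293033530185070688311232)), (.ofNat (nat_lit 0)), (.ofNat (nat_lit 1684426881431285079767338249152)), (.negSucc (nat_lit 4003087311)), (.negSucc (nat_lit 4003087279)), (.negSucc (nat_lit 9043803907155652897680)), (.ofNat (nat_lit 9043803907155652897681)), (.negSucc (nat_lit 9043803907155652897680)), (.ofNat (nat_lit 9043803907155652897681)), (.ofNat (nat_lit 834812668352829498246))⟩,
    ⟨nat_lit 0, nat_lit 14, nat_lit 15, (.ofNat (nat_lit 8)), (.negSucc (nat_lit 1006671615)), (.ofNat (nat_lit 136586743127279992728319472349312)), (.ofNat (nat_lit 0)), (.ofNat (nat_lit 2101334509650461426585812732032)), (.negSucc (nat_lit 1006671631)), (.negSucc (nat_lit 1006671599)), (.ofNat (nat_lit 9043803907155652897681)), (.negSucc (nat_lit 9043803907155652897680)), (.negSucc (nat_lit 9043803907155652897680)), (.ofNat (nat_lit 9043803907155652897681)), (.ofNat (nat_lit 834812668352829498246))⟩,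
    ⟨nat_lit 2, nat_lit 17, nat_lit 7, (.ofNat (nat_lit 8)), (.negSucc (nat_lit 5804114367)), (.ofNat (nat_lit 53069741100560491279390718965056)), (.ofNat (nat_lit 0)), (.ofNat (nat_lit 816457555393238327373797380416)), (.negSucc (nat_lit 5804114383)), (.negSucc (nat_lit 5804114351)), (.negSucc (nat_lit 9043803907155652897680)), (.ofNat (nat_lit 9043803907155652897681)), (.negSucc (nat_lit 9043803907155652897680)), (.ofNat (nat_lit 9043803907155652897681)), (.ofNat (nat_lit 834812668352829498246))⟩]
  es := [
    ⟨nat_lit 1, nat_lit 0, (.negSucc (nat_lit 7974780927)), (.negSucc (nat_lit 2926966527)), (.negSucc (nat_lit 7974780911)), (.negSucc (nat_lit 2926966543)), (.negSucc (nat_lit 9043803907155652897680)), (.negSucc (nat_lit 139135444725587558905)), (.ofNat (nat_lit 17580219804982576589111877760))⟩,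
    ⟨nat_lit 1, nat_lit 2, (.negSucc (nat_lit 7974780927)), (.ofNat (nat_lit 1274771328)), (.negSucc (nat_lit 7974780911)), (.ofNat (nat_lit 1274771312)), (.ofNat (nat_lit 9043803907155652897681)), (.ofNat (nat_lit 139135444725454085407)), (.ofNat (nat_lit 2236729601816745871390183940224))⟩,
    ⟨nat_lit 2, nat_lit 3, (.ofNat (nat_lit 1274771328)), (.ofNat (nat_lit 4500707840)), (.ofNat (nat_lit 1274771344)), (.ofNat (nat_lit 4500707824)), (.negSucc (nat_lit 9043803907155652897680)), (.negSucc (nat_lit 139135444725602887348)), (.ofNat (nat_lit 2591461353106010959554009880192))⟩,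
    ⟨nat_lit 3, nat_lit 4, (.ofNat (nat_lit 4500707840)), (.ofNat (nat_lit 8461936448)), (.ofNat (nat_lit 4500707856)), (.ofNat (nat_lit 8461936432)), (.ofNat (nat_lit 9043803907155652897681)), (.ofNat (nat_lit 139135444725471583041)), (.ofNat (nat_lit 1339045379309786794245889022592))⟩,
    ⟨nat_lit 5, nat_lit 4, (.ofNat (nat_lit 5133991104)), (.ofNat (nat_lit 8461936448)), (.ofNat (nat_lit 5133991120)), (.ofNat (nat_lit 8461936432)), (.negSucc (nat_lit 9043803907155652897680)), (.negSucc (nat_lit 139135444725471583040)), (.ofNat (nat_lit 3693755961172101479291682179328))⟩,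
    ⟨nat_lit 6, nat_lit 5, (.negSucc (nat_lit 7987257599)), (.ofNat (nat_lit 5133991104)), (.negSucc (nat_lit 7987257583)), (.ofNat (nat_lit 5133991088)), (.ofNat (nat_lit 9043803907155652897681)), (.ofNat (nat_lit 139135444725471583041)), (.ofNat (nat_lit 2265115690228791820217099644800))⟩,
    ⟨nat_lit 6, nat_lit 12, (.negSucc (nat_lit 7987257599)), (.negSucc (nat_lit 6733865215)), (.negSucc (nat_lit 7987257583)), (.negSucc (nat_lit 6733865231)), (.negSucc (nat_lit 9043803907155652897680)), (.negSucc (nat_lit 139135444725471583040)), (.ofNat (nat_lit 42494413602986189760582921600))⟩,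
    ⟨nat_lit 17, nat_lit 7, (.negSucc (nat_lit 5804114367)), (.ofNat (nat_lit 5721244736)), (.negSucc (nat_lit 5804114351)), (.ofNat (nat_lit 5721244720)), (.ofNat (nat_lit 9043803907155652897681)), (.ofNat (nat_lit 139135444725471583041)), (.ofNat (nat_lit 1624015589222417758077770613504))⟩,
    ⟨nat_lit 7, nat_lit 8, (.ofNat (nat_lit 5721244736)), (.ofNat (nat_lit 11538728384)), (.ofNat (nat_lit 5721244752)), (.ofNat (nat_lit 11538728368)), (.negSucc (nat_lit 9043803907155652897680)), (.negSucc (nat_lit 139135444725471583040)), (.ofNat (nat_lit 3216071450675664277259586857856))⟩,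
    ⟨nat_lit 8, nat_lit 9, (.ofNat (nat_lit 11538728384)), (.ofNat (nat_lit 13217440896)), (.ofNat (nat_lit 11538728400)), (.ofNat (nat_lit 13217440880)), (.ofNat (nat_lit 9043803907155652897681)), (.ofNat (nat_lit 139135444725471583041)), (.ofNat (nat_lit 5179240127140191218387386368))⟩,
    ⟨nat_lit 10, nat_lit 9, (.ofNat (nat_lit 10245909952)), (.ofNat (nat_lit 13217440896)), (.ofNat (nat_lit 10245909968)), (.ofNat (nat_lit 13217440880)), (.negSucc (nat_lit 9043803907155652897680)), (.negSucc (nat_lit 139135444725471583040)), (.ofNat (nat_lit 3683208274522331380362334275840))⟩,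
    ⟨nat_lit 12, nat_lit 11, (.negSucc (nat_lit 6733865215)), (.ofNat (nat_lit 161489152)), (.negSucc (nat_lit 6733865199)), (.ofNat (nat_lit 161489136)), (.ofNat (nat_lit 9043803907155652897681)), (.ofNat (nat_lit 139135444725471583041)), (.ofNat (nat_lit 1916333076702073714233073725312))⟩,
    ⟨nat_lit 13, nat_lit 14, (.negSucc (nat_lit 1333486527)), (.ofNat (nat_lit 2686179456)), (.negSucc (nat_lit 1333486511)), (.ofNat (nat_lit 2686179440)), (.ofNat (nat_lit 9043803907155652897681)), (.ofNat (nat_lit 139135444725471583041)), (.ofNat (nat_lit 379970003781468925533837690624))⟩,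
    ⟨nat_lit 15, nat_lit 14, (.negSucc (nat_lit 4003087295)), (.ofNat (nat_lit 2686179456)), (.negSucc (nat_lit 4003087279)), (.ofNat (nat_lit 2686179440)), (.negSucc (nat_lit 9043803907155652897680)), (.negSucc (nat_lit 139135444725471583040)), (.ofNat (nat_lit 1127455550227439578086902102016))⟩,
    ⟨nat_lit 15, nat_lit 16, (.negSucc (nat_lit 4003087295)), (.negSucc (nat_lit 1006671615)), (.negSucc (nat_lit 4003087279)), (.negSucc (nat_lit 1006671631)), (.ofNat (nat_lit 9043803907155652897681)), (.ofNat (nat_lit 139135444725471583041)), (.ofNat (nat_lit 2241398212635130581447774396288))⟩,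
    ⟨nat_lit 16, nat_lit 11, (.negSucc (nat_lit 1006671615)), (.ofNat (nat_lit 161489152)), (.negSucc (nat_lit 1006671599)), (.ofNat (nat_lit 161489136)), (.negSucc (nat_lit 9043803907155652897680)), (.negSucc (nat_lit 139135444725471583040)), (.ofNat (nat_lit 1961270806665792271723851067776))⟩,
    ⟨nat_lit 0, nat_lit 10, (.negSucc (nat_lit 2926966527)), (.ofNat (nat_lit 10245909952)), (.negSucc (nat_lit 2926966511)), (.ofNat (nat_lit 10245909936)), (.ofNat (nat_lit 9043803907155652897681)), (.ofNat (nat_lit 139135444725471583041)), (.ofNat (nat_lit 832069798945020979216381627776))⟩,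
    ⟨nat_lit 17, nat_lit 13, (.negSucc (nat_lit 5804114367)), (.negSucc (nat_lit 1333486527)), (.negSucc (nat_lit 5804114351)), (.negSucc (nat_lit 1333486543)), (.negSucc (nat_lit 9043803907155652897680)), (.negSucc (nat_lit 139135444725471583040)), (.ofNat (nat_lit 8899521564058896669824147328))⟩]

theorem ok122 : stOK 17 17 S122 = true := by decide +kernel

def S123 : SD where
  vs := [
    ⟨nat_lit 0, nat_lit 0, nat_lit 16, (.ofNat (nat_lit 8)), (.negSucc (nat_lit 2926966527)), (.ofNat (nat_lit 28045088509532806493093402192256)), (.ofNat (nat_lit 0)), (.ofNat (nat_lit 431462900146658561431407627008)), (.negSucc (nat_lit 2926966543)), (.negSucc (nat_lit 2926966511)), (.negSucc (nat_lit 9185113343204945402960)), (.ofNat (nat_lit 9185113343204959974207)), (.negSucc (nat_lit 9185113343204945402960)), (.ofNat (nat_lit 9185113343204959974207)), (.ofNat (nat_lit 847856616295784174172))⟩,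
    ⟨nat_lit 2, nat_lit 0, nat_lit 1, (.ofNat (nat_lit 8)), (.negSucc (nat_lit 7974780927)), (.ofNat (nat_lit 74409835908994872049373740630656)), (.ofNat (nat_lit 0)), (.ofNat (nat_lit 1144766706292156379395867659008)), (.negSucc (nat_lit 7974780943)), (.negSucc (nat_lit 7974780911)), (.negSucc (nat_lit 9185113343204945402960)), (.ofNat (nat_lit 9185113343204961062278)), (.negSucc (nat_lit 9185113343204945402960)), (.ofNat (nat_lit 9185113343204961062278)), (.ofNat (nat_lit 847856616295786350314))⟩,
    ⟨nat_lit 0, nat_lit 1, nat_lit 2, (.ofNat (nat_lit 8)), (.ofNat (nat_lit 1274771328)), (.ofNat (nat_lit 159368021754252021913359372029824)), (.ofNat (nat_lit 0)), (.ofNat (nat_lit 2451815719296122440483268339840)), (.ofNat (nat_lit 1274771312)), (.ofNat (nat_lit 1274771344)), (.ofNat (nat_lit 9185113343204961062278)), (.negSucc (nat_lit 9185113343204940293479)), (.negSucc (nat_lit 9185113343204940293479)), (.ofNat (nat_lit 9185113343204961062278)), (.ofNat (nat_lit 847856616295807449986))⟩,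
    ⟨nat_lit 0, nat_lit 2, nat_lit 3, (.ofNat (nat_lit 8)), (.ofNat (nat_lit 4500707840)), (.ofNat (nat_lit 129737429253548817921842244488064)), (.ofNat (nat_lit 0)), (.ofNat (nat_lit 1995960450054597198793878826752)), (.ofNat (nat_lit 4500707824)), (.ofNat (nat_lit 4500707856)), (.negSucc (nat_lit 9185113343204940293479)), (.ofNat (nat_lit 9185113343204959974207)), (.negSucc (nat_lit 9185113343204940293479)), (.ofNat (nat_lit 9185113343204959974207)), (.ofNat (nat_lit 847856616295763736248))⟩,
    ⟨nat_lit 1, nat_lit 3, nat_lit 4, (.ofNat (nat_lit 8)), (.ofNat (nat_lit 8461936448)), (.ofNat (nat_lit 166121762996374827779165955001920)), (.ofNat (nat_lit 0)), (.ofNat (nat_lit 2555719430713458888905515282560)), (.ofNat (nat_lit 8461936432)), (.ofNat (nat_lit 8461936464)), (.ofNat (nat_lit 9185113343204959974207)), (.negSucc (nat_lit 9185113343204959974206)), (.negSucc (nat_lit 9185113343204959974206)), (.ofNat (nat_lit 9185113343204959974207)), (.ofNat (nat_lit 847856616295842459156))⟩,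
    ⟨nat_lit 0, nat_lit 5, nat_lit 4, (.ofNat (nat_lit 8)), (.ofNat (nat_lit 5133991104)), (.ofNat (nat_lit 196689318181006048363034500744128)), (.ofNat (nat_lit 0)), (.ofNat (nat_lit 3025989510477016128656468677504)), (.ofNat (nat_lit 5133991088)), (.ofNat (nat_lit 5133991120)), (.ofNat (nat_lit 9185113343204959974207)), (.negSucc (nat_lit 9185113343204959974206)), (.negSucc (nat_lit 9185113343204959974206)), (.ofNat (nat_lit 9185113343204959974207)), (.ofNat (nat_lit 847856616295842459156))⟩,
    ⟨nat_lit 2, nat_lit 6, nat_lit 5, (.ofNat (nat_lit 8)), (.negSucc (nat_lit 7987257599)), (.ofNat (nat_lit 76169161630384860095099028566400)), (.ofNat (nat_lit 0)), (.ofNat (nat_lit 1171833255852074770691662355200)), (.negSucc (nat_lit 7987257615)), (.negSucc (nat_lit 7987257583)), (.negSucc (nat_lit 9185113343204959974206)), (.ofNat (nat_lit 9185113343204959974207)), (.negSucc (nat_lit 9185113343204959974206)), (.ofNat (nat_lit 9185113343204959974207)), (.ofNat (nat_lit 847856616295842459156))⟩,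
    ⟨nat_lit 0, nat_lit 7, nat_lit 8, (.ofNat (nat_lit 8)), (.ofNat (nat_lit 5721244736)), (.ofNat (nat_lit 159760685496635910932311892871360)), (.ofNat (nat_lit 0)), (.ofNat (nat_lit 2457856699948244783569480068480)), (.ofNat (nat_lit 5721244720)), (.ofNat (nat_lit 5721244752)), (.ofNat (nat_lit 9185113343204959974207)), (.negSucc (nat_lit 9185113343204959974206)), (.negSucc (nat_lit 9185113343204959974206)), (.ofNat (nat_lit 9185113343204959974207)), (.ofNat (nat_lit 847856616295842459156))⟩,
    ⟨nat_lit 0, nat_lit 8, nat_lit 9, (.ofNat (nat_lit 8)), (.ofNat (nat_lit 11538728384)), (.ofNat (nat_lit 106326438817514444369868168604224)), (.ofNat (nat_lit 0)), (.ofNat (nat_lit 1635791366423299144148790421632)), (.ofNat (nat_lit 11538728368)), (.ofNat (nat_lit 11538728400)), (.negSucc (nat_lit 9185113343204959974206)), (.ofNat (nat_lit 9185113343204959974207)), (.negSucc (nat_lit 9185113343204959974206)), (.ofNat (nat_lit 9185113343204959974207)), (.ofNat (nat_lit 847856616295842459156))⟩,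
    ⟨nat_lit 1, nat_lit 9, nat_lit 10, (.ofNat (nat_lit 8)), (.ofNat (nat_lit 13217440896)), (.ofNat (nat_lit 121745603510890760859028656782208)), (.ofNat (nat_lit 0)), (.ofNat (nat_lit 1873009284782934782443128114944)), (.ofNat (nat_lit 13217440880)), (.ofNat (nat_lit 13217440912)), (.ofNat (nat_lit 9185113343204959974207)), (.negSucc (nat_lit 9185113343204959974206)), (.negSucc (nat_lit 9185113343204959974206)), (.ofNat (nat_lit 9185113343204959974207)), (.ofNat (nat_lit 847856616295842459156))⟩,
    ⟨nat_lit 0, nat_lit 16, nat_lit 10, (.ofNat (nat_lit 8)), (.ofNat (nat_lit 10245909952)), (.ofNat (nat_lit 149039452034371591556666199143616)), (.ofNat (nat_lit 0)), (.ofNat (nat_lit 2292914646682639870098313135488)), (.ofNat (nat_lit 10245909936)), (.ofNat (nat_lit 10245909968)), (.ofNat (nat_lit 9185113343204959974207)), (.negSucc (nat_lit 9185113343204959974206)), (.negSucc (nat_lit 9185113343204959974206)), (.ofNat (nat_lit 9185113343204959974207)), (.ofNat (nat_lit 847856616295842459156))⟩,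
    ⟨nat_lit 1, nat_lit 11, nat_lit 15, (.ofNat (nat_lit 8)), (.ofNat (nat_lit 161489152)), (.ofNat (nat_lit 127991221931478388989816543113088)), (.ofNat (nat_lit 0)), (.ofNat (nat_lit 1969095722022744445993533142784)), (.ofNat (nat_lit 161489136)), (.ofNat (nat_lit 161489168)), (.ofNat (nat_lit 9185113343204959974207)), (.negSucc (nat_lit 9185113343204959974206)), (.negSucc (nat_lit 9185113343204959974206)), (.ofNat (nat_lit 9185113343204959974207)), (.ofNat (nat_lit 847856616295842459156))⟩,
    ⟨nat_lit 0, nat_lit 6, nat_lit 11, (.ofNat (nat_lit 8)), (.negSucc (nat_lit 6733865215)), (.ofNat (nat_lit 64656610519834985112403138326912)), (.ofNat (nat_lit 0)), (.ofNat (nat_lit 994717084920538232496668777216)), (.negSucc (nat_lit 6733865231)), (.negSucc (nat_lit 6733865199)), (.negSucc (nat_lit 9185113343204959974206)), (.ofNat (nat_lit 9185113343204959974207)), (.negSucc (nat_lit 9185113343204959974206)), (.ofNat (nat_lit 9185113343204959974207)), (.ofNat (nat_lit 847856616295842459156))⟩,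
    ⟨nat_lit 0, nat_lit 17, nat_lit 12, (.ofNat (nat_lit 8)), (.negSucc (nat_lit 1333486527)), (.ofNat (nat_lit 12835732379569180068854144117952)), (.ofNat (nat_lit 0)), (.ofNat (nat_lit 197472805839525847212775191936)), (.negSucc (nat_lit 1333486543)), (.negSucc (nat_lit 1333486511)), (.negSucc (nat_lit 9185113343204959974206)), (.ofNat (nat_lit 9185113343204959974207)), (.negSucc (nat_lit 9185113343204959974206)), (.ofNat (nat_lit 9185113343204959974207)), (.ofNat (nat_lit 847856616295842459156))⟩,
    ⟨nat_lit 1, nat_lit 12, nat_lit 13, (.ofNat (nat_lit 8)), (.ofNat (nat_lit 2686179456)), (.ofNat (nat_lit 49756820044434675217255539392640)), (.ofNat (nat_lit 0)), (.ofNat (nat_lit 765489539145148849494822283520)), (.ofNat (nat_lit 2686179440)), (.ofNat (nat_lit 2686179472)), (.ofNat (nat_lit 9185113343204959974207)), (.negSucc (nat_lit 9185113343204959974206)), (.negSucc (nat_lit 9185113343204959974206)), (.ofNat (nat_lit 9185113343204959974207)), (.ofNat (nat_lit 847856616295842459156))⟩,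
    ⟨nat_lit 2, nat_lit 13, nat_lit 14, (.ofNat (nat_lit 8)), (.negSucc (nat_lit 4003087295)), (.ofNat (nat_lit 111198493344487179094209202058304)), (.ofNat (nat_lit 0)), (.ofNat (nat_lit 1710746051453648909138513747072)), (.negSucc (nat_lit 4003087311)), (.negSucc (nat_lit 4003087279)), (.negSucc (nat_lit 9185113343204959974206)), (.ofNat (nat_lit 9185113343204959974207)), (.negSucc (nat_lit 9185113343204959974206)), (.ofNat (nat_lit 9185113343204959974207)), (.ofNat (nat_lit 847856616295842459156))⟩,
    ⟨nat_lit 0, nat_lit 14, nat_lit 15, (.ofNat (nat_lit 8)), (.negSucc (nat_lit 1006671615)), (.ofNat (nat_lit 138720910988643742614695452424064)), (.ofNat (nat_lit 0)), (.ofNat (nat_lit 2134167861363749886375980074752)), (.negSucc (nat_lit 1006671631)), (.negSucc (nat_lit 1006671599)), (.ofNat (nat_lit 9185113343204959974207)), (.negSucc (nat_lit 9185113343204959974206)), (.negSucc (nat_lit 9185113343204959974206)), (.ofNat (nat_lit 9185113343204959974207)), (.ofNat (nat_lit 847856616295842459156))⟩,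
    ⟨nat_lit 2, nat_lit 17, nat_lit 7, (.ofNat (nat_lit 8)), (.negSucc (nat_lit 5804114367)), (.ofNat (nat_lit 53898955805256748955629640240832)), (.ofNat (nat_lit 0)), (.ofNat (nat_lit 829214704696257676238921275776)), (.negSucc (nat_lit 5804114383)), (.negSucc (nat_lit 5804114351)), (.negSucc (nat_lit 9185113343204959974206)), (.ofNat (nat_lit 9185113343204959974207)), (.negSucc (nat_lit 9185113343204959974206)), (.ofNat (nat_lit 9185113343204959974207)), (.ofNat (nat_lit 847856616295842459156))⟩]
  es := [
    ⟨nat_lit 1, nat_lit 0, (.negSucc (nat_lit 7974780927)), (.negSucc (nat_lit 2926966527)), (.negSucc (nat_lit 7974780911)), (.negSucc (nat_lit 2926966543)), (.negSucc (nat_lit 9185113343204945402960)), (.negSucc (nat_lit 141309436049292505279)), (.ofNat (nat_lit 17854910739822840395584359168))⟩,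
    ⟨nat_lit 1, nat_lit 2, (.negSucc (nat_lit 7974780927)), (.ofNat (nat_lit 1274771328)), (.negSucc (nat_lit 7974780911)), (.ofNat (nat_lit 1274771312)), (.ofNat (nat_lit 9185113343204961062278)), (.ofNat (nat_lit 141309436049308164597)), (.ofNat (nat_lit 2271678501844614798018708065024))⟩,
    ⟨nat_lit 2, nat_lit 3, (.ofNat (nat_lit 1274771328)), (.ofNat (nat_lit 4500707840)), (.ofNat (nat_lit 1274771344)), (.ofNat (nat_lit 4500707824)), (.negSucc (nat_lit 9185113343204940293479)), (.negSucc (nat_lit 141309436049287395798)), (.ofNat (nat_lit 2631952936747603607479621190912))⟩,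
    ⟨nat_lit 3, nat_lit 4, (.ofNat (nat_lit 4500707840)), (.ofNat (nat_lit 8461936448)), (.ofNat (nat_lit 4500707856)), (.ofNat (nat_lit 8461936432)), (.ofNat (nat_lit 9185113343204959974207)), (.ofNat (nat_lit 141309436049307076526)), (.ofNat (nat_lit 1359967963361502212905830662912))⟩,
    ⟨nat_lit 5, nat_lit 4, (.ofNat (nat_lit 5133991104)), (.ofNat (nat_lit 8461936448)), (.ofNat (nat_lit 5133991120)), (.ofNat (nat_lit 8461936432)), (.negSucc (nat_lit 9185113343204959974206)), (.negSucc (nat_lit 141309436049307076525)), (.ofNat (nat_lit 3751470898065415564905199902208))⟩,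
    ⟨nat_lit 6, nat_lit 5, (.negSucc (nat_lit 7987257599)), (.ofNat (nat_lit 5133991104)), (.negSucc (nat_lit 7987257583)), (.ofNat (nat_lit 5133991088)), (.ofNat (nat_lit 9185113343204959974207)), (.ofNat (nat_lit 141309436049307076526)), (.ofNat (nat_lit 2300508122888616692407737452800))⟩,
    ⟨nat_lit 6, nat_lit 12, (.negSucc (nat_lit 7987257599)), (.negSucc (nat_lit 6733865215)), (.negSucc (nat_lit 7987257583)), (.negSucc (nat_lit 6733865231)), (.negSucc (nat_lit 9185113343204959974206)), (.negSucc (nat_lit 141309436049307076525)), (.ofNat (nat_lit 43158388815532848975587257600))⟩,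
    ⟨nat_lit 17, nat_lit 7, (.negSucc (nat_lit 5804114367)), (.ofNat (nat_lit 5721244736)), (.negSucc (nat_lit 5804114351)), (.ofNat (nat_lit 5721244720)), (.ofNat (nat_lit 9185113343204959974207)), (.ofNat (nat_lit 141309436049307076526)), (.ofNat (nat_lit 1649390832804018035547553401344))⟩,
    ⟨nat_lit 7, nat_lit 8, (.ofNat (nat_lit 5721244736)), (.ofNat (nat_lit 11538728384)), (.ofNat (nat_lit 5721244752)), (.ofNat (nat_lit 11538728368)), (.negSucc (nat_lit 9185113343204959974206)), (.negSucc (nat_lit 141309436049307076525)), (.ofNat (nat_lit 3266322567092471531591406735616))⟩,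
    ⟨nat_lit 8, nat_lit 9, (.ofNat (nat_lit 11538728384)), (.ofNat (nat_lit 13217440896)), (.ofNat (nat_lit 11538728400)), (.ofNat (nat_lit 13217440880)), (.ofNat (nat_lit 9185113343204959974207)), (.ofNat (nat_lit 141309436049307076526)), (.ofNat (nat_lit 5260165754126756706174107648))⟩,
    ⟨nat_lit 10, nat_lit 9, (.ofNat (nat_lit 10245909952)), (.ofNat (nat_lit 13217440896)), (.ofNat (nat_lit 10245909968)), (.ofNat (nat_lit 13217440880)), (.negSucc (nat_lit 9185113343204959974206)), (.negSucc (nat_lit 141309436049307076525)), (.ofNat (nat_lit 3740758403811742808180082122240))⟩,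
    ⟨nat_lit 12, nat_lit 11, (.negSucc (nat_lit 6733865215)), (.ofNat (nat_lit 161489152)), (.negSucc (nat_lit 6733865199)), (.ofNat (nat_lit 161489136)), (.ofNat (nat_lit 9185113343204959974207)), (.ofNat (nat_lit 141309436049307076526)), (.ofNat (nat_lit 1946275781025543616017750296832))⟩,
    ⟨nat_lit 13, nat_lit 14, (.negSucc (nat_lit 1333486527)), (.ofNat (nat_lit 2686179456)), (.negSucc (nat_lit 1333486511)), (.ofNat (nat_lit 2686179440)), (.ofNat (nat_lit 9185113343204959974207)), (.ofNat (nat_lit 141309436049307076526)), (.ofNat (nat_lit 385907035090554377495261233664))⟩,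
    ⟨nat_lit 15, nat_lit 14, (.negSucc (nat_lit 4003087295)), (.ofNat (nat_lit 2686179456)), (.negSucc (nat_lit 4003087279)), (.ofNat (nat_lit 2686179440)), (.negSucc (nat_lit 9185113343204959974206)), (.negSucc (nat_lit 141309436049307076525)), (.ofNat (nat_lit 1145072043199743321494383333376))⟩,
    ⟨nat_lit 15, nat_lit 16, (.negSucc (nat_lit 4003087295)), (.negSucc (nat_lit 1006671615)), (.negSucc (nat_lit 4003087279)), (.negSucc (nat_lit 1006671631)), (.ofNat (nat_lit 9185113343204959974207)), (.ofNat (nat_lit 141309436049307076526)), (.ofNat (nat_lit 2276420059707554496782644160768))⟩,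
    ⟨nat_lit 16, nat_lit 11, (.negSucc (nat_lit 1006671615)), (.ofNat (nat_lit 161489152)), (.negSucc (nat_lit 1006671599)), (.ofNat (nat_lit 161489136)), (.negSucc (nat_lit 9185113343204959974206)), (.negSucc (nat_lit 141309436049307076525)), (.ofNat (nat_lit 1991915663019945275969315988736))⟩,
    ⟨nat_lit 0, nat_lit 10, (.negSucc (nat_lit 2926966527)), (.ofNat (nat_lit 10245909952)), (.negSucc (nat_lit 2926966511)), (.ofNat (nat_lit 10245909936)), (.ofNat (nat_lit 9185113343204959974207)), (.ofNat (nat_lit 141309436049307076526)), (.ofNat (nat_lit 845070889553536932016544148736))⟩,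
    ⟨nat_lit 17, nat_lit 13, (.negSucc (nat_lit 5804114367)), (.negSucc (nat_lit 1333486527)), (.negSucc (nat_lit 5804114351)), (.negSucc (nat_lit 1333486543)), (.negSucc (nat_lit 9185113343204959974206)), (.negSucc (nat_lit 141309436049307076525)), (.ofNat (nat_lit 9038576588497316930289150208))⟩]

theorem ok123 : stOK 17 17 S123 = true := by decide +kernel

def S124 : SD where
  vs := [
    ⟨nat_lit 0, nat_lit 0, nat_lit 16, (.ofNat (nat_lit 8)), (.negSucc (nat_lit 2927228671)), (.ofNat (nat_lit 28052311976589529856175837751680)), (.negSucc (nat_lit 262143)), (.ofNat (nat_lit 7223467056723363082435559424)), (.negSucc (nat_lit 2927228687)), (.negSucc (nat_lit 2927228655)), (.negSucc (nat_lit 9185113343204945402960)), (.ofNat (nat_lit 9185113343204959974207)), (.negSucc (nat_lit 9185113343204945402960)), (.ofNat (nat_lit 9185113343204959974207)), (.ofNat (nat_lit 0))⟩,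
    ⟨nat_lit 2, nat_lit 0, nat_lit 1, (.ofNat (nat_lit 8)), (.negSucc (nat_lit 7975829503)), (.ofNat (nat_lit 74424282843108318764079317615232)), (.negSucc (nat_lit 1048575)), (.ofNat (nat_lit 14446934113446714705576984576)), (.negSucc (nat_lit 7975829519)), (.negSucc (nat_lit 7975829487)), (.negSucc (nat_lit 9185113343204945402960)), (.ofNat (nat_lit 9185113343204961062278)), (.negSucc (nat_lit 9185113343204945402960)), (.ofNat (nat_lit 9185113343204961062278)), (.ofNat (nat_lit 0))⟩,
    ⟨nat_lit 0, nat_lit 1, nat_lit 2, (.ofNat (nat_lit 8)), (.ofNat (nat_lit 1274771328)), (.ofNat (nat_lit 159392099977774433113315788230528)), (.ofNat (nat_lit 0)), (.ofNat (nat_lit 24078223522411199956416200704)), (.ofNat (nat_lit 1274771312)), (.ofNat (nat_lit 1274771344)), (.ofNat (nat_lit 9185113343204961062278)), (.negSucc (nat_lit 9185113343204940293479)), (.negSucc (nat_lit 9185113343204940293479)), (.ofNat (nat_lit 9185113343204961062278)), (.ofNat (nat_lit 0))⟩,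
    ⟨nat_lit 0, nat_lit 2, nat_lit 3, (.ofNat (nat_lit 8)), (.ofNat (nat_lit 4501232128)), (.ofNat (nat_lit 129756691832366746890062072646528)), (.ofNat (nat_lit 524288)), (.ofNat (nat_lit 19262578817928968219828158464)), (.ofNat (nat_lit 4501232112)), (.ofNat (nat_lit 4501232144)), (.negSucc (nat_lit 9185113343204940293479)), (.ofNat (nat_lit 9185113343204959974207)), (.negSucc (nat_lit 9185113343204940293479)), (.ofNat (nat_lit 9185113343204959974207)), (.ofNat (nat_lit 0))⟩,
    ⟨nat_lit 1, nat_lit 3, nat_lit 4, (.ofNat (nat_lit 8)), (.ofNat (nat_lit 8463247168)), (.ofNat (nat_lit 166148249042249480110468218719808)), (.ofNat (nat_lit 1310720)), (.ofNat (nat_lit 26486045874652331302263717888)), (.ofNat (nat_lit 8463247152)), (.ofNat (nat_lit 8463247184)), (.ofNat (nat_lit 9185113343204959974207)), (.negSucc (nat_lit 9185113343204959974206)), (.negSucc (nat_lit 9185113343204959974206)), (.ofNat (nat_lit 9185113343204959974207)), (.ofNat (nat_lit 0))⟩,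
    ⟨nat_lit 0, nat_lit 5, nat_lit 4, (.ofNat (nat_lit 8)), (.ofNat (nat_lit 3966092480)), (.ofNat (nat_lit 207455124573455018803325587852224)), (.negSucc (nat_lit 1167898623)), (.ofNat (nat_lit 10765806392448970440291087108096)), (.ofNat (nat_lit 3966092464)), (.ofNat (nat_lit 3966092496)), (.ofNat (nat_lit 9185113343204959974207)), (.negSucc (nat_lit 9185113343204959974206)), (.negSucc (nat_lit 9185113343204959974206)), (.ofNat (nat_lit 9185113343204959974207)), (.ofNat (nat_lit 0))⟩,
    ⟨nat_lit 2, nat_lit 6, nat_lit 5, (.ofNat (nat_lit 8)), (.negSucc (nat_lit 9156729087)), (.ofNat (nat_lit 86920521088720383809225244555648)), (.negSucc (nat_lit 1169471487)), (.ofNat (nat_lit 10751359458335523714126215989248)), (.negSucc (nat_lit 9156729103)), (.negSucc (nat_lit 9156729071)), (.negSucc (nat_lit 9185113343204959974206)), (.ofNat (nat_lit 9185113343204959974207)), (.negSucc (nat_lit 9185113343204959974206)), (.ofNat (nat_lit 9185113343204959974207)), (.ofNat (nat_lit 0))⟩,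
    ⟨nat_lit 0, nat_lit 7, nat_lit 8, (.ofNat (nat_lit 8)), (.ofNat (nat_lit 5721769024)), (.ofNat (nat_lit 159784763720158322142586678069440)), (.ofNat (nat_lit 524288)), (.ofNat (nat_lit 24078223522411210274785198080)), (.ofNat (nat_lit 5721769008)), (.ofNat (nat_lit 5721769040)), (.ofNat (nat_lit 9185113343204959974207)), (.negSucc (nat_lit 9185113343204959974206)), (.negSucc (nat_lit 9185113343204959974206)), (.ofNat (nat_lit 9185113343204959974207)), (.ofNat (nat_lit 0))⟩,
    ⟨nat_lit 0, nat_lit 8, nat_lit 9, (.ofNat (nat_lit 8)), (.ofNat (nat_lit 11540301248)), (.ofNat (nat_lit 106340885751627891096033039723072)), (.ofNat (nat_lit 1572864)), (.ofNat (nat_lit 14446934113446726164871118848)), (.ofNat (nat_lit 11540301232)), (.ofNat (nat_lit 11540301264)), (.negSucc (nat_lit 9185113343204959974206)), (.ofNat (nat_lit 9185113343204959974207)), (.negSucc (nat_lit 9185113343204959974206)), (.ofNat (nat_lit 9185113343204959974207)), (.ofNat (nat_lit 0))⟩,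
    ⟨nat_lit 1, nat_lit 9, nat_lit 10, (.ofNat (nat_lit 8)), (.ofNat (nat_lit 13219275904)), (.ofNat (nat_lit 121762458267356448706221006420864)), (.ofNat (nat_lit 1835008)), (.ofNat (nat_lit 16854756465687847192349638656)), (.ofNat (nat_lit 13219275888)), (.ofNat (nat_lit 13219275920)), (.ofNat (nat_lit 9185113343204959974207)), (.negSucc (nat_lit 9185113343204959974206)), (.negSucc (nat_lit 9185113343204959974206)), (.ofNat (nat_lit 9185113343204959974207)), (.ofNat (nat_lit 0))⟩,
    ⟨nat_lit 0, nat_lit 16, nat_lit 10, (.ofNat (nat_lit 8)), (.ofNat (nat_lit 10247220672)), (.ofNat (nat_lit 149061122435541761645913505821888)), (.ofNat (nat_lit 1310720)), (.ofNat (nat_lit 21670401170170089247306678272)), (.ofNat (nat_lit 10247220656)), (.ofNat (nat_lit 10247220688)), (.ofNat (nat_lit 9185113343204959974207)), (.negSucc (nat_lit 9185113343204959974206)), (.negSucc (nat_lit 9185113343204959974206)), (.ofNat (nat_lit 9185113343204959974207)), (.ofNat (nat_lit 0))⟩,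
    ⟨nat_lit 1, nat_lit 11, nat_lit 15, (.ofNat (nat_lit 8)), (.negSucc (nat_lit 1006933759)), (.ofNat (nat_lit 138742581389813912703942759102336)), (.negSucc (nat_lit 1168422911)), (.ofNat (nat_lit 10751359458335523714126215989248)), (.negSucc (nat_lit 1006933775)), (.negSucc (nat_lit 1006933743)), (.ofNat (nat_lit 9185113343204959974207)), (.negSucc (nat_lit 9185113343204959974206)), (.negSucc (nat_lit 9185113343204959974206)), (.ofNat (nat_lit 9185113343204959974207)), (.ofNat (nat_lit 0))⟩,
    ⟨nat_lit 0, nat_lit 6, nat_lit 11, (.ofNat (nat_lit 8)), (.negSucc (nat_lit 7902812415)), (.ofNat (nat_lit 75403154333466026584474397276544)), (.negSucc (nat_lit 1168947199)), (.ofNat (nat_lit 10746543813631041472071258949632)), (.negSucc (nat_lit 7902812431)), (.negSucc (nat_lit 7902812399)), (.negSucc (nat_lit 9185113343204959974206)), (.ofNat (nat_lit 9185113343204959974207)), (.negSucc (nat_lit 9185113343204959974206)), (.ofNat (nat_lit 9185113343204959974207)), (.ofNat (nat_lit 0))⟩,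
    ⟨nat_lit 0, nat_lit 17, nat_lit 12, (.ofNat (nat_lit 8)), (.negSucc (nat_lit 1333748671)), (.ofNat (nat_lit 12838140201921421189881622637760)), (.negSucc (nat_lit 262143)), (.ofNat (nat_lit 2407822352241121027478519808)), (.negSucc (nat_lit 1333748687)), (.negSucc (nat_lit 1333748655)), (.negSucc (nat_lit 9185113343204959974206)), (.ofNat (nat_lit 9185113343204959974207)), (.negSucc (nat_lit 9185113343204959974206)), (.ofNat (nat_lit 9185113343204959974207)), (.ofNat (nat_lit 0))⟩,
    ⟨nat_lit 1, nat_lit 12, nat_lit 13, (.ofNat (nat_lit 8)), (.ofNat (nat_lit 2686703744)), (.ofNat (nat_lit 49766451333843639701365453471872)), (.ofNat (nat_lit 524288)), (.ofNat (nat_lit 9631289408964484109914079232)), (.ofNat (nat_lit 2686703728)), (.ofNat (nat_lit 2686703760)), (.ofNat (nat_lit 9185113343204959974207)), (.negSucc (nat_lit 9185113343204959974206)), (.negSucc (nat_lit 9185113343204959974206)), (.ofNat (nat_lit 9185113343204959974207)), (.ofNat (nat_lit 0))⟩,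
    ⟨nat_lit 2, nat_lit 13, nat_lit 14, (.ofNat (nat_lit 8)), (.negSucc (nat_lit 5172034495)), (.ofNat (nat_lit 121949852802822702808335418047552)), (.negSucc (nat_lit 1168947199)), (.ofNat (nat_lit 10751359458335523714126215989248)), (.negSucc (nat_lit 5172034511)), (.negSucc (nat_lit 5172034479)), (.negSucc (nat_lit 9185113343204959974206)), (.ofNat (nat_lit 9185113343204959974207)), (.negSucc (nat_lit 9185113343204959974206)), (.ofNat (nat_lit 9185113343204959974207)), (.ofNat (nat_lit 0))⟩,
    ⟨nat_lit 0, nat_lit 14, nat_lit 15, (.ofNat (nat_lit 8)), (.negSucc (nat_lit 2175356671)), (.ofNat (nat_lit 149474678269331507449849146933120)), (.negSucc (nat_lit 1168685055)), (.ofNat (nat_lit 10753767280687764835153694509056)), (.negSucc (nat_lit 2175356687)), (.negSucc (nat_lit 2175356655)), (.ofNat (nat_lit 9185113343204959974207)), (.negSucc (nat_lit 9185113343204959974206)), (.negSucc (nat_lit 9185113343204959974206)), (.ofNat (nat_lit 9185113343204959974207)), (.ofNat (nat_lit 0))⟩,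
    ⟨nat_lit 2, nat_lit 17, nat_lit 7, (.ofNat (nat_lit 8)), (.negSucc (nat_lit 5805162943)), (.ofNat (nat_lit 53908587094665713439739554320064)), (.negSucc (nat_lit 1048575)), (.ofNat (nat_lit 9631289408964484109914079232)), (.negSucc (nat_lit 5805162959)), (.negSucc (nat_lit 5805162927)), (.negSucc (nat_lit 9185113343204959974206)), (.ofNat (nat_lit 9185113343204959974207)), (.negSucc (nat_lit 9185113343204959974206)), (.ofNat (nat_lit 9185113343204959974207)), (.ofNat (nat_lit 0))⟩]
  es := [
    ⟨nat_lit 1, nat_lit 0, (.negSucc (nat_lit 7975829503)), (.negSucc (nat_lit 2927228671)), (.negSucc (nat_lit 7975829487)), (.negSucc (nat_lit 2927228687)), (.negSucc (nat_lit 9185113343204945402960)), (.ofNat (nat_lit 0)), (.ofNat (nat_lit 4815644704482245874721751040))⟩,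
    ⟨nat_lit 1, nat_lit 2, (.negSucc (nat_lit 7975829503)), (.ofNat (nat_lit 1274771328)), (.negSucc (nat_lit 7975829487)), (.ofNat (nat_lit 1274771312)), (.ofNat (nat_lit 9185113343204961062278)), (.ofNat (nat_lit 0)), (.ofNat (nat_lit 24078223522411199956416200704))⟩,
    ⟨nat_lit 2, nat_lit 3, (.ofNat (nat_lit 1274771328)), (.ofNat (nat_lit 4501232128)), (.ofNat (nat_lit 1274771344)), (.ofNat (nat_lit 4501232112)), (.negSucc (nat_lit 9185113343204940293479)), (.ofNat (nat_lit 0)), (.ofNat (nat_lit 24078223522411199956416200704))⟩,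
    ⟨nat_lit 3, nat_lit 4, (.ofNat (nat_lit 4501232128)), (.ofNat (nat_lit 8463247168)), (.ofNat (nat_lit 4501232144)), (.ofNat (nat_lit 8463247152)), (.ofNat (nat_lit 9185113343204959974207)), (.ofNat (nat_lit 0)), (.ofNat (nat_lit 14446934113446726164871118848))⟩,
    ⟨nat_lit 5, nat_lit 4, (.ofNat (nat_lit 3966092480)), (.ofNat (nat_lit 8463247168)), (.ofNat (nat_lit 3966092496)), (.ofNat (nat_lit 8463247152)), (.negSucc (nat_lit 9185113343204959974206)), (.ofNat (nat_lit 0)), (.ofNat (nat_lit 38525157635857936439656316928))⟩,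
    ⟨nat_lit 6, nat_lit 5, (.negSucc (nat_lit 9156729087)), (.ofNat (nat_lit 3966092480)), (.negSucc (nat_lit 9156729071)), (.ofNat (nat_lit 3966092464)), (.ofNat (nat_lit 9185113343204959974207)), (.ofNat (nat_lit 0)), (.ofNat (nat_lit 21493087627262082944142517899264))⟩,
    ⟨nat_lit 6, nat_lit 12, (.negSucc (nat_lit 9156729087)), (.negSucc (nat_lit 7902812415)), (.negSucc (nat_lit 9156729071)), (.negSucc (nat_lit 7902812431)), (.negSucc (nat_lit 9185113343204959974206)), (.ofNat (nat_lit 0)), (.ofNat (nat_lit 9631289408964484109914079232))⟩,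
    ⟨nat_lit 17, nat_lit 7, (.negSucc (nat_lit 5805162943)), (.ofNat (nat_lit 5721769024)), (.negSucc (nat_lit 5805162927)), (.ofNat (nat_lit 5721769008)), (.ofNat (nat_lit 9185113343204959974207)), (.ofNat (nat_lit 0)), (.ofNat (nat_lit 19262578817928968219828158464))⟩,
    ⟨nat_lit 7, nat_lit 8, (.ofNat (nat_lit 5721769024)), (.ofNat (nat_lit 11540301248)), (.ofNat (nat_lit 5721769040)), (.ofNat (nat_lit 11540301232)), (.negSucc (nat_lit 9185113343204959974206)), (.ofNat (nat_lit 0)), (.ofNat (nat_lit 28893868226893452329742237696))⟩,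
    ⟨nat_lit 8, nat_lit 9, (.ofNat (nat_lit 11540301248)), (.ofNat (nat_lit 13219275904)), (.ofNat (nat_lit 11540301264)), (.ofNat (nat_lit 13219275888)), (.ofNat (nat_lit 9185113343204959974207)), (.ofNat (nat_lit 0)), (.ofNat (nat_lit 0))⟩,
    ⟨nat_lit 10, nat_lit 9, (.ofNat (nat_lit 10247220672)), (.ofNat (nat_lit 13219275904)), (.ofNat (nat_lit 10247220688)), (.ofNat (nat_lit 13219275888)), (.negSucc (nat_lit 9185113343204959974206)), (.ofNat (nat_lit 0)), (.ofNat (nat_lit 33709512931375694384699277312))⟩,
    ⟨nat_lit 12, nat_lit 11, (.negSucc (nat_lit 7902812415)), (.negSucc (nat_lit 1006933759)), (.negSucc (nat_lit 7902812399)), (.negSucc (nat_lit 1006933775)), (.ofNat (nat_lit 9185113343204959974207)), (.ofNat (nat_lit 0)), (.ofNat (nat_lit 21483456337853118460032603820032))⟩,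
    ⟨nat_lit 13, nat_lit 14, (.negSucc (nat_lit 1333748671)), (.ofNat (nat_lit 2686703744)), (.negSucc (nat_lit 1333748655)), (.ofNat (nat_lit 2686703728)), (.ofNat (nat_lit 9185113343204959974207)), (.ofNat (nat_lit 0)), (.ofNat (nat_lit 4815644704482242054957039616))⟩,
    ⟨nat_lit 15, nat_lit 14, (.negSucc (nat_lit 5172034495)), (.ofNat (nat_lit 2686703744)), (.negSucc (nat_lit 5172034479)), (.ofNat (nat_lit 2686703728)), (.negSucc (nat_lit 9185113343204959974206)), (.ofNat (nat_lit 0)), (.ofNat (nat_lit 14446934113446726164871118848))⟩,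
    ⟨nat_lit 15, nat_lit 16, (.negSucc (nat_lit 5172034495)), (.negSucc (nat_lit 2175356671)), (.negSucc (nat_lit 5172034479)), (.negSucc (nat_lit 2175356687)), (.ofNat (nat_lit 9185113343204959974207)), (.ofNat (nat_lit 0)), (.ofNat (nat_lit 21488271982557600702087560859648))⟩,
    ⟨nat_lit 16, nat_lit 11, (.negSucc (nat_lit 2175356671)), (.negSucc (nat_lit 1006933759)), (.negSucc (nat_lit 2175356655)), (.negSucc (nat_lit 1006933775)), (.negSucc (nat_lit 9185113343204959974206)), (.ofNat (nat_lit 0)), (.ofNat (nat_lit 19262578817928968219828158464))⟩,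
    ⟨nat_lit 0, nat_lit 10, (.negSucc (nat_lit 2927228671)), (.ofNat (nat_lit 10247220672)), (.negSucc (nat_lit 2927228655)), (.ofNat (nat_lit 10247220656)), (.ofNat (nat_lit 9185113343204959974207)), (.ofNat (nat_lit 0)), (.ofNat (nat_lit 9631289408964484109914079232))⟩,
    ⟨nat_lit 17, nat_lit 13, (.negSucc (nat_lit 5805162943)), (.negSucc (nat_lit 1333748671)), (.negSucc (nat_lit 5805162927)), (.negSucc (nat_lit 1333748687)), (.negSucc (nat_lit 9185113343204959974206)), (.ofNat (nat_lit 0)), (.ofNat (nat_lit 0))⟩]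

theorem ok124 : stOK 17 17 S124 = true := by decide +kernel

end LCA.CapJ
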