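import Pool.Agent.LCA.CapJ.D3
import Pool.Agent.LCA.CapJ.D4

set_option maxRecDepth 100000

namespace LCA.CapJ

open LCA

theorem f75 : goOK (.ofNat (nat_lit 1)) S75 S76 = true := by decide +kernel

theorem f76 : goOK (.ofNat (nat_lit 1)) S76 S77 = true := by decide +kernel

theorem f77 : goOK (.ofNat (nat_lit 1)) S77 S78 = true := by decide +kernel

theorem f78 : inOK 22 22 23 23 [nat_lit 0, nat_lit 1, nat_lit 2, nat_lit 3, nat_lit 4, nat_lit 5, nat_lit 6, nat_lit 7, nat_lit 8, nat_lit 9, nat_lit 10, nat_lit 11, nat_lit 13, nat_lit 14, nat_lit 15, nat_lit 16, nat_lit 17, nat_lit 18, nat_lit 19, nat_lit 20, nat_lit 21, nat_lit 22, nat_lit 23] [nat_lit 0, nat_lit 1, nat_lit 2, nat_lit 3, nat_lit 4, nat_lit 5, nat_lit 6, nat_lit 7, nat_lit 8, nat_lit 9, nat_lit 10, nat_lit 11, nat_lit 0, nat_lit 12, nat_lit 13, nat_lit 14, nat_lit 15, nat_lit 16, nat_lit 17, nat_lit 18, nat_lit 19, nat_lit 20, nat_lit 21, nat_lit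 22] [nat_lit 0, nat_lit 1, nat_lit 2, nat_lit 3, nat_lit 4, nat_lit 5, nat_lit 6, nat_lit 7, nat_lit 8, nat_lit 9, nat_lit 10, nat_lit 11, nat_lit 12, nat_lit 13, nat_lit 14, nat_lit 15, nat_lit 16, nat_lit 17, nat_lit 18, nat_lit 19, nat_lit 20, nat_lit 22, nat_lit 23] [nat_lit 0, nat_lit 1, nat_lit 2, nat_lit 3, nat_lit 4, nat_lit 5, nat_lit 6, nat_lit 7, nat_lit 8, nat_lit 9, nat_lit 10, nat_lit 11, nat_lit 12, nat_lit 13, nat_lit 14, nat_lit 15, nat_lit 16, nat_lit 17, nat_lit 18, nat_lit 19, nat_lit 20, nat_lit 0, nat_lit 21, nat_lit 22] 21 12 21 S79 S78 = true := by decide +kernel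

theorem f79 : inOK 21 21 22 22 [nat_lit 0, nat_lit 1, nat_lit 2, nat_lit 3, nat_lit 4, nat_lit 5, nat_lit 6, nat_lit 7, nat_lit 8, nat_lit 9, nat_lit 10, nat_lit 12, nat_lit 13, nat_lit 14, nat_lit 15, nat_lit 16, nat_lit 17, nat_lit 18, nat_lit 19, nat_lit 20, nat_lit 21, nat_lit 22] [nat_lit 0, nat_lit 1, nat_lit 2, nat_lit 3, nat_lit 4, nat_lit 5, nat_lit 6, nat_lit 7, nat_lit 8, nat_lit 9, nat_lit 10, nat_lit 0, nat_lit 11, nat_lit 12, nat_lit 13, nat_lit 14, nat_lit 15, nat_lit 16, nat_lit 17, nat_lit 18, nat_lit 19, nat_lit 20, nat_lit 21] [nat_lit 0, nat_lit 1, nat_lit 2, nat_lit 3, nat_lit 4, nat_lit 5, nat_lit 6, nat_lit 7, nat_lit 8, nat_lit 9, nat_lit 10, nat_lit 11, nat_lit 12, nat_lit 13, nat_lit 14, nat_lit 15, nat_lit 16, nat_lit 17, nat_lit 18, nat_lit 19, nat_lit 20, nat_lit 21] [nat_lit 0, nat_lit 1, nat_lit 2, nat_lit 3, nat_lit 4, nat_lit 5, nat_lit 6, nat_lit 7, nat_lit 8, nat_lit 9, nat_lit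 10, nat_lit 11, nat_lit 12, nat_lit 13, nat_lit 14, nat_lit 15, nat_lit 16, nat_lit 17, nat_lit 18, nat_lit 19, nat_lit 20, nat_lit 21, nat_lit 0] 20 11 22 S80 S79 = true := by decide +kernel

theorem f80 : goOK (.ofNat (nat_lit 1)) S80 S81 = true := by decide +kernel

theorem f81 : goOK (.ofNat (nat_lit 1)) S81 S82 = true := by decide +kernel

theorem f82 : goOK (.ofNat (nat_lit 1)) S82 S83 = true := by decide +kernel

theorem f83 : goOK (.ofNat (nat_lit 1)) S83 S84 = true := by decide +kernel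

theorem f84 : goOK (.ofNat (nat_lit 1)) S84 S85 = true := by decide +kernel

theorem f85 : goOK (.ofNat (nat_lit 1)) S85 S86 = true := by decide +kernel

theorem f86 : goOK (.ofNat (nat_lit 1)) S86 S87 = true := by decide +kernel

theorem f87 : goOK (.ofNat (nat_lit 1)) S87 S88 = true := by decide +kernel

theorem f88 : goOK (.ofNat (nat_lit 1)) S88 S89 = true := by decide +kernel

theorem f89 : goOK (.ofNat (nat_lit 1)) S89 S90 = true := by decide +kernel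

theorem f90 : goOK (.ofNat (nat_lit 1)) S90 S91 = true := by decide +kernel

theorem f91 : goOK (.ofNat (nat_lit 1)) S91 S92 = true := by decide +kernel

theorem f92 : goOK (.ofNat (nat_lit 1)) S92 S93 = true := by decide +kernel

theorem f93 : goOK (.ofNat (nat_lit 1)) S93 S94 = true := by decide +kernel

theorem f94 : goOK (.ofNat (nat_lit 1)) S94 S95 = true := by decide +kernel

theorem f95 : goOK (.ofNat (nat_lit 1)) S95 S96 = true := by decide +kernel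

theorem f96 : inOK 20 20 21 21 [nat_lit 0, nat_lit 1, nat_lit 2, nat_lit 3, nat_lit 4, nat_lit 5, nat_lit 6, nat_lit 7, nat_lit 8, nat_lit 9, nat_lit 10, nat_lit 11, nat_lit 13, nat_lit 14, nat_lit 15, nat_lit 16, nat_lit 17, nat_lit 18, nat_lit 19, nat_lit 20, nat_lit 21] [nat_lit 0, nat_lit 1, nat_lit 2, nat_lit 3, nat_lit 4, nat_lit 5, nat_lit 6, nat_lit 7, nat_lit 8, nat_lit 9, nat_lit 10, nat_lit 11, nat_lit 0, nat_lit 12, nat_lit 13, nat_lit 14, nat_lit 15, nat_lit 16, nat_lit 17, nat_lit 18, nat_lit 19, nat_lit 20] [nat_lit 0, nat_lit 1, nat_lit 2, nat_lit 3, nat_lit 4, nat_lit 5, nat_lit 6, nat_lit 7, nat_lit 8, nat_lit 9, nat_lit 10, nat_lit 11, nat_lit 12, nat_lit 14, nat_lit 15, nat_lit 16, nat_lit 17, nat_lit 18, nat_lit 19, nat_lit 20, nat_lit 21] [nat_lit 0, nat_lit 1, nat_lit 2, nat_lit 3, nat_lit 4, nat_lit 5, nat_lit 6, nat_lit 7, nat_lit 8, nat_lit 9, nat_lit 10, nat_lit 11, nat_lit 12, nat_lit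 0, nat_lit 13, nat_lit 14, nat_lit 15, nat_lit 16, nat_lit 17, nat_lit 18, nat_lit 19, nat_lit 20] 12 12 13 S97 S96 = true := by decide +kernel

theorem f97 : inOK 19 19 20 20 [nat_lit 0, nat_lit 1, nat_lit 2, nat_lit 3, nat_lit 4, nat_lit 5, nat_lit 6, nat_lit 7, nat_lit 8, nat_lit 9, nat_lit 10, nat_lit 12, nat_lit 13, nat_lit 14, nat_lit 15, nat_lit 16, nat_lit 17, nat_lit 18, nat_lit 19, nat_lit 20] [nat_lit 0, nat_lit 1, nat_lit 2, nat_lit 3, nat_lit 4, nat_lit 5, nat_lit 6, nat_lit 7, nat_lit 8, nat_lit 9, nat_lit 10, nat_lit 0, nat_lit 11, nat_lit 12, nat_lit 13, nat_lit 14, nat_lit 15, nat_lit 16, nat_lit 17, nat_lit 18, nat_lit 19] [nat_lit 0, nat_lit 1, nat_lit 2, nat_lit 3, nat_lit 4, nat_lit 5, nat_lit 6, nat_lit 7, nat_lit 8, nat_lit 9, nat_lit 10, nat_lit 11, nat_lit 13, nat_lit 14, nat_lit 15, nat_lit 16, nat_lit 17, nat_lit 18, nat_lit 19, nat_lit 20] [nat_lit 0, nat_lit 1, nat_lit 2, nat_lit 3,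 nat_lit 4, nat_lit 5, nat_lit 6, nat_lit 7, nat_lit 8, nat_lit 9, nat_lit 10, nat_lit 11, nat_lit 0, nat_lit 12, nat_lit 13, nat_lit 14, nat_lit 15, nat_lit 16, nat_lit 17, nat_lit 18, nat_lit 19] 11 11 12 S98 S97 = true := by decide +kernel

theorem f98 : goOK (.ofNat (nat_lit 1)) S98 S99 = true := by decide +kernel

theorem f99 : goOK (.ofNat (nat_lit 1)) S99 S100 = true := by decide +kernel

end LCA.CapJ
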