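import Pool.Agent.LCA.Chk2

set_option maxRecDepth 100000

namespace LCA.CapJ

open LCA

def S125 : SD where
  vs := [
    ⟨nat_lit 0, nat_lit 0, nat_lit 16, (.ofNat (nat_lit 8)), (.negSucc (nat_lit 2927228671)), (.ofNat (nat_lit 28490629351223741260175578830720)), (.ofNat (nat_lit 0)), (.ofNat (nat_lit 438317374634211403999741079040)), (.negSucc (nat_lit 2927228687)), (.negSucc (nat_lit 2927228655)), (.negSucc (nat_lit 9328630739192537473802)), (.ofNat (nat_lit 9328630739192537473803)), (.negSucc (nat_lit 9328630739192537473802)), (.ofNat (nat_lit 9328630739192537473803)), (.ofNat (nat_lit 861104375925523282560))⟩,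
    ⟨nat_lit 2, nat_lit 0, nat_lit 1, (.ofNat (nat_lit 8)), (.negSucc (nat_lit 7975829503)), (.ofNat (nat_lit 75587162262531960958608582834816)), (.ofNat (nat_lit 0)), (.ofNat (nat_lit 1162879419423642194529265219584)), (.negSucc (nat_lit 7975829519)), (.negSucc (nat_lit 7975829487)), (.negSucc (nat_lit 9328630739192537473802)), (.ofNat (nat_lit 9328630739192537473803)), (.negSucc (nat_lit 9328630739192537473802)), (.ofNat (nat_lit 9328630739192537473803)), (.ofNat (nat_lit 861104375925521106418))⟩,
    ⟨nat_lit 0, nat_lit 1, nat_lit 2, (.ofNat (nat_lit 8)), (.ofNat (nat_lit 1274771328)), (.ofNat (nat_lit 161882601539927223121961792838912)), (.ofNat (nat_lit 0)), (.ofNat (nat_lit 2490501562152790008646004608384)), (.ofNat (nat_lit 1274771312)), (.ofNat (nat_lit 1274771344)), (.ofNat (nat_lit 9328630739192537473803)), (.negSucc (nat_lit 9328630739192537473802)), (.negSucc (nat_lit 9328630739192537473802)), (.ofNat (nat_lit 9328630739192537473803)), (.ofNat (nat_lit 861104375925500006746))⟩,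
    ⟨nat_lit 0, nat_lit 2, nat_lit 3, (.ofNat (nat_lit 8)), (.ofNat (nat_lit 4501232128)), (.ofNat (nat_lit 131784140142247477310205386416512)), (.ofNat (nat_lit 0)), (.ofNat (nat_lit 2027448309880730420143313769984)), (.ofNat (nat_lit 4501232112)), (.ofNat (nat_lit 4501232144)), (.negSucc (nat_lit 9328630739192537473802)), (.ofNat (nat_lit 9328630739192537473803)), (.negSucc (nat_lit 9328630739192537473802)), (.ofNat (nat_lit 9328630739192537473803)), (.ofNat (nat_lit 861104375925543720484))⟩,
    ⟨nat_lit 1, nat_lit 3, nat_lit 4, (.ofNat (nat_lit 8)), (.ofNat (nat_lit 8463247168)), (.ofNat (nat_lit 168744315433534628237176478413632)), (.ofNat (nat_lit 0)), (.ofNat (nat_lit 2596066391285148126708259693824)), (.ofNat (nat_lit 8463247152)), (.ofNat (nat_lit 8463247184)), (.ofNat (nat_lit 9328630739192537473803)), (.negSucc (nat_lit 9328630739192537473802)), (.negSucc (nat_lit 9328630739192537473802)), (.ofNat (nat_lit 9328630739192537473803)), (.ofNat (nat_lit 861104375925464997576))⟩,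
    ⟨nat_lit 0, nat_lit 5, nat_lit 4, (.ofNat (nat_lit 8)), (.ofNat (nat_lit 3966092480)), (.ofNat (nat_lit 210696610894915253472105317052096)), (.ofNat (nat_lit 0)), (.ofNat (nat_lit 3241486321460234668779729199872)), (.ofNat (nat_lit 3966092464)), (.ofNat (nat_lit 3966092496)), (.ofNat (nat_lit 9328630739192537473803)), (.negSucc (nat_lit 9328630739192537473802)), (.negSucc (nat_lit 9328630739192537473802)), (.ofNat (nat_lit 9328630739192537473803)), (.ofNat (nat_lit 861104375925464997576))⟩,
    ⟨nat_lit 2, nat_lit 6, nat_lit 5, (.ofNat (nat_lit 8)), (.negSucc (nat_lit 9156729087)), (.ofNat (nat_lit 88278654230731639806235073668992)), (.ofNat (nat_lit 0)), (.ofNat (nat_lit 1358133142011255997009829113344)), (.negSucc (nat_lit 9156729103)), (.negSucc (nat_lit 9156729071)), (.negSucc (nat_lit 9328630739192537473802)), (.ofNat (nat_lit 9328630739192537473803)), (.negSucc (nat_lit 9328630739192537473802)), (.ofNat (nat_lit 9328630739192537473803)), (.ofNat (nat_lit 861104375925464997576))⟩,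
    ⟨nat_lit 0, nat_lit 7, nat_lit 8, (.ofNat (nat_lit 8)), (.ofNat (nat_lit 5721769024)), (.ofNat (nat_lit 162281400653285795926047470669760)), (.ofNat (nat_lit 0)), (.ofNat (nat_lit 2496636933127473783460792600320)), (.ofNat (nat_lit 5721769008)), (.ofNat (nat_lit 5721769040)), (.ofNat (nat_lit 9328630739192537473803)), (.negSucc (nat_lit 9328630739192537473802)), (.negSucc (nat_lit 9328630739192537473802)), (.ofNat (nat_lit 9328630739192537473803)), (.ofNat (nat_lit 861104375925464997576))⟩,
    ⟨nat_lit 0, nat_lit 8, nat_lit 9, (.ofNat (nat_lit 8)), (.ofNat (nat_lit 11540301248)), (.ofNat (nat_lit 108002462091497076894397159341888)), (.ofNat (nat_lit 0)), (.ofNat (nat_lit 1661576339869185798364119618816)), (.ofNat (nat_lit 11540301232)), (.ofNat (nat_lit 11540301264)), (.negSucc (nat_lit 9328630739192537473802)), (.ofNat (nat_lit 9328630739192537473803)), (.negSucc (nat_lit 9328630739192537473802)), (.ofNat (nat_lit 9328630739192537473803)), (.ofNat (nat_lit 861104375925464997576))⟩,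
    ⟨nat_lit 1, nat_lit 9, nat_lit 10, (.ofNat (nat_lit 8)), (.ofNat (nat_lit 13219275904)), (.ofNat (nat_lit 123664996677783893217242660278656)), (.ofNat (nat_lit 0)), (.ofNat (nat_lit 1902538410427444511021653857792)), (.ofNat (nat_lit 13219275888)), (.ofNat (nat_lit 13219275920)), (.ofNat (nat_lit 9328630739192537473803)), (.negSucc (nat_lit 9328630739192537473802)), (.negSucc (nat_lit 9328630739192537473802)), (.ofNat (nat_lit 9328630739192537473803)), (.ofNat (nat_lit 861104375925464997576))⟩,
    ⟨nat_lit 0, nat_lit 16, nat_lit 10, (.ofNat (nat_lit 8)), (.ofNat (nat_lit 10247220672)), (.ofNat (nat_lit 151390202473597101671614929365952)), (.ofNat (nat_lit 0)), (.ofNat (nat_lit 2329080038055340025701423544064)), (.ofNat (nat_lit 10247220656)), (.ofNat (nat_lit 10247220688)), (.ofNat (nat_lit 9328630739192537473803)), (.negSucc (nat_lit 9328630739192537473802)), (.negSucc (nat_lit 9328630739192537473802)), (.ofNat (nat_lit 9328630739192537473803)), (.ofNat (nat_lit 861104375925464997576))⟩,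
    ⟨nat_lit 1, nat_lit 11, nat_lit 15, (.ofNat (nat_lit 8)), (.negSucc (nat_lit 1006933759)), (.ofNat (nat_lit 140910434224029755089926995574144)), (.ofNat (nat_lit 0)), (.ofNat (nat_lit 2167852834215842385984236471808)), (.negSucc (nat_lit 1006933775)), (.negSucc (nat_lit 1006933743)), (.ofNat (nat_lit 9328630739192537473803)), (.negSucc (nat_lit 9328630739192537473802)), (.negSucc (nat_lit 9328630739192537473802)), (.ofNat (nat_lit 9328630739192537473803)), (.ofNat (nat_lit 861104375925464997576))⟩,
    ⟨nat_lit 0, nat_lit 6, nat_lit 11, (.ofNat (nat_lit 8)), (.negSucc (nat_lit 7902812415)), (.ofNat (nat_lit 76581328619926433249848728725376)), (.ofNat (nat_lit 0)), (.ofNat (nat_lit 1178174286460406665374331448832)), (.negSucc (nat_lit 7902812431)), (.negSucc (nat_lit 7902812399)), (.negSucc (nat_lit 9328630739192537473802)), (.ofNat (nat_lit 9328630739192537473803)), (.negSucc (nat_lit 9328630739192537473802)), (.ofNat (nat_lit 9328630739192537473803)), (.ofNat (nat_lit 861104375925464997576))⟩,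
    ⟨nat_lit 0, nat_lit 17, nat_lit 12, (.ofNat (nat_lit 8)), (.negSucc (nat_lit 1333748671)), (.ofNat (nat_lit 13038736142576443395972147119040)), (.ofNat (nat_lit 0)), (.ofNat (nat_lit 200595940655022206090524481280)), (.negSucc (nat_lit 1333748687)), (.negSucc (nat_lit 1333748655)), (.negSucc (nat_lit 9328630739192537473802)), (.ofNat (nat_lit 9328630739192537473803)), (.negSucc (nat_lit 9328630739192537473802)), (.ofNat (nat_lit 9328630739192537473803)), (.ofNat (nat_lit 861104375925464997576))⟩,
    ⟨nat_lit 1, nat_lit 12, nat_lit 13, (.ofNat (nat_lit 8)), (.ofNat (nat_lit 2686703744)), (.ofNat (nat_lit 50544052135934946571693955177088)), (.ofNat (nat_lit 0)), (.ofNat (nat_lit 777600802091306870328501705216)), (.ofNat (nat_lit 2686703728)), (.ofNat (nat_lit 2686703760)), (.ofNat (nat_lit 9328630739192537473803)), (.negSucc (nat_lit 9328630739192537473802)), (.negSucc (nat_lit 9328630739192537473802)), (.ofNat (nat_lit 9328630739192537473803)), (.ofNat (nat_lit 861104375925464997576))⟩,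
    ⟨nat_lit 2, nat_lit 13, nat_lit 14, (.ofNat (nat_lit 8)), (.negSucc (nat_lit 5172034495)), (.ofNat (nat_lit 123855319252866807539702589503808)), (.ofNat (nat_lit 0)), (.ofNat (nat_lit 1905466450044104731367171456256)), (.negSucc (nat_lit 5172034511)), (.negSucc (nat_lit 5172034479)), (.negSucc (nat_lit 9328630739192537473802)), (.ofNat (nat_lit 9328630739192537473803)), (.negSucc (nat_lit 9328630739192537473802)), (.ofNat (nat_lit 9328630739192537473803)), (.ofNat (nat_lit 861104375925464997576))⟩,
    ⟨nat_lit 0, nat_lit 14, nat_lit 15, (.ofNat (nat_lit 8)), (.negSucc (nat_lit 2175356671)), (.ofNat (nat_lit 151810220117289812253737020548480)), (.ofNat (nat_lit 0)), (.ofNat (nat_lit 2335541847958304803887873615360)), (.negSucc (nat_lit 2175356687)), (.negSucc (nat_lit 2175356655)), (.ofNat (nat_lit 9328630739192537473803)), (.negSucc (nat_lit 9328630739192537473802)), (.negSucc (nat_lit 9328630739192537473802)), (.ofNat (nat_lit 9328630739192537473803)), (.ofNat (nat_lit 861104375925464997576))⟩,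
    ⟨nat_lit 2, nat_lit 17, nat_lit 7, (.ofNat (nat_lit 8)), (.negSucc (nat_lit 5805162943)), (.ofNat (nat_lit 54750908768019865212229707435456)), (.ofNat (nat_lit 0)), (.ofNat (nat_lit 842321673354151772490153115392)), (.negSucc (nat_lit 5805162959)), (.negSucc (nat_lit 5805162927)), (.negSucc (nat_lit 9328630739192537473802)), (.ofNat (nat_lit 9328630739192537473803)), (.negSucc (nat_lit 9328630739192537473802)), (.ofNat (nat_lit 9328630739192537473803)), (.ofNat (nat_lit 861104375925464997576))⟩]
  es := [
    ⟨nat_lit 1, nat_lit 0, (.negSucc (nat_lit 7975829503)), (.negSucc (nat_lit 2927228671)), (.negSucc (nat_lit 7975829487)), (.negSucc (nat_lit 2927228687)), (.negSucc (nat_lit 9328630739192537473802)), (.negSucc (nat_lit 143517395987592070841)), (.ofNat (nat_lit 18209138168554137991183497216))⟩,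
    ⟨nat_lit 1, nat_lit 2, (.negSucc (nat_lit 7975829503)), (.ofNat (nat_lit 1274771328)), (.negSucc (nat_lit 7975829487)), (.ofNat (nat_lit 1274771312)), (.ofNat (nat_lit 9328630739192537473803)), (.ofNat (nat_lit 143517395987576411525)), (.ofNat (nat_lit 2307549700678605355024805853184))⟩,
    ⟨nat_lit 2, nat_lit 3, (.ofNat (nat_lit 1274771328)), (.ofNat (nat_lit 4501232128)), (.ofNat (nat_lit 1274771344)), (.ofNat (nat_lit 4501232112)), (.negSucc (nat_lit 9328630739192537473802)), (.negSucc (nat_lit 143517395987597180322)), (.ofNat (nat_lit 2673453423627001137735410787328))⟩,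
    ⟨nat_lit 3, nat_lit 4, (.ofNat (nat_lit 4501232128)), (.ofNat (nat_lit 8463247168)), (.ofNat (nat_lit 4501232144)), (.ofNat (nat_lit 8463247152)), (.ofNat (nat_lit 9328630739192537473803)), (.ofNat (nat_lit 143517395987577499596)), (.ofNat (nat_lit 1381443196134548290071891549696))⟩,
    ⟨nat_lit 5, nat_lit 4, (.ofNat (nat_lit 3966092480)), (.ofNat (nat_lit 8463247168)), (.ofNat (nat_lit 3966092496)), (.ofNat (nat_lit 8463247152)), (.negSucc (nat_lit 9328630739192537473802)), (.negSucc (nat_lit 143517395987577499595)), (.ofNat (nat_lit 3810689586435747963344627837952))⟩,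
    ⟨nat_lit 6, nat_lit 5, (.negSucc (nat_lit 9156729087)), (.ofNat (nat_lit 3966092480)), (.negSucc (nat_lit 9156729071)), (.ofNat (nat_lit 3966092464)), (.ofNat (nat_lit 9328630739192537473803)), (.ofNat (nat_lit 143517395987577499596)), (.ofNat (nat_lit 2672283056484721374214830561792))⟩,
    ⟨nat_lit 6, nat_lit 12, (.negSucc (nat_lit 9156729087)), (.negSucc (nat_lit 7902812415)), (.negSucc (nat_lit 9156729071)), (.negSucc (nat_lit 7902812431)), (.negSucc (nat_lit 9328630739192537473802)), (.negSucc (nat_lit 143517395987577499595)), (.ofNat (nat_lit 43983227537790619804827664896))⟩,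
    ⟨nat_lit 17, nat_lit 7, (.negSucc (nat_lit 5805162943)), (.ofNat (nat_lit 5721769024)), (.negSucc (nat_lit 5805162927)), (.ofNat (nat_lit 5721769008)), (.ofNat (nat_lit 9328630739192537473803)), (.ofNat (nat_lit 143517395987577499596)), (.ofNat (nat_lit 1675463542360610957473027286016))⟩,
    ⟨nat_lit 7, nat_lit 8, (.ofNat (nat_lit 5721769024)), (.ofNat (nat_lit 11540301248)), (.ofNat (nat_lit 5721769040)), (.ofNat (nat_lit 11540301232)), (.negSucc (nat_lit 9328630739192537473802)), (.negSucc (nat_lit 143517395987577499595)), (.ofNat (nat_lit 3317810323894336609448557914624))⟩,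
    ⟨nat_lit 8, nat_lit 9, (.ofNat (nat_lit 11540301248)), (.ofNat (nat_lit 13219275904)), (.ofNat (nat_lit 11540301264)), (.ofNat (nat_lit 13219275888)), (.ofNat (nat_lit 9328630739192537473803)), (.ofNat (nat_lit 143517395987577499596)), (.ofNat (nat_lit 5342355844034987279681323008))⟩,
    ⟨nat_lit 10, nat_lit 9, (.ofNat (nat_lit 10247220672)), (.ofNat (nat_lit 13219275904)), (.ofNat (nat_lit 10247220688)), (.ofNat (nat_lit 13219275888)), (.negSucc (nat_lit 9328630739192537473802)), (.negSucc (nat_lit 143517395987577499595)), (.ofNat (nat_lit 3799734465010854034763626392576))⟩,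
    ⟨nat_lit 12, nat_lit 11, (.negSucc (nat_lit 7902812415)), (.negSucc (nat_lit 1006933759)), (.negSucc (nat_lit 7902812399)), (.negSucc (nat_lit 1006933775)), (.ofNat (nat_lit 9328630739192537473803)), (.ofNat (nat_lit 143517395987577499596)), (.ofNat (nat_lit 2312365345383022710943835232768))⟩,
    ⟨nat_lit 13, nat_lit 14, (.negSucc (nat_lit 1333748671)), (.ofNat (nat_lit 2686703744)), (.negSucc (nat_lit 1333748655)), (.ofNat (nat_lit 2686703728)), (.ofNat (nat_lit 9328630739192537473803)), (.ofNat (nat_lit 143517395987577499596)), (.ofNat (nat_lit 392012076962351824673770017792))⟩,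
    ⟨nat_lit 15, nat_lit 14, (.negSucc (nat_lit 5172034495)), (.ofNat (nat_lit 2686703744)), (.negSucc (nat_lit 5172034479)), (.ofNat (nat_lit 2686703728)), (.negSucc (nat_lit 9328630739192537473802)), (.negSucc (nat_lit 143517395987577499595)), (.ofNat (nat_lit 1163189527220261915983233392640))⟩,
    ⟨nat_lit 15, nat_lit 16, (.negSucc (nat_lit 5172034495)), (.negSucc (nat_lit 2175356671)), (.negSucc (nat_lit 5172034479)), (.negSucc (nat_lit 2175356687)), (.ofNat (nat_lit 9328630739192537473803)), (.ofNat (nat_lit 143517395987577499596)), (.ofNat (nat_lit 2647743372867947546751109519872))⟩,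
    ⟨nat_lit 16, nat_lit 11, (.negSucc (nat_lit 2175356671)), (.negSucc (nat_lit 1006933759)), (.negSucc (nat_lit 2175356655)), (.negSucc (nat_lit 1006933775)), (.negSucc (nat_lit 9328630739192537473802)), (.negSucc (nat_lit 143517395987577499595)), (.ofNat (nat_lit 2023340323048662061024637710848))⟩,
    ⟨nat_lit 0, nat_lit 10, (.negSucc (nat_lit 2927228671)), (.ofNat (nat_lit 10247220672)), (.negSucc (nat_lit 2927228655)), (.ofNat (nat_lit 10247220656)), (.ofNat (nat_lit 9328630739192537473803)), (.ofNat (nat_lit 143517395987577499596)), (.ofNat (nat_lit 858425611099826016639220695552))⟩,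
    ⟨nat_lit 17, nat_lit 13, (.negSucc (nat_lit 5805162943)), (.negSucc (nat_lit 1333748671)), (.negSucc (nat_lit 5805162927)), (.negSucc (nat_lit 1333748687)), (.negSucc (nat_lit 9328630739192537473802)), (.negSucc (nat_lit 143517395987577499595)), (.ofNat (nat_lit 9179804347692587507278944768))⟩]

theorem ok125 : stOK 17 17 S125 = true := by decide +kernel

def S126 : SD where
  vs := [
    ⟨nat_lit 0, nat_lit 0, nat_lit 16, (.ofNat (nat_lit 8)), (.negSucc (nat_lit 752892095)), (.ofNat (nat_lit 48783994149753971749890214003776)), (.ofNat (nat_lit 2174336576)), (.ofNat (nat_lit 20293364798530230489714635173056)), (.negSucc (nat_lit 752892111)), (.negSucc (nat_lit 752892079)), (.negSucc (nat_lit 9328630739192537473802)), (.ofNat (nat_lit 9328630739192537473803)), (.negSucc (nat_lit 9328630739192537473802)), (.ofNat (nat_lit 9328630739192537473803)), (.ofNat (nat_lit 0))⟩,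
    ⟨nat_lit 2, nat_lit 0, nat_lit 1, (.ofNat (nat_lit 8)), (.negSucc (nat_lit 5802279359)), (.ofNat (nat_lit 95887863394791676113953815848768)), (.ofNat (nat_lit 2173550144)), (.ofNat (nat_lit 20300701132259715155345233013952)), (.negSucc (nat_lit 5802279375)), (.negSucc (nat_lit 5802279343)), (.negSucc (nat_lit 9328630739192537473802)), (.ofNat (nat_lit 9328630739192537473803)), (.negSucc (nat_lit 9328630739192537473802)), (.ofNat (nat_lit 9328630739192537473803)), (.ofNat (nat_lit 0))⟩,
    ⟨nat_lit 0, nat_lit 1, nat_lit 2, (.ofNat (nat_lit 8)), (.ofNat (nat_lit 3449370048)), (.ofNat (nat_lit 182193084450492917831481156307392)), (.ofNat (nat_lit 2174598720)), (.ofNat (nat_lit 20310482910565694709519363468480)), (.ofNat (nat_lit 3449370032)), (.ofNat (nat_lit 3449370064)), (.ofNat (nat_lit 9328630739192537473803)), (.negSucc (nat_lit 9328630739192537473802)), (.negSucc (nat_lit 9328630739192537473802)), (.ofNat (nat_lit 9328630739192537473803)), (.ofNat (nat_lit 0))⟩,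
    ⟨nat_lit 0, nat_lit 2, nat_lit 3, (.ofNat (nat_lit 8)), (.ofNat (nat_lit 6676355136)), (.ofNat (nat_lit 152089732163660182242637684657728)), (.ofNat (nat_lit 2175123008)), (.ofNat (nat_lit 20305592021412704932432298241216)), (.ofNat (nat_lit 6676355120)), (.ofNat (nat_lit 6676355152)), (.negSucc (nat_lit 9328630739192537473802)), (.ofNat (nat_lit 9328630739192537473803)), (.negSucc (nat_lit 9328630739192537473802)), (.ofNat (nat_lit 9328630739192537473803)), (.ofNat (nat_lit 0))⟩,
    ⟨nat_lit 1, nat_lit 3, nat_lit 4, (.ofNat (nat_lit 8)), (.ofNat (nat_lit 10639156608)), (.ofNat (nat_lit 189057243788676817835239374495744)), (.ofNat (nat_lit 2175909440)), (.ofNat (nat_lit 20312928355142189598062896082112)), (.ofNat (nat_lit 10639156592)), (.ofNat (nat_lit 10639156624)), (.ofNat (nat_lit 9328630739192537473803)), (.negSucc (nat_lit 9328630739192537473802)), (.negSucc (nat_lit 9328630739192537473802)), (.ofNat (nat_lit 9328630739192537473803)), (.ofNat (nat_lit 0))⟩,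
    ⟨nat_lit 0, nat_lit 5, nat_lit 4, (.ofNat (nat_lit 8)), (.ofNat (nat_lit 6140691200)), (.ofNat (nat_lit 231021766472939917512885876202368)), (.ofNat (nat_lit 2174598720)), (.ofNat (nat_lit 20325155578024664040780559150272)), (.ofNat (nat_lit 6140691184)), (.ofNat (nat_lit 6140691216)), (.ofNat (nat_lit 9328630739192537473803)), (.negSucc (nat_lit 9328630739192537473802)), (.negSucc (nat_lit 9328630739192537473802)), (.ofNat (nat_lit 9328630739192537473803)), (.ofNat (nat_lit 0))⟩,
    ⟨nat_lit 2, nat_lit 6, nat_lit 5, (.ofNat (nat_lit 8)), (.negSucc (nat_lit 6983703231)), (.ofNat (nat_lit 108589137141297334515754437137472)), (.ofNat (nat_lit 2173025856)), (.ofNat (nat_lit 20310482910565694709519363468480)), (.negSucc (nat_lit 6983703247)), (.negSucc (nat_lit 6983703215)), (.negSucc (nat_lit 9328630739192537473802)), (.ofNat (nat_lit 9328630739192537473803)), (.negSucc (nat_lit 9328630739192537473802)), (.ofNat (nat_lit 9328630739192537473803)), (.ofNat (nat_lit 0))⟩,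
    ⟨nat_lit 0, nat_lit 7, nat_lit 8, (.ofNat (nat_lit 8)), (.ofNat (nat_lit 7896892032)), (.ofNat (nat_lit 182591883563851490635566834138240)), (.ofNat (nat_lit 2175123008)), (.ofNat (nat_lit 20310482910565694709519363468480)), (.ofNat (nat_lit 7896892016)), (.ofNat (nat_lit 7896892048)), (.ofNat (nat_lit 9328630739192537473803)), (.negSucc (nat_lit 9328630739192537473802)), (.negSucc (nat_lit 9328630739192537473802)), (.ofNat (nat_lit 9328630739192537473803)), (.ofNat (nat_lit 0))⟩,
    ⟨nat_lit 0, nat_lit 8, nat_lit 9, (.ofNat (nat_lit 8)), (.ofNat (nat_lit 13716472832)), (.ofNat (nat_lit 128303163223756792049742392355840)), (.ofNat (nat_lit 2176171584)), (.ofNat (nat_lit 20300701132259715155345233013952)), (.ofNat (nat_lit 13716472816)), (.ofNat (nat_lit 13716472848)), (.negSucc (nat_lit 9328630739192537473802)), (.ofNat (nat_lit 9328630739192537473803)), (.negSucc (nat_lit 9328630739192537473802)), (.ofNat (nat_lit 9328630739192537473803)), (.ofNat (nat_lit 0))⟩,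
    ⟨nat_lit 1, nat_lit 9, nat_lit 10, (.ofNat (nat_lit 8)), (.ofNat (nat_lit 15395709632)), (.ofNat (nat_lit 143968143254620103261131425906240)), (.ofNat (nat_lit 2176433728)), (.ofNat (nat_lit 20303146576836210043888765627584)), (.ofNat (nat_lit 15395709616)), (.ofNat (nat_lit 15395709648)), (.ofNat (nat_lit 9328630739192537473803)), (.negSucc (nat_lit 9328630739192537473802)), (.negSucc (nat_lit 9328630739192537473802)), (.ofNat (nat_lit 9328630739192537473803)), (.ofNat (nat_lit 0))⟩,
    ⟨nat_lit 0, nat_lit 16, nat_lit 10, (.ofNat (nat_lit 8)), (.ofNat (nat_lit 12423130112)), (.ofNat (nat_lit 171698239939586301492590760220800)), (.ofNat (nat_lit 2175909440)), (.ofNat (nat_lit 20308037465989199820975830854848)), (.ofNat (nat_lit 12423130096)), (.ofNat (nat_lit 12423130128)), (.ofNat (nat_lit 9328630739192537473803)), (.negSucc (nat_lit 9328630739192537473802)), (.negSucc (nat_lit 9328630739192537473802)), (.ofNat (nat_lit 9328630739192537473803)), (.ofNat (nat_lit 0))⟩,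
    ⟨nat_lit 1, nat_lit 11, nat_lit 15, (.ofNat (nat_lit 8)), (.ofNat (nat_lit 1167140672)), (.ofNat (nat_lit 161220917134595449799446359042624)), (.ofNat (nat_lit 2174074432)), (.ofNat (nat_lit 20310482910565694709519363468480)), (.ofNat (nat_lit 1167140656)), (.ofNat (nat_lit 1167140688)), (.ofNat (nat_lit 9328630739192537473803)), (.negSucc (nat_lit 9328630739192537473802)), (.negSucc (nat_lit 9328630739192537473802)), (.ofNat (nat_lit 9328630739192537473803)), (.ofNat (nat_lit 0))⟩,
    ⟨nat_lit 0, nat_lit 6, nat_lit 11, (.ofNat (nat_lit 8)), (.negSucc (nat_lit 5729262271)), (.ofNat (nat_lit 96886920641339138182281026966592)), (.ofNat (nat_lit 2173550144)), (.ofNat (nat_lit 20305592021412704932432298241216)), (.negSucc (nat_lit 5729262287)), (.negSucc (nat_lit 5729262255)), (.negSucc (nat_lit 9328630739192537473802)), (.ofNat (nat_lit 9328630739192537473803)), (.negSucc (nat_lit 9328630739192537473802)), (.ofNat (nat_lit 9328630739192537473803)), (.ofNat (nat_lit 0))⟩,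
    ⟨nat_lit 0, nat_lit 17, nat_lit 12, (.ofNat (nat_lit 8)), (.negSucc (nat_lit 1334010815)), (.ofNat (nat_lit 13041181587152938284515679732672)), (.negSucc (nat_lit 262143)), (.ofNat (nat_lit 2445444576494888543532613632)), (.negSucc (nat_lit 1334010831)), (.negSucc (nat_lit 1334010799)), (.negSucc (nat_lit 9328630739192537473802)), (.ofNat (nat_lit 9328630739192537473803)), (.negSucc (nat_lit 9328630739192537473802)), (.ofNat (nat_lit 9328630739192537473803)), (.ofNat (nat_lit 0))⟩,
    ⟨nat_lit 1, nat_lit 12, nat_lit 13, (.ofNat (nat_lit 8)), (.ofNat (nat_lit 4861826752)), (.ofNat (nat_lit 70839862379041671949952122963776)), (.ofNat (nat_lit 2175123008)), (.ofNat (nat_lit 20295810243106725378258167786688)), (.ofNat (nat_lit 4861826736)), (.ofNat (nat_lit 4861826768)), (.ofNat (nat_lit 9328630739192537473803)), (.negSucc (nat_lit 9328630739192537473802)), (.negSucc (nat_lit 9328630739192537473802)), (.ofNat (nat_lit 9328630739192537473803)), (.ofNat (nat_lit 0))⟩,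
    ⟨nat_lit 2, nat_lit 13, nat_lit 14, (.ofNat (nat_lit 8)), (.negSucc (nat_lit 2998484351)), (.ofNat (nat_lit 144165802163432502249221952972288)), (.ofNat (nat_lit 2173550144)), (.ofNat (nat_lit 20310482910565694709519363468480)), (.negSucc (nat_lit 2998484367)), (.negSucc (nat_lit 2998484335)), (.negSucc (nat_lit 9328630739192537473802)), (.ofNat (nat_lit 9328630739192537473803)), (.negSucc (nat_lit 9328630739192537473802)), (.ofNat (nat_lit 9328630739192537473803)), (.ofNat (nat_lit 0))⟩,
    ⟨nat_lit 0, nat_lit 14, nat_lit 15, (.ofNat (nat_lit 8)), (.negSucc (nat_lit 1544383)), (.ofNat (nat_lit 172123148472432001851799916630592)), (.ofNat (nat_lit 2173812288)), (.ofNat (nat_lit 20312928355142189598062896082112)), (.negSucc (nat_lit 1544399)), (.negSucc (nat_lit 1544367)), (.ofNat (nat_lit 9328630739192537473803)), (.negSucc (nat_lit 9328630739192537473802)), (.negSucc (nat_lit 9328630739192537473802)), (.ofNat (nat_lit 9328630739192537473803)), (.ofNat (nat_lit 0))⟩,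
    ⟨nat_lit 2, nat_lit 17, nat_lit 7, (.ofNat (nat_lit 8)), (.negSucc (nat_lit 5806211519)), (.ofNat (nat_lit 54760690546325844766403837889984)), (.negSucc (nat_lit 1048575)), (.ofNat (nat_lit 9781778305979554174130454528)), (.negSucc (nat_lit 5806211535)), (.negSucc (nat_lit 5806211503)), (.negSucc (nat_lit 9328630739192537473802)), (.ofNat (nat_lit 9328630739192537473803)), (.negSucc (nat_lit 9328630739192537473802)), (.ofNat (nat_lit 9328630739192537473803)), (.ofNat (nat_lit 0))⟩]
  es := [
    ⟨nat_lit 1, nat_lit 0, (.negSucc (nat_lit 5802279359)), (.negSucc (nat_lit 752892095)), (.negSucc (nat_lit 5802279343)), (.negSucc (nat_lit 752892111)), (.negSucc (nat_lit 9328630739192537473802)), (.ofNat (nat_lit 0)), (.ofNat (nat_lit 40576947818754481425255139891584))⟩,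
    ⟨nat_lit 1, nat_lit 2, (.negSucc (nat_lit 5802279359)), (.ofNat (nat_lit 3449370048)), (.negSucc (nat_lit 5802279343)), (.ofNat (nat_lit 3449370032)), (.ofNat (nat_lit 9328630739192537473803)), (.ofNat (nat_lit 0)), (.ofNat (nat_lit 24454445764948885435326136320))⟩,
    ⟨nat_lit 2, nat_lit 3, (.ofNat (nat_lit 3449370048)), (.ofNat (nat_lit 6676355136)), (.ofNat (nat_lit 3449370064)), (.ofNat (nat_lit 6676355120)), (.negSucc (nat_lit 9328630739192537473802)), (.ofNat (nat_lit 0)), (.ofNat (nat_lit 40596511375366440533603400800640))⟩,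
    ⟨nat_lit 3, nat_lit 4, (.ofNat (nat_lit 6676355136)), (.ofNat (nat_lit 10639156608)), (.ofNat (nat_lit 6676355152)), (.ofNat (nat_lit 10639156592)), (.ofNat (nat_lit 9328630739192537473803)), (.ofNat (nat_lit 0)), (.ofNat (nat_lit 14672667458969331261195681792))⟩,
    ⟨nat_lit 5, nat_lit 4, (.ofNat (nat_lit 6140691200)), (.ofNat (nat_lit 10639156608)), (.ofNat (nat_lit 6140691216)), (.ofNat (nat_lit 10639156592)), (.negSucc (nat_lit 9328630739192537473802)), (.ofNat (nat_lit 0)), (.ofNat (nat_lit 40611184042825409864864596482432))⟩,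
    ⟨nat_lit 6, nat_lit 5, (.negSucc (nat_lit 6983703231)), (.ofNat (nat_lit 6140691200)), (.negSucc (nat_lit 6983703215)), (.ofNat (nat_lit 6140691184)), (.ofNat (nat_lit 9328630739192537473803)), (.ofNat (nat_lit 0)), (.ofNat (nat_lit 39127113223918216696521818112))⟩,
    ⟨nat_lit 6, nat_lit 12, (.negSucc (nat_lit 6983703231)), (.negSucc (nat_lit 5729262271)), (.negSucc (nat_lit 6983703215)), (.negSucc (nat_lit 5729262287)), (.negSucc (nat_lit 9328630739192537473802)), (.ofNat (nat_lit 0)), (.ofNat (nat_lit 40581838707907471202342205118848))⟩,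
    ⟨nat_lit 17, nat_lit 7, (.negSucc (nat_lit 5806211519)), (.ofNat (nat_lit 7896892032)), (.negSucc (nat_lit 5806211503)), (.ofNat (nat_lit 7896892016)), (.ofNat (nat_lit 9328630739192537473803)), (.ofNat (nat_lit 0)), (.ofNat (nat_lit 19563556611959108348260909056))⟩,
    ⟨nat_lit 7, nat_lit 8, (.ofNat (nat_lit 7896892032)), (.ofNat (nat_lit 13716472832)), (.ofNat (nat_lit 7896892048)), (.ofNat (nat_lit 13716472816)), (.negSucc (nat_lit 9328630739192537473802)), (.ofNat (nat_lit 0)), (.ofNat (nat_lit 40601402264519430310690466027904))⟩,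
    ⟨nat_lit 8, nat_lit 9, (.ofNat (nat_lit 13716472832)), (.ofNat (nat_lit 15395709632)), (.ofNat (nat_lit 13716472848)), (.ofNat (nat_lit 15395709616)), (.ofNat (nat_lit 9328630739192537473803)), (.ofNat (nat_lit 0)), (.ofNat (nat_lit 0))⟩,
    ⟨nat_lit 10, nat_lit 9, (.ofNat (nat_lit 12423130112)), (.ofNat (nat_lit 15395709632)), (.ofNat (nat_lit 12423130128)), (.ofNat (nat_lit 15395709616)), (.negSucc (nat_lit 9328630739192537473802)), (.ofNat (nat_lit 0)), (.ofNat (nat_lit 40606293153672420087777531255168))⟩,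
    ⟨nat_lit 12, nat_lit 11, (.negSucc (nat_lit 5729262271)), (.ofNat (nat_lit 1167140672)), (.negSucc (nat_lit 5729262255)), (.ofNat (nat_lit 1167140656)), (.ofNat (nat_lit 9328630739192537473803)), (.ofNat (nat_lit 0)), (.ofNat (nat_lit 29345334917938662522391363584))⟩,
    ⟨nat_lit 13, nat_lit 14, (.negSucc (nat_lit 1334010815)), (.ofNat (nat_lit 4861826752)), (.negSucc (nat_lit 1334010799)), (.ofNat (nat_lit 4861826736)), (.ofNat (nat_lit 9328630739192537473803)), (.ofNat (nat_lit 0)), (.ofNat (nat_lit 4890889152989777087065227264))⟩,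
    ⟨nat_lit 15, nat_lit 14, (.negSucc (nat_lit 2998484351)), (.ofNat (nat_lit 4861826752)), (.negSucc (nat_lit 2998484335)), (.ofNat (nat_lit 4861826736)), (.negSucc (nat_lit 9328630739192537473802)), (.ofNat (nat_lit 0)), (.ofNat (nat_lit 40586729597060460979429270346112))⟩,
    ⟨nat_lit 15, nat_lit 16, (.negSucc (nat_lit 2998484351)), (.negSucc (nat_lit 1544383)), (.negSucc (nat_lit 2998484335)), (.negSucc (nat_lit 1544399)), (.ofNat (nat_lit 9328630739192537473803)), (.ofNat (nat_lit 0)), (.ofNat (nat_lit 34236224070928439609456590848))⟩,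
    ⟨nat_lit 16, nat_lit 11, (.negSucc (nat_lit 1544383)), (.ofNat (nat_lit 1167140672)), (.negSucc (nat_lit 1544367)), (.ofNat (nat_lit 1167140656)), (.negSucc (nat_lit 9328630739192537473802)), (.ofNat (nat_lit 0)), (.ofNat (nat_lit 40591620486213450756516335573376))⟩,
    ⟨nat_lit 0, nat_lit 10, (.negSucc (nat_lit 752892095)), (.ofNat (nat_lit 12423130112)), (.negSucc (nat_lit 752892079)), (.ofNat (nat_lit 12423130096)), (.ofNat (nat_lit 9328630739192537473803)), (.ofNat (nat_lit 0)), (.ofNat (nat_lit 9781778305979554174130454528))⟩,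
    ⟨nat_lit 17, nat_lit 13, (.negSucc (nat_lit 5806211519)), (.negSucc (nat_lit 1334010815)), (.negSucc (nat_lit 5806211503)), (.negSucc (nat_lit 1334010831)), (.negSucc (nat_lit 9328630739192537473802)), (.ofNat (nat_lit 0)), (.ofNat (nat_lit 0))⟩]

theorem ok126 : stOK 17 17 S126 = true := by decide +kernel

def S127 : SD where
  vs := [
    ⟨nat_lit 0, nat_lit 0, nat_lit 16, (.ofNat (nat_lit 8)), (.negSucc (nat_lit 752892095)), (.ofNat (nat_lit 49546244058343877558481349778752)), (.ofNat (nat_lit 0)), (.ofNat (nat_lit 762249908589905808591135774976)), (.negSucc (nat_lit 752892111)), (.negSucc (nat_lit 752892079)), (.negSucc (nat_lit 9474390594492420871830)), (.ofNat (nat_lit 9474390594492420871831)), (.negSucc (nat_lit 9474390594492420871830)), (.ofNat (nat_lit 9474390594492420871831)), (.ofNat (nat_lit 874559131799300388168))⟩,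
    ⟨nat_lit 2, nat_lit 0, nat_lit 1, (.ofNat (nat_lit 8)), (.negSucc (nat_lit 5802279359)), (.ofNat (nat_lit 97386111260335296053232577539136)), (.ofNat (nat_lit 0)), (.ofNat (nat_lit 1498247865543619939278761690368)), (.negSucc (nat_lit 5802279375)), (.negSucc (nat_lit 5802279343)), (.negSucc (nat_lit 9474390594492420871830)), (.ofNat (nat_lit 9474390594492420871831)), (.negSucc (nat_lit 9474390594492420871830)), (.ofNat (nat_lit 9474390594492420871831)), (.ofNat (nat_lit 874559131799300388168))⟩,
    ⟨nat_lit 0, nat_lit 1, nat_lit 2, (.ofNat (nat_lit 8)), (.ofNat (nat_lit 3449370048)), (.ofNat (nat_lit 185039851395031869672594692565184)), (.ofNat (nat_lit 0)), (.ofNat (nat_lit 2846766944538951841113536257792)), (.ofNat (nat_lit 3449370032)), (.ofNat (nat_lit 3449370064)), (.ofNat (nat_lit 9474390594492420871831)), (.negSucc (nat_lit 9474390594492420871830)), (.negSucc (nat_lit 9474390594492420871830)), (.ofNat (nat_lit 9474390594492420871831)), (.ofNat (nat_lit 874559131799300388168))⟩,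
    ⟨nat_lit 0, nat_lit 2, nat_lit 3, (.ofNat (nat_lit 8)), (.ofNat (nat_lit 6676355136)), (.ofNat (nat_lit 154466134228717372590176096309056)), (.ofNat (nat_lit 0)), (.ofNat (nat_lit 2376402065057190347538411651328)), (.ofNat (nat_lit 6676355120)), (.ofNat (nat_lit 6676355152)), (.negSucc (nat_lit 9474390594492420871830)), (.ofNat (nat_lit 9474390594492420871831)), (.negSucc (nat_lit 9474390594492420871830)), (.ofNat (nat_lit 9474390594492420871831)), (.ofNat (nat_lit 874559131799300388168))⟩,
    ⟨nat_lit 1, nat_lit 3, nat_lit 4, (.ofNat (nat_lit 8)), (.ofNat (nat_lit 10639156608)), (.ofNat (nat_lit 192011263222874893113911506444288)), (.ofNat (nat_lit 0)), (.ofNat (nat_lit 2954019434198075278672131948544)), (.ofNat (nat_lit 10639156592)), (.ofNat (nat_lit 10639156624)), (.ofNat (nat_lit 9474390594492420871831)), (.negSucc (nat_lit 9474390594492420871830)), (.negSucc (nat_lit 9474390594492420871830)), (.ofNat (nat_lit 9474390594492420871831)), (.ofNat (nat_lit 874559131799300388168))⟩,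
    ⟨nat_lit 0, nat_lit 5, nat_lit 4, (.ofNat (nat_lit 8)), (.ofNat (nat_lit 6140691200)), (.ofNat (nat_lit 234631481574079603724020461566336)), (.ofNat (nat_lit 0)), (.ofNat (nat_lit 3609715101139686211134585363968)), (.ofNat (nat_lit 6140691184)), (.ofNat (nat_lit 6140691216)), (.ofNat (nat_lit 9474390594492420871831)), (.negSucc (nat_lit 9474390594492420871830)), (.negSucc (nat_lit 9474390594492420871830)), (.ofNat (nat_lit 9474390594492420871831)), (.ofNat (nat_lit 874559131799300388168))⟩,
    ⟨nat_lit 2, nat_lit 6, nat_lit 5, (.ofNat (nat_lit 8)), (.negSucc (nat_lit 6983703231)), (.ofNat (nat_lit 110285842409130105367561099521344)), (.ofNat (nat_lit 0)), (.ofNat (nat_lit 1696705267832770851806662383872)), (.negSucc (nat_lit 6983703247)), (.negSucc (nat_lit 6983703215)), (.negSucc (nat_lit 9474390594492420871830)), (.ofNat (nat_lit 9474390594492420871831)), (.negSucc (nat_lit 9474390594492420871830)), (.ofNat (nat_lit 9474390594492420871831)), (.ofNat (nat_lit 874559131799300388168))⟩,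
    ⟨nat_lit 0, nat_lit 7, nat_lit 8, (.ofNat (nat_lit 8)), (.ofNat (nat_lit 7896892032)), (.ofNat (nat_lit 185444924955443445293860891642880)), (.ofNat (nat_lit 0)), (.ofNat (nat_lit 2853041391591954658294057504640)), (.ofNat (nat_lit 7896892016)), (.ofNat (nat_lit 7896892048)), (.ofNat (nat_lit 9474391324459117087157)), (.negSucc (nat_lit 9474398019581660137503)), (.negSucc (nat_lit 9474398019581660137503)), (.ofNat (nat_lit 9474391324459117087157)), (.ofNat (nat_lit 874576901844563780818))⟩,
    ⟨nat_lit 0, nat_lit 8, nat_lit 9, (.ofNat (nat_lit 8)), (.ofNat (nat_lit 13716472832)), (.ofNat (nat_lit 130307900149127991925517253319680)), (.ofNat (nat_lit 0)), (.ofNat (nat_lit 2004736925371199875774860963840)), (.ofNat (nat_lit 13716472816)), (.ofNat (nat_lit 13716472848)), (.negSucc (nat_lit 9474398019581660137503)), (.ofNat (nat_lit 9474390594492420871831)), (.negSucc (nat_lit 9474398019581660137503)), (.ofNat (nat_lit 9474390594492420871831)), (.ofNat (nat_lit 874588832156257450860))⟩,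
    ⟨nat_lit 1, nat_lit 9, nat_lit 10, (.ofNat (nat_lit 8)), (.ofNat (nat_lit 15395709632)), (.ofNat (nat_lit 146217645492973542374583951900480)), (.ofNat (nat_lit 0)), (.ofNat (nat_lit 2249502238353439113452525994240)), (.ofNat (nat_lit 15395709616)), (.ofNat (nat_lit 15395709648)), (.ofNat (nat_lit 9474390594492420871831)), (.negSucc (nat_lit 9474390594492420871830)), (.negSucc (nat_lit 9474390594492420871830)), (.ofNat (nat_lit 9474390594492420871831)), (.ofNat (nat_lit 874559131799300388168))⟩,
    ⟨nat_lit 0, nat_lit 16, nat_lit 10, (.ofNat (nat_lit 8)), (.ofNat (nat_lit 12423130112)), (.ofNat (nat_lit 174381024938642337453409327401600)), (.ofNat (nat_lit 0)), (.ofNat (nat_lit 2682784999056035960818567180800)), (.ofNat (nat_lit 12423130096)), (.ofNat (nat_lit 12423130128)), (.ofNat (nat_lit 9474390594492420871831)), (.negSucc (nat_lit 9474390594492420871830)), (.negSucc (nat_lit 9474390594492420871830)), (.ofNat (nat_lit 9474390594492420871831)), (.ofNat (nat_lit 874559131799300388168))⟩,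
    ⟨nat_lit 1, nat_lit 11, nat_lit 15, (.ofNat (nat_lit 8)), (.ofNat (nat_lit 1167140672)), (.ofNat (nat_lit 163739993964823503702559737994048)), (.ofNat (nat_lit 0)), (.ofNat (nat_lit 2519076830228053903113378951424)), (.ofNat (nat_lit 1167140656)), (.ofNat (nat_lit 1167140688)), (.ofNat (nat_lit 9474390594492420871831)), (.negSucc (nat_lit 9474390594492420871830)), (.negSucc (nat_lit 9474390594492420871830)), (.ofNat (nat_lit 9474390594492420871831)), (.ofNat (nat_lit 874559131799300388168))⟩,
    ⟨nat_lit 0, nat_lit 6, nat_lit 11, (.ofNat (nat_lit 8)), (.negSucc (nat_lit 5729262271)), (.ofNat (nat_lit 98400778776360062216377382923584)), (.ofNat (nat_lit 0)), (.ofNat (nat_lit 1513858135020924034096355956992)), (.negSucc (nat_lit 5729262287)), (.negSucc (nat_lit 5729262255)), (.negSucc (nat_lit 9474390594492420871830)), (.ofNat (nat_lit 9474390594492420871831)), (.negSucc (nat_lit 9474390594492420871830)), (.ofNat (nat_lit 9474390594492420871831)), (.ofNat (nat_lit 874559131799300388168))⟩,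
    ⟨nat_lit 0, nat_lit 17, nat_lit 12, (.ofNat (nat_lit 8)), (.negSucc (nat_lit 1334010815)), (.ofNat (nat_lit 13244950049452202945210996951744)), (.ofNat (nat_lit 0)), (.ofNat (nat_lit 203768462299264660695317219072)), (.negSucc (nat_lit 1334010831)), (.negSucc (nat_lit 1334010799)), (.negSucc (nat_lit 9474398019941264807967)), (.ofNat (nat_lit 9474390594492420871831)), (.negSucc (nat_lit 9474398019941264807967)), (.ofNat (nat_lit 9474390594492420871831)), (.ofNat (nat_lit 874588833594676132716))⟩,
    ⟨nat_lit 1, nat_lit 12, nat_lit 13, (.ofNat (nat_lit 8)), (.ofNat (nat_lit 4861826752)), (.ofNat (nat_lit 71946735228714198074168819698752)), (.ofNat (nat_lit 0)), (.ofNat (nat_lit 1106872849672526124216696734976)), (.ofNat (nat_lit 4861826736)), (.ofNat (nat_lit 4861826768)), (.ofNat (nat_lit 9474390594492420871831)), (.negSucc (nat_lit 9474390594492420871830)), (.negSucc (nat_lit 9474390594492420871830)), (.ofNat (nat_lit 9474390594492420871831)), (.ofNat (nat_lit 874559131799300388168))⟩,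
    ⟨nat_lit 2, nat_lit 13, nat_lit 14, (.ofNat (nat_lit 8)), (.negSucc (nat_lit 2998484351)), (.ofNat (nat_lit 146418392822236135096863389810176)), (.ofNat (nat_lit 0)), (.ofNat (nat_lit 2252590658803632847641436837888)), (.negSucc (nat_lit 2998484367)), (.negSucc (nat_lit 2998484335)), (.negSucc (nat_lit 9474390594492420871830)), (.ofNat (nat_lit 9474390594492420871831)), (.negSucc (nat_lit 9474390594492420871830)), (.ofNat (nat_lit 9474390594492420871831)), (.ofNat (nat_lit 874559131799300388168))⟩,
    ⟨nat_lit 0, nat_lit 14, nat_lit 15, (.ofNat (nat_lit 8)), (.negSucc (nat_lit 1544383)), (.ofNat (nat_lit 174812572667313751880731119051584)), (.ofNat (nat_lit 0)), (.ofNat (nat_lit 2689424194881750028931202420992)), (.negSucc (nat_lit 1544399)), (.negSucc (nat_lit 1544367)), (.ofNat (nat_lit 9474390594492420871831)), (.negSucc (nat_lit 9474390594492420871830)), (.negSucc (nat_lit 9474390594492420871830)), (.ofNat (nat_lit 9474390594492420871831)), (.ofNat (nat_lit 874559131799300388168))⟩,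
    ⟨nat_lit 2, nat_lit 17, nat_lit 7, (.ofNat (nat_lit 8)), (.negSucc (nat_lit 5806211519)), (.ofNat (nat_lit 55616359544209733458055911361216)), (.ofNat (nat_lit 0)), (.ofNat (nat_lit 855668997883888691652073471232)), (.negSucc (nat_lit 5806211535)), (.negSucc (nat_lit 5806211503)), (.negSucc (nat_lit 9474398019941264807967)), (.ofNat (nat_lit 9474391324459117087157)), (.negSucc (nat_lit 9474398019941264807967)), (.ofNat (nat_lit 9474391324459117087157)), (.ofNat (nat_lit 874590293528068563368))⟩]
  es := [
    ⟨nat_lit 1, nat_lit 0, (.negSucc (nat_lit 5802279359)), (.negSucc (nat_lit 752892095)), (.negSucc (nat_lit 5802279343)), (.negSucc (nat_lit 752892111)), (.negSucc (nat_lit 9474390594492420871830)), (.negSucc (nat_lit 145759855299883398027)), (.ofNat (nat_lit 652508465620519888494232588288))⟩,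
    ⟨nat_lit 1, nat_lit 2, (.negSucc (nat_lit 5802279359)), (.ofNat (nat_lit 3449370048)), (.negSucc (nat_lit 5802279343)), (.ofNat (nat_lit 3449370032)), (.ofNat (nat_lit 9474390594492420871831)), (.ofNat (nat_lit 145759855299883398028)), (.ofNat (nat_lit 2343987265466719990063290792448))⟩,
    ⟨nat_lit 2, nat_lit 3, (.ofNat (nat_lit 3449370048)), (.ofNat (nat_lit 6676355136)), (.ofNat (nat_lit 3449370064)), (.ofNat (nat_lit 6676355120)), (.negSucc (nat_lit 9474390594492420871830)), (.negSucc (nat_lit 145759855299883398027)), (.ofNat (nat_lit 3349546623611183692163781723136))⟩,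
    ⟨nat_lit 3, nat_lit 4, (.ofNat (nat_lit 6676355136)), (.ofNat (nat_lit 10639156608)), (.ofNat (nat_lit 6676355152)), (.ofNat (nat_lit 10639156592)), (.ofNat (nat_lit 9474390594492420871831)), (.ofNat (nat_lit 145759855299883398028)), (.ofNat (nat_lit 1403257506503197002913041579520))⟩,
    ⟨nat_lit 5, nat_lit 4, (.ofNat (nat_lit 6140691200)), (.ofNat (nat_lit 10639156608)), (.ofNat (nat_lit 6140691216)), (.ofNat (nat_lit 10639156592)), (.negSucc (nat_lit 9474390594492420871830)), (.negSucc (nat_lit 145759855299883398027)), (.ofNat (nat_lit 4504781361892953554431222317568))⟩,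
    ⟨nat_lit 6, nat_lit 5, (.negSucc (nat_lit 6983703231)), (.ofNat (nat_lit 6140691200)), (.negSucc (nat_lit 6983703215)), (.ofNat (nat_lit 6140691184)), (.ofNat (nat_lit 9474390594492420871831)), (.ofNat (nat_lit 145759855299883398028)), (.ofNat (nat_lit 2714648840386418867837948410368))⟩,
    ⟨nat_lit 6, nat_lit 12, (.negSucc (nat_lit 6983703231)), (.negSucc (nat_lit 5729262271)), (.negSucc (nat_lit 6983703215)), (.negSucc (nat_lit 5729262287)), (.negSucc (nat_lit 9474390594492420871830)), (.negSucc (nat_lit 145759855299883398027)), (.ofNat (nat_lit 678761695279122835775376357376))⟩,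
    ⟨nat_lit 17, nat_lit 7, (.negSucc (nat_lit 5806211519)), (.ofNat (nat_lit 7896892032)), (.negSucc (nat_lit 5806211503)), (.ofNat (nat_lit 7896892016)), (.ofNat (nat_lit 9474391324459117087157)), (.ofNat (nat_lit 145760585266579613354)), (.ofNat (nat_lit 1701985787220645513705214109312))⟩,
    ⟨nat_lit 7, nat_lit 8, (.ofNat (nat_lit 7896892032)), (.ofNat (nat_lit 13716472832)), (.ofNat (nat_lit 7896892048)), (.ofNat (nat_lit 13716472816)), (.negSucc (nat_lit 9474398019581660137503)), (.negSucc (nat_lit 145767280389122663700)), (.ofNat (nat_lit 4004149866623127280745100035072))⟩,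
    ⟨nat_lit 8, nat_lit 9, (.ofNat (nat_lit 13716472832)), (.ofNat (nat_lit 15395709632)), (.ofNat (nat_lit 13716472848)), (.ofNat (nat_lit 15395709616)), (.ofNat (nat_lit 9474390594492420871831)), (.ofNat (nat_lit 145759855299883398028)), (.ofNat (nat_lit 5425830154098033955956588544))⟩,
    ⟨nat_lit 10, nat_lit 9, (.ofNat (nat_lit 12423130112)), (.ofNat (nat_lit 15395709632)), (.ofNat (nat_lit 12423130128)), (.ofNat (nat_lit 15395709616)), (.negSucc (nat_lit 9474390594492420871830)), (.negSucc (nat_lit 145759855299883398027)), (.ofNat (nat_lit 4493578646552780192949095399936))⟩,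
    ⟨nat_lit 12, nat_lit 11, (.negSucc (nat_lit 5729262271)), (.ofNat (nat_lit 1167140672)), (.negSucc (nat_lit 5729262255)), (.ofNat (nat_lit 1167140656)), (.ofNat (nat_lit 9474390594492420871831)), (.ofNat (nat_lit 145759855299883398028)), (.ofNat (nat_lit 2348954574762725232417335556608))⟩,
    ⟨nat_lit 13, nat_lit 14, (.negSucc (nat_lit 1334010815)), (.ofNat (nat_lit 4861826752)), (.negSucc (nat_lit 1334010799)), (.ofNat (nat_lit 4861826736)), (.ofNat (nat_lit 9474390594492420871831)), (.ofNat (nat_lit 145759855299883398028)), (.ofNat (nat_lit 398213685807904037203502289920))⟩,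
    ⟨nat_lit 15, nat_lit 14, (.negSucc (nat_lit 2998484351)), (.ofNat (nat_lit 4861826752)), (.negSucc (nat_lit 2998484335)), (.ofNat (nat_lit 4861826736)), (.negSucc (nat_lit 9474390594492420871830)), (.negSucc (nat_lit 145759855299883398027)), (.ofNat (nat_lit 1815532013537148211229891180032))⟩,
    ⟨nat_lit 15, nat_lit 16, (.negSucc (nat_lit 2998484351)), (.negSucc (nat_lit 1544383)), (.negSucc (nat_lit 2998484335)), (.negSucc (nat_lit 1544399)), (.ofNat (nat_lit 9474390594492420871831)), (.ofNat (nat_lit 145759855299883398028)), (.ofNat (nat_lit 2689649304070117484052982495744))⟩,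
    ⟨nat_lit 16, nat_lit 11, (.negSucc (nat_lit 1544383)), (.ofNat (nat_lit 1167140672)), (.negSucc (nat_lit 1544367)), (.ofNat (nat_lit 1167140656)), (.negSucc (nat_lit 9474390594492420871830)), (.negSucc (nat_lit 145759855299883398027)), (.ofNat (nat_lit 2689199085693382573809422346240))⟩,
    ⟨nat_lit 0, nat_lit 10, (.negSucc (nat_lit 752892095)), (.ofNat (nat_lit 12423130112)), (.negSucc (nat_lit 752892079)), (.ofNat (nat_lit 12423130096)), (.ofNat (nat_lit 9474390594492420871831)), (.ofNat (nat_lit 145759855299883398028)), (.ofNat (nat_lit 871991351559291728688038961664))⟩,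
    ⟨nat_lit 17, nat_lit 13, (.negSucc (nat_lit 5806211519)), (.negSucc (nat_lit 1334010815)), (.negSucc (nat_lit 5806211503)), (.negSucc (nat_lit 1334010831)), (.negSucc (nat_lit 9474398019941264807967)), (.negSucc (nat_lit 145767280748727334164)), (.ofNat (nat_lit 9313333161553818684360890432))⟩]

theorem ok127 : stOK 17 17 S127 = true := by decide +kernel

def S128 : SD where
  vs := [
    ⟨nat_lit 0, nat_lit 0, nat_lit 16, (.ofNat (nat_lit 8)), (.negSucc (nat_lit 753154239)), (.ofNat (nat_lit 49553695022287885422012425575744)), (.negSucc (nat_lit 262143)), (.ofNat (nat_lit 7450963944007863531075796992)), (.negSucc (nat_lit 753154255)), (.negSucc (nat_lit 753154223)), (.negSucc (nat_lit 9474390594492420871830)), (.ofNat (nat_lit 9474390594492420871831)), (.negSucc (nat_lit 9474390594492420871830)), (.ofNat (nat_lit 9474390594492420871831)), (.ofNat (nat_lit 0))⟩,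
    ⟨nat_lit 2, nat_lit 0, nat_lit 1, (.ofNat (nat_lit 8)), (.negSucc (nat_lit 5803065791)), (.ofNat (nat_lit 97398529533575309159117703867456)), (.negSucc (nat_lit 786431)), (.ofNat (nat_lit 12418273240013105885126328320)), (.negSucc (nat_lit 5803065807)), (.negSucc (nat_lit 5803065775)), (.negSucc (nat_lit 9474390594492420871830)), (.ofNat (nat_lit 9474390594492420871831)), (.negSucc (nat_lit 9474390594492420871830)), (.ofNat (nat_lit 9474390594492420871831)), (.ofNat (nat_lit 0))⟩,
    ⟨nat_lit 0, nat_lit 1, nat_lit 2, (.ofNat (nat_lit 8)), (.ofNat (nat_lit 3449632192)), (.ofNat (nat_lit 185062204286863893263187919956160)), (.ofNat (nat_lit 262144)), (.ofNat (nat_lit 22352891832023590593227390976)), (.ofNat (nat_lit 3449632176)), (.ofNat (nat_lit 3449632208)), (.ofNat (nat_lit 9474390594492420871831)), (.negSucc (nat_lit 9474390594492420871830)), (.negSucc (nat_lit 9474390594492420871830)), (.ofNat (nat_lit 9474390594492420871831)), (.ofNat (nat_lit 0))⟩,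
    ⟨nat_lit 0, nat_lit 2, nat_lit 3, (.ofNat (nat_lit 8)), (.ofNat (nat_lit 6676879424)), (.ofNat (nat_lit 154486003465901393559592298434368)), (.ofNat (nat_lit 524288)), (.ofNat (nat_lit 19869237184020969416202125312)), (.ofNat (nat_lit 6676879408)), (.ofNat (nat_lit 6676879440)), (.negSucc (nat_lit 9474390594492420871830)), (.ofNat (nat_lit 9474390594492420871831)), (.negSucc (nat_lit 9474390594492420871830)), (.ofNat (nat_lit 9474390594492420871831)), (.ofNat (nat_lit 0))⟩,
    ⟨nat_lit 1, nat_lit 3, nat_lit 4, (.ofNat (nat_lit 8)), (.ofNat (nat_lit 10640467328)), (.ofNat (nat_lit 192038583424002921946858784366592)), (.ofNat (nat_lit 1310720)), (.ofNat (nat_lit 27320201128028832947277922304)), (.ofNat (nat_lit 10640467312)), (.ofNat (nat_lit 10640467344)), (.ofNat (nat_lit 9474390594492420871831)), (.negSucc (nat_lit 9474390594492420871830)), (.negSucc (nat_lit 9474390594492420871830)), (.ofNat (nat_lit 9474390594492420871831)), (.ofNat (nat_lit 0))⟩,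
    ⟨nat_lit 0, nat_lit 5, nat_lit 4, (.ofNat (nat_lit 8)), (.ofNat (nat_lit 3921790144)), (.ofNat (nat_lit 255693955343523346119355112370496)), (.negSucc (nat_lit 2218901055)), (.ofNat (nat_lit 21062473769443742395334650804160)), (.ofNat (nat_lit 3921790128)), (.ofNat (nat_lit 3921790160)), (.ofNat (nat_lit 9474390594492420871831)), (.negSucc (nat_lit 9474390594492420871830)), (.negSucc (nat_lit 9474390594492420871830)), (.ofNat (nat_lit 9474390594492420871831)), (.ofNat (nat_lit 0))⟩,
    ⟨nat_lit 2, nat_lit 6, nat_lit 5, (.ofNat (nat_lit 8)), (.negSucc (nat_lit 9204177151)), (.ofNat (nat_lit 131333414250685832035833598731520)), (.negSucc (nat_lit 2220473919)), (.ofNat (nat_lit 21047571841555726668272499210176)), (.negSucc (nat_lit 9204177167)), (.negSucc (nat_lit 9204177135)), (.negSucc (nat_lit 9474390594492420871830)), (.ofNat (nat_lit 9474390594492420871831)), (.negSucc (nat_lit 9474390594492420871830)), (.ofNat (nat_lit 9474390594492420871831)), (.ofNat (nat_lit 0))⟩,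
    ⟨nat_lit 0, nat_lit 7, nat_lit 8, (.ofNat (nat_lit 8)), (.ofNat (nat_lit 5678253120)), (.ofNat (nat_lit 206494996936917741451839203283968)), (.negSucc (nat_lit 2218638911)), (.ofNat (nat_lit 21050071981474296157978311641088)), (.ofNat (nat_lit 5678253104)), (.ofNat (nat_lit 5678253136)), (.ofNat (nat_lit 9474391324459117087157)), (.negSucc (nat_lit 9474398019581660137503)), (.negSucc (nat_lit 9474398019581660137503)), (.ofNat (nat_lit 9474391324459117087157)), (.ofNat (nat_lit 0))⟩,
    ⟨nat_lit 0, nat_lit 8, nat_lit 9, (.ofNat (nat_lit 8)), (.ofNat (nat_lit 13718045696)), (.ofNat (nat_lit 130322802077016007652579404913664)), (.ofNat (nat_lit 1572864)), (.ofNat (nat_lit 14901927888015727062151593984)), (.ofNat (nat_lit 13718045680)), (.ofNat (nat_lit 13718045712)), (.negSucc (nat_lit 9474398019581660137503)), (.ofNat (nat_lit 9474390594492420871831)), (.negSucc (nat_lit 9474398019581660137503)), (.ofNat (nat_lit 9474390594492420871831)), (.ofNat (nat_lit 0))⟩,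
    ⟨nat_lit 1, nat_lit 9, nat_lit 10, (.ofNat (nat_lit 8)), (.ofNat (nat_lit 15397544640)), (.ofNat (nat_lit 146235031075509560722823128760128)), (.ofNat (nat_lit 1835008)), (.ofNat (nat_lit 17385582536018348239176859648)), (.ofNat (nat_lit 15397544624)), (.ofNat (nat_lit 15397544656)), (.ofNat (nat_lit 9474390594492420871831)), (.negSucc (nat_lit 9474390594492420871830)), (.negSucc (nat_lit 9474390594492420871830)), (.ofNat (nat_lit 9474390594492420871831)), (.ofNat (nat_lit 0))⟩,
    ⟨nat_lit 0, nat_lit 16, nat_lit 10, (.ofNat (nat_lit 8)), (.ofNat (nat_lit 12424440832)), (.ofNat (nat_lit 174403377830474361044002554792576)), (.ofNat (nat_lit 1310720)), (.ofNat (nat_lit 22352891832023590593227390976)), (.ofNat (nat_lit 12424440816)), (.ofNat (nat_lit 12424440848)), (.ofNat (nat_lit 9474390594492420871831)), (.negSucc (nat_lit 9474390594492420871830)), (.negSucc (nat_lit 9474390594492420871830)), (.ofNat (nat_lit 9474390594492420871831)), (.ofNat (nat_lit 0))⟩,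
    ⟨nat_lit 1, nat_lit 11, nat_lit 15, (.ofNat (nat_lit 8)), (.negSucc (nat_lit 1052284671)), (.ofNat (nat_lit 184787565806379230370832237204224)), (.negSucc (nat_lit 2219425343)), (.ofNat (nat_lit 21047571841555726668272499210176)), (.negSucc (nat_lit 1052284687)), (.negSucc (nat_lit 1052284655)), (.ofNat (nat_lit 9474390594492420871831)), (.negSucc (nat_lit 9474390594492420871830)), (.negSucc (nat_lit 9474390594492420871830)), (.ofNat (nat_lit 9474390594492420871831)), (.ofNat (nat_lit 0))⟩,
    ⟨nat_lit 0, nat_lit 6, nat_lit 11, (.ofNat (nat_lit 8)), (.negSucc (nat_lit 7949211903)), (.ofNat (nat_lit 119443383308619783642295831602432)), (.negSucc (nat_lit 2219949631)), (.ofNat (nat_lit 21042604532259721425918448678848)), (.negSucc (nat_lit 7949211919)), (.negSucc (nat_lit 7949211887)), (.negSucc (nat_lit 9474390594492420871830)), (.ofNat (nat_lit 9474390594492420871831)), (.negSucc (nat_lit 9474390594492420871830)), (.ofNat (nat_lit 9474390594492420871831)), (.ofNat (nat_lit 0))⟩,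
    ⟨nat_lit 0, nat_lit 17, nat_lit 12, (.ofNat (nat_lit 8)), (.negSucc (nat_lit 1334272959)), (.ofNat (nat_lit 13247433704100205566388022217408)), (.negSucc (nat_lit 262143)), (.ofNat (nat_lit 2483654648002621177025265664)), (.negSucc (nat_lit 1334272975)), (.negSucc (nat_lit 1334272943)), (.negSucc (nat_lit 9474398019941264807967)), (.ofNat (nat_lit 9474390594492420871831)), (.negSucc (nat_lit 9474398019941264807967)), (.ofNat (nat_lit 9474390594492420871831)), (.ofNat (nat_lit 0))⟩,
    ⟨nat_lit 1, nat_lit 12, nat_lit 13, (.ofNat (nat_lit 8)), (.ofNat (nat_lit 4862351040)), (.ofNat (nat_lit 71956669847306208558876920761408)), (.ofNat (nat_lit 524288)), (.ofNat (nat_lit 9934618592010484708101062656)), (.ofNat (nat_lit 4862351024)), (.ofNat (nat_lit 4862351056)), (.ofNat (nat_lit 9474390594492420871831)), (.negSucc (nat_lit 9474390594492420871830)), (.negSucc (nat_lit 9474390594492420871830)), (.ofNat (nat_lit 9474390594492420871831)), (.ofNat (nat_lit 0))⟩,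
    ⟨nat_lit 2, nat_lit 13, nat_lit 14, (.ofNat (nat_lit 8)), (.negSucc (nat_lit 5218433983)), (.ofNat (nat_lit 167465964663791861765135889020352)), (.negSucc (nat_lit 2219949631)), (.ofNat (nat_lit 21047571841555726668272499210176)), (.negSucc (nat_lit 5218433999)), (.negSucc (nat_lit 5218433967)), (.negSucc (nat_lit 9474390594492420871830)), (.ofNat (nat_lit 9474390594492420871831)), (.negSucc (nat_lit 9474390594492420871830)), (.ofNat (nat_lit 9474390594492420871831)), (.ofNat (nat_lit 0))⟩,
    ⟨nat_lit 0, nat_lit 14, nat_lit 15, (.ofNat (nat_lit 8)), (.negSucc (nat_lit 2221231871)), (.ofNat (nat_lit 195862628163517481170180643527424)), (.negSucc (nat_lit 2219687487)), (.ofNat (nat_lit 21050055496203729289449524475840)), (.negSucc (nat_lit 2221231887)), (.negSucc (nat_lit 2221231855)), (.ofNat (nat_lit 9474390594492420871831)), (.negSucc (nat_lit 9474390594492420871830)), (.negSucc (nat_lit 9474390594492420871830)), (.ofNat (nat_lit 9474390594492420871831)), (.ofNat (nat_lit 0))⟩,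
    ⟨nat_lit 2, nat_lit 17, nat_lit 7, (.ofNat (nat_lit 8)), (.negSucc (nat_lit 8026423295)), (.ofNat (nat_lit 76651529596647875551296048894656)), (.negSucc (nat_lit 2220211775)), (.ofNat (nat_lit 21035170052438142093240137533440)), (.negSucc (nat_lit 8026423311)), (.negSucc (nat_lit 8026423279)), (.negSucc (nat_lit 9474398019941264807967)), (.ofNat (nat_lit 9474391324459117087157)), (.negSucc (nat_lit 9474398019941264807967)), (.ofNat (nat_lit 9474391324459117087157)), (.ofNat (nat_lit 0))⟩]
  es := [
    ⟨nat_lit 1, nat_lit 0, (.negSucc (nat_lit 5803065791)), (.negSucc (nat_lit 753154239)), (.negSucc (nat_lit 5803065775)), (.negSucc (nat_lit 753154255)), (.negSucc (nat_lit 9474390594492420871830)), (.ofNat (nat_lit 0)), (.ofNat (nat_lit 4967309296005242354050531328))⟩,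
    ⟨nat_lit 1, nat_lit 2, (.negSucc (nat_lit 5803065791)), (.ofNat (nat_lit 3449632192)), (.negSucc (nat_lit 5803065775)), (.ofNat (nat_lit 3449632176)), (.ofNat (nat_lit 9474390594492420871831)), (.ofNat (nat_lit 0)), (.ofNat (nat_lit 19869237184020969416202125312))⟩,
    ⟨nat_lit 2, nat_lit 3, (.ofNat (nat_lit 3449632192)), (.ofNat (nat_lit 6676879424)), (.ofNat (nat_lit 3449632208)), (.ofNat (nat_lit 6676879408)), (.negSucc (nat_lit 9474390594492420871830)), (.ofNat (nat_lit 0)), (.ofNat (nat_lit 24836546480026211770252656640))⟩,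
    ⟨nat_lit 3, nat_lit 4, (.ofNat (nat_lit 6676879424)), (.ofNat (nat_lit 10640467328)), (.ofNat (nat_lit 6676879440)), (.ofNat (nat_lit 10640467312)), (.ofNat (nat_lit 9474390594492420871831)), (.ofNat (nat_lit 0)), (.ofNat (nat_lit 14901927888015727062151593984))⟩,
    ⟨nat_lit 5, nat_lit 4, (.ofNat (nat_lit 3921790144)), (.ofNat (nat_lit 10640467328)), (.ofNat (nat_lit 3921790160)), (.ofNat (nat_lit 10640467312)), (.negSucc (nat_lit 9474390594492420871830)), (.ofNat (nat_lit 0)), (.ofNat (nat_lit 39738474368041938832404250624))⟩,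
    ⟨nat_lit 6, nat_lit 5, (.negSucc (nat_lit 9204177151)), (.ofNat (nat_lit 3921790144)), (.negSucc (nat_lit 9204177135)), (.ofNat (nat_lit 3921790128)), (.ofNat (nat_lit 9474390594492420871831)), (.ofNat (nat_lit 0)), (.ofNat (nat_lit 42085209064519442851836897357696))⟩,
    ⟨nat_lit 6, nat_lit 12, (.negSucc (nat_lit 9204177151)), (.negSucc (nat_lit 7949211903)), (.negSucc (nat_lit 9204177135)), (.negSucc (nat_lit 7949211919)), (.negSucc (nat_lit 9474390594492420871830)), (.ofNat (nat_lit 0)), (.ofNat (nat_lit 9934618592010484708101062656))⟩,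
    ⟨nat_lit 17, nat_lit 7, (.negSucc (nat_lit 8026423295)), (.ofNat (nat_lit 5678253120)), (.negSucc (nat_lit 8026423279)), (.ofNat (nat_lit 5678253104)), (.ofNat (nat_lit 9474391324459117087157)), (.ofNat (nat_lit 0)), (.ofNat (nat_lit 42070325241434510680708927294272))⟩,
    ⟨nat_lit 7, nat_lit 8, (.ofNat (nat_lit 5678253120)), (.ofNat (nat_lit 13718045696)), (.ofNat (nat_lit 5678253136)), (.ofNat (nat_lit 13718045680)), (.negSucc (nat_lit 9474398019581660137503)), (.ofNat (nat_lit 0)), (.ofNat (nat_lit 29803867454687015352666685440))⟩,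
    ⟨nat_lit 8, nat_lit 9, (.ofNat (nat_lit 13718045696)), (.ofNat (nat_lit 15397544640)), (.ofNat (nat_lit 13718045712)), (.ofNat (nat_lit 15397544624)), (.ofNat (nat_lit 9474390594492420871831)), (.ofNat (nat_lit 0)), (.ofNat (nat_lit 0))⟩,
    ⟨nat_lit 10, nat_lit 9, (.ofNat (nat_lit 12424440832)), (.ofNat (nat_lit 15397544640)), (.ofNat (nat_lit 12424440848)), (.ofNat (nat_lit 15397544624)), (.negSucc (nat_lit 9474390594492420871830)), (.ofNat (nat_lit 0)), (.ofNat (nat_lit 34771165072036696478353719296))⟩,
    ⟨nat_lit 12, nat_lit 11, (.negSucc (nat_lit 7949211903)), (.negSucc (nat_lit 1052284671)), (.negSucc (nat_lit 7949211887)), (.negSucc (nat_lit 1052284687)), (.ofNat (nat_lit 9474390594492420871831)), (.ofNat (nat_lit 0)), (.ofNat (nat_lit 42075274445927432367128796295040))⟩,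
    ⟨nat_lit 13, nat_lit 14, (.negSucc (nat_lit 1334272959)), (.ofNat (nat_lit 4862351040)), (.negSucc (nat_lit 1334272943)), (.ofNat (nat_lit 4862351024)), (.ofNat (nat_lit 9474390594492420871831)), (.ofNat (nat_lit 0)), (.ofNat (nat_lit 4967309296005242354050531328))⟩,
    ⟨nat_lit 15, nat_lit 14, (.negSucc (nat_lit 5218433983)), (.ofNat (nat_lit 4862351040)), (.negSucc (nat_lit 5218433967)), (.ofNat (nat_lit 4862351024)), (.negSucc (nat_lit 9474390594492420871830)), (.ofNat (nat_lit 0)), (.ofNat (nat_lit 14901927888015727062151593984))⟩,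
    ⟨nat_lit 15, nat_lit 16, (.negSucc (nat_lit 5218433983)), (.negSucc (nat_lit 2221231871)), (.negSucc (nat_lit 5218433967)), (.negSucc (nat_lit 2221231887)), (.ofNat (nat_lit 9474390594492420871831)), (.ofNat (nat_lit 0)), (.ofNat (nat_lit 42080241755223437609482846826368))⟩,
    ⟨nat_lit 16, nat_lit 11, (.negSucc (nat_lit 2221231871)), (.negSucc (nat_lit 1052284671)), (.negSucc (nat_lit 2221231855)), (.negSucc (nat_lit 1052284687)), (.negSucc (nat_lit 9474390594492420871830)), (.ofNat (nat_lit 0)), (.ofNat (nat_lit 19869237184020969416202125312))⟩,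
    ⟨nat_lit 0, nat_lit 10, (.negSucc (nat_lit 753154239)), (.ofNat (nat_lit 12424440832)), (.negSucc (nat_lit 753154223)), (.ofNat (nat_lit 12424440816)), (.ofNat (nat_lit 9474390594492420871831)), (.ofNat (nat_lit 0)), (.ofNat (nat_lit 9934618592010484708101062656))⟩,
    ⟨nat_lit 17, nat_lit 13, (.negSucc (nat_lit 8026423295)), (.negSucc (nat_lit 1334272959)), (.negSucc (nat_lit 8026423279)), (.negSucc (nat_lit 1334272975)), (.negSucc (nat_lit 9474398019941264807967)), (.ofNat (nat_lit 0)), (.negSucc (nat_lit 1946536861744794697727))⟩]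

theorem ok128 : stOK 17 17 S128 = true := by decide +kernel

def S129 : SD where
  vs := [
    ⟨nat_lit 0, nat_lit 0, nat_lit 16, (.ofNat (nat_lit 8)), (.negSucc (nat_lit 753154239)), (.ofNat (nat_lit 50327971507011133631729490094272)), (.ofNat (nat_lit 0)), (.ofNat (nat_lit 774276484723248209717064518528)), (.negSucc (nat_lit 753154255)), (.negSucc (nat_lit 753154223)), (.negSucc (nat_lit 9622427947531364947952)), (.ofNat (nat_lit 9622427947531364947953)), (.negSucc (nat_lit 9622427947531364947952)), (.ofNat (nat_lit 9622427947531364947953)), (.ofNat (nat_lit 888224118233664456732))⟩,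
    ⟨nat_lit 2, nat_lit 0, nat_lit 1, (.ofNat (nat_lit 8)), (.negSucc (nat_lit 5803065791)), (.ofNat (nat_lit 98920381557537423364725223547328)), (.ofNat (nat_lit 0)), (.ofNat (nat_lit 1521852023962114205607519679872)), (.negSucc (nat_lit 5803065807)), (.negSucc (nat_lit 5803065775)), (.negSucc (nat_lit 9622427947531364947952)), (.ofNat (nat_lit 9622427947531364947953)), (.negSucc (nat_lit 9622427947531364947952)), (.ofNat (nat_lit 9622427947531364947953)), (.ofNat (nat_lit 888224118233664456732))⟩,
    ⟨nat_lit 0, nat_lit 1, nat_lit 2, (.ofNat (nat_lit 8)), (.ofNat (nat_lit 3449632192)), (.ofNat (nat_lit 187953801228846141595418211574080)), (.ofNat (nat_lit 0)), (.ofNat (nat_lit 2891596941982248332230291617920)), (.ofNat (nat_lit 3449632176)), (.ofNat (nat_lit 3449632208)), (.ofNat (nat_lit 9622427947531364947953)), (.negSucc (nat_lit 9622427947531364947952)), (.negSucc (nat_lit 9622427947531364947952)), (.ofNat (nat_lit 9622427947531364947953)), (.ofNat (nat_lit 888224118233664456732))⟩,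
    ⟨nat_lit 0, nat_lit 2, nat_lit 3, (.ofNat (nat_lit 8)), (.ofNat (nat_lit 6676879424)), (.ofNat (nat_lit 156899847270056102833955068257984)), (.ofNat (nat_lit 0)), (.ofNat (nat_lit 2413843804154709274362769823616)), (.ofNat (nat_lit 6676879408)), (.ofNat (nat_lit 6676879440)), (.negSucc (nat_lit 9622427947531364947952)), (.ofNat (nat_lit 9622427947531364947953)), (.negSucc (nat_lit 9622427947531364947952)), (.ofNat (nat_lit 9622427947531364947953)), (.ofNat (nat_lit 888224118233664456732))⟩,
    ⟨nat_lit 1, nat_lit 3, nat_lit 4, (.ofNat (nat_lit 8)), (.ofNat (nat_lit 10640467328)), (.ofNat (nat_lit 195039186290002967602271168618496)), (.ofNat (nat_lit 0)), (.ofNat (nat_lit 3000602866000045655412384251904)), (.ofNat (nat_lit 10640467312)), (.ofNat (nat_lit 10640467344)), (.ofNat (nat_lit 9622427947531364947953)), (.negSucc (nat_lit 9622427947531364947952)), (.negSucc (nat_lit 9622427947531364947952)), (.ofNat (nat_lit 9622427947531364947953)), (.ofNat (nat_lit 888224118233664456732))⟩,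
    ⟨nat_lit 0, nat_lit 5, nat_lit 4, (.ofNat (nat_lit 8)), (.ofNat (nat_lit 3921790144)), (.ofNat (nat_lit 259689173395765898402460337222848)), (.ofNat (nat_lit 0)), (.ofNat (nat_lit 3995218052242552283105224852352)), (.ofNat (nat_lit 3921790128)), (.ofNat (nat_lit 3921790160)), (.ofNat (nat_lit 9622427947531364947953)), (.negSucc (nat_lit 9622427947531364947952)), (.negSucc (nat_lit 9622427947531364947952)), (.ofNat (nat_lit 9622427947531364947953)), (.ofNat (nat_lit 888224118233664456732))⟩,
    ⟨nat_lit 2, nat_lit 6, nat_lit 5, (.ofNat (nat_lit 8)), (.negSucc (nat_lit 9204177151)), (.ofNat (nat_lit 133385498848352798161388517077760)), (.ofNat (nat_lit 0)), (.ofNat (nat_lit 2052084597666966125554918346240)), (.negSucc (nat_lit 9204177167)), (.negSucc (nat_lit 9204177135)), (.negSucc (nat_lit 9622427947531364947952)), (.ofNat (nat_lit 9622427947531364947953)), (.negSucc (nat_lit 9622427947531364947952)), (.ofNat (nat_lit 9622427947531364947953)), (.ofNat (nat_lit 888224118233664456732))⟩,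
    ⟨nat_lit 0, nat_lit 7, nat_lit 8, (.ofNat (nat_lit 8)), (.ofNat (nat_lit 5678253120)), (.ofNat (nat_lit 209721420635126968207845170612160)), (.ofNat (nat_lit 0)), (.ofNat (nat_lit 3226423698209226756005967328192)), (.ofNat (nat_lit 5678253104)), (.ofNat (nat_lit 5678253136)), (.ofNat (nat_lit 9622427947531364947953)), (.negSucc (nat_lit 9622427947531364947952)), (.negSucc (nat_lit 9622427947531364947952)), (.ofNat (nat_lit 9622427947531364947953)), (.ofNat (nat_lit 888206348188401064082))⟩,
    ⟨nat_lit 0, nat_lit 8, nat_lit 9, (.ofNat (nat_lit 8)), (.ofNat (nat_lit 13718045696)), (.ofNat (nat_lit 132359095859469382772146014815232)), (.ofNat (nat_lit 0)), (.ofNat (nat_lit 2036293782453375119566609901568)), (.ofNat (nat_lit 13718045680)), (.ofNat (nat_lit 13718045712)), (.negSucc (nat_lit 9622427947531364947952)), (.ofNat (nat_lit 9622427947531364947953)), (.negSucc (nat_lit 9622427947531364947952)), (.ofNat (nat_lit 9622427947531364947953)), (.ofNat (nat_lit 888194417876707394040))⟩,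
    ⟨nat_lit 1, nat_lit 9, nat_lit 10, (.ofNat (nat_lit 8)), (.ofNat (nat_lit 15397544640)), (.ofNat (nat_lit 148519953436064397609111693276864)), (.ofNat (nat_lit 0)), (.ofNat (nat_lit 2284922360554836886288564516736)), (.ofNat (nat_lit 15397544624)), (.ofNat (nat_lit 15397544656)), (.ofNat (nat_lit 9622427947531364947953)), (.negSucc (nat_lit 9622427947531364947952)), (.negSucc (nat_lit 9622427947531364947952)), (.ofNat (nat_lit 9622427947531364947953)), (.ofNat (nat_lit 888224118233664456732))⟩,
    ⟨nat_lit 0, nat_lit 16, nat_lit 10, (.ofNat (nat_lit 8)), (.ofNat (nat_lit 12424440832)), (.ofNat (nat_lit 177128430609075522935308479381888)), (.ofNat (nat_lit 0)), (.ofNat (nat_lit 2725052778601161891305924589312)), (.ofNat (nat_lit 12424440816)), (.ofNat (nat_lit 12424440848)), (.ofNat (nat_lit 9622427947531364947953)), (.negSucc (nat_lit 9622427947531364947952)), (.negSucc (nat_lit 9622427947531364947952)), (.ofNat (nat_lit 9622427947531364947953)), (.ofNat (nat_lit 888224118233664456732))⟩,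
    ⟨nat_lit 1, nat_lit 11, nat_lit 15, (.ofNat (nat_lit 8)), (.negSucc (nat_lit 1052284671)), (.ofNat (nat_lit 187674871522103905845369481696512)), (.ofNat (nat_lit 0)), (.ofNat (nat_lit 2887305715724675474537244492288)), (.negSucc (nat_lit 1052284687)), (.negSucc (nat_lit 1052284655)), (.ofNat (nat_lit 9622427947531364947953)), (.negSucc (nat_lit 9622427947531364947952)), (.negSucc (nat_lit 9622427947531364947952)), (.ofNat (nat_lit 9622427947531364947953)), (.ofNat (nat_lit 888224118233664456732))⟩,
    ⟨nat_lit 0, nat_lit 6, nat_lit 11, (.ofNat (nat_lit 8)), (.negSucc (nat_lit 7949211903)), (.ofNat (nat_lit 121309686172816967761702173340416)), (.ofNat (nat_lit 0)), (.ofNat (nat_lit 1866302864197184119406341737984)), (.negSucc (nat_lit 7949211919)), (.negSucc (nat_lit 7949211887)), (.negSucc (nat_lit 9622427947531364947952)), (.ofNat (nat_lit 9622427947531364947953)), (.negSucc (nat_lit 9622427947531364947952)), (.ofNat (nat_lit 9622427947531364947953)), (.ofNat (nat_lit 888224118233664456732))⟩,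
    ⟨nat_lit 0, nat_lit 17, nat_lit 12, (.ofNat (nat_lit 8)), (.negSucc (nat_lit 1334272959)), (.ofNat (nat_lit 13454424855726771278362332573504)), (.ofNat (nat_lit 0)), (.ofNat (nat_lit 206991151626565711974310356096)), (.negSucc (nat_lit 1334272975)), (.negSucc (nat_lit 1334272943)), (.negSucc (nat_lit 9622427947531364947952)), (.ofNat (nat_lit 9622427947531364947953)), (.negSucc (nat_lit 9622427947531364947952)), (.ofNat (nat_lit 9622427947531364947953)), (.ofNat (nat_lit 888194416438288712184))⟩,
    ⟨nat_lit 1, nat_lit 12, nat_lit 13, (.ofNat (nat_lit 8)), (.ofNat (nat_lit 4862351040)), (.ofNat (nat_lit 73080992813670368067606643245504)), (.ofNat (nat_lit 0)), (.ofNat (nat_lit 1124322966364159508729722484096)), (.ofNat (nat_lit 4862351024)), (.ofNat (nat_lit 4862351056)), (.ofNat (nat_lit 9622427947531364947953)), (.negSucc (nat_lit 9622427947531364947952)), (.negSucc (nat_lit 9622427947531364947952)), (.ofNat (nat_lit 9622427947531364947953)), (.ofNat (nat_lit 888224118233664456732))⟩,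
    ⟨nat_lit 2, nat_lit 13, nat_lit 14, (.ofNat (nat_lit 8)), (.negSucc (nat_lit 5218433983)), (.ofNat (nat_lit 170082620361663609605209785101376)), (.ofNat (nat_lit 0)), (.ofNat (nat_lit 2616655697871747840073896081024)), (.negSucc (nat_lit 5218433999)), (.negSucc (nat_lit 5218433967)), (.negSucc (nat_lit 9622427947531364947952)), (.ofNat (nat_lit 9622427947531364947953)), (.negSucc (nat_lit 9622427947531364947952)), (.ofNat (nat_lit 9622427947531364947953)), (.ofNat (nat_lit 888224118233664456732))⟩,
    ⟨nat_lit 0, nat_lit 14, nat_lit 15, (.ofNat (nat_lit 8)), (.negSucc (nat_lit 2221231871)), (.ofNat (nat_lit 198922981728572441813457286778112)), (.ofNat (nat_lit 0)), (.ofNat (nat_lit 3060353565054960643276643250688)), (.negSucc (nat_lit 2221231887)), (.negSucc (nat_lit 2221231855)), (.ofNat (nat_lit 9622427947531364947953)), (.negSucc (nat_lit 9622427947531364947952)), (.negSucc (nat_lit 9622427947531364947952)), (.ofNat (nat_lit 9622427947531364947953)), (.ofNat (nat_lit 888224118233664456732))⟩,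
    ⟨nat_lit 2, nat_lit 17, nat_lit 7, (.ofNat (nat_lit 8)), (.negSucc (nat_lit 8026423295)), (.ofNat (nat_lit 77849159277934585585344624035712)), (.ofNat (nat_lit 0)), (.ofNat (nat_lit 1197629681286710034048575141056)), (.negSucc (nat_lit 8026423311)), (.negSucc (nat_lit 8026423279)), (.negSucc (nat_lit 9622427947531364947952)), (.ofNat (nat_lit 9622427947531364947953)), (.negSucc (nat_lit 9622427947531364947952)), (.ofNat (nat_lit 9622427947531364947953)), (.ofNat (nat_lit 888192956504896281532))⟩]
  es := [
    ⟨nat_lit 1, nat_lit 0, (.negSucc (nat_lit 5803065791)), (.negSucc (nat_lit 753154239)), (.negSucc (nat_lit 5803065775)), (.negSucc (nat_lit 753154255)), (.negSucc (nat_lit 9622427947531364947952)), (.negSucc (nat_lit 148037353038944076121)), (.ofNat (nat_lit 662781524603590593662897461248))⟩,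
    ⟨nat_lit 1, nat_lit 2, (.negSucc (nat_lit 5803065791)), (.ofNat (nat_lit 3449632192)), (.negSucc (nat_lit 5803065775)), (.ofNat (nat_lit 3449632176)), (.ofNat (nat_lit 9622427947531364947953)), (.ofNat (nat_lit 148037353038944076122)), (.ofNat (nat_lit 2380922523320637817552141898496))⟩,
    ⟨nat_lit 2, nat_lit 3, (.ofNat (nat_lit 3449632192)), (.ofNat (nat_lit 6676879424)), (.ofNat (nat_lit 3449632208)), (.ofNat (nat_lit 6676879408)), (.negSucc (nat_lit 9622427947531364947952)), (.negSucc (nat_lit 148037353038944076121)), (.ofNat (nat_lit 3402271360643858846908441337344))⟩,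
    ⟨nat_lit 3, nat_lit 4, (.ofNat (nat_lit 6676879424)), (.ofNat (nat_lit 10640467328)), (.ofNat (nat_lit 6676879440)), (.ofNat (nat_lit 10640467312)), (.ofNat (nat_lit 9622427947531364947953)), (.ofNat (nat_lit 148037353038944076122)), (.ofNat (nat_lit 1425416247665559701817098309888))⟩,
    ⟨nat_lit 5, nat_lit 4, (.ofNat (nat_lit 3921790144)), (.ofNat (nat_lit 10640467328)), (.ofNat (nat_lit 3921790160)), (.ofNat (nat_lit 10640467312)), (.negSucc (nat_lit 9622427947531364947952)), (.negSucc (nat_lit 148037353038944076121)), (.ofNat (nat_lit 4575789484334531609007670193920))⟩,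
    ⟨nat_lit 6, nat_lit 5, (.negSucc (nat_lit 9204177151)), (.ofNat (nat_lit 3921790144)), (.negSucc (nat_lit 9204177135)), (.ofNat (nat_lit 3921790128)), (.ofNat (nat_lit 9622427947531364947953)), (.ofNat (nat_lit 148037353038944076122)), (.ofNat (nat_lit 3414646620150572957202779510784))⟩,
    ⟨nat_lit 6, nat_lit 12, (.negSucc (nat_lit 9204177151)), (.negSucc (nat_lit 7949211903)), (.negSucc (nat_lit 9204177135)), (.negSucc (nat_lit 7949211919)), (.negSucc (nat_lit 9622427947531364947952)), (.negSucc (nat_lit 148037353038944076121)), (.ofNat (nat_lit 689522575183359293907057181696))⟩,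
    ⟨nat_lit 17, nat_lit 7, (.negSucc (nat_lit 8026423295)), (.ofNat (nat_lit 5678253120)), (.negSucc (nat_lit 8026423279)), (.ofNat (nat_lit 5678253104)), (.ofNat (nat_lit 9622427947531364947953)), (.ofNat (nat_lit 148036623072247860796)), (.ofNat (nat_lit 2385834281374971355027754644672))⟩,
    ⟨nat_lit 7, nat_lit 8, (.ofNat (nat_lit 5678253120)), (.ofNat (nat_lit 13718045696)), (.ofNat (nat_lit 5678253136)), (.ofNat (nat_lit 13718045680)), (.negSucc (nat_lit 9622427947531364947952)), (.negSucc (nat_lit 148029927949704810448)), (.ofNat (nat_lit 4066975098443013299017010179072))⟩,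
    ⟨nat_lit 8, nat_lit 9, (.ofNat (nat_lit 13718045696)), (.ofNat (nat_lit 15397544640)), (.ofNat (nat_lit 13718045712)), (.ofNat (nat_lit 15397544624)), (.ofNat (nat_lit 9622427947531364947953)), (.ofNat (nat_lit 148037353038944076122)), (.ofNat (nat_lit 5510608750255815736511430656))⟩,
    ⟨nat_lit 10, nat_lit 9, (.ofNat (nat_lit 12424440832)), (.ofNat (nat_lit 15397544640)), (.ofNat (nat_lit 12424440848)), (.ofNat (nat_lit 15397544624)), (.negSucc (nat_lit 9622427947531364947952)), (.negSucc (nat_lit 148037353038944076121)), (.ofNat (nat_lit 4564334112359417956840617602816))⟩,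
    ⟨nat_lit 12, nat_lit 11, (.negSucc (nat_lit 7949211903)), (.negSucc (nat_lit 1052284671)), (.negSucc (nat_lit 7949211887)), (.negSucc (nat_lit 1052284687)), (.ofNat (nat_lit 9622427947531364947953)), (.ofNat (nat_lit 148037353038944076122)), (.ofNat (nat_lit 3043083153211008944905626294272))⟩,
    ⟨nat_lit 13, nat_lit 14, (.negSucc (nat_lit 1334272959)), (.ofNat (nat_lit 4862351040)), (.negSucc (nat_lit 1334272943)), (.ofNat (nat_lit 4862351024)), (.ofNat (nat_lit 9622427947531364947953)), (.ofNat (nat_lit 148037353038944076122)), (.ofNat (nat_lit 404513388856402619696076617216))⟩,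
    ⟨nat_lit 15, nat_lit 14, (.negSucc (nat_lit 5218433983)), (.ofNat (nat_lit 4862351040)), (.negSucc (nat_lit 5218433967)), (.ofNat (nat_lit 4862351024)), (.negSucc (nat_lit 9622427947531364947952)), (.negSucc (nat_lit 148037353038944076121)), (.ofNat (nat_lit 1844132543871916397763368350976))⟩,
    ⟨nat_lit 15, nat_lit 16, (.negSucc (nat_lit 5218433983)), (.negSucc (nat_lit 2221231871)), (.negSucc (nat_lit 5218433967)), (.negSucc (nat_lit 2221231887)), (.ofNat (nat_lit 9622427947531364947953)), (.ofNat (nat_lit 148037353038944076122)), (.ofNat (nat_lit 3389178851871579282384423811072))⟩,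
    ⟨nat_lit 16, nat_lit 11, (.negSucc (nat_lit 2221231871)), (.negSucc (nat_lit 1052284671)), (.negSucc (nat_lit 2221231855)), (.negSucc (nat_lit 1052284687)), (.negSucc (nat_lit 9622427947531364947952)), (.negSucc (nat_lit 148037353038944076121)), (.ofNat (nat_lit 2731528278238342004168862690304))⟩,
    ⟨nat_lit 0, nat_lit 10, (.negSucc (nat_lit 753154239)), (.ofNat (nat_lit 12424440832)), (.negSucc (nat_lit 753154223)), (.ofNat (nat_lit 12424440816)), (.ofNat (nat_lit 9622427947531364947953)), (.ofNat (nat_lit 148037353038944076122)), (.ofNat (nat_lit 885771444842905825771231575808))⟩,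
    ⟨nat_lit 17, nat_lit 13, (.negSucc (nat_lit 8026423295)), (.negSucc (nat_lit 1334272959)), (.negSucc (nat_lit 8026423279)), (.negSucc (nat_lit 1334272975)), (.negSucc (nat_lit 9622427947531364947952)), (.negSucc (nat_lit 148029927590100139984)), (.ofNat (nat_lit 9478821972337131500110050496))⟩]

theorem ok129 : stOK 17 17 S129 = true := by decide +kernel

def S130 : SD where
  vs := [
    ⟨nat_lit 0, nat_lit 0, nat_lit 16, (.ofNat (nat_lit 8)), (.negSucc (nat_lit 753416383)), (.ofNat (nat_lit 50335538892266766618128238667968)), (.negSucc (nat_lit 262143)), (.ofNat (nat_lit 7567385255632986398748573696)), (.negSucc (nat_lit 753416399)), (.negSucc (nat_lit 753416367)), (.negSucc (nat_lit 9622427947531364947952)), (.ofNat (nat_lit 9622427947531364947953)), (.negSucc (nat_lit 9622427947531364947952)), (.ofNat (nat_lit 9622427947531364947953)), (.ofNat (nat_lit 0))⟩,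
    ⟨nat_lit 2, nat_lit 0, nat_lit 1, (.ofNat (nat_lit 8)), (.negSucc (nat_lit 5803590079)), (.ofNat (nat_lit 98930471404544934013256888312256)), (.negSucc (nat_lit 524287)), (.ofNat (nat_lit 10089847007510648531664764928)), (.negSucc (nat_lit 5803590095)), (.negSucc (nat_lit 5803590063)), (.negSucc (nat_lit 9622427947531364947952)), (.ofNat (nat_lit 9622427947531364947953)), (.negSucc (nat_lit 9622427947531364947952)), (.ofNat (nat_lit 9622427947531364947953)), (.ofNat (nat_lit 0))⟩,
    ⟨nat_lit 0, nat_lit 1, nat_lit 2, (.ofNat (nat_lit 8)), (.ofNat (nat_lit 3450156480)), (.ofNat (nat_lit 187973980922861162892481541103936)), (.ofNat (nat_lit 524288)), (.ofNat (nat_lit 20179694015021297063329529856)), (.ofNat (nat_lit 3450156464)), (.ofNat (nat_lit 3450156496)), (.ofNat (nat_lit 9622427947531364947953)), (.negSucc (nat_lit 9622427947531364947952)), (.negSucc (nat_lit 9622427947531364947952)), (.ofNat (nat_lit 9622427947531364947953)), (.ofNat (nat_lit 0))⟩,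
    ⟨nat_lit 0, nat_lit 2, nat_lit 3, (.ofNat (nat_lit 8)), (.ofNat (nat_lit 3450156544)), (.ofNat (nat_lit 187973980307025774250474184434944)), (.negSucc (nat_lit 3226722879)), (.ofNat (nat_lit 31074133036969671416519116176960)), (.ofNat (nat_lit 3450156528)), (.ofNat (nat_lit 3450156560)), (.negSucc (nat_lit 9622427947531364947952)), (.ofNat (nat_lit 9622427947531364947953)), (.negSucc (nat_lit 9622427947531364947952)), (.ofNat (nat_lit 9622427947531364947953)), (.ofNat (nat_lit 0))⟩,
    ⟨nat_lit 1, nat_lit 3, nat_lit 4, (.ofNat (nat_lit 8)), (.ofNat (nat_lit 7414530880)), (.ofNat (nat_lit 226120886712228272005189033369152)), (.negSucc (nat_lit 3225936447)), (.ofNat (nat_lit 31081700422225304402917864750656)), (.ofNat (nat_lit 7414530864)), (.ofNat (nat_lit 7414530896)), (.ofNat (nat_lit 9622427947531364947953)), (.negSucc (nat_lit 9622427947531364947952)), (.negSucc (nat_lit 9622427947531364947952)), (.ofNat (nat_lit 9622427947531364947953)), (.ofNat (nat_lit 0))⟩,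
    ⟨nat_lit 0, nat_lit 5, nat_lit 4, (.ofNat (nat_lit 8)), (.ofNat (nat_lit 694805120)), (.ofNat (nat_lit 290780963664998713453909866738432)), (.negSucc (nat_lit 3226985023)), (.ofNat (nat_lit 31091790269232815051449529515584)), (.ofNat (nat_lit 694805104)), (.ofNat (nat_lit 694805136)), (.ofNat (nat_lit 9622427947531364947953)), (.negSucc (nat_lit 9622427947531364947952)), (.negSucc (nat_lit 9622427947531364947952)), (.ofNat (nat_lit 9622427947531364947953)), (.ofNat (nat_lit 0))⟩,
    ⟨nat_lit 2, nat_lit 6, nat_lit 5, (.ofNat (nat_lit 8)), (.negSucc (nat_lit 12432735039)), (.ofNat (nat_lit 164462154347074347240040549445952)), (.negSucc (nat_lit 3228557887)), (.ofNat (nat_lit 31076655498721549078652032368192)), (.negSucc (nat_lit 12432735055)), (.negSucc (nat_lit 12432735023)), (.negSucc (nat_lit 9622427947531364947952)), (.ofNat (nat_lit 9622427947531364947953)), (.negSucc (nat_lit 9622427947531364947952)), (.ofNat (nat_lit 9622427947531364947953)), (.ofNat (nat_lit 0))⟩,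
    ⟨nat_lit 0, nat_lit 7, nat_lit 8, (.ofNat (nat_lit 8)), (.ofNat (nat_lit 2451530240)), (.ofNat (nat_lit 240800598595600394948630119171584)), (.negSucc (nat_lit 3226722879)), (.ofNat (nat_lit 31079177960473426740784948559424)), (.ofNat (nat_lit 2451530224)), (.ofNat (nat_lit 2451530256)), (.ofNat (nat_lit 9622427947531364947953)), (.negSucc (nat_lit 9622427947531364947952)), (.negSucc (nat_lit 9622427947531364947952)), (.ofNat (nat_lit 9622427947531364947953)), (.ofNat (nat_lit 0))⟩,
    ⟨nat_lit 0, nat_lit 8, nat_lit 9, (.ofNat (nat_lit 8)), (.ofNat (nat_lit 13719618560)), (.ofNat (nat_lit 132374230629980648744943511962624)), (.ofNat (nat_lit 1572864)), (.ofNat (nat_lit 15134770511265972797497147392)), (.ofNat (nat_lit 13719618544)), (.ofNat (nat_lit 13719618576)), (.negSucc (nat_lit 9622427947531364947952)), (.ofNat (nat_lit 9622427947531364947953)), (.negSucc (nat_lit 9622427947531364947952)), (.ofNat (nat_lit 9622427947531364947953)), (.ofNat (nat_lit 0))⟩,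
    ⟨nat_lit 1, nat_lit 9, nat_lit 10, (.ofNat (nat_lit 8)), (.ofNat (nat_lit 15399379648)), (.ofNat (nat_lit 148537610668327541244042106615488)), (.ofNat (nat_lit 1835008)), (.ofNat (nat_lit 17657232263143634930413338624)), (.ofNat (nat_lit 15399379632)), (.ofNat (nat_lit 15399379664)), (.ofNat (nat_lit 9622427947531364947953)), (.negSucc (nat_lit 9622427947531364947952)), (.negSucc (nat_lit 9622427947531364947952)), (.ofNat (nat_lit 9622427947531364947953)), (.ofNat (nat_lit 0))⟩,
    ⟨nat_lit 0, nat_lit 16, nat_lit 10, (.ofNat (nat_lit 8)), (.ofNat (nat_lit 12425751552)), (.ofNat (nat_lit 177151132764842421894504725102976)), (.ofNat (nat_lit 1310720)), (.ofNat (nat_lit 22702155766898959196245721088)), (.ofNat (nat_lit 12425751536)), (.ofNat (nat_lit 12425751568)), (.ofNat (nat_lit 9622427947531364947953)), (.negSucc (nat_lit 9622427947531364947952)), (.negSucc (nat_lit 9622427947531364947952)), (.ofNat (nat_lit 9622427947531364947953)), (.ofNat (nat_lit 0))⟩,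
    ⟨nat_lit 1, nat_lit 11, nat_lit 15, (.ofNat (nat_lit 8)), (.negSucc (nat_lit 4279793983)), (.ofNat (nat_lit 218751527020825454924021514064704)), (.negSucc (nat_lit 3227509311)), (.ofNat (nat_lit 31076655498721549078652032368192)), (.negSucc (nat_lit 4279793999)), (.negSucc (nat_lit 4279793967)), (.ofNat (nat_lit 9622427947531364947953)), (.negSucc (nat_lit 9622427947531364947952)), (.negSucc (nat_lit 9622427947531364947952)), (.ofNat (nat_lit 9622427947531364947953)), (.ofNat (nat_lit 0))⟩,
    ⟨nat_lit 0, nat_lit 6, nat_lit 11, (.ofNat (nat_lit 8)), (.negSucc (nat_lit 11177245503)), (.ofNat (nat_lit 152381296748034761516088373326144)), (.negSucc (nat_lit 3228033599)), (.ofNat (nat_lit 31071610575217793754386199985728)), (.negSucc (nat_lit 11177245519)), (.negSucc (nat_lit 11177245487)), (.negSucc (nat_lit 9622427947531364947952)), (.ofNat (nat_lit 9622427947531364947953)), (.negSucc (nat_lit 9622427947531364947952)), (.ofNat (nat_lit 9622427947531364947953)), (.ofNat (nat_lit 0))⟩,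
    ⟨nat_lit 0, nat_lit 17, nat_lit 12, (.ofNat (nat_lit 8)), (.negSucc (nat_lit 1334535103)), (.ofNat (nat_lit 13456947317478648940495248764736)), (.negSucc (nat_lit 262143)), (.ofNat (nat_lit 2522461751877662132916191232)), (.negSucc (nat_lit 1334535119)), (.negSucc (nat_lit 1334535087)), (.negSucc (nat_lit 9622427947531364947952)), (.ofNat (nat_lit 9622427947531364947953)), (.negSucc (nat_lit 9622427947531364947952)), (.ofNat (nat_lit 9622427947531364947953)), (.ofNat (nat_lit 0))⟩,
    ⟨nat_lit 1, nat_lit 12, nat_lit 13, (.ofNat (nat_lit 8)), (.ofNat (nat_lit 4862875328)), (.ofNat (nat_lit 73091082660677878716138308010432)), (.ofNat (nat_lit 524288)), (.ofNat (nat_lit 10089847007510648531664764928)), (.ofNat (nat_lit 4862875312)), (.ofNat (nat_lit 4862875344)), (.ofNat (nat_lit 9622427947531364947953)), (.negSucc (nat_lit 9622427947531364947952)), (.negSucc (nat_lit 9622427947531364947952)), (.ofNat (nat_lit 9622427947531364947953)), (.ofNat (nat_lit 0))⟩,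
    ⟨nat_lit 2, nat_lit 13, nat_lit 14, (.ofNat (nat_lit 8)), (.negSucc (nat_lit 8446467583)), (.ofNat (nat_lit 201159275860385158683861817469568)), (.negSucc (nat_lit 3228033599)), (.ofNat (nat_lit 31076655498721549078652032368192)), (.negSucc (nat_lit 8446467599)), (.negSucc (nat_lit 8446467567)), (.negSucc (nat_lit 9622427947531364947952)), (.ofNat (nat_lit 9622427947531364947953)), (.negSucc (nat_lit 9622427947531364947952)), (.ofNat (nat_lit 9622427947531364947953)), (.ofNat (nat_lit 0))⟩,
    ⟨nat_lit 0, nat_lit 14, nat_lit 15, (.ofNat (nat_lit 8)), (.negSucc (nat_lit 5449003327)), (.ofNat (nat_lit 230002159689045868554242235337536)), (.negSucc (nat_lit 3227771455)), (.ofNat (nat_lit 31079177960473426740784948559424)), (.negSucc (nat_lit 5449003343)), (.negSucc (nat_lit 5449003311)), (.ofNat (nat_lit 9622427947531364947953)), (.negSucc (nat_lit 9622427947531364947952)), (.negSucc (nat_lit 9622427947531364947952)), (.ofNat (nat_lit 9622427947531364947953)), (.ofNat (nat_lit 0))⟩,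
    ⟨nat_lit 2, nat_lit 17, nat_lit 7, (.ofNat (nat_lit 8)), (.negSucc (nat_lit 11254719039)), (.ofNat (nat_lit 108913202467896746353332075447744)), (.negSucc (nat_lit 3228295743)), (.ofNat (nat_lit 31064043189962160767987451412032)), (.negSucc (nat_lit 11254719055)), (.negSucc (nat_lit 11254719023)), (.negSucc (nat_lit 9622427947531364947952)), (.ofNat (nat_lit 9622427947531364947953)), (.negSucc (nat_lit 9622427947531364947952)), (.ofNat (nat_lit 9622427947531364947953)), (.ofNat (nat_lit 0))⟩]
  es := [
    ⟨nat_lit 1, nat_lit 0, (.negSucc (nat_lit 5803590079)), (.negSucc (nat_lit 753416383)), (.negSucc (nat_lit 5803590063)), (.negSucc (nat_lit 753416399)), (.negSucc (nat_lit 9622427947531364947952)), (.ofNat (nat_lit 0)), (.ofNat (nat_lit 5044923503755324265832382464))⟩,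
    ⟨nat_lit 1, nat_lit 2, (.negSucc (nat_lit 5803590079)), (.ofNat (nat_lit 3450156480)), (.negSucc (nat_lit 5803590063)), (.ofNat (nat_lit 3450156464)), (.ofNat (nat_lit 9622427947531364947953)), (.ofNat (nat_lit 0)), (.ofNat (nat_lit 15134770511265972797497147392))⟩,
    ⟨nat_lit 2, nat_lit 3, (.ofNat (nat_lit 3450156480)), (.ofNat (nat_lit 3450156544)), (.ofNat (nat_lit 3450156496)), (.ofNat (nat_lit 3450156528)), (.negSucc (nat_lit 9622427947531364947952)), (.ofNat (nat_lit 0)), (.ofNat (nat_lit 25224617518776621329161912320))⟩,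
    ⟨nat_lit 3, nat_lit 4, (.ofNat (nat_lit 3450156544)), (.ofNat (nat_lit 7414530880)), (.ofNat (nat_lit 3450156560)), (.ofNat (nat_lit 7414530864)), (.ofNat (nat_lit 9622427947531364947953)), (.ofNat (nat_lit 0)), (.ofNat (nat_lit 62123041456420566211709070441600))⟩,
    ⟨nat_lit 5, nat_lit 4, (.ofNat (nat_lit 694805120)), (.ofNat (nat_lit 7414530880)), (.ofNat (nat_lit 694805136)), (.ofNat (nat_lit 7414530864)), (.negSucc (nat_lit 9622427947531364947952)), (.ofNat (nat_lit 0)), (.ofNat (nat_lit 40359388030042594126659059712))⟩,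
    ⟨nat_lit 6, nat_lit 5, (.negSucc (nat_lit 12432735039)), (.ofNat (nat_lit 694805120)), (.negSucc (nat_lit 12432735023)), (.ofNat (nat_lit 694805104)), (.ofNat (nat_lit 9622427947531364947953)), (.ofNat (nat_lit 0)), (.ofNat (nat_lit 62143221150435587508772399971456))⟩,
    ⟨nat_lit 6, nat_lit 12, (.negSucc (nat_lit 12432735039)), (.negSucc (nat_lit 11177245503)), (.negSucc (nat_lit 12432735023)), (.negSucc (nat_lit 11177245519)), (.negSucc (nat_lit 9622427947531364947952)), (.ofNat (nat_lit 0)), (.ofNat (nat_lit 10089847007510648531664764928))⟩,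
    ⟨nat_lit 17, nat_lit 7, (.negSucc (nat_lit 11254719039)), (.ofNat (nat_lit 2451530240)), (.negSucc (nat_lit 11254719023)), (.ofNat (nat_lit 2451530224)), (.ofNat (nat_lit 9622427947531364947953)), (.ofNat (nat_lit 0)), (.ofNat (nat_lit 62128086379924321535974902824064))⟩,
    ⟨nat_lit 7, nat_lit 8, (.ofNat (nat_lit 2451530240)), (.ofNat (nat_lit 13719618560)), (.ofNat (nat_lit 2451530256)), (.ofNat (nat_lit 13719618544)), (.negSucc (nat_lit 9622427947531364947952)), (.ofNat (nat_lit 0)), (.ofNat (nat_lit 30269541022531945594994294784))⟩,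
    ⟨nat_lit 8, nat_lit 9, (.ofNat (nat_lit 13719618560)), (.ofNat (nat_lit 15399379648)), (.ofNat (nat_lit 13719618576)), (.ofNat (nat_lit 15399379632)), (.ofNat (nat_lit 9622427947531364947953)), (.ofNat (nat_lit 0)), (.ofNat (nat_lit 0))⟩,
    ⟨nat_lit 10, nat_lit 9, (.ofNat (nat_lit 12425751552)), (.ofNat (nat_lit 15399379648)), (.ofNat (nat_lit 12425751568)), (.ofNat (nat_lit 15399379632)), (.negSucc (nat_lit 9622427947531364947952)), (.ofNat (nat_lit 0)), (.ofNat (nat_lit 35314464526287269860826677248))⟩,
    ⟨nat_lit 12, nat_lit 11, (.negSucc (nat_lit 11177245503)), (.negSucc (nat_lit 4279793983)), (.negSucc (nat_lit 11177245487)), (.negSucc (nat_lit 4279793999)), (.ofNat (nat_lit 9622427947531364947953)), (.ofNat (nat_lit 0)), (.ofNat (nat_lit 62133131303428076860240735206528))⟩,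
    ⟨nat_lit 13, nat_lit 14, (.negSucc (nat_lit 1334535103)), (.ofNat (nat_lit 4862875328)), (.negSucc (nat_lit 1334535087)), (.ofNat (nat_lit 4862875312)), (.ofNat (nat_lit 9622427947531364947953)), (.ofNat (nat_lit 0)), (.ofNat (nat_lit 5044923503755324265832382464))⟩,
    ⟨nat_lit 15, nat_lit 14, (.negSucc (nat_lit 8446467583)), (.ofNat (nat_lit 4862875328)), (.negSucc (nat_lit 8446467567)), (.ofNat (nat_lit 4862875312)), (.negSucc (nat_lit 9622427947531364947952)), (.ofNat (nat_lit 0)), (.ofNat (nat_lit 15134770511265972797497147392))⟩,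
    ⟨nat_lit 15, nat_lit 16, (.negSucc (nat_lit 8446467583)), (.negSucc (nat_lit 5449003327)), (.negSucc (nat_lit 8446467567)), (.negSucc (nat_lit 5449003343)), (.ofNat (nat_lit 9622427947531364947953)), (.ofNat (nat_lit 0)), (.ofNat (nat_lit 62138176226931832184506567588992))⟩,
    ⟨nat_lit 16, nat_lit 11, (.negSucc (nat_lit 5449003327)), (.negSucc (nat_lit 4279793983)), (.negSucc (nat_lit 5449003311)), (.negSucc (nat_lit 4279793999)), (.negSucc (nat_lit 9622427947531364947952)), (.ofNat (nat_lit 0)), (.ofNat (nat_lit 20179694015021297063329529856))⟩,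
    ⟨nat_lit 0, nat_lit 10, (.negSucc (nat_lit 753416383)), (.ofNat (nat_lit 12425751552)), (.negSucc (nat_lit 753416367)), (.ofNat (nat_lit 12425751536)), (.ofNat (nat_lit 9622427947531364947953)), (.ofNat (nat_lit 0)), (.ofNat (nat_lit 10089847007510648531664764928))⟩,
    ⟨nat_lit 17, nat_lit 13, (.negSucc (nat_lit 11254719039)), (.negSucc (nat_lit 1334535103)), (.negSucc (nat_lit 11254719023)), (.negSucc (nat_lit 1334535119)), (.negSucc (nat_lit 9622427947531364947952)), (.ofNat (nat_lit 0)), (.ofNat (nat_lit 0))⟩]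

theorem ok130 : stOK 17 17 S130 = true := by decide +kernel

def S131 : SD where
  vs := [
    ⟨nat_lit 0, nat_lit 0, nat_lit 16, (.ofNat (nat_lit 8)), (.negSucc (nat_lit 753416383)), (.ofNat (nat_lit 51122035936409416694374789278720)), (.ofNat (nat_lit 0)), (.ofNat (nat_lit 786497044142650076246550610752)), (.negSucc (nat_lit 753416399)), (.negSucc (nat_lit 753416367)), (.negSucc (nat_lit 9772779196465182303119)), (.ofNat (nat_lit 9772779196465182303120)), (.negSucc (nat_lit 9772779196465182303119)), (.ofNat (nat_lit 9772779196465182303120)), (.ofNat (nat_lit 902107493602904131002))⟩,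
    ⟨nat_lit 2, nat_lit 0, nat_lit 1, (.ofNat (nat_lit 8)), (.negSucc (nat_lit 5803590079)), (.ofNat (nat_lit 100476268371213896541436112010240)), (.ofNat (nat_lit 0)), (.ofNat (nat_lit 1545796966668962528179223697984)), (.negSucc (nat_lit 5803590095)), (.negSucc (nat_lit 5803590063)), (.negSucc (nat_lit 9772779196465182303119)), (.ofNat (nat_lit 9772778344736483797968)), (.negSucc (nat_lit 9772779196465182303119)), (.ofNat (nat_lit 9772778344736483797968)), (.ofNat (nat_lit 902105790145507120698))⟩,
    ⟨nat_lit 0, nat_lit 1, nat_lit 2, (.ofNat (nat_lit 8)), (.ofNat (nat_lit 3450156480)), (.ofNat (nat_lit 190911082360461627593378227000320)), (.ofNat (nat_lit 0)), (.ofNat (nat_lit 2937101437600464700896685896384)), (.ofNat (nat_lit 3450156464)), (.ofNat (nat_lit 3450156496)), (.ofNat (nat_lit 9772778344736483797968)), (.ofNat (nat_lit 9772778344736483797968)), (.ofNat (nat_lit 9772778344736483797968)), (.ofNat (nat_lit 9772778344736483797968)), (.ofNat (nat_lit 38790412584535697491842))⟩,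
    ⟨nat_lit 0, nat_lit 2, nat_lit 3, (.ofNat (nat_lit 8)), (.ofNat (nat_lit 3450156544)), (.ofNat (nat_lit 190911082985919441656513190070272)), (.ofNat (nat_lit 0)), (.ofNat (nat_lit 2937102678893667406039005635328)), (.ofNat (nat_lit 3450156528)), (.ofNat (nat_lit 3450156560)), (.ofNat (nat_lit 9772778344736483797968)), (.ofNat (nat_lit 9772778344736483797968)), (.ofNat (nat_lit 9772778344736483797968)), (.ofNat (nat_lit 9772778344736483797968)), (.ofNat (nat_lit 77280124374661157283654))⟩,
    ⟨nat_lit 1, nat_lit 3, nat_lit 4, (.ofNat (nat_lit 8)), (.ofNat (nat_lit 7414530880)), (.ofNat (nat_lit 229654034647209318708057338219520)), (.ofNat (nat_lit 0)), (.ofNat (nat_lit 3533147934981046702868304850368)), (.ofNat (nat_lit 7414530864)), (.ofNat (nat_lit 7414530896)), (.ofNat (nat_lit 9772778344736483797968)), (.negSucc (nat_lit 9772780685713044822575)), (.negSucc (nat_lit 9772780685713044822575)), (.ofNat (nat_lit 9772778344736483797968)), (.ofNat (nat_lit 902107065183835149306))⟩,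
    ⟨nat_lit 0, nat_lit 5, nat_lit 4, (.ofNat (nat_lit 8)), (.ofNat (nat_lit 694805120)), (.ofNat (nat_lit 295324440767825729970355914977280)), (.ofNat (nat_lit 0)), (.ofNat (nat_lit 4543477102827016516446048238848)), (.ofNat (nat_lit 694805104)), (.ofNat (nat_lit 694805136)), (.ofNat (nat_lit 9772779196465182303120)), (.negSucc (nat_lit 9772780685713044822575)), (.negSucc (nat_lit 9772780685713044822575)), (.ofNat (nat_lit 9772779196465182303120)), (.ofNat (nat_lit 902110472098629169914))⟩,
    ⟨nat_lit 2, nat_lit 6, nat_lit 5, (.ofNat (nat_lit 8)), (.negSucc (nat_lit 12432735039)), (.ofNat (nat_lit 167031889391416519244426821678080)), (.ofNat (nat_lit 0)), (.ofNat (nat_lit 2569735044342172004386272232128)), (.negSucc (nat_lit 12432735055)), (.negSucc (nat_lit 12432735023)), (.negSucc (nat_lit 9772779196465182303119)), (.ofNat (nat_lit 9772779196465182303120)), (.negSucc (nat_lit 9772779196465182303119)), (.ofNat (nat_lit 9772779196465182303120)), (.ofNat (nat_lit 902107493602904131002))⟩,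
    ⟨nat_lit 0, nat_lit 7, nat_lit 8, (.ofNat (nat_lit 8)), (.ofNat (nat_lit 2451530240)), (.ofNat (nat_lit 244563128275248207478578880143360)), (.ofNat (nat_lit 0)), (.ofNat (nat_lit 3762529679647812529948760971776)), (.ofNat (nat_lit 2451530224)), (.ofNat (nat_lit 2451530256)), (.ofNat (nat_lit 9772779196465182303120)), (.negSucc (nat_lit 9772779196465182303119)), (.negSucc (nat_lit 9772779196465182303119)), (.ofNat (nat_lit 9772779196465182303120)), (.ofNat (nat_lit 902107493602904131002))⟩,
    ⟨nat_lit 0, nat_lit 8, nat_lit 9, (.ofNat (nat_lit 8)), (.ofNat (nat_lit 13719618560)), (.ofNat (nat_lit 134442589157619901482121708584960)), (.ofNat (nat_lit 0)), (.ofNat (nat_lit 2068358527639252737178196622336)), (.ofNat (nat_lit 13719618544)), (.ofNat (nat_lit 13719618576)), (.negSucc (nat_lit 9772779196465182303119)), (.ofNat (nat_lit 9772779196465182303120)), (.negSucc (nat_lit 9772779196465182303119)), (.ofNat (nat_lit 9772779196465182303120)), (.ofNat (nat_lit 902107493602904131002))⟩,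
    ⟨nat_lit 1, nat_lit 9, nat_lit 10, (.ofNat (nat_lit 8)), (.ofNat (nat_lit 15399379648)), (.ofNat (nat_lit 150858523373458021861728905579520)), (.ofNat (nat_lit 0)), (.ofNat (nat_lit 2320912705130480617686798964032)), (.ofNat (nat_lit 15399379632)), (.ofNat (nat_lit 15399379664)), (.ofNat (nat_lit 9772779196465182303120)), (.negSucc (nat_lit 9772779196465182303119)), (.negSucc (nat_lit 9772779196465182303119)), (.ofNat (nat_lit 9772779196465182303120)), (.ofNat (nat_lit 902107493602904131002))⟩,
    ⟨nat_lit 0, nat_lit 16, nat_lit 10, (.ofNat (nat_lit 8)), (.ofNat (nat_lit 12425751552)), (.ofNat (nat_lit 179919134168071191844048526039040)), (.ofNat (nat_lit 0)), (.ofNat (nat_lit 2768001403228769949543800936064)), (.ofNat (nat_lit 12425751536)), (.ofNat (nat_lit 12425751568)), (.ofNat (nat_lit 9772779196465182303120)), (.negSucc (nat_lit 9772779196465182303119)), (.negSucc (nat_lit 9772779196465182303119)), (.ofNat (nat_lit 9772779196465182303120)), (.ofNat (nat_lit 902107493602904131002))⟩,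
    ⟨nat_lit 1, nat_lit 11, nat_lit 15, (.ofNat (nat_lit 8)), (.negSucc (nat_lit 4279793983)), (.ofNat (nat_lit 222169538095899144978259426268160)), (.ofNat (nat_lit 0)), (.ofNat (nat_lit 3418011075073690054237912203456)), (.negSucc (nat_lit 4279793999)), (.negSucc (nat_lit 4279793967)), (.ofNat (nat_lit 9772779196465182303120)), (.negSucc (nat_lit 9772779196465182303119)), (.negSucc (nat_lit 9772779196465182303119)), (.ofNat (nat_lit 9772779196465182303120)), (.ofNat (nat_lit 902107493602904131002))⟩,
    ⟨nat_lit 0, nat_lit 6, nat_lit 11, (.ofNat (nat_lit 8)), (.negSucc (nat_lit 11177245503)), (.ofNat (nat_lit 154762267372615994674527281525760)), (.ofNat (nat_lit 0)), (.ofNat (nat_lit 2380970624581233158438908199616)), (.negSucc (nat_lit 11177245519)), (.negSucc (nat_lit 11177245487)), (.negSucc (nat_lit 9772779196465182303119)), (.ofNat (nat_lit 9772779196465182303120)), (.negSucc (nat_lit 9772779196465182303119)), (.ofNat (nat_lit 9772779196465182303120)), (.ofNat (nat_lit 902107493602904131002))⟩,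
    ⟨nat_lit 0, nat_lit 17, nat_lit 12, (.ofNat (nat_lit 8)), (.negSucc (nat_lit 1334535103)), (.ofNat (nat_lit 13667213255249434524649131709440)), (.ofNat (nat_lit 0)), (.ofNat (nat_lit 210265937770785584153882944704)), (.negSucc (nat_lit 1334535119)), (.negSucc (nat_lit 1334535087)), (.negSucc (nat_lit 9772779196465182303119)), (.ofNat (nat_lit 9772779196465182303120)), (.negSucc (nat_lit 9772779196465182303119)), (.ofNat (nat_lit 9772779196465182303120)), (.ofNat (nat_lit 902107493602904131002))⟩,
    ⟨nat_lit 1, nat_lit 12, nat_lit 13, (.ofNat (nat_lit 8)), (.ofNat (nat_lit 4862875328)), (.ofNat (nat_lit 74233136997055332854786805857280)), (.ofNat (nat_lit 0)), (.ofNat (nat_lit 1142054336377454138648497846848)), (.ofNat (nat_lit 4862875312)), (.ofNat (nat_lit 4862875344)), (.ofNat (nat_lit 9772779196465182303120)), (.negSucc (nat_lit 9772779196465182303119)), (.negSucc (nat_lit 9772779196465182303119)), (.ofNat (nat_lit 9772779196465182303120)), (.ofNat (nat_lit 902107493602904131002))⟩,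
    ⟨nat_lit 2, nat_lit 13, nat_lit 14, (.ofNat (nat_lit 8)), (.negSucc (nat_lit 8446467583)), (.ofNat (nat_lit 204302406526070262395604813342720)), (.ofNat (nat_lit 0)), (.ofNat (nat_lit 3143130665685103711742995873152)), (.negSucc (nat_lit 8446467599)), (.negSucc (nat_lit 8446467567)), (.negSucc (nat_lit 9772779196465182303119)), (.ofNat (nat_lit 9772779196465182303120)), (.negSucc (nat_lit 9772779196465182303119)), (.ofNat (nat_lit 9772779196465182303120)), (.ofNat (nat_lit 902107493602904131002))⟩,
    ⟨nat_lit 0, nat_lit 14, nat_lit 15, (.ofNat (nat_lit 8)), (.negSucc (nat_lit 5449003327)), (.ofNat (nat_lit 233595962849255047897730770621440)), (.ofNat (nat_lit 0)), (.ofNat (nat_lit 3593803160209179343488535283904)), (.negSucc (nat_lit 5449003343)), (.negSucc (nat_lit 5449003311)), (.ofNat (nat_lit 9772779196465182303120)), (.negSucc (nat_lit 9772779196465182303119)), (.negSucc (nat_lit 9772779196465182303119)), (.ofNat (nat_lit 9772779196465182303120)), (.ofNat (nat_lit 902107493602904131002))⟩,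
    ⟨nat_lit 2, nat_lit 17, nat_lit 7, (.ofNat (nat_lit 8)), (.negSucc (nat_lit 11254719039)), (.ofNat (nat_lit 110614980450098323991371638389760)), (.ofNat (nat_lit 0)), (.ofNat (nat_lit 1701777982201577638039562942016)), (.negSucc (nat_lit 11254719055)), (.negSucc (nat_lit 11254719023)), (.negSucc (nat_lit 9772779196465182303119)), (.ofNat (nat_lit 9772779196465182303120)), (.negSucc (nat_lit 9772779196465182303119)), (.ofNat (nat_lit 9772779196465182303120)), (.ofNat (nat_lit 902107493602904131002))⟩]
  es := [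
    ⟨nat_lit 1, nat_lit 0, (.negSucc (nat_lit 5803590079)), (.negSucc (nat_lit 753416383)), (.negSucc (nat_lit 5803590063)), (.negSucc (nat_lit 753416399)), (.negSucc (nat_lit 9772779196465182303119)), (.negSucc (nat_lit 150351248933817355166)), (.ofNat (nat_lit 673219949841049549200185754624))⟩,
    ⟨nat_lit 1, nat_lit 2, (.negSucc (nat_lit 5803590079)), (.ofNat (nat_lit 3450156480)), (.negSucc (nat_lit 5803590063)), (.ofNat (nat_lit 3450156464)), (.ofNat (nat_lit 9772778344736483797968)), (.ofNat (nat_lit 150350397205118850015)), (.ofNat (nat_lit 2418369040412650011347285549184))⟩,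
    ⟨nat_lit 2, nat_lit 3, (.ofNat (nat_lit 3450156480)), (.ofNat (nat_lit 3450156544)), (.ofNat (nat_lit 3450156496)), (.ofNat (nat_lit 3450156528)), (.ofNat (nat_lit 9772778344736483797968)), (.ofNat (nat_lit 19395206292267848745921)), (.negSucc (nat_lit 63979395232604227545502525821695))⟩,
    ⟨nat_lit 3, nat_lit 4, (.ofNat (nat_lit 3450156544)), (.ofNat (nat_lit 7414530880)), (.ofNat (nat_lit 3450156560)), (.ofNat (nat_lit 7414530864)), (.ofNat (nat_lit 9772778344736483797968)), (.ofNat (nat_lit 150350397205118850015)), (.ofNat (nat_lit 2418370272083427295361998887168))⟩,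
    ⟨nat_lit 5, nat_lit 4, (.ofNat (nat_lit 694805120)), (.ofNat (nat_lit 7414530880)), (.ofNat (nat_lit 694805136)), (.ofNat (nat_lit 7414530864)), (.negSucc (nat_lit 9772780685713044822575)), (.negSucc (nat_lit 150352738181679874622)), (.ofNat (nat_lit 4647942955121667183535066708608))⟩,
    ⟨nat_lit 6, nat_lit 5, (.negSucc (nat_lit 12432735039)), (.ofNat (nat_lit 694805120)), (.negSucc (nat_lit 12432735023)), (.ofNat (nat_lit 694805104)), (.ofNat (nat_lit 9772779196465182303120)), (.ofNat (nat_lit 150351248933817355167)), (.ofNat (nat_lit 4439012285269405676931158183808))⟩,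
    ⟨nat_lit 6, nat_lit 12, (.negSucc (nat_lit 12432735039)), (.negSucc (nat_lit 11177245503)), (.negSucc (nat_lit 12432735023)), (.negSucc (nat_lit 11177245519)), (.negSucc (nat_lit 9772779196465182303119)), (.negSucc (nat_lit 150351248933817355166)), (.ofNat (nat_lit 700457803414938331841386280448))⟩,
    ⟨nat_lit 17, nat_lit 7, (.negSucc (nat_lit 11254719039)), (.ofNat (nat_lit 2451530240)), (.negSucc (nat_lit 11254719023)), (.ofNat (nat_lit 2451530224)), (.ofNat (nat_lit 9772779196465182303120)), (.ofNat (nat_lit 150351248933817355167)), (.ofNat (nat_lit 3393939046264791525120040221696))⟩,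
    ⟨nat_lit 7, nat_lit 8, (.ofNat (nat_lit 2451530240)), (.ofNat (nat_lit 13719618560)), (.ofNat (nat_lit 2451530256)), (.ofNat (nat_lit 13719618544)), (.negSucc (nat_lit 9772779196465182303119)), (.negSucc (nat_lit 150351248933817355166)), (.ofNat (nat_lit 4131120313030833534777481721856))⟩,
    ⟨nat_lit 8, nat_lit 9, (.ofNat (nat_lit 13719618560)), (.ofNat (nat_lit 15399379648)), (.ofNat (nat_lit 13719618576)), (.ofNat (nat_lit 15399379632)), (.ofNat (nat_lit 9772779196465182303120)), (.ofNat (nat_lit 150351248933817355167)), (.ofNat (nat_lit 5596742247671939578911522816))⟩,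
    ⟨nat_lit 10, nat_lit 9, (.ofNat (nat_lit 12425751552)), (.ofNat (nat_lit 15399379648)), (.ofNat (nat_lit 12425751568)), (.ofNat (nat_lit 15399379632)), (.negSucc (nat_lit 9772779196465182303119)), (.negSucc (nat_lit 150351248933817355166)), (.ofNat (nat_lit 4636228668013289295794686405248))⟩,
    ⟨nat_lit 12, nat_lit 11, (.negSucc (nat_lit 11177245503)), (.negSucc (nat_lit 4279793983)), (.negSucc (nat_lit 11177245487)), (.negSucc (nat_lit 4279793999)), (.ofNat (nat_lit 9772779196465182303120)), (.ofNat (nat_lit 150351248933817355167)), (.ofNat (nat_lit 4061483445747527985036430118784))⟩,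
    ⟨nat_lit 13, nat_lit 14, (.negSucc (nat_lit 1334535103)), (.ofNat (nat_lit 4862875328)), (.negSucc (nat_lit 1334535087)), (.ofNat (nat_lit 4862875312)), (.ofNat (nat_lit 9772779196465182303120)), (.ofNat (nat_lit 150351248933817355167)), (.ofNat (nat_lit 410914957403207417348680227072))⟩,
    ⟨nat_lit 15, nat_lit 14, (.negSucc (nat_lit 8446467583)), (.ofNat (nat_lit 4862875328)), (.negSucc (nat_lit 8446467567)), (.ofNat (nat_lit 4862875312)), (.negSucc (nat_lit 9772779196465182303119)), (.negSucc (nat_lit 150351248933817355166)), (.ofNat (nat_lit 1873193715351700859948315466624))⟩,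
    ⟨nat_lit 15, nat_lit 16, (.negSucc (nat_lit 8446467583)), (.negSucc (nat_lit 5449003327)), (.negSucc (nat_lit 8446467567)), (.negSucc (nat_lit 5449003343)), (.ofNat (nat_lit 9772779196465182303120)), (.ofNat (nat_lit 150351248933817355167)), (.ofNat (nat_lit 4413067616018506563537676279680))⟩,
    ⟨nat_lit 16, nat_lit 11, (.negSucc (nat_lit 5449003327)), (.negSucc (nat_lit 4279793983)), (.negSucc (nat_lit 5449003311)), (.negSucc (nat_lit 4279793999)), (.negSucc (nat_lit 9772779196465182303119)), (.negSucc (nat_lit 150351248933817355166)), (.ofNat (nat_lit 2774538704399852123439394288128))⟩,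
    ⟨nat_lit 0, nat_lit 10, (.negSucc (nat_lit 753416383)), (.ofNat (nat_lit 12425751552)), (.negSucc (nat_lit 753416367)), (.ofNat (nat_lit 12425751536)), (.ofNat (nat_lit 9772779196465182303120)), (.ofNat (nat_lit 150351248933817355167)), (.ofNat (nat_lit 899774138444250603292915466880))⟩,
    ⟨nat_lit 17, nat_lit 13, (.negSucc (nat_lit 11254719039)), (.negSucc (nat_lit 1334535103)), (.negSucc (nat_lit 11254719023)), (.negSucc (nat_lit 1334535119)), (.negSucc (nat_lit 9772779196465182303119)), (.negSucc (nat_lit 150351248933817355166)), (.ofNat (nat_lit 9616918138363750959085662336))⟩]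

theorem ok131 : stOK 17 17 S131 = true := by decide +kernel

def S132 : SD where
  vs := [
    ⟨nat_lit 0, nat_lit 0, nat_lit 16, (.ofNat (nat_lit 8)), (.negSucc (nat_lit 1125381951)), (.ofNat (nat_lit 54762297052020528159477706429440)), (.negSucc (nat_lit 371965567)), (.ofNat (nat_lit 3640261115611111465102917150720)), (.negSucc (nat_lit 1125381967)), (.negSucc (nat_lit 1125381935)), (.negSucc (nat_lit 9772779196465182303119)), (.ofNat (nat_lit 9772779196465182303120)), (.negSucc (nat_lit 9772779196465182303119)), (.ofNat (nat_lit 9772779196465182303120)), (.ofNat (nat_lit 0))⟩,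
    ⟨nat_lit 2, nat_lit 0, nat_lit 1, (.ofNat (nat_lit 8)), (.negSucc (nat_lit 6807351615)), (.ofNat (nat_lit 110290931979305990038035198981120)), (.negSucc (nat_lit 1003761535)), (.ofNat (nat_lit 9814663608092093496599086970880)), (.negSucc (nat_lit 6807351631)), (.negSucc (nat_lit 6807351599)), (.negSucc (nat_lit 9772779196465182303119)), (.ofNat (nat_lit 9772778344736483797968)), (.negSucc (nat_lit 9772779196465182303119)), (.ofNat (nat_lit 9772778344736483797968)), (.ofNat (nat_lit 0))⟩,
    ⟨nat_lit 0, nat_lit 1, nat_lit 2, (.ofNat (nat_lit 8)), (.ofNat (nat_lit 2447443456)), (.ofNat (nat_lit 200735992843921517430077288994816)), (.negSucc (nat_lit 1002713023)), (.ofNat (nat_lit 9824910483459889836699061994496)), (.ofNat (nat_lit 2447443440)), (.ofNat (nat_lit 2447443472)), (.ofNat (nat_lit 9772778344736483797968)), (.ofNat (nat_lit 9772778344736483797968)), (.ofNat (nat_lit 9772778344736483797968)), (.ofNat (nat_lit 9772778344736483797968)), (.ofNat (nat_lit 0))⟩,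
    ⟨nat_lit 0, nat_lit 2, nat_lit 3, (.ofNat (nat_lit 8)), (.ofNat (nat_lit 2447443520)), (.ofNat (nat_lit 200735993469379331493212252064768)), (.negSucc (nat_lit 1002713023)), (.ofNat (nat_lit 9824910483459889836699061994496)), (.ofNat (nat_lit 2447443504)), (.ofNat (nat_lit 2447443536)), (.ofNat (nat_lit 9772778344736483797968)), (.ofNat (nat_lit 9772778344736483797968)), (.ofNat (nat_lit 9772778344736483797968)), (.ofNat (nat_lit 9772778344736483797968)), (.ofNat (nat_lit 0))⟩,
    ⟨nat_lit 1, nat_lit 3, nat_lit 4, (.ofNat (nat_lit 8)), (.ofNat (nat_lit 6412604288)), (.ofNat (nat_lit 239486630756288416347182603784192)), (.negSucc (nat_lit 1001926591)), (.ofNat (nat_lit 9832596109079097639125265564672)), (.ofNat (nat_lit 6412604272)), (.ofNat (nat_lit 6412604304)), (.ofNat (nat_lit 9772778344736483797968)), (.negSucc (nat_lit 9772780685713044822575)), (.negSucc (nat_lit 9772780685713044822575)), (.ofNat (nat_lit 9772778344736483797968)), (.ofNat (nat_lit 0))⟩,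
    ⟨nat_lit 0, nat_lit 5, nat_lit 4, (.ofNat (nat_lit 8)), (.negSucc (nat_lit 1148135679)), (.ofNat (nat_lit 313376084285257480916208435701760)), (.negSucc (nat_lit 1842940799)), (.ofNat (nat_lit 18051643517431750945852520724480)), (.negSucc (nat_lit 1148135695)), (.negSucc (nat_lit 1148135663)), (.ofNat (nat_lit 9772779196465182303120)), (.negSucc (nat_lit 9772780685713044822575)), (.negSucc (nat_lit 9772780685713044822575)), (.ofNat (nat_lit 9772779196465182303120)), (.ofNat (nat_lit 0))⟩,
    ⟨nat_lit 2, nat_lit 6, nat_lit 5, (.ofNat (nat_lit 8)), (.negSucc (nat_lit 14277248703)), (.ofNat (nat_lit 185068161656270201177781327866880)), (.negSucc (nat_lit 1844513663)), (.ofNat (nat_lit 18036272264853681933354506188800)), (.negSucc (nat_lit 14277248719)), (.negSucc (nat_lit 14277248687)), (.negSucc (nat_lit 9772779196465182303119)), (.ofNat (nat_lit 9772779196465182303120)), (.negSucc (nat_lit 9772779196465182303119)), (.ofNat (nat_lit 9772779196465182303120)), (.ofNat (nat_lit 0))⟩,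
    ⟨nat_lit 0, nat_lit 7, nat_lit 8, (.ofNat (nat_lit 8)), (.ofNat (nat_lit 1043281472)), (.ofNat (nat_lit 258356375043762468436839051770880)), (.negSucc (nat_lit 1408248767)), (.ofNat (nat_lit 13793246768514260958260171627520)), (.ofNat (nat_lit 1043281456)), (.ofNat (nat_lit 1043281488)), (.ofNat (nat_lit 9772779196465182303120)), (.negSucc (nat_lit 9772779196465182303119)), (.negSucc (nat_lit 9772779196465182303119)), (.ofNat (nat_lit 9772779196465182303120)), (.ofNat (nat_lit 0))⟩,
    ⟨nat_lit 0, nat_lit 8, nat_lit 9, (.ofNat (nat_lit 8)), (.ofNat (nat_lit 13721191424)), (.ofNat (nat_lit 134457960410197970494619723120640)), (.ofNat (nat_lit 1572864)), (.ofNat (nat_lit 15371252578069012498014535680)), (.ofNat (nat_lit 13721191408)), (.ofNat (nat_lit 13721191440)), (.negSucc (nat_lit 9772779196465182303119)), (.ofNat (nat_lit 9772779196465182303120)), (.negSucc (nat_lit 9772779196465182303119)), (.ofNat (nat_lit 9772779196465182303120)), (.ofNat (nat_lit 0))⟩,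
    ⟨nat_lit 1, nat_lit 9, nat_lit 10, (.ofNat (nat_lit 8)), (.ofNat (nat_lit 15401214656)), (.ofNat (nat_lit 150876456501465769042976589204480)), (.ofNat (nat_lit 1835008)), (.ofNat (nat_lit 17933128007747181247683624960)), (.ofNat (nat_lit 15401214640)), (.ofNat (nat_lit 15401214672)), (.ofNat (nat_lit 9772779196465182303120)), (.negSucc (nat_lit 9772779196465182303119)), (.negSucc (nat_lit 9772779196465182303119)), (.ofNat (nat_lit 9772779196465182303120)), (.ofNat (nat_lit 0))⟩,
    ⟨nat_lit 0, nat_lit 16, nat_lit 10, (.ofNat (nat_lit 8)), (.ofNat (nat_lit 12055358848)), (.ofNat (nat_lit 183574766536260372321649457725440)), (.negSucc (nat_lit 370392703)), (.ofNat (nat_lit 3655632368189180477600931686400)), (.ofNat (nat_lit 12055358832)), (.ofNat (nat_lit 12055358864)), (.ofNat (nat_lit 9772779196465182303120)), (.negSucc (nat_lit 9772779196465182303119)), (.negSucc (nat_lit 9772779196465182303119)), (.ofNat (nat_lit 9772779196465182303120)), (.ofNat (nat_lit 0))⟩,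
    ⟨nat_lit 1, nat_lit 11, nat_lit 15, (.ofNat (nat_lit 8)), (.negSucc (nat_lit 5966322879)), (.ofNat (nat_lit 238672107608402761340376489937920)), (.negSucc (nat_lit 1686528895)), (.ofNat (nat_lit 16502569512503616362117063669760)), (.negSucc (nat_lit 5966322895)), (.negSucc (nat_lit 5966322863)), (.ofNat (nat_lit 9772779196465182303120)), (.negSucc (nat_lit 9772779196465182303119)), (.negSucc (nat_lit 9772779196465182303119)), (.ofNat (nat_lit 9772779196465182303120)), (.ofNat (nat_lit 0))⟩,
    ⟨nat_lit 0, nat_lit 6, nat_lit 11, (.ofNat (nat_lit 8)), (.negSucc (nat_lit 12864298687)), (.ofNat (nat_lit 171259713134260254699145007016960)), (.negSucc (nat_lit 1687053183)), (.ofNat (nat_lit 16497445761644260024617725491200)), (.negSucc (nat_lit 12864298703)), (.negSucc (nat_lit 12864298671)), (.negSucc (nat_lit 9772779196465182303119)), (.ofNat (nat_lit 9772779196465182303120)), (.negSucc (nat_lit 9772779196465182303119)), (.ofNat (nat_lit 9772779196465182303120)), (.ofNat (nat_lit 0))⟩,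
    ⟨nat_lit 0, nat_lit 17, nat_lit 12, (.ofNat (nat_lit 8)), (.negSucc (nat_lit 1503285247)), (.ofNat (nat_lit 15316371151933138329286883358720)), (.negSucc (nat_lit 168750143)), (.ofNat (nat_lit 1649157896683703804637751649280)), (.negSucc (nat_lit 1503285263)), (.negSucc (nat_lit 1503285231)), (.negSucc (nat_lit 9772779196465182303119)), (.ofNat (nat_lit 9772779196465182303120)), (.negSucc (nat_lit 9772779196465182303119)), (.ofNat (nat_lit 9772779196465182303120)), (.ofNat (nat_lit 0))⟩,
    ⟨nat_lit 1, nat_lit 12, nat_lit 13, (.ofNat (nat_lit 8)), (.ofNat (nat_lit 4694911616)), (.ofNat (nat_lit 75889980520028071165673564774400)), (.negSucc (nat_lit 167963711)), (.ofNat (nat_lit 1656843522972738310886758917120)), (.ofNat (nat_lit 4694911600)), (.ofNat (nat_lit 4694911632)), (.ofNat (nat_lit 9772779196465182303120)), (.negSucc (nat_lit 9772779196465182303119)), (.negSucc (nat_lit 9772779196465182303119)), (.ofNat (nat_lit 9772779196465182303120)), (.ofNat (nat_lit 0))⟩,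
    ⟨nat_lit 2, nat_lit 13, nat_lit 14, (.ofNat (nat_lit 8)), (.negSucc (nat_lit 10279671935)), (.ofNat (nat_lit 222233279132743366622655795056640)), (.negSucc (nat_lit 1833204351)), (.ofNat (nat_lit 17930872606673104227050981713920)), (.negSucc (nat_lit 10279671951)), (.negSucc (nat_lit 10279671919)), (.negSucc (nat_lit 9772779196465182303119)), (.ofNat (nat_lit 9772779196465182303120)), (.negSucc (nat_lit 9772779196465182303119)), (.ofNat (nat_lit 9772779196465182303120)), (.ofNat (nat_lit 0))⟩,
    ⟨nat_lit 0, nat_lit 14, nat_lit 15, (.ofNat (nat_lit 8)), (.negSucc (nat_lit 7281945535)), (.ofNat (nat_lit 251529397331357830293531421424640)), (.negSucc (nat_lit 1832942207)), (.ofNat (nat_lit 17933434482102782395800650803200)), (.negSucc (nat_lit 7281945551)), (.negSucc (nat_lit 7281945519)), (.ofNat (nat_lit 9772779196465182303120)), (.negSucc (nat_lit 9772779196465182303119)), (.negSucc (nat_lit 9772779196465182303119)), (.ofNat (nat_lit 9772779196465182303120)), (.ofNat (nat_lit 0))⟩,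
    ⟨nat_lit 2, nat_lit 17, nat_lit 7, (.ofNat (nat_lit 8)), (.negSucc (nat_lit 12664540671)), (.ofNat (nat_lit 124392855966034515937133795481600)), (.negSucc (nat_lit 1409821631)), (.ofNat (nat_lit 13777875515936191945762157091840)), (.negSucc (nat_lit 12664540687)), (.negSucc (nat_lit 12664540655)), (.negSucc (nat_lit 9772779196465182303119)), (.ofNat (nat_lit 9772779196465182303120)), (.negSucc (nat_lit 9772779196465182303119)), (.ofNat (nat_lit 9772779196465182303120)), (.ofNat (nat_lit 0))⟩]
  es := [
    ⟨nat_lit 1, nat_lit 0, (.negSucc (nat_lit 6807351615)), (.negSucc (nat_lit 1125381951)), (.negSucc (nat_lit 6807351599)), (.negSucc (nat_lit 1125381967)), (.negSucc (nat_lit 9772779196465182303119)), (.ofNat (nat_lit 0)), (.ofNat (nat_lit 5123750859356337499338178560))⟩,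
    ⟨nat_lit 1, nat_lit 2, (.negSucc (nat_lit 6807351615)), (.ofNat (nat_lit 2447443456)), (.negSucc (nat_lit 6807351599)), (.ofNat (nat_lit 2447443440)), (.ofNat (nat_lit 9772778344736483797968)), (.ofNat (nat_lit 0)), (.ofNat (nat_lit 19624202610392323988886560329728))⟩,
    ⟨nat_lit 2, nat_lit 3, (.ofNat (nat_lit 2447443456)), (.ofNat (nat_lit 2447443520)), (.ofNat (nat_lit 2447443472)), (.ofNat (nat_lit 2447443504)), (.ofNat (nat_lit 9772778344736483797968)), (.ofNat (nat_lit 0)), (.ofNat (nat_lit 19624202610392323988886560329728))⟩,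
    ⟨nat_lit 3, nat_lit 4, (.ofNat (nat_lit 2447443520)), (.ofNat (nat_lit 6412604288)), (.ofNat (nat_lit 2447443536)), (.ofNat (nat_lit 6412604272)), (.ofNat (nat_lit 9772778344736483797968)), (.ofNat (nat_lit 0)), (.ofNat (nat_lit 19624202610392323988886560329728))⟩,
    ⟨nat_lit 5, nat_lit 4, (.negSucc (nat_lit 1148135679)), (.ofNat (nat_lit 6412604288)), (.negSucc (nat_lit 1148135663)), (.ofNat (nat_lit 6412604272)), (.negSucc (nat_lit 9772780685713044822575)), (.ofNat (nat_lit 0)), (.ofNat (nat_lit 40987262279203550098449223680))⟩,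
    ⟨nat_lit 6, nat_lit 5, (.negSucc (nat_lit 14277248703)), (.negSucc (nat_lit 1148135679)), (.negSucc (nat_lit 14277248687)), (.negSucc (nat_lit 1148135695)), (.ofNat (nat_lit 9772779196465182303120)), (.ofNat (nat_lit 0)), (.ofNat (nat_lit 36062297027988651191710336020480))⟩,
    ⟨nat_lit 6, nat_lit 12, (.negSucc (nat_lit 14277248703)), (.negSucc (nat_lit 12864298687)), (.negSucc (nat_lit 14277248687)), (.negSucc (nat_lit 12864298703)), (.negSucc (nat_lit 9772779196465182303119)), (.ofNat (nat_lit 0)), (.ofNat (nat_lit 10247501718712674998676357120))⟩,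
    ⟨nat_lit 17, nat_lit 7, (.negSucc (nat_lit 12664540671)), (.ofNat (nat_lit 1043281472)), (.negSucc (nat_lit 12664540655)), (.ofNat (nat_lit 1043281456)), (.ofNat (nat_lit 9772779196465182303120)), (.ofNat (nat_lit 0)), (.ofNat (nat_lit 27555751031872383891524314183680))⟩,
    ⟨nat_lit 7, nat_lit 8, (.ofNat (nat_lit 1043281472)), (.ofNat (nat_lit 13721191424)), (.ofNat (nat_lit 1043281488)), (.ofNat (nat_lit 13721191408)), (.negSucc (nat_lit 9772779196465182303119)), (.ofNat (nat_lit 0)), (.ofNat (nat_lit 30742505156138024996029071360))⟩,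
    ⟨nat_lit 8, nat_lit 9, (.ofNat (nat_lit 13721191424)), (.ofNat (nat_lit 15401214656)), (.ofNat (nat_lit 13721191440)), (.ofNat (nat_lit 15401214640)), (.ofNat (nat_lit 9772779196465182303120)), (.ofNat (nat_lit 0)), (.ofNat (nat_lit 0))⟩,
    ⟨nat_lit 10, nat_lit 9, (.ofNat (nat_lit 12055358848)), (.ofNat (nat_lit 15401214656)), (.ofNat (nat_lit 12055358864)), (.ofNat (nat_lit 15401214640)), (.negSucc (nat_lit 9772779196465182303119)), (.ofNat (nat_lit 0)), (.ofNat (nat_lit 35866256015494362495367249920))⟩,
    ⟨nat_lit 12, nat_lit 11, (.negSucc (nat_lit 12864298687)), (.negSucc (nat_lit 5966322879)), (.negSucc (nat_lit 12864298671)), (.negSucc (nat_lit 5966322895)), (.ofNat (nat_lit 9772779196465182303120)), (.ofNat (nat_lit 0)), (.ofNat (nat_lit 32984644021569807374236774625280))⟩,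
    ⟨nat_lit 13, nat_lit 14, (.negSucc (nat_lit 1503285247)), (.ofNat (nat_lit 4694911616)), (.negSucc (nat_lit 1503285231)), (.ofNat (nat_lit 4694911600)), (.ofNat (nat_lit 9772779196465182303120)), (.ofNat (nat_lit 0)), (.ofNat (nat_lit 3298315793367407609275503298560))⟩,
    ⟨nat_lit 15, nat_lit 14, (.negSucc (nat_lit 10279671935)), (.ofNat (nat_lit 4694911616)), (.negSucc (nat_lit 10279671919)), (.ofNat (nat_lit 4694911600)), (.negSucc (nat_lit 9772779196465182303119)), (.ofNat (nat_lit 0)), (.ofNat (nat_lit 15371252578069012498014535680))⟩,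
    ⟨nat_lit 15, nat_lit 16, (.negSucc (nat_lit 10279671935)), (.negSucc (nat_lit 7281945535)), (.negSucc (nat_lit 10279671919)), (.negSucc (nat_lit 7281945551)), (.ofNat (nat_lit 9772779196465182303120)), (.ofNat (nat_lit 0)), (.ofNat (nat_lit 35846373960768139441603948892160))⟩,
    ⟨nat_lit 16, nat_lit 11, (.negSucc (nat_lit 7281945535)), (.negSucc (nat_lit 5966322879)), (.negSucc (nat_lit 7281945519)), (.negSucc (nat_lit 5966322895)), (.negSucc (nat_lit 9772779196465182303119)), (.ofNat (nat_lit 0)), (.ofNat (nat_lit 20495003437425349997352714240))⟩,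
    ⟨nat_lit 0, nat_lit 10, (.negSucc (nat_lit 1125381951)), (.ofNat (nat_lit 12055358848)), (.negSucc (nat_lit 1125381935)), (.ofNat (nat_lit 12055358832)), (.ofNat (nat_lit 9772779196465182303120)), (.ofNat (nat_lit 0)), (.ofNat (nat_lit 7275398480362866592706496122880))⟩,
    ⟨nat_lit 17, nat_lit 13, (.negSucc (nat_lit 12664540671)), (.negSucc (nat_lit 1503285247)), (.negSucc (nat_lit 12664540655)), (.negSucc (nat_lit 1503285263)), (.negSucc (nat_lit 9772779196465182303119)), (.ofNat (nat_lit 0)), (.ofNat (nat_lit 0))⟩]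

theorem ok132 : stOK 17 17 S132 = true := by decide +kernel

def S133 : SD where
  vs := [
    ⟨nat_lit 0, nat_lit 0, nat_lit 15, (.ofNat (nat_lit 8)), (.negSucc (nat_lit 1125381951)), (.ofNat (nat_lit 54762297052020528159477706429440)), (.negSucc (nat_lit 371965567)), (.ofNat (nat_lit 3640261115611111465102917150720)), (.negSucc (nat_lit 1125381967)), (.negSucc (nat_lit 1125381935)), (.negSucc (nat_lit 9772779196465182303119)), (.ofNat (nat_lit 9772779196465182303120)), (.negSucc (nat_lit 9772779196465182303119)), (.ofNat (nat_lit 9772779196465182303120)), (.ofNat (nat_lit 0))⟩,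
    ⟨nat_lit 2, nat_lit 0, nat_lit 1, (.ofNat (nat_lit 8)), (.negSucc (nat_lit 6807351615)), (.ofNat (nat_lit 110290931979305990038035198981120)), (.negSucc (nat_lit 1003761535)), (.ofNat (nat_lit 9814663608092093496599086970880)), (.negSucc (nat_lit 6807351631)), (.negSucc (nat_lit 6807351599)), (.negSucc (nat_lit 9772779196465182303119)), (.ofNat (nat_lit 9772778344736483797968)), (.negSucc (nat_lit 9772779196465182303119)), (.ofNat (nat_lit 9772778344736483797968)), (.ofNat (nat_lit 0))⟩,
    ⟨nat_lit 0, nat_lit 1, nat_lit 2, (.ofNat (nat_lit 8)), (.ofNat (nat_lit 2447443520)), (.ofNat (nat_lit 200735993469379331493212252064768)), (.negSucc (nat_lit 1002713023)), (.ofNat (nat_lit 9824910483459889836699061994496)), (.ofNat (nat_lit 2447443504)), (.ofNat (nat_lit 2447443536)), (.ofNat (nat_lit 9772778344736483797968)), (.ofNat (nat_lit 9772778344736483797968)), (.ofNat (nat_lit 9772778344736483797968)), (.ofNat (nat_lit 9772778344736483797968)), (.ofNat (nat_lit 0))⟩,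
    ⟨nat_lit 1, nat_lit 2, nat_lit 3, (.ofNat (nat_lit 8)), (.ofNat (nat_lit 6412604288)), (.ofNat (nat_lit 239486630756288416347182603784192)), (.negSucc (nat_lit 1001926591)), (.ofNat (nat_lit 9832596109079097639125265564672)), (.ofNat (nat_lit 6412604272)), (.ofNat (nat_lit 6412604304)), (.ofNat (nat_lit 9772778344736483797968)), (.negSucc (nat_lit 9772780685713044822575)), (.negSucc (nat_lit 9772780685713044822575)), (.ofNat (nat_lit 9772778344736483797968)), (.ofNat (nat_lit 0))⟩,
    ⟨nat_lit 0, nat_lit 4, nat_lit 3, (.ofNat (nat_lit 8)), (.negSucc (nat_lit 1148135679)), (.ofNat (nat_lit 313376084285257480916208435701760)), (.negSucc (nat_lit 1842940799)), (.ofNat (nat_lit 18051643517431750945852520724480)), (.negSucc (nat_lit 1148135695)), (.negSucc (nat_lit 1148135663)), (.ofNat (nat_lit 9772779196465182303120)), (.negSucc (nat_lit 9772780685713044822575)), (.negSucc (nat_lit 9772780685713044822575)), (.ofNat (nat_lit 9772779196465182303120)), (.ofNat (nat_lit 0))⟩,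
    ⟨nat_lit 2, nat_lit 5, nat_lit 4, (.ofNat (nat_lit 8)), (.negSucc (nat_lit 14277248703)), (.ofNat (nat_lit 185068161656270201177781327866880)), (.negSucc (nat_lit 1844513663)), (.ofNat (nat_lit 18036272264853681933354506188800)), (.negSucc (nat_lit 14277248719)), (.negSucc (nat_lit 14277248687)), (.negSucc (nat_lit 9772779196465182303119)), (.ofNat (nat_lit 9772779196465182303120)), (.negSucc (nat_lit 9772779196465182303119)), (.ofNat (nat_lit 9772779196465182303120)), (.ofNat (nat_lit 0))⟩,
    ⟨nat_lit 0, nat_lit 6, nat_lit 7, (.ofNat (nat_lit 8)), (.ofNat (nat_lit 1043281472)), (.ofNat (nat_lit 258356375043762468436839051770880)), (.negSucc (nat_lit 1408248767)), (.ofNat (nat_lit 13793246768514260958260171627520)), (.ofNat (nat_lit 1043281456)), (.ofNat (nat_lit 1043281488)), (.ofNat (nat_lit 9772779196465182303120)), (.negSucc (nat_lit 9772779196465182303119)), (.negSucc (nat_lit 9772779196465182303119)), (.ofNat (nat_lit 9772779196465182303120)), (.ofNat (nat_lit 0))⟩,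
    ⟨nat_lit 0, nat_lit 7, nat_lit 8, (.ofNat (nat_lit 8)), (.ofNat (nat_lit 13721191424)), (.ofNat (nat_lit 134457960410197970494619723120640)), (.ofNat (nat_lit 1572864)), (.ofNat (nat_lit 15371252578069012498014535680)), (.ofNat (nat_lit 13721191408)), (.ofNat (nat_lit 13721191440)), (.negSucc (nat_lit 9772779196465182303119)), (.ofNat (nat_lit 9772779196465182303120)), (.negSucc (nat_lit 9772779196465182303119)), (.ofNat (nat_lit 9772779196465182303120)), (.ofNat (nat_lit 0))⟩,
    ⟨nat_lit 1, nat_lit 8, nat_lit 9, (.ofNat (nat_lit 8)), (.ofNat (nat_lit 15401214656)), (.ofNat (nat_lit 150876456501465769042976589204480)), (.ofNat (nat_lit 1835008)), (.ofNat (nat_lit 17933128007747181247683624960)), (.ofNat (nat_lit 15401214640)), (.ofNat (nat_lit 15401214672)), (.ofNat (nat_lit 9772779196465182303120)), (.negSucc (nat_lit 9772779196465182303119)), (.negSucc (nat_lit 9772779196465182303119)), (.ofNat (nat_lit 9772779196465182303120)), (.ofNat (nat_lit 0))⟩,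
    ⟨nat_lit 0, nat_lit 15, nat_lit 9, (.ofNat (nat_lit 8)), (.ofNat (nat_lit 12055358848)), (.ofNat (nat_lit 183574766536260372321649457725440)), (.negSucc (nat_lit 370392703)), (.ofNat (nat_lit 3655632368189180477600931686400)), (.ofNat (nat_lit 12055358832)), (.ofNat (nat_lit 12055358864)), (.ofNat (nat_lit 9772779196465182303120)), (.negSucc (nat_lit 9772779196465182303119)), (.negSucc (nat_lit 9772779196465182303119)), (.ofNat (nat_lit 9772779196465182303120)), (.ofNat (nat_lit 0))⟩,
    ⟨nat_lit 1, nat_lit 10, nat_lit 14, (.ofNat (nat_lit 8)), (.negSucc (nat_lit 5966322879)), (.ofNat (nat_lit 238672107608402761340376489937920)), (.negSucc (nat_lit 1686528895)), (.ofNat (nat_lit 16502569512503616362117063669760)), (.negSucc (nat_lit 5966322895)), (.negSucc (nat_lit 5966322863)), (.ofNat (nat_lit 9772779196465182303120)), (.negSucc (nat_lit 9772779196465182303119)), (.negSucc (nat_lit 9772779196465182303119)), (.ofNat (nat_lit 9772779196465182303120)), (.ofNat (nat_lit 0))⟩,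
    ⟨nat_lit 0, nat_lit 5, nat_lit 10, (.ofNat (nat_lit 8)), (.negSucc (nat_lit 12864298687)), (.ofNat (nat_lit 171259713134260254699145007016960)), (.negSucc (nat_lit 1687053183)), (.ofNat (nat_lit 16497445761644260024617725491200)), (.negSucc (nat_lit 12864298703)), (.negSucc (nat_lit 12864298671)), (.negSucc (nat_lit 9772779196465182303119)), (.ofNat (nat_lit 9772779196465182303120)), (.negSucc (nat_lit 9772779196465182303119)), (.ofNat (nat_lit 9772779196465182303120)), (.ofNat (nat_lit 0))⟩,
    ⟨nat_lit 0, nat_lit 16, nat_lit 11, (.ofNat (nat_lit 8)), (.negSucc (nat_lit 1503285247)), (.ofNat (nat_lit 15316371151933138329286883358720)), (.negSucc (nat_lit 168750143)), (.ofNat (nat_lit 1649157896683703804637751649280)), (.negSucc (nat_lit 1503285263)), (.negSucc (nat_lit 1503285231)), (.negSucc (nat_lit 9772779196465182303119)), (.ofNat (nat_lit 9772779196465182303120)), (.negSucc (nat_lit 9772779196465182303119)), (.ofNat (nat_lit 9772779196465182303120)), (.ofNat (nat_lit 0))⟩,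
    ⟨nat_lit 1, nat_lit 11, nat_lit 12, (.ofNat (nat_lit 8)), (.ofNat (nat_lit 4694911616)), (.ofNat (nat_lit 75889980520028071165673564774400)), (.negSucc (nat_lit 167963711)), (.ofNat (nat_lit 1656843522972738310886758917120)), (.ofNat (nat_lit 4694911600)), (.ofNat (nat_lit 4694911632)), (.ofNat (nat_lit 9772779196465182303120)), (.negSucc (nat_lit 9772779196465182303119)), (.negSucc (nat_lit 9772779196465182303119)), (.ofNat (nat_lit 9772779196465182303120)), (.ofNat (nat_lit 0))⟩,
    ⟨nat_lit 2, nat_lit 12, nat_lit 13, (.ofNat (nat_lit 8)), (.negSucc (nat_lit 10279671935)), (.ofNat (nat_lit 222233279132743366622655795056640)), (.negSucc (nat_lit 1833204351)), (.ofNat (nat_lit 17930872606673104227050981713920)), (.negSucc (nat_lit 10279671951)), (.negSucc (nat_lit 10279671919)), (.negSucc (nat_lit 9772779196465182303119)), (.ofNat (nat_lit 9772779196465182303120)), (.negSucc (nat_lit 9772779196465182303119)), (.ofNat (nat_lit 9772779196465182303120)), (.ofNat (nat_lit 0))⟩,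
    ⟨nat_lit 0, nat_lit 13, nat_lit 14, (.ofNat (nat_lit 8)), (.negSucc (nat_lit 7281945535)), (.ofNat (nat_lit 251529397331357830293531421424640)), (.negSucc (nat_lit 1832942207)), (.ofNat (nat_lit 17933434482102782395800650803200)), (.negSucc (nat_lit 7281945551)), (.negSucc (nat_lit 7281945519)), (.ofNat (nat_lit 9772779196465182303120)), (.negSucc (nat_lit 9772779196465182303119)), (.negSucc (nat_lit 9772779196465182303119)), (.ofNat (nat_lit 9772779196465182303120)), (.ofNat (nat_lit 0))⟩,
    ⟨nat_lit 2, nat_lit 16, nat_lit 6, (.ofNat (nat_lit 8)), (.negSucc (nat_lit 12664540671)), (.ofNat (nat_lit 124392855966034515937133795481600)), (.negSucc (nat_lit 1409821631)), (.ofNat (nat_lit 13777875515936191945762157091840)), (.negSucc (nat_lit 12664540687)), (.negSucc (nat_lit 12664540655)), (.negSucc (nat_lit 9772779196465182303119)), (.ofNat (nat_lit 9772779196465182303120)), (.negSucc (nat_lit 9772779196465182303119)), (.ofNat (nat_lit 9772779196465182303120)), (.ofNat (nat_lit 0))⟩]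
  es := [
    ⟨nat_lit 1, nat_lit 0, (.negSucc (nat_lit 6807351615)), (.negSucc (nat_lit 1125381951)), (.negSucc (nat_lit 6807351599)), (.negSucc (nat_lit 1125381967)), (.negSucc (nat_lit 9772779196465182303119)), (.ofNat (nat_lit 0)), (.ofNat (nat_lit 5123750859356337499338178560))⟩,
    ⟨nat_lit 1, nat_lit 2, (.negSucc (nat_lit 6807351615)), (.ofNat (nat_lit 2447443520)), (.negSucc (nat_lit 6807351599)), (.ofNat (nat_lit 2447443504)), (.ofNat (nat_lit 9772778344736483797968)), (.ofNat (nat_lit 0)), (.ofNat (nat_lit 19624202610392323988886560329728))⟩,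
    ⟨nat_lit 2, nat_lit 3, (.ofNat (nat_lit 2447443520)), (.ofNat (nat_lit 6412604288)), (.ofNat (nat_lit 2447443536)), (.ofNat (nat_lit 6412604272)), (.ofNat (nat_lit 9772778344736483797968)), (.ofNat (nat_lit 0)), (.ofNat (nat_lit 19624202610392323988886560329728))⟩,
    ⟨nat_lit 4, nat_lit 3, (.negSucc (nat_lit 1148135679)), (.ofNat (nat_lit 6412604288)), (.negSucc (nat_lit 1148135663)), (.ofNat (nat_lit 6412604272)), (.negSucc (nat_lit 9772780685713044822575)), (.ofNat (nat_lit 0)), (.ofNat (nat_lit 40987262279203550098449223680))⟩,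
    ⟨nat_lit 5, nat_lit 4, (.negSucc (nat_lit 14277248703)), (.negSucc (nat_lit 1148135679)), (.negSucc (nat_lit 14277248687)), (.negSucc (nat_lit 1148135695)), (.ofNat (nat_lit 9772779196465182303120)), (.ofNat (nat_lit 0)), (.ofNat (nat_lit 36062297027988651191710336020480))⟩,
    ⟨nat_lit 5, nat_lit 11, (.negSucc (nat_lit 14277248703)), (.negSucc (nat_lit 12864298687)), (.negSucc (nat_lit 14277248687)), (.negSucc (nat_lit 12864298703)), (.negSucc (nat_lit 9772779196465182303119)), (.ofNat (nat_lit 0)), (.ofNat (nat_lit 10247501718712674998676357120))⟩,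
    ⟨nat_lit 16, nat_lit 6, (.negSucc (nat_lit 12664540671)), (.ofNat (nat_lit 1043281472)), (.negSucc (nat_lit 12664540655)), (.ofNat (nat_lit 1043281456)), (.ofNat (nat_lit 9772779196465182303120)), (.ofNat (nat_lit 0)), (.ofNat (nat_lit 27555751031872383891524314183680))⟩,
    ⟨nat_lit 6, nat_lit 7, (.ofNat (nat_lit 1043281472)), (.ofNat (nat_lit 13721191424)), (.ofNat (nat_lit 1043281488)), (.ofNat (nat_lit 13721191408)), (.negSucc (nat_lit 9772779196465182303119)), (.ofNat (nat_lit 0)), (.ofNat (nat_lit 30742505156138024996029071360))⟩,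
    ⟨nat_lit 7, nat_lit 8, (.ofNat (nat_lit 13721191424)), (.ofNat (nat_lit 15401214656)), (.ofNat (nat_lit 13721191440)), (.ofNat (nat_lit 15401214640)), (.ofNat (nat_lit 9772779196465182303120)), (.ofNat (nat_lit 0)), (.ofNat (nat_lit 0))⟩,
    ⟨nat_lit 9, nat_lit 8, (.ofNat (nat_lit 12055358848)), (.ofNat (nat_lit 15401214656)), (.ofNat (nat_lit 12055358864)), (.ofNat (nat_lit 15401214640)), (.negSucc (nat_lit 9772779196465182303119)), (.ofNat (nat_lit 0)), (.ofNat (nat_lit 35866256015494362495367249920))⟩,
    ⟨nat_lit 11, nat_lit 10, (.negSucc (nat_lit 12864298687)), (.negSucc (nat_lit 5966322879)), (.negSucc (nat_lit 12864298671)), (.negSucc (nat_lit 5966322895)), (.ofNat (nat_lit 9772779196465182303120)), (.ofNat (nat_lit 0)), (.ofNat (nat_lit 32984644021569807374236774625280))⟩,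
    ⟨nat_lit 12, nat_lit 13, (.negSucc (nat_lit 1503285247)), (.ofNat (nat_lit 4694911616)), (.negSucc (nat_lit 1503285231)), (.ofNat (nat_lit 4694911600)), (.ofNat (nat_lit 9772779196465182303120)), (.ofNat (nat_lit 0)), (.ofNat (nat_lit 3298315793367407609275503298560))⟩,
    ⟨nat_lit 14, nat_lit 13, (.negSucc (nat_lit 10279671935)), (.ofNat (nat_lit 4694911616)), (.negSucc (nat_lit 10279671919)), (.ofNat (nat_lit 4694911600)), (.negSucc (nat_lit 9772779196465182303119)), (.ofNat (nat_lit 0)), (.ofNat (nat_lit 15371252578069012498014535680))⟩,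
    ⟨nat_lit 14, nat_lit 15, (.negSucc (nat_lit 10279671935)), (.negSucc (nat_lit 7281945535)), (.negSucc (nat_lit 10279671919)), (.negSucc (nat_lit 7281945551)), (.ofNat (nat_lit 9772779196465182303120)), (.ofNat (nat_lit 0)), (.ofNat (nat_lit 35846373960768139441603948892160))⟩,
    ⟨nat_lit 15, nat_lit 10, (.negSucc (nat_lit 7281945535)), (.negSucc (nat_lit 5966322879)), (.negSucc (nat_lit 7281945519)), (.negSucc (nat_lit 5966322895)), (.negSucc (nat_lit 9772779196465182303119)), (.ofNat (nat_lit 0)), (.ofNat (nat_lit 20495003437425349997352714240))⟩,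
    ⟨nat_lit 0, nat_lit 9, (.negSucc (nat_lit 1125381951)), (.ofNat (nat_lit 12055358848)), (.negSucc (nat_lit 1125381935)), (.ofNat (nat_lit 12055358832)), (.ofNat (nat_lit 9772779196465182303120)), (.ofNat (nat_lit 0)), (.ofNat (nat_lit 7275398480362866592706496122880))⟩,
    ⟨nat_lit 16, nat_lit 12, (.negSucc (nat_lit 12664540671)), (.negSucc (nat_lit 1503285247)), (.negSucc (nat_lit 12664540655)), (.negSucc (nat_lit 1503285263)), (.negSucc (nat_lit 9772779196465182303119)), (.ofNat (nat_lit 0)), (.ofNat (nat_lit 0))⟩]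

theorem ok133 : stOK 16 16 S133 = true := by decide +kernel

def S134 : SD where
  vs := [
    ⟨nat_lit 0, nat_lit 0, nat_lit 14, (.ofNat (nat_lit 8)), (.negSucc (nat_lit 1125381951)), (.ofNat (nat_lit 54762297052020528159477706429440)), (.negSucc (nat_lit 371965567)), (.ofNat (nat_lit 3640261115611111465102917150720)), (.negSucc (nat_lit 1125381967)), (.negSucc (nat_lit 1125381935)), (.negSucc (nat_lit 9772779196465182303119)), (.ofNat (nat_lit 9772779196465182303120)), (.negSucc (nat_lit 9772779196465182303119)), (.ofNat (nat_lit 9772779196465182303120)), (.ofNat (nat_lit 0))⟩,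
    ⟨nat_lit 2, nat_lit 0, nat_lit 1, (.ofNat (nat_lit 8)), (.negSucc (nat_lit 6807351615)), (.ofNat (nat_lit 110290931979305990038035198981120)), (.negSucc (nat_lit 1003761535)), (.ofNat (nat_lit 9814663608092093496599086970880)), (.negSucc (nat_lit 6807351631)), (.negSucc (nat_lit 6807351599)), (.negSucc (nat_lit 9772779196465182303119)), (.ofNat (nat_lit 9772778344736483797968)), (.negSucc (nat_lit 9772779196465182303119)), (.ofNat (nat_lit 9772778344736483797968)), (.ofNat (nat_lit 0))⟩,
    ⟨nat_lit 1, nat_lit 1, nat_lit 2, (.ofNat (nat_lit 8)), (.ofNat (nat_lit 6412604288)), (.ofNat (nat_lit 239486630756288416347182603784192)), (.negSucc (nat_lit 1001926591)), (.ofNat (nat_lit 9832596109079097639125265564672)), (.ofNat (nat_lit 6412604272)), (.ofNat (nat_lit 6412604304)), (.ofNat (nat_lit 9772778344736483797968)), (.negSucc (nat_lit 9772780685713044822575)), (.negSucc (nat_lit 9772780685713044822575)), (.ofNat (nat_lit 9772778344736483797968)), (.ofNat (nat_lit 0))⟩,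
    ⟨nat_lit 0, nat_lit 3, nat_lit 2, (.ofNat (nat_lit 8)), (.negSucc (nat_lit 1148135679)), (.ofNat (nat_lit 313376084285257480916208435701760)), (.negSucc (nat_lit 1842940799)), (.ofNat (nat_lit 18051643517431750945852520724480)), (.negSucc (nat_lit 1148135695)), (.negSucc (nat_lit 1148135663)), (.ofNat (nat_lit 9772779196465182303120)), (.negSucc (nat_lit 9772780685713044822575)), (.negSucc (nat_lit 9772780685713044822575)), (.ofNat (nat_lit 9772779196465182303120)), (.ofNat (nat_lit 0))⟩,
    ⟨nat_lit 2, nat_lit 4, nat_lit 3, (.ofNat (nat_lit 8)), (.negSucc (nat_lit 14277248703)), (.ofNat (nat_lit 185068161656270201177781327866880)), (.negSucc (nat_lit 1844513663)), (.ofNat (nat_lit 18036272264853681933354506188800)), (.negSucc (nat_lit 14277248719)), (.negSucc (nat_lit 14277248687)), (.negSucc (nat_lit 9772779196465182303119)), (.ofNat (nat_lit 9772779196465182303120)), (.negSucc (nat_lit 9772779196465182303119)), (.ofNat (nat_lit 9772779196465182303120)), (.ofNat (nat_lit 0))⟩,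
    ⟨nat_lit 0, nat_lit 5, nat_lit 6, (.ofNat (nat_lit 8)), (.ofNat (nat_lit 1043281472)), (.ofNat (nat_lit 258356375043762468436839051770880)), (.negSucc (nat_lit 1408248767)), (.ofNat (nat_lit 13793246768514260958260171627520)), (.ofNat (nat_lit 1043281456)), (.ofNat (nat_lit 1043281488)), (.ofNat (nat_lit 9772779196465182303120)), (.negSucc (nat_lit 9772779196465182303119)), (.negSucc (nat_lit 9772779196465182303119)), (.ofNat (nat_lit 9772779196465182303120)), (.ofNat (nat_lit 0))⟩,
    ⟨nat_lit 0, nat_lit 6, nat_lit 7, (.ofNat (nat_lit 8)), (.ofNat (nat_lit 13721191424)), (.ofNat (nat_lit 134457960410197970494619723120640)), (.ofNat (nat_lit 1572864)), (.ofNat (nat_lit 15371252578069012498014535680)), (.ofNat (nat_lit 13721191408)), (.ofNat (nat_lit 13721191440)), (.negSucc (nat_lit 9772779196465182303119)), (.ofNat (nat_lit 9772779196465182303120)), (.negSucc (nat_lit 9772779196465182303119)), (.ofNat (nat_lit 9772779196465182303120)), (.ofNat (nat_lit 0))⟩,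
    ⟨nat_lit 1, nat_lit 7, nat_lit 8, (.ofNat (nat_lit 8)), (.ofNat (nat_lit 15401214656)), (.ofNat (nat_lit 150876456501465769042976589204480)), (.ofNat (nat_lit 1835008)), (.ofNat (nat_lit 17933128007747181247683624960)), (.ofNat (nat_lit 15401214640)), (.ofNat (nat_lit 15401214672)), (.ofNat (nat_lit 9772779196465182303120)), (.negSucc (nat_lit 9772779196465182303119)), (.negSucc (nat_lit 9772779196465182303119)), (.ofNat (nat_lit 9772779196465182303120)), (.ofNat (nat_lit 0))⟩,
    ⟨nat_lit 0, nat_lit 14, nat_lit 8, (.ofNat (nat_lit 8)), (.ofNat (nat_lit 12055358848)), (.ofNat (nat_lit 183574766536260372321649457725440)), (.negSucc (nat_lit 370392703)), (.ofNat (nat_lit 3655632368189180477600931686400)), (.ofNat (nat_lit 12055358832)), (.ofNat (nat_lit 12055358864)), (.ofNat (nat_lit 9772779196465182303120)), (.negSucc (nat_lit 9772779196465182303119)), (.negSucc (nat_lit 9772779196465182303119)), (.ofNat (nat_lit 9772779196465182303120)), (.ofNat (nat_lit 0))⟩,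
    ⟨nat_lit 1, nat_lit 9, nat_lit 13, (.ofNat (nat_lit 8)), (.negSucc (nat_lit 5966322879)), (.ofNat (nat_lit 238672107608402761340376489937920)), (.negSucc (nat_lit 1686528895)), (.ofNat (nat_lit 16502569512503616362117063669760)), (.negSucc (nat_lit 5966322895)), (.negSucc (nat_lit 5966322863)), (.ofNat (nat_lit 9772779196465182303120)), (.negSucc (nat_lit 9772779196465182303119)), (.negSucc (nat_lit 9772779196465182303119)), (.ofNat (nat_lit 9772779196465182303120)), (.ofNat (nat_lit 0))⟩,
    ⟨nat_lit 0, nat_lit 4, nat_lit 9, (.ofNat (nat_lit 8)), (.negSucc (nat_lit 12864298687)), (.ofNat (nat_lit 171259713134260254699145007016960)), (.negSucc (nat_lit 1687053183)), (.ofNat (nat_lit 16497445761644260024617725491200)), (.negSucc (nat_lit 12864298703)), (.negSucc (nat_lit 12864298671)), (.negSucc (nat_lit 9772779196465182303119)), (.ofNat (nat_lit 9772779196465182303120)), (.negSucc (nat_lit 9772779196465182303119)), (.ofNat (nat_lit 9772779196465182303120)), (.ofNat (nat_lit 0))⟩,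
    ⟨nat_lit 0, nat_lit 15, nat_lit 10, (.ofNat (nat_lit 8)), (.negSucc (nat_lit 1503285247)), (.ofNat (nat_lit 15316371151933138329286883358720)), (.negSucc (nat_lit 168750143)), (.ofNat (nat_lit 1649157896683703804637751649280)), (.negSucc (nat_lit 1503285263)), (.negSucc (nat_lit 1503285231)), (.negSucc (nat_lit 9772779196465182303119)), (.ofNat (nat_lit 9772779196465182303120)), (.negSucc (nat_lit 9772779196465182303119)), (.ofNat (nat_lit 9772779196465182303120)), (.ofNat (nat_lit 0))⟩,
    ⟨nat_lit 1, nat_lit 10, nat_lit 11, (.ofNat (nat_lit 8)), (.ofNat (nat_lit 4694911616)), (.ofNat (nat_lit 75889980520028071165673564774400)), (.negSucc (nat_lit 167963711)), (.ofNat (nat_lit 1656843522972738310886758917120)), (.ofNat (nat_lit 4694911600)), (.ofNat (nat_lit 4694911632)), (.ofNat (nat_lit 9772779196465182303120)), (.negSucc (nat_lit 9772779196465182303119)), (.negSucc (nat_lit 9772779196465182303119)), (.ofNat (nat_lit 9772779196465182303120)), (.ofNat (nat_lit 0))⟩,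
    ⟨nat_lit 2, nat_lit 11, nat_lit 12, (.ofNat (nat_lit 8)), (.negSucc (nat_lit 10279671935)), (.ofNat (nat_lit 222233279132743366622655795056640)), (.negSucc (nat_lit 1833204351)), (.ofNat (nat_lit 17930872606673104227050981713920)), (.negSucc (nat_lit 10279671951)), (.negSucc (nat_lit 10279671919)), (.negSucc (nat_lit 9772779196465182303119)), (.ofNat (nat_lit 9772779196465182303120)), (.negSucc (nat_lit 9772779196465182303119)), (.ofNat (nat_lit 9772779196465182303120)), (.ofNat (nat_lit 0))⟩,
    ⟨nat_lit 0, nat_lit 12, nat_lit 13, (.ofNat (nat_lit 8)), (.negSucc (nat_lit 7281945535)), (.ofNat (nat_lit 251529397331357830293531421424640)), (.negSucc (nat_lit 1832942207)), (.ofNat (nat_lit 17933434482102782395800650803200)), (.negSucc (nat_lit 7281945551)), (.negSucc (nat_lit 7281945519)), (.ofNat (nat_lit 9772779196465182303120)), (.negSucc (nat_lit 9772779196465182303119)), (.negSucc (nat_lit 9772779196465182303119)), (.ofNat (nat_lit 9772779196465182303120)), (.ofNat (nat_lit 0))⟩,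
    ⟨nat_lit 2, nat_lit 15, nat_lit 5, (.ofNat (nat_lit 8)), (.negSucc (nat_lit 12664540671)), (.ofNat (nat_lit 124392855966034515937133795481600)), (.negSucc (nat_lit 1409821631)), (.ofNat (nat_lit 13777875515936191945762157091840)), (.negSucc (nat_lit 12664540687)), (.negSucc (nat_lit 12664540655)), (.negSucc (nat_lit 9772779196465182303119)), (.ofNat (nat_lit 9772779196465182303120)), (.negSucc (nat_lit 9772779196465182303119)), (.ofNat (nat_lit 9772779196465182303120)), (.ofNat (nat_lit 0))⟩]
  es := [
    ⟨nat_lit 1, nat_lit 0, (.negSucc (nat_lit 6807351615)), (.negSucc (nat_lit 1125381951)), (.negSucc (nat_lit 6807351599)), (.negSucc (nat_lit 1125381967)), (.negSucc (nat_lit 9772779196465182303119)), (.ofNat (nat_lit 0)), (.ofNat (nat_lit 5123750859356337499338178560))⟩,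
    ⟨nat_lit 1, nat_lit 2, (.negSucc (nat_lit 6807351615)), (.ofNat (nat_lit 6412604288)), (.negSucc (nat_lit 6807351599)), (.ofNat (nat_lit 6412604272)), (.ofNat (nat_lit 9772778344736483797968)), (.ofNat (nat_lit 0)), (.ofNat (nat_lit 19624202610392323988886560329728))⟩,
    ⟨nat_lit 3, nat_lit 2, (.negSucc (nat_lit 1148135679)), (.ofNat (nat_lit 6412604288)), (.negSucc (nat_lit 1148135663)), (.ofNat (nat_lit 6412604272)), (.negSucc (nat_lit 9772780685713044822575)), (.ofNat (nat_lit 0)), (.ofNat (nat_lit 40987262279203550098449223680))⟩,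
    ⟨nat_lit 4, nat_lit 3, (.negSucc (nat_lit 14277248703)), (.negSucc (nat_lit 1148135679)), (.negSucc (nat_lit 14277248687)), (.negSucc (nat_lit 1148135695)), (.ofNat (nat_lit 9772779196465182303120)), (.ofNat (nat_lit 0)), (.ofNat (nat_lit 36062297027988651191710336020480))⟩,
    ⟨nat_lit 4, nat_lit 10, (.negSucc (nat_lit 14277248703)), (.negSucc (nat_lit 12864298687)), (.negSucc (nat_lit 14277248687)), (.negSucc (nat_lit 12864298703)), (.negSucc (nat_lit 9772779196465182303119)), (.ofNat (nat_lit 0)), (.ofNat (nat_lit 10247501718712674998676357120))⟩,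
    ⟨nat_lit 15, nat_lit 5, (.negSucc (nat_lit 12664540671)), (.ofNat (nat_lit 1043281472)), (.negSucc (nat_lit 12664540655)), (.ofNat (nat_lit 1043281456)), (.ofNat (nat_lit 9772779196465182303120)), (.ofNat (nat_lit 0)), (.ofNat (nat_lit 27555751031872383891524314183680))⟩,
    ⟨nat_lit 5, nat_lit 6, (.ofNat (nat_lit 1043281472)), (.ofNat (nat_lit 13721191424)), (.ofNat (nat_lit 1043281488)), (.ofNat (nat_lit 13721191408)), (.negSucc (nat_lit 9772779196465182303119)), (.ofNat (nat_lit 0)), (.ofNat (nat_lit 30742505156138024996029071360))⟩,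
    ⟨nat_lit 6, nat_lit 7, (.ofNat (nat_lit 13721191424)), (.ofNat (nat_lit 15401214656)), (.ofNat (nat_lit 13721191440)), (.ofNat (nat_lit 15401214640)), (.ofNat (nat_lit 9772779196465182303120)), (.ofNat (nat_lit 0)), (.ofNat (nat_lit 0))⟩,
    ⟨nat_lit 8, nat_lit 7, (.ofNat (nat_lit 12055358848)), (.ofNat (nat_lit 15401214656)), (.ofNat (nat_lit 12055358864)), (.ofNat (nat_lit 15401214640)), (.negSucc (nat_lit 9772779196465182303119)), (.ofNat (nat_lit 0)), (.ofNat (nat_lit 35866256015494362495367249920))⟩,
    ⟨nat_lit 10, nat_lit 9, (.negSucc (nat_lit 12864298687)), (.negSucc (nat_lit 5966322879)), (.negSucc (nat_lit 12864298671)), (.negSucc (nat_lit 5966322895)), (.ofNat (nat_lit 9772779196465182303120)), (.ofNat (nat_lit 0)), (.ofNat (nat_lit 32984644021569807374236774625280))⟩,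
    ⟨nat_lit 11, nat_lit 12, (.negSucc (nat_lit 1503285247)), (.ofNat (nat_lit 4694911616)), (.negSucc (nat_lit 1503285231)), (.ofNat (nat_lit 4694911600)), (.ofNat (nat_lit 9772779196465182303120)), (.ofNat (nat_lit 0)), (.ofNat (nat_lit 3298315793367407609275503298560))⟩,
    ⟨nat_lit 13, nat_lit 12, (.negSucc (nat_lit 10279671935)), (.ofNat (nat_lit 4694911616)), (.negSucc (nat_lit 10279671919)), (.ofNat (nat_lit 4694911600)), (.negSucc (nat_lit 9772779196465182303119)), (.ofNat (nat_lit 0)), (.ofNat (nat_lit 15371252578069012498014535680))⟩,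
    ⟨nat_lit 13, nat_lit 14, (.negSucc (nat_lit 10279671935)), (.negSucc (nat_lit 7281945535)), (.negSucc (nat_lit 10279671919)), (.negSucc (nat_lit 7281945551)), (.ofNat (nat_lit 9772779196465182303120)), (.ofNat (nat_lit 0)), (.ofNat (nat_lit 35846373960768139441603948892160))⟩,
    ⟨nat_lit 14, nat_lit 9, (.negSucc (nat_lit 7281945535)), (.negSucc (nat_lit 5966322879)), (.negSucc (nat_lit 7281945519)), (.negSucc (nat_lit 5966322895)), (.negSucc (nat_lit 9772779196465182303119)), (.ofNat (nat_lit 0)), (.ofNat (nat_lit 20495003437425349997352714240))⟩,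
    ⟨nat_lit 0, nat_lit 8, (.negSucc (nat_lit 1125381951)), (.ofNat (nat_lit 12055358848)), (.negSucc (nat_lit 1125381935)), (.ofNat (nat_lit 12055358832)), (.ofNat (nat_lit 9772779196465182303120)), (.ofNat (nat_lit 0)), (.ofNat (nat_lit 7275398480362866592706496122880))⟩,
    ⟨nat_lit 15, nat_lit 11, (.negSucc (nat_lit 12664540671)), (.negSucc (nat_lit 1503285247)), (.negSucc (nat_lit 12664540655)), (.negSucc (nat_lit 1503285263)), (.negSucc (nat_lit 9772779196465182303119)), (.ofNat (nat_lit 0)), (.ofNat (nat_lit 0))⟩]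

theorem ok134 : stOK 15 15 S134 = true := by decide +kernel

def S135 : SD where
  vs := [
    ⟨nat_lit 0, nat_lit 0, nat_lit 14, (.ofNat (nat_lit 8)), (.negSucc (nat_lit 1125381951)), (.ofNat (nat_lit 55617957943458348911968144703872)), (.ofNat (nat_lit 0)), (.ofNat (nat_lit 855660891437820752490438274432)), (.negSucc (nat_lit 1125381967)), (.negSucc (nat_lit 1125381935)), (.negSucc (nat_lit 9925478871409950776605)), (.ofNat (nat_lit 9925478871409950776606)), (.negSucc (nat_lit 9925478871409950776605)), (.ofNat (nat_lit 9925478871409950776606)), (.ofNat (nat_lit 916198049668610840916))⟩,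
    ⟨nat_lit 2, nat_lit 0, nat_lit 1, (.ofNat (nat_lit 8)), (.negSucc (nat_lit 6807351615)), (.ofNat (nat_lit 112014227791482646132376677584256)), (.ofNat (nat_lit 0)), (.ofNat (nat_lit 1723295812176656094341478603136)), (.negSucc (nat_lit 6807351631)), (.negSucc (nat_lit 6807351599)), (.negSucc (nat_lit 9925478871409950776605)), (.ofNat (nat_lit 9925478871409950776606)), (.negSucc (nat_lit 9925478871409950776605)), (.ofNat (nat_lit 9925478871409950776606)), (.ofNat (nat_lit 916199753126007851220))⟩,
    ⟨nat_lit 1, nat_lit 1, nat_lit 2, (.ofNat (nat_lit 8)), (.ofNat (nat_lit 6412604288)), (.ofNat (nat_lit 243228620797605881705918552366080)), (.ofNat (nat_lit 0)), (.ofNat (nat_lit 3741990041317465358735948581888)), (.ofNat (nat_lit 6412604272)), (.ofNat (nat_lit 6412604304)), (.ofNat (nat_lit 9925478871409950776606)), (.negSucc (nat_lit 9925478871409950776605)), (.negSucc (nat_lit 9925478871409950776605)), (.ofNat (nat_lit 9925478871409950776606)), (.ofNat (nat_lit 916198478087679822612))⟩,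
    ⟨nat_lit 0, nat_lit 3, nat_lit 2, (.ofNat (nat_lit 8)), (.negSucc (nat_lit 1148135679)), (.ofNat (nat_lit 318272585602214629055516175954688)), (.ofNat (nat_lit 0)), (.ofNat (nat_lit 4896501316957148139307740252928)), (.negSucc (nat_lit 1148135695)), (.negSucc (nat_lit 1148135663)), (.ofNat (nat_lit 9925478871409950776606)), (.negSucc (nat_lit 9925478871409950776605)), (.negSucc (nat_lit 9925478871409950776605)), (.ofNat (nat_lit 9925478871409950776606)), (.ofNat (nat_lit 916195071172885802004))⟩,
    ⟨nat_lit 2, nat_lit 4, nat_lit 3, (.ofNat (nat_lit 8)), (.negSucc (nat_lit 14277248703)), (.ofNat (nat_lit 187959851682149423071179426838144)), (.ofNat (nat_lit 0)), (.ofNat (nat_lit 2891690025879221893398098971264)), (.negSucc (nat_lit 14277248719)), (.negSucc (nat_lit 14277248687)), (.negSucc (nat_lit 9925478871409950776605)), (.ofNat (nat_lit 9925478871409950776606)), (.negSucc (nat_lit 9925478871409950776605)), (.ofNat (nat_lit 9925478871409950776606)), (.ofNat (nat_lit 916198049668610840916))⟩,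
    ⟨nat_lit 0, nat_lit 5, nat_lit 6, (.ofNat (nat_lit 8)), (.ofNat (nat_lit 1043281472)), (.ofNat (nat_lit 262393193403821257006158052873344)), (.ofNat (nat_lit 0)), (.ofNat (nat_lit 4036818360058788569319001102464)), (.ofNat (nat_lit 1043281456)), (.ofNat (nat_lit 1043281488)), (.ofNat (nat_lit 9925478871409950776606)), (.negSucc (nat_lit 9925478871409950776605)), (.negSucc (nat_lit 9925478871409950776605)), (.ofNat (nat_lit 9925478871409950776606)), (.ofNat (nat_lit 916198049668610840916))⟩,
    ⟨nat_lit 0, nat_lit 6, nat_lit 7, (.ofNat (nat_lit 8)), (.ofNat (nat_lit 13721191424)), (.ofNat (nat_lit 136558866041607313783594716690432)), (.ofNat (nat_lit 0)), (.ofNat (nat_lit 2100905631409343288974993569792)), (.ofNat (nat_lit 13721191408)), (.ofNat (nat_lit 13721191440)), (.negSucc (nat_lit 9925478871409950776605)), (.ofNat (nat_lit 9925478871409950776606)), (.negSucc (nat_lit 9925478871409950776605)), (.ofNat (nat_lit 9925478871409950776606)), (.ofNat (nat_lit 916198049668610840916))⟩,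
    ⟨nat_lit 1, nat_lit 7, nat_lit 8, (.ofNat (nat_lit 8)), (.ofNat (nat_lit 15401214656)), (.ofNat (nat_lit 153233901134301171684269238801024)), (.ofNat (nat_lit 0)), (.ofNat (nat_lit 2357444632835402641292649596544)), (.ofNat (nat_lit 15401214640)), (.ofNat (nat_lit 15401214672)), (.ofNat (nat_lit 9925478871409950776606)), (.negSucc (nat_lit 9925478871409950776605)), (.negSucc (nat_lit 9925478871409950776605)), (.ofNat (nat_lit 9925478871409950776606)), (.ofNat (nat_lit 916198049668610840916))⟩,
    ⟨nat_lit 0, nat_lit 14, nat_lit 8, (.ofNat (nat_lit 8)), (.ofNat (nat_lit 12055358848)), (.ofNat (nat_lit 186443122263389440639170534428672)), (.ofNat (nat_lit 0)), (.ofNat (nat_lit 2868355727129068317521076703232)), (.ofNat (nat_lit 12055358832)), (.ofNat (nat_lit 12055358864)), (.ofNat (nat_lit 9925478871409950776606)), (.negSucc (nat_lit 9925478871409950776605)), (.negSucc (nat_lit 9925478871409950776605)), (.ofNat (nat_lit 9925478871409950776606)), (.ofNat (nat_lit 916198049668610840916))⟩,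
    ⟨nat_lit 1, nat_lit 9, nat_lit 13, (.ofNat (nat_lit 8)), (.negSucc (nat_lit 5966322879)), (.ofNat (nat_lit 242401359289784054486313767060096)), (.ofNat (nat_lit 0)), (.ofNat (nat_lit 3729251681381293145937277122176)), (.negSucc (nat_lit 5966322895)), (.negSucc (nat_lit 5966322863)), (.ofNat (nat_lit 9925478871409950776606)), (.negSucc (nat_lit 9925478871409950776605)), (.negSucc (nat_lit 9925478871409950776605)), (.ofNat (nat_lit 9925478871409950776606)), (.ofNat (nat_lit 916198049668610840916))⟩,
    ⟨nat_lit 0, nat_lit 4, nat_lit 9, (.ofNat (nat_lit 8)), (.negSucc (nat_lit 12864298687)), (.ofNat (nat_lit 173935646151983071178814766712448)), (.ofNat (nat_lit 0)), (.ofNat (nat_lit 2675933017722816479669759695488)), (.negSucc (nat_lit 12864298703)), (.negSucc (nat_lit 12864298671)), (.negSucc (nat_lit 9925478871409950776605)), (.ofNat (nat_lit 9925478871409950776606)), (.negSucc (nat_lit 9925478871409950776605)), (.ofNat (nat_lit 9925478871409950776606)), (.ofNat (nat_lit 916198049668610840916))⟩,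
    ⟨nat_lit 0, nat_lit 15, nat_lit 10, (.ofNat (nat_lit 8)), (.negSucc (nat_lit 1503285247)), (.ofNat (nat_lit 15555689451182093615681599099136)), (.ofNat (nat_lit 0)), (.ofNat (nat_lit 239318299248955286394715740416)), (.negSucc (nat_lit 1503285263)), (.negSucc (nat_lit 1503285231)), (.negSucc (nat_lit 9925478871409950776605)), (.ofNat (nat_lit 9925478871409950776606)), (.negSucc (nat_lit 9925478871409950776605)), (.ofNat (nat_lit 9925478871409950776606)), (.ofNat (nat_lit 916198049668610840916))⟩,
    ⟨nat_lit 1, nat_lit 10, nat_lit 11, (.ofNat (nat_lit 8)), (.ofNat (nat_lit 4694911616)), (.ofNat (nat_lit 77075761465653509777635272862720)), (.ofNat (nat_lit 0)), (.ofNat (nat_lit 1185780945625438611961708088320)), (.ofNat (nat_lit 4694911600)), (.ofNat (nat_lit 4694911632)), (.ofNat (nat_lit 9925478871409950776606)), (.negSucc (nat_lit 9925478871409950776605)), (.negSucc (nat_lit 9925478871409950776605)), (.ofNat (nat_lit 9925478871409950776606)), (.ofNat (nat_lit 916198049668610840916))⟩,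
    ⟨nat_lit 2, nat_lit 11, nat_lit 12, (.ofNat (nat_lit 8)), (.negSucc (nat_lit 10279671935)), (.ofNat (nat_lit 225705674119192481726129106847232)), (.ofNat (nat_lit 0)), (.ofNat (nat_lit 3472394986449115103473311790592)), (.negSucc (nat_lit 10279671951)), (.negSucc (nat_lit 10279671919)), (.negSucc (nat_lit 9925478871409950776605)), (.ofNat (nat_lit 9925478871409950776606)), (.negSucc (nat_lit 9925478871409950776605)), (.ofNat (nat_lit 9925478871409950776606)), (.ofNat (nat_lit 916198049668610840916))⟩,
    ⟨nat_lit 0, nat_lit 12, nat_lit 13, (.ofNat (nat_lit 8)), (.negSucc (nat_lit 7281945535)), (.ofNat (nat_lit 255459544164660296391861415445632)), (.ofNat (nat_lit 0)), (.ofNat (nat_lit 3930146833302466098329994020992)), (.negSucc (nat_lit 7281945551)), (.negSucc (nat_lit 7281945519)), (.ofNat (nat_lit 9925478871409950776606)), (.negSucc (nat_lit 9925478871409950776605)), (.negSucc (nat_lit 9925478871409950776605)), (.ofNat (nat_lit 9925478871409950776606)), (.ofNat (nat_lit 916198049668610840916))⟩,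
    ⟨nat_lit 2, nat_lit 15, nat_lit 5, (.ofNat (nat_lit 8)), (.negSucc (nat_lit 12664540671)), (.ofNat (nat_lit 126336494340503805248648328910080)), (.ofNat (nat_lit 0)), (.ofNat (nat_lit 1943638374469289311514533428480)), (.negSucc (nat_lit 12664540687)), (.negSucc (nat_lit 12664540655)), (.negSucc (nat_lit 9925478871409950776605)), (.ofNat (nat_lit 9925478871409950776606)), (.negSucc (nat_lit 9925478871409950776605)), (.ofNat (nat_lit 9925478871409950776606)), (.ofNat (nat_lit 916198049668610840916))⟩]
  es := [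
    ⟨nat_lit 1, nat_lit 0, (.negSucc (nat_lit 6807351615)), (.negSucc (nat_lit 1125381951)), (.negSucc (nat_lit 6807351599)), (.negSucc (nat_lit 1125381967)), (.negSucc (nat_lit 9925478871409950776605)), (.negSucc (nat_lit 152699674944768473485)), (.ofNat (nat_lit 683815433178711715610703349760))⟩,
    ⟨nat_lit 1, nat_lit 2, (.negSucc (nat_lit 6807351615)), (.ofNat (nat_lit 6412604288)), (.negSucc (nat_lit 6807351599)), (.ofNat (nat_lit 6412604272)), (.ofNat (nat_lit 9925478871409950776606)), (.ofNat (nat_lit 152700526673466978638)), (.ofNat (nat_lit 2762781989191332635695505382144))⟩,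
    ⟨nat_lit 3, nat_lit 2, (.negSucc (nat_lit 1148135679)), (.ofNat (nat_lit 6412604288)), (.negSucc (nat_lit 1148135663)), (.ofNat (nat_lit 6412604272)), (.negSucc (nat_lit 9925478871409950776605)), (.negSucc (nat_lit 152698185696905954029)), (.ofNat (nat_lit 4721183081687264747881457462528))⟩,
    ⟨nat_lit 4, nat_lit 3, (.negSucc (nat_lit 14277248703)), (.negSucc (nat_lit 1148135679)), (.negSucc (nat_lit 14277248687)), (.negSucc (nat_lit 1148135695)), (.ofNat (nat_lit 9925478871409950776606)), (.ofNat (nat_lit 152699674944768473486)), (.ofNat (nat_lit 5071821262085638853056150833408))⟩,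
    ⟨nat_lit 4, nat_lit 10, (.negSucc (nat_lit 14277248703)), (.negSucc (nat_lit 12864298687)), (.negSucc (nat_lit 14277248687)), (.negSucc (nat_lit 12864298703)), (.negSucc (nat_lit 9925478871409950776605)), (.negSucc (nat_lit 152699674944768473485)), (.ofNat (nat_lit 711558789672804933740047109120))⟩,
    ⟨nat_lit 15, nat_lit 5, (.negSucc (nat_lit 12664540671)), (.ofNat (nat_lit 1043281472)), (.negSucc (nat_lit 12664540655)), (.ofNat (nat_lit 1043281456)), (.ofNat (nat_lit 9925478871409950776606)), (.ofNat (nat_lit 152699674944768473486)), (.ofNat (nat_lit 3877509618408488997601334051072))⟩,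
    ⟨nat_lit 5, nat_lit 6, (.ofNat (nat_lit 1043281472)), (.ofNat (nat_lit 13721191424)), (.ofNat (nat_lit 1043281488)), (.ofNat (nat_lit 13721191408)), (.negSucc (nat_lit 9925478871409950776605)), (.negSucc (nat_lit 152699674944768473485)), (.ofNat (nat_lit 4196127101709088141036668153856))⟩,
    ⟨nat_lit 6, nat_lit 7, (.ofNat (nat_lit 13721191424)), (.ofNat (nat_lit 15401214656)), (.ofNat (nat_lit 13721191440)), (.ofNat (nat_lit 15401214640)), (.ofNat (nat_lit 9925478871409950776606)), (.ofNat (nat_lit 152699674944768473486)), (.ofNat (nat_lit 5684161109598436913318985728))⟩,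
    ⟨nat_lit 8, nat_lit 7, (.ofNat (nat_lit 12055358848)), (.ofNat (nat_lit 15401214656)), (.ofNat (nat_lit 12055358864)), (.ofNat (nat_lit 15401214640)), (.negSucc (nat_lit 9925478871409950776605)), (.negSucc (nat_lit 152699674944768473485)), (.ofNat (nat_lit 4709205104561206845671980207360))⟩,
    ⟨nat_lit 10, nat_lit 9, (.negSucc (nat_lit 12864298687)), (.negSucc (nat_lit 5966322879)), (.negSucc (nat_lit 12864298671)), (.negSucc (nat_lit 5966322895)), (.ofNat (nat_lit 9925478871409950776606)), (.ofNat (nat_lit 152699674944768473486)), (.ofNat (nat_lit 4640307245772828025599472281856))⟩,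
    ⟨nat_lit 11, nat_lit 12, (.negSucc (nat_lit 1503285247)), (.ofNat (nat_lit 4694911616)), (.negSucc (nat_lit 1503285231)), (.ofNat (nat_lit 4694911600)), (.ofNat (nat_lit 9925478871409950776606)), (.ofNat (nat_lit 152699674944768473486)), (.ofNat (nat_lit 468869467967820947361698674944))⟩,
    ⟨nat_lit 13, nat_lit 12, (.negSucc (nat_lit 10279671935)), (.ofNat (nat_lit 4694911616)), (.negSucc (nat_lit 10279671919)), (.ofNat (nat_lit 4694911600)), (.negSucc (nat_lit 9925478871409950776605)), (.negSucc (nat_lit 152699674944768473485)), (.ofNat (nat_lit 1902692423283056276561717501696))⟩,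
    ⟨nat_lit 13, nat_lit 14, (.negSucc (nat_lit 10279671935)), (.negSucc (nat_lit 7281945535)), (.negSucc (nat_lit 10279671919)), (.negSucc (nat_lit 7281945551)), (.ofNat (nat_lit 9925478871409950776606)), (.ofNat (nat_lit 152699674944768473486)), (.ofNat (nat_lit 5042097549615173930384906079488))⟩,
    ⟨nat_lit 14, nat_lit 9, (.negSucc (nat_lit 7281945535)), (.negSucc (nat_lit 5966322879)), (.negSucc (nat_lit 7281945519)), (.negSucc (nat_lit 5966322895)), (.negSucc (nat_lit 9925478871409950776605)), (.negSucc (nat_lit 152699674944768473485)), (.ofNat (nat_lit 2818196116989758266275081962496))⟩,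
    ⟨nat_lit 0, nat_lit 8, (.negSucc (nat_lit 1125381951)), (.ofNat (nat_lit 12055358848)), (.negSucc (nat_lit 1125381935)), (.ofNat (nat_lit 12055358832)), (.ofNat (nat_lit 9925478871409950776606)), (.ofNat (nat_lit 152699674944768473486)), (.ofNat (nat_lit 1027506349696929789370173199104))⟩,
    ⟨nat_lit 15, nat_lit 11, (.negSucc (nat_lit 12664540671)), (.negSucc (nat_lit 1503285247)), (.negSucc (nat_lit 12664540655)), (.negSucc (nat_lit 1503285263)), (.negSucc (nat_lit 9925478871409950776605)), (.negSucc (nat_lit 152699674944768473485)), (.ofNat (nat_lit 9767130530089625427732805888))⟩]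

theorem ok135 : stOK 15 15 S135 = true := by decide +kernel

def S136 : SD where
  vs := [
    ⟨nat_lit 0, nat_lit 0, nat_lit 14, (.ofNat (nat_lit 8)), (.negSucc (nat_lit 1018023999)), (.ofNat (nat_lit 56693944646645260140310904787840)), (.ofNat (nat_lit 107357952)), (.ofNat (nat_lit 1075986703186911228342760083968)), (.negSucc (nat_lit 1018024015)), (.negSucc (nat_lit 1018023983)), (.negSucc (nat_lit 9925478871409950776605)), (.ofNat (nat_lit 9925478871409950776606)), (.negSucc (nat_lit 9925478871409950776605)), (.ofNat (nat_lit 9925478871409950776606)), (.ofNat (nat_lit 0))⟩,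
    ⟨nat_lit 2, nat_lit 0, nat_lit 1, (.ofNat (nat_lit 8)), (.negSucc (nat_lit 6700255807)), (.ofNat (nat_lit 113092816399402824250855820271488)), (.ofNat (nat_lit 107095808)), (.ofNat (nat_lit 1078588607920178118479142687232)), (.negSucc (nat_lit 6700255823)), (.negSucc (nat_lit 6700255791)), (.negSucc (nat_lit 9925478871409950776605)), (.ofNat (nat_lit 9925478871409950776606)), (.negSucc (nat_lit 9925478871409950776605)), (.ofNat (nat_lit 9925478871409950776606)), (.ofNat (nat_lit 0))⟩,
    ⟨nat_lit 1, nat_lit 1, nat_lit 2, (.ofNat (nat_lit 8)), (.ofNat (nat_lit 6521010816)), (.ofNat (nat_lit 244320218929192394275079608069632)), (.ofNat (nat_lit 108406528)), (.ofNat (nat_lit 1091598131586512569161055703552)), (.ofNat (nat_lit 6521010800)), (.ofNat (nat_lit 6521010832)), (.ofNat (nat_lit 9925478871409950776606)), (.negSucc (nat_lit 9925478871409950776605)), (.negSucc (nat_lit 9925478871409950776605)), (.ofNat (nat_lit 9925478871409950776606)), (.ofNat (nat_lit 0))⟩,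
    ⟨nat_lit 0, nat_lit 3, nat_lit 2, (.ofNat (nat_lit 8)), (.negSucc (nat_lit 1040777727)), (.ofNat (nat_lit 319374591352734209185222762071296)), (.ofNat (nat_lit 107357952)), (.ofNat (nat_lit 1102005750519580129706586116608)), (.negSucc (nat_lit 1040777743)), (.negSucc (nat_lit 1040777711)), (.ofNat (nat_lit 9925478871409950776606)), (.negSucc (nat_lit 9925478871409950776605)), (.negSucc (nat_lit 9925478871409950776605)), (.ofNat (nat_lit 9925478871409950776606)), (.ofNat (nat_lit 0))⟩,
    ⟨nat_lit 2, nat_lit 4, nat_lit 3, (.ofNat (nat_lit 8)), (.negSucc (nat_lit 14278821567)), (.ofNat (nat_lit 187980666920015558192270487664256)), (.negSucc (nat_lit 1572863)), (.ofNat (nat_lit 20815237866135121091060826112)), (.negSucc (nat_lit 14278821583)), (.negSucc (nat_lit 14278821551)), (.negSucc (nat_lit 9925478871409950776605)), (.ofNat (nat_lit 9925478871409950776606)), (.negSucc (nat_lit 9925478871409950776605)), (.ofNat (nat_lit 9925478871409950776606)), (.ofNat (nat_lit 0))⟩,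
    ⟨nat_lit 0, nat_lit 5, nat_lit 6, (.ofNat (nat_lit 8)), (.ofNat (nat_lit 1150901568)), (.ofNat (nat_lit 263482189630674502685182725973632)), (.ofNat (nat_lit 107620096)), (.ofNat (nat_lit 1088996226853245679024673100288)), (.ofNat (nat_lit 1150901552)), (.ofNat (nat_lit 1150901584)), (.ofNat (nat_lit 9925478871409950776606)), (.negSucc (nat_lit 9925478871409950776605)), (.negSucc (nat_lit 9925478871409950776605)), (.ofNat (nat_lit 9925478871409950776606)), (.ofNat (nat_lit 0))⟩,
    ⟨nat_lit 0, nat_lit 6, nat_lit 7, (.ofNat (nat_lit 8)), (.ofNat (nat_lit 13829860096)), (.ofNat (nat_lit 137637454649527491902073859377664)), (.ofNat (nat_lit 108668672)), (.ofNat (nat_lit 1078588607920178118479142687232)), (.ofNat (nat_lit 13829860080)), (.ofNat (nat_lit 13829860112)), (.negSucc (nat_lit 9925478871409950776605)), (.ofNat (nat_lit 9925478871409950776606)), (.negSucc (nat_lit 9925478871409950776605)), (.ofNat (nat_lit 9925478871409950776606)), (.ofNat (nat_lit 0))⟩,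
    ⟨nat_lit 1, nat_lit 7, nat_lit 8, (.ofNat (nat_lit 8)), (.ofNat (nat_lit 15510145472)), (.ofNat (nat_lit 154315091646954616692884764091520)), (.ofNat (nat_lit 108930816)), (.ofNat (nat_lit 1081190512653445008615525290496)), (.ofNat (nat_lit 15510145456)), (.ofNat (nat_lit 15510145488)), (.ofNat (nat_lit 9925478871409950776606)), (.negSucc (nat_lit 9925478871409950776605)), (.negSucc (nat_lit 9925478871409950776605)), (.ofNat (nat_lit 9925478871409950776606)), (.ofNat (nat_lit 0))⟩,
    ⟨nat_lit 0, nat_lit 14, nat_lit 8, (.ofNat (nat_lit 8)), (.ofNat (nat_lit 12163765376)), (.ofNat (nat_lit 187529516585509419428058824925696)), (.ofNat (nat_lit 108406528)), (.ofNat (nat_lit 1086394322119978788888290497024)), (.ofNat (nat_lit 12163765360)), (.ofNat (nat_lit 12163765392)), (.ofNat (nat_lit 9925478871409950776606)), (.negSucc (nat_lit 9925478871409950776605)), (.negSucc (nat_lit 9925478871409950776605)), (.ofNat (nat_lit 9925478871409950776606)), (.ofNat (nat_lit 0))⟩,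
    ⟨nat_lit 1, nat_lit 9, nat_lit 13, (.ofNat (nat_lit 8)), (.negSucc (nat_lit 5859227071)), (.ofNat (nat_lit 243490355516637300165338440160384)), (.ofNat (nat_lit 107095808)), (.ofNat (nat_lit 1088996226853245679024673100288)), (.negSucc (nat_lit 5859227087)), (.negSucc (nat_lit 5859227055)), (.ofNat (nat_lit 9925478871409950776606)), (.negSucc (nat_lit 9925478871409950776605)), (.negSucc (nat_lit 9925478871409950776605)), (.ofNat (nat_lit 9925478871409950776606)), (.ofNat (nat_lit 0))⟩,
    ⟨nat_lit 0, nat_lit 4, nat_lit 9, (.ofNat (nat_lit 8)), (.negSucc (nat_lit 12865347263)), (.ofNat (nat_lit 173951257580382672519633062332032)), (.negSucc (nat_lit 1048575)), (.ofNat (nat_lit 15611428399601340818295619584)), (.negSucc (nat_lit 12865347279)), (.negSucc (nat_lit 12865347247)), (.negSucc (nat_lit 9925478871409950776605)), (.ofNat (nat_lit 9925478871409950776606)), (.negSucc (nat_lit 9925478871409950776605)), (.ofNat (nat_lit 9925478871409950776606)), (.ofNat (nat_lit 0))⟩,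
    ⟨nat_lit 0, nat_lit 15, nat_lit 10, (.ofNat (nat_lit 8)), (.negSucc (nat_lit 1503547391)), (.ofNat (nat_lit 15558291355915360505817981702400)), (.negSucc (nat_lit 262143)), (.ofNat (nat_lit 2601904733266890136382603264)), (.negSucc (nat_lit 1503547407)), (.negSucc (nat_lit 1503547375)), (.negSucc (nat_lit 9925478871409950776605)), (.ofNat (nat_lit 9925478871409950776606)), (.negSucc (nat_lit 9925478871409950776605)), (.ofNat (nat_lit 9925478871409950776606)), (.ofNat (nat_lit 0))⟩,
    ⟨nat_lit 1, nat_lit 10, nat_lit 11, (.ofNat (nat_lit 8)), (.ofNat (nat_lit 4802793856)), (.ofNat (nat_lit 78151748168840421005978032946688)), (.ofNat (nat_lit 107882240)), (.ofNat (nat_lit 1075986703186911228342760083968)), (.ofNat (nat_lit 4802793840)), (.ofNat (nat_lit 4802793872)), (.ofNat (nat_lit 9925478871409950776606)), (.negSucc (nat_lit 9925478871409950776605)), (.negSucc (nat_lit 9925478871409950776605)), (.ofNat (nat_lit 9925478871409950776606)), (.ofNat (nat_lit 0))⟩,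
    ⟨nat_lit 2, nat_lit 11, nat_lit 12, (.ofNat (nat_lit 8)), (.negSucc (nat_lit 10173100415)), (.ofNat (nat_lit 226794670346045727405153779947520)), (.ofNat (nat_lit 106571520)), (.ofNat (nat_lit 1088996226853245679024673100288)), (.negSucc (nat_lit 10173100431)), (.negSucc (nat_lit 10173100399)), (.negSucc (nat_lit 9925478871409950776605)), (.ofNat (nat_lit 9925478871409950776606)), (.negSucc (nat_lit 9925478871409950776605)), (.ofNat (nat_lit 9925478871409950776606)), (.ofNat (nat_lit 0))⟩,
    ⟨nat_lit 0, nat_lit 12, nat_lit 13, (.ofNat (nat_lit 8)), (.negSucc (nat_lit 7175111871)), (.ofNat (nat_lit 256551142296246808961022471149184)), (.ofNat (nat_lit 106833664)), (.ofNat (nat_lit 1091598131586512569161055703552)), (.negSucc (nat_lit 7175111887)), (.negSucc (nat_lit 7175111855)), (.ofNat (nat_lit 9925478871409950776606)), (.negSucc (nat_lit 9925478871409950776605)), (.negSucc (nat_lit 9925478871409950776605)), (.ofNat (nat_lit 9925478871409950776606)), (.ofNat (nat_lit 0))⟩,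
    ⟨nat_lit 2, nat_lit 15, nat_lit 5, (.ofNat (nat_lit 8)), (.negSucc (nat_lit 12665589247)), (.ofNat (nat_lit 126346901959436872809193859323136)), (.negSucc (nat_lit 1048575)), (.ofNat (nat_lit 10407618933067560545530413056)), (.negSucc (nat_lit 12665589263)), (.negSucc (nat_lit 12665589231)), (.negSucc (nat_lit 9925478871409950776605)), (.ofNat (nat_lit 9925478871409950776606)), (.negSucc (nat_lit 9925478871409950776605)), (.ofNat (nat_lit 9925478871409950776606)), (.ofNat (nat_lit 0))⟩]
  es := [
    ⟨nat_lit 1, nat_lit 0, (.negSucc (nat_lit 6700255807)), (.negSucc (nat_lit 1018023999)), (.negSucc (nat_lit 6700255791)), (.negSucc (nat_lit 1018024015)), (.negSucc (nat_lit 9925478871409950776605)), (.ofNat (nat_lit 0)), (.ofNat (nat_lit 2141565787440754896139989754880))⟩,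
    ⟨nat_lit 1, nat_lit 2, (.negSucc (nat_lit 6700255807)), (.ofNat (nat_lit 6521010816)), (.negSucc (nat_lit 6700255791)), (.ofNat (nat_lit 6521010800)), (.ofNat (nat_lit 9925478871409950776606)), (.ofNat (nat_lit 0)), (.ofNat (nat_lit 15611428399601340818295619584))⟩,
    ⟨nat_lit 3, nat_lit 2, (.negSucc (nat_lit 1040777727)), (.ofNat (nat_lit 6521010816)), (.negSucc (nat_lit 1040777711)), (.ofNat (nat_lit 6521010800)), (.negSucc (nat_lit 9925478871409950776605)), (.ofNat (nat_lit 0)), (.ofNat (nat_lit 2167584834773423797503815787520))⟩,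
    ⟨nat_lit 4, nat_lit 3, (.negSucc (nat_lit 14278821567)), (.negSucc (nat_lit 1040777727)), (.negSucc (nat_lit 14278821551)), (.negSucc (nat_lit 1040777743)), (.ofNat (nat_lit 9925478871409950776606)), (.ofNat (nat_lit 0)), (.ofNat (nat_lit 36426666265736461909356445696))⟩,
    ⟨nat_lit 4, nat_lit 10, (.negSucc (nat_lit 14278821567)), (.negSucc (nat_lit 12865347263)), (.negSucc (nat_lit 14278821551)), (.negSucc (nat_lit 12865347279)), (.negSucc (nat_lit 9925478871409950776605)), (.ofNat (nat_lit 0)), (.ofNat (nat_lit 5203809466533780272765206528))⟩,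
    ⟨nat_lit 15, nat_lit 5, (.negSucc (nat_lit 12665589247)), (.ofNat (nat_lit 1150901568)), (.negSucc (nat_lit 12665589231)), (.ofNat (nat_lit 1150901552)), (.ofNat (nat_lit 9925478871409950776606)), (.ofNat (nat_lit 0)), (.ofNat (nat_lit 20815237866135121091060826112))⟩,
    ⟨nat_lit 5, nat_lit 6, (.ofNat (nat_lit 1150901568)), (.ofNat (nat_lit 13829860096)), (.ofNat (nat_lit 1150901584)), (.ofNat (nat_lit 13829860080)), (.negSucc (nat_lit 9925478871409950776605)), (.ofNat (nat_lit 0)), (.ofNat (nat_lit 2157177215840356236958285374464))⟩,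
    ⟨nat_lit 6, nat_lit 7, (.ofNat (nat_lit 13829860096)), (.ofNat (nat_lit 15510145472)), (.ofNat (nat_lit 13829860112)), (.ofNat (nat_lit 15510145456)), (.ofNat (nat_lit 9925478871409950776606)), (.ofNat (nat_lit 0)), (.ofNat (nat_lit 0))⟩,
    ⟨nat_lit 8, nat_lit 7, (.ofNat (nat_lit 12163765376)), (.ofNat (nat_lit 15510145472)), (.ofNat (nat_lit 12163765392)), (.ofNat (nat_lit 15510145456)), (.negSucc (nat_lit 9925478871409950776605)), (.ofNat (nat_lit 0)), (.ofNat (nat_lit 2162381025306890017231050580992))⟩,
    ⟨nat_lit 10, nat_lit 9, (.negSucc (nat_lit 12865347263)), (.negSucc (nat_lit 5859227071)), (.negSucc (nat_lit 12865347247)), (.negSucc (nat_lit 5859227087)), (.ofNat (nat_lit 9925478871409950776606)), (.ofNat (nat_lit 0)), (.ofNat (nat_lit 26019047332668901363826032640))⟩,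
    ⟨nat_lit 11, nat_lit 12, (.negSucc (nat_lit 1503547391)), (.ofNat (nat_lit 4802793856)), (.negSucc (nat_lit 1503547375)), (.ofNat (nat_lit 4802793840)), (.ofNat (nat_lit 9925478871409950776606)), (.ofNat (nat_lit 0)), (.ofNat (nat_lit 5203809466533780272765206528))⟩,
    ⟨nat_lit 13, nat_lit 12, (.negSucc (nat_lit 10173100415)), (.ofNat (nat_lit 4802793856)), (.negSucc (nat_lit 10173100399)), (.ofNat (nat_lit 4802793840)), (.negSucc (nat_lit 9925478871409950776605)), (.ofNat (nat_lit 0)), (.ofNat (nat_lit 2146769596907288676412754961408))⟩,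
    ⟨nat_lit 13, nat_lit 14, (.negSucc (nat_lit 10173100415)), (.negSucc (nat_lit 7175111871)), (.negSucc (nat_lit 10173100399)), (.negSucc (nat_lit 7175111887)), (.ofNat (nat_lit 9925478871409950776606)), (.ofNat (nat_lit 0)), (.ofNat (nat_lit 31222856799202681636591239168))⟩,
    ⟨nat_lit 14, nat_lit 9, (.negSucc (nat_lit 7175111871)), (.negSucc (nat_lit 5859227071)), (.negSucc (nat_lit 7175111855)), (.negSucc (nat_lit 5859227087)), (.negSucc (nat_lit 9925478871409950776605)), (.ofNat (nat_lit 0)), (.ofNat (nat_lit 2151973406373822456685520167936))⟩,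
    ⟨nat_lit 0, nat_lit 8, (.negSucc (nat_lit 1018023999)), (.ofNat (nat_lit 12163765376)), (.negSucc (nat_lit 1018023983)), (.ofNat (nat_lit 12163765360)), (.ofNat (nat_lit 9925478871409950776606)), (.ofNat (nat_lit 0)), (.ofNat (nat_lit 10407618933067560545530413056))⟩,
    ⟨nat_lit 15, nat_lit 11, (.negSucc (nat_lit 12665589247)), (.negSucc (nat_lit 1503547391)), (.negSucc (nat_lit 12665589231)), (.negSucc (nat_lit 1503547407)), (.negSucc (nat_lit 9925478871409950776605)), (.ofNat (nat_lit 0)), (.ofNat (nat_lit 0))⟩]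

theorem ok136 : stOK 15 15 S136 = true := by decide +kernel

def S137 : SD where
  vs := [
    ⟨nat_lit 0, nat_lit 0, nat_lit 14, (.ofNat (nat_lit 8)), (.negSucc (nat_lit 1018023999)), (.ofNat (nat_lit 57579787531749092330000585193600)), (.ofNat (nat_lit 0)), (.ofNat (nat_lit 885842885103832189689680405760)), (.negSucc (nat_lit 1018024015)), (.negSucc (nat_lit 1018023983)), (.negSucc (nat_lit 10080564478775731257489)), (.ofNat (nat_lit 10080564478775731257490)), (.negSucc (nat_lit 10080564478775731257489)), (.ofNat (nat_lit 10080564478775731257490)), (.ofNat (nat_lit 930513644194682885304))⟩,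
    ⟨nat_lit 2, nat_lit 0, nat_lit 1, (.ofNat (nat_lit 8)), (.negSucc (nat_lit 6700255807)), (.ofNat (nat_lit 114859891655643493379770101435520)), (.ofNat (nat_lit 0)), (.ofNat (nat_lit 1767075256240669128914281164032)), (.negSucc (nat_lit 6700255823)), (.negSucc (nat_lit 6700255791)), (.negSucc (nat_lit 10080564478775731257489)), (.ofNat (nat_lit 10080564478775731257490)), (.negSucc (nat_lit 10080564478775731257489)), (.ofNat (nat_lit 10080564478775731257490)), (.ofNat (nat_lit 930513644194682885304))⟩,
    ⟨nat_lit 1, nat_lit 1, nat_lit 2, (.ofNat (nat_lit 8)), (.ofNat (nat_lit 6521010816)), (.ofNat (nat_lit 248137722349961025435616188449280)), (.ofNat (nat_lit 0)), (.ofNat (nat_lit 3817503420768631160536580379648)), (.ofNat (nat_lit 6521010800)), (.ofNat (nat_lit 6521010832)), (.ofNat (nat_lit 10080564478775731257490)), (.negSucc (nat_lit 10080564478775731257489)), (.negSucc (nat_lit 10080564478775731257489)), (.ofNat (nat_lit 10080564478775731257490)), (.ofNat (nat_lit 930513644194682885304))⟩,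
    ⟨nat_lit 0, nat_lit 3, nat_lit 2, (.ofNat (nat_lit 8)), (.negSucc (nat_lit 1040777727)), (.ofNat (nat_lit 324364819342620681203726784643840)), (.ofNat (nat_lit 0)), (.ofNat (nat_lit 4990227989886472018504022572544)), (.negSucc (nat_lit 1040777743)), (.negSucc (nat_lit 1040777711)), (.ofNat (nat_lit 10080564478775731257490)), (.negSucc (nat_lit 10080564478775731257489)), (.negSucc (nat_lit 10080564478775731257489)), (.ofNat (nat_lit 10080564478775731257490)), (.ofNat (nat_lit 930513644194682885304))⟩,
    ⟨nat_lit 2, nat_lit 4, nat_lit 3, (.ofNat (nat_lit 8)), (.negSucc (nat_lit 14278821567)), (.ofNat (nat_lit 190917864840640801289015836282240)), (.ofNat (nat_lit 0)), (.ofNat (nat_lit 2937197920625243096745348617984)), (.negSucc (nat_lit 14278821583)), (.negSucc (nat_lit 14278821551)), (.negSucc (nat_lit 10080564478775731257489)), (.ofNat (nat_lit 10080564478775731257490)), (.negSucc (nat_lit 10080564478775731257489)), (.ofNat (nat_lit 10080564478775731257490)), (.ofNat (nat_lit 930513644194682885304))⟩,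
    ⟨nat_lit 0, nat_lit 5, nat_lit 6, (.ofNat (nat_lit 8)), (.ofNat (nat_lit 1150901568)), (.ofNat (nat_lit 267599098843653791789626262609280)), (.ofNat (nat_lit 0)), (.ofNat (nat_lit 4116909212979289104443536635648)), (.ofNat (nat_lit 1150901552)), (.ofNat (nat_lit 1150901584)), (.ofNat (nat_lit 10080564478775731257490)), (.negSucc (nat_lit 10080564478775731257489)), (.negSucc (nat_lit 10080564478775731257489)), (.ofNat (nat_lit 10080564478775731257490)), (.ofNat (nat_lit 930513644194682885304))⟩,
    ⟨nat_lit 0, nat_lit 6, nat_lit 7, (.ofNat (nat_lit 8)), (.ofNat (nat_lit 13829860096)), (.ofNat (nat_lit 139788039878426358963037263234560)), (.ofNat (nat_lit 0)), (.ofNat (nat_lit 2150585228898867060963403856896)), (.ofNat (nat_lit 13829860080)), (.ofNat (nat_lit 13829860112)), (.negSucc (nat_lit 10080564478775731257489)), (.ofNat (nat_lit 10080564478775731257490)), (.negSucc (nat_lit 10080564478775731257489)), (.ofNat (nat_lit 10080564478775731257490)), (.ofNat (nat_lit 930513644194682885304))⟩,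
    ⟨nat_lit 1, nat_lit 7, nat_lit 8, (.ofNat (nat_lit 8)), (.ofNat (nat_lit 15510145472)), (.ofNat (nat_lit 156726264953938282578703800700800)), (.ofNat (nat_lit 0)), (.ofNat (nat_lit 2411173306983665885819036609280)), (.ofNat (nat_lit 15510145456)), (.ofNat (nat_lit 15510145488)), (.ofNat (nat_lit 10080564478775731257490)), (.negSucc (nat_lit 10080564478775731257489)), (.negSucc (nat_lit 10080564478775731257489)), (.ofNat (nat_lit 10080564478775731257490)), (.ofNat (nat_lit 930513644194682885304))⟩,
    ⟨nat_lit 0, nat_lit 14, nat_lit 8, (.ofNat (nat_lit 8)), (.ofNat (nat_lit 12163765376)), (.ofNat (nat_lit 190459665282158004106613387619840)), (.ofNat (nat_lit 0)), (.ofNat (nat_lit 2930148696648584678554562694144)), (.ofNat (nat_lit 12163765360)), (.ofNat (nat_lit 12163765392)), (.ofNat (nat_lit 10080564478775731257490)), (.negSucc (nat_lit 10080564478775731257489)), (.negSucc (nat_lit 10080564478775731257489)), (.ofNat (nat_lit 10080564478775731257490)), (.ofNat (nat_lit 930513644194682885304))⟩,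
    ⟨nat_lit 1, nat_lit 9, nat_lit 13, (.ofNat (nat_lit 8)), (.negSucc (nat_lit 5859227071)), (.ofNat (nat_lit 247294892321584757980410353983360)), (.ofNat (nat_lit 0)), (.ofNat (nat_lit 3804536804947457815071913822976)), (.negSucc (nat_lit 5859227087)), (.negSucc (nat_lit 5859227055)), (.ofNat (nat_lit 10080564478775731257490)), (.negSucc (nat_lit 10080564478775731257489)), (.negSucc (nat_lit 10080564478775731257489)), (.ofNat (nat_lit 10080564478775731257490)), (.ofNat (nat_lit 930513644194682885304))⟩,
    ⟨nat_lit 0, nat_lit 4, nat_lit 9, (.ofNat (nat_lit 8)), (.negSucc (nat_lit 12865347263)), (.ofNat (nat_lit 176669245980076151777744113745280)), (.ofNat (nat_lit 0)), (.ofNat (nat_lit 2717988399693479258111051413248)), (.negSucc (nat_lit 12865347279)), (.negSucc (nat_lit 12865347247)), (.negSucc (nat_lit 10080564478775731257489)), (.ofNat (nat_lit 10080564478775731257490)), (.negSucc (nat_lit 10080564478775731257489)), (.ofNat (nat_lit 10080564478775731257490)), (.ofNat (nat_lit 930513644194682885304))⟩,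
    ⟨nat_lit 0, nat_lit 15, nat_lit 10, (.ofNat (nat_lit 8)), (.negSucc (nat_lit 1503547391)), (.ofNat (nat_lit 15801389658351538013720652896000)), (.ofNat (nat_lit 0)), (.ofNat (nat_lit 243098302436177507902671193600)), (.negSucc (nat_lit 1503547407)), (.negSucc (nat_lit 1503547375)), (.negSucc (nat_lit 10080564478775731257489)), (.ofNat (nat_lit 10080557151462241756908)), (.negSucc (nat_lit 10080564478775731257489)), (.ofNat (nat_lit 10080557151462241756908)), (.ofNat (nat_lit 930498989567703884140))⟩,
    ⟨nat_lit 1, nat_lit 10, nat_lit 11, (.ofNat (nat_lit 8)), (.ofNat (nat_lit 4802793856)), (.ofNat (nat_lit 79372823025439256719857562237184)), (.ofNat (nat_lit 0)), (.ofNat (nat_lit 1221074856598835713879529290496)), (.ofNat (nat_lit 4802793840)), (.ofNat (nat_lit 4802793872)), (.ofNat (nat_lit 10080557151462241756908)), (.negSucc (nat_lit 10080567564313731660196)), (.negSucc (nat_lit 10080567564313731660196)), (.ofNat (nat_lit 10080557151462241756908)), (.ofNat (nat_lit 930490506016725688390))⟩,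
    ⟨nat_lit 2, nat_lit 11, nat_lit 12, (.ofNat (nat_lit 8)), (.negSucc (nat_lit 10173100415)), (.ofNat (nat_lit 230338337070354262300746864928768)), (.ofNat (nat_lit 0)), (.ofNat (nat_lit 3543666724308534895593084981248)), (.negSucc (nat_lit 10173100431)), (.negSucc (nat_lit 10173100399)), (.negSucc (nat_lit 10080567564313731660196)), (.ofNat (nat_lit 10080564478725173891218)), (.negSucc (nat_lit 10080567564313731660196)), (.ofNat (nat_lit 10080564478725173891218)), (.ofNat (nat_lit 930525986245569763588))⟩,
    ⟨nat_lit 0, nat_lit 12, nat_lit 13, (.ofNat (nat_lit 8)), (.negSucc (nat_lit 7175111871)), (.ofNat (nat_lit 260559753894625665351026331135360)), (.ofNat (nat_lit 0)), (.ofNat (nat_lit 4008611598378856390003859986176)), (.negSucc (nat_lit 7175111887)), (.negSucc (nat_lit 7175111855)), (.ofNat (nat_lit 10080564478725173891218)), (.negSucc (nat_lit 10080564478775731257489)), (.negSucc (nat_lit 10080564478775731257489)), (.ofNat (nat_lit 10080564478725173891218)), (.ofNat (nat_lit 930513643992453420216))⟩,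
    ⟨nat_lit 2, nat_lit 15, nat_lit 5, (.ofNat (nat_lit 8)), (.negSucc (nat_lit 12665589247)), (.ofNat (nat_lit 128321072302553073946831546397440)), (.ofNat (nat_lit 0)), (.ofNat (nat_lit 1974170343116201137637687074304)), (.negSucc (nat_lit 12665589263)), (.negSucc (nat_lit 12665589231)), (.negSucc (nat_lit 10080564478775731257489)), (.ofNat (nat_lit 10080564478775731257490)), (.negSucc (nat_lit 10080564478775731257489)), (.ofNat (nat_lit 10080564478775731257490)), (.ofNat (nat_lit 930513644194682885304))⟩]
  es := [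
    ⟨nat_lit 1, nat_lit 0, (.negSucc (nat_lit 6700255807)), (.negSucc (nat_lit 1018023999)), (.negSucc (nat_lit 6700255791)), (.negSucc (nat_lit 1018024015)), (.negSucc (nat_lit 10080564478775731257489)), (.negSucc (nat_lit 155085607365780480883)), (.ofNat (nat_lit 727962014750890881418227189760))⟩,
    ⟨nat_lit 1, nat_lit 2, (.negSucc (nat_lit 6700255807)), (.ofNat (nat_lit 6521010816)), (.negSucc (nat_lit 6700255791)), (.ofNat (nat_lit 6521010800)), (.ofNat (nat_lit 10080564478775731257490)), (.ofNat (nat_lit 155085607365780480884)), (.ofNat (nat_lit 2806188497730447376410335138304))⟩,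
    ⟨nat_lit 3, nat_lit 2, (.negSucc (nat_lit 1040777727)), (.ofNat (nat_lit 6521010816)), (.negSucc (nat_lit 1040777711)), (.ofNat (nat_lit 6521010800)), (.negSucc (nat_lit 10080564478775731257489)), (.negSucc (nat_lit 155085607365780480883)), (.ofNat (nat_lit 4828818343806814944662825620992))⟩,
    ⟨nat_lit 4, nat_lit 3, (.negSucc (nat_lit 14278821567)), (.negSucc (nat_lit 1040777727)), (.negSucc (nat_lit 14278821551)), (.negSucc (nat_lit 1040777743)), (.ofNat (nat_lit 10080564478775731257490)), (.ofNat (nat_lit 155085607365780480884)), (.ofNat (nat_lit 5151637635966129092345219524096))⟩,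
    ⟨nat_lit 4, nat_lit 10, (.negSucc (nat_lit 14278821567)), (.negSucc (nat_lit 12865347263)), (.negSucc (nat_lit 14278821551)), (.negSucc (nat_lit 12865347279)), (.negSucc (nat_lit 10080564478775731257489)), (.negSucc (nat_lit 155085607365780480883)), (.ofNat (nat_lit 722758205284357101145477711872))⟩,
    ⟨nat_lit 15, nat_lit 5, (.negSucc (nat_lit 12665589247)), (.ofNat (nat_lit 1150901568)), (.negSucc (nat_lit 12665589231)), (.ofNat (nat_lit 1150901552)), (.ofNat (nat_lit 10080564478775731257490)), (.ofNat (nat_lit 155085607365780480884)), (.ofNat (nat_lit 3938420944287779999450347009536))⟩,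
    ⟨nat_lit 5, nat_lit 6, (.ofNat (nat_lit 1150901568)), (.ofNat (nat_lit 13829860096)), (.ofNat (nat_lit 1150901584)), (.ofNat (nat_lit 13829860080)), (.negSucc (nat_lit 10080564478775731257489)), (.negSucc (nat_lit 155085607365780480883)), (.ofNat (nat_lit 4295397481670798209436726261760))⟩,
    ⟨nat_lit 6, nat_lit 7, (.ofNat (nat_lit 13829860096)), (.ofNat (nat_lit 15510145472)), (.ofNat (nat_lit 13829860112)), (.ofNat (nat_lit 15510145456)), (.ofNat (nat_lit 10080564478775731257490)), (.ofNat (nat_lit 155085607365780480884)), (.ofNat (nat_lit 5772976126935912490081452032))⟩,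
    ⟨nat_lit 8, nat_lit 7, (.ofNat (nat_lit 12163765376)), (.ofNat (nat_lit 15510145472)), (.ofNat (nat_lit 12163765392)), (.ofNat (nat_lit 15510145456)), (.negSucc (nat_lit 10080564478775731257489)), (.negSucc (nat_lit 155085607365780480883)), (.ofNat (nat_lit 4816573637840395859147991766528))⟩,
    ⟨nat_lit 10, nat_lit 9, (.negSucc (nat_lit 12865347263)), (.negSucc (nat_lit 5859227071)), (.negSucc (nat_lit 12865347247)), (.negSucc (nat_lit 5859227087)), (.ofNat (nat_lit 10080564478775731257490)), (.ofNat (nat_lit 155085607365780480884)), (.ofNat (nat_lit 4713218594102601415076625114624))⟩,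
    ⟨nat_lit 11, nat_lit 12, (.negSucc (nat_lit 1503547391)), (.ofNat (nat_lit 4802793856)), (.negSucc (nat_lit 1503547375)), (.ofNat (nat_lit 4802793840)), (.ofNat (nat_lit 10080557151462241756908)), (.ofNat (nat_lit 155078280052290980302)), (.ofNat (nat_lit 476265845964645234960866665984))⟩,
    ⟨nat_lit 13, nat_lit 12, (.negSucc (nat_lit 10173100415)), (.ofNat (nat_lit 4802793856)), (.negSucc (nat_lit 10173100399)), (.ofNat (nat_lit 4802793840)), (.negSucc (nat_lit 10080567564313731660196)), (.negSucc (nat_lit 155088692903780883590)), (.ofNat (nat_lit 1965933878012185340760635307392))⟩,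
    ⟨nat_lit 13, nat_lit 14, (.negSucc (nat_lit 10173100415)), (.negSucc (nat_lit 7175111871)), (.negSucc (nat_lit 10173100399)), (.negSucc (nat_lit 7175111887)), (.ofNat (nat_lit 10080564478725173891218)), (.ofNat (nat_lit 155085607315223114612)), (.ofNat (nat_lit 5121368180602643805985237859840))⟩,
    ⟨nat_lit 14, nat_lit 9, (.negSucc (nat_lit 7175111871)), (.negSucc (nat_lit 5859227071)), (.negSucc (nat_lit 7175111855)), (.negSucc (nat_lit 5859227087)), (.negSucc (nat_lit 10080564478775731257489)), (.negSucc (nat_lit 155085607365780480883)), (.ofNat (nat_lit 2895855015792314215067202531328))⟩,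
    ⟨nat_lit 0, nat_lit 8, (.negSucc (nat_lit 1018023999)), (.ofNat (nat_lit 12163765376)), (.negSucc (nat_lit 1018023983)), (.ofNat (nat_lit 12163765360)), (.ofNat (nat_lit 10080564478775731257490)), (.ofNat (nat_lit 155085607365780480884)), (.ofNat (nat_lit 1043723755456773497961133621760))⟩,
    ⟨nat_lit 15, nat_lit 11, (.negSucc (nat_lit 12665589247)), (.negSucc (nat_lit 1503547391)), (.negSucc (nat_lit 12665589231)), (.negSucc (nat_lit 1503547407)), (.negSucc (nat_lit 10080564478775731257489)), (.negSucc (nat_lit 155085607365780480883)), (.ofNat (nat_lit 9919741944622275825027139072))⟩]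

theorem ok137 : stOK 15 15 S137 = true := by decide +kernel

def S138 : SD where
  vs := [
    ⟨nat_lit 0, nat_lit 0, nat_lit 14, (.ofNat (nat_lit 8)), (.ofNat (nat_lit 2990107648)), (.ofNat (nat_lit 97994587286813621818668145071360)), (.ofNat (nat_lit 4008131648)), (.ofNat (nat_lit 40414799755064529488667559877760)), (.ofNat (nat_lit 2990107632)), (.ofNat (nat_lit 2990107664)), (.negSucc (nat_lit 10080564478775731257489)), (.ofNat (nat_lit 10080564478775731257490)), (.negSucc (nat_lit 10080564478775731257489)), (.ofNat (nat_lit 10080564478775731257490)), (.ofNat (nat_lit 0))⟩,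
    ⟨nat_lit 2, nat_lit 0, nat_lit 1, (.ofNat (nat_lit 8)), (.negSucc (nat_lit 2692386303)), (.ofNat (nat_lit 155277333970202747053732424771840)), (.ofNat (nat_lit 4007869504)), (.ofNat (nat_lit 40417442314559253673962323336320)), (.negSucc (nat_lit 2692386319)), (.negSucc (nat_lit 2692386287)), (.negSucc (nat_lit 10080564478775731257489)), (.ofNat (nat_lit 10080564478775731257490)), (.negSucc (nat_lit 10080564478775731257489)), (.ofNat (nat_lit 10080564478775731257490)), (.ofNat (nat_lit 0))⟩,
    ⟨nat_lit 1, nat_lit 1, nat_lit 2, (.ofNat (nat_lit 8)), (.ofNat (nat_lit 10529928896)), (.ofNat (nat_lit 288565734902499175850757565619840)), (.ofNat (nat_lit 4008918080)), (.ofNat (nat_lit 40428012552538150415141377170560)), (.ofNat (nat_lit 10529928880)), (.ofNat (nat_lit 10529928912)), (.ofNat (nat_lit 10080564478775731257490)), (.negSucc (nat_lit 10080564478775731257489)), (.negSucc (nat_lit 10080564478775731257489)), (.ofNat (nat_lit 10080564478775731257490)), (.ofNat (nat_lit 0))⟩,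
    ⟨nat_lit 0, nat_lit 3, nat_lit 2, (.ofNat (nat_lit 8)), (.ofNat (nat_lit 2967091776)), (.ofNat (nat_lit 364803402133137728360047215648640)), (.ofNat (nat_lit 4007869504)), (.ofNat (nat_lit 40438582790517047156320431004800)), (.ofNat (nat_lit 2967091760)), (.ofNat (nat_lit 2967091792)), (.ofNat (nat_lit 10080564478775731257490)), (.negSucc (nat_lit 10080564478775731257489)), (.negSucc (nat_lit 10080564478775731257489)), (.ofNat (nat_lit 10080564478775731257490)), (.ofNat (nat_lit 0))⟩,
    ⟨nat_lit 2, nat_lit 4, nat_lit 3, (.ofNat (nat_lit 8)), (.negSucc (nat_lit 14280394431)), (.ofNat (nat_lit 190939005316598594771373943950720)), (.negSucc (nat_lit 1572863)), (.ofNat (nat_lit 21140475957793482358107668480)), (.negSucc (nat_lit 14280394447)), (.negSucc (nat_lit 14280394415)), (.negSucc (nat_lit 10080564478775731257489)), (.ofNat (nat_lit 10080564478775731257490)), (.negSucc (nat_lit 10080564478775731257489)), (.ofNat (nat_lit 10080564478775731257490)), (.ofNat (nat_lit 0))⟩,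
    ⟨nat_lit 0, nat_lit 5, nat_lit 6, (.ofNat (nat_lit 8)), (.ofNat (nat_lit 5159033216)), (.ofNat (nat_lit 308024468836697218019472876321280)), (.ofNat (nat_lit 4008131648)), (.ofNat (nat_lit 40425369993043426229846613712000)), (.ofNat (nat_lit 5159033200)), (.ofNat (nat_lit 5159033232)), (.ofNat (nat_lit 10080564478775731257490)), (.negSucc (nat_lit 10080564478775731257489)), (.negSucc (nat_lit 10080564478775731257489)), (.ofNat (nat_lit 10080564478775731257490)), (.ofNat (nat_lit 0))⟩,
    ⟨nat_lit 0, nat_lit 6, nat_lit 7, (.ofNat (nat_lit 8)), (.ofNat (nat_lit 17839040320)), (.ofNat (nat_lit 180202839633490888451704823112320)), (.ofNat (nat_lit 4009180224)), (.ofNat (nat_lit 40414799755064529488667559877760)), (.ofNat (nat_lit 17839040304)), (.ofNat (nat_lit 17839040336)), (.negSucc (nat_lit 10080564478775731257489)), (.ofNat (nat_lit 10080564478775731257490)), (.negSucc (nat_lit 10080564478775731257489)), (.ofNat (nat_lit 10080564478775731257490)), (.ofNat (nat_lit 0))⟩,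
    ⟨nat_lit 1, nat_lit 7, nat_lit 8, (.ofNat (nat_lit 8)), (.ofNat (nat_lit 19519587840)), (.ofNat (nat_lit 197143707268497536252666124037120)), (.ofNat (nat_lit 4009442368)), (.ofNat (nat_lit 40417442314559253673962323336320)), (.ofNat (nat_lit 19519587824)), (.ofNat (nat_lit 19519587856)), (.ofNat (nat_lit 10080564478775731257490)), (.negSucc (nat_lit 10080564478775731257489)), (.negSucc (nat_lit 10080564478775731257489)), (.ofNat (nat_lit 10080564478775731257490)), (.ofNat (nat_lit 0))⟩,
    ⟨nat_lit 0, nat_lit 14, nat_lit 8, (.ofNat (nat_lit 8)), (.ofNat (nat_lit 16172683456)), (.ofNat (nat_lit 230882392715706706151165237873280)), (.ofNat (nat_lit 4008918080)), (.ofNat (nat_lit 40422727433548702044551850253440)), (.ofNat (nat_lit 16172683440)), (.ofNat (nat_lit 16172683472)), (.ofNat (nat_lit 10080564478775731257490)), (.negSucc (nat_lit 10080564478775731257489)), (.negSucc (nat_lit 10080564478775731257489)), (.ofNat (nat_lit 10080564478775731257490)), (.ofNat (nat_lit 0))⟩,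
    ⟨nat_lit 1, nat_lit 9, nat_lit 13, (.ofNat (nat_lit 8)), (.negSucc (nat_lit 1851619711)), (.ofNat (nat_lit 287720262314628184210256967695360)), (.ofNat (nat_lit 4007607360)), (.ofNat (nat_lit 40425369993043426229846613712000)), (.negSucc (nat_lit 1851619727)), (.negSucc (nat_lit 1851619695)), (.ofNat (nat_lit 10080564478775731257490)), (.negSucc (nat_lit 10080564478775731257489)), (.negSucc (nat_lit 10080564478775731257489)), (.ofNat (nat_lit 10080564478775731257490)), (.ofNat (nat_lit 0))⟩,
    ⟨nat_lit 0, nat_lit 4, nat_lit 9, (.ofNat (nat_lit 8)), (.negSucc (nat_lit 12866395839)), (.ofNat (nat_lit 176685101337044496889512694496640)), (.negSucc (nat_lit 1048575)), (.ofNat (nat_lit 15855356968345111768580751360)), (.negSucc (nat_lit 12866395855)), (.negSucc (nat_lit 12866395823)), (.negSucc (nat_lit 10080564478775731257489)), (.ofNat (nat_lit 10080564478775731257490)), (.negSucc (nat_lit 10080564478775731257489)), (.ofNat (nat_lit 10080564478775731257490)), (.ofNat (nat_lit 0))⟩,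
    ⟨nat_lit 0, nat_lit 15, nat_lit 10, (.ofNat (nat_lit 8)), (.negSucc (nat_lit 1503809535)), (.ofNat (nat_lit 15804032217846262199015416354560)), (.negSucc (nat_lit 262143)), (.ofNat (nat_lit 2642559494724185294763458560)), (.negSucc (nat_lit 1503809551)), (.negSucc (nat_lit 1503809519)), (.negSucc (nat_lit 10080564478775731257489)), (.ofNat (nat_lit 10080557151462241756908)), (.negSucc (nat_lit 10080564478775731257489)), (.ofNat (nat_lit 10080557151462241756908)), (.ofNat (nat_lit 0))⟩,
    ⟨nat_lit 1, nat_lit 10, nat_lit 11, (.ofNat (nat_lit 8)), (.ofNat (nat_lit 4803056000)), (.ofNat (nat_lit 79380750700081806740958571477248)), (.ofNat (nat_lit 262144)), (.ofNat (nat_lit 7927674642550021101009240064)), (.ofNat (nat_lit 4803055984)), (.ofNat (nat_lit 4803056016)), (.ofNat (nat_lit 10080557151462241756908)), (.negSucc (nat_lit 10080567564313731660196)), (.negSucc (nat_lit 10080567564313731660196)), (.ofNat (nat_lit 10080557151462241756908)), (.ofNat (nat_lit 0))⟩,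
    ⟨nat_lit 2, nat_lit 11, nat_lit 12, (.ofNat (nat_lit 8)), (.negSucc (nat_lit 10174148991)), (.ofNat (nat_lit 230359477546514709616209527580672)), (.negSucc (nat_lit 1048575)), (.ofNat (nat_lit 21140476160447315462662651904)), (.negSucc (nat_lit 10174149007)), (.negSucc (nat_lit 10174148975)), (.negSucc (nat_lit 10080567564313731660196)), (.ofNat (nat_lit 10080564478725173891218)), (.negSucc (nat_lit 10080567564313731660196)), (.ofNat (nat_lit 10080564478725173891218)), (.ofNat (nat_lit 0))⟩,
    ⟨nat_lit 0, nat_lit 12, nat_lit 13, (.ofNat (nat_lit 8)), (.negSucc (nat_lit 3167766655)), (.ofNat (nat_lit 300987766447163815766167708305920)), (.ofNat (nat_lit 4007345216)), (.ofNat (nat_lit 40428012552538150415141377170560)), (.negSucc (nat_lit 3167766671)), (.negSucc (nat_lit 3167766639)), (.ofNat (nat_lit 10080564478725173891218)), (.negSucc (nat_lit 10080564478775731257489)), (.negSucc (nat_lit 10080564478775731257489)), (.ofNat (nat_lit 10080564478725173891218)), (.ofNat (nat_lit 0))⟩,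
    ⟨nat_lit 2, nat_lit 15, nat_lit 5, (.ofNat (nat_lit 8)), (.negSucc (nat_lit 12666637823)), (.ofNat (nat_lit 128331642540531970688010600231680)), (.negSucc (nat_lit 1048575)), (.ofNat (nat_lit 10570237978896741179053834240)), (.negSucc (nat_lit 12666637839)), (.negSucc (nat_lit 12666637807)), (.negSucc (nat_lit 10080564478775731257489)), (.ofNat (nat_lit 10080564478775731257490)), (.negSucc (nat_lit 10080564478775731257489)), (.ofNat (nat_lit 10080564478775731257490)), (.ofNat (nat_lit 0))⟩]
  es := [
    ⟨nat_lit 1, nat_lit 0, (.negSucc (nat_lit 2692386303)), (.ofNat (nat_lit 2990107648)), (.negSucc (nat_lit 2692386287)), (.ofNat (nat_lit 2990107632)), (.negSucc (nat_lit 10080564478775731257489)), (.ofNat (nat_lit 0)), (.ofNat (nat_lit 80819029272150162236156065921280))⟩,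
    ⟨nat_lit 1, nat_lit 2, (.negSucc (nat_lit 2692386303)), (.ofNat (nat_lit 10529928896)), (.negSucc (nat_lit 2692386287)), (.ofNat (nat_lit 10529928880)), (.ofNat (nat_lit 10080564478775731257490)), (.ofNat (nat_lit 0)), (.ofNat (nat_lit 15855356968345111768580751360))⟩,
    ⟨nat_lit 3, nat_lit 2, (.ofNat (nat_lit 2967091776)), (.ofNat (nat_lit 10529928896)), (.ofNat (nat_lit 2967091792)), (.ofNat (nat_lit 10529928880)), (.negSucc (nat_lit 10080564478775731257489)), (.ofNat (nat_lit 0)), (.ofNat (nat_lit 80840169748107955718514173589760))⟩,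
    ⟨nat_lit 4, nat_lit 3, (.negSucc (nat_lit 14280394431)), (.ofNat (nat_lit 2967091776)), (.negSucc (nat_lit 14280394415)), (.ofNat (nat_lit 2967091760)), (.ofNat (nat_lit 10080564478775731257490)), (.ofNat (nat_lit 0)), (.ofNat (nat_lit 36995832926138594126688419840))⟩,
    ⟨nat_lit 4, nat_lit 10, (.negSucc (nat_lit 14280394431)), (.negSucc (nat_lit 12866395839)), (.negSucc (nat_lit 14280394415)), (.negSucc (nat_lit 12866395855)), (.negSucc (nat_lit 10080564478775731257489)), (.ofNat (nat_lit 0)), (.ofNat (nat_lit 5285118989448370589526917120))⟩,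
    ⟨nat_lit 15, nat_lit 5, (.negSucc (nat_lit 12666637823)), (.ofNat (nat_lit 5159033216)), (.negSucc (nat_lit 12666637807)), (.ofNat (nat_lit 5159033200)), (.ofNat (nat_lit 10080564478775731257490)), (.ofNat (nat_lit 0)), (.ofNat (nat_lit 21140475957793482358107668480))⟩,
    ⟨nat_lit 5, nat_lit 6, (.ofNat (nat_lit 5159033216)), (.ofNat (nat_lit 17839040320)), (.ofNat (nat_lit 5159033232)), (.ofNat (nat_lit 17839040304)), (.negSucc (nat_lit 10080564478775731257489)), (.ofNat (nat_lit 0)), (.ofNat (nat_lit 80829599510129058977335119755520))⟩,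
    ⟨nat_lit 6, nat_lit 7, (.ofNat (nat_lit 17839040320)), (.ofNat (nat_lit 19519587840)), (.ofNat (nat_lit 17839040336)), (.ofNat (nat_lit 19519587824)), (.ofNat (nat_lit 10080564478775731257490)), (.ofNat (nat_lit 0)), (.ofNat (nat_lit 0))⟩,
    ⟨nat_lit 8, nat_lit 7, (.ofNat (nat_lit 16172683456)), (.ofNat (nat_lit 19519587840)), (.ofNat (nat_lit 16172683472)), (.ofNat (nat_lit 19519587824)), (.negSucc (nat_lit 10080564478775731257489)), (.ofNat (nat_lit 0)), (.ofNat (nat_lit 80834884629118507347924646672640))⟩,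
    ⟨nat_lit 10, nat_lit 9, (.negSucc (nat_lit 12866395839)), (.negSucc (nat_lit 1851619711)), (.negSucc (nat_lit 12866395823)), (.negSucc (nat_lit 1851619727)), (.ofNat (nat_lit 10080564478775731257490)), (.ofNat (nat_lit 0)), (.ofNat (nat_lit 26425594947241852947634585600))⟩,
    ⟨nat_lit 11, nat_lit 12, (.negSucc (nat_lit 1503809535)), (.ofNat (nat_lit 4803056000)), (.negSucc (nat_lit 1503809519)), (.ofNat (nat_lit 4803055984)), (.ofNat (nat_lit 10080557151462241756908)), (.ofNat (nat_lit 0)), (.ofNat (nat_lit 5285117068637103197886349312))⟩,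
    ⟨nat_lit 13, nat_lit 12, (.negSucc (nat_lit 10174148991)), (.ofNat (nat_lit 4803056000)), (.negSucc (nat_lit 10174148975)), (.ofNat (nat_lit 4803055984)), (.negSucc (nat_lit 10080567564313731660196)), (.ofNat (nat_lit 0)), (.ofNat (nat_lit 10570234946129479973339922432))⟩,
    ⟨nat_lit 13, nat_lit 14, (.negSucc (nat_lit 10174148991)), (.negSucc (nat_lit 3167766655)), (.negSucc (nat_lit 10174148975)), (.negSucc (nat_lit 3167766671)), (.ofNat (nat_lit 10080564478725173891218)), (.ofNat (nat_lit 0)), (.ofNat (nat_lit 31710714139291043400820457472))⟩,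
    ⟨nat_lit 14, nat_lit 9, (.negSucc (nat_lit 3167766655)), (.negSucc (nat_lit 1851619711)), (.negSucc (nat_lit 3167766639)), (.negSucc (nat_lit 1851619727)), (.negSucc (nat_lit 10080564478775731257489)), (.ofNat (nat_lit 0)), (.ofNat (nat_lit 80824314391139610606745592838400))⟩,
    ⟨nat_lit 0, nat_lit 8, (.ofNat (nat_lit 2990107648)), (.ofNat (nat_lit 16172683456)), (.ofNat (nat_lit 2990107664)), (.ofNat (nat_lit 16172683440)), (.ofNat (nat_lit 10080564478775731257490)), (.ofNat (nat_lit 0)), (.ofNat (nat_lit 10570237978896741179053834240))⟩,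
    ⟨nat_lit 15, nat_lit 11, (.negSucc (nat_lit 12666637823)), (.negSucc (nat_lit 1503809535)), (.negSucc (nat_lit 12666637807)), (.negSucc (nat_lit 1503809551)), (.negSucc (nat_lit 10080564478775731257489)), (.ofNat (nat_lit 0)), (.ofNat (nat_lit 0))⟩]

theorem ok138 : stOK 15 15 S138 = true := by decide +kernel

def S139 : SD where
  vs := [
    ⟨nat_lit 0, nat_lit 0, nat_lit 14, (.ofNat (nat_lit 8)), (.ofNat (nat_lit 2990107648)), (.ofNat (nat_lit 99525752713170084659582100767232)), (.ofNat (nat_lit 0)), (.ofNat (nat_lit 1531165426356462840913955695872)), (.ofNat (nat_lit 2990107632)), (.ofNat (nat_lit 2990107664)), (.negSucc (nat_lit 10238073298756602058387)), (.ofNat (nat_lit 10238073298756602058388)), (.negSucc (nat_lit 10238073298756602058387)), (.ofNat (nat_lit 10238073298756602058388)), (.ofNat (nat_lit 945052919885224805388))⟩,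
    ⟨nat_lit 2, nat_lit 0, nat_lit 1, (.ofNat (nat_lit 8)), (.negSucc (nat_lit 2692386303)), (.ofNat (nat_lit 157703542313487164976442661636608)), (.ofNat (nat_lit 0)), (.ofNat (nat_lit 2426208343284417922710236864768)), (.negSucc (nat_lit 2692386319)), (.negSucc (nat_lit 2692386287)), (.negSucc (nat_lit 10238073298756602058387)), (.ofNat (nat_lit 10238073298756602058388)), (.negSucc (nat_lit 10238073298756602058387)), (.ofNat (nat_lit 10238073298756602058388)), (.ofNat (nat_lit 945052919885224805388))⟩,
    ⟨nat_lit 1, nat_lit 1, nat_lit 2, (.ofNat (nat_lit 8)), (.ofNat (nat_lit 10529928896)), (.ofNat (nat_lit 293074574510350725473417601534208)), (.ofNat (nat_lit 0)), (.ofNat (nat_lit 4508839607851549622660035914368)), (.ofNat (nat_lit 10529928880)), (.ofNat (nat_lit 10529928912)), (.ofNat (nat_lit 10238073298756602058388)), (.negSucc (nat_lit 10238073298756602058387)), (.negSucc (nat_lit 10238073298756602058387)), (.ofNat (nat_lit 10238073298756602058388)), (.ofNat (nat_lit 945052919885224805388))⟩,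
    ⟨nat_lit 0, nat_lit 3, nat_lit 2, (.ofNat (nat_lit 8)), (.ofNat (nat_lit 2967091776)), (.ofNat (nat_lit 370503455291468005365662775296768)), (.ofNat (nat_lit 0)), (.ofNat (nat_lit 5700053158330277005615559648128)), (.ofNat (nat_lit 2967091760)), (.ofNat (nat_lit 2967091792)), (.ofNat (nat_lit 10238073298756602058388)), (.negSucc (nat_lit 10238073298756602058387)), (.negSucc (nat_lit 10238073298756602058387)), (.ofNat (nat_lit 10238073298756602058388)), (.ofNat (nat_lit 945052919885224805388))⟩,
    ⟨nat_lit 2, nat_lit 4, nat_lit 3, (.ofNat (nat_lit 8)), (.negSucc (nat_lit 14280394431)), (.ofNat (nat_lit 193922427274670447814671334584064)), (.ofNat (nat_lit 0)), (.ofNat (nat_lit 2983421958071853043297390633344)), (.negSucc (nat_lit 14280394447)), (.negSucc (nat_lit 14280394415)), (.negSucc (nat_lit 10238073298756602058387)), (.ofNat (nat_lit 10238073298756602058388)), (.negSucc (nat_lit 10238073298756602058387)), (.ofNat (nat_lit 10238073298756602058388)), (.ofNat (nat_lit 945052919885224805388))⟩,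
    ⟨nat_lit 0, nat_lit 5, nat_lit 6, (.ofNat (nat_lit 8)), (.ofNat (nat_lit 5159033216)), (.ofNat (nat_lit 312837351162270612051018546062336)), (.ofNat (nat_lit 0)), (.ofNat (nat_lit 4812882325573394031545669741056)), (.ofNat (nat_lit 5159033200)), (.ofNat (nat_lit 5159033232)), (.ofNat (nat_lit 10238073298756602058388)), (.negSucc (nat_lit 10238073298756602058387)), (.negSucc (nat_lit 10238073298756602058387)), (.ofNat (nat_lit 10238073298756602058388)), (.ofNat (nat_lit 945052919885224805388))⟩,
    ⟨nat_lit 0, nat_lit 6, nat_lit 7, (.ofNat (nat_lit 8)), (.ofNat (nat_lit 17839040320)), (.ofNat (nat_lit 183018509002764183583757683273984)), (.ofNat (nat_lit 0)), (.ofNat (nat_lit 2815669369273295132052860161664)), (.ofNat (nat_lit 17839040304)), (.ofNat (nat_lit 17839040336)), (.negSucc (nat_lit 10238073298756602058387)), (.ofNat (nat_lit 10238073298756602058388)), (.negSucc (nat_lit 10238073298756602058387)), (.ofNat (nat_lit 10238073298756602058388)), (.ofNat (nat_lit 945052919885224805388))⟩,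
    ⟨nat_lit 1, nat_lit 7, nat_lit 8, (.ofNat (nat_lit 8)), (.ofNat (nat_lit 19519587840)), (.ofNat (nat_lit 200224077694567810256608531871744)), (.ofNat (nat_lit 0)), (.ofNat (nat_lit 3080370426070274003942407834624)), (.ofNat (nat_lit 19519587824)), (.ofNat (nat_lit 19519587856)), (.ofNat (nat_lit 10238073298756602058388)), (.negSucc (nat_lit 10238073298756602058387)), (.negSucc (nat_lit 10238073298756602058387)), (.ofNat (nat_lit 10238073298756602058388)), (.ofNat (nat_lit 945052919885224805388))⟩,
    ⟨nat_lit 0, nat_lit 14, nat_lit 8, (.ofNat (nat_lit 8)), (.ofNat (nat_lit 16172683456)), (.ofNat (nat_lit 234489930101889623434770753044736)), (.ofNat (nat_lit 0)), (.ofNat (nat_lit 3607537386182917283605515171456)), (.ofNat (nat_lit 16172683440)), (.ofNat (nat_lit 16172683472)), (.ofNat (nat_lit 10238073298756602058388)), (.negSucc (nat_lit 10238073298756602058387)), (.negSucc (nat_lit 10238073298756602058387)), (.ofNat (nat_lit 10238073298756602058388)), (.ofNat (nat_lit 945052919885224805388))⟩,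
    ⟨nat_lit 1, nat_lit 9, nat_lit 13, (.ofNat (nat_lit 8)), (.negSucc (nat_lit 1851619711)), (.ofNat (nat_lit 292215891413294249588534205356032)), (.ofNat (nat_lit 0)), (.ofNat (nat_lit 4495629098666065378277237660672)), (.negSucc (nat_lit 1851619727)), (.negSucc (nat_lit 1851619695)), (.ofNat (nat_lit 10238073298756602058388)), (.negSucc (nat_lit 10238073298756602058387)), (.negSucc (nat_lit 10238073298756602058387)), (.ofNat (nat_lit 10238073298756602058388)), (.ofNat (nat_lit 945052919885224805388))⟩,
    ⟨nat_lit 0, nat_lit 4, nat_lit 9, (.ofNat (nat_lit 8)), (.negSucc (nat_lit 12866395839)), (.ofNat (nat_lit 179445806045435817153406400794368)), (.ofNat (nat_lit 0)), (.ofNat (nat_lit 2760704708391320263893706297728)), (.negSucc (nat_lit 12866395855)), (.negSucc (nat_lit 12866395823)), (.negSucc (nat_lit 10238073298756602058387)), (.ofNat (nat_lit 10238073298756602058388)), (.negSucc (nat_lit 10238073298756602058387)), (.ofNat (nat_lit 10238073298756602058388)), (.ofNat (nat_lit 945052919885224805388))⟩,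
    ⟨nat_lit 0, nat_lit 15, nat_lit 10, (.ofNat (nat_lit 8)), (.negSucc (nat_lit 1503809535)), (.ofNat (nat_lit 16050970221250110045874591299072)), (.ofNat (nat_lit 0)), (.ofNat (nat_lit 246938003403847846859174944512)), (.negSucc (nat_lit 1503809551)), (.negSucc (nat_lit 1503809519)), (.negSucc (nat_lit 10238073298756602058387)), (.ofNat (nat_lit 10238073298756602058388)), (.negSucc (nat_lit 10238073298756602058387)), (.ofNat (nat_lit 10238073298756602058388)), (.ofNat (nat_lit 945067574512203806552))⟩,
    ⟨nat_lit 1, nat_lit 10, nat_lit 11, (.ofNat (nat_lit 8)), (.ofNat (nat_lit 4803056000)), (.ofNat (nat_lit 80621121864219955220388528215040)), (.ofNat (nat_lit 0)), (.ofNat (nat_lit 1240371164138148479429956737792)), (.ofNat (nat_lit 4803055984)), (.ofNat (nat_lit 4803056016)), (.ofNat (nat_lit 10238073298756602058388)), (.negSucc (nat_lit 10238073298756602058387)), (.negSucc (nat_lit 10238073298756602058387)), (.ofNat (nat_lit 10238073298756602058388)), (.ofNat (nat_lit 945076058063182002302))⟩,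
    ⟨nat_lit 2, nat_lit 11, nat_lit 12, (.ofNat (nat_lit 8)), (.negSucc (nat_lit 10174148991)), (.ofNat (nat_lit 233958844382819242962234757287936)), (.ofNat (nat_lit 0)), (.ofNat (nat_lit 3599366836304533346025229707264)), (.negSucc (nat_lit 10174149007)), (.negSucc (nat_lit 10174148975)), (.negSucc (nat_lit 10238073298756602058387)), (.ofNat (nat_lit 10238073298756602058388)), (.negSucc (nat_lit 10238073298756602058387)), (.ofNat (nat_lit 10238073298756602058388)), (.ofNat (nat_lit 945040577834337927104))⟩,
    ⟨nat_lit 0, nat_lit 12, nat_lit 13, (.ofNat (nat_lit 8)), (.negSucc (nat_lit 3167766655)), (.ofNat (nat_lit 305690700297900750387505681122304)), (.ofNat (nat_lit 0)), (.ofNat (nat_lit 4702933850736934621337972816384)), (.negSucc (nat_lit 3167766671)), (.negSucc (nat_lit 3167766639)), (.ofNat (nat_lit 10238073298756602058388)), (.negSucc (nat_lit 10238073298756602058387)), (.negSucc (nat_lit 10238073298756602058387)), (.ofNat (nat_lit 10238073298756602058388)), (.ofNat (nat_lit 945052920087454270476))⟩,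
    ⟨nat_lit 2, nat_lit 15, nat_lit 5, (.ofNat (nat_lit 8)), (.negSucc (nat_lit 12666637823)), (.ofNat (nat_lit 130336824455227782730007185378816)), (.ofNat (nat_lit 0)), (.ofNat (nat_lit 2005181914695812041996585147136)), (.negSucc (nat_lit 12666637839)), (.negSucc (nat_lit 12666637807)), (.negSucc (nat_lit 10238073298756602058387)), (.ofNat (nat_lit 10238073298756602058388)), (.negSucc (nat_lit 10238073298756602058387)), (.ofNat (nat_lit 10238073298756602058388)), (.ofNat (nat_lit 945052919885224805388))⟩]
  es := [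
    ⟨nat_lit 1, nat_lit 0, (.negSucc (nat_lit 2692386303)), (.ofNat (nat_lit 2990107648)), (.negSucc (nat_lit 2692386287)), (.ofNat (nat_lit 2990107632)), (.negSucc (nat_lit 10238073298756602058387)), (.negSucc (nat_lit 157508819980870800897)), (.ofNat (nat_lit 2002133753608719836378950763776))⟩,
    ⟨nat_lit 1, nat_lit 2, (.negSucc (nat_lit 2692386303)), (.ofNat (nat_lit 10529928896)), (.negSucc (nat_lit 2692386287)), (.ofNat (nat_lit 10529928880)), (.ofNat (nat_lit 10238073298756602058388)), (.ofNat (nat_lit 157508819980870800898)), (.ofNat (nat_lit 2850282932960116009041522965760))⟩,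
    ⟨nat_lit 3, nat_lit 2, (.ofNat (nat_lit 2967091776)), (.ofNat (nat_lit 10529928896)), (.ofNat (nat_lit 2967091792)), (.ofNat (nat_lit 10529928880)), (.negSucc (nat_lit 10238073298756602058387)), (.negSucc (nat_lit 157508819980870800897)), (.ofNat (nat_lit 6167396282742983236278548862976))⟩,
    ⟨nat_lit 4, nat_lit 3, (.negSucc (nat_lit 14280394431)), (.ofNat (nat_lit 2967091776)), (.negSucc (nat_lit 14280394415)), (.ofNat (nat_lit 2967091760)), (.ofNat (nat_lit 10238073298756602058388)), (.ofNat (nat_lit 157508819980870800898)), (.ofNat (nat_lit 5232710033917570774952570433280))⟩,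
    ⟨nat_lit 4, nat_lit 10, (.negSucc (nat_lit 14280394431)), (.negSucc (nat_lit 12866395839)), (.negSucc (nat_lit 14280394415)), (.negSucc (nat_lit 12866395855)), (.negSucc (nat_lit 10238073298756602058387)), (.negSucc (nat_lit 157508819980870800897)), (.ofNat (nat_lit 734133882226135311642210833408))⟩,
    ⟨nat_lit 15, nat_lit 5, (.negSucc (nat_lit 12666637823)), (.ofNat (nat_lit 5159033216)), (.negSucc (nat_lit 12666637807)), (.ofNat (nat_lit 5159033200)), (.ofNat (nat_lit 10238073298756602058388)), (.ofNat (nat_lit 157508819980870800898)), (.ofNat (nat_lit 4000289091479117085108365113088))⟩,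
    ⟨nat_lit 5, nat_lit 6, (.ofNat (nat_lit 5159033216)), (.ofNat (nat_lit 17839040320)), (.ofNat (nat_lit 5159033232)), (.ofNat (nat_lit 17839040304)), (.negSucc (nat_lit 10238073298756602058387)), (.negSucc (nat_lit 157508819980870800897)), (.ofNat (nat_lit 5625475559667670977982974369024))⟩,
    ⟨nat_lit 6, nat_lit 7, (.ofNat (nat_lit 17839040320)), (.ofNat (nat_lit 19519587840)), (.ofNat (nat_lit 17839040336)), (.ofNat (nat_lit 19519587824)), (.ofNat (nat_lit 10238073298756602058388)), (.ofNat (nat_lit 157508819980870800898)), (.ofNat (nat_lit 5863178878919286122745954304))⟩,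
    ⟨nat_lit 8, nat_lit 7, (.ofNat (nat_lit 16172683456)), (.ofNat (nat_lit 19519587840)), (.ofNat (nat_lit 16172683472)), (.ofNat (nat_lit 19519587824)), (.negSucc (nat_lit 10238073298756602058387)), (.negSucc (nat_lit 157508819980870800897)), (.ofNat (nat_lit 6154877673261628721762069714944))⟩,
    ⟨nat_lit 10, nat_lit 9, (.negSucc (nat_lit 12866395839)), (.negSucc (nat_lit 1851619711)), (.negSucc (nat_lit 12866395823)), (.negSucc (nat_lit 1851619727)), (.ofNat (nat_lit 10238073298756602058388)), (.ofNat (nat_lit 157508819980870800898)), (.ofNat (nat_lit 4787275534556505216145201762048))⟩,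
    ⟨nat_lit 11, nat_lit 12, (.negSucc (nat_lit 1503809535)), (.ofNat (nat_lit 4803056000)), (.negSucc (nat_lit 1503809519)), (.ofNat (nat_lit 4803055984)), (.ofNat (nat_lit 10238073298756602058388)), (.ofNat (nat_lit 157516147294360301480)), (.ofNat (nat_lit 483812287779087467244633857792))⟩,
    ⟨nat_lit 13, nat_lit 12, (.negSucc (nat_lit 10174148991)), (.ofNat (nat_lit 4803056000)), (.negSucc (nat_lit 10174148975)), (.ofNat (nat_lit 4803055984)), (.negSucc (nat_lit 10238073298756602058387)), (.negSucc (nat_lit 157505734442870398190)), (.ofNat (nat_lit 1996880026988383802683628433792))⟩,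
    ⟨nat_lit 13, nat_lit 14, (.negSucc (nat_lit 10174148991)), (.negSucc (nat_lit 3167766655)), (.negSucc (nat_lit 10174148975)), (.negSucc (nat_lit 3167766671)), (.ofNat (nat_lit 10238073298756602058388)), (.ofNat (nat_lit 157508820031428167170)), (.ofNat (nat_lit 5201885038858397641358292699904))⟩,
    ⟨nat_lit 14, nat_lit 9, (.negSucc (nat_lit 3167766655)), (.negSucc (nat_lit 1851619711)), (.negSucc (nat_lit 3167766639)), (.negSucc (nat_lit 1851619727)), (.negSucc (nat_lit 10238073298756602058387)), (.negSucc (nat_lit 157508819980870800897)), (.ofNat (nat_lit 4203982662775625540409273559296))⟩,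
    ⟨nat_lit 0, nat_lit 8, (.ofNat (nat_lit 2990107648)), (.ofNat (nat_lit 16172683456)), (.ofNat (nat_lit 2990107664)), (.ofNat (nat_lit 16172683440)), (.ofNat (nat_lit 10238073298756602058388)), (.ofNat (nat_lit 157508819980870800898)), (.ofNat (nat_lit 1060197099104205845448960627968))⟩,
    ⟨nat_lit 15, nat_lit 11, (.negSucc (nat_lit 12666637823)), (.negSucc (nat_lit 1503809535)), (.negSucc (nat_lit 12666637807)), (.negSucc (nat_lit 1503809551)), (.negSucc (nat_lit 10238073298756602058387)), (.negSucc (nat_lit 157508819980870800897)), (.ofNat (nat_lit 10074737912506998884805181184))⟩]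

theorem ok139 : stOK 15 15 S139 = true := by decide +kernel

def S140 : SD where
  vs := [
    ⟨nat_lit 0, nat_lit 0, nat_lit 14, (.ofNat (nat_lit 8)), (.ofNat (nat_lit 2990369792)), (.ofNat (nat_lit 99539171960604230913032071086592)), (.ofNat (nat_lit 262144)), (.ofNat (nat_lit 13419247434146253449970319360)), (.ofNat (nat_lit 2990369776)), (.ofNat (nat_lit 2990369808)), (.negSucc (nat_lit 10238073298756602058387)), (.ofNat (nat_lit 10238073298756602058388)), (.negSucc (nat_lit 10238073298756602058387)), (.ofNat (nat_lit 10238073298756602058388)), (.ofNat (nat_lit 0))⟩,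
    ⟨nat_lit 2, nat_lit 0, nat_lit 1, (.ofNat (nat_lit 8)), (.negSucc (nat_lit 2692386303)), (.ofNat (nat_lit 157719645410408140480582626019840)), (.ofNat (nat_lit 0)), (.ofNat (nat_lit 16103096920975504139964383232)), (.negSucc (nat_lit 2692386319)), (.negSucc (nat_lit 2692386287)), (.negSucc (nat_lit 10238073298756602058387)), (.ofNat (nat_lit 10238073298756602058388)), (.negSucc (nat_lit 10238073298756602058387)), (.ofNat (nat_lit 10238073298756602058388)), (.ofNat (nat_lit 0))⟩,
    ⟨nat_lit 1, nat_lit 1, nat_lit 2, (.ofNat (nat_lit 8)), (.ofNat (nat_lit 10530977472)), (.ofNat (nat_lit 293101413005219017980317542172928)), (.ofNat (nat_lit 1048576)), (.ofNat (nat_lit 26838494868292506899940638720)), (.ofNat (nat_lit 10530977456)), (.ofNat (nat_lit 10530977488)), (.ofNat (nat_lit 10238073298756602058388)), (.negSucc (nat_lit 10238073298756602058387)), (.negSucc (nat_lit 10238073298756602058387)), (.ofNat (nat_lit 10238073298756602058388)), (.ofNat (nat_lit 0))⟩,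
    ⟨nat_lit 0, nat_lit 3, nat_lit 2, (.ofNat (nat_lit 8)), (.ofNat (nat_lit 2122393024)), (.ofNat (nat_lit 379189116922627839785803666922752)), (.negSucc (nat_lit 844698751)), (.ofNat (nat_lit 8685661631159834420140891625984)), (.ofNat (nat_lit 2122393008)), (.ofNat (nat_lit 2122393040)), (.ofNat (nat_lit 10238073298756602058388)), (.negSucc (nat_lit 10238073298756602058387)), (.negSucc (nat_lit 10238073298756602058387)), (.ofNat (nat_lit 10238073298756602058388)), (.ofNat (nat_lit 0))⟩,
    ⟨nat_lit 2, nat_lit 4, nat_lit 3, (.ofNat (nat_lit 8)), (.negSucc (nat_lit 15126666047)), (.ofNat (nat_lit 202591985808909306730672261826816)), (.negSucc (nat_lit 846271615)), (.ofNat (nat_lit 8669558534238858916000927242752)), (.negSucc (nat_lit 15126666063)), (.negSucc (nat_lit 15126666031)), (.negSucc (nat_lit 10238073298756602058387)), (.ofNat (nat_lit 10238073298756602058388)), (.negSucc (nat_lit 10238073298756602058387)), (.ofNat (nat_lit 10238073298756602058388)), (.ofNat (nat_lit 0))⟩,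
    ⟨nat_lit 0, nat_lit 5, nat_lit 6, (.ofNat (nat_lit 8)), (.ofNat (nat_lit 5159295360)), (.ofNat (nat_lit 312861505807652075307228492637184)), (.ofNat (nat_lit 262144)), (.ofNat (nat_lit 24154645381463256209946574848)), (.ofNat (nat_lit 5159295344)), (.ofNat (nat_lit 5159295376)), (.ofNat (nat_lit 10238073298756602058388)), (.negSucc (nat_lit 10238073298756602058387)), (.negSucc (nat_lit 10238073298756602058387)), (.ofNat (nat_lit 10238073298756602058388)), (.ofNat (nat_lit 0))⟩,
    ⟨nat_lit 0, nat_lit 6, nat_lit 7, (.ofNat (nat_lit 8)), (.ofNat (nat_lit 17840351040)), (.ofNat (nat_lit 183031928250198329837207653593344)), (.ofNat (nat_lit 1310720)), (.ofNat (nat_lit 13419247434146253449970319360)), (.ofNat (nat_lit 17840351024)), (.ofNat (nat_lit 17840351056)), (.negSucc (nat_lit 10238073298756602058387)), (.ofNat (nat_lit 10238073298756602058388)), (.negSucc (nat_lit 10238073298756602058387)), (.ofNat (nat_lit 10238073298756602058388)), (.ofNat (nat_lit 0))⟩,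
    ⟨nat_lit 1, nat_lit 7, nat_lit 8, (.ofNat (nat_lit 8)), (.ofNat (nat_lit 19521160704)), (.ofNat (nat_lit 200240180791488785760748496254976)), (.ofNat (nat_lit 1572864)), (.ofNat (nat_lit 16103096920975504139964383232)), (.ofNat (nat_lit 19521160688)), (.ofNat (nat_lit 19521160720)), (.ofNat (nat_lit 10238073298756602058388)), (.negSucc (nat_lit 10238073298756602058387)), (.negSucc (nat_lit 10238073298756602058387)), (.ofNat (nat_lit 10238073298756602058388)), (.ofNat (nat_lit 0))⟩,
    ⟨nat_lit 0, nat_lit 14, nat_lit 8, (.ofNat (nat_lit 8)), (.ofNat (nat_lit 16173732032)), (.ofNat (nat_lit 234511400897784257440290705555712)), (.ofNat (nat_lit 1048576)), (.ofNat (nat_lit 21470795894634005519952510976)), (.ofNat (nat_lit 16173732016)), (.ofNat (nat_lit 16173732048)), (.ofNat (nat_lit 10238073298756602058388)), (.negSucc (nat_lit 10238073298756602058387)), (.negSucc (nat_lit 10238073298756602058387)), (.ofNat (nat_lit 10238073298756602058388)), (.ofNat (nat_lit 0))⟩,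
    ⟨nat_lit 1, nat_lit 9, nat_lit 13, (.ofNat (nat_lit 8)), (.negSucc (nat_lit 2696580607)), (.ofNat (nat_lit 300888133797019937755225126662656)), (.negSucc (nat_lit 844960895)), (.ofNat (nat_lit 8672242383725688166690921306624)), (.negSucc (nat_lit 2696580623)), (.negSucc (nat_lit 2696580591)), (.ofNat (nat_lit 10238073298756602058388)), (.negSucc (nat_lit 10238073298756602058387)), (.negSucc (nat_lit 10238073298756602058387)), (.ofNat (nat_lit 10238073298756602058388)), (.ofNat (nat_lit 0))⟩,
    ⟨nat_lit 0, nat_lit 4, nat_lit 9, (.ofNat (nat_lit 8)), (.negSucc (nat_lit 13712143167)), (.ofNat (nat_lit 188109996880701017568027339909376)), (.negSucc (nat_lit 845747327)), (.ofNat (nat_lit 8664190835265200414620939115008)), (.negSucc (nat_lit 13712143183)), (.negSucc (nat_lit 13712143151)), (.negSucc (nat_lit 10238073298756602058387)), (.ofNat (nat_lit 10238073298756602058388)), (.negSucc (nat_lit 10238073298756602058387)), (.ofNat (nat_lit 10238073298756602058388)), (.ofNat (nat_lit 0))⟩,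
    ⟨nat_lit 0, nat_lit 15, nat_lit 10, (.ofNat (nat_lit 8)), (.negSucc (nat_lit 1504071679)), (.ofNat (nat_lit 16053654070736939296564585362944)), (.negSucc (nat_lit 262143)), (.ofNat (nat_lit 2683849486829250689994063872)), (.negSucc (nat_lit 1504071695)), (.negSucc (nat_lit 1504071663)), (.negSucc (nat_lit 10238073298756602058387)), (.ofNat (nat_lit 10238073298756602058388)), (.negSucc (nat_lit 10238073298756602058387)), (.ofNat (nat_lit 10238073298756602058388)), (.ofNat (nat_lit 0))⟩,
    ⟨nat_lit 1, nat_lit 10, nat_lit 11, (.ofNat (nat_lit 8)), (.ofNat (nat_lit 4803318144)), (.ofNat (nat_lit 80629173412680442972458510406656)), (.ofNat (nat_lit 262144)), (.ofNat (nat_lit 8051548460487752069982191616)), (.ofNat (nat_lit 4803318128)), (.ofNat (nat_lit 4803318160)), (.ofNat (nat_lit 10238073298756602058388)), (.negSucc (nat_lit 10238073298756602058387)), (.negSucc (nat_lit 10238073298756602058387)), (.ofNat (nat_lit 10238073298756602058388)), (.ofNat (nat_lit 0))⟩,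
    ⟨nat_lit 2, nat_lit 11, nat_lit 12, (.ofNat (nat_lit 8)), (.negSucc (nat_lit 11019896319)), (.ofNat (nat_lit 242628402917058101878235684530688)), (.negSucc (nat_lit 845747327)), (.ofNat (nat_lit 8669558534238858916000927242752)), (.negSucc (nat_lit 11019896335)), (.negSucc (nat_lit 11019896303)), (.negSucc (nat_lit 10238073298756602058387)), (.ofNat (nat_lit 10238073298756602058388)), (.negSucc (nat_lit 10238073298756602058387)), (.ofNat (nat_lit 10238073298756602058388)), (.ofNat (nat_lit 0))⟩,
    ⟨nat_lit 0, nat_lit 12, nat_lit 13, (.ofNat (nat_lit 8)), (.negSucc (nat_lit 4012989695)), (.ofNat (nat_lit 314365626531113267804886596492800)), (.negSucc (nat_lit 845223039)), (.ofNat (nat_lit 8674926233212517417380915370496)), (.negSucc (nat_lit 4012989711)), (.negSucc (nat_lit 4012989679)), (.ofNat (nat_lit 10238073298756602058388)), (.negSucc (nat_lit 10238073298756602058387)), (.negSucc (nat_lit 10238073298756602058387)), (.ofNat (nat_lit 10238073298756602058388)), (.ofNat (nat_lit 0))⟩,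
    ⟨nat_lit 2, nat_lit 15, nat_lit 5, (.ofNat (nat_lit 8)), (.negSucc (nat_lit 12667686399)), (.ofNat (nat_lit 130347559853175099732767161634304)), (.negSucc (nat_lit 1048575)), (.ofNat (nat_lit 10735397947317002759976255488)), (.negSucc (nat_lit 12667686415)), (.negSucc (nat_lit 12667686383)), (.negSucc (nat_lit 10238073298756602058387)), (.ofNat (nat_lit 10238073298756602058388)), (.negSucc (nat_lit 10238073298756602058387)), (.ofNat (nat_lit 10238073298756602058388)), (.ofNat (nat_lit 0))⟩]
  es := [
    ⟨nat_lit 1, nat_lit 0, (.negSucc (nat_lit 2692386303)), (.ofNat (nat_lit 2990369792)), (.negSucc (nat_lit 2692386287)), (.ofNat (nat_lit 2990369776)), (.negSucc (nat_lit 10238073298756602058387)), (.ofNat (nat_lit 0)), (.ofNat (nat_lit 16103096920975504139964383232))⟩,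
    ⟨nat_lit 1, nat_lit 2, (.negSucc (nat_lit 2692386303)), (.ofNat (nat_lit 10530977472)), (.negSucc (nat_lit 2692386287)), (.ofNat (nat_lit 10530977456)), (.ofNat (nat_lit 10238073298756602058388)), (.ofNat (nat_lit 0)), (.ofNat (nat_lit 16103096920975504139964383232))⟩,
    ⟨nat_lit 3, nat_lit 2, (.ofNat (nat_lit 2122393024)), (.ofNat (nat_lit 10530977472)), (.ofNat (nat_lit 2122393040)), (.ofNat (nat_lit 10530977456)), (.negSucc (nat_lit 10238073298756602058387)), (.ofNat (nat_lit 0)), (.ofNat (nat_lit 37573892815609509659916894208))⟩,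
    ⟨nat_lit 4, nat_lit 3, (.negSucc (nat_lit 15126666047)), (.ofNat (nat_lit 2122393024)), (.negSucc (nat_lit 15126666031)), (.ofNat (nat_lit 2122393008)), (.ofNat (nat_lit 10238073298756602058388)), (.ofNat (nat_lit 0)), (.ofNat (nat_lit 17333749369504059330621866357760))⟩,
    ⟨nat_lit 4, nat_lit 10, (.negSucc (nat_lit 15126666047)), (.negSucc (nat_lit 13712143167)), (.negSucc (nat_lit 15126666031)), (.negSucc (nat_lit 13712143183)), (.negSucc (nat_lit 10238073298756602058387)), (.ofNat (nat_lit 0)), (.ofNat (nat_lit 5367698973658501379988127744))⟩,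
    ⟨nat_lit 15, nat_lit 5, (.negSucc (nat_lit 12667686399)), (.ofNat (nat_lit 5159295360)), (.negSucc (nat_lit 12667686383)), (.ofNat (nat_lit 5159295344)), (.ofNat (nat_lit 10238073298756602058388)), (.ofNat (nat_lit 0)), (.ofNat (nat_lit 21470795894634005519952510976))⟩,
    ⟨nat_lit 5, nat_lit 6, (.ofNat (nat_lit 5159295360)), (.ofNat (nat_lit 17840351040)), (.ofNat (nat_lit 5159295376)), (.ofNat (nat_lit 17840351024)), (.negSucc (nat_lit 10238073298756602058387)), (.ofNat (nat_lit 0)), (.ofNat (nat_lit 26838494868292506899940638720))⟩,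
    ⟨nat_lit 6, nat_lit 7, (.ofNat (nat_lit 17840351040)), (.ofNat (nat_lit 19521160704)), (.ofNat (nat_lit 17840351056)), (.ofNat (nat_lit 19521160688)), (.ofNat (nat_lit 10238073298756602058388)), (.ofNat (nat_lit 0)), (.ofNat (nat_lit 0))⟩,
    ⟨nat_lit 8, nat_lit 7, (.ofNat (nat_lit 16173732032)), (.ofNat (nat_lit 19521160704)), (.ofNat (nat_lit 16173732048)), (.ofNat (nat_lit 19521160688)), (.negSucc (nat_lit 10238073298756602058387)), (.ofNat (nat_lit 0)), (.ofNat (nat_lit 32206193841951008279928766464))⟩,
    ⟨nat_lit 10, nat_lit 9, (.negSucc (nat_lit 13712143167)), (.negSucc (nat_lit 2696580607)), (.negSucc (nat_lit 13712143151)), (.negSucc (nat_lit 2696580623)), (.ofNat (nat_lit 10238073298756602058388)), (.ofNat (nat_lit 0)), (.ofNat (nat_lit 17323013971556742327861890102272))⟩,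
    ⟨nat_lit 11, nat_lit 12, (.negSucc (nat_lit 1504071679)), (.ofNat (nat_lit 4803318144)), (.negSucc (nat_lit 1504071663)), (.ofNat (nat_lit 4803318128)), (.ofNat (nat_lit 10238073298756602058388)), (.ofNat (nat_lit 0)), (.ofNat (nat_lit 5367698973658501379988127744))⟩,
    ⟨nat_lit 13, nat_lit 12, (.negSucc (nat_lit 11019896319)), (.ofNat (nat_lit 4803318144)), (.negSucc (nat_lit 11019896303)), (.ofNat (nat_lit 4803318128)), (.negSucc (nat_lit 10238073298756602058387)), (.ofNat (nat_lit 0)), (.ofNat (nat_lit 10735397947317002759976255488))⟩,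
    ⟨nat_lit 13, nat_lit 14, (.negSucc (nat_lit 11019896319)), (.negSucc (nat_lit 4012989695)), (.negSucc (nat_lit 11019896303)), (.negSucc (nat_lit 4012989711)), (.ofNat (nat_lit 10238073298756602058388)), (.ofNat (nat_lit 0)), (.ofNat (nat_lit 17328381670530400829241878230016))⟩,
    ⟨nat_lit 14, nat_lit 9, (.negSucc (nat_lit 4012989695)), (.negSucc (nat_lit 2696580607)), (.negSucc (nat_lit 4012989679)), (.negSucc (nat_lit 2696580623)), (.negSucc (nat_lit 10238073298756602058387)), (.ofNat (nat_lit 0)), (.ofNat (nat_lit 21470795894634005519952510976))⟩,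
    ⟨nat_lit 0, nat_lit 8, (.ofNat (nat_lit 2990369792)), (.ofNat (nat_lit 16173732032)), (.ofNat (nat_lit 2990369808)), (.ofNat (nat_lit 16173732016)), (.ofNat (nat_lit 10238073298756602058388)), (.ofNat (nat_lit 0)), (.ofNat (nat_lit 10735397947317002759976255488))⟩,
    ⟨nat_lit 15, nat_lit 11, (.negSucc (nat_lit 12667686399)), (.negSucc (nat_lit 1504071679)), (.negSucc (nat_lit 12667686383)), (.negSucc (nat_lit 1504071695)), (.negSucc (nat_lit 10238073298756602058387)), (.ofNat (nat_lit 0)), (.ofNat (nat_lit 0))⟩]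

theorem ok140 : stOK 15 15 S140 = true := by decide +kernel

def S141 : SD where
  vs := [
    ⟨nat_lit 0, nat_lit 0, nat_lit 14, (.ofNat (nat_lit 8)), (.ofNat (nat_lit 9997276416)), (.ofNat (nat_lit 171287130972606713842442959304192)), (.ofNat (nat_lit 7006906624)), (.ofNat (nat_lit 71747959012002482929410888217600)), (.ofNat (nat_lit 9997276400)), (.ofNat (nat_lit 9997276432)), (.negSucc (nat_lit 10238073298756602058387)), (.ofNat (nat_lit 10238073298756602058388)), (.negSucc (nat_lit 10238073298756602058387)), (.ofNat (nat_lit 10238073298756602058388)), (.ofNat (nat_lit 0))⟩,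
    ⟨nat_lit 2, nat_lit 0, nat_lit 1, (.ofNat (nat_lit 8)), (.ofNat (nat_lit 4314258176)), (.ofNat (nat_lit 229470288271897452660683508301312)), (.ofNat (nat_lit 7006644480)), (.ofNat (nat_lit 71750642861489312180100882281472)), (.ofNat (nat_lit 4314258160)), (.ofNat (nat_lit 4314258192)), (.negSucc (nat_lit 10238073298756602058387)), (.ofNat (nat_lit 10238073298756602058388)), (.negSucc (nat_lit 10238073298756602058387)), (.ofNat (nat_lit 10238073298756602058388)), (.ofNat (nat_lit 0))⟩,
    ⟨nat_lit 1, nat_lit 1, nat_lit 2, (.ofNat (nat_lit 8)), (.ofNat (nat_lit 17538408384)), (.ofNat (nat_lit 364860107415168817912488406646016)), (.ofNat (nat_lit 7007430912)), (.ofNat (nat_lit 71758694409949799932170864473088)), (.ofNat (nat_lit 17538408368)), (.ofNat (nat_lit 17538408400)), (.ofNat (nat_lit 10238073298756602058388)), (.negSucc (nat_lit 10238073298756602058387)), (.negSucc (nat_lit 10238073298756602058387)), (.ofNat (nat_lit 10238073298756602058388)), (.ofNat (nat_lit 0))⟩,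
    ⟨nat_lit 0, nat_lit 3, nat_lit 2, (.ofNat (nat_lit 8)), (.ofNat (nat_lit 9128775360)), (.ofNat (nat_lit 450958546730524956720734507651328)), (.ofNat (nat_lit 7006382336)), (.ofNat (nat_lit 71769429807897116934930840728576)), (.ofNat (nat_lit 9128775344)), (.ofNat (nat_lit 9128775376)), (.ofNat (nat_lit 10238073298756602058388)), (.negSucc (nat_lit 10238073298756602058387)), (.negSucc (nat_lit 10238073298756602058387)), (.ofNat (nat_lit 10238073298756602058388)), (.ofNat (nat_lit 0))⟩,
    ⟨nat_lit 2, nat_lit 4, nat_lit 3, (.ofNat (nat_lit 8)), (.negSucc (nat_lit 15128238911)), (.ofNat (nat_lit 202613456604803940736192214337792)), (.negSucc (nat_lit 1572863)), (.ofNat (nat_lit 21470795894634005519952510976)), (.negSucc (nat_lit 15128238927)), (.negSucc (nat_lit 15128238895)), (.negSucc (nat_lit 10238073298756602058387)), (.ofNat (nat_lit 10238073298756602058388)), (.negSucc (nat_lit 10238073298756602058387)), (.ofNat (nat_lit 10238073298756602058388)), (.ofNat (nat_lit 0))⟩,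
    ⟨nat_lit 0, nat_lit 5, nat_lit 6, (.ofNat (nat_lit 8)), (.ofNat (nat_lit 12165939840)), (.ofNat (nat_lit 384617516368115045988709363046400)), (.ofNat (nat_lit 7006644480)), (.ofNat (nat_lit 71756010560462970681480870409216)), (.ofNat (nat_lit 12165939824)), (.ofNat (nat_lit 12165939856)), (.ofNat (nat_lit 10238073298756602058388)), (.negSucc (nat_lit 10238073298756602058387)), (.negSucc (nat_lit 10238073298756602058387)), (.ofNat (nat_lit 10238073298756602058388)), (.ofNat (nat_lit 0))⟩,
    ⟨nat_lit 0, nat_lit 6, nat_lit 7, (.ofNat (nat_lit 8)), (.ofNat (nat_lit 24848044096)), (.ofNat (nat_lit 254777203412713983515928547747072)), (.ofNat (nat_lit 7007693056)), (.ofNat (nat_lit 71745275162515653678720894153728)), (.ofNat (nat_lit 24848044080)), (.ofNat (nat_lit 24848044112)), (.negSucc (nat_lit 10238073298756602058387)), (.ofNat (nat_lit 10238073298756602058388)), (.negSucc (nat_lit 10238073298756602058387)), (.ofNat (nat_lit 10238073298756602058388)), (.ofNat (nat_lit 0))⟩,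
    ⟨nat_lit 1, nat_lit 7, nat_lit 8, (.ofNat (nat_lit 8)), (.ofNat (nat_lit 26529115904)), (.ofNat (nat_lit 271988139803491268690159384472576)), (.ofNat (nat_lit 7007955200)), (.ofNat (nat_lit 71747959012002482929410888217600)), (.ofNat (nat_lit 26529115888)), (.ofNat (nat_lit 26529115920)), (.ofNat (nat_lit 10238073298756602058388)), (.negSucc (nat_lit 10238073298756602058387)), (.negSucc (nat_lit 10238073298756602058387)), (.ofNat (nat_lit 10238073298756602058388)), (.ofNat (nat_lit 0))⟩,
    ⟨nat_lit 0, nat_lit 14, nat_lit 8, (.ofNat (nat_lit 8)), (.ofNat (nat_lit 23181162944)), (.ofNat (nat_lit 306264727608760398871081581901056)), (.ofNat (nat_lit 7007430912)), (.ofNat (nat_lit 71753326710976141430790876345344)), (.ofNat (nat_lit 23181162928)), (.ofNat (nat_lit 23181162960)), (.ofNat (nat_lit 10238073298756602058388)), (.negSucc (nat_lit 10238073298756602058387)), (.negSucc (nat_lit 10238073298756602058387)), (.ofNat (nat_lit 10238073298756602058388)), (.ofNat (nat_lit 0))⟩,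
    ⟨nat_lit 1, nat_lit 9, nat_lit 13, (.ofNat (nat_lit 8)), (.negSucc (nat_lit 2697104895)), (.ofNat (nat_lit 300909604592914571760745079173632)), (.negSucc (nat_lit 524287)), (.ofNat (nat_lit 21470795894634005519952510976)), (.negSucc (nat_lit 2697104911)), (.negSucc (nat_lit 2697104879)), (.ofNat (nat_lit 10238073298756602058388)), (.negSucc (nat_lit 10238073298756602058387)), (.negSucc (nat_lit 10238073298756602058387)), (.ofNat (nat_lit 10238073298756602058388)), (.ofNat (nat_lit 0))⟩,
    ⟨nat_lit 0, nat_lit 4, nat_lit 9, (.ofNat (nat_lit 8)), (.negSucc (nat_lit 13713191743)), (.ofNat (nat_lit 188126099977621993072167304292608)), (.negSucc (nat_lit 1048575)), (.ofNat (nat_lit 16103096920975504139964383232)), (.negSucc (nat_lit 13713191759)), (.negSucc (nat_lit 13713191727)), (.negSucc (nat_lit 10238073298756602058387)), (.ofNat (nat_lit 10238073298756602058388)), (.negSucc (nat_lit 10238073298756602058387)), (.ofNat (nat_lit 10238073298756602058388)), (.ofNat (nat_lit 0))⟩,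
    ⟨nat_lit 0, nat_lit 15, nat_lit 10, (.ofNat (nat_lit 8)), (.negSucc (nat_lit 1504333823)), (.ofNat (nat_lit 16056337920223768547254579426816)), (.negSucc (nat_lit 262143)), (.ofNat (nat_lit 2683849486829250689994063872)), (.negSucc (nat_lit 1504333839)), (.negSucc (nat_lit 1504333807)), (.negSucc (nat_lit 10238073298756602058387)), (.ofNat (nat_lit 10238073298756602058388)), (.negSucc (nat_lit 10238073298756602058387)), (.ofNat (nat_lit 10238073298756602058388)), (.ofNat (nat_lit 0))⟩,
    ⟨nat_lit 1, nat_lit 10, nat_lit 11, (.ofNat (nat_lit 8)), (.ofNat (nat_lit 4803580288)), (.ofNat (nat_lit 80637224961140930724528492598272)), (.ofNat (nat_lit 262144)), (.ofNat (nat_lit 8051548460487752069982191616)), (.ofNat (nat_lit 4803580272)), (.ofNat (nat_lit 4803580304)), (.ofNat (nat_lit 10238073298756602058388)), (.negSucc (nat_lit 10238073298756602058387)), (.negSucc (nat_lit 10238073298756602058387)), (.ofNat (nat_lit 10238073298756602058388)), (.ofNat (nat_lit 0))⟩,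
    ⟨nat_lit 2, nat_lit 11, nat_lit 12, (.ofNat (nat_lit 8)), (.negSucc (nat_lit 11020944895)), (.ofNat (nat_lit 242649873712952735883755637041664)), (.negSucc (nat_lit 1048575)), (.ofNat (nat_lit 21470795894634005519952510976)), (.negSucc (nat_lit 11020944911)), (.negSucc (nat_lit 11020944879)), (.negSucc (nat_lit 10238073298756602058387)), (.ofNat (nat_lit 10238073298756602058388)), (.negSucc (nat_lit 10238073298756602058387)), (.ofNat (nat_lit 10238073298756602058388)), (.ofNat (nat_lit 0))⟩,
    ⟨nat_lit 0, nat_lit 12, nat_lit 13, (.ofNat (nat_lit 8)), (.negSucc (nat_lit 4013776127)), (.ofNat (nat_lit 314389781176494731061096543067648)), (.negSucc (nat_lit 786431)), (.ofNat (nat_lit 24154645381463256209946574848)), (.negSucc (nat_lit 4013776143)), (.negSucc (nat_lit 4013776111)), (.ofNat (nat_lit 10238073298756602058388)), (.negSucc (nat_lit 10238073298756602058387)), (.negSucc (nat_lit 10238073298756602058387)), (.ofNat (nat_lit 10238073298756602058388)), (.ofNat (nat_lit 0))⟩,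
    ⟨nat_lit 2, nat_lit 15, nat_lit 5, (.ofNat (nat_lit 8)), (.negSucc (nat_lit 12668734975)), (.ofNat (nat_lit 130358295251122416735527137889792)), (.negSucc (nat_lit 1048575)), (.ofNat (nat_lit 10735397947317002759976255488)), (.negSucc (nat_lit 12668734991)), (.negSucc (nat_lit 12668734959)), (.negSucc (nat_lit 10238073298756602058387)), (.ofNat (nat_lit 10238073298756602058388)), (.negSucc (nat_lit 10238073298756602058387)), (.ofNat (nat_lit 10238073298756602058388)), (.ofNat (nat_lit 0))⟩]
  es := [
    ⟨nat_lit 1, nat_lit 0, (.ofNat (nat_lit 4314258176)), (.ofNat (nat_lit 9997276416)), (.ofNat (nat_lit 4314258192)), (.ofNat (nat_lit 9997276400)), (.negSucc (nat_lit 10238073298756602058387)), (.ofNat (nat_lit 0)), (.ofNat (nat_lit 143485182626057648856061800179712))⟩,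
    ⟨nat_lit 1, nat_lit 2, (.ofNat (nat_lit 4314258176)), (.ofNat (nat_lit 17538408384)), (.ofNat (nat_lit 4314258192)), (.ofNat (nat_lit 17538408368)), (.ofNat (nat_lit 10238073298756602058388)), (.ofNat (nat_lit 0)), (.ofNat (nat_lit 16103096920975504139964383232))⟩,
    ⟨nat_lit 3, nat_lit 2, (.ofNat (nat_lit 9128775360)), (.ofNat (nat_lit 17538408384)), (.ofNat (nat_lit 9128775376)), (.ofNat (nat_lit 17538408368)), (.negSucc (nat_lit 10238073298756602058387)), (.ofNat (nat_lit 0)), (.ofNat (nat_lit 143501285722978624360201764562944))⟩,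
    ⟨nat_lit 4, nat_lit 3, (.negSucc (nat_lit 15128238911)), (.ofNat (nat_lit 9128775360)), (.negSucc (nat_lit 15128238895)), (.ofNat (nat_lit 9128775344)), (.ofNat (nat_lit 10238073298756602058388)), (.ofNat (nat_lit 0)), (.ofNat (nat_lit 37573892815609509659916894208))⟩,
    ⟨nat_lit 4, nat_lit 10, (.negSucc (nat_lit 15128238911)), (.negSucc (nat_lit 13713191743)), (.negSucc (nat_lit 15128238895)), (.negSucc (nat_lit 13713191759)), (.negSucc (nat_lit 10238073298756602058387)), (.ofNat (nat_lit 0)), (.ofNat (nat_lit 5367698973658501379988127744))⟩,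
    ⟨nat_lit 15, nat_lit 5, (.negSucc (nat_lit 12668734975)), (.ofNat (nat_lit 12165939840)), (.negSucc (nat_lit 12668734959)), (.ofNat (nat_lit 12165939824)), (.ofNat (nat_lit 10238073298756602058388)), (.ofNat (nat_lit 0)), (.ofNat (nat_lit 21470795894634005519952510976))⟩,
    ⟨nat_lit 5, nat_lit 6, (.ofNat (nat_lit 12165939840)), (.ofNat (nat_lit 24848044096)), (.ofNat (nat_lit 12165939856)), (.ofNat (nat_lit 24848044080)), (.negSucc (nat_lit 10238073298756602058387)), (.ofNat (nat_lit 0)), (.ofNat (nat_lit 143490550325031307357441788307456))⟩,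
    ⟨nat_lit 6, nat_lit 7, (.ofNat (nat_lit 24848044096)), (.ofNat (nat_lit 26529115904)), (.ofNat (nat_lit 24848044112)), (.ofNat (nat_lit 26529115888)), (.ofNat (nat_lit 10238073298756602058388)), (.ofNat (nat_lit 0)), (.ofNat (nat_lit 0))⟩,
    ⟨nat_lit 8, nat_lit 7, (.ofNat (nat_lit 23181162944)), (.ofNat (nat_lit 26529115904)), (.ofNat (nat_lit 23181162960)), (.ofNat (nat_lit 26529115888)), (.negSucc (nat_lit 10238073298756602058387)), (.ofNat (nat_lit 0)), (.ofNat (nat_lit 143495918024004965858821776435200))⟩,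
    ⟨nat_lit 10, nat_lit 9, (.negSucc (nat_lit 13713191743)), (.negSucc (nat_lit 2697104895)), (.negSucc (nat_lit 13713191727)), (.negSucc (nat_lit 2697104911)), (.ofNat (nat_lit 10238073298756602058388)), (.ofNat (nat_lit 0)), (.ofNat (nat_lit 26838494868292506899940638720))⟩,
    ⟨nat_lit 11, nat_lit 12, (.negSucc (nat_lit 1504333823)), (.ofNat (nat_lit 4803580288)), (.negSucc (nat_lit 1504333807)), (.ofNat (nat_lit 4803580272)), (.ofNat (nat_lit 10238073298756602058388)), (.ofNat (nat_lit 0)), (.ofNat (nat_lit 5367698973658501379988127744))⟩,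
    ⟨nat_lit 13, nat_lit 12, (.negSucc (nat_lit 11020944895)), (.ofNat (nat_lit 4803580288)), (.negSucc (nat_lit 11020944879)), (.ofNat (nat_lit 4803580272)), (.negSucc (nat_lit 10238073298756602058387)), (.ofNat (nat_lit 0)), (.ofNat (nat_lit 10735397947317002759976255488))⟩,
    ⟨nat_lit 13, nat_lit 14, (.negSucc (nat_lit 11020944895)), (.negSucc (nat_lit 4013776127)), (.negSucc (nat_lit 11020944879)), (.negSucc (nat_lit 4013776143)), (.ofNat (nat_lit 10238073298756602058388)), (.ofNat (nat_lit 0)), (.ofNat (nat_lit 32206193841951008279928766464))⟩,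
    ⟨nat_lit 14, nat_lit 9, (.negSucc (nat_lit 4013776127)), (.negSucc (nat_lit 2697104895)), (.negSucc (nat_lit 4013776111)), (.negSucc (nat_lit 2697104911)), (.negSucc (nat_lit 10238073298756602058387)), (.ofNat (nat_lit 0)), (.ofNat (nat_lit 16103096920975504139964383232))⟩,
    ⟨nat_lit 0, nat_lit 8, (.ofNat (nat_lit 9997276416)), (.ofNat (nat_lit 23181162944)), (.ofNat (nat_lit 9997276432)), (.ofNat (nat_lit 23181162928)), (.ofNat (nat_lit 10238073298756602058388)), (.ofNat (nat_lit 0)), (.ofNat (nat_lit 10735397947317002759976255488))⟩,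
    ⟨nat_lit 15, nat_lit 11, (.negSucc (nat_lit 12668734975)), (.negSucc (nat_lit 1504333823)), (.negSucc (nat_lit 12668734959)), (.negSucc (nat_lit 1504333839)), (.negSucc (nat_lit 10238073298756602058387)), (.ofNat (nat_lit 0)), (.ofNat (nat_lit 0))⟩]

theorem ok141 : stOK 15 15 S141 = true := by decide +kernel

def S142 : SD where
  vs := [
    ⟨nat_lit 0, nat_lit 0, nat_lit 14, (.ofNat (nat_lit 8)), (.ofNat (nat_lit 9997800704)), (.ofNat (nat_lit 171303234069527689346582923687424)), (.ofNat (nat_lit 524288)), (.ofNat (nat_lit 16103096920975504139964383232)), (.ofNat (nat_lit 9997800688)), (.ofNat (nat_lit 9997800720)), (.negSucc (nat_lit 10238073298756602058387)), (.ofNat (nat_lit 10238073298756602058388)), (.negSucc (nat_lit 10238073298756602058387)), (.ofNat (nat_lit 10238073298756602058388)), (.ofNat (nat_lit 0))⟩,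
    ⟨nat_lit 2, nat_lit 0, nat_lit 1, (.ofNat (nat_lit 8)), (.ofNat (nat_lit 4314520320)), (.ofNat (nat_lit 229489075218305257415513466748416)), (.ofNat (nat_lit 262144)), (.ofNat (nat_lit 18786946407804754829958447104)), (.ofNat (nat_lit 4314520304)), (.ofNat (nat_lit 4314520336)), (.negSucc (nat_lit 10238073298756602058387)), (.ofNat (nat_lit 10238073298756602058388)), (.negSucc (nat_lit 10238073298756602058387)), (.ofNat (nat_lit 10238073298756602058388)), (.ofNat (nat_lit 0))⟩,
    ⟨nat_lit 1, nat_lit 1, nat_lit 2, (.ofNat (nat_lit 8)), (.ofNat (nat_lit 17539456960)), (.ofNat (nat_lit 364886945910037110419388347284736)), (.ofNat (nat_lit 1048576)), (.ofNat (nat_lit 26838494868292506899940638720)), (.ofNat (nat_lit 17539456944)), (.ofNat (nat_lit 17539456976)), (.ofNat (nat_lit 10238073298756602058388)), (.negSucc (nat_lit 10238073298756602058387)), (.negSucc (nat_lit 10238073298756602058387)), (.ofNat (nat_lit 10238073298756602058388)), (.ofNat (nat_lit 0))⟩,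
    ⟨nat_lit 0, nat_lit 3, nat_lit 2, (.ofNat (nat_lit 8)), (.ofNat (nat_lit 1273161536)), (.ofNat (nat_lit 531422470760178211371534052501248)), (.negSucc (nat_lit 7855613823)), (.ofNat (nat_lit 80463924029653254650799544849920)), (.ofNat (nat_lit 1273161520)), (.ofNat (nat_lit 1273161552)), (.ofNat (nat_lit 10238073298756602058388)), (.negSucc (nat_lit 10238073298756602058387)), (.negSucc (nat_lit 10238073298756602058387)), (.ofNat (nat_lit 10238073298756602058388)), (.ofNat (nat_lit 0))⟩,
    ⟨nat_lit 2, nat_lit 4, nat_lit 3, (.ofNat (nat_lit 8)), (.negSucc (nat_lit 22985425599)), (.ofNat (nat_lit 283061277537536219882851794804480)), (.negSucc (nat_lit 7857186687)), (.ofNat (nat_lit 80447820932732279146659580466688)), (.negSucc (nat_lit 22985425615)), (.negSucc (nat_lit 22985425583)), (.negSucc (nat_lit 10238073298756602058387)), (.ofNat (nat_lit 10238073298756602058388)), (.negSucc (nat_lit 10238073298756602058387)), (.ofNat (nat_lit 10238073298756602058388)), (.ofNat (nat_lit 0))⟩,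
    ⟨nat_lit 0, nat_lit 5, nat_lit 6, (.ofNat (nat_lit 8)), (.ofNat (nat_lit 4310588160)), (.ofNat (nat_lit 465068021150334154386058937576960)), (.negSucc (nat_lit 7855351679)), (.ofNat (nat_lit 80450504782219108397349574530560)), (.ofNat (nat_lit 4310588144)), (.ofNat (nat_lit 4310588176)), (.ofNat (nat_lit 10238073298756602058388)), (.negSucc (nat_lit 10238073298756602058387)), (.negSucc (nat_lit 10238073298756602058387)), (.ofNat (nat_lit 10238073298756602058388)), (.ofNat (nat_lit 0))⟩,
    ⟨nat_lit 0, nat_lit 6, nat_lit 7, (.ofNat (nat_lit 8)), (.ofNat (nat_lit 24849354816)), (.ofNat (nat_lit 254790622660148129769378518066432)), (.ofNat (nat_lit 1310720)), (.ofNat (nat_lit 13419247434146253449970319360)), (.ofNat (nat_lit 24849354800)), (.ofNat (nat_lit 24849354832)), (.negSucc (nat_lit 10238073298756602058387)), (.ofNat (nat_lit 10238073298756602058388)), (.negSucc (nat_lit 10238073298756602058387)), (.ofNat (nat_lit 10238073298756602058388)), (.ofNat (nat_lit 0))⟩,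
    ⟨nat_lit 1, nat_lit 7, nat_lit 8, (.ofNat (nat_lit 8)), (.ofNat (nat_lit 26530688768)), (.ofNat (nat_lit 272004242900412244194299348855808)), (.ofNat (nat_lit 1572864)), (.ofNat (nat_lit 16103096920975504139964383232)), (.ofNat (nat_lit 26530688752)), (.ofNat (nat_lit 26530688784)), (.ofNat (nat_lit 10238073298756602058388)), (.negSucc (nat_lit 10238073298756602058387)), (.negSucc (nat_lit 10238073298756602058387)), (.ofNat (nat_lit 10238073298756602058388)), (.ofNat (nat_lit 0))⟩,
    ⟨nat_lit 0, nat_lit 14, nat_lit 8, (.ofNat (nat_lit 8)), (.ofNat (nat_lit 23182211520)), (.ofNat (nat_lit 306286198404655032876601534412032)), (.ofNat (nat_lit 1048576)), (.ofNat (nat_lit 21470795894634005519952510976)), (.ofNat (nat_lit 23182211504)), (.ofNat (nat_lit 23182211536)), (.ofNat (nat_lit 10238073298756602058388)), (.negSucc (nat_lit 10238073298756602058387)), (.negSucc (nat_lit 10238073298756602058387)), (.ofNat (nat_lit 10238073298756602058388)), (.ofNat (nat_lit 0))⟩,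
    ⟨nat_lit 1, nat_lit 9, nat_lit 13, (.ofNat (nat_lit 8)), (.negSucc (nat_lit 10553243007)), (.ofNat (nat_lit 381357425525646850907404659640320)), (.negSucc (nat_lit 7856138111)), (.ofNat (nat_lit 80447820932732279146659580466688)), (.negSucc (nat_lit 10553243023)), (.negSucc (nat_lit 10553242991)), (.ofNat (nat_lit 10238073298756602058388)), (.negSucc (nat_lit 10238073298756602058387)), (.negSucc (nat_lit 10238073298756602058387)), (.ofNat (nat_lit 10238073298756602058388)), (.ofNat (nat_lit 0))⟩,
    ⟨nat_lit 0, nat_lit 4, nat_lit 9, (.ofNat (nat_lit 8)), (.negSucc (nat_lit 21569854143)), (.ofNat (nat_lit 268568553211380613717446896631552)), (.negSucc (nat_lit 7856662399)), (.ofNat (nat_lit 80442453233758620645279592338944)), (.negSucc (nat_lit 21569854159)), (.negSucc (nat_lit 21569854127)), (.negSucc (nat_lit 10238073298756602058387)), (.ofNat (nat_lit 10238073298756602058388)), (.negSucc (nat_lit 10238073298756602058387)), (.ofNat (nat_lit 10238073298756602058388)), (.ofNat (nat_lit 0))⟩,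
    ⟨nat_lit 0, nat_lit 15, nat_lit 10, (.ofNat (nat_lit 8)), (.negSucc (nat_lit 1504595967)), (.ofNat (nat_lit 16059021769710597797944573490688)), (.negSucc (nat_lit 262143)), (.ofNat (nat_lit 2683849486829250689994063872)), (.negSucc (nat_lit 1504595983)), (.negSucc (nat_lit 1504595951)), (.negSucc (nat_lit 10238073298756602058387)), (.ofNat (nat_lit 10238073298756602058388)), (.negSucc (nat_lit 10238073298756602058387)), (.ofNat (nat_lit 10238073298756602058388)), (.ofNat (nat_lit 0))⟩,
    ⟨nat_lit 1, nat_lit 10, nat_lit 11, (.ofNat (nat_lit 8)), (.ofNat (nat_lit 4803842432)), (.ofNat (nat_lit 80645276509601418476598474789888)), (.ofNat (nat_lit 262144)), (.ofNat (nat_lit 8051548460487752069982191616)), (.ofNat (nat_lit 4803842416)), (.ofNat (nat_lit 4803842448)), (.ofNat (nat_lit 10238073298756602058388)), (.negSucc (nat_lit 10238073298756602058387)), (.negSucc (nat_lit 10238073298756602058387)), (.ofNat (nat_lit 10238073298756602058388)), (.ofNat (nat_lit 0))⟩,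
    ⟨nat_lit 2, nat_lit 11, nat_lit 12, (.ofNat (nat_lit 8)), (.negSucc (nat_lit 18877607295)), (.ofNat (nat_lit 323097694645685015030415217508352)), (.negSucc (nat_lit 7856662399)), (.ofNat (nat_lit 80447820932732279146659580466688)), (.negSucc (nat_lit 18877607311)), (.negSucc (nat_lit 18877607279)), (.negSucc (nat_lit 10238073298756602058387)), (.ofNat (nat_lit 10238073298756602058388)), (.negSucc (nat_lit 10238073298756602058387)), (.ofNat (nat_lit 10238073298756602058388)), (.ofNat (nat_lit 0))⟩,
    ⟨nat_lit 0, nat_lit 12, nat_lit 13, (.ofNat (nat_lit 8)), (.negSucc (nat_lit 11870176383)), (.ofNat (nat_lit 394840285958713839458446117598208)), (.negSucc (nat_lit 7856400255)), (.ofNat (nat_lit 80450504782219108397349574530560)), (.negSucc (nat_lit 11870176399)), (.negSucc (nat_lit 11870176367)), (.ofNat (nat_lit 10238073298756602058388)), (.negSucc (nat_lit 10238073298756602058387)), (.negSucc (nat_lit 10238073298756602058387)), (.ofNat (nat_lit 10238073298756602058388)), (.ofNat (nat_lit 0))⟩,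
    ⟨nat_lit 2, nat_lit 15, nat_lit 5, (.ofNat (nat_lit 8)), (.negSucc (nat_lit 20525397375)), (.ofNat (nat_lit 210795380785907378879426742100992)), (.negSucc (nat_lit 7856662399)), (.ofNat (nat_lit 80437085534784962143899604211200)), (.negSucc (nat_lit 20525397391)), (.negSucc (nat_lit 20525397359)), (.negSucc (nat_lit 10238073298756602058387)), (.ofNat (nat_lit 10238073298756602058388)), (.negSucc (nat_lit 10238073298756602058387)), (.ofNat (nat_lit 10238073298756602058388)), (.ofNat (nat_lit 0))⟩]
  es := [
    ⟨nat_lit 1, nat_lit 0, (.ofNat (nat_lit 4314520320)), (.ofNat (nat_lit 9997800704)), (.ofNat (nat_lit 4314520336)), (.ofNat (nat_lit 9997800688)), (.negSucc (nat_lit 10238073298756602058387)), (.ofNat (nat_lit 0)), (.ofNat (nat_lit 21470795894634005519952510976))⟩,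
    ⟨nat_lit 1, nat_lit 2, (.ofNat (nat_lit 4314520320)), (.ofNat (nat_lit 17539456960)), (.ofNat (nat_lit 4314520336)), (.ofNat (nat_lit 17539456944)), (.ofNat (nat_lit 10238073298756602058388)), (.ofNat (nat_lit 0)), (.ofNat (nat_lit 16103096920975504139964383232))⟩,
    ⟨nat_lit 3, nat_lit 2, (.ofNat (nat_lit 1273161536)), (.ofNat (nat_lit 17539456960)), (.ofNat (nat_lit 1273161552)), (.ofNat (nat_lit 17539456944)), (.negSucc (nat_lit 10238073298756602058387)), (.ofNat (nat_lit 0)), (.ofNat (nat_lit 37573892815609509659916894208))⟩,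
    ⟨nat_lit 4, nat_lit 3, (.negSucc (nat_lit 22985425599)), (.ofNat (nat_lit 1273161536)), (.negSucc (nat_lit 22985425583)), (.ofNat (nat_lit 1273161520)), (.ofNat (nat_lit 10238073298756602058388)), (.ofNat (nat_lit 0)), (.ofNat (nat_lit 160890274166490899791939172805632))⟩,
    ⟨nat_lit 4, nat_lit 10, (.negSucc (nat_lit 22985425599)), (.negSucc (nat_lit 21569854143)), (.negSucc (nat_lit 22985425583)), (.negSucc (nat_lit 21569854159)), (.negSucc (nat_lit 10238073298756602058387)), (.ofNat (nat_lit 0)), (.ofNat (nat_lit 5367698973658501379988127744))⟩,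
    ⟨nat_lit 15, nat_lit 5, (.negSucc (nat_lit 20525397375)), (.ofNat (nat_lit 4310588160)), (.negSucc (nat_lit 20525397359)), (.ofNat (nat_lit 4310588144)), (.ofNat (nat_lit 10238073298756602058388)), (.ofNat (nat_lit 0)), (.ofNat (nat_lit 160874171069569924287799208422400))⟩,
    ⟨nat_lit 5, nat_lit 6, (.ofNat (nat_lit 4310588160)), (.ofNat (nat_lit 24849354816)), (.ofNat (nat_lit 4310588176)), (.ofNat (nat_lit 24849354800)), (.negSucc (nat_lit 10238073298756602058387)), (.ofNat (nat_lit 0)), (.ofNat (nat_lit 26838494868292506899940638720))⟩,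
    ⟨nat_lit 6, nat_lit 7, (.ofNat (nat_lit 24849354816)), (.ofNat (nat_lit 26530688768)), (.ofNat (nat_lit 24849354832)), (.ofNat (nat_lit 26530688752)), (.ofNat (nat_lit 10238073298756602058388)), (.ofNat (nat_lit 0)), (.ofNat (nat_lit 0))⟩,
    ⟨nat_lit 8, nat_lit 7, (.ofNat (nat_lit 23182211520)), (.ofNat (nat_lit 26530688768)), (.ofNat (nat_lit 23182211536)), (.ofNat (nat_lit 26530688752)), (.negSucc (nat_lit 10238073298756602058387)), (.ofNat (nat_lit 0)), (.ofNat (nat_lit 32206193841951008279928766464))⟩,
    ⟨nat_lit 10, nat_lit 9, (.negSucc (nat_lit 21569854143)), (.negSucc (nat_lit 10553243007)), (.negSucc (nat_lit 21569854127)), (.negSucc (nat_lit 10553243023)), (.ofNat (nat_lit 10238073298756602058388)), (.ofNat (nat_lit 0)), (.ofNat (nat_lit 160879538768543582789179196550144))⟩,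
    ⟨nat_lit 11, nat_lit 12, (.negSucc (nat_lit 1504595967)), (.ofNat (nat_lit 4803842432)), (.negSucc (nat_lit 1504595951)), (.ofNat (nat_lit 4803842416)), (.ofNat (nat_lit 10238073298756602058388)), (.ofNat (nat_lit 0)), (.ofNat (nat_lit 5367698973658501379988127744))⟩,
    ⟨nat_lit 13, nat_lit 12, (.negSucc (nat_lit 18877607295)), (.ofNat (nat_lit 4803842432)), (.negSucc (nat_lit 18877607279)), (.ofNat (nat_lit 4803842416)), (.negSucc (nat_lit 10238073298756602058387)), (.ofNat (nat_lit 0)), (.ofNat (nat_lit 10735397947317002759976255488))⟩,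
    ⟨nat_lit 13, nat_lit 14, (.negSucc (nat_lit 18877607295)), (.negSucc (nat_lit 11870176383)), (.negSucc (nat_lit 18877607279)), (.negSucc (nat_lit 11870176399)), (.ofNat (nat_lit 10238073298756602058388)), (.ofNat (nat_lit 0)), (.ofNat (nat_lit 160884906467517241290559184677888))⟩,
    ⟨nat_lit 14, nat_lit 9, (.negSucc (nat_lit 11870176383)), (.negSucc (nat_lit 10553243007)), (.negSucc (nat_lit 11870176367)), (.negSucc (nat_lit 10553243023)), (.negSucc (nat_lit 10238073298756602058387)), (.ofNat (nat_lit 0)), (.ofNat (nat_lit 16103096920975504139964383232))⟩,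
    ⟨nat_lit 0, nat_lit 8, (.ofNat (nat_lit 9997800704)), (.ofNat (nat_lit 23182211520)), (.ofNat (nat_lit 9997800720)), (.ofNat (nat_lit 23182211504)), (.ofNat (nat_lit 10238073298756602058388)), (.ofNat (nat_lit 0)), (.ofNat (nat_lit 10735397947317002759976255488))⟩,
    ⟨nat_lit 15, nat_lit 11, (.negSucc (nat_lit 20525397375)), (.negSucc (nat_lit 1504595967)), (.negSucc (nat_lit 20525397359)), (.negSucc (nat_lit 1504595983)), (.negSucc (nat_lit 10238073298756602058387)), (.ofNat (nat_lit 0)), (.ofNat (nat_lit 0))⟩]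

theorem ok142 : stOK 15 15 S142 = true := by decide +kernel

def S143 : SD where
  vs := [
    ⟨nat_lit 0, nat_lit 0, nat_lit 14, (.ofNat (nat_lit 8)), (.ofNat (nat_lit 9997800704)), (.ofNat (nat_lit 173979847101864059492618053126400)), (.ofNat (nat_lit 0)), (.ofNat (nat_lit 2676613032336370146035129438976)), (.ofNat (nat_lit 9997800688)), (.ofNat (nat_lit 9997800720)), (.negSucc (nat_lit 10398043194049673965549)), (.ofNat (nat_lit 10398043194049673965550)), (.negSucc (nat_lit 10398043194049673965549)), (.ofNat (nat_lit 10398043194049673965550)), (.ofNat (nat_lit 959819371758431442972))⟩,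
    ⟨nat_lit 2, nat_lit 0, nat_lit 1, (.ofNat (nat_lit 8)), (.ofNat (nat_lit 4314520320)), (.ofNat (nat_lit 233074842018591277062623859897600)), (.ofNat (nat_lit 0)), (.ofNat (nat_lit 3585766800286019647110393149184)), (.ofNat (nat_lit 4314520304)), (.ofNat (nat_lit 4314520336)), (.negSucc (nat_lit 10398043194049673965549)), (.ofNat (nat_lit 10398043194049673965550)), (.negSucc (nat_lit 10398043194049673965549)), (.ofNat (nat_lit 10398043194049673965550)), (.ofNat (nat_lit 959819371758431442972))⟩,
    ⟨nat_lit 1, nat_lit 1, nat_lit 2, (.ofNat (nat_lit 8)), (.ofNat (nat_lit 17539456960)), (.ofNat (nat_lit 370588304439881440269680152649600)), (.ofNat (nat_lit 0)), (.ofNat (nat_lit 5701358529844329850291805364864)), (.ofNat (nat_lit 17539456944)), (.ofNat (nat_lit 17539456976)), (.ofNat (nat_lit 10398043194049673965550)), (.negSucc (nat_lit 10398043194049673965549)), (.negSucc (nat_lit 10398043194049673965549)), (.ofNat (nat_lit 10398043194049673965550)), (.ofNat (nat_lit 959819371758431442972))⟩,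
    ⟨nat_lit 0, nat_lit 3, nat_lit 2, (.ofNat (nat_lit 8)), (.ofNat (nat_lit 1273161536)), (.ofNat (nat_lit 539725946865805995924198051292800)), (.ofNat (nat_lit 0)), (.ofNat (nat_lit 8303476105627784552663998791552)), (.ofNat (nat_lit 1273161520)), (.ofNat (nat_lit 1273161552)), (.ofNat (nat_lit 10398043194049673965550)), (.negSucc (nat_lit 10398043194049673965549)), (.negSucc (nat_lit 10398043194049673965549)), (.ofNat (nat_lit 10398043194049673965550)), (.ofNat (nat_lit 959819371758431442972))⟩,
    ⟨nat_lit 2, nat_lit 4, nat_lit 3, (.ofNat (nat_lit 8)), (.negSucc (nat_lit 22985425599)), (.ofNat (nat_lit 287484109999060223318512714128000)), (.ofNat (nat_lit 0)), (.ofNat (nat_lit 4422832461524003435660919323520)), (.negSucc (nat_lit 22985425615)), (.negSucc (nat_lit 22985425583)), (.negSucc (nat_lit 10398043194049673965549)), (.ofNat (nat_lit 10398043194049673965550)), (.negSucc (nat_lit 10398043194049673965549)), (.ofNat (nat_lit 10398043194049673965550)), (.ofNat (nat_lit 959819371758431442972))⟩,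
    ⟨nat_lit 0, nat_lit 5, nat_lit 6, (.ofNat (nat_lit 8)), (.ofNat (nat_lit 4310588160)), (.ofNat (nat_lit 472334888313492253419129287085184)), (.ofNat (nat_lit 0)), (.ofNat (nat_lit 7266867163158099033070349508224)), (.ofNat (nat_lit 4310588144)), (.ofNat (nat_lit 4310588176)), (.ofNat (nat_lit 10398050414728872217069)), (.negSucc (nat_lit 10398051925485126415283)), (.negSucc (nat_lit 10398051925485126415283)), (.ofNat (nat_lit 10398050414728872217069)), (.ofNat (nat_lit 959865717346129348516))⟩,
    ⟨nat_lit 0, nat_lit 6, nat_lit 7, (.ofNat (nat_lit 8)), (.ofNat (nat_lit 24849354816)), (.ofNat (nat_lit 258771726138981742376949459114880)), (.ofNat (nat_lit 0)), (.ofNat (nat_lit 3981103478833612607570941048448)), (.ofNat (nat_lit 24849354800)), (.ofNat (nat_lit 24849354832)), (.negSucc (nat_lit 10398051925485126415283)), (.ofNat (nat_lit 10398043194187184969710)), (.negSucc (nat_lit 10398051925485126415283)), (.ofNat (nat_lit 10398043194187184969710)), (.ofNat (nat_lit 959854297775263250228))⟩,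
    ⟨nat_lit 1, nat_lit 7, nat_lit 8, (.ofNat (nat_lit 8)), (.ofNat (nat_lit 26530688768)), (.ofNat (nat_lit 276254309195731185509826973708800)), (.ofNat (nat_lit 0)), (.ofNat (nat_lit 4250066295318941315527624852992)), (.ofNat (nat_lit 26530688752)), (.ofNat (nat_lit 26530688784)), (.ofNat (nat_lit 10398043194187184969710)), (.negSucc (nat_lit 10398043194049673965549)), (.negSucc (nat_lit 10398043194049673965549)), (.ofNat (nat_lit 10398043194187184969710)), (.ofNat (nat_lit 959819372308475459612))⟩,
    ⟨nat_lit 0, nat_lit 14, nat_lit 8, (.ofNat (nat_lit 8)), (.ofNat (nat_lit 23182211520)), (.ofNat (nat_lit 311071920254727767765289084515200)), (.ofNat (nat_lit 0)), (.ofNat (nat_lit 4785721850072734888687550103168)), (.ofNat (nat_lit 23182211504)), (.ofNat (nat_lit 23182211536)), (.ofNat (nat_lit 10398043194049673965550)), (.negSucc (nat_lit 10398043194049673965549)), (.negSucc (nat_lit 10398043194049673965549)), (.ofNat (nat_lit 10398043194049673965550)), (.ofNat (nat_lit 959819371758431442972))⟩,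
    ⟨nat_lit 1, nat_lit 9, nat_lit 13, (.ofNat (nat_lit 8)), (.negSucc (nat_lit 10553243007)), (.ofNat (nat_lit 387316135299485082952821217152000)), (.ofNat (nat_lit 0)), (.ofNat (nat_lit 5958709773838232045416557511680)), (.negSucc (nat_lit 10553243023)), (.negSucc (nat_lit 10553242991)), (.ofNat (nat_lit 10398043194049673965550)), (.negSucc (nat_lit 10398043194049673965549)), (.negSucc (nat_lit 10398043194049673965549)), (.ofNat (nat_lit 10398043194049673965550)), (.ofNat (nat_lit 959819371758431442972))⟩,
    ⟨nat_lit 0, nat_lit 4, nat_lit 9, (.ofNat (nat_lit 8)), (.negSucc (nat_lit 21569854143)), (.ofNat (nat_lit 272764936855308435806773806787200)), (.ofNat (nat_lit 0)), (.ofNat (nat_lit 4196383643927822089326910155648)), (.negSucc (nat_lit 21569854159)), (.negSucc (nat_lit 21569854127)), (.negSucc (nat_lit 10398043194049673965549)), (.ofNat (nat_lit 10398043194049673965550)), (.negSucc (nat_lit 10398043194049673965549)), (.ofNat (nat_lit 10398043194049673965550)), (.ofNat (nat_lit 959819371758431442972))⟩,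
    ⟨nat_lit 0, nat_lit 15, nat_lit 10, (.ofNat (nat_lit 8)), (.negSucc (nat_lit 1504595967)), (.ofNat (nat_lit 16309943984862325888536967276800)), (.ofNat (nat_lit 0)), (.ofNat (nat_lit 250922215151728090592393786112)), (.negSucc (nat_lit 1504595983)), (.negSucc (nat_lit 1504595951)), (.negSucc (nat_lit 10398043194049673965549)), (.ofNat (nat_lit 10398043194049673965550)), (.negSucc (nat_lit 10398043194049673965549)), (.ofNat (nat_lit 10398043194049673965550)), (.ofNat (nat_lit 959819371758431442972))⟩,
    ⟨nat_lit 1, nat_lit 10, nat_lit 11, (.ofNat (nat_lit 8)), (.ofNat (nat_lit 4803842432)), (.ofNat (nat_lit 81905358955063940640292864396800)), (.ofNat (nat_lit 0)), (.ofNat (nat_lit 1260082445462522163694389606912)), (.ofNat (nat_lit 4803842416)), (.ofNat (nat_lit 4803842448)), (.ofNat (nat_lit 10398043194049673965550)), (.negSucc (nat_lit 10398043194049673965549)), (.negSucc (nat_lit 10398043194049673965549)), (.ofNat (nat_lit 10398043194049673965550)), (.ofNat (nat_lit 959819371758431442972))⟩,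
    ⟨nat_lit 2, nat_lit 11, nat_lit 12, (.ofNat (nat_lit 8)), (.negSucc (nat_lit 18877607295)), (.ofNat (nat_lit 328146096124523843390255593267200)), (.ofNat (nat_lit 0)), (.ofNat (nat_lit 5048401478838828359840375758848)), (.negSucc (nat_lit 18877607311)), (.negSucc (nat_lit 18877607279)), (.negSucc (nat_lit 10398043194049673965549)), (.ofNat (nat_lit 10398043194049673965550)), (.negSucc (nat_lit 10398043194049673965549)), (.ofNat (nat_lit 10398043194049673965550)), (.ofNat (nat_lit 959819371758431442972))⟩,
    ⟨nat_lit 0, nat_lit 12, nat_lit 13, (.ofNat (nat_lit 8)), (.negSucc (nat_lit 11870176383)), (.ofNat (nat_lit 401009665426818743199972286348800)), (.ofNat (nat_lit 0)), (.ofNat (nat_lit 6169379468104903741526168750592)), (.negSucc (nat_lit 11870176399)), (.negSucc (nat_lit 11870176367)), (.ofNat (nat_lit 10398043194049673965550)), (.negSucc (nat_lit 10398043194049673965549)), (.negSucc (nat_lit 10398043194049673965549)), (.ofNat (nat_lit 10398043194049673965550)), (.ofNat (nat_lit 959819371758431442972))⟩,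
    ⟨nat_lit 2, nat_lit 15, nat_lit 5, (.ofNat (nat_lit 8)), (.negSucc (nat_lit 20525397375)), (.ofNat (nat_lit 214089058610687181674411350771200)), (.ofNat (nat_lit 0)), (.ofNat (nat_lit 3293677824779802794984608670208)), (.negSucc (nat_lit 20525397391)), (.negSucc (nat_lit 20525397359)), (.negSucc (nat_lit 10398043194049673965549)), (.ofNat (nat_lit 10398050414728872217069)), (.negSucc (nat_lit 10398043194049673965549)), (.ofNat (nat_lit 10398050414728872217069)), (.ofNat (nat_lit 959833813116827946010))⟩]
  es := [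
    ⟨nat_lit 1, nat_lit 0, (.ofNat (nat_lit 4314520320)), (.ofNat (nat_lit 9997800704)), (.ofNat (nat_lit 4314520336)), (.ofNat (nat_lit 9997800688)), (.negSucc (nat_lit 10398043194049673965549)), (.negSucc (nat_lit 159969895293071907161)), (.ofNat (nat_lit 4275960164116250745781995681024))⟩,
    ⟨nat_lit 1, nat_lit 2, (.ofNat (nat_lit 4314520320)), (.ofNat (nat_lit 17539456960)), (.ofNat (nat_lit 4314520336)), (.ofNat (nat_lit 17539456944)), (.ofNat (nat_lit 10398043194049673965550)), (.ofNat (nat_lit 159969895293071907162)), (.ofNat (nat_lit 2895573436455788548438790617344))⟩,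
    ⟨nat_lit 3, nat_lit 2, (.ofNat (nat_lit 1273161536)), (.ofNat (nat_lit 17539456960)), (.ofNat (nat_lit 1273161552)), (.ofNat (nat_lit 17539456944)), (.negSucc (nat_lit 10398043194049673965549)), (.negSucc (nat_lit 159969895293071907161)), (.ofNat (nat_lit 8507143623232871152144820112384))⟩,
    ⟨nat_lit 4, nat_lit 3, (.negSucc (nat_lit 22985425599)), (.ofNat (nat_lit 1273161536)), (.negSucc (nat_lit 22985425583)), (.ofNat (nat_lit 1273161520)), (.ofNat (nat_lit 10398043194049673965550)), (.ofNat (nat_lit 159969895293071907162)), (.ofNat (nat_lit 8099808588022697953183177470720))⟩,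
    ⟨nat_lit 4, nat_lit 10, (.negSucc (nat_lit 22985425599)), (.negSucc (nat_lit 21569854143)), (.negSucc (nat_lit 22985425583)), (.negSucc (nat_lit 21569854159)), (.negSucc (nat_lit 10398043194049673965549)), (.negSucc (nat_lit 159969895293071907161)), (.ofNat (nat_lit 745856335025308918138661176320))⟩,
    ⟨nat_lit 15, nat_lit 5, (.negSucc (nat_lit 20525397375)), (.ofNat (nat_lit 4310588160)), (.negSucc (nat_lit 20525397359)), (.ofNat (nat_lit 4310588144)), (.ofNat (nat_lit 10398050414728872217069)), (.ofNat (nat_lit 159977115972270158681)), (.ofNat (nat_lit 6577271701177084398738709691264))⟩,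
    ⟨nat_lit 5, nat_lit 6, (.ofNat (nat_lit 4310588160)), (.ofNat (nat_lit 24849354816)), (.ofNat (nat_lit 4310588176)), (.ofNat (nat_lit 24849354800)), (.negSucc (nat_lit 10398051925485126415283)), (.negSucc (nat_lit 159978626728524356895)), (.ofNat (nat_lit 7956469137387135660177861459584))⟩,
    ⟨nat_lit 6, nat_lit 7, (.ofNat (nat_lit 24849354816)), (.ofNat (nat_lit 26530688768)), (.ofNat (nat_lit 24849354832)), (.ofNat (nat_lit 26530688752)), (.ofNat (nat_lit 10398043194187184969710)), (.ofNat (nat_lit 159969895430582911322)), (.ofNat (nat_lit 5954787400640746424299421696))⟩,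
    ⟨nat_lit 8, nat_lit 7, (.ofNat (nat_lit 23182211520)), (.ofNat (nat_lit 26530688768)), (.ofNat (nat_lit 23182211536)), (.ofNat (nat_lit 26530688752)), (.negSucc (nat_lit 10398043194049673965549)), (.negSucc (nat_lit 159969895293071907161)), (.ofNat (nat_lit 8494177799588980231086837009408))⟩,
    ⟨nat_lit 10, nat_lit 9, (.negSucc (nat_lit 21569854143)), (.negSucc (nat_lit 10553243007)), (.negSucc (nat_lit 21569854127)), (.negSucc (nat_lit 10553243023)), (.ofNat (nat_lit 10398043194049673965550)), (.ofNat (nat_lit 159969895293071907162)), (.ofNat (nat_lit 7646910952830335260515159134976))⟩,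
    ⟨nat_lit 11, nat_lit 12, (.negSucc (nat_lit 1504595967)), (.ofNat (nat_lit 4803842432)), (.negSucc (nat_lit 1504595951)), (.ofNat (nat_lit 4803842416)), (.ofNat (nat_lit 10398043194049673965550)), (.ofNat (nat_lit 159969895293071907162)), (.ofNat (nat_lit 491612274611066260442409308928))⟩,
    ⟨nat_lit 13, nat_lit 12, (.negSucc (nat_lit 18877607295)), (.ofNat (nat_lit 4803842432)), (.negSucc (nat_lit 18877607279)), (.ofNat (nat_lit 4803842416)), (.negSucc (nat_lit 10398043194049673965549)), (.negSucc (nat_lit 159969895293071907161)), (.ofNat (nat_lit 2028552616313978066946369904896))⟩,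
    ⟨nat_lit 13, nat_lit 14, (.negSucc (nat_lit 18877607295)), (.negSucc (nat_lit 11870176383)), (.negSucc (nat_lit 18877607279)), (.negSucc (nat_lit 11870176399)), (.ofNat (nat_lit 10398043194049673965550)), (.ofNat (nat_lit 159969895293071907162)), (.ofNat (nat_lit 8068250341363678652734381612800))⟩,
    ⟨nat_lit 14, nat_lit 9, (.negSucc (nat_lit 11870176383)), (.negSucc (nat_lit 10553243007)), (.negSucc (nat_lit 11870176367)), (.negSucc (nat_lit 10553243023)), (.negSucc (nat_lit 10398043194049673965549)), (.negSucc (nat_lit 159969895293071907161)), (.ofNat (nat_lit 4270508594846128830317955888384))⟩,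
    ⟨nat_lit 0, nat_lit 8, (.ofNat (nat_lit 9997800704)), (.ofNat (nat_lit 23182211520)), (.ofNat (nat_lit 9997800720)), (.ofNat (nat_lit 23182211504)), (.ofNat (nat_lit 10398043194049673965550)), (.ofNat (nat_lit 159969895293071907162)), (.ofNat (nat_lit 1077265900556489546288263196928))⟩,
    ⟨nat_lit 15, nat_lit 11, (.negSucc (nat_lit 20525397375)), (.negSucc (nat_lit 1504595967)), (.negSucc (nat_lit 20525397359)), (.negSucc (nat_lit 1504595983)), (.negSucc (nat_lit 10398043194049673965549)), (.negSucc (nat_lit 159969895293071907161)), (.ofNat (nat_lit 10232155692389920742378263296))⟩]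

theorem ok143 : stOK 15 15 S143 = true := by decide +kernel

def S144 : SD where
  vs := [
    ⟨nat_lit 0, nat_lit 0, nat_lit 14, (.ofNat (nat_lit 8)), (.ofNat (nat_lit 21518179072)), (.ofNat (nat_lit 293780142122663793593721150905600)), (.ofNat (nat_lit 11520378368)), (.ofNat (nat_lit 119800295020799734101103097779200)), (.ofNat (nat_lit 21518179056)), (.ofNat (nat_lit 21518179088)), (.negSucc (nat_lit 10398043194049673965549)), (.ofNat (nat_lit 10398043194049673965550)), (.negSucc (nat_lit 10398043194049673965549)), (.ofNat (nat_lit 10398043194049673965550)), (.ofNat (nat_lit 0))⟩,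
    ⟨nat_lit 2, nat_lit 0, nat_lit 1, (.ofNat (nat_lit 8)), (.ofNat (nat_lit 15834636544)), (.ofNat (nat_lit 352877862824026072121458982816000)), (.ofNat (nat_lit 11520116224)), (.ofNat (nat_lit 119803020805434795058835122918400)), (.ofNat (nat_lit 15834636528)), (.ofNat (nat_lit 15834636560)), (.negSucc (nat_lit 10398043194049673965549)), (.ofNat (nat_lit 10398043194049673965550)), (.negSucc (nat_lit 10398043194049673965549)), (.ofNat (nat_lit 10398043194049673965550)), (.ofNat (nat_lit 0))⟩,
    ⟨nat_lit 1, nat_lit 1, nat_lit 2, (.ofNat (nat_lit 8)), (.ofNat (nat_lit 29060097472)), (.ofNat (nat_lit 490396776814586357243979325846400)), (.ofNat (nat_lit 11520640512)), (.ofNat (nat_lit 119808472374704916974299173196800)), (.ofNat (nat_lit 29060097456)), (.ofNat (nat_lit 29060097488)), (.ofNat (nat_lit 10398043194049673965550)), (.negSucc (nat_lit 10398043194049673965549)), (.negSucc (nat_lit 10398043194049673965549)), (.ofNat (nat_lit 10398043194049673965550)), (.ofNat (nat_lit 0))⟩,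
    ⟨nat_lit 0, nat_lit 3, nat_lit 2, (.ofNat (nat_lit 8)), (.ofNat (nat_lit 12792753472)), (.ofNat (nat_lit 659545322379051156729425325046400)), (.ofNat (nat_lit 11519591936)), (.ofNat (nat_lit 119819375513245160805227273753600)), (.ofNat (nat_lit 12792753456)), (.ofNat (nat_lit 12792753488)), (.ofNat (nat_lit 10398043194049673965550)), (.negSucc (nat_lit 10398043194049673965549)), (.negSucc (nat_lit 10398043194049673965549)), (.ofNat (nat_lit 10398043194049673965550)), (.ofNat (nat_lit 0))⟩,
    ⟨nat_lit 2, nat_lit 4, nat_lit 3, (.ofNat (nat_lit 8)), (.negSucc (nat_lit 22986998463)), (.ofNat (nat_lit 287505916276140710980368915241600)), (.negSucc (nat_lit 1572863)), (.ofNat (nat_lit 21806277080487661856201113600)), (.negSucc (nat_lit 22986998479)), (.negSucc (nat_lit 22986998447)), (.negSucc (nat_lit 10398043194049673965549)), (.ofNat (nat_lit 10398043194049673965550)), (.negSucc (nat_lit 10398043194049673965549)), (.ofNat (nat_lit 10398043194049673965550)), (.ofNat (nat_lit 0))⟩,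
    ⟨nat_lit 0, nat_lit 5, nat_lit 6, (.ofNat (nat_lit 8)), (.ofNat (nat_lit 4310588160)), (.ofNat (nat_lit 472356694598144171991971272985728)), (.ofNat (nat_lit 0)), (.ofNat (nat_lit 21806284651918572841985900544)), (.ofNat (nat_lit 4310588144)), (.ofNat (nat_lit 4310588176)), (.ofNat (nat_lit 10398050414728872217069)), (.negSucc (nat_lit 10398051925485126415283)), (.negSucc (nat_lit 10398051925485126415283)), (.ofNat (nat_lit 10398050414728872217069)), (.ofNat (nat_lit 0))⟩,
    ⟨nat_lit 0, nat_lit 6, nat_lit 7, (.ofNat (nat_lit 8)), (.ofNat (nat_lit 24850403392)), (.ofNat (nat_lit 258782629275937843457875412179840)), (.ofNat (nat_lit 1048576)), (.ofNat (nat_lit 10903136956101080925953064960)), (.ofNat (nat_lit 24850403376)), (.ofNat (nat_lit 24850403408)), (.negSucc (nat_lit 10398051925485126415283)), (.ofNat (nat_lit 10398043194187184969710)), (.negSucc (nat_lit 10398051925485126415283)), (.ofNat (nat_lit 10398043194187184969710)), (.ofNat (nat_lit 0))⟩,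
    ⟨nat_lit 1, nat_lit 7, nat_lit 8, (.ofNat (nat_lit 8)), (.ofNat (nat_lit 38051853568)), (.ofNat (nat_lit 396051878431895858653198046348800)), (.ofNat (nat_lit 11521164800)), (.ofNat (nat_lit 119797569236164673143371072640000)), (.ofNat (nat_lit 38051853552)), (.ofNat (nat_lit 38051853584)), (.ofNat (nat_lit 10398043194187184969710)), (.negSucc (nat_lit 10398043194049673965549)), (.negSucc (nat_lit 10398043194049673965549)), (.ofNat (nat_lit 10398043194187184969710)), (.ofNat (nat_lit 0))⟩,
    ⟨nat_lit 0, nat_lit 14, nat_lit 8, (.ofNat (nat_lit 8)), (.ofNat (nat_lit 34702852032)), (.ofNat (nat_lit 430874941060162562824124207433600)), (.ofNat (nat_lit 11520640512)), (.ofNat (nat_lit 119803020805434795058835122918400)), (.ofNat (nat_lit 34702852016)), (.ofNat (nat_lit 34702852048)), (.ofNat (nat_lit 10398043194049673965550)), (.negSucc (nat_lit 10398043194049673965549)), (.negSucc (nat_lit 10398043194049673965549)), (.ofNat (nat_lit 10398043194049673965550)), (.ofNat (nat_lit 0))⟩,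
    ⟨nat_lit 1, nat_lit 9, nat_lit 13, (.ofNat (nat_lit 8)), (.negSucc (nat_lit 10553767295)), (.ofNat (nat_lit 387337941576565570614677418265600)), (.negSucc (nat_lit 524287)), (.ofNat (nat_lit 21806277080487661856201113600)), (.negSucc (nat_lit 10553767311)), (.negSucc (nat_lit 10553767279)), (.ofNat (nat_lit 10398043194049673965550)), (.negSucc (nat_lit 10398043194049673965549)), (.negSucc (nat_lit 10398043194049673965549)), (.ofNat (nat_lit 10398043194049673965550)), (.ofNat (nat_lit 0))⟩,
    ⟨nat_lit 0, nat_lit 4, nat_lit 9, (.ofNat (nat_lit 8)), (.negSucc (nat_lit 21570902719)), (.ofNat (nat_lit 272781291563118801553165957622400)), (.negSucc (nat_lit 1048575)), (.ofNat (nat_lit 16354707810365746392150835200)), (.negSucc (nat_lit 21570902735)), (.negSucc (nat_lit 21570902703)), (.negSucc (nat_lit 10398043194049673965549)), (.ofNat (nat_lit 10398043194049673965550)), (.negSucc (nat_lit 10398043194049673965549)), (.ofNat (nat_lit 10398043194049673965550)), (.ofNat (nat_lit 0))⟩,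
    ⟨nat_lit 0, nat_lit 15, nat_lit 10, (.ofNat (nat_lit 8)), (.negSucc (nat_lit 1504858111)), (.ofNat (nat_lit 16312669769497386846268992416000)), (.negSucc (nat_lit 262143)), (.ofNat (nat_lit 2725784635060957732025139200)), (.negSucc (nat_lit 1504858127)), (.negSucc (nat_lit 1504858095)), (.negSucc (nat_lit 10398043194049673965549)), (.ofNat (nat_lit 10398043194049673965550)), (.negSucc (nat_lit 10398043194049673965549)), (.ofNat (nat_lit 10398043194049673965550)), (.ofNat (nat_lit 0))⟩,
    ⟨nat_lit 1, nat_lit 10, nat_lit 11, (.ofNat (nat_lit 8)), (.ofNat (nat_lit 4804104576)), (.ofNat (nat_lit 81913536308969123513488939814400)), (.ofNat (nat_lit 262144)), (.ofNat (nat_lit 8177353905182873196075417600)), (.ofNat (nat_lit 4804104560)), (.ofNat (nat_lit 4804104592)), (.ofNat (nat_lit 10398043194049673965550)), (.negSucc (nat_lit 10398043194049673965549)), (.negSucc (nat_lit 10398043194049673965549)), (.ofNat (nat_lit 10398043194049673965550)), (.ofNat (nat_lit 0))⟩,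
    ⟨nat_lit 2, nat_lit 11, nat_lit 12, (.ofNat (nat_lit 8)), (.negSucc (nat_lit 18878655871)), (.ofNat (nat_lit 328167902401604331052111794380800)), (.negSucc (nat_lit 1048575)), (.ofNat (nat_lit 21806277080487661856201113600)), (.negSucc (nat_lit 18878655887)), (.negSucc (nat_lit 18878655855)), (.negSucc (nat_lit 10398043194049673965549)), (.ofNat (nat_lit 10398043194049673965550)), (.negSucc (nat_lit 10398043194049673965549)), (.ofNat (nat_lit 10398043194049673965550)), (.ofNat (nat_lit 0))⟩,
    ⟨nat_lit 0, nat_lit 12, nat_lit 13, (.ofNat (nat_lit 8)), (.negSucc (nat_lit 11870962815)), (.ofNat (nat_lit 401034197488534291819560512601600)), (.negSucc (nat_lit 786431)), (.ofNat (nat_lit 24532061715548619588226252800)), (.negSucc (nat_lit 11870962831)), (.negSucc (nat_lit 11870962799)), (.ofNat (nat_lit 10398043194049673965550)), (.negSucc (nat_lit 10398043194049673965549)), (.negSucc (nat_lit 10398043194049673965549)), (.ofNat (nat_lit 10398043194049673965550)), (.ofNat (nat_lit 0))⟩,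
    ⟨nat_lit 2, nat_lit 15, nat_lit 5, (.ofNat (nat_lit 8)), (.negSucc (nat_lit 20526445951)), (.ofNat (nat_lit 214099961749227425505339451328000)), (.negSucc (nat_lit 1048575)), (.ofNat (nat_lit 10903138540243830928100556800)), (.negSucc (nat_lit 20526445967)), (.negSucc (nat_lit 20526445935)), (.negSucc (nat_lit 10398043194049673965549)), (.ofNat (nat_lit 10398050414728872217069)), (.negSucc (nat_lit 10398043194049673965549)), (.ofNat (nat_lit 10398050414728872217069)), (.ofNat (nat_lit 0))⟩]
  es := [
    ⟨nat_lit 1, nat_lit 0, (.ofNat (nat_lit 15834636544)), (.ofNat (nat_lit 21518179072)), (.ofNat (nat_lit 15834636560)), (.ofNat (nat_lit 21518179056)), (.negSucc (nat_lit 10398043194049673965549)), (.ofNat (nat_lit 0)), (.ofNat (nat_lit 239589686903059224371278095001600))⟩,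
    ⟨nat_lit 1, nat_lit 2, (.ofNat (nat_lit 15834636544)), (.ofNat (nat_lit 29060097472)), (.ofNat (nat_lit 15834636560)), (.ofNat (nat_lit 29060097456)), (.ofNat (nat_lit 10398043194049673965550)), (.ofNat (nat_lit 0)), (.ofNat (nat_lit 16354707810365746392150835200))⟩,
    ⟨nat_lit 3, nat_lit 2, (.ofNat (nat_lit 12792753472)), (.ofNat (nat_lit 29060097472)), (.ofNat (nat_lit 12792753488)), (.ofNat (nat_lit 29060097456)), (.negSucc (nat_lit 10398043194049673965549)), (.ofNat (nat_lit 0)), (.ofNat (nat_lit 239600590041599468202206195558400))⟩,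
    ⟨nat_lit 4, nat_lit 3, (.negSucc (nat_lit 22986998463)), (.ofNat (nat_lit 12792753472)), (.negSucc (nat_lit 22986998447)), (.ofNat (nat_lit 12792753456)), (.ofNat (nat_lit 10398043194049673965550)), (.ofNat (nat_lit 0)), (.ofNat (nat_lit 38160984890853408248351948800))⟩,
    ⟨nat_lit 4, nat_lit 10, (.negSucc (nat_lit 22986998463)), (.negSucc (nat_lit 21570902719)), (.negSucc (nat_lit 22986998447)), (.negSucc (nat_lit 21570902735)), (.negSucc (nat_lit 10398043194049673965549)), (.ofNat (nat_lit 0)), (.ofNat (nat_lit 5451569270121915464050278400))⟩,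
    ⟨nat_lit 15, nat_lit 5, (.negSucc (nat_lit 20526445951)), (.ofNat (nat_lit 4310588160)), (.negSucc (nat_lit 20526445935)), (.ofNat (nat_lit 4310588144)), (.ofNat (nat_lit 10398050414728872217069)), (.ofNat (nat_lit 0)), (.ofNat (nat_lit 21806284651918572841985900544))⟩,
    ⟨nat_lit 5, nat_lit 6, (.ofNat (nat_lit 4310588160)), (.ofNat (nat_lit 24850403392)), (.ofNat (nat_lit 4310588176)), (.ofNat (nat_lit 24850403376)), (.negSucc (nat_lit 10398051925485126415283)), (.ofNat (nat_lit 0)), (.ofNat (nat_lit 21806284651918572841985900544))⟩,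
    ⟨nat_lit 6, nat_lit 7, (.ofNat (nat_lit 24850403392)), (.ofNat (nat_lit 38051853568)), (.ofNat (nat_lit 24850403408)), (.ofNat (nat_lit 38051853552)), (.ofNat (nat_lit 10398043194187184969710)), (.ofNat (nat_lit 0)), (.negSucc (nat_lit 1584286940740845567999))⟩,
    ⟨nat_lit 8, nat_lit 7, (.ofNat (nat_lit 34702852032)), (.ofNat (nat_lit 38051853568)), (.ofNat (nat_lit 34702852048)), (.ofNat (nat_lit 38051853552)), (.negSucc (nat_lit 10398043194049673965549)), (.ofNat (nat_lit 0)), (.ofNat (nat_lit 239595138472329346286742145280000))⟩,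
    ⟨nat_lit 10, nat_lit 9, (.negSucc (nat_lit 21570902719)), (.negSucc (nat_lit 10553767295)), (.negSucc (nat_lit 21570902703)), (.negSucc (nat_lit 10553767311)), (.ofNat (nat_lit 10398043194049673965550)), (.ofNat (nat_lit 0)), (.ofNat (nat_lit 27257846350609577320251392000))⟩,
    ⟨nat_lit 11, nat_lit 12, (.negSucc (nat_lit 1504858111)), (.ofNat (nat_lit 4804104576)), (.negSucc (nat_lit 1504858095)), (.ofNat (nat_lit 4804104560)), (.ofNat (nat_lit 10398043194049673965550)), (.ofNat (nat_lit 0)), (.ofNat (nat_lit 5451569270121915464050278400))⟩,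
    ⟨nat_lit 13, nat_lit 12, (.negSucc (nat_lit 18878655871)), (.ofNat (nat_lit 4804104576)), (.negSucc (nat_lit 18878655855)), (.ofNat (nat_lit 4804104560)), (.negSucc (nat_lit 10398043194049673965549)), (.ofNat (nat_lit 0)), (.ofNat (nat_lit 10903138540243830928100556800))⟩,
    ⟨nat_lit 13, nat_lit 14, (.negSucc (nat_lit 18878655871)), (.negSucc (nat_lit 11870962815)), (.negSucc (nat_lit 18878655855)), (.negSucc (nat_lit 11870962831)), (.ofNat (nat_lit 10398043194049673965550)), (.ofNat (nat_lit 0)), (.ofNat (nat_lit 32709415620731492784301670400))⟩,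
    ⟨nat_lit 14, nat_lit 9, (.negSucc (nat_lit 11870962815)), (.negSucc (nat_lit 10553767295)), (.negSucc (nat_lit 11870962799)), (.negSucc (nat_lit 10553767311)), (.negSucc (nat_lit 10398043194049673965549)), (.ofNat (nat_lit 0)), (.ofNat (nat_lit 16354707810365746392150835200))⟩,
    ⟨nat_lit 0, nat_lit 8, (.ofNat (nat_lit 21518179072)), (.ofNat (nat_lit 34702852032)), (.ofNat (nat_lit 21518179088)), (.ofNat (nat_lit 34702852016)), (.ofNat (nat_lit 10398043194049673965550)), (.ofNat (nat_lit 0)), (.ofNat (nat_lit 10903138540243830928100556800))⟩,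
    ⟨nat_lit 15, nat_lit 11, (.negSucc (nat_lit 20526445951)), (.negSucc (nat_lit 1504858111)), (.negSucc (nat_lit 20526445935)), (.negSucc (nat_lit 1504858127)), (.negSucc (nat_lit 10398043194049673965549)), (.ofNat (nat_lit 0)), (.ofNat (nat_lit 0))⟩]

theorem ok144 : stOK 15 15 S144 = true := by decide +kernel

def S145 : SD where
  vs := [
    ⟨nat_lit 0, nat_lit 0, nat_lit 14, (.ofNat (nat_lit 8)), (.ofNat (nat_lit 21518179072)), (.ofNat (nat_lit 298370456843330415368602736752512)), (.ofNat (nat_lit 0)), (.ofNat (nat_lit 4590314720666621774881585846912)), (.ofNat (nat_lit 21518179056)), (.ofNat (nat_lit 21518179088)), (.negSucc (nat_lit 10560512618956700121260)), (.ofNat (nat_lit 10560512618956700121261)), (.negSucc (nat_lit 10560512618956700121260)), (.ofNat (nat_lit 10560512618956700121261)), (.ofNat (nat_lit 974816549442156934266))⟩,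
    ⟨nat_lit 2, nat_lit 0, nat_lit 1, (.ofNat (nat_lit 8)), (.ofNat (nat_lit 15834636544)), (.ofNat (nat_lit 358391579430651479498332387240320)), (.ofNat (nat_lit 0)), (.ofNat (nat_lit 5513716606625407376873404424320)), (.ofNat (nat_lit 15834636528)), (.ofNat (nat_lit 15834636560)), (.negSucc (nat_lit 10560512618956700121260)), (.ofNat (nat_lit 10560512618956700121261)), (.negSucc (nat_lit 10560512618956700121260)), (.ofNat (nat_lit 10560512618956700121261)), (.ofNat (nat_lit 974816549442156934266))⟩,
    ⟨nat_lit 1, nat_lit 1, nat_lit 2, (.ofNat (nat_lit 8)), (.ofNat (nat_lit 29060097472)), (.ofNat (nat_lit 498059226452314269075882604830528)), (.ofNat (nat_lit 0)), (.ofNat (nat_lit 7662449637727911831903278984128)), (.ofNat (nat_lit 29060097456)), (.ofNat (nat_lit 29060097488)), (.ofNat (nat_lit 10560512618956700121261)), (.negSucc (nat_lit 10560512618956700121260)), (.negSucc (nat_lit 10560512618956700121260)), (.ofNat (nat_lit 10560512618956700121261)), (.ofNat (nat_lit 974816549442156934266))⟩,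
    ⟨nat_lit 0, nat_lit 3, nat_lit 2, (.ofNat (nat_lit 8)), (.ofNat (nat_lit 12792753472)), (.ofNat (nat_lit 669850718041223831053277005614528)), (.ofNat (nat_lit 0)), (.ofNat (nat_lit 10305395662172674323851680568128)), (.ofNat (nat_lit 12792753456)), (.ofNat (nat_lit 12792753488)), (.ofNat (nat_lit 10560512618956700121261)), (.negSucc (nat_lit 10560512618956700121260)), (.negSucc (nat_lit 10560512618956700121260)), (.ofNat (nat_lit 10560512618956700121261)), (.ofNat (nat_lit 974816549442156934266))⟩,
    ⟨nat_lit 2, nat_lit 4, nat_lit 3, (.ofNat (nat_lit 8)), (.negSucc (nat_lit 22986998463)), (.ofNat (nat_lit 291998196217955409589417306103232)), (.ofNat (nat_lit 0)), (.ofNat (nat_lit 4492279941814698609048390861632)), (.negSucc (nat_lit 22986998479)), (.negSucc (nat_lit 22986998447)), (.negSucc (nat_lit 10560512618956700121260)), (.ofNat (nat_lit 10560512618956700121261)), (.negSucc (nat_lit 10560512618956700121260)), (.ofNat (nat_lit 10560512618956700121261)), (.ofNat (nat_lit 974816549442156934266))⟩,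
    ⟨nat_lit 0, nat_lit 5, nat_lit 6, (.ofNat (nat_lit 8)), (.ofNat (nat_lit 4310588160)), (.ofNat (nat_lit 479737085808793122791559574353792)), (.ofNat (nat_lit 0)), (.ofNat (nat_lit 7380391210648950799588301368064)), (.ofNat (nat_lit 4310588144)), (.ofNat (nat_lit 4310588176)), (.ofNat (nat_lit 10560512618956700121261)), (.negSucc (nat_lit 10560512618956700121260)), (.negSucc (nat_lit 10560512618956700121260)), (.ofNat (nat_lit 10560512618956700121261)), (.ofNat (nat_lit 974770203854459028722))⟩,
    ⟨nat_lit 0, nat_lit 6, nat_lit 7, (.ofNat (nat_lit 8)), (.ofNat (nat_lit 24850403392)), (.ofNat (nat_lit 262826107860218081692426639506240)), (.ofNat (nat_lit 0)), (.ofNat (nat_lit 4043478584280238234551227326400)), (.ofNat (nat_lit 24850403376)), (.ofNat (nat_lit 24850403408)), (.negSucc (nat_lit 10560512618956700121260)), (.ofNat (nat_lit 10560512618956700121261)), (.negSucc (nat_lit 10560512618956700121260)), (.ofNat (nat_lit 10560512618956700121261)), (.ofNat (nat_lit 974781623425325127010))⟩,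
    ⟨nat_lit 1, nat_lit 7, nat_lit 8, (.ofNat (nat_lit 8)), (.ofNat (nat_lit 38051853568)), (.ofNat (nat_lit 402240189032394231444626889298176)), (.ofNat (nat_lit 0)), (.ofNat (nat_lit 6188310600498372791428842949376)), (.ofNat (nat_lit 38051853552)), (.ofNat (nat_lit 38051853584)), (.ofNat (nat_lit 10560512618956700121261)), (.negSucc (nat_lit 10560512618956700121260)), (.negSucc (nat_lit 10560512618956700121260)), (.ofNat (nat_lit 10560512618956700121261)), (.ofNat (nat_lit 974816548892112917626))⟩,
    ⟨nat_lit 0, nat_lit 14, nat_lit 8, (.ofNat (nat_lit 8)), (.ofNat (nat_lit 34702852032)), (.ofNat (nat_lit 437607362014227602868221364555072)), (.ofNat (nat_lit 0)), (.ofNat (nat_lit 6732420954065040044097157121472)), (.ofNat (nat_lit 34702852016)), (.ofNat (nat_lit 34702852048)), (.ofNat (nat_lit 10560512618956700121261)), (.negSucc (nat_lit 10560512618956700121260)), (.negSucc (nat_lit 10560512618956700121260)), (.ofNat (nat_lit 10560512618956700121261)), (.ofNat (nat_lit 974816549442156934266))⟩,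
    ⟨nat_lit 1, nat_lit 9, nat_lit 13, (.ofNat (nat_lit 8)), (.negSucc (nat_lit 10553767295)), (.ofNat (nat_lit 393390096913699407655504978739712)), (.ofNat (nat_lit 0)), (.ofNat (nat_lit 6052155337133837040827560474112)), (.negSucc (nat_lit 10553767311)), (.negSucc (nat_lit 10553767279)), (.ofNat (nat_lit 10560512618956700121261)), (.negSucc (nat_lit 10560512618956700121260)), (.negSucc (nat_lit 10560512618956700121260)), (.ofNat (nat_lit 10560512618956700121261)), (.ofNat (nat_lit 974816549442156934266))⟩,
    ⟨nat_lit 0, nat_lit 4, nat_lit 9, (.ofNat (nat_lit 8)), (.negSucc (nat_lit 21570902719)), (.ofNat (nat_lit 277043499243792532827415320090048)), (.ofNat (nat_lit 0)), (.ofNat (nat_lit 4262207680673731274249362467648)), (.negSucc (nat_lit 21570902735)), (.negSucc (nat_lit 21570902703)), (.negSucc (nat_lit 10560512618956700121260)), (.ofNat (nat_lit 10560512618956700121261)), (.negSucc (nat_lit 10560512618956700121260)), (.ofNat (nat_lit 10560512618956700121261)), (.ofNat (nat_lit 974816549442156934266))⟩,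
    ⟨nat_lit 0, nat_lit 15, nat_lit 10, (.ofNat (nat_lit 8)), (.negSucc (nat_lit 1504858111)), (.ofNat (nat_lit 16567555234645783515740817832320)), (.ofNat (nat_lit 0)), (.ofNat (nat_lit 254885465148396669471825416320)), (.negSucc (nat_lit 1504858127)), (.negSucc (nat_lit 1504858095)), (.negSucc (nat_lit 10560512618956700121260)), (.ofNat (nat_lit 10560512618956700121261)), (.negSucc (nat_lit 10560512618956700121260)), (.ofNat (nat_lit 10560512618956700121261)), (.ofNat (nat_lit 974816549442156934266))⟩,
    ⟨nat_lit 1, nat_lit 10, nat_lit 11, (.ofNat (nat_lit 8)), (.ofNat (nat_lit 4804104576)), (.ofNat (nat_lit 83193435313796766068381542341888)), (.ofNat (nat_lit 0)), (.ofNat (nat_lit 1279899004827642554892602527488)), (.ofNat (nat_lit 4804104560)), (.ofNat (nat_lit 4804104592)), (.ofNat (nat_lit 10560512618956700121261)), (.negSucc (nat_lit 10560512618956700121260)), (.negSucc (nat_lit 10560512618956700121260)), (.ofNat (nat_lit 10560512618956700121261)), (.ofNat (nat_lit 974816549442156934266))⟩,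
    ⟨nat_lit 2, nat_lit 11, nat_lit 12, (.ofNat (nat_lit 8)), (.negSucc (nat_lit 18878655871)), (.ofNat (nat_lit 333295525876629398724778357026816)), (.ofNat (nat_lit 0)), (.ofNat (nat_lit 5127623475025067672666562646016)), (.negSucc (nat_lit 18878655887)), (.negSucc (nat_lit 18878655855)), (.negSucc (nat_lit 10560512618956700121260)), (.ofNat (nat_lit 10560512618956700121261)), (.negSucc (nat_lit 10560512618956700121260)), (.ofNat (nat_lit 10560512618956700121261)), (.ofNat (nat_lit 974816549442156934266))⟩,
    ⟨nat_lit 0, nat_lit 12, nat_lit 13, (.ofNat (nat_lit 8)), (.negSucc (nat_lit 11870962815)), (.ofNat (nat_lit 407300356824292640129213424690432)), (.ofNat (nat_lit 0)), (.ofNat (nat_lit 6266159335758348309652912088832)), (.negSucc (nat_lit 11870962831)), (.negSucc (nat_lit 11870962799)), (.ofNat (nat_lit 10560512618956700121261)), (.negSucc (nat_lit 10560512618956700121260)), (.negSucc (nat_lit 10560512618956700121260)), (.ofNat (nat_lit 10560512618956700121261)), (.ofNat (nat_lit 974816549442156934266))⟩,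
    ⟨nat_lit 2, nat_lit 15, nat_lit 5, (.ofNat (nat_lit 8)), (.negSucc (nat_lit 20526445951)), (.ofNat (nat_lit 217445273651559104028845580898560)), (.ofNat (nat_lit 0)), (.ofNat (nat_lit 3345311902331678523506129570560)), (.negSucc (nat_lit 20526445967)), (.negSucc (nat_lit 20526445935)), (.negSucc (nat_lit 10560512618956700121260)), (.ofNat (nat_lit 10560512618956700121261)), (.negSucc (nat_lit 10560512618956700121260)), (.ofNat (nat_lit 10560512618956700121261)), (.ofNat (nat_lit 974802108083760431228))⟩]
  es := [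
    ⟨nat_lit 1, nat_lit 0, (.ofNat (nat_lit 15834636544)), (.ofNat (nat_lit 21518179072)), (.ofNat (nat_lit 15834636560)), (.ofNat (nat_lit 21518179056)), (.negSucc (nat_lit 10560512618956700121260)), (.negSucc (nat_lit 162469424907026155710)), (.ofNat (nat_lit 8086360899540867544458639327104))⟩,
    ⟨nat_lit 1, nat_lit 2, (.ofNat (nat_lit 15834636544)), (.ofNat (nat_lit 29060097472)), (.ofNat (nat_lit 15834636560)), (.ofNat (nat_lit 29060097456)), (.ofNat (nat_lit 10560512618956700121261)), (.ofNat (nat_lit 162469424907026155711)), (.ofNat (nat_lit 2941072313709947209288169521536))⟩,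
    ⟨nat_lit 3, nat_lit 2, (.ofNat (nat_lit 12792753472)), (.ofNat (nat_lit 29060097472)), (.ofNat (nat_lit 12792753488)), (.ofNat (nat_lit 29060097456)), (.negSucc (nat_lit 10560512618956700121260)), (.negSucc (nat_lit 162469424907026155710)), (.ofNat (nat_lit 12383826961745876454518388446720))⟩,
    ⟨nat_lit 4, nat_lit 3, (.negSucc (nat_lit 22986998463)), (.ofNat (nat_lit 12792753472)), (.negSucc (nat_lit 22986998447)), (.ofNat (nat_lit 12792753456)), (.ofNat (nat_lit 10560512618956700121261)), (.ofNat (nat_lit 162469424907026155711)), (.ofNat (nat_lit 8226964362599472193184972689536))⟩,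
    ⟨nat_lit 4, nat_lit 10, (.negSucc (nat_lit 22986998463)), (.negSucc (nat_lit 21570902719)), (.negSucc (nat_lit 22986998447)), (.negSucc (nat_lit 21570902735)), (.negSucc (nat_lit 10560512618956700121260)), (.negSucc (nat_lit 162469424907026155710)), (.ofNat (nat_lit 757595521029925024911809033728))⟩,
    ⟨nat_lit 15, nat_lit 5, (.negSucc (nat_lit 20526445951)), (.ofNat (nat_lit 4310588160)), (.negSucc (nat_lit 20526445935)), (.ofNat (nat_lit 4310588144)), (.ofNat (nat_lit 10560512618956700121261)), (.ofNat (nat_lit 162462204227827904192)), (.ofNat (nat_lit 6680083556656973893260651801344))⟩,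
    ⟨nat_lit 5, nat_lit 6, (.ofNat (nat_lit 4310588160)), (.ofNat (nat_lit 24850403392)), (.ofNat (nat_lit 4310588176)), (.ofNat (nat_lit 24850403376)), (.negSucc (nat_lit 10560512618956700121260)), (.negSucc (nat_lit 162460693471573705976)), (.ofNat (nat_lit 8080692352392905713140078800384))⟩,
    ⟨nat_lit 6, nat_lit 7, (.ofNat (nat_lit 24850403392)), (.ofNat (nat_lit 38051853568)), (.ofNat (nat_lit 24850403408)), (.ofNat (nat_lit 38051853552)), (.ofNat (nat_lit 10560512618956700121261)), (.ofNat (nat_lit 162469424769515151551)), (.ofNat (nat_lit 6047839891590094252862865408))⟩,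
    ⟨nat_lit 8, nat_lit 7, (.ofNat (nat_lit 34702852032)), (.ofNat (nat_lit 38051853568)), (.ofNat (nat_lit 34702852048)), (.ofNat (nat_lit 38051853552)), (.negSucc (nat_lit 10560512618956700121260)), (.negSucc (nat_lit 162469424907026155710)), (.ofNat (nat_lit 12370573366337704082889781876224))⟩,
    ⟨nat_lit 10, nat_lit 9, (.negSucc (nat_lit 21570902719)), (.negSucc (nat_lit 10553767295)), (.negSucc (nat_lit 21570902703)), (.negSucc (nat_lit 10553767311)), (.ofNat (nat_lit 10560512618956700121261)), (.ofNat (nat_lit 162469424907026155711)), (.ofNat (nat_lit 7766819840317537523586915901568))⟩,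
    ⟨nat_lit 11, nat_lit 12, (.negSucc (nat_lit 1504858111)), (.ofNat (nat_lit 4804104576)), (.negSucc (nat_lit 1504858095)), (.ofNat (nat_lit 4804104560)), (.ofNat (nat_lit 10560512618956700121261)), (.ofNat (nat_lit 162469424907026155711)), (.ofNat (nat_lit 499378897171709825689698893952))⟩,
    ⟨nat_lit 13, nat_lit 12, (.negSucc (nat_lit 18878655871)), (.ofNat (nat_lit 4804104576)), (.negSucc (nat_lit 18878655855)), (.ofNat (nat_lit 4804104560)), (.negSucc (nat_lit 10560512618956700121260)), (.negSucc (nat_lit 162469424907026155710)), (.ofNat (nat_lit 2060419112483575284095506161024))⟩,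
    ⟨nat_lit 13, nat_lit 14, (.negSucc (nat_lit 18878655871)), (.negSucc (nat_lit 11870962815)), (.negSucc (nat_lit 18878655855)), (.negSucc (nat_lit 11870962831)), (.ofNat (nat_lit 10560512618956700121261)), (.ofNat (nat_lit 162469424907026155711)), (.ofNat (nat_lit 8194827837566560061237619131008))⟩,
    ⟨nat_lit 14, nat_lit 9, (.negSucc (nat_lit 11870962815)), (.negSucc (nat_lit 10553767295)), (.negSucc (nat_lit 11870962799)), (.negSucc (nat_lit 10553767311)), (.negSucc (nat_lit 10560512618956700121260)), (.negSucc (nat_lit 162469424907026155710)), (.ofNat (nat_lit 4337490833950136558068205046656))⟩,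
    ⟨nat_lit 0, nat_lit 8, (.ofNat (nat_lit 21518179072)), (.ofNat (nat_lit 34702852032)), (.ofNat (nat_lit 21518179088)), (.ofNat (nat_lit 34702852016)), (.ofNat (nat_lit 10560512618956700121261)), (.ofNat (nat_lit 162469424907026155711)), (.ofNat (nat_lit 1094268541792376005304532366720))⟩,
    ⟨nat_lit 15, nat_lit 11, (.negSucc (nat_lit 20526445951)), (.negSucc (nat_lit 1504858111)), (.negSucc (nat_lit 20526445935)), (.negSucc (nat_lit 1504858127)), (.negSucc (nat_lit 10560512618956700121260)), (.negSucc (nat_lit 162469424907026155710)), (.ofNat (nat_lit 10392033125083513253951938688))⟩]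

theorem ok145 : stOK 15 15 S145 = true := by decide +kernel

def S146 : SD where
  vs := [
    ⟨nat_lit 0, nat_lit 0, nat_lit 14, (.ofNat (nat_lit 8)), (.ofNat (nat_lit 34703638400)), (.ofNat (nat_lit 437626739963494681751368671699456)), (.ofNat (nat_lit 13185459328)), (.ofNat (nat_lit 139256283120164266382765934946944)), (.ofNat (nat_lit 34703638384)), (.ofNat (nat_lit 34703638416)), (.negSucc (nat_lit 10560512618956700121260)), (.ofNat (nat_lit 10560512618956700121261)), (.negSucc (nat_lit 10560512618956700121260)), (.ofNat (nat_lit 10560512618956700121261)), (.ofNat (nat_lit 0))⟩,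
    ⟨nat_lit 2, nat_lit 0, nat_lit 1, (.ofNat (nat_lit 8)), (.ofNat (nat_lit 29019833728)), (.ofNat (nat_lit 497650630925835729666294910030848)), (.ofNat (nat_lit 13185197184)), (.ofNat (nat_lit 139259051495184250167962522790528)), (.ofNat (nat_lit 29019833712)), (.ofNat (nat_lit 29019833744)), (.negSucc (nat_lit 10560512618956700121260)), (.ofNat (nat_lit 10560512618956700121261)), (.negSucc (nat_lit 10560512618956700121260)), (.ofNat (nat_lit 10560512618956700121261)), (.ofNat (nat_lit 0))⟩,
    ⟨nat_lit 1, nat_lit 1, nat_lit 2, (.ofNat (nat_lit 8)), (.ofNat (nat_lit 42245556800)), (.ofNat (nat_lit 637321046322518503029041715464640)), (.ofNat (nat_lit 13185459328)), (.ofNat (nat_lit 139261819870204233953159110634112)), (.ofNat (nat_lit 42245556784)), (.ofNat (nat_lit 42245556816)), (.ofNat (nat_lit 10560512618956700121261)), (.negSucc (nat_lit 10560512618956700121260)), (.negSucc (nat_lit 10560512618956700121260)), (.ofNat (nat_lit 10560512618956700121261)), (.ofNat (nat_lit 0))⟩,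
    ⟨nat_lit 0, nat_lit 3, nat_lit 2, (.ofNat (nat_lit 8)), (.ofNat (nat_lit 25977164224)), (.ofNat (nat_lit 809123611411508000147222467622976)), (.ofNat (nat_lit 13184410752)), (.ofNat (nat_lit 139272893370284169093945462008448)), (.ofNat (nat_lit 25977164208)), (.ofNat (nat_lit 25977164240)), (.ofNat (nat_lit 10560512618956700121261)), (.negSucc (nat_lit 10560512618956700121260)), (.negSucc (nat_lit 10560512618956700121260)), (.ofNat (nat_lit 10560512618956700121261)), (.ofNat (nat_lit 0))⟩,
    ⟨nat_lit 2, nat_lit 4, nat_lit 3, (.ofNat (nat_lit 8)), (.negSucc (nat_lit 22988571327)), (.ofNat (nat_lit 292020343218115279870990008851904)), (.negSucc (nat_lit 1572863)), (.ofNat (nat_lit 22147000159870281572702748672)), (.negSucc (nat_lit 22988571343)), (.negSucc (nat_lit 22988571311)), (.negSucc (nat_lit 10560512618956700121260)), (.ofNat (nat_lit 10560512618956700121261)), (.negSucc (nat_lit 10560512618956700121260)), (.ofNat (nat_lit 10560512618956700121261)), (.ofNat (nat_lit 0))⟩,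
    ⟨nat_lit 0, nat_lit 5, nat_lit 6, (.ofNat (nat_lit 8)), (.ofNat (nat_lit 4310588160)), (.ofNat (nat_lit 479759232808952993073132277102464)), (.ofNat (nat_lit 0)), (.ofNat (nat_lit 22147000159870281572702748672)), (.ofNat (nat_lit 4310588144)), (.ofNat (nat_lit 4310588176)), (.ofNat (nat_lit 10560512618956700121261)), (.negSucc (nat_lit 10560512618956700121260)), (.negSucc (nat_lit 10560512618956700121260)), (.ofNat (nat_lit 10560512618956700121261)), (.ofNat (nat_lit 0))⟩,
    ⟨nat_lit 0, nat_lit 6, nat_lit 7, (.ofNat (nat_lit 8)), (.ofNat (nat_lit 24851451968)), (.ofNat (nat_lit 262837181360298016833212990880576)), (.ofNat (nat_lit 1048576)), (.ofNat (nat_lit 11073500079935140786351374336)), (.ofNat (nat_lit 24851451952)), (.ofNat (nat_lit 24851451984)), (.negSucc (nat_lit 10560512618956700121260)), (.ofNat (nat_lit 10560512618956700121261)), (.negSucc (nat_lit 10560512618956700121260)), (.ofNat (nat_lit 10560512618956700121261)), (.ofNat (nat_lit 0))⟩,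
    ⟨nat_lit 1, nat_lit 7, nat_lit 8, (.ofNat (nat_lit 8)), (.ofNat (nat_lit 38053164288)), (.ofNat (nat_lit 402254030907494150370609828516096)), (.ofNat (nat_lit 1310720)), (.ofNat (nat_lit 13841875099918925982939217920)), (.ofNat (nat_lit 38053164272)), (.ofNat (nat_lit 38053164304)), (.ofNat (nat_lit 10560512618956700121261)), (.negSucc (nat_lit 10560512618956700121260)), (.negSucc (nat_lit 10560512618956700121260)), (.ofNat (nat_lit 10560512618956700121261)), (.ofNat (nat_lit 0))⟩,
    ⟨nat_lit 0, nat_lit 14, nat_lit 8, (.ofNat (nat_lit 8)), (.ofNat (nat_lit 34703638464)), (.ofNat (nat_lit 437626740639367489364597479460160)), (.ofNat (nat_lit 786432)), (.ofNat (nat_lit 19378625139886496376114905088)), (.ofNat (nat_lit 34703638448)), (.ofNat (nat_lit 34703638480)), (.ofNat (nat_lit 10560512618956700121261)), (.negSucc (nat_lit 10560512618956700121260)), (.negSucc (nat_lit 10560512618956700121260)), (.ofNat (nat_lit 10560512618956700121261)), (.ofNat (nat_lit 0))⟩,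
    ⟨nat_lit 1, nat_lit 9, nat_lit 13, (.ofNat (nat_lit 8)), (.negSucc (nat_lit 10554291583)), (.ofNat (nat_lit 393412243913859277937077681488384)), (.negSucc (nat_lit 524287)), (.ofNat (nat_lit 22147000159870281572702748672)), (.negSucc (nat_lit 10554291599)), (.negSucc (nat_lit 10554291567)), (.ofNat (nat_lit 10560512618956700121261)), (.negSucc (nat_lit 10560512618956700121260)), (.negSucc (nat_lit 10560512618956700121260)), (.ofNat (nat_lit 10560512618956700121261)), (.ofNat (nat_lit 0))⟩,
    ⟨nat_lit 0, nat_lit 4, nat_lit 9, (.ofNat (nat_lit 8)), (.negSucc (nat_lit 21571951295)), (.ofNat (nat_lit 277060109493912435538594847151552)), (.negSucc (nat_lit 1048575)), (.ofNat (nat_lit 16610250119902711179527061504)), (.negSucc (nat_lit 21571951311)), (.negSucc (nat_lit 21571951279)), (.negSucc (nat_lit 10560512618956700121260)), (.ofNat (nat_lit 10560512618956700121261)), (.negSucc (nat_lit 10560512618956700121260)), (.ofNat (nat_lit 10560512618956700121261)), (.ofNat (nat_lit 0))⟩,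
    ⟨nat_lit 0, nat_lit 15, nat_lit 10, (.ofNat (nat_lit 8)), (.negSucc (nat_lit 1505120255)), (.ofNat (nat_lit 16570323609665767300937405675904)), (.negSucc (nat_lit 262143)), (.ofNat (nat_lit 2768375019983785196587843584)), (.negSucc (nat_lit 1505120271)), (.negSucc (nat_lit 1505120239)), (.negSucc (nat_lit 10560512618956700121260)), (.ofNat (nat_lit 10560512618956700121261)), (.negSucc (nat_lit 10560512618956700121260)), (.ofNat (nat_lit 10560512618956700121261)), (.ofNat (nat_lit 0))⟩,
    ⟨nat_lit 1, nat_lit 10, nat_lit 11, (.ofNat (nat_lit 8)), (.ofNat (nat_lit 4804366720)), (.ofNat (nat_lit 83201740438856717423971305872640)), (.ofNat (nat_lit 262144)), (.ofNat (nat_lit 8305125059951355589763530752)), (.ofNat (nat_lit 4804366704)), (.ofNat (nat_lit 4804366736)), (.ofNat (nat_lit 10560512618956700121261)), (.negSucc (nat_lit 10560512618956700121260)), (.negSucc (nat_lit 10560512618956700121260)), (.ofNat (nat_lit 10560512618956700121261)), (.ofNat (nat_lit 0))⟩,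
    ⟨nat_lit 2, nat_lit 11, nat_lit 12, (.ofNat (nat_lit 8)), (.negSucc (nat_lit 18879704447)), (.ofNat (nat_lit 333317672876789269006351059775488)), (.negSucc (nat_lit 1048575)), (.ofNat (nat_lit 22147000159870281572702748672)), (.negSucc (nat_lit 18879704463)), (.negSucc (nat_lit 18879704431)), (.negSucc (nat_lit 10560512618956700121260)), (.ofNat (nat_lit 10560512618956700121261)), (.negSucc (nat_lit 10560512618956700121260)), (.ofNat (nat_lit 10560512618956700121261)), (.ofNat (nat_lit 0))⟩,
    ⟨nat_lit 0, nat_lit 12, nat_lit 13, (.ofNat (nat_lit 8)), (.negSucc (nat_lit 11871749247)), (.ofNat (nat_lit 407325272199472494195982715282688)), (.negSucc (nat_lit 786431)), (.ofNat (nat_lit 24915375179854066769290592256)), (.negSucc (nat_lit 11871749263)), (.negSucc (nat_lit 11871749231)), (.ofNat (nat_lit 10560512618956700121261)), (.negSucc (nat_lit 10560512618956700121260)), (.negSucc (nat_lit 10560512618956700121260)), (.ofNat (nat_lit 10560512618956700121261)), (.ofNat (nat_lit 0))⟩,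
    ⟨nat_lit 2, nat_lit 15, nat_lit 5, (.ofNat (nat_lit 8)), (.negSucc (nat_lit 20527494527)), (.ofNat (nat_lit 217456347151639039169631932272896)), (.negSucc (nat_lit 1048575)), (.ofNat (nat_lit 11073500079935140786351374336)), (.negSucc (nat_lit 20527494543)), (.negSucc (nat_lit 20527494511)), (.negSucc (nat_lit 10560512618956700121260)), (.ofNat (nat_lit 10560512618956700121261)), (.negSucc (nat_lit 10560512618956700121260)), (.ofNat (nat_lit 10560512618956700121261)), (.ofNat (nat_lit 0))⟩]
  es := [
    ⟨nat_lit 1, nat_lit 0, (.ofNat (nat_lit 29019833728)), (.ofNat (nat_lit 34703638400)), (.ofNat (nat_lit 29019833744)), (.ofNat (nat_lit 34703638384)), (.negSucc (nat_lit 10560512618956700121260)), (.ofNat (nat_lit 0)), (.ofNat (nat_lit 278501492740248597624745518519552))⟩,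
    ⟨nat_lit 1, nat_lit 2, (.ofNat (nat_lit 29019833728)), (.ofNat (nat_lit 42245556800)), (.ofNat (nat_lit 29019833744)), (.ofNat (nat_lit 42245556784)), (.ofNat (nat_lit 10560512618956700121261)), (.ofNat (nat_lit 0)), (.ofNat (nat_lit 16610250119902711179527061504))⟩,
    ⟨nat_lit 3, nat_lit 2, (.ofNat (nat_lit 25977164224)), (.ofNat (nat_lit 42245556800)), (.ofNat (nat_lit 25977164240)), (.ofNat (nat_lit 42245556784)), (.negSucc (nat_lit 10560512618956700121260)), (.ofNat (nat_lit 0)), (.ofNat (nat_lit 278507029490288565195138694206720))⟩,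
    ⟨nat_lit 4, nat_lit 3, (.negSucc (nat_lit 22988571327)), (.ofNat (nat_lit 25977164224)), (.negSucc (nat_lit 22988571311)), (.ofNat (nat_lit 25977164208)), (.ofNat (nat_lit 10560512618956700121261)), (.ofNat (nat_lit 0)), (.ofNat (nat_lit 38757250279772992752229810176))⟩,
    ⟨nat_lit 4, nat_lit 10, (.negSucc (nat_lit 22988571327)), (.negSucc (nat_lit 21571951295)), (.negSucc (nat_lit 22988571311)), (.negSucc (nat_lit 21571951311)), (.negSucc (nat_lit 10560512618956700121260)), (.ofNat (nat_lit 0)), (.ofNat (nat_lit 5536750039967570393175687168))⟩,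
    ⟨nat_lit 15, nat_lit 5, (.negSucc (nat_lit 20527494527)), (.ofNat (nat_lit 4310588160)), (.negSucc (nat_lit 20527494511)), (.ofNat (nat_lit 4310588144)), (.ofNat (nat_lit 10560512618956700121261)), (.ofNat (nat_lit 0)), (.ofNat (nat_lit 22147000159870281572702748672))⟩,
    ⟨nat_lit 5, nat_lit 6, (.ofNat (nat_lit 4310588160)), (.ofNat (nat_lit 24851451968)), (.ofNat (nat_lit 4310588176)), (.ofNat (nat_lit 24851451952)), (.negSucc (nat_lit 10560512618956700121260)), (.ofNat (nat_lit 0)), (.ofNat (nat_lit 22147000159870281572702748672))⟩,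
    ⟨nat_lit 6, nat_lit 7, (.ofNat (nat_lit 24851451968)), (.ofNat (nat_lit 38053164288)), (.ofNat (nat_lit 24851451984)), (.ofNat (nat_lit 38053164272)), (.ofNat (nat_lit 10560512618956700121261)), (.ofNat (nat_lit 0)), (.ofNat (nat_lit 0))⟩,
    ⟨nat_lit 8, nat_lit 7, (.ofNat (nat_lit 34703638464)), (.ofNat (nat_lit 38053164288)), (.ofNat (nat_lit 34703638480)), (.ofNat (nat_lit 38053164272)), (.negSucc (nat_lit 10560512618956700121260)), (.ofNat (nat_lit 0)), (.ofNat (nat_lit 27683750199837851965878435840))⟩,
    ⟨nat_lit 10, nat_lit 9, (.negSucc (nat_lit 21571951295)), (.negSucc (nat_lit 10554291583)), (.negSucc (nat_lit 21571951279)), (.negSucc (nat_lit 10554291599)), (.ofNat (nat_lit 10560512618956700121261)), (.ofNat (nat_lit 0)), (.ofNat (nat_lit 27683750199837851965878435840))⟩,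
    ⟨nat_lit 11, nat_lit 12, (.negSucc (nat_lit 1505120255)), (.ofNat (nat_lit 4804366720)), (.negSucc (nat_lit 1505120239)), (.ofNat (nat_lit 4804366704)), (.ofNat (nat_lit 10560512618956700121261)), (.ofNat (nat_lit 0)), (.ofNat (nat_lit 5536750039967570393175687168))⟩,
    ⟨nat_lit 13, nat_lit 12, (.negSucc (nat_lit 18879704447)), (.ofNat (nat_lit 4804366720)), (.negSucc (nat_lit 18879704431)), (.ofNat (nat_lit 4804366704)), (.negSucc (nat_lit 10560512618956700121260)), (.ofNat (nat_lit 0)), (.ofNat (nat_lit 11073500079935140786351374336))⟩,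
    ⟨nat_lit 13, nat_lit 14, (.negSucc (nat_lit 18879704447)), (.negSucc (nat_lit 11871749247)), (.negSucc (nat_lit 18879704431)), (.negSucc (nat_lit 11871749263)), (.ofNat (nat_lit 10560512618956700121261)), (.ofNat (nat_lit 0)), (.ofNat (nat_lit 33220500239805422359054123008))⟩,
    ⟨nat_lit 14, nat_lit 9, (.negSucc (nat_lit 11871749247)), (.negSucc (nat_lit 10554291583)), (.negSucc (nat_lit 11871749231)), (.negSucc (nat_lit 10554291599)), (.negSucc (nat_lit 10560512618956700121260)), (.ofNat (nat_lit 0)), (.ofNat (nat_lit 16610250119902711179527061504))⟩,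
    ⟨nat_lit 0, nat_lit 8, (.ofNat (nat_lit 34703638400)), (.ofNat (nat_lit 34703638464)), (.ofNat (nat_lit 34703638416)), (.ofNat (nat_lit 34703638448)), (.ofNat (nat_lit 10560512618956700121261)), (.ofNat (nat_lit 0)), (.ofNat (nat_lit 11073500079935140786351374336))⟩,
    ⟨nat_lit 15, nat_lit 11, (.negSucc (nat_lit 20527494527)), (.negSucc (nat_lit 1505120255)), (.negSucc (nat_lit 20527494511)), (.negSucc (nat_lit 1505120271)), (.negSucc (nat_lit 10560512618956700121260)), (.ofNat (nat_lit 0)), (.ofNat (nat_lit 0))⟩]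

theorem ok146 : stOK 15 15 S146 = true := by decide +kernel

def S147 : SD where
  vs := [
    ⟨nat_lit 0, nat_lit 0, nat_lit 14, (.ofNat (nat_lit 8)), (.ofNat (nat_lit 34703638400)), (.ofNat (nat_lit 444464742438896539696579973655040)), (.ofNat (nat_lit 0)), (.ofNat (nat_lit 6838002475401857945211301955584)), (.ofNat (nat_lit 34703638384)), (.ofNat (nat_lit 34703638416)), (.negSucc (nat_lit 10725521115619457991004)), (.negSucc (nat_lit 10725521115619457991004)), (.negSucc (nat_lit 10725521115619457991004)), (.negSucc (nat_lit 10725521115619457991004)), (.ofNat (nat_lit 42572067469152316224532))⟩,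
    ⟨nat_lit 2, nat_lit 0, nat_lit 1, (.ofNat (nat_lit 8)), (.ofNat (nat_lit 29019833728)), (.ofNat (nat_lit 505426509465489067199961926630400)), (.ofNat (nat_lit 0)), (.ofNat (nat_lit 7775878539653337533667016599552)), (.ofNat (nat_lit 29019833712)), (.ofNat (nat_lit 29019833744)), (.negSucc (nat_lit 10725521115619457991004)), (.ofNat (nat_lit 10725522483987337457175)), (.negSucc (nat_lit 10725521115619457991004)), (.ofNat (nat_lit 10725522483987337457175)), (.ofNat (nat_lit 990053716712306150804))⟩,
    ⟨nat_lit 1, nat_lit 1, nat_lit 2, (.ofNat (nat_lit 8)), (.ofNat (nat_lit 42245556800)), (.ofNat (nat_lit 647279299641215146763171136072000)), (.ofNat (nat_lit 0)), (.ofNat (nat_lit 9958253318696643734129420607360)), (.ofNat (nat_lit 42245556784)), (.ofNat (nat_lit 42245556816)), (.ofNat (nat_lit 10725522483987337457175)), (.negSucc (nat_lit 10725522483987337457174)), (.negSucc (nat_lit 10725522483987337457174)), (.ofNat (nat_lit 10725522483987337457175)), (.ofNat (nat_lit 990059190183824015484))⟩,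
    ⟨nat_lit 0, nat_lit 3, nat_lit 2, (.ofNat (nat_lit 8)), (.ofNat (nat_lit 25977164224)), (.ofNat (nat_lit 821766309993435826329483624004800)), (.ofNat (nat_lit 0)), (.ofNat (nat_lit 12642698581927826182261156381824)), (.ofNat (nat_lit 25977164208)), (.ofNat (nat_lit 25977164240)), (.ofNat (nat_lit 10725522483987337457175)), (.negSucc (nat_lit 10725522483987337457174)), (.negSucc (nat_lit 10725522483987337457174)), (.ofNat (nat_lit 10725522483987337457175)), (.ofNat (nat_lit 990059190183824015484))⟩,
    ⟨nat_lit 2, nat_lit 4, nat_lit 3, (.ofNat (nat_lit 8)), (.negSucc (nat_lit 22988571327)), (.ofNat (nat_lit 296583212385481705884868449019200)), (.ofNat (nat_lit 0)), (.ofNat (nat_lit 4562869167366426013878440167296)), (.negSucc (nat_lit 22988571343)), (.negSucc (nat_lit 22988571311)), (.negSucc (nat_lit 10725522483987337457174)), (.ofNat (nat_lit 10725522483987337457175)), (.negSucc (nat_lit 10725522483987337457174)), (.ofNat (nat_lit 10725522483987337457175)), (.ofNat (nat_lit 990059190183824015484))⟩,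
    ⟨nat_lit 0, nat_lit 5, nat_lit 6, (.ofNat (nat_lit 8)), (.ofNat (nat_lit 4310588160)), (.ofNat (nat_lit 487255555109719142917393539907200)), (.ofNat (nat_lit 0)), (.ofNat (nat_lit 7496322300766149844261262804736)), (.ofNat (nat_lit 4310588144)), (.ofNat (nat_lit 4310588176)), (.ofNat (nat_lit 10725522483987337457175)), (.negSucc (nat_lit 10725522483987337457174)), (.negSucc (nat_lit 10725522483987337457174)), (.ofNat (nat_lit 10725522483987337457175)), (.ofNat (nat_lit 990059190183824015484))⟩,
    ⟨nat_lit 0, nat_lit 6, nat_lit 7, (.ofNat (nat_lit 8)), (.ofNat (nat_lit 24851451968)), (.ofNat (nat_lit 266944058496493383413024832484800)), (.ofNat (nat_lit 0)), (.ofNat (nat_lit 4106877136195366579811841604224)), (.ofNat (nat_lit 24851451952)), (.ofNat (nat_lit 24851451984)), (.negSucc (nat_lit 10725522483987337457174)), (.ofNat (nat_lit 10725523316307587937665)), (.negSucc (nat_lit 10725522483987337457174)), (.ofNat (nat_lit 10725523316307587937665)), (.ofNat (nat_lit 990060854824324976464))⟩,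
    ⟨nat_lit 1, nat_lit 7, nat_lit 8, (.ofNat (nat_lit 8)), (.ofNat (nat_lit 38053164288)), (.ofNat (nat_lit 408539331799838523999180255017600)), (.ofNat (nat_lit 0)), (.ofNat (nat_lit 6285300892344373628570426501504)), (.ofNat (nat_lit 38053164272)), (.ofNat (nat_lit 38053164304)), (.ofNat (nat_lit 10725523316307587937665)), (.negSucc (nat_lit 10725521115619457991004)), (.negSucc (nat_lit 10725521115619457991004)), (.ofNat (nat_lit 10725523316307587937665)), (.ofNat (nat_lit 990059782729067005104))⟩,
    ⟨nat_lit 0, nat_lit 14, nat_lit 8, (.ofNat (nat_lit 8)), (.ofNat (nat_lit 34703638464)), (.ofNat (nat_lit 444464741752463188296934662230720)), (.ofNat (nat_lit 0)), (.ofNat (nat_lit 6838001113095698932337182770560)), (.ofNat (nat_lit 34703638448)), (.ofNat (nat_lit 34703638480)), (.negSucc (nat_lit 10725521115619457991004)), (.negSucc (nat_lit 10725521115619457991004)), (.negSucc (nat_lit 10725521115619457991004)), (.negSucc (nat_lit 10725521115619457991004)), (.ofNat (nat_lit 84814117944979116709576))⟩,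
    ⟨nat_lit 1, nat_lit 9, nat_lit 13, (.ofNat (nat_lit 8)), (.negSucc (nat_lit 10554291583)), (.ofNat (nat_lit 399559379342976297428755924723200)), (.ofNat (nat_lit 0)), (.ofNat (nat_lit 6147135429117019491678243234816)), (.negSucc (nat_lit 10554291599)), (.negSucc (nat_lit 10554291567)), (.ofNat (nat_lit 10725522483987337457175)), (.negSucc (nat_lit 10725522483987337457174)), (.negSucc (nat_lit 10725522483987337457174)), (.ofNat (nat_lit 10725522483987337457175)), (.ofNat (nat_lit 990059190183824015484))⟩,
    ⟨nat_lit 0, nat_lit 4, nat_lit 9, (.ofNat (nat_lit 8)), (.negSucc (nat_lit 21571951295)), (.ofNat (nat_lit 281389222380998844408690401889600)), (.ofNat (nat_lit 0)), (.ofNat (nat_lit 4329112887086408870095554738048)), (.negSucc (nat_lit 21571951311)), (.negSucc (nat_lit 21571951279)), (.negSucc (nat_lit 10725522483987337457174)), (.ofNat (nat_lit 10725522483987337457175)), (.negSucc (nat_lit 10725522483987337457174)), (.ofNat (nat_lit 10725522483987337457175)), (.ofNat (nat_lit 990059190183824015484))⟩,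
    ⟨nat_lit 0, nat_lit 15, nat_lit 10, (.ofNat (nat_lit 8)), (.negSucc (nat_lit 1505120255)), (.ofNat (nat_lit 16829237827280239191973609219200)), (.ofNat (nat_lit 0)), (.ofNat (nat_lit 258914217614471891036203543296)), (.negSucc (nat_lit 1505120271)), (.negSucc (nat_lit 1505120239)), (.negSucc (nat_lit 10725522483987337457174)), (.ofNat (nat_lit 10725522483987337457175)), (.negSucc (nat_lit 10725522483987337457174)), (.ofNat (nat_lit 10725522483987337457175)), (.ofNat (nat_lit 990059190183824015484))⟩,
    ⟨nat_lit 1, nat_lit 10, nat_lit 11, (.ofNat (nat_lit 8)), (.ofNat (nat_lit 4804366720)), (.ofNat (nat_lit 84501782250793513426936229472000)), (.ofNat (nat_lit 0)), (.ofNat (nat_lit 1300041811936796002964923599360)), (.ofNat (nat_lit 4804366704)), (.ofNat (nat_lit 4804366736)), (.ofNat (nat_lit 10725522483987337457175)), (.negSucc (nat_lit 10725522483987337457174)), (.negSucc (nat_lit 10725522483987337457174)), (.ofNat (nat_lit 10725522483987337457175)), (.ofNat (nat_lit 990059190183824015484))⟩,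
    ⟨nat_lit 2, nat_lit 11, nat_lit 12, (.ofNat (nat_lit 8)), (.negSucc (nat_lit 18879704447)), (.ofNat (nat_lit 338525820075533754173501081702400)), (.ofNat (nat_lit 0)), (.ofNat (nat_lit 5208147198744485167150021926912)), (.negSucc (nat_lit 18879704463)), (.negSucc (nat_lit 18879704431)), (.negSucc (nat_lit 10725522483987337457174)), (.ofNat (nat_lit 10725522483987337457175)), (.negSucc (nat_lit 10725522483987337457174)), (.ofNat (nat_lit 10725522483987337457175)), (.ofNat (nat_lit 990059190183824015484))⟩,
    ⟨nat_lit 0, nat_lit 12, nat_lit 13, (.ofNat (nat_lit 8)), (.negSucc (nat_lit 11871749247)), (.ofNat (nat_lit 413689801139909732440665400262400)), (.ofNat (nat_lit 0)), (.ofNat (nat_lit 6364528940437238244682684979712)), (.negSucc (nat_lit 11871749263)), (.negSucc (nat_lit 11871749231)), (.ofNat (nat_lit 10725522483987337457175)), (.negSucc (nat_lit 10725522483987337457174)), (.negSucc (nat_lit 10725522483987337457174)), (.ofNat (nat_lit 10725522483987337457175)), (.ofNat (nat_lit 990059190183824015484))⟩,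
    ⟨nat_lit 2, nat_lit 15, nat_lit 5, (.ofNat (nat_lit 8)), (.negSucc (nat_lit 20527494527)), (.ofNat (nat_lit 220854140780438499211121231020800)), (.ofNat (nat_lit 0)), (.ofNat (nat_lit 3397793628799460041489298747904)), (.negSucc (nat_lit 20527494543)), (.negSucc (nat_lit 20527494511)), (.negSucc (nat_lit 10725522483987337457174)), (.ofNat (nat_lit 10725522483987337457175)), (.negSucc (nat_lit 10725522483987337457174)), (.ofNat (nat_lit 10725522483987337457175)), (.ofNat (nat_lit 990059190183824015484))⟩]
  es := [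
    ⟨nat_lit 1, nat_lit 0, (.ofNat (nat_lit 29019833728)), (.ofNat (nat_lit 34703638400)), (.ofNat (nat_lit 29019833744)), (.ofNat (nat_lit 34703638384)), (.negSucc (nat_lit 10725521115619457991004)), (.negSucc (nat_lit 165008496662757869743)), (.ofNat (nat_lit 12564397676513813803561378525184))⟩,
    ⟨nat_lit 1, nat_lit 2, (.ofNat (nat_lit 29019833728)), (.ofNat (nat_lit 42245556800)), (.ofNat (nat_lit 29019833744)), (.ofNat (nat_lit 42245556784)), (.ofNat (nat_lit 10725522483987337457175)), (.ofNat (nat_lit 165009865030637335914)), (.ofNat (nat_lit 2987319692984520419573853692160))⟩,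
    ⟨nat_lit 3, nat_lit 2, (.ofNat (nat_lit 25977164224)), (.ofNat (nat_lit 42245556800)), (.ofNat (nat_lit 25977164240)), (.ofNat (nat_lit 42245556784)), (.negSucc (nat_lit 10725522483987337457174)), (.negSucc (nat_lit 165009865030637335913)), (.ofNat (nat_lit 16929186944408767048684987522560))⟩,
    ⟨nat_lit 4, nat_lit 3, (.negSucc (nat_lit 22988571327)), (.ofNat (nat_lit 25977164224)), (.negSucc (nat_lit 22988571311)), (.ofNat (nat_lit 25977164208)), (.ofNat (nat_lit 10725522483987337457175)), (.ofNat (nat_lit 165009865030637335914)), (.ofNat (nat_lit 8356210219446885315837325241088))⟩,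
    ⟨nat_lit 4, nat_lit 10, (.negSucc (nat_lit 22988571327)), (.negSucc (nat_lit 21571951295)), (.negSucc (nat_lit 22988571311)), (.negSucc (nat_lit 21571951311)), (.negSucc (nat_lit 10725522483987337457174)), (.negSucc (nat_lit 165009865030637335913)), (.ofNat (nat_lit 769528115285966711919555093504))⟩,
    ⟨nat_lit 15, nat_lit 5, (.negSucc (nat_lit 20527494527)), (.ofNat (nat_lit 4310588160)), (.negSucc (nat_lit 20527494511)), (.ofNat (nat_lit 4310588144)), (.ofNat (nat_lit 10725522483987337457175)), (.ofNat (nat_lit 165009865030637335914)), (.ofNat (nat_lit 6785032730281886506816431626496))⟩,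
    ⟨nat_lit 5, nat_lit 6, (.ofNat (nat_lit 4310588160)), (.ofNat (nat_lit 24851451968)), (.ofNat (nat_lit 4310588176)), (.ofNat (nat_lit 24851451952)), (.negSucc (nat_lit 10725522483987337457174)), (.negSucc (nat_lit 165009865030637335913)), (.ofNat (nat_lit 8207611871250413181706093982976))⟩,
    ⟨nat_lit 6, nat_lit 7, (.ofNat (nat_lit 24851451968)), (.ofNat (nat_lit 38053164288)), (.ofNat (nat_lit 24851451984)), (.ofNat (nat_lit 38053164272)), (.ofNat (nat_lit 10725523316307587937665)), (.ofNat (nat_lit 165010697350887816404)), (.ofNat (nat_lit 6121716773593168291433121152))⟩,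
    ⟨nat_lit 8, nat_lit 7, (.ofNat (nat_lit 34703638464)), (.ofNat (nat_lit 38053164288)), (.ofNat (nat_lit 34703638480)), (.ofNat (nat_lit 38053164272)), (.negSucc (nat_lit 10725521115619457991004)), (.negSucc (nat_lit 165008496662757869743)), (.ofNat (nat_lit 12564396324768198577103763003776))⟩,
    ⟨nat_lit 10, nat_lit 9, (.negSucc (nat_lit 21571951295)), (.negSucc (nat_lit 10554291583)), (.negSucc (nat_lit 21571951279)), (.negSucc (nat_lit 10554291599)), (.ofNat (nat_lit 10725522483987337457175)), (.ofNat (nat_lit 165009865030637335914)), (.ofNat (nat_lit 7888697658886851028271554382592))⟩,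
    ⟨nat_lit 11, nat_lit 12, (.negSucc (nat_lit 1505120255)), (.ofNat (nat_lit 4804366720)), (.negSucc (nat_lit 1505120239)), (.ofNat (nat_lit 4804366704)), (.ofNat (nat_lit 10725522483987337457175)), (.ofNat (nat_lit 165009865030637335914)), (.ofNat (nat_lit 507273907911910205910241217280))⟩,
    ⟨nat_lit 13, nat_lit 12, (.negSucc (nat_lit 18879704447)), (.ofNat (nat_lit 4804366720)), (.negSucc (nat_lit 18879704431)), (.ofNat (nat_lit 4804366704)), (.negSucc (nat_lit 10725522483987337457174)), (.negSucc (nat_lit 165009865030637335913)), (.ofNat (nat_lit 2092809715961681800019605981440))⟩,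
    ⟨nat_lit 13, nat_lit 14, (.negSucc (nat_lit 18879704447)), (.negSucc (nat_lit 11871749247)), (.negSucc (nat_lit 18879704431)), (.negSucc (nat_lit 11871749263)), (.ofNat (nat_lit 10725522483987337457175)), (.ofNat (nat_lit 165009865030637335914)), (.ofNat (nat_lit 8323484681527288534280437872384))⟩,
    ⟨nat_lit 14, nat_lit 9, (.negSucc (nat_lit 11871749247)), (.negSucc (nat_lit 10554291583)), (.negSucc (nat_lit 11871749231)), (.negSucc (nat_lit 10554291599)), (.negSucc (nat_lit 10725522483987337457174)), (.negSucc (nat_lit 165009865030637335913)), (.ofNat (nat_lit 4405573199347187955084932087040))⟩,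
    ⟨nat_lit 0, nat_lit 8, (.ofNat (nat_lit 34703638400)), (.ofNat (nat_lit 34703638464)), (.ofNat (nat_lit 34703638416)), (.ofNat (nat_lit 34703638448)), (.negSucc (nat_lit 10725521115619457991004)), (.negSucc (nat_lit 21286033734576158112265)), (.ofNat (nat_lit 745540820170334426334517170569984))⟩,
    ⟨nat_lit 15, nat_lit 11, (.negSucc (nat_lit 20527494527)), (.negSucc (nat_lit 1505120255)), (.negSucc (nat_lit 20527494511)), (.negSucc (nat_lit 1505120271)), (.negSucc (nat_lit 10725522483987337457174)), (.negSucc (nat_lit 165009865030637335913)), (.ofNat (nat_lit 10554527317033576162165869312))⟩]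

theorem ok147 : stOK 15 15 S147 = true := by decide +kernel

def S148 : SD where
  vs := [
    ⟨nat_lit 0, nat_lit 0, nat_lit 14, (.ofNat (nat_lit 8)), (.ofNat (nat_lit 39459661248)), (.ofNat (nat_lit 495486820328167700096181678274240)), (.ofNat (nat_lit 4756022848)), (.ofNat (nat_lit 51022077889271160399601704619200)), (.ofNat (nat_lit 39459661232)), (.ofNat (nat_lit 39459661264)), (.negSucc (nat_lit 10725521115619457991004)), (.negSucc (nat_lit 10725521115619457991004)), (.negSucc (nat_lit 10725521115619457991004)), (.negSucc (nat_lit 10725521115619457991004)), (.ofNat (nat_lit 0))⟩,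
    ⟨nat_lit 2, nat_lit 0, nat_lit 1, (.ofNat (nat_lit 8)), (.ofNat (nat_lit 33775594496)), (.ofNat (nat_lit 556451398299334209147113913840000)), (.ofNat (nat_lit 4755760768)), (.ofNat (nat_lit 51024888833845141947151987209600)), (.ofNat (nat_lit 33775594480)), (.ofNat (nat_lit 33775594512)), (.negSucc (nat_lit 10725521115619457991004)), (.ofNat (nat_lit 10725522483987337457175)), (.negSucc (nat_lit 10725521115619457991004)), (.ofNat (nat_lit 10725522483987337457175)), (.ofNat (nat_lit 0))⟩,
    ⟨nat_lit 1, nat_lit 1, nat_lit 2, (.ofNat (nat_lit 8)), (.ofNat (nat_lit 48654795008)), (.ofNat (nat_lit 716038597934546112441428951913600)), (.ofNat (nat_lit 6409238208)), (.ofNat (nat_lit 68759298293330965678257815841600)), (.ofNat (nat_lit 48654794992)), (.ofNat (nat_lit 48654795024)), (.ofNat (nat_lit 10725522483987337457175)), (.negSucc (nat_lit 10725522483987337457174)), (.negSucc (nat_lit 10725522483987337457174)), (.ofNat (nat_lit 10725522483987337457175)), (.ofNat (nat_lit 0))⟩,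
    ⟨nat_lit 0, nat_lit 3, nat_lit 2, (.ofNat (nat_lit 8)), (.ofNat (nat_lit 32385353856)), (.ofNat (nat_lit 890536854812230961514102934579200)), (.ofNat (nat_lit 6408189632)), (.ofNat (nat_lit 68770544818795135184619310574400)), (.ofNat (nat_lit 32385353840)), (.ofNat (nat_lit 32385353872)), (.ofNat (nat_lit 10725522483987337457175)), (.negSucc (nat_lit 10725522483987337457174)), (.negSucc (nat_lit 10725522483987337457174)), (.ofNat (nat_lit 10725522483987337457175)), (.ofNat (nat_lit 0))⟩,
    ⟨nat_lit 2, nat_lit 4, nat_lit 3, (.ofNat (nat_lit 8)), (.negSucc (nat_lit 22702671423)), (.ofNat (nat_lit 299689001073128120473355617195200)), (.ofNat (nat_lit 285899904)), (.ofNat (nat_lit 3105788687646414588487168176000)), (.negSucc (nat_lit 22702671439)), (.negSucc (nat_lit 22702671407)), (.negSucc (nat_lit 10725522483987337457174)), (.ofNat (nat_lit 10725522483987337457175)), (.negSucc (nat_lit 10725522483987337457174)), (.ofNat (nat_lit 10725522483987337457175)), (.ofNat (nat_lit 0))⟩,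
    ⟨nat_lit 0, nat_lit 5, nat_lit 6, (.ofNat (nat_lit 8)), (.ofNat (nat_lit 7415348416)), (.ofNat (nat_lit 520578224093765763674413571409600)), (.ofNat (nat_lit 3104760256)), (.ofNat (nat_lit 33322668984046620757020031502400)), (.ofNat (nat_lit 7415348400)), (.ofNat (nat_lit 7415348432)), (.ofNat (nat_lit 10725522483987337457175)), (.negSucc (nat_lit 10725522483987337457174)), (.negSucc (nat_lit 10725522483987337457174)), (.ofNat (nat_lit 10725522483987337457175)), (.ofNat (nat_lit 0))⟩,
    ⟨nat_lit 0, nat_lit 6, nat_lit 7, (.ofNat (nat_lit 8)), (.ofNat (nat_lit 27957260800)), (.ofNat (nat_lit 300255480955075834663683369254400)), (.ofNat (nat_lit 3105808832)), (.ofNat (nat_lit 33311422458582451250658536769600)), (.ofNat (nat_lit 27957260784)), (.ofNat (nat_lit 27957260816)), (.negSucc (nat_lit 10725522483987337457174)), (.ofNat (nat_lit 10725523316307587937665)), (.negSucc (nat_lit 10725522483987337457174)), (.ofNat (nat_lit 10725523316307587937665)), (.ofNat (nat_lit 0))⟩,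
    ⟨nat_lit 1, nat_lit 7, nat_lit 8, (.ofNat (nat_lit 8)), (.ofNat (nat_lit 42809711424)), (.ofNat (nat_lit 459555786427095018504390771607360)), (.ofNat (nat_lit 4756547136)), (.ofNat (nat_lit 51016454627256494505210516589760)), (.ofNat (nat_lit 42809711408)), (.ofNat (nat_lit 42809711440)), (.ofNat (nat_lit 10725523316307587937665)), (.negSucc (nat_lit 10725521115619457991004)), (.negSucc (nat_lit 10725521115619457991004)), (.ofNat (nat_lit 10725523316307587937665)), (.ofNat (nat_lit 0))⟩,
    ⟨nat_lit 0, nat_lit 14, nat_lit 8, (.ofNat (nat_lit 8)), (.ofNat (nat_lit 39459661312)), (.ofNat (nat_lit 495486819641734348696536366849920)), (.ofNat (nat_lit 4756022848)), (.ofNat (nat_lit 51022077889271160399601704619200)), (.ofNat (nat_lit 39459661296)), (.ofNat (nat_lit 39459661328)), (.negSucc (nat_lit 10725521115619457991004)), (.negSucc (nat_lit 10725521115619457991004)), (.negSucc (nat_lit 10725521115619457991004)), (.negSucc (nat_lit 10725521115619457991004)), (.ofNat (nat_lit 0))⟩,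
    ⟨nat_lit 1, nat_lit 9, nat_lit 13, (.ofNat (nat_lit 8)), (.negSucc (nat_lit 8890135679)), (.ofNat (nat_lit 417436437221848994285257784966400)), (.ofNat (nat_lit 1664155904)), (.ofNat (nat_lit 17877057878872696856501860243200)), (.negSucc (nat_lit 8890135695)), (.negSucc (nat_lit 8890135663)), (.ofNat (nat_lit 10725522483987337457175)), (.negSucc (nat_lit 10725522483987337457174)), (.negSucc (nat_lit 10725522483987337457174)), (.ofNat (nat_lit 10725522483987337457175)), (.ofNat (nat_lit 0))⟩,
    ⟨nat_lit 0, nat_lit 4, nat_lit 9, (.ofNat (nat_lit 8)), (.negSucc (nat_lit 21285527103)), (.ofNat (nat_lit 284489387805913174243996822699200)), (.ofNat (nat_lit 286424192)), (.ofNat (nat_lit 3100165424914329835306420809600)), (.negSucc (nat_lit 21285527119)), (.negSucc (nat_lit 21285527087)), (.negSucc (nat_lit 10725522483987337457174)), (.ofNat (nat_lit 10725522483987337457175)), (.negSucc (nat_lit 10725522483987337457174)), (.ofNat (nat_lit 10725522483987337457175)), (.ofNat (nat_lit 0))⟩,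
    ⟨nat_lit 0, nat_lit 15, nat_lit 10, (.ofNat (nat_lit 8)), (.negSucc (nat_lit 1505382399)), (.ofNat (nat_lit 16832049458646281568563982902400)), (.negSucc (nat_lit 262143)), (.ofNat (nat_lit 2811631366042376590373683200)), (.negSucc (nat_lit 1505382415)), (.negSucc (nat_lit 1505382383)), (.negSucc (nat_lit 10725522483987337457174)), (.ofNat (nat_lit 10725522483987337457175)), (.negSucc (nat_lit 10725522483987337457174)), (.ofNat (nat_lit 10725522483987337457175)), (.ofNat (nat_lit 0))⟩,
    ⟨nat_lit 1, nat_lit 10, nat_lit 11, (.ofNat (nat_lit 8)), (.ofNat (nat_lit 5593314688)), (.ofNat (nat_lit 92969284683005720604685480108800)), (.ofNat (nat_lit 788947968)), (.ofNat (nat_lit 8467502432212207177749250636800)), (.ofNat (nat_lit 5593314672)), (.ofNat (nat_lit 5593314704)), (.ofNat (nat_lit 10725522483987337457175)), (.negSucc (nat_lit 10725522483987337457174)), (.negSucc (nat_lit 10725522483987337457174)), (.ofNat (nat_lit 10725522483987337457175)), (.ofNat (nat_lit 0))⟩,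
    ⟨nat_lit 2, nat_lit 11, nat_lit 12, (.ofNat (nat_lit 8)), (.negSucc (nat_lit 18092067199)), (.ofNat (nat_lit 347007380664576173234202200755200)), (.ofNat (nat_lit 787637248)), (.ofNat (nat_lit 8481560589042419060701119052800)), (.negSucc (nat_lit 18092067215)), (.negSucc (nat_lit 18092067183)), (.negSucc (nat_lit 10725522483987337457174)), (.ofNat (nat_lit 10725522483987337457175)), (.negSucc (nat_lit 10725522483987337457174)), (.ofNat (nat_lit 10725522483987337457175)), (.ofNat (nat_lit 0))⟩,
    ⟨nat_lit 0, nat_lit 12, nat_lit 13, (.ofNat (nat_lit 8)), (.negSucc (nat_lit 10207855487)), (.ofNat (nat_lit 431569670650148471673757634188800)), (.ofNat (nat_lit 1663893760)), (.ofNat (nat_lit 17879869510238739233092233926400)), (.negSucc (nat_lit 10207855503)), (.negSucc (nat_lit 10207855471)), (.ofNat (nat_lit 10725522483987337457175)), (.negSucc (nat_lit 10725522483987337457174)), (.negSucc (nat_lit 10725522483987337457174)), (.ofNat (nat_lit 10725522483987337457175)), (.ofNat (nat_lit 0))⟩,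
    ⟨nat_lit 2, nat_lit 15, nat_lit 5, (.ofNat (nat_lit 8)), (.negSucc (nat_lit 20528543103)), (.ofNat (nat_lit 220865387305902668717482725753600)), (.negSucc (nat_lit 1048575)), (.ofNat (nat_lit 11246525464169506361494732800)), (.negSucc (nat_lit 20528543119)), (.negSucc (nat_lit 20528543087)), (.negSucc (nat_lit 10725522483987337457174)), (.ofNat (nat_lit 10725522483987337457175)), (.negSucc (nat_lit 10725522483987337457174)), (.ofNat (nat_lit 10725522483987337457175)), (.ofNat (nat_lit 0))⟩]
  es := [
    ⟨nat_lit 1, nat_lit 0, (.ofNat (nat_lit 33775594496)), (.ofNat (nat_lit 39459661248)), (.ofNat (nat_lit 33775594512)), (.ofNat (nat_lit 39459661232)), (.negSucc (nat_lit 10725521115619457991004)), (.ofNat (nat_lit 0)), (.ofNat (nat_lit 102032901371863752278197663101440))⟩,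
    ⟨nat_lit 1, nat_lit 2, (.ofNat (nat_lit 33775594496)), (.ofNat (nat_lit 48654795008)), (.ofNat (nat_lit 33775594512)), (.ofNat (nat_lit 48654794992)), (.ofNat (nat_lit 10725522483987337457175)), (.ofNat (nat_lit 0)), (.ofNat (nat_lit 16869788196254259542242099200))⟩,
    ⟨nat_lit 3, nat_lit 2, (.ofNat (nat_lit 32385353856)), (.ofNat (nat_lit 48654795008)), (.ofNat (nat_lit 32385353872)), (.ofNat (nat_lit 48654794992)), (.negSucc (nat_lit 10725522483987337457174)), (.ofNat (nat_lit 0)), (.ofNat (nat_lit 137501726798465677096973389584000))⟩,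
    ⟨nat_lit 4, nat_lit 3, (.negSucc (nat_lit 22702671423)), (.ofNat (nat_lit 32385353856)), (.negSucc (nat_lit 22702671407)), (.ofNat (nat_lit 32385353840)), (.ofNat (nat_lit 10725522483987337457175)), (.ofNat (nat_lit 0)), (.ofNat (nat_lit 39362839124593272265231564800))⟩,
    ⟨nat_lit 4, nat_lit 10, (.negSucc (nat_lit 22702671423)), (.negSucc (nat_lit 21285527103)), (.negSucc (nat_lit 22702671407)), (.negSucc (nat_lit 21285527119)), (.negSucc (nat_lit 10725522483987337457174)), (.ofNat (nat_lit 0)), (.ofNat (nat_lit 6172214536168235904709104787200))⟩,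
    ⟨nat_lit 15, nat_lit 5, (.negSucc (nat_lit 20528543103)), (.ofNat (nat_lit 7415348416)), (.negSucc (nat_lit 20528543087)), (.ofNat (nat_lit 7415348400)), (.ofNat (nat_lit 10725522483987337457175)), (.ofNat (nat_lit 0)), (.ofNat (nat_lit 22493050928339012722989465600))⟩,
    ⟨nat_lit 5, nat_lit 6, (.ofNat (nat_lit 7415348416)), (.ofNat (nat_lit 27957260800)), (.ofNat (nat_lit 7415348432)), (.ofNat (nat_lit 27957260784)), (.negSucc (nat_lit 10725522483987337457174)), (.ofNat (nat_lit 0)), (.ofNat (nat_lit 66622844917164902501317073539200))⟩,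
    ⟨nat_lit 6, nat_lit 7, (.ofNat (nat_lit 27957260800)), (.ofNat (nat_lit 42809711424)), (.ofNat (nat_lit 27957260816)), (.ofNat (nat_lit 42809711408)), (.ofNat (nat_lit 10725523316307587937665)), (.ofNat (nat_lit 0)), (.negSucc (nat_lit 2585027584994758085687679))⟩,
    ⟨nat_lit 8, nat_lit 7, (.ofNat (nat_lit 39459661312)), (.ofNat (nat_lit 42809711424)), (.ofNat (nat_lit 39459661328)), (.ofNat (nat_lit 42809711408)), (.negSucc (nat_lit 10725521115619457991004)), (.ofNat (nat_lit 0)), (.ofNat (nat_lit 102032901371863752278197663101440))⟩,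
    ⟨nat_lit 10, nat_lit 9, (.negSucc (nat_lit 21285527103)), (.negSucc (nat_lit 8890135679)), (.negSucc (nat_lit 21285527087)), (.negSucc (nat_lit 8890135695)), (.ofNat (nat_lit 10725522483987337457175)), (.ofNat (nat_lit 0)), (.ofNat (nat_lit 28116313660423765903736832000))⟩,
    ⟨nat_lit 11, nat_lit 12, (.negSucc (nat_lit 1505382399)), (.ofNat (nat_lit 5593314688)), (.negSucc (nat_lit 1505382383)), (.ofNat (nat_lit 5593314672)), (.ofNat (nat_lit 10725522483987337457175)), (.ofNat (nat_lit 0)), (.ofNat (nat_lit 5623262732084753180747366400))⟩,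
    ⟨nat_lit 13, nat_lit 12, (.negSucc (nat_lit 18092067199)), (.ofNat (nat_lit 5593314688)), (.negSucc (nat_lit 18092067183)), (.ofNat (nat_lit 5593314672)), (.negSucc (nat_lit 10725522483987337457174)), (.ofNat (nat_lit 0)), (.ofNat (nat_lit 16929381601692329602317753907200))⟩,
    ⟨nat_lit 13, nat_lit 14, (.negSucc (nat_lit 18092067199)), (.negSucc (nat_lit 10207855487)), (.negSucc (nat_lit 18092067183)), (.negSucc (nat_lit 10207855503)), (.ofNat (nat_lit 10725522483987337457175)), (.ofNat (nat_lit 0)), (.ofNat (nat_lit 33739576392508519084484198400))⟩,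
    ⟨nat_lit 14, nat_lit 9, (.negSucc (nat_lit 10207855487)), (.negSucc (nat_lit 8890135679)), (.negSucc (nat_lit 10207855471)), (.negSucc (nat_lit 8890135695)), (.negSucc (nat_lit 10725522483987337457174)), (.ofNat (nat_lit 0)), (.ofNat (nat_lit 35725999444084969947099983654400))⟩,
    ⟨nat_lit 0, nat_lit 8, (.ofNat (nat_lit 39459661248)), (.ofNat (nat_lit 39459661312)), (.ofNat (nat_lit 39459661264)), (.ofNat (nat_lit 39459661296)), (.negSucc (nat_lit 10725521115619457991004)), (.ofNat (nat_lit 0)), (.ofNat (nat_lit 102032901371863752278197663101440))⟩,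
    ⟨nat_lit 15, nat_lit 11, (.negSucc (nat_lit 20528543103)), (.negSucc (nat_lit 1505382399)), (.negSucc (nat_lit 20528543087)), (.negSucc (nat_lit 1505382415)), (.negSucc (nat_lit 10725522483987337457174)), (.ofNat (nat_lit 0)), (.ofNat (nat_lit 0))⟩]

theorem ok148 : stOK 15 15 S148 = true := by decide +kernel

def S149 : SD where
  vs := [
    ⟨nat_lit 2, nat_lit 0, nat_lit 1, (.ofNat (nat_lit 8)), (.ofNat (nat_lit 33775594496)), (.ofNat (nat_lit 556451398299334209147113913840000)), (.ofNat (nat_lit 4755760768)), (.ofNat (nat_lit 51024888833845141947151987209600)), (.ofNat (nat_lit 33775594480)), (.ofNat (nat_lit 33775594512)), (.negSucc (nat_lit 10725521115619457991004)), (.ofNat (nat_lit 10725522483987337457175)), (.negSucc (nat_lit 10725521115619457991004)), (.ofNat (nat_lit 10725522483987337457175)), (.ofNat (nat_lit 0))⟩,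
    ⟨nat_lit 1, nat_lit 1, nat_lit 2, (.ofNat (nat_lit 8)), (.ofNat (nat_lit 48654795008)), (.ofNat (nat_lit 716038597934546112441428951913600)), (.ofNat (nat_lit 6409238208)), (.ofNat (nat_lit 68759298293330965678257815841600)), (.ofNat (nat_lit 48654794992)), (.ofNat (nat_lit 48654795024)), (.ofNat (nat_lit 10725522483987337457175)), (.negSucc (nat_lit 10725522483987337457174)), (.negSucc (nat_lit 10725522483987337457174)), (.ofNat (nat_lit 10725522483987337457175)), (.ofNat (nat_lit 0))⟩,
    ⟨nat_lit 0, nat_lit 3, nat_lit 2, (.ofNat (nat_lit 8)), (.ofNat (nat_lit 32385353856)), (.ofNat (nat_lit 890536854812230961514102934579200)), (.ofNat (nat_lit 6408189632)), (.ofNat (nat_lit 68770544818795135184619310574400)), (.ofNat (nat_lit 32385353840)), (.ofNat (nat_lit 32385353872)), (.ofNat (nat_lit 10725522483987337457175)), (.negSucc (nat_lit 10725522483987337457174)), (.negSucc (nat_lit 10725522483987337457174)), (.ofNat (nat_lit 10725522483987337457175)), (.ofNat (nat_lit 0))⟩,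
    ⟨nat_lit 2, nat_lit 4, nat_lit 3, (.ofNat (nat_lit 8)), (.negSucc (nat_lit 22702671423)), (.ofNat (nat_lit 299689001073128120473355617195200)), (.ofNat (nat_lit 285899904)), (.ofNat (nat_lit 3105788687646414588487168176000)), (.negSucc (nat_lit 22702671439)), (.negSucc (nat_lit 22702671407)), (.negSucc (nat_lit 10725522483987337457174)), (.ofNat (nat_lit 10725522483987337457175)), (.negSucc (nat_lit 10725522483987337457174)), (.ofNat (nat_lit 10725522483987337457175)), (.ofNat (nat_lit 0))⟩,
    ⟨nat_lit 0, nat_lit 5, nat_lit 6, (.ofNat (nat_lit 8)), (.ofNat (nat_lit 7415348416)), (.ofNat (nat_lit 520578224093765763674413571409600)), (.ofNat (nat_lit 3104760256)), (.ofNat (nat_lit 33322668984046620757020031502400)), (.ofNat (nat_lit 7415348400)), (.ofNat (nat_lit 7415348432)), (.ofNat (nat_lit 10725522483987337457175)), (.negSucc (nat_lit 10725522483987337457174)), (.negSucc (nat_lit 10725522483987337457174)), (.ofNat (nat_lit 10725522483987337457175)), (.ofNat (nat_lit 0))⟩,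
    ⟨nat_lit 0, nat_lit 6, nat_lit 7, (.ofNat (nat_lit 8)), (.ofNat (nat_lit 27957260800)), (.ofNat (nat_lit 300255480955075834663683369254400)), (.ofNat (nat_lit 3105808832)), (.ofNat (nat_lit 33311422458582451250658536769600)), (.ofNat (nat_lit 27957260784)), (.ofNat (nat_lit 27957260816)), (.negSucc (nat_lit 10725522483987337457174)), (.ofNat (nat_lit 10725523316307587937665)), (.negSucc (nat_lit 10725522483987337457174)), (.ofNat (nat_lit 10725523316307587937665)), (.ofNat (nat_lit 0))⟩,
    ⟨nat_lit 1, nat_lit 7, nat_lit 8, (.ofNat (nat_lit 8)), (.ofNat (nat_lit 42809711424)), (.ofNat (nat_lit 459555786427095018504390771607360)), (.ofNat (nat_lit 4756547136)), (.ofNat (nat_lit 51016454627256494505210516589760)), (.ofNat (nat_lit 42809711408)), (.ofNat (nat_lit 42809711440)), (.ofNat (nat_lit 10725523316307587937665)), (.negSucc (nat_lit 10725521115619457991004)), (.negSucc (nat_lit 10725521115619457991004)), (.ofNat (nat_lit 10725523316307587937665)), (.ofNat (nat_lit 0))⟩,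
    ⟨nat_lit 0, nat_lit 0, nat_lit 8, (.ofNat (nat_lit 8)), (.ofNat (nat_lit 39459661312)), (.ofNat (nat_lit 495486819641734348696536366849920)), (.ofNat (nat_lit 4756022848)), (.ofNat (nat_lit 51022077889271160399601704619200)), (.ofNat (nat_lit 39459661296)), (.ofNat (nat_lit 39459661328)), (.negSucc (nat_lit 10725521115619457991004)), (.negSucc (nat_lit 10725521115619457991004)), (.negSucc (nat_lit 10725521115619457991004)), (.negSucc (nat_lit 10725521115619457991004)), (.ofNat (nat_lit 0))⟩,
    ⟨nat_lit 1, nat_lit 9, nat_lit 13, (.ofNat (nat_lit 8)), (.negSucc (nat_lit 8890135679)), (.ofNat (nat_lit 417436437221848994285257784966400)), (.ofNat (nat_lit 1664155904)), (.ofNat (nat_lit 17877057878872696856501860243200)), (.negSucc (nat_lit 8890135695)), (.negSucc (nat_lit 8890135663)), (.ofNat (nat_lit 10725522483987337457175)), (.negSucc (nat_lit 10725522483987337457174)), (.negSucc (nat_lit 10725522483987337457174)), (.ofNat (nat_lit 10725522483987337457175)), (.ofNat (nat_lit 0))⟩,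
    ⟨nat_lit 0, nat_lit 4, nat_lit 9, (.ofNat (nat_lit 8)), (.negSucc (nat_lit 21285527103)), (.ofNat (nat_lit 284489387805913174243996822699200)), (.ofNat (nat_lit 286424192)), (.ofNat (nat_lit 3100165424914329835306420809600)), (.negSucc (nat_lit 21285527119)), (.negSucc (nat_lit 21285527087)), (.negSucc (nat_lit 10725522483987337457174)), (.ofNat (nat_lit 10725522483987337457175)), (.negSucc (nat_lit 10725522483987337457174)), (.ofNat (nat_lit 10725522483987337457175)), (.ofNat (nat_lit 0))⟩,
    ⟨nat_lit 0, nat_lit 14, nat_lit 10, (.ofNat (nat_lit 8)), (.negSucc (nat_lit 1505382399)), (.ofNat (nat_lit 16832049458646281568563982902400)), (.negSucc (nat_lit 262143)), (.ofNat (nat_lit 2811631366042376590373683200)), (.negSucc (nat_lit 1505382415)), (.negSucc (nat_lit 1505382383)), (.negSucc (nat_lit 10725522483987337457174)), (.ofNat (nat_lit 10725522483987337457175)), (.negSucc (nat_lit 10725522483987337457174)), (.ofNat (nat_lit 10725522483987337457175)), (.ofNat (nat_lit 0))⟩,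
    ⟨nat_lit 1, nat_lit 10, nat_lit 11, (.ofNat (nat_lit 8)), (.ofNat (nat_lit 5593314688)), (.ofNat (nat_lit 92969284683005720604685480108800)), (.ofNat (nat_lit 788947968)), (.ofNat (nat_lit 8467502432212207177749250636800)), (.ofNat (nat_lit 5593314672)), (.ofNat (nat_lit 5593314704)), (.ofNat (nat_lit 10725522483987337457175)), (.negSucc (nat_lit 10725522483987337457174)), (.negSucc (nat_lit 10725522483987337457174)), (.ofNat (nat_lit 10725522483987337457175)), (.ofNat (nat_lit 0))⟩,
    ⟨nat_lit 2, nat_lit 11, nat_lit 12, (.ofNat (nat_lit 8)), (.negSucc (nat_lit 18092067199)), (.ofNat (nat_lit 347007380664576173234202200755200)), (.ofNat (nat_lit 787637248)), (.ofNat (nat_lit 8481560589042419060701119052800)), (.negSucc (nat_lit 18092067215)), (.negSucc (nat_lit 18092067183)), (.negSucc (nat_lit 10725522483987337457174)), (.ofNat (nat_lit 10725522483987337457175)), (.negSucc (nat_lit 10725522483987337457174)), (.ofNat (nat_lit 10725522483987337457175)), (.ofNat (nat_lit 0))⟩,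
    ⟨nat_lit 0, nat_lit 12, nat_lit 13, (.ofNat (nat_lit 8)), (.negSucc (nat_lit 10207855487)), (.ofNat (nat_lit 431569670650148471673757634188800)), (.ofNat (nat_lit 1663893760)), (.ofNat (nat_lit 17879869510238739233092233926400)), (.negSucc (nat_lit 10207855503)), (.negSucc (nat_lit 10207855471)), (.ofNat (nat_lit 10725522483987337457175)), (.negSucc (nat_lit 10725522483987337457174)), (.negSucc (nat_lit 10725522483987337457174)), (.ofNat (nat_lit 10725522483987337457175)), (.ofNat (nat_lit 0))⟩,
    ⟨nat_lit 2, nat_lit 14, nat_lit 5, (.ofNat (nat_lit 8)), (.negSucc (nat_lit 20528543103)), (.ofNat (nat_lit 220865387305902668717482725753600)), (.negSucc (nat_lit 1048575)), (.ofNat (nat_lit 11246525464169506361494732800)), (.negSucc (nat_lit 20528543119)), (.negSucc (nat_lit 20528543087)), (.negSucc (nat_lit 10725522483987337457174)), (.ofNat (nat_lit 10725522483987337457175)), (.negSucc (nat_lit 10725522483987337457174)), (.ofNat (nat_lit 10725522483987337457175)), (.ofNat (nat_lit 0))⟩]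
  es := [
    ⟨nat_lit 0, nat_lit 7, (.ofNat (nat_lit 33775594496)), (.ofNat (nat_lit 39459661312)), (.ofNat (nat_lit 33775594512)), (.ofNat (nat_lit 39459661296)), (.negSucc (nat_lit 10725521115619457991004)), (.ofNat (nat_lit 0)), (.ofNat (nat_lit 102032901371863752278197663101440))⟩,
    ⟨nat_lit 0, nat_lit 1, (.ofNat (nat_lit 33775594496)), (.ofNat (nat_lit 48654795008)), (.ofNat (nat_lit 33775594512)), (.ofNat (nat_lit 48654794992)), (.ofNat (nat_lit 10725522483987337457175)), (.ofNat (nat_lit 0)), (.ofNat (nat_lit 16869788196254259542242099200))⟩,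
    ⟨nat_lit 2, nat_lit 1, (.ofNat (nat_lit 32385353856)), (.ofNat (nat_lit 48654795008)), (.ofNat (nat_lit 32385353872)), (.ofNat (nat_lit 48654794992)), (.negSucc (nat_lit 10725522483987337457174)), (.ofNat (nat_lit 0)), (.ofNat (nat_lit 137501726798465677096973389584000))⟩,
    ⟨nat_lit 3, nat_lit 2, (.negSucc (nat_lit 22702671423)), (.ofNat (nat_lit 32385353856)), (.negSucc (nat_lit 22702671407)), (.ofNat (nat_lit 32385353840)), (.ofNat (nat_lit 10725522483987337457175)), (.ofNat (nat_lit 0)), (.ofNat (nat_lit 39362839124593272265231564800))⟩,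
    ⟨nat_lit 3, nat_lit 9, (.negSucc (nat_lit 22702671423)), (.negSucc (nat_lit 21285527103)), (.negSucc (nat_lit 22702671407)), (.negSucc (nat_lit 21285527119)), (.negSucc (nat_lit 10725522483987337457174)), (.ofNat (nat_lit 0)), (.ofNat (nat_lit 6172214536168235904709104787200))⟩,
    ⟨nat_lit 14, nat_lit 4, (.negSucc (nat_lit 20528543103)), (.ofNat (nat_lit 7415348416)), (.negSucc (nat_lit 20528543087)), (.ofNat (nat_lit 7415348400)), (.ofNat (nat_lit 10725522483987337457175)), (.ofNat (nat_lit 0)), (.ofNat (nat_lit 22493050928339012722989465600))⟩,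
    ⟨nat_lit 4, nat_lit 5, (.ofNat (nat_lit 7415348416)), (.ofNat (nat_lit 27957260800)), (.ofNat (nat_lit 7415348432)), (.ofNat (nat_lit 27957260784)), (.negSucc (nat_lit 10725522483987337457174)), (.ofNat (nat_lit 0)), (.ofNat (nat_lit 66622844917164902501317073539200))⟩,
    ⟨nat_lit 5, nat_lit 6, (.ofNat (nat_lit 27957260800)), (.ofNat (nat_lit 42809711424)), (.ofNat (nat_lit 27957260816)), (.ofNat (nat_lit 42809711408)), (.ofNat (nat_lit 10725523316307587937665)), (.ofNat (nat_lit 0)), (.negSucc (nat_lit 2585027584994758085687679))⟩,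
    ⟨nat_lit 7, nat_lit 6, (.ofNat (nat_lit 39459661312)), (.ofNat (nat_lit 42809711424)), (.ofNat (nat_lit 39459661328)), (.ofNat (nat_lit 42809711408)), (.negSucc (nat_lit 10725521115619457991004)), (.ofNat (nat_lit 0)), (.ofNat (nat_lit 102032901371863752278197663101440))⟩,
    ⟨nat_lit 9, nat_lit 8, (.negSucc (nat_lit 21285527103)), (.negSucc (nat_lit 8890135679)), (.negSucc (nat_lit 21285527087)), (.negSucc (nat_lit 8890135695)), (.ofNat (nat_lit 10725522483987337457175)), (.ofNat (nat_lit 0)), (.ofNat (nat_lit 28116313660423765903736832000))⟩,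
    ⟨nat_lit 10, nat_lit 11, (.negSucc (nat_lit 1505382399)), (.ofNat (nat_lit 5593314688)), (.negSucc (nat_lit 1505382383)), (.ofNat (nat_lit 5593314672)), (.ofNat (nat_lit 10725522483987337457175)), (.ofNat (nat_lit 0)), (.ofNat (nat_lit 5623262732084753180747366400))⟩,
    ⟨nat_lit 12, nat_lit 11, (.negSucc (nat_lit 18092067199)), (.ofNat (nat_lit 5593314688)), (.negSucc (nat_lit 18092067183)), (.ofNat (nat_lit 5593314672)), (.negSucc (nat_lit 10725522483987337457174)), (.ofNat (nat_lit 0)), (.ofNat (nat_lit 16929381601692329602317753907200))⟩,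
    ⟨nat_lit 12, nat_lit 13, (.negSucc (nat_lit 18092067199)), (.negSucc (nat_lit 10207855487)), (.negSucc (nat_lit 18092067183)), (.negSucc (nat_lit 10207855503)), (.ofNat (nat_lit 10725522483987337457175)), (.ofNat (nat_lit 0)), (.ofNat (nat_lit 33739576392508519084484198400))⟩,
    ⟨nat_lit 13, nat_lit 8, (.negSucc (nat_lit 10207855487)), (.negSucc (nat_lit 8890135679)), (.negSucc (nat_lit 10207855471)), (.negSucc (nat_lit 8890135695)), (.negSucc (nat_lit 10725522483987337457174)), (.ofNat (nat_lit 0)), (.ofNat (nat_lit 35725999444084969947099983654400))⟩,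
    ⟨nat_lit 14, nat_lit 10, (.negSucc (nat_lit 20528543103)), (.negSucc (nat_lit 1505382399)), (.negSucc (nat_lit 20528543087)), (.negSucc (nat_lit 1505382415)), (.negSucc (nat_lit 10725522483987337457174)), (.ofNat (nat_lit 0)), (.ofNat (nat_lit 0))⟩]

theorem ok149 : stOK 14 14 S149 = true := by decide +kernel

end LCA.CapJ
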