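import Pool.Agent.LCA.CapJ.D4
import Pool.Agent.LCA.CapJ.D5

set_option maxRecDepth 100000

namespace LCA.CapJ

open LCA

theorem f100 : goOK (.ofNat (nat_lit 1)) S100 S101 = true := by decide +kernel

theorem f101 : goOK (.ofNat (nat_lit 1)) S101 S102 = true := by decide +kernel

theorem f102 : goOK (.ofNat (nat_lit 1)) S102 S103 = true := by decide +kernel

theorem f103 : goOK (.ofNat (nat_lit 1)) S103 S104 = true := by decide +kernel

theorem f104 : goOK (.ofNat (nat_lit 1)) S104 S105 = true := by decide +kernel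

theorem f105 : goOK (.ofNat (nat_lit 1)) S105 S106 = true := by decide +kernel

theorem f106 : goOK (.ofNat (nat_lit 1)) S106 S107 = true := by decide +kernel

theorem f107 : goOK (.ofNat (nat_lit 1)) S107 S108 = true := by decide +kernel

theorem f108 : goOK (.ofNat (nat_lit 1)) S108 S109 = true := by decide +kernel

theorem f109 : goOK (.ofNat (nat_lit 1)) S109 S110 = true := by decide +kernel

theorem f110 : goOK (.ofNat (nat_lit 1)) S110 S111 = true := by decide +kernel

theorem f111 : goOK (.ofNat (nat_lit 1)) S111 S112 = true := by decide +kernel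

theorem f112 : goOK (.ofNat (nat_lit 1)) S112 S113 = true := by decide +kernel

theorem f113 : goOK (.ofNat (nat_lit 1)) S113 S114 = true := by decide +kernel

theorem f114 : goOK (.ofNat (nat_lit 1)) S114 S115 = true := by decide +kernel

theorem f115 : goOK (.ofNat (nat_lit 1)) S115 S116 = true := by decide +kernel

theorem f116 : inOK 18 18 19 19 [nat_lit 0, nat_lit 1, nat_lit 2, nat_lit 3, nat_lit 4, nat_lit 5, nat_lit 6, nat_lit 7, nat_lit 8, nat_lit 9, nat_lit 10, nat_lit 11, nat_lit 12, nat_lit 13, nat_lit 15, nat_lit 16, nat_lit 17, nat_lit 18, nat_lit 19] [nat_lit 0, nat_lit 1, nat_lit 2, nat_lit 3, nat_lit 4, nat_lit 5, nat_lit 6, nat_lit 7, nat_lit 8, nat_lit 9, nat_lit 10, nat_lit 11, nat_lit 12, nat_lit 13, nat_lit 0, nat_lit 14, nat_lit 15, nat_lit 16, nat_lit 17, nat_lit 18] [nat_lit 0, nat_lit 1, nat_lit 2, nat_lit 3, nat_lit 4, nat_lit 5, nat_lit 6, nat_lit 7, nat_lit 8, nat_lit 9, nat_lit 10, nat_lit 11, nat_lit 12, nat_lit 13, nat_lit 14, nat_lit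 15, nat_lit 17, nat_lit 18, nat_lit 19] [nat_lit 0, nat_lit 1, nat_lit 2, nat_lit 3, nat_lit 4, nat_lit 5, nat_lit 6, nat_lit 7, nat_lit 8, nat_lit 9, nat_lit 10, nat_lit 11, nat_lit 12, nat_lit 13, nat_lit 14, nat_lit 15, nat_lit 0, nat_lit 16, nat_lit 17, nat_lit 18] 14 14 16 S117 S116 = true := by decide +kernel

theorem f117 : inOK 17 17 18 18 [nat_lit 0, nat_lit 1, nat_lit 2, nat_lit 3, nat_lit 4, nat_lit 5, nat_lit 6, nat_lit 7, nat_lit 8, nat_lit 9, nat_lit 10, nat_lit 11, nat_lit 12, nat_lit 14, nat_lit 15, nat_lit 16, nat_lit 17, nat_lit 18] [nat_lit 0, nat_lit 1, nat_lit 2, nat_lit 3, nat_lit 4, nat_lit 5, nat_lit 6, nat_lit 7, nat_lit 8, nat_lit 9, nat_lit 10, nat_lit 11, nat_lit 12, nat_lit 0, nat_lit 13, nat_lit 14, nat_lit 15, nat_lit 16, nat_lit 17] [nat_lit 0, nat_lit 1, nat_lit 2, nat_lit 3, nat_lit 4, nat_lit 5, nat_lit 6, nat_lit 7, nat_lit 8, nat_lit 9, nat_lit 10, nat_lit 11, nat_lit 12, nat_lit 13, nat_lit 14, nat_lit 16, nat_lit 17, nat_lit 18]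 [nat_lit 0, nat_lit 1, nat_lit 2, nat_lit 3, nat_lit 4, nat_lit 5, nat_lit 6, nat_lit 7, nat_lit 8, nat_lit 9, nat_lit 10, nat_lit 11, nat_lit 12, nat_lit 13, nat_lit 14, nat_lit 0, nat_lit 15, nat_lit 16, nat_lit 17] 13 13 15 S118 S117 = true := by decide +kernel

theorem f118 : goOK (.ofNat (nat_lit 1)) S118 S119 = true := by decide +kernel

theorem f119 : goOK (.ofNat (nat_lit 1)) S119 S120 = true := by decide +kernel

theorem f120 : goOK (.ofNat (nat_lit 1)) S120 S121 = true := by decide +kernel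

theorem f121 : goOK (.ofNat (nat_lit 1)) S121 S122 = true := by decide +kernel

theorem f122 : goOK (.ofNat (nat_lit 1)) S122 S123 = true := by decide +kernel

theorem f123 : goOK (.ofNat (nat_lit 1)) S123 S124 = true := by decide +kernel

theorem f124 : goOK (.ofNat (nat_lit 1)) S124 S125 = true := by decide +kernel

end LCA.CapJ
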