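import Pool.Agent.LCA.Chk2

set_option maxRecDepth 100000

namespace LCA.CapJ

open LCA

def S150 : SD where
  vs := [
    ⟨nat_lit 2, nat_lit 0, nat_lit 1, (.ofNat (nat_lit 8)), (.ofNat (nat_lit 33775594496)), (.ofNat (nat_lit 556451398299334209147113913840000)), (.ofNat (nat_lit 4755760768)), (.ofNat (nat_lit 51024888833845141947151987209600)), (.ofNat (nat_lit 33775594480)), (.ofNat (nat_lit 33775594512)), (.negSucc (nat_lit 10725521115619457991004)), (.ofNat (nat_lit 10725522483987337457175)), (.negSucc (nat_lit 10725521115619457991004)), (.ofNat (nat_lit 10725522483987337457175)), (.ofNat (nat_lit 0))⟩,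
    ⟨nat_lit 1, nat_lit 1, nat_lit 2, (.ofNat (nat_lit 8)), (.ofNat (nat_lit 48654795008)), (.ofNat (nat_lit 716038597934546112441428951913600)), (.ofNat (nat_lit 6409238208)), (.ofNat (nat_lit 68759298293330965678257815841600)), (.ofNat (nat_lit 48654794992)), (.ofNat (nat_lit 48654795024)), (.ofNat (nat_lit 10725522483987337457175)), (.negSucc (nat_lit 10725522483987337457174)), (.negSucc (nat_lit 10725522483987337457174)), (.ofNat (nat_lit 10725522483987337457175)), (.ofNat (nat_lit 0))⟩,
    ⟨nat_lit 0, nat_lit 3, nat_lit 2, (.ofNat (nat_lit 8)), (.ofNat (nat_lit 32385353856)), (.ofNat (nat_lit 890536854812230961514102934579200)), (.ofNat (nat_lit 6408189632)), (.ofNat (nat_lit 68770544818795135184619310574400)), (.ofNat (nat_lit 32385353840)), (.ofNat (nat_lit 32385353872)), (.ofNat (nat_lit 10725522483987337457175)), (.negSucc (nat_lit 10725522483987337457174)), (.negSucc (nat_lit 10725522483987337457174)), (.ofNat (nat_lit 10725522483987337457175)), (.ofNat (nat_lit 0))⟩,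
    ⟨nat_lit 2, nat_lit 4, nat_lit 3, (.ofNat (nat_lit 8)), (.negSucc (nat_lit 22702671423)), (.ofNat (nat_lit 299689001073128120473355617195200)), (.ofNat (nat_lit 285899904)), (.ofNat (nat_lit 3105788687646414588487168176000)), (.negSucc (nat_lit 22702671439)), (.negSucc (nat_lit 22702671407)), (.negSucc (nat_lit 10725522483987337457174)), (.ofNat (nat_lit 10725522483987337457175)), (.negSucc (nat_lit 10725522483987337457174)), (.ofNat (nat_lit 10725522483987337457175)), (.ofNat (nat_lit 0))⟩,
    ⟨nat_lit 0, nat_lit 5, nat_lit 6, (.ofNat (nat_lit 8)), (.ofNat (nat_lit 7415348416)), (.ofNat (nat_lit 520578224093765763674413571409600)), (.ofNat (nat_lit 3104760256)), (.ofNat (nat_lit 33322668984046620757020031502400)), (.ofNat (nat_lit 7415348400)), (.ofNat (nat_lit 7415348432)), (.ofNat (nat_lit 10725522483987337457175)), (.negSucc (nat_lit 10725522483987337457174)), (.negSucc (nat_lit 10725522483987337457174)), (.ofNat (nat_lit 10725522483987337457175)), (.ofNat (nat_lit 0))⟩,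
    ⟨nat_lit 0, nat_lit 6, nat_lit 7, (.ofNat (nat_lit 8)), (.ofNat (nat_lit 27957260800)), (.ofNat (nat_lit 300255480955075834663683369254400)), (.ofNat (nat_lit 3105808832)), (.ofNat (nat_lit 33311422458582451250658536769600)), (.ofNat (nat_lit 27957260784)), (.ofNat (nat_lit 27957260816)), (.negSucc (nat_lit 10725522483987337457174)), (.ofNat (nat_lit 10725523316307587937665)), (.negSucc (nat_lit 10725522483987337457174)), (.ofNat (nat_lit 10725523316307587937665)), (.ofNat (nat_lit 0))⟩,
    ⟨nat_lit 1, nat_lit 7, nat_lit 0, (.ofNat (nat_lit 8)), (.ofNat (nat_lit 42809711424)), (.ofNat (nat_lit 459555786427095018504390771607360)), (.ofNat (nat_lit 4756547136)), (.ofNat (nat_lit 51016454627256494505210516589760)), (.ofNat (nat_lit 42809711408)), (.ofNat (nat_lit 42809711440)), (.ofNat (nat_lit 10725523316307587937665)), (.negSucc (nat_lit 10725521115619457991004)), (.negSucc (nat_lit 10725521115619457991004)), (.ofNat (nat_lit 10725523316307587937665)), (.ofNat (nat_lit 0))⟩,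
    ⟨nat_lit 1, nat_lit 8, nat_lit 12, (.ofNat (nat_lit 8)), (.negSucc (nat_lit 8890135679)), (.ofNat (nat_lit 417436437221848994285257784966400)), (.ofNat (nat_lit 1664155904)), (.ofNat (nat_lit 17877057878872696856501860243200)), (.negSucc (nat_lit 8890135695)), (.negSucc (nat_lit 8890135663)), (.ofNat (nat_lit 10725522483987337457175)), (.negSucc (nat_lit 10725522483987337457174)), (.negSucc (nat_lit 10725522483987337457174)), (.ofNat (nat_lit 10725522483987337457175)), (.ofNat (nat_lit 0))⟩,
    ⟨nat_lit 0, nat_lit 4, nat_lit 8, (.ofNat (nat_lit 8)), (.negSucc (nat_lit 21285527103)), (.ofNat (nat_lit 284489387805913174243996822699200)), (.ofNat (nat_lit 286424192)), (.ofNat (nat_lit 3100165424914329835306420809600)), (.negSucc (nat_lit 21285527119)), (.negSucc (nat_lit 21285527087)), (.negSucc (nat_lit 10725522483987337457174)), (.ofNat (nat_lit 10725522483987337457175)), (.negSucc (nat_lit 10725522483987337457174)), (.ofNat (nat_lit 10725522483987337457175)), (.ofNat (nat_lit 0))⟩,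
    ⟨nat_lit 0, nat_lit 13, nat_lit 9, (.ofNat (nat_lit 8)), (.negSucc (nat_lit 1505382399)), (.ofNat (nat_lit 16832049458646281568563982902400)), (.negSucc (nat_lit 262143)), (.ofNat (nat_lit 2811631366042376590373683200)), (.negSucc (nat_lit 1505382415)), (.negSucc (nat_lit 1505382383)), (.negSucc (nat_lit 10725522483987337457174)), (.ofNat (nat_lit 10725522483987337457175)), (.negSucc (nat_lit 10725522483987337457174)), (.ofNat (nat_lit 10725522483987337457175)), (.ofNat (nat_lit 0))⟩,
    ⟨nat_lit 1, nat_lit 9, nat_lit 10, (.ofNat (nat_lit 8)), (.ofNat (nat_lit 5593314688)), (.ofNat (nat_lit 92969284683005720604685480108800)), (.ofNat (nat_lit 788947968)), (.ofNat (nat_lit 8467502432212207177749250636800)), (.ofNat (nat_lit 5593314672)), (.ofNat (nat_lit 5593314704)), (.ofNat (nat_lit 10725522483987337457175)), (.negSucc (nat_lit 10725522483987337457174)), (.negSucc (nat_lit 10725522483987337457174)), (.ofNat (nat_lit 10725522483987337457175)), (.ofNat (nat_lit 0))⟩,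
    ⟨nat_lit 2, nat_lit 10, nat_lit 11, (.ofNat (nat_lit 8)), (.negSucc (nat_lit 18092067199)), (.ofNat (nat_lit 347007380664576173234202200755200)), (.ofNat (nat_lit 787637248)), (.ofNat (nat_lit 8481560589042419060701119052800)), (.negSucc (nat_lit 18092067215)), (.negSucc (nat_lit 18092067183)), (.negSucc (nat_lit 10725522483987337457174)), (.ofNat (nat_lit 10725522483987337457175)), (.negSucc (nat_lit 10725522483987337457174)), (.ofNat (nat_lit 10725522483987337457175)), (.ofNat (nat_lit 0))⟩,
    ⟨nat_lit 0, nat_lit 11, nat_lit 12, (.ofNat (nat_lit 8)), (.negSucc (nat_lit 10207855487)), (.ofNat (nat_lit 431569670650148471673757634188800)), (.ofNat (nat_lit 1663893760)), (.ofNat (nat_lit 17879869510238739233092233926400)), (.negSucc (nat_lit 10207855503)), (.negSucc (nat_lit 10207855471)), (.ofNat (nat_lit 10725522483987337457175)), (.negSucc (nat_lit 10725522483987337457174)), (.negSucc (nat_lit 10725522483987337457174)), (.ofNat (nat_lit 10725522483987337457175)), (.ofNat (nat_lit 0))⟩,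
    ⟨nat_lit 2, nat_lit 13, nat_lit 5, (.ofNat (nat_lit 8)), (.negSucc (nat_lit 20528543103)), (.ofNat (nat_lit 220865387305902668717482725753600)), (.negSucc (nat_lit 1048575)), (.ofNat (nat_lit 11246525464169506361494732800)), (.negSucc (nat_lit 20528543119)), (.negSucc (nat_lit 20528543087)), (.negSucc (nat_lit 10725522483987337457174)), (.ofNat (nat_lit 10725522483987337457175)), (.negSucc (nat_lit 10725522483987337457174)), (.ofNat (nat_lit 10725522483987337457175)), (.ofNat (nat_lit 0))⟩]
  es := [
    ⟨nat_lit 0, nat_lit 6, (.ofNat (nat_lit 33775594496)), (.ofNat (nat_lit 42809711424)), (.ofNat (nat_lit 33775594512)), (.ofNat (nat_lit 42809711408)), (.negSucc (nat_lit 10725521115619457991004)), (.ofNat (nat_lit 0)), (.ofNat (nat_lit 102032901371863752278197663101440))⟩,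
    ⟨nat_lit 0, nat_lit 1, (.ofNat (nat_lit 33775594496)), (.ofNat (nat_lit 48654795008)), (.ofNat (nat_lit 33775594512)), (.ofNat (nat_lit 48654794992)), (.ofNat (nat_lit 10725522483987337457175)), (.ofNat (nat_lit 0)), (.ofNat (nat_lit 16869788196254259542242099200))⟩,
    ⟨nat_lit 2, nat_lit 1, (.ofNat (nat_lit 32385353856)), (.ofNat (nat_lit 48654795008)), (.ofNat (nat_lit 32385353872)), (.ofNat (nat_lit 48654794992)), (.negSucc (nat_lit 10725522483987337457174)), (.ofNat (nat_lit 0)), (.ofNat (nat_lit 137501726798465677096973389584000))⟩,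
    ⟨nat_lit 3, nat_lit 2, (.negSucc (nat_lit 22702671423)), (.ofNat (nat_lit 32385353856)), (.negSucc (nat_lit 22702671407)), (.ofNat (nat_lit 32385353840)), (.ofNat (nat_lit 10725522483987337457175)), (.ofNat (nat_lit 0)), (.ofNat (nat_lit 39362839124593272265231564800))⟩,
    ⟨nat_lit 3, nat_lit 8, (.negSucc (nat_lit 22702671423)), (.negSucc (nat_lit 21285527103)), (.negSucc (nat_lit 22702671407)), (.negSucc (nat_lit 21285527119)), (.negSucc (nat_lit 10725522483987337457174)), (.ofNat (nat_lit 0)), (.ofNat (nat_lit 6172214536168235904709104787200))⟩,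
    ⟨nat_lit 13, nat_lit 4, (.negSucc (nat_lit 20528543103)), (.ofNat (nat_lit 7415348416)), (.negSucc (nat_lit 20528543087)), (.ofNat (nat_lit 7415348400)), (.ofNat (nat_lit 10725522483987337457175)), (.ofNat (nat_lit 0)), (.ofNat (nat_lit 22493050928339012722989465600))⟩,
    ⟨nat_lit 4, nat_lit 5, (.ofNat (nat_lit 7415348416)), (.ofNat (nat_lit 27957260800)), (.ofNat (nat_lit 7415348432)), (.ofNat (nat_lit 27957260784)), (.negSucc (nat_lit 10725522483987337457174)), (.ofNat (nat_lit 0)), (.ofNat (nat_lit 66622844917164902501317073539200))⟩,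
    ⟨nat_lit 5, nat_lit 6, (.ofNat (nat_lit 27957260800)), (.ofNat (nat_lit 42809711424)), (.ofNat (nat_lit 27957260816)), (.ofNat (nat_lit 42809711408)), (.ofNat (nat_lit 10725523316307587937665)), (.ofNat (nat_lit 0)), (.negSucc (nat_lit 2585027584994758085687679))⟩,
    ⟨nat_lit 8, nat_lit 7, (.negSucc (nat_lit 21285527103)), (.negSucc (nat_lit 8890135679)), (.negSucc (nat_lit 21285527087)), (.negSucc (nat_lit 8890135695)), (.ofNat (nat_lit 10725522483987337457175)), (.ofNat (nat_lit 0)), (.ofNat (nat_lit 28116313660423765903736832000))⟩,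
    ⟨nat_lit 9, nat_lit 10, (.negSucc (nat_lit 1505382399)), (.ofNat (nat_lit 5593314688)), (.negSucc (nat_lit 1505382383)), (.ofNat (nat_lit 5593314672)), (.ofNat (nat_lit 10725522483987337457175)), (.ofNat (nat_lit 0)), (.ofNat (nat_lit 5623262732084753180747366400))⟩,
    ⟨nat_lit 11, nat_lit 10, (.negSucc (nat_lit 18092067199)), (.ofNat (nat_lit 5593314688)), (.negSucc (nat_lit 18092067183)), (.ofNat (nat_lit 5593314672)), (.negSucc (nat_lit 10725522483987337457174)), (.ofNat (nat_lit 0)), (.ofNat (nat_lit 16929381601692329602317753907200))⟩,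
    ⟨nat_lit 11, nat_lit 12, (.negSucc (nat_lit 18092067199)), (.negSucc (nat_lit 10207855487)), (.negSucc (nat_lit 18092067183)), (.negSucc (nat_lit 10207855503)), (.ofNat (nat_lit 10725522483987337457175)), (.ofNat (nat_lit 0)), (.ofNat (nat_lit 33739576392508519084484198400))⟩,
    ⟨nat_lit 12, nat_lit 7, (.negSucc (nat_lit 10207855487)), (.negSucc (nat_lit 8890135679)), (.negSucc (nat_lit 10207855471)), (.negSucc (nat_lit 8890135695)), (.negSucc (nat_lit 10725522483987337457174)), (.ofNat (nat_lit 0)), (.ofNat (nat_lit 35725999444084969947099983654400))⟩,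
    ⟨nat_lit 13, nat_lit 9, (.negSucc (nat_lit 20528543103)), (.negSucc (nat_lit 1505382399)), (.negSucc (nat_lit 20528543087)), (.negSucc (nat_lit 1505382415)), (.negSucc (nat_lit 10725522483987337457174)), (.ofNat (nat_lit 0)), (.ofNat (nat_lit 0))⟩]

theorem ok150 : stOK 13 13 S150 = true := by decide +kernel

def S151 : SD where
  vs := [
    ⟨nat_lit 2, nat_lit 0, nat_lit 1, (.ofNat (nat_lit 8)), (.ofNat (nat_lit 33775594496)), (.ofNat (nat_lit 565145951397761306165018923990400)), (.ofNat (nat_lit 0)), (.ofNat (nat_lit 8694553098427097017905010150400)), (.ofNat (nat_lit 33775594480)), (.ofNat (nat_lit 33775594512)), (.negSucc (nat_lit 10893108772799639604942)), (.ofNat (nat_lit 10893108772799639604943)), (.negSucc (nat_lit 10893108772799639604942)), (.ofNat (nat_lit 10893108772799639604943)), (.ofNat (nat_lit 1005523206345330751288))⟩,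
    ⟨nat_lit 1, nat_lit 1, nat_lit 2, (.ofNat (nat_lit 8)), (.ofNat (nat_lit 48654795008)), (.ofNat (nat_lit 727226701027273395448302287321216)), (.ofNat (nat_lit 0)), (.ofNat (nat_lit 11188103092727283006873335407616)), (.ofNat (nat_lit 48654794992)), (.ofNat (nat_lit 48654795024)), (.ofNat (nat_lit 10893108772799639604943)), (.negSucc (nat_lit 10893108772799639604942)), (.negSucc (nat_lit 10893108772799639604942)), (.ofNat (nat_lit 10893108772799639604943)), (.ofNat (nat_lit 1005517732873812886608))⟩,
    ⟨nat_lit 0, nat_lit 3, nat_lit 2, (.ofNat (nat_lit 8)), (.ofNat (nat_lit 32385353856)), (.ofNat (nat_lit 904451493168672070287730954135552)), (.ofNat (nat_lit 0)), (.ofNat (nat_lit 13914638356441108773628019556352)), (.ofNat (nat_lit 32385353840)), (.ofNat (nat_lit 32385353872)), (.ofNat (nat_lit 10893108772799639604943)), (.negSucc (nat_lit 10893108772799639604942)), (.negSucc (nat_lit 10893108772799639604942)), (.ofNat (nat_lit 10893108772799639604943)), (.ofNat (nat_lit 1005517732873812886608))⟩,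
    ⟨nat_lit 2, nat_lit 4, nat_lit 3, (.ofNat (nat_lit 8)), (.negSucc (nat_lit 22702671423)), (.ofNat (nat_lit 304371641714895747355741757176512)), (.ofNat (nat_lit 0)), (.ofNat (nat_lit 4682640641767626882386139981312)), (.negSucc (nat_lit 22702671439)), (.negSucc (nat_lit 22702671407)), (.negSucc (nat_lit 10893108772799639604942)), (.ofNat (nat_lit 10893108772799639604943)), (.negSucc (nat_lit 10893108772799639604942)), (.ofNat (nat_lit 10893108772799639604943)), (.ofNat (nat_lit 1005517732873812886608))⟩,
    ⟨nat_lit 0, nat_lit 5, nat_lit 6, (.ofNat (nat_lit 8)), (.ofNat (nat_lit 7415348416)), (.ofNat (nat_lit 528712258845230853731808840694976)), (.ofNat (nat_lit 0)), (.ofNat (nat_lit 8134034751465090057395269285376)), (.ofNat (nat_lit 7415348400)), (.ofNat (nat_lit 7415348432)), (.ofNat (nat_lit 10893108772799639604943)), (.negSucc (nat_lit 10893108772799639604942)), (.negSucc (nat_lit 10893108772799639604942)), (.ofNat (nat_lit 10893108772799639604943)), (.ofNat (nat_lit 1005517732873812886608))⟩,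
    ⟨nat_lit 0, nat_lit 6, nat_lit 7, (.ofNat (nat_lit 8)), (.ofNat (nat_lit 27957260800)), (.ofNat (nat_lit 304946972844998894580293361380864)), (.ofNat (nat_lit 0)), (.ofNat (nat_lit 4691491889923059916609992126464)), (.ofNat (nat_lit 27957260784)), (.ofNat (nat_lit 27957260816)), (.negSucc (nat_lit 10893108772799639604942)), (.ofNat (nat_lit 10893108772799639604943)), (.negSucc (nat_lit 10893108772799639604942)), (.ofNat (nat_lit 10893108772799639604943)), (.ofNat (nat_lit 1005516068233311925628))⟩,
    ⟨nat_lit 1, nat_lit 7, nat_lit 0, (.ofNat (nat_lit 8)), (.ofNat (nat_lit 42809711424)), (.ofNat (nat_lit 466736333034866776057704135215296)), (.ofNat (nat_lit 0)), (.ofNat (nat_lit 7180546607771757553313363607936)), (.ofNat (nat_lit 42809711408)), (.ofNat (nat_lit 42809711440)), (.ofNat (nat_lit 10893108772799639604943)), (.negSucc (nat_lit 10893108772799639604942)), (.negSucc (nat_lit 10893108772799639604942)), (.ofNat (nat_lit 10893108772799639604943)), (.ofNat (nat_lit 1005517140328569896988))⟩,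
    ⟨nat_lit 1, nat_lit 8, nat_lit 12, (.ofNat (nat_lit 8)), (.negSucc (nat_lit 8890135679)), (.ofNat (nat_lit 423958881553440384820950951011584)), (.ofNat (nat_lit 0)), (.ofNat (nat_lit 6522444331591390535693166045184)), (.negSucc (nat_lit 8890135695)), (.negSucc (nat_lit 8890135663)), (.ofNat (nat_lit 10893108772799639604943)), (.negSucc (nat_lit 10893108772799639604942)), (.negSucc (nat_lit 10893108772799639604942)), (.ofNat (nat_lit 10893108772799639604943)), (.ofNat (nat_lit 1005517732873812886608))⟩,
    ⟨nat_lit 0, nat_lit 4, nat_lit 8, (.ofNat (nat_lit 8)), (.negSucc (nat_lit 21285527103)), (.ofNat (nat_lit 288934534490380567591549740802752)), (.ofNat (nat_lit 0)), (.ofNat (nat_lit 4445146684467393347552918103552)), (.negSucc (nat_lit 21285527119)), (.negSucc (nat_lit 21285527087)), (.negSucc (nat_lit 10893108772799639604942)), (.ofNat (nat_lit 10893108772799639604943)), (.negSucc (nat_lit 10893108772799639604942)), (.ofNat (nat_lit 10893108772799639604943)), (.ofNat (nat_lit 1005517732873812886608))⟩,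
    ⟨nat_lit 0, nat_lit 13, nat_lit 9, (.ofNat (nat_lit 8)), (.negSucc (nat_lit 1505382399)), (.ofNat (nat_lit 17095050231437629718072231151744)), (.ofNat (nat_lit 0)), (.ofNat (nat_lit 263000772791348149508248249344)), (.negSucc (nat_lit 1505382415)), (.negSucc (nat_lit 1505382383)), (.negSucc (nat_lit 10893108772799639604942)), (.ofNat (nat_lit 10893108772799639604943)), (.negSucc (nat_lit 10893108772799639604942)), (.ofNat (nat_lit 10893108772799639604943)), (.ofNat (nat_lit 1005517732873812886608))⟩,
    ⟨nat_lit 1, nat_lit 9, nat_lit 10, (.ofNat (nat_lit 8)), (.ofNat (nat_lit 5593314688)), (.ofNat (nat_lit 94421929756177684989130575657728)), (.ofNat (nat_lit 0)), (.ofNat (nat_lit 1452645073171964384445095548928)), (.ofNat (nat_lit 5593314672)), (.ofNat (nat_lit 5593314704)), (.ofNat (nat_lit 10893108772799639604943)), (.negSucc (nat_lit 10893108772799639604942)), (.negSucc (nat_lit 10893108772799639604942)), (.ofNat (nat_lit 10893108772799639604943)), (.ofNat (nat_lit 1005517732873812886608))⟩,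
    ⟨nat_lit 2, nat_lit 10, nat_lit 11, (.ofNat (nat_lit 8)), (.negSucc (nat_lit 18092067199)), (.ofNat (nat_lit 352429370987460175940974983130112)), (.ofNat (nat_lit 0)), (.ofNat (nat_lit 5421990322884002706772782374912)), (.negSucc (nat_lit 18092067215)), (.negSucc (nat_lit 18092067183)), (.negSucc (nat_lit 10893108772799639604942)), (.ofNat (nat_lit 10893108772799639604943)), (.negSucc (nat_lit 10893108772799639604942)), (.ofNat (nat_lit 10893108772799639604943)), (.ofNat (nat_lit 1005517732873812886608))⟩,
    ⟨nat_lit 0, nat_lit 11, nat_lit 12, (.ofNat (nat_lit 8)), (.negSucc (nat_lit 10207855487)), (.ofNat (nat_lit 438312946754057041543645636822528)), (.ofNat (nat_lit 0)), (.ofNat (nat_lit 6743276103908569869888002633728)), (.negSucc (nat_lit 10207855503)), (.negSucc (nat_lit 10207855471)), (.ofNat (nat_lit 10893108772799639604943)), (.negSucc (nat_lit 10893108772799639604942)), (.negSucc (nat_lit 10893108772799639604942)), (.ofNat (nat_lit 10893108772799639604943)), (.ofNat (nat_lit 1005517732873812886608))⟩,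
    ⟨nat_lit 2, nat_lit 13, nat_lit 5, (.ofNat (nat_lit 8)), (.negSucc (nat_lit 20528543103)), (.ofNat (nat_lit 224316408982557397916185992911616)), (.ofNat (nat_lit 0)), (.ofNat (nat_lit 3451021676654729198703267158016)), (.negSucc (nat_lit 20528543119)), (.negSucc (nat_lit 20528543087)), (.negSucc (nat_lit 10893108772799639604942)), (.ofNat (nat_lit 10893108772799639604943)), (.negSucc (nat_lit 10893108772799639604942)), (.ofNat (nat_lit 10893108772799639604943)), (.ofNat (nat_lit 1005517732873812886608))⟩]
  es := [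
    ⟨nat_lit 0, nat_lit 6, (.ofNat (nat_lit 33775594496)), (.ofNat (nat_lit 42809711424)), (.ofNat (nat_lit 33775594512)), (.ofNat (nat_lit 42809711408)), (.negSucc (nat_lit 10893108772799639604942)), (.negSucc (nat_lit 167587657180181613937)), (.ofNat (nat_lit 14354925849879574017909719835648))⟩,
    ⟨nat_lit 0, nat_lit 1, (.ofNat (nat_lit 33775594496)), (.ofNat (nat_lit 48654795008)), (.ofNat (nat_lit 33775594512)), (.ofNat (nat_lit 48654794992)), (.ofNat (nat_lit 10893108772799639604943)), (.ofNat (nat_lit 167586288812302147768)), (.ofNat (nat_lit 3034226564413238218663170665472))⟩,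
    ⟨nat_lit 2, nat_lit 1, (.ofNat (nat_lit 32385353856)), (.ofNat (nat_lit 48654795008)), (.ofNat (nat_lit 32385353872)), (.ofNat (nat_lit 48654794992)), (.negSucc (nat_lit 10893108772799639604942)), (.negSucc (nat_lit 167586288812302147767)), (.ofNat (nat_lit 19341979621041327795083500149760))⟩,
    ⟨nat_lit 3, nat_lit 2, (.negSucc (nat_lit 22702671423)), (.ofNat (nat_lit 32385353856)), (.negSucc (nat_lit 22702671407)), (.ofNat (nat_lit 32385353840)), (.ofNat (nat_lit 10893108772799639604943)), (.ofNat (nat_lit 167586288812302147768)), (.ofNat (nat_lit 8487297091840889752172538962944))⟩,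
    ⟨nat_lit 3, nat_lit 8, (.negSucc (nat_lit 22702671423)), (.negSucc (nat_lit 21285527103)), (.negSucc (nat_lit 22702671407)), (.negSucc (nat_lit 21285527119)), (.negSucc (nat_lit 10893108772799639604942)), (.negSucc (nat_lit 167586288812302147767)), (.ofNat (nat_lit 877984191694364012599740999680))⟩,
    ⟨nat_lit 13, nat_lit 4, (.negSucc (nat_lit 20528543103)), (.ofNat (nat_lit 7415348416)), (.negSucc (nat_lit 20528543087)), (.ofNat (nat_lit 7415348400)), (.ofNat (nat_lit 10893108772799639604943)), (.ofNat (nat_lit 167586288812302147768)), (.ofNat (nat_lit 6891324030177466804630432549888))⟩,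
    ⟨nat_lit 4, nat_lit 5, (.ofNat (nat_lit 7415348416)), (.ofNat (nat_lit 27957260800)), (.ofNat (nat_lit 7415348432)), (.ofNat (nat_lit 27957260784)), (.negSucc (nat_lit 10893108772799639604942)), (.negSucc (nat_lit 167586288812302147767)), (.ofNat (nat_lit 9376745472752713310160106020864))⟩,
    ⟨nat_lit 5, nat_lit 6, (.ofNat (nat_lit 27957260800)), (.ofNat (nat_lit 42809711424)), (.ofNat (nat_lit 27957260816)), (.ofNat (nat_lit 42809711408)), (.ofNat (nat_lit 10893108772799639604943)), (.ofNat (nat_lit 167585456492051667278)), (.ofNat (nat_lit 6261576487718327444120024064))⟩,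
    ⟨nat_lit 8, nat_lit 7, (.negSucc (nat_lit 21285527103)), (.negSucc (nat_lit 8890135679)), (.negSucc (nat_lit 21285527087)), (.negSucc (nat_lit 8890135695)), (.ofNat (nat_lit 10893108772799639604943)), (.ofNat (nat_lit 167586288812302147768)), (.ofNat (nat_lit 8012309177240422682506095207424))⟩,
    ⟨nat_lit 9, nat_lit 10, (.negSucc (nat_lit 1505382399)), (.ofNat (nat_lit 5593314688)), (.negSucc (nat_lit 1505382383)), (.ofNat (nat_lit 5593314672)), (.ofNat (nat_lit 10893108772799639604943)), (.ofNat (nat_lit 167586288812302147768)), (.ofNat (nat_lit 515282222450704706240394732544))⟩,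
    ⟨nat_lit 11, nat_lit 10, (.negSucc (nat_lit 18092067199)), (.ofNat (nat_lit 5593314688)), (.negSucc (nat_lit 18092067183)), (.ofNat (nat_lit 5593314672)), (.negSucc (nat_lit 10893108772799639604942)), (.negSucc (nat_lit 167586288812302147767)), (.ofNat (nat_lit 2390007923893224062649796365312))⟩,
    ⟨nat_lit 11, nat_lit 12, (.negSucc (nat_lit 18092067199)), (.negSucc (nat_lit 10207855487)), (.negSucc (nat_lit 18092067183)), (.negSucc (nat_lit 10207855503)), (.ofNat (nat_lit 10893108772799639604943)), (.ofNat (nat_lit 167586288812302147768)), (.ofNat (nat_lit 8453972721874781350895768384512))⟩,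
    ⟨nat_lit 12, nat_lit 7, (.negSucc (nat_lit 10207855487)), (.negSucc (nat_lit 8890135679)), (.negSucc (nat_lit 10207855471)), (.negSucc (nat_lit 8890135695)), (.negSucc (nat_lit 10893108772799639604942)), (.negSucc (nat_lit 167586288812302147767)), (.ofNat (nat_lit 5032579485942358388880236882944))⟩,
    ⟨nat_lit 13, nat_lit 9, (.negSucc (nat_lit 20528543103)), (.negSucc (nat_lit 1505382399)), (.negSucc (nat_lit 20528543087)), (.negSucc (nat_lit 1505382415)), (.negSucc (nat_lit 10893108772799639604942)), (.negSucc (nat_lit 167586288812302147767)), (.ofNat (nat_lit 10719323131991592776101766144))⟩]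

theorem ok151 : stOK 13 13 S151 = true := by decide +kernel

def S152 : SD where
  vs := [
    ⟨nat_lit 2, nat_lit 0, nat_lit 1, (.ofNat (nat_lit 8)), (.ofNat (nat_lit 22251808256)), (.ofNat (nat_lit 690704364015634447208666085152640)), (.negSucc (nat_lit 11523786239)), (.ofNat (nat_lit 125558412617873141043647161162240)), (.ofNat (nat_lit 22251808240)), (.ofNat (nat_lit 22251808272)), (.negSucc (nat_lit 10893108772799639604942)), (.ofNat (nat_lit 10893108772799639604943)), (.negSucc (nat_lit 10893108772799639604942)), (.ofNat (nat_lit 10893108772799639604943)), (.ofNat (nat_lit 0))⟩,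
    ⟨nat_lit 1, nat_lit 1, nat_lit 2, (.ofNat (nat_lit 8)), (.ofNat (nat_lit 37131270912)), (.ofNat (nat_lit 852787969208252673280674046661248)), (.negSucc (nat_lit 11523524095)), (.ofNat (nat_lit 125561268180979277832371759340032)), (.ofNat (nat_lit 37131270896)), (.ofNat (nat_lit 37131270928)), (.ofNat (nat_lit 10893108772799639604943)), (.negSucc (nat_lit 10893108772799639604942)), (.negSucc (nat_lit 10893108772799639604942)), (.ofNat (nat_lit 10893108772799639604943)), (.ofNat (nat_lit 0))⟩,
    ⟨nat_lit 0, nat_lit 3, nat_lit 2, (.ofNat (nat_lit 8)), (.ofNat (nat_lit 20861043328)), (.ofNat (nat_lit 1030021328038969758486276508008960)), (.negSucc (nat_lit 11524310527)), (.ofNat (nat_lit 125569834870297688198545553873408)), (.ofNat (nat_lit 20861043312)), (.ofNat (nat_lit 20861043344)), (.ofNat (nat_lit 10893108772799639604943)), (.negSucc (nat_lit 10893108772799639604942)), (.negSucc (nat_lit 10893108772799639604942)), (.ofNat (nat_lit 10893108772799639604943)), (.ofNat (nat_lit 0))⟩,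
    ⟨nat_lit 2, nat_lit 4, nat_lit 3, (.ofNat (nat_lit 8)), (.negSucc (nat_lit 34228292671)), (.ofNat (nat_lit 429927198769662751610664320160960)), (.negSucc (nat_lit 11525621247)), (.ofNat (nat_lit 125555557054767004254922562984448)), (.negSucc (nat_lit 34228292687)), (.negSucc (nat_lit 34228292655)), (.negSucc (nat_lit 10893108772799639604942)), (.ofNat (nat_lit 10893108772799639604943)), (.negSucc (nat_lit 10893108772799639604942)), (.ofNat (nat_lit 10893108772799639604943)), (.ofNat (nat_lit 0))⟩,
    ⟨nat_lit 0, nat_lit 5, nat_lit 6, (.ofNat (nat_lit 8)), (.ofNat (nat_lit 7415872704)), (.ofNat (nat_lit 528729392223867674464156429761728)), (.ofNat (nat_lit 524288)), (.ofNat (nat_lit 17133378636820732347589066752)), (.ofNat (nat_lit 7415872688)), (.ofNat (nat_lit 7415872720)), (.ofNat (nat_lit 10893108772799639604943)), (.negSucc (nat_lit 10893108772799639604942)), (.negSucc (nat_lit 10893108772799639604942)), (.ofNat (nat_lit 10893108772799639604943)), (.ofNat (nat_lit 0))⟩,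
    ⟨nat_lit 0, nat_lit 6, nat_lit 7, (.ofNat (nat_lit 8)), (.ofNat (nat_lit 27958309376)), (.ofNat (nat_lit 304958395097423441735191754092032)), (.ofNat (nat_lit 1048576)), (.ofNat (nat_lit 11422252424547154898392711168)), (.ofNat (nat_lit 27958309360)), (.ofNat (nat_lit 27958309392)), (.negSucc (nat_lit 10893108772799639604942)), (.ofNat (nat_lit 10893108772799639604943)), (.negSucc (nat_lit 10893108772799639604942)), (.ofNat (nat_lit 10893108772799639604943)), (.ofNat (nat_lit 0))⟩,
    ⟨nat_lit 1, nat_lit 7, nat_lit 0, (.ofNat (nat_lit 8)), (.ofNat (nat_lit 42811022144)), (.ofNat (nat_lit 466750610850397460001327126104256)), (.ofNat (nat_lit 1310720)), (.ofNat (nat_lit 14277815530683943622990888960)), (.ofNat (nat_lit 42811022128)), (.ofNat (nat_lit 42811022160)), (.ofNat (nat_lit 10893108772799639604943)), (.negSucc (nat_lit 10893108772799639604942)), (.negSucc (nat_lit 10893108772799639604942)), (.ofNat (nat_lit 10893108772799639604943)), (.ofNat (nat_lit 0))⟩,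
    ⟨nat_lit 1, nat_lit 8, nat_lit 12, (.ofNat (nat_lit 8)), (.negSucc (nat_lit 20414708351)), (.ofNat (nat_lit 549514438608207389075873513996032)), (.negSucc (nat_lit 11524572671)), (.ofNat (nat_lit 125555557054767004254922562984448)), (.negSucc (nat_lit 20414708367)), (.negSucc (nat_lit 20414708335)), (.ofNat (nat_lit 10893108772799639604943)), (.negSucc (nat_lit 10893108772799639604942)), (.negSucc (nat_lit 10893108772799639604942)), (.ofNat (nat_lit 10893108772799639604943)), (.ofNat (nat_lit 0))⟩,
    ⟨nat_lit 0, nat_lit 4, nat_lit 8, (.ofNat (nat_lit 8)), (.negSucc (nat_lit 32810624063)), (.ofNat (nat_lit 414484380418935298269023107431616)), (.negSucc (nat_lit 11525096959)), (.ofNat (nat_lit 125549845928554730677473366628864)), (.negSucc (nat_lit 32810624079)), (.negSucc (nat_lit 32810624047)), (.negSucc (nat_lit 10893108772799639604942)), (.ofNat (nat_lit 10893108772799639604943)), (.negSucc (nat_lit 10893108772799639604942)), (.ofNat (nat_lit 10893108772799639604943)), (.ofNat (nat_lit 0))⟩,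
    ⟨nat_lit 0, nat_lit 13, nat_lit 9, (.ofNat (nat_lit 8)), (.negSucc (nat_lit 1505644543)), (.ofNat (nat_lit 17097905794543766506796829329536)), (.negSucc (nat_lit 262143)), (.ofNat (nat_lit 2855563106136788724598177792)), (.negSucc (nat_lit 1505644559)), (.negSucc (nat_lit 1505644527)), (.negSucc (nat_lit 10893108772799639604942)), (.ofNat (nat_lit 10893108772799639604943)), (.negSucc (nat_lit 10893108772799639604942)), (.ofNat (nat_lit 10893108772799639604943)), (.ofNat (nat_lit 0))⟩,
    ⟨nat_lit 1, nat_lit 9, nat_lit 10, (.ofNat (nat_lit 8)), (.ofNat (nat_lit 5593576832)), (.ofNat (nat_lit 94430496445496095355304370191104)), (.ofNat (nat_lit 262144)), (.ofNat (nat_lit 8566689318410366173794533376)), (.ofNat (nat_lit 5593576816)), (.ofNat (nat_lit 5593576848)), (.ofNat (nat_lit 10893108772799639604943)), (.negSucc (nat_lit 10893108772799639604942)), (.negSucc (nat_lit 10893108772799639604942)), (.ofNat (nat_lit 10893108772799639604943)), (.ofNat (nat_lit 0))⟩,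
    ⟨nat_lit 2, nat_lit 10, nat_lit 11, (.ofNat (nat_lit 8)), (.negSucc (nat_lit 29617164159)), (.ofNat (nat_lit 477984928042227180195897546114560)), (.negSucc (nat_lit 11525096959)), (.ofNat (nat_lit 125555557054767004254922562984448)), (.negSucc (nat_lit 29617164175)), (.negSucc (nat_lit 29617164143)), (.negSucc (nat_lit 10893108772799639604942)), (.ofNat (nat_lit 10893108772799639604943)), (.negSucc (nat_lit 10893108772799639604942)), (.ofNat (nat_lit 10893108772799639604943)), (.ofNat (nat_lit 0))⟩,
    ⟨nat_lit 0, nat_lit 11, nat_lit 12, (.ofNat (nat_lit 8)), (.negSucc (nat_lit 21732690303)), (.ofNat (nat_lit 563871359371930182587292797984768)), (.negSucc (nat_lit 11524834815)), (.ofNat (nat_lit 125558412617873141043647161162240)), (.negSucc (nat_lit 21732690319)), (.negSucc (nat_lit 21732690287)), (.ofNat (nat_lit 10893108772799639604943)), (.negSucc (nat_lit 10893108772799639604942)), (.negSucc (nat_lit 10893108772799639604942)), (.ofNat (nat_lit 10893108772799639604943)), (.ofNat (nat_lit 0))⟩,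
    ⟨nat_lit 2, nat_lit 13, nat_lit 5, (.ofNat (nat_lit 8)), (.negSucc (nat_lit 20529067391)), (.ofNat (nat_lit 224322120108769671493635189267200)), (.negSucc (nat_lit 524287)), (.ofNat (nat_lit 5711126212273577449196355584)), (.negSucc (nat_lit 20529067407)), (.negSucc (nat_lit 20529067375)), (.negSucc (nat_lit 10893108772799639604942)), (.ofNat (nat_lit 10893108772799639604943)), (.negSucc (nat_lit 10893108772799639604942)), (.ofNat (nat_lit 10893108772799639604943)), (.ofNat (nat_lit 0))⟩]
  es := [
    ⟨nat_lit 0, nat_lit 6, (.ofNat (nat_lit 22251808256)), (.ofNat (nat_lit 42811022144)), (.ofNat (nat_lit 22251808272)), (.ofNat (nat_lit 42811022128)), (.negSucc (nat_lit 10893108772799639604942)), (.ofNat (nat_lit 0)), (.ofNat (nat_lit 28555631061367887245981777920))⟩,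
    ⟨nat_lit 0, nat_lit 1, (.ofNat (nat_lit 22251808256)), (.ofNat (nat_lit 37131270912)), (.ofNat (nat_lit 22251808272)), (.ofNat (nat_lit 37131270896)), (.ofNat (nat_lit 10893108772799639604943)), (.ofNat (nat_lit 0)), (.ofNat (nat_lit 251088269604684914200048340546560))⟩,
    ⟨nat_lit 2, nat_lit 1, (.ofNat (nat_lit 20861043328)), (.ofNat (nat_lit 37131270912)), (.ofNat (nat_lit 20861043344)), (.ofNat (nat_lit 37131270896)), (.negSucc (nat_lit 10893108772799639604942)), (.ofNat (nat_lit 0)), (.ofNat (nat_lit 34266757273641464695178133504))⟩,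
    ⟨nat_lit 3, nat_lit 2, (.negSucc (nat_lit 34228292671)), (.ofNat (nat_lit 20861043328)), (.negSucc (nat_lit 34228292655)), (.ofNat (nat_lit 20861043312)), (.ofNat (nat_lit 10893108772799639604943)), (.ofNat (nat_lit 0)), (.ofNat (nat_lit 251105402983321734932395929613312))⟩,
    ⟨nat_lit 3, nat_lit 8, (.negSucc (nat_lit 34228292671)), (.negSucc (nat_lit 32810624063)), (.negSucc (nat_lit 34228292655)), (.negSucc (nat_lit 32810624079)), (.negSucc (nat_lit 10893108772799639604942)), (.ofNat (nat_lit 0)), (.ofNat (nat_lit 5711126212273577449196355584))⟩,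
    ⟨nat_lit 13, nat_lit 4, (.negSucc (nat_lit 20529067391)), (.ofNat (nat_lit 7415872704)), (.negSucc (nat_lit 20529067375)), (.ofNat (nat_lit 7415872688)), (.ofNat (nat_lit 10893108772799639604943)), (.ofNat (nat_lit 0)), (.ofNat (nat_lit 11422252424547154898392711168))⟩,
    ⟨nat_lit 4, nat_lit 5, (.ofNat (nat_lit 7415872704)), (.ofNat (nat_lit 27958309376)), (.ofNat (nat_lit 7415872720)), (.ofNat (nat_lit 27958309360)), (.negSucc (nat_lit 10893108772799639604942)), (.ofNat (nat_lit 0)), (.ofNat (nat_lit 22844504849094309796785422336))⟩,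
    ⟨nat_lit 5, nat_lit 6, (.ofNat (nat_lit 27958309376)), (.ofNat (nat_lit 42811022144)), (.ofNat (nat_lit 27958309392)), (.ofNat (nat_lit 42811022128)), (.ofNat (nat_lit 10893108772799639604943)), (.ofNat (nat_lit 0)), (.ofNat (nat_lit 0))⟩,
    ⟨nat_lit 8, nat_lit 7, (.negSucc (nat_lit 32810624063)), (.negSucc (nat_lit 20414708351)), (.negSucc (nat_lit 32810624047)), (.negSucc (nat_lit 20414708367)), (.ofNat (nat_lit 10893108772799639604943)), (.ofNat (nat_lit 0)), (.ofNat (nat_lit 251093980730897187777497536902144))⟩,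
    ⟨nat_lit 9, nat_lit 10, (.negSucc (nat_lit 1505644543)), (.ofNat (nat_lit 5593576832)), (.negSucc (nat_lit 1505644527)), (.ofNat (nat_lit 5593576816)), (.ofNat (nat_lit 10893108772799639604943)), (.ofNat (nat_lit 0)), (.ofNat (nat_lit 5711126212273577449196355584))⟩,
    ⟨nat_lit 11, nat_lit 10, (.negSucc (nat_lit 29617164159)), (.ofNat (nat_lit 5593576832)), (.negSucc (nat_lit 29617164143)), (.ofNat (nat_lit 5593576816)), (.negSucc (nat_lit 10893108772799639604942)), (.ofNat (nat_lit 0)), (.ofNat (nat_lit 11422252424547154898392711168))⟩,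
    ⟨nat_lit 11, nat_lit 12, (.negSucc (nat_lit 29617164159)), (.negSucc (nat_lit 21732690303)), (.negSucc (nat_lit 29617164143)), (.negSucc (nat_lit 21732690319)), (.ofNat (nat_lit 10893108772799639604943)), (.ofNat (nat_lit 0)), (.ofNat (nat_lit 251099691857109461354946733257728))⟩,
    ⟨nat_lit 12, nat_lit 7, (.negSucc (nat_lit 21732690303)), (.negSucc (nat_lit 20414708351)), (.negSucc (nat_lit 21732690287)), (.negSucc (nat_lit 20414708367)), (.negSucc (nat_lit 10893108772799639604942)), (.ofNat (nat_lit 0)), (.ofNat (nat_lit 17133378636820732347589066752))⟩,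
    ⟨nat_lit 13, nat_lit 9, (.negSucc (nat_lit 20529067391)), (.negSucc (nat_lit 1505644543)), (.negSucc (nat_lit 20529067375)), (.negSucc (nat_lit 1505644559)), (.negSucc (nat_lit 10893108772799639604942)), (.ofNat (nat_lit 0)), (.ofNat (nat_lit 0))⟩]

theorem ok152 : stOK 13 13 S152 = true := by decide +kernel

def S153 : SD where
  vs := [
    ⟨nat_lit 2, nat_lit 0, nat_lit 1, (.ofNat (nat_lit 8)), (.ofNat (nat_lit 20716803648)), (.ofNat (nat_lit 707453891808388486950238871507904)), (.negSucc (nat_lit 1535004607)), (.ofNat (nat_lit 16749527792754039741572786355264)), (.ofNat (nat_lit 20716803632)), (.ofNat (nat_lit 20716803664)), (.negSucc (nat_lit 10893108772799639604942)), (.ofNat (nat_lit 10893108772799639604943)), (.negSucc (nat_lit 10893108772799639604942)), (.ofNat (nat_lit 10893108772799639604943)), (.ofNat (nat_lit 0))⟩,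
    ⟨nat_lit 1, nat_lit 1, nat_lit 2, (.ofNat (nat_lit 8)), (.ofNat (nat_lit 35596528448)), (.ofNat (nat_lit 869540352564112849810971431194304)), (.negSucc (nat_lit 1534742463)), (.ofNat (nat_lit 16752383355860176530297384533056)), (.ofNat (nat_lit 35596528432)), (.ofNat (nat_lit 35596528464)), (.ofNat (nat_lit 10893108772799639604943)), (.negSucc (nat_lit 10893108772799639604942)), (.negSucc (nat_lit 10893108772799639604942)), (.ofNat (nat_lit 10893108772799639604943)), (.ofNat (nat_lit 0))⟩,
    ⟨nat_lit 0, nat_lit 3, nat_lit 2, (.ofNat (nat_lit 8)), (.ofNat (nat_lit 19325514432)), (.ofNat (nat_lit 1046782278084148345382747687075392)), (.negSucc (nat_lit 1535528895)), (.ofNat (nat_lit 16760950045178586896471179066432)), (.ofNat (nat_lit 19325514416)), (.ofNat (nat_lit 19325514448)), (.ofNat (nat_lit 10893108772799639604943)), (.negSucc (nat_lit 10893108772799639604942)), (.negSucc (nat_lit 10893108772799639604942)), (.ofNat (nat_lit 10893108772799639604943)), (.ofNat (nat_lit 0))⟩,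
    ⟨nat_lit 2, nat_lit 4, nat_lit 3, (.ofNat (nat_lit 8)), (.negSucc (nat_lit 35765132287)), (.ofNat (nat_lit 446673870999310654563512508338432)), (.negSucc (nat_lit 1536839615)), (.ofNat (nat_lit 16746672229647902952848188177472)), (.negSucc (nat_lit 35765132303)), (.negSucc (nat_lit 35765132271)), (.negSucc (nat_lit 10893108772799639604942)), (.ofNat (nat_lit 10893108772799639604943)), (.negSucc (nat_lit 10893108772799639604942)), (.ofNat (nat_lit 10893108772799639604943)), (.ofNat (nat_lit 0))⟩,
    ⟨nat_lit 0, nat_lit 5, nat_lit 6, (.ofNat (nat_lit 8)), (.ofNat (nat_lit 5880868096)), (.ofNat (nat_lit 545473208890409440628280019761408)), (.negSucc (nat_lit 1535004607)), (.ofNat (nat_lit 16743816666541766164123589999680)), (.ofNat (nat_lit 5880868080)), (.ofNat (nat_lit 5880868112)), (.ofNat (nat_lit 10893108772799639604943)), (.negSucc (nat_lit 10893108772799639604942)), (.negSucc (nat_lit 10893108772799639604942)), (.ofNat (nat_lit 10893108772799639604943)), (.ofNat (nat_lit 0))⟩,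
    ⟨nat_lit 0, nat_lit 6, nat_lit 7, (.ofNat (nat_lit 8)), (.ofNat (nat_lit 26423566912)), (.ofNat (nat_lit 321699356200859071110590745913920)), (.negSucc (nat_lit 1534742463)), (.ofNat (nat_lit 16740961103435629375398991821888)), (.ofNat (nat_lit 26423566896)), (.ofNat (nat_lit 26423566928)), (.negSucc (nat_lit 10893108772799639604942)), (.ofNat (nat_lit 10893108772799639604943)), (.negSucc (nat_lit 10893108772799639604942)), (.ofNat (nat_lit 10893108772799639604943)), (.ofNat (nat_lit 0))⟩,
    ⟨nat_lit 1, nat_lit 7, nat_lit 0, (.ofNat (nat_lit 8)), (.ofNat (nat_lit 41276541824)), (.ofNat (nat_lit 483494427516939226165450716103936)), (.negSucc (nat_lit 1534480319)), (.ofNat (nat_lit 16743816666541766164123589999680)), (.ofNat (nat_lit 41276541808)), (.ofNat (nat_lit 41276541840)), (.ofNat (nat_lit 10893108772799639604943)), (.negSucc (nat_lit 10893108772799639604942)), (.negSucc (nat_lit 10893108772799639604942)), (.ofNat (nat_lit 10893108772799639604943)), (.ofNat (nat_lit 0))⟩,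
    ⟨nat_lit 1, nat_lit 8, nat_lit 12, (.ofNat (nat_lit 8)), (.negSucc (nat_lit 21950499391)), (.ofNat (nat_lit 566261110837855292028721702173504)), (.negSucc (nat_lit 1535791039)), (.ofNat (nat_lit 16746672229647902952848188177472)), (.negSucc (nat_lit 21950499407)), (.negSucc (nat_lit 21950499375)), (.ofNat (nat_lit 10893108772799639604943)), (.negSucc (nat_lit 10893108772799639604942)), (.negSucc (nat_lit 10893108772799639604942)), (.ofNat (nat_lit 10893108772799639604943)), (.ofNat (nat_lit 0))⟩,
    ⟨nat_lit 0, nat_lit 4, nat_lit 8, (.ofNat (nat_lit 8)), (.negSucc (nat_lit 34346939391)), (.ofNat (nat_lit 431225341522370927644422099253504)), (.negSucc (nat_lit 1536315327)), (.ofNat (nat_lit 16740961103435629375398991821888)), (.negSucc (nat_lit 34346939407)), (.negSucc (nat_lit 34346939375)), (.negSucc (nat_lit 10893108772799639604942)), (.ofNat (nat_lit 10893108772799639604943)), (.negSucc (nat_lit 10893108772799639604942)), (.ofNat (nat_lit 10893108772799639604943)), (.ofNat (nat_lit 0))⟩,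
    ⟨nat_lit 0, nat_lit 13, nat_lit 9, (.ofNat (nat_lit 8)), (.negSucc (nat_lit 1505644543)), (.ofNat (nat_lit 17097905794543766506796829329536)), (.ofNat (nat_lit 0)), (.ofNat (nat_lit 0)), (.negSucc (nat_lit 1505644559)), (.negSucc (nat_lit 1505644527)), (.negSucc (nat_lit 10893108772799639604942)), (.ofNat (nat_lit 10893108772799639604943)), (.negSucc (nat_lit 10893108772799639604942)), (.ofNat (nat_lit 10893108772799639604943)), (.ofNat (nat_lit 0))⟩,
    ⟨nat_lit 1, nat_lit 9, nat_lit 10, (.ofNat (nat_lit 8)), (.ofNat (nat_lit 5594101120)), (.ofNat (nat_lit 94436207571708368932753566546688)), (.ofNat (nat_lit 524288)), (.ofNat (nat_lit 5711126212273577449196355584)), (.ofNat (nat_lit 5594101104)), (.ofNat (nat_lit 5594101136)), (.ofNat (nat_lit 10893108772799639604943)), (.negSucc (nat_lit 10893108772799639604942)), (.negSucc (nat_lit 10893108772799639604942)), (.ofNat (nat_lit 10893108772799639604943)), (.ofNat (nat_lit 0))⟩,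
    ⟨nat_lit 2, nat_lit 10, nat_lit 11, (.ofNat (nat_lit 8)), (.negSucc (nat_lit 31153479487)), (.ofNat (nat_lit 494731600271875083148745734292032)), (.negSucc (nat_lit 1536315327)), (.ofNat (nat_lit 16746672229647902952848188177472)), (.negSucc (nat_lit 31153479503)), (.negSucc (nat_lit 31153479471)), (.negSucc (nat_lit 10893108772799639604942)), (.ofNat (nat_lit 10893108772799639604943)), (.negSucc (nat_lit 10893108772799639604942)), (.ofNat (nat_lit 10893108772799639604943)), (.ofNat (nat_lit 0))⟩,
    ⟨nat_lit 0, nat_lit 11, nat_lit 12, (.ofNat (nat_lit 8)), (.negSucc (nat_lit 23268743487)), (.ofNat (nat_lit 580620887164684222328865584340032)), (.negSucc (nat_lit 1536053183)), (.ofNat (nat_lit 16749527792754039741572786355264)), (.negSucc (nat_lit 23268743503)), (.negSucc (nat_lit 23268743471)), (.ofNat (nat_lit 10893108772799639604943)), (.negSucc (nat_lit 10893108772799639604942)), (.negSucc (nat_lit 10893108772799639604942)), (.ofNat (nat_lit 10893108772799639604943)), (.ofNat (nat_lit 0))⟩,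
    ⟨nat_lit 2, nat_lit 13, nat_lit 5, (.ofNat (nat_lit 8)), (.negSucc (nat_lit 22065120575)), (.ofNat (nat_lit 241054514522886890502860386555712)), (.negSucc (nat_lit 1536053183)), (.ofNat (nat_lit 16732394414117219009225197288512)), (.negSucc (nat_lit 22065120591)), (.negSucc (nat_lit 22065120559)), (.negSucc (nat_lit 10893108772799639604942)), (.ofNat (nat_lit 10893108772799639604943)), (.negSucc (nat_lit 10893108772799639604942)), (.ofNat (nat_lit 10893108772799639604943)), (.ofNat (nat_lit 0))⟩]
  es := [
    ⟨nat_lit 0, nat_lit 6, (.ofNat (nat_lit 20716803648)), (.ofNat (nat_lit 41276541824)), (.ofNat (nat_lit 20716803664)), (.ofNat (nat_lit 41276541808)), (.negSucc (nat_lit 10893108772799639604942)), (.ofNat (nat_lit 0)), (.ofNat (nat_lit 28555631061367887245981777920))⟩,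
    ⟨nat_lit 0, nat_lit 1, (.ofNat (nat_lit 20716803648)), (.ofNat (nat_lit 35596528448)), (.ofNat (nat_lit 20716803664)), (.ofNat (nat_lit 35596528432)), (.ofNat (nat_lit 10893108772799639604943)), (.ofNat (nat_lit 0)), (.ofNat (nat_lit 33470499954446711595899590932608))⟩,
    ⟨nat_lit 2, nat_lit 1, (.ofNat (nat_lit 19325514432)), (.ofNat (nat_lit 35596528448)), (.ofNat (nat_lit 19325514448)), (.ofNat (nat_lit 35596528432)), (.negSucc (nat_lit 10893108772799639604942)), (.ofNat (nat_lit 0)), (.ofNat (nat_lit 34266757273641464695178133504))⟩,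
    ⟨nat_lit 3, nat_lit 2, (.negSucc (nat_lit 35765132287)), (.ofNat (nat_lit 19325514432)), (.negSucc (nat_lit 35765132271)), (.ofNat (nat_lit 19325514416)), (.ofNat (nat_lit 10893108772799639604943)), (.ofNat (nat_lit 0)), (.ofNat (nat_lit 33487633333083532328247179999360))⟩,
    ⟨nat_lit 3, nat_lit 8, (.negSucc (nat_lit 35765132287)), (.negSucc (nat_lit 34346939391)), (.negSucc (nat_lit 35765132271)), (.negSucc (nat_lit 34346939407)), (.negSucc (nat_lit 10893108772799639604942)), (.ofNat (nat_lit 0)), (.ofNat (nat_lit 5711126212273577449196355584))⟩,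
    ⟨nat_lit 13, nat_lit 4, (.negSucc (nat_lit 22065120575)), (.ofNat (nat_lit 5880868096)), (.negSucc (nat_lit 22065120559)), (.ofNat (nat_lit 5880868080)), (.ofNat (nat_lit 10893108772799639604943)), (.ofNat (nat_lit 0)), (.ofNat (nat_lit 33464788828234438018450394577024))⟩,
    ⟨nat_lit 4, nat_lit 5, (.ofNat (nat_lit 5880868096)), (.ofNat (nat_lit 26423566912)), (.ofNat (nat_lit 5880868112)), (.ofNat (nat_lit 26423566896)), (.negSucc (nat_lit 10893108772799639604942)), (.ofNat (nat_lit 0)), (.ofNat (nat_lit 22844504849094309796785422336))⟩,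
    ⟨nat_lit 5, nat_lit 6, (.ofNat (nat_lit 26423566912)), (.ofNat (nat_lit 41276541824)), (.ofNat (nat_lit 26423566928)), (.ofNat (nat_lit 41276541808)), (.ofNat (nat_lit 10893108772799639604943)), (.ofNat (nat_lit 0)), (.ofNat (nat_lit 33459077702022164441001198221440))⟩,
    ⟨nat_lit 8, nat_lit 7, (.negSucc (nat_lit 34346939391)), (.negSucc (nat_lit 21950499391)), (.negSucc (nat_lit 34346939375)), (.negSucc (nat_lit 21950499407)), (.ofNat (nat_lit 10893108772799639604943)), (.ofNat (nat_lit 0)), (.ofNat (nat_lit 33476211080658985173348787288192))⟩,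
    ⟨nat_lit 9, nat_lit 10, (.negSucc (nat_lit 1505644543)), (.ofNat (nat_lit 5594101120)), (.negSucc (nat_lit 1505644527)), (.ofNat (nat_lit 5594101104)), (.ofNat (nat_lit 10893108772799639604943)), (.ofNat (nat_lit 0)), (.ofNat (nat_lit 0))⟩,
    ⟨nat_lit 11, nat_lit 10, (.negSucc (nat_lit 31153479487)), (.ofNat (nat_lit 5594101120)), (.negSucc (nat_lit 31153479471)), (.ofNat (nat_lit 5594101104)), (.negSucc (nat_lit 10893108772799639604942)), (.ofNat (nat_lit 0)), (.ofNat (nat_lit 11422252424547154898392711168))⟩,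
    ⟨nat_lit 11, nat_lit 12, (.negSucc (nat_lit 31153479487)), (.negSucc (nat_lit 23268743487)), (.negSucc (nat_lit 31153479471)), (.negSucc (nat_lit 23268743503)), (.ofNat (nat_lit 10893108772799639604943)), (.ofNat (nat_lit 0)), (.ofNat (nat_lit 33481922206871258750797983643776))⟩,
    ⟨nat_lit 12, nat_lit 7, (.negSucc (nat_lit 23268743487)), (.negSucc (nat_lit 21950499391)), (.negSucc (nat_lit 23268743471)), (.negSucc (nat_lit 21950499407)), (.negSucc (nat_lit 10893108772799639604942)), (.ofNat (nat_lit 0)), (.ofNat (nat_lit 17133378636820732347589066752))⟩,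
    ⟨nat_lit 13, nat_lit 9, (.negSucc (nat_lit 22065120575)), (.negSucc (nat_lit 1505644543)), (.negSucc (nat_lit 22065120559)), (.negSucc (nat_lit 1505644559)), (.negSucc (nat_lit 10893108772799639604942)), (.ofNat (nat_lit 0)), (.ofNat (nat_lit 0))⟩]

theorem ok153 : stOK 13 13 S153 = true := by decide +kernel

def S154 : SD where
  vs := [
    ⟨nat_lit 2, nat_lit 0, nat_lit 1, (.ofNat (nat_lit 8)), (.ofNat (nat_lit 174891328)), (.ofNat (nat_lit 931247732742522852529823397883584)), (.negSucc (nat_lit 20541912319)), (.ofNat (nat_lit 223793840934134365579584526375680)), (.ofNat (nat_lit 174891312)), (.ofNat (nat_lit 174891344)), (.negSucc (nat_lit 10893108772799639604942)), (.ofNat (nat_lit 10893108772799639604943)), (.negSucc (nat_lit 10893108772799639604942)), (.ofNat (nat_lit 10893108772799639604943)), (.ofNat (nat_lit 0))⟩,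
    ⟨nat_lit 1, nat_lit 1, nat_lit 2, (.ofNat (nat_lit 8)), (.ofNat (nat_lit 15054878272)), (.ofNat (nat_lit 1093337049061353352179280555747776)), (.negSucc (nat_lit 20541650175)), (.ofNat (nat_lit 223796696497240502368309124553472)), (.ofNat (nat_lit 15054878256)), (.ofNat (nat_lit 15054878288)), (.ofNat (nat_lit 10893108772799639604943)), (.negSucc (nat_lit 10893108772799639604942)), (.negSucc (nat_lit 10893108772799639604942)), (.ofNat (nat_lit 10893108772799639604943)), (.ofNat (nat_lit 0))⟩,
    ⟨nat_lit 0, nat_lit 3, nat_lit 2, (.ofNat (nat_lit 8)), (.negSucc (nat_lit 1216922175)), (.ofNat (nat_lit 1270587541270707258117230606162240)), (.negSucc (nat_lit 20542436607)), (.ofNat (nat_lit 223805263186558912734482919086848)), (.negSucc (nat_lit 1216922191)), (.negSucc (nat_lit 1216922159)), (.ofNat (nat_lit 10893108772799639604943)), (.negSucc (nat_lit 10893108772799639604942)), (.negSucc (nat_lit 10893108772799639604942)), (.ofNat (nat_lit 10893108772799639604943)), (.ofNat (nat_lit 0))⟩,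
    ⟨nat_lit 2, nat_lit 4, nat_lit 3, (.ofNat (nat_lit 8)), (.negSucc (nat_lit 56308879615)), (.ofNat (nat_lit 670464856370338883354372436536320)), (.negSucc (nat_lit 20543747327)), (.ofNat (nat_lit 223790985371028228790859928197888)), (.negSucc (nat_lit 56308879631)), (.negSucc (nat_lit 56308879599)), (.negSucc (nat_lit 10893108772799639604942)), (.ofNat (nat_lit 10893108772799639604943)), (.negSucc (nat_lit 10893108772799639604942)), (.ofNat (nat_lit 10893108772799639604943)), (.ofNat (nat_lit 0))⟩,
    ⟨nat_lit 0, nat_lit 5, nat_lit 6, (.ofNat (nat_lit 8)), (.ofNat (nat_lit 5881654528)), (.ofNat (nat_lit 545487486705940124571903010650368)), (.ofNat (nat_lit 786432)), (.ofNat (nat_lit 14277815530683943622990888960)), (.ofNat (nat_lit 5881654512)), (.ofNat (nat_lit 5881654544)), (.ofNat (nat_lit 10893108772799639604943)), (.negSucc (nat_lit 10893108772799639604942)), (.negSucc (nat_lit 10893108772799639604942)), (.ofNat (nat_lit 10893108772799639604943)), (.ofNat (nat_lit 0))⟩,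
    ⟨nat_lit 0, nat_lit 6, nat_lit 7, (.ofNat (nat_lit 8)), (.ofNat (nat_lit 5881654592)), (.ofNat (nat_lit 545487486008781163112726075934016)), (.negSucc (nat_lit 20541912319)), (.ofNat (nat_lit 223788129807922092002135330020096)), (.ofNat (nat_lit 5881654576)), (.ofNat (nat_lit 5881654608)), (.negSucc (nat_lit 10893108772799639604942)), (.ofNat (nat_lit 10893108772799639604943)), (.negSucc (nat_lit 10893108772799639604942)), (.ofNat (nat_lit 10893108772799639604943)), (.ofNat (nat_lit 0))⟩,
    ⟨nat_lit 1, nat_lit 7, nat_lit 0, (.ofNat (nat_lit 8)), (.ofNat (nat_lit 20734891648)), (.ofNat (nat_lit 707285412887967454956310644301824)), (.negSucc (nat_lit 20541650175)), (.ofNat (nat_lit 223790985371028228790859928197888)), (.ofNat (nat_lit 20734891632)), (.ofNat (nat_lit 20734891664)), (.ofNat (nat_lit 10893108772799639604943)), (.negSucc (nat_lit 10893108772799639604942)), (.negSucc (nat_lit 10893108772799639604942)), (.ofNat (nat_lit 10893108772799639604943)), (.ofNat (nat_lit 0))⟩,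
    ⟨nat_lit 1, nat_lit 8, nat_lit 12, (.ofNat (nat_lit 8)), (.negSucc (nat_lit 42493198143)), (.ofNat (nat_lit 790052096208883520819581630371392)), (.negSucc (nat_lit 20542698751)), (.ofNat (nat_lit 223790985371028228790859928197888)), (.negSucc (nat_lit 42493198159)), (.negSucc (nat_lit 42493198127)), (.ofNat (nat_lit 10893108772799639604943)), (.negSucc (nat_lit 10893108772799639604942)), (.negSucc (nat_lit 10893108772799639604942)), (.ofNat (nat_lit 10893108772799639604943)), (.ofNat (nat_lit 0))⟩,
    ⟨nat_lit 0, nat_lit 4, nat_lit 8, (.ofNat (nat_lit 8)), (.negSucc (nat_lit 54890162431)), (.ofNat (nat_lit 655010615767186882857832831095808)), (.negSucc (nat_lit 20543223039)), (.ofNat (nat_lit 223785274244815955213410731842304)), (.negSucc (nat_lit 54890162447)), (.negSucc (nat_lit 54890162415)), (.negSucc (nat_lit 10893108772799639604942)), (.ofNat (nat_lit 10893108772799639604943)), (.negSucc (nat_lit 10893108772799639604942)), (.ofNat (nat_lit 10893108772799639604943)), (.ofNat (nat_lit 0))⟩,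
    ⟨nat_lit 0, nat_lit 13, nat_lit 9, (.ofNat (nat_lit 8)), (.negSucc (nat_lit 1505644543)), (.ofNat (nat_lit 17097905794543766506796829329536)), (.ofNat (nat_lit 0)), (.ofNat (nat_lit 0)), (.negSucc (nat_lit 1505644559)), (.negSucc (nat_lit 1505644527)), (.negSucc (nat_lit 10893108772799639604942)), (.ofNat (nat_lit 10893108772799639604943)), (.negSucc (nat_lit 10893108772799639604942)), (.ofNat (nat_lit 10893108772799639604943)), (.ofNat (nat_lit 0))⟩,
    ⟨nat_lit 1, nat_lit 9, nat_lit 10, (.ofNat (nat_lit 8)), (.ofNat (nat_lit 5594625408)), (.ofNat (nat_lit 94441918697920642510202762902272)), (.ofNat (nat_lit 524288)), (.ofNat (nat_lit 5711126212273577449196355584)), (.ofNat (nat_lit 5594625392)), (.ofNat (nat_lit 5594625424)), (.ofNat (nat_lit 10893108772799639604943)), (.negSucc (nat_lit 10893108772799639604942)), (.negSucc (nat_lit 10893108772799639604942)), (.ofNat (nat_lit 10893108772799639604943)), (.ofNat (nat_lit 0))⟩,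
    ⟨nat_lit 2, nat_lit 10, nat_lit 11, (.ofNat (nat_lit 8)), (.negSucc (nat_lit 51696702527)), (.ofNat (nat_lit 718522585642903311939605662489920)), (.negSucc (nat_lit 20543223039)), (.ofNat (nat_lit 223790985371028228790859928197888)), (.negSucc (nat_lit 51696702543)), (.negSucc (nat_lit 51696702511)), (.negSucc (nat_lit 10893108772799639604942)), (.ofNat (nat_lit 10893108772799639604943)), (.negSucc (nat_lit 10893108772799639604942)), (.ofNat (nat_lit 10893108772799639604943)), (.ofNat (nat_lit 0))⟩,
    ⟨nat_lit 0, nat_lit 11, nat_lit 12, (.ofNat (nat_lit 8)), (.negSucc (nat_lit 43811704383)), (.ofNat (nat_lit 804414728098818587908450110715712)), (.negSucc (nat_lit 20542960895)), (.ofNat (nat_lit 223793840934134365579584526375680)), (.negSucc (nat_lit 43811704399)), (.negSucc (nat_lit 43811704367)), (.ofNat (nat_lit 10893108772799639604943)), (.negSucc (nat_lit 10893108772799639604942)), (.negSucc (nat_lit 10893108772799639604942)), (.ofNat (nat_lit 10893108772799639604943)), (.ofNat (nat_lit 0))⟩,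
    ⟨nat_lit 2, nat_lit 13, nat_lit 5, (.ofNat (nat_lit 8)), (.negSucc (nat_lit 22065382719)), (.ofNat (nat_lit 241057370085993027291584984733504)), (.negSucc (nat_lit 262143)), (.ofNat (nat_lit 2855563106136788724598177792)), (.negSucc (nat_lit 22065382735)), (.negSucc (nat_lit 22065382703)), (.negSucc (nat_lit 10893108772799639604942)), (.ofNat (nat_lit 10893108772799639604943)), (.negSucc (nat_lit 10893108772799639604942)), (.ofNat (nat_lit 10893108772799639604943)), (.ofNat (nat_lit 0))⟩]
  es := [
    ⟨nat_lit 0, nat_lit 6, (.ofNat (nat_lit 174891328)), (.ofNat (nat_lit 20734891648)), (.ofNat (nat_lit 174891344)), (.ofNat (nat_lit 20734891632)), (.negSucc (nat_lit 10893108772799639604942)), (.ofNat (nat_lit 0)), (.ofNat (nat_lit 28555631061367887245981777920))⟩,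
    ⟨nat_lit 0, nat_lit 1, (.ofNat (nat_lit 174891328)), (.ofNat (nat_lit 15054878272)), (.ofNat (nat_lit 174891344)), (.ofNat (nat_lit 15054878256)), (.ofNat (nat_lit 10893108772799639604943)), (.ofNat (nat_lit 0)), (.ofNat (nat_lit 447559126237207363271923070973440))⟩,
    ⟨nat_lit 2, nat_lit 1, (.negSucc (nat_lit 1216922175)), (.ofNat (nat_lit 15054878272)), (.negSucc (nat_lit 1216922159)), (.ofNat (nat_lit 15054878256)), (.negSucc (nat_lit 10893108772799639604942)), (.ofNat (nat_lit 0)), (.ofNat (nat_lit 34266757273641464695178133504))⟩,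
    ⟨nat_lit 3, nat_lit 2, (.negSucc (nat_lit 56308879615)), (.negSucc (nat_lit 1216922175)), (.negSucc (nat_lit 56308879599)), (.negSucc (nat_lit 1216922191)), (.ofNat (nat_lit 10893108772799639604943)), (.ofNat (nat_lit 0)), (.ofNat (nat_lit 447576259615844184004270660040192))⟩,
    ⟨nat_lit 3, nat_lit 8, (.negSucc (nat_lit 56308879615)), (.negSucc (nat_lit 54890162431)), (.negSucc (nat_lit 56308879599)), (.negSucc (nat_lit 54890162447)), (.negSucc (nat_lit 10893108772799639604942)), (.ofNat (nat_lit 0)), (.ofNat (nat_lit 5711126212273577449196355584))⟩,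
    ⟨nat_lit 13, nat_lit 4, (.negSucc (nat_lit 22065382719)), (.ofNat (nat_lit 5881654528)), (.negSucc (nat_lit 22065382703)), (.ofNat (nat_lit 5881654512)), (.ofNat (nat_lit 10893108772799639604943)), (.ofNat (nat_lit 0)), (.ofNat (nat_lit 5711126212273577449196355584))⟩,
    ⟨nat_lit 4, nat_lit 5, (.ofNat (nat_lit 5881654528)), (.ofNat (nat_lit 5881654592)), (.ofNat (nat_lit 5881654544)), (.ofNat (nat_lit 5881654576)), (.negSucc (nat_lit 10893108772799639604942)), (.ofNat (nat_lit 0)), (.ofNat (nat_lit 22844504849094309796785422336))⟩,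
    ⟨nat_lit 5, nat_lit 6, (.ofNat (nat_lit 5881654592)), (.ofNat (nat_lit 20734891648)), (.ofNat (nat_lit 5881654608)), (.ofNat (nat_lit 20734891632)), (.ofNat (nat_lit 10893108772799639604943)), (.ofNat (nat_lit 0)), (.ofNat (nat_lit 447553415110995089694473874617856))⟩,
    ⟨nat_lit 8, nat_lit 7, (.negSucc (nat_lit 54890162431)), (.negSucc (nat_lit 42493198143)), (.negSucc (nat_lit 54890162415)), (.negSucc (nat_lit 42493198159)), (.ofNat (nat_lit 10893108772799639604943)), (.ofNat (nat_lit 0)), (.ofNat (nat_lit 447564837363419636849372267329024))⟩,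
    ⟨nat_lit 9, nat_lit 10, (.negSucc (nat_lit 1505644543)), (.ofNat (nat_lit 5594625408)), (.negSucc (nat_lit 1505644527)), (.ofNat (nat_lit 5594625392)), (.ofNat (nat_lit 10893108772799639604943)), (.ofNat (nat_lit 0)), (.ofNat (nat_lit 0))⟩,
    ⟨nat_lit 11, nat_lit 10, (.negSucc (nat_lit 51696702527)), (.ofNat (nat_lit 5594625408)), (.negSucc (nat_lit 51696702511)), (.ofNat (nat_lit 5594625392)), (.negSucc (nat_lit 10893108772799639604942)), (.ofNat (nat_lit 0)), (.ofNat (nat_lit 11422252424547154898392711168))⟩,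
    ⟨nat_lit 11, nat_lit 12, (.negSucc (nat_lit 51696702527)), (.negSucc (nat_lit 43811704383)), (.negSucc (nat_lit 51696702511)), (.negSucc (nat_lit 43811704399)), (.ofNat (nat_lit 10893108772799639604943)), (.ofNat (nat_lit 0)), (.ofNat (nat_lit 447570548489631910426821463684608))⟩,
    ⟨nat_lit 12, nat_lit 7, (.negSucc (nat_lit 43811704383)), (.negSucc (nat_lit 42493198143)), (.negSucc (nat_lit 43811704367)), (.negSucc (nat_lit 42493198159)), (.negSucc (nat_lit 10893108772799639604942)), (.ofNat (nat_lit 0)), (.ofNat (nat_lit 17133378636820732347589066752))⟩,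
    ⟨nat_lit 13, nat_lit 9, (.negSucc (nat_lit 22065382719)), (.negSucc (nat_lit 1505644543)), (.negSucc (nat_lit 22065382703)), (.negSucc (nat_lit 1505644559)), (.negSucc (nat_lit 10893108772799639604942)), (.ofNat (nat_lit 0)), (.ofNat (nat_lit 0))⟩]

theorem ok154 : stOK 13 13 S154 = true := by decide +kernel

def S155 : SD where
  vs := [
    ⟨nat_lit 2, nat_lit 0, nat_lit 1, (.ofNat (nat_lit 8)), (.ofNat (nat_lit 174891328)), (.ofNat (nat_lit 945798869042840772471530931690240)), (.ofNat (nat_lit 0)), (.ofNat (nat_lit 14551136300317919941707533806656)), (.ofNat (nat_lit 174891312)), (.ofNat (nat_lit 174891344)), (.negSucc (nat_lit 11063318716011615162407)), (.ofNat (nat_lit 11063318164902419041980)), (.negSucc (nat_lit 11063318716011615162407)), (.ofNat (nat_lit 11063318164902419041980)), (.ofNat (nat_lit 1021258557053461103934))⟩,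
    ⟨nat_lit 1, nat_lit 1, nat_lit 2, (.ofNat (nat_lit 8)), (.ofNat (nat_lit 15054878272)), (.ofNat (nat_lit 1110420898893906806850210319599360)), (.ofNat (nat_lit 0)), (.ofNat (nat_lit 17083849832553454670929763851584)), (.ofNat (nat_lit 15054878256)), (.ofNat (nat_lit 15054878288)), (.ofNat (nat_lit 11063318164902419041980)), (.negSucc (nat_lit 11063318164902419041979)), (.negSucc (nat_lit 11063318164902419041979)), (.ofNat (nat_lit 11063318164902419041980)), (.ofNat (nat_lit 1021256352616676622222))⟩,
    ⟨nat_lit 0, nat_lit 3, nat_lit 2, (.ofNat (nat_lit 8)), (.negSucc (nat_lit 1216922175)), (.ofNat (nat_lit 1290441004365932526893784214406400)), (.ofNat (nat_lit 0)), (.ofNat (nat_lit 19853463095225268776553608244160)), (.negSucc (nat_lit 1216922191)), (.negSucc (nat_lit 1216922159)), (.ofNat (nat_lit 11063318164902419041980)), (.negSucc (nat_lit 11063318164902419041979)), (.negSucc (nat_lit 11063318164902419041979)), (.ofNat (nat_lit 11063318164902419041980)), (.ofNat (nat_lit 1021256352616676622222))⟩,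
    ⟨nat_lit 2, nat_lit 4, nat_lit 3, (.ofNat (nat_lit 8)), (.negSucc (nat_lit 56308879615)), (.ofNat (nat_lit 680941150879949555279976481075200)), (.ofNat (nat_lit 0)), (.ofNat (nat_lit 10476294509610671925604044538880)), (.negSucc (nat_lit 56308879631)), (.negSucc (nat_lit 56308879599)), (.negSucc (nat_lit 11063318164902419041979)), (.ofNat (nat_lit 11063318164902419041980)), (.negSucc (nat_lit 11063318164902419041979)), (.ofNat (nat_lit 11063318164902419041980)), (.ofNat (nat_lit 1021256352616676622222))⟩,
    ⟨nat_lit 0, nat_lit 5, nat_lit 6, (.ofNat (nat_lit 8)), (.ofNat (nat_lit 5881654528)), (.ofNat (nat_lit 554010949087718062472777620558080)), (.ofNat (nat_lit 0)), (.ofNat (nat_lit 8523462381777937900874609907712)), (.ofNat (nat_lit 5881654512)), (.ofNat (nat_lit 5881654544)), (.ofNat (nat_lit 11063317867079328841680)), (.ofNat (nat_lit 11063317867079328841680)), (.ofNat (nat_lit 11063317867079328841680)), (.ofNat (nat_lit 11063317867079328841680)), (.ofNat (nat_lit 43912853279757936893246))⟩,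
    ⟨nat_lit 0, nat_lit 6, nat_lit 7, (.ofNat (nat_lit 8)), (.ofNat (nat_lit 5881654592)), (.ofNat (nat_lit 554010949795770405965854666425600)), (.ofNat (nat_lit 0)), (.ofNat (nat_lit 8523463786989242853128590491584)), (.ofNat (nat_lit 5881654576)), (.ofNat (nat_lit 5881654608)), (.ofNat (nat_lit 11063317867079328841680)), (.ofNat (nat_lit 11063317867079328841680)), (.ofNat (nat_lit 11063317867079328841680)), (.ofNat (nat_lit 11063317867079328841680)), (.ofNat (nat_lit 87485288370956495313018))⟩,
    ⟨nat_lit 1, nat_lit 7, nat_lit 0, (.ofNat (nat_lit 8)), (.ofNat (nat_lit 20734891648)), (.ofNat (nat_lit 718337032701379975608705599719680)), (.ofNat (nat_lit 0)), (.ofNat (nat_lit 11051619813412520652394955417856)), (.ofNat (nat_lit 20734891632)), (.ofNat (nat_lit 20734891664)), (.ofNat (nat_lit 11063317867079328841680)), (.negSucc (nat_lit 11063318716011615162407)), (.negSucc (nat_lit 11063318716011615162407)), (.ofNat (nat_lit 11063317867079328841680)), (.ofNat (nat_lit 1021256263542708061878))⟩,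
    ⟨nat_lit 1, nat_lit 8, nat_lit 12, (.ofNat (nat_lit 8)), (.negSucc (nat_lit 42493198143)), (.ofNat (nat_lit 802396991484420131570187870501120)), (.ofNat (nat_lit 0)), (.ofNat (nat_lit 12344895275536610750606240129728)), (.negSucc (nat_lit 42493198159)), (.negSucc (nat_lit 42493198127)), (.ofNat (nat_lit 11063318164902419041980)), (.negSucc (nat_lit 11063318164902419041979)), (.negSucc (nat_lit 11063318164902419041979)), (.ofNat (nat_lit 11063318164902419041980)), (.ofNat (nat_lit 1021256352616676622222))⟩,
    ⟨nat_lit 0, nat_lit 4, nat_lit 8, (.ofNat (nat_lit 8)), (.negSucc (nat_lit 54890162431)), (.ofNat (nat_lit 665245431287343147701950637690880)), (.ofNat (nat_lit 0)), (.ofNat (nat_lit 10234815520156264844117806595072)), (.negSucc (nat_lit 54890162447)), (.negSucc (nat_lit 54890162415)), (.negSucc (nat_lit 11063318164902419041979)), (.ofNat (nat_lit 11063318164902419041980)), (.negSucc (nat_lit 11063318164902419041979)), (.ofNat (nat_lit 11063318164902419041980)), (.ofNat (nat_lit 1021256352616676622222))⟩,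
    ⟨nat_lit 0, nat_lit 13, nat_lit 9, (.ofNat (nat_lit 8)), (.negSucc (nat_lit 1505644543)), (.ofNat (nat_lit 17365067741809618271360413032960)), (.ofNat (nat_lit 0)), (.ofNat (nat_lit 267161947265851764563583703424)), (.negSucc (nat_lit 1505644559)), (.negSucc (nat_lit 1505644527)), (.negSucc (nat_lit 11063318164902419041979)), (.ofNat (nat_lit 11063318164902419041980)), (.negSucc (nat_lit 11063318164902419041979)), (.ofNat (nat_lit 11063318164902419041980)), (.ofNat (nat_lit 1021256352616676622222))⟩,
    ⟨nat_lit 1, nat_lit 9, nat_lit 10, (.ofNat (nat_lit 8)), (.ofNat (nat_lit 5594625408)), (.ofNat (nat_lit 95917613277482045207243633617920)), (.ofNat (nat_lit 0)), (.ofNat (nat_lit 1475694579561402697040870715648)), (.ofNat (nat_lit 5594625392)), (.ofNat (nat_lit 5594625424)), (.ofNat (nat_lit 11063318164902419041980)), (.negSucc (nat_lit 11063318164902419041979)), (.negSucc (nat_lit 11063318164902419041979)), (.ofNat (nat_lit 11063318164902419041980)), (.ofNat (nat_lit 1021256352616676622222))⟩,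
    ⟨nat_lit 2, nat_lit 10, nat_lit 11, (.ofNat (nat_lit 8)), (.negSucc (nat_lit 51696702527)), (.ofNat (nat_lit 729749802323212259981010764371200)), (.ofNat (nat_lit 0)), (.ofNat (nat_lit 11227216680308948041405101881280)), (.negSucc (nat_lit 51696702543)), (.negSucc (nat_lit 51696702511)), (.negSucc (nat_lit 11063318164902419041979)), (.ofNat (nat_lit 11063318164902419041980)), (.negSucc (nat_lit 11063318164902419041979)), (.ofNat (nat_lit 11063318164902419041980)), (.ofNat (nat_lit 1021256352616676622222))⟩,
    ⟨nat_lit 0, nat_lit 11, nat_lit 12, (.ofNat (nat_lit 8)), (.negSucc (nat_lit 43811704383)), (.ofNat (nat_lit 816984045519949320068133322456320)), (.ofNat (nat_lit 0)), (.ofNat (nat_lit 12569317421130732159683211740608)), (.negSucc (nat_lit 43811704399)), (.negSucc (nat_lit 43811704367)), (.ofNat (nat_lit 11063318164902419041980)), (.negSucc (nat_lit 11063318164902419041979)), (.negSucc (nat_lit 11063318164902419041979)), (.ofNat (nat_lit 11063318164902419041980)), (.ofNat (nat_lit 1021256352616676622222))⟩,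
    ⟨nat_lit 2, nat_lit 13, nat_lit 5, (.ofNat (nat_lit 8)), (.negSucc (nat_lit 22065382719)), (.ofNat (nat_lit 244823992569988146363505965661440)), (.ofNat (nat_lit 0)), (.ofNat (nat_lit 3766622483995119071920980927936)), (.negSucc (nat_lit 22065382735)), (.negSucc (nat_lit 22065382703)), (.negSucc (nat_lit 11063318164902419041979)), (.ofNat (nat_lit 11063317867079328841680)), (.negSucc (nat_lit 11063318164902419041979)), (.ofNat (nat_lit 11063317867079328841680)), (.ofNat (nat_lit 1021255756970496221622))⟩]
  es := [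
    ⟨nat_lit 0, nat_lit 6, (.ofNat (nat_lit 174891328)), (.ofNat (nat_lit 20734891648)), (.ofNat (nat_lit 174891344)), (.ofNat (nat_lit 20734891632)), (.negSucc (nat_lit 11063318716011615162407)), (.negSucc (nat_lit 170209943211975557464)), (.ofNat (nat_lit 14580904543325066932456127970176))⟩,
    ⟨nat_lit 0, nat_lit 1, (.ofNat (nat_lit 174891328)), (.ofNat (nat_lit 15054878272)), (.ofNat (nat_lit 174891344)), (.ofNat (nat_lit 15054878256)), (.ofNat (nat_lit 11063318164902419041980)), (.ofNat (nat_lit 170209392102779437037)), (.ofNat (nat_lit 14521368153694992133473040491520))⟩,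
    ⟨nat_lit 2, nat_lit 1, (.negSucc (nat_lit 1216922175)), (.ofNat (nat_lit 15054878272)), (.negSucc (nat_lit 1216922159)), (.ofNat (nat_lit 15054878256)), (.negSucc (nat_lit 11063318164902419041979)), (.negSucc (nat_lit 170209392102779437036)), (.ofNat (nat_lit 19646331511411917208386487211648))⟩,
    ⟨nat_lit 3, nat_lit 2, (.negSucc (nat_lit 56308879615)), (.negSucc (nat_lit 1216922175)), (.negSucc (nat_lit 56308879599)), (.negSucc (nat_lit 1216922191)), (.ofNat (nat_lit 11063318164902419041980)), (.ofNat (nat_lit 170209392102779437037)), (.ofNat (nat_lit 20060594679038620344720729276672))⟩,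
    ⟨nat_lit 3, nat_lit 8, (.negSucc (nat_lit 56308879615)), (.negSucc (nat_lit 54890162431)), (.negSucc (nat_lit 56308879599)), (.negSucc (nat_lit 54890162447)), (.negSucc (nat_lit 11063318164902419041979)), (.negSucc (nat_lit 170209392102779437036)), (.ofNat (nat_lit 891994340182723506487359801088))⟩,
    ⟨nat_lit 13, nat_lit 4, (.negSucc (nat_lit 22065382719)), (.ofNat (nat_lit 5881654528)), (.negSucc (nat_lit 22065382703)), (.ofNat (nat_lit 5881654512)), (.ofNat (nat_lit 11063317867079328841680)), (.ofNat (nat_lit 170209094279689236737)), (.ofNat (nat_lit 7522351291701024803187569912576))⟩,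
    ⟨nat_lit 4, nat_lit 5, (.ofNat (nat_lit 5881654528)), (.ofNat (nat_lit 5881654592)), (.ofNat (nat_lit 5881654544)), (.ofNat (nat_lit 5881654576)), (.ofNat (nat_lit 11063317867079328841680)), (.ofNat (nat_lit 21956426639878968446623)), (.negSucc (nat_lit 120616653783366022235174684351231))⟩,
    ⟨nat_lit 5, nat_lit 6, (.ofNat (nat_lit 5881654592)), (.ofNat (nat_lit 20734891648)), (.ofNat (nat_lit 5881654608)), (.ofNat (nat_lit 20734891632)), (.ofNat (nat_lit 11063317867079328841680)), (.ofNat (nat_lit 170209094279689236737)), (.ofNat (nat_lit 7522352686018947721541439345280))⟩,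
    ⟨nat_lit 8, nat_lit 7, (.negSucc (nat_lit 54890162431)), (.negSucc (nat_lit 42493198143)), (.negSucc (nat_lit 54890162415)), (.negSucc (nat_lit 42493198159)), (.ofNat (nat_lit 11063318164902419041980)), (.ofNat (nat_lit 170209392102779437037)), (.ofNat (nat_lit 19577636700129806181748253389056))⟩,
    ⟨nat_lit 9, nat_lit 10, (.negSucc (nat_lit 1505644543)), (.ofNat (nat_lit 5594625408)), (.negSucc (nat_lit 1505644527)), (.ofNat (nat_lit 5594625392)), (.ofNat (nat_lit 11063318164902419041980)), (.ofNat (nat_lit 170209392102779437037)), (.ofNat (nat_lit 523436789822958311173734279552))⟩,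
    ⟨nat_lit 11, nat_lit 10, (.negSucc (nat_lit 51696702527)), (.ofNat (nat_lit 5594625408)), (.negSucc (nat_lit 51696702511)), (.ofNat (nat_lit 5594625392)), (.negSucc (nat_lit 11063318164902419041979)), (.negSucc (nat_lit 170209392102779437036)), (.ofNat (nat_lit 2427952369299847082908007151744))⟩,
    ⟨nat_lit 11, nat_lit 12, (.negSucc (nat_lit 51696702527)), (.negSucc (nat_lit 43811704383)), (.negSucc (nat_lit 51696702511)), (.negSucc (nat_lit 43811704399)), (.ofNat (nat_lit 11063318164902419041980)), (.ofNat (nat_lit 170209392102779437037)), (.ofNat (nat_lit 20026480991318048999902196610816))⟩,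
    ⟨nat_lit 12, nat_lit 7, (.negSucc (nat_lit 43811704383)), (.negSucc (nat_lit 42493198143)), (.negSucc (nat_lit 43811704367)), (.negSucc (nat_lit 42493198159)), (.negSucc (nat_lit 11063318164902419041979)), (.negSucc (nat_lit 170209392102779437036)), (.ofNat (nat_lit 5112153850943415319464226870400))⟩,
    ⟨nat_lit 13, nat_lit 9, (.negSucc (nat_lit 22065382719)), (.negSucc (nat_lit 1505644543)), (.negSucc (nat_lit 22065382703)), (.negSucc (nat_lit 1505644559)), (.negSucc (nat_lit 11063318164902419041979)), (.negSucc (nat_lit 170209392102779437036)), (.ofNat (nat_lit 10887104708745217953433127296))⟩]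

theorem ok155 : stOK 13 13 S155 = true := by decide +kernel

def S156 : SD where
  vs := [
    ⟨nat_lit 2, nat_lit 0, nat_lit 1, (.ofNat (nat_lit 8)), (.negSucc (nat_lit 4964551615)), (.ofNat (nat_lit 1002687163347445740262739690530560)), (.negSucc (nat_lit 5139442943)), (.ofNat (nat_lit 56888294304604967791208758840320)), (.negSucc (nat_lit 4964551631)), (.negSucc (nat_lit 4964551599)), (.negSucc (nat_lit 11063318716011615162407)), (.ofNat (nat_lit 11063318164902419041980)), (.negSucc (nat_lit 11063318716011615162407)), (.ofNat (nat_lit 11063318164902419041980)), (.ofNat (nat_lit 0))⟩,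
    ⟨nat_lit 1, nat_lit 1, nat_lit 2, (.ofNat (nat_lit 8)), (.ofNat (nat_lit 9915697472)), (.ofNat (nat_lit 1167312093380988794821156419244800)), (.negSucc (nat_lit 5139180799)), (.ofNat (nat_lit 56891194487081987970946099645440)), (.ofNat (nat_lit 9915697456)), (.ofNat (nat_lit 9915697488)), (.ofNat (nat_lit 11063318164902419041980)), (.negSucc (nat_lit 11063318164902419041979)), (.negSucc (nat_lit 11063318164902419041979)), (.ofNat (nat_lit 11063318164902419041980)), (.ofNat (nat_lit 0))⟩,
    ⟨nat_lit 0, nat_lit 3, nat_lit 2, (.ofNat (nat_lit 8)), (.negSucc (nat_lit 8390864383)), (.ofNat (nat_lit 1369843411699383337217195549959680)), (.negSucc (nat_lit 7173942207)), (.ofNat (nat_lit 79402407333450810323411335553280)), (.negSucc (nat_lit 8390864399)), (.negSucc (nat_lit 8390864367)), (.ofNat (nat_lit 11063318164902419041980)), (.negSucc (nat_lit 11063318164902419041979)), (.negSucc (nat_lit 11063318164902419041979)), (.ofNat (nat_lit 11063318164902419041980)), (.ofNat (nat_lit 0))⟩,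
    ⟨nat_lit 2, nat_lit 4, nat_lit 3, (.ofNat (nat_lit 8)), (.negSucc (nat_lit 63484132543)), (.ofNat (nat_lit 760329057301015264704701112602880)), (.negSucc (nat_lit 7175252927)), (.ofNat (nat_lit 79387906421065709424724631527680)), (.negSucc (nat_lit 63484132559)), (.negSucc (nat_lit 63484132527)), (.negSucc (nat_lit 11063318164902419041979)), (.ofNat (nat_lit 11063318164902419041980)), (.negSucc (nat_lit 11063318164902419041979)), (.ofNat (nat_lit 11063318164902419041980)), (.ofNat (nat_lit 0))⟩,
    ⟨nat_lit 0, nat_lit 5, nat_lit 6, (.ofNat (nat_lit 8)), (.ofNat (nat_lit 3312211520)), (.ofNat (nat_lit 582460714635205139328916182147840)), (.negSucc (nat_lit 2569443007)), (.ofNat (nat_lit 28449765547487076856138561589760)), (.ofNat (nat_lit 3312211504)), (.ofNat (nat_lit 3312211536)), (.ofNat (nat_lit 11063317867079328841680)), (.ofNat (nat_lit 11063317867079328841680)), (.ofNat (nat_lit 11063317867079328841680)), (.ofNat (nat_lit 11063317867079328841680)), (.ofNat (nat_lit 0))⟩,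
    ⟨nat_lit 0, nat_lit 6, nat_lit 7, (.ofNat (nat_lit 8)), (.ofNat (nat_lit 3312211584)), (.ofNat (nat_lit 582460715343257482821993228015360)), (.negSucc (nat_lit 2569443007)), (.ofNat (nat_lit 28449765547487076856138561589760)), (.ofNat (nat_lit 3312211568)), (.ofNat (nat_lit 3312211600)), (.ofNat (nat_lit 11063317867079328841680)), (.ofNat (nat_lit 11063317867079328841680)), (.ofNat (nat_lit 11063317867079328841680)), (.ofNat (nat_lit 11063317867079328841680)), (.ofNat (nat_lit 0))⟩,
    ⟨nat_lit 1, nat_lit 7, nat_lit 0, (.ofNat (nat_lit 8)), (.ofNat (nat_lit 18165710784)), (.ofNat (nat_lit 746789698431266000108424034671360)), (.negSucc (nat_lit 2569180863)), (.ofNat (nat_lit 28452665729886024499718434951680)), (.ofNat (nat_lit 18165710768)), (.ofNat (nat_lit 18165710800)), (.ofNat (nat_lit 11063317867079328841680)), (.negSucc (nat_lit 11063318716011615162407)), (.negSucc (nat_lit 11063318716011615162407)), (.ofNat (nat_lit 11063317867079328841680)), (.ofNat (nat_lit 0))⟩,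
    ⟨nat_lit 1, nat_lit 8, nat_lit 12, (.ofNat (nat_lit 8)), (.negSucc (nat_lit 49490062911)), (.ofNat (nat_lit 879822933664462402601414090292480)), (.negSucc (nat_lit 6996864767)), (.ofNat (nat_lit 77425942180042271031226219791360)), (.negSucc (nat_lit 49490062927)), (.negSucc (nat_lit 49490062895)), (.ofNat (nat_lit 11063318164902419041980)), (.negSucc (nat_lit 11063318164902419041979)), (.negSucc (nat_lit 11063318164902419041979)), (.ofNat (nat_lit 11063318164902419041980)), (.ofNat (nat_lit 0))⟩,
    ⟨nat_lit 0, nat_lit 4, nat_lit 8, (.ofNat (nat_lit 8)), (.negSucc (nat_lit 61887551487)), (.ofNat (nat_lit 742665573102431378373702175872000)), (.negSucc (nat_lit 6997389055)), (.ofNat (nat_lit 77420141815088230671751538181120)), (.negSucc (nat_lit 61887551503)), (.negSucc (nat_lit 61887551471)), (.negSucc (nat_lit 11063318164902419041979)), (.ofNat (nat_lit 11063318164902419041980)), (.negSucc (nat_lit 11063318164902419041979)), (.ofNat (nat_lit 11063318164902419041980)), (.ofNat (nat_lit 0))⟩,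
    ⟨nat_lit 0, nat_lit 13, nat_lit 9, (.ofNat (nat_lit 8)), (.negSucc (nat_lit 1505644543)), (.ofNat (nat_lit 17365067741809618271360413032960)), (.ofNat (nat_lit 0)), (.ofNat (nat_lit 0)), (.negSucc (nat_lit 1505644559)), (.negSucc (nat_lit 1505644527)), (.negSucc (nat_lit 11063318164902419041979)), (.ofNat (nat_lit 11063318164902419041980)), (.negSucc (nat_lit 11063318164902419041979)), (.ofNat (nat_lit 11063318164902419041980)), (.ofNat (nat_lit 0))⟩,
    ⟨nat_lit 1, nat_lit 9, nat_lit 10, (.ofNat (nat_lit 8)), (.ofNat (nat_lit 5595149696)), (.ofNat (nat_lit 95923413642436085566718315228160)), (.ofNat (nat_lit 524288)), (.ofNat (nat_lit 5800364954040359474681610240)), (.ofNat (nat_lit 5595149680)), (.ofNat (nat_lit 5595149712)), (.ofNat (nat_lit 11063318164902419041980)), (.negSucc (nat_lit 11063318164902419041979)), (.negSucc (nat_lit 11063318164902419041979)), (.ofNat (nat_lit 11063318164902419041980)), (.ofNat (nat_lit 0))⟩,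
    ⟨nat_lit 2, nat_lit 10, nat_lit 11, (.ofNat (nat_lit 8)), (.negSucc (nat_lit 58858904831)), (.ofNat (nat_lit 808999125903669498297602756313600)), (.negSucc (nat_lit 7162202303)), (.ofNat (nat_lit 79249323580457238316591991942400)), (.negSucc (nat_lit 58858904847)), (.negSucc (nat_lit 58858904815)), (.negSucc (nat_lit 11063318164902419041979)), (.ofNat (nat_lit 11063318164902419041980)), (.negSucc (nat_lit 11063318164902419041979)), (.ofNat (nat_lit 11063318164902419041980)), (.ofNat (nat_lit 0))⟩,
    ⟨nat_lit 0, nat_lit 11, nat_lit 12, (.ofNat (nat_lit 8)), (.negSucc (nat_lit 50973644543)), (.ofNat (nat_lit 896236269282883578564462655203840)), (.negSucc (nat_lit 7161940159)), (.ofNat (nat_lit 79252223762934258496329332747520)), (.negSucc (nat_lit 50973644559)), (.negSucc (nat_lit 50973644527)), (.ofNat (nat_lit 11063318164902419041980)), (.negSucc (nat_lit 11063318164902419041979)), (.negSucc (nat_lit 11063318164902419041979)), (.ofNat (nat_lit 11063318164902419041980)), (.ofNat (nat_lit 0))⟩,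
    ⟨nat_lit 2, nat_lit 13, nat_lit 5, (.ofNat (nat_lit 8)), (.negSucc (nat_lit 24635874239)), (.ofNat (nat_lit 273262158095931776138402079671040)), (.negSucc (nat_lit 2570491519)), (.ofNat (nat_lit 28438165525943629774896114009600)), (.negSucc (nat_lit 24635874255)), (.negSucc (nat_lit 24635874223)), (.negSucc (nat_lit 11063318164902419041979)), (.ofNat (nat_lit 11063317867079328841680)), (.negSucc (nat_lit 11063318164902419041979)), (.ofNat (nat_lit 11063317867079328841680)), (.ofNat (nat_lit 0))⟩]
  es := [
    ⟨nat_lit 0, nat_lit 6, (.negSucc (nat_lit 4964551615)), (.ofNat (nat_lit 18165710784)), (.negSucc (nat_lit 4964551599)), (.ofNat (nat_lit 18165710768)), (.negSucc (nat_lit 11063318716011615162407)), (.ofNat (nat_lit 0)), (.ofNat (nat_lit 28998992375932422727549191168))⟩,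
    ⟨nat_lit 0, nat_lit 1, (.negSucc (nat_lit 4964551615)), (.ofNat (nat_lit 9915697472)), (.negSucc (nat_lit 4964551599)), (.ofNat (nat_lit 9915697456)), (.ofNat (nat_lit 11063318164902419041980)), (.ofNat (nat_lit 0)), (.ofNat (nat_lit 113747586784439733785044109629440))⟩,
    ⟨nat_lit 2, nat_lit 1, (.negSucc (nat_lit 8390864383)), (.ofNat (nat_lit 9915697472)), (.negSucc (nat_lit 8390864367)), (.ofNat (nat_lit 9915697456)), (.negSucc (nat_lit 11063318164902419041979)), (.ofNat (nat_lit 0)), (.ofNat (nat_lit 34802189724242156848089661440))⟩,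
    ⟨nat_lit 3, nat_lit 2, (.negSucc (nat_lit 63484132543)), (.negSucc (nat_lit 8390864383)), (.negSucc (nat_lit 63484132527)), (.negSucc (nat_lit 8390864399)), (.ofNat (nat_lit 11063318164902419041980)), (.ofNat (nat_lit 0)), (.ofNat (nat_lit 158770012477177378489974581445120))⟩,
    ⟨nat_lit 3, nat_lit 8, (.negSucc (nat_lit 63484132543)), (.negSucc (nat_lit 61887551487)), (.negSucc (nat_lit 63484132527)), (.negSucc (nat_lit 61887551503)), (.negSucc (nat_lit 11063318164902419041979)), (.ofNat (nat_lit 0)), (.ofNat (nat_lit 5800364954040359474681610240))⟩,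
    ⟨nat_lit 13, nat_lit 4, (.negSucc (nat_lit 24635874239)), (.ofNat (nat_lit 3312211520)), (.negSucc (nat_lit 24635874223)), (.ofNat (nat_lit 3312211504)), (.ofNat (nat_lit 11063317867079328841680)), (.ofNat (nat_lit 0)), (.ofNat (nat_lit 56876330286335531729725976563200))⟩,
    ⟨nat_lit 4, nat_lit 5, (.ofNat (nat_lit 3312211520)), (.ofNat (nat_lit 3312211584)), (.ofNat (nat_lit 3312211536)), (.ofNat (nat_lit 3312211568)), (.ofNat (nat_lit 11063317867079328841680)), (.ofNat (nat_lit 0)), (.ofNat (nat_lit 56876330286335531729725976563200))⟩,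
    ⟨nat_lit 5, nat_lit 6, (.ofNat (nat_lit 3312211584)), (.ofNat (nat_lit 18165710784)), (.ofNat (nat_lit 3312211600)), (.ofNat (nat_lit 18165710768)), (.ofNat (nat_lit 11063317867079328841680)), (.ofNat (nat_lit 0)), (.ofNat (nat_lit 56876330286335531729725976563200))⟩,
    ⟨nat_lit 8, nat_lit 7, (.negSucc (nat_lit 61887551487)), (.negSucc (nat_lit 49490062911)), (.negSucc (nat_lit 61887551471)), (.negSucc (nat_lit 49490062927)), (.ofNat (nat_lit 11063318164902419041980)), (.ofNat (nat_lit 0)), (.ofNat (nat_lit 154834483265222420984028394752000))⟩,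
    ⟨nat_lit 9, nat_lit 10, (.negSucc (nat_lit 1505644543)), (.ofNat (nat_lit 5595149696)), (.negSucc (nat_lit 1505644527)), (.ofNat (nat_lit 5595149680)), (.ofNat (nat_lit 11063318164902419041980)), (.ofNat (nat_lit 0)), (.ofNat (nat_lit 0))⟩,
    ⟨nat_lit 11, nat_lit 10, (.negSucc (nat_lit 58858904831)), (.ofNat (nat_lit 5595149696)), (.negSucc (nat_lit 58858904815)), (.ofNat (nat_lit 5595149680)), (.negSucc (nat_lit 11063318164902419041979)), (.ofNat (nat_lit 0)), (.ofNat (nat_lit 11600729908080718949363220480))⟩,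
    ⟨nat_lit 11, nat_lit 12, (.negSucc (nat_lit 58858904831)), (.negSucc (nat_lit 50973644543)), (.negSucc (nat_lit 58858904815)), (.negSucc (nat_lit 50973644559)), (.ofNat (nat_lit 11063318164902419041980)), (.ofNat (nat_lit 0)), (.ofNat (nat_lit 158487046431006395914234620664320))⟩,
    ⟨nat_lit 12, nat_lit 7, (.negSucc (nat_lit 50973644543)), (.negSucc (nat_lit 49490062911)), (.negSucc (nat_lit 50973644527)), (.negSucc (nat_lit 49490062927)), (.negSucc (nat_lit 11063318164902419041979)), (.ofNat (nat_lit 0)), (.ofNat (nat_lit 17401094862121078424044830720))⟩,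
    ⟨nat_lit 13, nat_lit 9, (.negSucc (nat_lit 24635874239)), (.negSucc (nat_lit 1505644543)), (.negSucc (nat_lit 24635874223)), (.negSucc (nat_lit 1505644559)), (.negSucc (nat_lit 11063318164902419041979)), (.ofNat (nat_lit 0)), (.ofNat (nat_lit 0))⟩]

theorem ok156 : stOK 13 13 S156 = true := by decide +kernel

def S157 : SD where
  vs := [
    ⟨nat_lit 2, nat_lit 0, nat_lit 1, (.ofNat (nat_lit 8)), (.negSucc (nat_lit 4964551615)), (.ofNat (nat_lit 1002687163347445740262739690530560)), (.negSucc (nat_lit 5139442943)), (.ofNat (nat_lit 56888294304604967791208758840320)), (.negSucc (nat_lit 4964551631)), (.negSucc (nat_lit 4964551599)), (.negSucc (nat_lit 11063318716011615162407)), (.ofNat (nat_lit 11063318164902419041980)), (.negSucc (nat_lit 11063318716011615162407)), (.ofNat (nat_lit 11063318164902419041980)), (.ofNat (nat_lit 0))⟩,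
    ⟨nat_lit 1, nat_lit 1, nat_lit 2, (.ofNat (nat_lit 8)), (.ofNat (nat_lit 9915697472)), (.ofNat (nat_lit 1167312093380988794821156419244800)), (.negSucc (nat_lit 5139180799)), (.ofNat (nat_lit 56891194487081987970946099645440)), (.ofNat (nat_lit 9915697456)), (.ofNat (nat_lit 9915697488)), (.ofNat (nat_lit 11063318164902419041980)), (.negSucc (nat_lit 11063318164902419041979)), (.negSucc (nat_lit 11063318164902419041979)), (.ofNat (nat_lit 11063318164902419041980)), (.ofNat (nat_lit 0))⟩,
    ⟨nat_lit 0, nat_lit 3, nat_lit 2, (.ofNat (nat_lit 8)), (.negSucc (nat_lit 8390864383)), (.ofNat (nat_lit 1369843411699383337217195549959680)), (.negSucc (nat_lit 7173942207)), (.ofNat (nat_lit 79402407333450810323411335553280)), (.negSucc (nat_lit 8390864399)), (.negSucc (nat_lit 8390864367)), (.ofNat (nat_lit 11063318164902419041980)), (.negSucc (nat_lit 11063318164902419041979)), (.negSucc (nat_lit 11063318164902419041979)), (.ofNat (nat_lit 11063318164902419041980)), (.ofNat (nat_lit 0))⟩,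
    ⟨nat_lit 2, nat_lit 4, nat_lit 3, (.ofNat (nat_lit 8)), (.negSucc (nat_lit 63484132543)), (.ofNat (nat_lit 760329057301015264704701112602880)), (.negSucc (nat_lit 7175252927)), (.ofNat (nat_lit 79387906421065709424724631527680)), (.negSucc (nat_lit 63484132559)), (.negSucc (nat_lit 63484132527)), (.negSucc (nat_lit 11063318164902419041979)), (.ofNat (nat_lit 11063318164902419041980)), (.negSucc (nat_lit 11063318164902419041979)), (.ofNat (nat_lit 11063318164902419041980)), (.ofNat (nat_lit 0))⟩,
    ⟨nat_lit 0, nat_lit 5, nat_lit 6, (.ofNat (nat_lit 8)), (.ofNat (nat_lit 3312211584)), (.ofNat (nat_lit 582460715343257482821993228015360)), (.negSucc (nat_lit 2569443007)), (.ofNat (nat_lit 28449765547487076856138561589760)), (.ofNat (nat_lit 3312211568)), (.ofNat (nat_lit 3312211600)), (.ofNat (nat_lit 11063317867079328841680)), (.ofNat (nat_lit 11063317867079328841680)), (.ofNat (nat_lit 11063317867079328841680)), (.ofNat (nat_lit 11063317867079328841680)), (.ofNat (nat_lit 0))⟩,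
    ⟨nat_lit 1, nat_lit 6, nat_lit 0, (.ofNat (nat_lit 8)), (.ofNat (nat_lit 18165710784)), (.ofNat (nat_lit 746789698431266000108424034671360)), (.negSucc (nat_lit 2569180863)), (.ofNat (nat_lit 28452665729886024499718434951680)), (.ofNat (nat_lit 18165710768)), (.ofNat (nat_lit 18165710800)), (.ofNat (nat_lit 11063317867079328841680)), (.negSucc (nat_lit 11063318716011615162407)), (.negSucc (nat_lit 11063318716011615162407)), (.ofNat (nat_lit 11063317867079328841680)), (.ofNat (nat_lit 0))⟩,
    ⟨nat_lit 1, nat_lit 7, nat_lit 11, (.ofNat (nat_lit 8)), (.negSucc (nat_lit 49490062911)), (.ofNat (nat_lit 879822933664462402601414090292480)), (.negSucc (nat_lit 6996864767)), (.ofNat (nat_lit 77425942180042271031226219791360)), (.negSucc (nat_lit 49490062927)), (.negSucc (nat_lit 49490062895)), (.ofNat (nat_lit 11063318164902419041980)), (.negSucc (nat_lit 11063318164902419041979)), (.negSucc (nat_lit 11063318164902419041979)), (.ofNat (nat_lit 11063318164902419041980)), (.ofNat (nat_lit 0))⟩,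
    ⟨nat_lit 0, nat_lit 4, nat_lit 7, (.ofNat (nat_lit 8)), (.negSucc (nat_lit 61887551487)), (.ofNat (nat_lit 742665573102431378373702175872000)), (.negSucc (nat_lit 6997389055)), (.ofNat (nat_lit 77420141815088230671751538181120)), (.negSucc (nat_lit 61887551503)), (.negSucc (nat_lit 61887551471)), (.negSucc (nat_lit 11063318164902419041979)), (.ofNat (nat_lit 11063318164902419041980)), (.negSucc (nat_lit 11063318164902419041979)), (.ofNat (nat_lit 11063318164902419041980)), (.ofNat (nat_lit 0))⟩,
    ⟨nat_lit 0, nat_lit 12, nat_lit 8, (.ofNat (nat_lit 8)), (.negSucc (nat_lit 1505644543)), (.ofNat (nat_lit 17365067741809618271360413032960)), (.ofNat (nat_lit 0)), (.ofNat (nat_lit 0)), (.negSucc (nat_lit 1505644559)), (.negSucc (nat_lit 1505644527)), (.negSucc (nat_lit 11063318164902419041979)), (.ofNat (nat_lit 11063318164902419041980)), (.negSucc (nat_lit 11063318164902419041979)), (.ofNat (nat_lit 11063318164902419041980)), (.ofNat (nat_lit 0))⟩,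
    ⟨nat_lit 1, nat_lit 8, nat_lit 9, (.ofNat (nat_lit 8)), (.ofNat (nat_lit 5595149696)), (.ofNat (nat_lit 95923413642436085566718315228160)), (.ofNat (nat_lit 524288)), (.ofNat (nat_lit 5800364954040359474681610240)), (.ofNat (nat_lit 5595149680)), (.ofNat (nat_lit 5595149712)), (.ofNat (nat_lit 11063318164902419041980)), (.negSucc (nat_lit 11063318164902419041979)), (.negSucc (nat_lit 11063318164902419041979)), (.ofNat (nat_lit 11063318164902419041980)), (.ofNat (nat_lit 0))⟩,
    ⟨nat_lit 2, nat_lit 9, nat_lit 10, (.ofNat (nat_lit 8)), (.negSucc (nat_lit 58858904831)), (.ofNat (nat_lit 808999125903669498297602756313600)), (.negSucc (nat_lit 7162202303)), (.ofNat (nat_lit 79249323580457238316591991942400)), (.negSucc (nat_lit 58858904847)), (.negSucc (nat_lit 58858904815)), (.negSucc (nat_lit 11063318164902419041979)), (.ofNat (nat_lit 11063318164902419041980)), (.negSucc (nat_lit 11063318164902419041979)), (.ofNat (nat_lit 11063318164902419041980)), (.ofNat (nat_lit 0))⟩,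
    ⟨nat_lit 0, nat_lit 10, nat_lit 11, (.ofNat (nat_lit 8)), (.negSucc (nat_lit 50973644543)), (.ofNat (nat_lit 896236269282883578564462655203840)), (.negSucc (nat_lit 7161940159)), (.ofNat (nat_lit 79252223762934258496329332747520)), (.negSucc (nat_lit 50973644559)), (.negSucc (nat_lit 50973644527)), (.ofNat (nat_lit 11063318164902419041980)), (.negSucc (nat_lit 11063318164902419041979)), (.negSucc (nat_lit 11063318164902419041979)), (.ofNat (nat_lit 11063318164902419041980)), (.ofNat (nat_lit 0))⟩,
    ⟨nat_lit 2, nat_lit 12, nat_lit 5, (.ofNat (nat_lit 8)), (.negSucc (nat_lit 24635874239)), (.ofNat (nat_lit 273262158095931776138402079671040)), (.negSucc (nat_lit 2570491519)), (.ofNat (nat_lit 28438165525943629774896114009600)), (.negSucc (nat_lit 24635874255)), (.negSucc (nat_lit 24635874223)), (.negSucc (nat_lit 11063318164902419041979)), (.ofNat (nat_lit 11063317867079328841680)), (.negSucc (nat_lit 11063318164902419041979)), (.ofNat (nat_lit 11063317867079328841680)), (.ofNat (nat_lit 0))⟩]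
  es := [
    ⟨nat_lit 0, nat_lit 5, (.negSucc (nat_lit 4964551615)), (.ofNat (nat_lit 18165710784)), (.negSucc (nat_lit 4964551599)), (.ofNat (nat_lit 18165710768)), (.negSucc (nat_lit 11063318716011615162407)), (.ofNat (nat_lit 0)), (.ofNat (nat_lit 28998992375932422727549191168))⟩,
    ⟨nat_lit 0, nat_lit 1, (.negSucc (nat_lit 4964551615)), (.ofNat (nat_lit 9915697472)), (.negSucc (nat_lit 4964551599)), (.ofNat (nat_lit 9915697456)), (.ofNat (nat_lit 11063318164902419041980)), (.ofNat (nat_lit 0)), (.ofNat (nat_lit 113747586784439733785044109629440))⟩,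
    ⟨nat_lit 2, nat_lit 1, (.negSucc (nat_lit 8390864383)), (.ofNat (nat_lit 9915697472)), (.negSucc (nat_lit 8390864367)), (.ofNat (nat_lit 9915697456)), (.negSucc (nat_lit 11063318164902419041979)), (.ofNat (nat_lit 0)), (.ofNat (nat_lit 34802189724242156848089661440))⟩,
    ⟨nat_lit 3, nat_lit 2, (.negSucc (nat_lit 63484132543)), (.negSucc (nat_lit 8390864383)), (.negSucc (nat_lit 63484132527)), (.negSucc (nat_lit 8390864399)), (.ofNat (nat_lit 11063318164902419041980)), (.ofNat (nat_lit 0)), (.ofNat (nat_lit 158770012477177378489974581445120))⟩,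
    ⟨nat_lit 3, nat_lit 7, (.negSucc (nat_lit 63484132543)), (.negSucc (nat_lit 61887551487)), (.negSucc (nat_lit 63484132527)), (.negSucc (nat_lit 61887551503)), (.negSucc (nat_lit 11063318164902419041979)), (.ofNat (nat_lit 0)), (.ofNat (nat_lit 5800364954040359474681610240))⟩,
    ⟨nat_lit 12, nat_lit 4, (.negSucc (nat_lit 24635874239)), (.ofNat (nat_lit 3312211584)), (.negSucc (nat_lit 24635874223)), (.ofNat (nat_lit 3312211568)), (.ofNat (nat_lit 11063317867079328841680)), (.ofNat (nat_lit 0)), (.ofNat (nat_lit 56876330286335531729725976563200))⟩,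
    ⟨nat_lit 4, nat_lit 5, (.ofNat (nat_lit 3312211584)), (.ofNat (nat_lit 18165710784)), (.ofNat (nat_lit 3312211600)), (.ofNat (nat_lit 18165710768)), (.ofNat (nat_lit 11063317867079328841680)), (.ofNat (nat_lit 0)), (.ofNat (nat_lit 56876330286335531729725976563200))⟩,
    ⟨nat_lit 7, nat_lit 6, (.negSucc (nat_lit 61887551487)), (.negSucc (nat_lit 49490062911)), (.negSucc (nat_lit 61887551471)), (.negSucc (nat_lit 49490062927)), (.ofNat (nat_lit 11063318164902419041980)), (.ofNat (nat_lit 0)), (.ofNat (nat_lit 154834483265222420984028394752000))⟩,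
    ⟨nat_lit 8, nat_lit 9, (.negSucc (nat_lit 1505644543)), (.ofNat (nat_lit 5595149696)), (.negSucc (nat_lit 1505644527)), (.ofNat (nat_lit 5595149680)), (.ofNat (nat_lit 11063318164902419041980)), (.ofNat (nat_lit 0)), (.ofNat (nat_lit 0))⟩,
    ⟨nat_lit 10, nat_lit 9, (.negSucc (nat_lit 58858904831)), (.ofNat (nat_lit 5595149696)), (.negSucc (nat_lit 58858904815)), (.ofNat (nat_lit 5595149680)), (.negSucc (nat_lit 11063318164902419041979)), (.ofNat (nat_lit 0)), (.ofNat (nat_lit 11600729908080718949363220480))⟩,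
    ⟨nat_lit 10, nat_lit 11, (.negSucc (nat_lit 58858904831)), (.negSucc (nat_lit 50973644543)), (.negSucc (nat_lit 58858904815)), (.negSucc (nat_lit 50973644559)), (.ofNat (nat_lit 11063318164902419041980)), (.ofNat (nat_lit 0)), (.ofNat (nat_lit 158487046431006395914234620664320))⟩,
    ⟨nat_lit 11, nat_lit 6, (.negSucc (nat_lit 50973644543)), (.negSucc (nat_lit 49490062911)), (.negSucc (nat_lit 50973644527)), (.negSucc (nat_lit 49490062927)), (.negSucc (nat_lit 11063318164902419041979)), (.ofNat (nat_lit 0)), (.ofNat (nat_lit 17401094862121078424044830720))⟩,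
    ⟨nat_lit 12, nat_lit 8, (.negSucc (nat_lit 24635874239)), (.negSucc (nat_lit 1505644543)), (.negSucc (nat_lit 24635874223)), (.negSucc (nat_lit 1505644559)), (.negSucc (nat_lit 11063318164902419041979)), (.ofNat (nat_lit 0)), (.ofNat (nat_lit 0))⟩]

theorem ok157 : stOK 12 12 S157 = true := by decide +kernel

def S158 : SD where
  vs := [
    ⟨nat_lit 2, nat_lit 0, nat_lit 1, (.ofNat (nat_lit 8)), (.negSucc (nat_lit 4964551615)), (.ofNat (nat_lit 1002687163347445740262739690530560)), (.negSucc (nat_lit 5139442943)), (.ofNat (nat_lit 56888294304604967791208758840320)), (.negSucc (nat_lit 4964551631)), (.negSucc (nat_lit 4964551599)), (.negSucc (nat_lit 11063318716011615162407)), (.ofNat (nat_lit 11063318164902419041980)), (.negSucc (nat_lit 11063318716011615162407)), (.ofNat (nat_lit 11063318164902419041980)), (.ofNat (nat_lit 0))⟩,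
    ⟨nat_lit 1, nat_lit 1, nat_lit 2, (.ofNat (nat_lit 8)), (.ofNat (nat_lit 9915697472)), (.ofNat (nat_lit 1167312093380988794821156419244800)), (.negSucc (nat_lit 5139180799)), (.ofNat (nat_lit 56891194487081987970946099645440)), (.ofNat (nat_lit 9915697456)), (.ofNat (nat_lit 9915697488)), (.ofNat (nat_lit 11063318164902419041980)), (.negSucc (nat_lit 11063318164902419041979)), (.negSucc (nat_lit 11063318164902419041979)), (.ofNat (nat_lit 11063318164902419041980)), (.ofNat (nat_lit 0))⟩,
    ⟨nat_lit 0, nat_lit 3, nat_lit 2, (.ofNat (nat_lit 8)), (.negSucc (nat_lit 8390864383)), (.ofNat (nat_lit 1369843411699383337217195549959680)), (.negSucc (nat_lit 7173942207)), (.ofNat (nat_lit 79402407333450810323411335553280)), (.negSucc (nat_lit 8390864399)), (.negSucc (nat_lit 8390864367)), (.ofNat (nat_lit 11063318164902419041980)), (.negSucc (nat_lit 11063318164902419041979)), (.negSucc (nat_lit 11063318164902419041979)), (.ofNat (nat_lit 11063318164902419041980)), (.ofNat (nat_lit 0))⟩,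
    ⟨nat_lit 2, nat_lit 4, nat_lit 3, (.ofNat (nat_lit 8)), (.negSucc (nat_lit 63484132543)), (.ofNat (nat_lit 760329057301015264704701112602880)), (.negSucc (nat_lit 7175252927)), (.ofNat (nat_lit 79387906421065709424724631527680)), (.negSucc (nat_lit 63484132559)), (.negSucc (nat_lit 63484132527)), (.negSucc (nat_lit 11063318164902419041979)), (.ofNat (nat_lit 11063318164902419041980)), (.negSucc (nat_lit 11063318164902419041979)), (.ofNat (nat_lit 11063318164902419041980)), (.ofNat (nat_lit 0))⟩,
    ⟨nat_lit 1, nat_lit 5, nat_lit 0, (.ofNat (nat_lit 8)), (.ofNat (nat_lit 18165710784)), (.ofNat (nat_lit 746789698431266000108424034671360)), (.negSucc (nat_lit 2569180863)), (.ofNat (nat_lit 28452665729886024499718434951680)), (.ofNat (nat_lit 18165710768)), (.ofNat (nat_lit 18165710800)), (.ofNat (nat_lit 11063317867079328841680)), (.negSucc (nat_lit 11063318716011615162407)), (.negSucc (nat_lit 11063318716011615162407)), (.ofNat (nat_lit 11063317867079328841680)), (.ofNat (nat_lit 0))⟩,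
    ⟨nat_lit 1, nat_lit 6, nat_lit 10, (.ofNat (nat_lit 8)), (.negSucc (nat_lit 49490062911)), (.ofNat (nat_lit 879822933664462402601414090292480)), (.negSucc (nat_lit 6996864767)), (.ofNat (nat_lit 77425942180042271031226219791360)), (.negSucc (nat_lit 49490062927)), (.negSucc (nat_lit 49490062895)), (.ofNat (nat_lit 11063318164902419041980)), (.negSucc (nat_lit 11063318164902419041979)), (.negSucc (nat_lit 11063318164902419041979)), (.ofNat (nat_lit 11063318164902419041980)), (.ofNat (nat_lit 0))⟩,
    ⟨nat_lit 0, nat_lit 4, nat_lit 6, (.ofNat (nat_lit 8)), (.negSucc (nat_lit 61887551487)), (.ofNat (nat_lit 742665573102431378373702175872000)), (.negSucc (nat_lit 6997389055)), (.ofNat (nat_lit 77420141815088230671751538181120)), (.negSucc (nat_lit 61887551503)), (.negSucc (nat_lit 61887551471)), (.negSucc (nat_lit 11063318164902419041979)), (.ofNat (nat_lit 11063318164902419041980)), (.negSucc (nat_lit 11063318164902419041979)), (.ofNat (nat_lit 11063318164902419041980)), (.ofNat (nat_lit 0))⟩,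
    ⟨nat_lit 0, nat_lit 11, nat_lit 7, (.ofNat (nat_lit 8)), (.negSucc (nat_lit 1505644543)), (.ofNat (nat_lit 17365067741809618271360413032960)), (.ofNat (nat_lit 0)), (.ofNat (nat_lit 0)), (.negSucc (nat_lit 1505644559)), (.negSucc (nat_lit 1505644527)), (.negSucc (nat_lit 11063318164902419041979)), (.ofNat (nat_lit 11063318164902419041980)), (.negSucc (nat_lit 11063318164902419041979)), (.ofNat (nat_lit 11063318164902419041980)), (.ofNat (nat_lit 0))⟩,
    ⟨nat_lit 1, nat_lit 7, nat_lit 8, (.ofNat (nat_lit 8)), (.ofNat (nat_lit 5595149696)), (.ofNat (nat_lit 95923413642436085566718315228160)), (.ofNat (nat_lit 524288)), (.ofNat (nat_lit 5800364954040359474681610240)), (.ofNat (nat_lit 5595149680)), (.ofNat (nat_lit 5595149712)), (.ofNat (nat_lit 11063318164902419041980)), (.negSucc (nat_lit 11063318164902419041979)), (.negSucc (nat_lit 11063318164902419041979)), (.ofNat (nat_lit 11063318164902419041980)), (.ofNat (nat_lit 0))⟩,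
    ⟨nat_lit 2, nat_lit 8, nat_lit 9, (.ofNat (nat_lit 8)), (.negSucc (nat_lit 58858904831)), (.ofNat (nat_lit 808999125903669498297602756313600)), (.negSucc (nat_lit 7162202303)), (.ofNat (nat_lit 79249323580457238316591991942400)), (.negSucc (nat_lit 58858904847)), (.negSucc (nat_lit 58858904815)), (.negSucc (nat_lit 11063318164902419041979)), (.ofNat (nat_lit 11063318164902419041980)), (.negSucc (nat_lit 11063318164902419041979)), (.ofNat (nat_lit 11063318164902419041980)), (.ofNat (nat_lit 0))⟩,
    ⟨nat_lit 0, nat_lit 9, nat_lit 10, (.ofNat (nat_lit 8)), (.negSucc (nat_lit 50973644543)), (.ofNat (nat_lit 896236269282883578564462655203840)), (.negSucc (nat_lit 7161940159)), (.ofNat (nat_lit 79252223762934258496329332747520)), (.negSucc (nat_lit 50973644559)), (.negSucc (nat_lit 50973644527)), (.ofNat (nat_lit 11063318164902419041980)), (.negSucc (nat_lit 11063318164902419041979)), (.negSucc (nat_lit 11063318164902419041979)), (.ofNat (nat_lit 11063318164902419041980)), (.ofNat (nat_lit 0))⟩,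
    ⟨nat_lit 2, nat_lit 11, nat_lit 5, (.ofNat (nat_lit 8)), (.negSucc (nat_lit 24635874239)), (.ofNat (nat_lit 273262158095931776138402079671040)), (.negSucc (nat_lit 2570491519)), (.ofNat (nat_lit 28438165525943629774896114009600)), (.negSucc (nat_lit 24635874255)), (.negSucc (nat_lit 24635874223)), (.negSucc (nat_lit 11063318164902419041979)), (.ofNat (nat_lit 11063317867079328841680)), (.negSucc (nat_lit 11063318164902419041979)), (.ofNat (nat_lit 11063317867079328841680)), (.ofNat (nat_lit 0))⟩]
  es := [
    ⟨nat_lit 0, nat_lit 4, (.negSucc (nat_lit 4964551615)), (.ofNat (nat_lit 18165710784)), (.negSucc (nat_lit 4964551599)), (.ofNat (nat_lit 18165710768)), (.negSucc (nat_lit 11063318716011615162407)), (.ofNat (nat_lit 0)), (.ofNat (nat_lit 28998992375932422727549191168))⟩,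
    ⟨nat_lit 0, nat_lit 1, (.negSucc (nat_lit 4964551615)), (.ofNat (nat_lit 9915697472)), (.negSucc (nat_lit 4964551599)), (.ofNat (nat_lit 9915697456)), (.ofNat (nat_lit 11063318164902419041980)), (.ofNat (nat_lit 0)), (.ofNat (nat_lit 113747586784439733785044109629440))⟩,
    ⟨nat_lit 2, nat_lit 1, (.negSucc (nat_lit 8390864383)), (.ofNat (nat_lit 9915697472)), (.negSucc (nat_lit 8390864367)), (.ofNat (nat_lit 9915697456)), (.negSucc (nat_lit 11063318164902419041979)), (.ofNat (nat_lit 0)), (.ofNat (nat_lit 34802189724242156848089661440))⟩,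
    ⟨nat_lit 3, nat_lit 2, (.negSucc (nat_lit 63484132543)), (.negSucc (nat_lit 8390864383)), (.negSucc (nat_lit 63484132527)), (.negSucc (nat_lit 8390864399)), (.ofNat (nat_lit 11063318164902419041980)), (.ofNat (nat_lit 0)), (.ofNat (nat_lit 158770012477177378489974581445120))⟩,
    ⟨nat_lit 3, nat_lit 6, (.negSucc (nat_lit 63484132543)), (.negSucc (nat_lit 61887551487)), (.negSucc (nat_lit 63484132527)), (.negSucc (nat_lit 61887551503)), (.negSucc (nat_lit 11063318164902419041979)), (.ofNat (nat_lit 0)), (.ofNat (nat_lit 5800364954040359474681610240))⟩,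
    ⟨nat_lit 11, nat_lit 4, (.negSucc (nat_lit 24635874239)), (.ofNat (nat_lit 18165710784)), (.negSucc (nat_lit 24635874223)), (.ofNat (nat_lit 18165710768)), (.ofNat (nat_lit 11063317867079328841680)), (.ofNat (nat_lit 0)), (.ofNat (nat_lit 56876330286335531729725976563200))⟩,
    ⟨nat_lit 6, nat_lit 5, (.negSucc (nat_lit 61887551487)), (.negSucc (nat_lit 49490062911)), (.negSucc (nat_lit 61887551471)), (.negSucc (nat_lit 49490062927)), (.ofNat (nat_lit 11063318164902419041980)), (.ofNat (nat_lit 0)), (.ofNat (nat_lit 154834483265222420984028394752000))⟩,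
    ⟨nat_lit 7, nat_lit 8, (.negSucc (nat_lit 1505644543)), (.ofNat (nat_lit 5595149696)), (.negSucc (nat_lit 1505644527)), (.ofNat (nat_lit 5595149680)), (.ofNat (nat_lit 11063318164902419041980)), (.ofNat (nat_lit 0)), (.ofNat (nat_lit 0))⟩,
    ⟨nat_lit 9, nat_lit 8, (.negSucc (nat_lit 58858904831)), (.ofNat (nat_lit 5595149696)), (.negSucc (nat_lit 58858904815)), (.ofNat (nat_lit 5595149680)), (.negSucc (nat_lit 11063318164902419041979)), (.ofNat (nat_lit 0)), (.ofNat (nat_lit 11600729908080718949363220480))⟩,
    ⟨nat_lit 9, nat_lit 10, (.negSucc (nat_lit 58858904831)), (.negSucc (nat_lit 50973644543)), (.negSucc (nat_lit 58858904815)), (.negSucc (nat_lit 50973644559)), (.ofNat (nat_lit 11063318164902419041980)), (.ofNat (nat_lit 0)), (.ofNat (nat_lit 158487046431006395914234620664320))⟩,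
    ⟨nat_lit 10, nat_lit 5, (.negSucc (nat_lit 50973644543)), (.negSucc (nat_lit 49490062911)), (.negSucc (nat_lit 50973644527)), (.negSucc (nat_lit 49490062927)), (.negSucc (nat_lit 11063318164902419041979)), (.ofNat (nat_lit 0)), (.ofNat (nat_lit 17401094862121078424044830720))⟩,
    ⟨nat_lit 11, nat_lit 7, (.negSucc (nat_lit 24635874239)), (.negSucc (nat_lit 1505644543)), (.negSucc (nat_lit 24635874223)), (.negSucc (nat_lit 1505644559)), (.negSucc (nat_lit 11063318164902419041979)), (.ofNat (nat_lit 0)), (.ofNat (nat_lit 0))⟩]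

theorem ok158 : stOK 11 11 S158 = true := by decide +kernel

def S159 : SD where
  vs := [
    ⟨nat_lit 2, nat_lit 0, nat_lit 1, (.ofNat (nat_lit 8)), (.negSucc (nat_lit 4964551615)), (.ofNat (nat_lit 1018354150274749579954260030990720)), (.ofNat (nat_lit 0)), (.ofNat (nat_lit 15666986927303839691520340460160)), (.negSucc (nat_lit 4964551631)), (.negSucc (nat_lit 4964551599)), (.negSucc (nat_lit 11236182511229019339509)), (.ofNat (nat_lit 11236182511229019339510)), (.negSucc (nat_lit 11236182511229019339509)), (.ofNat (nat_lit 11236182511229019339510)), (.ofNat (nat_lit 1037183873522817303468))⟩,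
    ⟨nat_lit 1, nat_lit 1, nat_lit 2, (.ofNat (nat_lit 8)), (.ofNat (nat_lit 9915697472)), (.ofNat (nat_lit 1185551344840066744740138070857600)), (.ofNat (nat_lit 0)), (.ofNat (nat_lit 18239251459077949918981651612800)), (.ofNat (nat_lit 9915697456)), (.ofNat (nat_lit 9915697488)), (.ofNat (nat_lit 11236182511229019339510)), (.negSucc (nat_lit 11236182511229019339509)), (.negSucc (nat_lit 11236182511229019339509)), (.ofNat (nat_lit 11236182511229019339510)), (.ofNat (nat_lit 1037186077959601785180))⟩,
    ⟨nat_lit 0, nat_lit 3, nat_lit 2, (.ofNat (nat_lit 8)), (.negSucc (nat_lit 8390864383)), (.ofNat (nat_lit 1391247215007186201861098150588160)), (.ofNat (nat_lit 0)), (.ofNat (nat_lit 21403803307802864643902600628480)), (.negSucc (nat_lit 8390864399)), (.negSucc (nat_lit 8390864367)), (.ofNat (nat_lit 11236182511229019339510)), (.negSucc (nat_lit 11236182511229019339509)), (.negSucc (nat_lit 11236182511229019339509)), (.ofNat (nat_lit 11236182511229019339510)), (.ofNat (nat_lit 1037186077959601785180))⟩,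
    ⟨nat_lit 2, nat_lit 4, nat_lit 3, (.ofNat (nat_lit 8)), (.negSucc (nat_lit 63484132543)), (.ofNat (nat_lit 772209198821343628215647637586560)), (.ofNat (nat_lit 0)), (.ofNat (nat_lit 11880141520328363510946524983680)), (.negSucc (nat_lit 63484132559)), (.negSucc (nat_lit 63484132527)), (.negSucc (nat_lit 11236182511229019339509)), (.ofNat (nat_lit 11236182511229019339510)), (.negSucc (nat_lit 11236182511229019339509)), (.ofNat (nat_lit 11236182511229019339510)), (.ofNat (nat_lit 1037186077959601785180))⟩,
    ⟨nat_lit 1, nat_lit 5, nat_lit 0, (.ofNat (nat_lit 8)), (.ofNat (nat_lit 18165710784)), (.ofNat (nat_lit 758458300415731416136719043566720)), (.ofNat (nat_lit 0)), (.ofNat (nat_lit 11668601984465416028295008895360)), (.ofNat (nat_lit 18165710768)), (.ofNat (nat_lit 18165710800)), (.ofNat (nat_lit 11236182511229019339510)), (.negSucc (nat_lit 11236182511229019339509)), (.negSucc (nat_lit 11236182511229019339509)), (.ofNat (nat_lit 11236182511229019339510)), (.ofNat (nat_lit 1037186167033570345524))⟩,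
    ⟨nat_lit 1, nat_lit 6, nat_lit 10, (.ofNat (nat_lit 8)), (.negSucc (nat_lit 49490062911)), (.ofNat (nat_lit 893570167002969627641986629701760)), (.ofNat (nat_lit 0)), (.ofNat (nat_lit 13747233338507225040572539409280)), (.negSucc (nat_lit 49490062927)), (.negSucc (nat_lit 49490062895)), (.ofNat (nat_lit 11236182511229019339510)), (.negSucc (nat_lit 11236182511229019339509)), (.negSucc (nat_lit 11236182511229019339509)), (.ofNat (nat_lit 11236182511229019339510)), (.ofNat (nat_lit 1037186077959601785180))⟩,
    ⟨nat_lit 0, nat_lit 4, nat_lit 6, (.ofNat (nat_lit 8)), (.negSucc (nat_lit 61887551487)), (.ofNat (nat_lit 754269722682156868660728339264000)), (.ofNat (nat_lit 0)), (.ofNat (nat_lit 11604149579725490287026163392000)), (.negSucc (nat_lit 61887551503)), (.negSucc (nat_lit 61887551471)), (.negSucc (nat_lit 11236182511229019339509)), (.ofNat (nat_lit 11236182511229019339510)), (.negSucc (nat_lit 11236182511229019339509)), (.ofNat (nat_lit 11236182511229019339510)), (.ofNat (nat_lit 1037186077959601785180))⟩,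
    ⟨nat_lit 0, nat_lit 11, nat_lit 7, (.ofNat (nat_lit 8)), (.negSucc (nat_lit 1505644543)), (.ofNat (nat_lit 17636396925275393556848947979520)), (.ofNat (nat_lit 0)), (.ofNat (nat_lit 271329183465775285488534946560)), (.negSucc (nat_lit 1505644559)), (.negSucc (nat_lit 1505644527)), (.negSucc (nat_lit 11236182511229019339509)), (.ofNat (nat_lit 11236182511229019339510)), (.negSucc (nat_lit 11236182511229019339509)), (.ofNat (nat_lit 11236182511229019339510)), (.ofNat (nat_lit 1037186077959601785180))⟩,
    ⟨nat_lit 1, nat_lit 7, nat_lit 8, (.ofNat (nat_lit 8)), (.ofNat (nat_lit 5595149696)), (.ofNat (nat_lit 97422216980599149403690160401920)), (.ofNat (nat_lit 0)), (.ofNat (nat_lit 1498803338163063836971845173760)), (.ofNat (nat_lit 5595149680)), (.ofNat (nat_lit 5595149712)), (.ofNat (nat_lit 11236182511229019339510)), (.negSucc (nat_lit 11236182511229019339509)), (.negSucc (nat_lit 11236182511229019339509)), (.ofNat (nat_lit 11236182511229019339510)), (.ofNat (nat_lit 1037186077959601785180))⟩,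
    ⟨nat_lit 2, nat_lit 8, nat_lit 9, (.ofNat (nat_lit 8)), (.negSucc (nat_lit 58858904831)), (.ofNat (nat_lit 821639737245914334208434245203200)), (.ofNat (nat_lit 0)), (.ofNat (nat_lit 12640611342244835910831488889600)), (.negSucc (nat_lit 58858904847)), (.negSucc (nat_lit 58858904815)), (.negSucc (nat_lit 11236182511229019339509)), (.ofNat (nat_lit 11236182511229019339510)), (.negSucc (nat_lit 11236182511229019339509)), (.ofNat (nat_lit 11236182511229019339510)), (.ofNat (nat_lit 1037186077959601785180))⟩,
    ⟨nat_lit 0, nat_lit 9, nat_lit 10, (.ofNat (nat_lit 8)), (.negSucc (nat_lit 50973644543)), (.ofNat (nat_lit 910239960990428634479456437582080)), (.ofNat (nat_lit 0)), (.ofNat (nat_lit 14003691707545055914993782378240)), (.negSucc (nat_lit 50973644559)), (.negSucc (nat_lit 50973644527)), (.ofNat (nat_lit 11236182511229019339510)), (.negSucc (nat_lit 11236182511229019339509)), (.negSucc (nat_lit 11236182511229019339509)), (.ofNat (nat_lit 11236182511229019339510)), (.ofNat (nat_lit 1037186077959601785180))⟩,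
    ⟨nat_lit 2, nat_lit 11, nat_lit 5, (.ofNat (nat_lit 8)), (.negSucc (nat_lit 24635874239)), (.ofNat (nat_lit 277531879316180710140541456068480)), (.ofNat (nat_lit 0)), (.ofNat (nat_lit 4269721220248934002139376397440)), (.negSucc (nat_lit 24635874255)), (.negSucc (nat_lit 24635874223)), (.negSucc (nat_lit 11236182511229019339509)), (.ofNat (nat_lit 11236182511229019339510)), (.negSucc (nat_lit 11236182511229019339509)), (.ofNat (nat_lit 11236182511229019339510)), (.ofNat (nat_lit 1037186673605782185780))⟩]
  es := [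
    ⟨nat_lit 0, nat_lit 4, (.negSucc (nat_lit 4964551615)), (.ofNat (nat_lit 18165710784)), (.negSucc (nat_lit 4964551599)), (.ofNat (nat_lit 18165710768)), (.negSucc (nat_lit 11236182511229019339509)), (.negSucc (nat_lit 172863795217404177101)), (.ofNat (nat_lit 14808795693409382712763456163328))⟩,
    ⟨nat_lit 0, nat_lit 1, (.negSucc (nat_lit 4964551615)), (.ofNat (nat_lit 9915697472)), (.negSucc (nat_lit 4964551599)), (.ofNat (nat_lit 9915697456)), (.ofNat (nat_lit 11236182511229019339510)), (.ofNat (nat_lit 172864346326600297530)), (.ofNat (nat_lit 16525180897208346862408982768640))⟩,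
    ⟨nat_lit 2, nat_lit 1, (.negSucc (nat_lit 8390864383)), (.ofNat (nat_lit 9915697472)), (.negSucc (nat_lit 8390864367)), (.ofNat (nat_lit 9915697456)), (.negSucc (nat_lit 11236182511229019339509)), (.negSucc (nat_lit 172864346326600297529)), (.ofNat (nat_lit 19953322020947552975554320456960))⟩,
    ⟨nat_lit 3, nat_lit 2, (.negSucc (nat_lit 63484132543)), (.negSucc (nat_lit 8390864383)), (.negSucc (nat_lit 63484132527)), (.negSucc (nat_lit 8390864399)), (.ofNat (nat_lit 11236182511229019339510)), (.ofNat (nat_lit 172864346326600297530)), (.ofNat (nat_lit 22854284594658176312250880800000))⟩,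
    ⟨nat_lit 3, nat_lit 6, (.negSucc (nat_lit 63484132543)), (.negSucc (nat_lit 61887551487)), (.negSucc (nat_lit 63484132527)), (.negSucc (nat_lit 61887551503)), (.negSucc (nat_lit 11236182511229019339509)), (.negSucc (nat_lit 172864346326600297529)), (.ofNat (nat_lit 905998445998550709642169167360))⟩,
    ⟨nat_lit 11, nat_lit 4, (.negSucc (nat_lit 24635874239)), (.ofNat (nat_lit 18165710784)), (.negSucc (nat_lit 24635874223)), (.ofNat (nat_lit 18165710768)), (.ofNat (nat_lit 11236182511229019339510)), (.ofNat (nat_lit 172864644149690497830)), (.ofNat (nat_lit 8528392854063060841602249296640))⟩,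
    ⟨nat_lit 6, nat_lit 5, (.negSucc (nat_lit 61887551487)), (.negSucc (nat_lit 49490062911)), (.negSucc (nat_lit 61887551471)), (.negSucc (nat_lit 49490062927)), (.ofNat (nat_lit 11236182511229019339510)), (.ofNat (nat_lit 172864346326600297530)), (.ofNat (nat_lit 22302300713452429864410157616640))⟩,
    ⟨nat_lit 7, nat_lit 8, (.negSucc (nat_lit 1505644543)), (.ofNat (nat_lit 5595149696)), (.negSucc (nat_lit 1505644527)), (.ofNat (nat_lit 5595149680)), (.ofNat (nat_lit 11236182511229019339510)), (.ofNat (nat_lit 172864346326600297530)), (.ofNat (nat_lit 531601443364547465533356122880))⟩,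
    ⟨nat_lit 9, nat_lit 8, (.negSucc (nat_lit 58858904831)), (.ofNat (nat_lit 5595149696)), (.negSucc (nat_lit 58858904815)), (.ofNat (nat_lit 5595149680)), (.negSucc (nat_lit 11236182511229019339509)), (.negSucc (nat_lit 172864346326600297529)), (.ofNat (nat_lit 2466005232961580208410334224640))⟩,
    ⟨nat_lit 9, nat_lit 10, (.negSucc (nat_lit 58858904831)), (.negSucc (nat_lit 50973644543)), (.negSucc (nat_lit 58858904815)), (.negSucc (nat_lit 50973644559)), (.ofNat (nat_lit 11236182511229019339510)), (.ofNat (nat_lit 172864346326600297530)), (.ofNat (nat_lit 22815217451528091613252643554560))⟩,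
    ⟨nat_lit 10, nat_lit 5, (.negSucc (nat_lit 50973644543)), (.negSucc (nat_lit 49490062911)), (.negSucc (nat_lit 50973644527)), (.negSucc (nat_lit 49490062927)), (.negSucc (nat_lit 11236182511229019339509)), (.negSucc (nat_lit 172864346326600297529)), (.ofNat (nat_lit 5192165963562020216734921201920))⟩,
    ⟨nat_lit 11, nat_lit 7, (.negSucc (nat_lit 24635874239)), (.negSucc (nat_lit 1505644543)), (.negSucc (nat_lit 24635874223)), (.negSucc (nat_lit 1505644559)), (.negSucc (nat_lit 11236182511229019339509)), (.negSucc (nat_lit 172864346326600297529)), (.ofNat (nat_lit 11056923567003105443713770240))⟩]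

theorem ok159 : stOK 11 11 S159 = true := by decide +kernel

def S160 : SD where
  vs := [
    ⟨nat_lit 2, nat_lit 0, nat_lit 1, (.ofNat (nat_lit 8)), (.negSucc (nat_lit 21670075967)), (.ofNat (nat_lit 1206078143826571817699797710794880)), (.negSucc (nat_lit 16705524351)), (.ofNat (nat_lit 187723993551822237745537679804160)), (.negSucc (nat_lit 21670075983)), (.negSucc (nat_lit 21670075951)), (.negSucc (nat_lit 11236182511229019339509)), (.ofNat (nat_lit 11236182511229019339510)), (.negSucc (nat_lit 11236182511229019339509)), (.ofNat (nat_lit 11236182511229019339510)), (.ofNat (nat_lit 0))⟩,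
    ⟨nat_lit 1, nat_lit 1, nat_lit 2, (.ofNat (nat_lit 8)), (.ofNat (nat_lit 21021771456)), (.ofNat (nat_lit 1685771533224178278063303885717120)), (.ofNat (nat_lit 11106073984)), (.ofNat (nat_lit 500220188384111533323165814859520)), (.ofNat (nat_lit 21021771440)), (.ofNat (nat_lit 21021771472)), (.ofNat (nat_lit 11236182511229019339510)), (.negSucc (nat_lit 11236182511229019339509)), (.negSucc (nat_lit 11236182511229019339509)), (.ofNat (nat_lit 11236182511229019339510)), (.ofNat (nat_lit 0))⟩,
    ⟨nat_lit 0, nat_lit 3, nat_lit 2, (.ofNat (nat_lit 8)), (.ofNat (nat_lit 2714685312)), (.ofNat (nat_lit 1891473294386954182424355438466560)), (.ofNat (nat_lit 11105549696)), (.ofNat (nat_lit 500226079379767980563257287878400)), (.ofNat (nat_lit 2714685296)), (.ofNat (nat_lit 2714685328)), (.ofNat (nat_lit 11236182511229019339510)), (.negSucc (nat_lit 11236182511229019339509)), (.negSucc (nat_lit 11236182511229019339509)), (.ofNat (nat_lit 11236182511229019339510)), (.ofNat (nat_lit 0))⟩,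
    ⟨nat_lit 2, nat_lit 4, nat_lit 3, (.ofNat (nat_lit 8)), (.negSucc (nat_lit 80190705471)), (.ofNat (nat_lit 959933192373165865961185317390720)), (.negSucc (nat_lit 16706572927)), (.ofNat (nat_lit 187723993551822237745537679804160)), (.negSucc (nat_lit 80190705487)), (.negSucc (nat_lit 80190705455)), (.negSucc (nat_lit 11236182511229019339509)), (.ofNat (nat_lit 11236182511229019339510)), (.negSucc (nat_lit 11236182511229019339509)), (.ofNat (nat_lit 11236182511229019339510)), (.ofNat (nat_lit 0))⟩,
    ⟨nat_lit 1, nat_lit 5, nat_lit 0, (.ofNat (nat_lit 8)), (.ofNat (nat_lit 18166235072)), (.ofNat (nat_lit 758470082407044310616901989604480)), (.ofNat (nat_lit 524288)), (.ofNat (nat_lit 11781991312894480182946037760)), (.ofNat (nat_lit 18166235056)), (.ofNat (nat_lit 18166235088)), (.ofNat (nat_lit 11236182511229019339510)), (.negSucc (nat_lit 11236182511229019339509)), (.negSucc (nat_lit 11236182511229019339509)), (.ofNat (nat_lit 11236182511229019339510)), (.ofNat (nat_lit 0))⟩,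
    ⟨nat_lit 1, nat_lit 6, nat_lit 10, (.ofNat (nat_lit 8)), (.negSucc (nat_lit 21678464575)), (.ofNat (nat_lit 1206078143826571817699797710794880)), (.ofNat (nat_lit 27811598336)), (.ofNat (nat_lit 312507976823602190057811081093120)), (.negSucc (nat_lit 21678464591)), (.negSucc (nat_lit 21678464559)), (.ofNat (nat_lit 11236182511229019339510)), (.negSucc (nat_lit 11236182511229019339509)), (.negSucc (nat_lit 11236182511229019339509)), (.ofNat (nat_lit 11236182511229019339510)), (.ofNat (nat_lit 0))⟩,
    ⟨nat_lit 0, nat_lit 4, nat_lit 6, (.ofNat (nat_lit 8)), (.negSucc (nat_lit 61887813631)), (.ofNat (nat_lit 754278559175641539520865548792320)), (.negSucc (nat_lit 262143)), (.ofNat (nat_lit 8836493484670860137209528320)), (.negSucc (nat_lit 61887813647)), (.negSucc (nat_lit 61887813615)), (.negSucc (nat_lit 11236182511229019339509)), (.ofNat (nat_lit 11236182511229019339510)), (.negSucc (nat_lit 11236182511229019339509)), (.ofNat (nat_lit 11236182511229019339510)), (.ofNat (nat_lit 0))⟩,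
    ⟨nat_lit 0, nat_lit 11, nat_lit 7, (.ofNat (nat_lit 8)), (.negSucc (nat_lit 1505644543)), (.ofNat (nat_lit 17636396925275393556848947979520)), (.ofNat (nat_lit 0)), (.ofNat (nat_lit 0)), (.negSucc (nat_lit 1505644559)), (.negSucc (nat_lit 1505644527)), (.negSucc (nat_lit 11236182511229019339509)), (.ofNat (nat_lit 11236182511229019339510)), (.negSucc (nat_lit 11236182511229019339509)), (.ofNat (nat_lit 11236182511229019339510)), (.ofNat (nat_lit 0))⟩,
    ⟨nat_lit 1, nat_lit 7, nat_lit 8, (.ofNat (nat_lit 8)), (.ofNat (nat_lit 5595673984)), (.ofNat (nat_lit 97428107976255596643781633420800)), (.ofNat (nat_lit 524288)), (.ofNat (nat_lit 5890995656447240091473018880)), (.ofNat (nat_lit 5595673968)), (.ofNat (nat_lit 5595674000)), (.ofNat (nat_lit 11236182511229019339510)), (.negSucc (nat_lit 11236182511229019339509)), (.negSucc (nat_lit 11236182511229019339509)), (.ofNat (nat_lit 11236182511229019339510)), (.ofNat (nat_lit 0))⟩,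
    ⟨nat_lit 2, nat_lit 8, nat_lit 9, (.ofNat (nat_lit 8)), (.negSucc (nat_lit 75564953471)), (.ofNat (nat_lit 1009363730797736571953971925007360)), (.negSucc (nat_lit 16706048639)), (.ofNat (nat_lit 187723993551822237745537679804160)), (.negSucc (nat_lit 75564953487)), (.negSucc (nat_lit 75564953455)), (.negSucc (nat_lit 11236182511229019339509)), (.ofNat (nat_lit 11236182511229019339510)), (.negSucc (nat_lit 11236182511229019339509)), (.ofNat (nat_lit 11236182511229019339510)), (.ofNat (nat_lit 0))⟩,
    ⟨nat_lit 0, nat_lit 9, nat_lit 10, (.ofNat (nat_lit 8)), (.negSucc (nat_lit 39868094847)), (.ofNat (nat_lit 1410460149374540167802622252441600)), (.ofNat (nat_lit 11105549696)), (.ofNat (nat_lit 500220188384111533323165814859520)), (.negSucc (nat_lit 39868094863)), (.negSucc (nat_lit 39868094831)), (.ofNat (nat_lit 11236182511229019339510)), (.negSucc (nat_lit 11236182511229019339509)), (.negSucc (nat_lit 11236182511229019339509)), (.ofNat (nat_lit 11236182511229019339510)), (.ofNat (nat_lit 0))⟩,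
    ⟨nat_lit 2, nat_lit 11, nat_lit 5, (.ofNat (nat_lit 8)), (.negSucc (nat_lit 24636136383)), (.ofNat (nat_lit 277534824814008933760587192577920)), (.negSucc (nat_lit 262143)), (.ofNat (nat_lit 2945497828223620045736509440)), (.negSucc (nat_lit 24636136399)), (.negSucc (nat_lit 24636136367)), (.negSucc (nat_lit 11236182511229019339509)), (.ofNat (nat_lit 11236182511229019339510)), (.negSucc (nat_lit 11236182511229019339509)), (.ofNat (nat_lit 11236182511229019339510)), (.ofNat (nat_lit 0))⟩]
  es := [
    ⟨nat_lit 0, nat_lit 4, (.negSucc (nat_lit 21670075967)), (.ofNat (nat_lit 18166235072)), (.negSucc (nat_lit 21670075951)), (.ofNat (nat_lit 18166235056)), (.negSucc (nat_lit 11236182511229019339509)), (.ofNat (nat_lit 0)), (.ofNat (nat_lit 17672986969341720274419056640))⟩,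
    ⟨nat_lit 0, nat_lit 1, (.negSucc (nat_lit 21670075967)), (.ofNat (nat_lit 21021771456)), (.negSucc (nat_lit 21670075951)), (.ofNat (nat_lit 21021771440)), (.ofNat (nat_lit 11236182511229019339510)), (.ofNat (nat_lit 0)), (.ofNat (nat_lit 375430314116675133770800940551680))⟩,
    ⟨nat_lit 2, nat_lit 1, (.ofNat (nat_lit 2714685312)), (.ofNat (nat_lit 21021771456)), (.ofNat (nat_lit 2714685328)), (.ofNat (nat_lit 21021771440)), (.negSucc (nat_lit 11236182511229019339509)), (.ofNat (nat_lit 0)), (.ofNat (nat_lit 625010062651547932875530689167360))⟩,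
    ⟨nat_lit 3, nat_lit 2, (.negSucc (nat_lit 80190705471)), (.ofNat (nat_lit 2714685312)), (.negSucc (nat_lit 80190705455)), (.ofNat (nat_lit 2714685296)), (.ofNat (nat_lit 11236182511229019339510)), (.ofNat (nat_lit 0)), (.ofNat (nat_lit 375442096107988028250983886589440))⟩,
    ⟨nat_lit 3, nat_lit 6, (.negSucc (nat_lit 80190705471)), (.negSucc (nat_lit 61887813631)), (.negSucc (nat_lit 80190705455)), (.negSucc (nat_lit 61887813647)), (.negSucc (nat_lit 11236182511229019339509)), (.ofNat (nat_lit 0)), (.ofNat (nat_lit 5890995656447240091473018880))⟩,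
    ⟨nat_lit 11, nat_lit 4, (.negSucc (nat_lit 24636136383)), (.ofNat (nat_lit 18166235072)), (.negSucc (nat_lit 24636136367)), (.ofNat (nat_lit 18166235056)), (.ofNat (nat_lit 11236182511229019339510)), (.ofNat (nat_lit 0)), (.ofNat (nat_lit 5890995656447240091473018880))⟩,
    ⟨nat_lit 6, nat_lit 5, (.negSucc (nat_lit 61887813631)), (.negSucc (nat_lit 21678464575)), (.negSucc (nat_lit 61887813615)), (.negSucc (nat_lit 21678464591)), (.ofNat (nat_lit 11236182511229019339510)), (.ofNat (nat_lit 0)), (.ofNat (nat_lit 11781991312894480182946037760))⟩,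
    ⟨nat_lit 7, nat_lit 8, (.negSucc (nat_lit 1505644543)), (.ofNat (nat_lit 5595673984)), (.negSucc (nat_lit 1505644527)), (.ofNat (nat_lit 5595673968)), (.ofNat (nat_lit 11236182511229019339510)), (.ofNat (nat_lit 0)), (.ofNat (nat_lit 0))⟩,
    ⟨nat_lit 9, nat_lit 8, (.negSucc (nat_lit 75564953471)), (.ofNat (nat_lit 5595673984)), (.negSucc (nat_lit 75564953455)), (.ofNat (nat_lit 5595673968)), (.negSucc (nat_lit 11236182511229019339509)), (.ofNat (nat_lit 0)), (.ofNat (nat_lit 11781991312894480182946037760))⟩,
    ⟨nat_lit 9, nat_lit 10, (.negSucc (nat_lit 75564953471)), (.negSucc (nat_lit 39868094847)), (.negSucc (nat_lit 75564953455)), (.negSucc (nat_lit 39868094863)), (.ofNat (nat_lit 11236182511229019339510)), (.ofNat (nat_lit 0)), (.ofNat (nat_lit 375436205112331581010892413570560))⟩,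
    ⟨nat_lit 10, nat_lit 5, (.negSucc (nat_lit 39868094847)), (.negSucc (nat_lit 21678464575)), (.negSucc (nat_lit 39868094831)), (.negSucc (nat_lit 21678464591)), (.negSucc (nat_lit 11236182511229019339509)), (.ofNat (nat_lit 0)), (.ofNat (nat_lit 625004171655891485635439216148480))⟩,
    ⟨nat_lit 11, nat_lit 7, (.negSucc (nat_lit 24636136383)), (.negSucc (nat_lit 1505644543)), (.negSucc (nat_lit 24636136367)), (.negSucc (nat_lit 1505644559)), (.negSucc (nat_lit 11236182511229019339509)), (.ofNat (nat_lit 0)), (.ofNat (nat_lit 0))⟩]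

theorem ok160 : stOK 11 11 S160 = true := by decide +kernel

def S161 : SD where
  vs := [
    ⟨nat_lit 2, nat_lit 0, nat_lit 1, (.ofNat (nat_lit 8)), (.negSucc (nat_lit 21672173119)), (.ofNat (nat_lit 1206101707809197606660163602870400)), (.negSucc (nat_lit 2097151)), (.ofNat (nat_lit 23563982625788960365892075520)), (.negSucc (nat_lit 21672173135)), (.negSucc (nat_lit 21672173103)), (.negSucc (nat_lit 11236182511229019339509)), (.ofNat (nat_lit 11236182511229019339510)), (.negSucc (nat_lit 11236182511229019339509)), (.ofNat (nat_lit 11236182511229019339510)), (.ofNat (nat_lit 0))⟩,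
    ⟨nat_lit 1, nat_lit 1, nat_lit 2, (.ofNat (nat_lit 8)), (.ofNat (nat_lit 21022033600)), (.ofNat (nat_lit 1685821606687258079604081406377600)), (.ofNat (nat_lit 262144)), (.ofNat (nat_lit 50073463079801540777520660480)), (.ofNat (nat_lit 21022033584)), (.ofNat (nat_lit 21022033616)), (.ofNat (nat_lit 11236182511229019339510)), (.negSucc (nat_lit 11236182511229019339509)), (.negSucc (nat_lit 11236182511229019339509)), (.ofNat (nat_lit 11236182511229019339510)), (.ofNat (nat_lit 0))⟩,
    ⟨nat_lit 0, nat_lit 3, nat_lit 2, (.ofNat (nat_lit 8)), (.ofNat (nat_lit 2714423168)), (.ofNat (nat_lit 1891529258845690431205224432145920)), (.negSucc (nat_lit 262143)), (.ofNat (nat_lit 55964458736248780868993679360)), (.ofNat (nat_lit 2714423152)), (.ofNat (nat_lit 2714423184)), (.ofNat (nat_lit 11236182511229019339510)), (.negSucc (nat_lit 11236182511229019339509)), (.negSucc (nat_lit 11236182511229019339509)), (.ofNat (nat_lit 11236182511229019339510)), (.ofNat (nat_lit 0))⟩,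
    ⟨nat_lit 2, nat_lit 4, nat_lit 3, (.ofNat (nat_lit 8)), (.negSucc (nat_lit 80193851199)), (.ofNat (nat_lit 959956756355791654921551209466240)), (.negSucc (nat_lit 3145727)), (.ofNat (nat_lit 23563982625788960365892075520)), (.negSucc (nat_lit 80193851215)), (.negSucc (nat_lit 80193851183)), (.negSucc (nat_lit 11236182511229019339509)), (.ofNat (nat_lit 11236182511229019339510)), (.negSucc (nat_lit 11236182511229019339509)), (.ofNat (nat_lit 11236182511229019339510)), (.ofNat (nat_lit 0))⟩,
    ⟨nat_lit 1, nat_lit 5, nat_lit 0, (.ofNat (nat_lit 8)), (.ofNat (nat_lit 18166497216)), (.ofNat (nat_lit 758467136909216086996856253095040)), (.ofNat (nat_lit 262144)), (.negSucc (nat_lit 2945497828223620045736509439)), (.ofNat (nat_lit 18166497200)), (.ofNat (nat_lit 18166497232)), (.ofNat (nat_lit 11236182511229019339510)), (.negSucc (nat_lit 11236182511229019339509)), (.negSucc (nat_lit 11236182511229019339509)), (.ofNat (nat_lit 11236182511229019339510)), (.ofNat (nat_lit 0))⟩,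
    ⟨nat_lit 1, nat_lit 6, nat_lit 10, (.ofNat (nat_lit 8)), (.negSucc (nat_lit 21676367423)), (.ofNat (nat_lit 1206101707809197606660163602870400)), (.ofNat (nat_lit 2097152)), (.ofNat (nat_lit 23563982625788960365892075520)), (.negSucc (nat_lit 21676367439)), (.negSucc (nat_lit 21676367407)), (.ofNat (nat_lit 11236182511229019339510)), (.negSucc (nat_lit 11236182511229019339509)), (.negSucc (nat_lit 11236182511229019339509)), (.ofNat (nat_lit 11236182511229019339510)), (.ofNat (nat_lit 0))⟩,
    ⟨nat_lit 0, nat_lit 4, nat_lit 6, (.ofNat (nat_lit 8)), (.negSucc (nat_lit 61888337919)), (.ofNat (nat_lit 754272668179985092280774075773440)), (.negSucc (nat_lit 524287)), (.negSucc (nat_lit 5890995656447240091473018879)), (.negSucc (nat_lit 61888337935)), (.negSucc (nat_lit 61888337903)), (.negSucc (nat_lit 11236182511229019339509)), (.ofNat (nat_lit 11236182511229019339510)), (.negSucc (nat_lit 11236182511229019339509)), (.ofNat (nat_lit 11236182511229019339510)), (.ofNat (nat_lit 0))⟩,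
    ⟨nat_lit 0, nat_lit 11, nat_lit 7, (.ofNat (nat_lit 8)), (.negSucc (nat_lit 1505906687)), (.ofNat (nat_lit 17621669436134275456620265432320)), (.negSucc (nat_lit 262143)), (.negSucc (nat_lit 14727489141118100228682547199)), (.negSucc (nat_lit 1505906703)), (.negSucc (nat_lit 1505906671)), (.negSucc (nat_lit 11236182511229019339509)), (.ofNat (nat_lit 11236182511229019339510)), (.negSucc (nat_lit 11236182511229019339509)), (.ofNat (nat_lit 11236182511229019339510)), (.ofNat (nat_lit 0))⟩,
    ⟨nat_lit 1, nat_lit 7, nat_lit 8, (.ofNat (nat_lit 8)), (.ofNat (nat_lit 5595936128)), (.ofNat (nat_lit 97419271482770925783644423892480)), (.ofNat (nat_lit 262144)), (.negSucc (nat_lit 8836493484670860137209528319)), (.ofNat (nat_lit 5595936112)), (.ofNat (nat_lit 5595936144)), (.ofNat (nat_lit 11236182511229019339510)), (.negSucc (nat_lit 11236182511229019339509)), (.negSucc (nat_lit 11236182511229019339509)), (.ofNat (nat_lit 11236182511229019339510)), (.ofNat (nat_lit 0))⟩,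
    ⟨nat_lit 2, nat_lit 8, nat_lit 9, (.ofNat (nat_lit 8)), (.negSucc (nat_lit 75567574911)), (.ofNat (nat_lit 1009387294780362360914337817082880)), (.negSucc (nat_lit 2621439)), (.ofNat (nat_lit 23563982625788960365892075520)), (.negSucc (nat_lit 75567574927)), (.negSucc (nat_lit 75567574895)), (.negSucc (nat_lit 11236182511229019339509)), (.ofNat (nat_lit 11236182511229019339510)), (.negSucc (nat_lit 11236182511229019339509)), (.ofNat (nat_lit 11236182511229019339510)), (.ofNat (nat_lit 0))⟩,
    ⟨nat_lit 0, nat_lit 9, nat_lit 10, (.ofNat (nat_lit 8)), (.negSucc (nat_lit 39868356991)), (.ofNat (nat_lit 1410510222837619969343399773102080)), (.negSucc (nat_lit 262143)), (.ofNat (nat_lit 50073463079801540777520660480)), (.negSucc (nat_lit 39868357007)), (.negSucc (nat_lit 39868356975)), (.ofNat (nat_lit 11236182511229019339510)), (.negSucc (nat_lit 11236182511229019339509)), (.negSucc (nat_lit 11236182511229019339509)), (.ofNat (nat_lit 11236182511229019339510)), (.ofNat (nat_lit 0))⟩,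
    ⟨nat_lit 2, nat_lit 11, nat_lit 5, (.ofNat (nat_lit 8)), (.negSucc (nat_lit 24636660671)), (.ofNat (nat_lit 277523042822696039280404246540160)), (.negSucc (nat_lit 524287)), (.negSucc (nat_lit 11781991312894480182946037759)), (.negSucc (nat_lit 24636660687)), (.negSucc (nat_lit 24636660655)), (.negSucc (nat_lit 11236182511229019339509)), (.ofNat (nat_lit 11236182511229019339510)), (.negSucc (nat_lit 11236182511229019339509)), (.ofNat (nat_lit 11236182511229019339510)), (.ofNat (nat_lit 0))⟩]
  es := [
    ⟨nat_lit 0, nat_lit 4, (.negSucc (nat_lit 21672173119)), (.ofNat (nat_lit 18166497216)), (.negSucc (nat_lit 21672173103)), (.ofNat (nat_lit 18166497200)), (.negSucc (nat_lit 11236182511229019339509)), (.ofNat (nat_lit 0)), (.ofNat (nat_lit 0))⟩,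
    ⟨nat_lit 0, nat_lit 1, (.negSucc (nat_lit 21672173119)), (.ofNat (nat_lit 21022033600)), (.negSucc (nat_lit 21672173103)), (.ofNat (nat_lit 21022033584)), (.ofNat (nat_lit 11236182511229019339510)), (.ofNat (nat_lit 0)), (.ofNat (nat_lit 47127965251577920731784151040))⟩,
    ⟨nat_lit 2, nat_lit 1, (.ofNat (nat_lit 2714423168)), (.ofNat (nat_lit 21022033600)), (.ofNat (nat_lit 2714423184)), (.ofNat (nat_lit 21022033584)), (.negSucc (nat_lit 11236182511229019339509)), (.ofNat (nat_lit 0)), (.ofNat (nat_lit 53018960908025160823257169920))⟩,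
    ⟨nat_lit 3, nat_lit 2, (.negSucc (nat_lit 80193851199)), (.ofNat (nat_lit 2714423168)), (.negSucc (nat_lit 80193851183)), (.ofNat (nat_lit 2714423152)), (.ofNat (nat_lit 11236182511229019339510)), (.ofNat (nat_lit 0)), (.ofNat (nat_lit 58909956564472400914730188800))⟩,
    ⟨nat_lit 3, nat_lit 6, (.negSucc (nat_lit 80193851199)), (.negSucc (nat_lit 61888337919)), (.negSucc (nat_lit 80193851183)), (.negSucc (nat_lit 61888337935)), (.negSucc (nat_lit 11236182511229019339509)), (.ofNat (nat_lit 0)), (.negSucc (nat_lit 11781991312894480182946037759))⟩,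
    ⟨nat_lit 11, nat_lit 4, (.negSucc (nat_lit 24636660671)), (.ofNat (nat_lit 18166497216)), (.negSucc (nat_lit 24636660655)), (.ofNat (nat_lit 18166497200)), (.ofNat (nat_lit 11236182511229019339510)), (.ofNat (nat_lit 0)), (.negSucc (nat_lit 5890995656447240091473018879))⟩,
    ⟨nat_lit 6, nat_lit 5, (.negSucc (nat_lit 61888337919)), (.negSucc (nat_lit 21676367423)), (.negSucc (nat_lit 61888337903)), (.negSucc (nat_lit 21676367439)), (.ofNat (nat_lit 11236182511229019339510)), (.ofNat (nat_lit 0)), (.ofNat (nat_lit 0))⟩,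
    ⟨nat_lit 7, nat_lit 8, (.negSucc (nat_lit 1505906687)), (.ofNat (nat_lit 5595936128)), (.negSucc (nat_lit 1505906671)), (.ofNat (nat_lit 5595936112)), (.ofNat (nat_lit 11236182511229019339510)), (.ofNat (nat_lit 0)), (.negSucc (nat_lit 11781991312894480182946037759))⟩,
    ⟨nat_lit 9, nat_lit 8, (.negSucc (nat_lit 75567574911)), (.ofNat (nat_lit 5595936128)), (.negSucc (nat_lit 75567574895)), (.ofNat (nat_lit 5595936112)), (.negSucc (nat_lit 11236182511229019339509)), (.ofNat (nat_lit 0)), (.negSucc (nat_lit 5890995656447240091473018879))⟩,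
    ⟨nat_lit 9, nat_lit 10, (.negSucc (nat_lit 75567574911)), (.negSucc (nat_lit 39868356991)), (.negSucc (nat_lit 75567574895)), (.negSucc (nat_lit 39868357007)), (.ofNat (nat_lit 11236182511229019339510)), (.ofNat (nat_lit 0)), (.ofNat (nat_lit 53018960908025160823257169920))⟩,
    ⟨nat_lit 10, nat_lit 5, (.negSucc (nat_lit 39868356991)), (.negSucc (nat_lit 21676367423)), (.negSucc (nat_lit 39868356975)), (.negSucc (nat_lit 21676367439)), (.negSucc (nat_lit 11236182511229019339509)), (.ofNat (nat_lit 0)), (.ofNat (nat_lit 47127965251577920731784151040))⟩,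
    ⟨nat_lit 11, nat_lit 7, (.negSucc (nat_lit 24636660671)), (.negSucc (nat_lit 1505906687)), (.negSucc (nat_lit 24636660655)), (.negSucc (nat_lit 1505906703)), (.negSucc (nat_lit 11236182511229019339509)), (.ofNat (nat_lit 0)), (.negSucc (nat_lit 17672986969341720274419056639))⟩]

theorem ok161 : stOK 11 11 S161 = true := by decide +kernel

def S162 : SD where
  vs := [
    ⟨nat_lit 0, nat_lit 10, nat_lit 1, (.ofNat (nat_lit 8)), (.negSucc (nat_lit 21674270271)), (.ofNat (nat_lit 1206172399757074973541261279096960)), (.ofNat (nat_lit 0)), (.ofNat (nat_lit 47127965251577920731784151040)), (.negSucc (nat_lit 21674270287)), (.negSucc (nat_lit 21674270255)), (.negSucc (nat_lit 11236182511229019339509)), (.ofNat (nat_lit 11236182511229019339510)), (.negSucc (nat_lit 11236182511229019339509)), (.ofNat (nat_lit 11236182511229019339510)), (.ofNat (nat_lit 0))⟩,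
    ⟨nat_lit 1, nat_lit 1, nat_lit 2, (.ofNat (nat_lit 8)), (.ofNat (nat_lit 21022557888)), (.ofNat (nat_lit 1685921753613417682685636447698560)), (.ofNat (nat_lit 262144)), (.ofNat (nat_lit 50073463079801540777520660480)), (.ofNat (nat_lit 21022557872)), (.ofNat (nat_lit 21022557904)), (.ofNat (nat_lit 11236182511229019339510)), (.negSucc (nat_lit 11236182511229019339509)), (.negSucc (nat_lit 11236182511229019339509)), (.ofNat (nat_lit 11236182511229019339510)), (.ofNat (nat_lit 0))⟩,
    ⟨nat_lit 0, nat_lit 3, nat_lit 2, (.ofNat (nat_lit 8)), (.ofNat (nat_lit 2713898880)), (.ofNat (nat_lit 1891641187763162928766962419504640)), (.negSucc (nat_lit 262143)), (.ofNat (nat_lit 55964458736248780868993679360)), (.ofNat (nat_lit 2713898864)), (.ofNat (nat_lit 2713898896)), (.ofNat (nat_lit 11236182511229019339510)), (.negSucc (nat_lit 11236182511229019339509)), (.negSucc (nat_lit 11236182511229019339509)), (.ofNat (nat_lit 11236182511229019339510)), (.ofNat (nat_lit 0))⟩,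
    ⟨nat_lit 2, nat_lit 4, nat_lit 3, (.ofNat (nat_lit 8)), (.negSucc (nat_lit 80200142655)), (.ofNat (nat_lit 960003884321043232842282993617280)), (.negSucc (nat_lit 3145727)), (.ofNat (nat_lit 23563982625788960365892075520)), (.negSucc (nat_lit 80200142671)), (.negSucc (nat_lit 80200142639)), (.negSucc (nat_lit 11236182511229019339509)), (.ofNat (nat_lit 11236182511229019339510)), (.negSucc (nat_lit 11236182511229019339509)), (.ofNat (nat_lit 11236182511229019339510)), (.ofNat (nat_lit 0))⟩,
    ⟨nat_lit 1, nat_lit 5, nat_lit 0, (.ofNat (nat_lit 8)), (.ofNat (nat_lit 18167021504)), (.ofNat (nat_lit 758461245913559639756764780076160)), (.ofNat (nat_lit 262144)), (.negSucc (nat_lit 2945497828223620045736509439)), (.ofNat (nat_lit 18167021488)), (.ofNat (nat_lit 18167021520)), (.ofNat (nat_lit 11236182511229019339510)), (.negSucc (nat_lit 11236182511229019339509)), (.negSucc (nat_lit 11236182511229019339509)), (.ofNat (nat_lit 11236182511229019339510)), (.ofNat (nat_lit 0))⟩,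
    ⟨nat_lit 0, nat_lit 6, nat_lit 0, (.ofNat (nat_lit 8)), (.negSucc (nat_lit 21674270271)), (.ofNat (nat_lit 1206125271791823395620529494945920)), (.ofNat (nat_lit 0)), (.ofNat (nat_lit 0)), (.negSucc (nat_lit 21674270287)), (.negSucc (nat_lit 21674270255)), (.ofNat (nat_lit 11236182511229019339510)), (.negSucc (nat_lit 11236182511229019339509)), (.negSucc (nat_lit 11236182511229019339509)), (.ofNat (nat_lit 11236182511229019339510)), (.ofNat (nat_lit 0))⟩,
    ⟨nat_lit 0, nat_lit 4, nat_lit 6, (.ofNat (nat_lit 8)), (.negSucc (nat_lit 61889386495)), (.ofNat (nat_lit 754260886188672197800591129735680)), (.negSucc (nat_lit 524287)), (.negSucc (nat_lit 5890995656447240091473018879)), (.negSucc (nat_lit 61889386511)), (.negSucc (nat_lit 61889386479)), (.negSucc (nat_lit 11236182511229019339509)), (.ofNat (nat_lit 11236182511229019339510)), (.negSucc (nat_lit 11236182511229019339509)), (.ofNat (nat_lit 11236182511229019339510)), (.ofNat (nat_lit 0))⟩,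
    ⟨nat_lit 0, nat_lit 11, nat_lit 7, (.ofNat (nat_lit 8)), (.negSucc (nat_lit 1506430975)), (.ofNat (nat_lit 17592214457852039256162900337920)), (.negSucc (nat_lit 262143)), (.negSucc (nat_lit 14727489141118100228682547199)), (.negSucc (nat_lit 1506430991)), (.negSucc (nat_lit 1506430959)), (.negSucc (nat_lit 11236182511229019339509)), (.ofNat (nat_lit 11236182511229019339510)), (.negSucc (nat_lit 11236182511229019339509)), (.ofNat (nat_lit 11236182511229019339510)), (.ofNat (nat_lit 0))⟩,
    ⟨nat_lit 1, nat_lit 7, nat_lit 8, (.ofNat (nat_lit 8)), (.ofNat (nat_lit 5596460416)), (.ofNat (nat_lit 97401598495801584063370004835840)), (.ofNat (nat_lit 262144)), (.negSucc (nat_lit 8836493484670860137209528319)), (.ofNat (nat_lit 5596460400)), (.ofNat (nat_lit 5596460432)), (.ofNat (nat_lit 11236182511229019339510)), (.negSucc (nat_lit 11236182511229019339509)), (.negSucc (nat_lit 11236182511229019339509)), (.ofNat (nat_lit 11236182511229019339510)), (.ofNat (nat_lit 0))⟩,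
    ⟨nat_lit 2, nat_lit 8, nat_lit 9, (.ofNat (nat_lit 8)), (.negSucc (nat_lit 75572817791)), (.ofNat (nat_lit 1009434422745613938835069601233920)), (.negSucc (nat_lit 2621439)), (.ofNat (nat_lit 23563982625788960365892075520)), (.negSucc (nat_lit 75572817807)), (.negSucc (nat_lit 75572817775)), (.negSucc (nat_lit 11236182511229019339509)), (.ofNat (nat_lit 11236182511229019339510)), (.negSucc (nat_lit 11236182511229019339509)), (.ofNat (nat_lit 11236182511229019339510)), (.ofNat (nat_lit 0))⟩,
    ⟨nat_lit 0, nat_lit 9, nat_lit 10, (.ofNat (nat_lit 8)), (.negSucc (nat_lit 39868881279)), (.ofNat (nat_lit 1410610369763779572424954814423040)), (.negSucc (nat_lit 262143)), (.ofNat (nat_lit 50073463079801540777520660480)), (.negSucc (nat_lit 39868881295)), (.negSucc (nat_lit 39868881263)), (.ofNat (nat_lit 11236182511229019339510)), (.negSucc (nat_lit 11236182511229019339509)), (.negSucc (nat_lit 11236182511229019339509)), (.ofNat (nat_lit 11236182511229019339510)), (.ofNat (nat_lit 0))⟩,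
    ⟨nat_lit 2, nat_lit 11, nat_lit 5, (.ofNat (nat_lit 8)), (.negSucc (nat_lit 24637709247)), (.ofNat (nat_lit 277499478840070250320038354464640)), (.negSucc (nat_lit 524287)), (.negSucc (nat_lit 11781991312894480182946037759)), (.negSucc (nat_lit 24637709263)), (.negSucc (nat_lit 24637709231)), (.negSucc (nat_lit 11236182511229019339509)), (.ofNat (nat_lit 11236182511229019339510)), (.negSucc (nat_lit 11236182511229019339509)), (.ofNat (nat_lit 11236182511229019339510)), (.ofNat (nat_lit 0))⟩]
  es := [
    ⟨nat_lit 5, nat_lit 4, (.negSucc (nat_lit 21674270271)), (.ofNat (nat_lit 18167021504)), (.negSucc (nat_lit 21674270255)), (.ofNat (nat_lit 18167021488)), (.negSucc (nat_lit 11236182511229019339509)), (.ofNat (nat_lit 0)), (.ofNat (nat_lit 0))⟩,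
    ⟨nat_lit 0, nat_lit 1, (.negSucc (nat_lit 21674270271)), (.ofNat (nat_lit 21022557888)), (.negSucc (nat_lit 21674270255)), (.ofNat (nat_lit 21022557872)), (.ofNat (nat_lit 11236182511229019339510)), (.ofNat (nat_lit 0)), (.ofNat (nat_lit 47127965251577920731784151040))⟩,
    ⟨nat_lit 2, nat_lit 1, (.ofNat (nat_lit 2713898880)), (.ofNat (nat_lit 21022557888)), (.ofNat (nat_lit 2713898896)), (.ofNat (nat_lit 21022557872)), (.negSucc (nat_lit 11236182511229019339509)), (.ofNat (nat_lit 0)), (.ofNat (nat_lit 53018960908025160823257169920))⟩,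
    ⟨nat_lit 3, nat_lit 2, (.negSucc (nat_lit 80200142655)), (.ofNat (nat_lit 2713898880)), (.negSucc (nat_lit 80200142639)), (.ofNat (nat_lit 2713898864)), (.ofNat (nat_lit 11236182511229019339510)), (.ofNat (nat_lit 0)), (.ofNat (nat_lit 58909956564472400914730188800))⟩,
    ⟨nat_lit 3, nat_lit 6, (.negSucc (nat_lit 80200142655)), (.negSucc (nat_lit 61889386495)), (.negSucc (nat_lit 80200142639)), (.negSucc (nat_lit 61889386511)), (.negSucc (nat_lit 11236182511229019339509)), (.ofNat (nat_lit 0)), (.negSucc (nat_lit 11781991312894480182946037759))⟩,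
    ⟨nat_lit 11, nat_lit 4, (.negSucc (nat_lit 24637709247)), (.ofNat (nat_lit 18167021504)), (.negSucc (nat_lit 24637709231)), (.ofNat (nat_lit 18167021488)), (.ofNat (nat_lit 11236182511229019339510)), (.ofNat (nat_lit 0)), (.negSucc (nat_lit 5890995656447240091473018879))⟩,
    ⟨nat_lit 6, nat_lit 5, (.negSucc (nat_lit 61889386495)), (.negSucc (nat_lit 21674270271)), (.negSucc (nat_lit 61889386479)), (.negSucc (nat_lit 21674270287)), (.ofNat (nat_lit 11236182511229019339510)), (.ofNat (nat_lit 0)), (.ofNat (nat_lit 0))⟩,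
    ⟨nat_lit 7, nat_lit 8, (.negSucc (nat_lit 1506430975)), (.ofNat (nat_lit 5596460416)), (.negSucc (nat_lit 1506430959)), (.ofNat (nat_lit 5596460400)), (.ofNat (nat_lit 11236182511229019339510)), (.ofNat (nat_lit 0)), (.negSucc (nat_lit 11781991312894480182946037759))⟩,
    ⟨nat_lit 9, nat_lit 8, (.negSucc (nat_lit 75572817791)), (.ofNat (nat_lit 5596460416)), (.negSucc (nat_lit 75572817775)), (.ofNat (nat_lit 5596460400)), (.negSucc (nat_lit 11236182511229019339509)), (.ofNat (nat_lit 0)), (.negSucc (nat_lit 5890995656447240091473018879))⟩,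
    ⟨nat_lit 9, nat_lit 10, (.negSucc (nat_lit 75572817791)), (.negSucc (nat_lit 39868881279)), (.negSucc (nat_lit 75572817775)), (.negSucc (nat_lit 39868881295)), (.ofNat (nat_lit 11236182511229019339510)), (.ofNat (nat_lit 0)), (.ofNat (nat_lit 53018960908025160823257169920))⟩,
    ⟨nat_lit 10, nat_lit 0, (.negSucc (nat_lit 39868881279)), (.negSucc (nat_lit 21674270271)), (.negSucc (nat_lit 39868881263)), (.negSucc (nat_lit 21674270287)), (.negSucc (nat_lit 11236182511229019339509)), (.ofNat (nat_lit 0)), (.ofNat (nat_lit 47127965251577920731784151040))⟩,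
    ⟨nat_lit 11, nat_lit 7, (.negSucc (nat_lit 24637709247)), (.negSucc (nat_lit 1506430975)), (.negSucc (nat_lit 24637709231)), (.negSucc (nat_lit 1506430991)), (.negSucc (nat_lit 11236182511229019339509)), (.ofNat (nat_lit 0)), (.negSucc (nat_lit 17672986969341720274419056639))⟩]

theorem ok162 : stOK 11 11 S162 = true := by decide +kernel

def S163 : SD where
  vs := [
    ⟨nat_lit 0, nat_lit 10, nat_lit 1, (.ofNat (nat_lit 8)), (.negSucc (nat_lit 21674270271)), (.ofNat (nat_lit 1206031015861320239779065926643840)), (.ofNat (nat_lit 0)), (.ofNat (nat_lit 47127965251577920731784151040)), (.negSucc (nat_lit 21674270287)), (.negSucc (nat_lit 21674270255)), (.negSucc (nat_lit 11236182511229019339509)), (.ofNat (nat_lit 11236182511229019339510)), (.negSucc (nat_lit 11236182511229019339509)), (.ofNat (nat_lit 11236182511229019339510)), (.ofNat (nat_lit 0))⟩,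
    ⟨nat_lit 1, nat_lit 1, nat_lit 2, (.ofNat (nat_lit 8)), (.ofNat (nat_lit 21021771456)), (.ofNat (nat_lit 1685771533224178278063303885717120)), (.ofNat (nat_lit 262144)), (.ofNat (nat_lit 50073463079801540777520660480)), (.ofNat (nat_lit 21021771440)), (.ofNat (nat_lit 21021771472)), (.ofNat (nat_lit 11236182511229019339510)), (.negSucc (nat_lit 11236182511229019339509)), (.negSucc (nat_lit 11236182511229019339509)), (.ofNat (nat_lit 11236182511229019339510)), (.ofNat (nat_lit 0))⟩,
    ⟨nat_lit 0, nat_lit 3, nat_lit 2, (.ofNat (nat_lit 8)), (.ofNat (nat_lit 2714685312)), (.ofNat (nat_lit 1891473294386954182424355438466560)), (.negSucc (nat_lit 262143)), (.ofNat (nat_lit 55964458736248780868993679360)), (.ofNat (nat_lit 2714685296)), (.ofNat (nat_lit 2714685328)), (.ofNat (nat_lit 11236182511229019339510)), (.negSucc (nat_lit 11236182511229019339509)), (.negSucc (nat_lit 11236182511229019339509)), (.ofNat (nat_lit 11236182511229019339510)), (.ofNat (nat_lit 0))⟩,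
    ⟨nat_lit 2, nat_lit 4, nat_lit 3, (.ofNat (nat_lit 8)), (.negSucc (nat_lit 80190705471)), (.ofNat (nat_lit 959933192373165865961185317390720)), (.negSucc (nat_lit 3145727)), (.ofNat (nat_lit 23563982625788960365892075520)), (.negSucc (nat_lit 80190705487)), (.negSucc (nat_lit 80190705455)), (.negSucc (nat_lit 11236182511229019339509)), (.ofNat (nat_lit 11236182511229019339510)), (.negSucc (nat_lit 11236182511229019339509)), (.ofNat (nat_lit 11236182511229019339510)), (.ofNat (nat_lit 0))⟩,
    ⟨nat_lit 1, nat_lit 5, nat_lit 0, (.ofNat (nat_lit 8)), (.ofNat (nat_lit 18166235072)), (.ofNat (nat_lit 758470082407044310616901989604480)), (.ofNat (nat_lit 262144)), (.negSucc (nat_lit 2945497828223620045736509439)), (.ofNat (nat_lit 18166235056)), (.ofNat (nat_lit 18166235088)), (.ofNat (nat_lit 11236182511229019339510)), (.negSucc (nat_lit 11236182511229019339509)), (.negSucc (nat_lit 11236182511229019339509)), (.ofNat (nat_lit 11236182511229019339510)), (.ofNat (nat_lit 0))⟩,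
    ⟨nat_lit 0, nat_lit 6, nat_lit 0, (.ofNat (nat_lit 8)), (.negSucc (nat_lit 21674270271)), (.ofNat (nat_lit 1206125271791823395620529494945920)), (.ofNat (nat_lit 0)), (.ofNat (nat_lit 0)), (.negSucc (nat_lit 21674270287)), (.negSucc (nat_lit 21674270255)), (.ofNat (nat_lit 11236182511229019339510)), (.negSucc (nat_lit 11236182511229019339509)), (.negSucc (nat_lit 11236182511229019339509)), (.ofNat (nat_lit 11236182511229019339510)), (.ofNat (nat_lit 0))⟩,
    ⟨nat_lit 0, nat_lit 4, nat_lit 6, (.ofNat (nat_lit 8)), (.negSucc (nat_lit 61887813631)), (.ofNat (nat_lit 754278559175641539520865548792320)), (.negSucc (nat_lit 524287)), (.negSucc (nat_lit 5890995656447240091473018879)), (.negSucc (nat_lit 61887813647)), (.negSucc (nat_lit 61887813615)), (.negSucc (nat_lit 11236182511229019339509)), (.ofNat (nat_lit 11236182511229019339510)), (.negSucc (nat_lit 11236182511229019339509)), (.ofNat (nat_lit 11236182511229019339510)), (.ofNat (nat_lit 0))⟩,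
    ⟨nat_lit 0, nat_lit 11, nat_lit 7, (.ofNat (nat_lit 8)), (.negSucc (nat_lit 1505644543)), (.ofNat (nat_lit 17636396925275393556848947979520)), (.negSucc (nat_lit 262143)), (.negSucc (nat_lit 14727489141118100228682547199)), (.negSucc (nat_lit 1505644559)), (.negSucc (nat_lit 1505644527)), (.negSucc (nat_lit 11236182511229019339509)), (.ofNat (nat_lit 11236182511229019339510)), (.negSucc (nat_lit 11236182511229019339509)), (.ofNat (nat_lit 11236182511229019339510)), (.ofNat (nat_lit 0))⟩,
    ⟨nat_lit 1, nat_lit 7, nat_lit 8, (.ofNat (nat_lit 8)), (.ofNat (nat_lit 5595673984)), (.ofNat (nat_lit 97428107976255596643781633420800)), (.ofNat (nat_lit 262144)), (.negSucc (nat_lit 8836493484670860137209528319)), (.ofNat (nat_lit 5595673968)), (.ofNat (nat_lit 5595674000)), (.ofNat (nat_lit 11236182511229019339510)), (.negSucc (nat_lit 11236182511229019339509)), (.negSucc (nat_lit 11236182511229019339509)), (.ofNat (nat_lit 11236182511229019339510)), (.ofNat (nat_lit 0))⟩,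
    ⟨nat_lit 2, nat_lit 8, nat_lit 9, (.ofNat (nat_lit 8)), (.negSucc (nat_lit 75564953471)), (.ofNat (nat_lit 1009363730797736571953971925007360)), (.negSucc (nat_lit 2621439)), (.ofNat (nat_lit 23563982625788960365892075520)), (.negSucc (nat_lit 75564953487)), (.negSucc (nat_lit 75564953455)), (.negSucc (nat_lit 11236182511229019339509)), (.ofNat (nat_lit 11236182511229019339510)), (.negSucc (nat_lit 11236182511229019339509)), (.ofNat (nat_lit 11236182511229019339510)), (.ofNat (nat_lit 0))⟩,
    ⟨nat_lit 0, nat_lit 9, nat_lit 10, (.ofNat (nat_lit 8)), (.negSucc (nat_lit 39868094847)), (.ofNat (nat_lit 1410460149374540167802622252441600)), (.negSucc (nat_lit 262143)), (.ofNat (nat_lit 50073463079801540777520660480)), (.negSucc (nat_lit 39868094863)), (.negSucc (nat_lit 39868094831)), (.ofNat (nat_lit 11236182511229019339510)), (.negSucc (nat_lit 11236182511229019339509)), (.negSucc (nat_lit 11236182511229019339509)), (.ofNat (nat_lit 11236182511229019339510)), (.ofNat (nat_lit 0))⟩,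
    ⟨nat_lit 2, nat_lit 11, nat_lit 5, (.ofNat (nat_lit 8)), (.negSucc (nat_lit 24636136383)), (.ofNat (nat_lit 277534824814008933760587192577920)), (.negSucc (nat_lit 524287)), (.negSucc (nat_lit 11781991312894480182946037759)), (.negSucc (nat_lit 24636136399)), (.negSucc (nat_lit 24636136367)), (.negSucc (nat_lit 11236182511229019339509)), (.ofNat (nat_lit 11236182511229019339510)), (.negSucc (nat_lit 11236182511229019339509)), (.ofNat (nat_lit 11236182511229019339510)), (.ofNat (nat_lit 0))⟩]
  es := [
    ⟨nat_lit 5, nat_lit 4, (.negSucc (nat_lit 21674270271)), (.ofNat (nat_lit 18166235072)), (.negSucc (nat_lit 21674270255)), (.ofNat (nat_lit 18166235056)), (.negSucc (nat_lit 11236182511229019339509)), (.ofNat (nat_lit 0)), (.ofNat (nat_lit 0))⟩,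
    ⟨nat_lit 0, nat_lit 1, (.negSucc (nat_lit 21674270271)), (.ofNat (nat_lit 21021771456)), (.negSucc (nat_lit 21674270255)), (.ofNat (nat_lit 21021771440)), (.ofNat (nat_lit 11236182511229019339510)), (.ofNat (nat_lit 0)), (.ofNat (nat_lit 47127965251577920731784151040))⟩,
    ⟨nat_lit 2, nat_lit 1, (.ofNat (nat_lit 2714685312)), (.ofNat (nat_lit 21021771456)), (.ofNat (nat_lit 2714685328)), (.ofNat (nat_lit 21021771440)), (.negSucc (nat_lit 11236182511229019339509)), (.ofNat (nat_lit 0)), (.ofNat (nat_lit 53018960908025160823257169920))⟩,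
    ⟨nat_lit 3, nat_lit 2, (.negSucc (nat_lit 80190705471)), (.ofNat (nat_lit 2714685312)), (.negSucc (nat_lit 80190705455)), (.ofNat (nat_lit 2714685296)), (.ofNat (nat_lit 11236182511229019339510)), (.ofNat (nat_lit 0)), (.ofNat (nat_lit 58909956564472400914730188800))⟩,
    ⟨nat_lit 3, nat_lit 6, (.negSucc (nat_lit 80190705471)), (.negSucc (nat_lit 61887813631)), (.negSucc (nat_lit 80190705455)), (.negSucc (nat_lit 61887813647)), (.negSucc (nat_lit 11236182511229019339509)), (.ofNat (nat_lit 0)), (.negSucc (nat_lit 11781991312894480182946037759))⟩,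
    ⟨nat_lit 11, nat_lit 4, (.negSucc (nat_lit 24636136383)), (.ofNat (nat_lit 18166235072)), (.negSucc (nat_lit 24636136367)), (.ofNat (nat_lit 18166235056)), (.ofNat (nat_lit 11236182511229019339510)), (.ofNat (nat_lit 0)), (.negSucc (nat_lit 5890995656447240091473018879))⟩,
    ⟨nat_lit 6, nat_lit 5, (.negSucc (nat_lit 61887813631)), (.negSucc (nat_lit 21674270271)), (.negSucc (nat_lit 61887813615)), (.negSucc (nat_lit 21674270287)), (.ofNat (nat_lit 11236182511229019339510)), (.ofNat (nat_lit 0)), (.ofNat (nat_lit 0))⟩,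
    ⟨nat_lit 7, nat_lit 8, (.negSucc (nat_lit 1505644543)), (.ofNat (nat_lit 5595673984)), (.negSucc (nat_lit 1505644527)), (.ofNat (nat_lit 5595673968)), (.ofNat (nat_lit 11236182511229019339510)), (.ofNat (nat_lit 0)), (.negSucc (nat_lit 11781991312894480182946037759))⟩,
    ⟨nat_lit 9, nat_lit 8, (.negSucc (nat_lit 75564953471)), (.ofNat (nat_lit 5595673984)), (.negSucc (nat_lit 75564953455)), (.ofNat (nat_lit 5595673968)), (.negSucc (nat_lit 11236182511229019339509)), (.ofNat (nat_lit 0)), (.negSucc (nat_lit 5890995656447240091473018879))⟩,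
    ⟨nat_lit 9, nat_lit 10, (.negSucc (nat_lit 75564953471)), (.negSucc (nat_lit 39868094847)), (.negSucc (nat_lit 75564953455)), (.negSucc (nat_lit 39868094863)), (.ofNat (nat_lit 11236182511229019339510)), (.ofNat (nat_lit 0)), (.ofNat (nat_lit 53018960908025160823257169920))⟩,
    ⟨nat_lit 10, nat_lit 0, (.negSucc (nat_lit 39868094847)), (.negSucc (nat_lit 21674270271)), (.negSucc (nat_lit 39868094831)), (.negSucc (nat_lit 21674270287)), (.negSucc (nat_lit 11236182511229019339509)), (.ofNat (nat_lit 0)), (.ofNat (nat_lit 47127965251577920731784151040))⟩,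
    ⟨nat_lit 11, nat_lit 7, (.negSucc (nat_lit 24636136383)), (.negSucc (nat_lit 1505644543)), (.negSucc (nat_lit 24636136367)), (.negSucc (nat_lit 1505644559)), (.negSucc (nat_lit 11236182511229019339509)), (.ofNat (nat_lit 0)), (.negSucc (nat_lit 17672986969341720274419056639))⟩]

theorem ok163 : stOK 11 11 S163 = true := by decide +kernel

def S164 : SD where
  vs := [
    ⟨nat_lit 0, nat_lit 10, nat_lit 1, (.ofNat (nat_lit 8)), (.negSucc (nat_lit 21674270271)), (.ofNat (nat_lit 1206219527722326551461993063248000)), (.ofNat (nat_lit 0)), (.ofNat (nat_lit 47127965251577920731784151040)), (.negSucc (nat_lit 21674270287)), (.negSucc (nat_lit 21674270255)), (.negSucc (nat_lit 11236182511229019339509)), (.ofNat (nat_lit 11236182511229019339510)), (.negSucc (nat_lit 11236182511229019339509)), (.ofNat (nat_lit 11236182511229019339510)), (.ofNat (nat_lit 0))⟩,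
    ⟨nat_lit 1, nat_lit 1, nat_lit 2, (.ofNat (nat_lit 8)), (.ofNat (nat_lit 21022820032)), (.ofNat (nat_lit 1685971827076497484226413968359040)), (.ofNat (nat_lit 262144)), (.ofNat (nat_lit 50073463079801540777520660480)), (.ofNat (nat_lit 21022820016)), (.ofNat (nat_lit 21022820048)), (.ofNat (nat_lit 11236182511229019339510)), (.negSucc (nat_lit 11236182511229019339509)), (.negSucc (nat_lit 11236182511229019339509)), (.ofNat (nat_lit 11236182511229019339510)), (.ofNat (nat_lit 0))⟩,
    ⟨nat_lit 0, nat_lit 3, nat_lit 2, (.ofNat (nat_lit 8)), (.ofNat (nat_lit 2713636736)), (.ofNat (nat_lit 1891697152221899177547831413184000)), (.negSucc (nat_lit 262143)), (.ofNat (nat_lit 55964458736248780868993679360)), (.ofNat (nat_lit 2713636720)), (.ofNat (nat_lit 2713636752)), (.ofNat (nat_lit 11236182511229019339510)), (.negSucc (nat_lit 11236182511229019339509)), (.negSucc (nat_lit 11236182511229019339509)), (.ofNat (nat_lit 11236182511229019339510)), (.ofNat (nat_lit 0))⟩,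
    ⟨nat_lit 2, nat_lit 4, nat_lit 3, (.ofNat (nat_lit 8)), (.negSucc (nat_lit 80203288383)), (.ofNat (nat_lit 960027448303669021802648885692800)), (.negSucc (nat_lit 3145727)), (.ofNat (nat_lit 23563982625788960365892075520)), (.negSucc (nat_lit 80203288399)), (.negSucc (nat_lit 80203288367)), (.negSucc (nat_lit 11236182511229019339509)), (.ofNat (nat_lit 11236182511229019339510)), (.negSucc (nat_lit 11236182511229019339509)), (.ofNat (nat_lit 11236182511229019339510)), (.ofNat (nat_lit 0))⟩,
    ⟨nat_lit 1, nat_lit 5, nat_lit 0, (.ofNat (nat_lit 8)), (.ofNat (nat_lit 18167283648)), (.ofNat (nat_lit 758458300415731416136719043566720)), (.ofNat (nat_lit 262144)), (.negSucc (nat_lit 2945497828223620045736509439)), (.ofNat (nat_lit 18167283632)), (.ofNat (nat_lit 18167283664)), (.ofNat (nat_lit 11236182511229019339510)), (.negSucc (nat_lit 11236182511229019339509)), (.negSucc (nat_lit 11236182511229019339509)), (.ofNat (nat_lit 11236182511229019339510)), (.ofNat (nat_lit 0))⟩,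
    ⟨nat_lit 0, nat_lit 6, nat_lit 0, (.ofNat (nat_lit 8)), (.negSucc (nat_lit 21674270271)), (.ofNat (nat_lit 1206125271791823395620529494945920)), (.ofNat (nat_lit 0)), (.ofNat (nat_lit 0)), (.negSucc (nat_lit 21674270287)), (.negSucc (nat_lit 21674270255)), (.ofNat (nat_lit 11236182511229019339510)), (.negSucc (nat_lit 11236182511229019339509)), (.negSucc (nat_lit 11236182511229019339509)), (.ofNat (nat_lit 11236182511229019339510)), (.ofNat (nat_lit 0))⟩,
    ⟨nat_lit 0, nat_lit 4, nat_lit 6, (.ofNat (nat_lit 8)), (.negSucc (nat_lit 61889910783)), (.ofNat (nat_lit 754254995193015750560499656716800)), (.negSucc (nat_lit 524287)), (.negSucc (nat_lit 5890995656447240091473018879)), (.negSucc (nat_lit 61889910799)), (.negSucc (nat_lit 61889910767)), (.negSucc (nat_lit 11236182511229019339509)), (.ofNat (nat_lit 11236182511229019339510)), (.negSucc (nat_lit 11236182511229019339509)), (.ofNat (nat_lit 11236182511229019339510)), (.ofNat (nat_lit 0))⟩,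
    ⟨nat_lit 0, nat_lit 11, nat_lit 7, (.ofNat (nat_lit 8)), (.negSucc (nat_lit 1506693119)), (.ofNat (nat_lit 17577486968710921155934217790720)), (.negSucc (nat_lit 262143)), (.negSucc (nat_lit 14727489141118100228682547199)), (.negSucc (nat_lit 1506693135)), (.negSucc (nat_lit 1506693103)), (.negSucc (nat_lit 11236182511229019339509)), (.ofNat (nat_lit 11236182511229019339510)), (.negSucc (nat_lit 11236182511229019339509)), (.ofNat (nat_lit 11236182511229019339510)), (.ofNat (nat_lit 0))⟩,
    ⟨nat_lit 1, nat_lit 7, nat_lit 8, (.ofNat (nat_lit 8)), (.ofNat (nat_lit 5596722560)), (.ofNat (nat_lit 97392762002316913203232795307520)), (.ofNat (nat_lit 262144)), (.negSucc (nat_lit 8836493484670860137209528319)), (.ofNat (nat_lit 5596722544)), (.ofNat (nat_lit 5596722576)), (.ofNat (nat_lit 11236182511229019339510)), (.negSucc (nat_lit 11236182511229019339509)), (.negSucc (nat_lit 11236182511229019339509)), (.ofNat (nat_lit 11236182511229019339510)), (.ofNat (nat_lit 0))⟩,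
    ⟨nat_lit 2, nat_lit 8, nat_lit 9, (.ofNat (nat_lit 8)), (.negSucc (nat_lit 75575439231)), (.ofNat (nat_lit 1009457986728239727795435493309440)), (.negSucc (nat_lit 2621439)), (.ofNat (nat_lit 23563982625788960365892075520)), (.negSucc (nat_lit 75575439247)), (.negSucc (nat_lit 75575439215)), (.negSucc (nat_lit 11236182511229019339509)), (.ofNat (nat_lit 11236182511229019339510)), (.negSucc (nat_lit 11236182511229019339509)), (.ofNat (nat_lit 11236182511229019339510)), (.ofNat (nat_lit 0))⟩,
    ⟨nat_lit 0, nat_lit 9, nat_lit 10, (.ofNat (nat_lit 8)), (.negSucc (nat_lit 39869143423)), (.ofNat (nat_lit 1410660443226859373965732335083520)), (.negSucc (nat_lit 262143)), (.ofNat (nat_lit 50073463079801540777520660480)), (.negSucc (nat_lit 39869143439)), (.negSucc (nat_lit 39869143407)), (.ofNat (nat_lit 11236182511229019339510)), (.negSucc (nat_lit 11236182511229019339509)), (.negSucc (nat_lit 11236182511229019339509)), (.ofNat (nat_lit 11236182511229019339510)), (.ofNat (nat_lit 0))⟩,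
    ⟨nat_lit 2, nat_lit 11, nat_lit 5, (.ofNat (nat_lit 8)), (.negSucc (nat_lit 24638233535)), (.ofNat (nat_lit 277487696848757355839855408426880)), (.negSucc (nat_lit 524287)), (.negSucc (nat_lit 11781991312894480182946037759)), (.negSucc (nat_lit 24638233551)), (.negSucc (nat_lit 24638233519)), (.negSucc (nat_lit 11236182511229019339509)), (.ofNat (nat_lit 11236182511229019339510)), (.negSucc (nat_lit 11236182511229019339509)), (.ofNat (nat_lit 11236182511229019339510)), (.ofNat (nat_lit 0))⟩]
  es := [
    ⟨nat_lit 5, nat_lit 4, (.negSucc (nat_lit 21674270271)), (.ofNat (nat_lit 18167283648)), (.negSucc (nat_lit 21674270255)), (.ofNat (nat_lit 18167283632)), (.negSucc (nat_lit 11236182511229019339509)), (.ofNat (nat_lit 0)), (.ofNat (nat_lit 0))⟩,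
    ⟨nat_lit 0, nat_lit 1, (.negSucc (nat_lit 21674270271)), (.ofNat (nat_lit 21022820032)), (.negSucc (nat_lit 21674270255)), (.ofNat (nat_lit 21022820016)), (.ofNat (nat_lit 11236182511229019339510)), (.ofNat (nat_lit 0)), (.ofNat (nat_lit 47127965251577920731784151040))⟩,
    ⟨nat_lit 2, nat_lit 1, (.ofNat (nat_lit 2713636736)), (.ofNat (nat_lit 21022820032)), (.ofNat (nat_lit 2713636752)), (.ofNat (nat_lit 21022820016)), (.negSucc (nat_lit 11236182511229019339509)), (.ofNat (nat_lit 0)), (.ofNat (nat_lit 53018960908025160823257169920))⟩,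
    ⟨nat_lit 3, nat_lit 2, (.negSucc (nat_lit 80203288383)), (.ofNat (nat_lit 2713636736)), (.negSucc (nat_lit 80203288367)), (.ofNat (nat_lit 2713636720)), (.ofNat (nat_lit 11236182511229019339510)), (.ofNat (nat_lit 0)), (.ofNat (nat_lit 58909956564472400914730188800))⟩,
    ⟨nat_lit 3, nat_lit 6, (.negSucc (nat_lit 80203288383)), (.negSucc (nat_lit 61889910783)), (.negSucc (nat_lit 80203288367)), (.negSucc (nat_lit 61889910799)), (.negSucc (nat_lit 11236182511229019339509)), (.ofNat (nat_lit 0)), (.negSucc (nat_lit 11781991312894480182946037759))⟩,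
    ⟨nat_lit 11, nat_lit 4, (.negSucc (nat_lit 24638233535)), (.ofNat (nat_lit 18167283648)), (.negSucc (nat_lit 24638233519)), (.ofNat (nat_lit 18167283632)), (.ofNat (nat_lit 11236182511229019339510)), (.ofNat (nat_lit 0)), (.negSucc (nat_lit 5890995656447240091473018879))⟩,
    ⟨nat_lit 6, nat_lit 5, (.negSucc (nat_lit 61889910783)), (.negSucc (nat_lit 21674270271)), (.negSucc (nat_lit 61889910767)), (.negSucc (nat_lit 21674270287)), (.ofNat (nat_lit 11236182511229019339510)), (.ofNat (nat_lit 0)), (.ofNat (nat_lit 0))⟩,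
    ⟨nat_lit 7, nat_lit 8, (.negSucc (nat_lit 1506693119)), (.ofNat (nat_lit 5596722560)), (.negSucc (nat_lit 1506693103)), (.ofNat (nat_lit 5596722544)), (.ofNat (nat_lit 11236182511229019339510)), (.ofNat (nat_lit 0)), (.negSucc (nat_lit 11781991312894480182946037759))⟩,
    ⟨nat_lit 9, nat_lit 8, (.negSucc (nat_lit 75575439231)), (.ofNat (nat_lit 5596722560)), (.negSucc (nat_lit 75575439215)), (.ofNat (nat_lit 5596722544)), (.negSucc (nat_lit 11236182511229019339509)), (.ofNat (nat_lit 0)), (.negSucc (nat_lit 5890995656447240091473018879))⟩,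
    ⟨nat_lit 9, nat_lit 10, (.negSucc (nat_lit 75575439231)), (.negSucc (nat_lit 39869143423)), (.negSucc (nat_lit 75575439215)), (.negSucc (nat_lit 39869143439)), (.ofNat (nat_lit 11236182511229019339510)), (.ofNat (nat_lit 0)), (.ofNat (nat_lit 53018960908025160823257169920))⟩,
    ⟨nat_lit 10, nat_lit 0, (.negSucc (nat_lit 39869143423)), (.negSucc (nat_lit 21674270271)), (.negSucc (nat_lit 39869143407)), (.negSucc (nat_lit 21674270287)), (.negSucc (nat_lit 11236182511229019339509)), (.ofNat (nat_lit 0)), (.ofNat (nat_lit 47127965251577920731784151040))⟩,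
    ⟨nat_lit 11, nat_lit 7, (.negSucc (nat_lit 24638233535)), (.negSucc (nat_lit 1506693119)), (.negSucc (nat_lit 24638233519)), (.negSucc (nat_lit 1506693135)), (.negSucc (nat_lit 11236182511229019339509)), (.ofNat (nat_lit 0)), (.negSucc (nat_lit 17672986969341720274419056639))⟩]

theorem ok164 : stOK 11 11 S164 = true := by decide +kernel

def S165 : SD where
  vs := [
    ⟨nat_lit 0, nat_lit 10, nat_lit 1, (.ofNat (nat_lit 8)), (.negSucc (nat_lit 34248501375)), (.ofNat (nat_lit 1347482319362617526747911349291520)), (.negSucc (nat_lit 12574231103)), (.ofNat (nat_lit 141309919605542553206650070194560)), (.negSucc (nat_lit 34248501391)), (.negSucc (nat_lit 34248501359)), (.negSucc (nat_lit 11236182511229019339509)), (.ofNat (nat_lit 11236182511229019339510)), (.negSucc (nat_lit 11236182511229019339509)), (.ofNat (nat_lit 11236182511229019339510)), (.ofNat (nat_lit 0))⟩,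
    ⟨nat_lit 1, nat_lit 1, nat_lit 2, (.ofNat (nat_lit 8)), (.ofNat (nat_lit 8448588928)), (.ofNat (nat_lit 1827234618716788459512332254402560)), (.negSucc (nat_lit 12573968959)), (.ofNat (nat_lit 141312865103370776826695806704000)), (.ofNat (nat_lit 8448588912)), (.ofNat (nat_lit 8448588944)), (.ofNat (nat_lit 11236182511229019339510)), (.negSucc (nat_lit 11236182511229019339509)), (.negSucc (nat_lit 11236182511229019339509)), (.ofNat (nat_lit 11236182511229019339510)), (.ofNat (nat_lit 0))⟩,
    ⟨nat_lit 0, nat_lit 3, nat_lit 2, (.ofNat (nat_lit 8)), (.negSucc (nat_lit 9860594367)), (.ofNat (nat_lit 2032959943862190152833749699227520)), (.negSucc (nat_lit 12574493247)), (.ofNat (nat_lit 141318756099027224066787279722880)), (.negSucc (nat_lit 9860594383)), (.negSucc (nat_lit 9860594351)), (.ofNat (nat_lit 11236182511229019339510)), (.negSucc (nat_lit 11236182511229019339509)), (.negSucc (nat_lit 11236182511229019339509)), (.ofNat (nat_lit 11236182511229019339510)), (.ofNat (nat_lit 0))⟩,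
    ⟨nat_lit 2, nat_lit 4, nat_lit 3, (.ofNat (nat_lit 8)), (.negSucc (nat_lit 92775684479)), (.ofNat (nat_lit 1101310858428757562428887327302400)), (.negSucc (nat_lit 12575541823)), (.ofNat (nat_lit 141306974107714329586604333685120)), (.negSucc (nat_lit 92775684495)), (.negSucc (nat_lit 92775684463)), (.negSucc (nat_lit 11236182511229019339509)), (.ofNat (nat_lit 11236182511229019339510)), (.negSucc (nat_lit 11236182511229019339509)), (.ofNat (nat_lit 11236182511229019339510)), (.ofNat (nat_lit 0))⟩,
    ⟨nat_lit 1, nat_lit 5, nat_lit 0, (.ofNat (nat_lit 8)), (.ofNat (nat_lit 5593052544)), (.ofNat (nat_lit 899762329025617522103277640742400)), (.negSucc (nat_lit 12573968959)), (.ofNat (nat_lit 141301083112057882346512860666240)), (.ofNat (nat_lit 5593052528)), (.ofNat (nat_lit 5593052560)), (.ofNat (nat_lit 11236182511229019339510)), (.negSucc (nat_lit 11236182511229019339509)), (.negSucc (nat_lit 11236182511229019339509)), (.ofNat (nat_lit 11236182511229019339510)), (.ofNat (nat_lit 0))⟩,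
    ⟨nat_lit 0, nat_lit 6, nat_lit 0, (.ofNat (nat_lit 8)), (.negSucc (nat_lit 34248501375)), (.ofNat (nat_lit 1347429300401709501587088092121600)), (.negSucc (nat_lit 12574231103)), (.ofNat (nat_lit 141304028609886105966558597175680)), (.negSucc (nat_lit 34248501391)), (.negSucc (nat_lit 34248501359)), (.ofNat (nat_lit 11236182511229019339510)), (.negSucc (nat_lit 11236182511229019339509)), (.negSucc (nat_lit 11236182511229019339509)), (.ofNat (nat_lit 11236182511229019339510)), (.ofNat (nat_lit 0))⟩,
    ⟨nat_lit 0, nat_lit 4, nat_lit 6, (.ofNat (nat_lit 8)), (.negSucc (nat_lit 74464141887)), (.ofNat (nat_lit 895559023802901856527058253892480)), (.negSucc (nat_lit 12574755391)), (.ofNat (nat_lit 141298137614229658726467124156800)), (.negSucc (nat_lit 74464141903)), (.negSucc (nat_lit 74464141871)), (.negSucc (nat_lit 11236182511229019339509)), (.ofNat (nat_lit 11236182511229019339510)), (.negSucc (nat_lit 11236182511229019339509)), (.ofNat (nat_lit 11236182511229019339510)), (.ofNat (nat_lit 0))⟩,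
    ⟨nat_lit 0, nat_lit 11, nat_lit 7, (.ofNat (nat_lit 8)), (.negSucc (nat_lit 1506430975)), (.ofNat (nat_lit 17592214457852039256162900337920)), (.ofNat (nat_lit 0)), (.ofNat (nat_lit 0)), (.negSucc (nat_lit 1506430991)), (.negSucc (nat_lit 1506430959)), (.negSucc (nat_lit 11236182511229019339509)), (.ofNat (nat_lit 11236182511229019339510)), (.negSucc (nat_lit 11236182511229019339509)), (.ofNat (nat_lit 11236182511229019339510)), (.ofNat (nat_lit 0))⟩,
    ⟨nat_lit 1, nat_lit 7, nat_lit 8, (.ofNat (nat_lit 8)), (.ofNat (nat_lit 5596984704)), (.ofNat (nat_lit 97407489491458031303461477854720)), (.ofNat (nat_lit 524288)), (.ofNat (nat_lit 5890995656447240091473018880)), (.ofNat (nat_lit 5596984688)), (.ofNat (nat_lit 5596984720)), (.ofNat (nat_lit 11236182511229019339510)), (.negSucc (nat_lit 11236182511229019339509)), (.negSucc (nat_lit 11236182511229019339509)), (.ofNat (nat_lit 11236182511229019339510)), (.ofNat (nat_lit 0))⟩,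
    ⟨nat_lit 2, nat_lit 8, nat_lit 9, (.ofNat (nat_lit 8)), (.negSucc (nat_lit 88147835327)), (.ofNat (nat_lit 1150741396853328268421673934919040)), (.negSucc (nat_lit 12575017535)), (.ofNat (nat_lit 141306974107714329586604333685120)), (.negSucc (nat_lit 88147835343)), (.negSucc (nat_lit 88147835311)), (.negSucc (nat_lit 11236182511229019339509)), (.ofNat (nat_lit 11236182511229019339510)), (.negSucc (nat_lit 11236182511229019339509)), (.ofNat (nat_lit 11236182511229019339510)), (.ofNat (nat_lit 0))⟩,
    ⟨nat_lit 0, nat_lit 9, nat_lit 10, (.ofNat (nat_lit 8)), (.negSucc (nat_lit 52443374527)), (.ofNat (nat_lit 1551923234867150349251650621127040)), (.negSucc (nat_lit 12574493247)), (.ofNat (nat_lit 141312865103370776826695806704000)), (.negSucc (nat_lit 52443374543)), (.negSucc (nat_lit 52443374511)), (.ofNat (nat_lit 11236182511229019339510)), (.negSucc (nat_lit 11236182511229019339509)), (.negSucc (nat_lit 11236182511229019339509)), (.ofNat (nat_lit 11236182511229019339510)), (.ofNat (nat_lit 0))⟩,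
    ⟨nat_lit 2, nat_lit 11, nat_lit 5, (.ofNat (nat_lit 8)), (.negSucc (nat_lit 37212464639)), (.ofNat (nat_lit 418791725458643461806414005602560)), (.negSucc (nat_lit 12574755391)), (.ofNat (nat_lit 141292246618573211486375651137920)), (.negSucc (nat_lit 37212464655)), (.negSucc (nat_lit 37212464623)), (.negSucc (nat_lit 11236182511229019339509)), (.ofNat (nat_lit 11236182511229019339510)), (.negSucc (nat_lit 11236182511229019339509)), (.ofNat (nat_lit 11236182511229019339510)), (.ofNat (nat_lit 0))⟩]
  es := [
    ⟨nat_lit 5, nat_lit 4, (.negSucc (nat_lit 34248501375)), (.ofNat (nat_lit 5593052544)), (.negSucc (nat_lit 34248501359)), (.ofNat (nat_lit 5593052528)), (.negSucc (nat_lit 11236182511229019339509)), (.ofNat (nat_lit 0)), (.ofNat (nat_lit 17672986969341720274419056640))⟩,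
    ⟨nat_lit 0, nat_lit 1, (.negSucc (nat_lit 34248501375)), (.ofNat (nat_lit 8448588928)), (.negSucc (nat_lit 34248501359)), (.ofNat (nat_lit 8448588912)), (.ofNat (nat_lit 11236182511229019339510)), (.ofNat (nat_lit 0)), (.ofNat (nat_lit 282596275228459317452934248313600))⟩,
    ⟨nat_lit 2, nat_lit 1, (.negSucc (nat_lit 9860594367)), (.ofNat (nat_lit 8448588928)), (.negSucc (nat_lit 9860594351)), (.ofNat (nat_lit 8448588912)), (.negSucc (nat_lit 11236182511229019339509)), (.ofNat (nat_lit 0)), (.ofNat (nat_lit 29454978282236200457365094400))⟩,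
    ⟨nat_lit 3, nat_lit 2, (.negSucc (nat_lit 92775684479)), (.negSucc (nat_lit 9860594367)), (.negSucc (nat_lit 92775684463)), (.negSucc (nat_lit 9860594383)), (.ofNat (nat_lit 11236182511229019339510)), (.ofNat (nat_lit 0)), (.ofNat (nat_lit 282608057219772211933117194351360))⟩,
    ⟨nat_lit 3, nat_lit 6, (.negSucc (nat_lit 92775684479)), (.negSucc (nat_lit 74464141887)), (.negSucc (nat_lit 92775684463)), (.negSucc (nat_lit 74464141903)), (.negSucc (nat_lit 11236182511229019339509)), (.ofNat (nat_lit 0)), (.ofNat (nat_lit 5890995656447240091473018880))⟩,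
    ⟨nat_lit 11, nat_lit 4, (.negSucc (nat_lit 37212464639)), (.ofNat (nat_lit 5593052544)), (.negSucc (nat_lit 37212464623)), (.ofNat (nat_lit 5593052528)), (.ofNat (nat_lit 11236182511229019339510)), (.ofNat (nat_lit 0)), (.ofNat (nat_lit 282584493237146422972751302275840))⟩,
    ⟨nat_lit 6, nat_lit 5, (.negSucc (nat_lit 74464141887)), (.negSucc (nat_lit 34248501375)), (.negSucc (nat_lit 74464141871)), (.negSucc (nat_lit 34248501391)), (.ofNat (nat_lit 11236182511229019339510)), (.ofNat (nat_lit 0)), (.ofNat (nat_lit 282590384232802870212842775294720))⟩,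
    ⟨nat_lit 7, nat_lit 8, (.negSucc (nat_lit 1506430975)), (.ofNat (nat_lit 5596984704)), (.negSucc (nat_lit 1506430959)), (.ofNat (nat_lit 5596984688)), (.ofNat (nat_lit 11236182511229019339510)), (.ofNat (nat_lit 0)), (.ofNat (nat_lit 0))⟩,
    ⟨nat_lit 9, nat_lit 8, (.negSucc (nat_lit 88147835327)), (.ofNat (nat_lit 5596984704)), (.negSucc (nat_lit 88147835311)), (.ofNat (nat_lit 5596984688)), (.negSucc (nat_lit 11236182511229019339509)), (.ofNat (nat_lit 0)), (.ofNat (nat_lit 11781991312894480182946037760))⟩,
    ⟨nat_lit 9, nat_lit 10, (.negSucc (nat_lit 88147835327)), (.negSucc (nat_lit 52443374527)), (.negSucc (nat_lit 88147835311)), (.negSucc (nat_lit 52443374543)), (.ofNat (nat_lit 11236182511229019339510)), (.ofNat (nat_lit 0)), (.ofNat (nat_lit 282602166224115764693025721332480))⟩,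
    ⟨nat_lit 10, nat_lit 0, (.negSucc (nat_lit 52443374527)), (.negSucc (nat_lit 34248501375)), (.negSucc (nat_lit 52443374511)), (.negSucc (nat_lit 34248501391)), (.negSucc (nat_lit 11236182511229019339509)), (.ofNat (nat_lit 0)), (.ofNat (nat_lit 23563982625788960365892075520))⟩,
    ⟨nat_lit 11, nat_lit 7, (.negSucc (nat_lit 37212464639)), (.negSucc (nat_lit 1506430975)), (.negSucc (nat_lit 37212464623)), (.negSucc (nat_lit 1506430991)), (.negSucc (nat_lit 11236182511229019339509)), (.ofNat (nat_lit 0)), (.ofNat (nat_lit 0))⟩]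

theorem ok165 : stOK 11 11 S165 = true := by decide +kernel

def S166 : SD where
  vs := [
    ⟨nat_lit 0, nat_lit 10, nat_lit 1, (.ofNat (nat_lit 8)), (.negSucc (nat_lit 34248501375)), (.ofNat (nat_lit 1368536730602658425603246278672128)), (.ofNat (nat_lit 0)), (.ofNat (nat_lit 21054411240040898855334929380608)), (.negSucc (nat_lit 34248501391)), (.negSucc (nat_lit 34248501359)), (.negSucc (nat_lit 11411747862966972766688)), (.ofNat (nat_lit 11411747862966972766689)), (.negSucc (nat_lit 11411747862966972766688)), (.ofNat (nat_lit 11411747862966972766689)), (.ofNat (nat_lit 1053392110427720563074))⟩,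
    ⟨nat_lit 1, nat_lit 1, nat_lit 2, (.ofNat (nat_lit 8)), (.ofNat (nat_lit 8448588928)), (.ofNat (nat_lit 1855785159634238279192075234755584)), (.ofNat (nat_lit 0)), (.ofNat (nat_lit 28550540917449819679742980353024)), (.ofNat (nat_lit 8448588912)), (.ofNat (nat_lit 8448588944)), (.ofNat (nat_lit 11411747862966972766689)), (.negSucc (nat_lit 11411747862966972766688)), (.negSucc (nat_lit 11411747862966972766688)), (.ofNat (nat_lit 11411747862966972766689)), (.ofNat (nat_lit 1053392110427720563074))⟩,
    ⟨nat_lit 0, nat_lit 3, nat_lit 2, (.ofNat (nat_lit 8)), (.negSucc (nat_lit 9860594367)), (.ofNat (nat_lit 2064724942985036873971624378782528)), (.ofNat (nat_lit 0)), (.ofNat (nat_lit 31764999122846721137874679555008)), (.negSucc (nat_lit 9860594383)), (.negSucc (nat_lit 9860594351)), (.ofNat (nat_lit 11411747862966972766689)), (.negSucc (nat_lit 11411747862966972766688)), (.negSucc (nat_lit 11411747862966972766688)), (.ofNat (nat_lit 11411747862966972766689)), (.ofNat (nat_lit 1053392110427720563074))⟩,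
    ⟨nat_lit 2, nat_lit 4, nat_lit 3, (.ofNat (nat_lit 8)), (.negSucc (nat_lit 92775684479)), (.ofNat (nat_lit 1118518840591706899341755991903360)), (.ofNat (nat_lit 0)), (.ofNat (nat_lit 17207982162949336912868664600960)), (.negSucc (nat_lit 92775684495)), (.negSucc (nat_lit 92775684463)), (.negSucc (nat_lit 11411747862966972766688)), (.ofNat (nat_lit 11411747862966972766689)), (.negSucc (nat_lit 11411747862966972766688)), (.ofNat (nat_lit 11411747862966972766689)), (.ofNat (nat_lit 1053392110427720563074))⟩,
    ⟨nat_lit 1, nat_lit 5, nat_lit 0, (.ofNat (nat_lit 8)), (.ofNat (nat_lit 5593052544)), (.ofNat (nat_lit 913821115416642795886073788719360)), (.ofNat (nat_lit 0)), (.ofNat (nat_lit 14058786391025273782796147976960)), (.ofNat (nat_lit 5593052528)), (.ofNat (nat_lit 5593052560)), (.ofNat (nat_lit 11411747862966972766689)), (.negSucc (nat_lit 11411747862966972766688)), (.negSucc (nat_lit 11411747862966972766688)), (.ofNat (nat_lit 11411747862966972766689)), (.ofNat (nat_lit 1053392110427720563074))⟩,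
    ⟨nat_lit 0, nat_lit 6, nat_lit 0, (.ofNat (nat_lit 8)), (.negSucc (nat_lit 34248501375)), (.ofNat (nat_lit 1368482883220486212549285162090240)), (.ofNat (nat_lit 0)), (.ofNat (nat_lit 21053582818776710962197069968640)), (.negSucc (nat_lit 34248501391)), (.negSucc (nat_lit 34248501359)), (.ofNat (nat_lit 11411747862966972766689)), (.negSucc (nat_lit 11411747862966972766688)), (.negSucc (nat_lit 11411747862966972766688)), (.ofNat (nat_lit 11411747862966972766689)), (.ofNat (nat_lit 1053392110427720563074))⟩,
    ⟨nat_lit 0, nat_lit 4, nat_lit 6, (.ofNat (nat_lit 8)), (.negSucc (nat_lit 74464141887)), (.ofNat (nat_lit 909552133549822198035226289585472)), (.ofNat (nat_lit 0)), (.ofNat (nat_lit 13993109746920341508168035692992)), (.negSucc (nat_lit 74464141903)), (.negSucc (nat_lit 74464141871)), (.negSucc (nat_lit 11411747862966972766688)), (.ofNat (nat_lit 11411747862966972766689)), (.negSucc (nat_lit 11411747862966972766688)), (.ofNat (nat_lit 11411747862966972766689)), (.ofNat (nat_lit 1053392110427720563074))⟩,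
    ⟨nat_lit 0, nat_lit 11, nat_lit 7, (.ofNat (nat_lit 8)), (.negSucc (nat_lit 1506430975)), (.ofNat (nat_lit 17867092808755977369539124617088)), (.ofNat (nat_lit 0)), (.ofNat (nat_lit 274878350903938113376224279168)), (.negSucc (nat_lit 1506430991)), (.negSucc (nat_lit 1506430959)), (.negSucc (nat_lit 11411747862966972766688)), (.ofNat (nat_lit 11411747862574388581345)), (.negSucc (nat_lit 11411747862966972766688)), (.ofNat (nat_lit 11411747862574388581345)), (.ofNat (nat_lit 1053392109642552192386))⟩,
    ⟨nat_lit 1, nat_lit 7, nat_lit 8, (.ofNat (nat_lit 8)), (.ofNat (nat_lit 5596984704)), (.ofNat (nat_lit 98929481511973374384678153106688)), (.ofNat (nat_lit 0)), (.ofNat (nat_lit 1521992020515343081216675251968)), (.ofNat (nat_lit 5596984688)), (.ofNat (nat_lit 5596984720)), (.ofNat (nat_lit 11411747862574388581345)), (.negSucc (nat_lit 11411786783260014171048)), (.negSucc (nat_lit 11411786783260014171048)), (.ofNat (nat_lit 11411747862574388581345)), (.ofNat (nat_lit 1053469949443466630418))⟩,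
    ⟨nat_lit 2, nat_lit 8, nat_lit 9, (.ofNat (nat_lit 8)), (.negSucc (nat_lit 88147835327)), (.ofNat (nat_lit 1168725379752239593111436322760256)), (.ofNat (nat_lit 0)), (.ofNat (nat_lit 17983982898911324689762387841216)), (.negSucc (nat_lit 88147835343)), (.negSucc (nat_lit 88147835311)), (.negSucc (nat_lit 11411786783260014171048)), (.ofNat (nat_lit 11411645674809069805282)), (.negSucc (nat_lit 11411786783260014171048)), (.ofNat (nat_lit 11411645674809069805282)), (.ofNat (nat_lit 1053343415284080257700))⟩,
    ⟨nat_lit 0, nat_lit 9, nat_lit 10, (.ofNat (nat_lit 8)), (.negSucc (nat_lit 52443374527)), (.ofNat (nat_lit 1576172035411949573458591124705856)), (.ofNat (nat_lit 0)), (.ofNat (nat_lit 24248800544799224206940503578816)), (.negSucc (nat_lit 52443374543)), (.negSucc (nat_lit 52443374511)), (.ofNat (nat_lit 11411645674809069805282)), (.negSucc (nat_lit 11411747862966972766688)), (.negSucc (nat_lit 11411747862966972766688)), (.ofNat (nat_lit 11411645674809069805282)), (.ofNat (nat_lit 1052983357796108717446))⟩,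
    ⟨nat_lit 2, nat_lit 11, nat_lit 5, (.ofNat (nat_lit 8)), (.negSucc (nat_lit 37212464639)), (.ofNat (nat_lit 425335346168934765897107776435584)), (.ofNat (nat_lit 0)), (.ofNat (nat_lit 6543620710291304090693770833024)), (.negSucc (nat_lit 37212464655)), (.negSucc (nat_lit 37212464623)), (.negSucc (nat_lit 11411747862966972766688)), (.ofNat (nat_lit 11411747862966972766689)), (.negSucc (nat_lit 11411747862966972766688)), (.ofNat (nat_lit 11411747862966972766689)), (.ofNat (nat_lit 1053392110427720563074))⟩]
  es := [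
    ⟨nat_lit 5, nat_lit 4, (.negSucc (nat_lit 34248501375)), (.ofNat (nat_lit 5593052544)), (.negSucc (nat_lit 34248501359)), (.ofNat (nat_lit 5593052528)), (.negSucc (nat_lit 11411747862966972766688)), (.negSucc (nat_lit 175565351737953427178)), (.ofNat (nat_lit 15040732628201489020033172670336))⟩,
    ⟨nat_lit 0, nat_lit 1, (.negSucc (nat_lit 34248501375)), (.ofNat (nat_lit 8448588928)), (.negSucc (nat_lit 34248501359)), (.ofNat (nat_lit 8448588912)), (.ofNat (nat_lit 11411747862966972766689)), (.ofNat (nat_lit 175565351737953427179)), (.ofNat (nat_lit 27067261430616120797498826678912))⟩,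
    ⟨nat_lit 2, nat_lit 1, (.negSucc (nat_lit 9860594367)), (.ofNat (nat_lit 8448588928)), (.negSucc (nat_lit 9860594351)), (.ofNat (nat_lit 8448588912)), (.negSucc (nat_lit 11411747862966972766688)), (.negSucc (nat_lit 175565351737953427178)), (.ofNat (nat_lit 30033820404283518561987134027136))⟩,
    ⟨nat_lit 3, nat_lit 2, (.negSucc (nat_lit 92775684479)), (.negSucc (nat_lit 9860594367)), (.negSucc (nat_lit 92775684463)), (.negSucc (nat_lit 9860594383)), (.ofNat (nat_lit 11411747862966972766689)), (.ofNat (nat_lit 175565351737953427179)), (.ofNat (nat_lit 33496177841409923713762225082880))⟩,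
    ⟨nat_lit 3, nat_lit 6, (.negSucc (nat_lit 92775684479)), (.negSucc (nat_lit 74464141887)), (.negSucc (nat_lit 92775684463)), (.negSucc (nat_lit 74464141903)), (.negSucc (nat_lit 11411747862966972766688)), (.negSucc (nat_lit 175565351737953427178)), (.ofNat (nat_lit 919786484488750111975104119040))⟩,
    ⟨nat_lit 11, nat_lit 4, (.negSucc (nat_lit 37212464639)), (.ofNat (nat_lit 5593052544)), (.negSucc (nat_lit 37212464623)), (.ofNat (nat_lit 5593052528)), (.ofNat (nat_lit 11411747862966972766689)), (.ofNat (nat_lit 175565351737953427179)), (.ofNat (nat_lit 13076840153849058545559123283584))⟩,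
    ⟨nat_lit 6, nat_lit 5, (.negSucc (nat_lit 74464141887)), (.negSucc (nat_lit 34248501375)), (.negSucc (nat_lit 74464141871)), (.negSucc (nat_lit 34248501391)), (.ofNat (nat_lit 11411747862966972766689)), (.ofNat (nat_lit 175565351737953427179)), (.ofNat (nat_lit 27066433009351932904360967266944))⟩,
    ⟨nat_lit 7, nat_lit 8, (.negSucc (nat_lit 1506430975)), (.ofNat (nat_lit 5596984704)), (.negSucc (nat_lit 1506430959)), (.ofNat (nat_lit 5596984688)), (.ofNat (nat_lit 11411747862574388581345)), (.ofNat (nat_lit 175565351345369241835)), (.ofNat (nat_lit 539355434482925613434103360128))⟩,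
    ⟨nat_lit 9, nat_lit 8, (.negSucc (nat_lit 88147835327)), (.ofNat (nat_lit 5596984704)), (.negSucc (nat_lit 88147835311)), (.ofNat (nat_lit 5596984688)), (.negSucc (nat_lit 11411786783260014171048)), (.negSucc (nat_lit 175604272030994831538)), (.ofNat (nat_lit 2504846445029876167243515031424))⟩,
    ⟨nat_lit 9, nat_lit 10, (.negSucc (nat_lit 88147835327)), (.negSucc (nat_lit 52443374527)), (.negSucc (nat_lit 88147835311)), (.negSucc (nat_lit 52443374543)), (.ofNat (nat_lit 11411645674809069805282)), (.ofNat (nat_lit 175463163580050465772)), (.ofNat (nat_lit 33450680948295540092562344234432))⟩,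
    ⟨nat_lit 10, nat_lit 0, (.negSucc (nat_lit 52443374527)), (.negSucc (nat_lit 34248501375)), (.negSucc (nat_lit 52443374511)), (.negSucc (nat_lit 34248501391)), (.negSucc (nat_lit 11411747862966972766688)), (.negSucc (nat_lit 175565351737953427178)), (.ofNat (nat_lit 15041561049465676913171032082304))⟩,
    ⟨nat_lit 11, nat_lit 7, (.negSucc (nat_lit 37212464639)), (.negSucc (nat_lit 1506430975)), (.negSucc (nat_lit 37212464623)), (.negSucc (nat_lit 1506430991)), (.negSucc (nat_lit 11411747862966972766688)), (.negSucc (nat_lit 175565351737953427178)), (.ofNat (nat_lit 10401266733549635828418382464))⟩]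

theorem ok166 : stOK 11 11 S166 = true := by decide +kernel

def S167 : SD where
  vs := [
    ⟨nat_lit 0, nat_lit 10, nat_lit 1, (.ofNat (nat_lit 8)), (.ofNat (nat_lit 1470377344)), (.ofNat (nat_lit 1776169517630585642906807231157504)), (.ofNat (nat_lit 35718878720)), (.ofNat (nat_lit 407632787027927217303560952485376)), (.ofNat (nat_lit 1470377328)), (.ofNat (nat_lit 1470377360)), (.negSucc (nat_lit 11411747862966972766688)), (.ofNat (nat_lit 11411747862966972766689)), (.negSucc (nat_lit 11411747862966972766688)), (.ofNat (nat_lit 11411747862966972766689)), (.ofNat (nat_lit 0))⟩,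
    ⟨nat_lit 1, nat_lit 1, nat_lit 2, (.ofNat (nat_lit 8)), (.ofNat (nat_lit 44167729792)), (.ofNat (nat_lit 2263420938183397286109745138162176)), (.ofNat (nat_lit 35719140864)), (.ofNat (nat_lit 407635778549159006917669903406592)), (.ofNat (nat_lit 44167729776)), (.ofNat (nat_lit 44167729808)), (.ofNat (nat_lit 11411747862966972766689)), (.negSucc (nat_lit 11411747862966972766688)), (.negSucc (nat_lit 11411747862966972766688)), (.ofNat (nat_lit 11411747862966972766689)), (.ofNat (nat_lit 0))⟩,
    ⟨nat_lit 0, nat_lit 3, nat_lit 2, (.ofNat (nat_lit 8)), (.ofNat (nat_lit 25858022208)), (.ofNat (nat_lit 2472366704576659460117512184031552)), (.ofNat (nat_lit 35718616576)), (.ofNat (nat_lit 407641761591622586145887805249024)), (.ofNat (nat_lit 25858022192)), (.ofNat (nat_lit 25858022224)), (.ofNat (nat_lit 11411747862966972766689)), (.negSucc (nat_lit 11411747862966972766688)), (.negSucc (nat_lit 11411747862966972766688)), (.ofNat (nat_lit 11411747862966972766689)), (.ofNat (nat_lit 0))⟩,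
    ⟨nat_lit 2, nat_lit 4, nat_lit 3, (.ofNat (nat_lit 8)), (.negSucc (nat_lit 92776733055)), (.ofNat (nat_lit 1118536789719097637026409697430656)), (.negSucc (nat_lit 1048575)), (.ofNat (nat_lit 17949127390737684653705527296)), (.negSucc (nat_lit 92776733071)), (.negSucc (nat_lit 92776733039)), (.negSucc (nat_lit 11411747862966972766688)), (.ofNat (nat_lit 11411747862966972766689)), (.negSucc (nat_lit 11411747862966972766688)), (.ofNat (nat_lit 11411747862966972766689)), (.ofNat (nat_lit 0))⟩,
    ⟨nat_lit 1, nat_lit 5, nat_lit 0, (.ofNat (nat_lit 8)), (.ofNat (nat_lit 5593314688)), (.ofNat (nat_lit 913830089980338164728400641483008)), (.ofNat (nat_lit 262144)), (.ofNat (nat_lit 8974563695368842326852763648)), (.ofNat (nat_lit 5593314672)), (.ofNat (nat_lit 5593314704)), (.ofNat (nat_lit 11411747862966972766689)), (.negSucc (nat_lit 11411747862966972766688)), (.negSucc (nat_lit 11411747862966972766688)), (.ofNat (nat_lit 11411747862966972766689)), (.ofNat (nat_lit 0))⟩,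
    ⟨nat_lit 0, nat_lit 6, nat_lit 0, (.ofNat (nat_lit 8)), (.negSucc (nat_lit 34248501375)), (.ofNat (nat_lit 1368494849305413371005720965775104)), (.ofNat (nat_lit 0)), (.ofNat (nat_lit 11966084927158456435803684864)), (.negSucc (nat_lit 34248501391)), (.negSucc (nat_lit 34248501359)), (.ofNat (nat_lit 11411747862966972766689)), (.negSucc (nat_lit 11411747862966972766688)), (.negSucc (nat_lit 11411747862966972766688)), (.ofNat (nat_lit 11411747862966972766689)), (.ofNat (nat_lit 0))⟩,
    ⟨nat_lit 0, nat_lit 4, nat_lit 6, (.ofNat (nat_lit 8)), (.negSucc (nat_lit 74464404031)), (.ofNat (nat_lit 909561108113517566877553142349120)), (.negSucc (nat_lit 262143)), (.ofNat (nat_lit 8974563695368842326852763648)), (.negSucc (nat_lit 74464404047)), (.negSucc (nat_lit 74464404015)), (.negSucc (nat_lit 11411747862966972766688)), (.ofNat (nat_lit 11411747862966972766689)), (.negSucc (nat_lit 11411747862966972766688)), (.ofNat (nat_lit 11411747862966972766689)), (.ofNat (nat_lit 0))⟩,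
    ⟨nat_lit 0, nat_lit 11, nat_lit 7, (.ofNat (nat_lit 8)), (.negSucc (nat_lit 1506430975)), (.ofNat (nat_lit 17867092808755977369539124617088)), (.ofNat (nat_lit 0)), (.ofNat (nat_lit 0)), (.negSucc (nat_lit 1506430991)), (.negSucc (nat_lit 1506430959)), (.negSucc (nat_lit 11411747862966972766688)), (.ofNat (nat_lit 11411747862574388581345)), (.negSucc (nat_lit 11411747862966972766688)), (.ofNat (nat_lit 11411747862574388581345)), (.ofNat (nat_lit 0))⟩,
    ⟨nat_lit 1, nat_lit 7, nat_lit 8, (.ofNat (nat_lit 8)), (.ofNat (nat_lit 41316387712)), (.ofNat (nat_lit 506550302440950560500933598792448)), (.ofNat (nat_lit 35719403008)), (.ofNat (nat_lit 407620820928977186116255445685760)), (.ofNat (nat_lit 41316387696)), (.ofNat (nat_lit 41316387728)), (.ofNat (nat_lit 11411747862574388581345)), (.negSucc (nat_lit 11411786783260014171048)), (.negSucc (nat_lit 11411786783260014171048)), (.ofNat (nat_lit 11411747862574388581345)), (.ofNat (nat_lit 0))⟩,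
    ⟨nat_lit 2, nat_lit 8, nat_lit 9, (.ofNat (nat_lit 8)), (.negSucc (nat_lit 52429480895)), (.ofNat (nat_lit 1576358166806954822880311190322240)), (.ofNat (nat_lit 35718354432)), (.ofNat (nat_lit 407632787054715229768874867561984)), (.negSucc (nat_lit 52429480911)), (.negSucc (nat_lit 52429480879)), (.negSucc (nat_lit 11411786783260014171048)), (.ofNat (nat_lit 11411645674809069805282)), (.negSucc (nat_lit 11411786783260014171048)), (.ofNat (nat_lit 11411645674809069805282)), (.ofNat (nat_lit 0))⟩,
    ⟨nat_lit 0, nat_lit 9, nat_lit 10, (.ofNat (nat_lit 8)), (.negSucc (nat_lit 16724757951)), (.ofNat (nat_lit 1983807813961108580376261028112448)), (.ofNat (nat_lit 35718616576)), (.ofNat (nat_lit 407635778549159006917669903406592)), (.negSucc (nat_lit 16724757967)), (.negSucc (nat_lit 16724757935)), (.ofNat (nat_lit 11411645674809069805282)), (.negSucc (nat_lit 11411747862966972766688)), (.negSucc (nat_lit 11411747862966972766688)), (.ofNat (nat_lit 11411645674809069805282)), (.ofNat (nat_lit 0))⟩,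
    ⟨nat_lit 2, nat_lit 11, nat_lit 5, (.ofNat (nat_lit 8)), (.negSucc (nat_lit 37212726783)), (.ofNat (nat_lit 425338337690166555511216727356800)), (.negSucc (nat_lit 262143)), (.ofNat (nat_lit 2991521231789614108950921216)), (.negSucc (nat_lit 37212726799)), (.negSucc (nat_lit 37212726767)), (.negSucc (nat_lit 11411747862966972766688)), (.ofNat (nat_lit 11411747862966972766689)), (.negSucc (nat_lit 11411747862966972766688)), (.ofNat (nat_lit 11411747862966972766689)), (.ofNat (nat_lit 0))⟩]
  es := [
    ⟨nat_lit 5, nat_lit 4, (.negSucc (nat_lit 34248501375)), (.ofNat (nat_lit 5593314688)), (.negSucc (nat_lit 34248501359)), (.ofNat (nat_lit 5593314672)), (.negSucc (nat_lit 11411747862966972766688)), (.ofNat (nat_lit 0)), (.ofNat (nat_lit 11966084927158456435803684864))⟩,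
    ⟨nat_lit 0, nat_lit 1, (.ofNat (nat_lit 1470377344)), (.ofNat (nat_lit 44167729792)), (.ofNat (nat_lit 1470377360)), (.ofNat (nat_lit 44167729776)), (.ofNat (nat_lit 11411747862966972766689)), (.ofNat (nat_lit 0)), (.ofNat (nat_lit 17949127390737684653705527296))⟩,
    ⟨nat_lit 2, nat_lit 1, (.ofNat (nat_lit 25858022208)), (.ofNat (nat_lit 44167729792)), (.ofNat (nat_lit 25858022224)), (.ofNat (nat_lit 44167729776)), (.negSucc (nat_lit 11411747862966972766688)), (.ofNat (nat_lit 0)), (.ofNat (nat_lit 815253607970927276150686101285888))⟩,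
    ⟨nat_lit 3, nat_lit 2, (.negSucc (nat_lit 92776733055)), (.ofNat (nat_lit 25858022208)), (.negSucc (nat_lit 92776733039)), (.ofNat (nat_lit 25858022192)), (.ofNat (nat_lit 11411747862966972766689)), (.ofNat (nat_lit 0)), (.ofNat (nat_lit 29915212317896141089509212160))⟩,
    ⟨nat_lit 3, nat_lit 6, (.negSucc (nat_lit 92776733055)), (.negSucc (nat_lit 74464404031)), (.negSucc (nat_lit 92776733039)), (.negSucc (nat_lit 74464404047)), (.negSucc (nat_lit 11411747862966972766688)), (.ofNat (nat_lit 0)), (.ofNat (nat_lit 5983042463579228217901842432))⟩,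
    ⟨nat_lit 11, nat_lit 4, (.negSucc (nat_lit 37212726783)), (.ofNat (nat_lit 5593314688)), (.negSucc (nat_lit 37212726767)), (.ofNat (nat_lit 5593314672)), (.ofNat (nat_lit 11411747862966972766689)), (.ofNat (nat_lit 0)), (.ofNat (nat_lit 5983042463579228217901842432))⟩,
    ⟨nat_lit 6, nat_lit 5, (.negSucc (nat_lit 74464404031)), (.negSucc (nat_lit 34248501375)), (.negSucc (nat_lit 74464404015)), (.negSucc (nat_lit 34248501391)), (.ofNat (nat_lit 11411747862966972766689)), (.ofNat (nat_lit 0)), (.ofNat (nat_lit 11966084927158456435803684864))⟩,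
    ⟨nat_lit 7, nat_lit 8, (.negSucc (nat_lit 1506430975)), (.ofNat (nat_lit 41316387712)), (.negSucc (nat_lit 1506430959)), (.ofNat (nat_lit 41316387696)), (.ofNat (nat_lit 11411747862574388581345)), (.ofNat (nat_lit 0)), (.ofNat (nat_lit 0))⟩,
    ⟨nat_lit 9, nat_lit 8, (.negSucc (nat_lit 52429480895)), (.ofNat (nat_lit 41316387712)), (.negSucc (nat_lit 52429480879)), (.ofNat (nat_lit 41316387696)), (.negSucc (nat_lit 11411786783260014171048)), (.ofNat (nat_lit 0)), (.ofNat (nat_lit 815243032081609580343745722801152))⟩,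
    ⟨nat_lit 9, nat_lit 10, (.negSucc (nat_lit 52429480895)), (.negSucc (nat_lit 16724757951)), (.negSucc (nat_lit 52429480879)), (.negSucc (nat_lit 16724757967)), (.ofNat (nat_lit 11411645674809069805282)), (.ofNat (nat_lit 0)), (.ofNat (nat_lit 27582189485060535583165852160))⟩,
    ⟨nat_lit 10, nat_lit 0, (.negSucc (nat_lit 16724757951)), (.ofNat (nat_lit 1470377344)), (.negSucc (nat_lit 16724757935)), (.ofNat (nat_lit 1470377328)), (.negSucc (nat_lit 11411747862966972766688)), (.ofNat (nat_lit 0)), (.ofNat (nat_lit 815247624928463696922468199443456))⟩,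
    ⟨nat_lit 11, nat_lit 7, (.negSucc (nat_lit 37212726783)), (.negSucc (nat_lit 1506430975)), (.negSucc (nat_lit 37212726767)), (.negSucc (nat_lit 1506430991)), (.negSucc (nat_lit 11411747862966972766688)), (.ofNat (nat_lit 0)), (.ofNat (nat_lit 0))⟩]

theorem ok167 : stOK 11 11 S167 = true := by decide +kernel

def S168 : SD where
  vs := [
    ⟨nat_lit 0, nat_lit 10, nat_lit 1, (.ofNat (nat_lit 8)), (.ofNat (nat_lit 1470377344)), (.ofNat (nat_lit 1803922166343563543577145840232448)), (.ofNat (nat_lit 0)), (.ofNat (nat_lit 27752648712977900670338609074944)), (.ofNat (nat_lit 1470377328)), (.ofNat (nat_lit 1470377360)), (.negSucc (nat_lit 11590056423325831716167)), (.ofNat (nat_lit 11590056423325831716168)), (.negSucc (nat_lit 11590056423325831716167)), (.ofNat (nat_lit 11590056423325831716168)), (.ofNat (nat_lit 1069851362153153696874))⟩,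
    ⟨nat_lit 1, nat_lit 1, nat_lit 2, (.ofNat (nat_lit 8)), (.ofNat (nat_lit 44167729792)), (.ofNat (nat_lit 2298786890342512868705107636211712)), (.ofNat (nat_lit 0)), (.ofNat (nat_lit 35365952159115582595362498049536)), (.ofNat (nat_lit 44167729776)), (.ofNat (nat_lit 44167729808)), (.ofNat (nat_lit 11590056423325831716168)), (.negSucc (nat_lit 11590056423325831716167)), (.negSucc (nat_lit 11590056423325831716167)), (.ofNat (nat_lit 11590056423325831716168)), (.ofNat (nat_lit 1069851362153153696874))⟩,
    ⟨nat_lit 0, nat_lit 3, nat_lit 2, (.ofNat (nat_lit 8)), (.ofNat (nat_lit 25858022208)), (.ofNat (nat_lit 2510997434335669764181736601229824)), (.ofNat (nat_lit 0)), (.ofNat (nat_lit 38630729759010304064224417198272)), (.ofNat (nat_lit 25858022192)), (.ofNat (nat_lit 25858022224)), (.ofNat (nat_lit 11590056423325831716168)), (.negSucc (nat_lit 11590056423325831716167)), (.negSucc (nat_lit 11590056423325831716167)), (.ofNat (nat_lit 11590056423325831716168)), (.ofNat (nat_lit 1069851362153153696874))⟩,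
    ⟨nat_lit 2, nat_lit 4, nat_lit 3, (.ofNat (nat_lit 8)), (.negSucc (nat_lit 92776733055)), (.ofNat (nat_lit 1136013927058458537604896809321472)), (.ofNat (nat_lit 0)), (.ofNat (nat_lit 17477137339360900578487111890816)), (.negSucc (nat_lit 92776733071)), (.negSucc (nat_lit 92776733039)), (.negSucc (nat_lit 11590056423325831716167)), (.ofNat (nat_lit 11590056423325831716168)), (.negSucc (nat_lit 11590056423325831716167)), (.ofNat (nat_lit 11590056423325831716168)), (.ofNat (nat_lit 1069851362153153696874))⟩,
    ⟨nat_lit 1, nat_lit 5, nat_lit 0, (.ofNat (nat_lit 8)), (.ofNat (nat_lit 5593314688)), (.ofNat (nat_lit 928108685136280948552240611280896)), (.ofNat (nat_lit 0)), (.ofNat (nat_lit 14278595155942783823839969797888)), (.ofNat (nat_lit 5593314672)), (.ofNat (nat_lit 5593314704)), (.ofNat (nat_lit 11590056423325831716168)), (.negSucc (nat_lit 11590056423325831716167)), (.negSucc (nat_lit 11590056423325831716167)), (.ofNat (nat_lit 11590056423325831716168)), (.ofNat (nat_lit 1069851362153153696874))⟩,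
    ⟨nat_lit 0, nat_lit 6, nat_lit 0, (.ofNat (nat_lit 8)), (.negSucc (nat_lit 34248501375)), (.ofNat (nat_lit 1389877581325810454927623522203648)), (.ofNat (nat_lit 0)), (.ofNat (nat_lit 21382732020397083921902556428544)), (.negSucc (nat_lit 34248501391)), (.negSucc (nat_lit 34248501359)), (.ofNat (nat_lit 11590056423325831716168)), (.negSucc (nat_lit 11590056423325831716167)), (.negSucc (nat_lit 11590056423325831716167)), (.ofNat (nat_lit 11590056423325831716168)), (.ofNat (nat_lit 1069851362153153696874))⟩,
    ⟨nat_lit 0, nat_lit 4, nat_lit 6, (.ofNat (nat_lit 8)), (.negSucc (nat_lit 74464404031)), (.ofNat (nat_lit 923773000427791278859973812861440)), (.ofNat (nat_lit 0)), (.ofNat (nat_lit 14211892314273711982420670512320)), (.negSucc (nat_lit 74464404047)), (.negSucc (nat_lit 74464404015)), (.negSucc (nat_lit 11590056423325831716167)), (.ofNat (nat_lit 11590056423325831716168)), (.negSucc (nat_lit 11590056423325831716167)), (.ofNat (nat_lit 11590056423325831716168)), (.ofNat (nat_lit 1069851362153153696874))⟩,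
    ⟨nat_lit 0, nat_lit 11, nat_lit 7, (.ofNat (nat_lit 8)), (.negSucc (nat_lit 1506430975)), (.ofNat (nat_lit 18146266133892789515937366137856)), (.ofNat (nat_lit 0)), (.ofNat (nat_lit 279173325136812146398241520768)), (.negSucc (nat_lit 1506430991)), (.negSucc (nat_lit 1506430959)), (.negSucc (nat_lit 11590056423325831716167)), (.ofNat (nat_lit 11590056423325831716168)), (.negSucc (nat_lit 11590056423325831716167)), (.ofNat (nat_lit 11590056423325831716168)), (.ofNat (nat_lit 1069851362938322067562))⟩,
    ⟨nat_lit 1, nat_lit 7, nat_lit 8, (.ofNat (nat_lit 8)), (.ofNat (nat_lit 41316387712)), (.ofNat (nat_lit 514465150933664655044199508285440)), (.ofNat (nat_lit 0)), (.ofNat (nat_lit 7914848492714094543265909492992)), (.ofNat (nat_lit 41316387696)), (.ofNat (nat_lit 41316387728)), (.ofNat (nat_lit 11590056423325831716168)), (.negSucc (nat_lit 11590056423325831716167)), (.negSucc (nat_lit 11590056423325831716167)), (.ofNat (nat_lit 11590056423325831716168)), (.ofNat (nat_lit 1069773523137407629530))⟩,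
    ⟨nat_lit 2, nat_lit 8, nat_lit 9, (.ofNat (nat_lit 8)), (.negSucc (nat_lit 52429480895)), (.ofNat (nat_lit 1600985057554074501480403985539584)), (.ofNat (nat_lit 0)), (.ofNat (nat_lit 24626890747119678600092795217344)), (.negSucc (nat_lit 52429480911)), (.negSucc (nat_lit 52429480879)), (.negSucc (nat_lit 11590056423325831716167)), (.ofNat (nat_lit 11590056423325831716168)), (.negSucc (nat_lit 11590056423325831716167)), (.ofNat (nat_lit 11590056423325831716168)), (.ofNat (nat_lit 1069900057296794002248))⟩,
    ⟨nat_lit 0, nat_lit 9, nat_lit 10, (.ofNat (nat_lit 8)), (.negSucc (nat_lit 16724757951)), (.ofNat (nat_lit 2014804811054250901944550470898176)), (.ofNat (nat_lit 0)), (.ofNat (nat_lit 30996997093142321568289442785728)), (.negSucc (nat_lit 16724757967)), (.negSucc (nat_lit 16724757935)), (.ofNat (nat_lit 11590056423325831716168)), (.negSucc (nat_lit 11590056423325831716167)), (.negSucc (nat_lit 11590056423325831716167)), (.ofNat (nat_lit 11590056423325831716168)), (.ofNat (nat_lit 1070260114784765542502))⟩,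
    ⟨nat_lit 2, nat_lit 11, nat_lit 5, (.ofNat (nat_lit 8)), (.negSucc (nat_lit 37212726783)), (.ofNat (nat_lit 431984249216575407941060270361600)), (.ofNat (nat_lit 0)), (.ofNat (nat_lit 6645911526408852429843543004800)), (.negSucc (nat_lit 37212726799)), (.negSucc (nat_lit 37212726767)), (.negSucc (nat_lit 11590056423325831716167)), (.ofNat (nat_lit 11590056423325831716168)), (.negSucc (nat_lit 11590056423325831716167)), (.ofNat (nat_lit 11590056423325831716168)), (.ofNat (nat_lit 1069851362153153696874))⟩]
  es := [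
    ⟨nat_lit 5, nat_lit 4, (.negSucc (nat_lit 34248501375)), (.ofNat (nat_lit 5593314688)), (.negSucc (nat_lit 34248501359)), (.ofNat (nat_lit 5593314672)), (.negSucc (nat_lit 11590056423325831716167)), (.negSucc (nat_lit 178308560358858949478)), (.ofNat (nat_lit 15275931045594124136881110445440))⟩,
    ⟨nat_lit 0, nat_lit 1, (.ofNat (nat_lit 1470377344)), (.ofNat (nat_lit 44167729792)), (.ofNat (nat_lit 1470377360)), (.ofNat (nat_lit 44167729776)), (.ofNat (nat_lit 11590056423325831716168)), (.ofNat (nat_lit 178308560358858949479)), (.ofNat (nat_lit 27490467845584977961333046871168))⟩,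
    ⟨nat_lit 2, nat_lit 1, (.ofNat (nat_lit 25858022208)), (.ofNat (nat_lit 44167729792)), (.ofNat (nat_lit 25858022224)), (.ofNat (nat_lit 44167729776)), (.negSucc (nat_lit 11590056423325831716167)), (.negSucc (nat_lit 178308560358858949478)), (.ofNat (nat_lit 43241436472646187229391949227904))⟩,
    ⟨nat_lit 3, nat_lit 2, (.negSucc (nat_lit 92776733055)), (.ofNat (nat_lit 25858022208)), (.negSucc (nat_lit 92776733039)), (.ofNat (nat_lit 25858022192)), (.ofNat (nat_lit 11590056423325831716168)), (.ofNat (nat_lit 178308560358858949479)), (.ofNat (nat_lit 34020023045374420899056885168640))⟩,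
    ⟨nat_lit 3, nat_lit 6, (.negSucc (nat_lit 92776733055)), (.negSucc (nat_lit 74464404031)), (.negSucc (nat_lit 92776733039)), (.negSucc (nat_lit 74464404047)), (.negSucc (nat_lit 11590056423325831716167)), (.negSucc (nat_lit 178308560358858949478)), (.ofNat (nat_lit 934251633347380257917338612992))⟩,
    ⟨nat_lit 11, nat_lit 4, (.negSucc (nat_lit 37212726783)), (.ofNat (nat_lit 5593314688)), (.negSucc (nat_lit 37212726767)), (.ofNat (nat_lit 5593314672)), (.ofNat (nat_lit 11590056423325831716168)), (.ofNat (nat_lit 178308560358858949479)), (.ofNat (nat_lit 13281259266291443510798829150336))⟩,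
    ⟨nat_lit 6, nat_lit 5, (.negSucc (nat_lit 74464404031)), (.negSucc (nat_lit 34248501375)), (.negSucc (nat_lit 74464404015)), (.negSucc (nat_lit 34248501391)), (.ofNat (nat_lit 11590056423325831716168)), (.ofNat (nat_lit 178308560358858949479)), (.ofNat (nat_lit 27489532995200043706924002411648))⟩,
    ⟨nat_lit 7, nat_lit 8, (.negSucc (nat_lit 1506430975)), (.ofNat (nat_lit 41316387712)), (.negSucc (nat_lit 1506430959)), (.ofNat (nat_lit 41316387696)), (.ofNat (nat_lit 11590056423325831716168)), (.ofNat (nat_lit 178308560751443134823)), (.ofNat (nat_lit 547782864338763921398152998016))⟩,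
    ⟨nat_lit 9, nat_lit 8, (.negSucc (nat_lit 52429480895)), (.ofNat (nat_lit 41316387712)), (.negSucc (nat_lit 52429480879)), (.ofNat (nat_lit 41316387696)), (.negSucc (nat_lit 11590056423325831716167)), (.negSucc (nat_lit 178269640065817545118)), (.ofNat (nat_lit 15280306058952101435654566670720))⟩,
    ⟨nat_lit 9, nat_lit 10, (.negSucc (nat_lit 52429480895)), (.negSucc (nat_lit 16724757951)), (.negSucc (nat_lit 52429480879)), (.negSucc (nat_lit 16724757967)), (.ofNat (nat_lit 11590056423325831716168)), (.ofNat (nat_lit 178410748516761910886)), (.ofNat (nat_lit 33980873678120307542670786651200))⟩,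
    ⟨nat_lit 10, nat_lit 0, (.negSucc (nat_lit 16724757951)), (.ofNat (nat_lit 1470377344)), (.negSucc (nat_lit 16724757935)), (.ofNat (nat_lit 1470377328)), (.negSucc (nat_lit 11590056423325831716167)), (.negSucc (nat_lit 178308560358858949478)), (.ofNat (nat_lit 28014829580370823379344171278720))⟩,
    ⟨nat_lit 11, nat_lit 7, (.negSucc (nat_lit 37212726783)), (.negSucc (nat_lit 1506430975)), (.negSucc (nat_lit 37212726767)), (.negSucc (nat_lit 1506430991)), (.negSucc (nat_lit 11590056423325831716167)), (.negSucc (nat_lit 178308560358858949478)), (.ofNat (nat_lit 10563786526261348888256859264))⟩]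

theorem ok168 : stOK 11 11 S168 = true := by decide +kernel

def S169 : SD where
  vs := [
    ⟨nat_lit 0, nat_lit 10, nat_lit 1, (.ofNat (nat_lit 8)), (.ofNat (nat_lit 41686279936)), (.ofNat (nat_lit 2270044976082325326512918738605056)), (.ofNat (nat_lit 40215902592)), (.ofNat (nat_lit 466122809738761782935772898372608)), (.ofNat (nat_lit 41686279920)), (.ofNat (nat_lit 41686279952)), (.negSucc (nat_lit 11590056423325831716167)), (.ofNat (nat_lit 11590056423325831716168)), (.negSucc (nat_lit 11590056423325831716167)), (.ofNat (nat_lit 11590056423325831716168)), (.ofNat (nat_lit 0))⟩,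
    ⟨nat_lit 1, nat_lit 1, nat_lit 2, (.ofNat (nat_lit 8)), (.ofNat (nat_lit 84383894528)), (.ofNat (nat_lit 2764912738345025687967709937728512)), (.ofNat (nat_lit 40216164736)), (.ofNat (nat_lit 466125848002512819262602301516800)), (.ofNat (nat_lit 84383894512)), (.ofNat (nat_lit 84383894544)), (.ofNat (nat_lit 11590056423325831716168)), (.negSucc (nat_lit 11590056423325831716167)), (.negSucc (nat_lit 11590056423325831716167)), (.ofNat (nat_lit 11590056423325831716168)), (.ofNat (nat_lit 0))⟩,
    ⟨nat_lit 0, nat_lit 3, nat_lit 2, (.ofNat (nat_lit 8)), (.ofNat (nat_lit 66073662656)), (.ofNat (nat_lit 2977129358865684656097997709035008)), (.ofNat (nat_lit 40215640448)), (.ofNat (nat_lit 466131924530014891916261107805184)), (.ofNat (nat_lit 66073662640)), (.ofNat (nat_lit 66073662672)), (.ofNat (nat_lit 11590056423325831716168)), (.negSucc (nat_lit 11590056423325831716167)), (.negSucc (nat_lit 11590056423325831716167)), (.ofNat (nat_lit 11590056423325831716168)), (.ofNat (nat_lit 0))⟩,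
    ⟨nat_lit 2, nat_lit 4, nat_lit 3, (.ofNat (nat_lit 8)), (.negSucc (nat_lit 52561879039)), (.ofNat (nat_lit 1602136736797220320540669707694080)), (.ofNat (nat_lit 40214854016)), (.ofNat (nat_lit 466122809738761782935772898372608)), (.negSucc (nat_lit 52561879055)), (.negSucc (nat_lit 52561879023)), (.negSucc (nat_lit 11590056423325831716167)), (.ofNat (nat_lit 11590056423325831716168)), (.negSucc (nat_lit 11590056423325831716167)), (.ofNat (nat_lit 11590056423325831716168)), (.ofNat (nat_lit 0))⟩,
    ⟨nat_lit 1, nat_lit 5, nat_lit 0, (.ofNat (nat_lit 8)), (.ofNat (nat_lit 5593314688)), (.ofNat (nat_lit 928114761663783021205899417569280)), (.ofNat (nat_lit 0)), (.ofNat (nat_lit 6076527502072653658806288384)), (.ofNat (nat_lit 5593314672)), (.ofNat (nat_lit 5593314704)), (.ofNat (nat_lit 11590056423325831716168)), (.negSucc (nat_lit 11590056423325831716167)), (.negSucc (nat_lit 11590056423325831716167)), (.ofNat (nat_lit 11590056423325831716168)), (.ofNat (nat_lit 0))⟩,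
    ⟨nat_lit 0, nat_lit 6, nat_lit 0, (.ofNat (nat_lit 8)), (.negSucc (nat_lit 34248763519)), (.ofNat (nat_lit 1389886696117063563908111731636224)), (.negSucc (nat_lit 262143)), (.ofNat (nat_lit 9114791253108980488209432576)), (.negSucc (nat_lit 34248763535)), (.negSucc (nat_lit 34248763503)), (.ofNat (nat_lit 11590056423325831716168)), (.negSucc (nat_lit 11590056423325831716167)), (.negSucc (nat_lit 11590056423325831716167)), (.ofNat (nat_lit 11590056423325831716168)), (.ofNat (nat_lit 0))⟩,
    ⟨nat_lit 0, nat_lit 4, nat_lit 6, (.ofNat (nat_lit 8)), (.negSucc (nat_lit 34248763583)), (.ofNat (nat_lit 1389886695375299952815258501801472)), (.ofNat (nat_lit 40215640448)), (.ofNat (nat_lit 466113694947508673955284688940032)), (.negSucc (nat_lit 34248763599)), (.negSucc (nat_lit 34248763567)), (.negSucc (nat_lit 11590056423325831716167)), (.ofNat (nat_lit 11590056423325831716168)), (.negSucc (nat_lit 11590056423325831716167)), (.ofNat (nat_lit 11590056423325831716168)), (.ofNat (nat_lit 0))⟩,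
    ⟨nat_lit 0, nat_lit 11, nat_lit 7, (.ofNat (nat_lit 8)), (.negSucc (nat_lit 1506430975)), (.ofNat (nat_lit 18146266133892789515937366137856)), (.ofNat (nat_lit 0)), (.ofNat (nat_lit 0)), (.negSucc (nat_lit 1506430991)), (.negSucc (nat_lit 1506430959)), (.negSucc (nat_lit 11590056423325831716167)), (.ofNat (nat_lit 11590056423325831716168)), (.negSucc (nat_lit 11590056423325831716167)), (.ofNat (nat_lit 11590056423325831716168)), (.ofNat (nat_lit 0))⟩,
    ⟨nat_lit 1, nat_lit 7, nat_lit 8, (.ofNat (nat_lit 8)), (.ofNat (nat_lit 81532814592)), (.ofNat (nat_lit 980575807617422292672654794081280)), (.ofNat (nat_lit 40216426880)), (.ofNat (nat_lit 466110656683757637628455285795840)), (.ofNat (nat_lit 81532814576)), (.ofNat (nat_lit 81532814608)), (.ofNat (nat_lit 11590056423325831716168)), (.negSucc (nat_lit 11590056423325831716167)), (.negSucc (nat_lit 11590056423325831716167)), (.ofNat (nat_lit 11590056423325831716168)), (.ofNat (nat_lit 0))⟩,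
    ⟨nat_lit 2, nat_lit 8, nat_lit 9, (.ofNat (nat_lit 8)), (.negSucc (nat_lit 12214102591)), (.ofNat (nat_lit 2067107867292836284416176883912192)), (.ofNat (nat_lit 40215378304)), (.ofNat (nat_lit 466122809738761782935772898372608)), (.negSucc (nat_lit 12214102607)), (.negSucc (nat_lit 12214102575)), (.negSucc (nat_lit 11590056423325831716167)), (.ofNat (nat_lit 11590056423325831716168)), (.negSucc (nat_lit 11590056423325831716167)), (.ofNat (nat_lit 11590056423325831716168)), (.ofNat (nat_lit 0))⟩,
    ⟨nat_lit 0, nat_lit 9, nat_lit 10, (.ofNat (nat_lit 8)), (.ofNat (nat_lit 23490882496)), (.ofNat (nat_lit 2480930659056763721207152772414976)), (.ofNat (nat_lit 40215640448)), (.ofNat (nat_lit 466125848002512819262602301516800)), (.ofNat (nat_lit 23490882480)), (.ofNat (nat_lit 23490882512)), (.ofNat (nat_lit 11590056423325831716168)), (.negSucc (nat_lit 11590056423325831716167)), (.negSucc (nat_lit 11590056423325831716167)), (.ofNat (nat_lit 11590056423325831716168)), (.ofNat (nat_lit 0))⟩,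
    ⟨nat_lit 2, nat_lit 11, nat_lit 5, (.ofNat (nat_lit 8)), (.negSucc (nat_lit 37212988927)), (.ofNat (nat_lit 431987287480326444267889673505792)), (.negSucc (nat_lit 262143)), (.ofNat (nat_lit 3038263751036326829403144192)), (.negSucc (nat_lit 37212988943)), (.negSucc (nat_lit 37212988911)), (.negSucc (nat_lit 11590056423325831716167)), (.ofNat (nat_lit 11590056423325831716168)), (.negSucc (nat_lit 11590056423325831716167)), (.ofNat (nat_lit 11590056423325831716168)), (.ofNat (nat_lit 0))⟩]
  es := [
    ⟨nat_lit 5, nat_lit 4, (.negSucc (nat_lit 34248763519)), (.ofNat (nat_lit 5593314688)), (.negSucc (nat_lit 34248763503)), (.ofNat (nat_lit 5593314672)), (.negSucc (nat_lit 11590056423325831716167)), (.ofNat (nat_lit 0)), (.ofNat (nat_lit 6076527502072653658806288384))⟩,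
    ⟨nat_lit 0, nat_lit 1, (.ofNat (nat_lit 41686279936)), (.ofNat (nat_lit 84383894528)), (.ofNat (nat_lit 41686279952)), (.ofNat (nat_lit 84383894512)), (.ofNat (nat_lit 11590056423325831716168)), (.ofNat (nat_lit 0)), (.ofNat (nat_lit 18229582506217960976418865152))⟩,
    ⟨nat_lit 2, nat_lit 1, (.ofNat (nat_lit 66073662656)), (.ofNat (nat_lit 84383894528)), (.ofNat (nat_lit 66073662672)), (.ofNat (nat_lit 84383894512)), (.negSucc (nat_lit 11590056423325831716167)), (.ofNat (nat_lit 0)), (.ofNat (nat_lit 932233466422519420564228184168448))⟩,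
    ⟨nat_lit 3, nat_lit 2, (.negSucc (nat_lit 52561879039)), (.ofNat (nat_lit 66073662656)), (.negSucc (nat_lit 52561879023)), (.ofNat (nat_lit 66073662640)), (.ofNat (nat_lit 11590056423325831716168)), (.ofNat (nat_lit 0)), (.ofNat (nat_lit 30382637510363268294031441920))⟩,
    ⟨nat_lit 3, nat_lit 6, (.negSucc (nat_lit 52561879039)), (.negSucc (nat_lit 34248763583)), (.negSucc (nat_lit 52561879023)), (.negSucc (nat_lit 34248763599)), (.negSucc (nat_lit 11590056423325831716167)), (.ofNat (nat_lit 0)), (.ofNat (nat_lit 932215236840013202603251765303296))⟩,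
    ⟨nat_lit 11, nat_lit 4, (.negSucc (nat_lit 37212988927)), (.ofNat (nat_lit 5593314688)), (.negSucc (nat_lit 37212988911)), (.ofNat (nat_lit 5593314672)), (.ofNat (nat_lit 11590056423325831716168)), (.ofNat (nat_lit 0)), (.ofNat (nat_lit 6076527502072653658806288384))⟩,
    ⟨nat_lit 6, nat_lit 5, (.negSucc (nat_lit 34248763583)), (.negSucc (nat_lit 34248763519)), (.negSucc (nat_lit 34248763567)), (.negSucc (nat_lit 34248763535)), (.ofNat (nat_lit 11590056423325831716168)), (.ofNat (nat_lit 0)), (.ofNat (nat_lit 12153055004145307317612576768))⟩,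
    ⟨nat_lit 7, nat_lit 8, (.negSucc (nat_lit 1506430975)), (.ofNat (nat_lit 81532814592)), (.negSucc (nat_lit 1506430959)), (.ofNat (nat_lit 81532814576)), (.ofNat (nat_lit 11590056423325831716168)), (.ofNat (nat_lit 0)), (.ofNat (nat_lit 0))⟩,
    ⟨nat_lit 9, nat_lit 8, (.negSucc (nat_lit 12214102591)), (.ofNat (nat_lit 81532814592)), (.negSucc (nat_lit 12214102575)), (.ofNat (nat_lit 81532814576)), (.negSucc (nat_lit 11590056423325831716167)), (.ofNat (nat_lit 0)), (.ofNat (nat_lit 932221313367515275256910571591680))⟩,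
    ⟨nat_lit 9, nat_lit 10, (.negSucc (nat_lit 12214102591)), (.ofNat (nat_lit 23490882496)), (.negSucc (nat_lit 12214102575)), (.ofNat (nat_lit 23490882480)), (.ofNat (nat_lit 11590056423325831716168)), (.ofNat (nat_lit 0)), (.ofNat (nat_lit 24306110008290614635225153536))⟩,
    ⟨nat_lit 10, nat_lit 0, (.ofNat (nat_lit 23490882496)), (.ofNat (nat_lit 41686279936)), (.ofNat (nat_lit 23490882512)), (.ofNat (nat_lit 41686279920)), (.negSucc (nat_lit 11590056423325831716167)), (.ofNat (nat_lit 0)), (.ofNat (nat_lit 932227389895017347910569377880064))⟩,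
    ⟨nat_lit 11, nat_lit 7, (.negSucc (nat_lit 37212988927)), (.negSucc (nat_lit 1506430975)), (.negSucc (nat_lit 37212988911)), (.negSucc (nat_lit 1506430991)), (.negSucc (nat_lit 11590056423325831716167)), (.ofNat (nat_lit 0)), (.ofNat (nat_lit 0))⟩]

theorem ok169 : stOK 11 11 S169 = true := by decide +kernel

def S170 : SD where
  vs := [
    ⟨nat_lit 0, nat_lit 10, nat_lit 1, (.ofNat (nat_lit 8)), (.ofNat (nat_lit 41686279936)), (.ofNat (nat_lit 2305515791202751862121063799229184)), (.ofNat (nat_lit 0)), (.ofNat (nat_lit 35470815120426535608145060624128)), (.ofNat (nat_lit 41686279920)), (.ofNat (nat_lit 41686279952)), (.negSucc (nat_lit 11771158010721073420301)), (.ofNat (nat_lit 11771158010721073420302)), (.negSucc (nat_lit 11771158010721073420301)), (.ofNat (nat_lit 11771158010721073420302)), (.ofNat (nat_lit 1086609524371450224804))⟩,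
    ⟨nat_lit 1, nat_lit 1, nat_lit 2, (.ofNat (nat_lit 8)), (.ofNat (nat_lit 84383894528)), (.ofNat (nat_lit 2808116159246053659033653823475968)), (.ofNat (nat_lit 0)), (.ofNat (nat_lit 43203420901027971065943885747456)), (.ofNat (nat_lit 84383894512)), (.ofNat (nat_lit 84383894544)), (.ofNat (nat_lit 11771158010721073420302)), (.negSucc (nat_lit 11771158010721073420301)), (.negSucc (nat_lit 11771158010721073420301)), (.ofNat (nat_lit 11771158010721073420302)), (.ofNat (nat_lit 1086609524371450224804))⟩,
    ⟨nat_lit 0, nat_lit 3, nat_lit 2, (.ofNat (nat_lit 8)), (.ofNat (nat_lit 66073662656)), (.ofNat (nat_lit 3023648791824306775276119555741312)), (.ofNat (nat_lit 0)), (.ofNat (nat_lit 46519432958622119178121846706304)), (.ofNat (nat_lit 66073662640)), (.ofNat (nat_lit 66073662672)), (.ofNat (nat_lit 11771158010721073420302)), (.negSucc (nat_lit 11771158010721073420301)), (.negSucc (nat_lit 11771158010721073420301)), (.ofNat (nat_lit 11771158010721073420302)), (.ofNat (nat_lit 1086609524371450224804))⟩,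
    ⟨nat_lit 2, nat_lit 4, nat_lit 3, (.ofNat (nat_lit 8)), (.negSucc (nat_lit 52561879039)), (.ofNat (nat_lit 1627171084833202454496004301829120)), (.ofNat (nat_lit 0)), (.ofNat (nat_lit 25034348035982133955334594135040)), (.negSucc (nat_lit 52561879055)), (.negSucc (nat_lit 52561879023)), (.negSucc (nat_lit 11771157777532115662254)), (.ofNat (nat_lit 11771158010721073420302)), (.negSucc (nat_lit 11771157777532115662254)), (.ofNat (nat_lit 11771158010721073420302)), (.ofNat (nat_lit 1086608591615619192616))⟩,
    ⟨nat_lit 1, nat_lit 5, nat_lit 0, (.ofNat (nat_lit 8)), (.ofNat (nat_lit 5593314688)), (.ofNat (nat_lit 942617123877968342415861759492480)), (.ofNat (nat_lit 0)), (.ofNat (nat_lit 14502362214185321209962341923200)), (.ofNat (nat_lit 5593314672)), (.ofNat (nat_lit 5593314704)), (.ofNat (nat_lit 11771158292325411333087)), (.negSucc (nat_lit 11771157777532115662254)), (.negSucc (nat_lit 11771157777532115662254)), (.ofNat (nat_lit 11771158292325411333087)), (.ofNat (nat_lit 1086610184410886359850))⟩,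
    ⟨nat_lit 0, nat_lit 6, nat_lit 0, (.ofNat (nat_lit 8)), (.negSucc (nat_lit 34248763519)), (.ofNat (nat_lit 1411604512649110359863127183131520)), (.ofNat (nat_lit 0)), (.ofNat (nat_lit 21717816532046795955015451495296)), (.negSucc (nat_lit 34248763535)), (.negSucc (nat_lit 34248763503)), (.negSucc (nat_lit 11771157777532115662254)), (.negSucc (nat_lit 11771157777532115662254)), (.negSucc (nat_lit 11771157777532115662254)), (.negSucc (nat_lit 11771157777532115662254)), (.ofNat (nat_lit 93082654095019221621518))⟩,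
    ⟨nat_lit 0, nat_lit 4, nat_lit 6, (.ofNat (nat_lit 8)), (.negSucc (nat_lit 34248763583)), (.ofNat (nat_lit 1411604513402464457625182585515840)), (.ofNat (nat_lit 0)), (.ofNat (nat_lit 21717818027164504809924083714368)), (.negSucc (nat_lit 34248763599)), (.negSucc (nat_lit 34248763567)), (.negSucc (nat_lit 11771157777532115662254)), (.negSucc (nat_lit 11771157777532115662254)), (.negSucc (nat_lit 11771157777532115662254)), (.negSucc (nat_lit 11771157777532115662254)), (.ofNat (nat_lit 46722428401715894756846))⟩,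
    ⟨nat_lit 0, nat_lit 11, nat_lit 7, (.ofNat (nat_lit 8)), (.negSucc (nat_lit 1506430975)), (.ofNat (nat_lit 18429812432729656829992114608384)), (.ofNat (nat_lit 0)), (.ofNat (nat_lit 283546298836867314054748470528)), (.negSucc (nat_lit 1506430991)), (.negSucc (nat_lit 1506430959)), (.negSucc (nat_lit 11771158010721073420301)), (.ofNat (nat_lit 11771158010721073420302)), (.negSucc (nat_lit 11771158010721073420301)), (.ofNat (nat_lit 11771158010721073420302)), (.ofNat (nat_lit 1086609524371450224804))⟩,
    ⟨nat_lit 1, nat_lit 7, nat_lit 8, (.ofNat (nat_lit 8)), (.ofNat (nat_lit 81532814592)), (.ofNat (nat_lit 995897893104727249331007569329920)), (.ofNat (nat_lit 0)), (.ofNat (nat_lit 15322085487304956658352775248640)), (.ofNat (nat_lit 81532814576)), (.ofNat (nat_lit 81532814608)), (.ofNat (nat_lit 11771158010721073420302)), (.negSucc (nat_lit 11771158010721073420301)), (.negSucc (nat_lit 11771158010721073420301)), (.ofNat (nat_lit 11771158010721073420302)), (.ofNat (nat_lit 1086609524371450224804))⟩,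
    ⟨nat_lit 2, nat_lit 8, nat_lit 9, (.ofNat (nat_lit 8)), (.negSucc (nat_lit 12214102591)), (.ofNat (nat_lit 2099407668295573903387642787599488)), (.ofNat (nat_lit 0)), (.ofNat (nat_lit 32299801002737618971465903687296)), (.negSucc (nat_lit 12214102607)), (.negSucc (nat_lit 12214102575)), (.negSucc (nat_lit 11771158010721073420301)), (.ofNat (nat_lit 11771158010721073420302)), (.negSucc (nat_lit 11771158010721073420301)), (.ofNat (nat_lit 11771158010721073420302)), (.ofNat (nat_lit 1086609524371450224804))⟩,
    ⟨nat_lit 0, nat_lit 9, nat_lit 10, (.ofNat (nat_lit 8)), (.ofNat (nat_lit 23490882496)), (.ofNat (nat_lit 2519696689536861573986878854056064)), (.ofNat (nat_lit 0)), (.ofNat (nat_lit 38766030480097852779726081641088)), (.ofNat (nat_lit 23490882480)), (.ofNat (nat_lit 23490882512)), (.ofNat (nat_lit 11771158010721073420302)), (.negSucc (nat_lit 11771158010721073420301)), (.negSucc (nat_lit 11771158010721073420301)), (.ofNat (nat_lit 11771158010721073420302)), (.ofNat (nat_lit 1086609524371450224804))⟩,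
    ⟨nat_lit 2, nat_lit 11, nat_lit 5, (.ofNat (nat_lit 8)), (.negSucc (nat_lit 37212988927)), (.ofNat (nat_lit 438737348104690702219652330949888)), (.ofNat (nat_lit 0)), (.ofNat (nat_lit 6750060624364257951762657444096)), (.negSucc (nat_lit 37212988943)), (.negSucc (nat_lit 37212988911)), (.negSucc (nat_lit 11771158010721073420301)), (.ofNat (nat_lit 11771158292325411333087)), (.negSucc (nat_lit 11771158010721073420301)), (.ofNat (nat_lit 11771158292325411333087)), (.ofNat (nat_lit 1086610087580126050374))⟩]
  es := [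
    ⟨nat_lit 5, nat_lit 4, (.negSucc (nat_lit 34248763519)), (.ofNat (nat_lit 5593314688)), (.negSucc (nat_lit 34248763503)), (.ofNat (nat_lit 5593314672)), (.negSucc (nat_lit 11771157777532115662254)), (.negSucc (nat_lit 181101354206283946086)), (.ofNat (nat_lit 15515319078684019787509359149056))⟩,
    ⟨nat_lit 0, nat_lit 1, (.ofNat (nat_lit 41686279936)), (.ofNat (nat_lit 84383894528)), (.ofNat (nat_lit 41686279952)), (.ofNat (nat_lit 84383894512)), (.ofNat (nat_lit 11771158010721073420302)), (.ofNat (nat_lit 181101587395241704134)), (.ofNat (nat_lit 27921363651414520855233448168704))⟩,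
    ⟨nat_lit 2, nat_lit 1, (.ofNat (nat_lit 66073662656)), (.ofNat (nat_lit 84383894528)), (.ofNat (nat_lit 66073662672)), (.ofNat (nat_lit 84383894512)), (.negSucc (nat_lit 11771158010721073420301)), (.negSucc (nat_lit 181101587395241704133)), (.ofNat (nat_lit 58485478150641421276654323326208))⟩,
    ⟨nat_lit 3, nat_lit 2, (.negSucc (nat_lit 52561879039)), (.ofNat (nat_lit 66073662656)), (.negSucc (nat_lit 52561879023)), (.ofNat (nat_lit 66073662640)), (.ofNat (nat_lit 11771158010721073420302)), (.ofNat (nat_lit 181101587395241704134)), (.ofNat (nat_lit 34553387766602817079589370086400))⟩,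
    ⟨nat_lit 3, nat_lit 6, (.negSucc (nat_lit 52561879039)), (.negSucc (nat_lit 34248763583)), (.negSucc (nat_lit 52561879023)), (.negSucc (nat_lit 34248763599)), (.negSucc (nat_lit 11771157777532115662254)), (.negSucc (nat_lit 181101354206283946086)), (.ofNat (nat_lit 15515320562211241973215818818560))⟩,
    ⟨nat_lit 11, nat_lit 4, (.negSucc (nat_lit 37212988927)), (.ofNat (nat_lit 5593314688)), (.negSucc (nat_lit 37212988911)), (.ofNat (nat_lit 5593314672)), (.ofNat (nat_lit 11771158292325411333087)), (.ofNat (nat_lit 181101868999579616919)), (.ofNat (nat_lit 13489402470285720672823885916928))⟩,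
    ⟨nat_lit 6, nat_lit 5, (.negSucc (nat_lit 34248763583)), (.negSucc (nat_lit 34248763519)), (.negSucc (nat_lit 34248763567)), (.negSucc (nat_lit 34248763535)), (.negSucc (nat_lit 11771157777532115662254)), (.negSucc (nat_lit 23361214200857947378422)), (.negSucc (nat_lit 778374884173202824921197826033663))⟩,
    ⟨nat_lit 7, nat_lit 8, (.negSucc (nat_lit 1506430975)), (.ofNat (nat_lit 81532814592)), (.negSucc (nat_lit 1506430959)), (.ofNat (nat_lit 81532814576)), (.ofNat (nat_lit 11771158010721073420302)), (.ofNat (nat_lit 181101587395241704134)), (.ofNat (nat_lit 556363339891830572169233325312))⟩,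
    ⟨nat_lit 9, nat_lit 8, (.negSucc (nat_lit 12214102591)), (.ofNat (nat_lit 81532814592)), (.negSucc (nat_lit 12214102575)), (.ofNat (nat_lit 81532814576)), (.negSucc (nat_lit 11771158010721073420301)), (.negSucc (nat_lit 181101587395241704133)), (.ofNat (nat_lit 30087807634718082744536317171968))⟩,
    ⟨nat_lit 9, nat_lit 10, (.negSucc (nat_lit 12214102591)), (.ofNat (nat_lit 23490882496)), (.negSucc (nat_lit 12214102575)), (.ofNat (nat_lit 23490882480)), (.ofNat (nat_lit 11771158010721073420302)), (.ofNat (nat_lit 181101587395241704134)), (.ofNat (nat_lit 34511794370757155198395490202624))⟩,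
    ⟨nat_lit 10, nat_lit 0, (.ofNat (nat_lit 23490882496)), (.ofNat (nat_lit 41686279936)), (.ofNat (nat_lit 23490882512)), (.ofNat (nat_lit 41686279920)), (.negSucc (nat_lit 11771158010721073420301)), (.negSucc (nat_lit 181101587395241704133)), (.ofNat (nat_lit 43020266589438550361056673079552))⟩,
    ⟨nat_lit 11, nat_lit 7, (.negSucc (nat_lit 37212988927)), (.negSucc (nat_lit 1506430975)), (.negSucc (nat_lit 37212988911)), (.negSucc (nat_lit 1506430991)), (.negSucc (nat_lit 11771158010721073420301)), (.negSucc (nat_lit 181101587395241704133)), (.ofNat (nat_lit 10729257781904055940263615744))⟩]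

theorem ok170 : stOK 11 11 S170 = true := by decide +kernel

def S171 : SD where
  vs := [
    ⟨nat_lit 0, nat_lit 10, nat_lit 1, (.ofNat (nat_lit 8)), (.ofNat (nat_lit 56529570816)), (.ofNat (nat_lit 2480257027981000288234867032559872)), (.ofNat (nat_lit 14843290880)), (.ofNat (nat_lit 174741236778248426113803233330688)), (.ofNat (nat_lit 56529570800)), (.ofNat (nat_lit 56529570832)), (.negSucc (nat_lit 11771158010721073420301)), (.ofNat (nat_lit 11771158010721073420302)), (.negSucc (nat_lit 11771158010721073420301)), (.ofNat (nat_lit 11771158010721073420302)), (.ofNat (nat_lit 0))⟩,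
    ⟨nat_lit 1, nat_lit 1, nat_lit 2, (.ofNat (nat_lit 8)), (.ofNat (nat_lit 104564649344)), (.ofNat (nat_lit 3045685527391483315883527152035328)), (.ofNat (nat_lit 20180754816)), (.ofNat (nat_lit 237569368145429656849873328559360)), (.ofNat (nat_lit 104564649328)), (.ofNat (nat_lit 104564649360)), (.ofNat (nat_lit 11771158010721073420302)), (.negSucc (nat_lit 11771158010721073420301)), (.negSucc (nat_lit 11771158010721073420301)), (.ofNat (nat_lit 11771158010721073420302)), (.ofNat (nat_lit 0))⟩,
    ⟨nat_lit 0, nat_lit 3, nat_lit 2, (.ofNat (nat_lit 8)), (.ofNat (nat_lit 86253893184)), (.ofNat (nat_lit 3261224331446627557056134267595648)), (.ofNat (nat_lit 20180230528)), (.ofNat (nat_lit 237575539622320781780014711854336)), (.ofNat (nat_lit 86253893168)), (.ofNat (nat_lit 86253893200)), (.ofNat (nat_lit 11771158010721073420302)), (.negSucc (nat_lit 11771158010721073420301)), (.negSucc (nat_lit 11771158010721073420301)), (.ofNat (nat_lit 11771158010721073420302)), (.ofNat (nat_lit 0))⟩,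
    ⟨nat_lit 2, nat_lit 4, nat_lit 3, (.ofNat (nat_lit 8)), (.negSucc (nat_lit 47211877503)), (.ofNat (nat_lit 1690177655655514526412895691887872)), (.ofNat (nat_lit 5350001536)), (.ofNat (nat_lit 63006570822312071916891390058752)), (.negSucc (nat_lit 47211877519)), (.negSucc (nat_lit 47211877487)), (.negSucc (nat_lit 11771157777532115662254)), (.ofNat (nat_lit 11771158010721073420302)), (.negSucc (nat_lit 11771157777532115662254)), (.ofNat (nat_lit 11771158010721073420302)), (.ofNat (nat_lit 0))⟩,
    ⟨nat_lit 1, nat_lit 5, nat_lit 0, (.ofNat (nat_lit 8)), (.ofNat (nat_lit 10944364736)), (.ofNat (nat_lit 1005611352500096778579095887236672)), (.ofNat (nat_lit 5351050048)), (.ofNat (nat_lit 62994228622128436163234127744192)), (.ofNat (nat_lit 10944364720)), (.ofNat (nat_lit 10944364752)), (.ofNat (nat_lit 11771158292325411333087)), (.negSucc (nat_lit 11771157777532115662254)), (.negSucc (nat_lit 11771157777532115662254)), (.ofNat (nat_lit 11771158292325411333087)), (.ofNat (nat_lit 0))⟩,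
    ⟨nat_lit 0, nat_lit 6, nat_lit 0, (.ofNat (nat_lit 8)), (.negSucc (nat_lit 28897975615)), (.ofNat (nat_lit 1474601827009623229405289477050432)), (.ofNat (nat_lit 5350787904)), (.ofNat (nat_lit 62997314360512869542162293918912)), (.negSucc (nat_lit 28897975631)), (.negSucc (nat_lit 28897975599)), (.negSucc (nat_lit 11771157777532115662254)), (.negSucc (nat_lit 11771157777532115662254)), (.negSucc (nat_lit 11771157777532115662254)), (.negSucc (nat_lit 11771157777532115662254)), (.ofNat (nat_lit 0))⟩,
    ⟨nat_lit 0, nat_lit 4, nat_lit 6, (.ofNat (nat_lit 8)), (.negSucc (nat_lit 28897975679)), (.ofNat (nat_lit 1474601827762977327167344879434752)), (.ofNat (nat_lit 5350787904)), (.ofNat (nat_lit 62997314360512869542162293918912)), (.negSucc (nat_lit 28897975695)), (.negSucc (nat_lit 28897975663)), (.negSucc (nat_lit 11771157777532115662254)), (.negSucc (nat_lit 11771157777532115662254)), (.negSucc (nat_lit 11771157777532115662254)), (.negSucc (nat_lit 11771157777532115662254)), (.ofNat (nat_lit 0))⟩,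
    ⟨nat_lit 0, nat_lit 11, nat_lit 7, (.ofNat (nat_lit 8)), (.negSucc (nat_lit 1506430975)), (.ofNat (nat_lit 18429812432729656829992114608384)), (.ofNat (nat_lit 0)), (.ofNat (nat_lit 0)), (.negSucc (nat_lit 1506430991)), (.negSucc (nat_lit 1506430959)), (.negSucc (nat_lit 11771158010721073420301)), (.ofNat (nat_lit 11771158010721073420302)), (.negSucc (nat_lit 11771158010721073420301)), (.ofNat (nat_lit 11771158010721073420302)), (.ofNat (nat_lit 0))⟩,
    ⟨nat_lit 1, nat_lit 7, nat_lit 8, (.ofNat (nat_lit 8)), (.ofNat (nat_lit 91913506624)), (.ofNat (nat_lit 1118090659274032466759623527763584)), (.ofNat (nat_lit 10380692032)), (.ofNat (nat_lit 122192766169305217428615958433664)), (.ofNat (nat_lit 91913506608)), (.ofNat (nat_lit 91913506640)), (.ofNat (nat_lit 11771158010721073420302)), (.negSucc (nat_lit 11771158010721073420301)), (.negSucc (nat_lit 11771158010721073420301)), (.ofNat (nat_lit 11771158010721073420302)), (.ofNat (nat_lit 0))⟩,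
    ⟨nat_lit 2, nat_lit 8, nat_lit 9, (.ofNat (nat_lit 8)), (.negSucc (nat_lit 1834459135)), (.ofNat (nat_lit 2221612777418661370676541512623104)), (.ofNat (nat_lit 10379643456)), (.ofNat (nat_lit 122205109123087467288898725023616)), (.negSucc (nat_lit 1834459151)), (.negSucc (nat_lit 1834459119)), (.negSucc (nat_lit 11771158010721073420301)), (.ofNat (nat_lit 11771158010721073420302)), (.negSucc (nat_lit 11771158010721073420301)), (.ofNat (nat_lit 11771158010721073420302)), (.ofNat (nat_lit 0))⟩,
    ⟨nat_lit 0, nat_lit 9, nat_lit 10, (.ofNat (nat_lit 8)), (.ofNat (nat_lit 38333911232)), (.ofNat (nat_lit 2694441012053555562565752779034240)), (.ofNat (nat_lit 14843028736)), (.ofNat (nat_lit 174744322516693988578873924978176)), (.ofNat (nat_lit 38333911216)), (.ofNat (nat_lit 38333911248)), (.ofNat (nat_lit 11771158010721073420302)), (.negSucc (nat_lit 11771158010721073420301)), (.negSucc (nat_lit 11771158010721073420301)), (.ofNat (nat_lit 11771158010721073420302)), (.ofNat (nat_lit 0))⟩,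
    ⟨nat_lit 2, nat_lit 11, nat_lit 5, (.ofNat (nat_lit 8)), (.negSucc (nat_lit 37213251071)), (.ofNat (nat_lit 438740433843136264684723022597376)), (.negSucc (nat_lit 262143)), (.ofNat (nat_lit 3085738445562465070691647488)), (.negSucc (nat_lit 37213251087)), (.negSucc (nat_lit 37213251055)), (.negSucc (nat_lit 11771158010721073420301)), (.ofNat (nat_lit 11771158292325411333087)), (.negSucc (nat_lit 11771158010721073420301)), (.ofNat (nat_lit 11771158292325411333087)), (.ofNat (nat_lit 0))⟩]
  es := [
    ⟨nat_lit 5, nat_lit 4, (.negSucc (nat_lit 28897975615)), (.ofNat (nat_lit 10944364736)), (.negSucc (nat_lit 28897975599)), (.ofNat (nat_lit 10944364720)), (.negSucc (nat_lit 11771157777532115662254)), (.ofNat (nat_lit 0)), (.ofNat (nat_lit 125982283012607236999285297282432))⟩,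
    ⟨nat_lit 0, nat_lit 1, (.ofNat (nat_lit 56529570816)), (.ofNat (nat_lit 104564649344)), (.ofNat (nat_lit 56529570832)), (.ofNat (nat_lit 104564649328)), (.ofNat (nat_lit 11771158010721073420302)), (.ofNat (nat_lit 0)), (.ofNat (nat_lit 18514430673374790424149884928))⟩,
    ⟨nat_lit 2, nat_lit 1, (.ofNat (nat_lit 86253893184)), (.ofNat (nat_lit 104564649344)), (.ofNat (nat_lit 86253893200)), (.ofNat (nat_lit 104564649328)), (.negSucc (nat_lit 11771158010721073420301)), (.ofNat (nat_lit 0)), (.ofNat (nat_lit 475120221860185938909322507233792))⟩,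
    ⟨nat_lit 3, nat_lit 2, (.negSucc (nat_lit 47211877503)), (.ofNat (nat_lit 86253893184)), (.negSucc (nat_lit 47211877487)), (.ofNat (nat_lit 86253893168)), (.ofNat (nat_lit 11771158010721073420302)), (.ofNat (nat_lit 0)), (.ofNat (nat_lit 30857384455624650706916474880))⟩,
    ⟨nat_lit 3, nat_lit 6, (.negSucc (nat_lit 47211877503)), (.negSucc (nat_lit 28897975679)), (.negSucc (nat_lit 47211877487)), (.negSucc (nat_lit 28897975695)), (.negSucc (nat_lit 11771157777532115662254)), (.ofNat (nat_lit 0)), (.ofNat (nat_lit 125982283012607236999285297282432))⟩,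
    ⟨nat_lit 11, nat_lit 4, (.negSucc (nat_lit 37213251071)), (.ofNat (nat_lit 10944364736)), (.negSucc (nat_lit 37213251055)), (.ofNat (nat_lit 10944364720)), (.ofNat (nat_lit 11771158292325411333087)), (.ofNat (nat_lit 0)), (.ofNat (nat_lit 6171476964945817699192406016))⟩,
    ⟨nat_lit 6, nat_lit 5, (.negSucc (nat_lit 28897975679)), (.negSucc (nat_lit 28897975615)), (.negSucc (nat_lit 28897975663)), (.negSucc (nat_lit 28897975631)), (.negSucc (nat_lit 11771157777532115662254)), (.ofNat (nat_lit 0)), (.ofNat (nat_lit 125982283012607236999285297282432))⟩,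
    ⟨nat_lit 7, nat_lit 8, (.negSucc (nat_lit 1506430975)), (.ofNat (nat_lit 91913506624)), (.negSucc (nat_lit 1506430959)), (.ofNat (nat_lit 91913506608)), (.ofNat (nat_lit 11771158010721073420302)), (.ofNat (nat_lit 0)), (.ofNat (nat_lit 0))⟩,
    ⟨nat_lit 9, nat_lit 8, (.negSucc (nat_lit 1834459135)), (.ofNat (nat_lit 91913506624)), (.negSucc (nat_lit 1834459119)), (.ofNat (nat_lit 91913506608)), (.negSucc (nat_lit 11771158010721073420301)), (.ofNat (nat_lit 0)), (.ofNat (nat_lit 244385532338610434857231916867328))⟩,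
    ⟨nat_lit 9, nat_lit 10, (.negSucc (nat_lit 1834459135)), (.ofNat (nat_lit 38333911232)), (.negSucc (nat_lit 1834459119)), (.ofNat (nat_lit 38333911216)), (.ofNat (nat_lit 11771158010721073420302)), (.ofNat (nat_lit 0)), (.ofNat (nat_lit 24685907564499720565533179904))⟩,
    ⟨nat_lit 10, nat_lit 0, (.ofNat (nat_lit 38333911232)), (.ofNat (nat_lit 56529570816)), (.ofNat (nat_lit 38333911248)), (.ofNat (nat_lit 56529570800)), (.negSucc (nat_lit 11771158010721073420301)), (.ofNat (nat_lit 0)), (.ofNat (nat_lit 349463959125823477437182316776448))⟩,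
    ⟨nat_lit 11, nat_lit 7, (.negSucc (nat_lit 37213251071)), (.negSucc (nat_lit 1506430975)), (.negSucc (nat_lit 37213251055)), (.negSucc (nat_lit 1506430991)), (.negSucc (nat_lit 11771158010721073420301)), (.ofNat (nat_lit 0)), (.ofNat (nat_lit 0))⟩]

theorem ok171 : stOK 11 11 S171 = true := by decide +kernel

def S172 : SD where
  vs := [
    ⟨nat_lit 0, nat_lit 9, nat_lit 1, (.ofNat (nat_lit 8)), (.ofNat (nat_lit 56529570816)), (.ofNat (nat_lit 2480257027981000288234867032559872)), (.ofNat (nat_lit 14843290880)), (.ofNat (nat_lit 174741236778248426113803233330688)), (.ofNat (nat_lit 56529570800)), (.ofNat (nat_lit 56529570832)), (.negSucc (nat_lit 11771158010721073420301)), (.ofNat (nat_lit 11771158010721073420302)), (.negSucc (nat_lit 11771158010721073420301)), (.ofNat (nat_lit 11771158010721073420302)), (.ofNat (nat_lit 0))⟩,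
    ⟨nat_lit 1, nat_lit 1, nat_lit 2, (.ofNat (nat_lit 8)), (.ofNat (nat_lit 104564649344)), (.ofNat (nat_lit 3045685527391483315883527152035328)), (.ofNat (nat_lit 20180754816)), (.ofNat (nat_lit 237569368145429656849873328559360)), (.ofNat (nat_lit 104564649328)), (.ofNat (nat_lit 104564649360)), (.ofNat (nat_lit 11771158010721073420302)), (.negSucc (nat_lit 11771158010721073420301)), (.negSucc (nat_lit 11771158010721073420301)), (.ofNat (nat_lit 11771158010721073420302)), (.ofNat (nat_lit 0))⟩,
    ⟨nat_lit 0, nat_lit 3, nat_lit 2, (.ofNat (nat_lit 8)), (.ofNat (nat_lit 86253893184)), (.ofNat (nat_lit 3261224331446627557056134267595648)), (.ofNat (nat_lit 20180230528)), (.ofNat (nat_lit 237575539622320781780014711854336)), (.ofNat (nat_lit 86253893168)), (.ofNat (nat_lit 86253893200)), (.ofNat (nat_lit 11771158010721073420302)), (.negSucc (nat_lit 11771158010721073420301)), (.negSucc (nat_lit 11771158010721073420301)), (.ofNat (nat_lit 11771158010721073420302)), (.ofNat (nat_lit 0))⟩,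
    ⟨nat_lit 2, nat_lit 4, nat_lit 3, (.ofNat (nat_lit 8)), (.negSucc (nat_lit 47211877503)), (.ofNat (nat_lit 1690177655655514526412895691887872)), (.ofNat (nat_lit 5350001536)), (.ofNat (nat_lit 63006570822312071916891390058752)), (.negSucc (nat_lit 47211877519)), (.negSucc (nat_lit 47211877487)), (.negSucc (nat_lit 11771157777532115662254)), (.ofNat (nat_lit 11771158010721073420302)), (.negSucc (nat_lit 11771157777532115662254)), (.ofNat (nat_lit 11771158010721073420302)), (.ofNat (nat_lit 0))⟩,
    ⟨nat_lit 1, nat_lit 5, nat_lit 0, (.ofNat (nat_lit 8)), (.ofNat (nat_lit 10944364736)), (.ofNat (nat_lit 1005611352500096778579095887236672)), (.ofNat (nat_lit 5351050048)), (.ofNat (nat_lit 62994228622128436163234127744192)), (.ofNat (nat_lit 10944364720)), (.ofNat (nat_lit 10944364752)), (.ofNat (nat_lit 11771158292325411333087)), (.negSucc (nat_lit 11771157777532115662254)), (.negSucc (nat_lit 11771157777532115662254)), (.ofNat (nat_lit 11771158292325411333087)), (.ofNat (nat_lit 0))⟩,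
    ⟨nat_lit 0, nat_lit 4, nat_lit 0, (.ofNat (nat_lit 8)), (.negSucc (nat_lit 28897975615)), (.ofNat (nat_lit 1474601827009623229405289477050432)), (.ofNat (nat_lit 5350787904)), (.ofNat (nat_lit 62997314360512869542162293918912)), (.negSucc (nat_lit 28897975631)), (.negSucc (nat_lit 28897975599)), (.negSucc (nat_lit 11771157777532115662254)), (.negSucc (nat_lit 11771157777532115662254)), (.negSucc (nat_lit 11771157777532115662254)), (.negSucc (nat_lit 11771157777532115662254)), (.ofNat (nat_lit 0))⟩,
    ⟨nat_lit 0, nat_lit 10, nat_lit 6, (.ofNat (nat_lit 8)), (.negSucc (nat_lit 1506430975)), (.ofNat (nat_lit 18429812432729656829992114608384)), (.ofNat (nat_lit 0)), (.ofNat (nat_lit 0)), (.negSucc (nat_lit 1506430991)), (.negSucc (nat_lit 1506430959)), (.negSucc (nat_lit 11771158010721073420301)), (.ofNat (nat_lit 11771158010721073420302)), (.negSucc (nat_lit 11771158010721073420301)), (.ofNat (nat_lit 11771158010721073420302)), (.ofNat (nat_lit 0))⟩,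
    ⟨nat_lit 1, nat_lit 6, nat_lit 7, (.ofNat (nat_lit 8)), (.ofNat (nat_lit 91913506624)), (.ofNat (nat_lit 1118090659274032466759623527763584)), (.ofNat (nat_lit 10380692032)), (.ofNat (nat_lit 122192766169305217428615958433664)), (.ofNat (nat_lit 91913506608)), (.ofNat (nat_lit 91913506640)), (.ofNat (nat_lit 11771158010721073420302)), (.negSucc (nat_lit 11771158010721073420301)), (.negSucc (nat_lit 11771158010721073420301)), (.ofNat (nat_lit 11771158010721073420302)), (.ofNat (nat_lit 0))⟩,
    ⟨nat_lit 2, nat_lit 7, nat_lit 8, (.ofNat (nat_lit 8)), (.negSucc (nat_lit 1834459135)), (.ofNat (nat_lit 2221612777418661370676541512623104)), (.ofNat (nat_lit 10379643456)), (.ofNat (nat_lit 122205109123087467288898725023616)), (.negSucc (nat_lit 1834459151)), (.negSucc (nat_lit 1834459119)), (.negSucc (nat_lit 11771158010721073420301)), (.ofNat (nat_lit 11771158010721073420302)), (.negSucc (nat_lit 11771158010721073420301)), (.ofNat (nat_lit 11771158010721073420302)), (.ofNat (nat_lit 0))⟩,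
    ⟨nat_lit 0, nat_lit 8, nat_lit 9, (.ofNat (nat_lit 8)), (.ofNat (nat_lit 38333911232)), (.ofNat (nat_lit 2694441012053555562565752779034240)), (.ofNat (nat_lit 14843028736)), (.ofNat (nat_lit 174744322516693988578873924978176)), (.ofNat (nat_lit 38333911216)), (.ofNat (nat_lit 38333911248)), (.ofNat (nat_lit 11771158010721073420302)), (.negSucc (nat_lit 11771158010721073420301)), (.negSucc (nat_lit 11771158010721073420301)), (.ofNat (nat_lit 11771158010721073420302)), (.ofNat (nat_lit 0))⟩,
    ⟨nat_lit 2, nat_lit 10, nat_lit 5, (.ofNat (nat_lit 8)), (.negSucc (nat_lit 37213251071)), (.ofNat (nat_lit 438740433843136264684723022597376)), (.negSucc (nat_lit 262143)), (.ofNat (nat_lit 3085738445562465070691647488)), (.negSucc (nat_lit 37213251087)), (.negSucc (nat_lit 37213251055)), (.negSucc (nat_lit 11771158010721073420301)), (.ofNat (nat_lit 11771158292325411333087)), (.negSucc (nat_lit 11771158010721073420301)), (.ofNat (nat_lit 11771158292325411333087)), (.ofNat (nat_lit 0))⟩]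
  es := [
    ⟨nat_lit 5, nat_lit 4, (.negSucc (nat_lit 28897975615)), (.ofNat (nat_lit 10944364736)), (.negSucc (nat_lit 28897975599)), (.ofNat (nat_lit 10944364720)), (.negSucc (nat_lit 11771157777532115662254)), (.ofNat (nat_lit 0)), (.ofNat (nat_lit 125982283012607236999285297282432))⟩,
    ⟨nat_lit 0, nat_lit 1, (.ofNat (nat_lit 56529570816)), (.ofNat (nat_lit 104564649344)), (.ofNat (nat_lit 56529570832)), (.ofNat (nat_lit 104564649328)), (.ofNat (nat_lit 11771158010721073420302)), (.ofNat (nat_lit 0)), (.ofNat (nat_lit 18514430673374790424149884928))⟩,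
    ⟨nat_lit 2, nat_lit 1, (.ofNat (nat_lit 86253893184)), (.ofNat (nat_lit 104564649344)), (.ofNat (nat_lit 86253893200)), (.ofNat (nat_lit 104564649328)), (.negSucc (nat_lit 11771158010721073420301)), (.ofNat (nat_lit 0)), (.ofNat (nat_lit 475120221860185938909322507233792))⟩,
    ⟨nat_lit 3, nat_lit 2, (.negSucc (nat_lit 47211877503)), (.ofNat (nat_lit 86253893184)), (.negSucc (nat_lit 47211877487)), (.ofNat (nat_lit 86253893168)), (.ofNat (nat_lit 11771158010721073420302)), (.ofNat (nat_lit 0)), (.ofNat (nat_lit 30857384455624650706916474880))⟩,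
    ⟨nat_lit 3, nat_lit 5, (.negSucc (nat_lit 47211877503)), (.negSucc (nat_lit 28897975615)), (.negSucc (nat_lit 47211877487)), (.negSucc (nat_lit 28897975631)), (.negSucc (nat_lit 11771157777532115662254)), (.ofNat (nat_lit 0)), (.ofNat (nat_lit 125982283012607236999285297282432))⟩,
    ⟨nat_lit 10, nat_lit 4, (.negSucc (nat_lit 37213251071)), (.ofNat (nat_lit 10944364736)), (.negSucc (nat_lit 37213251055)), (.ofNat (nat_lit 10944364720)), (.ofNat (nat_lit 11771158292325411333087)), (.ofNat (nat_lit 0)), (.ofNat (nat_lit 6171476964945817699192406016))⟩,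
    ⟨nat_lit 6, nat_lit 7, (.negSucc (nat_lit 1506430975)), (.ofNat (nat_lit 91913506624)), (.negSucc (nat_lit 1506430959)), (.ofNat (nat_lit 91913506608)), (.ofNat (nat_lit 11771158010721073420302)), (.ofNat (nat_lit 0)), (.ofNat (nat_lit 0))⟩,
    ⟨nat_lit 8, nat_lit 7, (.negSucc (nat_lit 1834459135)), (.ofNat (nat_lit 91913506624)), (.negSucc (nat_lit 1834459119)), (.ofNat (nat_lit 91913506608)), (.negSucc (nat_lit 11771158010721073420301)), (.ofNat (nat_lit 0)), (.ofNat (nat_lit 244385532338610434857231916867328))⟩,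
    ⟨nat_lit 8, nat_lit 9, (.negSucc (nat_lit 1834459135)), (.ofNat (nat_lit 38333911232)), (.negSucc (nat_lit 1834459119)), (.ofNat (nat_lit 38333911216)), (.ofNat (nat_lit 11771158010721073420302)), (.ofNat (nat_lit 0)), (.ofNat (nat_lit 24685907564499720565533179904))⟩,
    ⟨nat_lit 9, nat_lit 0, (.ofNat (nat_lit 38333911232)), (.ofNat (nat_lit 56529570816)), (.ofNat (nat_lit 38333911248)), (.ofNat (nat_lit 56529570800)), (.negSucc (nat_lit 11771158010721073420301)), (.ofNat (nat_lit 0)), (.ofNat (nat_lit 349463959125823477437182316776448))⟩,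
    ⟨nat_lit 10, nat_lit 6, (.negSucc (nat_lit 37213251071)), (.negSucc (nat_lit 1506430975)), (.negSucc (nat_lit 37213251055)), (.negSucc (nat_lit 1506430991)), (.negSucc (nat_lit 11771158010721073420301)), (.ofNat (nat_lit 0)), (.ofNat (nat_lit 0))⟩]

theorem ok172 : stOK 10 10 S172 = true := by decide +kernel

def S173 : SD where
  vs := [
    ⟨nat_lit 0, nat_lit 8, nat_lit 0, (.ofNat (nat_lit 8)), (.ofNat (nat_lit 56529570816)), (.ofNat (nat_lit 2480257027981000288234867032559872)), (.ofNat (nat_lit 14843290880)), (.ofNat (nat_lit 174741236778248426113803233330688)), (.ofNat (nat_lit 56529570800)), (.ofNat (nat_lit 56529570832)), (.negSucc (nat_lit 11771158010721073420301)), (.ofNat (nat_lit 11771158010721073420302)), (.negSucc (nat_lit 11771158010721073420301)), (.ofNat (nat_lit 11771158010721073420302)), (.ofNat (nat_lit 0))⟩,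
    ⟨nat_lit 1, nat_lit 0, nat_lit 1, (.ofNat (nat_lit 8)), (.ofNat (nat_lit 104564649344)), (.ofNat (nat_lit 3045685527391483315883527152035328)), (.ofNat (nat_lit 20180754816)), (.ofNat (nat_lit 237569368145429656849873328559360)), (.ofNat (nat_lit 104564649328)), (.ofNat (nat_lit 104564649360)), (.ofNat (nat_lit 11771158010721073420302)), (.negSucc (nat_lit 11771158010721073420301)), (.negSucc (nat_lit 11771158010721073420301)), (.ofNat (nat_lit 11771158010721073420302)), (.ofNat (nat_lit 0))⟩,
    ⟨nat_lit 0, nat_lit 2, nat_lit 1, (.ofNat (nat_lit 8)), (.ofNat (nat_lit 86253893184)), (.ofNat (nat_lit 3261224331446627557056134267595648)), (.ofNat (nat_lit 20180230528)), (.ofNat (nat_lit 237575539622320781780014711854336)), (.ofNat (nat_lit 86253893168)), (.ofNat (nat_lit 86253893200)), (.ofNat (nat_lit 11771158010721073420302)), (.negSucc (nat_lit 11771158010721073420301)), (.negSucc (nat_lit 11771158010721073420301)), (.ofNat (nat_lit 11771158010721073420302)), (.ofNat (nat_lit 0))⟩,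
    ⟨nat_lit 2, nat_lit 3, nat_lit 2, (.ofNat (nat_lit 8)), (.negSucc (nat_lit 47211877503)), (.ofNat (nat_lit 1690177655655514526412895691887872)), (.ofNat (nat_lit 5350001536)), (.ofNat (nat_lit 63006570822312071916891390058752)), (.negSucc (nat_lit 47211877519)), (.negSucc (nat_lit 47211877487)), (.negSucc (nat_lit 11771157777532115662254)), (.ofNat (nat_lit 11771158010721073420302)), (.negSucc (nat_lit 11771157777532115662254)), (.ofNat (nat_lit 11771158010721073420302)), (.ofNat (nat_lit 0))⟩,
    ⟨nat_lit 1, nat_lit 4, nat_lit 3, (.ofNat (nat_lit 8)), (.ofNat (nat_lit 10944364736)), (.ofNat (nat_lit 1005611352500096778579095887236672)), (.ofNat (nat_lit 5351050048)), (.ofNat (nat_lit 62994228622128436163234127744192)), (.ofNat (nat_lit 10944364720)), (.ofNat (nat_lit 10944364752)), (.ofNat (nat_lit 11771158292325411333087)), (.negSucc (nat_lit 11771157777532115662254)), (.negSucc (nat_lit 11771157777532115662254)), (.ofNat (nat_lit 11771158292325411333087)), (.ofNat (nat_lit 0))⟩,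
    ⟨nat_lit 0, nat_lit 9, nat_lit 5, (.ofNat (nat_lit 8)), (.negSucc (nat_lit 1506430975)), (.ofNat (nat_lit 18429812432729656829992114608384)), (.ofNat (nat_lit 0)), (.ofNat (nat_lit 0)), (.negSucc (nat_lit 1506430991)), (.negSucc (nat_lit 1506430959)), (.negSucc (nat_lit 11771158010721073420301)), (.ofNat (nat_lit 11771158010721073420302)), (.negSucc (nat_lit 11771158010721073420301)), (.ofNat (nat_lit 11771158010721073420302)), (.ofNat (nat_lit 0))⟩,
    ⟨nat_lit 1, nat_lit 5, nat_lit 6, (.ofNat (nat_lit 8)), (.ofNat (nat_lit 91913506624)), (.ofNat (nat_lit 1118090659274032466759623527763584)), (.ofNat (nat_lit 10380692032)), (.ofNat (nat_lit 122192766169305217428615958433664)), (.ofNat (nat_lit 91913506608)), (.ofNat (nat_lit 91913506640)), (.ofNat (nat_lit 11771158010721073420302)), (.negSucc (nat_lit 11771158010721073420301)), (.negSucc (nat_lit 11771158010721073420301)), (.ofNat (nat_lit 11771158010721073420302)), (.ofNat (nat_lit 0))⟩,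
    ⟨nat_lit 2, nat_lit 6, nat_lit 7, (.ofNat (nat_lit 8)), (.negSucc (nat_lit 1834459135)), (.ofNat (nat_lit 2221612777418661370676541512623104)), (.ofNat (nat_lit 10379643456)), (.ofNat (nat_lit 122205109123087467288898725023616)), (.negSucc (nat_lit 1834459151)), (.negSucc (nat_lit 1834459119)), (.negSucc (nat_lit 11771158010721073420301)), (.ofNat (nat_lit 11771158010721073420302)), (.negSucc (nat_lit 11771158010721073420301)), (.ofNat (nat_lit 11771158010721073420302)), (.ofNat (nat_lit 0))⟩,
    ⟨nat_lit 0, nat_lit 7, nat_lit 8, (.ofNat (nat_lit 8)), (.ofNat (nat_lit 38333911232)), (.ofNat (nat_lit 2694441012053555562565752779034240)), (.ofNat (nat_lit 14843028736)), (.ofNat (nat_lit 174744322516693988578873924978176)), (.ofNat (nat_lit 38333911216)), (.ofNat (nat_lit 38333911248)), (.ofNat (nat_lit 11771158010721073420302)), (.negSucc (nat_lit 11771158010721073420301)), (.negSucc (nat_lit 11771158010721073420301)), (.ofNat (nat_lit 11771158010721073420302)), (.ofNat (nat_lit 0))⟩,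
    ⟨nat_lit 2, nat_lit 9, nat_lit 4, (.ofNat (nat_lit 8)), (.negSucc (nat_lit 37213251071)), (.ofNat (nat_lit 438740433843136264684723022597376)), (.negSucc (nat_lit 262143)), (.ofNat (nat_lit 3085738445562465070691647488)), (.negSucc (nat_lit 37213251087)), (.negSucc (nat_lit 37213251055)), (.negSucc (nat_lit 11771158010721073420301)), (.ofNat (nat_lit 11771158292325411333087)), (.negSucc (nat_lit 11771158010721073420301)), (.ofNat (nat_lit 11771158292325411333087)), (.ofNat (nat_lit 0))⟩]
  es := [
    ⟨nat_lit 0, nat_lit 1, (.ofNat (nat_lit 56529570816)), (.ofNat (nat_lit 104564649344)), (.ofNat (nat_lit 56529570832)), (.ofNat (nat_lit 104564649328)), (.ofNat (nat_lit 11771158010721073420302)), (.ofNat (nat_lit 0)), (.ofNat (nat_lit 18514430673374790424149884928))⟩,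
    ⟨nat_lit 2, nat_lit 1, (.ofNat (nat_lit 86253893184)), (.ofNat (nat_lit 104564649344)), (.ofNat (nat_lit 86253893200)), (.ofNat (nat_lit 104564649328)), (.negSucc (nat_lit 11771158010721073420301)), (.ofNat (nat_lit 0)), (.ofNat (nat_lit 475120221860185938909322507233792))⟩,
    ⟨nat_lit 3, nat_lit 2, (.negSucc (nat_lit 47211877503)), (.ofNat (nat_lit 86253893184)), (.negSucc (nat_lit 47211877487)), (.ofNat (nat_lit 86253893168)), (.ofNat (nat_lit 11771158010721073420302)), (.ofNat (nat_lit 0)), (.ofNat (nat_lit 30857384455624650706916474880))⟩,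
    ⟨nat_lit 3, nat_lit 4, (.negSucc (nat_lit 47211877503)), (.ofNat (nat_lit 10944364736)), (.negSucc (nat_lit 47211877487)), (.ofNat (nat_lit 10944364720)), (.negSucc (nat_lit 11771157777532115662254)), (.ofNat (nat_lit 0)), (.ofNat (nat_lit 125982283012607236999285297282432))⟩,
    ⟨nat_lit 9, nat_lit 4, (.negSucc (nat_lit 37213251071)), (.ofNat (nat_lit 10944364736)), (.negSucc (nat_lit 37213251055)), (.ofNat (nat_lit 10944364720)), (.ofNat (nat_lit 11771158292325411333087)), (.ofNat (nat_lit 0)), (.ofNat (nat_lit 6171476964945817699192406016))⟩,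
    ⟨nat_lit 5, nat_lit 6, (.negSucc (nat_lit 1506430975)), (.ofNat (nat_lit 91913506624)), (.negSucc (nat_lit 1506430959)), (.ofNat (nat_lit 91913506608)), (.ofNat (nat_lit 11771158010721073420302)), (.ofNat (nat_lit 0)), (.ofNat (nat_lit 0))⟩,
    ⟨nat_lit 7, nat_lit 6, (.negSucc (nat_lit 1834459135)), (.ofNat (nat_lit 91913506624)), (.negSucc (nat_lit 1834459119)), (.ofNat (nat_lit 91913506608)), (.negSucc (nat_lit 11771158010721073420301)), (.ofNat (nat_lit 0)), (.ofNat (nat_lit 244385532338610434857231916867328))⟩,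
    ⟨nat_lit 7, nat_lit 8, (.negSucc (nat_lit 1834459135)), (.ofNat (nat_lit 38333911232)), (.negSucc (nat_lit 1834459119)), (.ofNat (nat_lit 38333911216)), (.ofNat (nat_lit 11771158010721073420302)), (.ofNat (nat_lit 0)), (.ofNat (nat_lit 24685907564499720565533179904))⟩,
    ⟨nat_lit 8, nat_lit 0, (.ofNat (nat_lit 38333911232)), (.ofNat (nat_lit 56529570816)), (.ofNat (nat_lit 38333911248)), (.ofNat (nat_lit 56529570800)), (.negSucc (nat_lit 11771158010721073420301)), (.ofNat (nat_lit 0)), (.ofNat (nat_lit 349463959125823477437182316776448))⟩,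
    ⟨nat_lit 9, nat_lit 5, (.negSucc (nat_lit 37213251071)), (.negSucc (nat_lit 1506430975)), (.negSucc (nat_lit 37213251055)), (.negSucc (nat_lit 1506430991)), (.negSucc (nat_lit 11771158010721073420301)), (.ofNat (nat_lit 0)), (.ofNat (nat_lit 0))⟩]

theorem ok173 : stOK 9 9 S173 = true := by decide +kernel

def S174 : SD where
  vs := [
    ⟨nat_lit 0, nat_lit 8, nat_lit 0, (.ofNat (nat_lit 8)), (.ofNat (nat_lit 56529570816)), (.ofNat (nat_lit 2519011044043203417738490737942784)), (.ofNat (nat_lit 0)), (.ofNat (nat_lit 38754016062203129503623705382912)), (.ofNat (nat_lit 56529570800)), (.ofNat (nat_lit 56529570832)), (.negSucc (nat_lit 11955082354638590192493)), (.ofNat (nat_lit 11955082354638590192494)), (.negSucc (nat_lit 11955082354638590192493)), (.ofNat (nat_lit 11955082354638590192494)), (.ofNat (nat_lit 1103546063505100633152))⟩,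
    ⟨nat_lit 1, nat_lit 0, nat_lit 1, (.ofNat (nat_lit 8)), (.ofNat (nat_lit 104564649344)), (.ofNat (nat_lit 3093274363756975242694150664111616)), (.ofNat (nat_lit 0)), (.ofNat (nat_lit 47588836365491926810623512076288)), (.ofNat (nat_lit 104564649328)), (.ofNat (nat_lit 104564649360)), (.ofNat (nat_lit 11955082354638590192494)), (.negSucc (nat_lit 11955082354638590192493)), (.negSucc (nat_lit 11955082354638590192493)), (.ofNat (nat_lit 11955082354638590192494)), (.ofNat (nat_lit 1103546063505100633152))⟩,
    ⟨nat_lit 0, nat_lit 2, nat_lit 1, (.ofNat (nat_lit 8)), (.ofNat (nat_lit 86253893184)), (.ofNat (nat_lit 3312180961625481112635075760374656)), (.ofNat (nat_lit 0)), (.ofNat (nat_lit 50956630178853555578941492779008)), (.ofNat (nat_lit 86253893168)), (.ofNat (nat_lit 86253893200)), (.ofNat (nat_lit 11955082354638590192494)), (.negSucc (nat_lit 11955082354638590192493)), (.negSucc (nat_lit 11955082354638590192493)), (.ofNat (nat_lit 11955082354638590192494)), (.ofNat (nat_lit 1103546063505100633152))⟩,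
    ⟨nat_lit 2, nat_lit 3, nat_lit 2, (.ofNat (nat_lit 8)), (.negSucc (nat_lit 47211877503)), (.ofNat (nat_lit 1716586681525131940888065777558784)), (.ofNat (nat_lit 0)), (.ofNat (nat_lit 26409025869617414475170085670912)), (.negSucc (nat_lit 47211877519)), (.negSucc (nat_lit 47211877487)), (.negSucc (nat_lit 11955082354638590192493)), (.ofNat (nat_lit 11955082354638590192494)), (.negSucc (nat_lit 11955082354638590192493)), (.ofNat (nat_lit 11955082354638590192494)), (.ofNat (nat_lit 1103546996260931665340))⟩,
    ⟨nat_lit 1, nat_lit 4, nat_lit 3, (.ofNat (nat_lit 8)), (.ofNat (nat_lit 10944364736)), (.ofNat (nat_lit 1021324016109620502001296483812224)), (.ofNat (nat_lit 0)), (.ofNat (nat_lit 15712663609523723422200596575552)), (.ofNat (nat_lit 10944364720)), (.ofNat (nat_lit 10944364752)), (.ofNat (nat_lit 11955082354638590192494)), (.negSucc (nat_lit 11955082354638590192493)), (.negSucc (nat_lit 11955082354638590192493)), (.ofNat (nat_lit 11955082354638590192494)), (.ofNat (nat_lit 1103545403465664498106))⟩,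
    ⟨nat_lit 0, nat_lit 9, nat_lit 5, (.ofNat (nat_lit 8)), (.negSucc (nat_lit 1506430975)), (.ofNat (nat_lit 18717778251991057717960398907648)), (.ofNat (nat_lit 0)), (.ofNat (nat_lit 287965819261400887968284299264)), (.negSucc (nat_lit 1506430991)), (.negSucc (nat_lit 1506430959)), (.negSucc (nat_lit 11955082354638590192493)), (.ofNat (nat_lit 11955082354638590192494)), (.negSucc (nat_lit 11955082354638590192493)), (.ofNat (nat_lit 11955082354638590192494)), (.ofNat (nat_lit 1103546063505100633152))⟩,
    ⟨nat_lit 1, nat_lit 5, nat_lit 6, (.ofNat (nat_lit 8)), (.ofNat (nat_lit 91913506624)), (.ofNat (nat_lit 1135560825825189224052721867282048)), (.ofNat (nat_lit 0)), (.ofNat (nat_lit 17470166551156757293098339518464)), (.ofNat (nat_lit 91913506608)), (.ofNat (nat_lit 91913506640)), (.ofNat (nat_lit 11955082354638590192494)), (.negSucc (nat_lit 11955082354638590192493)), (.negSucc (nat_lit 11955082354638590192493)), (.ofNat (nat_lit 11955082354638590192494)), (.ofNat (nat_lit 1103546063505100633152))⟩,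
    ⟨nat_lit 2, nat_lit 6, nat_lit 7, (.ofNat (nat_lit 8)), (.negSucc (nat_lit 1834459135)), (.ofNat (nat_lit 2256325477065827954593321188287488)), (.ofNat (nat_lit 0)), (.ofNat (nat_lit 34712699647166583916779675664384)), (.negSucc (nat_lit 1834459151)), (.negSucc (nat_lit 1834459119)), (.negSucc (nat_lit 11955082354638590192493)), (.ofNat (nat_lit 11955082354638590192494)), (.negSucc (nat_lit 11955082354638590192493)), (.ofNat (nat_lit 11955082354638590192494)), (.ofNat (nat_lit 1103546063505100633152))⟩,
    ⟨nat_lit 0, nat_lit 7, nat_lit 8, (.ofNat (nat_lit 8)), (.ofNat (nat_lit 38333911232)), (.ofNat (nat_lit 2736541652866892368230792593905280)), (.ofNat (nat_lit 0)), (.ofNat (nat_lit 42100640813336805665039814871040)), (.ofNat (nat_lit 38333911216)), (.ofNat (nat_lit 38333911248)), (.ofNat (nat_lit 11955082354638590192494)), (.negSucc (nat_lit 11955082354638590192493)), (.negSucc (nat_lit 11955082354638590192493)), (.ofNat (nat_lit 11955082354638590192494)), (.ofNat (nat_lit 1103546063505100633152))⟩,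
    ⟨nat_lit 2, nat_lit 9, nat_lit 4, (.ofNat (nat_lit 8)), (.negSucc (nat_lit 37213251071)), (.ofNat (nat_lit 445595753121935268820413666467072)), (.ofNat (nat_lit 0)), (.ofNat (nat_lit 6855319278799004135690643869696)), (.negSucc (nat_lit 37213251087)), (.negSucc (nat_lit 37213251055)), (.negSucc (nat_lit 11955082354638590192493)), (.ofNat (nat_lit 11955082354638590192494)), (.negSucc (nat_lit 11955082354638590192493)), (.ofNat (nat_lit 11955082354638590192494)), (.ofNat (nat_lit 1103545500296424807582))⟩]
  es := [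
    ⟨nat_lit 0, nat_lit 1, (.ofNat (nat_lit 56529570816)), (.ofNat (nat_lit 104564649344)), (.ofNat (nat_lit 56529570832)), (.ofNat (nat_lit 104564649328)), (.ofNat (nat_lit 11955082354638590192494)), (.ofNat (nat_lit 183924343917516772192)), (.ofNat (nat_lit 28356851837931526267128301834240))⟩,
    ⟨nat_lit 2, nat_lit 1, (.ofNat (nat_lit 86253893184)), (.ofNat (nat_lit 104564649344)), (.ofNat (nat_lit 86253893200)), (.ofNat (nat_lit 104564649328)), (.negSucc (nat_lit 11955082354638590192493)), (.negSucc (nat_lit 183924343917516772191)), (.ofNat (nat_lit 66820820893052327354118722318336))⟩,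
    ⟨nat_lit 3, nat_lit 2, (.negSucc (nat_lit 47211877503)), (.ofNat (nat_lit 86253893184)), (.negSucc (nat_lit 47211877487)), (.ofNat (nat_lit 86253893168)), (.ofNat (nat_lit 11955082354638590192494)), (.ofNat (nat_lit 183924343917516772192)), (.ofNat (nat_lit 35092439464654783803764263239680))⟩,
    ⟨nat_lit 3, nat_lit 4, (.negSucc (nat_lit 47211877503)), (.ofNat (nat_lit 10944364736)), (.negSucc (nat_lit 47211877487)), (.ofNat (nat_lit 10944364720)), (.negSucc (nat_lit 11955082354638590192493)), (.negSucc (nat_lit 183924577106474530238)), (.ofNat (nat_lit 17725601265291536188230473827456))⟩,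
    ⟨nat_lit 9, nat_lit 4, (.negSucc (nat_lit 37213251071)), (.ofNat (nat_lit 10944364736)), (.negSucc (nat_lit 37213251055)), (.ofNat (nat_lit 10944364720)), (.ofNat (nat_lit 11955082354638590192494)), (.ofNat (nat_lit 183924062313178859407)), (.ofNat (nat_lit 13699731587841502125245923904000))⟩,
    ⟨nat_lit 5, nat_lit 6, (.negSucc (nat_lit 1506430975)), (.ofNat (nat_lit 91913506624)), (.negSucc (nat_lit 1506430959)), (.ofNat (nat_lit 91913506608)), (.ofNat (nat_lit 11955082354638590192494)), (.ofNat (nat_lit 183924343917516772192)), (.ofNat (nat_lit 565035148179225342597848518656))⟩,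
    ⟨nat_lit 7, nat_lit 6, (.negSucc (nat_lit 1834459135)), (.ofNat (nat_lit 91913506624)), (.negSucc (nat_lit 1834459119)), (.ofNat (nat_lit 91913506608)), (.negSucc (nat_lit 11955082354638590192493)), (.negSucc (nat_lit 183924343917516772191)), (.ofNat (nat_lit 34375297954134289243598830518272))⟩,
    ⟨nat_lit 7, nat_lit 8, (.negSucc (nat_lit 1834459135)), (.ofNat (nat_lit 38333911232)), (.negSucc (nat_lit 1834459119)), (.ofNat (nat_lit 38333911216)), (.ofNat (nat_lit 11955082354638590192494)), (.ofNat (nat_lit 183924343917516772192)), (.ofNat (nat_lit 35050101340198878589960520810496))⟩,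
    ⟨nat_lit 8, nat_lit 0, (.ofNat (nat_lit 38333911232)), (.ofNat (nat_lit 56529570816)), (.ofNat (nat_lit 38333911248)), (.ofNat (nat_lit 56529570800)), (.negSucc (nat_lit 11955082354638590192493)), (.negSucc (nat_lit 183924343917516772191)), (.ofNat (nat_lit 49151180286474732740119108931584))⟩,
    ⟨nat_lit 9, nat_lit 5, (.negSucc (nat_lit 37213251071)), (.negSucc (nat_lit 1506430975)), (.negSucc (nat_lit 37213251055)), (.negSucc (nat_lit 1506430991)), (.negSucc (nat_lit 11955082354638590192493)), (.negSucc (nat_lit 183924343917516772191)), (.ofNat (nat_lit 10896490343576433338720079872))⟩]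

theorem ok174 : stOK 9 9 S174 = true := by decide +kernel

end LCA.CapJ
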