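import Pool.Agent.LCA.CapJ.D5
import Pool.Agent.LCA.CapJ.D6

set_option maxRecDepth 100000

namespace LCA.CapJ

open LCA

theorem f125 : goOK (.ofNat (nat_lit 1)) S125 S126 = true := by decide +kernel

theorem f126 : goOK (.ofNat (nat_lit 1)) S126 S127 = true := by decide +kernel

theorem f127 : goOK (.ofNat (nat_lit 1)) S127 S128 = true := by decide +kernel

theorem f128 : goOK (.ofNat (nat_lit 1)) S128 S129 = true := by decide +kernel

theorem f129 : goOK (.ofNat (nat_lit 1)) S129 S130 = true := by decide +kernel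

theorem f130 : goOK (.ofNat (nat_lit 1)) S130 S131 = true := by decide +kernel

theorem f131 : goOK (.ofNat (nat_lit 1)) S131 S132 = true := by decide +kernel

theorem f132 : inOK 16 16 17 17 [nat_lit 0, nat_lit 1, nat_lit 3, nat_lit 4, nat_lit 5, nat_lit 6, nat_lit 7, nat_lit 8, nat_lit 9, nat_lit 10, nat_lit 11, nat_lit 12, nat_lit 13, nat_lit 14, nat_lit 15, nat_lit 16, nat_lit 17] [nat_lit 0, nat_lit 1, nat_lit 0, nat_lit 2, nat_lit 3, nat_lit 4, nat_lit 5, nat_lit 6, nat_lit 7, nat_lit 8, nat_lit 9, nat_lit 10, nat_lit 11, nat_lit 12, nat_lit 13, nat_lit 14, nat_lit 15, nat_lit 16] [nat_lit 0, nat_lit 1, nat_lit 3, nat_lit 4, nat_lit 5, nat_lit 6, nat_lit 7, nat_lit 8, nat_lit 9, nat_lit 10, nat_lit 11, nat_lit 12, nat_lit 13, nat_lit 14, nat_lit 15, nat_lit 16, nat_lit 17] [nat_lit 0, nat_lit 1, nat_lit 0, nat_lit 2, nat_lit 3, nat_lit 4, nat_lit 5, nat_lit 6, nat_lit 7, nat_lit 8, nat_lit 9, nat_lit 10, nat_lit 11, nat_lit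 12, nat_lit 13, nat_lit 14, nat_lit 15, nat_lit 16] 1 2 2 S133 S132 = true := by decide +kernel

theorem f133 : inOK 15 15 16 16 [nat_lit 0, nat_lit 1, nat_lit 3, nat_lit 4, nat_lit 5, nat_lit 6, nat_lit 7, nat_lit 8, nat_lit 9, nat_lit 10, nat_lit 11, nat_lit 12, nat_lit 13, nat_lit 14, nat_lit 15, nat_lit 16] [nat_lit 0, nat_lit 1, nat_lit 0, nat_lit 2, nat_lit 3, nat_lit 4, nat_lit 5, nat_lit 6, nat_lit 7, nat_lit 8, nat_lit 9, nat_lit 10, nat_lit 11, nat_lit 12, nat_lit 13, nat_lit 14, nat_lit 15] [nat_lit 0, nat_lit 1, nat_lit 3, nat_lit 4, nat_lit 5, nat_lit 6, nat_lit 7, nat_lit 8, nat_lit 9, nat_lit 10, nat_lit 11, nat_lit 12, nat_lit 13, nat_lit 14, nat_lit 15, nat_lit 16] [nat_lit 0, nat_lit 1, nat_lit 0, nat_lit 2, nat_lit 3, nat_lit 4, nat_lit 5, nat_lit 6, nat_lit 7, nat_lit 8, nat_lit 9, nat_lit 10, nat_lit 11, nat_lit 12, nat_lit 13, nat_lit 14, nat_lit 15] 1 2 2 S134 S133 = true := by decide +kernel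

theorem f134 : goOK (.ofNat (nat_lit 1)) S134 S135 = true := by decide +kernel

theorem f135 : goOK (.ofNat (nat_lit 1)) S135 S136 = true := by decide +kernel

theorem f136 : goOK (.ofNat (nat_lit 1)) S136 S137 = true := by decide +kernel

theorem f137 : goOK (.ofNat (nat_lit 1)) S137 S138 = true := by decide +kernel

theorem f138 : goOK (.ofNat (nat_lit 1)) S138 S139 = true := by decide +kernel

theorem f139 : goOK (.ofNat (nat_lit 1)) S139 S140 = true := by decide +kernel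

theorem f140 : goOK (.ofNat (nat_lit 1)) S140 S141 = true := by decide +kernel

theorem f141 : goOK (.ofNat (nat_lit 1)) S141 S142 = true := by decide +kernel

theorem f142 : goOK (.ofNat (nat_lit 1)) S142 S143 = true := by decide +kernel

theorem f143 : goOK (.ofNat (nat_lit 1)) S143 S144 = true := by decide +kernel

theorem f144 : goOK (.ofNat (nat_lit 1)) S144 S145 = true := by decide +kernel

theorem f145 : goOK (.ofNat (nat_lit 1)) S145 S146 = true := by decide +kernel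

theorem f146 : goOK (.ofNat (nat_lit 1)) S146 S147 = true := by decide +kernel

theorem f147 : goOK (.ofNat (nat_lit 1)) S147 S148 = true := by decide +kernel

theorem f148 : inOK 14 14 15 15 [nat_lit 0, nat_lit 1, nat_lit 2, nat_lit 3, nat_lit 4, nat_lit 5, nat_lit 6, nat_lit 7, nat_lit 8, nat_lit 9, nat_lit 10, nat_lit 11, nat_lit 12, nat_lit 13, nat_lit 15] [nat_lit 0, nat_lit 1, nat_lit 2, nat_lit 3, nat_lit 4, nat_lit 5, nat_lit 6, nat_lit 7, nat_lit 8, nat_lit 9, nat_lit 10, nat_lit 11, nat_lit 12, nat_lit 13, nat_lit 0, nat_lit 14] [nat_lit 1, nat_lit 2, nat_lit 3, nat_lit 4, nat_lit 5, nat_lit 6, nat_lit 7, nat_lit 8, nat_lit 9, nat_lit 10, nat_lit 11, nat_lit 12, nat_lit 13, nat_lit 14, nat_lit 15] [nat_lit 0, nat_lit 0, nat_lit 1, nat_lit 2, nat_lit 3, nat_lit 4, nat_lit 5, nat_lit 6, nat_lit 7, nat_lit 8, nat_lit 9, nat_lit 10, nat_lit 11, nat_lit 12, nat_lit 13, nat_lit 14] 0 14 0 S149 S148 = true := by decide +kernel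

theorem f149 : inOK 13 13 14 14 [nat_lit 0, nat_lit 1, nat_lit 2, nat_lit 3, nat_lit 4, nat_lit 5, nat_lit 6, nat_lit 7, nat_lit 9, nat_lit 10, nat_lit 11, nat_lit 12, nat_lit 13, nat_lit 14] [nat_lit 0, nat_lit 1, nat_lit 2, nat_lit 3, nat_lit 4, nat_lit 5, nat_lit 6, nat_lit 7, nat_lit 0, nat_lit 8, nat_lit 9, nat_lit 10, nat_lit 11, nat_lit 12, nat_lit 13] [nat_lit 0, nat_lit 1, nat_lit 2, nat_lit 3, nat_lit 4, nat_lit 5, nat_lit 6, nat_lit 8, nat_lit 9, nat_lit 10, nat_lit 11, nat_lit 12, nat_lit 13, nat_lit 14] [nat_lit 0, nat_lit 1, nat_lit 2, nat_lit 3, nat_lit 4, nat_lit 5, nat_lit 6, nat_lit 0, nat_lit 7, nat_lit 8, nat_lit 9, nat_lit 10, nat_lit 11, nat_lit 12, nat_lit 13] 0 8 7 S150 S149 = true := by decide +kernel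

end LCA.CapJ
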