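import Pool.Agent.LCA.CapJ.D6
import Pool.Agent.LCA.CapJ.D7

set_option maxRecDepth 100000

namespace LCA.CapJ

open LCA

theorem f150 : goOK (.ofNat (nat_lit 1)) S150 S151 = true := by decide +kernel

theorem f151 : goOK (.ofNat (nat_lit 1)) S151 S152 = true := by decide +kernel

theorem f152 : goOK (.ofNat (nat_lit 1)) S152 S153 = true := by decide +kernel

theorem f153 : goOK (.ofNat (nat_lit 1)) S153 S154 = true := by decide +kernel

theorem f154 : goOK (.ofNat (nat_lit 1)) S154 S155 = true := by decide +kernel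

theorem f155 : goOK (.ofNat (nat_lit 1)) S155 S156 = true := by decide +kernel

theorem f156 : inOK 12 12 13 13 [nat_lit 0, nat_lit 1, nat_lit 2, nat_lit 3, nat_lit 4, nat_lit 5, nat_lit 7, nat_lit 8, nat_lit 9, nat_lit 10, nat_lit 11, nat_lit 12, nat_lit 13] [nat_lit 0, nat_lit 1, nat_lit 2, nat_lit 3, nat_lit 4, nat_lit 5, nat_lit 0, nat_lit 6, nat_lit 7, nat_lit 8, nat_lit 9, nat_lit 10, nat_lit 11, nat_lit 12] [nat_lit 0, nat_lit 1, nat_lit 2, nat_lit 3, nat_lit 5, nat_lit 6, nat_lit 7, nat_lit 8, nat_lit 9, nat_lit 10, nat_lit 11, nat_lit 12, nat_lit 13] [nat_lit 0, nat_lit 1, nat_lit 2, nat_lit 3, nat_lit 0, nat_lit 4, nat_lit 5, nat_lit 6, nat_lit 7, nat_lit 8, nat_lit 9, nat_lit 10, nat_lit 11, nat_lit 12] 5 6 4 S157 S156 = true := by decide +kernel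

theorem f157 : inOK 11 11 12 12 [nat_lit 0, nat_lit 1, nat_lit 2, nat_lit 3, nat_lit 4, nat_lit 5, nat_lit 7, nat_lit 8, nat_lit 9, nat_lit 10, nat_lit 11, nat_lit 12] [nat_lit 0, nat_lit 1, nat_lit 2, nat_lit 3, nat_lit 4, nat_lit 5, nat_lit 0, nat_lit 6, nat_lit 7, nat_lit 8, nat_lit 9, nat_lit 10, nat_lit 11] [nat_lit 0, nat_lit 1, nat_lit 2, nat_lit 3, nat_lit 5, nat_lit 6, nat_lit 7, nat_lit 8, nat_lit 9, nat_lit 10, nat_lit 11, nat_lit 12] [nat_lit 0, nat_lit 1, nat_lit 2, nat_lit 3, nat_lit 0, nat_lit 4, nat_lit 5, nat_lit 6, nat_lit 7, nat_lit 8, nat_lit 9, nat_lit 10, nat_lit 11] 5 6 4 S158 S157 = true := by decide +kernel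

theorem f158 : goOK (.ofNat (nat_lit 1)) S158 S159 = true := by decide +kernel

theorem f159 : goOK (.ofNat (nat_lit 1)) S159 S160 = true := by decide +kernel

theorem f160 : goOK (.ofNat (nat_lit 1)) S160 S161 = true := by decide +kernel

theorem f161 : sdOK 11 11 5 0 6 1 10 0 ⟨(.negSucc (nat_lit 21674270271)), (.ofNat (nat_lit 1206125271791823395620529494945920)), (.ofNat (nat_lit 23563982625788960365892075520)), (.ofNat (nat_lit 0)), (.ofNat (nat_lit 0)), (.ofNat (nat_lit 11236182511229019339510)), (.ofNat (nat_lit 2097152)), (.ofNat (nat_lit 8))⟩ S161 S162 S163 S164 = true := by decide +kernel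

theorem f162 : goOK (.ofNat (nat_lit 1)) S162 S165 = true := by decide +kernel

theorem f163 : goOK (.ofNat (nat_lit 1)) S165 S166 = true := by decide +kernel

theorem f164 : goOK (.ofNat (nat_lit 1)) S166 S167 = true := by decide +kernel

theorem f165 : goOK (.ofNat (nat_lit 1)) S167 S168 = true := by decide +kernel

theorem f166 : goOK (.ofNat (nat_lit 1)) S168 S169 = true := by decide +kernel

theorem f167 : goOK (.ofNat (nat_lit 1)) S169 S170 = true := by decide +kernel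

theorem f168 : goOK (.ofNat (nat_lit 1)) S170 S171 = true := by decide +kernel

theorem f169 : inOK 10 10 11 11 [nat_lit 0, nat_lit 1, nat_lit 2, nat_lit 3, nat_lit 4, nat_lit 5, nat_lit 7, nat_lit 8, nat_lit 9, nat_lit 10, nat_lit 11] [nat_lit 0, nat_lit 1, nat_lit 2, nat_lit 3, nat_lit 4, nat_lit 5, nat_lit 0, nat_lit 6, nat_lit 7, nat_lit 8, nat_lit 9, nat_lit 10] [nat_lit 0, nat_lit 1, nat_lit 2, nat_lit 3, nat_lit 4, nat_lit 5, nat_lit 7, nat_lit 8, nat_lit 9, nat_lit 10, nat_lit 11] [nat_lit 0, nat_lit 1, nat_lit 2, nat_lit 3, nat_lit 4, nat_lit 5, nat_lit 0, nat_lit 6, nat_lit 7, nat_lit 8, nat_lit 9, nat_lit 10] 4 6 6 S172 S171 = true := by decide +kernel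

theorem f170 : inOK 9 9 10 10 [nat_lit 1, nat_lit 2, nat_lit 3, nat_lit 4, nat_lit 5, nat_lit 6, nat_lit 7, nat_lit 8, nat_lit 9, nat_lit 10] [nat_lit 0, nat_lit 0, nat_lit 1, nat_lit 2, nat_lit 3, nat_lit 4, nat_lit 5, nat_lit 6, nat_lit 7, nat_lit 8, nat_lit 9] [nat_lit 0, nat_lit 1, nat_lit 2, nat_lit 3, nat_lit 4, nat_lit 6, nat_lit 7, nat_lit 8, nat_lit 9, nat_lit 10] [nat_lit 0, nat_lit 1, nat_lit 2, nat_lit 3, nat_lit 4, nat_lit 0, nat_lit 5, nat_lit 6, nat_lit 7, nat_lit 8, nat_lit 9] 3 0 5 S173 S172 = true := by decide +kernel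

theorem f171 : goOK (.ofNat (nat_lit 1)) S173 S174 = true := by decide +kernel

theorem f172 : goOK (.ofNat (nat_lit 1)) S174 S175 = true := by decide +kernel

theorem f173 : goOK (.ofNat (nat_lit 1)) S175 S176 = true := by decide +kernel

theorem f174 : goOK (.ofNat (nat_lit 1)) S176 S177 = true := by decide +kernel

end LCA.CapJ
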