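import Pool.Agent.LCA.CapJ.D7
import Pool.Agent.LCA.CapJ.D8

set_option maxRecDepth 100000

namespace LCA.CapJ

open LCA

theorem f175 : inOK 8 8 9 9 [nat_lit 0, nat_lit 1, nat_lit 2, nat_lit 3, nat_lit 4, nat_lit 5, nat_lit 6, nat_lit 7, nat_lit 9] [nat_lit 0, nat_lit 1, nat_lit 2, nat_lit 3, nat_lit 4, nat_lit 5, nat_lit 6, nat_lit 7, nat_lit 0, nat_lit 8] [nat_lit 0, nat_lit 1, nat_lit 2, nat_lit 3, nat_lit 4, nat_lit 5, nat_lit 6, nat_lit 7, nat_lit 9] [nat_lit 0, nat_lit 1, nat_lit 2, nat_lit 3, nat_lit 4, nat_lit 5, nat_lit 6, nat_lit 7, nat_lit 0, nat_lit 8] 7 8 8 S178 S177 = true := by decide +kernel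

theorem f176 : inOK 7 7 8 8 [nat_lit 1, nat_lit 2, nat_lit 3, nat_lit 4, nat_lit 5, nat_lit 6, nat_lit 7, nat_lit 8] [nat_lit 0, nat_lit 0, nat_lit 1, nat_lit 2, nat_lit 3, nat_lit 4, nat_lit 5, nat_lit 6, nat_lit 7] [nat_lit 1, nat_lit 2, nat_lit 3, nat_lit 4, nat_lit 5, nat_lit 6, nat_lit 7, nat_lit 8] [nat_lit 0, nat_lit 0, nat_lit 1, nat_lit 2, nat_lit 3, nat_lit 4, nat_lit 5, nat_lit 6, nat_lit 7] 6 0 0 S179 S178 = true := by decide +kernel

theorem f177 : goOK (.ofNat (nat_lit 1)) S179 S180 = true := by decide +kernel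

theorem f178 : goOK (.ofNat (nat_lit 1)) S180 S181 = true := by decide +kernel

theorem f179 : goOK (.ofNat (nat_lit 1)) S181 S182 = true := by decide +kernel

theorem f180 : goOK (.ofNat (nat_lit 1)) S183 S184 = true := by decide +kernel

theorem f181 : mvOK (.ofNat (nat_lit 1)) S183 S184 = true := by decide +kernel

theorem f182 : wdOK S183 S182 = true := by decide +kernel

theorem f183 : goOK (.ofNat (nat_lit 1)) S184 S185 = true := by decide +kernel

theorem f184 : swOK 7 2 S185 S186 = true := by decide +kernel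

theorem f185 : swOK 7 6 S186 S187 = true := by decide +kernel

theorem f186 : swOK 7 5 S187 S188 = true := by decide +kernel

theorem f187 : goOK (.ofNat (nat_lit 32)) S188 S189 = true := by decide +kernel

theorem f188 : inOK 7 7 8 8 [nat_lit 0, nat_lit 1, nat_lit 2, nat_lit 3, nat_lit 4, nat_lit 5, nat_lit 6, nat_lit 7] [nat_lit 0, nat_lit 1, nat_lit 2, nat_lit 3, nat_lit 4, nat_lit 5, nat_lit 6, nat_lit 7, nat_lit 0] [nat_lit 0, nat_lit 1, nat_lit 2, nat_lit 3, nat_lit 4, nat_lit 5, nat_lit 6, nat_lit 7] [nat_lit 0, nat_lit 1, nat_lit 2, nat_lit 3, nat_lit 4, nat_lit 5, nat_lit 6, nat_lit 7, nat_lit 0] 1 8 8 S189 S190 = true := by decide +kernel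

theorem f189 : goOK (.ofNat (nat_lit 32)) S190 S191 = true := by decide +kernel

theorem f190 : goOK (.ofNat (nat_lit 64)) S191 S192 = true := by decide +kernel

theorem f191 : goOK (.ofNat (nat_lit 1)) S192 S193 = true := by decide +kernel

theorem f192 : inOK 7 7 8 8 [nat_lit 1, nat_lit 2, nat_lit 3, nat_lit 4, nat_lit 5, nat_lit 6, nat_lit 7, nat_lit 8] [nat_lit 0, nat_lit 0, nat_lit 1, nat_lit 2, nat_lit 3, nat_lit 4, nat_lit 5, nat_lit 6, nat_lit 7] [nat_lit 0, nat_lit 2, nat_lit 3, nat_lit 4, nat_lit 5, nat_lit 6, nat_lit 7, nat_lit 8] [nat_lit 0, nat_lit 0, nat_lit 1, nat_lit 2, nat_lit 3, nat_lit 4, nat_lit 5, nat_lit 6, nat_lit 7] 7 0 1 S194 S193 = true := by decide +kernel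

theorem f193 : inOK 6 6 7 7 [nat_lit 0, nat_lit 1, nat_lit 2, nat_lit 4, nat_lit 5, nat_lit 6, nat_lit 7] [nat_lit 0, nat_lit 1, nat_lit 2, nat_lit 0, nat_lit 3, nat_lit 4, nat_lit 5, nat_lit 6] [nat_lit 0, nat_lit 1, nat_lit 2, nat_lit 4, nat_lit 5, nat_lit 6, nat_lit 7] [nat_lit 0, nat_lit 1, nat_lit 2, nat_lit 0, nat_lit 3, nat_lit 4, nat_lit 5, nat_lit 6] 5 3 3 S195 S194 = true := by decide +kernel

theorem f194 : goOK (.ofNat (nat_lit 63)) S195 S196 = true := by decide +kernel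

theorem f195 : goOK (.ofNat (nat_lit 64)) S196 S197 = true := by decide +kernel

theorem f196 : goOK (.ofNat (nat_lit 32)) S197 S198 = true := by decide +kernel

theorem f197 : inOK 6 6 7 7 [nat_lit 0, nat_lit 1, nat_lit 2, nat_lit 3, nat_lit 4, nat_lit 5, nat_lit 6] [nat_lit 0, nat_lit 1, nat_lit 2, nat_lit 3, nat_lit 4, nat_lit 5, nat_lit 6, nat_lit 0] [nat_lit 0, nat_lit 1, nat_lit 2, nat_lit 3, nat_lit 4, nat_lit 5, nat_lit 6] [nat_lit 0, nat_lit 1, nat_lit 2, nat_lit 3, nat_lit 4, nat_lit 5, nat_lit 6, nat_lit 0] 2 7 7 S198 S199 = true := by decide +kernel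

theorem f198 : goOK (.ofNat (nat_lit 32)) S199 S200 = true := by decide +kernel

theorem f199 : goOK (.ofNat (nat_lit 64)) S200 S201 = true := by decide +kernel

end LCA.CapJ
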