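import Pool.Agent.LCA.CapJ.D8

set_option maxRecDepth 100000

namespace LCA.CapJ

open LCA

theorem f200 : goOK (.ofNat (nat_lit 64)) S201 S202 = true := by decide +kernel

theorem f201 : goOK (.ofNat (nat_lit 63)) S202 S203 = true := by decide +kernel

theorem f202 : goOK (.ofNat (nat_lit 1)) S204 S205 = true := by decide +kernel

theorem f203 : mvOK (.ofNat (nat_lit 1)) S204 S205 = true := by decide +kernel

theorem f204 : fdS 3 S204 S205 = true := by decide +kernel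

theorem f205 : fdOK 6 6 7 7 [nat_lit 0, nat_lit 1, nat_lit 2, nat_lit 3, nat_lit 4, nat_lit 6, nat_lit 7] [nat_lit 0, nat_lit 1, nat_lit 2, nat_lit 3, nat_lit 4, nat_lit 0, nat_lit 5, nat_lit 6] [nat_lit 0, nat_lit 1, nat_lit 2, nat_lit 3, nat_lit 4, nat_lit 6, nat_lit 7] [nat_lit 0, nat_lit 1, nat_lit 2, nat_lit 3, nat_lit 4, nat_lit 0, nat_lit 5, nat_lit 6] 3 5 5 S204 S203 = true := by decide +kernel

theorem f206 : goOK (.ofNat (nat_lit 64)) S205 S206 = true := by decide +kernel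

theorem f207 : goOK (.ofNat (nat_lit 1)) S206 S207 = true := by decide +kernel

theorem f208 : inOK 5 5 6 6 [nat_lit 0, nat_lit 1, nat_lit 3, nat_lit 4, nat_lit 5, nat_lit 6] [nat_lit 0, nat_lit 1, nat_lit 0, nat_lit 2, nat_lit 3, nat_lit 4, nat_lit 5] [nat_lit 0, nat_lit 1, nat_lit 2, nat_lit 4, nat_lit 5, nat_lit 6] [nat_lit 0, nat_lit 1, nat_lit 2, nat_lit 0, nat_lit 3, nat_lit 4, nat_lit 5] 2 2 3 S208 S207 = true := by decide +kernel

theorem f209 : goOK (.ofNat (nat_lit 63)) S208 S209 = true := by decide +kernel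

theorem f210 : goOK (.ofNat (nat_lit 32)) S209 S210 = true := by decide +kernel

theorem f211 : inOK 5 5 6 6 [nat_lit 0, nat_lit 1, nat_lit 2, nat_lit 3, nat_lit 4, nat_lit 5] [nat_lit 0, nat_lit 1, nat_lit 2, nat_lit 3, nat_lit 4, nat_lit 5, nat_lit 0] [nat_lit 0, nat_lit 1, nat_lit 2, nat_lit 3, nat_lit 4, nat_lit 5] [nat_lit 0, nat_lit 1, nat_lit 2, nat_lit 3, nat_lit 4, nat_lit 5, nat_lit 0] 1 6 6 S210 S211 = true := by decide +kernel

theorem f212 : inOK 6 6 7 7 [nat_lit 0, nat_lit 1, nat_lit 2, nat_lit 3, nat_lit 4, nat_lit 5, nat_lit 6] [nat_lit 0, nat_lit 1, nat_lit 2, nat_lit 3, nat_lit 4, nat_lit 5, nat_lit 6, nat_lit 0] [nat_lit 0, nat_lit 1, nat_lit 2, nat_lit 3, nat_lit 4, nat_lit 5, nat_lit 6] [nat_lit 0, nat_lit 1, nat_lit 2, nat_lit 3, nat_lit 4, nat_lit 5, nat_lit 6, nat_lit 0] 6 7 7 S211 S212 = true := by decide +kernel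

theorem f213 : goOK (.ofNat (nat_lit 32)) S212 S213 = true := by decide +kernel

theorem f214 : goOK (.ofNat (nat_lit 63)) S213 S214 = true := by decide +kernel

theorem f215 : goOK (.ofNat (nat_lit 1)) S214 S215 = true := by decide +kernel

theorem f216 : mvOK (.ofNat (nat_lit 1)) S214 S215 = true := by decide +kernel

theorem f217 : fdS 7 S214 S215 = true := by decide +kernel

theorem f218 : fdOK 7 7 8 8 [nat_lit 0, nat_lit 1, nat_lit 2, nat_lit 3, nat_lit 4, nat_lit 5, nat_lit 6, nat_lit 7] [nat_lit 0, nat_lit 1, nat_lit 2, nat_lit 3, nat_lit 4, nat_lit 5, nat_lit 6, nat_lit 7, nat_lit 0] [nat_lit 0, nat_lit 1, nat_lit 2, nat_lit 3, nat_lit 4, nat_lit 5, nat_lit 6, nat_lit 7] [nat_lit 0, nat_lit 1, nat_lit 2, nat_lit 3, nat_lit 4, nat_lit 5, nat_lit 6, nat_lit 7, nat_lit 0] 7 8 8 S215 S216 = true := by decide +kernel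

theorem f219 : goOK (.ofNat (nat_lit 64)) S216 S217 = true := by decide +kernel

theorem f220 : goOK (.ofNat (nat_lit 64)) S217 S218 = true := by decide +kernel

theorem f221 : goOK (.ofNat (nat_lit 64)) S218 S219 = true := by decide +kernel

theorem f222 : goOK (.ofNat (nat_lit 32)) S219 S220 = true := by decide +kernel

theorem f223 : inOK 8 8 9 9 [nat_lit 0, nat_lit 1, nat_lit 2, nat_lit 3, nat_lit 4, nat_lit 5, nat_lit 6, nat_lit 7, nat_lit 8] [nat_lit 0, nat_lit 1, nat_lit 2, nat_lit 3, nat_lit 4, nat_lit 5, nat_lit 6, nat_lit 7, nat_lit 8, nat_lit 0] [nat_lit 0, nat_lit 1, nat_lit 2, nat_lit 3, nat_lit 4, nat_lit 5, nat_lit 6, nat_lit 7, nat_lit 8] [nat_lit 0, nat_lit 1, nat_lit 2, nat_lit 3, nat_lit 4, nat_lit 5, nat_lit 6, nat_lit 7, nat_lit 8, nat_lit 0] 8 9 9 S220 S221 = true := by decide +kernel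

theorem f224 : inOK 9 9 10 10 [nat_lit 0, nat_lit 1, nat_lit 2, nat_lit 3, nat_lit 4, nat_lit 5, nat_lit 6, nat_lit 7, nat_lit 8, nat_lit 9] [nat_lit 0, nat_lit 1, nat_lit 2, nat_lit 3, nat_lit 4, nat_lit 5, nat_lit 6, nat_lit 7, nat_lit 8, nat_lit 9, nat_lit 0] [nat_lit 0, nat_lit 1, nat_lit 2, nat_lit 3, nat_lit 4, nat_lit 5, nat_lit 6, nat_lit 7, nat_lit 8, nat_lit 9] [nat_lit 0, nat_lit 1, nat_lit 2, nat_lit 3, nat_lit 4, nat_lit 5, nat_lit 6, nat_lit 7, nat_lit 8, nat_lit 9, nat_lit 0] 9 10 10 S221 S222 = true := by decide +kernel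

end LCA.CapJ
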