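import Pool.Agent.LCA.CapJ.D8
import Pool.Agent.LCA.CapJ.D9

set_option maxRecDepth 100000

namespace LCA.CapJ

open LCA

theorem f225 : inOK 10 10 11 11 [nat_lit 0, nat_lit 1, nat_lit 2, nat_lit 3, nat_lit 4, nat_lit 5, nat_lit 6, nat_lit 7, nat_lit 8, nat_lit 9, nat_lit 10] [nat_lit 0, nat_lit 1, nat_lit 2, nat_lit 3, nat_lit 4, nat_lit 5, nat_lit 6, nat_lit 7, nat_lit 8, nat_lit 9, nat_lit 10, nat_lit 0] [nat_lit 0, nat_lit 1, nat_lit 2, nat_lit 3, nat_lit 4, nat_lit 5, nat_lit 6, nat_lit 7, nat_lit 8, nat_lit 9, nat_lit 10] [nat_lit 0, nat_lit 1, nat_lit 2, nat_lit 3, nat_lit 4, nat_lit 5, nat_lit 6, nat_lit 7, nat_lit 8, nat_lit 9, nat_lit 10, nat_lit 0] 10 11 11 S222 S223 = true := by decide +kernel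

theorem f226 : inOK 11 11 12 12 [nat_lit 0, nat_lit 1, nat_lit 2, nat_lit 3, nat_lit 4, nat_lit 5, nat_lit 6, nat_lit 7, nat_lit 8, nat_lit 9, nat_lit 10, nat_lit 11] [nat_lit 0, nat_lit 1, nat_lit 2, nat_lit 3, nat_lit 4, nat_lit 5, nat_lit 6, nat_lit 7, nat_lit 8, nat_lit 9, nat_lit 10, nat_lit 11, nat_lit 0] [nat_lit 0, nat_lit 1, nat_lit 2, nat_lit 3, nat_lit 4, nat_lit 5, nat_lit 6, nat_lit 7, nat_lit 8, nat_lit 9, nat_lit 10, nat_lit 11] [nat_lit 0, nat_lit 1, nat_lit 2, nat_lit 3, nat_lit 4, nat_lit 5, nat_lit 6, nat_lit 7, nat_lit 8, nat_lit 9, nat_lit 10, nat_lit 11, nat_lit 0] 6 12 12 S223 S224 = true := by decide +kernel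

theorem f227 : goOK (.ofNat (nat_lit 32)) S224 S225 = true := by decide +kernel

theorem f228 : goOK (.ofNat (nat_lit 64)) S225 S226 = true := by decide +kernel

theorem f229 : goOK (.ofNat (nat_lit 64)) S226 S227 = true := by decide +kernel

theorem f230 : goOK (.ofNat (nat_lit 64)) S227 S228 = true := by decide +kernel

theorem f231 : goOK (.ofNat (nat_lit 64)) S228 S229 = true := by decide +kernel

theorem f232 : goOK (.ofNat (nat_lit 63)) S229 S230 = true := by decide +kernel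

theorem f233 : sdOK 12 12 12 9 6 9 8 12 ⟨(.ofNat (nat_lit 1374389534720000)), (.ofNat (nat_lit 3488223772740170016785568535936921600877093122473984000000)), (.ofNat (nat_lit 2349207632881792507198567356492164911595520000000000)), (.ofNat (nat_lit 2176930750456995838007493428615577600000000)), (.ofNat (nat_lit 2187870100961804862319088872980480000000000)), (.ofNat (nat_lit 10939350504809024311595444364902400000000)), (.ofNat (nat_lit 214748364800)), (.ofNat (nat_lit 16))⟩ S231 S232 S233 S234 = true := by decide +kernel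

theorem f234 : ngOK S231 S235 = true := by decide +kernel

theorem f235 : ngOK S232 S230 = true := by decide +kernel

theorem f236 : goOK (.ofNat (nat_lit 63)) S235 S236 = true := by decide +kernel

theorem f237 : goOK (.ofNat (nat_lit 64)) S236 S237 = true := by decide +kernel

theorem f238 : goOK (.ofNat (nat_lit 64)) S237 S238 = true := by decide +kernel

theorem f239 : goOK (.ofNat (nat_lit 64)) S238 S239 = true := by decide +kernel

theorem f240 : goOK (.ofNat (nat_lit 63)) S239 S240 = true := by decide +kernel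

theorem f241 : goOK (.ofNat (nat_lit 1)) S241 S242 = true := by decide +kernel

theorem f242 : mvOK (.ofNat (nat_lit 1)) S241 S242 = true := by decide +kernel

theorem f243 : fdS 11 S241 S242 = true := by decide +kernel

theorem f244 : fdOK 11 11 12 12 [nat_lit 0, nat_lit 1, nat_lit 2, nat_lit 3, nat_lit 4, nat_lit 5, nat_lit 6, nat_lit 7, nat_lit 9, nat_lit 10, nat_lit 11, nat_lit 12] [nat_lit 0, nat_lit 1, nat_lit 2, nat_lit 3, nat_lit 4, nat_lit 5, nat_lit 6, nat_lit 7, nat_lit 0, nat_lit 8, nat_lit 9, nat_lit 10, nat_lit 11] [nat_lit 0, nat_lit 1, nat_lit 2, nat_lit 3, nat_lit 4, nat_lit 5, nat_lit 6, nat_lit 7, nat_lit 9, nat_lit 10, nat_lit 11, nat_lit 12] [nat_lit 0, nat_lit 1, nat_lit 2, nat_lit 3, nat_lit 4, nat_lit 5, nat_lit 6, nat_lit 7, nat_lit 0, nat_lit 8, nat_lit 9, nat_lit 10, nat_lit 11] 11 8 8 S241 S240 = true := by decide +kernel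

theorem f245 : goOK (.ofNat (nat_lit 64)) S242 S243 = true := by decide +kernel

theorem f246 : goOK (.ofNat (nat_lit 32)) S243 S244 = true := by decide +kernel

theorem f247 : inOK 10 10 11 11 [nat_lit 0, nat_lit 1, nat_lit 2, nat_lit 3, nat_lit 4, nat_lit 5, nat_lit 6, nat_lit 8, nat_lit 9, nat_lit 10, nat_lit 11] [nat_lit 0, nat_lit 1, nat_lit 2, nat_lit 3, nat_lit 4, nat_lit 5, nat_lit 6, nat_lit 0, nat_lit 7, nat_lit 8, nat_lit 9, nat_lit 10] [nat_lit 0, nat_lit 1, nat_lit 2, nat_lit 3, nat_lit 4, nat_lit 5, nat_lit 6, nat_lit 7, nat_lit 8, nat_lit 9, nat_lit 10] [nat_lit 0, nat_lit 1, nat_lit 2, nat_lit 3, nat_lit 4, nat_lit 5, nat_lit 6, nat_lit 7, nat_lit 8, nat_lit 9, nat_lit 10, nat_lit 0] 6 7 11 S245 S244 = true := by decide +kernel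

theorem f248 : inOK 9 9 10 10 [nat_lit 0, nat_lit 1, nat_lit 2, nat_lit 3, nat_lit 4, nat_lit 5, nat_lit 7, nat_lit 8, nat_lit 9, nat_lit 10] [nat_lit 0, nat_lit 1, nat_lit 2, nat_lit 3, nat_lit 4, nat_lit 5, nat_lit 0, nat_lit 6, nat_lit 7, nat_lit 8, nat_lit 9] [nat_lit 0, nat_lit 1, nat_lit 2, nat_lit 3, nat_lit 4, nat_lit 5, nat_lit 7, nat_lit 8, nat_lit 9, nat_lit 10] [nat_lit 0, nat_lit 1, nat_lit 2, nat_lit 3, nat_lit 4, nat_lit 5, nat_lit 0, nat_lit 6, nat_lit 7, nat_lit 8, nat_lit 9] 1 6 6 S246 S245 = true := by decide +kernel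

theorem f249 : goOK (.ofNat (nat_lit 32)) S246 S247 = true := by decide +kernel

end LCA.CapJ
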