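import Pool.Agent.LCA.Chk

/-!
# The first state of the program
-/

set_option maxRecDepth 100000

namespace LCA.CapJ

open LCA

/-- The polygon of the knot: a planar grid. -/
def S0 : SD where
  vs := [
    ⟨nat_lit 0, nat_lit 0, nat_lit 23, (.ofNat (nat_lit 8)), (.negSucc (nat_lit 33554431)), (.ofNat (nat_lit 39614081257132168796771975168)), (.ofNat (nat_lit 0)), (.ofNat (nat_lit 39614081257132168796771975168)), (.negSucc (nat_lit 33554447)), (.negSucc (nat_lit 33554415)), (.negSucc (nat_lit 1180591620717411303423)), (.ofNat (nat_lit 1180591620717411303424)), (.negSucc (nat_lit 1180591620717411303423)), (.ofNat (nat_lit 1180591620717411303424)), (.ofNat (nat_lit 7083549724304467820544))⟩,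
    ⟨nat_lit 2, nat_lit 0, nat_lit 1, (.ofNat (nat_lit 8)), (.negSucc (nat_lit 167772159)), (.ofNat (nat_lit 198070406285660843983859875840)), (.ofNat (nat_lit 0)), (.ofNat (nat_lit 198070406285660843983859875840)), (.negSucc (nat_lit 167772175)), (.negSucc (nat_lit 167772143)), (.negSucc (nat_lit 1180591620717411303423)), (.ofNat (nat_lit 1180591620717411303424)), (.negSucc (nat_lit 1180591620717411303423)), (.ofNat (nat_lit 1180591620717411303424)), (.ofNat (nat_lit 7083549724304467820544))⟩,
    ⟨nat_lit 0, nat_lit 1, nat_lit 2, (.ofNat (nat_lit 8)), (.negSucc (nat_lit 100663295)), (.ofNat (nat_lit 277298568799925181577403826176)), (.ofNat (nat_lit 0)), (.ofNat (nat_lit 277298568799925181577403826176)), (.negSucc (nat_lit 100663311)), (.negSucc (nat_lit 100663279)), (.ofNat (nat_lit 1180591620717411303424)), (.negSucc (nat_lit 1180591620717411303423)), (.negSucc (nat_lit 1180591620717411303423)), (.ofNat (nat_lit 1180591620717411303424)), (.ofNat (nat_lit 7083549724304467820544))⟩,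
    ⟨nat_lit 0, nat_lit 2, nat_lit 3, (.ofNat (nat_lit 8)), (.negSucc (nat_lit 33554431)), (.ofNat (nat_lit 198070406285660843983859875840)), (.ofNat (nat_lit 0)), (.ofNat (nat_lit 198070406285660843983859875840)), (.negSucc (nat_lit 33554447)), (.negSucc (nat_lit 33554415)), (.negSucc (nat_lit 1180591620717411303423)), (.ofNat (nat_lit 1180591620717411303424)), (.negSucc (nat_lit 1180591620717411303423)), (.ofNat (nat_lit 1180591620717411303424)), (.ofNat (nat_lit 7083549724304467820544))⟩,
    ⟨nat_lit 1, nat_lit 3, nat_lit 4, (.ofNat (nat_lit 8)), (.ofNat (nat_lit 83886080)), (.ofNat (nat_lit 336719690685623434772561788928)), (.ofNat (nat_lit 0)), (.ofNat (nat_lit 336719690685623434772561788928)), (.ofNat (nat_lit 83886064)), (.ofNat (nat_lit 83886096)), (.ofNat (nat_lit 1180591620717411303424)), (.negSucc (nat_lit 1180591620717411303423)), (.negSucc (nat_lit 1180591620717411303423)), (.ofNat (nat_lit 1180591620717411303424)), (.ofNat (nat_lit 7083549724304467820544))⟩,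
    ⟨nat_lit 0, nat_lit 5, nat_lit 4, (.ofNat (nat_lit 8)), (.ofNat (nat_lit 0)), (.ofNat (nat_lit 435754893828453856764491726848)), (.ofNat (nat_lit 0)), (.ofNat (nat_lit 435754893828453856764491726848)), (.negSucc (nat_lit 15)), (.ofNat (nat_lit 16)), (.ofNat (nat_lit 1180591620717411303424)), (.negSucc (nat_lit 1180591620717411303423)), (.negSucc (nat_lit 1180591620717411303423)), (.ofNat (nat_lit 1180591620717411303424)), (.ofNat (nat_lit 7083549724304467820544))⟩,
    ⟨nat_lit 2, nat_lit 6, nat_lit 5, (.ofNat (nat_lit 8)), (.negSucc (nat_lit 167772159)), (.ofNat (nat_lit 237684487542793012780631851008)), (.ofNat (nat_lit 0)), (.ofNat (nat_lit 237684487542793012780631851008)), (.negSucc (nat_lit 167772175)), (.negSucc (nat_lit 167772143)), (.negSucc (nat_lit 1180591620717411303423)), (.ofNat (nat_lit 1180591620717411303424)), (.negSucc (nat_lit 1180591620717411303423)), (.ofNat (nat_lit 1180591620717411303424)), (.ofNat (nat_lit 7083549724304467820544))⟩,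
    ⟨nat_lit 0, nat_lit 6, nat_lit 7, (.ofNat (nat_lit 8)), (.negSucc (nat_lit 117440511)), (.ofNat (nat_lit 178263365657094759585473888256)), (.ofNat (nat_lit 0)), (.ofNat (nat_lit 178263365657094759585473888256)), (.negSucc (nat_lit 117440527)), (.negSucc (nat_lit 117440495)), (.negSucc (nat_lit 1180591620717411303423)), (.ofNat (nat_lit 1180591620717411303424)), (.negSucc (nat_lit 1180591620717411303423)), (.ofNat (nat_lit 1180591620717411303424)), (.ofNat (nat_lit 7083549724304467820544))⟩,
    ⟨nat_lit 0, nat_lit 7, nat_lit 8, (.ofNat (nat_lit 8)), (.negSucc (nat_lit 33554431)), (.ofNat (nat_lit 277298568799925181577403826176)), (.ofNat (nat_lit 0)), (.ofNat (nat_lit 277298568799925181577403826176)), (.negSucc (nat_lit 33554447)), (.negSucc (nat_lit 33554415)), (.ofNat (nat_lit 1180591620717411303424)), (.negSucc (nat_lit 1180591620717411303423)), (.negSucc (nat_lit 1180591620717411303423)), (.ofNat (nat_lit 1180591620717411303424)), (.ofNat (nat_lit 7083549724304467820544))⟩,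
    ⟨nat_lit 0, nat_lit 8, nat_lit 9, (.ofNat (nat_lit 8)), (.ofNat (nat_lit 83886080)), (.ofNat (nat_lit 138649284399962590788701913088)), (.ofNat (nat_lit 0)), (.ofNat (nat_lit 138649284399962590788701913088)), (.ofNat (nat_lit 83886064)), (.ofNat (nat_lit 83886096)), (.negSucc (nat_lit 1180591620717411303423)), (.ofNat (nat_lit 1180591620717411303424)), (.negSucc (nat_lit 1180591620717411303423)), (.ofNat (nat_lit 1180591620717411303424)), (.ofNat (nat_lit 7083549724304467820544))⟩,
    ⟨nat_lit 1, nat_lit 9, nat_lit 10, (.ofNat (nat_lit 8)), (.ofNat (nat_lit 150994944)), (.ofNat (nat_lit 217877446914226928382245863424)), (.ofNat (nat_lit 0)), (.ofNat (nat_lit 217877446914226928382245863424)), (.ofNat (nat_lit 150994928)), (.ofNat (nat_lit 150994960)), (.ofNat (nat_lit 1180591620717411303424)), (.negSucc (nat_lit 1180591620717411303423)), (.negSucc (nat_lit 1180591620717411303423)), (.ofNat (nat_lit 1180591620717411303424)), (.ofNat (nat_lit 7083549724304467820544))⟩,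
    ⟨nat_lit 0, nat_lit 11, nat_lit 10, (.ofNat (nat_lit 8)), (.ofNat (nat_lit 100663296)), (.ofNat (nat_lit 277298568799925181577403826176)), (.ofNat (nat_lit 0)), (.ofNat (nat_lit 277298568799925181577403826176)), (.ofNat (nat_lit 100663280)), (.ofNat (nat_lit 100663312)), (.ofNat (nat_lit 1180591620717411303424)), (.negSucc (nat_lit 1180591620717411303423)), (.negSucc (nat_lit 1180591620717411303423)), (.ofNat (nat_lit 1180591620717411303424)), (.ofNat (nat_lit 7083549724304467820544))⟩,
    ⟨nat_lit 2, nat_lit 12, nat_lit 11, (.ofNat (nat_lit 8)), (.ofNat (nat_lit 67108864)), (.ofNat (nat_lit 237684487542793012780631851008)), (.ofNat (nat_lit 0)), (.ofNat (nat_lit 237684487542793012780631851008)), (.ofNat (nat_lit 67108848)), (.ofNat (nat_lit 67108880)), (.negSucc (nat_lit 1180591620717411303423)), (.ofNat (nat_lit 1180591620717411303424)), (.negSucc (nat_lit 1180591620717411303423)), (.ofNat (nat_lit 1180591620717411303424)), (.ofNat (nat_lit 7083549724304467820544))⟩,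
    ⟨nat_lit 1, nat_lit 13, nat_lit 12, (.ofNat (nat_lit 8)), (.ofNat (nat_lit 134217728)), (.ofNat (nat_lit 158456325028528675187087900672)), (.ofNat (nat_lit 0)), (.ofNat (nat_lit 158456325028528675187087900672)), (.ofNat (nat_lit 134217712)), (.ofNat (nat_lit 134217744)), (.ofNat (nat_lit 1180591620717411303424)), (.negSucc (nat_lit 1180591620717411303423)), (.negSucc (nat_lit 1180591620717411303423)), (.ofNat (nat_lit 1180591620717411303424)), (.ofNat (nat_lit 7083549724304467820544))⟩,
    ⟨nat_lit 0, nat_lit 14, nat_lit 13, (.ofNat (nat_lit 8)), (.ofNat (nat_lit 83886080)), (.ofNat (nat_lit 99035203142830421991929937920)), (.ofNat (nat_lit 0)), (.ofNat (nat_lit 99035203142830421991929937920)), (.ofNat (nat_lit 83886064)), (.ofNat (nat_lit 83886096)), (.negSucc (nat_lit 1180591620717411303423)), (.ofNat (nat_lit 1180591620717411303424)), (.negSucc (nat_lit 1180591620717411303423)), (.ofNat (nat_lit 1180591620717411303424)), (.ofNat (nat_lit 7083549724304467820544))⟩,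
    ⟨nat_lit 0, nat_lit 15, nat_lit 14, (.ofNat (nat_lit 8)), (.negSucc (nat_lit 33554431)), (.ofNat (nat_lit 237684487542793012780631851008)), (.ofNat (nat_lit 0)), (.ofNat (nat_lit 237684487542793012780631851008)), (.negSucc (nat_lit 33554447)), (.negSucc (nat_lit 33554415)), (.ofNat (nat_lit 1180591620717411303424)), (.negSucc (nat_lit 1180591620717411303423)), (.negSucc (nat_lit 1180591620717411303423)), (.ofNat (nat_lit 1180591620717411303424)), (.ofNat (nat_lit 7083549724304467820544))⟩,
    ⟨nat_lit 2, nat_lit 16, nat_lit 15, (.ofNat (nat_lit 8)), (.negSucc (nat_lit 83886079)), (.ofNat (nat_lit 178263365657094759585473888256)), (.ofNat (nat_lit 0)), (.ofNat (nat_lit 178263365657094759585473888256)), (.negSucc (nat_lit 83886095)), (.negSucc (nat_lit 83886063)), (.negSucc (nat_lit 1180591620717411303423)), (.ofNat (nat_lit 1180591620717411303424)), (.negSucc (nat_lit 1180591620717411303423)), (.ofNat (nat_lit 1180591620717411303424)), (.ofNat (nat_lit 7083549724304467820544))⟩,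
    ⟨nat_lit 0, nat_lit 16, nat_lit 17, (.ofNat (nat_lit 8)), (.negSucc (nat_lit 16777215)), (.ofNat (nat_lit 99035203142830421991929937920)), (.ofNat (nat_lit 0)), (.ofNat (nat_lit 99035203142830421991929937920)), (.negSucc (nat_lit 16777231)), (.negSucc (nat_lit 16777199)), (.negSucc (nat_lit 1180591620717411303423)), (.ofNat (nat_lit 1180591620717411303424)), (.negSucc (nat_lit 1180591620717411303423)), (.ofNat (nat_lit 1180591620717411303424)), (.ofNat (nat_lit 7083549724304467820544))⟩,
    ⟨nat_lit 1, nat_lit 17, nat_lit 18, (.ofNat (nat_lit 8)), (.ofNat (nat_lit 100663296)), (.ofNat (nat_lit 237684487542793012780631851008)), (.ofNat (nat_lit 0)), (.ofNat (nat_lit 237684487542793012780631851008)), (.ofNat (nat_lit 100663280)), (.ofNat (nat_lit 100663312)), (.ofNat (nat_lit 1180591620717411303424)), (.negSucc (nat_lit 1180591620717411303423)), (.negSucc (nat_lit 1180591620717411303423)), (.ofNat (nat_lit 1180591620717411303424)), (.ofNat (nat_lit 7083549724304467820544))⟩,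
    ⟨nat_lit 0, nat_lit 19, nat_lit 18, (.ofNat (nat_lit 8)), (.ofNat (nat_lit 67108864)), (.ofNat (nat_lit 277298568799925181577403826176)), (.ofNat (nat_lit 0)), (.ofNat (nat_lit 277298568799925181577403826176)), (.ofNat (nat_lit 67108848)), (.ofNat (nat_lit 67108880)), (.ofNat (nat_lit 1180591620717411303424)), (.negSucc (nat_lit 1180591620717411303423)), (.negSucc (nat_lit 1180591620717411303423)), (.ofNat (nat_lit 1180591620717411303424)), (.ofNat (nat_lit 7083549724304467820544))⟩,
    ⟨nat_lit 0, nat_lit 20, nat_lit 19, (.ofNat (nat_lit 8)), (.negSucc (nat_lit 33554431)), (.ofNat (nat_lit 158456325028528675187087900672)), (.ofNat (nat_lit 0)), (.ofNat (nat_lit 158456325028528675187087900672)), (.negSucc (nat_lit 33554447)), (.negSucc (nat_lit 33554415)), (.negSucc (nat_lit 1180591620717411303423)), (.ofNat (nat_lit 1180591620717411303424)), (.negSucc (nat_lit 1180591620717411303423)), (.ofNat (nat_lit 1180591620717411303424)), (.ofNat (nat_lit 7083549724304467820544))⟩,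
    ⟨nat_lit 2, nat_lit 20, nat_lit 21, (.ofNat (nat_lit 8)), (.negSucc (nat_lit 100663295)), (.ofNat (nat_lit 237684487542793012780631851008)), (.ofNat (nat_lit 0)), (.ofNat (nat_lit 237684487542793012780631851008)), (.negSucc (nat_lit 100663311)), (.negSucc (nat_lit 100663279)), (.negSucc (nat_lit 1180591620717411303423)), (.ofNat (nat_lit 1180591620717411303424)), (.negSucc (nat_lit 1180591620717411303423)), (.ofNat (nat_lit 1180591620717411303424)), (.ofNat (nat_lit 7083549724304467820544))⟩,
    ⟨nat_lit 0, nat_lit 21, nat_lit 22, (.ofNat (nat_lit 8)), (.negSucc (nat_lit 33554431)), (.ofNat (nat_lit 316912650057057350374175801344)), (.ofNat (nat_lit 0)), (.ofNat (nat_lit 316912650057057350374175801344)), (.negSucc (nat_lit 33554447)), (.negSucc (nat_lit 33554415)), (.ofNat (nat_lit 1180591620717411303424)), (.negSucc (nat_lit 1180591620717411303423)), (.negSucc (nat_lit 1180591620717411303423)), (.ofNat (nat_lit 1180591620717411303424)), (.ofNat (nat_lit 7083549724304467820544))⟩,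
    ⟨nat_lit 1, nat_lit 23, nat_lit 22, (.ofNat (nat_lit 8)), (.ofNat (nat_lit 83886080)), (.ofNat (nat_lit 178263365657094759585473888256)), (.ofNat (nat_lit 0)), (.ofNat (nat_lit 178263365657094759585473888256)), (.ofNat (nat_lit 83886064)), (.ofNat (nat_lit 83886096)), (.ofNat (nat_lit 1180591620717411303424)), (.negSucc (nat_lit 1180591620717411303423)), (.negSucc (nat_lit 1180591620717411303423)), (.ofNat (nat_lit 1180591620717411303424)), (.ofNat (nat_lit 7083549724304467820544))⟩]
  es := [
    ⟨nat_lit 1, nat_lit 0, (.negSucc (nat_lit 167772159)), (.negSucc (nat_lit 33554431)), (.negSucc (nat_lit 167772143)), (.negSucc (nat_lit 33554447)), (.negSucc (nat_lit 1180591620717411303423)), (.negSucc (nat_lit 1180591620717411303423)), (.ofNat (nat_lit 0))⟩,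
    ⟨nat_lit 1, nat_lit 2, (.negSucc (nat_lit 167772159)), (.negSucc (nat_lit 100663295)), (.negSucc (nat_lit 167772143)), (.negSucc (nat_lit 100663311)), (.ofNat (nat_lit 1180591620717411303424)), (.ofNat (nat_lit 1180591620717411303424)), (.ofNat (nat_lit 396140812571321687967719751680))⟩,
    ⟨nat_lit 2, nat_lit 3, (.negSucc (nat_lit 100663295)), (.negSucc (nat_lit 33554431)), (.negSucc (nat_lit 100663279)), (.negSucc (nat_lit 33554447)), (.negSucc (nat_lit 1180591620717411303423)), (.negSucc (nat_lit 1180591620717411303423)), (.ofNat (nat_lit 158456325028528675187087900672))⟩,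
    ⟨nat_lit 3, nat_lit 4, (.negSucc (nat_lit 33554431)), (.ofNat (nat_lit 83886080)), (.negSucc (nat_lit 33554415)), (.ofNat (nat_lit 83886064)), (.ofNat (nat_lit 1180591620717411303424)), (.ofNat (nat_lit 1180591620717411303424)), (.ofNat (nat_lit 237684487542793012780631851008))⟩,
    ⟨nat_lit 5, nat_lit 4, (.ofNat (nat_lit 0)), (.ofNat (nat_lit 83886080)), (.ofNat (nat_lit 16)), (.ofNat (nat_lit 83886064)), (.negSucc (nat_lit 1180591620717411303423)), (.negSucc (nat_lit 1180591620717411303423)), (.ofNat (nat_lit 435754893828453856764491726848))⟩,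
    ⟨nat_lit 6, nat_lit 5, (.negSucc (nat_lit 167772159)), (.ofNat (nat_lit 0)), (.negSucc (nat_lit 167772143)), (.negSucc (nat_lit 15)), (.ofNat (nat_lit 1180591620717411303424)), (.ofNat (nat_lit 1180591620717411303424)), (.ofNat (nat_lit 435754893828453856764491726848))⟩,
    ⟨nat_lit 6, nat_lit 7, (.negSucc (nat_lit 167772159)), (.negSucc (nat_lit 117440511)), (.negSucc (nat_lit 167772143)), (.negSucc (nat_lit 117440527)), (.negSucc (nat_lit 1180591620717411303423)), (.negSucc (nat_lit 1180591620717411303423)), (.ofNat (nat_lit 39614081257132168796771975168))⟩,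
    ⟨nat_lit 7, nat_lit 8, (.negSucc (nat_lit 117440511)), (.negSucc (nat_lit 33554431)), (.negSucc (nat_lit 117440495)), (.negSucc (nat_lit 33554447)), (.ofNat (nat_lit 1180591620717411303424)), (.ofNat (nat_lit 1180591620717411303424)), (.ofNat (nat_lit 316912650057057350374175801344))⟩,
    ⟨nat_lit 8, nat_lit 9, (.negSucc (nat_lit 33554431)), (.ofNat (nat_lit 83886080)), (.negSucc (nat_lit 33554415)), (.ofNat (nat_lit 83886064)), (.negSucc (nat_lit 1180591620717411303423)), (.negSucc (nat_lit 1180591620717411303423)), (.ofNat (nat_lit 237684487542793012780631851008))⟩,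
    ⟨nat_lit 9, nat_lit 10, (.ofNat (nat_lit 83886080)), (.ofNat (nat_lit 150994944)), (.ofNat (nat_lit 83886096)), (.ofNat (nat_lit 150994928)), (.ofNat (nat_lit 1180591620717411303424)), (.ofNat (nat_lit 1180591620717411303424)), (.ofNat (nat_lit 39614081257132168796771975168))⟩,
    ⟨nat_lit 11, nat_lit 10, (.ofNat (nat_lit 100663296)), (.ofNat (nat_lit 150994944)), (.ofNat (nat_lit 100663312)), (.ofNat (nat_lit 150994928)), (.negSucc (nat_lit 1180591620717411303423)), (.negSucc (nat_lit 1180591620717411303423)), (.ofNat (nat_lit 396140812571321687967719751680))⟩,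
    ⟨nat_lit 12, nat_lit 11, (.ofNat (nat_lit 67108864)), (.ofNat (nat_lit 100663296)), (.ofNat (nat_lit 67108880)), (.ofNat (nat_lit 100663280)), (.ofNat (nat_lit 1180591620717411303424)), (.ofNat (nat_lit 1180591620717411303424)), (.ofNat (nat_lit 158456325028528675187087900672))⟩,
    ⟨nat_lit 12, nat_lit 13, (.ofNat (nat_lit 67108864)), (.ofNat (nat_lit 134217728)), (.ofNat (nat_lit 67108880)), (.ofNat (nat_lit 134217712)), (.negSucc (nat_lit 1180591620717411303423)), (.negSucc (nat_lit 1180591620717411303423)), (.ofNat (nat_lit 316912650057057350374175801344))⟩,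
    ⟨nat_lit 14, nat_lit 13, (.ofNat (nat_lit 83886080)), (.ofNat (nat_lit 134217728)), (.ofNat (nat_lit 83886096)), (.ofNat (nat_lit 134217712)), (.ofNat (nat_lit 1180591620717411303424)), (.ofNat (nat_lit 1180591620717411303424)), (.ofNat (nat_lit 0))⟩,
    ⟨nat_lit 15, nat_lit 14, (.negSucc (nat_lit 33554431)), (.ofNat (nat_lit 83886080)), (.negSucc (nat_lit 33554415)), (.ofNat (nat_lit 83886064)), (.negSucc (nat_lit 1180591620717411303423)), (.negSucc (nat_lit 1180591620717411303423)), (.ofNat (nat_lit 198070406285660843983859875840))⟩,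
    ⟨nat_lit 16, nat_lit 15, (.negSucc (nat_lit 83886079)), (.negSucc (nat_lit 33554431)), (.negSucc (nat_lit 83886063)), (.negSucc (nat_lit 33554447)), (.ofNat (nat_lit 1180591620717411303424)), (.ofNat (nat_lit 1180591620717411303424)), (.ofNat (nat_lit 277298568799925181577403826176))⟩,
    ⟨nat_lit 16, nat_lit 17, (.negSucc (nat_lit 83886079)), (.negSucc (nat_lit 16777215)), (.negSucc (nat_lit 83886063)), (.negSucc (nat_lit 16777231)), (.negSucc (nat_lit 1180591620717411303423)), (.negSucc (nat_lit 1180591620717411303423)), (.ofNat (nat_lit 79228162514264337593543950336))⟩,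
    ⟨nat_lit 17, nat_lit 18, (.negSucc (nat_lit 16777215)), (.ofNat (nat_lit 100663296)), (.negSucc (nat_lit 16777199)), (.ofNat (nat_lit 100663280)), (.ofNat (nat_lit 1180591620717411303424)), (.ofNat (nat_lit 1180591620717411303424)), (.ofNat (nat_lit 118842243771396506390315925504))⟩,
    ⟨nat_lit 19, nat_lit 18, (.ofNat (nat_lit 67108864)), (.ofNat (nat_lit 100663296)), (.ofNat (nat_lit 67108880)), (.ofNat (nat_lit 100663280)), (.negSucc (nat_lit 1180591620717411303423)), (.negSucc (nat_lit 1180591620717411303423)), (.ofNat (nat_lit 356526731314189519170947776512))⟩,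
    ⟨nat_lit 20, nat_lit 19, (.negSucc (nat_lit 33554431)), (.ofNat (nat_lit 67108864)), (.negSucc (nat_lit 33554415)), (.ofNat (nat_lit 67108848)), (.ofNat (nat_lit 1180591620717411303424)), (.ofNat (nat_lit 1180591620717411303424)), (.ofNat (nat_lit 198070406285660843983859875840))⟩,
    ⟨nat_lit 21, nat_lit 20, (.negSucc (nat_lit 100663295)), (.negSucc (nat_lit 33554431)), (.negSucc (nat_lit 100663279)), (.negSucc (nat_lit 33554447)), (.negSucc (nat_lit 1180591620717411303423)), (.negSucc (nat_lit 1180591620717411303423)), (.ofNat (nat_lit 118842243771396506390315925504))⟩,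
    ⟨nat_lit 21, nat_lit 22, (.negSucc (nat_lit 100663295)), (.negSucc (nat_lit 33554431)), (.negSucc (nat_lit 100663279)), (.negSucc (nat_lit 33554447)), (.ofNat (nat_lit 1180591620717411303424)), (.ofNat (nat_lit 1180591620717411303424)), (.ofNat (nat_lit 356526731314189519170947776512))⟩,
    ⟨nat_lit 22, nat_lit 23, (.negSucc (nat_lit 33554431)), (.ofNat (nat_lit 83886080)), (.negSucc (nat_lit 33554415)), (.ofNat (nat_lit 83886064)), (.negSucc (nat_lit 1180591620717411303423)), (.negSucc (nat_lit 1180591620717411303423)), (.ofNat (nat_lit 277298568799925181577403826176))⟩,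
    ⟨nat_lit 0, nat_lit 23, (.negSucc (nat_lit 33554431)), (.ofNat (nat_lit 83886080)), (.negSucc (nat_lit 33554415)), (.ofNat (nat_lit 83886064)), (.ofNat (nat_lit 1180591620717411303424)), (.ofNat (nat_lit 1180591620717411303424)), (.ofNat (nat_lit 79228162514264337593543950336))⟩]

end LCA.CapJ
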