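import Pool.Agent.LCA.Chk2
import Pool.Agent.LCA.CapJ.J0

set_option maxRecDepth 100000

namespace LCA.CapJ

open LCA

theorem ok0 : stOK 23 23 S0 = true := by decide +kernel

def S1 : SD where
  vs := [
    ⟨nat_lit 0, nat_lit 0, nat_lit 23, (.ofNat (nat_lit 8)), (.negSucc (nat_lit 33554431)), (.ofNat (nat_lit 79228162514264337593543950336)), (.ofNat (nat_lit 0)), (.ofNat (nat_lit 39614081257132168796771975168)), (.negSucc (nat_lit 33554447)), (.negSucc (nat_lit 33554415)), (.negSucc (nat_lit 2361183241434822606847)), (.ofNat (nat_lit 2361183241434822606848)), (.negSucc (nat_lit 2361183241434822606847)), (.ofNat (nat_lit 2361183241434822606848)), (.ofNat (nat_lit 7083549724304467820544))⟩,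
    ⟨nat_lit 2, nat_lit 0, nat_lit 1, (.ofNat (nat_lit 8)), (.negSucc (nat_lit 167772159)), (.ofNat (nat_lit 396140812571321687967719751680)), (.ofNat (nat_lit 0)), (.ofNat (nat_lit 198070406285660843983859875840)), (.negSucc (nat_lit 167772175)), (.negSucc (nat_lit 167772143)), (.negSucc (nat_lit 2361183241434822606847)), (.ofNat (nat_lit 2361183241434822606848)), (.negSucc (nat_lit 2361183241434822606847)), (.ofNat (nat_lit 2361183241434822606848)), (.ofNat (nat_lit 7083549724304467820544))⟩,
    ⟨nat_lit 0, nat_lit 1, nat_lit 2, (.ofNat (nat_lit 8)), (.negSucc (nat_lit 100663295)), (.ofNat (nat_lit 554597137599850363154807652352)), (.ofNat (nat_lit 0)), (.ofNat (nat_lit 277298568799925181577403826176)), (.negSucc (nat_lit 100663311)), (.negSucc (nat_lit 100663279)), (.ofNat (nat_lit 2361183241434822606848)), (.negSucc (nat_lit 2361183241434822606847)), (.negSucc (nat_lit 2361183241434822606847)), (.ofNat (nat_lit 2361183241434822606848)), (.ofNat (nat_lit 7083549724304467820544))⟩,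
    ⟨nat_lit 0, nat_lit 2, nat_lit 3, (.ofNat (nat_lit 8)), (.negSucc (nat_lit 33554431)), (.ofNat (nat_lit 396140812571321687967719751680)), (.ofNat (nat_lit 0)), (.ofNat (nat_lit 198070406285660843983859875840)), (.negSucc (nat_lit 33554447)), (.negSucc (nat_lit 33554415)), (.negSucc (nat_lit 2361183241434822606847)), (.ofNat (nat_lit 2361183241434822606848)), (.negSucc (nat_lit 2361183241434822606847)), (.ofNat (nat_lit 2361183241434822606848)), (.ofNat (nat_lit 7083549724304467820544))⟩,
    ⟨nat_lit 1, nat_lit 3, nat_lit 4, (.ofNat (nat_lit 8)), (.ofNat (nat_lit 83886080)), (.ofNat (nat_lit 673439381371246869545123577856)), (.ofNat (nat_lit 0)), (.ofNat (nat_lit 336719690685623434772561788928)), (.ofNat (nat_lit 83886064)), (.ofNat (nat_lit 83886096)), (.ofNat (nat_lit 2361183241434822606848)), (.negSucc (nat_lit 2361183241434822606847)), (.negSucc (nat_lit 2361183241434822606847)), (.ofNat (nat_lit 2361183241434822606848)), (.ofNat (nat_lit 7083549724304467820544))⟩,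
    ⟨nat_lit 0, nat_lit 5, nat_lit 4, (.ofNat (nat_lit 8)), (.ofNat (nat_lit 0)), (.ofNat (nat_lit 871509787656907713528983453696)), (.ofNat (nat_lit 0)), (.ofNat (nat_lit 435754893828453856764491726848)), (.negSucc (nat_lit 15)), (.ofNat (nat_lit 16)), (.ofNat (nat_lit 2361183241434822606848)), (.negSucc (nat_lit 2361183241434822606847)), (.negSucc (nat_lit 2361183241434822606847)), (.ofNat (nat_lit 2361183241434822606848)), (.ofNat (nat_lit 7083549724304467820544))⟩,
    ⟨nat_lit 2, nat_lit 6, nat_lit 5, (.ofNat (nat_lit 8)), (.negSucc (nat_lit 167772159)), (.ofNat (nat_lit 475368975085586025561263702016)), (.ofNat (nat_lit 0)), (.ofNat (nat_lit 237684487542793012780631851008)), (.negSucc (nat_lit 167772175)), (.negSucc (nat_lit 167772143)), (.negSucc (nat_lit 2361183241434822606847)), (.ofNat (nat_lit 2361183241434822606848)), (.negSucc (nat_lit 2361183241434822606847)), (.ofNat (nat_lit 2361183241434822606848)), (.ofNat (nat_lit 7083549724304467820544))⟩,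
    ⟨nat_lit 0, nat_lit 6, nat_lit 7, (.ofNat (nat_lit 8)), (.negSucc (nat_lit 117440511)), (.ofNat (nat_lit 356526731314189519170947776512)), (.ofNat (nat_lit 0)), (.ofNat (nat_lit 178263365657094759585473888256)), (.negSucc (nat_lit 117440527)), (.negSucc (nat_lit 117440495)), (.negSucc (nat_lit 2361183241434822606847)), (.ofNat (nat_lit 2361183241434822606848)), (.negSucc (nat_lit 2361183241434822606847)), (.ofNat (nat_lit 2361183241434822606848)), (.ofNat (nat_lit 7083549724304467820544))⟩,
    ⟨nat_lit 0, nat_lit 7, nat_lit 8, (.ofNat (nat_lit 8)), (.negSucc (nat_lit 33554431)), (.ofNat (nat_lit 554597137599850363154807652352)), (.ofNat (nat_lit 0)), (.ofNat (nat_lit 277298568799925181577403826176)), (.negSucc (nat_lit 33554447)), (.negSucc (nat_lit 33554415)), (.ofNat (nat_lit 2361183241434822606848)), (.negSucc (nat_lit 2361183241434822606847)), (.negSucc (nat_lit 2361183241434822606847)), (.ofNat (nat_lit 2361183241434822606848)), (.ofNat (nat_lit 7083549724304467820544))⟩,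
    ⟨nat_lit 0, nat_lit 8, nat_lit 9, (.ofNat (nat_lit 8)), (.ofNat (nat_lit 83886080)), (.ofNat (nat_lit 277298568799925181577403826176)), (.ofNat (nat_lit 0)), (.ofNat (nat_lit 138649284399962590788701913088)), (.ofNat (nat_lit 83886064)), (.ofNat (nat_lit 83886096)), (.negSucc (nat_lit 2361183241434822606847)), (.ofNat (nat_lit 2361183241434822606848)), (.negSucc (nat_lit 2361183241434822606847)), (.ofNat (nat_lit 2361183241434822606848)), (.ofNat (nat_lit 7083549724304467820544))⟩,
    ⟨nat_lit 1, nat_lit 9, nat_lit 10, (.ofNat (nat_lit 8)), (.ofNat (nat_lit 150994944)), (.ofNat (nat_lit 435754893828453856764491726848)), (.ofNat (nat_lit 0)), (.ofNat (nat_lit 217877446914226928382245863424)), (.ofNat (nat_lit 150994928)), (.ofNat (nat_lit 150994960)), (.ofNat (nat_lit 2361183241434822606848)), (.negSucc (nat_lit 2361183241434822606847)), (.negSucc (nat_lit 2361183241434822606847)), (.ofNat (nat_lit 2361183241434822606848)), (.ofNat (nat_lit 7083549724304467820544))⟩,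
    ⟨nat_lit 0, nat_lit 11, nat_lit 10, (.ofNat (nat_lit 8)), (.ofNat (nat_lit 100663296)), (.ofNat (nat_lit 554597137599850363154807652352)), (.ofNat (nat_lit 0)), (.ofNat (nat_lit 277298568799925181577403826176)), (.ofNat (nat_lit 100663280)), (.ofNat (nat_lit 100663312)), (.ofNat (nat_lit 2361183241434822606848)), (.negSucc (nat_lit 2361183241434822606847)), (.negSucc (nat_lit 2361183241434822606847)), (.ofNat (nat_lit 2361183241434822606848)), (.ofNat (nat_lit 7083549724304467820544))⟩,
    ⟨nat_lit 2, nat_lit 12, nat_lit 11, (.ofNat (nat_lit 8)), (.ofNat (nat_lit 67108864)), (.ofNat (nat_lit 475368975085586025561263702016)), (.ofNat (nat_lit 0)), (.ofNat (nat_lit 237684487542793012780631851008)), (.ofNat (nat_lit 67108848)), (.ofNat (nat_lit 67108880)), (.negSucc (nat_lit 2361183241434822606847)), (.ofNat (nat_lit 2361183241434822606848)), (.negSucc (nat_lit 2361183241434822606847)), (.ofNat (nat_lit 2361183241434822606848)), (.ofNat (nat_lit 7083549724304467820544))⟩,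
    ⟨nat_lit 1, nat_lit 13, nat_lit 12, (.ofNat (nat_lit 8)), (.ofNat (nat_lit 134217728)), (.ofNat (nat_lit 316912650057057350374175801344)), (.ofNat (nat_lit 0)), (.ofNat (nat_lit 158456325028528675187087900672)), (.ofNat (nat_lit 134217712)), (.ofNat (nat_lit 134217744)), (.ofNat (nat_lit 2361183241434822606848)), (.negSucc (nat_lit 2361183241434822606847)), (.negSucc (nat_lit 2361183241434822606847)), (.ofNat (nat_lit 2361183241434822606848)), (.ofNat (nat_lit 7083549724304467820544))⟩,
    ⟨nat_lit 0, nat_lit 14, nat_lit 13, (.ofNat (nat_lit 8)), (.ofNat (nat_lit 83886080)), (.ofNat (nat_lit 198070406285660843983859875840)), (.ofNat (nat_lit 0)), (.ofNat (nat_lit 99035203142830421991929937920)), (.ofNat (nat_lit 83886064)), (.ofNat (nat_lit 83886096)), (.negSucc (nat_lit 2361183241434822606847)), (.ofNat (nat_lit 2361183241434822606848)), (.negSucc (nat_lit 2361183241434822606847)), (.ofNat (nat_lit 2361183241434822606848)), (.ofNat (nat_lit 7083549724304467820544))⟩,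
    ⟨nat_lit 0, nat_lit 15, nat_lit 14, (.ofNat (nat_lit 8)), (.negSucc (nat_lit 33554431)), (.ofNat (nat_lit 475368975085586025561263702016)), (.ofNat (nat_lit 0)), (.ofNat (nat_lit 237684487542793012780631851008)), (.negSucc (nat_lit 33554447)), (.negSucc (nat_lit 33554415)), (.ofNat (nat_lit 2361183241434822606848)), (.negSucc (nat_lit 2361183241434822606847)), (.negSucc (nat_lit 2361183241434822606847)), (.ofNat (nat_lit 2361183241434822606848)), (.ofNat (nat_lit 7083549724304467820544))⟩,
    ⟨nat_lit 2, nat_lit 16, nat_lit 15, (.ofNat (nat_lit 8)), (.negSucc (nat_lit 83886079)), (.ofNat (nat_lit 356526731314189519170947776512)), (.ofNat (nat_lit 0)), (.ofNat (nat_lit 178263365657094759585473888256)), (.negSucc (nat_lit 83886095)), (.negSucc (nat_lit 83886063)), (.negSucc (nat_lit 2361183241434822606847)), (.ofNat (nat_lit 2361183241434822606848)), (.negSucc (nat_lit 2361183241434822606847)), (.ofNat (nat_lit 2361183241434822606848)), (.ofNat (nat_lit 7083549724304467820544))⟩,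
    ⟨nat_lit 0, nat_lit 16, nat_lit 17, (.ofNat (nat_lit 8)), (.negSucc (nat_lit 16777215)), (.ofNat (nat_lit 198070406285660843983859875840)), (.ofNat (nat_lit 0)), (.ofNat (nat_lit 99035203142830421991929937920)), (.negSucc (nat_lit 16777231)), (.negSucc (nat_lit 16777199)), (.negSucc (nat_lit 2361183241434822606847)), (.ofNat (nat_lit 2361183241434822606848)), (.negSucc (nat_lit 2361183241434822606847)), (.ofNat (nat_lit 2361183241434822606848)), (.ofNat (nat_lit 7083549724304467820544))⟩,
    ⟨nat_lit 1, nat_lit 17, nat_lit 18, (.ofNat (nat_lit 8)), (.ofNat (nat_lit 100663296)), (.ofNat (nat_lit 475368975085586025561263702016)), (.ofNat (nat_lit 0)), (.ofNat (nat_lit 237684487542793012780631851008)), (.ofNat (nat_lit 100663280)), (.ofNat (nat_lit 100663312)), (.ofNat (nat_lit 2361183241434822606848)), (.negSucc (nat_lit 2361183241434822606847)), (.negSucc (nat_lit 2361183241434822606847)), (.ofNat (nat_lit 2361183241434822606848)), (.ofNat (nat_lit 7083549724304467820544))⟩,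
    ⟨nat_lit 0, nat_lit 19, nat_lit 18, (.ofNat (nat_lit 8)), (.ofNat (nat_lit 67108864)), (.ofNat (nat_lit 554597137599850363154807652352)), (.ofNat (nat_lit 0)), (.ofNat (nat_lit 277298568799925181577403826176)), (.ofNat (nat_lit 67108848)), (.ofNat (nat_lit 67108880)), (.ofNat (nat_lit 2361183241434822606848)), (.negSucc (nat_lit 2361183241434822606847)), (.negSucc (nat_lit 2361183241434822606847)), (.ofNat (nat_lit 2361183241434822606848)), (.ofNat (nat_lit 7083549724304467820544))⟩,
    ⟨nat_lit 0, nat_lit 20, nat_lit 19, (.ofNat (nat_lit 8)), (.negSucc (nat_lit 33554431)), (.ofNat (nat_lit 316912650057057350374175801344)), (.ofNat (nat_lit 0)), (.ofNat (nat_lit 158456325028528675187087900672)), (.negSucc (nat_lit 33554447)), (.negSucc (nat_lit 33554415)), (.negSucc (nat_lit 2361183241434822606847)), (.ofNat (nat_lit 2361183241434822606848)), (.negSucc (nat_lit 2361183241434822606847)), (.ofNat (nat_lit 2361183241434822606848)), (.ofNat (nat_lit 7083549724304467820544))⟩,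
    ⟨nat_lit 2, nat_lit 20, nat_lit 21, (.ofNat (nat_lit 8)), (.negSucc (nat_lit 100663295)), (.ofNat (nat_lit 475368975085586025561263702016)), (.ofNat (nat_lit 0)), (.ofNat (nat_lit 237684487542793012780631851008)), (.negSucc (nat_lit 100663311)), (.negSucc (nat_lit 100663279)), (.negSucc (nat_lit 2361183241434822606847)), (.ofNat (nat_lit 2361183241434822606848)), (.negSucc (nat_lit 2361183241434822606847)), (.ofNat (nat_lit 2361183241434822606848)), (.ofNat (nat_lit 7083549724304467820544))⟩,
    ⟨nat_lit 0, nat_lit 21, nat_lit 22, (.ofNat (nat_lit 8)), (.negSucc (nat_lit 33554431)), (.ofNat (nat_lit 633825300114114700748351602688)), (.ofNat (nat_lit 0)), (.ofNat (nat_lit 316912650057057350374175801344)), (.negSucc (nat_lit 33554447)), (.negSucc (nat_lit 33554415)), (.ofNat (nat_lit 2361183241434822606848)), (.negSucc (nat_lit 2361183241434822606847)), (.negSucc (nat_lit 2361183241434822606847)), (.ofNat (nat_lit 2361183241434822606848)), (.ofNat (nat_lit 7083549724304467820544))⟩,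
    ⟨nat_lit 1, nat_lit 23, nat_lit 22, (.ofNat (nat_lit 8)), (.ofNat (nat_lit 83886080)), (.ofNat (nat_lit 356526731314189519170947776512)), (.ofNat (nat_lit 0)), (.ofNat (nat_lit 178263365657094759585473888256)), (.ofNat (nat_lit 83886064)), (.ofNat (nat_lit 83886096)), (.ofNat (nat_lit 2361183241434822606848)), (.negSucc (nat_lit 2361183241434822606847)), (.negSucc (nat_lit 2361183241434822606847)), (.ofNat (nat_lit 2361183241434822606848)), (.ofNat (nat_lit 7083549724304467820544))⟩]
  es := [
    ⟨nat_lit 1, nat_lit 0, (.negSucc (nat_lit 167772159)), (.negSucc (nat_lit 33554431)), (.negSucc (nat_lit 167772143)), (.negSucc (nat_lit 33554447)), (.negSucc (nat_lit 2361183241434822606847)), (.negSucc (nat_lit 1180591620717411303423)), (.ofNat (nat_lit 0))⟩,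
    ⟨nat_lit 1, nat_lit 2, (.negSucc (nat_lit 167772159)), (.negSucc (nat_lit 100663295)), (.negSucc (nat_lit 167772143)), (.negSucc (nat_lit 100663311)), (.ofNat (nat_lit 2361183241434822606848)), (.ofNat (nat_lit 1180591620717411303424)), (.ofNat (nat_lit 396140812571321687967719751680))⟩,
    ⟨nat_lit 2, nat_lit 3, (.negSucc (nat_lit 100663295)), (.negSucc (nat_lit 33554431)), (.negSucc (nat_lit 100663279)), (.negSucc (nat_lit 33554447)), (.negSucc (nat_lit 2361183241434822606847)), (.negSucc (nat_lit 1180591620717411303423)), (.ofNat (nat_lit 158456325028528675187087900672))⟩,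
    ⟨nat_lit 3, nat_lit 4, (.negSucc (nat_lit 33554431)), (.ofNat (nat_lit 83886080)), (.negSucc (nat_lit 33554415)), (.ofNat (nat_lit 83886064)), (.ofNat (nat_lit 2361183241434822606848)), (.ofNat (nat_lit 1180591620717411303424)), (.ofNat (nat_lit 237684487542793012780631851008))⟩,
    ⟨nat_lit 5, nat_lit 4, (.ofNat (nat_lit 0)), (.ofNat (nat_lit 83886080)), (.ofNat (nat_lit 16)), (.ofNat (nat_lit 83886064)), (.negSucc (nat_lit 2361183241434822606847)), (.negSucc (nat_lit 1180591620717411303423)), (.ofNat (nat_lit 435754893828453856764491726848))⟩,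
    ⟨nat_lit 6, nat_lit 5, (.negSucc (nat_lit 167772159)), (.ofNat (nat_lit 0)), (.negSucc (nat_lit 167772143)), (.negSucc (nat_lit 15)), (.ofNat (nat_lit 2361183241434822606848)), (.ofNat (nat_lit 1180591620717411303424)), (.ofNat (nat_lit 435754893828453856764491726848))⟩,
    ⟨nat_lit 6, nat_lit 7, (.negSucc (nat_lit 167772159)), (.negSucc (nat_lit 117440511)), (.negSucc (nat_lit 167772143)), (.negSucc (nat_lit 117440527)), (.negSucc (nat_lit 2361183241434822606847)), (.negSucc (nat_lit 1180591620717411303423)), (.ofNat (nat_lit 39614081257132168796771975168))⟩,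
    ⟨nat_lit 7, nat_lit 8, (.negSucc (nat_lit 117440511)), (.negSucc (nat_lit 33554431)), (.negSucc (nat_lit 117440495)), (.negSucc (nat_lit 33554447)), (.ofNat (nat_lit 2361183241434822606848)), (.ofNat (nat_lit 1180591620717411303424)), (.ofNat (nat_lit 316912650057057350374175801344))⟩,
    ⟨nat_lit 8, nat_lit 9, (.negSucc (nat_lit 33554431)), (.ofNat (nat_lit 83886080)), (.negSucc (nat_lit 33554415)), (.ofNat (nat_lit 83886064)), (.negSucc (nat_lit 2361183241434822606847)), (.negSucc (nat_lit 1180591620717411303423)), (.ofNat (nat_lit 237684487542793012780631851008))⟩,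
    ⟨nat_lit 9, nat_lit 10, (.ofNat (nat_lit 83886080)), (.ofNat (nat_lit 150994944)), (.ofNat (nat_lit 83886096)), (.ofNat (nat_lit 150994928)), (.ofNat (nat_lit 2361183241434822606848)), (.ofNat (nat_lit 1180591620717411303424)), (.ofNat (nat_lit 39614081257132168796771975168))⟩,
    ⟨nat_lit 11, nat_lit 10, (.ofNat (nat_lit 100663296)), (.ofNat (nat_lit 150994944)), (.ofNat (nat_lit 100663312)), (.ofNat (nat_lit 150994928)), (.negSucc (nat_lit 2361183241434822606847)), (.negSucc (nat_lit 1180591620717411303423)), (.ofNat (nat_lit 396140812571321687967719751680))⟩,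
    ⟨nat_lit 12, nat_lit 11, (.ofNat (nat_lit 67108864)), (.ofNat (nat_lit 100663296)), (.ofNat (nat_lit 67108880)), (.ofNat (nat_lit 100663280)), (.ofNat (nat_lit 2361183241434822606848)), (.ofNat (nat_lit 1180591620717411303424)), (.ofNat (nat_lit 158456325028528675187087900672))⟩,
    ⟨nat_lit 12, nat_lit 13, (.ofNat (nat_lit 67108864)), (.ofNat (nat_lit 134217728)), (.ofNat (nat_lit 67108880)), (.ofNat (nat_lit 134217712)), (.negSucc (nat_lit 2361183241434822606847)), (.negSucc (nat_lit 1180591620717411303423)), (.ofNat (nat_lit 316912650057057350374175801344))⟩,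
    ⟨nat_lit 14, nat_lit 13, (.ofNat (nat_lit 83886080)), (.ofNat (nat_lit 134217728)), (.ofNat (nat_lit 83886096)), (.ofNat (nat_lit 134217712)), (.ofNat (nat_lit 2361183241434822606848)), (.ofNat (nat_lit 1180591620717411303424)), (.ofNat (nat_lit 0))⟩,
    ⟨nat_lit 15, nat_lit 14, (.negSucc (nat_lit 33554431)), (.ofNat (nat_lit 83886080)), (.negSucc (nat_lit 33554415)), (.ofNat (nat_lit 83886064)), (.negSucc (nat_lit 2361183241434822606847)), (.negSucc (nat_lit 1180591620717411303423)), (.ofNat (nat_lit 198070406285660843983859875840))⟩,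
    ⟨nat_lit 16, nat_lit 15, (.negSucc (nat_lit 83886079)), (.negSucc (nat_lit 33554431)), (.negSucc (nat_lit 83886063)), (.negSucc (nat_lit 33554447)), (.ofNat (nat_lit 2361183241434822606848)), (.ofNat (nat_lit 1180591620717411303424)), (.ofNat (nat_lit 277298568799925181577403826176))⟩,
    ⟨nat_lit 16, nat_lit 17, (.negSucc (nat_lit 83886079)), (.negSucc (nat_lit 16777215)), (.negSucc (nat_lit 83886063)), (.negSucc (nat_lit 16777231)), (.negSucc (nat_lit 2361183241434822606847)), (.negSucc (nat_lit 1180591620717411303423)), (.ofNat (nat_lit 79228162514264337593543950336))⟩,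
    ⟨nat_lit 17, nat_lit 18, (.negSucc (nat_lit 16777215)), (.ofNat (nat_lit 100663296)), (.negSucc (nat_lit 16777199)), (.ofNat (nat_lit 100663280)), (.ofNat (nat_lit 2361183241434822606848)), (.ofNat (nat_lit 1180591620717411303424)), (.ofNat (nat_lit 118842243771396506390315925504))⟩,
    ⟨nat_lit 19, nat_lit 18, (.ofNat (nat_lit 67108864)), (.ofNat (nat_lit 100663296)), (.ofNat (nat_lit 67108880)), (.ofNat (nat_lit 100663280)), (.negSucc (nat_lit 2361183241434822606847)), (.negSucc (nat_lit 1180591620717411303423)), (.ofNat (nat_lit 356526731314189519170947776512))⟩,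
    ⟨nat_lit 20, nat_lit 19, (.negSucc (nat_lit 33554431)), (.ofNat (nat_lit 67108864)), (.negSucc (nat_lit 33554415)), (.ofNat (nat_lit 67108848)), (.ofNat (nat_lit 2361183241434822606848)), (.ofNat (nat_lit 1180591620717411303424)), (.ofNat (nat_lit 198070406285660843983859875840))⟩,
    ⟨nat_lit 21, nat_lit 20, (.negSucc (nat_lit 100663295)), (.negSucc (nat_lit 33554431)), (.negSucc (nat_lit 100663279)), (.negSucc (nat_lit 33554447)), (.negSucc (nat_lit 2361183241434822606847)), (.negSucc (nat_lit 1180591620717411303423)), (.ofNat (nat_lit 118842243771396506390315925504))⟩,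
    ⟨nat_lit 21, nat_lit 22, (.negSucc (nat_lit 100663295)), (.negSucc (nat_lit 33554431)), (.negSucc (nat_lit 100663279)), (.negSucc (nat_lit 33554447)), (.ofNat (nat_lit 2361183241434822606848)), (.ofNat (nat_lit 1180591620717411303424)), (.ofNat (nat_lit 356526731314189519170947776512))⟩,
    ⟨nat_lit 22, nat_lit 23, (.negSucc (nat_lit 33554431)), (.ofNat (nat_lit 83886080)), (.negSucc (nat_lit 33554415)), (.ofNat (nat_lit 83886064)), (.negSucc (nat_lit 2361183241434822606847)), (.negSucc (nat_lit 1180591620717411303423)), (.ofNat (nat_lit 277298568799925181577403826176))⟩,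
    ⟨nat_lit 0, nat_lit 23, (.negSucc (nat_lit 33554431)), (.ofNat (nat_lit 83886080)), (.negSucc (nat_lit 33554415)), (.ofNat (nat_lit 83886064)), (.ofNat (nat_lit 2361183241434822606848)), (.ofNat (nat_lit 1180591620717411303424)), (.ofNat (nat_lit 79228162514264337593543950336))⟩]

theorem ok1 : stOK 23 23 S1 = true := by decide +kernel

def S2 : SD where
  vs := [
    ⟨nat_lit 0, nat_lit 0, nat_lit 23, (.ofNat (nat_lit 8)), (.negSucc (nat_lit 33554431)), (.ofNat (nat_lit 40233051276774858934221537280)), (.ofNat (nat_lit 0)), (.ofNat (nat_lit 618970019642690137449562112)), (.negSucc (nat_lit 33554447)), (.negSucc (nat_lit 33554415)), (.negSucc (nat_lit 1199038364791120855039)), (.ofNat (nat_lit 1199038364791120855040)), (.negSucc (nat_lit 1199038364791120855039)), (.ofNat (nat_lit 1199038364791120855040)), (.ofNat (nat_lit 110680464442257309696))⟩,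
    ⟨nat_lit 2, nat_lit 0, nat_lit 1, (.ofNat (nat_lit 8)), (.negSucc (nat_lit 167772159)), (.ofNat (nat_lit 201165256383874294671107686400)), (.ofNat (nat_lit 0)), (.ofNat (nat_lit 3094850098213450687247810560)), (.negSucc (nat_lit 167772175)), (.negSucc (nat_lit 167772143)), (.negSucc (nat_lit 1199038364791120855039)), (.ofNat (nat_lit 1199038364791120855040)), (.negSucc (nat_lit 1199038364791120855039)), (.ofNat (nat_lit 1199038364791120855040)), (.ofNat (nat_lit 110680464442257309696))⟩,
    ⟨nat_lit 0, nat_lit 1, nat_lit 2, (.ofNat (nat_lit 8)), (.negSucc (nat_lit 100663295)), (.ofNat (nat_lit 281631358937424012539550760960)), (.ofNat (nat_lit 0)), (.ofNat (nat_lit 4332790137498830962146934784)), (.negSucc (nat_lit 100663311)), (.negSucc (nat_lit 100663279)), (.ofNat (nat_lit 1199038364791120855040)), (.negSucc (nat_lit 1199038364791120855039)), (.negSucc (nat_lit 1199038364791120855039)), (.ofNat (nat_lit 1199038364791120855040)), (.ofNat (nat_lit 110680464442257309696))⟩,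
    ⟨nat_lit 0, nat_lit 2, nat_lit 3, (.ofNat (nat_lit 8)), (.negSucc (nat_lit 33554431)), (.ofNat (nat_lit 201165256383874294671107686400)), (.ofNat (nat_lit 0)), (.ofNat (nat_lit 3094850098213450687247810560)), (.negSucc (nat_lit 33554447)), (.negSucc (nat_lit 33554415)), (.negSucc (nat_lit 1199038364791120855039)), (.ofNat (nat_lit 1199038364791120855040)), (.negSucc (nat_lit 1199038364791120855039)), (.ofNat (nat_lit 1199038364791120855040)), (.ofNat (nat_lit 110680464442257309696))⟩,
    ⟨nat_lit 1, nat_lit 3, nat_lit 4, (.ofNat (nat_lit 8)), (.ofNat (nat_lit 83886080)), (.ofNat (nat_lit 341980935852586300940883066880)), (.ofNat (nat_lit 0)), (.ofNat (nat_lit 5261245166962866168321277952)), (.ofNat (nat_lit 83886064)), (.ofNat (nat_lit 83886096)), (.ofNat (nat_lit 1199038364791120855040)), (.negSucc (nat_lit 1199038364791120855039)), (.negSucc (nat_lit 1199038364791120855039)), (.ofNat (nat_lit 1199038364791120855040)), (.ofNat (nat_lit 110680464442257309696))⟩,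
    ⟨nat_lit 0, nat_lit 5, nat_lit 4, (.ofNat (nat_lit 8)), (.ofNat (nat_lit 0)), (.ofNat (nat_lit 442563564044523448276436910080)), (.ofNat (nat_lit 0)), (.ofNat (nat_lit 6808670216069591511945183232)), (.negSucc (nat_lit 15)), (.ofNat (nat_lit 16)), (.ofNat (nat_lit 1199038364791120855040)), (.negSucc (nat_lit 1199038364791120855039)), (.negSucc (nat_lit 1199038364791120855039)), (.ofNat (nat_lit 1199038364791120855040)), (.ofNat (nat_lit 110680464442257309696))⟩,
    ⟨nat_lit 2, nat_lit 6, nat_lit 5, (.ofNat (nat_lit 8)), (.negSucc (nat_lit 167772159)), (.ofNat (nat_lit 241398307660649153605329223680)), (.ofNat (nat_lit 0)), (.ofNat (nat_lit 3713820117856140824697372672)), (.negSucc (nat_lit 167772175)), (.negSucc (nat_lit 167772143)), (.negSucc (nat_lit 1199038364791120855039)), (.ofNat (nat_lit 1199038364791120855040)), (.negSucc (nat_lit 1199038364791120855039)), (.ofNat (nat_lit 1199038364791120855040)), (.ofNat (nat_lit 110680464442257309696))⟩,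
    ⟨nat_lit 0, nat_lit 6, nat_lit 7, (.ofNat (nat_lit 8)), (.negSucc (nat_lit 117440511)), (.ofNat (nat_lit 181048730745486865203996917760)), (.ofNat (nat_lit 0)), (.ofNat (nat_lit 2785365088392105618523029504)), (.negSucc (nat_lit 117440527)), (.negSucc (nat_lit 117440495)), (.negSucc (nat_lit 1199038364791120855039)), (.ofNat (nat_lit 1199038364791120855040)), (.negSucc (nat_lit 1199038364791120855039)), (.ofNat (nat_lit 1199038364791120855040)), (.ofNat (nat_lit 110680464442257309696))⟩,
    ⟨nat_lit 0, nat_lit 7, nat_lit 8, (.ofNat (nat_lit 8)), (.negSucc (nat_lit 33554431)), (.ofNat (nat_lit 281631358937424012539550760960)), (.ofNat (nat_lit 0)), (.ofNat (nat_lit 4332790137498830962146934784)), (.negSucc (nat_lit 33554447)), (.negSucc (nat_lit 33554415)), (.ofNat (nat_lit 1199038364791120855040)), (.negSucc (nat_lit 1199038364791120855039)), (.negSucc (nat_lit 1199038364791120855039)), (.ofNat (nat_lit 1199038364791120855040)), (.ofNat (nat_lit 110680464442257309696))⟩,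
    ⟨nat_lit 0, nat_lit 8, nat_lit 9, (.ofNat (nat_lit 8)), (.ofNat (nat_lit 83886080)), (.ofNat (nat_lit 140815679468712006269775380480)), (.ofNat (nat_lit 0)), (.ofNat (nat_lit 2166395068749415481073467392)), (.ofNat (nat_lit 83886064)), (.ofNat (nat_lit 83886096)), (.negSucc (nat_lit 1199038364791120855039)), (.ofNat (nat_lit 1199038364791120855040)), (.negSucc (nat_lit 1199038364791120855039)), (.ofNat (nat_lit 1199038364791120855040)), (.ofNat (nat_lit 110680464442257309696))⟩,
    ⟨nat_lit 1, nat_lit 9, nat_lit 10, (.ofNat (nat_lit 8)), (.ofNat (nat_lit 150994944)), (.ofNat (nat_lit 221281782022261724138218455040)), (.ofNat (nat_lit 0)), (.ofNat (nat_lit 3404335108034795755972591616)), (.ofNat (nat_lit 150994928)), (.ofNat (nat_lit 150994960)), (.ofNat (nat_lit 1199038364791120855040)), (.negSucc (nat_lit 1199038364791120855039)), (.negSucc (nat_lit 1199038364791120855039)), (.ofNat (nat_lit 1199038364791120855040)), (.ofNat (nat_lit 110680464442257309696))⟩,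
    ⟨nat_lit 0, nat_lit 11, nat_lit 10, (.ofNat (nat_lit 8)), (.ofNat (nat_lit 100663296)), (.ofNat (nat_lit 281631358937424012539550760960)), (.ofNat (nat_lit 0)), (.ofNat (nat_lit 4332790137498830962146934784)), (.ofNat (nat_lit 100663280)), (.ofNat (nat_lit 100663312)), (.ofNat (nat_lit 1199038364791120855040)), (.negSucc (nat_lit 1199038364791120855039)), (.negSucc (nat_lit 1199038364791120855039)), (.ofNat (nat_lit 1199038364791120855040)), (.ofNat (nat_lit 110680464442257309696))⟩,
    ⟨nat_lit 2, nat_lit 12, nat_lit 11, (.ofNat (nat_lit 8)), (.ofNat (nat_lit 67108864)), (.ofNat (nat_lit 241398307660649153605329223680)), (.ofNat (nat_lit 0)), (.ofNat (nat_lit 3713820117856140824697372672)), (.ofNat (nat_lit 67108848)), (.ofNat (nat_lit 67108880)), (.negSucc (nat_lit 1199038364791120855039)), (.ofNat (nat_lit 1199038364791120855040)), (.negSucc (nat_lit 1199038364791120855039)), (.ofNat (nat_lit 1199038364791120855040)), (.ofNat (nat_lit 110680464442257309696))⟩,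
    ⟨nat_lit 1, nat_lit 13, nat_lit 12, (.ofNat (nat_lit 8)), (.ofNat (nat_lit 134217728)), (.ofNat (nat_lit 160932205107099435736886149120)), (.ofNat (nat_lit 0)), (.ofNat (nat_lit 2475880078570760549798248448)), (.ofNat (nat_lit 134217712)), (.ofNat (nat_lit 134217744)), (.ofNat (nat_lit 1199038364791120855040)), (.negSucc (nat_lit 1199038364791120855039)), (.negSucc (nat_lit 1199038364791120855039)), (.ofNat (nat_lit 1199038364791120855040)), (.ofNat (nat_lit 110680464442257309696))⟩,
    ⟨nat_lit 0, nat_lit 14, nat_lit 13, (.ofNat (nat_lit 8)), (.ofNat (nat_lit 83886080)), (.ofNat (nat_lit 100582628191937147335553843200)), (.ofNat (nat_lit 0)), (.ofNat (nat_lit 1547425049106725343623905280)), (.ofNat (nat_lit 83886064)), (.ofNat (nat_lit 83886096)), (.negSucc (nat_lit 1199038364791120855039)), (.ofNat (nat_lit 1199038364791120855040)), (.negSucc (nat_lit 1199038364791120855039)), (.ofNat (nat_lit 1199038364791120855040)), (.ofNat (nat_lit 110680464442257309696))⟩,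
    ⟨nat_lit 0, nat_lit 15, nat_lit 14, (.ofNat (nat_lit 8)), (.negSucc (nat_lit 33554431)), (.ofNat (nat_lit 241398307660649153605329223680)), (.ofNat (nat_lit 0)), (.ofNat (nat_lit 3713820117856140824697372672)), (.negSucc (nat_lit 33554447)), (.negSucc (nat_lit 33554415)), (.ofNat (nat_lit 1199038364791120855040)), (.negSucc (nat_lit 1199038364791120855039)), (.negSucc (nat_lit 1199038364791120855039)), (.ofNat (nat_lit 1199038364791120855040)), (.ofNat (nat_lit 110680464442257309696))⟩,
    ⟨nat_lit 2, nat_lit 16, nat_lit 15, (.ofNat (nat_lit 8)), (.negSucc (nat_lit 83886079)), (.ofNat (nat_lit 181048730745486865203996917760)), (.ofNat (nat_lit 0)), (.ofNat (nat_lit 2785365088392105618523029504)), (.negSucc (nat_lit 83886095)), (.negSucc (nat_lit 83886063)), (.negSucc (nat_lit 1199038364791120855039)), (.ofNat (nat_lit 1199038364791120855040)), (.negSucc (nat_lit 1199038364791120855039)), (.ofNat (nat_lit 1199038364791120855040)), (.ofNat (nat_lit 110680464442257309696))⟩,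
    ⟨nat_lit 0, nat_lit 16, nat_lit 17, (.ofNat (nat_lit 8)), (.negSucc (nat_lit 16777215)), (.ofNat (nat_lit 100582628191937147335553843200)), (.ofNat (nat_lit 0)), (.ofNat (nat_lit 1547425049106725343623905280)), (.negSucc (nat_lit 16777231)), (.negSucc (nat_lit 16777199)), (.negSucc (nat_lit 1199038364791120855039)), (.ofNat (nat_lit 1199038364791120855040)), (.negSucc (nat_lit 1199038364791120855039)), (.ofNat (nat_lit 1199038364791120855040)), (.ofNat (nat_lit 110680464442257309696))⟩,
    ⟨nat_lit 1, nat_lit 17, nat_lit 18, (.ofNat (nat_lit 8)), (.ofNat (nat_lit 100663296)), (.ofNat (nat_lit 241398307660649153605329223680)), (.ofNat (nat_lit 0)), (.ofNat (nat_lit 3713820117856140824697372672)), (.ofNat (nat_lit 100663280)), (.ofNat (nat_lit 100663312)), (.ofNat (nat_lit 1199038364791120855040)), (.negSucc (nat_lit 1199038364791120855039)), (.negSucc (nat_lit 1199038364791120855039)), (.ofNat (nat_lit 1199038364791120855040)), (.ofNat (nat_lit 110680464442257309696))⟩,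
    ⟨nat_lit 0, nat_lit 19, nat_lit 18, (.ofNat (nat_lit 8)), (.ofNat (nat_lit 67108864)), (.ofNat (nat_lit 281631358937424012539550760960)), (.ofNat (nat_lit 0)), (.ofNat (nat_lit 4332790137498830962146934784)), (.ofNat (nat_lit 67108848)), (.ofNat (nat_lit 67108880)), (.ofNat (nat_lit 1199038364791120855040)), (.negSucc (nat_lit 1199038364791120855039)), (.negSucc (nat_lit 1199038364791120855039)), (.ofNat (nat_lit 1199038364791120855040)), (.ofNat (nat_lit 110680464442257309696))⟩,
    ⟨nat_lit 0, nat_lit 20, nat_lit 19, (.ofNat (nat_lit 8)), (.negSucc (nat_lit 33554431)), (.ofNat (nat_lit 160932205107099435736886149120)), (.ofNat (nat_lit 0)), (.ofNat (nat_lit 2475880078570760549798248448)), (.negSucc (nat_lit 33554447)), (.negSucc (nat_lit 33554415)), (.negSucc (nat_lit 1199038364791120855039)), (.ofNat (nat_lit 1199038364791120855040)), (.negSucc (nat_lit 1199038364791120855039)), (.ofNat (nat_lit 1199038364791120855040)), (.ofNat (nat_lit 110680464442257309696))⟩,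
    ⟨nat_lit 2, nat_lit 20, nat_lit 21, (.ofNat (nat_lit 8)), (.negSucc (nat_lit 100663295)), (.ofNat (nat_lit 241398307660649153605329223680)), (.ofNat (nat_lit 0)), (.ofNat (nat_lit 3713820117856140824697372672)), (.negSucc (nat_lit 100663311)), (.negSucc (nat_lit 100663279)), (.negSucc (nat_lit 1199038364791120855039)), (.ofNat (nat_lit 1199038364791120855040)), (.negSucc (nat_lit 1199038364791120855039)), (.ofNat (nat_lit 1199038364791120855040)), (.ofNat (nat_lit 110680464442257309696))⟩,
    ⟨nat_lit 0, nat_lit 21, nat_lit 22, (.ofNat (nat_lit 8)), (.negSucc (nat_lit 33554431)), (.ofNat (nat_lit 321864410214198871473772298240)), (.ofNat (nat_lit 0)), (.ofNat (nat_lit 4951760157141521099596496896)), (.negSucc (nat_lit 33554447)), (.negSucc (nat_lit 33554415)), (.ofNat (nat_lit 1199038364791120855040)), (.negSucc (nat_lit 1199038364791120855039)), (.negSucc (nat_lit 1199038364791120855039)), (.ofNat (nat_lit 1199038364791120855040)), (.ofNat (nat_lit 110680464442257309696))⟩,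
    ⟨nat_lit 1, nat_lit 23, nat_lit 22, (.ofNat (nat_lit 8)), (.ofNat (nat_lit 83886080)), (.ofNat (nat_lit 181048730745486865203996917760)), (.ofNat (nat_lit 0)), (.ofNat (nat_lit 2785365088392105618523029504)), (.ofNat (nat_lit 83886064)), (.ofNat (nat_lit 83886096)), (.ofNat (nat_lit 1199038364791120855040)), (.negSucc (nat_lit 1199038364791120855039)), (.negSucc (nat_lit 1199038364791120855039)), (.ofNat (nat_lit 1199038364791120855040)), (.ofNat (nat_lit 110680464442257309696))⟩]
  es := [
    ⟨nat_lit 1, nat_lit 0, (.negSucc (nat_lit 167772159)), (.negSucc (nat_lit 33554431)), (.negSucc (nat_lit 167772143)), (.negSucc (nat_lit 33554447)), (.negSucc (nat_lit 1199038364791120855039)), (.negSucc (nat_lit 18446744073709551615)), (.ofNat (nat_lit 0))⟩,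
    ⟨nat_lit 1, nat_lit 2, (.negSucc (nat_lit 167772159)), (.negSucc (nat_lit 100663295)), (.negSucc (nat_lit 167772143)), (.negSucc (nat_lit 100663311)), (.ofNat (nat_lit 1199038364791120855040)), (.ofNat (nat_lit 18446744073709551616)), (.ofNat (nat_lit 6189700196426901374495621120))⟩,
    ⟨nat_lit 2, nat_lit 3, (.negSucc (nat_lit 100663295)), (.negSucc (nat_lit 33554431)), (.negSucc (nat_lit 100663279)), (.negSucc (nat_lit 33554447)), (.negSucc (nat_lit 1199038364791120855039)), (.negSucc (nat_lit 18446744073709551615)), (.ofNat (nat_lit 2475880078570760549798248448))⟩,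
    ⟨nat_lit 3, nat_lit 4, (.negSucc (nat_lit 33554431)), (.ofNat (nat_lit 83886080)), (.negSucc (nat_lit 33554415)), (.ofNat (nat_lit 83886064)), (.ofNat (nat_lit 1199038364791120855040)), (.ofNat (nat_lit 18446744073709551616)), (.ofNat (nat_lit 3713820117856140824697372672))⟩,
    ⟨nat_lit 5, nat_lit 4, (.ofNat (nat_lit 0)), (.ofNat (nat_lit 83886080)), (.ofNat (nat_lit 16)), (.ofNat (nat_lit 83886064)), (.negSucc (nat_lit 1199038364791120855039)), (.negSucc (nat_lit 18446744073709551615)), (.ofNat (nat_lit 6808670216069591511945183232))⟩,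
    ⟨nat_lit 6, nat_lit 5, (.negSucc (nat_lit 167772159)), (.ofNat (nat_lit 0)), (.negSucc (nat_lit 167772143)), (.negSucc (nat_lit 15)), (.ofNat (nat_lit 1199038364791120855040)), (.ofNat (nat_lit 18446744073709551616)), (.ofNat (nat_lit 6808670216069591511945183232))⟩,
    ⟨nat_lit 6, nat_lit 7, (.negSucc (nat_lit 167772159)), (.negSucc (nat_lit 117440511)), (.negSucc (nat_lit 167772143)), (.negSucc (nat_lit 117440527)), (.negSucc (nat_lit 1199038364791120855039)), (.negSucc (nat_lit 18446744073709551615)), (.ofNat (nat_lit 618970019642690137449562112))⟩,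
    ⟨nat_lit 7, nat_lit 8, (.negSucc (nat_lit 117440511)), (.negSucc (nat_lit 33554431)), (.negSucc (nat_lit 117440495)), (.negSucc (nat_lit 33554447)), (.ofNat (nat_lit 1199038364791120855040)), (.ofNat (nat_lit 18446744073709551616)), (.ofNat (nat_lit 4951760157141521099596496896))⟩,
    ⟨nat_lit 8, nat_lit 9, (.negSucc (nat_lit 33554431)), (.ofNat (nat_lit 83886080)), (.negSucc (nat_lit 33554415)), (.ofNat (nat_lit 83886064)), (.negSucc (nat_lit 1199038364791120855039)), (.negSucc (nat_lit 18446744073709551615)), (.ofNat (nat_lit 3713820117856140824697372672))⟩,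
    ⟨nat_lit 9, nat_lit 10, (.ofNat (nat_lit 83886080)), (.ofNat (nat_lit 150994944)), (.ofNat (nat_lit 83886096)), (.ofNat (nat_lit 150994928)), (.ofNat (nat_lit 1199038364791120855040)), (.ofNat (nat_lit 18446744073709551616)), (.ofNat (nat_lit 618970019642690137449562112))⟩,
    ⟨nat_lit 11, nat_lit 10, (.ofNat (nat_lit 100663296)), (.ofNat (nat_lit 150994944)), (.ofNat (nat_lit 100663312)), (.ofNat (nat_lit 150994928)), (.negSucc (nat_lit 1199038364791120855039)), (.negSucc (nat_lit 18446744073709551615)), (.ofNat (nat_lit 6189700196426901374495621120))⟩,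
    ⟨nat_lit 12, nat_lit 11, (.ofNat (nat_lit 67108864)), (.ofNat (nat_lit 100663296)), (.ofNat (nat_lit 67108880)), (.ofNat (nat_lit 100663280)), (.ofNat (nat_lit 1199038364791120855040)), (.ofNat (nat_lit 18446744073709551616)), (.ofNat (nat_lit 2475880078570760549798248448))⟩,
    ⟨nat_lit 12, nat_lit 13, (.ofNat (nat_lit 67108864)), (.ofNat (nat_lit 134217728)), (.ofNat (nat_lit 67108880)), (.ofNat (nat_lit 134217712)), (.negSucc (nat_lit 1199038364791120855039)), (.negSucc (nat_lit 18446744073709551615)), (.ofNat (nat_lit 4951760157141521099596496896))⟩,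
    ⟨nat_lit 14, nat_lit 13, (.ofNat (nat_lit 83886080)), (.ofNat (nat_lit 134217728)), (.ofNat (nat_lit 83886096)), (.ofNat (nat_lit 134217712)), (.ofNat (nat_lit 1199038364791120855040)), (.ofNat (nat_lit 18446744073709551616)), (.ofNat (nat_lit 0))⟩,
    ⟨nat_lit 15, nat_lit 14, (.negSucc (nat_lit 33554431)), (.ofNat (nat_lit 83886080)), (.negSucc (nat_lit 33554415)), (.ofNat (nat_lit 83886064)), (.negSucc (nat_lit 1199038364791120855039)), (.negSucc (nat_lit 18446744073709551615)), (.ofNat (nat_lit 3094850098213450687247810560))⟩,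
    ⟨nat_lit 16, nat_lit 15, (.negSucc (nat_lit 83886079)), (.negSucc (nat_lit 33554431)), (.negSucc (nat_lit 83886063)), (.negSucc (nat_lit 33554447)), (.ofNat (nat_lit 1199038364791120855040)), (.ofNat (nat_lit 18446744073709551616)), (.ofNat (nat_lit 4332790137498830962146934784))⟩,
    ⟨nat_lit 16, nat_lit 17, (.negSucc (nat_lit 83886079)), (.negSucc (nat_lit 16777215)), (.negSucc (nat_lit 83886063)), (.negSucc (nat_lit 16777231)), (.negSucc (nat_lit 1199038364791120855039)), (.negSucc (nat_lit 18446744073709551615)), (.ofNat (nat_lit 1237940039285380274899124224))⟩,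
    ⟨nat_lit 17, nat_lit 18, (.negSucc (nat_lit 16777215)), (.ofNat (nat_lit 100663296)), (.negSucc (nat_lit 16777199)), (.ofNat (nat_lit 100663280)), (.ofNat (nat_lit 1199038364791120855040)), (.ofNat (nat_lit 18446744073709551616)), (.ofNat (nat_lit 1856910058928070412348686336))⟩,
    ⟨nat_lit 19, nat_lit 18, (.ofNat (nat_lit 67108864)), (.ofNat (nat_lit 100663296)), (.ofNat (nat_lit 67108880)), (.ofNat (nat_lit 100663280)), (.negSucc (nat_lit 1199038364791120855039)), (.negSucc (nat_lit 18446744073709551615)), (.ofNat (nat_lit 5570730176784211237046059008))⟩,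
    ⟨nat_lit 20, nat_lit 19, (.negSucc (nat_lit 33554431)), (.ofNat (nat_lit 67108864)), (.negSucc (nat_lit 33554415)), (.ofNat (nat_lit 67108848)), (.ofNat (nat_lit 1199038364791120855040)), (.ofNat (nat_lit 18446744073709551616)), (.ofNat (nat_lit 3094850098213450687247810560))⟩,
    ⟨nat_lit 21, nat_lit 20, (.negSucc (nat_lit 100663295)), (.negSucc (nat_lit 33554431)), (.negSucc (nat_lit 100663279)), (.negSucc (nat_lit 33554447)), (.negSucc (nat_lit 1199038364791120855039)), (.negSucc (nat_lit 18446744073709551615)), (.ofNat (nat_lit 1856910058928070412348686336))⟩,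
    ⟨nat_lit 21, nat_lit 22, (.negSucc (nat_lit 100663295)), (.negSucc (nat_lit 33554431)), (.negSucc (nat_lit 100663279)), (.negSucc (nat_lit 33554447)), (.ofNat (nat_lit 1199038364791120855040)), (.ofNat (nat_lit 18446744073709551616)), (.ofNat (nat_lit 5570730176784211237046059008))⟩,
    ⟨nat_lit 22, nat_lit 23, (.negSucc (nat_lit 33554431)), (.ofNat (nat_lit 83886080)), (.negSucc (nat_lit 33554415)), (.ofNat (nat_lit 83886064)), (.negSucc (nat_lit 1199038364791120855039)), (.negSucc (nat_lit 18446744073709551615)), (.ofNat (nat_lit 4332790137498830962146934784))⟩,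
    ⟨nat_lit 0, nat_lit 23, (.negSucc (nat_lit 33554431)), (.ofNat (nat_lit 83886080)), (.negSucc (nat_lit 33554415)), (.ofNat (nat_lit 83886064)), (.ofNat (nat_lit 1199038364791120855040)), (.ofNat (nat_lit 18446744073709551616)), (.ofNat (nat_lit 1237940039285380274899124224))⟩]

theorem ok2 : stOK 23 23 S2 = true := by decide +kernel

def S3 : SD where
  vs := [
    ⟨nat_lit 0, nat_lit 0, nat_lit 23, (.ofNat (nat_lit 8)), (.negSucc (nat_lit 33554431)), (.ofNat (nat_lit 40233051276774858934221537280)), (.ofNat (nat_lit 0)), (.ofNat (nat_lit 618970019642690137449562112)), (.negSucc (nat_lit 33554447)), (.negSucc (nat_lit 33554415)), (.negSucc (nat_lit 1199038364791120855039)), (.ofNat (nat_lit 1199038364791120855040)), (.negSucc (nat_lit 1199038364791120855039)), (.ofNat (nat_lit 1199038364791120855040)), (.ofNat (nat_lit 110680464442257309696))⟩,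
    ⟨nat_lit 2, nat_lit 0, nat_lit 1, (.ofNat (nat_lit 8)), (.negSucc (nat_lit 167772159)), (.ofNat (nat_lit 201165256383874294671107686400)), (.ofNat (nat_lit 0)), (.ofNat (nat_lit 3094850098213450687247810560)), (.negSucc (nat_lit 167772175)), (.negSucc (nat_lit 167772143)), (.negSucc (nat_lit 1199038364791120855039)), (.ofNat (nat_lit 1199038364791120855040)), (.negSucc (nat_lit 1199038364791120855039)), (.ofNat (nat_lit 1199038364791120855040)), (.ofNat (nat_lit 110680464442257309696))⟩,
    ⟨nat_lit 0, nat_lit 1, nat_lit 2, (.ofNat (nat_lit 8)), (.negSucc (nat_lit 100663295)), (.ofNat (nat_lit 281631358937424012539550760960)), (.ofNat (nat_lit 0)), (.ofNat (nat_lit 4332790137498830962146934784)), (.negSucc (nat_lit 100663311)), (.negSucc (nat_lit 100663279)), (.ofNat (nat_lit 1199038364791120855040)), (.negSucc (nat_lit 1199038364791120855039)), (.negSucc (nat_lit 1199038364791120855039)), (.ofNat (nat_lit 1199038364791120855040)), (.ofNat (nat_lit 110680464442257309696))⟩,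
    ⟨nat_lit 0, nat_lit 2, nat_lit 3, (.ofNat (nat_lit 8)), (.negSucc (nat_lit 33554431)), (.ofNat (nat_lit 201165256383874294671107686400)), (.ofNat (nat_lit 0)), (.ofNat (nat_lit 3094850098213450687247810560)), (.negSucc (nat_lit 33554447)), (.negSucc (nat_lit 33554415)), (.negSucc (nat_lit 1199038364791120855039)), (.ofNat (nat_lit 1199038364791120855040)), (.negSucc (nat_lit 1199038364791120855039)), (.ofNat (nat_lit 1199038364791120855040)), (.ofNat (nat_lit 110680464442257309696))⟩,
    ⟨nat_lit 1, nat_lit 3, nat_lit 4, (.ofNat (nat_lit 8)), (.ofNat (nat_lit 83886080)), (.ofNat (nat_lit 341980935852586300940883066880)), (.ofNat (nat_lit 0)), (.ofNat (nat_lit 5261245166962866168321277952)), (.ofNat (nat_lit 83886064)), (.ofNat (nat_lit 83886096)), (.ofNat (nat_lit 1199038364791120855040)), (.negSucc (nat_lit 1199038364791120855039)), (.negSucc (nat_lit 1199038364791120855039)), (.ofNat (nat_lit 1199038364791120855040)), (.ofNat (nat_lit 110680464442257309696))⟩,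
    ⟨nat_lit 0, nat_lit 5, nat_lit 4, (.ofNat (nat_lit 8)), (.ofNat (nat_lit 0)), (.ofNat (nat_lit 442563564044523448276436910080)), (.ofNat (nat_lit 0)), (.ofNat (nat_lit 6808670216069591511945183232)), (.negSucc (nat_lit 15)), (.ofNat (nat_lit 16)), (.ofNat (nat_lit 1199038364791120855040)), (.negSucc (nat_lit 1199038364791120855039)), (.negSucc (nat_lit 1199038364791120855039)), (.ofNat (nat_lit 1199038364791120855040)), (.ofNat (nat_lit 110680464442257309696))⟩,
    ⟨nat_lit 2, nat_lit 6, nat_lit 5, (.ofNat (nat_lit 8)), (.negSucc (nat_lit 167772159)), (.ofNat (nat_lit 241398307660649153605329223680)), (.ofNat (nat_lit 0)), (.ofNat (nat_lit 3713820117856140824697372672)), (.negSucc (nat_lit 167772175)), (.negSucc (nat_lit 167772143)), (.negSucc (nat_lit 1199038364791120855039)), (.ofNat (nat_lit 1199038364791120855040)), (.negSucc (nat_lit 1199038364791120855039)), (.ofNat (nat_lit 1199038364791120855040)), (.ofNat (nat_lit 110680464442257309696))⟩,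
    ⟨nat_lit 0, nat_lit 6, nat_lit 7, (.ofNat (nat_lit 64)), (.negSucc (nat_lit 117440511)), (.ofNat (nat_lit 181048730745486865203996917760)), (.ofNat (nat_lit 0)), (.ofNat (nat_lit 2785365088392105618523029504)), (.negSucc (nat_lit 117440639)), (.negSucc (nat_lit 117440383)), (.negSucc (nat_lit 1199038364791120855039)), (.ofNat (nat_lit 1199038364791120855040)), (.negSucc (nat_lit 1199038364791120855039)), (.ofNat (nat_lit 1199038364791120855040)), (.ofNat (nat_lit 110680464442257309696))⟩,
    ⟨nat_lit 0, nat_lit 7, nat_lit 8, (.ofNat (nat_lit 8)), (.negSucc (nat_lit 33554431)), (.ofNat (nat_lit 281631358937424012539550760960)), (.ofNat (nat_lit 0)), (.ofNat (nat_lit 4332790137498830962146934784)), (.negSucc (nat_lit 33554447)), (.negSucc (nat_lit 33554415)), (.ofNat (nat_lit 1199038364791120855040)), (.negSucc (nat_lit 1199038364791120855039)), (.negSucc (nat_lit 1199038364791120855039)), (.ofNat (nat_lit 1199038364791120855040)), (.ofNat (nat_lit 110680464442257309696))⟩,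
    ⟨nat_lit 0, nat_lit 8, nat_lit 9, (.ofNat (nat_lit 8)), (.ofNat (nat_lit 83886080)), (.ofNat (nat_lit 140815679468712006269775380480)), (.ofNat (nat_lit 0)), (.ofNat (nat_lit 2166395068749415481073467392)), (.ofNat (nat_lit 83886064)), (.ofNat (nat_lit 83886096)), (.negSucc (nat_lit 1199038364791120855039)), (.ofNat (nat_lit 1199038364791120855040)), (.negSucc (nat_lit 1199038364791120855039)), (.ofNat (nat_lit 1199038364791120855040)), (.ofNat (nat_lit 110680464442257309696))⟩,
    ⟨nat_lit 1, nat_lit 9, nat_lit 10, (.ofNat (nat_lit 8)), (.ofNat (nat_lit 150994944)), (.ofNat (nat_lit 221281782022261724138218455040)), (.ofNat (nat_lit 0)), (.ofNat (nat_lit 3404335108034795755972591616)), (.ofNat (nat_lit 150994928)), (.ofNat (nat_lit 150994960)), (.ofNat (nat_lit 1199038364791120855040)), (.negSucc (nat_lit 1199038364791120855039)), (.negSucc (nat_lit 1199038364791120855039)), (.ofNat (nat_lit 1199038364791120855040)), (.ofNat (nat_lit 110680464442257309696))⟩,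
    ⟨nat_lit 0, nat_lit 11, nat_lit 10, (.ofNat (nat_lit 8)), (.ofNat (nat_lit 100663296)), (.ofNat (nat_lit 281631358937424012539550760960)), (.ofNat (nat_lit 0)), (.ofNat (nat_lit 4332790137498830962146934784)), (.ofNat (nat_lit 100663280)), (.ofNat (nat_lit 100663312)), (.ofNat (nat_lit 1199038364791120855040)), (.negSucc (nat_lit 1199038364791120855039)), (.negSucc (nat_lit 1199038364791120855039)), (.ofNat (nat_lit 1199038364791120855040)), (.ofNat (nat_lit 110680464442257309696))⟩,
    ⟨nat_lit 2, nat_lit 12, nat_lit 11, (.ofNat (nat_lit 8)), (.ofNat (nat_lit 67108864)), (.ofNat (nat_lit 241398307660649153605329223680)), (.ofNat (nat_lit 0)), (.ofNat (nat_lit 3713820117856140824697372672)), (.ofNat (nat_lit 67108848)), (.ofNat (nat_lit 67108880)), (.negSucc (nat_lit 1199038364791120855039)), (.ofNat (nat_lit 1199038364791120855040)), (.negSucc (nat_lit 1199038364791120855039)), (.ofNat (nat_lit 1199038364791120855040)), (.ofNat (nat_lit 110680464442257309696))⟩,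
    ⟨nat_lit 1, nat_lit 13, nat_lit 12, (.ofNat (nat_lit 8)), (.ofNat (nat_lit 134217728)), (.ofNat (nat_lit 160932205107099435736886149120)), (.ofNat (nat_lit 0)), (.ofNat (nat_lit 2475880078570760549798248448)), (.ofNat (nat_lit 134217712)), (.ofNat (nat_lit 134217744)), (.ofNat (nat_lit 1199038364791120855040)), (.negSucc (nat_lit 1199038364791120855039)), (.negSucc (nat_lit 1199038364791120855039)), (.ofNat (nat_lit 1199038364791120855040)), (.ofNat (nat_lit 110680464442257309696))⟩,
    ⟨nat_lit 0, nat_lit 14, nat_lit 13, (.ofNat (nat_lit 8)), (.ofNat (nat_lit 83886080)), (.ofNat (nat_lit 100582628191937147335553843200)), (.ofNat (nat_lit 0)), (.ofNat (nat_lit 1547425049106725343623905280)), (.ofNat (nat_lit 83886064)), (.ofNat (nat_lit 83886096)), (.negSucc (nat_lit 1199038364791120855039)), (.ofNat (nat_lit 1199038364791120855040)), (.negSucc (nat_lit 1199038364791120855039)), (.ofNat (nat_lit 1199038364791120855040)), (.ofNat (nat_lit 110680464442257309696))⟩,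
    ⟨nat_lit 0, nat_lit 15, nat_lit 14, (.ofNat (nat_lit 8)), (.negSucc (nat_lit 33554431)), (.ofNat (nat_lit 241398307660649153605329223680)), (.ofNat (nat_lit 0)), (.ofNat (nat_lit 3713820117856140824697372672)), (.negSucc (nat_lit 33554447)), (.negSucc (nat_lit 33554415)), (.ofNat (nat_lit 1199038364791120855040)), (.negSucc (nat_lit 1199038364791120855039)), (.negSucc (nat_lit 1199038364791120855039)), (.ofNat (nat_lit 1199038364791120855040)), (.ofNat (nat_lit 110680464442257309696))⟩,
    ⟨nat_lit 2, nat_lit 16, nat_lit 15, (.ofNat (nat_lit 8)), (.negSucc (nat_lit 83886079)), (.ofNat (nat_lit 181048730745486865203996917760)), (.ofNat (nat_lit 0)), (.ofNat (nat_lit 2785365088392105618523029504)), (.negSucc (nat_lit 83886095)), (.negSucc (nat_lit 83886063)), (.negSucc (nat_lit 1199038364791120855039)), (.ofNat (nat_lit 1199038364791120855040)), (.negSucc (nat_lit 1199038364791120855039)), (.ofNat (nat_lit 1199038364791120855040)), (.ofNat (nat_lit 110680464442257309696))⟩,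
    ⟨nat_lit 0, nat_lit 16, nat_lit 17, (.ofNat (nat_lit 8)), (.negSucc (nat_lit 16777215)), (.ofNat (nat_lit 100582628191937147335553843200)), (.ofNat (nat_lit 0)), (.ofNat (nat_lit 1547425049106725343623905280)), (.negSucc (nat_lit 16777231)), (.negSucc (nat_lit 16777199)), (.negSucc (nat_lit 1199038364791120855039)), (.ofNat (nat_lit 1199038364791120855040)), (.negSucc (nat_lit 1199038364791120855039)), (.ofNat (nat_lit 1199038364791120855040)), (.ofNat (nat_lit 110680464442257309696))⟩,
    ⟨nat_lit 1, nat_lit 17, nat_lit 18, (.ofNat (nat_lit 8)), (.ofNat (nat_lit 100663296)), (.ofNat (nat_lit 241398307660649153605329223680)), (.ofNat (nat_lit 0)), (.ofNat (nat_lit 3713820117856140824697372672)), (.ofNat (nat_lit 100663280)), (.ofNat (nat_lit 100663312)), (.ofNat (nat_lit 1199038364791120855040)), (.negSucc (nat_lit 1199038364791120855039)), (.negSucc (nat_lit 1199038364791120855039)), (.ofNat (nat_lit 1199038364791120855040)), (.ofNat (nat_lit 110680464442257309696))⟩,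
    ⟨nat_lit 0, nat_lit 19, nat_lit 18, (.ofNat (nat_lit 8)), (.ofNat (nat_lit 67108864)), (.ofNat (nat_lit 281631358937424012539550760960)), (.ofNat (nat_lit 0)), (.ofNat (nat_lit 4332790137498830962146934784)), (.ofNat (nat_lit 67108848)), (.ofNat (nat_lit 67108880)), (.ofNat (nat_lit 1199038364791120855040)), (.negSucc (nat_lit 1199038364791120855039)), (.negSucc (nat_lit 1199038364791120855039)), (.ofNat (nat_lit 1199038364791120855040)), (.ofNat (nat_lit 110680464442257309696))⟩,
    ⟨nat_lit 0, nat_lit 20, nat_lit 19, (.ofNat (nat_lit 8)), (.negSucc (nat_lit 33554431)), (.ofNat (nat_lit 160932205107099435736886149120)), (.ofNat (nat_lit 0)), (.ofNat (nat_lit 2475880078570760549798248448)), (.negSucc (nat_lit 33554447)), (.negSucc (nat_lit 33554415)), (.negSucc (nat_lit 1199038364791120855039)), (.ofNat (nat_lit 1199038364791120855040)), (.negSucc (nat_lit 1199038364791120855039)), (.ofNat (nat_lit 1199038364791120855040)), (.ofNat (nat_lit 110680464442257309696))⟩,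
    ⟨nat_lit 2, nat_lit 20, nat_lit 21, (.ofNat (nat_lit 8)), (.negSucc (nat_lit 100663295)), (.ofNat (nat_lit 241398307660649153605329223680)), (.ofNat (nat_lit 0)), (.ofNat (nat_lit 3713820117856140824697372672)), (.negSucc (nat_lit 100663311)), (.negSucc (nat_lit 100663279)), (.negSucc (nat_lit 1199038364791120855039)), (.ofNat (nat_lit 1199038364791120855040)), (.negSucc (nat_lit 1199038364791120855039)), (.ofNat (nat_lit 1199038364791120855040)), (.ofNat (nat_lit 110680464442257309696))⟩,
    ⟨nat_lit 0, nat_lit 21, nat_lit 22, (.ofNat (nat_lit 8)), (.negSucc (nat_lit 33554431)), (.ofNat (nat_lit 321864410214198871473772298240)), (.ofNat (nat_lit 0)), (.ofNat (nat_lit 4951760157141521099596496896)), (.negSucc (nat_lit 33554447)), (.negSucc (nat_lit 33554415)), (.ofNat (nat_lit 1199038364791120855040)), (.negSucc (nat_lit 1199038364791120855039)), (.negSucc (nat_lit 1199038364791120855039)), (.ofNat (nat_lit 1199038364791120855040)), (.ofNat (nat_lit 110680464442257309696))⟩,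
    ⟨nat_lit 1, nat_lit 23, nat_lit 22, (.ofNat (nat_lit 8)), (.ofNat (nat_lit 83886080)), (.ofNat (nat_lit 181048730745486865203996917760)), (.ofNat (nat_lit 0)), (.ofNat (nat_lit 2785365088392105618523029504)), (.ofNat (nat_lit 83886064)), (.ofNat (nat_lit 83886096)), (.ofNat (nat_lit 1199038364791120855040)), (.negSucc (nat_lit 1199038364791120855039)), (.negSucc (nat_lit 1199038364791120855039)), (.ofNat (nat_lit 1199038364791120855040)), (.ofNat (nat_lit 110680464442257309696))⟩]
  es := [
    ⟨nat_lit 1, nat_lit 0, (.negSucc (nat_lit 167772159)), (.negSucc (nat_lit 33554431)), (.negSucc (nat_lit 167772143)), (.negSucc (nat_lit 33554447)), (.negSucc (nat_lit 1199038364791120855039)), (.negSucc (nat_lit 18446744073709551615)), (.ofNat (nat_lit 0))⟩,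
    ⟨nat_lit 1, nat_lit 2, (.negSucc (nat_lit 167772159)), (.negSucc (nat_lit 100663295)), (.negSucc (nat_lit 167772143)), (.negSucc (nat_lit 100663311)), (.ofNat (nat_lit 1199038364791120855040)), (.ofNat (nat_lit 18446744073709551616)), (.ofNat (nat_lit 6189700196426901374495621120))⟩,
    ⟨nat_lit 2, nat_lit 3, (.negSucc (nat_lit 100663295)), (.negSucc (nat_lit 33554431)), (.negSucc (nat_lit 100663279)), (.negSucc (nat_lit 33554447)), (.negSucc (nat_lit 1199038364791120855039)), (.negSucc (nat_lit 18446744073709551615)), (.ofNat (nat_lit 2475880078570760549798248448))⟩,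
    ⟨nat_lit 3, nat_lit 4, (.negSucc (nat_lit 33554431)), (.ofNat (nat_lit 83886080)), (.negSucc (nat_lit 33554415)), (.ofNat (nat_lit 83886064)), (.ofNat (nat_lit 1199038364791120855040)), (.ofNat (nat_lit 18446744073709551616)), (.ofNat (nat_lit 3713820117856140824697372672))⟩,
    ⟨nat_lit 5, nat_lit 4, (.ofNat (nat_lit 0)), (.ofNat (nat_lit 83886080)), (.ofNat (nat_lit 16)), (.ofNat (nat_lit 83886064)), (.negSucc (nat_lit 1199038364791120855039)), (.negSucc (nat_lit 18446744073709551615)), (.ofNat (nat_lit 6808670216069591511945183232))⟩,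
    ⟨nat_lit 6, nat_lit 5, (.negSucc (nat_lit 167772159)), (.ofNat (nat_lit 0)), (.negSucc (nat_lit 167772143)), (.negSucc (nat_lit 15)), (.ofNat (nat_lit 1199038364791120855040)), (.ofNat (nat_lit 18446744073709551616)), (.ofNat (nat_lit 6808670216069591511945183232))⟩,
    ⟨nat_lit 6, nat_lit 7, (.negSucc (nat_lit 167772159)), (.negSucc (nat_lit 117440511)), (.negSucc (nat_lit 167772143)), (.negSucc (nat_lit 117440639)), (.negSucc (nat_lit 1199038364791120855039)), (.negSucc (nat_lit 18446744073709551615)), (.ofNat (nat_lit 618970019642690137449562112))⟩,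
    ⟨nat_lit 7, nat_lit 8, (.negSucc (nat_lit 117440511)), (.negSucc (nat_lit 33554431)), (.negSucc (nat_lit 117440383)), (.negSucc (nat_lit 33554447)), (.ofNat (nat_lit 1199038364791120855040)), (.ofNat (nat_lit 18446744073709551616)), (.ofNat (nat_lit 4951760157141521099596496896))⟩,
    ⟨nat_lit 8, nat_lit 9, (.negSucc (nat_lit 33554431)), (.ofNat (nat_lit 83886080)), (.negSucc (nat_lit 33554415)), (.ofNat (nat_lit 83886064)), (.negSucc (nat_lit 1199038364791120855039)), (.negSucc (nat_lit 18446744073709551615)), (.ofNat (nat_lit 3713820117856140824697372672))⟩,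
    ⟨nat_lit 9, nat_lit 10, (.ofNat (nat_lit 83886080)), (.ofNat (nat_lit 150994944)), (.ofNat (nat_lit 83886096)), (.ofNat (nat_lit 150994928)), (.ofNat (nat_lit 1199038364791120855040)), (.ofNat (nat_lit 18446744073709551616)), (.ofNat (nat_lit 618970019642690137449562112))⟩,
    ⟨nat_lit 11, nat_lit 10, (.ofNat (nat_lit 100663296)), (.ofNat (nat_lit 150994944)), (.ofNat (nat_lit 100663312)), (.ofNat (nat_lit 150994928)), (.negSucc (nat_lit 1199038364791120855039)), (.negSucc (nat_lit 18446744073709551615)), (.ofNat (nat_lit 6189700196426901374495621120))⟩,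
    ⟨nat_lit 12, nat_lit 11, (.ofNat (nat_lit 67108864)), (.ofNat (nat_lit 100663296)), (.ofNat (nat_lit 67108880)), (.ofNat (nat_lit 100663280)), (.ofNat (nat_lit 1199038364791120855040)), (.ofNat (nat_lit 18446744073709551616)), (.ofNat (nat_lit 2475880078570760549798248448))⟩,
    ⟨nat_lit 12, nat_lit 13, (.ofNat (nat_lit 67108864)), (.ofNat (nat_lit 134217728)), (.ofNat (nat_lit 67108880)), (.ofNat (nat_lit 134217712)), (.negSucc (nat_lit 1199038364791120855039)), (.negSucc (nat_lit 18446744073709551615)), (.ofNat (nat_lit 4951760157141521099596496896))⟩,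
    ⟨nat_lit 14, nat_lit 13, (.ofNat (nat_lit 83886080)), (.ofNat (nat_lit 134217728)), (.ofNat (nat_lit 83886096)), (.ofNat (nat_lit 134217712)), (.ofNat (nat_lit 1199038364791120855040)), (.ofNat (nat_lit 18446744073709551616)), (.ofNat (nat_lit 0))⟩,
    ⟨nat_lit 15, nat_lit 14, (.negSucc (nat_lit 33554431)), (.ofNat (nat_lit 83886080)), (.negSucc (nat_lit 33554415)), (.ofNat (nat_lit 83886064)), (.negSucc (nat_lit 1199038364791120855039)), (.negSucc (nat_lit 18446744073709551615)), (.ofNat (nat_lit 3094850098213450687247810560))⟩,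
    ⟨nat_lit 16, nat_lit 15, (.negSucc (nat_lit 83886079)), (.negSucc (nat_lit 33554431)), (.negSucc (nat_lit 83886063)), (.negSucc (nat_lit 33554447)), (.ofNat (nat_lit 1199038364791120855040)), (.ofNat (nat_lit 18446744073709551616)), (.ofNat (nat_lit 4332790137498830962146934784))⟩,
    ⟨nat_lit 16, nat_lit 17, (.negSucc (nat_lit 83886079)), (.negSucc (nat_lit 16777215)), (.negSucc (nat_lit 83886063)), (.negSucc (nat_lit 16777231)), (.negSucc (nat_lit 1199038364791120855039)), (.negSucc (nat_lit 18446744073709551615)), (.ofNat (nat_lit 1237940039285380274899124224))⟩,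
    ⟨nat_lit 17, nat_lit 18, (.negSucc (nat_lit 16777215)), (.ofNat (nat_lit 100663296)), (.negSucc (nat_lit 16777199)), (.ofNat (nat_lit 100663280)), (.ofNat (nat_lit 1199038364791120855040)), (.ofNat (nat_lit 18446744073709551616)), (.ofNat (nat_lit 1856910058928070412348686336))⟩,
    ⟨nat_lit 19, nat_lit 18, (.ofNat (nat_lit 67108864)), (.ofNat (nat_lit 100663296)), (.ofNat (nat_lit 67108880)), (.ofNat (nat_lit 100663280)), (.negSucc (nat_lit 1199038364791120855039)), (.negSucc (nat_lit 18446744073709551615)), (.ofNat (nat_lit 5570730176784211237046059008))⟩,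
    ⟨nat_lit 20, nat_lit 19, (.negSucc (nat_lit 33554431)), (.ofNat (nat_lit 67108864)), (.negSucc (nat_lit 33554415)), (.ofNat (nat_lit 67108848)), (.ofNat (nat_lit 1199038364791120855040)), (.ofNat (nat_lit 18446744073709551616)), (.ofNat (nat_lit 3094850098213450687247810560))⟩,
    ⟨nat_lit 21, nat_lit 20, (.negSucc (nat_lit 100663295)), (.negSucc (nat_lit 33554431)), (.negSucc (nat_lit 100663279)), (.negSucc (nat_lit 33554447)), (.negSucc (nat_lit 1199038364791120855039)), (.negSucc (nat_lit 18446744073709551615)), (.ofNat (nat_lit 1856910058928070412348686336))⟩,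
    ⟨nat_lit 21, nat_lit 22, (.negSucc (nat_lit 100663295)), (.negSucc (nat_lit 33554431)), (.negSucc (nat_lit 100663279)), (.negSucc (nat_lit 33554447)), (.ofNat (nat_lit 1199038364791120855040)), (.ofNat (nat_lit 18446744073709551616)), (.ofNat (nat_lit 5570730176784211237046059008))⟩,
    ⟨nat_lit 22, nat_lit 23, (.negSucc (nat_lit 33554431)), (.ofNat (nat_lit 83886080)), (.negSucc (nat_lit 33554415)), (.ofNat (nat_lit 83886064)), (.negSucc (nat_lit 1199038364791120855039)), (.negSucc (nat_lit 18446744073709551615)), (.ofNat (nat_lit 4332790137498830962146934784))⟩,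
    ⟨nat_lit 0, nat_lit 23, (.negSucc (nat_lit 33554431)), (.ofNat (nat_lit 83886080)), (.negSucc (nat_lit 33554415)), (.ofNat (nat_lit 83886064)), (.ofNat (nat_lit 1199038364791120855040)), (.ofNat (nat_lit 18446744073709551616)), (.ofNat (nat_lit 1237940039285380274899124224))⟩]

theorem ok3 : stOK 23 23 S3 = true := by decide +kernel

def S4 : SD where
  vs := [
    ⟨nat_lit 0, nat_lit 0, nat_lit 23, (.ofNat (nat_lit 8)), (.negSucc (nat_lit 33554431)), (.ofNat (nat_lit 40852021296417549071671099392)), (.ofNat (nat_lit 0)), (.ofNat (nat_lit 618970019642690137449562112)), (.negSucc (nat_lit 33554447)), (.negSucc (nat_lit 33554415)), (.negSucc (nat_lit 1217485108864830406655)), (.ofNat (nat_lit 1217485108864830406656)), (.negSucc (nat_lit 1217485108864830406655)), (.ofNat (nat_lit 1217485108864830406656)), (.ofNat (nat_lit 110680464442257309696))⟩,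
    ⟨nat_lit 2, nat_lit 0, nat_lit 1, (.ofNat (nat_lit 8)), (.negSucc (nat_lit 167772159)), (.ofNat (nat_lit 204260106482087745358355496960)), (.ofNat (nat_lit 0)), (.ofNat (nat_lit 3094850098213450687247810560)), (.negSucc (nat_lit 167772175)), (.negSucc (nat_lit 167772143)), (.negSucc (nat_lit 1217485108864830406655)), (.ofNat (nat_lit 1217485108864830406656)), (.negSucc (nat_lit 1217485108864830406655)), (.ofNat (nat_lit 1217485108864830406656)), (.ofNat (nat_lit 110680464442257309696))⟩,
    ⟨nat_lit 0, nat_lit 1, nat_lit 2, (.ofNat (nat_lit 8)), (.negSucc (nat_lit 100663295)), (.ofNat (nat_lit 285964149074922843501697695744)), (.ofNat (nat_lit 0)), (.ofNat (nat_lit 4332790137498830962146934784)), (.negSucc (nat_lit 100663311)), (.negSucc (nat_lit 100663279)), (.ofNat (nat_lit 1217485108864830406656)), (.negSucc (nat_lit 1217485108864830406655)), (.negSucc (nat_lit 1217485108864830406655)), (.ofNat (nat_lit 1217485108864830406656)), (.ofNat (nat_lit 110680464442257309696))⟩,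
    ⟨nat_lit 0, nat_lit 2, nat_lit 3, (.ofNat (nat_lit 8)), (.negSucc (nat_lit 33554431)), (.ofNat (nat_lit 204260106482087745358355496960)), (.ofNat (nat_lit 0)), (.ofNat (nat_lit 3094850098213450687247810560)), (.negSucc (nat_lit 33554447)), (.negSucc (nat_lit 33554415)), (.negSucc (nat_lit 1217485108864830406655)), (.ofNat (nat_lit 1217485108864830406656)), (.negSucc (nat_lit 1217485108864830406655)), (.ofNat (nat_lit 1217485108864830406656)), (.ofNat (nat_lit 110680464442257309696))⟩,
    ⟨nat_lit 1, nat_lit 3, nat_lit 4, (.ofNat (nat_lit 8)), (.ofNat (nat_lit 83886080)), (.ofNat (nat_lit 347242181019549167109204344832)), (.ofNat (nat_lit 0)), (.ofNat (nat_lit 5261245166962866168321277952)), (.ofNat (nat_lit 83886064)), (.ofNat (nat_lit 83886096)), (.ofNat (nat_lit 1217485108864830406656)), (.negSucc (nat_lit 1217485108864830406655)), (.negSucc (nat_lit 1217485108864830406655)), (.ofNat (nat_lit 1217485108864830406656)), (.ofNat (nat_lit 110680464442257309696))⟩,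
    ⟨nat_lit 0, nat_lit 5, nat_lit 4, (.ofNat (nat_lit 8)), (.ofNat (nat_lit 0)), (.ofNat (nat_lit 449372234260593039788382093312)), (.ofNat (nat_lit 0)), (.ofNat (nat_lit 6808670216069591511945183232)), (.negSucc (nat_lit 15)), (.ofNat (nat_lit 16)), (.ofNat (nat_lit 1217485108864830406656)), (.negSucc (nat_lit 1217485108864830406655)), (.negSucc (nat_lit 1217485108864830406655)), (.ofNat (nat_lit 1217485108864830406656)), (.ofNat (nat_lit 110680464442257309696))⟩,
    ⟨nat_lit 2, nat_lit 6, nat_lit 5, (.ofNat (nat_lit 8)), (.negSucc (nat_lit 167772159)), (.ofNat (nat_lit 245112127778505294430026596352)), (.ofNat (nat_lit 0)), (.ofNat (nat_lit 3713820117856140824697372672)), (.negSucc (nat_lit 167772175)), (.negSucc (nat_lit 167772143)), (.negSucc (nat_lit 1217485108864830406655)), (.ofNat (nat_lit 1217485108864830406656)), (.negSucc (nat_lit 1217485108864830406655)), (.ofNat (nat_lit 1217485108864830406656)), (.ofNat (nat_lit 110680464442257309696))⟩,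
    ⟨nat_lit 0, nat_lit 6, nat_lit 7, (.ofNat (nat_lit 64)), (.negSucc (nat_lit 117440511)), (.ofNat (nat_lit 183834095833878970822519947264)), (.ofNat (nat_lit 0)), (.ofNat (nat_lit 2785365088392105618523029504)), (.negSucc (nat_lit 117440639)), (.negSucc (nat_lit 117440383)), (.negSucc (nat_lit 1217485108864830406655)), (.ofNat (nat_lit 1217485108864830406656)), (.negSucc (nat_lit 1217485108864830406655)), (.ofNat (nat_lit 1217485108864830406656)), (.ofNat (nat_lit 110680464442257309696))⟩,
    ⟨nat_lit 0, nat_lit 7, nat_lit 8, (.ofNat (nat_lit 8)), (.negSucc (nat_lit 33554431)), (.ofNat (nat_lit 285964149074922843501697695744)), (.ofNat (nat_lit 0)), (.ofNat (nat_lit 4332790137498830962146934784)), (.negSucc (nat_lit 33554447)), (.negSucc (nat_lit 33554415)), (.ofNat (nat_lit 1217485108864830406656)), (.negSucc (nat_lit 1217485108864830406655)), (.negSucc (nat_lit 1217485108864830406655)), (.ofNat (nat_lit 1217485108864830406656)), (.ofNat (nat_lit 110680464442257309696))⟩,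
    ⟨nat_lit 0, nat_lit 8, nat_lit 9, (.ofNat (nat_lit 8)), (.ofNat (nat_lit 83886080)), (.ofNat (nat_lit 142982074537461421750848847872)), (.ofNat (nat_lit 0)), (.ofNat (nat_lit 2166395068749415481073467392)), (.ofNat (nat_lit 83886064)), (.ofNat (nat_lit 83886096)), (.negSucc (nat_lit 1217485108864830406655)), (.ofNat (nat_lit 1217485108864830406656)), (.negSucc (nat_lit 1217485108864830406655)), (.ofNat (nat_lit 1217485108864830406656)), (.ofNat (nat_lit 110680464442257309696))⟩,
    ⟨nat_lit 1, nat_lit 9, nat_lit 10, (.ofNat (nat_lit 8)), (.ofNat (nat_lit 150994944)), (.ofNat (nat_lit 224686117130296519894191046656)), (.ofNat (nat_lit 0)), (.ofNat (nat_lit 3404335108034795755972591616)), (.ofNat (nat_lit 150994928)), (.ofNat (nat_lit 150994960)), (.ofNat (nat_lit 1217485108864830406656)), (.negSucc (nat_lit 1217485108864830406655)), (.negSucc (nat_lit 1217485108864830406655)), (.ofNat (nat_lit 1217485108864830406656)), (.ofNat (nat_lit 110680464442257309696))⟩,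
    ⟨nat_lit 0, nat_lit 11, nat_lit 10, (.ofNat (nat_lit 8)), (.ofNat (nat_lit 100663296)), (.ofNat (nat_lit 285964149074922843501697695744)), (.ofNat (nat_lit 0)), (.ofNat (nat_lit 4332790137498830962146934784)), (.ofNat (nat_lit 100663280)), (.ofNat (nat_lit 100663312)), (.ofNat (nat_lit 1217485108864830406656)), (.negSucc (nat_lit 1217485108864830406655)), (.negSucc (nat_lit 1217485108864830406655)), (.ofNat (nat_lit 1217485108864830406656)), (.ofNat (nat_lit 110680464442257309696))⟩,
    ⟨nat_lit 2, nat_lit 12, nat_lit 11, (.ofNat (nat_lit 8)), (.ofNat (nat_lit 67108864)), (.ofNat (nat_lit 245112127778505294430026596352)), (.ofNat (nat_lit 0)), (.ofNat (nat_lit 3713820117856140824697372672)), (.ofNat (nat_lit 67108848)), (.ofNat (nat_lit 67108880)), (.negSucc (nat_lit 1217485108864830406655)), (.ofNat (nat_lit 1217485108864830406656)), (.negSucc (nat_lit 1217485108864830406655)), (.ofNat (nat_lit 1217485108864830406656)), (.ofNat (nat_lit 110680464442257309696))⟩,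
    ⟨nat_lit 1, nat_lit 13, nat_lit 12, (.ofNat (nat_lit 8)), (.ofNat (nat_lit 134217728)), (.ofNat (nat_lit 163408085185670196286684397568)), (.ofNat (nat_lit 0)), (.ofNat (nat_lit 2475880078570760549798248448)), (.ofNat (nat_lit 134217712)), (.ofNat (nat_lit 134217744)), (.ofNat (nat_lit 1217485108864830406656)), (.negSucc (nat_lit 1217485108864830406655)), (.negSucc (nat_lit 1217485108864830406655)), (.ofNat (nat_lit 1217485108864830406656)), (.ofNat (nat_lit 110680464442257309696))⟩,
    ⟨nat_lit 0, nat_lit 14, nat_lit 13, (.ofNat (nat_lit 8)), (.ofNat (nat_lit 83886080)), (.ofNat (nat_lit 102130053241043872679177748480)), (.ofNat (nat_lit 0)), (.ofNat (nat_lit 1547425049106725343623905280)), (.ofNat (nat_lit 83886064)), (.ofNat (nat_lit 83886096)), (.negSucc (nat_lit 1217485108864830406655)), (.ofNat (nat_lit 1217485108864830406656)), (.negSucc (nat_lit 1217485108864830406655)), (.ofNat (nat_lit 1217485108864830406656)), (.ofNat (nat_lit 110680464442257309696))⟩,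
    ⟨nat_lit 0, nat_lit 15, nat_lit 14, (.ofNat (nat_lit 8)), (.negSucc (nat_lit 33554431)), (.ofNat (nat_lit 245112127778505294430026596352)), (.ofNat (nat_lit 0)), (.ofNat (nat_lit 3713820117856140824697372672)), (.negSucc (nat_lit 33554447)), (.negSucc (nat_lit 33554415)), (.ofNat (nat_lit 1217485108864830406656)), (.negSucc (nat_lit 1217485108864830406655)), (.negSucc (nat_lit 1217485108864830406655)), (.ofNat (nat_lit 1217485108864830406656)), (.ofNat (nat_lit 110680464442257309696))⟩,
    ⟨nat_lit 2, nat_lit 16, nat_lit 15, (.ofNat (nat_lit 8)), (.negSucc (nat_lit 83886079)), (.ofNat (nat_lit 183834095833878970822519947264)), (.ofNat (nat_lit 0)), (.ofNat (nat_lit 2785365088392105618523029504)), (.negSucc (nat_lit 83886095)), (.negSucc (nat_lit 83886063)), (.negSucc (nat_lit 1217485108864830406655)), (.ofNat (nat_lit 1217485108864830406656)), (.negSucc (nat_lit 1217485108864830406655)), (.ofNat (nat_lit 1217485108864830406656)), (.ofNat (nat_lit 110680464442257309696))⟩,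
    ⟨nat_lit 0, nat_lit 16, nat_lit 17, (.ofNat (nat_lit 8)), (.negSucc (nat_lit 16777215)), (.ofNat (nat_lit 102130053241043872679177748480)), (.ofNat (nat_lit 0)), (.ofNat (nat_lit 1547425049106725343623905280)), (.negSucc (nat_lit 16777231)), (.negSucc (nat_lit 16777199)), (.negSucc (nat_lit 1217485108864830406655)), (.ofNat (nat_lit 1217485108864830406656)), (.negSucc (nat_lit 1217485108864830406655)), (.ofNat (nat_lit 1217485108864830406656)), (.ofNat (nat_lit 110680464442257309696))⟩,
    ⟨nat_lit 1, nat_lit 17, nat_lit 18, (.ofNat (nat_lit 8)), (.ofNat (nat_lit 100663296)), (.ofNat (nat_lit 245112127778505294430026596352)), (.ofNat (nat_lit 0)), (.ofNat (nat_lit 3713820117856140824697372672)), (.ofNat (nat_lit 100663280)), (.ofNat (nat_lit 100663312)), (.ofNat (nat_lit 1217485108864830406656)), (.negSucc (nat_lit 1217485108864830406655)), (.negSucc (nat_lit 1217485108864830406655)), (.ofNat (nat_lit 1217485108864830406656)), (.ofNat (nat_lit 110680464442257309696))⟩,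
    ⟨nat_lit 0, nat_lit 19, nat_lit 18, (.ofNat (nat_lit 8)), (.ofNat (nat_lit 67108864)), (.ofNat (nat_lit 285964149074922843501697695744)), (.ofNat (nat_lit 0)), (.ofNat (nat_lit 4332790137498830962146934784)), (.ofNat (nat_lit 67108848)), (.ofNat (nat_lit 67108880)), (.ofNat (nat_lit 1217485108864830406656)), (.negSucc (nat_lit 1217485108864830406655)), (.negSucc (nat_lit 1217485108864830406655)), (.ofNat (nat_lit 1217485108864830406656)), (.ofNat (nat_lit 110680464442257309696))⟩,
    ⟨nat_lit 0, nat_lit 20, nat_lit 19, (.ofNat (nat_lit 8)), (.negSucc (nat_lit 33554431)), (.ofNat (nat_lit 163408085185670196286684397568)), (.ofNat (nat_lit 0)), (.ofNat (nat_lit 2475880078570760549798248448)), (.negSucc (nat_lit 33554447)), (.negSucc (nat_lit 33554415)), (.negSucc (nat_lit 1217485108864830406655)), (.ofNat (nat_lit 1217485108864830406656)), (.negSucc (nat_lit 1217485108864830406655)), (.ofNat (nat_lit 1217485108864830406656)), (.ofNat (nat_lit 110680464442257309696))⟩,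
    ⟨nat_lit 2, nat_lit 20, nat_lit 21, (.ofNat (nat_lit 8)), (.negSucc (nat_lit 100663295)), (.ofNat (nat_lit 245112127778505294430026596352)), (.ofNat (nat_lit 0)), (.ofNat (nat_lit 3713820117856140824697372672)), (.negSucc (nat_lit 100663311)), (.negSucc (nat_lit 100663279)), (.negSucc (nat_lit 1217485108864830406655)), (.ofNat (nat_lit 1217485108864830406656)), (.negSucc (nat_lit 1217485108864830406655)), (.ofNat (nat_lit 1217485108864830406656)), (.ofNat (nat_lit 110680464442257309696))⟩,
    ⟨nat_lit 0, nat_lit 21, nat_lit 22, (.ofNat (nat_lit 8)), (.negSucc (nat_lit 33554431)), (.ofNat (nat_lit 326816170371340392573368795136)), (.ofNat (nat_lit 0)), (.ofNat (nat_lit 4951760157141521099596496896)), (.negSucc (nat_lit 33554447)), (.negSucc (nat_lit 33554415)), (.ofNat (nat_lit 1217485108864830406656)), (.negSucc (nat_lit 1217485108864830406655)), (.negSucc (nat_lit 1217485108864830406655)), (.ofNat (nat_lit 1217485108864830406656)), (.ofNat (nat_lit 110680464442257309696))⟩,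
    ⟨nat_lit 1, nat_lit 23, nat_lit 22, (.ofNat (nat_lit 8)), (.ofNat (nat_lit 83886080)), (.ofNat (nat_lit 183834095833878970822519947264)), (.ofNat (nat_lit 0)), (.ofNat (nat_lit 2785365088392105618523029504)), (.ofNat (nat_lit 83886064)), (.ofNat (nat_lit 83886096)), (.ofNat (nat_lit 1217485108864830406656)), (.negSucc (nat_lit 1217485108864830406655)), (.negSucc (nat_lit 1217485108864830406655)), (.ofNat (nat_lit 1217485108864830406656)), (.ofNat (nat_lit 110680464442257309696))⟩]
  es := [
    ⟨nat_lit 1, nat_lit 0, (.negSucc (nat_lit 167772159)), (.negSucc (nat_lit 33554431)), (.negSucc (nat_lit 167772143)), (.negSucc (nat_lit 33554447)), (.negSucc (nat_lit 1217485108864830406655)), (.negSucc (nat_lit 18446744073709551615)), (.ofNat (nat_lit 0))⟩,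
    ⟨nat_lit 1, nat_lit 2, (.negSucc (nat_lit 167772159)), (.negSucc (nat_lit 100663295)), (.negSucc (nat_lit 167772143)), (.negSucc (nat_lit 100663311)), (.ofNat (nat_lit 1217485108864830406656)), (.ofNat (nat_lit 18446744073709551616)), (.ofNat (nat_lit 6189700196426901374495621120))⟩,
    ⟨nat_lit 2, nat_lit 3, (.negSucc (nat_lit 100663295)), (.negSucc (nat_lit 33554431)), (.negSucc (nat_lit 100663279)), (.negSucc (nat_lit 33554447)), (.negSucc (nat_lit 1217485108864830406655)), (.negSucc (nat_lit 18446744073709551615)), (.ofNat (nat_lit 2475880078570760549798248448))⟩,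
    ⟨nat_lit 3, nat_lit 4, (.negSucc (nat_lit 33554431)), (.ofNat (nat_lit 83886080)), (.negSucc (nat_lit 33554415)), (.ofNat (nat_lit 83886064)), (.ofNat (nat_lit 1217485108864830406656)), (.ofNat (nat_lit 18446744073709551616)), (.ofNat (nat_lit 3713820117856140824697372672))⟩,
    ⟨nat_lit 5, nat_lit 4, (.ofNat (nat_lit 0)), (.ofNat (nat_lit 83886080)), (.ofNat (nat_lit 16)), (.ofNat (nat_lit 83886064)), (.negSucc (nat_lit 1217485108864830406655)), (.negSucc (nat_lit 18446744073709551615)), (.ofNat (nat_lit 6808670216069591511945183232))⟩,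
    ⟨nat_lit 6, nat_lit 5, (.negSucc (nat_lit 167772159)), (.ofNat (nat_lit 0)), (.negSucc (nat_lit 167772143)), (.negSucc (nat_lit 15)), (.ofNat (nat_lit 1217485108864830406656)), (.ofNat (nat_lit 18446744073709551616)), (.ofNat (nat_lit 6808670216069591511945183232))⟩,
    ⟨nat_lit 6, nat_lit 7, (.negSucc (nat_lit 167772159)), (.negSucc (nat_lit 117440511)), (.negSucc (nat_lit 167772143)), (.negSucc (nat_lit 117440639)), (.negSucc (nat_lit 1217485108864830406655)), (.negSucc (nat_lit 18446744073709551615)), (.ofNat (nat_lit 618970019642690137449562112))⟩,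
    ⟨nat_lit 7, nat_lit 8, (.negSucc (nat_lit 117440511)), (.negSucc (nat_lit 33554431)), (.negSucc (nat_lit 117440383)), (.negSucc (nat_lit 33554447)), (.ofNat (nat_lit 1217485108864830406656)), (.ofNat (nat_lit 18446744073709551616)), (.ofNat (nat_lit 4951760157141521099596496896))⟩,
    ⟨nat_lit 8, nat_lit 9, (.negSucc (nat_lit 33554431)), (.ofNat (nat_lit 83886080)), (.negSucc (nat_lit 33554415)), (.ofNat (nat_lit 83886064)), (.negSucc (nat_lit 1217485108864830406655)), (.negSucc (nat_lit 18446744073709551615)), (.ofNat (nat_lit 3713820117856140824697372672))⟩,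
    ⟨nat_lit 9, nat_lit 10, (.ofNat (nat_lit 83886080)), (.ofNat (nat_lit 150994944)), (.ofNat (nat_lit 83886096)), (.ofNat (nat_lit 150994928)), (.ofNat (nat_lit 1217485108864830406656)), (.ofNat (nat_lit 18446744073709551616)), (.ofNat (nat_lit 618970019642690137449562112))⟩,
    ⟨nat_lit 11, nat_lit 10, (.ofNat (nat_lit 100663296)), (.ofNat (nat_lit 150994944)), (.ofNat (nat_lit 100663312)), (.ofNat (nat_lit 150994928)), (.negSucc (nat_lit 1217485108864830406655)), (.negSucc (nat_lit 18446744073709551615)), (.ofNat (nat_lit 6189700196426901374495621120))⟩,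
    ⟨nat_lit 12, nat_lit 11, (.ofNat (nat_lit 67108864)), (.ofNat (nat_lit 100663296)), (.ofNat (nat_lit 67108880)), (.ofNat (nat_lit 100663280)), (.ofNat (nat_lit 1217485108864830406656)), (.ofNat (nat_lit 18446744073709551616)), (.ofNat (nat_lit 2475880078570760549798248448))⟩,
    ⟨nat_lit 12, nat_lit 13, (.ofNat (nat_lit 67108864)), (.ofNat (nat_lit 134217728)), (.ofNat (nat_lit 67108880)), (.ofNat (nat_lit 134217712)), (.negSucc (nat_lit 1217485108864830406655)), (.negSucc (nat_lit 18446744073709551615)), (.ofNat (nat_lit 4951760157141521099596496896))⟩,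
    ⟨nat_lit 14, nat_lit 13, (.ofNat (nat_lit 83886080)), (.ofNat (nat_lit 134217728)), (.ofNat (nat_lit 83886096)), (.ofNat (nat_lit 134217712)), (.ofNat (nat_lit 1217485108864830406656)), (.ofNat (nat_lit 18446744073709551616)), (.ofNat (nat_lit 0))⟩,
    ⟨nat_lit 15, nat_lit 14, (.negSucc (nat_lit 33554431)), (.ofNat (nat_lit 83886080)), (.negSucc (nat_lit 33554415)), (.ofNat (nat_lit 83886064)), (.negSucc (nat_lit 1217485108864830406655)), (.negSucc (nat_lit 18446744073709551615)), (.ofNat (nat_lit 3094850098213450687247810560))⟩,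
    ⟨nat_lit 16, nat_lit 15, (.negSucc (nat_lit 83886079)), (.negSucc (nat_lit 33554431)), (.negSucc (nat_lit 83886063)), (.negSucc (nat_lit 33554447)), (.ofNat (nat_lit 1217485108864830406656)), (.ofNat (nat_lit 18446744073709551616)), (.ofNat (nat_lit 4332790137498830962146934784))⟩,
    ⟨nat_lit 16, nat_lit 17, (.negSucc (nat_lit 83886079)), (.negSucc (nat_lit 16777215)), (.negSucc (nat_lit 83886063)), (.negSucc (nat_lit 16777231)), (.negSucc (nat_lit 1217485108864830406655)), (.negSucc (nat_lit 18446744073709551615)), (.ofNat (nat_lit 1237940039285380274899124224))⟩,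
    ⟨nat_lit 17, nat_lit 18, (.negSucc (nat_lit 16777215)), (.ofNat (nat_lit 100663296)), (.negSucc (nat_lit 16777199)), (.ofNat (nat_lit 100663280)), (.ofNat (nat_lit 1217485108864830406656)), (.ofNat (nat_lit 18446744073709551616)), (.ofNat (nat_lit 1856910058928070412348686336))⟩,
    ⟨nat_lit 19, nat_lit 18, (.ofNat (nat_lit 67108864)), (.ofNat (nat_lit 100663296)), (.ofNat (nat_lit 67108880)), (.ofNat (nat_lit 100663280)), (.negSucc (nat_lit 1217485108864830406655)), (.negSucc (nat_lit 18446744073709551615)), (.ofNat (nat_lit 5570730176784211237046059008))⟩,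
    ⟨nat_lit 20, nat_lit 19, (.negSucc (nat_lit 33554431)), (.ofNat (nat_lit 67108864)), (.negSucc (nat_lit 33554415)), (.ofNat (nat_lit 67108848)), (.ofNat (nat_lit 1217485108864830406656)), (.ofNat (nat_lit 18446744073709551616)), (.ofNat (nat_lit 3094850098213450687247810560))⟩,
    ⟨nat_lit 21, nat_lit 20, (.negSucc (nat_lit 100663295)), (.negSucc (nat_lit 33554431)), (.negSucc (nat_lit 100663279)), (.negSucc (nat_lit 33554447)), (.negSucc (nat_lit 1217485108864830406655)), (.negSucc (nat_lit 18446744073709551615)), (.ofNat (nat_lit 1856910058928070412348686336))⟩,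
    ⟨nat_lit 21, nat_lit 22, (.negSucc (nat_lit 100663295)), (.negSucc (nat_lit 33554431)), (.negSucc (nat_lit 100663279)), (.negSucc (nat_lit 33554447)), (.ofNat (nat_lit 1217485108864830406656)), (.ofNat (nat_lit 18446744073709551616)), (.ofNat (nat_lit 5570730176784211237046059008))⟩,
    ⟨nat_lit 22, nat_lit 23, (.negSucc (nat_lit 33554431)), (.ofNat (nat_lit 83886080)), (.negSucc (nat_lit 33554415)), (.ofNat (nat_lit 83886064)), (.negSucc (nat_lit 1217485108864830406655)), (.negSucc (nat_lit 18446744073709551615)), (.ofNat (nat_lit 4332790137498830962146934784))⟩,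
    ⟨nat_lit 0, nat_lit 23, (.negSucc (nat_lit 33554431)), (.ofNat (nat_lit 83886080)), (.negSucc (nat_lit 33554415)), (.ofNat (nat_lit 83886064)), (.ofNat (nat_lit 1217485108864830406656)), (.ofNat (nat_lit 18446744073709551616)), (.ofNat (nat_lit 1237940039285380274899124224))⟩]

theorem ok4 : stOK 23 23 S4 = true := by decide +kernel

def S5 : SD where
  vs := [
    ⟨nat_lit 0, nat_lit 0, nat_lit 23, (.ofNat (nat_lit 8)), (.negSucc (nat_lit 33554431)), (.ofNat (nat_lit 41470991316060239209120661504)), (.ofNat (nat_lit 0)), (.ofNat (nat_lit 618970019642690137449562112)), (.negSucc (nat_lit 33554447)), (.negSucc (nat_lit 33554415)), (.negSucc (nat_lit 1235931852938539958271)), (.ofNat (nat_lit 1235931852938539958272)), (.negSucc (nat_lit 1235931852938539958271)), (.ofNat (nat_lit 1235931852938539958272)), (.ofNat (nat_lit 110680464442257309696))⟩,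
    ⟨nat_lit 2, nat_lit 0, nat_lit 1, (.ofNat (nat_lit 8)), (.negSucc (nat_lit 167772159)), (.ofNat (nat_lit 207354956580301196045603307520)), (.ofNat (nat_lit 0)), (.ofNat (nat_lit 3094850098213450687247810560)), (.negSucc (nat_lit 167772175)), (.negSucc (nat_lit 167772143)), (.negSucc (nat_lit 1235931852938539958271)), (.ofNat (nat_lit 1235931852938539958272)), (.negSucc (nat_lit 1235931852938539958271)), (.ofNat (nat_lit 1235931852938539958272)), (.ofNat (nat_lit 110680464442257309696))⟩,
    ⟨nat_lit 0, nat_lit 1, nat_lit 2, (.ofNat (nat_lit 8)), (.negSucc (nat_lit 100663295)), (.ofNat (nat_lit 290296939212421674463844630528)), (.ofNat (nat_lit 0)), (.ofNat (nat_lit 4332790137498830962146934784)), (.negSucc (nat_lit 100663311)), (.negSucc (nat_lit 100663279)), (.ofNat (nat_lit 1235931852938539958272)), (.negSucc (nat_lit 1235931852938539958271)), (.negSucc (nat_lit 1235931852938539958271)), (.ofNat (nat_lit 1235931852938539958272)), (.ofNat (nat_lit 110680464442257309696))⟩,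
    ⟨nat_lit 0, nat_lit 2, nat_lit 3, (.ofNat (nat_lit 8)), (.negSucc (nat_lit 33554431)), (.ofNat (nat_lit 207354956580301196045603307520)), (.ofNat (nat_lit 0)), (.ofNat (nat_lit 3094850098213450687247810560)), (.negSucc (nat_lit 33554447)), (.negSucc (nat_lit 33554415)), (.negSucc (nat_lit 1235931852938539958271)), (.ofNat (nat_lit 1235931852938539958272)), (.negSucc (nat_lit 1235931852938539958271)), (.ofNat (nat_lit 1235931852938539958272)), (.ofNat (nat_lit 110680464442257309696))⟩,
    ⟨nat_lit 1, nat_lit 3, nat_lit 4, (.ofNat (nat_lit 8)), (.ofNat (nat_lit 83886080)), (.ofNat (nat_lit 352503426186512033277525622784)), (.ofNat (nat_lit 0)), (.ofNat (nat_lit 5261245166962866168321277952)), (.ofNat (nat_lit 83886064)), (.ofNat (nat_lit 83886096)), (.ofNat (nat_lit 1235931852938539958272)), (.negSucc (nat_lit 1235931852938539958271)), (.negSucc (nat_lit 1235931852938539958271)), (.ofNat (nat_lit 1235931852938539958272)), (.ofNat (nat_lit 110680464442257309696))⟩,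
    ⟨nat_lit 0, nat_lit 5, nat_lit 4, (.ofNat (nat_lit 8)), (.ofNat (nat_lit 0)), (.ofNat (nat_lit 456180904476662631300327276544)), (.ofNat (nat_lit 0)), (.ofNat (nat_lit 6808670216069591511945183232)), (.negSucc (nat_lit 15)), (.ofNat (nat_lit 16)), (.ofNat (nat_lit 1235931852938539958272)), (.negSucc (nat_lit 1235931852938539958271)), (.negSucc (nat_lit 1235931852938539958271)), (.ofNat (nat_lit 1235931852938539958272)), (.ofNat (nat_lit 110680464442257309696))⟩,
    ⟨nat_lit 2, nat_lit 6, nat_lit 5, (.ofNat (nat_lit 8)), (.negSucc (nat_lit 167772159)), (.ofNat (nat_lit 248825947896361435254723969024)), (.ofNat (nat_lit 0)), (.ofNat (nat_lit 3713820117856140824697372672)), (.negSucc (nat_lit 167772175)), (.negSucc (nat_lit 167772143)), (.negSucc (nat_lit 1235931852938539958271)), (.ofNat (nat_lit 1235931852938539958272)), (.negSucc (nat_lit 1235931852938539958271)), (.ofNat (nat_lit 1235931852938539958272)), (.ofNat (nat_lit 110680464442257309696))⟩,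
    ⟨nat_lit 0, nat_lit 6, nat_lit 7, (.ofNat (nat_lit 64)), (.negSucc (nat_lit 117440511)), (.ofNat (nat_lit 186619460922271076441042976768)), (.ofNat (nat_lit 0)), (.ofNat (nat_lit 2785365088392105618523029504)), (.negSucc (nat_lit 117440639)), (.negSucc (nat_lit 117440383)), (.negSucc (nat_lit 1235931852938539958271)), (.ofNat (nat_lit 1235931852938539958272)), (.negSucc (nat_lit 1235931852938539958271)), (.ofNat (nat_lit 1235931852938539958272)), (.ofNat (nat_lit 110680464442257309696))⟩,
    ⟨nat_lit 0, nat_lit 7, nat_lit 8, (.ofNat (nat_lit 8)), (.negSucc (nat_lit 33554431)), (.ofNat (nat_lit 290296939212421674463844630528)), (.ofNat (nat_lit 0)), (.ofNat (nat_lit 4332790137498830962146934784)), (.negSucc (nat_lit 33554447)), (.negSucc (nat_lit 33554415)), (.ofNat (nat_lit 1235931852938539958272)), (.negSucc (nat_lit 1235931852938539958271)), (.negSucc (nat_lit 1235931852938539958271)), (.ofNat (nat_lit 1235931852938539958272)), (.ofNat (nat_lit 110680464442257309696))⟩,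
    ⟨nat_lit 0, nat_lit 8, nat_lit 9, (.ofNat (nat_lit 8)), (.ofNat (nat_lit 83886080)), (.ofNat (nat_lit 145148469606210837231922315264)), (.ofNat (nat_lit 0)), (.ofNat (nat_lit 2166395068749415481073467392)), (.ofNat (nat_lit 83886064)), (.ofNat (nat_lit 83886096)), (.negSucc (nat_lit 1235931852938539958271)), (.ofNat (nat_lit 1235931852938539958272)), (.negSucc (nat_lit 1235931852938539958271)), (.ofNat (nat_lit 1235931852938539958272)), (.ofNat (nat_lit 110680464442257309696))⟩,
    ⟨nat_lit 1, nat_lit 9, nat_lit 10, (.ofNat (nat_lit 8)), (.ofNat (nat_lit 150994944)), (.ofNat (nat_lit 228090452238331315650163638272)), (.ofNat (nat_lit 0)), (.ofNat (nat_lit 3404335108034795755972591616)), (.ofNat (nat_lit 150994928)), (.ofNat (nat_lit 150994960)), (.ofNat (nat_lit 1235931852938539958272)), (.negSucc (nat_lit 1235931852938539958271)), (.negSucc (nat_lit 1235931852938539958271)), (.ofNat (nat_lit 1235931852938539958272)), (.ofNat (nat_lit 110680464442257309696))⟩,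
    ⟨nat_lit 0, nat_lit 11, nat_lit 10, (.ofNat (nat_lit 8)), (.ofNat (nat_lit 100663296)), (.ofNat (nat_lit 290296939212421674463844630528)), (.ofNat (nat_lit 0)), (.ofNat (nat_lit 4332790137498830962146934784)), (.ofNat (nat_lit 100663280)), (.ofNat (nat_lit 100663312)), (.ofNat (nat_lit 1235931852938539958272)), (.negSucc (nat_lit 1235931852938539958271)), (.negSucc (nat_lit 1235931852938539958271)), (.ofNat (nat_lit 1235931852938539958272)), (.ofNat (nat_lit 110680464442257309696))⟩,
    ⟨nat_lit 2, nat_lit 12, nat_lit 11, (.ofNat (nat_lit 8)), (.ofNat (nat_lit 67108864)), (.ofNat (nat_lit 248825947896361435254723969024)), (.ofNat (nat_lit 0)), (.ofNat (nat_lit 3713820117856140824697372672)), (.ofNat (nat_lit 67108848)), (.ofNat (nat_lit 67108880)), (.negSucc (nat_lit 1235931852938539958271)), (.ofNat (nat_lit 1235931852938539958272)), (.negSucc (nat_lit 1235931852938539958271)), (.ofNat (nat_lit 1235931852938539958272)), (.ofNat (nat_lit 110680464442257309696))⟩,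
    ⟨nat_lit 1, nat_lit 13, nat_lit 12, (.ofNat (nat_lit 8)), (.ofNat (nat_lit 134217728)), (.ofNat (nat_lit 165883965264240956836482646016)), (.ofNat (nat_lit 0)), (.ofNat (nat_lit 2475880078570760549798248448)), (.ofNat (nat_lit 134217712)), (.ofNat (nat_lit 134217744)), (.ofNat (nat_lit 1235931852938539958272)), (.negSucc (nat_lit 1235931852938539958271)), (.negSucc (nat_lit 1235931852938539958271)), (.ofNat (nat_lit 1235931852938539958272)), (.ofNat (nat_lit 110680464442257309696))⟩,
    ⟨nat_lit 0, nat_lit 14, nat_lit 13, (.ofNat (nat_lit 8)), (.ofNat (nat_lit 83886080)), (.ofNat (nat_lit 103677478290150598022801653760)), (.ofNat (nat_lit 0)), (.ofNat (nat_lit 1547425049106725343623905280)), (.ofNat (nat_lit 83886064)), (.ofNat (nat_lit 83886096)), (.negSucc (nat_lit 1235931852938539958271)), (.ofNat (nat_lit 1235931852938539958272)), (.negSucc (nat_lit 1235931852938539958271)), (.ofNat (nat_lit 1235931852938539958272)), (.ofNat (nat_lit 110680464442257309696))⟩,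
    ⟨nat_lit 0, nat_lit 15, nat_lit 14, (.ofNat (nat_lit 8)), (.negSucc (nat_lit 33554431)), (.ofNat (nat_lit 248825947896361435254723969024)), (.ofNat (nat_lit 0)), (.ofNat (nat_lit 3713820117856140824697372672)), (.negSucc (nat_lit 33554447)), (.negSucc (nat_lit 33554415)), (.ofNat (nat_lit 1235931852938539958272)), (.negSucc (nat_lit 1235931852938539958271)), (.negSucc (nat_lit 1235931852938539958271)), (.ofNat (nat_lit 1235931852938539958272)), (.ofNat (nat_lit 110680464442257309696))⟩,
    ⟨nat_lit 2, nat_lit 16, nat_lit 15, (.ofNat (nat_lit 8)), (.negSucc (nat_lit 83886079)), (.ofNat (nat_lit 186619460922271076441042976768)), (.ofNat (nat_lit 0)), (.ofNat (nat_lit 2785365088392105618523029504)), (.negSucc (nat_lit 83886095)), (.negSucc (nat_lit 83886063)), (.negSucc (nat_lit 1235931852938539958271)), (.ofNat (nat_lit 1235931852938539958272)), (.negSucc (nat_lit 1235931852938539958271)), (.ofNat (nat_lit 1235931852938539958272)), (.ofNat (nat_lit 110680464442257309696))⟩,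
    ⟨nat_lit 0, nat_lit 16, nat_lit 17, (.ofNat (nat_lit 8)), (.negSucc (nat_lit 16777215)), (.ofNat (nat_lit 103677478290150598022801653760)), (.ofNat (nat_lit 0)), (.ofNat (nat_lit 1547425049106725343623905280)), (.negSucc (nat_lit 16777231)), (.negSucc (nat_lit 16777199)), (.negSucc (nat_lit 1235931852938539958271)), (.ofNat (nat_lit 1235931852938539958272)), (.negSucc (nat_lit 1235931852938539958271)), (.ofNat (nat_lit 1235931852938539958272)), (.ofNat (nat_lit 110680464442257309696))⟩,
    ⟨nat_lit 1, nat_lit 17, nat_lit 18, (.ofNat (nat_lit 8)), (.ofNat (nat_lit 100663296)), (.ofNat (nat_lit 248825947896361435254723969024)), (.ofNat (nat_lit 0)), (.ofNat (nat_lit 3713820117856140824697372672)), (.ofNat (nat_lit 100663280)), (.ofNat (nat_lit 100663312)), (.ofNat (nat_lit 1235931852938539958272)), (.negSucc (nat_lit 1235931852938539958271)), (.negSucc (nat_lit 1235931852938539958271)), (.ofNat (nat_lit 1235931852938539958272)), (.ofNat (nat_lit 110680464442257309696))⟩,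
    ⟨nat_lit 0, nat_lit 19, nat_lit 18, (.ofNat (nat_lit 8)), (.ofNat (nat_lit 67108864)), (.ofNat (nat_lit 290296939212421674463844630528)), (.ofNat (nat_lit 0)), (.ofNat (nat_lit 4332790137498830962146934784)), (.ofNat (nat_lit 67108848)), (.ofNat (nat_lit 67108880)), (.ofNat (nat_lit 1235931852938539958272)), (.negSucc (nat_lit 1235931852938539958271)), (.negSucc (nat_lit 1235931852938539958271)), (.ofNat (nat_lit 1235931852938539958272)), (.ofNat (nat_lit 110680464442257309696))⟩,
    ⟨nat_lit 0, nat_lit 20, nat_lit 19, (.ofNat (nat_lit 8)), (.negSucc (nat_lit 33554431)), (.ofNat (nat_lit 165883965264240956836482646016)), (.ofNat (nat_lit 0)), (.ofNat (nat_lit 2475880078570760549798248448)), (.negSucc (nat_lit 33554447)), (.negSucc (nat_lit 33554415)), (.negSucc (nat_lit 1235931852938539958271)), (.ofNat (nat_lit 1235931852938539958272)), (.negSucc (nat_lit 1235931852938539958271)), (.ofNat (nat_lit 1235931852938539958272)), (.ofNat (nat_lit 110680464442257309696))⟩,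
    ⟨nat_lit 2, nat_lit 20, nat_lit 21, (.ofNat (nat_lit 8)), (.negSucc (nat_lit 100663295)), (.ofNat (nat_lit 248825947896361435254723969024)), (.ofNat (nat_lit 0)), (.ofNat (nat_lit 3713820117856140824697372672)), (.negSucc (nat_lit 100663311)), (.negSucc (nat_lit 100663279)), (.negSucc (nat_lit 1235931852938539958271)), (.ofNat (nat_lit 1235931852938539958272)), (.negSucc (nat_lit 1235931852938539958271)), (.ofNat (nat_lit 1235931852938539958272)), (.ofNat (nat_lit 110680464442257309696))⟩,
    ⟨nat_lit 0, nat_lit 21, nat_lit 22, (.ofNat (nat_lit 8)), (.negSucc (nat_lit 33554431)), (.ofNat (nat_lit 331767930528481913672965292032)), (.ofNat (nat_lit 0)), (.ofNat (nat_lit 4951760157141521099596496896)), (.negSucc (nat_lit 33554447)), (.negSucc (nat_lit 33554415)), (.ofNat (nat_lit 1235931852938539958272)), (.negSucc (nat_lit 1235931852938539958271)), (.negSucc (nat_lit 1235931852938539958271)), (.ofNat (nat_lit 1235931852938539958272)), (.ofNat (nat_lit 110680464442257309696))⟩,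
    ⟨nat_lit 1, nat_lit 23, nat_lit 22, (.ofNat (nat_lit 8)), (.ofNat (nat_lit 83886080)), (.ofNat (nat_lit 186619460922271076441042976768)), (.ofNat (nat_lit 0)), (.ofNat (nat_lit 2785365088392105618523029504)), (.ofNat (nat_lit 83886064)), (.ofNat (nat_lit 83886096)), (.ofNat (nat_lit 1235931852938539958272)), (.negSucc (nat_lit 1235931852938539958271)), (.negSucc (nat_lit 1235931852938539958271)), (.ofNat (nat_lit 1235931852938539958272)), (.ofNat (nat_lit 110680464442257309696))⟩]
  es := [
    ⟨nat_lit 1, nat_lit 0, (.negSucc (nat_lit 167772159)), (.negSucc (nat_lit 33554431)), (.negSucc (nat_lit 167772143)), (.negSucc (nat_lit 33554447)), (.negSucc (nat_lit 1235931852938539958271)), (.negSucc (nat_lit 18446744073709551615)), (.ofNat (nat_lit 0))⟩,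
    ⟨nat_lit 1, nat_lit 2, (.negSucc (nat_lit 167772159)), (.negSucc (nat_lit 100663295)), (.negSucc (nat_lit 167772143)), (.negSucc (nat_lit 100663311)), (.ofNat (nat_lit 1235931852938539958272)), (.ofNat (nat_lit 18446744073709551616)), (.ofNat (nat_lit 6189700196426901374495621120))⟩,
    ⟨nat_lit 2, nat_lit 3, (.negSucc (nat_lit 100663295)), (.negSucc (nat_lit 33554431)), (.negSucc (nat_lit 100663279)), (.negSucc (nat_lit 33554447)), (.negSucc (nat_lit 1235931852938539958271)), (.negSucc (nat_lit 18446744073709551615)), (.ofNat (nat_lit 2475880078570760549798248448))⟩,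
    ⟨nat_lit 3, nat_lit 4, (.negSucc (nat_lit 33554431)), (.ofNat (nat_lit 83886080)), (.negSucc (nat_lit 33554415)), (.ofNat (nat_lit 83886064)), (.ofNat (nat_lit 1235931852938539958272)), (.ofNat (nat_lit 18446744073709551616)), (.ofNat (nat_lit 3713820117856140824697372672))⟩,
    ⟨nat_lit 5, nat_lit 4, (.ofNat (nat_lit 0)), (.ofNat (nat_lit 83886080)), (.ofNat (nat_lit 16)), (.ofNat (nat_lit 83886064)), (.negSucc (nat_lit 1235931852938539958271)), (.negSucc (nat_lit 18446744073709551615)), (.ofNat (nat_lit 6808670216069591511945183232))⟩,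
    ⟨nat_lit 6, nat_lit 5, (.negSucc (nat_lit 167772159)), (.ofNat (nat_lit 0)), (.negSucc (nat_lit 167772143)), (.negSucc (nat_lit 15)), (.ofNat (nat_lit 1235931852938539958272)), (.ofNat (nat_lit 18446744073709551616)), (.ofNat (nat_lit 6808670216069591511945183232))⟩,
    ⟨nat_lit 6, nat_lit 7, (.negSucc (nat_lit 167772159)), (.negSucc (nat_lit 117440511)), (.negSucc (nat_lit 167772143)), (.negSucc (nat_lit 117440639)), (.negSucc (nat_lit 1235931852938539958271)), (.negSucc (nat_lit 18446744073709551615)), (.ofNat (nat_lit 618970019642690137449562112))⟩,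
    ⟨nat_lit 7, nat_lit 8, (.negSucc (nat_lit 117440511)), (.negSucc (nat_lit 33554431)), (.negSucc (nat_lit 117440383)), (.negSucc (nat_lit 33554447)), (.ofNat (nat_lit 1235931852938539958272)), (.ofNat (nat_lit 18446744073709551616)), (.ofNat (nat_lit 4951760157141521099596496896))⟩,
    ⟨nat_lit 8, nat_lit 9, (.negSucc (nat_lit 33554431)), (.ofNat (nat_lit 83886080)), (.negSucc (nat_lit 33554415)), (.ofNat (nat_lit 83886064)), (.negSucc (nat_lit 1235931852938539958271)), (.negSucc (nat_lit 18446744073709551615)), (.ofNat (nat_lit 3713820117856140824697372672))⟩,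
    ⟨nat_lit 9, nat_lit 10, (.ofNat (nat_lit 83886080)), (.ofNat (nat_lit 150994944)), (.ofNat (nat_lit 83886096)), (.ofNat (nat_lit 150994928)), (.ofNat (nat_lit 1235931852938539958272)), (.ofNat (nat_lit 18446744073709551616)), (.ofNat (nat_lit 618970019642690137449562112))⟩,
    ⟨nat_lit 11, nat_lit 10, (.ofNat (nat_lit 100663296)), (.ofNat (nat_lit 150994944)), (.ofNat (nat_lit 100663312)), (.ofNat (nat_lit 150994928)), (.negSucc (nat_lit 1235931852938539958271)), (.negSucc (nat_lit 18446744073709551615)), (.ofNat (nat_lit 6189700196426901374495621120))⟩,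
    ⟨nat_lit 12, nat_lit 11, (.ofNat (nat_lit 67108864)), (.ofNat (nat_lit 100663296)), (.ofNat (nat_lit 67108880)), (.ofNat (nat_lit 100663280)), (.ofNat (nat_lit 1235931852938539958272)), (.ofNat (nat_lit 18446744073709551616)), (.ofNat (nat_lit 2475880078570760549798248448))⟩,
    ⟨nat_lit 12, nat_lit 13, (.ofNat (nat_lit 67108864)), (.ofNat (nat_lit 134217728)), (.ofNat (nat_lit 67108880)), (.ofNat (nat_lit 134217712)), (.negSucc (nat_lit 1235931852938539958271)), (.negSucc (nat_lit 18446744073709551615)), (.ofNat (nat_lit 4951760157141521099596496896))⟩,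
    ⟨nat_lit 14, nat_lit 13, (.ofNat (nat_lit 83886080)), (.ofNat (nat_lit 134217728)), (.ofNat (nat_lit 83886096)), (.ofNat (nat_lit 134217712)), (.ofNat (nat_lit 1235931852938539958272)), (.ofNat (nat_lit 18446744073709551616)), (.ofNat (nat_lit 0))⟩,
    ⟨nat_lit 15, nat_lit 14, (.negSucc (nat_lit 33554431)), (.ofNat (nat_lit 83886080)), (.negSucc (nat_lit 33554415)), (.ofNat (nat_lit 83886064)), (.negSucc (nat_lit 1235931852938539958271)), (.negSucc (nat_lit 18446744073709551615)), (.ofNat (nat_lit 3094850098213450687247810560))⟩,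
    ⟨nat_lit 16, nat_lit 15, (.negSucc (nat_lit 83886079)), (.negSucc (nat_lit 33554431)), (.negSucc (nat_lit 83886063)), (.negSucc (nat_lit 33554447)), (.ofNat (nat_lit 1235931852938539958272)), (.ofNat (nat_lit 18446744073709551616)), (.ofNat (nat_lit 4332790137498830962146934784))⟩,
    ⟨nat_lit 16, nat_lit 17, (.negSucc (nat_lit 83886079)), (.negSucc (nat_lit 16777215)), (.negSucc (nat_lit 83886063)), (.negSucc (nat_lit 16777231)), (.negSucc (nat_lit 1235931852938539958271)), (.negSucc (nat_lit 18446744073709551615)), (.ofNat (nat_lit 1237940039285380274899124224))⟩,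
    ⟨nat_lit 17, nat_lit 18, (.negSucc (nat_lit 16777215)), (.ofNat (nat_lit 100663296)), (.negSucc (nat_lit 16777199)), (.ofNat (nat_lit 100663280)), (.ofNat (nat_lit 1235931852938539958272)), (.ofNat (nat_lit 18446744073709551616)), (.ofNat (nat_lit 1856910058928070412348686336))⟩,
    ⟨nat_lit 19, nat_lit 18, (.ofNat (nat_lit 67108864)), (.ofNat (nat_lit 100663296)), (.ofNat (nat_lit 67108880)), (.ofNat (nat_lit 100663280)), (.negSucc (nat_lit 1235931852938539958271)), (.negSucc (nat_lit 18446744073709551615)), (.ofNat (nat_lit 5570730176784211237046059008))⟩,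
    ⟨nat_lit 20, nat_lit 19, (.negSucc (nat_lit 33554431)), (.ofNat (nat_lit 67108864)), (.negSucc (nat_lit 33554415)), (.ofNat (nat_lit 67108848)), (.ofNat (nat_lit 1235931852938539958272)), (.ofNat (nat_lit 18446744073709551616)), (.ofNat (nat_lit 3094850098213450687247810560))⟩,
    ⟨nat_lit 21, nat_lit 20, (.negSucc (nat_lit 100663295)), (.negSucc (nat_lit 33554431)), (.negSucc (nat_lit 100663279)), (.negSucc (nat_lit 33554447)), (.negSucc (nat_lit 1235931852938539958271)), (.negSucc (nat_lit 18446744073709551615)), (.ofNat (nat_lit 1856910058928070412348686336))⟩,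
    ⟨nat_lit 21, nat_lit 22, (.negSucc (nat_lit 100663295)), (.negSucc (nat_lit 33554431)), (.negSucc (nat_lit 100663279)), (.negSucc (nat_lit 33554447)), (.ofNat (nat_lit 1235931852938539958272)), (.ofNat (nat_lit 18446744073709551616)), (.ofNat (nat_lit 5570730176784211237046059008))⟩,
    ⟨nat_lit 22, nat_lit 23, (.negSucc (nat_lit 33554431)), (.ofNat (nat_lit 83886080)), (.negSucc (nat_lit 33554415)), (.ofNat (nat_lit 83886064)), (.negSucc (nat_lit 1235931852938539958271)), (.negSucc (nat_lit 18446744073709551615)), (.ofNat (nat_lit 4332790137498830962146934784))⟩,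
    ⟨nat_lit 0, nat_lit 23, (.negSucc (nat_lit 33554431)), (.ofNat (nat_lit 83886080)), (.negSucc (nat_lit 33554415)), (.ofNat (nat_lit 83886064)), (.ofNat (nat_lit 1235931852938539958272)), (.ofNat (nat_lit 18446744073709551616)), (.ofNat (nat_lit 1237940039285380274899124224))⟩]

theorem ok5 : stOK 23 23 S5 = true := by decide +kernel

def S6 : SD where
  vs := [
    ⟨nat_lit 0, nat_lit 0, nat_lit 23, (.ofNat (nat_lit 8)), (.negSucc (nat_lit 33554431)), (.ofNat (nat_lit 41470991316060239209120661504)), (.ofNat (nat_lit 0)), (.ofNat (nat_lit 618970019642690137449562112)), (.negSucc (nat_lit 33554447)), (.negSucc (nat_lit 33554415)), (.negSucc (nat_lit 1235931852938539958271)), (.ofNat (nat_lit 1235931852938539958272)), (.negSucc (nat_lit 1235931852938539958271)), (.ofNat (nat_lit 1235931852938539958272)), (.ofNat (nat_lit 110680464442257309696))⟩,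
    ⟨nat_lit 2, nat_lit 0, nat_lit 1, (.ofNat (nat_lit 8)), (.negSucc (nat_lit 167772159)), (.ofNat (nat_lit 207354956580301196045603307520)), (.ofNat (nat_lit 0)), (.ofNat (nat_lit 3094850098213450687247810560)), (.negSucc (nat_lit 167772175)), (.negSucc (nat_lit 167772143)), (.negSucc (nat_lit 1235931852938539958271)), (.ofNat (nat_lit 1235931852938539958272)), (.negSucc (nat_lit 1235931852938539958271)), (.ofNat (nat_lit 1235931852938539958272)), (.ofNat (nat_lit 110680464442257309696))⟩,
    ⟨nat_lit 0, nat_lit 1, nat_lit 2, (.ofNat (nat_lit 8)), (.negSucc (nat_lit 100663295)), (.ofNat (nat_lit 290296939212421674463844630528)), (.ofNat (nat_lit 0)), (.ofNat (nat_lit 4332790137498830962146934784)), (.negSucc (nat_lit 100663311)), (.negSucc (nat_lit 100663279)), (.ofNat (nat_lit 1235931852938539958272)), (.negSucc (nat_lit 1235931852938539958271)), (.negSucc (nat_lit 1235931852938539958271)), (.ofNat (nat_lit 1235931852938539958272)), (.ofNat (nat_lit 110680464442257309696))⟩,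
    ⟨nat_lit 0, nat_lit 2, nat_lit 3, (.ofNat (nat_lit 8)), (.negSucc (nat_lit 33554431)), (.ofNat (nat_lit 207354956580301196045603307520)), (.ofNat (nat_lit 0)), (.ofNat (nat_lit 3094850098213450687247810560)), (.negSucc (nat_lit 33554447)), (.negSucc (nat_lit 33554415)), (.negSucc (nat_lit 1235931852938539958271)), (.ofNat (nat_lit 1235931852938539958272)), (.negSucc (nat_lit 1235931852938539958271)), (.ofNat (nat_lit 1235931852938539958272)), (.ofNat (nat_lit 110680464442257309696))⟩,
    ⟨nat_lit 1, nat_lit 3, nat_lit 4, (.ofNat (nat_lit 8)), (.ofNat (nat_lit 83886080)), (.ofNat (nat_lit 352503426186512033277525622784)), (.ofNat (nat_lit 0)), (.ofNat (nat_lit 5261245166962866168321277952)), (.ofNat (nat_lit 83886064)), (.ofNat (nat_lit 83886096)), (.ofNat (nat_lit 1235931852938539958272)), (.negSucc (nat_lit 1235931852938539958271)), (.negSucc (nat_lit 1235931852938539958271)), (.ofNat (nat_lit 1235931852938539958272)), (.ofNat (nat_lit 110680464442257309696))⟩,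
    ⟨nat_lit 0, nat_lit 5, nat_lit 4, (.ofNat (nat_lit 8)), (.ofNat (nat_lit 0)), (.ofNat (nat_lit 456180904476662631300327276544)), (.ofNat (nat_lit 0)), (.ofNat (nat_lit 6808670216069591511945183232)), (.negSucc (nat_lit 15)), (.ofNat (nat_lit 16)), (.ofNat (nat_lit 1235931852938539958272)), (.negSucc (nat_lit 1235931852938539958271)), (.negSucc (nat_lit 1235931852938539958271)), (.ofNat (nat_lit 1235931852938539958272)), (.ofNat (nat_lit 110680464442257309696))⟩,
    ⟨nat_lit 2, nat_lit 6, nat_lit 5, (.ofNat (nat_lit 8)), (.negSucc (nat_lit 167772159)), (.ofNat (nat_lit 248825947896361435254723969024)), (.ofNat (nat_lit 0)), (.ofNat (nat_lit 3713820117856140824697372672)), (.negSucc (nat_lit 167772175)), (.negSucc (nat_lit 167772143)), (.negSucc (nat_lit 1235931852938539958271)), (.ofNat (nat_lit 1235931852938539958272)), (.negSucc (nat_lit 1235931852938539958271)), (.ofNat (nat_lit 1235931852938539958272)), (.ofNat (nat_lit 110680464442257309696))⟩,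
    ⟨nat_lit 1, nat_lit 6, nat_lit 24, (.ofNat (nat_lit 8)), (.negSucc (nat_lit 117440479)), (.ofNat (nat_lit 186619421372451782407764312064)), (.ofNat (nat_lit 0)), (.ofNat (nat_lit 2785364498096295259817377792)), (.negSucc (nat_lit 117440495)), (.negSucc (nat_lit 117440463)), (.negSucc (nat_lit 1235931852938539958271)), (.ofNat (nat_lit 0)), (.negSucc (nat_lit 1235931852938539958271)), (.ofNat (nat_lit 0)), (.ofNat (nat_lit 73786976294838206464))⟩,
    ⟨nat_lit 0, nat_lit 7, nat_lit 8, (.ofNat (nat_lit 8)), (.negSucc (nat_lit 33554431)), (.ofNat (nat_lit 290296939212421674463844630528)), (.ofNat (nat_lit 0)), (.ofNat (nat_lit 4332790137498830962146934784)), (.negSucc (nat_lit 33554447)), (.negSucc (nat_lit 33554415)), (.ofNat (nat_lit 1235931852938539958272)), (.negSucc (nat_lit 1235931852938539958271)), (.negSucc (nat_lit 1235931852938539958271)), (.ofNat (nat_lit 1235931852938539958272)), (.ofNat (nat_lit 110680464442257309696))⟩,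
    ⟨nat_lit 0, nat_lit 8, nat_lit 9, (.ofNat (nat_lit 8)), (.ofNat (nat_lit 83886080)), (.ofNat (nat_lit 145148469606210837231922315264)), (.ofNat (nat_lit 0)), (.ofNat (nat_lit 2166395068749415481073467392)), (.ofNat (nat_lit 83886064)), (.ofNat (nat_lit 83886096)), (.negSucc (nat_lit 1235931852938539958271)), (.ofNat (nat_lit 1235931852938539958272)), (.negSucc (nat_lit 1235931852938539958271)), (.ofNat (nat_lit 1235931852938539958272)), (.ofNat (nat_lit 110680464442257309696))⟩,
    ⟨nat_lit 1, nat_lit 9, nat_lit 10, (.ofNat (nat_lit 8)), (.ofNat (nat_lit 150994944)), (.ofNat (nat_lit 228090452238331315650163638272)), (.ofNat (nat_lit 0)), (.ofNat (nat_lit 3404335108034795755972591616)), (.ofNat (nat_lit 150994928)), (.ofNat (nat_lit 150994960)), (.ofNat (nat_lit 1235931852938539958272)), (.negSucc (nat_lit 1235931852938539958271)), (.negSucc (nat_lit 1235931852938539958271)), (.ofNat (nat_lit 1235931852938539958272)), (.ofNat (nat_lit 110680464442257309696))⟩,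
    ⟨nat_lit 0, nat_lit 11, nat_lit 10, (.ofNat (nat_lit 8)), (.ofNat (nat_lit 100663296)), (.ofNat (nat_lit 290296939212421674463844630528)), (.ofNat (nat_lit 0)), (.ofNat (nat_lit 4332790137498830962146934784)), (.ofNat (nat_lit 100663280)), (.ofNat (nat_lit 100663312)), (.ofNat (nat_lit 1235931852938539958272)), (.negSucc (nat_lit 1235931852938539958271)), (.negSucc (nat_lit 1235931852938539958271)), (.ofNat (nat_lit 1235931852938539958272)), (.ofNat (nat_lit 110680464442257309696))⟩,
    ⟨nat_lit 2, nat_lit 12, nat_lit 11, (.ofNat (nat_lit 8)), (.ofNat (nat_lit 67108864)), (.ofNat (nat_lit 248825947896361435254723969024)), (.ofNat (nat_lit 0)), (.ofNat (nat_lit 3713820117856140824697372672)), (.ofNat (nat_lit 67108848)), (.ofNat (nat_lit 67108880)), (.negSucc (nat_lit 1235931852938539958271)), (.ofNat (nat_lit 1235931852938539958272)), (.negSucc (nat_lit 1235931852938539958271)), (.ofNat (nat_lit 1235931852938539958272)), (.ofNat (nat_lit 110680464442257309696))⟩,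
    ⟨nat_lit 1, nat_lit 13, nat_lit 12, (.ofNat (nat_lit 8)), (.ofNat (nat_lit 134217728)), (.ofNat (nat_lit 165883965264240956836482646016)), (.ofNat (nat_lit 0)), (.ofNat (nat_lit 2475880078570760549798248448)), (.ofNat (nat_lit 134217712)), (.ofNat (nat_lit 134217744)), (.ofNat (nat_lit 1235931852938539958272)), (.negSucc (nat_lit 1235931852938539958271)), (.negSucc (nat_lit 1235931852938539958271)), (.ofNat (nat_lit 1235931852938539958272)), (.ofNat (nat_lit 110680464442257309696))⟩,
    ⟨nat_lit 0, nat_lit 14, nat_lit 13, (.ofNat (nat_lit 8)), (.ofNat (nat_lit 83886080)), (.ofNat (nat_lit 103677478290150598022801653760)), (.ofNat (nat_lit 0)), (.ofNat (nat_lit 1547425049106725343623905280)), (.ofNat (nat_lit 83886064)), (.ofNat (nat_lit 83886096)), (.negSucc (nat_lit 1235931852938539958271)), (.ofNat (nat_lit 1235931852938539958272)), (.negSucc (nat_lit 1235931852938539958271)), (.ofNat (nat_lit 1235931852938539958272)), (.ofNat (nat_lit 110680464442257309696))⟩,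
    ⟨nat_lit 0, nat_lit 15, nat_lit 14, (.ofNat (nat_lit 8)), (.negSucc (nat_lit 33554431)), (.ofNat (nat_lit 248825947896361435254723969024)), (.ofNat (nat_lit 0)), (.ofNat (nat_lit 3713820117856140824697372672)), (.negSucc (nat_lit 33554447)), (.negSucc (nat_lit 33554415)), (.ofNat (nat_lit 1235931852938539958272)), (.negSucc (nat_lit 1235931852938539958271)), (.negSucc (nat_lit 1235931852938539958271)), (.ofNat (nat_lit 1235931852938539958272)), (.ofNat (nat_lit 110680464442257309696))⟩,
    ⟨nat_lit 2, nat_lit 16, nat_lit 15, (.ofNat (nat_lit 8)), (.negSucc (nat_lit 83886079)), (.ofNat (nat_lit 186619460922271076441042976768)), (.ofNat (nat_lit 0)), (.ofNat (nat_lit 2785365088392105618523029504)), (.negSucc (nat_lit 83886095)), (.negSucc (nat_lit 83886063)), (.negSucc (nat_lit 1235931852938539958271)), (.ofNat (nat_lit 1235931852938539958272)), (.negSucc (nat_lit 1235931852938539958271)), (.ofNat (nat_lit 1235931852938539958272)), (.ofNat (nat_lit 110680464442257309696))⟩,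
    ⟨nat_lit 0, nat_lit 16, nat_lit 17, (.ofNat (nat_lit 8)), (.negSucc (nat_lit 16777215)), (.ofNat (nat_lit 103677478290150598022801653760)), (.ofNat (nat_lit 0)), (.ofNat (nat_lit 1547425049106725343623905280)), (.negSucc (nat_lit 16777231)), (.negSucc (nat_lit 16777199)), (.negSucc (nat_lit 1235931852938539958271)), (.ofNat (nat_lit 1235931852938539958272)), (.negSucc (nat_lit 1235931852938539958271)), (.ofNat (nat_lit 1235931852938539958272)), (.ofNat (nat_lit 110680464442257309696))⟩,
    ⟨nat_lit 1, nat_lit 17, nat_lit 18, (.ofNat (nat_lit 8)), (.ofNat (nat_lit 100663296)), (.ofNat (nat_lit 248825947896361435254723969024)), (.ofNat (nat_lit 0)), (.ofNat (nat_lit 3713820117856140824697372672)), (.ofNat (nat_lit 100663280)), (.ofNat (nat_lit 100663312)), (.ofNat (nat_lit 1235931852938539958272)), (.negSucc (nat_lit 1235931852938539958271)), (.negSucc (nat_lit 1235931852938539958271)), (.ofNat (nat_lit 1235931852938539958272)), (.ofNat (nat_lit 110680464442257309696))⟩,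
    ⟨nat_lit 0, nat_lit 19, nat_lit 18, (.ofNat (nat_lit 8)), (.ofNat (nat_lit 67108864)), (.ofNat (nat_lit 290296939212421674463844630528)), (.ofNat (nat_lit 0)), (.ofNat (nat_lit 4332790137498830962146934784)), (.ofNat (nat_lit 67108848)), (.ofNat (nat_lit 67108880)), (.ofNat (nat_lit 1235931852938539958272)), (.negSucc (nat_lit 1235931852938539958271)), (.negSucc (nat_lit 1235931852938539958271)), (.ofNat (nat_lit 1235931852938539958272)), (.ofNat (nat_lit 110680464442257309696))⟩,
    ⟨nat_lit 0, nat_lit 20, nat_lit 19, (.ofNat (nat_lit 8)), (.negSucc (nat_lit 33554431)), (.ofNat (nat_lit 165883965264240956836482646016)), (.ofNat (nat_lit 0)), (.ofNat (nat_lit 2475880078570760549798248448)), (.negSucc (nat_lit 33554447)), (.negSucc (nat_lit 33554415)), (.negSucc (nat_lit 1235931852938539958271)), (.ofNat (nat_lit 1235931852938539958272)), (.negSucc (nat_lit 1235931852938539958271)), (.ofNat (nat_lit 1235931852938539958272)), (.ofNat (nat_lit 110680464442257309696))⟩,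
    ⟨nat_lit 2, nat_lit 20, nat_lit 21, (.ofNat (nat_lit 8)), (.negSucc (nat_lit 100663295)), (.ofNat (nat_lit 248825947896361435254723969024)), (.ofNat (nat_lit 0)), (.ofNat (nat_lit 3713820117856140824697372672)), (.negSucc (nat_lit 100663311)), (.negSucc (nat_lit 100663279)), (.negSucc (nat_lit 1235931852938539958271)), (.ofNat (nat_lit 1235931852938539958272)), (.negSucc (nat_lit 1235931852938539958271)), (.ofNat (nat_lit 1235931852938539958272)), (.ofNat (nat_lit 110680464442257309696))⟩,
    ⟨nat_lit 0, nat_lit 21, nat_lit 22, (.ofNat (nat_lit 8)), (.negSucc (nat_lit 33554431)), (.ofNat (nat_lit 331767930528481913672965292032)), (.ofNat (nat_lit 0)), (.ofNat (nat_lit 4951760157141521099596496896)), (.negSucc (nat_lit 33554447)), (.negSucc (nat_lit 33554415)), (.ofNat (nat_lit 1235931852938539958272)), (.negSucc (nat_lit 1235931852938539958271)), (.negSucc (nat_lit 1235931852938539958271)), (.ofNat (nat_lit 1235931852938539958272)), (.ofNat (nat_lit 110680464442257309696))⟩,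
    ⟨nat_lit 1, nat_lit 23, nat_lit 22, (.ofNat (nat_lit 8)), (.ofNat (nat_lit 83886080)), (.ofNat (nat_lit 186619460922271076441042976768)), (.ofNat (nat_lit 0)), (.ofNat (nat_lit 2785365088392105618523029504)), (.ofNat (nat_lit 83886064)), (.ofNat (nat_lit 83886096)), (.ofNat (nat_lit 1235931852938539958272)), (.negSucc (nat_lit 1235931852938539958271)), (.negSucc (nat_lit 1235931852938539958271)), (.ofNat (nat_lit 1235931852938539958272)), (.ofNat (nat_lit 110680464442257309696))⟩,
    ⟨nat_lit 2, nat_lit 24, nat_lit 7, (.ofNat (nat_lit 8)), (.negSucc (nat_lit 117440543)), (.ofNat (nat_lit 186619421372451782407764312064)), (.ofNat (nat_lit 0)), (.ofNat (nat_lit 2785364498096295259817377792)), (.negSucc (nat_lit 117440559)), (.negSucc (nat_lit 117440527)), (.ofNat (nat_lit 0)), (.ofNat (nat_lit 1235931852938539958272)), (.ofNat (nat_lit 0)), (.ofNat (nat_lit 1235931852938539958272)), (.ofNat (nat_lit 36893488147419103232))⟩]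
  es := [
    ⟨nat_lit 1, nat_lit 0, (.negSucc (nat_lit 167772159)), (.negSucc (nat_lit 33554431)), (.negSucc (nat_lit 167772143)), (.negSucc (nat_lit 33554447)), (.negSucc (nat_lit 1235931852938539958271)), (.negSucc (nat_lit 18446744073709551615)), (.ofNat (nat_lit 0))⟩,
    ⟨nat_lit 1, nat_lit 2, (.negSucc (nat_lit 167772159)), (.negSucc (nat_lit 100663295)), (.negSucc (nat_lit 167772143)), (.negSucc (nat_lit 100663311)), (.ofNat (nat_lit 1235931852938539958272)), (.ofNat (nat_lit 18446744073709551616)), (.ofNat (nat_lit 6189700196426901374495621120))⟩,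
    ⟨nat_lit 2, nat_lit 3, (.negSucc (nat_lit 100663295)), (.negSucc (nat_lit 33554431)), (.negSucc (nat_lit 100663279)), (.negSucc (nat_lit 33554447)), (.negSucc (nat_lit 1235931852938539958271)), (.negSucc (nat_lit 18446744073709551615)), (.ofNat (nat_lit 2475880078570760549798248448))⟩,
    ⟨nat_lit 3, nat_lit 4, (.negSucc (nat_lit 33554431)), (.ofNat (nat_lit 83886080)), (.negSucc (nat_lit 33554415)), (.ofNat (nat_lit 83886064)), (.ofNat (nat_lit 1235931852938539958272)), (.ofNat (nat_lit 18446744073709551616)), (.ofNat (nat_lit 3713820117856140824697372672))⟩,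
    ⟨nat_lit 5, nat_lit 4, (.ofNat (nat_lit 0)), (.ofNat (nat_lit 83886080)), (.ofNat (nat_lit 16)), (.ofNat (nat_lit 83886064)), (.negSucc (nat_lit 1235931852938539958271)), (.negSucc (nat_lit 18446744073709551615)), (.ofNat (nat_lit 6808670216069591511945183232))⟩,
    ⟨nat_lit 6, nat_lit 5, (.negSucc (nat_lit 167772159)), (.ofNat (nat_lit 0)), (.negSucc (nat_lit 167772143)), (.negSucc (nat_lit 15)), (.ofNat (nat_lit 1235931852938539958272)), (.ofNat (nat_lit 18446744073709551616)), (.ofNat (nat_lit 6808670216069591511945183232))⟩,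
    ⟨nat_lit 6, nat_lit 7, (.negSucc (nat_lit 167772159)), (.negSucc (nat_lit 117440479)), (.negSucc (nat_lit 167772143)), (.negSucc (nat_lit 117440495)), (.negSucc (nat_lit 1235931852938539958271)), (.negSucc (nat_lit 18446744073709551615)), (.ofNat (nat_lit 618970019642690137449562112))⟩,
    ⟨nat_lit 24, nat_lit 8, (.negSucc (nat_lit 117440543)), (.negSucc (nat_lit 33554431)), (.negSucc (nat_lit 117440527)), (.negSucc (nat_lit 33554447)), (.ofNat (nat_lit 1235931852938539958272)), (.ofNat (nat_lit 18446744073709551616)), (.ofNat (nat_lit 4951760157141521099596496896))⟩,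
    ⟨nat_lit 8, nat_lit 9, (.negSucc (nat_lit 33554431)), (.ofNat (nat_lit 83886080)), (.negSucc (nat_lit 33554415)), (.ofNat (nat_lit 83886064)), (.negSucc (nat_lit 1235931852938539958271)), (.negSucc (nat_lit 18446744073709551615)), (.ofNat (nat_lit 3713820117856140824697372672))⟩,
    ⟨nat_lit 9, nat_lit 10, (.ofNat (nat_lit 83886080)), (.ofNat (nat_lit 150994944)), (.ofNat (nat_lit 83886096)), (.ofNat (nat_lit 150994928)), (.ofNat (nat_lit 1235931852938539958272)), (.ofNat (nat_lit 18446744073709551616)), (.ofNat (nat_lit 618970019642690137449562112))⟩,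
    ⟨nat_lit 11, nat_lit 10, (.ofNat (nat_lit 100663296)), (.ofNat (nat_lit 150994944)), (.ofNat (nat_lit 100663312)), (.ofNat (nat_lit 150994928)), (.negSucc (nat_lit 1235931852938539958271)), (.negSucc (nat_lit 18446744073709551615)), (.ofNat (nat_lit 6189700196426901374495621120))⟩,
    ⟨nat_lit 12, nat_lit 11, (.ofNat (nat_lit 67108864)), (.ofNat (nat_lit 100663296)), (.ofNat (nat_lit 67108880)), (.ofNat (nat_lit 100663280)), (.ofNat (nat_lit 1235931852938539958272)), (.ofNat (nat_lit 18446744073709551616)), (.ofNat (nat_lit 2475880078570760549798248448))⟩,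
    ⟨nat_lit 12, nat_lit 13, (.ofNat (nat_lit 67108864)), (.ofNat (nat_lit 134217728)), (.ofNat (nat_lit 67108880)), (.ofNat (nat_lit 134217712)), (.negSucc (nat_lit 1235931852938539958271)), (.negSucc (nat_lit 18446744073709551615)), (.ofNat (nat_lit 4951760157141521099596496896))⟩,
    ⟨nat_lit 14, nat_lit 13, (.ofNat (nat_lit 83886080)), (.ofNat (nat_lit 134217728)), (.ofNat (nat_lit 83886096)), (.ofNat (nat_lit 134217712)), (.ofNat (nat_lit 1235931852938539958272)), (.ofNat (nat_lit 18446744073709551616)), (.ofNat (nat_lit 0))⟩,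
    ⟨nat_lit 15, nat_lit 14, (.negSucc (nat_lit 33554431)), (.ofNat (nat_lit 83886080)), (.negSucc (nat_lit 33554415)), (.ofNat (nat_lit 83886064)), (.negSucc (nat_lit 1235931852938539958271)), (.negSucc (nat_lit 18446744073709551615)), (.ofNat (nat_lit 3094850098213450687247810560))⟩,
    ⟨nat_lit 16, nat_lit 15, (.negSucc (nat_lit 83886079)), (.negSucc (nat_lit 33554431)), (.negSucc (nat_lit 83886063)), (.negSucc (nat_lit 33554447)), (.ofNat (nat_lit 1235931852938539958272)), (.ofNat (nat_lit 18446744073709551616)), (.ofNat (nat_lit 4332790137498830962146934784))⟩,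
    ⟨nat_lit 16, nat_lit 17, (.negSucc (nat_lit 83886079)), (.negSucc (nat_lit 16777215)), (.negSucc (nat_lit 83886063)), (.negSucc (nat_lit 16777231)), (.negSucc (nat_lit 1235931852938539958271)), (.negSucc (nat_lit 18446744073709551615)), (.ofNat (nat_lit 1237940039285380274899124224))⟩,
    ⟨nat_lit 17, nat_lit 18, (.negSucc (nat_lit 16777215)), (.ofNat (nat_lit 100663296)), (.negSucc (nat_lit 16777199)), (.ofNat (nat_lit 100663280)), (.ofNat (nat_lit 1235931852938539958272)), (.ofNat (nat_lit 18446744073709551616)), (.ofNat (nat_lit 1856910058928070412348686336))⟩,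
    ⟨nat_lit 19, nat_lit 18, (.ofNat (nat_lit 67108864)), (.ofNat (nat_lit 100663296)), (.ofNat (nat_lit 67108880)), (.ofNat (nat_lit 100663280)), (.negSucc (nat_lit 1235931852938539958271)), (.negSucc (nat_lit 18446744073709551615)), (.ofNat (nat_lit 5570730176784211237046059008))⟩,
    ⟨nat_lit 20, nat_lit 19, (.negSucc (nat_lit 33554431)), (.ofNat (nat_lit 67108864)), (.negSucc (nat_lit 33554415)), (.ofNat (nat_lit 67108848)), (.ofNat (nat_lit 1235931852938539958272)), (.ofNat (nat_lit 18446744073709551616)), (.ofNat (nat_lit 3094850098213450687247810560))⟩,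
    ⟨nat_lit 21, nat_lit 20, (.negSucc (nat_lit 100663295)), (.negSucc (nat_lit 33554431)), (.negSucc (nat_lit 100663279)), (.negSucc (nat_lit 33554447)), (.negSucc (nat_lit 1235931852938539958271)), (.negSucc (nat_lit 18446744073709551615)), (.ofNat (nat_lit 1856910058928070412348686336))⟩,
    ⟨nat_lit 21, nat_lit 22, (.negSucc (nat_lit 100663295)), (.negSucc (nat_lit 33554431)), (.negSucc (nat_lit 100663279)), (.negSucc (nat_lit 33554447)), (.ofNat (nat_lit 1235931852938539958272)), (.ofNat (nat_lit 18446744073709551616)), (.ofNat (nat_lit 5570730176784211237046059008))⟩,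
    ⟨nat_lit 22, nat_lit 23, (.negSucc (nat_lit 33554431)), (.ofNat (nat_lit 83886080)), (.negSucc (nat_lit 33554415)), (.ofNat (nat_lit 83886064)), (.negSucc (nat_lit 1235931852938539958271)), (.negSucc (nat_lit 18446744073709551615)), (.ofNat (nat_lit 4332790137498830962146934784))⟩,
    ⟨nat_lit 0, nat_lit 23, (.negSucc (nat_lit 33554431)), (.ofNat (nat_lit 83886080)), (.negSucc (nat_lit 33554415)), (.ofNat (nat_lit 83886064)), (.ofNat (nat_lit 1235931852938539958272)), (.ofNat (nat_lit 18446744073709551616)), (.ofNat (nat_lit 1237940039285380274899124224))⟩,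
    ⟨nat_lit 24, nat_lit 7, (.negSucc (nat_lit 117440543)), (.negSucc (nat_lit 117440479)), (.negSucc (nat_lit 117440527)), (.negSucc (nat_lit 117440495)), (.ofNat (nat_lit 0)), (.ofNat (nat_lit 0)), (.ofNat (nat_lit 2785364498096295259817377792))⟩]

theorem ok6 : stOK 24 24 S6 = true := by decide +kernel

def S7 : SD where
  vs := [
    ⟨nat_lit 0, nat_lit 0, nat_lit 23, (.ofNat (nat_lit 8)), (.negSucc (nat_lit 34078719)), (.ofNat (nat_lit 42118975555373680446763171840)), (.negSucc (nat_lit 524287)), (.ofNat (nat_lit 647984239313441237642510336)), (.negSucc (nat_lit 34078735)), (.negSucc (nat_lit 34078703)), (.negSucc (nat_lit 1235931852938539958271)), (.ofNat (nat_lit 1235931852938539958272)), (.negSucc (nat_lit 1235931852938539958271)), (.ofNat (nat_lit 1235931852938539958272)), (.ofNat (nat_lit 0))⟩,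
    ⟨nat_lit 2, nat_lit 0, nat_lit 1, (.ofNat (nat_lit 8)), (.negSucc (nat_lit 171704319)), (.ofNat (nat_lit 212214838375152005327922135040)), (.negSucc (nat_lit 3932159)), (.ofNat (nat_lit 4859881794850809282318827520)), (.negSucc (nat_lit 171704335)), (.negSucc (nat_lit 171704303)), (.negSucc (nat_lit 1235931852938539958271)), (.ofNat (nat_lit 1235931852938539958272)), (.negSucc (nat_lit 1235931852938539958271)), (.ofNat (nat_lit 1235931852938539958272)), (.ofNat (nat_lit 0))⟩,
    ⟨nat_lit 0, nat_lit 1, nat_lit 2, (.ofNat (nat_lit 8)), (.negSucc (nat_lit 102236159)), (.ofNat (nat_lit 298072750084182969315554754560)), (.negSucc (nat_lit 1572863)), (.ofNat (nat_lit 7775810871761294851710124032)), (.negSucc (nat_lit 102236175)), (.negSucc (nat_lit 102236143)), (.ofNat (nat_lit 1235931852938539958272)), (.negSucc (nat_lit 1235931852938539958271)), (.negSucc (nat_lit 1235931852938539958271)), (.ofNat (nat_lit 1235931852938539958272)), (.ofNat (nat_lit 0))⟩,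
    ⟨nat_lit 0, nat_lit 2, nat_lit 3, (.ofNat (nat_lit 8)), (.negSucc (nat_lit 32767999)), (.ofNat (nat_lit 212214838375152005327922135040)), (.ofNat (nat_lit 786432)), (.ofNat (nat_lit 4859881794850809282318827520)), (.negSucc (nat_lit 32768015)), (.negSucc (nat_lit 32767983)), (.negSucc (nat_lit 1235931852938539958271)), (.ofNat (nat_lit 1235931852938539958272)), (.negSucc (nat_lit 1235931852938539958271)), (.ofNat (nat_lit 1235931852938539958272)), (.ofNat (nat_lit 0))⟩,
    ⟨nat_lit 1, nat_lit 3, nat_lit 4, (.ofNat (nat_lit 8)), (.ofNat (nat_lit 86507520)), (.ofNat (nat_lit 359631252818959886891593236480)), (.ofNat (nat_lit 2621440)), (.ofNat (nat_lit 7127826632447853614067613696)), (.ofNat (nat_lit 86507504)), (.ofNat (nat_lit 86507536)), (.ofNat (nat_lit 1235931852938539958272)), (.negSucc (nat_lit 1235931852938539958271)), (.negSucc (nat_lit 1235931852938539958271)), (.ofNat (nat_lit 1235931852938539958272)), (.ofNat (nat_lit 0))⟩,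
    ⟨nat_lit 0, nat_lit 5, nat_lit 4, (.ofNat (nat_lit 8)), (.ofNat (nat_lit 0)), (.ofNat (nat_lit 466548652305677691102607441920)), (.ofNat (nat_lit 0)), (.ofNat (nat_lit 10367747829015059802280165376)), (.negSucc (nat_lit 15)), (.ofNat (nat_lit 16)), (.ofNat (nat_lit 1235931852938539958272)), (.negSucc (nat_lit 1235931852938539958271)), (.negSucc (nat_lit 1235931852938539958271)), (.ofNat (nat_lit 1235931852938539958272)), (.ofNat (nat_lit 0))⟩,
    ⟨nat_lit 2, nat_lit 6, nat_lit 5, (.ofNat (nat_lit 8)), (.negSucc (nat_lit 170393599)), (.ofNat (nat_lit 255953774528809288868791582720)), (.negSucc (nat_lit 2621439)), (.ofNat (nat_lit 7127826632447853614067613696)), (.negSucc (nat_lit 170393615)), (.negSucc (nat_lit 170393583)), (.negSucc (nat_lit 1235931852938539958271)), (.ofNat (nat_lit 1235931852938539958272)), (.negSucc (nat_lit 1235931852938539958271)), (.ofNat (nat_lit 1235931852938539958272)), (.ofNat (nat_lit 0))⟩,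
    ⟨nat_lit 1, nat_lit 6, nat_lit 24, (.ofNat (nat_lit 8)), (.negSucc (nat_lit 118226943)), (.ofNat (nat_lit 191479342717121885723361804288)), (.negSucc (nat_lit 786463)), (.ofNat (nat_lit 4859921344670103315597492224)), (.negSucc (nat_lit 118226959)), (.negSucc (nat_lit 118226927)), (.negSucc (nat_lit 1235931852938539958271)), (.ofNat (nat_lit 0)), (.negSucc (nat_lit 1235931852938539958271)), (.ofNat (nat_lit 0)), (.ofNat (nat_lit 0))⟩,
    ⟨nat_lit 0, nat_lit 7, nat_lit 8, (.ofNat (nat_lit 8)), (.negSucc (nat_lit 34078719)), (.ofNat (nat_lit 298072750084182969315554754560)), (.negSucc (nat_lit 524287)), (.ofNat (nat_lit 7775810871761294851710124032)), (.negSucc (nat_lit 34078735)), (.negSucc (nat_lit 34078703)), (.ofNat (nat_lit 1235931852938539958272)), (.negSucc (nat_lit 1235931852938539958271)), (.negSucc (nat_lit 1235931852938539958271)), (.ofNat (nat_lit 1235931852938539958272)), (.ofNat (nat_lit 0))⟩,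
    ⟨nat_lit 0, nat_lit 8, nat_lit 9, (.ofNat (nat_lit 8)), (.ofNat (nat_lit 86507520)), (.ofNat (nat_lit 149036375042091484657777377280)), (.ofNat (nat_lit 2621440)), (.ofNat (nat_lit 3887905435880647425855062016)), (.ofNat (nat_lit 86507504)), (.ofNat (nat_lit 86507536)), (.negSucc (nat_lit 1235931852938539958271)), (.ofNat (nat_lit 1235931852938539958272)), (.negSucc (nat_lit 1235931852938539958271)), (.ofNat (nat_lit 1235931852938539958272)), (.ofNat (nat_lit 0))⟩,
    ⟨nat_lit 1, nat_lit 9, nat_lit 10, (.ofNat (nat_lit 8)), (.ofNat (nat_lit 154664960)), (.ofNat (nat_lit 233274326152838845551303720960)), (.ofNat (nat_lit 3670016)), (.ofNat (nat_lit 5183873914507529901140082688)), (.ofNat (nat_lit 154664944)), (.ofNat (nat_lit 154664976)), (.ofNat (nat_lit 1235931852938539958272)), (.negSucc (nat_lit 1235931852938539958271)), (.negSucc (nat_lit 1235931852938539958271)), (.ofNat (nat_lit 1235931852938539958272)), (.ofNat (nat_lit 0))⟩,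
    ⟨nat_lit 0, nat_lit 11, nat_lit 10, (.ofNat (nat_lit 8)), (.ofNat (nat_lit 103546880)), (.ofNat (nat_lit 296452789485899366221448478720)), (.ofNat (nat_lit 2883584)), (.ofNat (nat_lit 6155850273477691757603848192)), (.ofNat (nat_lit 103546864)), (.ofNat (nat_lit 103546896)), (.ofNat (nat_lit 1235931852938539958272)), (.negSucc (nat_lit 1235931852938539958271)), (.negSucc (nat_lit 1235931852938539958271)), (.ofNat (nat_lit 1235931852938539958272)), (.ofNat (nat_lit 0))⟩,
    ⟨nat_lit 2, nat_lit 12, nat_lit 11, (.ofNat (nat_lit 8)), (.ofNat (nat_lit 69468160)), (.ofNat (nat_lit 254333813930525685774685306880)), (.ofNat (nat_lit 2359296)), (.ofNat (nat_lit 5507866034164250519961337856)), (.ofNat (nat_lit 69468144)), (.ofNat (nat_lit 69468176)), (.negSucc (nat_lit 1235931852938539958271)), (.ofNat (nat_lit 1235931852938539958272)), (.negSucc (nat_lit 1235931852938539958271)), (.ofNat (nat_lit 1235931852938539958272)), (.ofNat (nat_lit 0))⟩,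
    ⟨nat_lit 1, nat_lit 13, nat_lit 12, (.ofNat (nat_lit 8)), (.ofNat (nat_lit 137625600)), (.ofNat (nat_lit 170095862819778324881158963200)), (.ofNat (nat_lit 3407872)), (.ofNat (nat_lit 4211897555537368044676317184)), (.ofNat (nat_lit 137625584)), (.ofNat (nat_lit 137625616)), (.ofNat (nat_lit 1235931852938539958272)), (.negSucc (nat_lit 1235931852938539958271)), (.negSucc (nat_lit 1235931852938539958271)), (.ofNat (nat_lit 1235931852938539958272)), (.ofNat (nat_lit 0))⟩,
    ⟨nat_lit 0, nat_lit 14, nat_lit 13, (.ofNat (nat_lit 8)), (.ofNat (nat_lit 86507520)), (.ofNat (nat_lit 106917399486717804211014205440)), (.ofNat (nat_lit 2621440)), (.ofNat (nat_lit 3239921196567206188212551680)), (.ofNat (nat_lit 86507504)), (.ofNat (nat_lit 86507536)), (.negSucc (nat_lit 1235931852938539958271)), (.ofNat (nat_lit 1235931852938539958272)), (.negSucc (nat_lit 1235931852938539958271)), (.ofNat (nat_lit 1235931852938539958272)), (.ofNat (nat_lit 0))⟩,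
    ⟨nat_lit 0, nat_lit 15, nat_lit 14, (.ofNat (nat_lit 8)), (.negSucc (nat_lit 32767999)), (.ofNat (nat_lit 254333813930525685774685306880)), (.ofNat (nat_lit 786432)), (.ofNat (nat_lit 5507866034164250519961337856)), (.negSucc (nat_lit 32768015)), (.negSucc (nat_lit 32767983)), (.ofNat (nat_lit 1235931852938539958272)), (.negSucc (nat_lit 1235931852938539958271)), (.negSucc (nat_lit 1235931852938539958271)), (.ofNat (nat_lit 1235931852938539958272)), (.ofNat (nat_lit 0))⟩,
    ⟨nat_lit 2, nat_lit 16, nat_lit 15, (.ofNat (nat_lit 8)), (.negSucc (nat_lit 83886079)), (.ofNat (nat_lit 191155350597465165104540549120)), (.ofNat (nat_lit 0)), (.ofNat (nat_lit 4535889675194088663497572352)), (.negSucc (nat_lit 83886095)), (.negSucc (nat_lit 83886063)), (.negSucc (nat_lit 1235931852938539958271)), (.ofNat (nat_lit 1235931852938539958272)), (.negSucc (nat_lit 1235931852938539958271)), (.ofNat (nat_lit 1235931852938539958272)), (.ofNat (nat_lit 0))⟩,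
    ⟨nat_lit 0, nat_lit 16, nat_lit 17, (.ofNat (nat_lit 8)), (.negSucc (nat_lit 15728639)), (.ofNat (nat_lit 106917399486717804211014205440)), (.ofNat (nat_lit 1048576)), (.ofNat (nat_lit 3239921196567206188212551680)), (.negSucc (nat_lit 15728655)), (.negSucc (nat_lit 15728623)), (.negSucc (nat_lit 1235931852938539958271)), (.ofNat (nat_lit 1235931852938539958272)), (.negSucc (nat_lit 1235931852938539958271)), (.ofNat (nat_lit 1235931852938539958272)), (.ofNat (nat_lit 0))⟩,
    ⟨nat_lit 1, nat_lit 17, nat_lit 18, (.ofNat (nat_lit 8)), (.ofNat (nat_lit 103546880)), (.ofNat (nat_lit 254333813930525685774685306880)), (.ofNat (nat_lit 2883584)), (.ofNat (nat_lit 5507866034164250519961337856)), (.ofNat (nat_lit 103546864)), (.ofNat (nat_lit 103546896)), (.ofNat (nat_lit 1235931852938539958272)), (.negSucc (nat_lit 1235931852938539958271)), (.negSucc (nat_lit 1235931852938539958271)), (.ofNat (nat_lit 1235931852938539958272)), (.ofNat (nat_lit 0))⟩,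
    ⟨nat_lit 0, nat_lit 19, nat_lit 18, (.ofNat (nat_lit 8)), (.ofNat (nat_lit 69468160)), (.ofNat (nat_lit 296452789485899366221448478720)), (.ofNat (nat_lit 2359296)), (.ofNat (nat_lit 6155850273477691757603848192)), (.ofNat (nat_lit 69468144)), (.ofNat (nat_lit 69468176)), (.ofNat (nat_lit 1235931852938539958272)), (.negSucc (nat_lit 1235931852938539958271)), (.negSucc (nat_lit 1235931852938539958271)), (.ofNat (nat_lit 1235931852938539958272)), (.ofNat (nat_lit 0))⟩,
    ⟨nat_lit 0, nat_lit 20, nat_lit 19, (.ofNat (nat_lit 8)), (.negSucc (nat_lit 32767999)), (.ofNat (nat_lit 170095862819778324881158963200)), (.ofNat (nat_lit 786432)), (.ofNat (nat_lit 4211897555537368044676317184)), (.negSucc (nat_lit 32768015)), (.negSucc (nat_lit 32767983)), (.negSucc (nat_lit 1235931852938539958271)), (.ofNat (nat_lit 1235931852938539958272)), (.negSucc (nat_lit 1235931852938539958271)), (.ofNat (nat_lit 1235931852938539958272)), (.ofNat (nat_lit 0))⟩,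
    ⟨nat_lit 2, nat_lit 20, nat_lit 21, (.ofNat (nat_lit 8)), (.negSucc (nat_lit 102236159)), (.ofNat (nat_lit 255953774528809288868791582720)), (.negSucc (nat_lit 1572863)), (.ofNat (nat_lit 7127826632447853614067613696)), (.negSucc (nat_lit 102236175)), (.negSucc (nat_lit 102236143)), (.negSucc (nat_lit 1235931852938539958271)), (.ofNat (nat_lit 1235931852938539958272)), (.negSucc (nat_lit 1235931852938539958271)), (.ofNat (nat_lit 1235931852938539958272)), (.ofNat (nat_lit 0))⟩,
    ⟨nat_lit 0, nat_lit 21, nat_lit 22, (.ofNat (nat_lit 8)), (.negSucc (nat_lit 34078719)), (.ofNat (nat_lit 340191725639556649762317926400)), (.negSucc (nat_lit 524287)), (.ofNat (nat_lit 8423795111074736089352634368)), (.negSucc (nat_lit 34078735)), (.negSucc (nat_lit 34078703)), (.ofNat (nat_lit 1235931852938539958272)), (.negSucc (nat_lit 1235931852938539958271)), (.negSucc (nat_lit 1235931852938539958271)), (.ofNat (nat_lit 1235931852938539958272)), (.ofNat (nat_lit 0))⟩,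
    ⟨nat_lit 1, nat_lit 23, nat_lit 22, (.ofNat (nat_lit 8)), (.ofNat (nat_lit 86507520)), (.ofNat (nat_lit 191155350597465165104540549120)), (.ofNat (nat_lit 2621440)), (.ofNat (nat_lit 4535889675194088663497572352)), (.ofNat (nat_lit 86507504)), (.ofNat (nat_lit 86507536)), (.ofNat (nat_lit 1235931852938539958272)), (.negSucc (nat_lit 1235931852938539958271)), (.negSucc (nat_lit 1235931852938539958271)), (.ofNat (nat_lit 1235931852938539958272)), (.ofNat (nat_lit 0))⟩,
    ⟨nat_lit 2, nat_lit 24, nat_lit 7, (.ofNat (nat_lit 8)), (.negSucc (nat_lit 120324095)), (.ofNat (nat_lit 191479342717121885723361804288)), (.negSucc (nat_lit 2883551)), (.ofNat (nat_lit 4859921344670103315597492224)), (.negSucc (nat_lit 120324111)), (.negSucc (nat_lit 120324079)), (.ofNat (nat_lit 0)), (.ofNat (nat_lit 1235931852938539958272)), (.ofNat (nat_lit 0)), (.ofNat (nat_lit 1235931852938539958272)), (.ofNat (nat_lit 0))⟩]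
  es := [
    ⟨nat_lit 1, nat_lit 0, (.negSucc (nat_lit 171704319)), (.negSucc (nat_lit 34078719)), (.negSucc (nat_lit 171704303)), (.negSucc (nat_lit 34078735)), (.negSucc (nat_lit 1235931852938539958271)), (.ofNat (nat_lit 0)), (.ofNat (nat_lit 0))⟩,
    ⟨nat_lit 1, nat_lit 2, (.negSucc (nat_lit 171704319)), (.negSucc (nat_lit 102236159)), (.negSucc (nat_lit 171704303)), (.negSucc (nat_lit 102236175)), (.ofNat (nat_lit 1235931852938539958272)), (.ofNat (nat_lit 0)), (.ofNat (nat_lit 9719763589701618564637655040))⟩,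
    ⟨nat_lit 2, nat_lit 3, (.negSucc (nat_lit 102236159)), (.negSucc (nat_lit 32767999)), (.negSucc (nat_lit 102236143)), (.negSucc (nat_lit 32768015)), (.negSucc (nat_lit 1235931852938539958271)), (.ofNat (nat_lit 0)), (.ofNat (nat_lit 5831858153820971138782593024))⟩,
    ⟨nat_lit 3, nat_lit 4, (.negSucc (nat_lit 32767999)), (.ofNat (nat_lit 86507520)), (.negSucc (nat_lit 32767983)), (.ofNat (nat_lit 86507504)), (.ofNat (nat_lit 1235931852938539958272)), (.ofNat (nat_lit 0)), (.ofNat (nat_lit 3887905435880647425855062016))⟩,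
    ⟨nat_lit 5, nat_lit 4, (.ofNat (nat_lit 0)), (.ofNat (nat_lit 86507520)), (.ofNat (nat_lit 16)), (.ofNat (nat_lit 86507504)), (.negSucc (nat_lit 1235931852938539958271)), (.ofNat (nat_lit 0)), (.ofNat (nat_lit 10367747829015059802280165376))⟩,
    ⟨nat_lit 6, nat_lit 5, (.negSucc (nat_lit 170393599)), (.ofNat (nat_lit 0)), (.negSucc (nat_lit 170393583)), (.negSucc (nat_lit 15)), (.ofNat (nat_lit 1235931852938539958272)), (.ofNat (nat_lit 0)), (.ofNat (nat_lit 10367747829015059802280165376))⟩,
    ⟨nat_lit 6, nat_lit 7, (.negSucc (nat_lit 170393599)), (.negSucc (nat_lit 118226943)), (.negSucc (nat_lit 170393583)), (.negSucc (nat_lit 118226959)), (.negSucc (nat_lit 1235931852938539958271)), (.ofNat (nat_lit 0)), (.ofNat (nat_lit 3887905435880647425855062016))⟩,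
    ⟨nat_lit 24, nat_lit 8, (.negSucc (nat_lit 120324095)), (.negSucc (nat_lit 34078719)), (.negSucc (nat_lit 120324079)), (.negSucc (nat_lit 34078735)), (.ofNat (nat_lit 1235931852938539958272)), (.ofNat (nat_lit 0)), (.ofNat (nat_lit 8423795111074736089352634368))⟩,
    ⟨nat_lit 8, nat_lit 9, (.negSucc (nat_lit 34078719)), (.ofNat (nat_lit 86507520)), (.negSucc (nat_lit 34078703)), (.ofNat (nat_lit 86507504)), (.negSucc (nat_lit 1235931852938539958271)), (.ofNat (nat_lit 0)), (.ofNat (nat_lit 7127826632447853614067613696))⟩,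
    ⟨nat_lit 9, nat_lit 10, (.ofNat (nat_lit 86507520)), (.ofNat (nat_lit 154664960)), (.ofNat (nat_lit 86507536)), (.ofNat (nat_lit 154664944)), (.ofNat (nat_lit 1235931852938539958272)), (.ofNat (nat_lit 0)), (.ofNat (nat_lit 647984239313441237642510336))⟩,
    ⟨nat_lit 11, nat_lit 10, (.ofNat (nat_lit 103546880)), (.ofNat (nat_lit 154664960)), (.ofNat (nat_lit 103546896)), (.ofNat (nat_lit 154664944)), (.negSucc (nat_lit 1235931852938539958271)), (.ofNat (nat_lit 0)), (.ofNat (nat_lit 9719763589701618564637655040))⟩,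
    ⟨nat_lit 12, nat_lit 11, (.ofNat (nat_lit 69468160)), (.ofNat (nat_lit 103546880)), (.ofNat (nat_lit 69468176)), (.ofNat (nat_lit 103546864)), (.ofNat (nat_lit 1235931852938539958272)), (.ofNat (nat_lit 0)), (.ofNat (nat_lit 2591936957253764950570041344))⟩,
    ⟨nat_lit 12, nat_lit 13, (.ofNat (nat_lit 69468160)), (.ofNat (nat_lit 137625600)), (.ofNat (nat_lit 69468176)), (.ofNat (nat_lit 137625584)), (.negSucc (nat_lit 1235931852938539958271)), (.ofNat (nat_lit 0)), (.ofNat (nat_lit 8423795111074736089352634368))⟩,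
    ⟨nat_lit 14, nat_lit 13, (.ofNat (nat_lit 86507520)), (.ofNat (nat_lit 137625600)), (.ofNat (nat_lit 86507536)), (.ofNat (nat_lit 137625584)), (.ofNat (nat_lit 1235931852938539958272)), (.ofNat (nat_lit 0)), (.ofNat (nat_lit 0))⟩,
    ⟨nat_lit 15, nat_lit 14, (.negSucc (nat_lit 32767999)), (.ofNat (nat_lit 86507520)), (.negSucc (nat_lit 32767983)), (.ofNat (nat_lit 86507504)), (.negSucc (nat_lit 1235931852938539958271)), (.ofNat (nat_lit 0)), (.ofNat (nat_lit 6479842393134412376425103360))⟩,
    ⟨nat_lit 16, nat_lit 15, (.negSucc (nat_lit 83886079)), (.negSucc (nat_lit 32767999)), (.negSucc (nat_lit 83886063)), (.negSucc (nat_lit 32768015)), (.ofNat (nat_lit 1235931852938539958272)), (.ofNat (nat_lit 0)), (.ofNat (nat_lit 4535889675194088663497572352))⟩,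
    ⟨nat_lit 16, nat_lit 17, (.negSucc (nat_lit 83886079)), (.negSucc (nat_lit 15728639)), (.negSucc (nat_lit 83886063)), (.negSucc (nat_lit 15728655)), (.negSucc (nat_lit 1235931852938539958271)), (.ofNat (nat_lit 0)), (.ofNat (nat_lit 4535889675194088663497572352))⟩,
    ⟨nat_lit 17, nat_lit 18, (.negSucc (nat_lit 15728639)), (.ofNat (nat_lit 103546880)), (.negSucc (nat_lit 15728623)), (.ofNat (nat_lit 103546864)), (.ofNat (nat_lit 1235931852938539958272)), (.ofNat (nat_lit 0)), (.ofNat (nat_lit 1943952717940323712927531008))⟩,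
    ⟨nat_lit 19, nat_lit 18, (.ofNat (nat_lit 69468160)), (.ofNat (nat_lit 103546880)), (.ofNat (nat_lit 69468176)), (.ofNat (nat_lit 103546864)), (.negSucc (nat_lit 1235931852938539958271)), (.ofNat (nat_lit 0)), (.ofNat (nat_lit 9071779350388177326995144704))⟩,
    ⟨nat_lit 20, nat_lit 19, (.negSucc (nat_lit 32767999)), (.ofNat (nat_lit 69468160)), (.negSucc (nat_lit 32767983)), (.ofNat (nat_lit 69468144)), (.ofNat (nat_lit 1235931852938539958272)), (.ofNat (nat_lit 0)), (.ofNat (nat_lit 3239921196567206188212551680))⟩,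
    ⟨nat_lit 21, nat_lit 20, (.negSucc (nat_lit 102236159)), (.negSucc (nat_lit 32767999)), (.negSucc (nat_lit 102236143)), (.negSucc (nat_lit 32768015)), (.negSucc (nat_lit 1235931852938539958271)), (.ofNat (nat_lit 0)), (.ofNat (nat_lit 5183873914507529901140082688))⟩,
    ⟨nat_lit 21, nat_lit 22, (.negSucc (nat_lit 102236159)), (.negSucc (nat_lit 34078719)), (.negSucc (nat_lit 102236143)), (.negSucc (nat_lit 34078735)), (.ofNat (nat_lit 1235931852938539958272)), (.ofNat (nat_lit 0)), (.ofNat (nat_lit 9071779350388177326995144704))⟩,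
    ⟨nat_lit 22, nat_lit 23, (.negSucc (nat_lit 34078719)), (.ofNat (nat_lit 86507520)), (.negSucc (nat_lit 34078703)), (.ofNat (nat_lit 86507504)), (.negSucc (nat_lit 1235931852938539958271)), (.ofNat (nat_lit 0)), (.ofNat (nat_lit 7775810871761294851710124032))⟩,
    ⟨nat_lit 0, nat_lit 23, (.negSucc (nat_lit 34078719)), (.ofNat (nat_lit 86507520)), (.negSucc (nat_lit 34078703)), (.ofNat (nat_lit 86507504)), (.ofNat (nat_lit 1235931852938539958272)), (.ofNat (nat_lit 0)), (.ofNat (nat_lit 1295968478626882475285020672))⟩,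
    ⟨nat_lit 24, nat_lit 7, (.negSucc (nat_lit 120324095)), (.negSucc (nat_lit 118226943)), (.negSucc (nat_lit 120324079)), (.negSucc (nat_lit 118226959)), (.ofNat (nat_lit 0)), (.ofNat (nat_lit 0)), (.ofNat (nat_lit 4859921344670103315597492224))⟩]

theorem ok7 : stOK 24 24 S7 = true := by decide +kernel

def S8 : SD where
  vs := [
    ⟨nat_lit 0, nat_lit 0, nat_lit 23, (.ofNat (nat_lit 8)), (.negSucc (nat_lit 34078719)), (.ofNat (nat_lit 42118975555373680446763171840)), (.negSucc (nat_lit 524287)), (.ofNat (nat_lit 647984239313441237642510336)), (.negSucc (nat_lit 34078735)), (.negSucc (nat_lit 34078703)), (.negSucc (nat_lit 1235931852938539958271)), (.ofNat (nat_lit 1235931852938539958272)), (.negSucc (nat_lit 1235931852938539958271)), (.ofNat (nat_lit 1235931852938539958272)), (.ofNat (nat_lit 0))⟩,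
    ⟨nat_lit 2, nat_lit 0, nat_lit 1, (.ofNat (nat_lit 8)), (.negSucc (nat_lit 171704319)), (.ofNat (nat_lit 212214838375152005327922135040)), (.negSucc (nat_lit 3932159)), (.ofNat (nat_lit 4859881794850809282318827520)), (.negSucc (nat_lit 171704335)), (.negSucc (nat_lit 171704303)), (.negSucc (nat_lit 1235931852938539958271)), (.ofNat (nat_lit 1235931852938539958272)), (.negSucc (nat_lit 1235931852938539958271)), (.ofNat (nat_lit 1235931852938539958272)), (.ofNat (nat_lit 0))⟩,
    ⟨nat_lit 0, nat_lit 1, nat_lit 2, (.ofNat (nat_lit 8)), (.negSucc (nat_lit 102236159)), (.ofNat (nat_lit 298072750084182969315554754560)), (.negSucc (nat_lit 1572863)), (.ofNat (nat_lit 7775810871761294851710124032)), (.negSucc (nat_lit 102236175)), (.negSucc (nat_lit 102236143)), (.ofNat (nat_lit 1235931852938539958272)), (.negSucc (nat_lit 1235931852938539958271)), (.negSucc (nat_lit 1235931852938539958271)), (.ofNat (nat_lit 1235931852938539958272)), (.ofNat (nat_lit 0))⟩,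
    ⟨nat_lit 0, nat_lit 2, nat_lit 3, (.ofNat (nat_lit 8)), (.negSucc (nat_lit 32767999)), (.ofNat (nat_lit 212214838375152005327922135040)), (.ofNat (nat_lit 786432)), (.ofNat (nat_lit 4859881794850809282318827520)), (.negSucc (nat_lit 32768015)), (.negSucc (nat_lit 32767983)), (.negSucc (nat_lit 1235931852938539958271)), (.ofNat (nat_lit 1235931852938539958272)), (.negSucc (nat_lit 1235931852938539958271)), (.ofNat (nat_lit 1235931852938539958272)), (.ofNat (nat_lit 0))⟩,
    ⟨nat_lit 1, nat_lit 3, nat_lit 4, (.ofNat (nat_lit 8)), (.ofNat (nat_lit 86507520)), (.ofNat (nat_lit 359631252818959886891593236480)), (.ofNat (nat_lit 2621440)), (.ofNat (nat_lit 7127826632447853614067613696)), (.ofNat (nat_lit 86507504)), (.ofNat (nat_lit 86507536)), (.ofNat (nat_lit 1235931852938539958272)), (.negSucc (nat_lit 1235931852938539958271)), (.negSucc (nat_lit 1235931852938539958271)), (.ofNat (nat_lit 1235931852938539958272)), (.ofNat (nat_lit 0))⟩,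
    ⟨nat_lit 0, nat_lit 5, nat_lit 4, (.ofNat (nat_lit 8)), (.ofNat (nat_lit 0)), (.ofNat (nat_lit 466548652305677691102607441920)), (.ofNat (nat_lit 0)), (.ofNat (nat_lit 10367747829015059802280165376)), (.negSucc (nat_lit 15)), (.ofNat (nat_lit 16)), (.ofNat (nat_lit 1235931852938539958272)), (.negSucc (nat_lit 1235931852938539958271)), (.negSucc (nat_lit 1235931852938539958271)), (.ofNat (nat_lit 1235931852938539958272)), (.ofNat (nat_lit 0))⟩,
    ⟨nat_lit 2, nat_lit 6, nat_lit 5, (.ofNat (nat_lit 8)), (.negSucc (nat_lit 170393599)), (.ofNat (nat_lit 255953774528809288868791582720)), (.negSucc (nat_lit 2621439)), (.ofNat (nat_lit 7127826632447853614067613696)), (.negSucc (nat_lit 170393615)), (.negSucc (nat_lit 170393583)), (.negSucc (nat_lit 1235931852938539958271)), (.ofNat (nat_lit 1235931852938539958272)), (.negSucc (nat_lit 1235931852938539958271)), (.ofNat (nat_lit 1235931852938539958272)), (.ofNat (nat_lit 0))⟩,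
    ⟨nat_lit 1, nat_lit 6, nat_lit 25, (.ofNat (nat_lit 8)), (.negSucc (nat_lit 118226943)), (.ofNat (nat_lit 191479342717121885723361804288)), (.negSucc (nat_lit 786463)), (.ofNat (nat_lit 4859921344670103315597492224)), (.negSucc (nat_lit 118226959)), (.negSucc (nat_lit 118226927)), (.negSucc (nat_lit 1235931852938539958271)), (.ofNat (nat_lit 0)), (.negSucc (nat_lit 1235931852938539958271)), (.ofNat (nat_lit 0)), (.ofNat (nat_lit 0))⟩,
    ⟨nat_lit 0, nat_lit 7, nat_lit 8, (.ofNat (nat_lit 8)), (.negSucc (nat_lit 34078719)), (.ofNat (nat_lit 298072750084182969315554754560)), (.negSucc (nat_lit 524287)), (.ofNat (nat_lit 7775810871761294851710124032)), (.negSucc (nat_lit 34078735)), (.negSucc (nat_lit 34078703)), (.ofNat (nat_lit 1235931852938539958272)), (.negSucc (nat_lit 1235931852938539958271)), (.negSucc (nat_lit 1235931852938539958271)), (.ofNat (nat_lit 1235931852938539958272)), (.ofNat (nat_lit 0))⟩,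
    ⟨nat_lit 0, nat_lit 8, nat_lit 9, (.ofNat (nat_lit 8)), (.ofNat (nat_lit 86507520)), (.ofNat (nat_lit 149036375042091484657777377280)), (.ofNat (nat_lit 2621440)), (.ofNat (nat_lit 3887905435880647425855062016)), (.ofNat (nat_lit 86507504)), (.ofNat (nat_lit 86507536)), (.negSucc (nat_lit 1235931852938539958271)), (.ofNat (nat_lit 1235931852938539958272)), (.negSucc (nat_lit 1235931852938539958271)), (.ofNat (nat_lit 1235931852938539958272)), (.ofNat (nat_lit 0))⟩,
    ⟨nat_lit 1, nat_lit 9, nat_lit 10, (.ofNat (nat_lit 8)), (.ofNat (nat_lit 154664960)), (.ofNat (nat_lit 233274326152838845551303720960)), (.ofNat (nat_lit 3670016)), (.ofNat (nat_lit 5183873914507529901140082688)), (.ofNat (nat_lit 154664944)), (.ofNat (nat_lit 154664976)), (.ofNat (nat_lit 1235931852938539958272)), (.negSucc (nat_lit 1235931852938539958271)), (.negSucc (nat_lit 1235931852938539958271)), (.ofNat (nat_lit 1235931852938539958272)), (.ofNat (nat_lit 0))⟩,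
    ⟨nat_lit 0, nat_lit 11, nat_lit 10, (.ofNat (nat_lit 8)), (.ofNat (nat_lit 103546880)), (.ofNat (nat_lit 296452789485899366221448478720)), (.ofNat (nat_lit 2883584)), (.ofNat (nat_lit 6155850273477691757603848192)), (.ofNat (nat_lit 103546864)), (.ofNat (nat_lit 103546896)), (.ofNat (nat_lit 1235931852938539958272)), (.negSucc (nat_lit 1235931852938539958271)), (.negSucc (nat_lit 1235931852938539958271)), (.ofNat (nat_lit 1235931852938539958272)), (.ofNat (nat_lit 0))⟩,
    ⟨nat_lit 2, nat_lit 12, nat_lit 11, (.ofNat (nat_lit 8)), (.ofNat (nat_lit 69468160)), (.ofNat (nat_lit 254333813930525685774685306880)), (.ofNat (nat_lit 2359296)), (.ofNat (nat_lit 5507866034164250519961337856)), (.ofNat (nat_lit 69468144)), (.ofNat (nat_lit 69468176)), (.negSucc (nat_lit 1235931852938539958271)), (.ofNat (nat_lit 1235931852938539958272)), (.negSucc (nat_lit 1235931852938539958271)), (.ofNat (nat_lit 1235931852938539958272)), (.ofNat (nat_lit 0))⟩,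
    ⟨nat_lit 1, nat_lit 13, nat_lit 12, (.ofNat (nat_lit 8)), (.ofNat (nat_lit 137625600)), (.ofNat (nat_lit 170095862819778324881158963200)), (.ofNat (nat_lit 3407872)), (.ofNat (nat_lit 4211897555537368044676317184)), (.ofNat (nat_lit 137625584)), (.ofNat (nat_lit 137625616)), (.ofNat (nat_lit 1235931852938539958272)), (.negSucc (nat_lit 1235931852938539958271)), (.negSucc (nat_lit 1235931852938539958271)), (.ofNat (nat_lit 1235931852938539958272)), (.ofNat (nat_lit 0))⟩,
    ⟨nat_lit 0, nat_lit 14, nat_lit 13, (.ofNat (nat_lit 8)), (.ofNat (nat_lit 86507520)), (.ofNat (nat_lit 106917399486717804211014205440)), (.ofNat (nat_lit 2621440)), (.ofNat (nat_lit 3239921196567206188212551680)), (.ofNat (nat_lit 86507504)), (.ofNat (nat_lit 86507536)), (.negSucc (nat_lit 1235931852938539958271)), (.ofNat (nat_lit 1235931852938539958272)), (.negSucc (nat_lit 1235931852938539958271)), (.ofNat (nat_lit 1235931852938539958272)), (.ofNat (nat_lit 0))⟩,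
    ⟨nat_lit 0, nat_lit 15, nat_lit 14, (.ofNat (nat_lit 8)), (.negSucc (nat_lit 32767999)), (.ofNat (nat_lit 254333813930525685774685306880)), (.ofNat (nat_lit 786432)), (.ofNat (nat_lit 5507866034164250519961337856)), (.negSucc (nat_lit 32768015)), (.negSucc (nat_lit 32767983)), (.ofNat (nat_lit 1235931852938539958272)), (.negSucc (nat_lit 1235931852938539958271)), (.negSucc (nat_lit 1235931852938539958271)), (.ofNat (nat_lit 1235931852938539958272)), (.ofNat (nat_lit 0))⟩,
    ⟨nat_lit 2, nat_lit 16, nat_lit 15, (.ofNat (nat_lit 8)), (.negSucc (nat_lit 83886079)), (.ofNat (nat_lit 191155350597465165104540549120)), (.ofNat (nat_lit 0)), (.ofNat (nat_lit 4535889675194088663497572352)), (.negSucc (nat_lit 83886095)), (.negSucc (nat_lit 83886063)), (.negSucc (nat_lit 1235931852938539958271)), (.ofNat (nat_lit 1235931852938539958272)), (.negSucc (nat_lit 1235931852938539958271)), (.ofNat (nat_lit 1235931852938539958272)), (.ofNat (nat_lit 0))⟩,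
    ⟨nat_lit 0, nat_lit 16, nat_lit 17, (.ofNat (nat_lit 8)), (.negSucc (nat_lit 15728639)), (.ofNat (nat_lit 106917399486717804211014205440)), (.ofNat (nat_lit 1048576)), (.ofNat (nat_lit 3239921196567206188212551680)), (.negSucc (nat_lit 15728655)), (.negSucc (nat_lit 15728623)), (.negSucc (nat_lit 1235931852938539958271)), (.ofNat (nat_lit 1235931852938539958272)), (.negSucc (nat_lit 1235931852938539958271)), (.ofNat (nat_lit 1235931852938539958272)), (.ofNat (nat_lit 0))⟩,
    ⟨nat_lit 1, nat_lit 17, nat_lit 18, (.ofNat (nat_lit 8)), (.ofNat (nat_lit 103546880)), (.ofNat (nat_lit 254333813930525685774685306880)), (.ofNat (nat_lit 2883584)), (.ofNat (nat_lit 5507866034164250519961337856)), (.ofNat (nat_lit 103546864)), (.ofNat (nat_lit 103546896)), (.ofNat (nat_lit 1235931852938539958272)), (.negSucc (nat_lit 1235931852938539958271)), (.negSucc (nat_lit 1235931852938539958271)), (.ofNat (nat_lit 1235931852938539958272)), (.ofNat (nat_lit 0))⟩,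
    ⟨nat_lit 0, nat_lit 19, nat_lit 18, (.ofNat (nat_lit 8)), (.ofNat (nat_lit 69468160)), (.ofNat (nat_lit 296452789485899366221448478720)), (.ofNat (nat_lit 2359296)), (.ofNat (nat_lit 6155850273477691757603848192)), (.ofNat (nat_lit 69468144)), (.ofNat (nat_lit 69468176)), (.ofNat (nat_lit 1235931852938539958272)), (.negSucc (nat_lit 1235931852938539958271)), (.negSucc (nat_lit 1235931852938539958271)), (.ofNat (nat_lit 1235931852938539958272)), (.ofNat (nat_lit 0))⟩,
    ⟨nat_lit 0, nat_lit 20, nat_lit 19, (.ofNat (nat_lit 8)), (.negSucc (nat_lit 32767999)), (.ofNat (nat_lit 170095862819778324881158963200)), (.ofNat (nat_lit 786432)), (.ofNat (nat_lit 4211897555537368044676317184)), (.negSucc (nat_lit 32768015)), (.negSucc (nat_lit 32767983)), (.negSucc (nat_lit 1235931852938539958271)), (.ofNat (nat_lit 1235931852938539958272)), (.negSucc (nat_lit 1235931852938539958271)), (.ofNat (nat_lit 1235931852938539958272)), (.ofNat (nat_lit 0))⟩,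
    ⟨nat_lit 2, nat_lit 20, nat_lit 21, (.ofNat (nat_lit 8)), (.negSucc (nat_lit 102236159)), (.ofNat (nat_lit 255953774528809288868791582720)), (.negSucc (nat_lit 1572863)), (.ofNat (nat_lit 7127826632447853614067613696)), (.negSucc (nat_lit 102236175)), (.negSucc (nat_lit 102236143)), (.negSucc (nat_lit 1235931852938539958271)), (.ofNat (nat_lit 1235931852938539958272)), (.negSucc (nat_lit 1235931852938539958271)), (.ofNat (nat_lit 1235931852938539958272)), (.ofNat (nat_lit 0))⟩,
    ⟨nat_lit 0, nat_lit 21, nat_lit 22, (.ofNat (nat_lit 8)), (.negSucc (nat_lit 34078719)), (.ofNat (nat_lit 340191725639556649762317926400)), (.negSucc (nat_lit 524287)), (.ofNat (nat_lit 8423795111074736089352634368)), (.negSucc (nat_lit 34078735)), (.negSucc (nat_lit 34078703)), (.ofNat (nat_lit 1235931852938539958272)), (.negSucc (nat_lit 1235931852938539958271)), (.negSucc (nat_lit 1235931852938539958271)), (.ofNat (nat_lit 1235931852938539958272)), (.ofNat (nat_lit 0))⟩,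
    ⟨nat_lit 1, nat_lit 23, nat_lit 22, (.ofNat (nat_lit 8)), (.ofNat (nat_lit 86507520)), (.ofNat (nat_lit 191155350597465165104540549120)), (.ofNat (nat_lit 2621440)), (.ofNat (nat_lit 4535889675194088663497572352)), (.ofNat (nat_lit 86507504)), (.ofNat (nat_lit 86507536)), (.ofNat (nat_lit 1235931852938539958272)), (.negSucc (nat_lit 1235931852938539958271)), (.negSucc (nat_lit 1235931852938539958271)), (.ofNat (nat_lit 1235931852938539958272)), (.ofNat (nat_lit 0))⟩,
    ⟨nat_lit 2, nat_lit 24, nat_lit 7, (.ofNat (nat_lit 8)), (.negSucc (nat_lit 120324095)), (.ofNat (nat_lit 191479342717121885723361804288)), (.negSucc (nat_lit 2883551)), (.ofNat (nat_lit 4859921344670103315597492224)), (.negSucc (nat_lit 120324111)), (.negSucc (nat_lit 120324079)), (.ofNat (nat_lit 0)), (.ofNat (nat_lit 1235931852938539958272)), (.ofNat (nat_lit 0)), (.ofNat (nat_lit 1235931852938539958272)), (.ofNat (nat_lit 0))⟩,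
    ⟨nat_lit 0, nat_lit 24, nat_lit 25, (.ofNat (nat_lit 8)), (.negSucc (nat_lit 119275519)), (.ofNat (nat_lit 191479342717121885723361804288)), (.ofNat (nat_lit 0)), (.ofNat (nat_lit 4859921344670103315597492224)), (.negSucc (nat_lit 119275535)), (.negSucc (nat_lit 119275503)), (.ofNat (nat_lit 0)), (.ofNat (nat_lit 0)), (.ofNat (nat_lit 0)), (.ofNat (nat_lit 0)), (.ofNat (nat_lit 0))⟩]
  es := [
    ⟨nat_lit 1, nat_lit 0, (.negSucc (nat_lit 171704319)), (.negSucc (nat_lit 34078719)), (.negSucc (nat_lit 171704303)), (.negSucc (nat_lit 34078735)), (.negSucc (nat_lit 1235931852938539958271)), (.ofNat (nat_lit 0)), (.ofNat (nat_lit 0))⟩,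
    ⟨nat_lit 1, nat_lit 2, (.negSucc (nat_lit 171704319)), (.negSucc (nat_lit 102236159)), (.negSucc (nat_lit 171704303)), (.negSucc (nat_lit 102236175)), (.ofNat (nat_lit 1235931852938539958272)), (.ofNat (nat_lit 0)), (.ofNat (nat_lit 9719763589701618564637655040))⟩,
    ⟨nat_lit 2, nat_lit 3, (.negSucc (nat_lit 102236159)), (.negSucc (nat_lit 32767999)), (.negSucc (nat_lit 102236143)), (.negSucc (nat_lit 32768015)), (.negSucc (nat_lit 1235931852938539958271)), (.ofNat (nat_lit 0)), (.ofNat (nat_lit 5831858153820971138782593024))⟩,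
    ⟨nat_lit 3, nat_lit 4, (.negSucc (nat_lit 32767999)), (.ofNat (nat_lit 86507520)), (.negSucc (nat_lit 32767983)), (.ofNat (nat_lit 86507504)), (.ofNat (nat_lit 1235931852938539958272)), (.ofNat (nat_lit 0)), (.ofNat (nat_lit 3887905435880647425855062016))⟩,
    ⟨nat_lit 5, nat_lit 4, (.ofNat (nat_lit 0)), (.ofNat (nat_lit 86507520)), (.ofNat (nat_lit 16)), (.ofNat (nat_lit 86507504)), (.negSucc (nat_lit 1235931852938539958271)), (.ofNat (nat_lit 0)), (.ofNat (nat_lit 10367747829015059802280165376))⟩,
    ⟨nat_lit 6, nat_lit 5, (.negSucc (nat_lit 170393599)), (.ofNat (nat_lit 0)), (.negSucc (nat_lit 170393583)), (.negSucc (nat_lit 15)), (.ofNat (nat_lit 1235931852938539958272)), (.ofNat (nat_lit 0)), (.ofNat (nat_lit 10367747829015059802280165376))⟩,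
    ⟨nat_lit 6, nat_lit 7, (.negSucc (nat_lit 170393599)), (.negSucc (nat_lit 118226943)), (.negSucc (nat_lit 170393583)), (.negSucc (nat_lit 118226959)), (.negSucc (nat_lit 1235931852938539958271)), (.ofNat (nat_lit 0)), (.ofNat (nat_lit 3887905435880647425855062016))⟩,
    ⟨nat_lit 24, nat_lit 8, (.negSucc (nat_lit 120324095)), (.negSucc (nat_lit 34078719)), (.negSucc (nat_lit 120324079)), (.negSucc (nat_lit 34078735)), (.ofNat (nat_lit 1235931852938539958272)), (.ofNat (nat_lit 0)), (.ofNat (nat_lit 8423795111074736089352634368))⟩,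
    ⟨nat_lit 8, nat_lit 9, (.negSucc (nat_lit 34078719)), (.ofNat (nat_lit 86507520)), (.negSucc (nat_lit 34078703)), (.ofNat (nat_lit 86507504)), (.negSucc (nat_lit 1235931852938539958271)), (.ofNat (nat_lit 0)), (.ofNat (nat_lit 7127826632447853614067613696))⟩,
    ⟨nat_lit 9, nat_lit 10, (.ofNat (nat_lit 86507520)), (.ofNat (nat_lit 154664960)), (.ofNat (nat_lit 86507536)), (.ofNat (nat_lit 154664944)), (.ofNat (nat_lit 1235931852938539958272)), (.ofNat (nat_lit 0)), (.ofNat (nat_lit 647984239313441237642510336))⟩,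
    ⟨nat_lit 11, nat_lit 10, (.ofNat (nat_lit 103546880)), (.ofNat (nat_lit 154664960)), (.ofNat (nat_lit 103546896)), (.ofNat (nat_lit 154664944)), (.negSucc (nat_lit 1235931852938539958271)), (.ofNat (nat_lit 0)), (.ofNat (nat_lit 9719763589701618564637655040))⟩,
    ⟨nat_lit 12, nat_lit 11, (.ofNat (nat_lit 69468160)), (.ofNat (nat_lit 103546880)), (.ofNat (nat_lit 69468176)), (.ofNat (nat_lit 103546864)), (.ofNat (nat_lit 1235931852938539958272)), (.ofNat (nat_lit 0)), (.ofNat (nat_lit 2591936957253764950570041344))⟩,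
    ⟨nat_lit 12, nat_lit 13, (.ofNat (nat_lit 69468160)), (.ofNat (nat_lit 137625600)), (.ofNat (nat_lit 69468176)), (.ofNat (nat_lit 137625584)), (.negSucc (nat_lit 1235931852938539958271)), (.ofNat (nat_lit 0)), (.ofNat (nat_lit 8423795111074736089352634368))⟩,
    ⟨nat_lit 14, nat_lit 13, (.ofNat (nat_lit 86507520)), (.ofNat (nat_lit 137625600)), (.ofNat (nat_lit 86507536)), (.ofNat (nat_lit 137625584)), (.ofNat (nat_lit 1235931852938539958272)), (.ofNat (nat_lit 0)), (.ofNat (nat_lit 0))⟩,
    ⟨nat_lit 15, nat_lit 14, (.negSucc (nat_lit 32767999)), (.ofNat (nat_lit 86507520)), (.negSucc (nat_lit 32767983)), (.ofNat (nat_lit 86507504)), (.negSucc (nat_lit 1235931852938539958271)), (.ofNat (nat_lit 0)), (.ofNat (nat_lit 6479842393134412376425103360))⟩,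
    ⟨nat_lit 16, nat_lit 15, (.negSucc (nat_lit 83886079)), (.negSucc (nat_lit 32767999)), (.negSucc (nat_lit 83886063)), (.negSucc (nat_lit 32768015)), (.ofNat (nat_lit 1235931852938539958272)), (.ofNat (nat_lit 0)), (.ofNat (nat_lit 4535889675194088663497572352))⟩,
    ⟨nat_lit 16, nat_lit 17, (.negSucc (nat_lit 83886079)), (.negSucc (nat_lit 15728639)), (.negSucc (nat_lit 83886063)), (.negSucc (nat_lit 15728655)), (.negSucc (nat_lit 1235931852938539958271)), (.ofNat (nat_lit 0)), (.ofNat (nat_lit 4535889675194088663497572352))⟩,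
    ⟨nat_lit 17, nat_lit 18, (.negSucc (nat_lit 15728639)), (.ofNat (nat_lit 103546880)), (.negSucc (nat_lit 15728623)), (.ofNat (nat_lit 103546864)), (.ofNat (nat_lit 1235931852938539958272)), (.ofNat (nat_lit 0)), (.ofNat (nat_lit 1943952717940323712927531008))⟩,
    ⟨nat_lit 19, nat_lit 18, (.ofNat (nat_lit 69468160)), (.ofNat (nat_lit 103546880)), (.ofNat (nat_lit 69468176)), (.ofNat (nat_lit 103546864)), (.negSucc (nat_lit 1235931852938539958271)), (.ofNat (nat_lit 0)), (.ofNat (nat_lit 9071779350388177326995144704))⟩,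
    ⟨nat_lit 20, nat_lit 19, (.negSucc (nat_lit 32767999)), (.ofNat (nat_lit 69468160)), (.negSucc (nat_lit 32767983)), (.ofNat (nat_lit 69468144)), (.ofNat (nat_lit 1235931852938539958272)), (.ofNat (nat_lit 0)), (.ofNat (nat_lit 3239921196567206188212551680))⟩,
    ⟨nat_lit 21, nat_lit 20, (.negSucc (nat_lit 102236159)), (.negSucc (nat_lit 32767999)), (.negSucc (nat_lit 102236143)), (.negSucc (nat_lit 32768015)), (.negSucc (nat_lit 1235931852938539958271)), (.ofNat (nat_lit 0)), (.ofNat (nat_lit 5183873914507529901140082688))⟩,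
    ⟨nat_lit 21, nat_lit 22, (.negSucc (nat_lit 102236159)), (.negSucc (nat_lit 34078719)), (.negSucc (nat_lit 102236143)), (.negSucc (nat_lit 34078735)), (.ofNat (nat_lit 1235931852938539958272)), (.ofNat (nat_lit 0)), (.ofNat (nat_lit 9071779350388177326995144704))⟩,
    ⟨nat_lit 22, nat_lit 23, (.negSucc (nat_lit 34078719)), (.ofNat (nat_lit 86507520)), (.negSucc (nat_lit 34078703)), (.ofNat (nat_lit 86507504)), (.negSucc (nat_lit 1235931852938539958271)), (.ofNat (nat_lit 0)), (.ofNat (nat_lit 7775810871761294851710124032))⟩,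
    ⟨nat_lit 0, nat_lit 23, (.negSucc (nat_lit 34078719)), (.ofNat (nat_lit 86507520)), (.negSucc (nat_lit 34078703)), (.ofNat (nat_lit 86507504)), (.ofNat (nat_lit 1235931852938539958272)), (.ofNat (nat_lit 0)), (.ofNat (nat_lit 1295968478626882475285020672))⟩,
    ⟨nat_lit 24, nat_lit 25, (.negSucc (nat_lit 120324095)), (.negSucc (nat_lit 119275519)), (.negSucc (nat_lit 120324079)), (.negSucc (nat_lit 119275535)), (.ofNat (nat_lit 0)), (.ofNat (nat_lit 0)), (.ofNat (nat_lit 4859921344670103315597492224))⟩,
    ⟨nat_lit 25, nat_lit 7, (.negSucc (nat_lit 119275519)), (.negSucc (nat_lit 118226943)), (.negSucc (nat_lit 119275503)), (.negSucc (nat_lit 118226959)), (.ofNat (nat_lit 0)), (.ofNat (nat_lit 0)), (.ofNat (nat_lit 4859921344670103315597492224))⟩]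

theorem ok8 : stOK 25 25 S8 = true := by decide +kernel

def S9 : SD where
  vs := [
    ⟨nat_lit 0, nat_lit 0, nat_lit 23, (.ofNat (nat_lit 8)), (.negSucc (nat_lit 34078719)), (.ofNat (nat_lit 84237951110747360893526343680)), (.ofNat (nat_lit 0)), (.ofNat (nat_lit 42118975555373680446763171840)), (.negSucc (nat_lit 34078735)), (.negSucc (nat_lit 34078703)), (.negSucc (nat_lit 2471863705877079916543)), (.ofNat (nat_lit 2471863705877079916544)), (.negSucc (nat_lit 2471863705877079916543)), (.ofNat (nat_lit 2471863705877079916544)), (.ofNat (nat_lit 7415591117631239749632))⟩,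
    ⟨nat_lit 2, nat_lit 0, nat_lit 1, (.ofNat (nat_lit 8)), (.negSucc (nat_lit 171704319)), (.ofNat (nat_lit 424429676750304010655844270080)), (.ofNat (nat_lit 0)), (.ofNat (nat_lit 212214838375152005327922135040)), (.negSucc (nat_lit 171704335)), (.negSucc (nat_lit 171704303)), (.negSucc (nat_lit 2471863705877079916543)), (.ofNat (nat_lit 2471863705877079916544)), (.negSucc (nat_lit 2471863705877079916543)), (.ofNat (nat_lit 2471863705877079916544)), (.ofNat (nat_lit 7415591117631239749632))⟩,
    ⟨nat_lit 0, nat_lit 1, nat_lit 2, (.ofNat (nat_lit 8)), (.negSucc (nat_lit 102236159)), (.ofNat (nat_lit 596145500168365938631109509120)), (.ofNat (nat_lit 0)), (.ofNat (nat_lit 298072750084182969315554754560)), (.negSucc (nat_lit 102236175)), (.negSucc (nat_lit 102236143)), (.ofNat (nat_lit 2471863705877079916544)), (.negSucc (nat_lit 2471863705877079916543)), (.negSucc (nat_lit 2471863705877079916543)), (.ofNat (nat_lit 2471863705877079916544)), (.ofNat (nat_lit 7415591117631239749632))⟩,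
    ⟨nat_lit 0, nat_lit 2, nat_lit 3, (.ofNat (nat_lit 8)), (.negSucc (nat_lit 32767999)), (.ofNat (nat_lit 424429676750304010655844270080)), (.ofNat (nat_lit 0)), (.ofNat (nat_lit 212214838375152005327922135040)), (.negSucc (nat_lit 32768015)), (.negSucc (nat_lit 32767983)), (.negSucc (nat_lit 2471863705877079916543)), (.ofNat (nat_lit 2471863705877079916544)), (.negSucc (nat_lit 2471863705877079916543)), (.ofNat (nat_lit 2471863705877079916544)), (.ofNat (nat_lit 7415591117631239749632))⟩,
    ⟨nat_lit 1, nat_lit 3, nat_lit 4, (.ofNat (nat_lit 8)), (.ofNat (nat_lit 86507520)), (.ofNat (nat_lit 719262505637919773783186472960)), (.ofNat (nat_lit 0)), (.ofNat (nat_lit 359631252818959886891593236480)), (.ofNat (nat_lit 86507504)), (.ofNat (nat_lit 86507536)), (.ofNat (nat_lit 2471863705877079916544)), (.negSucc (nat_lit 2471863705877079916543)), (.negSucc (nat_lit 2471863705877079916543)), (.ofNat (nat_lit 2471863705877079916544)), (.ofNat (nat_lit 7415591117631239749632))⟩,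
    ⟨nat_lit 0, nat_lit 5, nat_lit 4, (.ofNat (nat_lit 8)), (.ofNat (nat_lit 0)), (.ofNat (nat_lit 933097304611355382205214883840)), (.ofNat (nat_lit 0)), (.ofNat (nat_lit 466548652305677691102607441920)), (.negSucc (nat_lit 15)), (.ofNat (nat_lit 16)), (.ofNat (nat_lit 2471863705877079916544)), (.negSucc (nat_lit 2471863705877079916543)), (.negSucc (nat_lit 2471863705877079916543)), (.ofNat (nat_lit 2471863705877079916544)), (.ofNat (nat_lit 7415591117631239749632))⟩,
    ⟨nat_lit 2, nat_lit 6, nat_lit 5, (.ofNat (nat_lit 8)), (.negSucc (nat_lit 170393599)), (.ofNat (nat_lit 511907549057618577737583165440)), (.ofNat (nat_lit 0)), (.ofNat (nat_lit 255953774528809288868791582720)), (.negSucc (nat_lit 170393615)), (.negSucc (nat_lit 170393583)), (.negSucc (nat_lit 2471863705877079916543)), (.ofNat (nat_lit 2471863705877079916544)), (.negSucc (nat_lit 2471863705877079916543)), (.ofNat (nat_lit 2471863705877079916544)), (.ofNat (nat_lit 7415591117631239749632))⟩,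
    ⟨nat_lit 1, nat_lit 6, nat_lit 25, (.ofNat (nat_lit 8)), (.negSucc (nat_lit 118226943)), (.ofNat (nat_lit 382958685434243771446723608576)), (.ofNat (nat_lit 0)), (.ofNat (nat_lit 191479342717121885723361804288)), (.negSucc (nat_lit 118226959)), (.negSucc (nat_lit 118226927)), (.negSucc (nat_lit 2471863705877079916543)), (.ofNat (nat_lit 2471863705877079916544)), (.negSucc (nat_lit 2471863705877079916543)), (.ofNat (nat_lit 2471863705877079916544)), (.ofNat (nat_lit 9887454823508319666176))⟩,
    ⟨nat_lit 0, nat_lit 7, nat_lit 8, (.ofNat (nat_lit 8)), (.negSucc (nat_lit 34078719)), (.ofNat (nat_lit 596145500168365938631109509120)), (.ofNat (nat_lit 0)), (.ofNat (nat_lit 298072750084182969315554754560)), (.negSucc (nat_lit 34078735)), (.negSucc (nat_lit 34078703)), (.ofNat (nat_lit 2471863705877079916544)), (.negSucc (nat_lit 2471863705877079916543)), (.negSucc (nat_lit 2471863705877079916543)), (.ofNat (nat_lit 2471863705877079916544)), (.ofNat (nat_lit 7415591117631239749632))⟩,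
    ⟨nat_lit 0, nat_lit 8, nat_lit 9, (.ofNat (nat_lit 8)), (.ofNat (nat_lit 86507520)), (.ofNat (nat_lit 298072750084182969315554754560)), (.ofNat (nat_lit 0)), (.ofNat (nat_lit 149036375042091484657777377280)), (.ofNat (nat_lit 86507504)), (.ofNat (nat_lit 86507536)), (.negSucc (nat_lit 2471863705877079916543)), (.ofNat (nat_lit 2471863705877079916544)), (.negSucc (nat_lit 2471863705877079916543)), (.ofNat (nat_lit 2471863705877079916544)), (.ofNat (nat_lit 7415591117631239749632))⟩,
    ⟨nat_lit 1, nat_lit 9, nat_lit 10, (.ofNat (nat_lit 8)), (.ofNat (nat_lit 154664960)), (.ofNat (nat_lit 466548652305677691102607441920)), (.ofNat (nat_lit 0)), (.ofNat (nat_lit 233274326152838845551303720960)), (.ofNat (nat_lit 154664944)), (.ofNat (nat_lit 154664976)), (.ofNat (nat_lit 2471863705877079916544)), (.negSucc (nat_lit 2471863705877079916543)), (.negSucc (nat_lit 2471863705877079916543)), (.ofNat (nat_lit 2471863705877079916544)), (.ofNat (nat_lit 7415591117631239749632))⟩,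
    ⟨nat_lit 0, nat_lit 11, nat_lit 10, (.ofNat (nat_lit 8)), (.ofNat (nat_lit 103546880)), (.ofNat (nat_lit 592905578971798732442896957440)), (.ofNat (nat_lit 0)), (.ofNat (nat_lit 296452789485899366221448478720)), (.ofNat (nat_lit 103546864)), (.ofNat (nat_lit 103546896)), (.ofNat (nat_lit 2471863705877079916544)), (.negSucc (nat_lit 2471863705877079916543)), (.negSucc (nat_lit 2471863705877079916543)), (.ofNat (nat_lit 2471863705877079916544)), (.ofNat (nat_lit 7415591117631239749632))⟩,
    ⟨nat_lit 2, nat_lit 12, nat_lit 11, (.ofNat (nat_lit 8)), (.ofNat (nat_lit 69468160)), (.ofNat (nat_lit 508667627861051371549370613760)), (.ofNat (nat_lit 0)), (.ofNat (nat_lit 254333813930525685774685306880)), (.ofNat (nat_lit 69468144)), (.ofNat (nat_lit 69468176)), (.negSucc (nat_lit 2471863705877079916543)), (.ofNat (nat_lit 2471863705877079916544)), (.negSucc (nat_lit 2471863705877079916543)), (.ofNat (nat_lit 2471863705877079916544)), (.ofNat (nat_lit 7415591117631239749632))⟩,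
    ⟨nat_lit 1, nat_lit 13, nat_lit 12, (.ofNat (nat_lit 8)), (.ofNat (nat_lit 137625600)), (.ofNat (nat_lit 340191725639556649762317926400)), (.ofNat (nat_lit 0)), (.ofNat (nat_lit 170095862819778324881158963200)), (.ofNat (nat_lit 137625584)), (.ofNat (nat_lit 137625616)), (.ofNat (nat_lit 2471863705877079916544)), (.negSucc (nat_lit 2471863705877079916543)), (.negSucc (nat_lit 2471863705877079916543)), (.ofNat (nat_lit 2471863705877079916544)), (.ofNat (nat_lit 7415591117631239749632))⟩,
    ⟨nat_lit 0, nat_lit 14, nat_lit 13, (.ofNat (nat_lit 8)), (.ofNat (nat_lit 86507520)), (.ofNat (nat_lit 213834798973435608422028410880)), (.ofNat (nat_lit 0)), (.ofNat (nat_lit 106917399486717804211014205440)), (.ofNat (nat_lit 86507504)), (.ofNat (nat_lit 86507536)), (.negSucc (nat_lit 2471863705877079916543)), (.ofNat (nat_lit 2471863705877079916544)), (.negSucc (nat_lit 2471863705877079916543)), (.ofNat (nat_lit 2471863705877079916544)), (.ofNat (nat_lit 7415591117631239749632))⟩,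
    ⟨nat_lit 0, nat_lit 15, nat_lit 14, (.ofNat (nat_lit 8)), (.negSucc (nat_lit 32767999)), (.ofNat (nat_lit 508667627861051371549370613760)), (.ofNat (nat_lit 0)), (.ofNat (nat_lit 254333813930525685774685306880)), (.negSucc (nat_lit 32768015)), (.negSucc (nat_lit 32767983)), (.ofNat (nat_lit 2471863705877079916544)), (.negSucc (nat_lit 2471863705877079916543)), (.negSucc (nat_lit 2471863705877079916543)), (.ofNat (nat_lit 2471863705877079916544)), (.ofNat (nat_lit 7415591117631239749632))⟩,
    ⟨nat_lit 2, nat_lit 16, nat_lit 15, (.ofNat (nat_lit 8)), (.negSucc (nat_lit 83886079)), (.ofNat (nat_lit 382310701194930330209081098240)), (.ofNat (nat_lit 0)), (.ofNat (nat_lit 191155350597465165104540549120)), (.negSucc (nat_lit 83886095)), (.negSucc (nat_lit 83886063)), (.negSucc (nat_lit 2471863705877079916543)), (.ofNat (nat_lit 2471863705877079916544)), (.negSucc (nat_lit 2471863705877079916543)), (.ofNat (nat_lit 2471863705877079916544)), (.ofNat (nat_lit 7415591117631239749632))⟩,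
    ⟨nat_lit 0, nat_lit 16, nat_lit 17, (.ofNat (nat_lit 8)), (.negSucc (nat_lit 15728639)), (.ofNat (nat_lit 213834798973435608422028410880)), (.ofNat (nat_lit 0)), (.ofNat (nat_lit 106917399486717804211014205440)), (.negSucc (nat_lit 15728655)), (.negSucc (nat_lit 15728623)), (.negSucc (nat_lit 2471863705877079916543)), (.ofNat (nat_lit 2471863705877079916544)), (.negSucc (nat_lit 2471863705877079916543)), (.ofNat (nat_lit 2471863705877079916544)), (.ofNat (nat_lit 7415591117631239749632))⟩,
    ⟨nat_lit 1, nat_lit 17, nat_lit 18, (.ofNat (nat_lit 8)), (.ofNat (nat_lit 103546880)), (.ofNat (nat_lit 508667627861051371549370613760)), (.ofNat (nat_lit 0)), (.ofNat (nat_lit 254333813930525685774685306880)), (.ofNat (nat_lit 103546864)), (.ofNat (nat_lit 103546896)), (.ofNat (nat_lit 2471863705877079916544)), (.negSucc (nat_lit 2471863705877079916543)), (.negSucc (nat_lit 2471863705877079916543)), (.ofNat (nat_lit 2471863705877079916544)), (.ofNat (nat_lit 7415591117631239749632))⟩,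
    ⟨nat_lit 0, nat_lit 19, nat_lit 18, (.ofNat (nat_lit 8)), (.ofNat (nat_lit 69468160)), (.ofNat (nat_lit 592905578971798732442896957440)), (.ofNat (nat_lit 0)), (.ofNat (nat_lit 296452789485899366221448478720)), (.ofNat (nat_lit 69468144)), (.ofNat (nat_lit 69468176)), (.ofNat (nat_lit 2471863705877079916544)), (.negSucc (nat_lit 2471863705877079916543)), (.negSucc (nat_lit 2471863705877079916543)), (.ofNat (nat_lit 2471863705877079916544)), (.ofNat (nat_lit 7415591117631239749632))⟩,
    ⟨nat_lit 0, nat_lit 20, nat_lit 19, (.ofNat (nat_lit 8)), (.negSucc (nat_lit 32767999)), (.ofNat (nat_lit 340191725639556649762317926400)), (.ofNat (nat_lit 0)), (.ofNat (nat_lit 170095862819778324881158963200)), (.negSucc (nat_lit 32768015)), (.negSucc (nat_lit 32767983)), (.negSucc (nat_lit 2471863705877079916543)), (.ofNat (nat_lit 2471863705877079916544)), (.negSucc (nat_lit 2471863705877079916543)), (.ofNat (nat_lit 2471863705877079916544)), (.ofNat (nat_lit 7415591117631239749632))⟩,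
    ⟨nat_lit 2, nat_lit 20, nat_lit 21, (.ofNat (nat_lit 8)), (.negSucc (nat_lit 102236159)), (.ofNat (nat_lit 511907549057618577737583165440)), (.ofNat (nat_lit 0)), (.ofNat (nat_lit 255953774528809288868791582720)), (.negSucc (nat_lit 102236175)), (.negSucc (nat_lit 102236143)), (.negSucc (nat_lit 2471863705877079916543)), (.ofNat (nat_lit 2471863705877079916544)), (.negSucc (nat_lit 2471863705877079916543)), (.ofNat (nat_lit 2471863705877079916544)), (.ofNat (nat_lit 7415591117631239749632))⟩,
    ⟨nat_lit 0, nat_lit 21, nat_lit 22, (.ofNat (nat_lit 8)), (.negSucc (nat_lit 34078719)), (.ofNat (nat_lit 680383451279113299524635852800)), (.ofNat (nat_lit 0)), (.ofNat (nat_lit 340191725639556649762317926400)), (.negSucc (nat_lit 34078735)), (.negSucc (nat_lit 34078703)), (.ofNat (nat_lit 2471863705877079916544)), (.negSucc (nat_lit 2471863705877079916543)), (.negSucc (nat_lit 2471863705877079916543)), (.ofNat (nat_lit 2471863705877079916544)), (.ofNat (nat_lit 7415591117631239749632))⟩,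
    ⟨nat_lit 1, nat_lit 23, nat_lit 22, (.ofNat (nat_lit 8)), (.ofNat (nat_lit 86507520)), (.ofNat (nat_lit 382310701194930330209081098240)), (.ofNat (nat_lit 0)), (.ofNat (nat_lit 191155350597465165104540549120)), (.ofNat (nat_lit 86507504)), (.ofNat (nat_lit 86507536)), (.ofNat (nat_lit 2471863705877079916544)), (.negSucc (nat_lit 2471863705877079916543)), (.negSucc (nat_lit 2471863705877079916543)), (.ofNat (nat_lit 2471863705877079916544)), (.ofNat (nat_lit 7415591117631239749632))⟩,
    ⟨nat_lit 2, nat_lit 24, nat_lit 7, (.ofNat (nat_lit 8)), (.negSucc (nat_lit 120324095)), (.ofNat (nat_lit 382958685434243771446723608576)), (.ofNat (nat_lit 0)), (.ofNat (nat_lit 191479342717121885723361804288)), (.negSucc (nat_lit 120324111)), (.negSucc (nat_lit 120324079)), (.negSucc (nat_lit 2471863705877079916543)), (.ofNat (nat_lit 2471863705877079916544)), (.negSucc (nat_lit 2471863705877079916543)), (.ofNat (nat_lit 2471863705877079916544)), (.ofNat (nat_lit 12359318529385399582720))⟩,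
    ⟨nat_lit 0, nat_lit 24, nat_lit 25, (.ofNat (nat_lit 8)), (.negSucc (nat_lit 119275519)), (.ofNat (nat_lit 380366748476990006496153567232)), (.ofNat (nat_lit 0)), (.ofNat (nat_lit 188887405759868120772791762944)), (.negSucc (nat_lit 119275535)), (.negSucc (nat_lit 119275503)), (.negSucc (nat_lit 2471863705877079916543)), (.ofNat (nat_lit 2471863705877079916544)), (.negSucc (nat_lit 2471863705877079916543)), (.ofNat (nat_lit 2471863705877079916544)), (.ofNat (nat_lit 14831182235262479499264))⟩]
  es := [
    ⟨nat_lit 1, nat_lit 0, (.negSucc (nat_lit 171704319)), (.negSucc (nat_lit 34078719)), (.negSucc (nat_lit 171704303)), (.negSucc (nat_lit 34078735)), (.negSucc (nat_lit 2471863705877079916543)), (.negSucc (nat_lit 1235931852938539958271)), (.ofNat (nat_lit 0))⟩,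
    ⟨nat_lit 1, nat_lit 2, (.negSucc (nat_lit 171704319)), (.negSucc (nat_lit 102236159)), (.negSucc (nat_lit 171704303)), (.negSucc (nat_lit 102236175)), (.ofNat (nat_lit 2471863705877079916544)), (.ofNat (nat_lit 1235931852938539958272)), (.ofNat (nat_lit 424429676750304010655844270080))⟩,
    ⟨nat_lit 2, nat_lit 3, (.negSucc (nat_lit 102236159)), (.negSucc (nat_lit 32767999)), (.negSucc (nat_lit 102236143)), (.negSucc (nat_lit 32768015)), (.negSucc (nat_lit 2471863705877079916543)), (.negSucc (nat_lit 1235931852938539958271)), (.ofNat (nat_lit 171715823418061927975265239040))⟩,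
    ⟨nat_lit 3, nat_lit 4, (.negSucc (nat_lit 32767999)), (.ofNat (nat_lit 86507520)), (.negSucc (nat_lit 32767983)), (.ofNat (nat_lit 86507504)), (.ofNat (nat_lit 2471863705877079916544)), (.ofNat (nat_lit 1235931852938539958272)), (.ofNat (nat_lit 252713853332242082680579031040))⟩,
    ⟨nat_lit 5, nat_lit 4, (.ofNat (nat_lit 0)), (.ofNat (nat_lit 86507520)), (.ofNat (nat_lit 16)), (.ofNat (nat_lit 86507504)), (.negSucc (nat_lit 2471863705877079916543)), (.negSucc (nat_lit 1235931852938539958271)), (.ofNat (nat_lit 466548652305677691102607441920))⟩,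
    ⟨nat_lit 6, nat_lit 5, (.negSucc (nat_lit 170393599)), (.ofNat (nat_lit 0)), (.negSucc (nat_lit 170393583)), (.negSucc (nat_lit 15)), (.ofNat (nat_lit 2471863705877079916544)), (.ofNat (nat_lit 1235931852938539958272)), (.ofNat (nat_lit 466548652305677691102607441920))⟩,
    ⟨nat_lit 6, nat_lit 7, (.negSucc (nat_lit 170393599)), (.negSucc (nat_lit 118226943)), (.negSucc (nat_lit 170393583)), (.negSucc (nat_lit 118226959)), (.negSucc (nat_lit 2471863705877079916543)), (.negSucc (nat_lit 1235931852938539958271)), (.ofNat (nat_lit 45358896751940886634975723520))⟩,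
    ⟨nat_lit 24, nat_lit 8, (.negSucc (nat_lit 120324095)), (.negSucc (nat_lit 34078719)), (.negSucc (nat_lit 120324079)), (.negSucc (nat_lit 34078735)), (.ofNat (nat_lit 2471863705877079916544)), (.ofNat (nat_lit 1235931852938539958272)), (.ofNat (nat_lit 340191725639556649762317926400))⟩,
    ⟨nat_lit 8, nat_lit 9, (.negSucc (nat_lit 34078719)), (.ofNat (nat_lit 86507520)), (.negSucc (nat_lit 34078703)), (.ofNat (nat_lit 86507504)), (.negSucc (nat_lit 2471863705877079916543)), (.negSucc (nat_lit 1235931852938539958271)), (.ofNat (nat_lit 255953774528809288868791582720))⟩,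
    ⟨nat_lit 9, nat_lit 10, (.ofNat (nat_lit 86507520)), (.ofNat (nat_lit 154664960)), (.ofNat (nat_lit 86507536)), (.ofNat (nat_lit 154664944)), (.ofNat (nat_lit 2471863705877079916544)), (.ofNat (nat_lit 1235931852938539958272)), (.ofNat (nat_lit 42118975555373680446763171840))⟩,
    ⟨nat_lit 11, nat_lit 10, (.ofNat (nat_lit 103546880)), (.ofNat (nat_lit 154664960)), (.ofNat (nat_lit 103546896)), (.ofNat (nat_lit 154664944)), (.negSucc (nat_lit 2471863705877079916543)), (.negSucc (nat_lit 1235931852938539958271)), (.ofNat (nat_lit 424429676750304010655844270080))⟩,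
    ⟨nat_lit 12, nat_lit 11, (.ofNat (nat_lit 69468160)), (.ofNat (nat_lit 103546880)), (.ofNat (nat_lit 69468176)), (.ofNat (nat_lit 103546864)), (.ofNat (nat_lit 2471863705877079916544)), (.ofNat (nat_lit 1235931852938539958272)), (.ofNat (nat_lit 168475902221494721787052687360))⟩,
    ⟨nat_lit 12, nat_lit 13, (.ofNat (nat_lit 69468160)), (.ofNat (nat_lit 137625600)), (.ofNat (nat_lit 69468176)), (.ofNat (nat_lit 137625584)), (.negSucc (nat_lit 2471863705877079916543)), (.negSucc (nat_lit 1235931852938539958271)), (.ofNat (nat_lit 340191725639556649762317926400))⟩,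
    ⟨nat_lit 14, nat_lit 13, (.ofNat (nat_lit 86507520)), (.ofNat (nat_lit 137625600)), (.ofNat (nat_lit 86507536)), (.ofNat (nat_lit 137625584)), (.ofNat (nat_lit 2471863705877079916544)), (.ofNat (nat_lit 1235931852938539958272)), (.ofNat (nat_lit 0))⟩,
    ⟨nat_lit 15, nat_lit 14, (.negSucc (nat_lit 32767999)), (.ofNat (nat_lit 86507520)), (.negSucc (nat_lit 32767983)), (.ofNat (nat_lit 86507504)), (.negSucc (nat_lit 2471863705877079916543)), (.negSucc (nat_lit 1235931852938539958271)), (.ofNat (nat_lit 213834798973435608422028410880))⟩,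
    ⟨nat_lit 16, nat_lit 15, (.negSucc (nat_lit 83886079)), (.negSucc (nat_lit 32767999)), (.negSucc (nat_lit 83886063)), (.negSucc (nat_lit 32768015)), (.ofNat (nat_lit 2471863705877079916544)), (.ofNat (nat_lit 1235931852938539958272)), (.ofNat (nat_lit 294832828887615763127342202880))⟩,
    ⟨nat_lit 16, nat_lit 17, (.negSucc (nat_lit 83886079)), (.negSucc (nat_lit 15728639)), (.negSucc (nat_lit 83886063)), (.negSucc (nat_lit 15728655)), (.negSucc (nat_lit 2471863705877079916543)), (.negSucc (nat_lit 1235931852938539958271)), (.ofNat (nat_lit 87477872307314567081738895360))⟩,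
    ⟨nat_lit 17, nat_lit 18, (.negSucc (nat_lit 15728639)), (.ofNat (nat_lit 103546880)), (.negSucc (nat_lit 15728623)), (.ofNat (nat_lit 103546864)), (.ofNat (nat_lit 2471863705877079916544)), (.ofNat (nat_lit 1235931852938539958272)), (.ofNat (nat_lit 126356926666121041340289515520))⟩,
    ⟨nat_lit 19, nat_lit 18, (.ofNat (nat_lit 69468160)), (.ofNat (nat_lit 103546880)), (.ofNat (nat_lit 69468176)), (.ofNat (nat_lit 103546864)), (.negSucc (nat_lit 2471863705877079916543)), (.negSucc (nat_lit 1235931852938539958271)), (.ofNat (nat_lit 382310701194930330209081098240))⟩,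
    ⟨nat_lit 20, nat_lit 19, (.negSucc (nat_lit 32767999)), (.ofNat (nat_lit 69468160)), (.negSucc (nat_lit 32767983)), (.ofNat (nat_lit 69468144)), (.ofNat (nat_lit 2471863705877079916544)), (.ofNat (nat_lit 1235931852938539958272)), (.ofNat (nat_lit 210594877776868402233815859200))⟩,
    ⟨nat_lit 21, nat_lit 20, (.negSucc (nat_lit 102236159)), (.negSucc (nat_lit 32767999)), (.negSucc (nat_lit 102236143)), (.negSucc (nat_lit 32768015)), (.negSucc (nat_lit 2471863705877079916543)), (.negSucc (nat_lit 1235931852938539958271)), (.ofNat (nat_lit 129596847862688247528502067200))⟩,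
    ⟨nat_lit 21, nat_lit 22, (.negSucc (nat_lit 102236159)), (.negSucc (nat_lit 34078719)), (.negSucc (nat_lit 102236143)), (.negSucc (nat_lit 34078735)), (.ofNat (nat_lit 2471863705877079916544)), (.ofNat (nat_lit 1235931852938539958272)), (.ofNat (nat_lit 382310701194930330209081098240))⟩,
    ⟨nat_lit 22, nat_lit 23, (.negSucc (nat_lit 34078719)), (.ofNat (nat_lit 86507520)), (.negSucc (nat_lit 34078703)), (.ofNat (nat_lit 86507504)), (.negSucc (nat_lit 2471863705877079916543)), (.negSucc (nat_lit 1235931852938539958271)), (.ofNat (nat_lit 298072750084182969315554754560))⟩,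
    ⟨nat_lit 0, nat_lit 23, (.negSucc (nat_lit 34078719)), (.ofNat (nat_lit 86507520)), (.negSucc (nat_lit 34078703)), (.ofNat (nat_lit 86507504)), (.ofNat (nat_lit 2471863705877079916544)), (.ofNat (nat_lit 1235931852938539958272)), (.ofNat (nat_lit 84237951110747360893526343680))⟩,
    ⟨nat_lit 24, nat_lit 25, (.negSucc (nat_lit 120324095)), (.negSucc (nat_lit 119275519)), (.negSucc (nat_lit 120324079)), (.negSucc (nat_lit 119275535)), (.negSucc (nat_lit 2471863705877079916543)), (.negSucc (nat_lit 2471863705877079916543)), (.negSucc (nat_lit 105945423127747642354550439935))⟩,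
    ⟨nat_lit 25, nat_lit 7, (.negSucc (nat_lit 119275519)), (.negSucc (nat_lit 118226943)), (.negSucc (nat_lit 119275503)), (.negSucc (nat_lit 118226959)), (.ofNat (nat_lit 2471863705877079916544)), (.ofNat (nat_lit 2471863705877079916544)), (.ofNat (nat_lit 483720234647483883900133965824))⟩]

theorem ok9 : stOK 25 25 S9 = true := by decide +kernel

def S10 : SD where
  vs := [
    ⟨nat_lit 0, nat_lit 0, nat_lit 23, (.ofNat (nat_lit 8)), (.negSucc (nat_lit 34078719)), (.ofNat (nat_lit 84237951110747360893526343680)), (.ofNat (nat_lit 0)), (.ofNat (nat_lit 42118975555373680446763171840)), (.negSucc (nat_lit 34078735)), (.negSucc (nat_lit 34078703)), (.negSucc (nat_lit 2471863705877079916543)), (.ofNat (nat_lit 2471863705877079916544)), (.negSucc (nat_lit 2471863705877079916543)), (.ofNat (nat_lit 2471863705877079916544)), (.ofNat (nat_lit 7415591117631239749632))⟩,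
    ⟨nat_lit 2, nat_lit 0, nat_lit 1, (.ofNat (nat_lit 8)), (.negSucc (nat_lit 171704319)), (.ofNat (nat_lit 424429676750304010655844270080)), (.ofNat (nat_lit 0)), (.ofNat (nat_lit 212214838375152005327922135040)), (.negSucc (nat_lit 171704335)), (.negSucc (nat_lit 171704303)), (.negSucc (nat_lit 2471863705877079916543)), (.ofNat (nat_lit 2471863705877079916544)), (.negSucc (nat_lit 2471863705877079916543)), (.ofNat (nat_lit 2471863705877079916544)), (.ofNat (nat_lit 7415591117631239749632))⟩,
    ⟨nat_lit 0, nat_lit 1, nat_lit 2, (.ofNat (nat_lit 8)), (.negSucc (nat_lit 102236159)), (.ofNat (nat_lit 596145500168365938631109509120)), (.ofNat (nat_lit 0)), (.ofNat (nat_lit 298072750084182969315554754560)), (.negSucc (nat_lit 102236175)), (.negSucc (nat_lit 102236143)), (.ofNat (nat_lit 2471863705877079916544)), (.negSucc (nat_lit 2471863705877079916543)), (.negSucc (nat_lit 2471863705877079916543)), (.ofNat (nat_lit 2471863705877079916544)), (.ofNat (nat_lit 7415591117631239749632))⟩,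
    ⟨nat_lit 0, nat_lit 2, nat_lit 3, (.ofNat (nat_lit 8)), (.negSucc (nat_lit 32767999)), (.ofNat (nat_lit 424429676750304010655844270080)), (.ofNat (nat_lit 0)), (.ofNat (nat_lit 212214838375152005327922135040)), (.negSucc (nat_lit 32768015)), (.negSucc (nat_lit 32767983)), (.negSucc (nat_lit 2471863705877079916543)), (.ofNat (nat_lit 2471863705877079916544)), (.negSucc (nat_lit 2471863705877079916543)), (.ofNat (nat_lit 2471863705877079916544)), (.ofNat (nat_lit 7415591117631239749632))⟩,
    ⟨nat_lit 1, nat_lit 3, nat_lit 4, (.ofNat (nat_lit 8)), (.ofNat (nat_lit 86507520)), (.ofNat (nat_lit 719262505637919773783186472960)), (.ofNat (nat_lit 0)), (.ofNat (nat_lit 359631252818959886891593236480)), (.ofNat (nat_lit 86507504)), (.ofNat (nat_lit 86507536)), (.ofNat (nat_lit 2471863705877079916544)), (.negSucc (nat_lit 2471863705877079916543)), (.negSucc (nat_lit 2471863705877079916543)), (.ofNat (nat_lit 2471863705877079916544)), (.ofNat (nat_lit 7415591117631239749632))⟩,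
    ⟨nat_lit 0, nat_lit 5, nat_lit 4, (.ofNat (nat_lit 8)), (.ofNat (nat_lit 0)), (.ofNat (nat_lit 933097304611355382205214883840)), (.ofNat (nat_lit 0)), (.ofNat (nat_lit 466548652305677691102607441920)), (.negSucc (nat_lit 15)), (.ofNat (nat_lit 16)), (.ofNat (nat_lit 2471863705877079916544)), (.negSucc (nat_lit 2471863705877079916543)), (.negSucc (nat_lit 2471863705877079916543)), (.ofNat (nat_lit 2471863705877079916544)), (.ofNat (nat_lit 7415591117631239749632))⟩,
    ⟨nat_lit 2, nat_lit 6, nat_lit 5, (.ofNat (nat_lit 8)), (.negSucc (nat_lit 170393599)), (.ofNat (nat_lit 511907549057618577737583165440)), (.ofNat (nat_lit 0)), (.ofNat (nat_lit 255953774528809288868791582720)), (.negSucc (nat_lit 170393615)), (.negSucc (nat_lit 170393583)), (.negSucc (nat_lit 2471863705877079916543)), (.ofNat (nat_lit 2471863705877079916544)), (.negSucc (nat_lit 2471863705877079916543)), (.ofNat (nat_lit 2471863705877079916544)), (.ofNat (nat_lit 7415591117631239749632))⟩,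
    ⟨nat_lit 1, nat_lit 25, nat_lit 6, (.ofNat (nat_lit 8)), (.negSucc (nat_lit 118226943)), (.ofNat (nat_lit 382958685434243771446723608576)), (.ofNat (nat_lit 0)), (.ofNat (nat_lit 191479342717121885723361804288)), (.negSucc (nat_lit 118226959)), (.negSucc (nat_lit 118226927)), (.ofNat (nat_lit 2471863705877079916544)), (.negSucc (nat_lit 2471863705877079916543)), (.negSucc (nat_lit 2471863705877079916543)), (.ofNat (nat_lit 2471863705877079916544)), (.ofNat (nat_lit 12359318529385399582720))⟩,
    ⟨nat_lit 0, nat_lit 7, nat_lit 8, (.ofNat (nat_lit 8)), (.negSucc (nat_lit 34078719)), (.ofNat (nat_lit 596145500168365938631109509120)), (.ofNat (nat_lit 0)), (.ofNat (nat_lit 298072750084182969315554754560)), (.negSucc (nat_lit 34078735)), (.negSucc (nat_lit 34078703)), (.ofNat (nat_lit 2471863705877079916544)), (.negSucc (nat_lit 2471863705877079916543)), (.negSucc (nat_lit 2471863705877079916543)), (.ofNat (nat_lit 2471863705877079916544)), (.ofNat (nat_lit 7415591117631239749632))⟩,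
    ⟨nat_lit 0, nat_lit 8, nat_lit 9, (.ofNat (nat_lit 8)), (.ofNat (nat_lit 86507520)), (.ofNat (nat_lit 298072750084182969315554754560)), (.ofNat (nat_lit 0)), (.ofNat (nat_lit 149036375042091484657777377280)), (.ofNat (nat_lit 86507504)), (.ofNat (nat_lit 86507536)), (.negSucc (nat_lit 2471863705877079916543)), (.ofNat (nat_lit 2471863705877079916544)), (.negSucc (nat_lit 2471863705877079916543)), (.ofNat (nat_lit 2471863705877079916544)), (.ofNat (nat_lit 7415591117631239749632))⟩,
    ⟨nat_lit 1, nat_lit 9, nat_lit 10, (.ofNat (nat_lit 8)), (.ofNat (nat_lit 154664960)), (.ofNat (nat_lit 466548652305677691102607441920)), (.ofNat (nat_lit 0)), (.ofNat (nat_lit 233274326152838845551303720960)), (.ofNat (nat_lit 154664944)), (.ofNat (nat_lit 154664976)), (.ofNat (nat_lit 2471863705877079916544)), (.negSucc (nat_lit 2471863705877079916543)), (.negSucc (nat_lit 2471863705877079916543)), (.ofNat (nat_lit 2471863705877079916544)), (.ofNat (nat_lit 7415591117631239749632))⟩,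
    ⟨nat_lit 0, nat_lit 11, nat_lit 10, (.ofNat (nat_lit 8)), (.ofNat (nat_lit 103546880)), (.ofNat (nat_lit 592905578971798732442896957440)), (.ofNat (nat_lit 0)), (.ofNat (nat_lit 296452789485899366221448478720)), (.ofNat (nat_lit 103546864)), (.ofNat (nat_lit 103546896)), (.ofNat (nat_lit 2471863705877079916544)), (.negSucc (nat_lit 2471863705877079916543)), (.negSucc (nat_lit 2471863705877079916543)), (.ofNat (nat_lit 2471863705877079916544)), (.ofNat (nat_lit 7415591117631239749632))⟩,
    ⟨nat_lit 2, nat_lit 12, nat_lit 11, (.ofNat (nat_lit 8)), (.ofNat (nat_lit 69468160)), (.ofNat (nat_lit 508667627861051371549370613760)), (.ofNat (nat_lit 0)), (.ofNat (nat_lit 254333813930525685774685306880)), (.ofNat (nat_lit 69468144)), (.ofNat (nat_lit 69468176)), (.negSucc (nat_lit 2471863705877079916543)), (.ofNat (nat_lit 2471863705877079916544)), (.negSucc (nat_lit 2471863705877079916543)), (.ofNat (nat_lit 2471863705877079916544)), (.ofNat (nat_lit 7415591117631239749632))⟩,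
    ⟨nat_lit 1, nat_lit 13, nat_lit 12, (.ofNat (nat_lit 8)), (.ofNat (nat_lit 137625600)), (.ofNat (nat_lit 340191725639556649762317926400)), (.ofNat (nat_lit 0)), (.ofNat (nat_lit 170095862819778324881158963200)), (.ofNat (nat_lit 137625584)), (.ofNat (nat_lit 137625616)), (.ofNat (nat_lit 2471863705877079916544)), (.negSucc (nat_lit 2471863705877079916543)), (.negSucc (nat_lit 2471863705877079916543)), (.ofNat (nat_lit 2471863705877079916544)), (.ofNat (nat_lit 7415591117631239749632))⟩,
    ⟨nat_lit 0, nat_lit 14, nat_lit 13, (.ofNat (nat_lit 8)), (.ofNat (nat_lit 86507520)), (.ofNat (nat_lit 213834798973435608422028410880)), (.ofNat (nat_lit 0)), (.ofNat (nat_lit 106917399486717804211014205440)), (.ofNat (nat_lit 86507504)), (.ofNat (nat_lit 86507536)), (.negSucc (nat_lit 2471863705877079916543)), (.ofNat (nat_lit 2471863705877079916544)), (.negSucc (nat_lit 2471863705877079916543)), (.ofNat (nat_lit 2471863705877079916544)), (.ofNat (nat_lit 7415591117631239749632))⟩,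
    ⟨nat_lit 0, nat_lit 15, nat_lit 14, (.ofNat (nat_lit 8)), (.negSucc (nat_lit 32767999)), (.ofNat (nat_lit 508667627861051371549370613760)), (.ofNat (nat_lit 0)), (.ofNat (nat_lit 254333813930525685774685306880)), (.negSucc (nat_lit 32768015)), (.negSucc (nat_lit 32767983)), (.ofNat (nat_lit 2471863705877079916544)), (.negSucc (nat_lit 2471863705877079916543)), (.negSucc (nat_lit 2471863705877079916543)), (.ofNat (nat_lit 2471863705877079916544)), (.ofNat (nat_lit 7415591117631239749632))⟩,
    ⟨nat_lit 2, nat_lit 16, nat_lit 15, (.ofNat (nat_lit 8)), (.negSucc (nat_lit 83886079)), (.ofNat (nat_lit 382310701194930330209081098240)), (.ofNat (nat_lit 0)), (.ofNat (nat_lit 191155350597465165104540549120)), (.negSucc (nat_lit 83886095)), (.negSucc (nat_lit 83886063)), (.negSucc (nat_lit 2471863705877079916543)), (.ofNat (nat_lit 2471863705877079916544)), (.negSucc (nat_lit 2471863705877079916543)), (.ofNat (nat_lit 2471863705877079916544)), (.ofNat (nat_lit 7415591117631239749632))⟩,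
    ⟨nat_lit 0, nat_lit 16, nat_lit 17, (.ofNat (nat_lit 8)), (.negSucc (nat_lit 15728639)), (.ofNat (nat_lit 213834798973435608422028410880)), (.ofNat (nat_lit 0)), (.ofNat (nat_lit 106917399486717804211014205440)), (.negSucc (nat_lit 15728655)), (.negSucc (nat_lit 15728623)), (.negSucc (nat_lit 2471863705877079916543)), (.ofNat (nat_lit 2471863705877079916544)), (.negSucc (nat_lit 2471863705877079916543)), (.ofNat (nat_lit 2471863705877079916544)), (.ofNat (nat_lit 7415591117631239749632))⟩,
    ⟨nat_lit 1, nat_lit 17, nat_lit 18, (.ofNat (nat_lit 8)), (.ofNat (nat_lit 103546880)), (.ofNat (nat_lit 508667627861051371549370613760)), (.ofNat (nat_lit 0)), (.ofNat (nat_lit 254333813930525685774685306880)), (.ofNat (nat_lit 103546864)), (.ofNat (nat_lit 103546896)), (.ofNat (nat_lit 2471863705877079916544)), (.negSucc (nat_lit 2471863705877079916543)), (.negSucc (nat_lit 2471863705877079916543)), (.ofNat (nat_lit 2471863705877079916544)), (.ofNat (nat_lit 7415591117631239749632))⟩,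
    ⟨nat_lit 0, nat_lit 19, nat_lit 18, (.ofNat (nat_lit 8)), (.ofNat (nat_lit 69468160)), (.ofNat (nat_lit 592905578971798732442896957440)), (.ofNat (nat_lit 0)), (.ofNat (nat_lit 296452789485899366221448478720)), (.ofNat (nat_lit 69468144)), (.ofNat (nat_lit 69468176)), (.ofNat (nat_lit 2471863705877079916544)), (.negSucc (nat_lit 2471863705877079916543)), (.negSucc (nat_lit 2471863705877079916543)), (.ofNat (nat_lit 2471863705877079916544)), (.ofNat (nat_lit 7415591117631239749632))⟩,
    ⟨nat_lit 0, nat_lit 20, nat_lit 19, (.ofNat (nat_lit 8)), (.negSucc (nat_lit 32767999)), (.ofNat (nat_lit 340191725639556649762317926400)), (.ofNat (nat_lit 0)), (.ofNat (nat_lit 170095862819778324881158963200)), (.negSucc (nat_lit 32768015)), (.negSucc (nat_lit 32767983)), (.negSucc (nat_lit 2471863705877079916543)), (.ofNat (nat_lit 2471863705877079916544)), (.negSucc (nat_lit 2471863705877079916543)), (.ofNat (nat_lit 2471863705877079916544)), (.ofNat (nat_lit 7415591117631239749632))⟩,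
    ⟨nat_lit 2, nat_lit 20, nat_lit 21, (.ofNat (nat_lit 8)), (.negSucc (nat_lit 102236159)), (.ofNat (nat_lit 511907549057618577737583165440)), (.ofNat (nat_lit 0)), (.ofNat (nat_lit 255953774528809288868791582720)), (.negSucc (nat_lit 102236175)), (.negSucc (nat_lit 102236143)), (.negSucc (nat_lit 2471863705877079916543)), (.ofNat (nat_lit 2471863705877079916544)), (.negSucc (nat_lit 2471863705877079916543)), (.ofNat (nat_lit 2471863705877079916544)), (.ofNat (nat_lit 7415591117631239749632))⟩,
    ⟨nat_lit 0, nat_lit 21, nat_lit 22, (.ofNat (nat_lit 8)), (.negSucc (nat_lit 34078719)), (.ofNat (nat_lit 680383451279113299524635852800)), (.ofNat (nat_lit 0)), (.ofNat (nat_lit 340191725639556649762317926400)), (.negSucc (nat_lit 34078735)), (.negSucc (nat_lit 34078703)), (.ofNat (nat_lit 2471863705877079916544)), (.negSucc (nat_lit 2471863705877079916543)), (.negSucc (nat_lit 2471863705877079916543)), (.ofNat (nat_lit 2471863705877079916544)), (.ofNat (nat_lit 7415591117631239749632))⟩,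
    ⟨nat_lit 1, nat_lit 23, nat_lit 22, (.ofNat (nat_lit 8)), (.ofNat (nat_lit 86507520)), (.ofNat (nat_lit 382310701194930330209081098240)), (.ofNat (nat_lit 0)), (.ofNat (nat_lit 191155350597465165104540549120)), (.ofNat (nat_lit 86507504)), (.ofNat (nat_lit 86507536)), (.ofNat (nat_lit 2471863705877079916544)), (.negSucc (nat_lit 2471863705877079916543)), (.negSucc (nat_lit 2471863705877079916543)), (.ofNat (nat_lit 2471863705877079916544)), (.ofNat (nat_lit 7415591117631239749632))⟩,
    ⟨nat_lit 2, nat_lit 24, nat_lit 7, (.ofNat (nat_lit 8)), (.negSucc (nat_lit 120324095)), (.ofNat (nat_lit 382958685434243771446723608576)), (.ofNat (nat_lit 0)), (.ofNat (nat_lit 191479342717121885723361804288)), (.negSucc (nat_lit 120324111)), (.negSucc (nat_lit 120324079)), (.negSucc (nat_lit 2471863705877079916543)), (.ofNat (nat_lit 2471863705877079916544)), (.negSucc (nat_lit 2471863705877079916543)), (.ofNat (nat_lit 2471863705877079916544)), (.ofNat (nat_lit 12359318529385399582720))⟩,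
    ⟨nat_lit 0, nat_lit 24, nat_lit 25, (.ofNat (nat_lit 8)), (.negSucc (nat_lit 119275519)), (.ofNat (nat_lit 380366748476990006496153567232)), (.ofNat (nat_lit 0)), (.ofNat (nat_lit 188887405759868120772791762944)), (.negSucc (nat_lit 119275535)), (.negSucc (nat_lit 119275503)), (.negSucc (nat_lit 2471863705877079916543)), (.ofNat (nat_lit 2471863705877079916544)), (.negSucc (nat_lit 2471863705877079916543)), (.ofNat (nat_lit 2471863705877079916544)), (.ofNat (nat_lit 14831182235262479499264))⟩]
  es := [
    ⟨nat_lit 1, nat_lit 0, (.negSucc (nat_lit 171704319)), (.negSucc (nat_lit 34078719)), (.negSucc (nat_lit 171704303)), (.negSucc (nat_lit 34078735)), (.negSucc (nat_lit 2471863705877079916543)), (.negSucc (nat_lit 1235931852938539958271)), (.ofNat (nat_lit 0))⟩,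
    ⟨nat_lit 1, nat_lit 2, (.negSucc (nat_lit 171704319)), (.negSucc (nat_lit 102236159)), (.negSucc (nat_lit 171704303)), (.negSucc (nat_lit 102236175)), (.ofNat (nat_lit 2471863705877079916544)), (.ofNat (nat_lit 1235931852938539958272)), (.ofNat (nat_lit 424429676750304010655844270080))⟩,
    ⟨nat_lit 2, nat_lit 3, (.negSucc (nat_lit 102236159)), (.negSucc (nat_lit 32767999)), (.negSucc (nat_lit 102236143)), (.negSucc (nat_lit 32768015)), (.negSucc (nat_lit 2471863705877079916543)), (.negSucc (nat_lit 1235931852938539958271)), (.ofNat (nat_lit 171715823418061927975265239040))⟩,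
    ⟨nat_lit 3, nat_lit 4, (.negSucc (nat_lit 32767999)), (.ofNat (nat_lit 86507520)), (.negSucc (nat_lit 32767983)), (.ofNat (nat_lit 86507504)), (.ofNat (nat_lit 2471863705877079916544)), (.ofNat (nat_lit 1235931852938539958272)), (.ofNat (nat_lit 252713853332242082680579031040))⟩,
    ⟨nat_lit 5, nat_lit 4, (.ofNat (nat_lit 0)), (.ofNat (nat_lit 86507520)), (.ofNat (nat_lit 16)), (.ofNat (nat_lit 86507504)), (.negSucc (nat_lit 2471863705877079916543)), (.negSucc (nat_lit 1235931852938539958271)), (.ofNat (nat_lit 466548652305677691102607441920))⟩,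
    ⟨nat_lit 6, nat_lit 5, (.negSucc (nat_lit 170393599)), (.ofNat (nat_lit 0)), (.negSucc (nat_lit 170393583)), (.negSucc (nat_lit 15)), (.ofNat (nat_lit 2471863705877079916544)), (.ofNat (nat_lit 1235931852938539958272)), (.ofNat (nat_lit 466548652305677691102607441920))⟩,
    ⟨nat_lit 6, nat_lit 7, (.negSucc (nat_lit 170393599)), (.negSucc (nat_lit 118226943)), (.negSucc (nat_lit 170393583)), (.negSucc (nat_lit 118226959)), (.negSucc (nat_lit 2471863705877079916543)), (.negSucc (nat_lit 1235931852938539958271)), (.ofNat (nat_lit 45358896751940886634975723520))⟩,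
    ⟨nat_lit 24, nat_lit 8, (.negSucc (nat_lit 120324095)), (.negSucc (nat_lit 34078719)), (.negSucc (nat_lit 120324079)), (.negSucc (nat_lit 34078735)), (.ofNat (nat_lit 2471863705877079916544)), (.ofNat (nat_lit 1235931852938539958272)), (.ofNat (nat_lit 340191725639556649762317926400))⟩,
    ⟨nat_lit 8, nat_lit 9, (.negSucc (nat_lit 34078719)), (.ofNat (nat_lit 86507520)), (.negSucc (nat_lit 34078703)), (.ofNat (nat_lit 86507504)), (.negSucc (nat_lit 2471863705877079916543)), (.negSucc (nat_lit 1235931852938539958271)), (.ofNat (nat_lit 255953774528809288868791582720))⟩,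
    ⟨nat_lit 9, nat_lit 10, (.ofNat (nat_lit 86507520)), (.ofNat (nat_lit 154664960)), (.ofNat (nat_lit 86507536)), (.ofNat (nat_lit 154664944)), (.ofNat (nat_lit 2471863705877079916544)), (.ofNat (nat_lit 1235931852938539958272)), (.ofNat (nat_lit 42118975555373680446763171840))⟩,
    ⟨nat_lit 11, nat_lit 10, (.ofNat (nat_lit 103546880)), (.ofNat (nat_lit 154664960)), (.ofNat (nat_lit 103546896)), (.ofNat (nat_lit 154664944)), (.negSucc (nat_lit 2471863705877079916543)), (.negSucc (nat_lit 1235931852938539958271)), (.ofNat (nat_lit 424429676750304010655844270080))⟩,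
    ⟨nat_lit 12, nat_lit 11, (.ofNat (nat_lit 69468160)), (.ofNat (nat_lit 103546880)), (.ofNat (nat_lit 69468176)), (.ofNat (nat_lit 103546864)), (.ofNat (nat_lit 2471863705877079916544)), (.ofNat (nat_lit 1235931852938539958272)), (.ofNat (nat_lit 168475902221494721787052687360))⟩,
    ⟨nat_lit 12, nat_lit 13, (.ofNat (nat_lit 69468160)), (.ofNat (nat_lit 137625600)), (.ofNat (nat_lit 69468176)), (.ofNat (nat_lit 137625584)), (.negSucc (nat_lit 2471863705877079916543)), (.negSucc (nat_lit 1235931852938539958271)), (.ofNat (nat_lit 340191725639556649762317926400))⟩,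
    ⟨nat_lit 14, nat_lit 13, (.ofNat (nat_lit 86507520)), (.ofNat (nat_lit 137625600)), (.ofNat (nat_lit 86507536)), (.ofNat (nat_lit 137625584)), (.ofNat (nat_lit 2471863705877079916544)), (.ofNat (nat_lit 1235931852938539958272)), (.ofNat (nat_lit 0))⟩,
    ⟨nat_lit 15, nat_lit 14, (.negSucc (nat_lit 32767999)), (.ofNat (nat_lit 86507520)), (.negSucc (nat_lit 32767983)), (.ofNat (nat_lit 86507504)), (.negSucc (nat_lit 2471863705877079916543)), (.negSucc (nat_lit 1235931852938539958271)), (.ofNat (nat_lit 213834798973435608422028410880))⟩,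
    ⟨nat_lit 16, nat_lit 15, (.negSucc (nat_lit 83886079)), (.negSucc (nat_lit 32767999)), (.negSucc (nat_lit 83886063)), (.negSucc (nat_lit 32768015)), (.ofNat (nat_lit 2471863705877079916544)), (.ofNat (nat_lit 1235931852938539958272)), (.ofNat (nat_lit 294832828887615763127342202880))⟩,
    ⟨nat_lit 16, nat_lit 17, (.negSucc (nat_lit 83886079)), (.negSucc (nat_lit 15728639)), (.negSucc (nat_lit 83886063)), (.negSucc (nat_lit 15728655)), (.negSucc (nat_lit 2471863705877079916543)), (.negSucc (nat_lit 1235931852938539958271)), (.ofNat (nat_lit 87477872307314567081738895360))⟩,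
    ⟨nat_lit 17, nat_lit 18, (.negSucc (nat_lit 15728639)), (.ofNat (nat_lit 103546880)), (.negSucc (nat_lit 15728623)), (.ofNat (nat_lit 103546864)), (.ofNat (nat_lit 2471863705877079916544)), (.ofNat (nat_lit 1235931852938539958272)), (.ofNat (nat_lit 126356926666121041340289515520))⟩,
    ⟨nat_lit 19, nat_lit 18, (.ofNat (nat_lit 69468160)), (.ofNat (nat_lit 103546880)), (.ofNat (nat_lit 69468176)), (.ofNat (nat_lit 103546864)), (.negSucc (nat_lit 2471863705877079916543)), (.negSucc (nat_lit 1235931852938539958271)), (.ofNat (nat_lit 382310701194930330209081098240))⟩,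
    ⟨nat_lit 20, nat_lit 19, (.negSucc (nat_lit 32767999)), (.ofNat (nat_lit 69468160)), (.negSucc (nat_lit 32767983)), (.ofNat (nat_lit 69468144)), (.ofNat (nat_lit 2471863705877079916544)), (.ofNat (nat_lit 1235931852938539958272)), (.ofNat (nat_lit 210594877776868402233815859200))⟩,
    ⟨nat_lit 21, nat_lit 20, (.negSucc (nat_lit 102236159)), (.negSucc (nat_lit 32767999)), (.negSucc (nat_lit 102236143)), (.negSucc (nat_lit 32768015)), (.negSucc (nat_lit 2471863705877079916543)), (.negSucc (nat_lit 1235931852938539958271)), (.ofNat (nat_lit 129596847862688247528502067200))⟩,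
    ⟨nat_lit 21, nat_lit 22, (.negSucc (nat_lit 102236159)), (.negSucc (nat_lit 34078719)), (.negSucc (nat_lit 102236143)), (.negSucc (nat_lit 34078735)), (.ofNat (nat_lit 2471863705877079916544)), (.ofNat (nat_lit 1235931852938539958272)), (.ofNat (nat_lit 382310701194930330209081098240))⟩,
    ⟨nat_lit 22, nat_lit 23, (.negSucc (nat_lit 34078719)), (.ofNat (nat_lit 86507520)), (.negSucc (nat_lit 34078703)), (.ofNat (nat_lit 86507504)), (.negSucc (nat_lit 2471863705877079916543)), (.negSucc (nat_lit 1235931852938539958271)), (.ofNat (nat_lit 298072750084182969315554754560))⟩,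
    ⟨nat_lit 0, nat_lit 23, (.negSucc (nat_lit 34078719)), (.ofNat (nat_lit 86507520)), (.negSucc (nat_lit 34078703)), (.ofNat (nat_lit 86507504)), (.ofNat (nat_lit 2471863705877079916544)), (.ofNat (nat_lit 1235931852938539958272)), (.ofNat (nat_lit 84237951110747360893526343680))⟩,
    ⟨nat_lit 24, nat_lit 25, (.negSucc (nat_lit 120324095)), (.negSucc (nat_lit 119275519)), (.negSucc (nat_lit 120324079)), (.negSucc (nat_lit 119275535)), (.negSucc (nat_lit 2471863705877079916543)), (.negSucc (nat_lit 2471863705877079916543)), (.negSucc (nat_lit 105945423127747642354550439935))⟩,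
    ⟨nat_lit 25, nat_lit 7, (.negSucc (nat_lit 119275519)), (.negSucc (nat_lit 118226943)), (.negSucc (nat_lit 119275503)), (.negSucc (nat_lit 118226959)), (.ofNat (nat_lit 2471863705877079916544)), (.ofNat (nat_lit 2471863705877079916544)), (.ofNat (nat_lit 483720234647483883900133965824))⟩]

theorem ok10 : stOK 25 25 S10 = true := by decide +kernel

def S11 : SD where
  vs := [
    ⟨nat_lit 0, nat_lit 0, nat_lit 23, (.ofNat (nat_lit 8)), (.negSucc (nat_lit 34603007)), (.ofNat (nat_lit 85533919589374243368811364352)), (.negSucc (nat_lit 524287)), (.ofNat (nat_lit 1295968478626882475285020672)), (.negSucc (nat_lit 34603023)), (.negSucc (nat_lit 34602991)), (.negSucc (nat_lit 2471863705877079916543)), (.ofNat (nat_lit 2471863705877079916544)), (.negSucc (nat_lit 2471863705877079916543)), (.ofNat (nat_lit 2471863705877079916544)), (.ofNat (nat_lit 0))⟩,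
    ⟨nat_lit 2, nat_lit 0, nat_lit 1, (.ofNat (nat_lit 8)), (.negSucc (nat_lit 191365119)), (.ofNat (nat_lit 473028494698812103479032545280)), (.negSucc (nat_lit 19660799)), (.ofNat (nat_lit 48598817948508092823188275200)), (.negSucc (nat_lit 191365135)), (.negSucc (nat_lit 191365103)), (.negSucc (nat_lit 2471863705877079916543)), (.ofNat (nat_lit 2471863705877079916544)), (.negSucc (nat_lit 2471863705877079916543)), (.ofNat (nat_lit 2471863705877079916544)), (.ofNat (nat_lit 0))⟩,
    ⟨nat_lit 0, nat_lit 1, nat_lit 2, (.ofNat (nat_lit 8)), (.negSucc (nat_lit 104071167)), (.ofNat (nat_lit 688807246390188035613988487168)), (.negSucc (nat_lit 1835007)), (.ofNat (nat_lit 92661746221822096982878978048)), (.negSucc (nat_lit 104071183)), (.negSucc (nat_lit 104071151)), (.ofNat (nat_lit 2471863705877079916544)), (.negSucc (nat_lit 2471863705877079916543)), (.negSucc (nat_lit 2471863705877079916543)), (.ofNat (nat_lit 2471863705877079916544)), (.ofNat (nat_lit 0))⟩,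
    ⟨nat_lit 0, nat_lit 2, nat_lit 3, (.ofNat (nat_lit 8)), (.negSucc (nat_lit 16515071)), (.ofNat (nat_lit 472380510459498662241390034944)), (.ofNat (nat_lit 16252928)), (.ofNat (nat_lit 47950833709194651585545764864)), (.negSucc (nat_lit 16515087)), (.negSucc (nat_lit 16515055)), (.negSucc (nat_lit 2471863705877079916543)), (.ofNat (nat_lit 2471863705877079916544)), (.negSucc (nat_lit 2471863705877079916543)), (.ofNat (nat_lit 2471863705877079916544)), (.ofNat (nat_lit 0))⟩,
    ⟨nat_lit 1, nat_lit 3, nat_lit 4, (.ofNat (nat_lit 8)), (.ofNat (nat_lit 104595456)), (.ofNat (nat_lit 771749229022308514032229810176)), (.ofNat (nat_lit 18087936)), (.ofNat (nat_lit 52486723384388740249043337216)), (.ofNat (nat_lit 104595440)), (.ofNat (nat_lit 104595472)), (.ofNat (nat_lit 2471863705877079916544)), (.negSucc (nat_lit 2471863705877079916543)), (.negSucc (nat_lit 2471863705877079916543)), (.ofNat (nat_lit 2471863705877079916544)), (.ofNat (nat_lit 0))⟩,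
    ⟨nat_lit 0, nat_lit 5, nat_lit 4, (.ofNat (nat_lit 8)), (.negSucc (nat_lit 262143)), (.ofNat (nat_lit 1030942924747685009089233944576)), (.negSucc (nat_lit 262143)), (.ofNat (nat_lit 97845620136329626884019060736)), (.negSucc (nat_lit 262159)), (.negSucc (nat_lit 262127)), (.ofNat (nat_lit 2471863705877079916544)), (.negSucc (nat_lit 2471863705877079916543)), (.negSucc (nat_lit 2471863705877079916543)), (.ofNat (nat_lit 2471863705877079916544)), (.ofNat (nat_lit 0))⟩,
    ⟨nat_lit 2, nat_lit 6, nat_lit 5, (.ofNat (nat_lit 8)), (.negSucc (nat_lit 173015039)), (.ofNat (nat_lit 603921311040127233482819633152)), (.negSucc (nat_lit 2621439)), (.ofNat (nat_lit 92013761982508655745236467712)), (.negSucc (nat_lit 173015055)), (.negSucc (nat_lit 173015023)), (.negSucc (nat_lit 2471863705877079916543)), (.ofNat (nat_lit 2471863705877079916544)), (.negSucc (nat_lit 2471863705877079916543)), (.ofNat (nat_lit 2471863705877079916544)), (.ofNat (nat_lit 0))⟩,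
    ⟨nat_lit 1, nat_lit 25, nat_lit 6, (.ofNat (nat_lit 8)), (.negSucc (nat_lit 102760447)), (.ofNat (nat_lit 430261534904124981794626863104)), (.ofNat (nat_lit 15466496)), (.ofNat (nat_lit 47302849469881210347903254528)), (.negSucc (nat_lit 102760463)), (.negSucc (nat_lit 102760431)), (.ofNat (nat_lit 2471863705877079916544)), (.negSucc (nat_lit 2471863705877079916543)), (.negSucc (nat_lit 2471863705877079916543)), (.ofNat (nat_lit 2471863705877079916544)), (.ofNat (nat_lit 0))⟩,
    ⟨nat_lit 0, nat_lit 7, nat_lit 8, (.ofNat (nat_lit 8)), (.negSucc (nat_lit 34865151)), (.ofNat (nat_lit 688807246390188035613988487168)), (.negSucc (nat_lit 786431)), (.ofNat (nat_lit 92661746221822096982878978048)), (.negSucc (nat_lit 34865167)), (.negSucc (nat_lit 34865135)), (.ofNat (nat_lit 2471863705877079916544)), (.negSucc (nat_lit 2471863705877079916543)), (.negSucc (nat_lit 2471863705877079916543)), (.ofNat (nat_lit 2471863705877079916544)), (.ofNat (nat_lit 0))⟩,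
    ⟨nat_lit 0, nat_lit 8, nat_lit 9, (.ofNat (nat_lit 8)), (.ofNat (nat_lit 104595456)), (.ofNat (nat_lit 344079631075437297188172988416)), (.ofNat (nat_lit 18087936)), (.ofNat (nat_lit 46006880991254327872618233856)), (.ofNat (nat_lit 104595440)), (.ofNat (nat_lit 104595472)), (.negSucc (nat_lit 2471863705877079916543)), (.ofNat (nat_lit 2471863705877079916544)), (.negSucc (nat_lit 2471863705877079916543)), (.ofNat (nat_lit 2471863705877079916544)), (.ofNat (nat_lit 0))⟩,
    ⟨nat_lit 1, nat_lit 9, nat_lit 10, (.ofNat (nat_lit 8)), (.ofNat (nat_lit 173801472)), (.ofNat (nat_lit 515147470254185783925795717120)), (.ofNat (nat_lit 19136512)), (.ofNat (nat_lit 48598817948508092823188275200)), (.ofNat (nat_lit 173801456)), (.ofNat (nat_lit 173801488)), (.ofNat (nat_lit 2471863705877079916544)), (.negSucc (nat_lit 2471863705877079916543)), (.negSucc (nat_lit 2471863705877079916543)), (.ofNat (nat_lit 2471863705877079916544)), (.ofNat (nat_lit 0))⟩,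
    ⟨nat_lit 0, nat_lit 11, nat_lit 10, (.ofNat (nat_lit 8)), (.ofNat (nat_lit 121896960)), (.ofNat (nat_lit 643448349638247148979012763648)), (.ofNat (nat_lit 18350080)), (.ofNat (nat_lit 50542770666448416536115806208)), (.ofNat (nat_lit 121896944)), (.ofNat (nat_lit 121896976)), (.ofNat (nat_lit 2471863705877079916544)), (.negSucc (nat_lit 2471863705877079916543)), (.negSucc (nat_lit 2471863705877079916543)), (.ofNat (nat_lit 2471863705877079916544)), (.ofNat (nat_lit 0))⟩,
    ⟨nat_lit 2, nat_lit 12, nat_lit 11, (.ofNat (nat_lit 8)), (.ofNat (nat_lit 87293952)), (.ofNat (nat_lit 557914430048872905610201399296)), (.ofNat (nat_lit 17825792)), (.ofNat (nat_lit 49246802187821534060830785536)), (.ofNat (nat_lit 87293936)), (.ofNat (nat_lit 87293968)), (.negSucc (nat_lit 2471863705877079916543)), (.ofNat (nat_lit 2471863705877079916544)), (.negSucc (nat_lit 2471863705877079916543)), (.ofNat (nat_lit 2471863705877079916544)), (.ofNat (nat_lit 0))⟩,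
    ⟨nat_lit 1, nat_lit 13, nat_lit 12, (.ofNat (nat_lit 8)), (.ofNat (nat_lit 156499968)), (.ofNat (nat_lit 386846590870124418872578670592)), (.ofNat (nat_lit 18874368)), (.ofNat (nat_lit 46654865230567769110260744192)), (.ofNat (nat_lit 156499952)), (.ofNat (nat_lit 156499984)), (.ofNat (nat_lit 2471863705877079916544)), (.negSucc (nat_lit 2471863705877079916543)), (.negSucc (nat_lit 2471863705877079916543)), (.ofNat (nat_lit 2471863705877079916544)), (.ofNat (nat_lit 0))⟩,
    ⟨nat_lit 0, nat_lit 14, nat_lit 13, (.ofNat (nat_lit 8)), (.ofNat (nat_lit 104595456)), (.ofNat (nat_lit 258545711486063053819361624064)), (.ofNat (nat_lit 18087936)), (.ofNat (nat_lit 44710912512627445397333213184)), (.ofNat (nat_lit 104595440)), (.ofNat (nat_lit 104595472)), (.negSucc (nat_lit 2471863705877079916543)), (.ofNat (nat_lit 2471863705877079916544)), (.negSucc (nat_lit 2471863705877079916543)), (.ofNat (nat_lit 2471863705877079916544)), (.ofNat (nat_lit 0))⟩,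
    ⟨nat_lit 0, nat_lit 15, nat_lit 14, (.ofNat (nat_lit 8)), (.negSucc (nat_lit 33554431)), (.ofNat (nat_lit 600033405604246586056964571136)), (.negSucc (nat_lit 786431)), (.ofNat (nat_lit 91365777743195214507593957376)), (.negSucc (nat_lit 33554447)), (.negSucc (nat_lit 33554415)), (.ofNat (nat_lit 2471863705877079916544)), (.negSucc (nat_lit 2471863705877079916543)), (.negSucc (nat_lit 2471863705877079916543)), (.ofNat (nat_lit 2471863705877079916544)), (.ofNat (nat_lit 0))⟩,
    ⟨nat_lit 2, nat_lit 16, nat_lit 15, (.ofNat (nat_lit 8)), (.negSucc (nat_lit 102236159)), (.ofNat (nat_lit 430261534904124981794626863104)), (.negSucc (nat_lit 18350079)), (.ofNat (nat_lit 47950833709194651585545764864)), (.negSucc (nat_lit 102236175)), (.negSucc (nat_lit 102236143)), (.negSucc (nat_lit 2471863705877079916543)), (.ofNat (nat_lit 2471863705877079916544)), (.negSucc (nat_lit 2471863705877079916543)), (.ofNat (nat_lit 2471863705877079916544)), (.ofNat (nat_lit 0))⟩,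
    ⟨nat_lit 0, nat_lit 16, nat_lit 17, (.ofNat (nat_lit 8)), (.negSucc (nat_lit 15990783)), (.ofNat (nat_lit 217074720170002814610240962560)), (.negSucc (nat_lit 262143)), (.ofNat (nat_lit 3239921196567206188212551680)), (.negSucc (nat_lit 15990799)), (.negSucc (nat_lit 15990767)), (.negSucc (nat_lit 2471863705877079916543)), (.ofNat (nat_lit 2471863705877079916544)), (.negSucc (nat_lit 2471863705877079916543)), (.ofNat (nat_lit 2471863705877079916544)), (.ofNat (nat_lit 0))⟩,
    ⟨nat_lit 1, nat_lit 17, nat_lit 18, (.ofNat (nat_lit 8)), (.ofNat (nat_lit 121896960)), (.ofNat (nat_lit 557914430048872905610201399296)), (.ofNat (nat_lit 18350080)), (.ofNat (nat_lit 49246802187821534060830785536)), (.ofNat (nat_lit 121896944)), (.ofNat (nat_lit 121896976)), (.ofNat (nat_lit 2471863705877079916544)), (.negSucc (nat_lit 2471863705877079916543)), (.negSucc (nat_lit 2471863705877079916543)), (.ofNat (nat_lit 2471863705877079916544)), (.ofNat (nat_lit 0))⟩,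
    ⟨nat_lit 0, nat_lit 19, nat_lit 18, (.ofNat (nat_lit 8)), (.ofNat (nat_lit 87293952)), (.ofNat (nat_lit 643448349638247148979012763648)), (.ofNat (nat_lit 17825792)), (.ofNat (nat_lit 50542770666448416536115806208)), (.ofNat (nat_lit 87293936)), (.ofNat (nat_lit 87293968)), (.ofNat (nat_lit 2471863705877079916544)), (.negSucc (nat_lit 2471863705877079916543)), (.negSucc (nat_lit 2471863705877079916543)), (.ofNat (nat_lit 2471863705877079916544)), (.ofNat (nat_lit 0))⟩,
    ⟨nat_lit 0, nat_lit 20, nat_lit 19, (.ofNat (nat_lit 8)), (.negSucc (nat_lit 16515071)), (.ofNat (nat_lit 386846590870124418872578670592)), (.ofNat (nat_lit 16252928)), (.ofNat (nat_lit 46654865230567769110260744192)), (.negSucc (nat_lit 16515087)), (.negSucc (nat_lit 16515055)), (.negSucc (nat_lit 2471863705877079916543)), (.ofNat (nat_lit 2471863705877079916544)), (.negSucc (nat_lit 2471863705877079916543)), (.ofNat (nat_lit 2471863705877079916544)), (.ofNat (nat_lit 0))⟩,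
    ⟨nat_lit 2, nat_lit 20, nat_lit 21, (.ofNat (nat_lit 8)), (.negSucc (nat_lit 104071167)), (.ofNat (nat_lit 603273326800813792245177122816)), (.negSucc (nat_lit 1835007)), (.ofNat (nat_lit 91365777743195214507593957376)), (.negSucc (nat_lit 104071183)), (.negSucc (nat_lit 104071151)), (.negSucc (nat_lit 2471863705877079916543)), (.ofNat (nat_lit 2471863705877079916544)), (.negSucc (nat_lit 2471863705877079916543)), (.ofNat (nat_lit 2471863705877079916544)), (.ofNat (nat_lit 0))⟩,
    ⟨nat_lit 0, nat_lit 21, nat_lit 22, (.ofNat (nat_lit 8)), (.negSucc (nat_lit 34865151)), (.ofNat (nat_lit 774341165979562278982799851520)), (.negSucc (nat_lit 786431)), (.ofNat (nat_lit 93957714700448979458163998720)), (.negSucc (nat_lit 34865167)), (.negSucc (nat_lit 34865135)), (.ofNat (nat_lit 2471863705877079916544)), (.negSucc (nat_lit 2471863705877079916543)), (.negSucc (nat_lit 2471863705877079916543)), (.ofNat (nat_lit 2471863705877079916544)), (.ofNat (nat_lit 0))⟩,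
    ⟨nat_lit 1, nat_lit 23, nat_lit 22, (.ofNat (nat_lit 8)), (.ofNat (nat_lit 104595456)), (.ofNat (nat_lit 429613550664811540556984352768)), (.ofNat (nat_lit 18087936)), (.ofNat (nat_lit 47302849469881210347903254528)), (.ofNat (nat_lit 104595440)), (.ofNat (nat_lit 104595472)), (.ofNat (nat_lit 2471863705877079916544)), (.negSucc (nat_lit 2471863705877079916543)), (.negSucc (nat_lit 2471863705877079916543)), (.ofNat (nat_lit 2471863705877079916544)), (.ofNat (nat_lit 0))⟩,
    ⟨nat_lit 2, nat_lit 24, nat_lit 7, (.ofNat (nat_lit 8)), (.negSucc (nat_lit 139198463)), (.ofNat (nat_lit 430909519143438423032269373440)), (.negSucc (nat_lit 18874367)), (.ofNat (nat_lit 47950833709194651585545764864)), (.negSucc (nat_lit 139198479)), (.negSucc (nat_lit 139198447)), (.negSucc (nat_lit 2471863705877079916543)), (.ofNat (nat_lit 2471863705877079916544)), (.negSucc (nat_lit 2471863705877079916543)), (.ofNat (nat_lit 2471863705877079916544)), (.ofNat (nat_lit 0))⟩,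
    ⟨nat_lit 0, nat_lit 24, nat_lit 25, (.ofNat (nat_lit 8)), (.negSucc (nat_lit 120848383)), (.ofNat (nat_lit 385550622391497536397293649920)), (.negSucc (nat_lit 1572863)), (.ofNat (nat_lit 5183873914507529901140082688)), (.negSucc (nat_lit 120848399)), (.negSucc (nat_lit 120848367)), (.negSucc (nat_lit 2471863705877079916543)), (.ofNat (nat_lit 2471863705877079916544)), (.negSucc (nat_lit 2471863705877079916543)), (.ofNat (nat_lit 2471863705877079916544)), (.ofNat (nat_lit 0))⟩]
  es := [
    ⟨nat_lit 1, nat_lit 0, (.negSucc (nat_lit 191365119)), (.negSucc (nat_lit 34603007)), (.negSucc (nat_lit 191365103)), (.negSucc (nat_lit 34603023)), (.negSucc (nat_lit 2471863705877079916543)), (.ofNat (nat_lit 0)), (.ofNat (nat_lit 0))⟩,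
    ⟨nat_lit 1, nat_lit 2, (.negSucc (nat_lit 191365119)), (.negSucc (nat_lit 104071167)), (.negSucc (nat_lit 191365103)), (.negSucc (nat_lit 104071183)), (.ofNat (nat_lit 2471863705877079916544)), (.ofNat (nat_lit 0)), (.ofNat (nat_lit 97197635897016185646376550400))⟩,
    ⟨nat_lit 2, nat_lit 3, (.negSucc (nat_lit 104071167)), (.negSucc (nat_lit 16515071)), (.negSucc (nat_lit 104071151)), (.negSucc (nat_lit 16515087)), (.negSucc (nat_lit 2471863705877079916543)), (.ofNat (nat_lit 0)), (.ofNat (nat_lit 88125856546628008319381405696))⟩,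
    ⟨nat_lit 3, nat_lit 4, (.negSucc (nat_lit 16515071)), (.ofNat (nat_lit 104595456)), (.negSucc (nat_lit 16515055)), (.ofNat (nat_lit 104595440)), (.ofNat (nat_lit 2471863705877079916544)), (.ofNat (nat_lit 0)), (.ofNat (nat_lit 7775810871761294851710124032))⟩,
    ⟨nat_lit 5, nat_lit 4, (.negSucc (nat_lit 262143)), (.ofNat (nat_lit 104595456)), (.negSucc (nat_lit 262127)), (.ofNat (nat_lit 104595440)), (.negSucc (nat_lit 2471863705877079916543)), (.ofNat (nat_lit 0)), (.ofNat (nat_lit 97197635897016185646376550400))⟩,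
    ⟨nat_lit 6, nat_lit 5, (.negSucc (nat_lit 173015039)), (.negSucc (nat_lit 262143)), (.negSucc (nat_lit 173015023)), (.negSucc (nat_lit 262159)), (.ofNat (nat_lit 2471863705877079916544)), (.ofNat (nat_lit 0)), (.ofNat (nat_lit 98493604375643068121661571072))⟩,
    ⟨nat_lit 6, nat_lit 7, (.negSucc (nat_lit 173015039)), (.negSucc (nat_lit 102760447)), (.negSucc (nat_lit 173015023)), (.negSucc (nat_lit 102760463)), (.negSucc (nat_lit 2471863705877079916543)), (.ofNat (nat_lit 0)), (.ofNat (nat_lit 85533919589374243368811364352))⟩,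
    ⟨nat_lit 24, nat_lit 8, (.negSucc (nat_lit 139198463)), (.negSucc (nat_lit 34865151)), (.negSucc (nat_lit 139198447)), (.negSucc (nat_lit 34865167)), (.ofNat (nat_lit 2471863705877079916544)), (.ofNat (nat_lit 0)), (.ofNat (nat_lit 94605698939762420695806509056))⟩,
    ⟨nat_lit 8, nat_lit 9, (.negSucc (nat_lit 34865151)), (.ofNat (nat_lit 104595456)), (.negSucc (nat_lit 34865135)), (.ofNat (nat_lit 104595440)), (.negSucc (nat_lit 2471863705877079916543)), (.ofNat (nat_lit 0)), (.ofNat (nat_lit 90717793503881773269951447040))⟩,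
    ⟨nat_lit 9, nat_lit 10, (.ofNat (nat_lit 104595456)), (.ofNat (nat_lit 173801472)), (.ofNat (nat_lit 104595472)), (.ofNat (nat_lit 173801456)), (.ofNat (nat_lit 2471863705877079916544)), (.ofNat (nat_lit 0)), (.ofNat (nat_lit 1295968478626882475285020672))⟩,
    ⟨nat_lit 11, nat_lit 10, (.ofNat (nat_lit 121896960)), (.ofNat (nat_lit 173801472)), (.ofNat (nat_lit 121896976)), (.ofNat (nat_lit 173801456)), (.negSucc (nat_lit 2471863705877079916543)), (.ofNat (nat_lit 0)), (.ofNat (nat_lit 95901667418389303171091529728))⟩,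
    ⟨nat_lit 12, nat_lit 11, (.ofNat (nat_lit 87293952)), (.ofNat (nat_lit 121896960)), (.ofNat (nat_lit 87293968)), (.ofNat (nat_lit 121896944)), (.ofNat (nat_lit 2471863705877079916544)), (.ofNat (nat_lit 0)), (.ofNat (nat_lit 5183873914507529901140082688))⟩,
    ⟨nat_lit 12, nat_lit 13, (.ofNat (nat_lit 87293952)), (.ofNat (nat_lit 156499968)), (.ofNat (nat_lit 87293968)), (.ofNat (nat_lit 156499952)), (.negSucc (nat_lit 2471863705877079916543)), (.ofNat (nat_lit 0)), (.ofNat (nat_lit 93309730461135538220521488384))⟩,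
    ⟨nat_lit 14, nat_lit 13, (.ofNat (nat_lit 104595456)), (.ofNat (nat_lit 156499968)), (.ofNat (nat_lit 104595472)), (.ofNat (nat_lit 156499952)), (.ofNat (nat_lit 2471863705877079916544)), (.ofNat (nat_lit 0)), (.ofNat (nat_lit 0))⟩,
    ⟨nat_lit 15, nat_lit 14, (.negSucc (nat_lit 33554431)), (.ofNat (nat_lit 104595456)), (.negSucc (nat_lit 33554415)), (.ofNat (nat_lit 104595440)), (.negSucc (nat_lit 2471863705877079916543)), (.ofNat (nat_lit 0)), (.ofNat (nat_lit 89421825025254890794666426368))⟩,
    ⟨nat_lit 16, nat_lit 15, (.negSucc (nat_lit 102236159)), (.negSucc (nat_lit 33554431)), (.negSucc (nat_lit 102236143)), (.negSucc (nat_lit 33554447)), (.ofNat (nat_lit 2471863705877079916544)), (.ofNat (nat_lit 0)), (.ofNat (nat_lit 93309730461135538220521488384))⟩,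
    ⟨nat_lit 16, nat_lit 17, (.negSucc (nat_lit 102236159)), (.negSucc (nat_lit 15990783)), (.negSucc (nat_lit 102236143)), (.negSucc (nat_lit 15990799)), (.negSucc (nat_lit 2471863705877079916543)), (.ofNat (nat_lit 0)), (.ofNat (nat_lit 2591936957253764950570041344))⟩,
    ⟨nat_lit 17, nat_lit 18, (.negSucc (nat_lit 15990783)), (.ofNat (nat_lit 121896960)), (.negSucc (nat_lit 15990767)), (.ofNat (nat_lit 121896944)), (.ofNat (nat_lit 2471863705877079916544)), (.ofNat (nat_lit 0)), (.ofNat (nat_lit 3887905435880647425855062016))⟩,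
    ⟨nat_lit 19, nat_lit 18, (.ofNat (nat_lit 87293952)), (.ofNat (nat_lit 121896960)), (.ofNat (nat_lit 87293968)), (.ofNat (nat_lit 121896944)), (.negSucc (nat_lit 2471863705877079916543)), (.ofNat (nat_lit 0)), (.ofNat (nat_lit 94605698939762420695806509056))⟩,
    ⟨nat_lit 20, nat_lit 19, (.negSucc (nat_lit 16515071)), (.ofNat (nat_lit 87293952)), (.negSucc (nat_lit 16515055)), (.ofNat (nat_lit 87293936)), (.ofNat (nat_lit 2471863705877079916544)), (.ofNat (nat_lit 0)), (.ofNat (nat_lit 6479842393134412376425103360))⟩,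
    ⟨nat_lit 21, nat_lit 20, (.negSucc (nat_lit 104071167)), (.negSucc (nat_lit 16515071)), (.negSucc (nat_lit 104071151)), (.negSucc (nat_lit 16515087)), (.negSucc (nat_lit 2471863705877079916543)), (.ofNat (nat_lit 0)), (.ofNat (nat_lit 86829888068001125844096385024))⟩,
    ⟨nat_lit 21, nat_lit 22, (.negSucc (nat_lit 104071167)), (.negSucc (nat_lit 34865151)), (.negSucc (nat_lit 104071151)), (.negSucc (nat_lit 34865167)), (.ofNat (nat_lit 2471863705877079916544)), (.ofNat (nat_lit 0)), (.ofNat (nat_lit 95901667418389303171091529728))⟩,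
    ⟨nat_lit 22, nat_lit 23, (.negSucc (nat_lit 34865151)), (.ofNat (nat_lit 104595456)), (.negSucc (nat_lit 34865135)), (.ofNat (nat_lit 104595440)), (.negSucc (nat_lit 2471863705877079916543)), (.ofNat (nat_lit 0)), (.ofNat (nat_lit 92013761982508655745236467712))⟩,
    ⟨nat_lit 0, nat_lit 23, (.negSucc (nat_lit 34603007)), (.ofNat (nat_lit 104595456)), (.negSucc (nat_lit 34602991)), (.ofNat (nat_lit 104595440)), (.ofNat (nat_lit 2471863705877079916544)), (.ofNat (nat_lit 0)), (.ofNat (nat_lit 2591936957253764950570041344))⟩,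
    ⟨nat_lit 24, nat_lit 25, (.negSucc (nat_lit 139198463)), (.negSucc (nat_lit 120848383)), (.negSucc (nat_lit 139198447)), (.negSucc (nat_lit 120848399)), (.negSucc (nat_lit 2471863705877079916543)), (.ofNat (nat_lit 0)), (.ofNat (nat_lit 1295968478626882475285020672))⟩,
    ⟨nat_lit 25, nat_lit 7, (.negSucc (nat_lit 120848383)), (.negSucc (nat_lit 102760447)), (.negSucc (nat_lit 120848367)), (.negSucc (nat_lit 102760463)), (.ofNat (nat_lit 2471863705877079916544)), (.ofNat (nat_lit 0)), (.ofNat (nat_lit 9071779350388177326995144704))⟩]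

theorem ok11 : stOK 25 25 S11 = true := by decide +kernel

def S12 : SD where
  vs := [
    ⟨nat_lit 0, nat_lit 0, nat_lit 23, (.ofNat (nat_lit 8)), (.negSucc (nat_lit 33816575)), (.ofNat (nat_lit 80998029914180154705313792000)), (.ofNat (nat_lit 786432)), (.negSucc (nat_lit 4535889675194088663497572351)), (.negSucc (nat_lit 33816591)), (.negSucc (nat_lit 33816559)), (.negSucc (nat_lit 2471863705877079916543)), (.ofNat (nat_lit 2471863705877079916544)), (.negSucc (nat_lit 2471863705877079916543)), (.ofNat (nat_lit 2471863705877079916544)), (.ofNat (nat_lit 0))⟩,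
    ⟨nat_lit 2, nat_lit 0, nat_lit 1, (.ofNat (nat_lit 8)), (.negSucc (nat_lit 192806911)), (.ofNat (nat_lit 474000471057782265335496310784)), (.negSucc (nat_lit 1441791)), (.ofNat (nat_lit 971976358970161856463765504)), (.negSucc (nat_lit 192806927)), (.negSucc (nat_lit 192806895)), (.negSucc (nat_lit 2471863705877079916543)), (.ofNat (nat_lit 2471863705877079916544)), (.negSucc (nat_lit 2471863705877079916543)), (.ofNat (nat_lit 2471863705877079916544)), (.ofNat (nat_lit 0))⟩,
    ⟨nat_lit 0, nat_lit 1, nat_lit 2, (.ofNat (nat_lit 8)), (.negSucc (nat_lit 104333311)), (.ofNat (nat_lit 692695151826068683039843549184)), (.negSucc (nat_lit 262143)), (.ofNat (nat_lit 3887905435880647425855062016)), (.negSucc (nat_lit 104333327)), (.negSucc (nat_lit 104333295)), (.ofNat (nat_lit 2471863705877079916544)), (.negSucc (nat_lit 2471863705877079916543)), (.negSucc (nat_lit 2471863705877079916543)), (.ofNat (nat_lit 2471863705877079916544)), (.ofNat (nat_lit 0))⟩,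
    ⟨nat_lit 0, nat_lit 2, nat_lit 3, (.ofNat (nat_lit 8)), (.negSucc (nat_lit 15597567)), (.ofNat (nat_lit 473352486818468824097853800448)), (.ofNat (nat_lit 917504)), (.ofNat (nat_lit 971976358970161856463765504)), (.negSucc (nat_lit 15597583)), (.negSucc (nat_lit 15597551)), (.negSucc (nat_lit 2471863705877079916543)), (.ofNat (nat_lit 2471863705877079916544)), (.negSucc (nat_lit 2471863705877079916543)), (.ofNat (nat_lit 2471863705877079916544)), (.ofNat (nat_lit 0))⟩,
    ⟨nat_lit 1, nat_lit 3, nat_lit 4, (.ofNat (nat_lit 8)), (.ofNat (nat_lit 107347968)), (.ofNat (nat_lit 777257095056472764552191148032)), (.ofNat (nat_lit 2752512)), (.ofNat (nat_lit 5507866034164250519961337856)), (.ofNat (nat_lit 107347952)), (.ofNat (nat_lit 107347984)), (.ofNat (nat_lit 2471863705877079916544)), (.negSucc (nat_lit 2471863705877079916543)), (.negSucc (nat_lit 2471863705877079916543)), (.ofNat (nat_lit 2471863705877079916544)), (.ofNat (nat_lit 0))⟩,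
    ⟨nat_lit 0, nat_lit 5, nat_lit 4, (.ofNat (nat_lit 8)), (.ofNat (nat_lit 1048576)), (.ofNat (nat_lit 1040014704098073186416229089280)), (.ofNat (nat_lit 1310720)), (.ofNat (nat_lit 9071779350388177326995144704)), (.ofNat (nat_lit 1048560)), (.ofNat (nat_lit 1048592)), (.ofNat (nat_lit 2471863705877079916544)), (.negSucc (nat_lit 2471863705877079916543)), (.negSucc (nat_lit 2471863705877079916543)), (.ofNat (nat_lit 2471863705877079916544)), (.ofNat (nat_lit 0))⟩,
    ⟨nat_lit 2, nat_lit 6, nat_lit 5, (.ofNat (nat_lit 8)), (.negSucc (nat_lit 174063615)), (.ofNat (nat_lit 607161232236694439671032184832)), (.negSucc (nat_lit 1048575)), (.ofNat (nat_lit 3239921196567206188212551680)), (.negSucc (nat_lit 174063631)), (.negSucc (nat_lit 174063599)), (.negSucc (nat_lit 2471863705877079916543)), (.ofNat (nat_lit 2471863705877079916544)), (.negSucc (nat_lit 2471863705877079916543)), (.ofNat (nat_lit 2471863705877079916544)), (.ofNat (nat_lit 0))⟩,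
    ⟨nat_lit 1, nat_lit 25, nat_lit 6, (.ofNat (nat_lit 8)), (.negSucc (nat_lit 102629375)), (.ofNat (nat_lit 430585527023781702413448118272)), (.ofNat (nat_lit 131072)), (.ofNat (nat_lit 323992119656720618821255168)), (.negSucc (nat_lit 102629391)), (.negSucc (nat_lit 102629359)), (.ofNat (nat_lit 2471863705877079916544)), (.negSucc (nat_lit 2471863705877079916543)), (.negSucc (nat_lit 2471863705877079916543)), (.ofNat (nat_lit 2471863705877079916544)), (.ofNat (nat_lit 0))⟩,
    ⟨nat_lit 0, nat_lit 7, nat_lit 8, (.ofNat (nat_lit 8)), (.negSucc (nat_lit 34078719)), (.ofNat (nat_lit 692695151826068683039843549184)), (.ofNat (nat_lit 786432)), (.ofNat (nat_lit 3887905435880647425855062016)), (.negSucc (nat_lit 34078735)), (.negSucc (nat_lit 34078703)), (.ofNat (nat_lit 2471863705877079916544)), (.negSucc (nat_lit 2471863705877079916543)), (.negSucc (nat_lit 2471863705877079916543)), (.ofNat (nat_lit 2471863705877079916544)), (.ofNat (nat_lit 0))⟩,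
    ⟨nat_lit 0, nat_lit 8, nat_lit 9, (.ofNat (nat_lit 8)), (.ofNat (nat_lit 107347968)), (.ofNat (nat_lit 343107654716467135331709222912)), (.ofNat (nat_lit 2752512)), (.negSucc (nat_lit 971976358970161856463765503)), (.ofNat (nat_lit 107347952)), (.ofNat (nat_lit 107347984)), (.negSucc (nat_lit 2471863705877079916543)), (.ofNat (nat_lit 2471863705877079916544)), (.negSucc (nat_lit 2471863705877079916543)), (.ofNat (nat_lit 2471863705877079916544)), (.ofNat (nat_lit 0))⟩,
    ⟨nat_lit 1, nat_lit 9, nat_lit 10, (.ofNat (nat_lit 8)), (.ofNat (nat_lit 177602560)), (.ofNat (nat_lit 516767430852469387019901992960)), (.ofNat (nat_lit 3801088)), (.ofNat (nat_lit 1619960598283603094106275840)), (.ofNat (nat_lit 177602544)), (.ofNat (nat_lit 177602576)), (.ofNat (nat_lit 2471863705877079916544)), (.negSucc (nat_lit 2471863705877079916543)), (.negSucc (nat_lit 2471863705877079916543)), (.ofNat (nat_lit 2471863705877079916544)), (.ofNat (nat_lit 0))⟩,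
    ⟨nat_lit 0, nat_lit 11, nat_lit 10, (.ofNat (nat_lit 8)), (.ofNat (nat_lit 124911616)), (.ofNat (nat_lit 647012262954471075786046570496)), (.ofNat (nat_lit 3014656)), (.ofNat (nat_lit 3563913316223926807033806848)), (.ofNat (nat_lit 124911600)), (.ofNat (nat_lit 124911632)), (.ofNat (nat_lit 2471863705877079916544)), (.negSucc (nat_lit 2471863705877079916543)), (.negSucc (nat_lit 2471863705877079916543)), (.ofNat (nat_lit 2471863705877079916544)), (.ofNat (nat_lit 0))⟩,
    ⟨nat_lit 2, nat_lit 12, nat_lit 11, (.ofNat (nat_lit 8)), (.ofNat (nat_lit 89784320)), (.ofNat (nat_lit 560182374886469949941950185472)), (.ofNat (nat_lit 2490368)), (.ofNat (nat_lit 2267944837597044331748786176)), (.ofNat (nat_lit 89784304)), (.ofNat (nat_lit 89784336)), (.negSucc (nat_lit 2471863705877079916543)), (.ofNat (nat_lit 2471863705877079916544)), (.negSucc (nat_lit 2471863705877079916543)), (.ofNat (nat_lit 2471863705877079916544)), (.ofNat (nat_lit 0))⟩,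
    ⟨nat_lit 1, nat_lit 13, nat_lit 12, (.ofNat (nat_lit 8)), (.ofNat (nat_lit 160038912)), (.ofNat (nat_lit 386522598750467698253757415424)), (.ofNat (nat_lit 3538944)), (.negSucc (nat_lit 323992119656720618821255167)), (.ofNat (nat_lit 160038896)), (.ofNat (nat_lit 160038928)), (.ofNat (nat_lit 2471863705877079916544)), (.negSucc (nat_lit 2471863705877079916543)), (.negSucc (nat_lit 2471863705877079916543)), (.ofNat (nat_lit 2471863705877079916544)), (.ofNat (nat_lit 0))⟩,
    ⟨nat_lit 0, nat_lit 14, nat_lit 13, (.ofNat (nat_lit 8)), (.ofNat (nat_lit 107347968)), (.ofNat (nat_lit 256277766648466009487612837888)), (.ofNat (nat_lit 2752512)), (.negSucc (nat_lit 2267944837597044331748786175)), (.ofNat (nat_lit 107347952)), (.ofNat (nat_lit 107347984)), (.negSucc (nat_lit 2471863705877079916543)), (.ofNat (nat_lit 2471863705877079916544)), (.negSucc (nat_lit 2471863705877079916543)), (.ofNat (nat_lit 2471863705877079916544)), (.ofNat (nat_lit 0))⟩,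
    ⟨nat_lit 0, nat_lit 15, nat_lit 14, (.ofNat (nat_lit 8)), (.negSucc (nat_lit 32767999)), (.ofNat (nat_lit 602625342561500351007534612480)), (.ofNat (nat_lit 786432)), (.ofNat (nat_lit 2591936957253764950570041344)), (.negSucc (nat_lit 32768015)), (.negSucc (nat_lit 32767983)), (.ofNat (nat_lit 2471863705877079916544)), (.negSucc (nat_lit 2471863705877079916543)), (.negSucc (nat_lit 2471863705877079916543)), (.ofNat (nat_lit 2471863705877079916544)), (.ofNat (nat_lit 0))⟩,
    ⟨nat_lit 2, nat_lit 16, nat_lit 15, (.ofNat (nat_lit 8)), (.negSucc (nat_lit 102367231)), (.ofNat (nat_lit 430585527023781702413448118272)), (.negSucc (nat_lit 131071)), (.ofNat (nat_lit 323992119656720618821255168)), (.negSucc (nat_lit 102367247)), (.negSucc (nat_lit 102367215)), (.negSucc (nat_lit 2471863705877079916543)), (.ofNat (nat_lit 2471863705877079916544)), (.negSucc (nat_lit 2471863705877079916543)), (.ofNat (nat_lit 2471863705877079916544)), (.ofNat (nat_lit 0))⟩,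
    ⟨nat_lit 0, nat_lit 16, nat_lit 17, (.ofNat (nat_lit 8)), (.negSucc (nat_lit 14942207)), (.ofNat (nat_lit 214482783212749049659670921216)), (.ofNat (nat_lit 1048576)), (.negSucc (nat_lit 2591936957253764950570041343)), (.negSucc (nat_lit 14942223)), (.negSucc (nat_lit 14942191)), (.negSucc (nat_lit 2471863705877079916543)), (.ofNat (nat_lit 2471863705877079916544)), (.negSucc (nat_lit 2471863705877079916543)), (.ofNat (nat_lit 2471863705877079916544)), (.ofNat (nat_lit 0))⟩,
    ⟨nat_lit 1, nat_lit 17, nat_lit 18, (.ofNat (nat_lit 8)), (.ofNat (nat_lit 124911616)), (.ofNat (nat_lit 560182374886469949941950185472)), (.ofNat (nat_lit 3014656)), (.ofNat (nat_lit 2267944837597044331748786176)), (.ofNat (nat_lit 124911600)), (.ofNat (nat_lit 124911632)), (.ofNat (nat_lit 2471863705877079916544)), (.negSucc (nat_lit 2471863705877079916543)), (.negSucc (nat_lit 2471863705877079916543)), (.ofNat (nat_lit 2471863705877079916544)), (.ofNat (nat_lit 0))⟩,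
    ⟨nat_lit 0, nat_lit 19, nat_lit 18, (.ofNat (nat_lit 8)), (.ofNat (nat_lit 89784320)), (.ofNat (nat_lit 647012262954471075786046570496)), (.ofNat (nat_lit 2490368)), (.ofNat (nat_lit 3563913316223926807033806848)), (.ofNat (nat_lit 89784304)), (.ofNat (nat_lit 89784336)), (.ofNat (nat_lit 2471863705877079916544)), (.negSucc (nat_lit 2471863705877079916543)), (.negSucc (nat_lit 2471863705877079916543)), (.ofNat (nat_lit 2471863705877079916544)), (.ofNat (nat_lit 0))⟩,
    ⟨nat_lit 0, nat_lit 20, nat_lit 19, (.ofNat (nat_lit 8)), (.negSucc (nat_lit 15597567)), (.ofNat (nat_lit 386522598750467698253757415424)), (.ofNat (nat_lit 917504)), (.negSucc (nat_lit 323992119656720618821255167)), (.negSucc (nat_lit 15597583)), (.negSucc (nat_lit 15597551)), (.negSucc (nat_lit 2471863705877079916543)), (.ofNat (nat_lit 2471863705877079916544)), (.negSucc (nat_lit 2471863705877079916543)), (.ofNat (nat_lit 2471863705877079916544)), (.ofNat (nat_lit 0))⟩,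
    ⟨nat_lit 2, nat_lit 20, nat_lit 21, (.ofNat (nat_lit 8)), (.negSucc (nat_lit 104333311)), (.ofNat (nat_lit 605865263758067557195747164160)), (.negSucc (nat_lit 262143)), (.ofNat (nat_lit 2591936957253764950570041344)), (.negSucc (nat_lit 104333327)), (.negSucc (nat_lit 104333295)), (.negSucc (nat_lit 2471863705877079916543)), (.ofNat (nat_lit 2471863705877079916544)), (.negSucc (nat_lit 2471863705877079916543)), (.ofNat (nat_lit 2471863705877079916544)), (.ofNat (nat_lit 0))⟩,
    ⟨nat_lit 0, nat_lit 21, nat_lit 22, (.ofNat (nat_lit 8)), (.negSucc (nat_lit 34078719)), (.ofNat (nat_lit 779525039894069808883939934208)), (.ofNat (nat_lit 786432)), (.ofNat (nat_lit 5183873914507529901140082688)), (.negSucc (nat_lit 34078735)), (.negSucc (nat_lit 34078703)), (.ofNat (nat_lit 2471863705877079916544)), (.negSucc (nat_lit 2471863705877079916543)), (.negSucc (nat_lit 2471863705877079916543)), (.ofNat (nat_lit 2471863705877079916544)), (.ofNat (nat_lit 0))⟩,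
    ⟨nat_lit 1, nat_lit 23, nat_lit 22, (.ofNat (nat_lit 8)), (.ofNat (nat_lit 107347968)), (.ofNat (nat_lit 429937542784468261175805607936)), (.ofNat (nat_lit 2752512)), (.ofNat (nat_lit 323992119656720618821255168)), (.ofNat (nat_lit 107347952)), (.ofNat (nat_lit 107347984)), (.ofNat (nat_lit 2471863705877079916544)), (.negSucc (nat_lit 2471863705877079916543)), (.negSucc (nat_lit 2471863705877079916543)), (.ofNat (nat_lit 2471863705877079916544)), (.ofNat (nat_lit 0))⟩,
    ⟨nat_lit 2, nat_lit 24, nat_lit 7, (.ofNat (nat_lit 8)), (.negSucc (nat_lit 139853823)), (.ofNat (nat_lit 431233511263095143651090628608)), (.negSucc (nat_lit 655359)), (.ofNat (nat_lit 323992119656720618821255168)), (.negSucc (nat_lit 139853839)), (.negSucc (nat_lit 139853807)), (.negSucc (nat_lit 2471863705877079916543)), (.ofNat (nat_lit 2471863705877079916544)), (.negSucc (nat_lit 2471863705877079916543)), (.ofNat (nat_lit 2471863705877079916544)), (.ofNat (nat_lit 0))⟩,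
    ⟨nat_lit 0, nat_lit 24, nat_lit 25, (.ofNat (nat_lit 8)), (.negSucc (nat_lit 121110527)), (.ofNat (nat_lit 384902638152184095159651139584)), (.negSucc (nat_lit 262143)), (.negSucc (nat_lit 647984239313441237642510335)), (.negSucc (nat_lit 121110543)), (.negSucc (nat_lit 121110511)), (.negSucc (nat_lit 2471863705877079916543)), (.ofNat (nat_lit 2471863705877079916544)), (.negSucc (nat_lit 2471863705877079916543)), (.ofNat (nat_lit 2471863705877079916544)), (.ofNat (nat_lit 0))⟩]
  es := [
    ⟨nat_lit 1, nat_lit 0, (.negSucc (nat_lit 192806911)), (.negSucc (nat_lit 33816575)), (.negSucc (nat_lit 192806895)), (.negSucc (nat_lit 33816591)), (.negSucc (nat_lit 2471863705877079916543)), (.ofNat (nat_lit 0)), (.negSucc (nat_lit 2591936957253764950570041343))⟩,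
    ⟨nat_lit 1, nat_lit 2, (.negSucc (nat_lit 192806911)), (.negSucc (nat_lit 104333311)), (.negSucc (nat_lit 192806895)), (.negSucc (nat_lit 104333327)), (.ofNat (nat_lit 2471863705877079916544)), (.ofNat (nat_lit 0)), (.ofNat (nat_lit 4535889675194088663497572352))⟩,
    ⟨nat_lit 2, nat_lit 3, (.negSucc (nat_lit 104333311)), (.negSucc (nat_lit 15597567)), (.negSucc (nat_lit 104333295)), (.negSucc (nat_lit 15597583)), (.negSucc (nat_lit 2471863705877079916543)), (.ofNat (nat_lit 0)), (.ofNat (nat_lit 3239921196567206188212551680))⟩,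
    ⟨nat_lit 3, nat_lit 4, (.negSucc (nat_lit 15597567)), (.ofNat (nat_lit 107347968)), (.negSucc (nat_lit 15597551)), (.ofNat (nat_lit 107347952)), (.ofNat (nat_lit 2471863705877079916544)), (.ofNat (nat_lit 0)), (.negSucc (nat_lit 1295968478626882475285020671))⟩,
    ⟨nat_lit 5, nat_lit 4, (.ofNat (nat_lit 1048576)), (.ofNat (nat_lit 107347968)), (.ofNat (nat_lit 1048592)), (.ofNat (nat_lit 107347952)), (.negSucc (nat_lit 2471863705877079916543)), (.ofNat (nat_lit 0)), (.ofNat (nat_lit 12311700546955383515207696384))⟩,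
    ⟨nat_lit 6, nat_lit 5, (.negSucc (nat_lit 174063615)), (.ofNat (nat_lit 1048576)), (.negSucc (nat_lit 174063599)), (.ofNat (nat_lit 1048560)), (.ofNat (nat_lit 2471863705877079916544)), (.ofNat (nat_lit 0)), (.ofNat (nat_lit 5831858153820971138782593024))⟩,
    ⟨nat_lit 6, nat_lit 7, (.negSucc (nat_lit 174063615)), (.negSucc (nat_lit 102629375)), (.negSucc (nat_lit 174063599)), (.negSucc (nat_lit 102629391)), (.negSucc (nat_lit 2471863705877079916543)), (.ofNat (nat_lit 0)), (.ofNat (nat_lit 647984239313441237642510336))⟩,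
    ⟨nat_lit 24, nat_lit 8, (.negSucc (nat_lit 139853823)), (.negSucc (nat_lit 34078719)), (.negSucc (nat_lit 139853807)), (.negSucc (nat_lit 34078735)), (.ofNat (nat_lit 2471863705877079916544)), (.ofNat (nat_lit 0)), (.ofNat (nat_lit 1943952717940323712927531008))⟩,
    ⟨nat_lit 8, nat_lit 9, (.negSucc (nat_lit 34078719)), (.ofNat (nat_lit 107347968)), (.negSucc (nat_lit 34078703)), (.ofNat (nat_lit 107347952)), (.negSucc (nat_lit 2471863705877079916543)), (.ofNat (nat_lit 0)), (.ofNat (nat_lit 5831858153820971138782593024))⟩,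
    ⟨nat_lit 9, nat_lit 10, (.ofNat (nat_lit 107347968)), (.ofNat (nat_lit 177602560)), (.ofNat (nat_lit 107347984)), (.ofNat (nat_lit 177602544)), (.ofNat (nat_lit 2471863705877079916544)), (.ofNat (nat_lit 0)), (.negSucc (nat_lit 7775810871761294851710124031))⟩,
    ⟨nat_lit 11, nat_lit 10, (.ofNat (nat_lit 124911616)), (.ofNat (nat_lit 177602560)), (.ofNat (nat_lit 124911632)), (.ofNat (nat_lit 177602544)), (.negSucc (nat_lit 2471863705877079916543)), (.ofNat (nat_lit 0)), (.ofNat (nat_lit 11015732068328501039922675712))⟩,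
    ⟨nat_lit 12, nat_lit 11, (.ofNat (nat_lit 89784320)), (.ofNat (nat_lit 124911616)), (.ofNat (nat_lit 89784336)), (.ofNat (nat_lit 124911600)), (.ofNat (nat_lit 2471863705877079916544)), (.ofNat (nat_lit 0)), (.negSucc (nat_lit 3887905435880647425855062015))⟩,
    ⟨nat_lit 12, nat_lit 13, (.ofNat (nat_lit 89784320)), (.ofNat (nat_lit 160038912)), (.ofNat (nat_lit 89784336)), (.ofNat (nat_lit 160038896)), (.negSucc (nat_lit 2471863705877079916543)), (.ofNat (nat_lit 0)), (.ofNat (nat_lit 8423795111074736089352634368))⟩,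
    ⟨nat_lit 14, nat_lit 13, (.ofNat (nat_lit 107347968)), (.ofNat (nat_lit 160038912)), (.ofNat (nat_lit 107347984)), (.ofNat (nat_lit 160038896)), (.ofNat (nat_lit 2471863705877079916544)), (.ofNat (nat_lit 0)), (.negSucc (nat_lit 9071779350388177326995144703))⟩,
    ⟨nat_lit 15, nat_lit 14, (.negSucc (nat_lit 32767999)), (.ofNat (nat_lit 107347968)), (.negSucc (nat_lit 32767983)), (.ofNat (nat_lit 107347952)), (.negSucc (nat_lit 2471863705877079916543)), (.ofNat (nat_lit 0)), (.ofNat (nat_lit 4535889675194088663497572352))⟩,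
    ⟨nat_lit 16, nat_lit 15, (.negSucc (nat_lit 102367231)), (.negSucc (nat_lit 32767999)), (.negSucc (nat_lit 102367215)), (.negSucc (nat_lit 32768015)), (.ofNat (nat_lit 2471863705877079916544)), (.ofNat (nat_lit 0)), (.ofNat (nat_lit 647984239313441237642510336))⟩,
    ⟨nat_lit 16, nat_lit 17, (.negSucc (nat_lit 102367231)), (.negSucc (nat_lit 14942207)), (.negSucc (nat_lit 102367215)), (.negSucc (nat_lit 14942223)), (.negSucc (nat_lit 2471863705877079916543)), (.ofNat (nat_lit 0)), (.ofNat (nat_lit 0))⟩,
    ⟨nat_lit 17, nat_lit 18, (.negSucc (nat_lit 14942207)), (.ofNat (nat_lit 124911616)), (.negSucc (nat_lit 14942191)), (.ofNat (nat_lit 124911600)), (.ofNat (nat_lit 2471863705877079916544)), (.ofNat (nat_lit 0)), (.negSucc (nat_lit 5183873914507529901140082687))⟩,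
    ⟨nat_lit 19, nat_lit 18, (.ofNat (nat_lit 89784320)), (.ofNat (nat_lit 124911616)), (.ofNat (nat_lit 89784336)), (.ofNat (nat_lit 124911600)), (.negSucc (nat_lit 2471863705877079916543)), (.ofNat (nat_lit 0)), (.ofNat (nat_lit 9719763589701618564637655040))⟩,
    ⟨nat_lit 20, nat_lit 19, (.negSucc (nat_lit 15597567)), (.ofNat (nat_lit 89784320)), (.negSucc (nat_lit 15597551)), (.ofNat (nat_lit 89784304)), (.ofNat (nat_lit 2471863705877079916544)), (.ofNat (nat_lit 0)), (.negSucc (nat_lit 2591936957253764950570041343))⟩,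
    ⟨nat_lit 21, nat_lit 20, (.negSucc (nat_lit 104333311)), (.negSucc (nat_lit 15597567)), (.negSucc (nat_lit 104333295)), (.negSucc (nat_lit 15597583)), (.negSucc (nat_lit 2471863705877079916543)), (.ofNat (nat_lit 0)), (.ofNat (nat_lit 1943952717940323712927531008))⟩,
    ⟨nat_lit 21, nat_lit 22, (.negSucc (nat_lit 104333311)), (.negSucc (nat_lit 34078719)), (.negSucc (nat_lit 104333295)), (.negSucc (nat_lit 34078735)), (.ofNat (nat_lit 2471863705877079916544)), (.ofNat (nat_lit 0)), (.ofNat (nat_lit 3239921196567206188212551680))⟩,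
    ⟨nat_lit 22, nat_lit 23, (.negSucc (nat_lit 34078719)), (.ofNat (nat_lit 107347968)), (.negSucc (nat_lit 34078703)), (.ofNat (nat_lit 107347952)), (.negSucc (nat_lit 2471863705877079916543)), (.ofNat (nat_lit 0)), (.ofNat (nat_lit 7127826632447853614067613696))⟩,
    ⟨nat_lit 0, nat_lit 23, (.negSucc (nat_lit 33816575)), (.ofNat (nat_lit 107347968)), (.negSucc (nat_lit 33816559)), (.ofNat (nat_lit 107347952)), (.ofNat (nat_lit 2471863705877079916544)), (.ofNat (nat_lit 0)), (.negSucc (nat_lit 6479842393134412376425103359))⟩,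
    ⟨nat_lit 24, nat_lit 25, (.negSucc (nat_lit 139853823)), (.negSucc (nat_lit 121110527)), (.negSucc (nat_lit 139853807)), (.negSucc (nat_lit 121110543)), (.negSucc (nat_lit 2471863705877079916543)), (.ofNat (nat_lit 0)), (.negSucc (nat_lit 1295968478626882475285020671))⟩,
    ⟨nat_lit 25, nat_lit 7, (.negSucc (nat_lit 121110527)), (.negSucc (nat_lit 102629375)), (.negSucc (nat_lit 121110511)), (.negSucc (nat_lit 102629391)), (.ofNat (nat_lit 2471863705877079916544)), (.ofNat (nat_lit 0)), (.ofNat (nat_lit 0))⟩]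

theorem ok12 : stOK 25 25 S12 = true := by decide +kernel

def S13 : SD where
  vs := [
    ⟨nat_lit 0, nat_lit 0, nat_lit 23, (.ofNat (nat_lit 8)), (.negSucc (nat_lit 32243711)), (.ofNat (nat_lit 71926250563791977378318647296)), (.ofNat (nat_lit 786432)), (.negSucc (nat_lit 4535889675194088663497572351)), (.negSucc (nat_lit 32243727)), (.negSucc (nat_lit 32243695)), (.negSucc (nat_lit 2471863705877079916543)), (.ofNat (nat_lit 2471863705877079916544)), (.negSucc (nat_lit 2471863705877079916543)), (.ofNat (nat_lit 2471863705877079916544)), (.ofNat (nat_lit 0))⟩,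
    ⟨nat_lit 2, nat_lit 0, nat_lit 1, (.ofNat (nat_lit 8)), (.negSucc (nat_lit 195690495)), (.ofNat (nat_lit 475944423775722589048423841792)), (.negSucc (nat_lit 1441791)), (.ofNat (nat_lit 971976358970161856463765504)), (.negSucc (nat_lit 195690511)), (.negSucc (nat_lit 195690479)), (.negSucc (nat_lit 2471863705877079916543)), (.ofNat (nat_lit 2471863705877079916544)), (.negSucc (nat_lit 2471863705877079916543)), (.ofNat (nat_lit 2471863705877079916544)), (.ofNat (nat_lit 0))⟩,
    ⟨nat_lit 0, nat_lit 1, nat_lit 2, (.ofNat (nat_lit 8)), (.negSucc (nat_lit 104857599)), (.ofNat (nat_lit 700470962697829977891553673216)), (.negSucc (nat_lit 262143)), (.ofNat (nat_lit 3887905435880647425855062016)), (.negSucc (nat_lit 104857615)), (.negSucc (nat_lit 104857583)), (.ofNat (nat_lit 2471863705877079916544)), (.negSucc (nat_lit 2471863705877079916543)), (.negSucc (nat_lit 2471863705877079916543)), (.ofNat (nat_lit 2471863705877079916544)), (.ofNat (nat_lit 0))⟩,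
    ⟨nat_lit 0, nat_lit 2, nat_lit 3, (.ofNat (nat_lit 8)), (.negSucc (nat_lit 13762559)), (.ofNat (nat_lit 475296439536409147810781331456)), (.ofNat (nat_lit 917504)), (.ofNat (nat_lit 971976358970161856463765504)), (.negSucc (nat_lit 13762575)), (.negSucc (nat_lit 13762543)), (.negSucc (nat_lit 2471863705877079916543)), (.ofNat (nat_lit 2471863705877079916544)), (.negSucc (nat_lit 2471863705877079916543)), (.ofNat (nat_lit 2471863705877079916544)), (.ofNat (nat_lit 0))⟩,
    ⟨nat_lit 1, nat_lit 3, nat_lit 4, (.ofNat (nat_lit 8)), (.ofNat (nat_lit 112852992)), (.ofNat (nat_lit 788272827124801265592113823744)), (.ofNat (nat_lit 2752512)), (.ofNat (nat_lit 5507866034164250519961337856)), (.ofNat (nat_lit 112852976)), (.ofNat (nat_lit 112853008)), (.ofNat (nat_lit 2471863705877079916544)), (.negSucc (nat_lit 2471863705877079916543)), (.negSucc (nat_lit 2471863705877079916543)), (.ofNat (nat_lit 2471863705877079916544)), (.ofNat (nat_lit 0))⟩,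
    ⟨nat_lit 0, nat_lit 5, nat_lit 4, (.ofNat (nat_lit 8)), (.ofNat (nat_lit 3670016)), (.ofNat (nat_lit 1058158262798849541070219378688)), (.ofNat (nat_lit 1310720)), (.ofNat (nat_lit 9071779350388177326995144704)), (.ofNat (nat_lit 3670000)), (.ofNat (nat_lit 3670032)), (.ofNat (nat_lit 2471863705877079916544)), (.negSucc (nat_lit 2471863705877079916543)), (.negSucc (nat_lit 2471863705877079916543)), (.ofNat (nat_lit 2471863705877079916544)), (.ofNat (nat_lit 0))⟩,
    ⟨nat_lit 2, nat_lit 6, nat_lit 5, (.ofNat (nat_lit 8)), (.negSucc (nat_lit 176160767)), (.ofNat (nat_lit 613641074629828852047457288192)), (.negSucc (nat_lit 1048575)), (.ofNat (nat_lit 3239921196567206188212551680)), (.negSucc (nat_lit 176160783)), (.negSucc (nat_lit 176160751)), (.negSucc (nat_lit 2471863705877079916543)), (.ofNat (nat_lit 2471863705877079916544)), (.negSucc (nat_lit 2471863705877079916543)), (.ofNat (nat_lit 2471863705877079916544)), (.ofNat (nat_lit 0))⟩,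
    ⟨nat_lit 0, nat_lit 25, nat_lit 16, (.ofNat (nat_lit 8)), (.negSucc (nat_lit 102498303)), (.ofNat (nat_lit 430909519143438423032269373440)), (.ofNat (nat_lit 0)), (.ofNat (nat_lit 0)), (.negSucc (nat_lit 102498319)), (.negSucc (nat_lit 102498287)), (.ofNat (nat_lit 2471863705877079916544)), (.negSucc (nat_lit 2471863705877079916543)), (.negSucc (nat_lit 2471863705877079916543)), (.ofNat (nat_lit 2471863705877079916544)), (.ofNat (nat_lit 0))⟩,
    ⟨nat_lit 0, nat_lit 7, nat_lit 8, (.ofNat (nat_lit 8)), (.negSucc (nat_lit 32505855)), (.ofNat (nat_lit 700470962697829977891553673216)), (.ofNat (nat_lit 786432)), (.ofNat (nat_lit 3887905435880647425855062016)), (.negSucc (nat_lit 32505871)), (.negSucc (nat_lit 32505839)), (.ofNat (nat_lit 2471863705877079916544)), (.negSucc (nat_lit 2471863705877079916543)), (.negSucc (nat_lit 2471863705877079916543)), (.ofNat (nat_lit 2471863705877079916544)), (.ofNat (nat_lit 0))⟩,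
    ⟨nat_lit 0, nat_lit 8, nat_lit 9, (.ofNat (nat_lit 8)), (.ofNat (nat_lit 112852992)), (.ofNat (nat_lit 341163701998526811618781691904)), (.ofNat (nat_lit 2752512)), (.negSucc (nat_lit 971976358970161856463765503)), (.ofNat (nat_lit 112852976)), (.ofNat (nat_lit 112853008)), (.negSucc (nat_lit 2471863705877079916543)), (.ofNat (nat_lit 2471863705877079916544)), (.negSucc (nat_lit 2471863705877079916543)), (.ofNat (nat_lit 2471863705877079916544)), (.ofNat (nat_lit 0))⟩,
    ⟨nat_lit 1, nat_lit 9, nat_lit 10, (.ofNat (nat_lit 8)), (.ofNat (nat_lit 185204736)), (.ofNat (nat_lit 520007352049036593208114544640)), (.ofNat (nat_lit 3801088)), (.ofNat (nat_lit 1619960598283603094106275840)), (.ofNat (nat_lit 185204720)), (.ofNat (nat_lit 185204752)), (.ofNat (nat_lit 2471863705877079916544)), (.negSucc (nat_lit 2471863705877079916543)), (.negSucc (nat_lit 2471863705877079916543)), (.ofNat (nat_lit 2471863705877079916544)), (.ofNat (nat_lit 0))⟩,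
    ⟨nat_lit 0, nat_lit 11, nat_lit 10, (.ofNat (nat_lit 8)), (.ofNat (nat_lit 130940928)), (.ofNat (nat_lit 654140089586918929400114184192)), (.ofNat (nat_lit 3014656)), (.ofNat (nat_lit 3563913316223926807033806848)), (.ofNat (nat_lit 130940912)), (.ofNat (nat_lit 130940944)), (.ofNat (nat_lit 2471863705877079916544)), (.negSucc (nat_lit 2471863705877079916543)), (.negSucc (nat_lit 2471863705877079916543)), (.ofNat (nat_lit 2471863705877079916544)), (.ofNat (nat_lit 0))⟩,
    ⟨nat_lit 2, nat_lit 12, nat_lit 11, (.ofNat (nat_lit 8)), (.ofNat (nat_lit 94765056)), (.ofNat (nat_lit 564718264561664038605447757824)), (.ofNat (nat_lit 2490368)), (.ofNat (nat_lit 2267944837597044331748786176)), (.ofNat (nat_lit 94765040)), (.ofNat (nat_lit 94765072)), (.negSucc (nat_lit 2471863705877079916543)), (.ofNat (nat_lit 2471863705877079916544)), (.negSucc (nat_lit 2471863705877079916543)), (.ofNat (nat_lit 2471863705877079916544)), (.ofNat (nat_lit 0))⟩,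
    ⟨nat_lit 1, nat_lit 13, nat_lit 12, (.ofNat (nat_lit 8)), (.ofNat (nat_lit 167116800)), (.ofNat (nat_lit 385874614511154257016114905088)), (.ofNat (nat_lit 3538944)), (.negSucc (nat_lit 323992119656720618821255167)), (.ofNat (nat_lit 167116784)), (.ofNat (nat_lit 167116816)), (.ofNat (nat_lit 2471863705877079916544)), (.negSucc (nat_lit 2471863705877079916543)), (.negSucc (nat_lit 2471863705877079916543)), (.ofNat (nat_lit 2471863705877079916544)), (.ofNat (nat_lit 0))⟩,
    ⟨nat_lit 0, nat_lit 14, nat_lit 13, (.ofNat (nat_lit 8)), (.ofNat (nat_lit 112852992)), (.ofNat (nat_lit 251741876973271920824115265536)), (.ofNat (nat_lit 2752512)), (.negSucc (nat_lit 2267944837597044331748786175)), (.ofNat (nat_lit 112852976)), (.ofNat (nat_lit 112853008)), (.negSucc (nat_lit 2471863705877079916543)), (.ofNat (nat_lit 2471863705877079916544)), (.negSucc (nat_lit 2471863705877079916543)), (.ofNat (nat_lit 2471863705877079916544)), (.ofNat (nat_lit 0))⟩,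
    ⟨nat_lit 0, nat_lit 15, nat_lit 14, (.ofNat (nat_lit 8)), (.negSucc (nat_lit 31195135)), (.ofNat (nat_lit 607809216476007880908674695168)), (.ofNat (nat_lit 786432)), (.ofNat (nat_lit 2591936957253764950570041344)), (.negSucc (nat_lit 31195151)), (.negSucc (nat_lit 31195119)), (.ofNat (nat_lit 2471863705877079916544)), (.negSucc (nat_lit 2471863705877079916543)), (.negSucc (nat_lit 2471863705877079916543)), (.ofNat (nat_lit 2471863705877079916544)), (.ofNat (nat_lit 0))⟩,
    ⟨nat_lit 0, nat_lit 6, nat_lit 15, (.ofNat (nat_lit 8)), (.negSucc (nat_lit 102498303)), (.ofNat (nat_lit 431557503382751864269911883776)), (.ofNat (nat_lit 0)), (.ofNat (nat_lit 647984239313441237642510336)), (.negSucc (nat_lit 102498319)), (.negSucc (nat_lit 102498287)), (.negSucc (nat_lit 2471863705877079916543)), (.ofNat (nat_lit 2471863705877079916544)), (.negSucc (nat_lit 2471863705877079916543)), (.ofNat (nat_lit 2471863705877079916544)), (.ofNat (nat_lit 0))⟩,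
    ⟨nat_lit 0, nat_lit 16, nat_lit 17, (.ofNat (nat_lit 8)), (.negSucc (nat_lit 12845055)), (.ofNat (nat_lit 209298909298241519758530838528)), (.ofNat (nat_lit 1048576)), (.negSucc (nat_lit 2591936957253764950570041343)), (.negSucc (nat_lit 12845071)), (.negSucc (nat_lit 12845039)), (.negSucc (nat_lit 2471863705877079916543)), (.ofNat (nat_lit 2471863705877079916544)), (.negSucc (nat_lit 2471863705877079916543)), (.ofNat (nat_lit 2471863705877079916544)), (.ofNat (nat_lit 0))⟩,
    ⟨nat_lit 1, nat_lit 17, nat_lit 18, (.ofNat (nat_lit 8)), (.ofNat (nat_lit 130940928)), (.ofNat (nat_lit 564718264561664038605447757824)), (.ofNat (nat_lit 3014656)), (.ofNat (nat_lit 2267944837597044331748786176)), (.ofNat (nat_lit 130940912)), (.ofNat (nat_lit 130940944)), (.ofNat (nat_lit 2471863705877079916544)), (.negSucc (nat_lit 2471863705877079916543)), (.negSucc (nat_lit 2471863705877079916543)), (.ofNat (nat_lit 2471863705877079916544)), (.ofNat (nat_lit 0))⟩,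
    ⟨nat_lit 0, nat_lit 19, nat_lit 18, (.ofNat (nat_lit 8)), (.ofNat (nat_lit 94765056)), (.ofNat (nat_lit 654140089586918929400114184192)), (.ofNat (nat_lit 2490368)), (.ofNat (nat_lit 3563913316223926807033806848)), (.ofNat (nat_lit 94765040)), (.ofNat (nat_lit 94765072)), (.ofNat (nat_lit 2471863705877079916544)), (.negSucc (nat_lit 2471863705877079916543)), (.negSucc (nat_lit 2471863705877079916543)), (.ofNat (nat_lit 2471863705877079916544)), (.ofNat (nat_lit 0))⟩,
    ⟨nat_lit 0, nat_lit 20, nat_lit 19, (.ofNat (nat_lit 8)), (.negSucc (nat_lit 13762559)), (.ofNat (nat_lit 385874614511154257016114905088)), (.ofNat (nat_lit 917504)), (.negSucc (nat_lit 323992119656720618821255167)), (.negSucc (nat_lit 13762575)), (.negSucc (nat_lit 13762543)), (.negSucc (nat_lit 2471863705877079916543)), (.ofNat (nat_lit 2471863705877079916544)), (.negSucc (nat_lit 2471863705877079916543)), (.ofNat (nat_lit 2471863705877079916544)), (.ofNat (nat_lit 0))⟩,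
    ⟨nat_lit 2, nat_lit 20, nat_lit 21, (.ofNat (nat_lit 8)), (.negSucc (nat_lit 104857599)), (.ofNat (nat_lit 611049137672575087096887246848)), (.negSucc (nat_lit 262143)), (.ofNat (nat_lit 2591936957253764950570041344)), (.negSucc (nat_lit 104857615)), (.negSucc (nat_lit 104857583)), (.negSucc (nat_lit 2471863705877079916543)), (.ofNat (nat_lit 2471863705877079916544)), (.negSucc (nat_lit 2471863705877079916543)), (.ofNat (nat_lit 2471863705877079916544)), (.ofNat (nat_lit 0))⟩,
    ⟨nat_lit 0, nat_lit 21, nat_lit 22, (.ofNat (nat_lit 8)), (.negSucc (nat_lit 32505855)), (.ofNat (nat_lit 789892787723084868686220099584)), (.ofNat (nat_lit 786432)), (.ofNat (nat_lit 5183873914507529901140082688)), (.negSucc (nat_lit 32505871)), (.negSucc (nat_lit 32505839)), (.ofNat (nat_lit 2471863705877079916544)), (.negSucc (nat_lit 2471863705877079916543)), (.negSucc (nat_lit 2471863705877079916543)), (.ofNat (nat_lit 2471863705877079916544)), (.ofNat (nat_lit 0))⟩,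
    ⟨nat_lit 1, nat_lit 23, nat_lit 22, (.ofNat (nat_lit 8)), (.ofNat (nat_lit 112852992)), (.ofNat (nat_lit 430585527023781702413448118272)), (.ofNat (nat_lit 2752512)), (.ofNat (nat_lit 323992119656720618821255168)), (.ofNat (nat_lit 112852976)), (.ofNat (nat_lit 112853008)), (.ofNat (nat_lit 2471863705877079916544)), (.negSucc (nat_lit 2471863705877079916543)), (.negSucc (nat_lit 2471863705877079916543)), (.ofNat (nat_lit 2471863705877079916544)), (.ofNat (nat_lit 0))⟩,
    ⟨nat_lit 2, nat_lit 24, nat_lit 7, (.ofNat (nat_lit 8)), (.negSucc (nat_lit 141164543)), (.ofNat (nat_lit 431881495502408584888733138944)), (.negSucc (nat_lit 655359)), (.ofNat (nat_lit 323992119656720618821255168)), (.negSucc (nat_lit 141164559)), (.negSucc (nat_lit 141164527)), (.negSucc (nat_lit 2471863705877079916543)), (.ofNat (nat_lit 2471863705877079916544)), (.negSucc (nat_lit 2471863705877079916543)), (.ofNat (nat_lit 2471863705877079916544)), (.ofNat (nat_lit 0))⟩,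
    ⟨nat_lit 0, nat_lit 24, nat_lit 25, (.ofNat (nat_lit 8)), (.negSucc (nat_lit 121634815)), (.ofNat (nat_lit 383606669673557212684366118912)), (.negSucc (nat_lit 262143)), (.negSucc (nat_lit 647984239313441237642510335)), (.negSucc (nat_lit 121634831)), (.negSucc (nat_lit 121634799)), (.negSucc (nat_lit 2471863705877079916543)), (.ofNat (nat_lit 2471863705877079916544)), (.negSucc (nat_lit 2471863705877079916543)), (.ofNat (nat_lit 2471863705877079916544)), (.ofNat (nat_lit 0))⟩]
  es := [
    ⟨nat_lit 1, nat_lit 0, (.negSucc (nat_lit 195690495)), (.negSucc (nat_lit 32243711)), (.negSucc (nat_lit 195690479)), (.negSucc (nat_lit 32243727)), (.negSucc (nat_lit 2471863705877079916543)), (.ofNat (nat_lit 0)), (.negSucc (nat_lit 2591936957253764950570041343))⟩,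
    ⟨nat_lit 1, nat_lit 2, (.negSucc (nat_lit 195690495)), (.negSucc (nat_lit 104857599)), (.negSucc (nat_lit 195690479)), (.negSucc (nat_lit 104857615)), (.ofNat (nat_lit 2471863705877079916544)), (.ofNat (nat_lit 0)), (.ofNat (nat_lit 4535889675194088663497572352))⟩,
    ⟨nat_lit 2, nat_lit 3, (.negSucc (nat_lit 104857599)), (.negSucc (nat_lit 13762559)), (.negSucc (nat_lit 104857583)), (.negSucc (nat_lit 13762575)), (.negSucc (nat_lit 2471863705877079916543)), (.ofNat (nat_lit 0)), (.ofNat (nat_lit 3239921196567206188212551680))⟩,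
    ⟨nat_lit 3, nat_lit 4, (.negSucc (nat_lit 13762559)), (.ofNat (nat_lit 112852992)), (.negSucc (nat_lit 13762543)), (.ofNat (nat_lit 112852976)), (.ofNat (nat_lit 2471863705877079916544)), (.ofNat (nat_lit 0)), (.negSucc (nat_lit 1295968478626882475285020671))⟩,
    ⟨nat_lit 5, nat_lit 4, (.ofNat (nat_lit 3670016)), (.ofNat (nat_lit 112852992)), (.ofNat (nat_lit 3670032)), (.ofNat (nat_lit 112852976)), (.negSucc (nat_lit 2471863705877079916543)), (.ofNat (nat_lit 0)), (.ofNat (nat_lit 12311700546955383515207696384))⟩,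
    ⟨nat_lit 6, nat_lit 5, (.negSucc (nat_lit 176160767)), (.ofNat (nat_lit 3670016)), (.negSucc (nat_lit 176160751)), (.ofNat (nat_lit 3670000)), (.ofNat (nat_lit 2471863705877079916544)), (.ofNat (nat_lit 0)), (.ofNat (nat_lit 5831858153820971138782593024))⟩,
    ⟨nat_lit 6, nat_lit 16, (.negSucc (nat_lit 176160767)), (.negSucc (nat_lit 102498303)), (.negSucc (nat_lit 176160751)), (.negSucc (nat_lit 102498319)), (.negSucc (nat_lit 2471863705877079916543)), (.ofNat (nat_lit 0)), (.ofNat (nat_lit 647984239313441237642510336))⟩,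
    ⟨nat_lit 24, nat_lit 8, (.negSucc (nat_lit 141164543)), (.negSucc (nat_lit 32505855)), (.negSucc (nat_lit 141164527)), (.negSucc (nat_lit 32505871)), (.ofNat (nat_lit 2471863705877079916544)), (.ofNat (nat_lit 0)), (.ofNat (nat_lit 1943952717940323712927531008))⟩,
    ⟨nat_lit 8, nat_lit 9, (.negSucc (nat_lit 32505855)), (.ofNat (nat_lit 112852992)), (.negSucc (nat_lit 32505839)), (.ofNat (nat_lit 112852976)), (.negSucc (nat_lit 2471863705877079916543)), (.ofNat (nat_lit 0)), (.ofNat (nat_lit 5831858153820971138782593024))⟩,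
    ⟨nat_lit 9, nat_lit 10, (.ofNat (nat_lit 112852992)), (.ofNat (nat_lit 185204736)), (.ofNat (nat_lit 112853008)), (.ofNat (nat_lit 185204720)), (.ofNat (nat_lit 2471863705877079916544)), (.ofNat (nat_lit 0)), (.negSucc (nat_lit 7775810871761294851710124031))⟩,
    ⟨nat_lit 11, nat_lit 10, (.ofNat (nat_lit 130940928)), (.ofNat (nat_lit 185204736)), (.ofNat (nat_lit 130940944)), (.ofNat (nat_lit 185204720)), (.negSucc (nat_lit 2471863705877079916543)), (.ofNat (nat_lit 0)), (.ofNat (nat_lit 11015732068328501039922675712))⟩,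
    ⟨nat_lit 12, nat_lit 11, (.ofNat (nat_lit 94765056)), (.ofNat (nat_lit 130940928)), (.ofNat (nat_lit 94765072)), (.ofNat (nat_lit 130940912)), (.ofNat (nat_lit 2471863705877079916544)), (.ofNat (nat_lit 0)), (.negSucc (nat_lit 3887905435880647425855062015))⟩,
    ⟨nat_lit 12, nat_lit 13, (.ofNat (nat_lit 94765056)), (.ofNat (nat_lit 167116800)), (.ofNat (nat_lit 94765072)), (.ofNat (nat_lit 167116784)), (.negSucc (nat_lit 2471863705877079916543)), (.ofNat (nat_lit 0)), (.ofNat (nat_lit 8423795111074736089352634368))⟩,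
    ⟨nat_lit 14, nat_lit 13, (.ofNat (nat_lit 112852992)), (.ofNat (nat_lit 167116800)), (.ofNat (nat_lit 112853008)), (.ofNat (nat_lit 167116784)), (.ofNat (nat_lit 2471863705877079916544)), (.ofNat (nat_lit 0)), (.negSucc (nat_lit 9071779350388177326995144703))⟩,
    ⟨nat_lit 15, nat_lit 14, (.negSucc (nat_lit 31195135)), (.ofNat (nat_lit 112852992)), (.negSucc (nat_lit 31195119)), (.ofNat (nat_lit 112852976)), (.negSucc (nat_lit 2471863705877079916543)), (.ofNat (nat_lit 0)), (.ofNat (nat_lit 4535889675194088663497572352))⟩,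
    ⟨nat_lit 16, nat_lit 15, (.negSucc (nat_lit 102498303)), (.negSucc (nat_lit 31195135)), (.negSucc (nat_lit 102498287)), (.negSucc (nat_lit 31195151)), (.ofNat (nat_lit 2471863705877079916544)), (.ofNat (nat_lit 0)), (.ofNat (nat_lit 647984239313441237642510336))⟩,
    ⟨nat_lit 7, nat_lit 17, (.negSucc (nat_lit 102498303)), (.negSucc (nat_lit 12845055)), (.negSucc (nat_lit 102498287)), (.negSucc (nat_lit 12845071)), (.negSucc (nat_lit 2471863705877079916543)), (.ofNat (nat_lit 0)), (.ofNat (nat_lit 0))⟩,
    ⟨nat_lit 17, nat_lit 18, (.negSucc (nat_lit 12845055)), (.ofNat (nat_lit 130940928)), (.negSucc (nat_lit 12845039)), (.ofNat (nat_lit 130940912)), (.ofNat (nat_lit 2471863705877079916544)), (.ofNat (nat_lit 0)), (.negSucc (nat_lit 5183873914507529901140082687))⟩,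
    ⟨nat_lit 19, nat_lit 18, (.ofNat (nat_lit 94765056)), (.ofNat (nat_lit 130940928)), (.ofNat (nat_lit 94765072)), (.ofNat (nat_lit 130940912)), (.negSucc (nat_lit 2471863705877079916543)), (.ofNat (nat_lit 0)), (.ofNat (nat_lit 9719763589701618564637655040))⟩,
    ⟨nat_lit 20, nat_lit 19, (.negSucc (nat_lit 13762559)), (.ofNat (nat_lit 94765056)), (.negSucc (nat_lit 13762543)), (.ofNat (nat_lit 94765040)), (.ofNat (nat_lit 2471863705877079916544)), (.ofNat (nat_lit 0)), (.negSucc (nat_lit 2591936957253764950570041343))⟩,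
    ⟨nat_lit 21, nat_lit 20, (.negSucc (nat_lit 104857599)), (.negSucc (nat_lit 13762559)), (.negSucc (nat_lit 104857583)), (.negSucc (nat_lit 13762575)), (.negSucc (nat_lit 2471863705877079916543)), (.ofNat (nat_lit 0)), (.ofNat (nat_lit 1943952717940323712927531008))⟩,
    ⟨nat_lit 21, nat_lit 22, (.negSucc (nat_lit 104857599)), (.negSucc (nat_lit 32505855)), (.negSucc (nat_lit 104857583)), (.negSucc (nat_lit 32505871)), (.ofNat (nat_lit 2471863705877079916544)), (.ofNat (nat_lit 0)), (.ofNat (nat_lit 3239921196567206188212551680))⟩,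
    ⟨nat_lit 22, nat_lit 23, (.negSucc (nat_lit 32505855)), (.ofNat (nat_lit 112852992)), (.negSucc (nat_lit 32505839)), (.ofNat (nat_lit 112852976)), (.negSucc (nat_lit 2471863705877079916543)), (.ofNat (nat_lit 0)), (.ofNat (nat_lit 7127826632447853614067613696))⟩,
    ⟨nat_lit 0, nat_lit 23, (.negSucc (nat_lit 32243711)), (.ofNat (nat_lit 112852992)), (.negSucc (nat_lit 32243695)), (.ofNat (nat_lit 112852976)), (.ofNat (nat_lit 2471863705877079916544)), (.ofNat (nat_lit 0)), (.negSucc (nat_lit 6479842393134412376425103359))⟩,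
    ⟨nat_lit 24, nat_lit 25, (.negSucc (nat_lit 141164543)), (.negSucc (nat_lit 121634815)), (.negSucc (nat_lit 141164527)), (.negSucc (nat_lit 121634831)), (.negSucc (nat_lit 2471863705877079916543)), (.ofNat (nat_lit 0)), (.negSucc (nat_lit 1295968478626882475285020671))⟩,
    ⟨nat_lit 25, nat_lit 7, (.negSucc (nat_lit 121634815)), (.negSucc (nat_lit 102498303)), (.negSucc (nat_lit 121634799)), (.negSucc (nat_lit 102498319)), (.ofNat (nat_lit 2471863705877079916544)), (.ofNat (nat_lit 0)), (.ofNat (nat_lit 0))⟩]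

theorem ok13 : stOK 25 25 S13 = true := by decide +kernel

def S14 : SD where
  vs := [
    ⟨nat_lit 0, nat_lit 0, nat_lit 23, (.ofNat (nat_lit 8)), (.negSucc (nat_lit 34603007)), (.ofNat (nat_lit 85533919589374243368811364352)), (.ofNat (nat_lit 786432)), (.negSucc (nat_lit 4535889675194088663497572351)), (.negSucc (nat_lit 34603023)), (.negSucc (nat_lit 34602991)), (.negSucc (nat_lit 2471863705877079916543)), (.ofNat (nat_lit 2471863705877079916544)), (.negSucc (nat_lit 2471863705877079916543)), (.ofNat (nat_lit 2471863705877079916544)), (.ofNat (nat_lit 0))⟩,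
    ⟨nat_lit 2, nat_lit 0, nat_lit 1, (.ofNat (nat_lit 8)), (.negSucc (nat_lit 191365119)), (.ofNat (nat_lit 473028494698812103479032545280)), (.negSucc (nat_lit 1441791)), (.ofNat (nat_lit 971976358970161856463765504)), (.negSucc (nat_lit 191365135)), (.negSucc (nat_lit 191365103)), (.negSucc (nat_lit 2471863705877079916543)), (.ofNat (nat_lit 2471863705877079916544)), (.negSucc (nat_lit 2471863705877079916543)), (.ofNat (nat_lit 2471863705877079916544)), (.ofNat (nat_lit 0))⟩,
    ⟨nat_lit 0, nat_lit 1, nat_lit 2, (.ofNat (nat_lit 8)), (.negSucc (nat_lit 104071167)), (.ofNat (nat_lit 688807246390188035613988487168)), (.negSucc (nat_lit 262143)), (.ofNat (nat_lit 3887905435880647425855062016)), (.negSucc (nat_lit 104071183)), (.negSucc (nat_lit 104071151)), (.ofNat (nat_lit 2471863705877079916544)), (.negSucc (nat_lit 2471863705877079916543)), (.negSucc (nat_lit 2471863705877079916543)), (.ofNat (nat_lit 2471863705877079916544)), (.ofNat (nat_lit 0))⟩,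
    ⟨nat_lit 0, nat_lit 2, nat_lit 3, (.ofNat (nat_lit 8)), (.negSucc (nat_lit 16515071)), (.ofNat (nat_lit 472380510459498662241390034944)), (.ofNat (nat_lit 917504)), (.ofNat (nat_lit 971976358970161856463765504)), (.negSucc (nat_lit 16515087)), (.negSucc (nat_lit 16515055)), (.negSucc (nat_lit 2471863705877079916543)), (.ofNat (nat_lit 2471863705877079916544)), (.negSucc (nat_lit 2471863705877079916543)), (.ofNat (nat_lit 2471863705877079916544)), (.ofNat (nat_lit 0))⟩,
    ⟨nat_lit 1, nat_lit 3, nat_lit 4, (.ofNat (nat_lit 8)), (.ofNat (nat_lit 104595456)), (.ofNat (nat_lit 771749229022308514032229810176)), (.ofNat (nat_lit 2752512)), (.ofNat (nat_lit 5507866034164250519961337856)), (.ofNat (nat_lit 104595440)), (.ofNat (nat_lit 104595472)), (.ofNat (nat_lit 2471863705877079916544)), (.negSucc (nat_lit 2471863705877079916543)), (.negSucc (nat_lit 2471863705877079916543)), (.ofNat (nat_lit 2471863705877079916544)), (.ofNat (nat_lit 0))⟩,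
    ⟨nat_lit 0, nat_lit 5, nat_lit 4, (.ofNat (nat_lit 8)), (.negSucc (nat_lit 262143)), (.ofNat (nat_lit 1030942924747685009089233944576)), (.ofNat (nat_lit 1310720)), (.ofNat (nat_lit 9071779350388177326995144704)), (.negSucc (nat_lit 262159)), (.negSucc (nat_lit 262127)), (.ofNat (nat_lit 2471863705877079916544)), (.negSucc (nat_lit 2471863705877079916543)), (.negSucc (nat_lit 2471863705877079916543)), (.ofNat (nat_lit 2471863705877079916544)), (.ofNat (nat_lit 0))⟩,
    ⟨nat_lit 2, nat_lit 6, nat_lit 5, (.ofNat (nat_lit 8)), (.negSucc (nat_lit 173015039)), (.ofNat (nat_lit 603921311040127233482819633152)), (.negSucc (nat_lit 1048575)), (.ofNat (nat_lit 3239921196567206188212551680)), (.negSucc (nat_lit 173015055)), (.negSucc (nat_lit 173015023)), (.negSucc (nat_lit 2471863705877079916543)), (.ofNat (nat_lit 2471863705877079916544)), (.negSucc (nat_lit 2471863705877079916543)), (.ofNat (nat_lit 2471863705877079916544)), (.ofNat (nat_lit 0))⟩,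
    ⟨nat_lit 0, nat_lit 25, nat_lit 16, (.ofNat (nat_lit 8)), (.negSucc (nat_lit 102498303)), (.ofNat (nat_lit 430909519143438423032269373440)), (.ofNat (nat_lit 0)), (.ofNat (nat_lit 0)), (.negSucc (nat_lit 102498319)), (.negSucc (nat_lit 102498287)), (.ofNat (nat_lit 2471863705877079916544)), (.negSucc (nat_lit 2471863705877079916543)), (.negSucc (nat_lit 2471863705877079916543)), (.ofNat (nat_lit 2471863705877079916544)), (.ofNat (nat_lit 0))⟩,
    ⟨nat_lit 0, nat_lit 7, nat_lit 8, (.ofNat (nat_lit 8)), (.negSucc (nat_lit 34865151)), (.ofNat (nat_lit 688807246390188035613988487168)), (.ofNat (nat_lit 786432)), (.ofNat (nat_lit 3887905435880647425855062016)), (.negSucc (nat_lit 34865167)), (.negSucc (nat_lit 34865135)), (.ofNat (nat_lit 2471863705877079916544)), (.negSucc (nat_lit 2471863705877079916543)), (.negSucc (nat_lit 2471863705877079916543)), (.ofNat (nat_lit 2471863705877079916544)), (.ofNat (nat_lit 0))⟩,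
    ⟨nat_lit 0, nat_lit 8, nat_lit 9, (.ofNat (nat_lit 8)), (.ofNat (nat_lit 104595456)), (.ofNat (nat_lit 344079631075437297188172988416)), (.ofNat (nat_lit 2752512)), (.negSucc (nat_lit 971976358970161856463765503)), (.ofNat (nat_lit 104595440)), (.ofNat (nat_lit 104595472)), (.negSucc (nat_lit 2471863705877079916543)), (.ofNat (nat_lit 2471863705877079916544)), (.negSucc (nat_lit 2471863705877079916543)), (.ofNat (nat_lit 2471863705877079916544)), (.ofNat (nat_lit 0))⟩,
    ⟨nat_lit 1, nat_lit 9, nat_lit 10, (.ofNat (nat_lit 8)), (.ofNat (nat_lit 173801472)), (.ofNat (nat_lit 515147470254185783925795717120)), (.ofNat (nat_lit 3801088)), (.ofNat (nat_lit 1619960598283603094106275840)), (.ofNat (nat_lit 173801456)), (.ofNat (nat_lit 173801488)), (.ofNat (nat_lit 2471863705877079916544)), (.negSucc (nat_lit 2471863705877079916543)), (.negSucc (nat_lit 2471863705877079916543)), (.ofNat (nat_lit 2471863705877079916544)), (.ofNat (nat_lit 0))⟩,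
    ⟨nat_lit 0, nat_lit 11, nat_lit 10, (.ofNat (nat_lit 8)), (.ofNat (nat_lit 121896960)), (.ofNat (nat_lit 643448349638247148979012763648)), (.ofNat (nat_lit 3014656)), (.ofNat (nat_lit 3563913316223926807033806848)), (.ofNat (nat_lit 121896944)), (.ofNat (nat_lit 121896976)), (.ofNat (nat_lit 2471863705877079916544)), (.negSucc (nat_lit 2471863705877079916543)), (.negSucc (nat_lit 2471863705877079916543)), (.ofNat (nat_lit 2471863705877079916544)), (.ofNat (nat_lit 0))⟩,
    ⟨nat_lit 2, nat_lit 12, nat_lit 11, (.ofNat (nat_lit 8)), (.ofNat (nat_lit 87293952)), (.ofNat (nat_lit 557914430048872905610201399296)), (.ofNat (nat_lit 2490368)), (.ofNat (nat_lit 2267944837597044331748786176)), (.ofNat (nat_lit 87293936)), (.ofNat (nat_lit 87293968)), (.negSucc (nat_lit 2471863705877079916543)), (.ofNat (nat_lit 2471863705877079916544)), (.negSucc (nat_lit 2471863705877079916543)), (.ofNat (nat_lit 2471863705877079916544)), (.ofNat (nat_lit 0))⟩,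
    ⟨nat_lit 1, nat_lit 13, nat_lit 12, (.ofNat (nat_lit 8)), (.ofNat (nat_lit 156499968)), (.ofNat (nat_lit 386846590870124418872578670592)), (.ofNat (nat_lit 3538944)), (.negSucc (nat_lit 323992119656720618821255167)), (.ofNat (nat_lit 156499952)), (.ofNat (nat_lit 156499984)), (.ofNat (nat_lit 2471863705877079916544)), (.negSucc (nat_lit 2471863705877079916543)), (.negSucc (nat_lit 2471863705877079916543)), (.ofNat (nat_lit 2471863705877079916544)), (.ofNat (nat_lit 0))⟩,
    ⟨nat_lit 0, nat_lit 14, nat_lit 13, (.ofNat (nat_lit 8)), (.ofNat (nat_lit 104595456)), (.ofNat (nat_lit 258545711486063053819361624064)), (.ofNat (nat_lit 2752512)), (.negSucc (nat_lit 2267944837597044331748786175)), (.ofNat (nat_lit 104595440)), (.ofNat (nat_lit 104595472)), (.negSucc (nat_lit 2471863705877079916543)), (.ofNat (nat_lit 2471863705877079916544)), (.negSucc (nat_lit 2471863705877079916543)), (.ofNat (nat_lit 2471863705877079916544)), (.ofNat (nat_lit 0))⟩,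
    ⟨nat_lit 0, nat_lit 15, nat_lit 14, (.ofNat (nat_lit 8)), (.negSucc (nat_lit 33554431)), (.ofNat (nat_lit 600033405604246586056964571136)), (.ofNat (nat_lit 786432)), (.ofNat (nat_lit 2591936957253764950570041344)), (.negSucc (nat_lit 33554447)), (.negSucc (nat_lit 33554415)), (.ofNat (nat_lit 2471863705877079916544)), (.negSucc (nat_lit 2471863705877079916543)), (.negSucc (nat_lit 2471863705877079916543)), (.ofNat (nat_lit 2471863705877079916544)), (.ofNat (nat_lit 0))⟩,
    ⟨nat_lit 0, nat_lit 6, nat_lit 15, (.ofNat (nat_lit 8)), (.negSucc (nat_lit 102498303)), (.ofNat (nat_lit 429613550664811540556984352768)), (.ofNat (nat_lit 0)), (.ofNat (nat_lit 647984239313441237642510336)), (.negSucc (nat_lit 102498319)), (.negSucc (nat_lit 102498287)), (.negSucc (nat_lit 2471863705877079916543)), (.ofNat (nat_lit 2471863705877079916544)), (.negSucc (nat_lit 2471863705877079916543)), (.ofNat (nat_lit 2471863705877079916544)), (.ofNat (nat_lit 0))⟩,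
    ⟨nat_lit 0, nat_lit 16, nat_lit 17, (.ofNat (nat_lit 8)), (.negSucc (nat_lit 15990783)), (.ofNat (nat_lit 217074720170002814610240962560)), (.ofNat (nat_lit 1048576)), (.negSucc (nat_lit 2591936957253764950570041343)), (.negSucc (nat_lit 15990799)), (.negSucc (nat_lit 15990767)), (.negSucc (nat_lit 2471863705877079916543)), (.ofNat (nat_lit 2471863705877079916544)), (.negSucc (nat_lit 2471863705877079916543)), (.ofNat (nat_lit 2471863705877079916544)), (.ofNat (nat_lit 0))⟩,
    ⟨nat_lit 1, nat_lit 17, nat_lit 18, (.ofNat (nat_lit 8)), (.ofNat (nat_lit 121896960)), (.ofNat (nat_lit 557914430048872905610201399296)), (.ofNat (nat_lit 3014656)), (.ofNat (nat_lit 2267944837597044331748786176)), (.ofNat (nat_lit 121896944)), (.ofNat (nat_lit 121896976)), (.ofNat (nat_lit 2471863705877079916544)), (.negSucc (nat_lit 2471863705877079916543)), (.negSucc (nat_lit 2471863705877079916543)), (.ofNat (nat_lit 2471863705877079916544)), (.ofNat (nat_lit 0))⟩,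
    ⟨nat_lit 0, nat_lit 19, nat_lit 18, (.ofNat (nat_lit 8)), (.ofNat (nat_lit 87293952)), (.ofNat (nat_lit 643448349638247148979012763648)), (.ofNat (nat_lit 2490368)), (.ofNat (nat_lit 3563913316223926807033806848)), (.ofNat (nat_lit 87293936)), (.ofNat (nat_lit 87293968)), (.ofNat (nat_lit 2471863705877079916544)), (.negSucc (nat_lit 2471863705877079916543)), (.negSucc (nat_lit 2471863705877079916543)), (.ofNat (nat_lit 2471863705877079916544)), (.ofNat (nat_lit 0))⟩,
    ⟨nat_lit 0, nat_lit 20, nat_lit 19, (.ofNat (nat_lit 8)), (.negSucc (nat_lit 16515071)), (.ofNat (nat_lit 386846590870124418872578670592)), (.ofNat (nat_lit 917504)), (.negSucc (nat_lit 323992119656720618821255167)), (.negSucc (nat_lit 16515087)), (.negSucc (nat_lit 16515055)), (.negSucc (nat_lit 2471863705877079916543)), (.ofNat (nat_lit 2471863705877079916544)), (.negSucc (nat_lit 2471863705877079916543)), (.ofNat (nat_lit 2471863705877079916544)), (.ofNat (nat_lit 0))⟩,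
    ⟨nat_lit 2, nat_lit 20, nat_lit 21, (.ofNat (nat_lit 8)), (.negSucc (nat_lit 104071167)), (.ofNat (nat_lit 603273326800813792245177122816)), (.negSucc (nat_lit 262143)), (.ofNat (nat_lit 2591936957253764950570041344)), (.negSucc (nat_lit 104071183)), (.negSucc (nat_lit 104071151)), (.negSucc (nat_lit 2471863705877079916543)), (.ofNat (nat_lit 2471863705877079916544)), (.negSucc (nat_lit 2471863705877079916543)), (.ofNat (nat_lit 2471863705877079916544)), (.ofNat (nat_lit 0))⟩,
    ⟨nat_lit 0, nat_lit 21, nat_lit 22, (.ofNat (nat_lit 8)), (.negSucc (nat_lit 34865151)), (.ofNat (nat_lit 774341165979562278982799851520)), (.ofNat (nat_lit 786432)), (.ofNat (nat_lit 5183873914507529901140082688)), (.negSucc (nat_lit 34865167)), (.negSucc (nat_lit 34865135)), (.ofNat (nat_lit 2471863705877079916544)), (.negSucc (nat_lit 2471863705877079916543)), (.negSucc (nat_lit 2471863705877079916543)), (.ofNat (nat_lit 2471863705877079916544)), (.ofNat (nat_lit 0))⟩,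
    ⟨nat_lit 1, nat_lit 23, nat_lit 22, (.ofNat (nat_lit 8)), (.ofNat (nat_lit 104595456)), (.ofNat (nat_lit 429613550664811540556984352768)), (.ofNat (nat_lit 2752512)), (.ofNat (nat_lit 323992119656720618821255168)), (.ofNat (nat_lit 104595440)), (.ofNat (nat_lit 104595472)), (.ofNat (nat_lit 2471863705877079916544)), (.negSucc (nat_lit 2471863705877079916543)), (.negSucc (nat_lit 2471863705877079916543)), (.ofNat (nat_lit 2471863705877079916544)), (.ofNat (nat_lit 0))⟩,
    ⟨nat_lit 2, nat_lit 24, nat_lit 7, (.ofNat (nat_lit 8)), (.negSucc (nat_lit 139198463)), (.ofNat (nat_lit 430909519143438423032269373440)), (.negSucc (nat_lit 655359)), (.ofNat (nat_lit 323992119656720618821255168)), (.negSucc (nat_lit 139198479)), (.negSucc (nat_lit 139198447)), (.negSucc (nat_lit 2471863705877079916543)), (.ofNat (nat_lit 2471863705877079916544)), (.negSucc (nat_lit 2471863705877079916543)), (.ofNat (nat_lit 2471863705877079916544)), (.ofNat (nat_lit 0))⟩,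
    ⟨nat_lit 0, nat_lit 24, nat_lit 25, (.ofNat (nat_lit 8)), (.negSucc (nat_lit 120848383)), (.ofNat (nat_lit 385550622391497536397293649920)), (.negSucc (nat_lit 262143)), (.negSucc (nat_lit 647984239313441237642510335)), (.negSucc (nat_lit 120848399)), (.negSucc (nat_lit 120848367)), (.negSucc (nat_lit 2471863705877079916543)), (.ofNat (nat_lit 2471863705877079916544)), (.negSucc (nat_lit 2471863705877079916543)), (.ofNat (nat_lit 2471863705877079916544)), (.ofNat (nat_lit 0))⟩]
  es := [
    ⟨nat_lit 1, nat_lit 0, (.negSucc (nat_lit 191365119)), (.negSucc (nat_lit 34603007)), (.negSucc (nat_lit 191365103)), (.negSucc (nat_lit 34603023)), (.negSucc (nat_lit 2471863705877079916543)), (.ofNat (nat_lit 0)), (.negSucc (nat_lit 2591936957253764950570041343))⟩,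
    ⟨nat_lit 1, nat_lit 2, (.negSucc (nat_lit 191365119)), (.negSucc (nat_lit 104071167)), (.negSucc (nat_lit 191365103)), (.negSucc (nat_lit 104071183)), (.ofNat (nat_lit 2471863705877079916544)), (.ofNat (nat_lit 0)), (.ofNat (nat_lit 4535889675194088663497572352))⟩,
    ⟨nat_lit 2, nat_lit 3, (.negSucc (nat_lit 104071167)), (.negSucc (nat_lit 16515071)), (.negSucc (nat_lit 104071151)), (.negSucc (nat_lit 16515087)), (.negSucc (nat_lit 2471863705877079916543)), (.ofNat (nat_lit 0)), (.ofNat (nat_lit 3239921196567206188212551680))⟩,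
    ⟨nat_lit 3, nat_lit 4, (.negSucc (nat_lit 16515071)), (.ofNat (nat_lit 104595456)), (.negSucc (nat_lit 16515055)), (.ofNat (nat_lit 104595440)), (.ofNat (nat_lit 2471863705877079916544)), (.ofNat (nat_lit 0)), (.negSucc (nat_lit 1295968478626882475285020671))⟩,
    ⟨nat_lit 5, nat_lit 4, (.negSucc (nat_lit 262143)), (.ofNat (nat_lit 104595456)), (.negSucc (nat_lit 262127)), (.ofNat (nat_lit 104595440)), (.negSucc (nat_lit 2471863705877079916543)), (.ofNat (nat_lit 0)), (.ofNat (nat_lit 12311700546955383515207696384))⟩,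
    ⟨nat_lit 6, nat_lit 5, (.negSucc (nat_lit 173015039)), (.negSucc (nat_lit 262143)), (.negSucc (nat_lit 173015023)), (.negSucc (nat_lit 262159)), (.ofNat (nat_lit 2471863705877079916544)), (.ofNat (nat_lit 0)), (.ofNat (nat_lit 5831858153820971138782593024))⟩,
    ⟨nat_lit 6, nat_lit 16, (.negSucc (nat_lit 173015039)), (.negSucc (nat_lit 102498303)), (.negSucc (nat_lit 173015023)), (.negSucc (nat_lit 102498319)), (.negSucc (nat_lit 2471863705877079916543)), (.ofNat (nat_lit 0)), (.ofNat (nat_lit 647984239313441237642510336))⟩,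
    ⟨nat_lit 24, nat_lit 8, (.negSucc (nat_lit 139198463)), (.negSucc (nat_lit 34865151)), (.negSucc (nat_lit 139198447)), (.negSucc (nat_lit 34865167)), (.ofNat (nat_lit 2471863705877079916544)), (.ofNat (nat_lit 0)), (.ofNat (nat_lit 1943952717940323712927531008))⟩,
    ⟨nat_lit 8, nat_lit 9, (.negSucc (nat_lit 34865151)), (.ofNat (nat_lit 104595456)), (.negSucc (nat_lit 34865135)), (.ofNat (nat_lit 104595440)), (.negSucc (nat_lit 2471863705877079916543)), (.ofNat (nat_lit 0)), (.ofNat (nat_lit 5831858153820971138782593024))⟩,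
    ⟨nat_lit 9, nat_lit 10, (.ofNat (nat_lit 104595456)), (.ofNat (nat_lit 173801472)), (.ofNat (nat_lit 104595472)), (.ofNat (nat_lit 173801456)), (.ofNat (nat_lit 2471863705877079916544)), (.ofNat (nat_lit 0)), (.negSucc (nat_lit 7775810871761294851710124031))⟩,
    ⟨nat_lit 11, nat_lit 10, (.ofNat (nat_lit 121896960)), (.ofNat (nat_lit 173801472)), (.ofNat (nat_lit 121896976)), (.ofNat (nat_lit 173801456)), (.negSucc (nat_lit 2471863705877079916543)), (.ofNat (nat_lit 0)), (.ofNat (nat_lit 11015732068328501039922675712))⟩,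
    ⟨nat_lit 12, nat_lit 11, (.ofNat (nat_lit 87293952)), (.ofNat (nat_lit 121896960)), (.ofNat (nat_lit 87293968)), (.ofNat (nat_lit 121896944)), (.ofNat (nat_lit 2471863705877079916544)), (.ofNat (nat_lit 0)), (.negSucc (nat_lit 3887905435880647425855062015))⟩,
    ⟨nat_lit 12, nat_lit 13, (.ofNat (nat_lit 87293952)), (.ofNat (nat_lit 156499968)), (.ofNat (nat_lit 87293968)), (.ofNat (nat_lit 156499952)), (.negSucc (nat_lit 2471863705877079916543)), (.ofNat (nat_lit 0)), (.ofNat (nat_lit 8423795111074736089352634368))⟩,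
    ⟨nat_lit 14, nat_lit 13, (.ofNat (nat_lit 104595456)), (.ofNat (nat_lit 156499968)), (.ofNat (nat_lit 104595472)), (.ofNat (nat_lit 156499952)), (.ofNat (nat_lit 2471863705877079916544)), (.ofNat (nat_lit 0)), (.negSucc (nat_lit 9071779350388177326995144703))⟩,
    ⟨nat_lit 15, nat_lit 14, (.negSucc (nat_lit 33554431)), (.ofNat (nat_lit 104595456)), (.negSucc (nat_lit 33554415)), (.ofNat (nat_lit 104595440)), (.negSucc (nat_lit 2471863705877079916543)), (.ofNat (nat_lit 0)), (.ofNat (nat_lit 4535889675194088663497572352))⟩,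
    ⟨nat_lit 16, nat_lit 15, (.negSucc (nat_lit 102498303)), (.negSucc (nat_lit 33554431)), (.negSucc (nat_lit 102498287)), (.negSucc (nat_lit 33554447)), (.ofNat (nat_lit 2471863705877079916544)), (.ofNat (nat_lit 0)), (.ofNat (nat_lit 647984239313441237642510336))⟩,
    ⟨nat_lit 7, nat_lit 17, (.negSucc (nat_lit 102498303)), (.negSucc (nat_lit 15990783)), (.negSucc (nat_lit 102498287)), (.negSucc (nat_lit 15990799)), (.negSucc (nat_lit 2471863705877079916543)), (.ofNat (nat_lit 0)), (.ofNat (nat_lit 0))⟩,
    ⟨nat_lit 17, nat_lit 18, (.negSucc (nat_lit 15990783)), (.ofNat (nat_lit 121896960)), (.negSucc (nat_lit 15990767)), (.ofNat (nat_lit 121896944)), (.ofNat (nat_lit 2471863705877079916544)), (.ofNat (nat_lit 0)), (.negSucc (nat_lit 5183873914507529901140082687))⟩,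
    ⟨nat_lit 19, nat_lit 18, (.ofNat (nat_lit 87293952)), (.ofNat (nat_lit 121896960)), (.ofNat (nat_lit 87293968)), (.ofNat (nat_lit 121896944)), (.negSucc (nat_lit 2471863705877079916543)), (.ofNat (nat_lit 0)), (.ofNat (nat_lit 9719763589701618564637655040))⟩,
    ⟨nat_lit 20, nat_lit 19, (.negSucc (nat_lit 16515071)), (.ofNat (nat_lit 87293952)), (.negSucc (nat_lit 16515055)), (.ofNat (nat_lit 87293936)), (.ofNat (nat_lit 2471863705877079916544)), (.ofNat (nat_lit 0)), (.negSucc (nat_lit 2591936957253764950570041343))⟩,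
    ⟨nat_lit 21, nat_lit 20, (.negSucc (nat_lit 104071167)), (.negSucc (nat_lit 16515071)), (.negSucc (nat_lit 104071151)), (.negSucc (nat_lit 16515087)), (.negSucc (nat_lit 2471863705877079916543)), (.ofNat (nat_lit 0)), (.ofNat (nat_lit 1943952717940323712927531008))⟩,
    ⟨nat_lit 21, nat_lit 22, (.negSucc (nat_lit 104071167)), (.negSucc (nat_lit 34865151)), (.negSucc (nat_lit 104071151)), (.negSucc (nat_lit 34865167)), (.ofNat (nat_lit 2471863705877079916544)), (.ofNat (nat_lit 0)), (.ofNat (nat_lit 3239921196567206188212551680))⟩,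
    ⟨nat_lit 22, nat_lit 23, (.negSucc (nat_lit 34865151)), (.ofNat (nat_lit 104595456)), (.negSucc (nat_lit 34865135)), (.ofNat (nat_lit 104595440)), (.negSucc (nat_lit 2471863705877079916543)), (.ofNat (nat_lit 0)), (.ofNat (nat_lit 7127826632447853614067613696))⟩,
    ⟨nat_lit 0, nat_lit 23, (.negSucc (nat_lit 34603007)), (.ofNat (nat_lit 104595456)), (.negSucc (nat_lit 34602991)), (.ofNat (nat_lit 104595440)), (.ofNat (nat_lit 2471863705877079916544)), (.ofNat (nat_lit 0)), (.negSucc (nat_lit 6479842393134412376425103359))⟩,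
    ⟨nat_lit 24, nat_lit 25, (.negSucc (nat_lit 139198463)), (.negSucc (nat_lit 120848383)), (.negSucc (nat_lit 139198447)), (.negSucc (nat_lit 120848399)), (.negSucc (nat_lit 2471863705877079916543)), (.ofNat (nat_lit 0)), (.negSucc (nat_lit 1295968478626882475285020671))⟩,
    ⟨nat_lit 25, nat_lit 7, (.negSucc (nat_lit 120848383)), (.negSucc (nat_lit 102498303)), (.negSucc (nat_lit 120848367)), (.negSucc (nat_lit 102498319)), (.ofNat (nat_lit 2471863705877079916544)), (.ofNat (nat_lit 0)), (.ofNat (nat_lit 0))⟩]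

theorem ok14 : stOK 25 25 S14 = true := by decide +kernel

def S15 : SD where
  vs := [
    ⟨nat_lit 0, nat_lit 0, nat_lit 23, (.ofNat (nat_lit 8)), (.negSucc (nat_lit 31457279)), (.ofNat (nat_lit 67390360888597888714821074944)), (.ofNat (nat_lit 786432)), (.negSucc (nat_lit 4535889675194088663497572351)), (.negSucc (nat_lit 31457295)), (.negSucc (nat_lit 31457263)), (.negSucc (nat_lit 2471863705877079916543)), (.ofNat (nat_lit 2471863705877079916544)), (.negSucc (nat_lit 2471863705877079916543)), (.ofNat (nat_lit 2471863705877079916544)), (.ofNat (nat_lit 0))⟩,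
    ⟨nat_lit 2, nat_lit 0, nat_lit 1, (.ofNat (nat_lit 8)), (.negSucc (nat_lit 197132287)), (.ofNat (nat_lit 476916400134692750904887607296)), (.negSucc (nat_lit 1441791)), (.ofNat (nat_lit 971976358970161856463765504)), (.negSucc (nat_lit 197132303)), (.negSucc (nat_lit 197132271)), (.negSucc (nat_lit 2471863705877079916543)), (.ofNat (nat_lit 2471863705877079916544)), (.negSucc (nat_lit 2471863705877079916543)), (.ofNat (nat_lit 2471863705877079916544)), (.ofNat (nat_lit 0))⟩,
    ⟨nat_lit 0, nat_lit 1, nat_lit 2, (.ofNat (nat_lit 8)), (.negSucc (nat_lit 105119743)), (.ofNat (nat_lit 704358868133710625317408735232)), (.negSucc (nat_lit 262143)), (.ofNat (nat_lit 3887905435880647425855062016)), (.negSucc (nat_lit 105119759)), (.negSucc (nat_lit 105119727)), (.ofNat (nat_lit 2471863705877079916544)), (.negSucc (nat_lit 2471863705877079916543)), (.negSucc (nat_lit 2471863705877079916543)), (.ofNat (nat_lit 2471863705877079916544)), (.ofNat (nat_lit 0))⟩,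
    ⟨nat_lit 0, nat_lit 2, nat_lit 3, (.ofNat (nat_lit 8)), (.negSucc (nat_lit 12845055)), (.ofNat (nat_lit 476268415895379309667245096960)), (.ofNat (nat_lit 917504)), (.ofNat (nat_lit 971976358970161856463765504)), (.negSucc (nat_lit 12845071)), (.negSucc (nat_lit 12845039)), (.negSucc (nat_lit 2471863705877079916543)), (.ofNat (nat_lit 2471863705877079916544)), (.negSucc (nat_lit 2471863705877079916543)), (.ofNat (nat_lit 2471863705877079916544)), (.ofNat (nat_lit 0))⟩,
    ⟨nat_lit 1, nat_lit 3, nat_lit 4, (.ofNat (nat_lit 8)), (.ofNat (nat_lit 115605504)), (.ofNat (nat_lit 793780693158965516112075161600)), (.ofNat (nat_lit 2752512)), (.ofNat (nat_lit 5507866034164250519961337856)), (.ofNat (nat_lit 115605488)), (.ofNat (nat_lit 115605520)), (.ofNat (nat_lit 2471863705877079916544)), (.negSucc (nat_lit 2471863705877079916543)), (.negSucc (nat_lit 2471863705877079916543)), (.ofNat (nat_lit 2471863705877079916544)), (.ofNat (nat_lit 0))⟩,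
    ⟨nat_lit 0, nat_lit 5, nat_lit 4, (.ofNat (nat_lit 8)), (.ofNat (nat_lit 4980736)), (.ofNat (nat_lit 1067230042149237718397214523392)), (.ofNat (nat_lit 1310720)), (.ofNat (nat_lit 9071779350388177326995144704)), (.ofNat (nat_lit 4980720)), (.ofNat (nat_lit 4980752)), (.ofNat (nat_lit 2471863705877079916544)), (.negSucc (nat_lit 2471863705877079916543)), (.negSucc (nat_lit 2471863705877079916543)), (.ofNat (nat_lit 2471863705877079916544)), (.ofNat (nat_lit 0))⟩,
    ⟨nat_lit 2, nat_lit 6, nat_lit 5, (.ofNat (nat_lit 8)), (.negSucc (nat_lit 177209343)), (.ofNat (nat_lit 616880995826396058235669839872)), (.negSucc (nat_lit 1048575)), (.ofNat (nat_lit 3239921196567206188212551680)), (.negSucc (nat_lit 177209359)), (.negSucc (nat_lit 177209327)), (.negSucc (nat_lit 2471863705877079916543)), (.ofNat (nat_lit 2471863705877079916544)), (.negSucc (nat_lit 2471863705877079916543)), (.ofNat (nat_lit 2471863705877079916544)), (.ofNat (nat_lit 0))⟩,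
    ⟨nat_lit 0, nat_lit 25, nat_lit 16, (.ofNat (nat_lit 8)), (.negSucc (nat_lit 102498303)), (.ofNat (nat_lit 430909519143438423032269373440)), (.ofNat (nat_lit 0)), (.ofNat (nat_lit 0)), (.negSucc (nat_lit 102498319)), (.negSucc (nat_lit 102498287)), (.ofNat (nat_lit 2471863705877079916544)), (.negSucc (nat_lit 2471863705877079916543)), (.negSucc (nat_lit 2471863705877079916543)), (.ofNat (nat_lit 2471863705877079916544)), (.ofNat (nat_lit 0))⟩,
    ⟨nat_lit 0, nat_lit 7, nat_lit 8, (.ofNat (nat_lit 8)), (.negSucc (nat_lit 31719423)), (.ofNat (nat_lit 704358868133710625317408735232)), (.ofNat (nat_lit 786432)), (.ofNat (nat_lit 3887905435880647425855062016)), (.negSucc (nat_lit 31719439)), (.negSucc (nat_lit 31719407)), (.ofNat (nat_lit 2471863705877079916544)), (.negSucc (nat_lit 2471863705877079916543)), (.negSucc (nat_lit 2471863705877079916543)), (.ofNat (nat_lit 2471863705877079916544)), (.ofNat (nat_lit 0))⟩,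
    ⟨nat_lit 0, nat_lit 8, nat_lit 9, (.ofNat (nat_lit 8)), (.ofNat (nat_lit 115605504)), (.ofNat (nat_lit 340191725639556649762317926400)), (.ofNat (nat_lit 2752512)), (.negSucc (nat_lit 971976358970161856463765503)), (.ofNat (nat_lit 115605488)), (.ofNat (nat_lit 115605520)), (.negSucc (nat_lit 2471863705877079916543)), (.ofNat (nat_lit 2471863705877079916544)), (.negSucc (nat_lit 2471863705877079916543)), (.ofNat (nat_lit 2471863705877079916544)), (.ofNat (nat_lit 0))⟩,
    ⟨nat_lit 1, nat_lit 9, nat_lit 10, (.ofNat (nat_lit 8)), (.ofNat (nat_lit 189005824)), (.ofNat (nat_lit 521627312647320196302220820480)), (.ofNat (nat_lit 3801088)), (.ofNat (nat_lit 1619960598283603094106275840)), (.ofNat (nat_lit 189005808)), (.ofNat (nat_lit 189005840)), (.ofNat (nat_lit 2471863705877079916544)), (.negSucc (nat_lit 2471863705877079916543)), (.negSucc (nat_lit 2471863705877079916543)), (.ofNat (nat_lit 2471863705877079916544)), (.ofNat (nat_lit 0))⟩,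
    ⟨nat_lit 0, nat_lit 11, nat_lit 10, (.ofNat (nat_lit 8)), (.ofNat (nat_lit 133955584)), (.ofNat (nat_lit 657704002903142856207147991040)), (.ofNat (nat_lit 3014656)), (.ofNat (nat_lit 3563913316223926807033806848)), (.ofNat (nat_lit 133955568)), (.ofNat (nat_lit 133955600)), (.ofNat (nat_lit 2471863705877079916544)), (.negSucc (nat_lit 2471863705877079916543)), (.negSucc (nat_lit 2471863705877079916543)), (.ofNat (nat_lit 2471863705877079916544)), (.ofNat (nat_lit 0))⟩,
    ⟨nat_lit 2, nat_lit 12, nat_lit 11, (.ofNat (nat_lit 8)), (.ofNat (nat_lit 97255424)), (.ofNat (nat_lit 566986209399261082937196544000)), (.ofNat (nat_lit 2490368)), (.ofNat (nat_lit 2267944837597044331748786176)), (.ofNat (nat_lit 97255408)), (.ofNat (nat_lit 97255440)), (.negSucc (nat_lit 2471863705877079916543)), (.ofNat (nat_lit 2471863705877079916544)), (.negSucc (nat_lit 2471863705877079916543)), (.ofNat (nat_lit 2471863705877079916544)), (.ofNat (nat_lit 0))⟩,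
    ⟨nat_lit 1, nat_lit 13, nat_lit 12, (.ofNat (nat_lit 8)), (.ofNat (nat_lit 170655744)), (.ofNat (nat_lit 385550622391497536397293649920)), (.ofNat (nat_lit 3538944)), (.negSucc (nat_lit 323992119656720618821255167)), (.ofNat (nat_lit 170655728)), (.ofNat (nat_lit 170655760)), (.ofNat (nat_lit 2471863705877079916544)), (.negSucc (nat_lit 2471863705877079916543)), (.negSucc (nat_lit 2471863705877079916543)), (.ofNat (nat_lit 2471863705877079916544)), (.ofNat (nat_lit 0))⟩,
    ⟨nat_lit 0, nat_lit 14, nat_lit 13, (.ofNat (nat_lit 8)), (.ofNat (nat_lit 115605504)), (.ofNat (nat_lit 249473932135674876492366479360)), (.ofNat (nat_lit 2752512)), (.negSucc (nat_lit 2267944837597044331748786175)), (.ofNat (nat_lit 115605488)), (.ofNat (nat_lit 115605520)), (.negSucc (nat_lit 2471863705877079916543)), (.ofNat (nat_lit 2471863705877079916544)), (.negSucc (nat_lit 2471863705877079916543)), (.ofNat (nat_lit 2471863705877079916544)), (.ofNat (nat_lit 0))⟩,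
    ⟨nat_lit 0, nat_lit 15, nat_lit 14, (.ofNat (nat_lit 8)), (.negSucc (nat_lit 30408703)), (.ofNat (nat_lit 610401153433261645859244736512)), (.ofNat (nat_lit 786432)), (.ofNat (nat_lit 2591936957253764950570041344)), (.negSucc (nat_lit 30408719)), (.negSucc (nat_lit 30408687)), (.ofNat (nat_lit 2471863705877079916544)), (.negSucc (nat_lit 2471863705877079916543)), (.negSucc (nat_lit 2471863705877079916543)), (.ofNat (nat_lit 2471863705877079916544)), (.ofNat (nat_lit 0))⟩,
    ⟨nat_lit 0, nat_lit 6, nat_lit 15, (.ofNat (nat_lit 8)), (.negSucc (nat_lit 102498303)), (.ofNat (nat_lit 432205487622065305507554394112)), (.ofNat (nat_lit 0)), (.ofNat (nat_lit 647984239313441237642510336)), (.negSucc (nat_lit 102498319)), (.negSucc (nat_lit 102498287)), (.negSucc (nat_lit 2471863705877079916543)), (.ofNat (nat_lit 2471863705877079916544)), (.negSucc (nat_lit 2471863705877079916543)), (.ofNat (nat_lit 2471863705877079916544)), (.ofNat (nat_lit 0))⟩,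
    ⟨nat_lit 0, nat_lit 16, nat_lit 17, (.ofNat (nat_lit 8)), (.negSucc (nat_lit 11796479)), (.ofNat (nat_lit 206706972340987754807960797184)), (.ofNat (nat_lit 1048576)), (.negSucc (nat_lit 2591936957253764950570041343)), (.negSucc (nat_lit 11796495)), (.negSucc (nat_lit 11796463)), (.negSucc (nat_lit 2471863705877079916543)), (.ofNat (nat_lit 2471863705877079916544)), (.negSucc (nat_lit 2471863705877079916543)), (.ofNat (nat_lit 2471863705877079916544)), (.ofNat (nat_lit 0))⟩,
    ⟨nat_lit 1, nat_lit 17, nat_lit 18, (.ofNat (nat_lit 8)), (.ofNat (nat_lit 133955584)), (.ofNat (nat_lit 566986209399261082937196544000)), (.ofNat (nat_lit 3014656)), (.ofNat (nat_lit 2267944837597044331748786176)), (.ofNat (nat_lit 133955568)), (.ofNat (nat_lit 133955600)), (.ofNat (nat_lit 2471863705877079916544)), (.negSucc (nat_lit 2471863705877079916543)), (.negSucc (nat_lit 2471863705877079916543)), (.ofNat (nat_lit 2471863705877079916544)), (.ofNat (nat_lit 0))⟩,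
    ⟨nat_lit 0, nat_lit 19, nat_lit 18, (.ofNat (nat_lit 8)), (.ofNat (nat_lit 97255424)), (.ofNat (nat_lit 657704002903142856207147991040)), (.ofNat (nat_lit 2490368)), (.ofNat (nat_lit 3563913316223926807033806848)), (.ofNat (nat_lit 97255408)), (.ofNat (nat_lit 97255440)), (.ofNat (nat_lit 2471863705877079916544)), (.negSucc (nat_lit 2471863705877079916543)), (.negSucc (nat_lit 2471863705877079916543)), (.ofNat (nat_lit 2471863705877079916544)), (.ofNat (nat_lit 0))⟩,
    ⟨nat_lit 0, nat_lit 20, nat_lit 19, (.ofNat (nat_lit 8)), (.negSucc (nat_lit 12845055)), (.ofNat (nat_lit 385550622391497536397293649920)), (.ofNat (nat_lit 917504)), (.negSucc (nat_lit 323992119656720618821255167)), (.negSucc (nat_lit 12845071)), (.negSucc (nat_lit 12845039)), (.negSucc (nat_lit 2471863705877079916543)), (.ofNat (nat_lit 2471863705877079916544)), (.negSucc (nat_lit 2471863705877079916543)), (.ofNat (nat_lit 2471863705877079916544)), (.ofNat (nat_lit 0))⟩,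
    ⟨nat_lit 2, nat_lit 20, nat_lit 21, (.ofNat (nat_lit 8)), (.negSucc (nat_lit 105119743)), (.ofNat (nat_lit 613641074629828852047457288192)), (.negSucc (nat_lit 262143)), (.ofNat (nat_lit 2591936957253764950570041344)), (.negSucc (nat_lit 105119759)), (.negSucc (nat_lit 105119727)), (.negSucc (nat_lit 2471863705877079916543)), (.ofNat (nat_lit 2471863705877079916544)), (.negSucc (nat_lit 2471863705877079916543)), (.ofNat (nat_lit 2471863705877079916544)), (.ofNat (nat_lit 0))⟩,
    ⟨nat_lit 0, nat_lit 21, nat_lit 22, (.ofNat (nat_lit 8)), (.negSucc (nat_lit 31719423)), (.ofNat (nat_lit 795076661637592398587360182272)), (.ofNat (nat_lit 786432)), (.ofNat (nat_lit 5183873914507529901140082688)), (.negSucc (nat_lit 31719439)), (.negSucc (nat_lit 31719407)), (.ofNat (nat_lit 2471863705877079916544)), (.negSucc (nat_lit 2471863705877079916543)), (.negSucc (nat_lit 2471863705877079916543)), (.ofNat (nat_lit 2471863705877079916544)), (.ofNat (nat_lit 0))⟩,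
    ⟨nat_lit 1, nat_lit 23, nat_lit 22, (.ofNat (nat_lit 8)), (.ofNat (nat_lit 115605504)), (.ofNat (nat_lit 430909519143438423032269373440)), (.ofNat (nat_lit 2752512)), (.ofNat (nat_lit 323992119656720618821255168)), (.ofNat (nat_lit 115605488)), (.ofNat (nat_lit 115605520)), (.ofNat (nat_lit 2471863705877079916544)), (.negSucc (nat_lit 2471863705877079916543)), (.negSucc (nat_lit 2471863705877079916543)), (.ofNat (nat_lit 2471863705877079916544)), (.ofNat (nat_lit 0))⟩,
    ⟨nat_lit 2, nat_lit 24, nat_lit 7, (.ofNat (nat_lit 8)), (.negSucc (nat_lit 141819903)), (.ofNat (nat_lit 432205487622065305507554394112)), (.negSucc (nat_lit 655359)), (.ofNat (nat_lit 323992119656720618821255168)), (.negSucc (nat_lit 141819919)), (.negSucc (nat_lit 141819887)), (.negSucc (nat_lit 2471863705877079916543)), (.ofNat (nat_lit 2471863705877079916544)), (.negSucc (nat_lit 2471863705877079916543)), (.ofNat (nat_lit 2471863705877079916544)), (.ofNat (nat_lit 0))⟩,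
    ⟨nat_lit 0, nat_lit 24, nat_lit 25, (.ofNat (nat_lit 8)), (.negSucc (nat_lit 121896959)), (.ofNat (nat_lit 382958685434243771446723608576)), (.negSucc (nat_lit 262143)), (.negSucc (nat_lit 647984239313441237642510335)), (.negSucc (nat_lit 121896975)), (.negSucc (nat_lit 121896943)), (.negSucc (nat_lit 2471863705877079916543)), (.ofNat (nat_lit 2471863705877079916544)), (.negSucc (nat_lit 2471863705877079916543)), (.ofNat (nat_lit 2471863705877079916544)), (.ofNat (nat_lit 0))⟩]
  es := [
    ⟨nat_lit 1, nat_lit 0, (.negSucc (nat_lit 197132287)), (.negSucc (nat_lit 31457279)), (.negSucc (nat_lit 197132271)), (.negSucc (nat_lit 31457295)), (.negSucc (nat_lit 2471863705877079916543)), (.ofNat (nat_lit 0)), (.negSucc (nat_lit 2591936957253764950570041343))⟩,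
    ⟨nat_lit 1, nat_lit 2, (.negSucc (nat_lit 197132287)), (.negSucc (nat_lit 105119743)), (.negSucc (nat_lit 197132271)), (.negSucc (nat_lit 105119759)), (.ofNat (nat_lit 2471863705877079916544)), (.ofNat (nat_lit 0)), (.ofNat (nat_lit 4535889675194088663497572352))⟩,
    ⟨nat_lit 2, nat_lit 3, (.negSucc (nat_lit 105119743)), (.negSucc (nat_lit 12845055)), (.negSucc (nat_lit 105119727)), (.negSucc (nat_lit 12845071)), (.negSucc (nat_lit 2471863705877079916543)), (.ofNat (nat_lit 0)), (.ofNat (nat_lit 3239921196567206188212551680))⟩,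
    ⟨nat_lit 3, nat_lit 4, (.negSucc (nat_lit 12845055)), (.ofNat (nat_lit 115605504)), (.negSucc (nat_lit 12845039)), (.ofNat (nat_lit 115605488)), (.ofNat (nat_lit 2471863705877079916544)), (.ofNat (nat_lit 0)), (.negSucc (nat_lit 1295968478626882475285020671))⟩,
    ⟨nat_lit 5, nat_lit 4, (.ofNat (nat_lit 4980736)), (.ofNat (nat_lit 115605504)), (.ofNat (nat_lit 4980752)), (.ofNat (nat_lit 115605488)), (.negSucc (nat_lit 2471863705877079916543)), (.ofNat (nat_lit 0)), (.ofNat (nat_lit 12311700546955383515207696384))⟩,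
    ⟨nat_lit 6, nat_lit 5, (.negSucc (nat_lit 177209343)), (.ofNat (nat_lit 4980736)), (.negSucc (nat_lit 177209327)), (.ofNat (nat_lit 4980720)), (.ofNat (nat_lit 2471863705877079916544)), (.ofNat (nat_lit 0)), (.ofNat (nat_lit 5831858153820971138782593024))⟩,
    ⟨nat_lit 6, nat_lit 16, (.negSucc (nat_lit 177209343)), (.negSucc (nat_lit 102498303)), (.negSucc (nat_lit 177209327)), (.negSucc (nat_lit 102498319)), (.negSucc (nat_lit 2471863705877079916543)), (.ofNat (nat_lit 0)), (.ofNat (nat_lit 647984239313441237642510336))⟩,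
    ⟨nat_lit 24, nat_lit 8, (.negSucc (nat_lit 141819903)), (.negSucc (nat_lit 31719423)), (.negSucc (nat_lit 141819887)), (.negSucc (nat_lit 31719439)), (.ofNat (nat_lit 2471863705877079916544)), (.ofNat (nat_lit 0)), (.ofNat (nat_lit 1943952717940323712927531008))⟩,
    ⟨nat_lit 8, nat_lit 9, (.negSucc (nat_lit 31719423)), (.ofNat (nat_lit 115605504)), (.negSucc (nat_lit 31719407)), (.ofNat (nat_lit 115605488)), (.negSucc (nat_lit 2471863705877079916543)), (.ofNat (nat_lit 0)), (.ofNat (nat_lit 5831858153820971138782593024))⟩,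
    ⟨nat_lit 9, nat_lit 10, (.ofNat (nat_lit 115605504)), (.ofNat (nat_lit 189005824)), (.ofNat (nat_lit 115605520)), (.ofNat (nat_lit 189005808)), (.ofNat (nat_lit 2471863705877079916544)), (.ofNat (nat_lit 0)), (.negSucc (nat_lit 7775810871761294851710124031))⟩,
    ⟨nat_lit 11, nat_lit 10, (.ofNat (nat_lit 133955584)), (.ofNat (nat_lit 189005824)), (.ofNat (nat_lit 133955600)), (.ofNat (nat_lit 189005808)), (.negSucc (nat_lit 2471863705877079916543)), (.ofNat (nat_lit 0)), (.ofNat (nat_lit 11015732068328501039922675712))⟩,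
    ⟨nat_lit 12, nat_lit 11, (.ofNat (nat_lit 97255424)), (.ofNat (nat_lit 133955584)), (.ofNat (nat_lit 97255440)), (.ofNat (nat_lit 133955568)), (.ofNat (nat_lit 2471863705877079916544)), (.ofNat (nat_lit 0)), (.negSucc (nat_lit 3887905435880647425855062015))⟩,
    ⟨nat_lit 12, nat_lit 13, (.ofNat (nat_lit 97255424)), (.ofNat (nat_lit 170655744)), (.ofNat (nat_lit 97255440)), (.ofNat (nat_lit 170655728)), (.negSucc (nat_lit 2471863705877079916543)), (.ofNat (nat_lit 0)), (.ofNat (nat_lit 8423795111074736089352634368))⟩,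
    ⟨nat_lit 14, nat_lit 13, (.ofNat (nat_lit 115605504)), (.ofNat (nat_lit 170655744)), (.ofNat (nat_lit 115605520)), (.ofNat (nat_lit 170655728)), (.ofNat (nat_lit 2471863705877079916544)), (.ofNat (nat_lit 0)), (.negSucc (nat_lit 9071779350388177326995144703))⟩,
    ⟨nat_lit 15, nat_lit 14, (.negSucc (nat_lit 30408703)), (.ofNat (nat_lit 115605504)), (.negSucc (nat_lit 30408687)), (.ofNat (nat_lit 115605488)), (.negSucc (nat_lit 2471863705877079916543)), (.ofNat (nat_lit 0)), (.ofNat (nat_lit 4535889675194088663497572352))⟩,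
    ⟨nat_lit 16, nat_lit 15, (.negSucc (nat_lit 102498303)), (.negSucc (nat_lit 30408703)), (.negSucc (nat_lit 102498287)), (.negSucc (nat_lit 30408719)), (.ofNat (nat_lit 2471863705877079916544)), (.ofNat (nat_lit 0)), (.ofNat (nat_lit 647984239313441237642510336))⟩,
    ⟨nat_lit 7, nat_lit 17, (.negSucc (nat_lit 102498303)), (.negSucc (nat_lit 11796479)), (.negSucc (nat_lit 102498287)), (.negSucc (nat_lit 11796495)), (.negSucc (nat_lit 2471863705877079916543)), (.ofNat (nat_lit 0)), (.ofNat (nat_lit 0))⟩,
    ⟨nat_lit 17, nat_lit 18, (.negSucc (nat_lit 11796479)), (.ofNat (nat_lit 133955584)), (.negSucc (nat_lit 11796463)), (.ofNat (nat_lit 133955568)), (.ofNat (nat_lit 2471863705877079916544)), (.ofNat (nat_lit 0)), (.negSucc (nat_lit 5183873914507529901140082687))⟩,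
    ⟨nat_lit 19, nat_lit 18, (.ofNat (nat_lit 97255424)), (.ofNat (nat_lit 133955584)), (.ofNat (nat_lit 97255440)), (.ofNat (nat_lit 133955568)), (.negSucc (nat_lit 2471863705877079916543)), (.ofNat (nat_lit 0)), (.ofNat (nat_lit 9719763589701618564637655040))⟩,
    ⟨nat_lit 20, nat_lit 19, (.negSucc (nat_lit 12845055)), (.ofNat (nat_lit 97255424)), (.negSucc (nat_lit 12845039)), (.ofNat (nat_lit 97255408)), (.ofNat (nat_lit 2471863705877079916544)), (.ofNat (nat_lit 0)), (.negSucc (nat_lit 2591936957253764950570041343))⟩,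
    ⟨nat_lit 21, nat_lit 20, (.negSucc (nat_lit 105119743)), (.negSucc (nat_lit 12845055)), (.negSucc (nat_lit 105119727)), (.negSucc (nat_lit 12845071)), (.negSucc (nat_lit 2471863705877079916543)), (.ofNat (nat_lit 0)), (.ofNat (nat_lit 1943952717940323712927531008))⟩,
    ⟨nat_lit 21, nat_lit 22, (.negSucc (nat_lit 105119743)), (.negSucc (nat_lit 31719423)), (.negSucc (nat_lit 105119727)), (.negSucc (nat_lit 31719439)), (.ofNat (nat_lit 2471863705877079916544)), (.ofNat (nat_lit 0)), (.ofNat (nat_lit 3239921196567206188212551680))⟩,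
    ⟨nat_lit 22, nat_lit 23, (.negSucc (nat_lit 31719423)), (.ofNat (nat_lit 115605504)), (.negSucc (nat_lit 31719407)), (.ofNat (nat_lit 115605488)), (.negSucc (nat_lit 2471863705877079916543)), (.ofNat (nat_lit 0)), (.ofNat (nat_lit 7127826632447853614067613696))⟩,
    ⟨nat_lit 0, nat_lit 23, (.negSucc (nat_lit 31457279)), (.ofNat (nat_lit 115605504)), (.negSucc (nat_lit 31457263)), (.ofNat (nat_lit 115605488)), (.ofNat (nat_lit 2471863705877079916544)), (.ofNat (nat_lit 0)), (.negSucc (nat_lit 6479842393134412376425103359))⟩,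
    ⟨nat_lit 24, nat_lit 25, (.negSucc (nat_lit 141819903)), (.negSucc (nat_lit 121896959)), (.negSucc (nat_lit 141819887)), (.negSucc (nat_lit 121896975)), (.negSucc (nat_lit 2471863705877079916543)), (.ofNat (nat_lit 0)), (.negSucc (nat_lit 1295968478626882475285020671))⟩,
    ⟨nat_lit 25, nat_lit 7, (.negSucc (nat_lit 121896959)), (.negSucc (nat_lit 102498303)), (.negSucc (nat_lit 121896943)), (.negSucc (nat_lit 102498319)), (.ofNat (nat_lit 2471863705877079916544)), (.ofNat (nat_lit 0)), (.ofNat (nat_lit 0))⟩]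

theorem ok15 : stOK 25 25 S15 = true := by decide +kernel

def S16 : SD where
  vs := [
    ⟨nat_lit 0, nat_lit 0, nat_lit 23, (.ofNat (nat_lit 8)), (.negSucc (nat_lit 32767999)), (.ofNat (nat_lit 73222219042418859853603667968)), (.negSucc (nat_lit 524287)), (.ofNat (nat_lit 1295968478626882475285020672)), (.negSucc (nat_lit 32768015)), (.negSucc (nat_lit 32767983)), (.negSucc (nat_lit 2471863705877079916543)), (.ofNat (nat_lit 2471863705877079916544)), (.negSucc (nat_lit 2471863705877079916543)), (.ofNat (nat_lit 2471863705877079916544)), (.ofNat (nat_lit 0))⟩,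
    ⟨nat_lit 2, nat_lit 0, nat_lit 1, (.ofNat (nat_lit 8)), (.negSucc (nat_lit 198574079)), (.ofNat (nat_lit 483072250408170442662491455488)), (.negSucc (nat_lit 2883583)), (.ofNat (nat_lit 7127826632447853614067613696)), (.negSucc (nat_lit 198574095)), (.negSucc (nat_lit 198574063)), (.negSucc (nat_lit 2471863705877079916543)), (.ofNat (nat_lit 2471863705877079916544)), (.negSucc (nat_lit 2471863705877079916543)), (.ofNat (nat_lit 2471863705877079916544)), (.ofNat (nat_lit 0))⟩,
    ⟨nat_lit 0, nat_lit 1, nat_lit 2, (.ofNat (nat_lit 8)), (.negSucc (nat_lit 87556159)), (.ofNat (nat_lit 757493417558135630670979923968)), (.ofNat (nat_lit 17301440)), (.ofNat (nat_lit 57022454860305652779426250752)), (.negSucc (nat_lit 87556175)), (.negSucc (nat_lit 87556143)), (.ofNat (nat_lit 2471863705877079916544)), (.negSucc (nat_lit 2471863705877079916543)), (.negSucc (nat_lit 2471863705877079916543)), (.ofNat (nat_lit 2471863705877079916544)), (.ofNat (nat_lit 0))⟩,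
    ⟨nat_lit 0, nat_lit 2, nat_lit 3, (.ofNat (nat_lit 8)), (.ofNat (nat_lit 4849600)), (.ofNat (nat_lit 529078973200147594401995030528)), (.ofNat (nat_lit 18612160)), (.ofNat (nat_lit 53782533663738446591213699072)), (.ofNat (nat_lit 4849584)), (.ofNat (nat_lit 4849616)), (.negSucc (nat_lit 2471863705877079916543)), (.ofNat (nat_lit 2471863705877079916544)), (.negSucc (nat_lit 2471863705877079916543)), (.ofNat (nat_lit 2471863705877079916544)), (.ofNat (nat_lit 0))⟩,
    ⟨nat_lit 1, nat_lit 3, nat_lit 4, (.ofNat (nat_lit 8)), (.ofNat (nat_lit 133300160)), (.ofNat (nat_lit 846591250463733800846825095168)), (.ofNat (nat_lit 20447168)), (.ofNat (nat_lit 58318423338932535254711271424)), (.ofNat (nat_lit 133300144)), (.ofNat (nat_lit 133300176)), (.ofNat (nat_lit 2471863705877079916544)), (.negSucc (nat_lit 2471863705877079916543)), (.negSucc (nat_lit 2471863705877079916543)), (.ofNat (nat_lit 2471863705877079916544)), (.ofNat (nat_lit 0))⟩,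
    ⟨nat_lit 0, nat_lit 5, nat_lit 4, (.ofNat (nat_lit 8)), (.ofNat (nat_lit 22544320)), (.ofNat (nat_lit 1120364591573662723750785712128)), (.ofNat (nat_lit 18874304)), (.ofNat (nat_lit 62206328774813182680566333440)), (.ofNat (nat_lit 22544304)), (.ofNat (nat_lit 22544336)), (.ofNat (nat_lit 2471863705877079916544)), (.negSucc (nat_lit 2471863705877079916543)), (.negSucc (nat_lit 2471863705877079916543)), (.ofNat (nat_lit 2471863705877079916544)), (.ofNat (nat_lit 0))⟩,
    ⟨nat_lit 2, nat_lit 6, nat_lit 5, (.ofNat (nat_lit 8)), (.negSucc (nat_lit 159645759)), (.ofNat (nat_lit 670015545250821063589241028608)), (.ofNat (nat_lit 16515008)), (.ofNat (nat_lit 56374470620992211541783740416)), (.negSucc (nat_lit 159645775)), (.negSucc (nat_lit 159645743)), (.negSucc (nat_lit 2471863705877079916543)), (.ofNat (nat_lit 2471863705877079916544)), (.negSucc (nat_lit 2471863705877079916543)), (.ofNat (nat_lit 2471863705877079916544)), (.ofNat (nat_lit 0))⟩,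
    ⟨nat_lit 0, nat_lit 25, nat_lit 16, (.ofNat (nat_lit 8)), (.negSucc (nat_lit 104071167)), (.ofNat (nat_lit 436093393057945952933409456128)), (.negSucc (nat_lit 1572863)), (.ofNat (nat_lit 5183873914507529901140082688)), (.negSucc (nat_lit 104071183)), (.negSucc (nat_lit 104071151)), (.ofNat (nat_lit 2471863705877079916544)), (.negSucc (nat_lit 2471863705877079916543)), (.negSucc (nat_lit 2471863705877079916543)), (.ofNat (nat_lit 2471863705877079916544)), (.ofNat (nat_lit 0))⟩,
    ⟨nat_lit 0, nat_lit 7, nat_lit 8, (.ofNat (nat_lit 8)), (.negSucc (nat_lit 14155839)), (.ofNat (nat_lit 757493417558135630670979923968)), (.ofNat (nat_lit 18350016)), (.ofNat (nat_lit 57022454860305652779426250752)), (.negSucc (nat_lit 14155855)), (.negSucc (nat_lit 14155823)), (.ofNat (nat_lit 2471863705877079916544)), (.negSucc (nat_lit 2471863705877079916543)), (.negSucc (nat_lit 2471863705877079916543)), (.ofNat (nat_lit 2471863705877079916544)), (.ofNat (nat_lit 0))⟩,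
    ⟨nat_lit 0, nat_lit 8, nat_lit 9, (.ofNat (nat_lit 8)), (.ofNat (nat_lit 133300160)), (.ofNat (nat_lit 393002282944324934497067859968)), (.ofNat (nat_lit 20447168)), (.ofNat (nat_lit 51838580945798122878286168064)), (.ofNat (nat_lit 133300144)), (.ofNat (nat_lit 133300176)), (.negSucc (nat_lit 2471863705877079916543)), (.ofNat (nat_lit 2471863705877079916544)), (.negSucc (nat_lit 2471863705877079916543)), (.ofNat (nat_lit 2471863705877079916544)), (.ofNat (nat_lit 0))⟩,
    ⟨nat_lit 1, nat_lit 9, nat_lit 10, (.ofNat (nat_lit 8)), (.ofNat (nat_lit 206700480)), (.ofNat (nat_lit 574437869952088481036970754048)), (.ofNat (nat_lit 21495744)), (.ofNat (nat_lit 54430517903051887828856209408)), (.ofNat (nat_lit 206700464)), (.ofNat (nat_lit 206700496)), (.ofNat (nat_lit 2471863705877079916544)), (.negSucc (nat_lit 2471863705877079916543)), (.negSucc (nat_lit 2471863705877079916543)), (.ofNat (nat_lit 2471863705877079916544)), (.ofNat (nat_lit 0))⟩,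
    ⟨nat_lit 0, nat_lit 11, nat_lit 10, (.ofNat (nat_lit 8)), (.ofNat (nat_lit 151650240)), (.ofNat (nat_lit 710514560207911140941897924608)), (.ofNat (nat_lit 20709312)), (.ofNat (nat_lit 56374470620992211541783740416)), (.ofNat (nat_lit 151650224)), (.ofNat (nat_lit 151650256)), (.ofNat (nat_lit 2471863705877079916544)), (.negSucc (nat_lit 2471863705877079916543)), (.negSucc (nat_lit 2471863705877079916543)), (.ofNat (nat_lit 2471863705877079916544)), (.ofNat (nat_lit 0))⟩,
    ⟨nat_lit 2, nat_lit 12, nat_lit 11, (.ofNat (nat_lit 8)), (.ofNat (nat_lit 114950080)), (.ofNat (nat_lit 619796766704029367671946477568)), (.ofNat (nat_lit 20185024)), (.ofNat (nat_lit 55078502142365329066498719744)), (.ofNat (nat_lit 114950064)), (.ofNat (nat_lit 114950096)), (.negSucc (nat_lit 2471863705877079916543)), (.ofNat (nat_lit 2471863705877079916544)), (.negSucc (nat_lit 2471863705877079916543)), (.ofNat (nat_lit 2471863705877079916544)), (.ofNat (nat_lit 0))⟩,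
    ⟨nat_lit 1, nat_lit 13, nat_lit 12, (.ofNat (nat_lit 8)), (.ofNat (nat_lit 188350400)), (.ofNat (nat_lit 438361179696265821132043583488)), (.ofNat (nat_lit 21233600)), (.ofNat (nat_lit 52486565185111564115928678400)), (.ofNat (nat_lit 188350384)), (.ofNat (nat_lit 188350416)), (.ofNat (nat_lit 2471863705877079916544)), (.negSucc (nat_lit 2471863705877079916543)), (.negSucc (nat_lit 2471863705877079916543)), (.ofNat (nat_lit 2471863705877079916544)), (.ofNat (nat_lit 0))⟩,
    ⟨nat_lit 0, nat_lit 14, nat_lit 13, (.ofNat (nat_lit 8)), (.ofNat (nat_lit 133300160)), (.ofNat (nat_lit 302284489440443161227116412928)), (.ofNat (nat_lit 20447168)), (.ofNat (nat_lit 50542612467171240403001147392)), (.ofNat (nat_lit 133300144)), (.ofNat (nat_lit 133300176)), (.negSucc (nat_lit 2471863705877079916543)), (.ofNat (nat_lit 2471863705877079916544)), (.negSucc (nat_lit 2471863705877079916543)), (.ofNat (nat_lit 2471863705877079916544)), (.ofNat (nat_lit 0))⟩,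
    ⟨nat_lit 0, nat_lit 15, nat_lit 14, (.ofNat (nat_lit 8)), (.negSucc (nat_lit 12845119)), (.ofNat (nat_lit 663535702857686651212815925248)), (.ofNat (nat_lit 18350016)), (.ofNat (nat_lit 55726486381678770304141230080)), (.negSucc (nat_lit 12845135)), (.negSucc (nat_lit 12845103)), (.ofNat (nat_lit 2471863705877079916544)), (.negSucc (nat_lit 2471863705877079916543)), (.negSucc (nat_lit 2471863705877079916543)), (.ofNat (nat_lit 2471863705877079916544)), (.ofNat (nat_lit 0))⟩,
    ⟨nat_lit 0, nat_lit 6, nat_lit 15, (.ofNat (nat_lit 8)), (.negSucc (nat_lit 84934719)), (.ofNat (nat_lit 485340037046490310861125582848)), (.ofNat (nat_lit 17563584)), (.ofNat (nat_lit 53782533663738446591213699072)), (.negSucc (nat_lit 84934735)), (.negSucc (nat_lit 84934703)), (.negSucc (nat_lit 2471863705877079916543)), (.ofNat (nat_lit 2471863705877079916544)), (.negSucc (nat_lit 2471863705877079916543)), (.ofNat (nat_lit 2471863705877079916544)), (.ofNat (nat_lit 0))⟩,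
    ⟨nat_lit 0, nat_lit 16, nat_lit 17, (.ofNat (nat_lit 8)), (.negSucc (nat_lit 13369343)), (.ofNat (nat_lit 211890846255495284709100879872)), (.negSucc (nat_lit 524287)), (.ofNat (nat_lit 2591936957253764950570041344)), (.negSucc (nat_lit 13369359)), (.negSucc (nat_lit 13369327)), (.negSucc (nat_lit 2471863705877079916543)), (.ofNat (nat_lit 2471863705877079916544)), (.negSucc (nat_lit 2471863705877079916543)), (.ofNat (nat_lit 2471863705877079916544)), (.ofNat (nat_lit 0))⟩,
    ⟨nat_lit 1, nat_lit 17, nat_lit 18, (.ofNat (nat_lit 8)), (.ofNat (nat_lit 151650240)), (.ofNat (nat_lit 619796766704029367671946477568)), (.ofNat (nat_lit 20709312)), (.ofNat (nat_lit 55078502142365329066498719744)), (.ofNat (nat_lit 151650224)), (.ofNat (nat_lit 151650256)), (.ofNat (nat_lit 2471863705877079916544)), (.negSucc (nat_lit 2471863705877079916543)), (.negSucc (nat_lit 2471863705877079916543)), (.ofNat (nat_lit 2471863705877079916544)), (.ofNat (nat_lit 0))⟩,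
    ⟨nat_lit 0, nat_lit 19, nat_lit 18, (.ofNat (nat_lit 8)), (.ofNat (nat_lit 114950080)), (.ofNat (nat_lit 710514560207911140941897924608)), (.ofNat (nat_lit 20185024)), (.ofNat (nat_lit 56374470620992211541783740416)), (.ofNat (nat_lit 114950064)), (.ofNat (nat_lit 114950096)), (.ofNat (nat_lit 2471863705877079916544)), (.negSucc (nat_lit 2471863705877079916543)), (.negSucc (nat_lit 2471863705877079916543)), (.ofNat (nat_lit 2471863705877079916544)), (.ofNat (nat_lit 0))⟩,
    ⟨nat_lit 0, nat_lit 20, nat_lit 19, (.ofNat (nat_lit 8)), (.ofNat (nat_lit 4849600)), (.ofNat (nat_lit 438361179696265821132043583488)), (.ofNat (nat_lit 18612160)), (.ofNat (nat_lit 52486565185111564115928678400)), (.ofNat (nat_lit 4849584)), (.ofNat (nat_lit 4849616)), (.negSucc (nat_lit 2471863705877079916543)), (.ofNat (nat_lit 2471863705877079916544)), (.negSucc (nat_lit 2471863705877079916543)), (.ofNat (nat_lit 2471863705877079916544)), (.ofNat (nat_lit 0))⟩,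
    ⟨nat_lit 2, nat_lit 20, nat_lit 21, (.ofNat (nat_lit 8)), (.negSucc (nat_lit 87556159)), (.ofNat (nat_lit 666775624054253857401028476928)), (.ofNat (nat_lit 17301440)), (.ofNat (nat_lit 55726486381678770304141230080)), (.negSucc (nat_lit 87556175)), (.negSucc (nat_lit 87556143)), (.negSucc (nat_lit 2471863705877079916543)), (.ofNat (nat_lit 2471863705877079916544)), (.negSucc (nat_lit 2471863705877079916543)), (.ofNat (nat_lit 2471863705877079916544)), (.ofNat (nat_lit 0))⟩,
    ⟨nat_lit 0, nat_lit 21, nat_lit 22, (.ofNat (nat_lit 8)), (.negSucc (nat_lit 14155839)), (.ofNat (nat_lit 848211211062017403940931371008)), (.ofNat (nat_lit 18350016)), (.ofNat (nat_lit 58318423338932535254711271424)), (.negSucc (nat_lit 14155855)), (.negSucc (nat_lit 14155823)), (.ofNat (nat_lit 2471863705877079916544)), (.negSucc (nat_lit 2471863705877079916543)), (.negSucc (nat_lit 2471863705877079916543)), (.ofNat (nat_lit 2471863705877079916544)), (.ofNat (nat_lit 0))⟩,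
    ⟨nat_lit 1, nat_lit 23, nat_lit 22, (.ofNat (nat_lit 8)), (.ofNat (nat_lit 133300160)), (.ofNat (nat_lit 483720076448206707767019307008)), (.ofNat (nat_lit 20447168)), (.ofNat (nat_lit 53134549424425005353571188736)), (.ofNat (nat_lit 133300144)), (.ofNat (nat_lit 133300176)), (.ofNat (nat_lit 2471863705877079916544)), (.negSucc (nat_lit 2471863705877079916543)), (.negSucc (nat_lit 2471863705877079916543)), (.ofNat (nat_lit 2471863705877079916544)), (.ofNat (nat_lit 0))⟩,
    ⟨nat_lit 2, nat_lit 24, nat_lit 7, (.ofNat (nat_lit 8)), (.negSucc (nat_lit 124125247)), (.ofNat (nat_lit 485664029166147031479946838016)), (.ofNat (nat_lit 17039296)), (.ofNat (nat_lit 53782533663738446591213699072)), (.negSucc (nat_lit 124125263)), (.negSucc (nat_lit 124125231)), (.negSucc (nat_lit 2471863705877079916543)), (.ofNat (nat_lit 2471863705877079916544)), (.negSucc (nat_lit 2471863705877079916543)), (.ofNat (nat_lit 2471863705877079916544)), (.ofNat (nat_lit 0))⟩,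
    ⟨nat_lit 0, nat_lit 24, nat_lit 25, (.ofNat (nat_lit 8)), (.negSucc (nat_lit 104071231)), (.ofNat (nat_lit 436093234858668776800294797312)), (.ofNat (nat_lit 17563584)), (.ofNat (nat_lit 52486565185111564115928678400)), (.negSucc (nat_lit 104071247)), (.negSucc (nat_lit 104071215)), (.negSucc (nat_lit 2471863705877079916543)), (.ofNat (nat_lit 2471863705877079916544)), (.negSucc (nat_lit 2471863705877079916543)), (.ofNat (nat_lit 2471863705877079916544)), (.ofNat (nat_lit 0))⟩]
  es := [
    ⟨nat_lit 1, nat_lit 0, (.negSucc (nat_lit 198574079)), (.negSucc (nat_lit 32767999)), (.negSucc (nat_lit 198574063)), (.negSucc (nat_lit 32768015)), (.negSucc (nat_lit 2471863705877079916543)), (.ofNat (nat_lit 0)), (.ofNat (nat_lit 0))⟩,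
    ⟨nat_lit 1, nat_lit 2, (.negSucc (nat_lit 198574079)), (.negSucc (nat_lit 87556159)), (.negSucc (nat_lit 198574063)), (.negSucc (nat_lit 87556175)), (.ofNat (nat_lit 2471863705877079916544)), (.ofNat (nat_lit 0)), (.ofNat (nat_lit 14255653264895707228135227392))⟩,
    ⟨nat_lit 2, nat_lit 3, (.negSucc (nat_lit 87556159)), (.ofNat (nat_lit 4849600)), (.negSucc (nat_lit 87556143)), (.ofNat (nat_lit 4849584)), (.negSucc (nat_lit 2471863705877079916543)), (.ofNat (nat_lit 0)), (.ofNat (nat_lit 99789256455715598330717274112))⟩,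
    ⟨nat_lit 3, nat_lit 4, (.ofNat (nat_lit 4849600)), (.ofNat (nat_lit 133300160)), (.ofNat (nat_lit 4849616)), (.ofNat (nat_lit 133300144)), (.ofNat (nat_lit 2471863705877079916544)), (.ofNat (nat_lit 0)), (.ofNat (nat_lit 7775810871761294851710124032))⟩,
    ⟨nat_lit 5, nat_lit 4, (.ofNat (nat_lit 22544320)), (.ofNat (nat_lit 133300160)), (.ofNat (nat_lit 22544336)), (.ofNat (nat_lit 133300144)), (.negSucc (nat_lit 2471863705877079916543)), (.ofNat (nat_lit 0)), (.ofNat (nat_lit 108861035806103775657712418816))⟩,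
    ⟨nat_lit 6, nat_lit 5, (.negSucc (nat_lit 159645759)), (.ofNat (nat_lit 22544320)), (.negSucc (nat_lit 159645743)), (.ofNat (nat_lit 22544304)), (.ofNat (nat_lit 2471863705877079916544)), (.ofNat (nat_lit 0)), (.ofNat (nat_lit 15551621743522589703420248064))⟩,
    ⟨nat_lit 6, nat_lit 16, (.negSucc (nat_lit 159645759)), (.negSucc (nat_lit 84934719)), (.negSucc (nat_lit 159645743)), (.negSucc (nat_lit 84934735)), (.negSucc (nat_lit 2471863705877079916543)), (.ofNat (nat_lit 0)), (.ofNat (nat_lit 97197319498461833380147232768))⟩,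
    ⟨nat_lit 24, nat_lit 8, (.negSucc (nat_lit 124125247)), (.negSucc (nat_lit 14155839)), (.negSucc (nat_lit 124125231)), (.negSucc (nat_lit 14155855)), (.ofNat (nat_lit 2471863705877079916544)), (.ofNat (nat_lit 0)), (.ofNat (nat_lit 11663716307641942277565186048))⟩,
    ⟨nat_lit 8, nat_lit 9, (.negSucc (nat_lit 14155839)), (.ofNat (nat_lit 133300160)), (.negSucc (nat_lit 14155823)), (.ofNat (nat_lit 133300144)), (.negSucc (nat_lit 2471863705877079916543)), (.ofNat (nat_lit 0)), (.ofNat (nat_lit 102381193412969363281287315456))⟩,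
    ⟨nat_lit 9, nat_lit 10, (.ofNat (nat_lit 133300160)), (.ofNat (nat_lit 206700480)), (.ofNat (nat_lit 133300176)), (.ofNat (nat_lit 206700464)), (.ofNat (nat_lit 2471863705877079916544)), (.ofNat (nat_lit 0)), (.ofNat (nat_lit 1295968478626882475285020672))⟩,
    ⟨nat_lit 11, nat_lit 10, (.ofNat (nat_lit 151650240)), (.ofNat (nat_lit 206700480)), (.ofNat (nat_lit 151650256)), (.ofNat (nat_lit 206700464)), (.negSucc (nat_lit 2471863705877079916543)), (.ofNat (nat_lit 0)), (.ofNat (nat_lit 107565067327476893182427398144))⟩,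
    ⟨nat_lit 12, nat_lit 11, (.ofNat (nat_lit 114950080)), (.ofNat (nat_lit 151650240)), (.ofNat (nat_lit 114950096)), (.ofNat (nat_lit 151650224)), (.ofNat (nat_lit 2471863705877079916544)), (.ofNat (nat_lit 0)), (.ofNat (nat_lit 5183873914507529901140082688))⟩,
    ⟨nat_lit 12, nat_lit 13, (.ofNat (nat_lit 114950080)), (.ofNat (nat_lit 188350400)), (.ofNat (nat_lit 114950096)), (.ofNat (nat_lit 188350384)), (.negSucc (nat_lit 2471863705877079916543)), (.ofNat (nat_lit 0)), (.ofNat (nat_lit 104973130370223128231857356800))⟩,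
    ⟨nat_lit 14, nat_lit 13, (.ofNat (nat_lit 133300160)), (.ofNat (nat_lit 188350400)), (.ofNat (nat_lit 133300176)), (.ofNat (nat_lit 188350384)), (.ofNat (nat_lit 2471863705877079916544)), (.ofNat (nat_lit 0)), (.ofNat (nat_lit 0))⟩,
    ⟨nat_lit 15, nat_lit 14, (.negSucc (nat_lit 12845119)), (.ofNat (nat_lit 133300160)), (.negSucc (nat_lit 12845103)), (.ofNat (nat_lit 133300144)), (.negSucc (nat_lit 2471863705877079916543)), (.ofNat (nat_lit 0)), (.ofNat (nat_lit 101085224934342480806002294784))⟩,
    ⟨nat_lit 16, nat_lit 15, (.negSucc (nat_lit 84934719)), (.negSucc (nat_lit 12845119)), (.negSucc (nat_lit 84934703)), (.negSucc (nat_lit 12845135)), (.ofNat (nat_lit 2471863705877079916544)), (.ofNat (nat_lit 0)), (.ofNat (nat_lit 10367747829015059802280165376))⟩,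
    ⟨nat_lit 7, nat_lit 17, (.negSucc (nat_lit 104071167)), (.negSucc (nat_lit 13369343)), (.negSucc (nat_lit 104071151)), (.negSucc (nat_lit 13369359)), (.negSucc (nat_lit 2471863705877079916543)), (.ofNat (nat_lit 0)), (.ofNat (nat_lit 1295968478626882475285020672))⟩,
    ⟨nat_lit 17, nat_lit 18, (.negSucc (nat_lit 13369343)), (.ofNat (nat_lit 151650240)), (.negSucc (nat_lit 13369327)), (.ofNat (nat_lit 151650224)), (.ofNat (nat_lit 2471863705877079916544)), (.ofNat (nat_lit 0)), (.ofNat (nat_lit 3887905435880647425855062016))⟩,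
    ⟨nat_lit 19, nat_lit 18, (.ofNat (nat_lit 114950080)), (.ofNat (nat_lit 151650240)), (.ofNat (nat_lit 114950096)), (.ofNat (nat_lit 151650224)), (.negSucc (nat_lit 2471863705877079916543)), (.ofNat (nat_lit 0)), (.ofNat (nat_lit 106269098848850010707142377472))⟩,
    ⟨nat_lit 20, nat_lit 19, (.ofNat (nat_lit 4849600)), (.ofNat (nat_lit 114950080)), (.ofNat (nat_lit 4849616)), (.ofNat (nat_lit 114950064)), (.ofNat (nat_lit 2471863705877079916544)), (.ofNat (nat_lit 0)), (.ofNat (nat_lit 6479842393134412376425103360))⟩,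
    ⟨nat_lit 21, nat_lit 20, (.negSucc (nat_lit 87556159)), (.ofNat (nat_lit 4849600)), (.negSucc (nat_lit 87556143)), (.ofNat (nat_lit 4849584)), (.negSucc (nat_lit 2471863705877079916543)), (.ofNat (nat_lit 0)), (.ofNat (nat_lit 98493287977088715855432253440))⟩,
    ⟨nat_lit 21, nat_lit 22, (.negSucc (nat_lit 87556159)), (.negSucc (nat_lit 14155839)), (.negSucc (nat_lit 87556143)), (.negSucc (nat_lit 14155855)), (.ofNat (nat_lit 2471863705877079916544)), (.ofNat (nat_lit 0)), (.ofNat (nat_lit 12959684786268824752850206720))⟩,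
    ⟨nat_lit 22, nat_lit 23, (.negSucc (nat_lit 14155839)), (.ofNat (nat_lit 133300160)), (.negSucc (nat_lit 14155823)), (.ofNat (nat_lit 133300144)), (.negSucc (nat_lit 2471863705877079916543)), (.ofNat (nat_lit 0)), (.ofNat (nat_lit 103677161891596245756572336128))⟩,
    ⟨nat_lit 0, nat_lit 23, (.negSucc (nat_lit 32767999)), (.ofNat (nat_lit 133300160)), (.negSucc (nat_lit 32767983)), (.ofNat (nat_lit 133300144)), (.ofNat (nat_lit 2471863705877079916544)), (.ofNat (nat_lit 0)), (.ofNat (nat_lit 2591936957253764950570041344))⟩,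
    ⟨nat_lit 24, nat_lit 25, (.negSucc (nat_lit 124125247)), (.negSucc (nat_lit 104071231)), (.negSucc (nat_lit 124125231)), (.negSucc (nat_lit 104071247)), (.negSucc (nat_lit 2471863705877079916543)), (.ofNat (nat_lit 0)), (.ofNat (nat_lit 95901351019834950904862212096))⟩,
    ⟨nat_lit 25, nat_lit 7, (.negSucc (nat_lit 104071231)), (.negSucc (nat_lit 104071167)), (.negSucc (nat_lit 104071215)), (.negSucc (nat_lit 104071183)), (.ofNat (nat_lit 2471863705877079916544)), (.ofNat (nat_lit 0)), (.ofNat (nat_lit 9071779350388177326995144704))⟩]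

theorem ok16 : stOK 25 25 S16 = true := by decide +kernel

def S17 : SD where
  vs := [
    ⟨nat_lit 0, nat_lit 0, nat_lit 23, (.ofNat (nat_lit 8)), (.negSucc (nat_lit 32767999)), (.ofNat (nat_lit 74366316219396211385051381760)), (.ofNat (nat_lit 0)), (.ofNat (nat_lit 1144097176977351531447713792)), (.negSucc (nat_lit 32768015)), (.negSucc (nat_lit 32767983)), (.negSucc (nat_lit 2510486576431281550079)), (.ofNat (nat_lit 2510486576431281550080)), (.negSucc (nat_lit 2510486576431281550079)), (.ofNat (nat_lit 2510486576431281550080)), (.ofNat (nat_lit 231737223325209801216))⟩,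
    ⟨nat_lit 2, nat_lit 0, nat_lit 1, (.ofNat (nat_lit 8)), (.negSucc (nat_lit 198574079)), (.ofNat (nat_lit 490620254350087394580139868160)), (.ofNat (nat_lit 0)), (.ofNat (nat_lit 7548003941916951917648412672)), (.negSucc (nat_lit 198574095)), (.negSucc (nat_lit 198574063)), (.negSucc (nat_lit 2510486576431281550079)), (.ofNat (nat_lit 2510486576431281550080)), (.negSucc (nat_lit 2510486576431281550079)), (.ofNat (nat_lit 2510486576431281550080)), (.ofNat (nat_lit 231737223325209801216))⟩,
    ⟨nat_lit 0, nat_lit 1, nat_lit 2, (.ofNat (nat_lit 8)), (.negSucc (nat_lit 87556159)), (.ofNat (nat_lit 769329252253409295204397301760)), (.ofNat (nat_lit 0)), (.ofNat (nat_lit 11835834695273664533417377792)), (.negSucc (nat_lit 87556175)), (.negSucc (nat_lit 87556143)), (.ofNat (nat_lit 2510486576431281550080)), (.negSucc (nat_lit 2510486576431281550079)), (.negSucc (nat_lit 2510486576431281550079)), (.ofNat (nat_lit 2510486576431281550080)), (.ofNat (nat_lit 231737223325209801216))⟩,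
    ⟨nat_lit 0, nat_lit 2, nat_lit 3, (.ofNat (nat_lit 8)), (.ofNat (nat_lit 4849600)), (.ofNat (nat_lit 537345832188478635795276840960)), (.ofNat (nat_lit 0)), (.ofNat (nat_lit 8266858988331041393281810432)), (.ofNat (nat_lit 4849584)), (.ofNat (nat_lit 4849616)), (.negSucc (nat_lit 2510486576431281550079)), (.ofNat (nat_lit 2510486576431281550080)), (.negSucc (nat_lit 2510486576431281550079)), (.ofNat (nat_lit 2510486576431281550080)), (.ofNat (nat_lit 231737223325209801216))⟩,
    ⟨nat_lit 1, nat_lit 3, nat_lit 4, (.ofNat (nat_lit 8)), (.ofNat (nat_lit 133300160)), (.ofNat (nat_lit 859819238803559552420720885760)), (.ofNat (nat_lit 0)), (.ofNat (nat_lit 13227988339825751573895790592)), (.ofNat (nat_lit 133300144)), (.ofNat (nat_lit 133300176)), (.ofNat (nat_lit 2510486576431281550080)), (.negSucc (nat_lit 2510486576431281550079)), (.negSucc (nat_lit 2510486576431281550079)), (.ofNat (nat_lit 2510486576431281550080)), (.ofNat (nat_lit 231737223325209801216))⟩,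
    ⟨nat_lit 0, nat_lit 5, nat_lit 4, (.ofNat (nat_lit 8)), (.ofNat (nat_lit 22544320)), (.ofNat (nat_lit 1137870288384930342776333352960)), (.ofNat (nat_lit 0)), (.ofNat (nat_lit 17505696811267619025547640832)), (.ofNat (nat_lit 22544304)), (.ofNat (nat_lit 22544336)), (.ofNat (nat_lit 2510486576431281550080)), (.negSucc (nat_lit 2510486576431281550079)), (.negSucc (nat_lit 2510486576431281550079)), (.ofNat (nat_lit 2510486576431281550080)), (.ofNat (nat_lit 231737223325209801216))⟩,
    ⟨nat_lit 2, nat_lit 6, nat_lit 5, (.ofNat (nat_lit 8)), (.negSucc (nat_lit 159645759)), (.ofNat (nat_lit 680484538185989042664734146560)), (.ofNat (nat_lit 0)), (.ofNat (nat_lit 10468992935167979075493117952)), (.negSucc (nat_lit 159645775)), (.negSucc (nat_lit 159645743)), (.negSucc (nat_lit 2510486576431281550079)), (.ofNat (nat_lit 2510486576431281550080)), (.negSucc (nat_lit 2510486576431281550079)), (.ofNat (nat_lit 2510486576431281550080)), (.ofNat (nat_lit 231737223325209801216))⟩,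
    ⟨nat_lit 0, nat_lit 25, nat_lit 16, (.ofNat (nat_lit 8)), (.negSucc (nat_lit 104071167)), (.ofNat (nat_lit 442907566979322528919789240320)), (.ofNat (nat_lit 0)), (.ofNat (nat_lit 6814173921376575986379784192)), (.negSucc (nat_lit 104071183)), (.negSucc (nat_lit 104071151)), (.negSucc (nat_lit 2510459850164753583359)), (.negSucc (nat_lit 2510459850164753583359)), (.negSucc (nat_lit 2510459850164753583359)), (.negSucc (nat_lit 2510459850164753583359)), (.ofNat (nat_lit 19852101935591986665984))⟩,
    ⟨nat_lit 0, nat_lit 7, nat_lit 8, (.ofNat (nat_lit 8)), (.negSucc (nat_lit 14155839)), (.ofNat (nat_lit 769329252253409295204397301760)), (.ofNat (nat_lit 0)), (.ofNat (nat_lit 11835834695273664533417377792)), (.negSucc (nat_lit 14155855)), (.negSucc (nat_lit 14155823)), (.ofNat (nat_lit 2510486576431281550080)), (.negSucc (nat_lit 2510486576431281550079)), (.negSucc (nat_lit 2510486576431281550079)), (.ofNat (nat_lit 2510486576431281550080)), (.ofNat (nat_lit 231737223325209801216))⟩,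
    ⟨nat_lit 0, nat_lit 8, nat_lit 9, (.ofNat (nat_lit 8)), (.ofNat (nat_lit 133300160)), (.ofNat (nat_lit 399142943639158242955800821760)), (.ofNat (nat_lit 0)), (.ofNat (nat_lit 6140660694833308458732961792)), (.ofNat (nat_lit 133300144)), (.ofNat (nat_lit 133300176)), (.negSucc (nat_lit 2510486576431281550079)), (.ofNat (nat_lit 2510486576431281550080)), (.negSucc (nat_lit 2510486576431281550079)), (.ofNat (nat_lit 2510486576431281550080)), (.ofNat (nat_lit 231737223325209801216))⟩,
    ⟨nat_lit 1, nat_lit 9, nat_lit 10, (.ofNat (nat_lit 8)), (.ofNat (nat_lit 206700480)), (.ofNat (nat_lit 583413461704918766741768847360)), (.ofNat (nat_lit 0)), (.ofNat (nat_lit 8975591752830285704798093312)), (.ofNat (nat_lit 206700464)), (.ofNat (nat_lit 206700496)), (.ofNat (nat_lit 2510486576431281550080)), (.negSucc (nat_lit 2510486576431281550079)), (.negSucc (nat_lit 2510486576431281550079)), (.ofNat (nat_lit 2510486576431281550080)), (.ofNat (nat_lit 231737223325209801216))⟩,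
    ⟨nat_lit 0, nat_lit 11, nat_lit 10, (.ofNat (nat_lit 8)), (.ofNat (nat_lit 151650240)), (.ofNat (nat_lit 721616350254239159581244866560)), (.ofNat (nat_lit 0)), (.ofNat (nat_lit 11101790046328018639346941952)), (.ofNat (nat_lit 151650224)), (.ofNat (nat_lit 151650256)), (.ofNat (nat_lit 2510486576431281550080)), (.negSucc (nat_lit 2510486576431281550079)), (.negSucc (nat_lit 2510486576431281550079)), (.ofNat (nat_lit 2510486576431281550080)), (.ofNat (nat_lit 231737223325209801216))⟩,
    ⟨nat_lit 2, nat_lit 12, nat_lit 11, (.ofNat (nat_lit 8)), (.ofNat (nat_lit 114950080)), (.ofNat (nat_lit 629481091221358897688260853760)), (.ofNat (nat_lit 0)), (.ofNat (nat_lit 9684324517329530016314376192)), (.ofNat (nat_lit 114950064)), (.ofNat (nat_lit 114950096)), (.negSucc (nat_lit 2510486576431281550079)), (.ofNat (nat_lit 2510486576431281550080)), (.negSucc (nat_lit 2510486576431281550079)), (.ofNat (nat_lit 2510486576431281550080)), (.ofNat (nat_lit 231737223325209801216))⟩,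
    ⟨nat_lit 1, nat_lit 13, nat_lit 12, (.ofNat (nat_lit 8)), (.ofNat (nat_lit 188350400)), (.ofNat (nat_lit 445210573155598373902292828160)), (.ofNat (nat_lit 0)), (.ofNat (nat_lit 6849393459332552770249244672)), (.ofNat (nat_lit 188350384)), (.ofNat (nat_lit 188350416)), (.ofNat (nat_lit 2510486576431281550080)), (.negSucc (nat_lit 2510486576431281550079)), (.negSucc (nat_lit 2510486576431281550079)), (.ofNat (nat_lit 2510486576431281550080)), (.ofNat (nat_lit 231737223325209801216))⟩,
    ⟨nat_lit 0, nat_lit 14, nat_lit 13, (.ofNat (nat_lit 8)), (.ofNat (nat_lit 133300160)), (.ofNat (nat_lit 307007684606277981062816808960)), (.ofNat (nat_lit 0)), (.ofNat (nat_lit 4723195165834819835700396032)), (.ofNat (nat_lit 133300144)), (.ofNat (nat_lit 133300176)), (.negSucc (nat_lit 2510486576431281550079)), (.ofNat (nat_lit 2510486576431281550080)), (.negSucc (nat_lit 2510486576431281550079)), (.ofNat (nat_lit 2510486576431281550080)), (.ofNat (nat_lit 231737223325209801216))⟩,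
    ⟨nat_lit 0, nat_lit 15, nat_lit 14, (.ofNat (nat_lit 8)), (.negSucc (nat_lit 12845119)), (.ofNat (nat_lit 673903448255069023958092431360)), (.ofNat (nat_lit 0)), (.ofNat (nat_lit 10367745397382372745276506112)), (.negSucc (nat_lit 12845135)), (.negSucc (nat_lit 12845103)), (.ofNat (nat_lit 2510486576431281550080)), (.negSucc (nat_lit 2510486576431281550079)), (.negSucc (nat_lit 2510486576431281550079)), (.ofNat (nat_lit 2510486576431281550080)), (.ofNat (nat_lit 231737223325209801216))⟩,
    ⟨nat_lit 0, nat_lit 6, nat_lit 15, (.ofNat (nat_lit 8)), (.negSucc (nat_lit 84934719)), (.ofNat (nat_lit 492923475154768509525445263360)), (.ofNat (nat_lit 0)), (.ofNat (nat_lit 7583438108278198664319680512)), (.negSucc (nat_lit 84934735)), (.negSucc (nat_lit 84934703)), (.negSucc (nat_lit 2510486576431281550079)), (.ofNat (nat_lit 2510486576431281550080)), (.negSucc (nat_lit 2510486576431281550079)), (.ofNat (nat_lit 2510486576431281550080)), (.ofNat (nat_lit 231737223325209801216))⟩,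
    ⟨nat_lit 0, nat_lit 16, nat_lit 17, (.ofNat (nat_lit 8)), (.negSucc (nat_lit 13369343)), (.ofNat (nat_lit 215204279490612678398501191680)), (.ofNat (nat_lit 0)), (.ofNat (nat_lit 3313433235117393689400311808)), (.negSucc (nat_lit 13369359)), (.negSucc (nat_lit 13369327)), (.negSucc (nat_lit 2510459850164753583359)), (.ofNat (nat_lit 2510470585907829093120)), (.negSucc (nat_lit 2510459850164753583359)), (.ofNat (nat_lit 2510470585907829093120)), (.ofNat (nat_lit 231598337212193020416))⟩,
    ⟨nat_lit 1, nat_lit 17, nat_lit 18, (.ofNat (nat_lit 8)), (.ofNat (nat_lit 151650240)), (.ofNat (nat_lit 629481091221358897688260853760)), (.ofNat (nat_lit 0)), (.ofNat (nat_lit 9684324517329530016314376192)), (.ofNat (nat_lit 151650224)), (.ofNat (nat_lit 151650256)), (.ofNat (nat_lit 2510470585907829093120)), (.negSucc (nat_lit 2510486576431281550079)), (.negSucc (nat_lit 2510486576431281550079)), (.ofNat (nat_lit 2510470585907829093120)), (.ofNat (nat_lit 231673261231399973376))⟩,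
    ⟨nat_lit 0, nat_lit 19, nat_lit 18, (.ofNat (nat_lit 8)), (.ofNat (nat_lit 114950080)), (.ofNat (nat_lit 721616350254239159581244866560)), (.ofNat (nat_lit 0)), (.ofNat (nat_lit 11101790046328018639346941952)), (.ofNat (nat_lit 114950064)), (.ofNat (nat_lit 114950096)), (.ofNat (nat_lit 2510486576431281550080)), (.negSucc (nat_lit 2510486576431281550079)), (.negSucc (nat_lit 2510486576431281550079)), (.ofNat (nat_lit 2510486576431281550080)), (.ofNat (nat_lit 231737223325209801216))⟩,
    ⟨nat_lit 0, nat_lit 20, nat_lit 19, (.ofNat (nat_lit 8)), (.ofNat (nat_lit 4849600)), (.ofNat (nat_lit 445210573155598373902292828160)), (.ofNat (nat_lit 0)), (.ofNat (nat_lit 6849393459332552770249244672)), (.ofNat (nat_lit 4849584)), (.ofNat (nat_lit 4849616)), (.negSucc (nat_lit 2510486576431281550079)), (.ofNat (nat_lit 2510486576431281550080)), (.negSucc (nat_lit 2510486576431281550079)), (.ofNat (nat_lit 2510486576431281550080)), (.ofNat (nat_lit 231737223325209801216))⟩,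
    ⟨nat_lit 2, nat_lit 20, nat_lit 21, (.ofNat (nat_lit 8)), (.negSucc (nat_lit 87556159)), (.ofNat (nat_lit 677193993220529033311413288960)), (.ofNat (nat_lit 0)), (.ofNat (nat_lit 10418369166275175910384812032)), (.negSucc (nat_lit 87556175)), (.negSucc (nat_lit 87556143)), (.negSucc (nat_lit 2510486576431281550079)), (.ofNat (nat_lit 2510486576431281550080)), (.negSucc (nat_lit 2510486576431281550079)), (.ofNat (nat_lit 2510486576431281550080)), (.ofNat (nat_lit 231737223325209801216))⟩,
    ⟨nat_lit 0, nat_lit 21, nat_lit 22, (.ofNat (nat_lit 8)), (.negSucc (nat_lit 14155839)), (.ofNat (nat_lit 861464511286289557097381314560)), (.ofNat (nat_lit 0)), (.ofNat (nat_lit 13253300224272153156449943552)), (.negSucc (nat_lit 14155855)), (.negSucc (nat_lit 14155823)), (.ofNat (nat_lit 2510486576431281550080)), (.negSucc (nat_lit 2510486576431281550079)), (.negSucc (nat_lit 2510486576431281550079)), (.ofNat (nat_lit 2510486576431281550080)), (.ofNat (nat_lit 231737223325209801216))⟩,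
    ⟨nat_lit 1, nat_lit 23, nat_lit 22, (.ofNat (nat_lit 8)), (.ofNat (nat_lit 133300160)), (.ofNat (nat_lit 491278202672038504848784834560)), (.ofNat (nat_lit 0)), (.ofNat (nat_lit 7558126223831797081765527552)), (.ofNat (nat_lit 133300144)), (.ofNat (nat_lit 133300176)), (.ofNat (nat_lit 2510486576431281550080)), (.negSucc (nat_lit 2510486576431281550079)), (.negSucc (nat_lit 2510486576431281550079)), (.ofNat (nat_lit 2510486576431281550080)), (.ofNat (nat_lit 231737223325209801216))⟩,
    ⟨nat_lit 2, nat_lit 24, nat_lit 7, (.ofNat (nat_lit 8)), (.negSucc (nat_lit 124125247)), (.ofNat (nat_lit 493252529651314510460777349120)), (.ofNat (nat_lit 0)), (.ofNat (nat_lit 7588500485167478980830511104)), (.negSucc (nat_lit 124125263)), (.negSucc (nat_lit 124125231)), (.negSucc (nat_lit 2510459850164753583359)), (.ofNat (nat_lit 2510486576431281550080)), (.negSucc (nat_lit 2510459850164753583359)), (.ofNat (nat_lit 2510486576431281550080)), (.ofNat (nat_lit 231630318259097934336))⟩,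
    ⟨nat_lit 0, nat_lit 24, nat_lit 25, (.ofNat (nat_lit 8)), (.negSucc (nat_lit 104071231)), (.ofNat (nat_lit 442907727648752939464018575360)), (.ofNat (nat_lit 0)), (.ofNat (nat_lit 6814492790084162663723778048)), (.negSucc (nat_lit 104071247)), (.negSucc (nat_lit 104071215)), (.negSucc (nat_lit 2510459850164753583359)), (.negSucc (nat_lit 2510459850164753583359)), (.negSucc (nat_lit 2510459850164753583359)), (.negSucc (nat_lit 2510459850164753583359)), (.ofNat (nat_lit 9964647112083666999808))⟩]
  es := [
    ⟨nat_lit 1, nat_lit 0, (.negSucc (nat_lit 198574079)), (.negSucc (nat_lit 32767999)), (.negSucc (nat_lit 198574063)), (.negSucc (nat_lit 32768015)), (.negSucc (nat_lit 2510486576431281550079)), (.negSucc (nat_lit 38622870554201633535)), (.negSucc (nat_lit 121497045342727596259934207))⟩,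
    ⟨nat_lit 1, nat_lit 2, (.negSucc (nat_lit 198574079)), (.negSucc (nat_lit 87556159)), (.negSucc (nat_lit 198574063)), (.negSucc (nat_lit 87556175)), (.ofNat (nat_lit 2510486576431281550080)), (.ofNat (nat_lit 38622870554201633536)), (.ofNat (nat_lit 15217504929176631431556759552))⟩,
    ⟨nat_lit 2, nat_lit 3, (.negSucc (nat_lit 87556159)), (.ofNat (nat_lit 4849600)), (.negSucc (nat_lit 87556143)), (.ofNat (nat_lit 4849584)), (.negSucc (nat_lit 2510486576431281550079)), (.negSucc (nat_lit 38622870554201633535)), (.ofNat (nat_lit 8454164461370697635277996032))⟩,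
    ⟨nat_lit 3, nat_lit 4, (.ofNat (nat_lit 4849600)), (.ofNat (nat_lit 133300160)), (.ofNat (nat_lit 4849616)), (.ofNat (nat_lit 133300144)), (.ofNat (nat_lit 2510486576431281550080)), (.ofNat (nat_lit 38622870554201633536)), (.ofNat (nat_lit 8079553515291385151285624832))⟩,
    ⟨nat_lit 5, nat_lit 4, (.ofNat (nat_lit 22544320)), (.ofNat (nat_lit 133300160)), (.ofNat (nat_lit 22544336)), (.ofNat (nat_lit 133300144)), (.negSucc (nat_lit 2510486576431281550079)), (.negSucc (nat_lit 38622870554201633535)), (.ofNat (nat_lit 18376423164360117996505956352))⟩,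
    ⟨nat_lit 6, nat_lit 5, (.negSucc (nat_lit 159645759)), (.ofNat (nat_lit 22544320)), (.negSucc (nat_lit 159645743)), (.ofNat (nat_lit 22544304)), (.ofNat (nat_lit 2510486576431281550080)), (.ofNat (nat_lit 38622870554201633536)), (.ofNat (nat_lit 16634970458175120054589325312))⟩,
    ⟨nat_lit 6, nat_lit 16, (.negSucc (nat_lit 159645759)), (.negSucc (nat_lit 84934719)), (.negSucc (nat_lit 159645743)), (.negSucc (nat_lit 84934735)), (.negSucc (nat_lit 2510486576431281550079)), (.negSucc (nat_lit 38622870554201633535)), (.ofNat (nat_lit 4303015412160838096396910592))⟩,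
    ⟨nat_lit 24, nat_lit 8, (.negSucc (nat_lit 124125247)), (.negSucc (nat_lit 14155839)), (.negSucc (nat_lit 124125231)), (.negSucc (nat_lit 14155855)), (.ofNat (nat_lit 2510486576431281550080)), (.ofNat (nat_lit 38622870554201633536)), (.ofNat (nat_lit 12382573871179654185491628032))⟩,
    ⟨nat_lit 8, nat_lit 9, (.negSucc (nat_lit 14155839)), (.ofNat (nat_lit 133300160)), (.negSucc (nat_lit 14155823)), (.ofNat (nat_lit 133300144)), (.negSucc (nat_lit 2510486576431281550079)), (.negSucc (nat_lit 38622870554201633535)), (.ofNat (nat_lit 11289095519367674881343127552))⟩,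
    ⟨nat_lit 9, nat_lit 10, (.ofNat (nat_lit 133300160)), (.ofNat (nat_lit 206700480)), (.ofNat (nat_lit 133300176)), (.ofNat (nat_lit 206700464)), (.ofNat (nat_lit 2510486576431281550080)), (.ofNat (nat_lit 38622870554201633536)), (.ofNat (nat_lit 992225870298942036122796032))⟩,
    ⟨nat_lit 11, nat_lit 10, (.ofNat (nat_lit 151650240)), (.ofNat (nat_lit 206700480)), (.ofNat (nat_lit 151650256)), (.ofNat (nat_lit 206700464)), (.negSucc (nat_lit 2510486576431281550079)), (.negSucc (nat_lit 38622870554201633535)), (.ofNat (nat_lit 16958957635361629373473390592))⟩,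
    ⟨nat_lit 12, nat_lit 11, (.ofNat (nat_lit 114950080)), (.ofNat (nat_lit 151650240)), (.ofNat (nat_lit 114950096)), (.ofNat (nat_lit 151650224)), (.ofNat (nat_lit 2510486576431281550080)), (.ofNat (nat_lit 38622870554201633536)), (.ofNat (nat_lit 5244622457294407905220493312))⟩,
    ⟨nat_lit 12, nat_lit 13, (.ofNat (nat_lit 114950080)), (.ofNat (nat_lit 188350400)), (.ofNat (nat_lit 114950096)), (.ofNat (nat_lit 188350384)), (.negSucc (nat_lit 2510486576431281550079)), (.negSucc (nat_lit 38622870554201633535)), (.ofNat (nat_lit 14124026577364652127408259072))⟩,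
    ⟨nat_lit 14, nat_lit 13, (.ofNat (nat_lit 133300160)), (.ofNat (nat_lit 188350400)), (.ofNat (nat_lit 133300176)), (.ofNat (nat_lit 188350384)), (.ofNat (nat_lit 2510486576431281550080)), (.ofNat (nat_lit 38622870554201633536)), (.negSucc (nat_lit 425239658699546586909769727))⟩,
    ⟨nat_lit 15, nat_lit 14, (.negSucc (nat_lit 12845119)), (.ofNat (nat_lit 133300160)), (.negSucc (nat_lit 12845103)), (.ofNat (nat_lit 133300144)), (.negSucc (nat_lit 2510486576431281550079)), (.negSucc (nat_lit 38622870554201633535)), (.ofNat (nat_lit 9871629990369186258310561792))⟩,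
    ⟨nat_lit 16, nat_lit 15, (.negSucc (nat_lit 84934719)), (.negSucc (nat_lit 12845119)), (.negSucc (nat_lit 84934703)), (.negSucc (nat_lit 12845135)), (.ofNat (nat_lit 2510486576431281550080)), (.ofNat (nat_lit 38622870554201633536)), (.ofNat (nat_lit 10863860804395559232242450432))⟩,
    ⟨nat_lit 7, nat_lit 17, (.negSucc (nat_lit 104071167)), (.negSucc (nat_lit 13369343)), (.negSucc (nat_lit 104071151)), (.negSucc (nat_lit 13369359)), (.negSucc (nat_lit 2510459850164753583359)), (.negSucc (nat_lit 38596144287673666815)), (.ofNat (nat_lit 2797428105061849477995823104))⟩,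
    ⟨nat_lit 17, nat_lit 18, (.negSucc (nat_lit 13369343)), (.ofNat (nat_lit 151650240)), (.negSucc (nat_lit 13369327)), (.ofNat (nat_lit 151650224)), (.ofNat (nat_lit 2510470585907829093120)), (.ofNat (nat_lit 38606880030749176576)), (.ofNat (nat_lit 3829581895015210008761597952))⟩,
    ⟨nat_lit 19, nat_lit 18, (.ofNat (nat_lit 114950080)), (.ofNat (nat_lit 151650240)), (.ofNat (nat_lit 114950096)), (.ofNat (nat_lit 151650224)), (.negSucc (nat_lit 2510486576431281550079)), (.negSucc (nat_lit 38622870554201633535)), (.ofNat (nat_lit 15541492106363140750440824832))⟩,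
    ⟨nat_lit 20, nat_lit 19, (.ofNat (nat_lit 4849600)), (.ofNat (nat_lit 114950080)), (.ofNat (nat_lit 4849616)), (.ofNat (nat_lit 114950064)), (.ofNat (nat_lit 2510486576431281550080)), (.ofNat (nat_lit 38622870554201633536)), (.ofNat (nat_lit 6662087986292896528253059072))⟩,
    ⟨nat_lit 21, nat_lit 20, (.negSucc (nat_lit 87556159)), (.ofNat (nat_lit 4849600)), (.negSucc (nat_lit 87556143)), (.ofNat (nat_lit 4849584)), (.negSucc (nat_lit 2510486576431281550079)), (.negSucc (nat_lit 38622870554201633535)), (.ofNat (nat_lit 7036698932372209012245430272))⟩,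
    ⟨nat_lit 21, nat_lit 22, (.negSucc (nat_lit 87556159)), (.negSucc (nat_lit 14155839)), (.negSucc (nat_lit 87556143)), (.negSucc (nat_lit 14155855)), (.ofNat (nat_lit 2510486576431281550080)), (.ofNat (nat_lit 38622870554201633536)), (.ofNat (nat_lit 13800039400178142808524193792))⟩,
    ⟨nat_lit 22, nat_lit 23, (.negSucc (nat_lit 14155839)), (.ofNat (nat_lit 133300160)), (.negSucc (nat_lit 14155823)), (.ofNat (nat_lit 133300144)), (.negSucc (nat_lit 2510486576431281550079)), (.negSucc (nat_lit 38622870554201633535)), (.ofNat (nat_lit 12706561048366163504375693312))⟩,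
    ⟨nat_lit 0, nat_lit 23, (.negSucc (nat_lit 32767999)), (.ofNat (nat_lit 133300160)), (.negSucc (nat_lit 32767983)), (.ofNat (nat_lit 133300144)), (.ofNat (nat_lit 2510486576431281550080)), (.ofNat (nat_lit 38622870554201633536)), (.ofNat (nat_lit 2409691399297430659155361792))⟩,
    ⟨nat_lit 24, nat_lit 25, (.negSucc (nat_lit 124125247)), (.negSucc (nat_lit 104071231)), (.negSucc (nat_lit 124125231)), (.negSucc (nat_lit 104071247)), (.negSucc (nat_lit 2510459850164753583359)), (.negSucc (nat_lit 38596144287673666815)), (.ofNat (nat_lit 2797744503616201744225140736))⟩,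
    ⟨nat_lit 25, nat_lit 7, (.negSucc (nat_lit 104071231)), (.negSucc (nat_lit 104071167)), (.negSucc (nat_lit 104071215)), (.negSucc (nat_lit 104071183)), (.negSucc (nat_lit 2510459850164753583359)), (.negSucc (nat_lit 4982323556041833499903)), (.negSucc (nat_lit 511702057909810493210157383679))⟩]

theorem ok17 : stOK 25 25 S17 = true := by decide +kernel

def S18 : SD where
  vs := [
    ⟨nat_lit 0, nat_lit 0, nat_lit 23, (.ofNat (nat_lit 8)), (.negSucc (nat_lit 33292287)), (.ofNat (nat_lit 75682534205580215126379724800)), (.negSucc (nat_lit 524287)), (.ofNat (nat_lit 1316217986184003741328343040)), (.negSucc (nat_lit 33292303)), (.negSucc (nat_lit 33292271)), (.negSucc (nat_lit 2510486576431281550079)), (.ofNat (nat_lit 2510486576431281550080)), (.negSucc (nat_lit 2510486576431281550079)), (.ofNat (nat_lit 2510486576431281550080)), (.ofNat (nat_lit 0))⟩,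
    ⟨nat_lit 2, nat_lit 0, nat_lit 1, (.ofNat (nat_lit 8)), (.negSucc (nat_lit 201457663)), (.ofNat (nat_lit 497859453274099415157445754880)), (.negSucc (nat_lit 2883583)), (.ofNat (nat_lit 7239198924012020577305886720)), (.negSucc (nat_lit 201457679)), (.negSucc (nat_lit 201457647)), (.negSucc (nat_lit 2510486576431281550079)), (.ofNat (nat_lit 2510486576431281550080)), (.negSucc (nat_lit 2510486576431281550079)), (.ofNat (nat_lit 2510486576431281550080)), (.ofNat (nat_lit 0))⟩,
    ⟨nat_lit 0, nat_lit 1, nat_lit 2, (.ofNat (nat_lit 8)), (.negSucc (nat_lit 75251903)), (.ofNat (nat_lit 814697319622407390959270215680)), (.ofNat (nat_lit 12304256)), (.ofNat (nat_lit 45368067368998095754872913920)), (.negSucc (nat_lit 75251919)), (.negSucc (nat_lit 75251887)), (.ofNat (nat_lit 2510486576431281550080)), (.negSucc (nat_lit 2510486576431281550079)), (.negSucc (nat_lit 2510486576431281550079)), (.ofNat (nat_lit 2510486576431281550080)), (.ofNat (nat_lit 0))⟩,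
    ⟨nat_lit 0, nat_lit 2, nat_lit 3, (.ofNat (nat_lit 8)), (.ofNat (nat_lit 18464576)), (.ofNat (nat_lit 579423354592016722196828897280)), (.ofNat (nat_lit 13614976)), (.ofNat (nat_lit 42077522403538086401552056320)), (.ofNat (nat_lit 18464560)), (.ofNat (nat_lit 18464592)), (.negSucc (nat_lit 2510486576431281550079)), (.ofNat (nat_lit 2510486576431281550080)), (.negSucc (nat_lit 2510486576431281550079)), (.ofNat (nat_lit 2510486576431281550080)), (.ofNat (nat_lit 0))⟩,
    ⟨nat_lit 1, nat_lit 3, nat_lit 4, (.ofNat (nat_lit 8)), (.ofNat (nat_lit 164806464)), (.ofNat (nat_lit 946812699985626766495102648320)), (.ofNat (nat_lit 31506304)), (.ofNat (nat_lit 86993461182067214074381762560)), (.ofNat (nat_lit 164806448)), (.ofNat (nat_lit 164806480)), (.ofNat (nat_lit 2510486576431281550080)), (.negSucc (nat_lit 2510486576431281550079)), (.negSucc (nat_lit 2510486576431281550079)), (.ofNat (nat_lit 2510486576431281550080)), (.ofNat (nat_lit 0))⟩,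
    ⟨nat_lit 0, nat_lit 5, nat_lit 4, (.ofNat (nat_lit 8)), (.ofNat (nat_lit 52477760)), (.ofNat (nat_lit 1228812403525549568074700144640)), (.ofNat (nat_lit 29933440)), (.ofNat (nat_lit 90942115140619225298366791680)), (.ofNat (nat_lit 52477744)), (.ofNat (nat_lit 52477776)), (.ofNat (nat_lit 2510486576431281550080)), (.negSucc (nat_lit 2510486576431281550079)), (.negSucc (nat_lit 2510486576431281550079)), (.ofNat (nat_lit 2510486576431281550080)), (.ofNat (nat_lit 0))⟩,
    ⟨nat_lit 2, nat_lit 6, nat_lit 5, (.ofNat (nat_lit 8)), (.negSucc (nat_lit 154845375)), (.ofNat (nat_lit 708330453613912588613173493760)), (.ofNat (nat_lit 4800384)), (.ofNat (nat_lit 27845915427923545948439347200)), (.negSucc (nat_lit 154845391)), (.negSucc (nat_lit 154845359)), (.negSucc (nat_lit 2510486576431281550079)), (.ofNat (nat_lit 2510486576431281550080)), (.negSucc (nat_lit 2510486576431281550079)), (.ofNat (nat_lit 2510486576431281550080)), (.ofNat (nat_lit 0))⟩,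
    ⟨nat_lit 0, nat_lit 25, nat_lit 16, (.ofNat (nat_lit 8)), (.negSucc (nat_lit 100663359)), (.ofNat (nat_lit 460676684474497815386566901760)), (.ofNat (nat_lit 3407808)), (.ofNat (nat_lit 17769117495175286466777661440)), (.negSucc (nat_lit 100663375)), (.negSucc (nat_lit 100663343)), (.negSucc (nat_lit 2510459850164753583359)), (.negSucc (nat_lit 2510459850164753583359)), (.negSucc (nat_lit 2510459850164753583359)), (.negSucc (nat_lit 2510459850164753583359)), (.ofNat (nat_lit 0))⟩,
    ⟨nat_lit 0, nat_lit 7, nat_lit 8, (.ofNat (nat_lit 8)), (.ofNat (nat_lit 3784512)), (.ofNat (nat_lit 826214227001517423695893217280)), (.ofNat (nat_lit 17940352)), (.ofNat (nat_lit 56884974748108128491495915520)), (.ofNat (nat_lit 3784496)), (.ofNat (nat_lit 3784528)), (.ofNat (nat_lit 2510486576431281550080)), (.negSucc (nat_lit 2510486576431281550079)), (.negSucc (nat_lit 2510486576431281550079)), (.ofNat (nat_lit 2510486576431281550080)), (.ofNat (nat_lit 0))⟩,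
    ⟨nat_lit 0, nat_lit 8, nat_lit 9, (.ofNat (nat_lit 8)), (.ofNat (nat_lit 153337664)), (.ofNat (nat_lit 450763046442530356481983365120)), (.ofNat (nat_lit 20037504)), (.ofNat (nat_lit 51620102803372113526182543360)), (.ofNat (nat_lit 153337648)), (.ofNat (nat_lit 153337680)), (.negSucc (nat_lit 2510486576431281550079)), (.ofNat (nat_lit 2510486576431281550080)), (.negSucc (nat_lit 2510486576431281550079)), (.ofNat (nat_lit 2510486576431281550080)), (.ofNat (nat_lit 0))⟩,
    ⟨nat_lit 1, nat_lit 9, nat_lit 10, (.ofNat (nat_lit 8)), (.ofNat (nat_lit 236961600)), (.ofNat (nat_lit 660699815238878953223854080000)), (.ofNat (nat_lit 30261120)), (.ofNat (nat_lit 77286353533960186482085232640)), (.ofNat (nat_lit 236961584)), (.ofNat (nat_lit 236961616)), (.ofNat (nat_lit 2510486576431281550080)), (.negSucc (nat_lit 2510486576431281550079)), (.negSucc (nat_lit 2510486576431281550079)), (.ofNat (nat_lit 2510486576431281550080)), (.ofNat (nat_lit 0))⟩,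
    ⟨nat_lit 0, nat_lit 11, nat_lit 10, (.ofNat (nat_lit 8)), (.ofNat (nat_lit 181124928)), (.ofNat (nat_lit 800877030767475351675322613760)), (.ofNat (nat_lit 29474688)), (.ofNat (nat_lit 79260680513236192094077747200)), (.ofNat (nat_lit 181124912)), (.ofNat (nat_lit 181124944)), (.ofNat (nat_lit 2510486576431281550080)), (.negSucc (nat_lit 2510486576431281550079)), (.negSucc (nat_lit 2510486576431281550079)), (.ofNat (nat_lit 2510486576431281550080)), (.ofNat (nat_lit 0))⟩,
    ⟨nat_lit 2, nat_lit 12, nat_lit 11, (.ofNat (nat_lit 8)), (.ofNat (nat_lit 139312960)), (.ofNat (nat_lit 695908646369301053304387256320)), (.ofNat (nat_lit 24362880)), (.ofNat (nat_lit 66427555147942155616126402560)), (.ofNat (nat_lit 139312944)), (.ofNat (nat_lit 139312976)), (.negSucc (nat_lit 2510486576431281550079)), (.ofNat (nat_lit 2510486576431281550080)), (.negSucc (nat_lit 2510486576431281550079)), (.ofNat (nat_lit 2510486576431281550080)), (.ofNat (nat_lit 0))⟩,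
    ⟨nat_lit 1, nat_lit 13, nat_lit 12, (.ofNat (nat_lit 8)), (.ofNat (nat_lit 213761856)), (.ofNat (nat_lit 509005692331172522035762544640)), (.ofNat (nat_lit 25411456)), (.ofNat (nat_lit 63795119175574148133469716480)), (.ofNat (nat_lit 213761840)), (.ofNat (nat_lit 213761872)), (.ofNat (nat_lit 2510486576431281550080)), (.negSucc (nat_lit 2510486576431281550079)), (.negSucc (nat_lit 2510486576431281550079)), (.ofNat (nat_lit 2510486576431281550080)), (.ofNat (nat_lit 0))⟩,
    ⟨nat_lit 0, nat_lit 14, nat_lit 13, (.ofNat (nat_lit 8)), (.ofNat (nat_lit 151043904)), (.ofNat (nat_lit 351553115733911074479359508480)), (.ofNat (nat_lit 17743744)), (.ofNat (nat_lit 44545431127633093416542699520)), (.ofNat (nat_lit 151043888)), (.ofNat (nat_lit 151043920)), (.negSucc (nat_lit 2510486576431281550079)), (.ofNat (nat_lit 2510486576431281550080)), (.negSucc (nat_lit 2510486576431281550079)), (.ofNat (nat_lit 2510486576431281550080)), (.ofNat (nat_lit 0))⟩,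
    ⟨nat_lit 0, nat_lit 15, nat_lit 14, (.ofNat (nat_lit 8)), (.ofNat (nat_lit 2801472)), (.ofNat (nat_lit 723713751327438132339948503040)), (.ofNat (nat_lit 15646592)), (.ofNat (nat_lit 49810303072369108381856071680)), (.ofNat (nat_lit 2801456)), (.ofNat (nat_lit 2801488)), (.ofNat (nat_lit 2510486576431281550080)), (.negSucc (nat_lit 2510486576431281550079)), (.negSucc (nat_lit 2510486576431281550079)), (.ofNat (nat_lit 2510486576431281550080)), (.ofNat (nat_lit 0))⟩,
    ⟨nat_lit 0, nat_lit 6, nat_lit 15, (.ofNat (nat_lit 8)), (.negSucc (nat_lit 79085759)), (.ofNat (nat_lit 518136954610324047991227924480)), (.ofNat (nat_lit 5848960)), (.ofNat (nat_lit 25213479455555538465782661120)), (.negSucc (nat_lit 79085775)), (.negSucc (nat_lit 79085743)), (.negSucc (nat_lit 2510486576431281550079)), (.ofNat (nat_lit 2510486576431281550080)), (.negSucc (nat_lit 2510486576431281550079)), (.ofNat (nat_lit 2510486576431281550080)), (.ofNat (nat_lit 0))⟩,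
    ⟨nat_lit 0, nat_lit 16, nat_lit 17, (.ofNat (nat_lit 8)), (.negSucc (nat_lit 8912959)), (.ofNat (nat_lit 230340989037941608211853557760)), (.ofNat (nat_lit 4456384)), (.ofNat (nat_lit 15136709547328929813352366080)), (.negSucc (nat_lit 8912975)), (.negSucc (nat_lit 8912943)), (.negSucc (nat_lit 2510459850164753583359)), (.ofNat (nat_lit 2510470585907829093120)), (.negSucc (nat_lit 2510459850164753583359)), (.ofNat (nat_lit 2510470585907829093120)), (.ofNat (nat_lit 0))⟩,
    ⟨nat_lit 1, nat_lit 17, nat_lit 18, (.ofNat (nat_lit 8)), (.ofNat (nat_lit 178831168)), (.ofNat (nat_lit 701667100058856069672698757120)), (.ofNat (nat_lit 27180928)), (.ofNat (nat_lit 72186008837497171984437903360)), (.ofNat (nat_lit 178831152)), (.ofNat (nat_lit 178831184)), (.ofNat (nat_lit 2510470585907829093120)), (.negSucc (nat_lit 2510486576431281550079)), (.negSucc (nat_lit 2510486576431281550079)), (.ofNat (nat_lit 2510470585907829093120)), (.ofNat (nat_lit 0))⟩,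
    ⟨nat_lit 0, nat_lit 19, nat_lit 18, (.ofNat (nat_lit 8)), (.ofNat (nat_lit 141606720)), (.ofNat (nat_lit 795118577077920335307011112960)), (.ofNat (nat_lit 26656640)), (.ofNat (nat_lit 73502226823681175725766246400)), (.ofNat (nat_lit 141606704)), (.ofNat (nat_lit 141606736)), (.ofNat (nat_lit 2510486576431281550080)), (.negSucc (nat_lit 2510486576431281550079)), (.negSucc (nat_lit 2510486576431281550079)), (.ofNat (nat_lit 2510486576431281550080)), (.ofNat (nat_lit 0))⟩,
    ⟨nat_lit 0, nat_lit 20, nat_lit 19, (.ofNat (nat_lit 8)), (.ofNat (nat_lit 16170816)), (.ofNat (nat_lit 480213423883397440194205040640)), (.ofNat (nat_lit 11321216)), (.ofNat (nat_lit 35002850727799066291912212480)), (.ofNat (nat_lit 16170800)), (.ofNat (nat_lit 16170832)), (.negSucc (nat_lit 2510486576431281550079)), (.ofNat (nat_lit 2510486576431281550080)), (.negSucc (nat_lit 2510486576431281550079)), (.ofNat (nat_lit 2510486576431281550080)), (.ofNat (nat_lit 0))⟩,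
    ⟨nat_lit 2, nat_lit 20, nat_lit 21, (.ofNat (nat_lit 8)), (.negSucc (nat_lit 77545663)), (.ofNat (nat_lit 715487388913788108956646359040)), (.ofNat (nat_lit 10010496)), (.ofNat (nat_lit 38293395693259075645233070080)), (.negSucc (nat_lit 77545679)), (.negSucc (nat_lit 77545647)), (.negSucc (nat_lit 2510486576431281550079)), (.ofNat (nat_lit 2510486576431281550080)), (.negSucc (nat_lit 2510486576431281550079)), (.ofNat (nat_lit 2510486576431281550080)), (.ofNat (nat_lit 0))⟩,
    ⟨nat_lit 0, nat_lit 21, nat_lit 22, (.ofNat (nat_lit 8)), (.ofNat (nat_lit 6078272)), (.ofNat (nat_lit 925424157710136705698517073920)), (.ofNat (nat_lit 20234112)), (.ofNat (nat_lit 63959646423847148601135759360)), (.ofNat (nat_lit 6078256)), (.ofNat (nat_lit 6078288)), (.ofNat (nat_lit 2510486576431281550080)), (.negSucc (nat_lit 2510486576431281550079)), (.negSucc (nat_lit 2510486576431281550079)), (.ofNat (nat_lit 2510486576431281550080)), (.ofNat (nat_lit 0))⟩,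
    ⟨nat_lit 1, nat_lit 23, nat_lit 22, (.ofNat (nat_lit 8)), (.ofNat (nat_lit 155631424)), (.ofNat (nat_lit 549972977151149638484607221760)), (.ofNat (nat_lit 22331264)), (.ofNat (nat_lit 58694774479111133635822387200)), (.ofNat (nat_lit 155631408)), (.ofNat (nat_lit 155631440)), (.ofNat (nat_lit 2510486576431281550080)), (.negSucc (nat_lit 2510486576431281550079)), (.negSucc (nat_lit 2510486576431281550079)), (.ofNat (nat_lit 2510486576431281550080)), (.ofNat (nat_lit 0))⟩,
    ⟨nat_lit 2, nat_lit 24, nat_lit 7, (.ofNat (nat_lit 8)), (.negSucc (nat_lit 121241663)), (.ofNat (nat_lit 512337690450982564710038323200)), (.ofNat (nat_lit 2883584)), (.ofNat (nat_lit 19085160799668054249260974080)), (.negSucc (nat_lit 121241679)), (.negSucc (nat_lit 121241647)), (.negSucc (nat_lit 2510459850164753583359)), (.ofNat (nat_lit 2510486576431281550080)), (.negSucc (nat_lit 2510459850164753583359)), (.ofNat (nat_lit 2510486576431281550080)), (.ofNat (nat_lit 0))⟩,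
    ⟨nat_lit 0, nat_lit 24, nat_lit 25, (.ofNat (nat_lit 8)), (.negSucc (nat_lit 100663423)), (.ofNat (nat_lit 460676845143928225930796236800)), (.ofNat (nat_lit 3407808)), (.ofNat (nat_lit 17769117495175286466777661440)), (.negSucc (nat_lit 100663439)), (.negSucc (nat_lit 100663407)), (.negSucc (nat_lit 2510459850164753583359)), (.negSucc (nat_lit 2510459850164753583359)), (.negSucc (nat_lit 2510459850164753583359)), (.negSucc (nat_lit 2510459850164753583359)), (.ofNat (nat_lit 0))⟩]
  es := [
    ⟨nat_lit 1, nat_lit 0, (.negSucc (nat_lit 201457663)), (.negSucc (nat_lit 33292287)), (.negSucc (nat_lit 201457647)), (.negSucc (nat_lit 33292303)), (.negSucc (nat_lit 2510486576431281550079)), (.ofNat (nat_lit 0)), (.ofNat (nat_lit 0))⟩,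
    ⟨nat_lit 1, nat_lit 2, (.negSucc (nat_lit 201457663)), (.negSucc (nat_lit 75251903)), (.negSucc (nat_lit 201457647)), (.negSucc (nat_lit 75251919)), (.ofNat (nat_lit 2510486576431281550080)), (.ofNat (nat_lit 0)), (.ofNat (nat_lit 14478397848024041154611773440))⟩,
    ⟨nat_lit 2, nat_lit 3, (.negSucc (nat_lit 75251903)), (.ofNat (nat_lit 18464576)), (.negSucc (nat_lit 75251887)), (.ofNat (nat_lit 18464560)), (.negSucc (nat_lit 2510486576431281550079)), (.ofNat (nat_lit 0)), (.ofNat (nat_lit 76257736889972150355134054400))⟩,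
    ⟨nat_lit 3, nat_lit 4, (.ofNat (nat_lit 18464576)), (.ofNat (nat_lit 164806464)), (.ofNat (nat_lit 18464592)), (.ofNat (nat_lit 164806448)), (.ofNat (nat_lit 2510486576431281550080)), (.ofNat (nat_lit 0)), (.ofNat (nat_lit 7897307917104022447970058240))⟩,
    ⟨nat_lit 5, nat_lit 4, (.ofNat (nat_lit 52477760)), (.ofNat (nat_lit 164806464)), (.ofNat (nat_lit 52477776)), (.ofNat (nat_lit 164806448)), (.negSucc (nat_lit 2510486576431281550079)), (.ofNat (nat_lit 0)), (.ofNat (nat_lit 166089614447030405700793466880))⟩,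
    ⟨nat_lit 6, nat_lit 5, (.negSucc (nat_lit 154845375)), (.ofNat (nat_lit 52477760)), (.negSucc (nat_lit 154845359)), (.ofNat (nat_lit 52477744)), (.ofNat (nat_lit 2510486576431281550080)), (.ofNat (nat_lit 0)), (.ofNat (nat_lit 15794615834208044895940116480))⟩,
    ⟨nat_lit 6, nat_lit 16, (.negSucc (nat_lit 154845375)), (.negSucc (nat_lit 79085759)), (.negSucc (nat_lit 154845359)), (.negSucc (nat_lit 79085775)), (.negSucc (nat_lit 2510486576431281550079)), (.ofNat (nat_lit 0)), (.ofNat (nat_lit 39897215021639047000938577920))⟩,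
    ⟨nat_lit 24, nat_lit 8, (.negSucc (nat_lit 121241663)), (.ofNat (nat_lit 3784512)), (.negSucc (nat_lit 121241647)), (.ofNat (nat_lit 3784496)), (.ofNat (nat_lit 2510486576431281550080)), (.ofNat (nat_lit 0)), (.ofNat (nat_lit 11845961875656033671955087360))⟩,
    ⟨nat_lit 8, nat_lit 9, (.ofNat (nat_lit 3784512)), (.ofNat (nat_lit 153337664)), (.ofNat (nat_lit 3784528)), (.ofNat (nat_lit 153337648)), (.negSucc (nat_lit 2510486576431281550079)), (.ofNat (nat_lit 0)), (.ofNat (nat_lit 101923987620560223311036743680))⟩,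
    ⟨nat_lit 9, nat_lit 10, (.ofNat (nat_lit 153337664)), (.ofNat (nat_lit 236961600)), (.ofNat (nat_lit 153337680)), (.ofNat (nat_lit 236961584)), (.ofNat (nat_lit 2510486576431281550080)), (.ofNat (nat_lit 0)), (.ofNat (nat_lit 1316217986184003741328343040))⟩,
    ⟨nat_lit 11, nat_lit 10, (.ofNat (nat_lit 181124928)), (.ofNat (nat_lit 236961600)), (.ofNat (nat_lit 181124944)), (.ofNat (nat_lit 236961584)), (.negSucc (nat_lit 2510486576431281550079)), (.ofNat (nat_lit 0)), (.ofNat (nat_lit 153256489081736369222842122240))⟩,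
    ⟨nat_lit 12, nat_lit 11, (.ofNat (nat_lit 139312960)), (.ofNat (nat_lit 181124928)), (.ofNat (nat_lit 139312976)), (.ofNat (nat_lit 181124912)), (.ofNat (nat_lit 2510486576431281550080)), (.ofNat (nat_lit 0)), (.ofNat (nat_lit 5264871944736014965313372160))⟩,
    ⟨nat_lit 12, nat_lit 13, (.ofNat (nat_lit 139312960)), (.ofNat (nat_lit 213761856)), (.ofNat (nat_lit 139312976)), (.ofNat (nat_lit 213761840)), (.negSucc (nat_lit 2510486576431281550079)), (.ofNat (nat_lit 0)), (.ofNat (nat_lit 127590238351148296266939432960))⟩,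
    ⟨nat_lit 14, nat_lit 13, (.ofNat (nat_lit 151043904)), (.ofNat (nat_lit 213761856)), (.ofNat (nat_lit 151043920)), (.ofNat (nat_lit 213761840)), (.ofNat (nat_lit 2510486576431281550080)), (.ofNat (nat_lit 0)), (.ofNat (nat_lit 0))⟩,
    ⟨nat_lit 15, nat_lit 14, (.ofNat (nat_lit 2801472)), (.ofNat (nat_lit 151043904)), (.ofNat (nat_lit 2801488)), (.ofNat (nat_lit 151043888)), (.negSucc (nat_lit 2510486576431281550079)), (.ofNat (nat_lit 0)), (.ofNat (nat_lit 89090862255266186833085399040))⟩,
    ⟨nat_lit 16, nat_lit 15, (.negSucc (nat_lit 79085759)), (.ofNat (nat_lit 2801472)), (.negSucc (nat_lit 79085743)), (.ofNat (nat_lit 2801456)), (.ofNat (nat_lit 2510486576431281550080)), (.ofNat (nat_lit 0)), (.ofNat (nat_lit 10529743889472029930626744320))⟩,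
    ⟨nat_lit 7, nat_lit 17, (.negSucc (nat_lit 100663359)), (.negSucc (nat_lit 8912959)), (.negSucc (nat_lit 100663343)), (.negSucc (nat_lit 8912975)), (.negSucc (nat_lit 2510459850164753583359)), (.ofNat (nat_lit 0)), (.ofNat (nat_lit 26324282656245535046180536320))⟩,
    ⟨nat_lit 17, nat_lit 18, (.negSucc (nat_lit 8912959)), (.ofNat (nat_lit 178831168)), (.negSucc (nat_lit 8912943)), (.ofNat (nat_lit 178831152)), (.ofNat (nat_lit 2510470585907829093120)), (.ofNat (nat_lit 0)), (.ofNat (nat_lit 3949088595818654768037888000))⟩,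
    ⟨nat_lit 19, nat_lit 18, (.ofNat (nat_lit 141606720)), (.ofNat (nat_lit 178831168)), (.ofNat (nat_lit 141606736)), (.ofNat (nat_lit 178831152)), (.negSucc (nat_lit 2510486576431281550079)), (.ofNat (nat_lit 0)), (.ofNat (nat_lit 140423363716442332744890777600))⟩,
    ⟨nat_lit 20, nat_lit 19, (.ofNat (nat_lit 16170816)), (.ofNat (nat_lit 141606720)), (.ofNat (nat_lit 16170832)), (.ofNat (nat_lit 141606704)), (.ofNat (nat_lit 2510486576431281550080)), (.ofNat (nat_lit 0)), (.ofNat (nat_lit 6581089930920018706641715200))⟩,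
    ⟨nat_lit 21, nat_lit 20, (.negSucc (nat_lit 77545663)), (.ofNat (nat_lit 16170816)), (.negSucc (nat_lit 77545647)), (.ofNat (nat_lit 16170800)), (.negSucc (nat_lit 2510486576431281550079)), (.ofNat (nat_lit 0)), (.ofNat (nat_lit 63424611524678113877182709760))⟩,
    ⟨nat_lit 21, nat_lit 22, (.negSucc (nat_lit 77545663)), (.ofNat (nat_lit 6078272)), (.negSucc (nat_lit 77545647)), (.ofNat (nat_lit 6078256)), (.ofNat (nat_lit 2510486576431281550080)), (.ofNat (nat_lit 0)), (.ofNat (nat_lit 13162179861840037413283430400))⟩,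
    ⟨nat_lit 22, nat_lit 23, (.ofNat (nat_lit 6078272)), (.ofNat (nat_lit 155631424)), (.ofNat (nat_lit 6078288)), (.ofNat (nat_lit 155631408)), (.negSucc (nat_lit 2510486576431281550079)), (.ofNat (nat_lit 0)), (.ofNat (nat_lit 114757112985854259788988088320))⟩,
    ⟨nat_lit 0, nat_lit 23, (.negSucc (nat_lit 33292287)), (.ofNat (nat_lit 155631424)), (.negSucc (nat_lit 33292271)), (.ofNat (nat_lit 155631408)), (.ofNat (nat_lit 2510486576431281550080)), (.ofNat (nat_lit 0)), (.ofNat (nat_lit 2632435972368007482656686080))⟩,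
    ⟨nat_lit 24, nat_lit 25, (.negSucc (nat_lit 121241663)), (.negSucc (nat_lit 100663423)), (.negSucc (nat_lit 121241647)), (.negSucc (nat_lit 100663439)), (.negSucc (nat_lit 2510459850164753583359)), (.ofNat (nat_lit 0)), (.ofNat (nat_lit 26324282656245535046180536320))⟩,
    ⟨nat_lit 25, nat_lit 7, (.negSucc (nat_lit 100663423)), (.negSucc (nat_lit 100663359)), (.negSucc (nat_lit 100663407)), (.negSucc (nat_lit 100663375)), (.negSucc (nat_lit 2510459850164753583359)), (.ofNat (nat_lit 0)), (.ofNat (nat_lit 26324282656245535046180536320))⟩]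

theorem ok18 : stOK 25 25 S18 = true := by decide +kernel

def S19 : SD where
  vs := [
    ⟨nat_lit 0, nat_lit 0, nat_lit 23, (.ofNat (nat_lit 8)), (.negSucc (nat_lit 33292287)), (.ofNat (nat_lit 75682534205580215126379724800)), (.negSucc (nat_lit 524287)), (.ofNat (nat_lit 1316217986184003741328343040)), (.negSucc (nat_lit 33292303)), (.negSucc (nat_lit 33292271)), (.negSucc (nat_lit 2510486576431281550079)), (.ofNat (nat_lit 2510486576431281550080)), (.negSucc (nat_lit 2510486576431281550079)), (.ofNat (nat_lit 2510486576431281550080)), (.ofNat (nat_lit 0))⟩,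
    ⟨nat_lit 2, nat_lit 0, nat_lit 1, (.ofNat (nat_lit 8)), (.negSucc (nat_lit 201457663)), (.ofNat (nat_lit 497859453274099415157445754880)), (.negSucc (nat_lit 2883583)), (.ofNat (nat_lit 7239198924012020577305886720)), (.negSucc (nat_lit 201457679)), (.negSucc (nat_lit 201457647)), (.negSucc (nat_lit 2510486576431281550079)), (.ofNat (nat_lit 2510486576431281550080)), (.negSucc (nat_lit 2510486576431281550079)), (.ofNat (nat_lit 2510486576431281550080)), (.ofNat (nat_lit 0))⟩,
    ⟨nat_lit 0, nat_lit 1, nat_lit 2, (.ofNat (nat_lit 8)), (.negSucc (nat_lit 75251903)), (.ofNat (nat_lit 814697319622407390959270215680)), (.ofNat (nat_lit 12304256)), (.ofNat (nat_lit 45368067368998095754872913920)), (.negSucc (nat_lit 75251919)), (.negSucc (nat_lit 75251887)), (.ofNat (nat_lit 2510486576431281550080)), (.negSucc (nat_lit 2510486576431281550079)), (.negSucc (nat_lit 2510486576431281550079)), (.ofNat (nat_lit 2510486576431281550080)), (.ofNat (nat_lit 0))⟩,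
    ⟨nat_lit 0, nat_lit 2, nat_lit 3, (.ofNat (nat_lit 8)), (.ofNat (nat_lit 18464576)), (.ofNat (nat_lit 579423354592016722196828897280)), (.ofNat (nat_lit 13614976)), (.ofNat (nat_lit 42077522403538086401552056320)), (.ofNat (nat_lit 18464560)), (.ofNat (nat_lit 18464592)), (.negSucc (nat_lit 2510486576431281550079)), (.ofNat (nat_lit 2510486576431281550080)), (.negSucc (nat_lit 2510486576431281550079)), (.ofNat (nat_lit 2510486576431281550080)), (.ofNat (nat_lit 0))⟩,
    ⟨nat_lit 1, nat_lit 3, nat_lit 4, (.ofNat (nat_lit 8)), (.ofNat (nat_lit 164806464)), (.ofNat (nat_lit 946812699985626766495102648320)), (.ofNat (nat_lit 31506304)), (.ofNat (nat_lit 86993461182067214074381762560)), (.ofNat (nat_lit 164806448)), (.ofNat (nat_lit 164806480)), (.ofNat (nat_lit 2510486576431281550080)), (.negSucc (nat_lit 2510486576431281550079)), (.negSucc (nat_lit 2510486576431281550079)), (.ofNat (nat_lit 2510486576431281550080)), (.ofNat (nat_lit 0))⟩,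
    ⟨nat_lit 0, nat_lit 5, nat_lit 4, (.ofNat (nat_lit 8)), (.ofNat (nat_lit 52477760)), (.ofNat (nat_lit 1228812403525549568074700144640)), (.ofNat (nat_lit 29933440)), (.ofNat (nat_lit 90942115140619225298366791680)), (.ofNat (nat_lit 52477744)), (.ofNat (nat_lit 52477776)), (.ofNat (nat_lit 2510486576431281550080)), (.negSucc (nat_lit 2510486576431281550079)), (.negSucc (nat_lit 2510486576431281550079)), (.ofNat (nat_lit 2510486576431281550080)), (.ofNat (nat_lit 0))⟩,
    ⟨nat_lit 2, nat_lit 6, nat_lit 5, (.ofNat (nat_lit 8)), (.negSucc (nat_lit 154845375)), (.ofNat (nat_lit 708330453613912588613173493760)), (.ofNat (nat_lit 4800384)), (.ofNat (nat_lit 27845915427923545948439347200)), (.negSucc (nat_lit 154845391)), (.negSucc (nat_lit 154845359)), (.negSucc (nat_lit 2510486576431281550079)), (.ofNat (nat_lit 2510486576431281550080)), (.negSucc (nat_lit 2510486576431281550079)), (.ofNat (nat_lit 2510486576431281550080)), (.ofNat (nat_lit 0))⟩,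
    ⟨nat_lit 0, nat_lit 24, nat_lit 16, (.ofNat (nat_lit 8)), (.negSucc (nat_lit 100663359)), (.ofNat (nat_lit 460676684474497815386566901760)), (.ofNat (nat_lit 3407808)), (.ofNat (nat_lit 17769117495175286466777661440)), (.negSucc (nat_lit 100663375)), (.negSucc (nat_lit 100663343)), (.negSucc (nat_lit 2510459850164753583359)), (.negSucc (nat_lit 2510459850164753583359)), (.negSucc (nat_lit 2510459850164753583359)), (.negSucc (nat_lit 2510459850164753583359)), (.ofNat (nat_lit 0))⟩,
    ⟨nat_lit 0, nat_lit 7, nat_lit 8, (.ofNat (nat_lit 8)), (.ofNat (nat_lit 3784512)), (.ofNat (nat_lit 826214227001517423695893217280)), (.ofNat (nat_lit 17940352)), (.ofNat (nat_lit 56884974748108128491495915520)), (.ofNat (nat_lit 3784496)), (.ofNat (nat_lit 3784528)), (.ofNat (nat_lit 2510486576431281550080)), (.negSucc (nat_lit 2510486576431281550079)), (.negSucc (nat_lit 2510486576431281550079)), (.ofNat (nat_lit 2510486576431281550080)), (.ofNat (nat_lit 0))⟩,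
    ⟨nat_lit 0, nat_lit 8, nat_lit 9, (.ofNat (nat_lit 8)), (.ofNat (nat_lit 153337664)), (.ofNat (nat_lit 450763046442530356481983365120)), (.ofNat (nat_lit 20037504)), (.ofNat (nat_lit 51620102803372113526182543360)), (.ofNat (nat_lit 153337648)), (.ofNat (nat_lit 153337680)), (.negSucc (nat_lit 2510486576431281550079)), (.ofNat (nat_lit 2510486576431281550080)), (.negSucc (nat_lit 2510486576431281550079)), (.ofNat (nat_lit 2510486576431281550080)), (.ofNat (nat_lit 0))⟩,
    ⟨nat_lit 1, nat_lit 9, nat_lit 10, (.ofNat (nat_lit 8)), (.ofNat (nat_lit 236961600)), (.ofNat (nat_lit 660699815238878953223854080000)), (.ofNat (nat_lit 30261120)), (.ofNat (nat_lit 77286353533960186482085232640)), (.ofNat (nat_lit 236961584)), (.ofNat (nat_lit 236961616)), (.ofNat (nat_lit 2510486576431281550080)), (.negSucc (nat_lit 2510486576431281550079)), (.negSucc (nat_lit 2510486576431281550079)), (.ofNat (nat_lit 2510486576431281550080)), (.ofNat (nat_lit 0))⟩,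
    ⟨nat_lit 0, nat_lit 11, nat_lit 10, (.ofNat (nat_lit 8)), (.ofNat (nat_lit 181124928)), (.ofNat (nat_lit 800877030767475351675322613760)), (.ofNat (nat_lit 29474688)), (.ofNat (nat_lit 79260680513236192094077747200)), (.ofNat (nat_lit 181124912)), (.ofNat (nat_lit 181124944)), (.ofNat (nat_lit 2510486576431281550080)), (.negSucc (nat_lit 2510486576431281550079)), (.negSucc (nat_lit 2510486576431281550079)), (.ofNat (nat_lit 2510486576431281550080)), (.ofNat (nat_lit 0))⟩,
    ⟨nat_lit 2, nat_lit 12, nat_lit 11, (.ofNat (nat_lit 8)), (.ofNat (nat_lit 139312960)), (.ofNat (nat_lit 695908646369301053304387256320)), (.ofNat (nat_lit 24362880)), (.ofNat (nat_lit 66427555147942155616126402560)), (.ofNat (nat_lit 139312944)), (.ofNat (nat_lit 139312976)), (.negSucc (nat_lit 2510486576431281550079)), (.ofNat (nat_lit 2510486576431281550080)), (.negSucc (nat_lit 2510486576431281550079)), (.ofNat (nat_lit 2510486576431281550080)), (.ofNat (nat_lit 0))⟩,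
    ⟨nat_lit 1, nat_lit 13, nat_lit 12, (.ofNat (nat_lit 8)), (.ofNat (nat_lit 213761856)), (.ofNat (nat_lit 509005692331172522035762544640)), (.ofNat (nat_lit 25411456)), (.ofNat (nat_lit 63795119175574148133469716480)), (.ofNat (nat_lit 213761840)), (.ofNat (nat_lit 213761872)), (.ofNat (nat_lit 2510486576431281550080)), (.negSucc (nat_lit 2510486576431281550079)), (.negSucc (nat_lit 2510486576431281550079)), (.ofNat (nat_lit 2510486576431281550080)), (.ofNat (nat_lit 0))⟩,
    ⟨nat_lit 0, nat_lit 14, nat_lit 13, (.ofNat (nat_lit 8)), (.ofNat (nat_lit 151043904)), (.ofNat (nat_lit 351553115733911074479359508480)), (.ofNat (nat_lit 17743744)), (.ofNat (nat_lit 44545431127633093416542699520)), (.ofNat (nat_lit 151043888)), (.ofNat (nat_lit 151043920)), (.negSucc (nat_lit 2510486576431281550079)), (.ofNat (nat_lit 2510486576431281550080)), (.negSucc (nat_lit 2510486576431281550079)), (.ofNat (nat_lit 2510486576431281550080)), (.ofNat (nat_lit 0))⟩,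
    ⟨nat_lit 0, nat_lit 15, nat_lit 14, (.ofNat (nat_lit 8)), (.ofNat (nat_lit 2801472)), (.ofNat (nat_lit 723713751327438132339948503040)), (.ofNat (nat_lit 15646592)), (.ofNat (nat_lit 49810303072369108381856071680)), (.ofNat (nat_lit 2801456)), (.ofNat (nat_lit 2801488)), (.ofNat (nat_lit 2510486576431281550080)), (.negSucc (nat_lit 2510486576431281550079)), (.negSucc (nat_lit 2510486576431281550079)), (.ofNat (nat_lit 2510486576431281550080)), (.ofNat (nat_lit 0))⟩,
    ⟨nat_lit 0, nat_lit 6, nat_lit 15, (.ofNat (nat_lit 8)), (.negSucc (nat_lit 79085759)), (.ofNat (nat_lit 518136954610324047991227924480)), (.ofNat (nat_lit 5848960)), (.ofNat (nat_lit 25213479455555538465782661120)), (.negSucc (nat_lit 79085775)), (.negSucc (nat_lit 79085743)), (.negSucc (nat_lit 2510486576431281550079)), (.ofNat (nat_lit 2510486576431281550080)), (.negSucc (nat_lit 2510486576431281550079)), (.ofNat (nat_lit 2510486576431281550080)), (.ofNat (nat_lit 0))⟩,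
    ⟨nat_lit 0, nat_lit 16, nat_lit 17, (.ofNat (nat_lit 8)), (.negSucc (nat_lit 8912959)), (.ofNat (nat_lit 230340989037941608211853557760)), (.ofNat (nat_lit 4456384)), (.ofNat (nat_lit 15136709547328929813352366080)), (.negSucc (nat_lit 8912975)), (.negSucc (nat_lit 8912943)), (.negSucc (nat_lit 2510459850164753583359)), (.ofNat (nat_lit 2510470585907829093120)), (.negSucc (nat_lit 2510459850164753583359)), (.ofNat (nat_lit 2510470585907829093120)), (.ofNat (nat_lit 0))⟩,
    ⟨nat_lit 1, nat_lit 17, nat_lit 18, (.ofNat (nat_lit 8)), (.ofNat (nat_lit 178831168)), (.ofNat (nat_lit 701667100058856069672698757120)), (.ofNat (nat_lit 27180928)), (.ofNat (nat_lit 72186008837497171984437903360)), (.ofNat (nat_lit 178831152)), (.ofNat (nat_lit 178831184)), (.ofNat (nat_lit 2510470585907829093120)), (.negSucc (nat_lit 2510486576431281550079)), (.negSucc (nat_lit 2510486576431281550079)), (.ofNat (nat_lit 2510470585907829093120)), (.ofNat (nat_lit 0))⟩,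
    ⟨nat_lit 0, nat_lit 19, nat_lit 18, (.ofNat (nat_lit 8)), (.ofNat (nat_lit 141606720)), (.ofNat (nat_lit 795118577077920335307011112960)), (.ofNat (nat_lit 26656640)), (.ofNat (nat_lit 73502226823681175725766246400)), (.ofNat (nat_lit 141606704)), (.ofNat (nat_lit 141606736)), (.ofNat (nat_lit 2510486576431281550080)), (.negSucc (nat_lit 2510486576431281550079)), (.negSucc (nat_lit 2510486576431281550079)), (.ofNat (nat_lit 2510486576431281550080)), (.ofNat (nat_lit 0))⟩,
    ⟨nat_lit 0, nat_lit 20, nat_lit 19, (.ofNat (nat_lit 8)), (.ofNat (nat_lit 16170816)), (.ofNat (nat_lit 480213423883397440194205040640)), (.ofNat (nat_lit 11321216)), (.ofNat (nat_lit 35002850727799066291912212480)), (.ofNat (nat_lit 16170800)), (.ofNat (nat_lit 16170832)), (.negSucc (nat_lit 2510486576431281550079)), (.ofNat (nat_lit 2510486576431281550080)), (.negSucc (nat_lit 2510486576431281550079)), (.ofNat (nat_lit 2510486576431281550080)), (.ofNat (nat_lit 0))⟩,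
    ⟨nat_lit 2, nat_lit 20, nat_lit 21, (.ofNat (nat_lit 8)), (.negSucc (nat_lit 77545663)), (.ofNat (nat_lit 715487388913788108956646359040)), (.ofNat (nat_lit 10010496)), (.ofNat (nat_lit 38293395693259075645233070080)), (.negSucc (nat_lit 77545679)), (.negSucc (nat_lit 77545647)), (.negSucc (nat_lit 2510486576431281550079)), (.ofNat (nat_lit 2510486576431281550080)), (.negSucc (nat_lit 2510486576431281550079)), (.ofNat (nat_lit 2510486576431281550080)), (.ofNat (nat_lit 0))⟩,
    ⟨nat_lit 0, nat_lit 21, nat_lit 22, (.ofNat (nat_lit 8)), (.ofNat (nat_lit 6078272)), (.ofNat (nat_lit 925424157710136705698517073920)), (.ofNat (nat_lit 20234112)), (.ofNat (nat_lit 63959646423847148601135759360)), (.ofNat (nat_lit 6078256)), (.ofNat (nat_lit 6078288)), (.ofNat (nat_lit 2510486576431281550080)), (.negSucc (nat_lit 2510486576431281550079)), (.negSucc (nat_lit 2510486576431281550079)), (.ofNat (nat_lit 2510486576431281550080)), (.ofNat (nat_lit 0))⟩,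
    ⟨nat_lit 1, nat_lit 23, nat_lit 22, (.ofNat (nat_lit 8)), (.ofNat (nat_lit 155631424)), (.ofNat (nat_lit 549972977151149638484607221760)), (.ofNat (nat_lit 22331264)), (.ofNat (nat_lit 58694774479111133635822387200)), (.ofNat (nat_lit 155631408)), (.ofNat (nat_lit 155631440)), (.ofNat (nat_lit 2510486576431281550080)), (.negSucc (nat_lit 2510486576431281550079)), (.negSucc (nat_lit 2510486576431281550079)), (.ofNat (nat_lit 2510486576431281550080)), (.ofNat (nat_lit 0))⟩,
    ⟨nat_lit 2, nat_lit 24, nat_lit 7, (.ofNat (nat_lit 8)), (.negSucc (nat_lit 121241663)), (.ofNat (nat_lit 512337690450982564710038323200)), (.ofNat (nat_lit 2883584)), (.ofNat (nat_lit 19085160799668054249260974080)), (.negSucc (nat_lit 121241679)), (.negSucc (nat_lit 121241647)), (.negSucc (nat_lit 2510459850164753583359)), (.ofNat (nat_lit 2510486576431281550080)), (.negSucc (nat_lit 2510459850164753583359)), (.ofNat (nat_lit 2510486576431281550080)), (.ofNat (nat_lit 0))⟩]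
  es := [
    ⟨nat_lit 1, nat_lit 0, (.negSucc (nat_lit 201457663)), (.negSucc (nat_lit 33292287)), (.negSucc (nat_lit 201457647)), (.negSucc (nat_lit 33292303)), (.negSucc (nat_lit 2510486576431281550079)), (.ofNat (nat_lit 0)), (.ofNat (nat_lit 0))⟩,
    ⟨nat_lit 1, nat_lit 2, (.negSucc (nat_lit 201457663)), (.negSucc (nat_lit 75251903)), (.negSucc (nat_lit 201457647)), (.negSucc (nat_lit 75251919)), (.ofNat (nat_lit 2510486576431281550080)), (.ofNat (nat_lit 0)), (.ofNat (nat_lit 14478397848024041154611773440))⟩,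
    ⟨nat_lit 2, nat_lit 3, (.negSucc (nat_lit 75251903)), (.ofNat (nat_lit 18464576)), (.negSucc (nat_lit 75251887)), (.ofNat (nat_lit 18464560)), (.negSucc (nat_lit 2510486576431281550079)), (.ofNat (nat_lit 0)), (.ofNat (nat_lit 76257736889972150355134054400))⟩,
    ⟨nat_lit 3, nat_lit 4, (.ofNat (nat_lit 18464576)), (.ofNat (nat_lit 164806464)), (.ofNat (nat_lit 18464592)), (.ofNat (nat_lit 164806448)), (.ofNat (nat_lit 2510486576431281550080)), (.ofNat (nat_lit 0)), (.ofNat (nat_lit 7897307917104022447970058240))⟩,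
    ⟨nat_lit 5, nat_lit 4, (.ofNat (nat_lit 52477760)), (.ofNat (nat_lit 164806464)), (.ofNat (nat_lit 52477776)), (.ofNat (nat_lit 164806448)), (.negSucc (nat_lit 2510486576431281550079)), (.ofNat (nat_lit 0)), (.ofNat (nat_lit 166089614447030405700793466880))⟩,
    ⟨nat_lit 6, nat_lit 5, (.negSucc (nat_lit 154845375)), (.ofNat (nat_lit 52477760)), (.negSucc (nat_lit 154845359)), (.ofNat (nat_lit 52477744)), (.ofNat (nat_lit 2510486576431281550080)), (.ofNat (nat_lit 0)), (.ofNat (nat_lit 15794615834208044895940116480))⟩,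
    ⟨nat_lit 6, nat_lit 16, (.negSucc (nat_lit 154845375)), (.negSucc (nat_lit 79085759)), (.negSucc (nat_lit 154845359)), (.negSucc (nat_lit 79085775)), (.negSucc (nat_lit 2510486576431281550079)), (.ofNat (nat_lit 0)), (.ofNat (nat_lit 39897215021639047000938577920))⟩,
    ⟨nat_lit 24, nat_lit 8, (.negSucc (nat_lit 121241663)), (.ofNat (nat_lit 3784512)), (.negSucc (nat_lit 121241647)), (.ofNat (nat_lit 3784496)), (.ofNat (nat_lit 2510486576431281550080)), (.ofNat (nat_lit 0)), (.ofNat (nat_lit 11845961875656033671955087360))⟩,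
    ⟨nat_lit 8, nat_lit 9, (.ofNat (nat_lit 3784512)), (.ofNat (nat_lit 153337664)), (.ofNat (nat_lit 3784528)), (.ofNat (nat_lit 153337648)), (.negSucc (nat_lit 2510486576431281550079)), (.ofNat (nat_lit 0)), (.ofNat (nat_lit 101923987620560223311036743680))⟩,
    ⟨nat_lit 9, nat_lit 10, (.ofNat (nat_lit 153337664)), (.ofNat (nat_lit 236961600)), (.ofNat (nat_lit 153337680)), (.ofNat (nat_lit 236961584)), (.ofNat (nat_lit 2510486576431281550080)), (.ofNat (nat_lit 0)), (.ofNat (nat_lit 1316217986184003741328343040))⟩,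
    ⟨nat_lit 11, nat_lit 10, (.ofNat (nat_lit 181124928)), (.ofNat (nat_lit 236961600)), (.ofNat (nat_lit 181124944)), (.ofNat (nat_lit 236961584)), (.negSucc (nat_lit 2510486576431281550079)), (.ofNat (nat_lit 0)), (.ofNat (nat_lit 153256489081736369222842122240))⟩,
    ⟨nat_lit 12, nat_lit 11, (.ofNat (nat_lit 139312960)), (.ofNat (nat_lit 181124928)), (.ofNat (nat_lit 139312976)), (.ofNat (nat_lit 181124912)), (.ofNat (nat_lit 2510486576431281550080)), (.ofNat (nat_lit 0)), (.ofNat (nat_lit 5264871944736014965313372160))⟩,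
    ⟨nat_lit 12, nat_lit 13, (.ofNat (nat_lit 139312960)), (.ofNat (nat_lit 213761856)), (.ofNat (nat_lit 139312976)), (.ofNat (nat_lit 213761840)), (.negSucc (nat_lit 2510486576431281550079)), (.ofNat (nat_lit 0)), (.ofNat (nat_lit 127590238351148296266939432960))⟩,
    ⟨nat_lit 14, nat_lit 13, (.ofNat (nat_lit 151043904)), (.ofNat (nat_lit 213761856)), (.ofNat (nat_lit 151043920)), (.ofNat (nat_lit 213761840)), (.ofNat (nat_lit 2510486576431281550080)), (.ofNat (nat_lit 0)), (.ofNat (nat_lit 0))⟩,
    ⟨nat_lit 15, nat_lit 14, (.ofNat (nat_lit 2801472)), (.ofNat (nat_lit 151043904)), (.ofNat (nat_lit 2801488)), (.ofNat (nat_lit 151043888)), (.negSucc (nat_lit 2510486576431281550079)), (.ofNat (nat_lit 0)), (.ofNat (nat_lit 89090862255266186833085399040))⟩,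
    ⟨nat_lit 16, nat_lit 15, (.negSucc (nat_lit 79085759)), (.ofNat (nat_lit 2801472)), (.negSucc (nat_lit 79085743)), (.ofNat (nat_lit 2801456)), (.ofNat (nat_lit 2510486576431281550080)), (.ofNat (nat_lit 0)), (.ofNat (nat_lit 10529743889472029930626744320))⟩,
    ⟨nat_lit 7, nat_lit 17, (.negSucc (nat_lit 100663359)), (.negSucc (nat_lit 8912959)), (.negSucc (nat_lit 100663343)), (.negSucc (nat_lit 8912975)), (.negSucc (nat_lit 2510459850164753583359)), (.ofNat (nat_lit 0)), (.ofNat (nat_lit 26324282656245535046180536320))⟩,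
    ⟨nat_lit 17, nat_lit 18, (.negSucc (nat_lit 8912959)), (.ofNat (nat_lit 178831168)), (.negSucc (nat_lit 8912943)), (.ofNat (nat_lit 178831152)), (.ofNat (nat_lit 2510470585907829093120)), (.ofNat (nat_lit 0)), (.ofNat (nat_lit 3949088595818654768037888000))⟩,
    ⟨nat_lit 19, nat_lit 18, (.ofNat (nat_lit 141606720)), (.ofNat (nat_lit 178831168)), (.ofNat (nat_lit 141606736)), (.ofNat (nat_lit 178831152)), (.negSucc (nat_lit 2510486576431281550079)), (.ofNat (nat_lit 0)), (.ofNat (nat_lit 140423363716442332744890777600))⟩,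
    ⟨nat_lit 20, nat_lit 19, (.ofNat (nat_lit 16170816)), (.ofNat (nat_lit 141606720)), (.ofNat (nat_lit 16170832)), (.ofNat (nat_lit 141606704)), (.ofNat (nat_lit 2510486576431281550080)), (.ofNat (nat_lit 0)), (.ofNat (nat_lit 6581089930920018706641715200))⟩,
    ⟨nat_lit 21, nat_lit 20, (.negSucc (nat_lit 77545663)), (.ofNat (nat_lit 16170816)), (.negSucc (nat_lit 77545647)), (.ofNat (nat_lit 16170800)), (.negSucc (nat_lit 2510486576431281550079)), (.ofNat (nat_lit 0)), (.ofNat (nat_lit 63424611524678113877182709760))⟩,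
    ⟨nat_lit 21, nat_lit 22, (.negSucc (nat_lit 77545663)), (.ofNat (nat_lit 6078272)), (.negSucc (nat_lit 77545647)), (.ofNat (nat_lit 6078256)), (.ofNat (nat_lit 2510486576431281550080)), (.ofNat (nat_lit 0)), (.ofNat (nat_lit 13162179861840037413283430400))⟩,
    ⟨nat_lit 22, nat_lit 23, (.ofNat (nat_lit 6078272)), (.ofNat (nat_lit 155631424)), (.ofNat (nat_lit 6078288)), (.ofNat (nat_lit 155631408)), (.negSucc (nat_lit 2510486576431281550079)), (.ofNat (nat_lit 0)), (.ofNat (nat_lit 114757112985854259788988088320))⟩,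
    ⟨nat_lit 0, nat_lit 23, (.negSucc (nat_lit 33292287)), (.ofNat (nat_lit 155631424)), (.negSucc (nat_lit 33292271)), (.ofNat (nat_lit 155631408)), (.ofNat (nat_lit 2510486576431281550080)), (.ofNat (nat_lit 0)), (.ofNat (nat_lit 2632435972368007482656686080))⟩,
    ⟨nat_lit 24, nat_lit 7, (.negSucc (nat_lit 121241663)), (.negSucc (nat_lit 100663359)), (.negSucc (nat_lit 121241647)), (.negSucc (nat_lit 100663375)), (.negSucc (nat_lit 2510459850164753583359)), (.ofNat (nat_lit 0)), (.ofNat (nat_lit 26324282656245535046180536320))⟩]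

theorem ok19 : stOK 24 24 S19 = true := by decide +kernel

def S20 : SD where
  vs := [
    ⟨nat_lit 0, nat_lit 0, nat_lit 22, (.ofNat (nat_lit 8)), (.negSucc (nat_lit 33292287)), (.ofNat (nat_lit 75682534205580215126379724800)), (.negSucc (nat_lit 524287)), (.ofNat (nat_lit 1316217986184003741328343040)), (.negSucc (nat_lit 33292303)), (.negSucc (nat_lit 33292271)), (.negSucc (nat_lit 2510486576431281550079)), (.ofNat (nat_lit 2510486576431281550080)), (.negSucc (nat_lit 2510486576431281550079)), (.ofNat (nat_lit 2510486576431281550080)), (.ofNat (nat_lit 0))⟩,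
    ⟨nat_lit 2, nat_lit 0, nat_lit 1, (.ofNat (nat_lit 8)), (.negSucc (nat_lit 201457663)), (.ofNat (nat_lit 497859453274099415157445754880)), (.negSucc (nat_lit 2883583)), (.ofNat (nat_lit 7239198924012020577305886720)), (.negSucc (nat_lit 201457679)), (.negSucc (nat_lit 201457647)), (.negSucc (nat_lit 2510486576431281550079)), (.ofNat (nat_lit 2510486576431281550080)), (.negSucc (nat_lit 2510486576431281550079)), (.ofNat (nat_lit 2510486576431281550080)), (.ofNat (nat_lit 0))⟩,
    ⟨nat_lit 0, nat_lit 1, nat_lit 2, (.ofNat (nat_lit 8)), (.negSucc (nat_lit 75251903)), (.ofNat (nat_lit 814697319622407390959270215680)), (.ofNat (nat_lit 12304256)), (.ofNat (nat_lit 45368067368998095754872913920)), (.negSucc (nat_lit 75251919)), (.negSucc (nat_lit 75251887)), (.ofNat (nat_lit 2510486576431281550080)), (.negSucc (nat_lit 2510486576431281550079)), (.negSucc (nat_lit 2510486576431281550079)), (.ofNat (nat_lit 2510486576431281550080)), (.ofNat (nat_lit 0))⟩,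
    ⟨nat_lit 0, nat_lit 2, nat_lit 3, (.ofNat (nat_lit 8)), (.ofNat (nat_lit 18464576)), (.ofNat (nat_lit 579423354592016722196828897280)), (.ofNat (nat_lit 13614976)), (.ofNat (nat_lit 42077522403538086401552056320)), (.ofNat (nat_lit 18464560)), (.ofNat (nat_lit 18464592)), (.negSucc (nat_lit 2510486576431281550079)), (.ofNat (nat_lit 2510486576431281550080)), (.negSucc (nat_lit 2510486576431281550079)), (.ofNat (nat_lit 2510486576431281550080)), (.ofNat (nat_lit 0))⟩,
    ⟨nat_lit 1, nat_lit 3, nat_lit 4, (.ofNat (nat_lit 8)), (.ofNat (nat_lit 164806464)), (.ofNat (nat_lit 946812699985626766495102648320)), (.ofNat (nat_lit 31506304)), (.ofNat (nat_lit 86993461182067214074381762560)), (.ofNat (nat_lit 164806448)), (.ofNat (nat_lit 164806480)), (.ofNat (nat_lit 2510486576431281550080)), (.negSucc (nat_lit 2510486576431281550079)), (.negSucc (nat_lit 2510486576431281550079)), (.ofNat (nat_lit 2510486576431281550080)), (.ofNat (nat_lit 0))⟩,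
    ⟨nat_lit 0, nat_lit 5, nat_lit 4, (.ofNat (nat_lit 8)), (.ofNat (nat_lit 52477760)), (.ofNat (nat_lit 1228812403525549568074700144640)), (.ofNat (nat_lit 29933440)), (.ofNat (nat_lit 90942115140619225298366791680)), (.ofNat (nat_lit 52477744)), (.ofNat (nat_lit 52477776)), (.ofNat (nat_lit 2510486576431281550080)), (.negSucc (nat_lit 2510486576431281550079)), (.negSucc (nat_lit 2510486576431281550079)), (.ofNat (nat_lit 2510486576431281550080)), (.ofNat (nat_lit 0))⟩,
    ⟨nat_lit 2, nat_lit 6, nat_lit 5, (.ofNat (nat_lit 8)), (.negSucc (nat_lit 154845375)), (.ofNat (nat_lit 708330453613912588613173493760)), (.ofNat (nat_lit 4800384)), (.ofNat (nat_lit 27845915427923545948439347200)), (.negSucc (nat_lit 154845391)), (.negSucc (nat_lit 154845359)), (.negSucc (nat_lit 2510486576431281550079)), (.ofNat (nat_lit 2510486576431281550080)), (.negSucc (nat_lit 2510486576431281550079)), (.ofNat (nat_lit 2510486576431281550080)), (.ofNat (nat_lit 0))⟩,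
    ⟨nat_lit 0, nat_lit 7, nat_lit 8, (.ofNat (nat_lit 8)), (.ofNat (nat_lit 3784512)), (.ofNat (nat_lit 826214227001517423695893217280)), (.ofNat (nat_lit 17940352)), (.ofNat (nat_lit 56884974748108128491495915520)), (.ofNat (nat_lit 3784496)), (.ofNat (nat_lit 3784528)), (.ofNat (nat_lit 2510486576431281550080)), (.negSucc (nat_lit 2510486576431281550079)), (.negSucc (nat_lit 2510486576431281550079)), (.ofNat (nat_lit 2510486576431281550080)), (.ofNat (nat_lit 0))⟩,
    ⟨nat_lit 0, nat_lit 8, nat_lit 9, (.ofNat (nat_lit 8)), (.ofNat (nat_lit 153337664)), (.ofNat (nat_lit 450763046442530356481983365120)), (.ofNat (nat_lit 20037504)), (.ofNat (nat_lit 51620102803372113526182543360)), (.ofNat (nat_lit 153337648)), (.ofNat (nat_lit 153337680)), (.negSucc (nat_lit 2510486576431281550079)), (.ofNat (nat_lit 2510486576431281550080)), (.negSucc (nat_lit 2510486576431281550079)), (.ofNat (nat_lit 2510486576431281550080)), (.ofNat (nat_lit 0))⟩,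
    ⟨nat_lit 1, nat_lit 9, nat_lit 10, (.ofNat (nat_lit 8)), (.ofNat (nat_lit 236961600)), (.ofNat (nat_lit 660699815238878953223854080000)), (.ofNat (nat_lit 30261120)), (.ofNat (nat_lit 77286353533960186482085232640)), (.ofNat (nat_lit 236961584)), (.ofNat (nat_lit 236961616)), (.ofNat (nat_lit 2510486576431281550080)), (.negSucc (nat_lit 2510486576431281550079)), (.negSucc (nat_lit 2510486576431281550079)), (.ofNat (nat_lit 2510486576431281550080)), (.ofNat (nat_lit 0))⟩,
    ⟨nat_lit 0, nat_lit 11, nat_lit 10, (.ofNat (nat_lit 8)), (.ofNat (nat_lit 181124928)), (.ofNat (nat_lit 800877030767475351675322613760)), (.ofNat (nat_lit 29474688)), (.ofNat (nat_lit 79260680513236192094077747200)), (.ofNat (nat_lit 181124912)), (.ofNat (nat_lit 181124944)), (.ofNat (nat_lit 2510486576431281550080)), (.negSucc (nat_lit 2510486576431281550079)), (.negSucc (nat_lit 2510486576431281550079)), (.ofNat (nat_lit 2510486576431281550080)), (.ofNat (nat_lit 0))⟩,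
    ⟨nat_lit 2, nat_lit 12, nat_lit 11, (.ofNat (nat_lit 8)), (.ofNat (nat_lit 139312960)), (.ofNat (nat_lit 695908646369301053304387256320)), (.ofNat (nat_lit 24362880)), (.ofNat (nat_lit 66427555147942155616126402560)), (.ofNat (nat_lit 139312944)), (.ofNat (nat_lit 139312976)), (.negSucc (nat_lit 2510486576431281550079)), (.ofNat (nat_lit 2510486576431281550080)), (.negSucc (nat_lit 2510486576431281550079)), (.ofNat (nat_lit 2510486576431281550080)), (.ofNat (nat_lit 0))⟩,
    ⟨nat_lit 1, nat_lit 13, nat_lit 12, (.ofNat (nat_lit 8)), (.ofNat (nat_lit 213761856)), (.ofNat (nat_lit 509005692331172522035762544640)), (.ofNat (nat_lit 25411456)), (.ofNat (nat_lit 63795119175574148133469716480)), (.ofNat (nat_lit 213761840)), (.ofNat (nat_lit 213761872)), (.ofNat (nat_lit 2510486576431281550080)), (.negSucc (nat_lit 2510486576431281550079)), (.negSucc (nat_lit 2510486576431281550079)), (.ofNat (nat_lit 2510486576431281550080)), (.ofNat (nat_lit 0))⟩,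
    ⟨nat_lit 0, nat_lit 14, nat_lit 13, (.ofNat (nat_lit 8)), (.ofNat (nat_lit 151043904)), (.ofNat (nat_lit 351553115733911074479359508480)), (.ofNat (nat_lit 17743744)), (.ofNat (nat_lit 44545431127633093416542699520)), (.ofNat (nat_lit 151043888)), (.ofNat (nat_lit 151043920)), (.negSucc (nat_lit 2510486576431281550079)), (.ofNat (nat_lit 2510486576431281550080)), (.negSucc (nat_lit 2510486576431281550079)), (.ofNat (nat_lit 2510486576431281550080)), (.ofNat (nat_lit 0))⟩,
    ⟨nat_lit 0, nat_lit 15, nat_lit 14, (.ofNat (nat_lit 8)), (.ofNat (nat_lit 2801472)), (.ofNat (nat_lit 723713751327438132339948503040)), (.ofNat (nat_lit 15646592)), (.ofNat (nat_lit 49810303072369108381856071680)), (.ofNat (nat_lit 2801456)), (.ofNat (nat_lit 2801488)), (.ofNat (nat_lit 2510486576431281550080)), (.negSucc (nat_lit 2510486576431281550079)), (.negSucc (nat_lit 2510486576431281550079)), (.ofNat (nat_lit 2510486576431281550080)), (.ofNat (nat_lit 0))⟩,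
    ⟨nat_lit 0, nat_lit 6, nat_lit 15, (.ofNat (nat_lit 8)), (.negSucc (nat_lit 79085759)), (.ofNat (nat_lit 518136954610324047991227924480)), (.ofNat (nat_lit 5848960)), (.ofNat (nat_lit 25213479455555538465782661120)), (.negSucc (nat_lit 79085775)), (.negSucc (nat_lit 79085743)), (.negSucc (nat_lit 2510486576431281550079)), (.ofNat (nat_lit 2510486576431281550080)), (.negSucc (nat_lit 2510486576431281550079)), (.ofNat (nat_lit 2510486576431281550080)), (.ofNat (nat_lit 0))⟩,
    ⟨nat_lit 0, nat_lit 23, nat_lit 16, (.ofNat (nat_lit 8)), (.negSucc (nat_lit 8912959)), (.ofNat (nat_lit 230340989037941608211853557760)), (.ofNat (nat_lit 4456384)), (.ofNat (nat_lit 15136709547328929813352366080)), (.negSucc (nat_lit 8912975)), (.negSucc (nat_lit 8912943)), (.negSucc (nat_lit 2510459850164753583359)), (.ofNat (nat_lit 2510470585907829093120)), (.negSucc (nat_lit 2510459850164753583359)), (.ofNat (nat_lit 2510470585907829093120)), (.ofNat (nat_lit 0))⟩,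
    ⟨nat_lit 1, nat_lit 16, nat_lit 17, (.ofNat (nat_lit 8)), (.ofNat (nat_lit 178831168)), (.ofNat (nat_lit 701667100058856069672698757120)), (.ofNat (nat_lit 27180928)), (.ofNat (nat_lit 72186008837497171984437903360)), (.ofNat (nat_lit 178831152)), (.ofNat (nat_lit 178831184)), (.ofNat (nat_lit 2510470585907829093120)), (.negSucc (nat_lit 2510486576431281550079)), (.negSucc (nat_lit 2510486576431281550079)), (.ofNat (nat_lit 2510470585907829093120)), (.ofNat (nat_lit 0))⟩,
    ⟨nat_lit 0, nat_lit 18, nat_lit 17, (.ofNat (nat_lit 8)), (.ofNat (nat_lit 141606720)), (.ofNat (nat_lit 795118577077920335307011112960)), (.ofNat (nat_lit 26656640)), (.ofNat (nat_lit 73502226823681175725766246400)), (.ofNat (nat_lit 141606704)), (.ofNat (nat_lit 141606736)), (.ofNat (nat_lit 2510486576431281550080)), (.negSucc (nat_lit 2510486576431281550079)), (.negSucc (nat_lit 2510486576431281550079)), (.ofNat (nat_lit 2510486576431281550080)), (.ofNat (nat_lit 0))⟩,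
    ⟨nat_lit 0, nat_lit 19, nat_lit 18, (.ofNat (nat_lit 8)), (.ofNat (nat_lit 16170816)), (.ofNat (nat_lit 480213423883397440194205040640)), (.ofNat (nat_lit 11321216)), (.ofNat (nat_lit 35002850727799066291912212480)), (.ofNat (nat_lit 16170800)), (.ofNat (nat_lit 16170832)), (.negSucc (nat_lit 2510486576431281550079)), (.ofNat (nat_lit 2510486576431281550080)), (.negSucc (nat_lit 2510486576431281550079)), (.ofNat (nat_lit 2510486576431281550080)), (.ofNat (nat_lit 0))⟩,
    ⟨nat_lit 2, nat_lit 19, nat_lit 20, (.ofNat (nat_lit 8)), (.negSucc (nat_lit 77545663)), (.ofNat (nat_lit 715487388913788108956646359040)), (.ofNat (nat_lit 10010496)), (.ofNat (nat_lit 38293395693259075645233070080)), (.negSucc (nat_lit 77545679)), (.negSucc (nat_lit 77545647)), (.negSucc (nat_lit 2510486576431281550079)), (.ofNat (nat_lit 2510486576431281550080)), (.negSucc (nat_lit 2510486576431281550079)), (.ofNat (nat_lit 2510486576431281550080)), (.ofNat (nat_lit 0))⟩,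
    ⟨nat_lit 0, nat_lit 20, nat_lit 21, (.ofNat (nat_lit 8)), (.ofNat (nat_lit 6078272)), (.ofNat (nat_lit 925424157710136705698517073920)), (.ofNat (nat_lit 20234112)), (.ofNat (nat_lit 63959646423847148601135759360)), (.ofNat (nat_lit 6078256)), (.ofNat (nat_lit 6078288)), (.ofNat (nat_lit 2510486576431281550080)), (.negSucc (nat_lit 2510486576431281550079)), (.negSucc (nat_lit 2510486576431281550079)), (.ofNat (nat_lit 2510486576431281550080)), (.ofNat (nat_lit 0))⟩,
    ⟨nat_lit 1, nat_lit 22, nat_lit 21, (.ofNat (nat_lit 8)), (.ofNat (nat_lit 155631424)), (.ofNat (nat_lit 549972977151149638484607221760)), (.ofNat (nat_lit 22331264)), (.ofNat (nat_lit 58694774479111133635822387200)), (.ofNat (nat_lit 155631408)), (.ofNat (nat_lit 155631440)), (.ofNat (nat_lit 2510486576431281550080)), (.negSucc (nat_lit 2510486576431281550079)), (.negSucc (nat_lit 2510486576431281550079)), (.ofNat (nat_lit 2510486576431281550080)), (.ofNat (nat_lit 0))⟩,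
    ⟨nat_lit 2, nat_lit 23, nat_lit 7, (.ofNat (nat_lit 8)), (.negSucc (nat_lit 121241663)), (.ofNat (nat_lit 512337690450982564710038323200)), (.ofNat (nat_lit 2883584)), (.ofNat (nat_lit 19085160799668054249260974080)), (.negSucc (nat_lit 121241679)), (.negSucc (nat_lit 121241647)), (.negSucc (nat_lit 2510459850164753583359)), (.ofNat (nat_lit 2510486576431281550080)), (.negSucc (nat_lit 2510459850164753583359)), (.ofNat (nat_lit 2510486576431281550080)), (.ofNat (nat_lit 0))⟩]
  es := [
    ⟨nat_lit 1, nat_lit 0, (.negSucc (nat_lit 201457663)), (.negSucc (nat_lit 33292287)), (.negSucc (nat_lit 201457647)), (.negSucc (nat_lit 33292303)), (.negSucc (nat_lit 2510486576431281550079)), (.ofNat (nat_lit 0)), (.ofNat (nat_lit 0))⟩,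
    ⟨nat_lit 1, nat_lit 2, (.negSucc (nat_lit 201457663)), (.negSucc (nat_lit 75251903)), (.negSucc (nat_lit 201457647)), (.negSucc (nat_lit 75251919)), (.ofNat (nat_lit 2510486576431281550080)), (.ofNat (nat_lit 0)), (.ofNat (nat_lit 14478397848024041154611773440))⟩,
    ⟨nat_lit 2, nat_lit 3, (.negSucc (nat_lit 75251903)), (.ofNat (nat_lit 18464576)), (.negSucc (nat_lit 75251887)), (.ofNat (nat_lit 18464560)), (.negSucc (nat_lit 2510486576431281550079)), (.ofNat (nat_lit 0)), (.ofNat (nat_lit 76257736889972150355134054400))⟩,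
    ⟨nat_lit 3, nat_lit 4, (.ofNat (nat_lit 18464576)), (.ofNat (nat_lit 164806464)), (.ofNat (nat_lit 18464592)), (.ofNat (nat_lit 164806448)), (.ofNat (nat_lit 2510486576431281550080)), (.ofNat (nat_lit 0)), (.ofNat (nat_lit 7897307917104022447970058240))⟩,
    ⟨nat_lit 5, nat_lit 4, (.ofNat (nat_lit 52477760)), (.ofNat (nat_lit 164806464)), (.ofNat (nat_lit 52477776)), (.ofNat (nat_lit 164806448)), (.negSucc (nat_lit 2510486576431281550079)), (.ofNat (nat_lit 0)), (.ofNat (nat_lit 166089614447030405700793466880))⟩,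
    ⟨nat_lit 6, nat_lit 5, (.negSucc (nat_lit 154845375)), (.ofNat (nat_lit 52477760)), (.negSucc (nat_lit 154845359)), (.ofNat (nat_lit 52477744)), (.ofNat (nat_lit 2510486576431281550080)), (.ofNat (nat_lit 0)), (.ofNat (nat_lit 15794615834208044895940116480))⟩,
    ⟨nat_lit 6, nat_lit 15, (.negSucc (nat_lit 154845375)), (.negSucc (nat_lit 79085759)), (.negSucc (nat_lit 154845359)), (.negSucc (nat_lit 79085775)), (.negSucc (nat_lit 2510486576431281550079)), (.ofNat (nat_lit 0)), (.ofNat (nat_lit 39897215021639047000938577920))⟩,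
    ⟨nat_lit 23, nat_lit 7, (.negSucc (nat_lit 121241663)), (.ofNat (nat_lit 3784512)), (.negSucc (nat_lit 121241647)), (.ofNat (nat_lit 3784496)), (.ofNat (nat_lit 2510486576431281550080)), (.ofNat (nat_lit 0)), (.ofNat (nat_lit 11845961875656033671955087360))⟩,
    ⟨nat_lit 7, nat_lit 8, (.ofNat (nat_lit 3784512)), (.ofNat (nat_lit 153337664)), (.ofNat (nat_lit 3784528)), (.ofNat (nat_lit 153337648)), (.negSucc (nat_lit 2510486576431281550079)), (.ofNat (nat_lit 0)), (.ofNat (nat_lit 101923987620560223311036743680))⟩,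
    ⟨nat_lit 8, nat_lit 9, (.ofNat (nat_lit 153337664)), (.ofNat (nat_lit 236961600)), (.ofNat (nat_lit 153337680)), (.ofNat (nat_lit 236961584)), (.ofNat (nat_lit 2510486576431281550080)), (.ofNat (nat_lit 0)), (.ofNat (nat_lit 1316217986184003741328343040))⟩,
    ⟨nat_lit 10, nat_lit 9, (.ofNat (nat_lit 181124928)), (.ofNat (nat_lit 236961600)), (.ofNat (nat_lit 181124944)), (.ofNat (nat_lit 236961584)), (.negSucc (nat_lit 2510486576431281550079)), (.ofNat (nat_lit 0)), (.ofNat (nat_lit 153256489081736369222842122240))⟩,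
    ⟨nat_lit 11, nat_lit 10, (.ofNat (nat_lit 139312960)), (.ofNat (nat_lit 181124928)), (.ofNat (nat_lit 139312976)), (.ofNat (nat_lit 181124912)), (.ofNat (nat_lit 2510486576431281550080)), (.ofNat (nat_lit 0)), (.ofNat (nat_lit 5264871944736014965313372160))⟩,
    ⟨nat_lit 11, nat_lit 12, (.ofNat (nat_lit 139312960)), (.ofNat (nat_lit 213761856)), (.ofNat (nat_lit 139312976)), (.ofNat (nat_lit 213761840)), (.negSucc (nat_lit 2510486576431281550079)), (.ofNat (nat_lit 0)), (.ofNat (nat_lit 127590238351148296266939432960))⟩,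
    ⟨nat_lit 13, nat_lit 12, (.ofNat (nat_lit 151043904)), (.ofNat (nat_lit 213761856)), (.ofNat (nat_lit 151043920)), (.ofNat (nat_lit 213761840)), (.ofNat (nat_lit 2510486576431281550080)), (.ofNat (nat_lit 0)), (.ofNat (nat_lit 0))⟩,
    ⟨nat_lit 14, nat_lit 13, (.ofNat (nat_lit 2801472)), (.ofNat (nat_lit 151043904)), (.ofNat (nat_lit 2801488)), (.ofNat (nat_lit 151043888)), (.negSucc (nat_lit 2510486576431281550079)), (.ofNat (nat_lit 0)), (.ofNat (nat_lit 89090862255266186833085399040))⟩,
    ⟨nat_lit 15, nat_lit 14, (.negSucc (nat_lit 79085759)), (.ofNat (nat_lit 2801472)), (.negSucc (nat_lit 79085743)), (.ofNat (nat_lit 2801456)), (.ofNat (nat_lit 2510486576431281550080)), (.ofNat (nat_lit 0)), (.ofNat (nat_lit 10529743889472029930626744320))⟩,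
    ⟨nat_lit 16, nat_lit 17, (.negSucc (nat_lit 8912959)), (.ofNat (nat_lit 178831168)), (.negSucc (nat_lit 8912943)), (.ofNat (nat_lit 178831152)), (.ofNat (nat_lit 2510470585907829093120)), (.ofNat (nat_lit 0)), (.ofNat (nat_lit 3949088595818654768037888000))⟩,
    ⟨nat_lit 18, nat_lit 17, (.ofNat (nat_lit 141606720)), (.ofNat (nat_lit 178831168)), (.ofNat (nat_lit 141606736)), (.ofNat (nat_lit 178831152)), (.negSucc (nat_lit 2510486576431281550079)), (.ofNat (nat_lit 0)), (.ofNat (nat_lit 140423363716442332744890777600))⟩,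
    ⟨nat_lit 19, nat_lit 18, (.ofNat (nat_lit 16170816)), (.ofNat (nat_lit 141606720)), (.ofNat (nat_lit 16170832)), (.ofNat (nat_lit 141606704)), (.ofNat (nat_lit 2510486576431281550080)), (.ofNat (nat_lit 0)), (.ofNat (nat_lit 6581089930920018706641715200))⟩,
    ⟨nat_lit 20, nat_lit 19, (.negSucc (nat_lit 77545663)), (.ofNat (nat_lit 16170816)), (.negSucc (nat_lit 77545647)), (.ofNat (nat_lit 16170800)), (.negSucc (nat_lit 2510486576431281550079)), (.ofNat (nat_lit 0)), (.ofNat (nat_lit 63424611524678113877182709760))⟩,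
    ⟨nat_lit 20, nat_lit 21, (.negSucc (nat_lit 77545663)), (.ofNat (nat_lit 6078272)), (.negSucc (nat_lit 77545647)), (.ofNat (nat_lit 6078256)), (.ofNat (nat_lit 2510486576431281550080)), (.ofNat (nat_lit 0)), (.ofNat (nat_lit 13162179861840037413283430400))⟩,
    ⟨nat_lit 21, nat_lit 22, (.ofNat (nat_lit 6078272)), (.ofNat (nat_lit 155631424)), (.ofNat (nat_lit 6078288)), (.ofNat (nat_lit 155631408)), (.negSucc (nat_lit 2510486576431281550079)), (.ofNat (nat_lit 0)), (.ofNat (nat_lit 114757112985854259788988088320))⟩,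
    ⟨nat_lit 0, nat_lit 22, (.negSucc (nat_lit 33292287)), (.ofNat (nat_lit 155631424)), (.negSucc (nat_lit 33292271)), (.ofNat (nat_lit 155631408)), (.ofNat (nat_lit 2510486576431281550080)), (.ofNat (nat_lit 0)), (.ofNat (nat_lit 2632435972368007482656686080))⟩,
    ⟨nat_lit 23, nat_lit 16, (.negSucc (nat_lit 121241663)), (.negSucc (nat_lit 8912959)), (.negSucc (nat_lit 121241647)), (.negSucc (nat_lit 8912975)), (.negSucc (nat_lit 2510459850164753583359)), (.ofNat (nat_lit 0)), (.ofNat (nat_lit 26324282656245535046180536320))⟩]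

theorem ok20 : stOK 23 23 S20 = true := by decide +kernel

def S21 : SD where
  vs := [
    ⟨nat_lit 0, nat_lit 0, nat_lit 22, (.ofNat (nat_lit 8)), (.negSucc (nat_lit 33292287)), (.ofNat (nat_lit 76865073802542405987729408000)), (.ofNat (nat_lit 0)), (.ofNat (nat_lit 1182539596962190861349683200)), (.negSucc (nat_lit 33292303)), (.negSucc (nat_lit 33292271)), (.negSucc (nat_lit 2549712929188020324299)), (.ofNat (nat_lit 2549712929188020324300)), (.negSucc (nat_lit 2549712929188020324299)), (.ofNat (nat_lit 2549712929188020324300)), (.ofNat (nat_lit 235358116540432645320))⟩,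
    ⟨nat_lit 2, nat_lit 0, nat_lit 1, (.ofNat (nat_lit 8)), (.negSucc (nat_lit 201457663)), (.ofNat (nat_lit 505638507231507218519280844800)), (.ofNat (nat_lit 0)), (.ofNat (nat_lit 7779053957407803361835089920)), (.negSucc (nat_lit 201457679)), (.negSucc (nat_lit 201457647)), (.negSucc (nat_lit 2549712929188020324299)), (.ofNat (nat_lit 2549712929188020324300)), (.negSucc (nat_lit 2549712929188020324299)), (.ofNat (nat_lit 2549712929188020324300)), (.ofNat (nat_lit 235358116540432645320))⟩,
    ⟨nat_lit 0, nat_lit 1, nat_lit 2, (.ofNat (nat_lit 8)), (.negSucc (nat_lit 75251903)), (.ofNat (nat_lit 827426965241507506443008812800)), (.ofNat (nat_lit 0)), (.ofNat (nat_lit 12729645619100115483738597120)), (.negSucc (nat_lit 75251919)), (.negSucc (nat_lit 75251887)), (.ofNat (nat_lit 2549712929188020324300)), (.negSucc (nat_lit 2549712929188020324299)), (.negSucc (nat_lit 2549712929188020324299)), (.ofNat (nat_lit 2549712929188020324300)), (.ofNat (nat_lit 235358116540432645320))⟩,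
    ⟨nat_lit 0, nat_lit 2, nat_lit 3, (.ofNat (nat_lit 8)), (.ofNat (nat_lit 18464576)), (.ofNat (nat_lit 588476844507516983481154348800)), (.ofNat (nat_lit 0)), (.ofNat (nat_lit 9053489915500261284325451520)), (.ofNat (nat_lit 18464560)), (.ofNat (nat_lit 18464592)), (.negSucc (nat_lit 2549712929188020324299)), (.ofNat (nat_lit 2549712929188020324300)), (.negSucc (nat_lit 2549712929188020324299)), (.ofNat (nat_lit 2549712929188020324300)), (.ofNat (nat_lit 235358116540432645320))⟩,
    ⟨nat_lit 1, nat_lit 3, nat_lit 4, (.ofNat (nat_lit 8)), (.ofNat (nat_lit 164806464)), (.ofNat (nat_lit 961606648422902184721588627200)), (.ofNat (nat_lit 0)), (.ofNat (nat_lit 14793948437275418226485978880)), (.ofNat (nat_lit 164806448)), (.ofNat (nat_lit 164806480)), (.ofNat (nat_lit 2549712929188020324300)), (.negSucc (nat_lit 2549712929188020324299)), (.negSucc (nat_lit 2549712929188020324299)), (.ofNat (nat_lit 2549712929188020324300)), (.ofNat (nat_lit 235358116540432645320))⟩,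
    ⟨nat_lit 0, nat_lit 5, nat_lit 4, (.ofNat (nat_lit 8)), (.ofNat (nat_lit 52477760)), (.ofNat (nat_lit 1248012597330636280075867334400)), (.ofNat (nat_lit 0)), (.ofNat (nat_lit 19200193805086712001167189760)), (.ofNat (nat_lit 52477744)), (.ofNat (nat_lit 52477776)), (.ofNat (nat_lit 2549712929188020324300)), (.negSucc (nat_lit 2549712929188020324299)), (.negSucc (nat_lit 2549712929188020324299)), (.ofNat (nat_lit 2549712929188020324300)), (.ofNat (nat_lit 235358116540432645320))⟩,
    ⟨nat_lit 2, nat_lit 6, nat_lit 5, (.ofNat (nat_lit 8)), (.negSucc (nat_lit 154845375)), (.ofNat (nat_lit 719398116951629972810254329600)), (.ofNat (nat_lit 0)), (.ofNat (nat_lit 11067663337717384197080835840)), (.negSucc (nat_lit 154845391)), (.negSucc (nat_lit 154845359)), (.negSucc (nat_lit 2549712929188020324299)), (.ofNat (nat_lit 2549712929188020324300)), (.negSucc (nat_lit 2549712929188020324299)), (.ofNat (nat_lit 2549712929188020324300)), (.ofNat (nat_lit 235358116540432645320))⟩,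
    ⟨nat_lit 0, nat_lit 7, nat_lit 8, (.ofNat (nat_lit 8)), (.ofNat (nat_lit 3784512)), (.ofNat (nat_lit 839123824298416133441141548800)), (.ofNat (nat_lit 0)), (.ofNat (nat_lit 12909597296898709745248331520)), (.ofNat (nat_lit 3784496)), (.ofNat (nat_lit 3784528)), (.ofNat (nat_lit 2549712929188020324300)), (.negSucc (nat_lit 2549712929188020324299)), (.negSucc (nat_lit 2549712929188020324299)), (.ofNat (nat_lit 2549712929188020324300)), (.ofNat (nat_lit 235358116540432645320))⟩,
    ⟨nat_lit 0, nat_lit 8, nat_lit 9, (.ofNat (nat_lit 8)), (.ofNat (nat_lit 153337664)), (.ofNat (nat_lit 457806219043194893302014355200)), (.ofNat (nat_lit 0)), (.ofNat (nat_lit 7043172600664536820030990080)), (.ofNat (nat_lit 153337648)), (.ofNat (nat_lit 153337680)), (.negSucc (nat_lit 2549712929188020324299)), (.ofNat (nat_lit 2549712929188020324300)), (.negSucc (nat_lit 2549712929188020324299)), (.ofNat (nat_lit 2549712929188020324300)), (.ofNat (nat_lit 235358116540432645320))⟩,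
    ⟨nat_lit 1, nat_lit 9, nat_lit 10, (.ofNat (nat_lit 8)), (.ofNat (nat_lit 236961600)), (.ofNat (nat_lit 671023249851986436867976800000)), (.ofNat (nat_lit 0)), (.ofNat (nat_lit 10323434613107483644122720000)), (.ofNat (nat_lit 236961584)), (.ofNat (nat_lit 236961616)), (.ofNat (nat_lit 2549712929188020324300)), (.negSucc (nat_lit 2549712929188020324299)), (.negSucc (nat_lit 2549712929188020324299)), (.ofNat (nat_lit 2549712929188020324300)), (.ofNat (nat_lit 235358116540432645320))⟩,
    ⟨nat_lit 0, nat_lit 11, nat_lit 10, (.ofNat (nat_lit 8)), (.ofNat (nat_lit 181124928)), (.ofNat (nat_lit 813390734373217154045249529600)), (.ofNat (nat_lit 0)), (.ofNat (nat_lit 12513703605741802369926915840)), (.ofNat (nat_lit 181124912)), (.ofNat (nat_lit 181124944)), (.ofNat (nat_lit 2549712929188020324300)), (.negSucc (nat_lit 2549712929188020324299)), (.negSucc (nat_lit 2549712929188020324299)), (.ofNat (nat_lit 2549712929188020324300)), (.ofNat (nat_lit 235358116540432645320))⟩,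
    ⟨nat_lit 2, nat_lit 12, nat_lit 11, (.ofNat (nat_lit 8)), (.ofNat (nat_lit 139312960)), (.ofNat (nat_lit 706782218968821382262268307200)), (.ofNat (nat_lit 0)), (.ofNat (nat_lit 10873572599520328957881050880)), (.ofNat (nat_lit 139312944)), (.ofNat (nat_lit 139312976)), (.negSucc (nat_lit 2549712929188020324299)), (.ofNat (nat_lit 2549712929188020324300)), (.negSucc (nat_lit 2549712929188020324299)), (.ofNat (nat_lit 2549712929188020324300)), (.ofNat (nat_lit 235358116540432645320))⟩,
    ⟨nat_lit 1, nat_lit 13, nat_lit 12, (.ofNat (nat_lit 8)), (.ofNat (nat_lit 213761856)), (.ofNat (nat_lit 516958906273847092692571334400)), (.ofNat (nat_lit 0)), (.ofNat (nat_lit 7953213942674570656808789760)), (.ofNat (nat_lit 213761840)), (.ofNat (nat_lit 213761872)), (.ofNat (nat_lit 2549712929188020324300)), (.negSucc (nat_lit 2549712929188020324299)), (.negSucc (nat_lit 2549712929188020324299)), (.ofNat (nat_lit 2549712929188020324300)), (.ofNat (nat_lit 235358116540432645320))⟩,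
    ⟨nat_lit 0, nat_lit 14, nat_lit 13, (.ofNat (nat_lit 8)), (.ofNat (nat_lit 151043904)), (.ofNat (nat_lit 357046133167253435018099500800)), (.ofNat (nat_lit 0)), (.ofNat (nat_lit 5493017433342360538739992320)), (.ofNat (nat_lit 151043888)), (.ofNat (nat_lit 151043920)), (.negSucc (nat_lit 2549712929188020324299)), (.ofNat (nat_lit 2549712929188020324300)), (.negSucc (nat_lit 2549712929188020324299)), (.ofNat (nat_lit 2549712929188020324300)), (.ofNat (nat_lit 235358116540432645320))⟩,
    ⟨nat_lit 0, nat_lit 15, nat_lit 14, (.ofNat (nat_lit 8)), (.ofNat (nat_lit 2801472)), (.ofNat (nat_lit 735021778691929353157760198400)), (.ofNat (nat_lit 0)), (.ofNat (nat_lit 11308027364491220817811695360)), (.ofNat (nat_lit 2801456)), (.ofNat (nat_lit 2801488)), (.ofNat (nat_lit 2549712929188020324300)), (.negSucc (nat_lit 2549712929188020324299)), (.negSucc (nat_lit 2549712929188020324299)), (.ofNat (nat_lit 2549712929188020324300)), (.ofNat (nat_lit 235358116540432645320))⟩,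
    ⟨nat_lit 0, nat_lit 6, nat_lit 15, (.ofNat (nat_lit 8)), (.negSucc (nat_lit 79085759)), (.ofNat (nat_lit 526232844526110361241090860800)), (.ofNat (nat_lit 0)), (.ofNat (nat_lit 8095889915786313249862936320)), (.negSucc (nat_lit 79085775)), (.negSucc (nat_lit 79085743)), (.negSucc (nat_lit 2549712929188020324299)), (.ofNat (nat_lit 2549712929188020324300)), (.negSucc (nat_lit 2549712929188020324299)), (.ofNat (nat_lit 2549712929188020324300)), (.ofNat (nat_lit 235358116540432645320))⟩,
    ⟨nat_lit 0, nat_lit 23, nat_lit 16, (.ofNat (nat_lit 8)), (.negSucc (nat_lit 8912959)), (.ofNat (nat_lit 233937017956545071929353964800)), (.ofNat (nat_lit 0)), (.ofNat (nat_lit 3596028918603463717500407040)), (.negSucc (nat_lit 8912975)), (.negSucc (nat_lit 8912943)), (.negSucc (nat_lit 2549712929188020324299)), (.ofNat (nat_lit 2549712929188020324300)), (.negSucc (nat_lit 2549712929188020324299)), (.ofNat (nat_lit 2549712929188020324300)), (.ofNat (nat_lit 235497002653449426120))⟩,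
    ⟨nat_lit 1, nat_lit 16, nat_lit 17, (.ofNat (nat_lit 8)), (.ofNat (nat_lit 178831168)), (.ofNat (nat_lit 712630648497275695761334675200)), (.ofNat (nat_lit 0)), (.ofNat (nat_lit 10963548438419626088635918080)), (.ofNat (nat_lit 178831152)), (.ofNat (nat_lit 178831184)), (.ofNat (nat_lit 2549712929188020324300)), (.negSucc (nat_lit 2549712929188020324299)), (.negSucc (nat_lit 2549712929188020324299)), (.ofNat (nat_lit 2549712929188020324300)), (.ofNat (nat_lit 235422078634242473160))⟩,
    ⟨nat_lit 0, nat_lit 18, nat_lit 17, (.ofNat (nat_lit 8)), (.ofNat (nat_lit 141606720)), (.ofNat (nat_lit 807542304844762840546183161600)), (.ofNat (nat_lit 0)), (.ofNat (nat_lit 12423727766842505239172048640)), (.ofNat (nat_lit 141606704)), (.ofNat (nat_lit 141606736)), (.ofNat (nat_lit 2549712929188020324300)), (.negSucc (nat_lit 2549712929188020324299)), (.negSucc (nat_lit 2549712929188020324299)), (.ofNat (nat_lit 2549712929188020324300)), (.ofNat (nat_lit 235358116540432645320))⟩,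
    ⟨nat_lit 0, nat_lit 19, nat_lit 18, (.ofNat (nat_lit 8)), (.ofNat (nat_lit 16170816)), (.ofNat (nat_lit 487716758631575525197239494400)), (.ofNat (nat_lit 0)), (.ofNat (nat_lit 7503334748178085003034453760)), (.ofNat (nat_lit 16170800)), (.ofNat (nat_lit 16170832)), (.negSucc (nat_lit 2549712929188020324299)), (.ofNat (nat_lit 2549712929188020324300)), (.negSucc (nat_lit 2549712929188020324299)), (.ofNat (nat_lit 2549712929188020324300)), (.ofNat (nat_lit 235358116540432645320))⟩,
    ⟨nat_lit 2, nat_lit 19, nat_lit 20, (.ofNat (nat_lit 8)), (.negSucc (nat_lit 77545663)), (.ofNat (nat_lit 726666879365566048159093958400)), (.ofNat (nat_lit 0)), (.ofNat (nat_lit 11179490451777939202447599360)), (.negSucc (nat_lit 77545679)), (.negSucc (nat_lit 77545647)), (.negSucc (nat_lit 2549712929188020324299)), (.ofNat (nat_lit 2549712929188020324300)), (.negSucc (nat_lit 2549712929188020324299)), (.ofNat (nat_lit 2549712929188020324300)), (.ofNat (nat_lit 235358116540432645320))⟩,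
    ⟨nat_lit 0, nat_lit 20, nat_lit 21, (.ofNat (nat_lit 8)), (.ofNat (nat_lit 6078272)), (.ofNat (nat_lit 939883910174357591725056403200)), (.ofNat (nat_lit 0)), (.ofNat (nat_lit 14459752464220886026539329280)), (.ofNat (nat_lit 6078256)), (.ofNat (nat_lit 6078288)), (.ofNat (nat_lit 2549712929188020324300)), (.negSucc (nat_lit 2549712929188020324299)), (.negSucc (nat_lit 2549712929188020324299)), (.ofNat (nat_lit 2549712929188020324300)), (.ofNat (nat_lit 235358116540432645320))⟩,
    ⟨nat_lit 1, nat_lit 22, nat_lit 21, (.ofNat (nat_lit 8)), (.ofNat (nat_lit 155631424)), (.ofNat (nat_lit 558566304919136351585929209600)), (.ofNat (nat_lit 0)), (.ofNat (nat_lit 8593327767986713101321987840)), (.ofNat (nat_lit 155631408)), (.ofNat (nat_lit 155631440)), (.ofNat (nat_lit 2549712929188020324300)), (.negSucc (nat_lit 2549712929188020324299)), (.negSucc (nat_lit 2549712929188020324299)), (.ofNat (nat_lit 2549712929188020324300)), (.ofNat (nat_lit 235358116540432645320))⟩,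
    ⟨nat_lit 2, nat_lit 23, nat_lit 7, (.ofNat (nat_lit 8)), (.negSucc (nat_lit 121241663)), (.ofNat (nat_lit 520342966864279167283632672000)), (.ofNat (nat_lit 0)), (.ofNat (nat_lit 8005276413296602573594348800)), (.negSucc (nat_lit 121241679)), (.negSucc (nat_lit 121241647)), (.negSucc (nat_lit 2549712929188020324299)), (.ofNat (nat_lit 2549712929188020324300)), (.negSucc (nat_lit 2549712929188020324299)), (.ofNat (nat_lit 2549712929188020324300)), (.ofNat (nat_lit 235465021606544512200))⟩]
  es := [
    ⟨nat_lit 1, nat_lit 0, (.negSucc (nat_lit 201457663)), (.negSucc (nat_lit 33292287)), (.negSucc (nat_lit 201457647)), (.negSucc (nat_lit 33292303)), (.negSucc (nat_lit 2549712929188020324299)), (.negSucc (nat_lit 39226352756738774219)), (.negSucc (nat_lit 123395436204750350749532159))⟩,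
    ⟨nat_lit 1, nat_lit 2, (.negSucc (nat_lit 201457663)), (.negSucc (nat_lit 75251903)), (.negSucc (nat_lit 201457647)), (.negSucc (nat_lit 75251919)), (.ofNat (nat_lit 2549712929188020324300)), (.ofNat (nat_lit 39226352756738774220)), (.ofNat (nat_lit 15681503351020357074419712000))⟩,
    ⟨nat_lit 2, nat_lit 3, (.negSucc (nat_lit 75251903)), (.ofNat (nat_lit 18464576)), (.negSucc (nat_lit 75251887)), (.ofNat (nat_lit 18464560)), (.negSucc (nat_lit 2549712929188020324299)), (.negSucc (nat_lit 39226352756738774219)), (.ofNat (nat_lit 9777787887179873893057482240))⟩,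
    ⟨nat_lit 3, nat_lit 4, (.ofNat (nat_lit 18464576)), (.ofNat (nat_lit 164806464)), (.ofNat (nat_lit 18464592)), (.ofNat (nat_lit 164806448)), (.ofNat (nat_lit 2549712929188020324300)), (.ofNat (nat_lit 39226352756738774220)), (.ofNat (nat_lit 8329191943820648675593420800))⟩,
    ⟨nat_lit 5, nat_lit 4, (.ofNat (nat_lit 52477760)), (.ofNat (nat_lit 164806464)), (.ofNat (nat_lit 52477776)), (.ofNat (nat_lit 164806448)), (.negSucc (nat_lit 2549712929188020324299)), (.negSucc (nat_lit 39226352756738774219)), (.ofNat (nat_lit 21258704930730187777378536960))⟩,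
    ⟨nat_lit 6, nat_lit 5, (.negSucc (nat_lit 154845375)), (.ofNat (nat_lit 52477760)), (.negSucc (nat_lit 154845359)), (.ofNat (nat_lit 52477744)), (.ofNat (nat_lit 2549712929188020324300)), (.ofNat (nat_lit 39226352756738774220)), (.ofNat (nat_lit 17141682679443236224955842560))⟩,
    ⟨nat_lit 6, nat_lit 15, (.negSucc (nat_lit 154845375)), (.negSucc (nat_lit 79085759)), (.negSucc (nat_lit 154845359)), (.negSucc (nat_lit 79085775)), (.negSucc (nat_lit 2549712929188020324299)), (.negSucc (nat_lit 39226352756738774219)), (.ofNat (nat_lit 4993643995991532169205829120))⟩,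
    ⟨nat_lit 23, nat_lit 7, (.negSucc (nat_lit 121241663)), (.ofNat (nat_lit 3784512)), (.negSucc (nat_lit 121241647)), (.ofNat (nat_lit 3784496)), (.ofNat (nat_lit 2549712929188020324300)), (.ofNat (nat_lit 39226352756738774220)), (.ofNat (nat_lit 12761144694174598773347450880))⟩,
    ⟨nat_lit 7, nat_lit 8, (.ofNat (nat_lit 3784512)), (.ofNat (nat_lit 153337664)), (.ofNat (nat_lit 3784528)), (.ofNat (nat_lit 153337648)), (.negSucc (nat_lit 2549712929188020324299)), (.negSucc (nat_lit 39226352756738774219)), (.ofNat (nat_lit 13058049899622820717149212160))⟩,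
    ⟨nat_lit 8, nat_lit 9, (.ofNat (nat_lit 153337664)), (.ofNat (nat_lit 236961600)), (.ofNat (nat_lit 153337680)), (.ofNat (nat_lit 236961584)), (.ofNat (nat_lit 2549712929188020324300)), (.ofNat (nat_lit 39226352756738774220)), (.ofNat (nat_lit 1028295301706252922912768000))⟩,
    ⟨nat_lit 10, nat_lit 9, (.ofNat (nat_lit 181124928)), (.ofNat (nat_lit 236961600)), (.ofNat (nat_lit 181124944)), (.ofNat (nat_lit 236961584)), (.negSucc (nat_lit 2549712929188020324299)), (.negSucc (nat_lit 39226352756738774219)), (.ofNat (nat_lit 19618573924508714365332672000))⟩,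
    ⟨nat_lit 11, nat_lit 10, (.ofNat (nat_lit 139312960)), (.ofNat (nat_lit 181124928)), (.ofNat (nat_lit 139312976)), (.ofNat (nat_lit 181124912)), (.ofNat (nat_lit 2549712929188020324300)), (.ofNat (nat_lit 39226352756738774220)), (.ofNat (nat_lit 5408833286974890374521159680))⟩,
    ⟨nat_lit 11, nat_lit 12, (.ofNat (nat_lit 139312960)), (.ofNat (nat_lit 213761856)), (.ofNat (nat_lit 139312976)), (.ofNat (nat_lit 213761840)), (.negSucc (nat_lit 2549712929188020324299)), (.negSucc (nat_lit 39226352756738774219)), (.ofNat (nat_lit 16338311912065767541240942080))⟩,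
    ⟨nat_lit 13, nat_lit 12, (.ofNat (nat_lit 151043904)), (.ofNat (nat_lit 213761856)), (.ofNat (nat_lit 151043920)), (.ofNat (nat_lit 213761840)), (.ofNat (nat_lit 2549712929188020324300)), (.ofNat (nat_lit 39226352756738774220)), (.negSucc (nat_lit 431884026716626227623362559))⟩,
    ⟨nat_lit 14, nat_lit 13, (.ofNat (nat_lit 2801472)), (.ofNat (nat_lit 151043904)), (.ofNat (nat_lit 2801488)), (.ofNat (nat_lit 151043888)), (.negSucc (nat_lit 2549712929188020324299)), (.negSucc (nat_lit 39226352756738774219)), (.ofNat (nat_lit 11417918893401347305103347200))⟩,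
    ⟨nat_lit 15, nat_lit 14, (.negSucc (nat_lit 79085759)), (.ofNat (nat_lit 2801472)), (.negSucc (nat_lit 79085743)), (.ofNat (nat_lit 2801456)), (.ofNat (nat_lit 2549712929188020324300)), (.ofNat (nat_lit 39226352756738774220)), (.ofNat (nat_lit 11198135835581094330520043520))⟩,
    ⟨nat_lit 16, nat_lit 17, (.negSucc (nat_lit 8912959)), (.ofNat (nat_lit 178831168)), (.negSucc (nat_lit 8912943)), (.ofNat (nat_lit 178831152)), (.ofNat (nat_lit 2549712929188020324300)), (.ofNat (nat_lit 39242343280191231180)), (.ofNat (nat_lit 3945794354566076953358499840))⟩,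
    ⟨nat_lit 18, nat_lit 17, (.ofNat (nat_lit 141606720)), (.ofNat (nat_lit 178831168)), (.ofNat (nat_lit 141606736)), (.ofNat (nat_lit 178831152)), (.negSucc (nat_lit 2549712929188020324299)), (.negSucc (nat_lit 39226352756738774219)), (.ofNat (nat_lit 17978442918287240953286807040))⟩,
    ⟨nat_lit 19, nat_lit 18, (.ofNat (nat_lit 16170816)), (.ofNat (nat_lit 141606720)), (.ofNat (nat_lit 16170832)), (.ofNat (nat_lit 141606704)), (.ofNat (nat_lit 2549712929188020324300)), (.ofNat (nat_lit 39226352756738774220)), (.ofNat (nat_lit 6869012615397769525057290240))⟩,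
    ⟨nat_lit 20, nat_lit 19, (.negSucc (nat_lit 77545663)), (.ofNat (nat_lit 16170816)), (.negSucc (nat_lit 77545647)), (.ofNat (nat_lit 16170800)), (.negSucc (nat_lit 2549712929188020324299)), (.negSucc (nat_lit 39226352756738774219)), (.ofNat (nat_lit 8137656880958400481011617280))⟩,
    ⟨nat_lit 20, nat_lit 21, (.negSucc (nat_lit 77545663)), (.ofNat (nat_lit 6078272)), (.negSucc (nat_lit 77545647)), (.ofNat (nat_lit 6078256)), (.ofNat (nat_lit 2549712929188020324300)), (.ofNat (nat_lit 39226352756738774220)), (.ofNat (nat_lit 14221324022597477923883581440))⟩,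
    ⟨nat_lit 21, nat_lit 22, (.ofNat (nat_lit 6078272)), (.ofNat (nat_lit 155631424)), (.ofNat (nat_lit 6078288)), (.ofNat (nat_lit 155631408)), (.negSucc (nat_lit 2549712929188020324299)), (.negSucc (nat_lit 39226352756738774219)), (.ofNat (nat_lit 14698180905844294129195077120))⟩,
    ⟨nat_lit 0, nat_lit 22, (.negSucc (nat_lit 33292287)), (.ofNat (nat_lit 155631424)), (.negSucc (nat_lit 33292271)), (.ofNat (nat_lit 155631408)), (.ofNat (nat_lit 2549712929188020324300)), (.ofNat (nat_lit 39226352756738774220)), (.ofNat (nat_lit 2488474630129132073448898560))⟩,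
    ⟨nat_lit 23, nat_lit 16, (.negSucc (nat_lit 121241663)), (.negSucc (nat_lit 8912959)), (.negSucc (nat_lit 121241647)), (.negSucc (nat_lit 8912975)), (.negSucc (nat_lit 2549712929188020324299)), (.negSucc (nat_lit 39253079023266740939)), (.ofNat (nat_lit 3246167795392248186171824640))⟩]

theorem ok21 : stOK 23 23 S21 = true := by decide +kernel

def S22 : SD where
  vs := [
    ⟨nat_lit 0, nat_lit 0, nat_lit 22, (.ofNat (nat_lit 8)), (.negSucc (nat_lit 33816575)), (.ofNat (nat_lit 78201857694760534787516006400)), (.negSucc (nat_lit 524287)), (.ofNat (nat_lit 1336783892218128799786598400)), (.negSucc (nat_lit 33816591)), (.negSucc (nat_lit 33816559)), (.negSucc (nat_lit 2549712929188020324299)), (.ofNat (nat_lit 2549712929188020324300)), (.negSucc (nat_lit 2549712929188020324299)), (.ofNat (nat_lit 2549712929188020324300)), (.ofNat (nat_lit 0))⟩,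
    ⟨nat_lit 2, nat_lit 0, nat_lit 1, (.ofNat (nat_lit 8)), (.negSucc (nat_lit 204079103)), (.ofNat (nat_lit 512322426692597862518213836800)), (.negSucc (nat_lit 2621439)), (.ofNat (nat_lit 6683919461090643998932992000)), (.negSucc (nat_lit 204079119)), (.negSucc (nat_lit 204079087)), (.negSucc (nat_lit 2549712929188020324299)), (.ofNat (nat_lit 2549712929188020324300)), (.negSucc (nat_lit 2549712929188020324299)), (.ofNat (nat_lit 2549712929188020324300)), (.ofNat (nat_lit 0))⟩,
    ⟨nat_lit 0, nat_lit 1, nat_lit 2, (.ofNat (nat_lit 8)), (.negSucc (nat_lit 76824767)), (.ofNat (nat_lit 836784452487034408041515001600)), (.negSucc (nat_lit 1572863)), (.ofNat (nat_lit 9357487245526901598506188800)), (.negSucc (nat_lit 76824783)), (.negSucc (nat_lit 76824751)), (.ofNat (nat_lit 2549712929188020324300)), (.negSucc (nat_lit 2549712929188020324299)), (.negSucc (nat_lit 2549712929188020324299)), (.ofNat (nat_lit 2549712929188020324300)), (.ofNat (nat_lit 0))⟩,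
    ⟨nat_lit 0, nat_lit 2, nat_lit 3, (.ofNat (nat_lit 8)), (.ofNat (nat_lit 17940288)), (.ofNat (nat_lit 595160763968607627480087340800)), (.negSucc (nat_lit 524287)), (.ofNat (nat_lit 6683919461090643998932992000)), (.ofNat (nat_lit 17940272)), (.ofNat (nat_lit 17940304)), (.negSucc (nat_lit 2549712929188020324299)), (.ofNat (nat_lit 2549712929188020324300)), (.negSucc (nat_lit 2549712929188020324299)), (.ofNat (nat_lit 2549712929188020324300)), (.ofNat (nat_lit 0))⟩,
    ⟨nat_lit 1, nat_lit 3, nat_lit 4, (.ofNat (nat_lit 8)), (.ofNat (nat_lit 169066304)), (.ofNat (nat_lit 980488720900483254018574329600)), (.ofNat (nat_lit 4259840)), (.ofNat (nat_lit 18882072477581069296985702400)), (.ofNat (nat_lit 169066288)), (.ofNat (nat_lit 169066320)), (.ofNat (nat_lit 2549712929188020324300)), (.negSucc (nat_lit 2549712929188020324299)), (.negSucc (nat_lit 2549712929188020324299)), (.ofNat (nat_lit 2549712929188020324300)), (.ofNat (nat_lit 0))⟩,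
    ⟨nat_lit 0, nat_lit 5, nat_lit 4, (.ofNat (nat_lit 8)), (.ofNat (nat_lit 55426880)), (.ofNat (nat_lit 1270236629538762671372319532800)), (.ofNat (nat_lit 2949120)), (.ofNat (nat_lit 22224032208126391296452198400)), (.ofNat (nat_lit 55426864)), (.ofNat (nat_lit 55426896)), (.ofNat (nat_lit 2549712929188020324300)), (.negSucc (nat_lit 2549712929188020324299)), (.negSucc (nat_lit 2549712929188020324299)), (.ofNat (nat_lit 2549712929188020324300)), (.ofNat (nat_lit 0))⟩,
    ⟨nat_lit 2, nat_lit 6, nat_lit 5, (.ofNat (nat_lit 8)), (.negSucc (nat_lit 157204671)), (.ofNat (nat_lit 728087212251047810008867219200)), (.negSucc (nat_lit 2359295)), (.ofNat (nat_lit 8689095299417837198612889600)), (.negSucc (nat_lit 157204687)), (.negSucc (nat_lit 157204655)), (.negSucc (nat_lit 2549712929188020324299)), (.ofNat (nat_lit 2549712929188020324300)), (.negSucc (nat_lit 2549712929188020324299)), (.ofNat (nat_lit 2549712929188020324300)), (.ofNat (nat_lit 0))⟩,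
    ⟨nat_lit 0, nat_lit 7, nat_lit 8, (.ofNat (nat_lit 8)), (.ofNat (nat_lit 6209344)), (.ofNat (nat_lit 856000720937670009538447353600)), (.ofNat (nat_lit 2424832)), (.ofNat (nat_lit 16876896639253876097305804800)), (.ofNat (nat_lit 6209328)), (.ofNat (nat_lit 6209360)), (.ofNat (nat_lit 2549712929188020324300)), (.negSucc (nat_lit 2549712929188020324299)), (.negSucc (nat_lit 2549712929188020324299)), (.ofNat (nat_lit 2549712929188020324300)), (.ofNat (nat_lit 0))⟩,
    ⟨nat_lit 0, nat_lit 8, nat_lit 9, (.ofNat (nat_lit 8)), (.ofNat (nat_lit 157597504)), (.ofNat (nat_lit 470004372059685318600067065600)), (.ofNat (nat_lit 4259840)), (.ofNat (nat_lit 12198153016490425298052710400)), (.ofNat (nat_lit 157597488)), (.ofNat (nat_lit 157597520)), (.negSucc (nat_lit 2549712929188020324299)), (.ofNat (nat_lit 2549712929188020324300)), (.negSucc (nat_lit 2549712929188020324299)), (.ofNat (nat_lit 2549712929188020324300)), (.ofNat (nat_lit 0))⟩,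
    ⟨nat_lit 1, nat_lit 9, nat_lit 10, (.ofNat (nat_lit 8)), (.ofNat (nat_lit 242270016)), (.ofNat (nat_lit 685894970652913119765602707200)), (.ofNat (nat_lit 5308416)), (.ofNat (nat_lit 14871720800926682897625907200)), (.ofNat (nat_lit 242270000)), (.ofNat (nat_lit 242270032)), (.ofNat (nat_lit 2549712929188020324300)), (.negSucc (nat_lit 2549712929188020324299)), (.negSucc (nat_lit 2549712929188020324299)), (.ofNat (nat_lit 2549712929188020324300)), (.ofNat (nat_lit 0))⟩,
    ⟨nat_lit 0, nat_lit 11, nat_lit 10, (.ofNat (nat_lit 8)), (.ofNat (nat_lit 185646912)), (.ofNat (nat_lit 830267631012471030142555334400)), (.ofNat (nat_lit 4521984)), (.ofNat (nat_lit 16876896639253876097305804800)), (.ofNat (nat_lit 185646896)), (.ofNat (nat_lit 185646928)), (.ofNat (nat_lit 2549712929188020324300)), (.negSucc (nat_lit 2549712929188020324299)), (.negSucc (nat_lit 2549712929188020324299)), (.ofNat (nat_lit 2549712929188020324300)), (.ofNat (nat_lit 0))⟩,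
    ⟨nat_lit 2, nat_lit 12, nat_lit 11, (.ofNat (nat_lit 8)), (.ofNat (nat_lit 143310656)), (.ofNat (nat_lit 722322331715857129559787513600)), (.ofNat (nat_lit 3997696)), (.ofNat (nat_lit 15540112747035747297519206400)), (.ofNat (nat_lit 143310640)), (.ofNat (nat_lit 143310672)), (.negSucc (nat_lit 2549712929188020324299)), (.ofNat (nat_lit 2549712929188020324300)), (.negSucc (nat_lit 2549712929188020324299)), (.ofNat (nat_lit 2549712929188020324300)), (.ofNat (nat_lit 0))⟩,
    ⟨nat_lit 1, nat_lit 13, nat_lit 12, (.ofNat (nat_lit 8)), (.ofNat (nat_lit 218808128)), (.ofNat (nat_lit 529825451236446582390517344000)), (.ofNat (nat_lit 5046272)), (.ofNat (nat_lit 12866544962599489697946009600)), (.ofNat (nat_lit 218808112)), (.ofNat (nat_lit 218808144)), (.ofNat (nat_lit 2549712929188020324300)), (.negSucc (nat_lit 2549712929188020324299)), (.negSucc (nat_lit 2549712929188020324299)), (.ofNat (nat_lit 2549712929188020324300)), (.ofNat (nat_lit 0))⟩,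
    ⟨nat_lit 0, nat_lit 14, nat_lit 13, (.ofNat (nat_lit 8)), (.ofNat (nat_lit 152354624)), (.ofNat (nat_lit 360388092897798757017565996800)), (.ofNat (nat_lit 1310720)), (.ofNat (nat_lit 3341959730545321999466496000)), (.ofNat (nat_lit 152354608)), (.ofNat (nat_lit 152354640)), (.negSucc (nat_lit 2549712929188020324299)), (.ofNat (nat_lit 2549712929188020324300)), (.negSucc (nat_lit 2549712929188020324299)), (.ofNat (nat_lit 2549712929188020324300)), (.ofNat (nat_lit 0))⟩,
    ⟨nat_lit 0, nat_lit 15, nat_lit 14, (.ofNat (nat_lit 8)), (.ofNat (nat_lit 2277184)), (.ofNat (nat_lit 743042482045238125956479788800)), (.negSucc (nat_lit 524287)), (.ofNat (nat_lit 8020703353308772798719590400)), (.ofNat (nat_lit 2277168)), (.ofNat (nat_lit 2277200)), (.ofNat (nat_lit 2549712929188020324300)), (.negSucc (nat_lit 2549712929188020324299)), (.negSucc (nat_lit 2549712929188020324299)), (.ofNat (nat_lit 2549712929188020324300)), (.ofNat (nat_lit 0))⟩,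
    ⟨nat_lit 0, nat_lit 6, nat_lit 15, (.ofNat (nat_lit 8)), (.negSucc (nat_lit 80396479)), (.ofNat (nat_lit 532248372041091940840130553600)), (.negSucc (nat_lit 1310719)), (.ofNat (nat_lit 6015527514981579599039692800)), (.negSucc (nat_lit 80396495)), (.negSucc (nat_lit 80396463)), (.negSucc (nat_lit 2549712929188020324299)), (.ofNat (nat_lit 2549712929188020324300)), (.negSucc (nat_lit 2549712929188020324299)), (.ofNat (nat_lit 2549712929188020324300)), (.ofNat (nat_lit 0))⟩,
    ⟨nat_lit 0, nat_lit 23, nat_lit 16, (.ofNat (nat_lit 8)), (.negSucc (nat_lit 9437247)), (.ofNat (nat_lit 236610585740981329528927161600)), (.negSucc (nat_lit 524287)), (.ofNat (nat_lit 2673567784436257599573196800)), (.negSucc (nat_lit 9437263)), (.negSucc (nat_lit 9437231)), (.negSucc (nat_lit 2549712929188020324299)), (.ofNat (nat_lit 2549712929188020324300)), (.negSucc (nat_lit 2549712929188020324299)), (.ofNat (nat_lit 2549712929188020324300)), (.ofNat (nat_lit 0))⟩,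
    ⟨nat_lit 1, nat_lit 16, nat_lit 17, (.ofNat (nat_lit 8)), (.ofNat (nat_lit 183353152)), (.ofNat (nat_lit 728170761244311443058853881600)), (.ofNat (nat_lit 4521984)), (.ofNat (nat_lit 15540112747035747297519206400)), (.ofNat (nat_lit 183353136)), (.ofNat (nat_lit 183353168)), (.ofNat (nat_lit 2549712929188020324300)), (.negSucc (nat_lit 2549712929188020324299)), (.negSucc (nat_lit 2549712929188020324299)), (.ofNat (nat_lit 2549712929188020324300)), (.ofNat (nat_lit 0))⟩,
    ⟨nat_lit 0, nat_lit 18, nat_lit 17, (.ofNat (nat_lit 8)), (.ofNat (nat_lit 145604416)), (.ofNat (nat_lit 824419201484016716643488966400)), (.ofNat (nat_lit 3997696)), (.ofNat (nat_lit 16876896639253876097305804800)), (.ofNat (nat_lit 145604400)), (.ofNat (nat_lit 145604432)), (.ofNat (nat_lit 2549712929188020324300)), (.negSucc (nat_lit 2549712929188020324299)), (.negSucc (nat_lit 2549712929188020324299)), (.ofNat (nat_lit 2549712929188020324300)), (.ofNat (nat_lit 0))⟩,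
    ⟨nat_lit 0, nat_lit 19, nat_lit 18, (.ofNat (nat_lit 8)), (.ofNat (nat_lit 15646528)), (.ofNat (nat_lit 493063894200448040396385888000)), (.negSucc (nat_lit 524287)), (.ofNat (nat_lit 5347135568872515199146393600)), (.ofNat (nat_lit 15646512)), (.ofNat (nat_lit 15646544)), (.negSucc (nat_lit 2549712929188020324299)), (.ofNat (nat_lit 2549712929188020324300)), (.negSucc (nat_lit 2549712929188020324299)), (.ofNat (nat_lit 2549712929188020324300)), (.ofNat (nat_lit 0))⟩,
    ⟨nat_lit 2, nat_lit 19, nat_lit 20, (.ofNat (nat_lit 8)), (.negSucc (nat_lit 79118527)), (.ofNat (nat_lit 734687582718874820957813548800)), (.negSucc (nat_lit 1572863)), (.ofNat (nat_lit 8020703353308772798719590400)), (.negSucc (nat_lit 79118543)), (.negSucc (nat_lit 79118511)), (.negSucc (nat_lit 2549712929188020324299)), (.ofNat (nat_lit 2549712929188020324300)), (.negSucc (nat_lit 2549712929188020324299)), (.ofNat (nat_lit 2549712929188020324300)), (.ofNat (nat_lit 0))⟩,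
    ⟨nat_lit 0, nat_lit 20, nat_lit 21, (.ofNat (nat_lit 8)), (.ofNat (nat_lit 8503104)), (.ofNat (nat_lit 958097590705829596622148806400)), (.ofNat (nat_lit 2424832)), (.ofNat (nat_lit 18213680531472004897092403200)), (.ofNat (nat_lit 8503088)), (.ofNat (nat_lit 8503120)), (.ofNat (nat_lit 2549712929188020324300)), (.negSucc (nat_lit 2549712929188020324299)), (.negSucc (nat_lit 2549712929188020324299)), (.ofNat (nat_lit 2549712929188020324300)), (.ofNat (nat_lit 0))⟩,
    ⟨nat_lit 1, nat_lit 22, nat_lit 21, (.ofNat (nat_lit 8)), (.ofNat (nat_lit 159891264)), (.ofNat (nat_lit 572101241827844905683768518400)), (.ofNat (nat_lit 4259840)), (.ofNat (nat_lit 13534936908708554097839308800)), (.ofNat (nat_lit 159891248)), (.ofNat (nat_lit 159891280)), (.ofNat (nat_lit 2549712929188020324300)), (.negSucc (nat_lit 2549712929188020324299)), (.negSucc (nat_lit 2549712929188020324299)), (.ofNat (nat_lit 2549712929188020324300)), (.ofNat (nat_lit 0))⟩,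
    ⟨nat_lit 2, nat_lit 23, nat_lit 7, (.ofNat (nat_lit 8)), (.negSucc (nat_lit 123076671)), (.ofNat (nat_lit 526358494379260746882672364800)), (.negSucc (nat_lit 1835007)), (.ofNat (nat_lit 6015527514981579599039692800)), (.negSucc (nat_lit 123076687)), (.negSucc (nat_lit 123076655)), (.negSucc (nat_lit 2549712929188020324299)), (.ofNat (nat_lit 2549712929188020324300)), (.negSucc (nat_lit 2549712929188020324299)), (.ofNat (nat_lit 2549712929188020324300)), (.ofNat (nat_lit 0))⟩]
  es := [
    ⟨nat_lit 1, nat_lit 0, (.negSucc (nat_lit 204079103)), (.negSucc (nat_lit 33816575)), (.negSucc (nat_lit 204079087)), (.negSucc (nat_lit 33816591)), (.negSucc (nat_lit 2549712929188020324299)), (.ofNat (nat_lit 0)), (.ofNat (nat_lit 0))⟩,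
    ⟨nat_lit 1, nat_lit 2, (.negSucc (nat_lit 204079103)), (.negSucc (nat_lit 76824767)), (.negSucc (nat_lit 204079087)), (.negSucc (nat_lit 76824783)), (.ofNat (nat_lit 2549712929188020324300)), (.ofNat (nat_lit 0)), (.ofNat (nat_lit 13367838922181287997865984000))⟩,
    ⟨nat_lit 2, nat_lit 3, (.negSucc (nat_lit 76824767)), (.ofNat (nat_lit 17940288)), (.negSucc (nat_lit 76824751)), (.ofNat (nat_lit 17940272)), (.negSucc (nat_lit 2549712929188020324299)), (.ofNat (nat_lit 0)), (.ofNat (nat_lit 5347135568872515199146393600))⟩,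
    ⟨nat_lit 3, nat_lit 4, (.ofNat (nat_lit 17940288)), (.ofNat (nat_lit 169066304)), (.ofNat (nat_lit 17940304)), (.ofNat (nat_lit 169066288)), (.ofNat (nat_lit 2549712929188020324300)), (.ofNat (nat_lit 0)), (.ofNat (nat_lit 8020703353308772798719590400))⟩,
    ⟨nat_lit 5, nat_lit 4, (.ofNat (nat_lit 55426880)), (.ofNat (nat_lit 169066304)), (.ofNat (nat_lit 55426896)), (.ofNat (nat_lit 169066288)), (.negSucc (nat_lit 2549712929188020324299)), (.ofNat (nat_lit 0)), (.ofNat (nat_lit 29743441601853365795251814400))⟩,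
    ⟨nat_lit 6, nat_lit 5, (.negSucc (nat_lit 157204671)), (.ofNat (nat_lit 55426880)), (.negSucc (nat_lit 157204655)), (.ofNat (nat_lit 55426864)), (.ofNat (nat_lit 2549712929188020324300)), (.ofNat (nat_lit 0)), (.ofNat (nat_lit 14704622814399416797652582400))⟩,
    ⟨nat_lit 6, nat_lit 15, (.negSucc (nat_lit 157204671)), (.negSucc (nat_lit 80396479)), (.negSucc (nat_lit 157204655)), (.negSucc (nat_lit 80396495)), (.negSucc (nat_lit 2549712929188020324299)), (.ofNat (nat_lit 0)), (.ofNat (nat_lit 2673567784436257599573196800))⟩,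
    ⟨nat_lit 23, nat_lit 7, (.negSucc (nat_lit 123076671)), (.ofNat (nat_lit 6209344)), (.negSucc (nat_lit 123076655)), (.ofNat (nat_lit 6209328)), (.ofNat (nat_lit 2549712929188020324300)), (.ofNat (nat_lit 0)), (.ofNat (nat_lit 10694271137745030398292787200))⟩,
    ⟨nat_lit 7, nat_lit 8, (.ofNat (nat_lit 6209344)), (.ofNat (nat_lit 157597504)), (.ofNat (nat_lit 6209360)), (.ofNat (nat_lit 157597488)), (.negSucc (nat_lit 2549712929188020324299)), (.ofNat (nat_lit 0)), (.ofNat (nat_lit 23059522140762721796318822400))⟩,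
    ⟨nat_lit 8, nat_lit 9, (.ofNat (nat_lit 157597504)), (.ofNat (nat_lit 242270016)), (.ofNat (nat_lit 157597520)), (.ofNat (nat_lit 242270000)), (.ofNat (nat_lit 2549712929188020324300)), (.ofNat (nat_lit 0)), (.ofNat (nat_lit 1336783892218128799786598400))⟩,
    ⟨nat_lit 10, nat_lit 9, (.ofNat (nat_lit 185646912)), (.ofNat (nat_lit 242270016)), (.ofNat (nat_lit 185646928)), (.ofNat (nat_lit 242270000)), (.negSucc (nat_lit 2549712929188020324299)), (.ofNat (nat_lit 0)), (.ofNat (nat_lit 28406657709635236995465216000))⟩,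
    ⟨nat_lit 11, nat_lit 10, (.ofNat (nat_lit 143310656)), (.ofNat (nat_lit 185646912)), (.ofNat (nat_lit 143310672)), (.ofNat (nat_lit 185646896)), (.ofNat (nat_lit 2549712929188020324300)), (.ofNat (nat_lit 0)), (.ofNat (nat_lit 5347135568872515199146393600))⟩,
    ⟨nat_lit 11, nat_lit 12, (.ofNat (nat_lit 143310656)), (.ofNat (nat_lit 218808128)), (.ofNat (nat_lit 143310672)), (.ofNat (nat_lit 218808112)), (.negSucc (nat_lit 2549712929188020324299)), (.ofNat (nat_lit 0)), (.ofNat (nat_lit 25733089925198979395892019200))⟩,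
    ⟨nat_lit 13, nat_lit 12, (.ofNat (nat_lit 152354624)), (.ofNat (nat_lit 218808128)), (.ofNat (nat_lit 152354640)), (.ofNat (nat_lit 218808112)), (.ofNat (nat_lit 2549712929188020324300)), (.ofNat (nat_lit 0)), (.ofNat (nat_lit 0))⟩,
    ⟨nat_lit 14, nat_lit 13, (.ofNat (nat_lit 2277184)), (.ofNat (nat_lit 152354624)), (.ofNat (nat_lit 2277200)), (.ofNat (nat_lit 152354608)), (.negSucc (nat_lit 2549712929188020324299)), (.ofNat (nat_lit 0)), (.ofNat (nat_lit 6683919461090643998932992000))⟩,
    ⟨nat_lit 15, nat_lit 14, (.negSucc (nat_lit 80396479)), (.ofNat (nat_lit 2277184)), (.negSucc (nat_lit 80396463)), (.ofNat (nat_lit 2277168)), (.ofNat (nat_lit 2549712929188020324300)), (.ofNat (nat_lit 0)), (.ofNat (nat_lit 9357487245526901598506188800))⟩,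
    ⟨nat_lit 16, nat_lit 17, (.negSucc (nat_lit 9437247)), (.ofNat (nat_lit 183353152)), (.negSucc (nat_lit 9437231)), (.ofNat (nat_lit 183353136)), (.ofNat (nat_lit 2549712929188020324300)), (.ofNat (nat_lit 0)), (.ofNat (nat_lit 4010351676654386399359795200))⟩,
    ⟨nat_lit 18, nat_lit 17, (.ofNat (nat_lit 145604416)), (.ofNat (nat_lit 183353152)), (.ofNat (nat_lit 145604432)), (.ofNat (nat_lit 183353136)), (.negSucc (nat_lit 2549712929188020324299)), (.ofNat (nat_lit 0)), (.ofNat (nat_lit 27069873817417108195678617600))⟩,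
    ⟨nat_lit 19, nat_lit 18, (.ofNat (nat_lit 15646528)), (.ofNat (nat_lit 145604416)), (.ofNat (nat_lit 15646544)), (.ofNat (nat_lit 145604400)), (.ofNat (nat_lit 2549712929188020324300)), (.ofNat (nat_lit 0)), (.ofNat (nat_lit 6683919461090643998932992000))⟩,
    ⟨nat_lit 20, nat_lit 19, (.negSucc (nat_lit 79118527)), (.ofNat (nat_lit 15646528)), (.negSucc (nat_lit 79118511)), (.ofNat (nat_lit 15646512)), (.negSucc (nat_lit 2549712929188020324299)), (.ofNat (nat_lit 0)), (.ofNat (nat_lit 4010351676654386399359795200))⟩,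
    ⟨nat_lit 20, nat_lit 21, (.negSucc (nat_lit 79118527)), (.ofNat (nat_lit 8503104)), (.negSucc (nat_lit 79118511)), (.ofNat (nat_lit 8503088)), (.ofNat (nat_lit 2549712929188020324300)), (.ofNat (nat_lit 0)), (.ofNat (nat_lit 12031055029963159198079385600))⟩,
    ⟨nat_lit 21, nat_lit 22, (.ofNat (nat_lit 8503104)), (.ofNat (nat_lit 159891264)), (.ofNat (nat_lit 8503120)), (.ofNat (nat_lit 159891248)), (.negSucc (nat_lit 2549712929188020324299)), (.ofNat (nat_lit 0)), (.ofNat (nat_lit 24396306032980850596105420800))⟩,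
    ⟨nat_lit 0, nat_lit 22, (.negSucc (nat_lit 33816575)), (.ofNat (nat_lit 159891264)), (.negSucc (nat_lit 33816559)), (.ofNat (nat_lit 159891248)), (.ofNat (nat_lit 2549712929188020324300)), (.ofNat (nat_lit 0)), (.ofNat (nat_lit 2673567784436257599573196800))⟩,
    ⟨nat_lit 23, nat_lit 16, (.negSucc (nat_lit 123076671)), (.negSucc (nat_lit 9437247)), (.negSucc (nat_lit 123076655)), (.negSucc (nat_lit 9437263)), (.negSucc (nat_lit 2549712929188020324299)), (.ofNat (nat_lit 0)), (.ofNat (nat_lit 1336783892218128799786598400))⟩]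

theorem ok22 : stOK 23 23 S22 = true := by decide +kernel

def S23 : SD where
  vs := [
    ⟨nat_lit 0, nat_lit 0, nat_lit 22, (.ofNat (nat_lit 8)), (.negSucc (nat_lit 33816575)), (.ofNat (nat_lit 79423761721241168143565193216)), (.ofNat (nat_lit 0)), (.ofNat (nat_lit 1221904026480633356049186816)), (.negSucc (nat_lit 33816591)), (.negSucc (nat_lit 33816559)), (.negSucc (nat_lit 2589552193706583141866)), (.ofNat (nat_lit 2589552193706583141867)), (.negSucc (nat_lit 2589552193706583141866)), (.ofNat (nat_lit 2589552193706583141867)), (.ofNat (nat_lit 239035587111376905402))⟩,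
    ⟨nat_lit 2, nat_lit 0, nat_lit 1, (.ofNat (nat_lit 8)), (.negSucc (nat_lit 204079103)), (.ofNat (nat_lit 520327464609669704120023252992)), (.ofNat (nat_lit 0)), (.ofNat (nat_lit 8005037917071841601809416192)), (.negSucc (nat_lit 204079119)), (.negSucc (nat_lit 204079087)), (.negSucc (nat_lit 2589552193706583141866)), (.ofNat (nat_lit 2589552193706583141867)), (.negSucc (nat_lit 2589552193706583141866)), (.ofNat (nat_lit 2589552193706583141867)), (.ofNat (nat_lit 239035587111376905402))⟩,
    ⟨nat_lit 0, nat_lit 1, nat_lit 2, (.ofNat (nat_lit 8)), (.negSucc (nat_lit 76824767)), (.ofNat (nat_lit 849859209557144320667102138304)), (.ofNat (nat_lit 0)), (.ofNat (nat_lit 13074757070109912625587136704)), (.negSucc (nat_lit 76824783)), (.negSucc (nat_lit 76824751)), (.ofNat (nat_lit 2589552193706583141867)), (.negSucc (nat_lit 2589552193706583141866)), (.negSucc (nat_lit 2589552193706583141866)), (.ofNat (nat_lit 2589552193706583141867)), (.ofNat (nat_lit 239035587111376905402))⟩,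
    ⟨nat_lit 0, nat_lit 2, nat_lit 3, (.ofNat (nat_lit 8)), (.ofNat (nat_lit 17940288)), (.ofNat (nat_lit 604460150905617121659419938752)), (.ofNat (nat_lit 0)), (.ofNat (nat_lit 9299386937009494179332597952)), (.ofNat (nat_lit 17940272)), (.ofNat (nat_lit 17940304)), (.negSucc (nat_lit 2589552193706583141866)), (.ofNat (nat_lit 2589552193706583141867)), (.negSucc (nat_lit 2589552193706583141866)), (.ofNat (nat_lit 2589552193706583141867)), (.ofNat (nat_lit 239035587111376905402))⟩,
    ⟨nat_lit 1, nat_lit 3, nat_lit 4, (.ofNat (nat_lit 8)), (.ofNat (nat_lit 169066304)), (.ofNat (nat_lit 995808857164553304862542450624)), (.ofNat (nat_lit 0)), (.ofNat (nat_lit 15320136264070050843968121024)), (.ofNat (nat_lit 169066288)), (.ofNat (nat_lit 169066320)), (.ofNat (nat_lit 2589552193706583141867)), (.negSucc (nat_lit 2589552193706583141866)), (.negSucc (nat_lit 2589552193706583141866)), (.ofNat (nat_lit 2589552193706583141867)), (.ofNat (nat_lit 239035587111376905402))⟩,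
    ⟨nat_lit 0, nat_lit 5, nat_lit 4, (.ofNat (nat_lit 8)), (.ofNat (nat_lit 55426880)), (.ofNat (nat_lit 1290084076875305838112418615232)), (.ofNat (nat_lit 0)), (.ofNat (nat_lit 19847447336543166740099082432)), (.ofNat (nat_lit 55426864)), (.ofNat (nat_lit 55426896)), (.ofNat (nat_lit 2589552193706583141867)), (.negSucc (nat_lit 2589552193706583141866)), (.negSucc (nat_lit 2589552193706583141866)), (.ofNat (nat_lit 2589552193706583141867)), (.ofNat (nat_lit 239035587111376905402))⟩,
    ⟨nat_lit 2, nat_lit 6, nat_lit 5, (.ofNat (nat_lit 8)), (.negSucc (nat_lit 157204671)), (.ofNat (nat_lit 739463574942470432040202227648)), (.ofNat (nat_lit 0)), (.ofNat (nat_lit 11376362691422622031335008448)), (.negSucc (nat_lit 157204687)), (.negSucc (nat_lit 157204655)), (.negSucc (nat_lit 2589552193706583141866)), (.ofNat (nat_lit 2589552193706583141867)), (.negSucc (nat_lit 2589552193706583141866)), (.ofNat (nat_lit 2589552193706583141867)), (.ofNat (nat_lit 239035587111376905402))⟩,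
    ⟨nat_lit 0, nat_lit 7, nat_lit 8, (.ofNat (nat_lit 8)), (.ofNat (nat_lit 6209344)), (.ofNat (nat_lit 869375732202321133628157841344)), (.ofNat (nat_lit 0)), (.ofNat (nat_lit 13375011264651124089710487744)), (.ofNat (nat_lit 6209328)), (.ofNat (nat_lit 6209360)), (.ofNat (nat_lit 2589552193706583439851)), (.negSucc (nat_lit 2589552193706583341292)), (.negSucc (nat_lit 2589552193706583341292)), (.ofNat (nat_lit 2589552193706583439851)), (.ofNat (nat_lit 239035587111378496190))⟩,
    ⟨nat_lit 0, nat_lit 8, nat_lit 9, (.ofNat (nat_lit 8)), (.ofNat (nat_lit 157597504)), (.ofNat (nat_lit 477348190373117901703158550464)), (.ofNat (nat_lit 0)), (.ofNat (nat_lit 7343818313432583103091484864)), (.ofNat (nat_lit 157597488)), (.ofNat (nat_lit 157597520)), (.negSucc (nat_lit 2589552193706583341292)), (.ofNat (nat_lit 2589552193706583141867)), (.negSucc (nat_lit 2589552193706583341292)), (.ofNat (nat_lit 2589552193706583141867)), (.ofNat (nat_lit 239035587111377703106))⟩,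
    ⟨nat_lit 1, nat_lit 9, nat_lit 10, (.ofNat (nat_lit 8)), (.ofNat (nat_lit 242270016)), (.ofNat (nat_lit 696612079569364887261889810368)), (.ofNat (nat_lit 0)), (.ofNat (nat_lit 10717108916451767496287103168)), (.ofNat (nat_lit 242270000)), (.ofNat (nat_lit 242270032)), (.ofNat (nat_lit 2589552193706583141867)), (.negSucc (nat_lit 2589552193706583141866)), (.negSucc (nat_lit 2589552193706583141866)), (.ofNat (nat_lit 2589552193706583141867)), (.ofNat (nat_lit 239035587111376905402))⟩,
    ⟨nat_lit 0, nat_lit 11, nat_lit 10, (.ofNat (nat_lit 8)), (.ofNat (nat_lit 185646912)), (.ofNat (nat_lit 843240562747040889988471705536)), (.ofNat (nat_lit 0)), (.ofNat (nat_lit 12972931734569859845916371136)), (.ofNat (nat_lit 185646896)), (.ofNat (nat_lit 185646928)), (.ofNat (nat_lit 2589552193706583141867)), (.negSucc (nat_lit 2589552193706583141866)), (.negSucc (nat_lit 2589552193706583141866)), (.ofNat (nat_lit 2589552193706583141867)), (.ofNat (nat_lit 239035587111376905402))⟩,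
    ⟨nat_lit 2, nat_lit 12, nat_lit 11, (.ofNat (nat_lit 8)), (.ofNat (nat_lit 143310656)), (.ofNat (nat_lit 733608618148917397209106075584)), (.ofNat (nat_lit 0)), (.ofNat (nat_lit 11286286433060267649318561984)), (.ofNat (nat_lit 143310640)), (.ofNat (nat_lit 143310672)), (.negSucc (nat_lit 2589552193706583141866)), (.ofNat (nat_lit 2589552193706583141867)), (.negSucc (nat_lit 2589552193706583141866)), (.ofNat (nat_lit 2589552193706583141867)), (.ofNat (nat_lit 239035587111376905402))⟩,
    ⟨nat_lit 1, nat_lit 13, nat_lit 12, (.ofNat (nat_lit 8)), (.ofNat (nat_lit 218808128)), (.ofNat (nat_lit 538103973912016060240330215360)), (.ofNat (nat_lit 0)), (.ofNat (nat_lit 8278522675569477849812871360)), (.ofNat (nat_lit 218808112)), (.ofNat (nat_lit 218808144)), (.ofNat (nat_lit 2589552193706583141867)), (.negSucc (nat_lit 2589552193706583141866)), (.negSucc (nat_lit 2589552193706583141866)), (.ofNat (nat_lit 2589552193706583141867)), (.ofNat (nat_lit 239035587111376905402))⟩,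
    ⟨nat_lit 0, nat_lit 14, nat_lit 13, (.ofNat (nat_lit 8)), (.ofNat (nat_lit 152354624)), (.ofNat (nat_lit 366019156849326862595938963392)), (.ofNat (nat_lit 0)), (.ofNat (nat_lit 5631063951528105578372966592)), (.ofNat (nat_lit 152354608)), (.ofNat (nat_lit 152354640)), (.negSucc (nat_lit 2589552193706583141866)), (.ofNat (nat_lit 2589552193706583141867)), (.negSucc (nat_lit 2589552193706583141866)), (.ofNat (nat_lit 2589552193706583141867)), (.ofNat (nat_lit 239035587111376905402))⟩,
    ⟨nat_lit 0, nat_lit 15, nat_lit 14, (.ofNat (nat_lit 8)), (.ofNat (nat_lit 2277184)), (.ofNat (nat_lit 754652520827194971674495143872)), (.ofNat (nat_lit 0)), (.ofNat (nat_lit 11610038781956845718015355072)), (.ofNat (nat_lit 2277168)), (.ofNat (nat_lit 2277200)), (.ofNat (nat_lit 2589552193706583141867)), (.negSucc (nat_lit 2589552193706583141866)), (.negSucc (nat_lit 2589552193706583141866)), (.ofNat (nat_lit 2589552193706583141867)), (.ofNat (nat_lit 239035587111376905402))⟩,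
    ⟨nat_lit 0, nat_lit 6, nat_lit 15, (.ofNat (nat_lit 8)), (.negSucc (nat_lit 80396479)), (.ofNat (nat_lit 540564752854234002415718453184)), (.ofNat (nat_lit 0)), (.ofNat (nat_lit 8316380813142061575587899584)), (.negSucc (nat_lit 80396495)), (.negSucc (nat_lit 80396463)), (.negSucc (nat_lit 2589552193706583141866)), (.ofNat (nat_lit 2589552193706583141867)), (.negSucc (nat_lit 2589552193706583141866)), (.ofNat (nat_lit 2589552193706583141867)), (.ofNat (nat_lit 239035587111376905402))⟩,
    ⟨nat_lit 0, nat_lit 23, nat_lit 16, (.ofNat (nat_lit 8)), (.negSucc (nat_lit 9437247)), (.ofNat (nat_lit 240307626143184162802799248704)), (.ofNat (nat_lit 0)), (.ofNat (nat_lit 3697040402202833273872087104)), (.negSucc (nat_lit 9437263)), (.negSucc (nat_lit 9437231)), (.negSucc (nat_lit 2589552193706583068525)), (.ofNat (nat_lit 2589552193706583141867)), (.negSucc (nat_lit 2589552193706583068525)), (.ofNat (nat_lit 2589552193706583141867)), (.ofNat (nat_lit 239035587111376612038))⟩,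
    ⟨nat_lit 1, nat_lit 16, nat_lit 17, (.ofNat (nat_lit 8)), (.ofNat (nat_lit 183353152)), (.ofNat (nat_lit 739548429388753809356594925504)), (.ofNat (nat_lit 0)), (.ofNat (nat_lit 11377668144442366297741043904)), (.ofNat (nat_lit 183353136)), (.ofNat (nat_lit 183353168)), (.ofNat (nat_lit 2589552193706583141867)), (.negSucc (nat_lit 2589552193706583141866)), (.negSucc (nat_lit 2589552193706583141866)), (.ofNat (nat_lit 2589552193706583141867)), (.ofNat (nat_lit 239035587111376905402))⟩,
    ⟨nat_lit 0, nat_lit 18, nat_lit 17, (.ofNat (nat_lit 8)), (.ofNat (nat_lit 145604416)), (.ofNat (nat_lit 837300751507204477840982855616)), (.ofNat (nat_lit 0)), (.ofNat (nat_lit 12881550023187761197493889216)), (.ofNat (nat_lit 145604400)), (.ofNat (nat_lit 145604432)), (.ofNat (nat_lit 2589552193706583141867)), (.negSucc (nat_lit 2589552193706583141866)), (.negSucc (nat_lit 2589552193706583141866)), (.ofNat (nat_lit 2589552193706583141867)), (.ofNat (nat_lit 239035587111376905402))⟩,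
    ⟨nat_lit 0, nat_lit 19, nat_lit 18, (.ofNat (nat_lit 8)), (.ofNat (nat_lit 15646528)), (.ofNat (nat_lit 500768017547330041027543158720)), (.ofNat (nat_lit 0)), (.ofNat (nat_lit 7704123346882000631157270720)), (.ofNat (nat_lit 15646512)), (.ofNat (nat_lit 15646544)), (.negSucc (nat_lit 2589552193706583141866)), (.ofNat (nat_lit 2589552193706583141867)), (.negSucc (nat_lit 2589552193706583141866)), (.ofNat (nat_lit 2589552193706583141867)), (.ofNat (nat_lit 239035587111376905402))⟩,
    ⟨nat_lit 2, nat_lit 19, nat_lit 20, (.ofNat (nat_lit 8)), (.negSucc (nat_lit 79118527)), (.ofNat (nat_lit 746167076198857240035225358272)), (.ofNat (nat_lit 0)), (.ofNat (nat_lit 11479493479982419077411809472)), (.negSucc (nat_lit 79118543)), (.negSucc (nat_lit 79118511)), (.negSucc (nat_lit 2589552193706583141866)), (.ofNat (nat_lit 2589552193706583141867)), (.negSucc (nat_lit 2589552193706583141866)), (.ofNat (nat_lit 2589552193706583141867)), (.ofNat (nat_lit 239035587111376905402))⟩,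
    ⟨nat_lit 0, nat_lit 20, nat_lit 21, (.ofNat (nat_lit 8)), (.ofNat (nat_lit 8503104)), (.ofNat (nat_lit 973067865560608184069299425216)), (.ofNat (nat_lit 0)), (.ofNat (nat_lit 14970274854778587447150618816)), (.ofNat (nat_lit 8503088)), (.ofNat (nat_lit 8503120)), (.ofNat (nat_lit 2589552193706583141867)), (.negSucc (nat_lit 2589552193706583141866)), (.negSucc (nat_lit 2589552193706583141866)), (.ofNat (nat_lit 2589552193706583141867)), (.ofNat (nat_lit 239035587111376905402))⟩,
    ⟨nat_lit 1, nat_lit 22, nat_lit 21, (.ofNat (nat_lit 8)), (.ofNat (nat_lit 159891264)), (.ofNat (nat_lit 581040323731404982335035330496)), (.ofNat (nat_lit 0)), (.ofNat (nat_lit 8939081903560076651266812096)), (.ofNat (nat_lit 159891248)), (.ofNat (nat_lit 159891280)), (.ofNat (nat_lit 2589552193706583141867)), (.negSucc (nat_lit 2589552193706583141866)), (.negSucc (nat_lit 2589552193706583141866)), (.ofNat (nat_lit 2589552193706583141867)), (.ofNat (nat_lit 239035587111376905402))⟩,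
    ⟨nat_lit 2, nat_lit 23, nat_lit 7, (.ofNat (nat_lit 8)), (.negSucc (nat_lit 123076671)), (.ofNat (nat_lit 534582845853936687718246417728)), (.ofNat (nat_lit 0)), (.ofNat (nat_lit 8224351474675940835574052928)), (.negSucc (nat_lit 123076687)), (.negSucc (nat_lit 123076655)), (.negSucc (nat_lit 2589552193706583068525)), (.ofNat (nat_lit 2589552193706583439851)), (.negSucc (nat_lit 2589552193706583068525)), (.ofNat (nat_lit 2589552193706583439851)), (.ofNat (nat_lit 239035587111377208006))⟩]
  es := [
    ⟨nat_lit 1, nat_lit 0, (.negSucc (nat_lit 204079103)), (.negSucc (nat_lit 33816575)), (.negSucc (nat_lit 204079087)), (.negSucc (nat_lit 33816591)), (.negSucc (nat_lit 2589552193706583141866)), (.negSucc (nat_lit 39839264518562817566)), (.negSucc (nat_lit 125323489895449574979403775))⟩,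
    ⟨nat_lit 1, nat_lit 2, (.negSucc (nat_lit 204079103)), (.negSucc (nat_lit 76824767)), (.negSucc (nat_lit 204079087)), (.negSucc (nat_lit 76824783)), (.ofNat (nat_lit 2589552193706583141867)), (.ofNat (nat_lit 39839264518562817567)), (.ofNat (nat_lit 16135399324039132778598236160))⟩,
    ⟨nat_lit 2, nat_lit 3, (.negSucc (nat_lit 76824767)), (.ofNat (nat_lit 17940288)), (.negSucc (nat_lit 76824751)), (.ofNat (nat_lit 17940272)), (.negSucc (nat_lit 2589552193706583141866)), (.negSucc (nat_lit 39839264518562817566)), (.ofNat (nat_lit 10014114816180692472576037248))⟩,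
    ⟨nat_lit 3, nat_lit 4, (.ofNat (nat_lit 17940288)), (.ofNat (nat_lit 169066304)), (.ofNat (nat_lit 17940304)), (.ofNat (nat_lit 169066288)), (.ofNat (nat_lit 2589552193706583141867)), (.ofNat (nat_lit 39839264518562817567)), (.ofNat (nat_lit 8584659057838295886089158656))⟩,
    ⟨nat_lit 5, nat_lit 4, (.ofNat (nat_lit 55426880)), (.ofNat (nat_lit 169066304)), (.ofNat (nat_lit 55426896)), (.ofNat (nat_lit 169066288)), (.negSucc (nat_lit 2589552193706583141866)), (.negSucc (nat_lit 39839264518562817566)), (.ofNat (nat_lit 22055613470301805801847083392))⟩,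
    ⟨nat_lit 6, nat_lit 5, (.negSucc (nat_lit 157204671)), (.ofNat (nat_lit 55426880)), (.negSucc (nat_lit 157204655)), (.ofNat (nat_lit 55426864)), (.ofNat (nat_lit 2589552193706583141867)), (.ofNat (nat_lit 39839264518562817567)), (.ofNat (nat_lit 17639281202784527678351081472))⟩,
    ⟨nat_lit 6, nat_lit 15, (.negSucc (nat_lit 157204671)), (.negSucc (nat_lit 80396479)), (.negSucc (nat_lit 157204655)), (.negSucc (nat_lit 80396495)), (.negSucc (nat_lit 2589552193706583141866)), (.negSucc (nat_lit 39839264518562817566)), (.ofNat (nat_lit 5113444180060716384318935424))⟩,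
    ⟨nat_lit 23, nat_lit 7, (.negSucc (nat_lit 123076671)), (.ofNat (nat_lit 6209344)), (.negSucc (nat_lit 123076655)), (.ofNat (nat_lit 6209328)), (.ofNat (nat_lit 2589552193706583439851)), (.ofNat (nat_lit 39839264518563115551)), (.ofNat (nat_lit 13127635566548371319542579200))⟩,
    ⟨nat_lit 7, nat_lit 8, (.ofNat (nat_lit 6209344)), (.ofNat (nat_lit 157597504)), (.ofNat (nat_lit 6209360)), (.ofNat (nat_lit 157597488)), (.negSucc (nat_lit 2589552193706583341292)), (.negSucc (nat_lit 39839264518563016992)), (.ofNat (nat_lit 13622386962753876247897870336))⟩,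
    ⟨nat_lit 8, nat_lit 9, (.ofNat (nat_lit 157597504)), (.ofNat (nat_lit 242270016)), (.ofNat (nat_lit 157597520)), (.ofNat (nat_lit 242270000)), (.ofNat (nat_lit 2589552193706583141867)), (.ofNat (nat_lit 39839264518562817567)), (.ofNat (nat_lit 1065249664111321387324932096))⟩,
    ⟨nat_lit 10, nat_lit 9, (.ofNat (nat_lit 185646912)), (.ofNat (nat_lit 242270016)), (.ofNat (nat_lit 185646928)), (.ofNat (nat_lit 242270000)), (.negSucc (nat_lit 2589552193706583141866)), (.negSucc (nat_lit 39839264518562817566)), (.ofNat (nat_lit 20368968168792213605249274240))⟩,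
    ⟨nat_lit 11, nat_lit 10, (.ofNat (nat_lit 143310656)), (.ofNat (nat_lit 185646912)), (.ofNat (nat_lit 143310672)), (.ofNat (nat_lit 185646896)), (.ofNat (nat_lit 2589552193706583141867)), (.ofNat (nat_lit 39839264518562817567)), (.ofNat (nat_lit 5576895300347506086583468032))⟩,
    ⟨nat_lit 11, nat_lit 12, (.ofNat (nat_lit 143310656)), (.ofNat (nat_lit 218808128)), (.ofNat (nat_lit 143310672)), (.ofNat (nat_lit 218808112)), (.negSucc (nat_lit 2589552193706583141866)), (.negSucc (nat_lit 39839264518562817566)), (.ofNat (nat_lit 16995677565773029212053655936))⟩,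
    ⟨nat_lit 13, nat_lit 12, (.ofNat (nat_lit 152354624)), (.ofNat (nat_lit 218808128)), (.ofNat (nat_lit 152354640)), (.ofNat (nat_lit 218808112)), (.ofNat (nat_lit 2589552193706583141867)), (.ofNat (nat_lit 39839264518562817567)), (.negSucc (nat_lit 438632214634073512427913215))⟩,
    ⟨nat_lit 14, nat_lit 13, (.ofNat (nat_lit 2277184)), (.ofNat (nat_lit 152354624)), (.ofNat (nat_lit 2277200)), (.ofNat (nat_lit 152354608)), (.negSucc (nat_lit 2589552193706583141866)), (.negSucc (nat_lit 39839264518562817566)), (.ofNat (nat_lit 11700760117690284669173846400))⟩,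
    ⟨nat_lit 15, nat_lit 14, (.negSucc (nat_lit 80396479)), (.ofNat (nat_lit 2277184)), (.negSucc (nat_lit 80396463)), (.ofNat (nat_lit 2277168)), (.ofNat (nat_lit 2589552193706583141867)), (.ofNat (nat_lit 39839264518562817567)), (.ofNat (nat_lit 11519317446223406766856863744))⟩,
    ⟨nat_lit 16, nat_lit 17, (.negSucc (nat_lit 9437247)), (.ofNat (nat_lit 183353152)), (.negSucc (nat_lit 9437231)), (.ofNat (nat_lit 183353136)), (.ofNat (nat_lit 2589552193706583141867)), (.ofNat (nat_lit 39839264518562817567)), (.ofNat (nat_lit 4073013421602111186830622720))⟩,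
    ⟨nat_lit 18, nat_lit 17, (.ofNat (nat_lit 145604416)), (.ofNat (nat_lit 183353152)), (.ofNat (nat_lit 145604432)), (.ofNat (nat_lit 183353136)), (.negSucc (nat_lit 2589552193706583141866)), (.negSucc (nat_lit 39839264518562817566)), (.ofNat (nat_lit 18682322867282621408651465088))⟩,
    ⟨nat_lit 19, nat_lit 18, (.ofNat (nat_lit 15646528)), (.ofNat (nat_lit 145604416)), (.ofNat (nat_lit 15646544)), (.ofNat (nat_lit 145604400)), (.ofNat (nat_lit 2589552193706583141867)), (.ofNat (nat_lit 39839264518562817567)), (.ofNat (nat_lit 7080777179092900986336313344))⟩,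
    ⟨nat_lit 20, nat_lit 19, (.negSucc (nat_lit 79118527)), (.ofNat (nat_lit 15646528)), (.negSucc (nat_lit 79118511)), (.ofNat (nat_lit 15646512)), (.negSucc (nat_lit 2589552193706583141866)), (.negSucc (nat_lit 39839264518562817566)), (.ofNat (nat_lit 8327469514671100275978228096))⟩,
    ⟨nat_lit 20, nat_lit 21, (.negSucc (nat_lit 79118527)), (.ofNat (nat_lit 8503104)), (.negSucc (nat_lit 79118511)), (.ofNat (nat_lit 8503088)), (.ofNat (nat_lit 2589552193706583141867)), (.ofNat (nat_lit 39839264518562817567)), (.ofNat (nat_lit 14631517445293737878845390848))⟩,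
    ⟨nat_lit 21, nat_lit 22, (.ofNat (nat_lit 8503104)), (.ofNat (nat_lit 159891264)), (.ofNat (nat_lit 8503120)), (.ofNat (nat_lit 159891248)), (.negSucc (nat_lit 2589552193706583141866)), (.negSucc (nat_lit 39839264518562817566)), (.ofNat (nat_lit 15309032264263437015455846784))⟩,
    ⟨nat_lit 0, nat_lit 22, (.negSucc (nat_lit 33816575)), (.ofNat (nat_lit 159891264)), (.negSucc (nat_lit 33816559)), (.ofNat (nat_lit 159891248)), (.ofNat (nat_lit 2589552193706583141867)), (.ofNat (nat_lit 39839264518562817567)), (.ofNat (nat_lit 2569131542856716287077777408))⟩,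
    ⟨nat_lit 23, nat_lit 16, (.negSucc (nat_lit 123076671)), (.negSucc (nat_lit 9437247)), (.negSucc (nat_lit 123076655)), (.negSucc (nat_lit 9437263)), (.negSucc (nat_lit 2589552193706583068525)), (.negSucc (nat_lit 39839264518562744225)), (.ofNat (nat_lit 3321067382803556053050757056))⟩]

theorem ok23 : stOK 23 23 S23 = true := by decide +kernel

def S24 : SD where
  vs := [
    ⟨nat_lit 0, nat_lit 0, nat_lit 22, (.ofNat (nat_lit 8)), (.negSucc (nat_lit 34340863)), (.ofNat (nat_lit 80781432861775205205848358912)), (.negSucc (nat_lit 524287)), (.ofNat (nat_lit 1357671140534037062283165696)), (.negSucc (nat_lit 34340879)), (.negSucc (nat_lit 34340847)), (.negSucc (nat_lit 2589552193706583141866)), (.ofNat (nat_lit 2589552193706583141867)), (.negSucc (nat_lit 2589552193706583141866)), (.ofNat (nat_lit 2589552193706583141867)), (.ofNat (nat_lit 0))⟩,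
    ⟨nat_lit 2, nat_lit 0, nat_lit 1, (.ofNat (nat_lit 8)), (.negSucc (nat_lit 243400703)), (.ofNat (nat_lit 622152800149722483791260680192)), (.negSucc (nat_lit 39321599)), (.ofNat (nat_lit 101825335540052779671237427200)), (.negSucc (nat_lit 243400719)), (.negSucc (nat_lit 243400687)), (.negSucc (nat_lit 2589552193706583141866)), (.ofNat (nat_lit 2589552193706583141867)), (.negSucc (nat_lit 2589552193706583141866)), (.ofNat (nat_lit 2589552193706583141867)), (.ofNat (nat_lit 0))⟩,
    ⟨nat_lit 0, nat_lit 1, nat_lit 2, (.ofNat (nat_lit 8)), (.negSucc (nat_lit 115097791)), (.ofNat (nat_lit 954399887378265174462905896896)), (.negSucc (nat_lit 38273023)), (.ofNat (nat_lit 104540677821120853795803758592)), (.negSucc (nat_lit 115097807)), (.negSucc (nat_lit 115097775)), (.ofNat (nat_lit 2589552193706583141867)), (.negSucc (nat_lit 2589552193706583141866)), (.negSucc (nat_lit 2589552193706583141866)), (.ofNat (nat_lit 2589552193706583141867)), (.ofNat (nat_lit 0))⟩,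
    ⟨nat_lit 0, nat_lit 2, nat_lit 3, (.ofNat (nat_lit 8)), (.ofNat (nat_lit 17416000)), (.ofNat (nat_lit 611248506608287306970835767232)), (.negSucc (nat_lit 524287)), (.ofNat (nat_lit 6788355702670185311415828480)), (.ofNat (nat_lit 17415984)), (.ofNat (nat_lit 17416016)), (.negSucc (nat_lit 2589552193706583141866)), (.ofNat (nat_lit 2589552193706583141867)), (.negSucc (nat_lit 2589552193706583141866)), (.ofNat (nat_lit 2589552193706583141867)), (.ofNat (nat_lit 0))⟩,
    ⟨nat_lit 1, nat_lit 3, nat_lit 4, (.ofNat (nat_lit 8)), (.ofNat (nat_lit 170377024)), (.ofNat (nat_lit 1007349061859092619891949359040)), (.ofNat (nat_lit 1310720)), (.ofNat (nat_lit 11540204694539315029406908416)), (.ofNat (nat_lit 170377008)), (.ofNat (nat_lit 170377040)), (.ofNat (nat_lit 2589552193706583141867)), (.negSucc (nat_lit 2589552193706583141866)), (.negSucc (nat_lit 2589552193706583141866)), (.ofNat (nat_lit 2589552193706583141867)), (.ofNat (nat_lit 0))⟩,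
    ⟨nat_lit 0, nat_lit 5, nat_lit 4, (.ofNat (nat_lit 8)), (.ofNat (nat_lit 18726720)), (.ofNat (nat_lit 1400055439258562840157355036608)), (.negSucc (nat_lit 36700159)), (.ofNat (nat_lit 109971362383257002044936421376)), (.ofNat (nat_lit 18726704)), (.ofNat (nat_lit 18726736)), (.ofNat (nat_lit 2589552193706583141867)), (.negSucc (nat_lit 2589552193706583141866)), (.negSucc (nat_lit 2589552193706583141866)), (.ofNat (nat_lit 2589552193706583141867)), (.ofNat (nat_lit 0))⟩,
    ⟨nat_lit 2, nat_lit 6, nat_lit 5, (.ofNat (nat_lit 8)), (.negSucc (nat_lit 196264127)), (.ofNat (nat_lit 843325417193324267304864403392)), (.negSucc (nat_lit 39059455)), (.ofNat (nat_lit 103861842250853835264662175744)), (.negSucc (nat_lit 196264143)), (.negSucc (nat_lit 196264111)), (.negSucc (nat_lit 2589552193706583141866)), (.ofNat (nat_lit 2589552193706583141867)), (.negSucc (nat_lit 2589552193706583141866)), (.ofNat (nat_lit 2589552193706583141867)), (.ofNat (nat_lit 0))⟩,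
    ⟨nat_lit 0, nat_lit 7, nat_lit 8, (.ofNat (nat_lit 8)), (.ofNat (nat_lit 5947200)), (.ofNat (nat_lit 878200594615792374846668394432)), (.negSucc (nat_lit 262143)), (.ofNat (nat_lit 8824862413471241218510553088)), (.ofNat (nat_lit 5947184)), (.ofNat (nat_lit 5947216)), (.ofNat (nat_lit 2589552193706583439851)), (.negSucc (nat_lit 2589552193706583341292)), (.negSucc (nat_lit 2589552193706583341292)), (.ofNat (nat_lit 2589552193706583439851)), (.ofNat (nat_lit 0))⟩,
    ⟨nat_lit 0, nat_lit 8, nat_lit 9, (.ofNat (nat_lit 8)), (.ofNat (nat_lit 158908224)), (.ofNat (nat_lit 482100039364987031421149630400)), (.ofNat (nat_lit 1310720)), (.ofNat (nat_lit 4751848991869129717991079936)), (.ofNat (nat_lit 158908208)), (.ofNat (nat_lit 158908240)), (.negSucc (nat_lit 2589552193706583341292)), (.ofNat (nat_lit 2589552193706583141867)), (.negSucc (nat_lit 2589552193706583341292)), (.ofNat (nat_lit 2589552193706583141867)), (.ofNat (nat_lit 0))⟩,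
    ⟨nat_lit 1, nat_lit 9, nat_lit 10, (.ofNat (nat_lit 8)), (.ofNat (nat_lit 244629312)), (.ofNat (nat_lit 704079270842302091104447221696)), (.ofNat (nat_lit 2359296)), (.ofNat (nat_lit 7467191272937203842557411328)), (.ofNat (nat_lit 244629296)), (.ofNat (nat_lit 244629328)), (.ofNat (nat_lit 2589552193706583141867)), (.negSucc (nat_lit 2589552193706583141866)), (.negSucc (nat_lit 2589552193706583141866)), (.ofNat (nat_lit 2589552193706583141867)), (.ofNat (nat_lit 0))⟩,
    ⟨nat_lit 0, nat_lit 11, nat_lit 10, (.ofNat (nat_lit 8)), (.ofNat (nat_lit 187219776)), (.ofNat (nat_lit 852744260730779149424453865408)), (.ofNat (nat_lit 1572864)), (.ofNat (nat_lit 9503697983738259435982159872)), (.ofNat (nat_lit 187219760)), (.ofNat (nat_lit 187219792)), (.ofNat (nat_lit 2589552193706583141867)), (.negSucc (nat_lit 2589552193706583141866)), (.negSucc (nat_lit 2589552193706583141866)), (.ofNat (nat_lit 2589552193706583141867)), (.ofNat (nat_lit 0))⟩,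
    ⟨nat_lit 2, nat_lit 12, nat_lit 11, (.ofNat (nat_lit 8)), (.ofNat (nat_lit 144359232)), (.ofNat (nat_lit 741754644992121619582805069760)), (.ofNat (nat_lit 1048576)), (.ofNat (nat_lit 8146026843204222373698994176)), (.ofNat (nat_lit 144359216)), (.ofNat (nat_lit 144359248)), (.negSucc (nat_lit 2589552193706583141866)), (.ofNat (nat_lit 2589552193706583141867)), (.negSucc (nat_lit 2589552193706583141866)), (.ofNat (nat_lit 2589552193706583141867)), (.ofNat (nat_lit 0))⟩,
    ⟨nat_lit 1, nat_lit 13, nat_lit 12, (.ofNat (nat_lit 8)), (.ofNat (nat_lit 220905280)), (.ofNat (nat_lit 543534658474152208489462878144)), (.ofNat (nat_lit 2097152)), (.ofNat (nat_lit 5430684562136148249132662784)), (.ofNat (nat_lit 220905264)), (.ofNat (nat_lit 220905296)), (.ofNat (nat_lit 2589552193706583141867)), (.negSucc (nat_lit 2589552193706583141866)), (.negSucc (nat_lit 2589552193706583141866)), (.ofNat (nat_lit 2589552193706583141867)), (.ofNat (nat_lit 0))⟩,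
    ⟨nat_lit 0, nat_lit 14, nat_lit 13, (.ofNat (nat_lit 8)), (.ofNat (nat_lit 153665344)), (.ofNat (nat_lit 369413334700661955251646877632)), (.ofNat (nat_lit 1310720)), (.ofNat (nat_lit 3394177851335092655707914240)), (.ofNat (nat_lit 153665328)), (.ofNat (nat_lit 153665360)), (.negSucc (nat_lit 2589552193706583141866)), (.ofNat (nat_lit 2589552193706583141867)), (.negSucc (nat_lit 2589552193706583141866)), (.ofNat (nat_lit 2589552193706583141867)), (.ofNat (nat_lit 0))⟩,
    ⟨nat_lit 0, nat_lit 15, nat_lit 14, (.ofNat (nat_lit 8)), (.negSucc (nat_lit 35209407)), (.ofNat (nat_lit 858514363078048806939157319616)), (.negSucc (nat_lit 37486591)), (.ofNat (nat_lit 103861842250853835264662175744)), (.negSucc (nat_lit 35209423)), (.negSucc (nat_lit 35209391)), (.ofNat (nat_lit 2589552193706583141867)), (.negSucc (nat_lit 2589552193706583141866)), (.negSucc (nat_lit 2589552193706583141866)), (.ofNat (nat_lit 2589552193706583141867)), (.ofNat (nat_lit 0))⟩,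
    ⟨nat_lit 0, nat_lit 6, nat_lit 15, (.ofNat (nat_lit 8)), (.negSucc (nat_lit 118669503)), (.ofNat (nat_lit 642390088394286782086955880384)), (.negSucc (nat_lit 38273023)), (.ofNat (nat_lit 101825335540052779671237427200)), (.negSucc (nat_lit 118669519)), (.negSucc (nat_lit 118669487)), (.negSucc (nat_lit 2589552193706583141866)), (.ofNat (nat_lit 2589552193706583141867)), (.negSucc (nat_lit 2589552193706583141866)), (.ofNat (nat_lit 2589552193706583141867)), (.ofNat (nat_lit 0))⟩,
    ⟨nat_lit 0, nat_lit 23, nat_lit 16, (.ofNat (nat_lit 8)), (.negSucc (nat_lit 9961535)), (.ofNat (nat_lit 243022968424252236927365580096)), (.negSucc (nat_lit 524287)), (.ofNat (nat_lit 2715342281068074124566331392)), (.negSucc (nat_lit 9961551)), (.negSucc (nat_lit 9961519)), (.negSucc (nat_lit 2589552193706583068525)), (.ofNat (nat_lit 2589552193706583141867)), (.negSucc (nat_lit 2589552193706583068525)), (.ofNat (nat_lit 2589552193706583141867)), (.ofNat (nat_lit 0))⟩,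
    ⟨nat_lit 1, nat_lit 16, nat_lit 17, (.ofNat (nat_lit 8)), (.ofNat (nat_lit 184926016)), (.ofNat (nat_lit 747694456231958031730293919680)), (.ofNat (nat_lit 1572864)), (.ofNat (nat_lit 8146026843204222373698994176)), (.ofNat (nat_lit 184926000)), (.ofNat (nat_lit 184926032)), (.ofNat (nat_lit 2589552193706583141867)), (.negSucc (nat_lit 2589552193706583141866)), (.negSucc (nat_lit 2589552193706583141866)), (.ofNat (nat_lit 2589552193706583141867)), (.ofNat (nat_lit 0))⟩,
    ⟨nat_lit 0, nat_lit 18, nat_lit 17, (.ofNat (nat_lit 8)), (.ofNat (nat_lit 146652992)), (.ofNat (nat_lit 846804449490942737276965015488)), (.ofNat (nat_lit 1048576)), (.ofNat (nat_lit 9503697983738259435982159872)), (.ofNat (nat_lit 146652976)), (.ofNat (nat_lit 146653008)), (.ofNat (nat_lit 2589552193706583141867)), (.negSucc (nat_lit 2589552193706583141866)), (.negSucc (nat_lit 2589552193706583141866)), (.ofNat (nat_lit 2589552193706583141867)), (.ofNat (nat_lit 0))⟩,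
    ⟨nat_lit 0, nat_lit 19, nat_lit 18, (.ofNat (nat_lit 8)), (.ofNat (nat_lit 15122240)), (.ofNat (nat_lit 506198702109466189276675821504)), (.negSucc (nat_lit 524287)), (.ofNat (nat_lit 5430684562136148249132662784)), (.ofNat (nat_lit 15122224)), (.ofNat (nat_lit 15122256)), (.negSucc (nat_lit 2589552193706583141866)), (.ofNat (nat_lit 2589552193706583141867)), (.negSucc (nat_lit 2589552193706583141866)), (.ofNat (nat_lit 2589552193706583141867)), (.ofNat (nat_lit 0))⟩,
    ⟨nat_lit 2, nat_lit 19, nat_lit 20, (.ofNat (nat_lit 8)), (.negSucc (nat_lit 117391551)), (.ofNat (nat_lit 849350082879444056768745951168)), (.negSucc (nat_lit 38273023)), (.ofNat (nat_lit 103183006680586816733520592896)), (.negSucc (nat_lit 117391567)), (.negSucc (nat_lit 117391535)), (.negSucc (nat_lit 2589552193706583141866)), (.ofNat (nat_lit 2589552193706583141867)), (.negSucc (nat_lit 2589552193706583141866)), (.ofNat (nat_lit 2589552193706583141867)), (.ofNat (nat_lit 0))⟩,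
    ⟨nat_lit 0, nat_lit 20, nat_lit 21, (.ofNat (nat_lit 8)), (.negSucc (nat_lit 28721343)), (.ofNat (nat_lit 1078966214522263074927386349504)), (.negSucc (nat_lit 37224447)), (.ofNat (nat_lit 105898348961654890858086924288)), (.negSucc (nat_lit 28721359)), (.negSucc (nat_lit 28721327)), (.ofNat (nat_lit 2589552193706583141867)), (.negSucc (nat_lit 2589552193706583141866)), (.negSucc (nat_lit 2589552193706583141866)), (.ofNat (nat_lit 2589552193706583141867)), (.ofNat (nat_lit 0))⟩,
    ⟨nat_lit 1, nat_lit 22, nat_lit 21, (.ofNat (nat_lit 8)), (.ofNat (nat_lit 161201984)), (.ofNat (nat_lit 587149843863808149115309576128)), (.ofNat (nat_lit 1310720)), (.ofNat (nat_lit 6109520132403166780274245632)), (.ofNat (nat_lit 161201968)), (.ofNat (nat_lit 161202000)), (.ofNat (nat_lit 2589552193706583141867)), (.negSucc (nat_lit 2589552193706583141866)), (.negSucc (nat_lit 2589552193706583141866)), (.ofNat (nat_lit 2589552193706583141867)), (.ofNat (nat_lit 0))⟩,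
    ⟨nat_lit 2, nat_lit 23, nat_lit 7, (.ofNat (nat_lit 8)), (.negSucc (nat_lit 124649535)), (.ofNat (nat_lit 540013530416072835890475468096)), (.negSucc (nat_lit 1572863)), (.ofNat (nat_lit 5430684562136148172229050368)), (.negSucc (nat_lit 124649551)), (.negSucc (nat_lit 124649519)), (.negSucc (nat_lit 2589552193706583068525)), (.ofNat (nat_lit 2589552193706583439851)), (.negSucc (nat_lit 2589552193706583068525)), (.ofNat (nat_lit 2589552193706583439851)), (.ofNat (nat_lit 0))⟩]
  es := [
    ⟨nat_lit 1, nat_lit 0, (.negSucc (nat_lit 243400703)), (.negSucc (nat_lit 34340863)), (.negSucc (nat_lit 243400687)), (.negSucc (nat_lit 34340879)), (.negSucc (nat_lit 2589552193706583141866)), (.ofNat (nat_lit 0)), (.ofNat (nat_lit 0))⟩,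
    ⟨nat_lit 1, nat_lit 2, (.negSucc (nat_lit 243400703)), (.negSucc (nat_lit 115097791)), (.negSucc (nat_lit 243400687)), (.negSucc (nat_lit 115097807)), (.ofNat (nat_lit 2589552193706583141867)), (.ofNat (nat_lit 0)), (.ofNat (nat_lit 203650671080105559342474854400))⟩,
    ⟨nat_lit 2, nat_lit 3, (.negSucc (nat_lit 115097791)), (.ofNat (nat_lit 17416000)), (.negSucc (nat_lit 115097775)), (.ofNat (nat_lit 17415984)), (.negSucc (nat_lit 2589552193706583141866)), (.ofNat (nat_lit 0)), (.ofNat (nat_lit 5430684562136148249132662784))⟩,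
    ⟨nat_lit 3, nat_lit 4, (.ofNat (nat_lit 17416000)), (.ofNat (nat_lit 170377024)), (.ofNat (nat_lit 17416016)), (.ofNat (nat_lit 170377008)), (.ofNat (nat_lit 2589552193706583141867)), (.ofNat (nat_lit 0)), (.ofNat (nat_lit 8146026843204222373698994176))⟩,
    ⟨nat_lit 5, nat_lit 4, (.ofNat (nat_lit 18726720)), (.ofNat (nat_lit 170377024)), (.ofNat (nat_lit 18726736)), (.ofNat (nat_lit 170377008)), (.negSucc (nat_lit 2589552193706583141866)), (.ofNat (nat_lit 0)), (.ofNat (nat_lit 14934382545874407685114822656))⟩,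
    ⟨nat_lit 6, nat_lit 5, (.negSucc (nat_lit 196264127)), (.ofNat (nat_lit 18726720)), (.negSucc (nat_lit 196264111)), (.ofNat (nat_lit 18726704)), (.ofNat (nat_lit 2589552193706583141867)), (.ofNat (nat_lit 0)), (.ofNat (nat_lit 205008342220639596404758020096))⟩,
    ⟨nat_lit 6, nat_lit 15, (.negSucc (nat_lit 196264127)), (.negSucc (nat_lit 118669503)), (.negSucc (nat_lit 196264111)), (.negSucc (nat_lit 118669519)), (.negSucc (nat_lit 2589552193706583141866)), (.ofNat (nat_lit 0)), (.ofNat (nat_lit 2715342281068074124566331392))⟩,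
    ⟨nat_lit 23, nat_lit 7, (.negSucc (nat_lit 124649535)), (.ofNat (nat_lit 5947200)), (.negSucc (nat_lit 124649519)), (.ofNat (nat_lit 5947184)), (.ofNat (nat_lit 2589552193706583439851)), (.ofNat (nat_lit 0)), (.ofNat (nat_lit 9503697983738259827766853632))⟩,
    ⟨nat_lit 7, nat_lit 8, (.ofNat (nat_lit 5947200)), (.ofNat (nat_lit 158908224)), (.ofNat (nat_lit 5947216)), (.ofNat (nat_lit 158908208)), (.negSucc (nat_lit 2589552193706583341292)), (.ofNat (nat_lit 0)), (.ofNat (nat_lit 8146026843204222635090640896))⟩,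
    ⟨nat_lit 8, nat_lit 9, (.ofNat (nat_lit 158908224)), (.ofNat (nat_lit 244629312)), (.ofNat (nat_lit 158908240)), (.ofNat (nat_lit 244629296)), (.ofNat (nat_lit 2589552193706583141867)), (.ofNat (nat_lit 0)), (.ofNat (nat_lit 1357671140534037062283165696))⟩,
    ⟨nat_lit 10, nat_lit 9, (.ofNat (nat_lit 187219776)), (.ofNat (nat_lit 244629312)), (.ofNat (nat_lit 187219792)), (.ofNat (nat_lit 244629296)), (.negSucc (nat_lit 2589552193706583141866)), (.ofNat (nat_lit 0)), (.ofNat (nat_lit 13576711405340370622831656960))⟩,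
    ⟨nat_lit 11, nat_lit 10, (.ofNat (nat_lit 144359232)), (.ofNat (nat_lit 187219776)), (.ofNat (nat_lit 144359248)), (.ofNat (nat_lit 187219760)), (.ofNat (nat_lit 2589552193706583141867)), (.ofNat (nat_lit 0)), (.ofNat (nat_lit 5430684562136148249132662784))⟩,
    ⟨nat_lit 11, nat_lit 12, (.ofNat (nat_lit 144359232)), (.ofNat (nat_lit 220905280)), (.ofNat (nat_lit 144359248)), (.ofNat (nat_lit 220905264)), (.negSucc (nat_lit 2589552193706583141866)), (.ofNat (nat_lit 0)), (.ofNat (nat_lit 10861369124272296498265325568))⟩,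
    ⟨nat_lit 13, nat_lit 12, (.ofNat (nat_lit 153665344)), (.ofNat (nat_lit 220905280)), (.ofNat (nat_lit 153665360)), (.ofNat (nat_lit 220905264)), (.ofNat (nat_lit 2589552193706583141867)), (.ofNat (nat_lit 0)), (.ofNat (nat_lit 0))⟩,
    ⟨nat_lit 14, nat_lit 13, (.negSucc (nat_lit 35209407)), (.ofNat (nat_lit 153665344)), (.negSucc (nat_lit 35209391)), (.ofNat (nat_lit 153665328)), (.negSucc (nat_lit 2589552193706583141866)), (.ofNat (nat_lit 0)), (.ofNat (nat_lit 6788355702670185311415828480))⟩,
    ⟨nat_lit 15, nat_lit 14, (.negSucc (nat_lit 118669503)), (.negSucc (nat_lit 35209407)), (.negSucc (nat_lit 118669487)), (.negSucc (nat_lit 35209423)), (.ofNat (nat_lit 2589552193706583141867)), (.ofNat (nat_lit 0)), (.ofNat (nat_lit 200935328799037485217908523008))⟩,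
    ⟨nat_lit 16, nat_lit 17, (.negSucc (nat_lit 9961535)), (.ofNat (nat_lit 184926016)), (.negSucc (nat_lit 9961519)), (.ofNat (nat_lit 184926000)), (.ofNat (nat_lit 2589552193706583141867)), (.ofNat (nat_lit 0)), (.ofNat (nat_lit 4073013421602111186849497088))⟩,
    ⟨nat_lit 18, nat_lit 17, (.ofNat (nat_lit 146652992)), (.ofNat (nat_lit 184926016)), (.ofNat (nat_lit 146653008)), (.ofNat (nat_lit 184926000)), (.negSucc (nat_lit 2589552193706583141866)), (.ofNat (nat_lit 0)), (.ofNat (nat_lit 12219040264806333560548491264))⟩,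
    ⟨nat_lit 19, nat_lit 18, (.ofNat (nat_lit 15122240)), (.ofNat (nat_lit 146652992)), (.ofNat (nat_lit 15122256)), (.ofNat (nat_lit 146652976)), (.ofNat (nat_lit 2589552193706583141867)), (.ofNat (nat_lit 0)), (.ofNat (nat_lit 6788355702670185311415828480))⟩,
    ⟨nat_lit 20, nat_lit 19, (.negSucc (nat_lit 117391551)), (.ofNat (nat_lit 15122240)), (.negSucc (nat_lit 117391535)), (.ofNat (nat_lit 15122224)), (.negSucc (nat_lit 2589552193706583141866)), (.ofNat (nat_lit 0)), (.ofNat (nat_lit 4073013421602111186849497088))⟩,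
    ⟨nat_lit 20, nat_lit 21, (.negSucc (nat_lit 117391551)), (.negSucc (nat_lit 28721343)), (.negSucc (nat_lit 117391535)), (.negSucc (nat_lit 28721359)), (.ofNat (nat_lit 2589552193706583141867)), (.ofNat (nat_lit 0)), (.ofNat (nat_lit 202292999939571522280191688704))⟩,
    ⟨nat_lit 21, nat_lit 22, (.negSucc (nat_lit 28721343)), (.ofNat (nat_lit 161201984)), (.negSucc (nat_lit 28721327)), (.ofNat (nat_lit 161201968)), (.negSucc (nat_lit 2589552193706583141866)), (.ofNat (nat_lit 0)), (.ofNat (nat_lit 9503697983738259435982159872))⟩,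
    ⟨nat_lit 0, nat_lit 22, (.negSucc (nat_lit 34340863)), (.ofNat (nat_lit 161201984)), (.negSucc (nat_lit 34340847)), (.ofNat (nat_lit 161201968)), (.ofNat (nat_lit 2589552193706583141867)), (.ofNat (nat_lit 0)), (.ofNat (nat_lit 2715342281068074124566331392))⟩,
    ⟨nat_lit 23, nat_lit 16, (.negSucc (nat_lit 124649535)), (.negSucc (nat_lit 9961535)), (.negSucc (nat_lit 124649519)), (.negSucc (nat_lit 9961551)), (.negSucc (nat_lit 2589552193706583068525)), (.ofNat (nat_lit 0)), (.ofNat (nat_lit 1357671140534037100734971904))⟩]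

theorem ok24 : stOK 23 23 S24 = true := by decide +kernel

end LCA.CapJ
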