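import Pool.Agent.LCA.CapJ.C0
import Pool.Agent.LCA.CapJ.C1
import Pool.Agent.LCA.CapJ.C2
import Pool.Agent.LCA.CapJ.C3
import Pool.Agent.LCA.CapJ.C4
import Pool.Agent.LCA.CapJ.C5
import Pool.Agent.LCA.CapJ.C6
import Pool.Agent.LCA.CapJ.C7
import Pool.Agent.LCA.CapJ.C8
import Pool.Agent.LCA.CapJ.C9
import Pool.Agent.LCA.CapJ.C10
import Pool.Agent.LCA.CapJ.C11
import Pool.Agent.LCA.CapJ.C12
import Pool.Agent.LCA.CapJ.D0
import Pool.Agent.LCA.CapJ.D1
import Pool.Agent.LCA.CapJ.D2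
import Pool.Agent.LCA.CapJ.D3
import Pool.Agent.LCA.CapJ.D4
import Pool.Agent.LCA.CapJ.D5
import Pool.Agent.LCA.CapJ.D6
import Pool.Agent.LCA.CapJ.D7
import Pool.Agent.LCA.CapJ.D8
import Pool.Agent.LCA.CapJ.D9
import Pool.Agent.LCA.CapJ.D10
import Pool.Agent.LCA.CapJ.D11
import Pool.Agent.LCA.CapJ.D12
import Pool.Agent.LCA.All

set_option maxRecDepth 100000

namespace LCA.CapJ

open LCA

theorem beg (sh : Shape) : ∃ Λ : LC.LegKnot, Λ.carrier = (S0.cb 23 23).knot sh (S0.W 23) (S0.Q 23) ∧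
    AtD Λ.carrier sh 23 23 S0 1 :=
  rc_beg sh ok0 ok1 f0

theorem r1 (K : Set LC.R3) (sh : Shape) (h : AtD K sh 23 23 S0 1) :
    Rc K sh 23 23 S2 :=
  rc_go1 ok0 ok2 f1 h

theorem r2 (K : Set LC.R3) (sh : Shape) (h : Rc K sh 23 23 S2) :
    Rc K sh 23 23 S4 :=
  rc_wup ok3 ok4 ok2 f2 f3 f4 h

theorem r3 (K : Set LC.R3) (sh : Shape) (h : Rc K sh 23 23 S4) :
    Rc K sh 24 24 S6 :=
  rc_fld ok4 ok5 ok6 f5 f6 f7 f8 h

theorem r4 (K : Set LC.R3) (sh : Shape) (h : Rc K sh 24 24 S6) :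
    Rc K sh 24 24 S7 :=
  rc_go ok6 ok7 f9 h

theorem r5 (K : Set LC.R3) (sh : Shape) (h : Rc K sh 24 24 S7) :
    Rc K sh 25 25 S8 :=
  rc_ins ok7 ok8 f10 h

theorem r6 (K : Set LC.R3) (sh : Shape) (h : Rc K sh 25 25 S8) :
    Rc K sh 25 25 S9 :=
  rc_go ok8 ok9 f11 h

theorem r7 (K : Set LC.R3) (sh : Shape) (h : Rc K sh 25 25 S9) :
    Rc K sh 25 25 S10 :=
  rc_swp ok9 ok10 f12 h

theorem r8 (K : Set LC.R3) (sh : Shape) (h : Rc K sh 25 25 S10) :
    Rc K sh 25 25 S11 :=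
  rc_go ok10 ok11 f13 h

theorem r9 (K : Set LC.R3) (sh : Shape) (h : Rc K sh 25 25 S11) :
    Rc K sh 25 25 S12 :=
  rc_go ok11 ok12 f14 h

theorem r10 (K : Set LC.R3) (sh : Shape) (h : Rc K sh 25 25 S12) :
    Rc K sh 25 25 S13 :=
  rc_sdp ok12 ok13 ok14 ok15 f15 h

theorem r11 (K : Set LC.R3) (sh : Shape) (h : Rc K sh 25 25 S13) :
    Rc K sh 25 25 S16 :=
  rc_go ok13 ok16 f16 h

theorem r12 (K : Set LC.R3) (sh : Shape) (h : Rc K sh 25 25 S16) :
    Rc K sh 25 25 S17 :=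
  rc_go ok16 ok17 f17 h

theorem r13 (K : Set LC.R3) (sh : Shape) (h : Rc K sh 25 25 S17) :
    Rc K sh 25 25 S18 :=
  rc_go ok17 ok18 f18 h

theorem r14 (K : Set LC.R3) (sh : Shape) (h : Rc K sh 25 25 S18) :
    Rc K sh 24 24 S19 :=
  rc_del ok19 ok18 f19 h

theorem r15 (K : Set LC.R3) (sh : Shape) (h : Rc K sh 24 24 S19) :
    Rc K sh 23 23 S20 :=
  rc_del ok20 ok19 f20 h

theorem r16 (K : Set LC.R3) (sh : Shape) (h : Rc K sh 23 23 S20) :
    Rc K sh 23 23 S21 :=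
  rc_go ok20 ok21 f21 h

theorem r17 (K : Set LC.R3) (sh : Shape) (h : Rc K sh 23 23 S21) :
    Rc K sh 23 23 S22 :=
  rc_go ok21 ok22 f22 h

theorem r18 (K : Set LC.R3) (sh : Shape) (h : Rc K sh 23 23 S22) :
    Rc K sh 23 23 S23 :=
  rc_go ok22 ok23 f23 h

theorem r19 (K : Set LC.R3) (sh : Shape) (h : Rc K sh 23 23 S23) :
    Rc K sh 23 23 S24 :=
  rc_go ok23 ok24 f24 h

theorem r20 (K : Set LC.R3) (sh : Shape) (h : Rc K sh 23 23 S24) :
    Rc K sh 23 23 S25 :=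
  rc_go ok24 ok25 f25 h

theorem r21 (K : Set LC.R3) (sh : Shape) (h : Rc K sh 23 23 S25) :
    Rc K sh 23 23 S26 :=
  rc_go ok25 ok26 f26 h

theorem r22 (K : Set LC.R3) (sh : Shape) (h : Rc K sh 23 23 S26) :
    Rc K sh 23 23 S27 :=
  rc_go ok26 ok27 f27 h

theorem r23 (K : Set LC.R3) (sh : Shape) (h : Rc K sh 23 23 S27) :
    Rc K sh 23 23 S28 :=
  rc_go ok27 ok28 f28 h

theorem r24 (K : Set LC.R3) (sh : Shape) (h : Rc K sh 23 23 S28) :
    Rc K sh 23 23 S29 :=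
  rc_go ok28 ok29 f29 h

theorem r25 (K : Set LC.R3) (sh : Shape) (h : Rc K sh 23 23 S29) :
    Rc K sh 23 23 S30 :=
  rc_go ok29 ok30 f30 h

theorem r26 (K : Set LC.R3) (sh : Shape) (h : Rc K sh 23 23 S30) :
    Rc K sh 23 23 S31 :=
  rc_go ok30 ok31 f31 h

theorem r27 (K : Set LC.R3) (sh : Shape) (h : Rc K sh 23 23 S31) :
    Rc K sh 23 23 S32 :=
  rc_go ok31 ok32 f32 h

theorem r28 (K : Set LC.R3) (sh : Shape) (h : Rc K sh 23 23 S32) :
    Rc K sh 23 23 S33 :=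
  rc_go ok32 ok33 f33 h

theorem r29 (K : Set LC.R3) (sh : Shape) (h : Rc K sh 23 23 S33) :
    Rc K sh 23 23 S34 :=
  rc_go ok33 ok34 f34 h

theorem r30 (K : Set LC.R3) (sh : Shape) (h : Rc K sh 23 23 S34) :
    Rc K sh 23 23 S35 :=
  rc_go ok34 ok35 f35 h

theorem r31 (K : Set LC.R3) (sh : Shape) (h : Rc K sh 23 23 S35) :
    Rc K sh 23 23 S36 :=
  rc_go ok35 ok36 f36 h

theorem r32 (K : Set LC.R3) (sh : Shape) (h : Rc K sh 23 23 S36) :
    Rc K sh 23 23 S37 :=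
  rc_go ok36 ok37 f37 h

theorem r33 (K : Set LC.R3) (sh : Shape) (h : Rc K sh 23 23 S37) :
    Rc K sh 23 23 S38 :=
  rc_go ok37 ok38 f38 h

theorem r34 (K : Set LC.R3) (sh : Shape) (h : Rc K sh 23 23 S38) :
    Rc K sh 23 23 S39 :=
  rc_go ok38 ok39 f39 h

theorem r35 (K : Set LC.R3) (sh : Shape) (h : Rc K sh 23 23 S39) :
    Rc K sh 23 23 S40 :=
  rc_go ok39 ok40 f40 h

theorem r36 (K : Set LC.R3) (sh : Shape) (h : Rc K sh 23 23 S40) :
    Rc K sh 23 23 S41 :=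
  rc_go ok40 ok41 f41 h

theorem r37 (K : Set LC.R3) (sh : Shape) (h : Rc K sh 23 23 S41) :
    Rc K sh 23 23 S42 :=
  rc_go ok41 ok42 f42 h

theorem r38 (K : Set LC.R3) (sh : Shape) (h : Rc K sh 23 23 S42) :
    Rc K sh 23 23 S43 :=
  rc_go ok42 ok43 f43 h

theorem r39 (K : Set LC.R3) (sh : Shape) (h : Rc K sh 23 23 S43) :
    Rc K sh 23 23 S44 :=
  rc_go ok43 ok44 f44 h

theorem r40 (K : Set LC.R3) (sh : Shape) (h : Rc K sh 23 23 S44) :
    Rc K sh 23 23 S45 :=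
  rc_go ok44 ok45 f45 h

theorem r41 (K : Set LC.R3) (sh : Shape) (h : Rc K sh 23 23 S45) :
    Rc K sh 23 23 S46 :=
  rc_go ok45 ok46 f46 h

theorem r42 (K : Set LC.R3) (sh : Shape) (h : Rc K sh 23 23 S46) :
    Rc K sh 23 23 S47 :=
  rc_go ok46 ok47 f47 h

theorem r43 (K : Set LC.R3) (sh : Shape) (h : Rc K sh 23 23 S47) :
    Rc K sh 23 23 S48 :=
  rc_go ok47 ok48 f48 h

theorem r44 (K : Set LC.R3) (sh : Shape) (h : Rc K sh 23 23 S48) :
    Rc K sh 23 23 S49 :=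
  rc_sdp ok48 ok49 ok50 ok51 f49 h

theorem r45 (K : Set LC.R3) (sh : Shape) (h : Rc K sh 23 23 S49) :
    Rc K sh 23 23 S52 :=
  rc_go ok49 ok52 f50 h

theorem r46 (K : Set LC.R3) (sh : Shape) (h : Rc K sh 23 23 S52) :
    Rc K sh 23 23 S53 :=
  rc_go ok52 ok53 f51 h

theorem r47 (K : Set LC.R3) (sh : Shape) (h : Rc K sh 23 23 S53) :
    Rc K sh 23 23 S54 :=
  rc_go ok53 ok54 f52 h

theorem r48 (K : Set LC.R3) (sh : Shape) (h : Rc K sh 23 23 S54) :
    Rc K sh 23 23 S55 :=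
  rc_go ok54 ok55 f53 h

theorem r49 (K : Set LC.R3) (sh : Shape) (h : Rc K sh 23 23 S55) :
    Rc K sh 23 23 S56 :=
  rc_go ok55 ok56 f54 h

theorem r50 (K : Set LC.R3) (sh : Shape) (h : Rc K sh 23 23 S56) :
    Rc K sh 23 23 S58 :=
  rc_wup ok57 ok58 ok56 f55 f56 f57 h

theorem r51 (K : Set LC.R3) (sh : Shape) (h : Rc K sh 23 23 S58) :
    Rc K sh 24 24 S60 :=
  rc_fld ok58 ok59 ok60 f58 f59 f60 f61 h

theorem r52 (K : Set LC.R3) (sh : Shape) (h : Rc K sh 24 24 S60) :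
    Rc K sh 24 24 S61 :=
  rc_go ok60 ok61 f62 h

theorem r53 (K : Set LC.R3) (sh : Shape) (h : Rc K sh 24 24 S61) :
    Rc K sh 25 25 S62 :=
  rc_ins ok61 ok62 f63 h

theorem r54 (K : Set LC.R3) (sh : Shape) (h : Rc K sh 25 25 S62) :
    Rc K sh 25 25 S63 :=
  rc_go ok62 ok63 f64 h

theorem r55 (K : Set LC.R3) (sh : Shape) (h : Rc K sh 25 25 S63) :
    Rc K sh 25 25 S64 :=
  rc_swp ok63 ok64 f65 h

theorem r56 (K : Set LC.R3) (sh : Shape) (h : Rc K sh 25 25 S64) :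
    Rc K sh 25 25 S65 :=
  rc_go ok64 ok65 f66 h

theorem r57 (K : Set LC.R3) (sh : Shape) (h : Rc K sh 25 25 S65) :
    Rc K sh 25 25 S66 :=
  rc_go ok65 ok66 f67 h

theorem r58 (K : Set LC.R3) (sh : Shape) (h : Rc K sh 25 25 S66) :
    Rc K sh 25 25 S67 :=
  rc_sdp ok66 ok67 ok68 ok69 f68 h

theorem r59 (K : Set LC.R3) (sh : Shape) (h : Rc K sh 25 25 S67) :
    Rc K sh 25 25 S70 :=
  rc_go ok67 ok70 f69 h

theorem r60 (K : Set LC.R3) (sh : Shape) (h : Rc K sh 25 25 S70) :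
    Rc K sh 25 25 S71 :=
  rc_go ok70 ok71 f70 h

theorem r61 (K : Set LC.R3) (sh : Shape) (h : Rc K sh 25 25 S71) :
    Rc K sh 25 25 S72 :=
  rc_go ok71 ok72 f71 h

theorem r62 (K : Set LC.R3) (sh : Shape) (h : Rc K sh 25 25 S72) :
    Rc K sh 24 24 S73 :=
  rc_del ok73 ok72 f72 h

theorem r63 (K : Set LC.R3) (sh : Shape) (h : Rc K sh 24 24 S73) :
    Rc K sh 23 23 S74 :=
  rc_del ok74 ok73 f73 h

theorem r64 (K : Set LC.R3) (sh : Shape) (h : Rc K sh 23 23 S74) :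
    Rc K sh 23 23 S75 :=
  rc_go ok74 ok75 f74 h

theorem r65 (K : Set LC.R3) (sh : Shape) (h : Rc K sh 23 23 S75) :
    Rc K sh 23 23 S76 :=
  rc_go ok75 ok76 f75 h

theorem r66 (K : Set LC.R3) (sh : Shape) (h : Rc K sh 23 23 S76) :
    Rc K sh 23 23 S77 :=
  rc_go ok76 ok77 f76 h

theorem r67 (K : Set LC.R3) (sh : Shape) (h : Rc K sh 23 23 S77) :
    Rc K sh 23 23 S78 :=
  rc_go ok77 ok78 f77 h

theorem r68 (K : Set LC.R3) (sh : Shape) (h : Rc K sh 23 23 S78) :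
    Rc K sh 22 22 S79 :=
  rc_del ok79 ok78 f78 h

theorem r69 (K : Set LC.R3) (sh : Shape) (h : Rc K sh 22 22 S79) :
    Rc K sh 21 21 S80 :=
  rc_del ok80 ok79 f79 h

theorem r70 (K : Set LC.R3) (sh : Shape) (h : Rc K sh 21 21 S80) :
    Rc K sh 21 21 S81 :=
  rc_go ok80 ok81 f80 h

theorem r71 (K : Set LC.R3) (sh : Shape) (h : Rc K sh 21 21 S81) :
    Rc K sh 21 21 S82 :=
  rc_go ok81 ok82 f81 h

theorem r72 (K : Set LC.R3) (sh : Shape) (h : Rc K sh 21 21 S82) :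
    Rc K sh 21 21 S83 :=
  rc_go ok82 ok83 f82 h

theorem r73 (K : Set LC.R3) (sh : Shape) (h : Rc K sh 21 21 S83) :
    Rc K sh 21 21 S84 :=
  rc_go ok83 ok84 f83 h

theorem r74 (K : Set LC.R3) (sh : Shape) (h : Rc K sh 21 21 S84) :
    Rc K sh 21 21 S85 :=
  rc_go ok84 ok85 f84 h

theorem r75 (K : Set LC.R3) (sh : Shape) (h : Rc K sh 21 21 S85) :
    Rc K sh 21 21 S86 :=
  rc_go ok85 ok86 f85 h

theorem r76 (K : Set LC.R3) (sh : Shape) (h : Rc K sh 21 21 S86) :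
    Rc K sh 21 21 S87 :=
  rc_go ok86 ok87 f86 h

theorem r77 (K : Set LC.R3) (sh : Shape) (h : Rc K sh 21 21 S87) :
    Rc K sh 21 21 S88 :=
  rc_go ok87 ok88 f87 h

theorem r78 (K : Set LC.R3) (sh : Shape) (h : Rc K sh 21 21 S88) :
    Rc K sh 21 21 S89 :=
  rc_go ok88 ok89 f88 h

theorem r79 (K : Set LC.R3) (sh : Shape) (h : Rc K sh 21 21 S89) :
    Rc K sh 21 21 S90 :=
  rc_go ok89 ok90 f89 h

theorem r80 (K : Set LC.R3) (sh : Shape) (h : Rc K sh 21 21 S90) :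
    Rc K sh 21 21 S91 :=
  rc_go ok90 ok91 f90 h

theorem r81 (K : Set LC.R3) (sh : Shape) (h : Rc K sh 21 21 S91) :
    Rc K sh 21 21 S92 :=
  rc_go ok91 ok92 f91 h

theorem r82 (K : Set LC.R3) (sh : Shape) (h : Rc K sh 21 21 S92) :
    Rc K sh 21 21 S93 :=
  rc_go ok92 ok93 f92 h

theorem r83 (K : Set LC.R3) (sh : Shape) (h : Rc K sh 21 21 S93) :
    Rc K sh 21 21 S94 :=
  rc_go ok93 ok94 f93 h

theorem r84 (K : Set LC.R3) (sh : Shape) (h : Rc K sh 21 21 S94) :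
    Rc K sh 21 21 S95 :=
  rc_go ok94 ok95 f94 h

theorem r85 (K : Set LC.R3) (sh : Shape) (h : Rc K sh 21 21 S95) :
    Rc K sh 21 21 S96 :=
  rc_go ok95 ok96 f95 h

theorem r86 (K : Set LC.R3) (sh : Shape) (h : Rc K sh 21 21 S96) :
    Rc K sh 20 20 S97 :=
  rc_del ok97 ok96 f96 h

theorem r87 (K : Set LC.R3) (sh : Shape) (h : Rc K sh 20 20 S97) :
    Rc K sh 19 19 S98 :=
  rc_del ok98 ok97 f97 h

theorem r88 (K : Set LC.R3) (sh : Shape) (h : Rc K sh 19 19 S98) :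
    Rc K sh 19 19 S99 :=
  rc_go ok98 ok99 f98 h

theorem r89 (K : Set LC.R3) (sh : Shape) (h : Rc K sh 19 19 S99) :
    Rc K sh 19 19 S100 :=
  rc_go ok99 ok100 f99 h

theorem r90 (K : Set LC.R3) (sh : Shape) (h : Rc K sh 19 19 S100) :
    Rc K sh 19 19 S101 :=
  rc_go ok100 ok101 f100 h

theorem r91 (K : Set LC.R3) (sh : Shape) (h : Rc K sh 19 19 S101) :
    Rc K sh 19 19 S102 :=
  rc_go ok101 ok102 f101 h

theorem r92 (K : Set LC.R3) (sh : Shape) (h : Rc K sh 19 19 S102) :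
    Rc K sh 19 19 S103 :=
  rc_go ok102 ok103 f102 h

theorem r93 (K : Set LC.R3) (sh : Shape) (h : Rc K sh 19 19 S103) :
    Rc K sh 19 19 S104 :=
  rc_go ok103 ok104 f103 h

theorem r94 (K : Set LC.R3) (sh : Shape) (h : Rc K sh 19 19 S104) :
    Rc K sh 19 19 S105 :=
  rc_go ok104 ok105 f104 h

theorem r95 (K : Set LC.R3) (sh : Shape) (h : Rc K sh 19 19 S105) :
    Rc K sh 19 19 S106 :=
  rc_go ok105 ok106 f105 h

theorem r96 (K : Set LC.R3) (sh : Shape) (h : Rc K sh 19 19 S106) :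
    Rc K sh 19 19 S107 :=
  rc_go ok106 ok107 f106 h

theorem r97 (K : Set LC.R3) (sh : Shape) (h : Rc K sh 19 19 S107) :
    Rc K sh 19 19 S108 :=
  rc_go ok107 ok108 f107 h

theorem r98 (K : Set LC.R3) (sh : Shape) (h : Rc K sh 19 19 S108) :
    Rc K sh 19 19 S109 :=
  rc_go ok108 ok109 f108 h

theorem r99 (K : Set LC.R3) (sh : Shape) (h : Rc K sh 19 19 S109) :
    Rc K sh 19 19 S110 :=
  rc_go ok109 ok110 f109 h

theorem r100 (K : Set LC.R3) (sh : Shape) (h : Rc K sh 19 19 S110) :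
    Rc K sh 19 19 S111 :=
  rc_go ok110 ok111 f110 h

theorem r101 (K : Set LC.R3) (sh : Shape) (h : Rc K sh 19 19 S111) :
    Rc K sh 19 19 S112 :=
  rc_go ok111 ok112 f111 h

theorem r102 (K : Set LC.R3) (sh : Shape) (h : Rc K sh 19 19 S112) :
    Rc K sh 19 19 S113 :=
  rc_go ok112 ok113 f112 h

theorem r103 (K : Set LC.R3) (sh : Shape) (h : Rc K sh 19 19 S113) :
    Rc K sh 19 19 S114 :=
  rc_go ok113 ok114 f113 h

theorem r104 (K : Set LC.R3) (sh : Shape) (h : Rc K sh 19 19 S114) :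
    Rc K sh 19 19 S115 :=
  rc_go ok114 ok115 f114 h

theorem r105 (K : Set LC.R3) (sh : Shape) (h : Rc K sh 19 19 S115) :
    Rc K sh 19 19 S116 :=
  rc_go ok115 ok116 f115 h

theorem r106 (K : Set LC.R3) (sh : Shape) (h : Rc K sh 19 19 S116) :
    Rc K sh 18 18 S117 :=
  rc_del ok117 ok116 f116 h

theorem r107 (K : Set LC.R3) (sh : Shape) (h : Rc K sh 18 18 S117) :
    Rc K sh 17 17 S118 :=
  rc_del ok118 ok117 f117 h

theorem r108 (K : Set LC.R3) (sh : Shape) (h : Rc K sh 17 17 S118) :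
    Rc K sh 17 17 S119 :=
  rc_go ok118 ok119 f118 h

theorem r109 (K : Set LC.R3) (sh : Shape) (h : Rc K sh 17 17 S119) :
    Rc K sh 17 17 S120 :=
  rc_go ok119 ok120 f119 h

theorem r110 (K : Set LC.R3) (sh : Shape) (h : Rc K sh 17 17 S120) :
    Rc K sh 17 17 S121 :=
  rc_go ok120 ok121 f120 h

theorem r111 (K : Set LC.R3) (sh : Shape) (h : Rc K sh 17 17 S121) :
    Rc K sh 17 17 S122 :=
  rc_go ok121 ok122 f121 h

theorem r112 (K : Set LC.R3) (sh : Shape) (h : Rc K sh 17 17 S122) :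
    Rc K sh 17 17 S123 :=
  rc_go ok122 ok123 f122 h

theorem r113 (K : Set LC.R3) (sh : Shape) (h : Rc K sh 17 17 S123) :
    Rc K sh 17 17 S124 :=
  rc_go ok123 ok124 f123 h

theorem r114 (K : Set LC.R3) (sh : Shape) (h : Rc K sh 17 17 S124) :
    Rc K sh 17 17 S125 :=
  rc_go ok124 ok125 f124 h

theorem r115 (K : Set LC.R3) (sh : Shape) (h : Rc K sh 17 17 S125) :
    Rc K sh 17 17 S126 :=
  rc_go ok125 ok126 f125 h

theorem r116 (K : Set LC.R3) (sh : Shape) (h : Rc K sh 17 17 S126) :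
    Rc K sh 17 17 S127 :=
  rc_go ok126 ok127 f126 h

theorem r117 (K : Set LC.R3) (sh : Shape) (h : Rc K sh 17 17 S127) :
    Rc K sh 17 17 S128 :=
  rc_go ok127 ok128 f127 h

theorem r118 (K : Set LC.R3) (sh : Shape) (h : Rc K sh 17 17 S128) :
    Rc K sh 17 17 S129 :=
  rc_go ok128 ok129 f128 h

theorem r119 (K : Set LC.R3) (sh : Shape) (h : Rc K sh 17 17 S129) :
    Rc K sh 17 17 S130 :=
  rc_go ok129 ok130 f129 h

theorem r120 (K : Set LC.R3) (sh : Shape) (h : Rc K sh 17 17 S130) :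
    Rc K sh 17 17 S131 :=
  rc_go ok130 ok131 f130 h

theorem r121 (K : Set LC.R3) (sh : Shape) (h : Rc K sh 17 17 S131) :
    Rc K sh 17 17 S132 :=
  rc_go ok131 ok132 f131 h

theorem r122 (K : Set LC.R3) (sh : Shape) (h : Rc K sh 17 17 S132) :
    Rc K sh 16 16 S133 :=
  rc_del ok133 ok132 f132 h

theorem r123 (K : Set LC.R3) (sh : Shape) (h : Rc K sh 16 16 S133) :
    Rc K sh 15 15 S134 :=
  rc_del ok134 ok133 f133 h

theorem r124 (K : Set LC.R3) (sh : Shape) (h : Rc K sh 15 15 S134) :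
    Rc K sh 15 15 S135 :=
  rc_go ok134 ok135 f134 h

theorem r125 (K : Set LC.R3) (sh : Shape) (h : Rc K sh 15 15 S135) :
    Rc K sh 15 15 S136 :=
  rc_go ok135 ok136 f135 h

theorem r126 (K : Set LC.R3) (sh : Shape) (h : Rc K sh 15 15 S136) :
    Rc K sh 15 15 S137 :=
  rc_go ok136 ok137 f136 h

theorem r127 (K : Set LC.R3) (sh : Shape) (h : Rc K sh 15 15 S137) :
    Rc K sh 15 15 S138 :=
  rc_go ok137 ok138 f137 h

theorem r128 (K : Set LC.R3) (sh : Shape) (h : Rc K sh 15 15 S138) :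
    Rc K sh 15 15 S139 :=
  rc_go ok138 ok139 f138 h

theorem r129 (K : Set LC.R3) (sh : Shape) (h : Rc K sh 15 15 S139) :
    Rc K sh 15 15 S140 :=
  rc_go ok139 ok140 f139 h

theorem r130 (K : Set LC.R3) (sh : Shape) (h : Rc K sh 15 15 S140) :
    Rc K sh 15 15 S141 :=
  rc_go ok140 ok141 f140 h

theorem r131 (K : Set LC.R3) (sh : Shape) (h : Rc K sh 15 15 S141) :
    Rc K sh 15 15 S142 :=
  rc_go ok141 ok142 f141 h

theorem r132 (K : Set LC.R3) (sh : Shape) (h : Rc K sh 15 15 S142) :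
    Rc K sh 15 15 S143 :=
  rc_go ok142 ok143 f142 h

theorem r133 (K : Set LC.R3) (sh : Shape) (h : Rc K sh 15 15 S143) :
    Rc K sh 15 15 S144 :=
  rc_go ok143 ok144 f143 h

theorem r134 (K : Set LC.R3) (sh : Shape) (h : Rc K sh 15 15 S144) :
    Rc K sh 15 15 S145 :=
  rc_go ok144 ok145 f144 h

theorem r135 (K : Set LC.R3) (sh : Shape) (h : Rc K sh 15 15 S145) :
    Rc K sh 15 15 S146 :=
  rc_go ok145 ok146 f145 h

theorem r136 (K : Set LC.R3) (sh : Shape) (h : Rc K sh 15 15 S146) :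
    Rc K sh 15 15 S147 :=
  rc_go ok146 ok147 f146 h

theorem r137 (K : Set LC.R3) (sh : Shape) (h : Rc K sh 15 15 S147) :
    Rc K sh 15 15 S148 :=
  rc_go ok147 ok148 f147 h

theorem r138 (K : Set LC.R3) (sh : Shape) (h : Rc K sh 15 15 S148) :
    Rc K sh 14 14 S149 :=
  rc_del ok149 ok148 f148 h

theorem r139 (K : Set LC.R3) (sh : Shape) (h : Rc K sh 14 14 S149) :
    Rc K sh 13 13 S150 :=
  rc_del ok150 ok149 f149 h

theorem r140 (K : Set LC.R3) (sh : Shape) (h : Rc K sh 13 13 S150) :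
    Rc K sh 13 13 S151 :=
  rc_go ok150 ok151 f150 h

theorem r141 (K : Set LC.R3) (sh : Shape) (h : Rc K sh 13 13 S151) :
    Rc K sh 13 13 S152 :=
  rc_go ok151 ok152 f151 h

theorem r142 (K : Set LC.R3) (sh : Shape) (h : Rc K sh 13 13 S152) :
    Rc K sh 13 13 S153 :=
  rc_go ok152 ok153 f152 h

theorem r143 (K : Set LC.R3) (sh : Shape) (h : Rc K sh 13 13 S153) :
    Rc K sh 13 13 S154 :=
  rc_go ok153 ok154 f153 h

theorem r144 (K : Set LC.R3) (sh : Shape) (h : Rc K sh 13 13 S154) :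
    Rc K sh 13 13 S155 :=
  rc_go ok154 ok155 f154 h

theorem r145 (K : Set LC.R3) (sh : Shape) (h : Rc K sh 13 13 S155) :
    Rc K sh 13 13 S156 :=
  rc_go ok155 ok156 f155 h

theorem r146 (K : Set LC.R3) (sh : Shape) (h : Rc K sh 13 13 S156) :
    Rc K sh 12 12 S157 :=
  rc_del ok157 ok156 f156 h

theorem r147 (K : Set LC.R3) (sh : Shape) (h : Rc K sh 12 12 S157) :
    Rc K sh 11 11 S158 :=
  rc_del ok158 ok157 f157 h

theorem r148 (K : Set LC.R3) (sh : Shape) (h : Rc K sh 11 11 S158) :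
    Rc K sh 11 11 S159 :=
  rc_go ok158 ok159 f158 h

theorem r149 (K : Set LC.R3) (sh : Shape) (h : Rc K sh 11 11 S159) :
    Rc K sh 11 11 S160 :=
  rc_go ok159 ok160 f159 h

theorem r150 (K : Set LC.R3) (sh : Shape) (h : Rc K sh 11 11 S160) :
    Rc K sh 11 11 S161 :=
  rc_go ok160 ok161 f160 h

theorem r151 (K : Set LC.R3) (sh : Shape) (h : Rc K sh 11 11 S161) :
    Rc K sh 11 11 S162 :=
  rc_sdp ok161 ok162 ok163 ok164 f161 h

theorem r152 (K : Set LC.R3) (sh : Shape) (h : Rc K sh 11 11 S162) :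
    Rc K sh 11 11 S165 :=
  rc_go ok162 ok165 f162 h

theorem r153 (K : Set LC.R3) (sh : Shape) (h : Rc K sh 11 11 S165) :
    Rc K sh 11 11 S166 :=
  rc_go ok165 ok166 f163 h

theorem r154 (K : Set LC.R3) (sh : Shape) (h : Rc K sh 11 11 S166) :
    Rc K sh 11 11 S167 :=
  rc_go ok166 ok167 f164 h

theorem r155 (K : Set LC.R3) (sh : Shape) (h : Rc K sh 11 11 S167) :
    Rc K sh 11 11 S168 :=
  rc_go ok167 ok168 f165 h

theorem r156 (K : Set LC.R3) (sh : Shape) (h : Rc K sh 11 11 S168) :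
    Rc K sh 11 11 S169 :=
  rc_go ok168 ok169 f166 h

theorem r157 (K : Set LC.R3) (sh : Shape) (h : Rc K sh 11 11 S169) :
    Rc K sh 11 11 S170 :=
  rc_go ok169 ok170 f167 h

theorem r158 (K : Set LC.R3) (sh : Shape) (h : Rc K sh 11 11 S170) :
    Rc K sh 11 11 S171 :=
  rc_go ok170 ok171 f168 h

theorem r159 (K : Set LC.R3) (sh : Shape) (h : Rc K sh 11 11 S171) :
    Rc K sh 10 10 S172 :=
  rc_del ok172 ok171 f169 h

theorem r160 (K : Set LC.R3) (sh : Shape) (h : Rc K sh 10 10 S172) :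
    Rc K sh 9 9 S173 :=
  rc_del ok173 ok172 f170 h

theorem r161 (K : Set LC.R3) (sh : Shape) (h : Rc K sh 9 9 S173) :
    Rc K sh 9 9 S174 :=
  rc_go ok173 ok174 f171 h

theorem r162 (K : Set LC.R3) (sh : Shape) (h : Rc K sh 9 9 S174) :
    Rc K sh 9 9 S175 :=
  rc_go ok174 ok175 f172 h

theorem r163 (K : Set LC.R3) (sh : Shape) (h : Rc K sh 9 9 S175) :
    Rc K sh 9 9 S176 :=
  rc_go ok175 ok176 f173 h

theorem r164 (K : Set LC.R3) (sh : Shape) (h : Rc K sh 9 9 S176) :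
    Rc K sh 9 9 S177 :=
  rc_go ok176 ok177 f174 h

theorem r165 (K : Set LC.R3) (sh : Shape) (h : Rc K sh 9 9 S177) :
    Rc K sh 8 8 S178 :=
  rc_del ok178 ok177 f175 h

theorem r166 (K : Set LC.R3) (sh : Shape) (h : Rc K sh 8 8 S178) :
    Rc K sh 7 7 S179 :=
  rc_del ok179 ok178 f176 h

theorem r167 (K : Set LC.R3) (sh : Shape) (h : Rc K sh 7 7 S179) :
    Rc K sh 7 7 S180 :=
  rc_go ok179 ok180 f177 h

theorem r168 (K : Set LC.R3) (sh : Shape) (h : Rc K sh 7 7 S180) :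
    Rc K sh 7 7 S181 :=
  rc_go ok180 ok181 f178 h

theorem r169 (K : Set LC.R3) (sh : Shape) (h : Rc K sh 7 7 S181) :
    Rc K sh 7 7 S182 :=
  rc_go ok181 ok182 f179 h

theorem r170 (K : Set LC.R3) (sh : Shape) (h : Rc K sh 7 7 S182) :
    Rc K sh 7 7 S184 :=
  rc_wup ok183 ok184 ok182 f180 f181 f182 h

theorem r171 (K : Set LC.R3) (sh : Shape) (h : Rc K sh 7 7 S184) :
    Rc K sh 7 7 S185 :=
  rc_go ok184 ok185 f183 h

theorem r172 (K : Set LC.R3) (sh : Shape) (h : Rc K sh 7 7 S185) :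
    Rc K sh 7 7 S186 :=
  rc_swp ok185 ok186 f184 h

theorem r173 (K : Set LC.R3) (sh : Shape) (h : Rc K sh 7 7 S186) :
    Rc K sh 7 7 S187 :=
  rc_swp ok186 ok187 f185 h

theorem r174 (K : Set LC.R3) (sh : Shape) (h : Rc K sh 7 7 S187) :
    Rc K sh 7 7 S188 :=
  rc_swp ok187 ok188 f186 h

theorem r175 (K : Set LC.R3) (sh : Shape) (h : Rc K sh 7 7 S188) :
    Rc K sh 7 7 S189 :=
  rc_go ok188 ok189 f187 h

theorem r176 (K : Set LC.R3) (sh : Shape) (h : Rc K sh 7 7 S189) :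
    Rc K sh 8 8 S190 :=
  rc_ins ok189 ok190 f188 h

theorem r177 (K : Set LC.R3) (sh : Shape) (h : Rc K sh 8 8 S190) :
    Rc K sh 8 8 S191 :=
  rc_go ok190 ok191 f189 h

theorem r178 (K : Set LC.R3) (sh : Shape) (h : Rc K sh 8 8 S191) :
    Rc K sh 8 8 S192 :=
  rc_go ok191 ok192 f190 h

theorem r179 (K : Set LC.R3) (sh : Shape) (h : Rc K sh 8 8 S192) :
    Rc K sh 8 8 S193 :=
  rc_go ok192 ok193 f191 h

theorem r180 (K : Set LC.R3) (sh : Shape) (h : Rc K sh 8 8 S193) :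
    Rc K sh 7 7 S194 :=
  rc_del ok194 ok193 f192 h

theorem r181 (K : Set LC.R3) (sh : Shape) (h : Rc K sh 7 7 S194) :
    Rc K sh 6 6 S195 :=
  rc_del ok195 ok194 f193 h

theorem r182 (K : Set LC.R3) (sh : Shape) (h : Rc K sh 6 6 S195) :
    Rc K sh 6 6 S196 :=
  rc_go ok195 ok196 f194 h

theorem r183 (K : Set LC.R3) (sh : Shape) (h : Rc K sh 6 6 S196) :
    Rc K sh 6 6 S197 :=
  rc_go ok196 ok197 f195 h

theorem r184 (K : Set LC.R3) (sh : Shape) (h : Rc K sh 6 6 S197) :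
    Rc K sh 6 6 S198 :=
  rc_go ok197 ok198 f196 h

theorem r185 (K : Set LC.R3) (sh : Shape) (h : Rc K sh 6 6 S198) :
    Rc K sh 7 7 S199 :=
  rc_ins ok198 ok199 f197 h

theorem r186 (K : Set LC.R3) (sh : Shape) (h : Rc K sh 7 7 S199) :
    Rc K sh 7 7 S200 :=
  rc_go ok199 ok200 f198 h

theorem r187 (K : Set LC.R3) (sh : Shape) (h : Rc K sh 7 7 S200) :
    Rc K sh 7 7 S201 :=
  rc_go ok200 ok201 f199 h

theorem r188 (K : Set LC.R3) (sh : Shape) (h : Rc K sh 7 7 S201) :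
    Rc K sh 7 7 S202 :=
  rc_go ok201 ok202 f200 h

theorem r189 (K : Set LC.R3) (sh : Shape) (h : Rc K sh 7 7 S202) :
    Rc K sh 7 7 S203 :=
  rc_go ok202 ok203 f201 h

theorem r190 (K : Set LC.R3) (sh : Shape) (h : Rc K sh 7 7 S203) :
    Rc K sh 6 6 S205 :=
  rc_unf ok204 ok205 ok203 f202 f203 f204 f205 h

theorem r191 (K : Set LC.R3) (sh : Shape) (h : Rc K sh 6 6 S205) :
    Rc K sh 6 6 S206 :=
  rc_go ok205 ok206 f206 h

theorem r192 (K : Set LC.R3) (sh : Shape) (h : Rc K sh 6 6 S206) :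
    Rc K sh 6 6 S207 :=
  rc_go ok206 ok207 f207 h

theorem r193 (K : Set LC.R3) (sh : Shape) (h : Rc K sh 6 6 S207) :
    Rc K sh 5 5 S208 :=
  rc_del ok208 ok207 f208 h

theorem r194 (K : Set LC.R3) (sh : Shape) (h : Rc K sh 5 5 S208) :
    Rc K sh 5 5 S209 :=
  rc_go ok208 ok209 f209 h

theorem r195 (K : Set LC.R3) (sh : Shape) (h : Rc K sh 5 5 S209) :
    Rc K sh 5 5 S210 :=
  rc_go ok209 ok210 f210 h

theorem r196 (K : Set LC.R3) (sh : Shape) (h : Rc K sh 5 5 S210) :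
    Rc K sh 6 6 S211 :=
  rc_ins ok210 ok211 f211 h

theorem r197 (K : Set LC.R3) (sh : Shape) (h : Rc K sh 6 6 S211) :
    Rc K sh 7 7 S212 :=
  rc_ins ok211 ok212 f212 h

theorem r198 (K : Set LC.R3) (sh : Shape) (h : Rc K sh 7 7 S212) :
    Rc K sh 7 7 S213 :=
  rc_go ok212 ok213 f213 h

theorem r199 (K : Set LC.R3) (sh : Shape) (h : Rc K sh 7 7 S213) :
    Rc K sh 7 7 S214 :=
  rc_go ok213 ok214 f214 h

theorem r200 (K : Set LC.R3) (sh : Shape) (h : Rc K sh 7 7 S214) :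
    Rc K sh 8 8 S216 :=
  rc_fld ok214 ok215 ok216 f215 f216 f217 f218 h

theorem r201 (K : Set LC.R3) (sh : Shape) (h : Rc K sh 8 8 S216) :
    Rc K sh 8 8 S217 :=
  rc_go ok216 ok217 f219 h

theorem r202 (K : Set LC.R3) (sh : Shape) (h : Rc K sh 8 8 S217) :
    Rc K sh 8 8 S218 :=
  rc_go ok217 ok218 f220 h

theorem r203 (K : Set LC.R3) (sh : Shape) (h : Rc K sh 8 8 S218) :
    Rc K sh 8 8 S219 :=
  rc_go ok218 ok219 f221 h

theorem r204 (K : Set LC.R3) (sh : Shape) (h : Rc K sh 8 8 S219) :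
    Rc K sh 8 8 S220 :=
  rc_go ok219 ok220 f222 h

theorem r205 (K : Set LC.R3) (sh : Shape) (h : Rc K sh 8 8 S220) :
    Rc K sh 9 9 S221 :=
  rc_ins ok220 ok221 f223 h

theorem r206 (K : Set LC.R3) (sh : Shape) (h : Rc K sh 9 9 S221) :
    Rc K sh 10 10 S222 :=
  rc_ins ok221 ok222 f224 h

theorem r207 (K : Set LC.R3) (sh : Shape) (h : Rc K sh 10 10 S222) :
    Rc K sh 11 11 S223 :=
  rc_ins ok222 ok223 f225 h

theorem r208 (K : Set LC.R3) (sh : Shape) (h : Rc K sh 11 11 S223) :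
    Rc K sh 12 12 S224 :=
  rc_ins ok223 ok224 f226 h

theorem r209 (K : Set LC.R3) (sh : Shape) (h : Rc K sh 12 12 S224) :
    Rc K sh 12 12 S225 :=
  rc_go ok224 ok225 f227 h

theorem r210 (K : Set LC.R3) (sh : Shape) (h : Rc K sh 12 12 S225) :
    Rc K sh 12 12 S226 :=
  rc_go ok225 ok226 f228 h

theorem r211 (K : Set LC.R3) (sh : Shape) (h : Rc K sh 12 12 S226) :
    Rc K sh 12 12 S227 :=
  rc_go ok226 ok227 f229 h

theorem r212 (K : Set LC.R3) (sh : Shape) (h : Rc K sh 12 12 S227) :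
    Rc K sh 12 12 S228 :=
  rc_go ok227 ok228 f230 h

theorem r213 (K : Set LC.R3) (sh : Shape) (h : Rc K sh 12 12 S228) :
    Rc K sh 12 12 S229 :=
  rc_go ok228 ok229 f231 h

theorem r214 (K : Set LC.R3) (sh : Shape) (h : Rc K sh 12 12 S229) :
    Rc K sh 12 12 S230 :=
  rc_go ok229 ok230 f232 h

theorem r215 (K : Set LC.R3) (sh : Shape) (h : Rc K sh 12 12 S230) :
    Rc K sh 12 12 S235 :=
  rc_sdm ok231 ok232 ok233 ok234 ok235 ok230 f233 f234 f235 h

theorem r216 (K : Set LC.R3) (sh : Shape) (h : Rc K sh 12 12 S235) :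
    Rc K sh 12 12 S236 :=
  rc_go ok235 ok236 f236 h

theorem r217 (K : Set LC.R3) (sh : Shape) (h : Rc K sh 12 12 S236) :
    Rc K sh 12 12 S237 :=
  rc_go ok236 ok237 f237 h

theorem r218 (K : Set LC.R3) (sh : Shape) (h : Rc K sh 12 12 S237) :
    Rc K sh 12 12 S238 :=
  rc_go ok237 ok238 f238 h

theorem r219 (K : Set LC.R3) (sh : Shape) (h : Rc K sh 12 12 S238) :
    Rc K sh 12 12 S239 :=
  rc_go ok238 ok239 f239 h

theorem r220 (K : Set LC.R3) (sh : Shape) (h : Rc K sh 12 12 S239) :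
    Rc K sh 12 12 S240 :=
  rc_go ok239 ok240 f240 h

theorem r221 (K : Set LC.R3) (sh : Shape) (h : Rc K sh 12 12 S240) :
    Rc K sh 11 11 S242 :=
  rc_unf ok241 ok242 ok240 f241 f242 f243 f244 h

theorem r222 (K : Set LC.R3) (sh : Shape) (h : Rc K sh 11 11 S242) :
    Rc K sh 11 11 S243 :=
  rc_go ok242 ok243 f245 h

theorem r223 (K : Set LC.R3) (sh : Shape) (h : Rc K sh 11 11 S243) :
    Rc K sh 11 11 S244 :=
  rc_go ok243 ok244 f246 h

theorem r224 (K : Set LC.R3) (sh : Shape) (h : Rc K sh 11 11 S244) :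
    Rc K sh 10 10 S245 :=
  rc_del ok245 ok244 f247 h

theorem r225 (K : Set LC.R3) (sh : Shape) (h : Rc K sh 10 10 S245) :
    Rc K sh 9 9 S246 :=
  rc_del ok246 ok245 f248 h

theorem r226 (K : Set LC.R3) (sh : Shape) (h : Rc K sh 9 9 S246) :
    Rc K sh 9 9 S247 :=
  rc_go ok246 ok247 f249 h

theorem r227 (K : Set LC.R3) (sh : Shape) (h : Rc K sh 9 9 S247) :
    Rc K sh 9 9 S248 :=
  rc_go ok247 ok248 f250 h

theorem r228 (K : Set LC.R3) (sh : Shape) (h : Rc K sh 9 9 S248) :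
    Rc K sh 10 10 S249 :=
  rc_ins ok248 ok249 f251 h

theorem r229 (K : Set LC.R3) (sh : Shape) (h : Rc K sh 10 10 S249) :
    Rc K sh 11 11 S250 :=
  rc_ins ok249 ok250 f252 h

theorem r230 (K : Set LC.R3) (sh : Shape) (h : Rc K sh 11 11 S250) :
    Rc K sh 11 11 S251 :=
  rc_go ok250 ok251 f253 h

theorem r231 (K : Set LC.R3) (sh : Shape) (h : Rc K sh 11 11 S251) :
    Rc K sh 11 11 S252 :=
  rc_go ok251 ok252 f254 h

theorem r232 (K : Set LC.R3) (sh : Shape) (h : Rc K sh 11 11 S252) :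
    Rc K sh 12 12 S254 :=
  rc_fld ok252 ok253 ok254 f255 f256 f257 f258 h

theorem r233 (K : Set LC.R3) (sh : Shape) (h : Rc K sh 12 12 S254) :
    Rc K sh 12 12 S255 :=
  rc_swp ok254 ok255 f259 h

theorem r234 (K : Set LC.R3) (sh : Shape) (h : Rc K sh 12 12 S255) :
    Rc K sh 12 12 S256 :=
  rc_go ok255 ok256 f260 h

theorem r235 (K : Set LC.R3) (sh : Shape) (h : Rc K sh 12 12 S256) :
    Rc K sh 12 12 S257 :=
  rc_go ok256 ok257 f261 h

theorem r236 (K : Set LC.R3) (sh : Shape) (h : Rc K sh 12 12 S257) :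
    Rc K sh 12 12 S258 :=
  rc_go ok257 ok258 f262 h

theorem r237 (K : Set LC.R3) (sh : Shape) (h : Rc K sh 12 12 S258) :
    Rc K sh 12 12 S259 :=
  rc_go ok258 ok259 f263 h

theorem r238 (K : Set LC.R3) (sh : Shape) (h : Rc K sh 12 12 S259) :
    Rc K sh 12 12 S260 :=
  rc_sdp ok259 ok260 ok261 ok262 f264 h

theorem r239 (K : Set LC.R3) (sh : Shape) (h : Rc K sh 12 12 S260) :
    Rc K sh 12 12 S263 :=
  rc_go ok260 ok263 f265 h

theorem r240 (K : Set LC.R3) (sh : Shape) (h : Rc K sh 12 12 S263) :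
    Rc K sh 12 12 S264 :=
  rc_go ok263 ok264 f266 h

theorem r241 (K : Set LC.R3) (sh : Shape) (h : Rc K sh 12 12 S264) :
    Rc K sh 12 12 S265 :=
  rc_go ok264 ok265 f267 h

theorem r242 (K : Set LC.R3) (sh : Shape) (h : Rc K sh 12 12 S265) :
    Rc K sh 12 12 S266 :=
  rc_go ok265 ok266 f268 h

theorem r243 (K : Set LC.R3) (sh : Shape) (h : Rc K sh 12 12 S266) :
    Rc K sh 11 11 S267 :=
  rc_del ok267 ok266 f269 h

theorem r244 (K : Set LC.R3) (sh : Shape) (h : Rc K sh 11 11 S267) :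
    Rc K sh 12 12 S268 :=
  rc_ins ok267 ok268 f270 h

theorem r245 (K : Set LC.R3) (sh : Shape) (h : Rc K sh 12 12 S268) :
    Rc K sh 12 12 S269 :=
  rc_go ok268 ok269 f271 h

theorem r246 (K : Set LC.R3) (sh : Shape) (h : Rc K sh 12 12 S269) :
    Rc K sh 12 12 S270 :=
  rc_go ok269 ok270 f272 h

theorem r247 (K : Set LC.R3) (sh : Shape) (h : Rc K sh 12 12 S270) :
    Rc K sh 12 12 S271 :=
  rc_go ok270 ok271 f273 h

theorem r248 (K : Set LC.R3) (sh : Shape) (h : Rc K sh 12 12 S271) :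
    Rc K sh 12 12 S272 :=
  rc_go ok271 ok272 f274 h

theorem r249 (K : Set LC.R3) (sh : Shape) (h : Rc K sh 12 12 S272) :
    Rc K sh 12 12 S273 :=
  rc_go ok272 ok273 f275 h

theorem r250 (K : Set LC.R3) (sh : Shape) (h : Rc K sh 12 12 S273) :
    Rc K sh 12 12 S274 :=
  rc_go ok273 ok274 f276 h

theorem r251 (K : Set LC.R3) (sh : Shape) (h : Rc K sh 12 12 S274) :
    Rc K sh 12 12 S275 :=
  rc_sdp ok274 ok275 ok276 ok277 f277 h

theorem r252 (K : Set LC.R3) (sh : Shape) (h : Rc K sh 12 12 S275) :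
    Rc K sh 12 12 S278 :=
  rc_go ok275 ok278 f278 h

theorem r253 (K : Set LC.R3) (sh : Shape) (h : Rc K sh 12 12 S278) :
    Rc K sh 12 12 S279 :=
  rc_go ok278 ok279 f279 h

theorem r254 (K : Set LC.R3) (sh : Shape) (h : Rc K sh 12 12 S279) :
    Rc K sh 12 12 S280 :=
  rc_go ok279 ok280 f280 h

theorem r255 (K : Set LC.R3) (sh : Shape) (h : Rc K sh 12 12 S280) :
    Rc K sh 12 12 S281 :=
  rc_swp ok280 ok281 f281 h

theorem r256 (K : Set LC.R3) (sh : Shape) (h : Rc K sh 12 12 S281) :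
    Rc K sh 12 12 S282 :=
  rc_go ok281 ok282 f282 h

theorem r257 (K : Set LC.R3) (sh : Shape) (h : Rc K sh 12 12 S282) :
    Rc K sh 12 12 S283 :=
  rc_sdp ok282 ok283 ok284 ok285 f283 h

theorem r258 (K : Set LC.R3) (sh : Shape) (h : Rc K sh 12 12 S283) :
    Rc K sh 12 12 S286 :=
  rc_go ok283 ok286 f284 h

theorem r259 (K : Set LC.R3) (sh : Shape) (h : Rc K sh 12 12 S286) :
    Rc K sh 12 12 S287 :=
  rc_go ok286 ok287 f285 h

theorem r260 (K : Set LC.R3) (sh : Shape) (h : Rc K sh 12 12 S287) :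
    Rc K sh 12 12 S288 :=
  rc_go ok287 ok288 f286 h

theorem r261 (K : Set LC.R3) (sh : Shape) (h : Rc K sh 12 12 S288) :
    Rc K sh 11 11 S289 :=
  rc_del ok289 ok288 f287 h

theorem r262 (K : Set LC.R3) (sh : Shape) (h : Rc K sh 11 11 S289) :
    Rc K sh 10 10 S290 :=
  rc_del ok290 ok289 f288 h

theorem r263 (K : Set LC.R3) (sh : Shape) (h : Rc K sh 10 10 S290) :
    Rc K sh 9 9 S291 :=
  rc_del ok291 ok290 f289 h

theorem r264 (K : Set LC.R3) (sh : Shape) (h : Rc K sh 9 9 S291) :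
    Rc K sh 10 10 S292 :=
  rc_ins ok291 ok292 f290 h

theorem r265 (K : Set LC.R3) (sh : Shape) (h : Rc K sh 10 10 S292) :
    Rc K sh 11 11 S293 :=
  rc_ins ok292 ok293 f291 h

theorem r266 (K : Set LC.R3) (sh : Shape) (h : Rc K sh 11 11 S293) :
    Rc K sh 11 11 S294 :=
  rc_go ok293 ok294 f292 h

theorem r267 (K : Set LC.R3) (sh : Shape) (h : Rc K sh 11 11 S294) :
    Rc K sh 11 11 S295 :=
  rc_go ok294 ok295 f293 h

theorem r268 (K : Set LC.R3) (sh : Shape) (h : Rc K sh 11 11 S295) :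
    Rc K sh 11 11 S296 :=
  rc_go ok295 ok296 f294 h

theorem r269 (K : Set LC.R3) (sh : Shape) (h : Rc K sh 11 11 S296) :
    Rc K sh 11 11 S297 :=
  rc_go ok296 ok297 f295 h

theorem r270 (K : Set LC.R3) (sh : Shape) (h : Rc K sh 11 11 S297) :
    Rc K sh 10 10 S298 :=
  rc_del ok298 ok297 f296 h

theorem r271 (K : Set LC.R3) (sh : Shape) (h : Rc K sh 10 10 S298) :
    Rc K sh 9 9 S299 :=
  rc_del ok299 ok298 f297 h

theorem r272 (K : Set LC.R3) (sh : Shape) (h : Rc K sh 9 9 S299) :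
    Rc K sh 8 8 S300 :=
  rc_del ok300 ok299 f298 h

theorem r273 (K : Set LC.R3) (sh : Shape) (h : Rc K sh 8 8 S300) :
    Rc K sh 7 7 S301 :=
  rc_del ok301 ok300 f299 h

theorem r274 (K : Set LC.R3) (sh : Shape) (h : Rc K sh 7 7 S301) :
    Rc K sh 6 6 S302 :=
  rc_del ok302 ok301 f300 h

theorem r275 (K : Set LC.R3) (sh : Shape) (h : Rc K sh 6 6 S302) :
    Rc K sh 5 5 S303 :=
  rc_del ok303 ok302 f301 h

theorem r276 (K : Set LC.R3) (sh : Shape) (h : Rc K sh 5 5 S303) :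
    Rc K sh 4 4 S304 :=
  rc_del ok304 ok303 f302 h

theorem r277 (K : Set LC.R3) (sh : Shape) (h : Rc K sh 4 4 S304) :
    Rc K sh 3 3 S305 :=
  rc_del ok305 ok304 f303 h

theorem r278 (K : Set LC.R3) (sh : Shape) (h : Rc K sh 3 3 S305) :
    Rc K sh 3 3 S306 :=
  rc_swp ok305 ok306 f304 h

theorem r279 (K : Set LC.R3) (sh : Shape) (h : Rc K sh 3 3 S306) :
    Rc K sh 3 3 S307 :=
  rc_go ok306 ok307 f305 h

theorem r280 (K : Set LC.R3) (sh : Shape) (h : Rc K sh 3 3 S307) :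
    Rc K sh 3 3 S308 :=
  rc_go ok307 ok308 f306 h

theorem r281 (K : Set LC.R3) (sh : Shape) (h : Rc K sh 3 3 S308) : Capped K :=
  rc_dth ok308 f307 h

theorem capped (sh : Shape) : ∃ Λ : LC.LegKnot, Λ.carrier = (S0.cb 23 23).knot sh (S0.W 23) (S0.Q 23) ∧
    ∃ L, LC.IsExactCap Λ L := by
  obtain ⟨Λ, hΛ, h⟩ := beg sh
  refine ⟨Λ, hΛ, ?_⟩
  replace h := r1 _ sh h
  replace h := r2 _ sh h
  replace h := r3 _ sh h
  replace h := r4 _ sh h
  replace h := r5 _ sh h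
  replace h := r6 _ sh h
  replace h := r7 _ sh h
  replace h := r8 _ sh h
  replace h := r9 _ sh h
  replace h := r10 _ sh h
  replace h := r11 _ sh h
  replace h := r12 _ sh h
  replace h := r13 _ sh h
  replace h := r14 _ sh h
  replace h := r15 _ sh h
  replace h := r16 _ sh h
  replace h := r17 _ sh h
  replace h := r18 _ sh h
  replace h := r19 _ sh h
  replace h := r20 _ sh h
  replace h := r21 _ sh h
  replace h := r22 _ sh h
  replace h := r23 _ sh h
  replace h := r24 _ sh h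
  replace h := r25 _ sh h
  replace h := r26 _ sh h
  replace h := r27 _ sh h
  replace h := r28 _ sh h
  replace h := r29 _ sh h
  replace h := r30 _ sh h
  replace h := r31 _ sh h
  replace h := r32 _ sh h
  replace h := r33 _ sh h
  replace h := r34 _ sh h
  replace h := r35 _ sh h
  replace h := r36 _ sh h
  replace h := r37 _ sh h
  replace h := r38 _ sh h
  replace h := r39 _ sh h
  replace h := r40 _ sh h
  replace h := r41 _ sh h
  replace h := r42 _ sh h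
  replace h := r43 _ sh h
  replace h := r44 _ sh h
  replace h := r45 _ sh h
  replace h := r46 _ sh h
  replace h := r47 _ sh h
  replace h := r48 _ sh h
  replace h := r49 _ sh h
  replace h := r50 _ sh h
  replace h := r51 _ sh h
  replace h := r52 _ sh h
  replace h := r53 _ sh h
  replace h := r54 _ sh h
  replace h := r55 _ sh h
  replace h := r56 _ sh h
  replace h := r57 _ sh h
  replace h := r58 _ sh h
  replace h := r59 _ sh h
  replace h := r60 _ sh h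
  replace h := r61 _ sh h
  replace h := r62 _ sh h
  replace h := r63 _ sh h
  replace h := r64 _ sh h
  replace h := r65 _ sh h
  replace h := r66 _ sh h
  replace h := r67 _ sh h
  replace h := r68 _ sh h
  replace h := r69 _ sh h
  replace h := r70 _ sh h
  replace h := r71 _ sh h
  replace h := r72 _ sh h
  replace h := r73 _ sh h
  replace h := r74 _ sh h
  replace h := r75 _ sh h
  replace h := r76 _ sh h
  replace h := r77 _ sh h
  replace h := r78 _ sh h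
  replace h := r79 _ sh h
  replace h := r80 _ sh h
  replace h := r81 _ sh h
  replace h := r82 _ sh h
  replace h := r83 _ sh h
  replace h := r84 _ sh h
  replace h := r85 _ sh h
  replace h := r86 _ sh h
  replace h := r87 _ sh h
  replace h := r88 _ sh h
  replace h := r89 _ sh h
  replace h := r90 _ sh h
  replace h := r91 _ sh h
  replace h := r92 _ sh h
  replace h := r93 _ sh h
  replace h := r94 _ sh h
  replace h := r95 _ sh h
  replace h := r96 _ sh h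
  replace h := r97 _ sh h
  replace h := r98 _ sh h
  replace h := r99 _ sh h
  replace h := r100 _ sh h
  replace h := r101 _ sh h
  replace h := r102 _ sh h
  replace h := r103 _ sh h
  replace h := r104 _ sh h
  replace h := r105 _ sh h
  replace h := r106 _ sh h
  replace h := r107 _ sh h
  replace h := r108 _ sh h
  replace h := r109 _ sh h
  replace h := r110 _ sh h
  replace h := r111 _ sh h
  replace h := r112 _ sh h
  replace h := r113 _ sh h
  replace h := r114 _ sh h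
  replace h := r115 _ sh h
  replace h := r116 _ sh h
  replace h := r117 _ sh h
  replace h := r118 _ sh h
  replace h := r119 _ sh h
  replace h := r120 _ sh h
  replace h := r121 _ sh h
  replace h := r122 _ sh h
  replace h := r123 _ sh h
  replace h := r124 _ sh h
  replace h := r125 _ sh h
  replace h := r126 _ sh h
  replace h := r127 _ sh h
  replace h := r128 _ sh h
  replace h := r129 _ sh h
  replace h := r130 _ sh h
  replace h := r131 _ sh h
  replace h := r132 _ sh h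
  replace h := r133 _ sh h
  replace h := r134 _ sh h
  replace h := r135 _ sh h
  replace h := r136 _ sh h
  replace h := r137 _ sh h
  replace h := r138 _ sh h
  replace h := r139 _ sh h
  replace h := r140 _ sh h
  replace h := r141 _ sh h
  replace h := r142 _ sh h
  replace h := r143 _ sh h
  replace h := r144 _ sh h
  replace h := r145 _ sh h
  replace h := r146 _ sh h
  replace h := r147 _ sh h
  replace h := r148 _ sh h
  replace h := r149 _ sh h
  replace h := r150 _ sh h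
  replace h := r151 _ sh h
  replace h := r152 _ sh h
  replace h := r153 _ sh h
  replace h := r154 _ sh h
  replace h := r155 _ sh h
  replace h := r156 _ sh h
  replace h := r157 _ sh h
  replace h := r158 _ sh h
  replace h := r159 _ sh h
  replace h := r160 _ sh h
  replace h := r161 _ sh h
  replace h := r162 _ sh h
  replace h := r163 _ sh h
  replace h := r164 _ sh h
  replace h := r165 _ sh h
  replace h := r166 _ sh h
  replace h := r167 _ sh h
  replace h := r168 _ sh h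
  replace h := r169 _ sh h
  replace h := r170 _ sh h
  replace h := r171 _ sh h
  replace h := r172 _ sh h
  replace h := r173 _ sh h
  replace h := r174 _ sh h
  replace h := r175 _ sh h
  replace h := r176 _ sh h
  replace h := r177 _ sh h
  replace h := r178 _ sh h
  replace h := r179 _ sh h
  replace h := r180 _ sh h
  replace h := r181 _ sh h
  replace h := r182 _ sh h
  replace h := r183 _ sh h
  replace h := r184 _ sh h
  replace h := r185 _ sh h
  replace h := r186 _ sh h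
  replace h := r187 _ sh h
  replace h := r188 _ sh h
  replace h := r189 _ sh h
  replace h := r190 _ sh h
  replace h := r191 _ sh h
  replace h := r192 _ sh h
  replace h := r193 _ sh h
  replace h := r194 _ sh h
  replace h := r195 _ sh h
  replace h := r196 _ sh h
  replace h := r197 _ sh h
  replace h := r198 _ sh h
  replace h := r199 _ sh h
  replace h := r200 _ sh h
  replace h := r201 _ sh h
  replace h := r202 _ sh h
  replace h := r203 _ sh h
  replace h := r204 _ sh h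
  replace h := r205 _ sh h
  replace h := r206 _ sh h
  replace h := r207 _ sh h
  replace h := r208 _ sh h
  replace h := r209 _ sh h
  replace h := r210 _ sh h
  replace h := r211 _ sh h
  replace h := r212 _ sh h
  replace h := r213 _ sh h
  replace h := r214 _ sh h
  replace h := r215 _ sh h
  replace h := r216 _ sh h
  replace h := r217 _ sh h
  replace h := r218 _ sh h
  replace h := r219 _ sh h
  replace h := r220 _ sh h
  replace h := r221 _ sh h
  replace h := r222 _ sh h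
  replace h := r223 _ sh h
  replace h := r224 _ sh h
  replace h := r225 _ sh h
  replace h := r226 _ sh h
  replace h := r227 _ sh h
  replace h := r228 _ sh h
  replace h := r229 _ sh h
  replace h := r230 _ sh h
  replace h := r231 _ sh h
  replace h := r232 _ sh h
  replace h := r233 _ sh h
  replace h := r234 _ sh h
  replace h := r235 _ sh h
  replace h := r236 _ sh h
  replace h := r237 _ sh h
  replace h := r238 _ sh h
  replace h := r239 _ sh h
  replace h := r240 _ sh h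
  replace h := r241 _ sh h
  replace h := r242 _ sh h
  replace h := r243 _ sh h
  replace h := r244 _ sh h
  replace h := r245 _ sh h
  replace h := r246 _ sh h
  replace h := r247 _ sh h
  replace h := r248 _ sh h
  replace h := r249 _ sh h
  replace h := r250 _ sh h
  replace h := r251 _ sh h
  replace h := r252 _ sh h
  replace h := r253 _ sh h
  replace h := r254 _ sh h
  replace h := r255 _ sh h
  replace h := r256 _ sh h
  replace h := r257 _ sh h
  replace h := r258 _ sh h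
  replace h := r259 _ sh h
  replace h := r260 _ sh h
  replace h := r261 _ sh h
  replace h := r262 _ sh h
  replace h := r263 _ sh h
  replace h := r264 _ sh h
  replace h := r265 _ sh h
  replace h := r266 _ sh h
  replace h := r267 _ sh h
  replace h := r268 _ sh h
  replace h := r269 _ sh h
  replace h := r270 _ sh h
  replace h := r271 _ sh h
  replace h := r272 _ sh h
  replace h := r273 _ sh h
  replace h := r274 _ sh h
  replace h := r275 _ sh h
  replace h := r276 _ sh h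
  replace h := r277 _ sh h
  replace h := r278 _ sh h
  replace h := r279 _ sh h
  replace h := r280 _ sh h
  replace h := r281 _ sh h
  exact rc_fin h

end LCA.CapJ
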